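import Pool.Agent.Helper10.FamD.A5LowT

set_option autoImplicit false
set_option maxRecDepth 1000000

/-!
# Certificate data for `U ⊕ A5` (lower bound, subtrees)
-/

namespace Pool.Agent.Helper10.Fam.A5

open Pool.Agent.Helper10.Fam

def lt8 : Tr ℕ := (.bis 0 4 1 1 41 (.bis 4 6 2 1 23 (.bis 1 5 1 2 138 (.bis 5 6 2 1 14 (.bis 0 6
  1 1 47 (.bis 3 6 1 1 94 (.bis 1 6 1 2 140 (.bis 2 6 1 1 234 (.leaf 19) (.bis 2 4 2 1 235 (.leaf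
  8) (.bis 2 5 2 1 236 (.leaf 8) (.bis 0 2 1 2 259 (.leaf 8) (.leaf 8))))) (.bis 2 4 2 1 235
  (.bis 1 4 1 1 155 (.leaf 2) (.bis 1 5 1 1 158 (.leaf 2) (.leaf 2))) (.bis 2 5 2 1 236 (.bis 1 5
  1 1 158 (.leaf 2) (.leaf 2)) (.bis 0 2 1 2 259 (.leaf 3) (.bis 0 1 1 1 260 (.leaf 2) (.leaf
  2)))))) (.bis 3 5 2 1 92 (.bis 2 4 2 1 235 (.bis 1 4 1 1 155 (.leaf 2) (.leaf 2)) (.bis 2 5 2 1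
  236 (.bis 1 5 1 1 158 (.leaf 2) (.leaf 2)) (.bis 0 2 1 2 259 (.leaf 3) (.leaf 2)))) (.bis 3 4 2
  1 77 (.bis 2 4 2 1 235 (.leaf 2) (.bis 2 3 4 1 240 (.leaf 2) (.bis 0 2 1 2 259 (.leaf 3) (.leaf
  2)))) (.bis 2 3 1 1 241 (.bis 0 3 1 2 128 (.leaf 4) (.leaf 3)) (.bis 2 4 4 1 240 (.leaf 3)
  (.bis 0 2 1 2 259 (.leaf 3) (.leaf 3))))))) (.bis 3 5 2 1 92 (.bis 0 2 1 1 261 (.bis 2 4 2 1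
  235 (.leaf 2) (.bis 2 5 2 1 236 (.leaf 2) (.leaf 3))) (.bis 0 5 2 1 43 (.leaf 2) (.bis 0 4 2 1
  49 (.leaf 2) (.leaf 2)))) (.bis 0 2 1 1 261 (.bis 3 4 2 1 77 (.bis 2 4 2 1 235 (.leaf 2) (.bis
  2 3 4 1 240 (.leaf 2) (.leaf 3))) (.bis 2 3 1 1 241 (.bis 3 6 2 1 128 (.leaf 3) (.leaf 4))
  (.bis 2 4 4 1 240 (.leaf 3) (.leaf 3)))) (.bis 3 4 2 1 77 (.bis 0 4 2 1 49 (.leaf 2) (.leaf 2))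
  (.bis 3 6 2 1 128 (.bis 0 1 2 1 168 (.leaf 2) (.leaf 2)) (.bis 0 3 1 1 125 (.leaf 4) (.leaf
  2))))))) (.bis 3 5 1 2 80 (.bis 2 5 1 2 242 (.bis 4 5 1 4 27 (.bis 0 5 1 2 45 (.leaf 20) (.bis
  0 6 2 1 43 (.leaf 20) (.leaf 62))) (.bis 0 6 2 1 43 (.leaf 8) (.bis 0 2 2 1 262 (.leaf 8)
  (.leaf 2)))) (.bis 0 2 1 1 261 (.bis 2 3 2 1 243 (.leaf 8) (.bis 2 4 2 1 235 (.leaf 8) (.leaf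
  8))) (.bis 0 6 2 1 43 (.leaf 8) (.bis 0 5 2 1 262 (.leaf 8) (.bis 0 4 2 1 49 (.leaf 2) (.leaf
  2)))))) (.bis 3 6 2 1 92 (.bis 0 2 1 1 261 (.bis 2 5 2 1 243 (.leaf 2) (.bis 2 4 2 1 235 (.leaf
  2) (.leaf 8))) (.bis 0 6 2 1 43 (.leaf 2) (.leaf 2))) (.bis 0 2 1 1 261 (.bis 3 4 2 1 77 (.bis
  2 5 2 1 243 (.leaf 2) (.bis 2 4 2 1 235 (.leaf 2) (.leaf 3))) (.bis 2 3 1 1 241 (.leaf 15)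
  (.bis 2 5 2 1 243 (.leaf 8) (.bis 2 4 4 1 240 (.leaf 3) (.leaf 3))))) (.bis 3 4 2 1 77 (.bis 0
  4 2 1 49 (.leaf 2) (.leaf 2)) (.leaf 15)))))) (.bis 1 6 1 1 141 (.bis 0 6 1 1 47 (.bis 3 6 1 1
  94 (.bis 5 6 1 2 140 (.bis 2 6 1 1 234 (.leaf 19) (.bis 2 4 2 1 235 (.leaf 8) (.bis 0 2 1 2 259
  (.bis 2 3 2 1 245 (.leaf 8) (.leaf 8)) (.leaf 8)))) (.bis 2 4 2 1 235 (.bis 4 5 1 1 155 (.leaf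
  3) (.leaf 8)) (.bis 0 2 1 2 259 (.bis 2 5 2 1 238 (.leaf 3) (.leaf 3)) (.bis 0 5 1 1 260 (.leaf
  3) (.leaf 3))))) (.bis 3 4 2 1 77 (.bis 2 4 2 1 235 (.bis 4 5 1 1 155 (.leaf 3) (.leaf 8))
  (.bis 2 3 4 1 240 (.leaf 3) (.bis 0 2 1 2 259 (.leaf 3) (.leaf 3)))) (.bis 2 3 1 1 241 (.bis 0
  3 1 2 128 (.leaf 4) (.leaf 3)) (.bis 2 4 4 1 240 (.leaf 3) (.bis 0 2 1 2 259 (.leaf 3) (.leaf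
  3)))))) (.bis 0 2 1 1 261 (.bis 3 4 2 1 77 (.bis 2 4 2 1 235 (.leaf 8) (.bis 2 3 4 1 240 (.leaf
  3) (.leaf 3))) (.bis 2 3 1 1 241 (.bis 3 6 2 1 128 (.leaf 3) (.leaf 4)) (.bis 2 4 4 1 240
  (.leaf 3) (.leaf 3)))) (.bis 0 1 2 1 165 (.bis 3 4 2 1 77 (.leaf 8) (.bis 3 6 2 1 128 (.leaf 3)
  (.bis 1 3 1 2 142 (.leaf 4) (.leaf 3)))) (.bis 3 4 2 1 77 (.bis 0 4 2 1 49 (.leaf 2) (.leaf 2))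
  (.bis 3 6 2 1 128 (.leaf 2) (.leaf 15)))))) (.bis 0 1 1 1 167 (.bis 1 4 2 1 153 (.bis 3 4 2 1
  77 (.bis 0 2 1 2 263 (.bis 2 4 2 1 235 (.leaf 8) (.bis 2 3 4 1 240 (.leaf 3) (.leaf 3))) (.leaf
  16)) (.bis 2 3 1 1 241 (.leaf 4) (.bis 0 2 1 2 263 (.bis 2 4 4 1 240 (.leaf 3) (.leaf 3))
  (.leaf 3)))) (.bis 1 2 1 1 246 (.bis 2 3 1 1 241 (.leaf 4) (.bis 0 2 1 2 263 (.leaf 3) (.leaf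
  3))) (.bis 3 6 2 1 142 (.bis 1 6 2 1 146 (.leaf 4) (.leaf 21)) (.bis 1 3 1 1 147 (.leaf 4)
  (.leaf 21))))) (.bis 0 2 1 1 261 (.bis 3 4 2 1 77 (.bis 1 2 1 2 263 (.bis 2 4 2 1 235 (.leaf 8)
  (.leaf 3)) (.leaf 16)) (.bis 2 3 1 1 241 (.bis 3 6 2 1 142 (.leaf 3) (.leaf 4)) (.bis 1 2 1 2
  263 (.leaf 3) (.leaf 3)))) (.bis 0 6 2 1 165 (.bis 3 4 2 1 77 (.leaf 16) (.leaf 4)) (.bis 3 4 2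
  1 77 (.leaf 10) (.leaf 15))))))) (.bis 1 5 1 2 138 (.bis 2 4 1 2 247 (.bis 4 5 1 1 25 (.bis 3 5
  1 2 80 (.bis 5 6 4 1 27 (.leaf 10) (.bis 2 5 1 4 248 (.bis 0 5 1 2 45 (.leaf 71) (.leaf 10))
  (.leaf 10))) (.bis 3 4 1 1 84 (.bis 0 6 2 1 49 (.leaf 10) (.leaf 10)) (.bis 3 6 2 1 77 (.leaf
  10) (.leaf 82)))) (.bis 3 4 1 2 87 (.bis 1 4 1 4 148 (.bis 4 6 4 1 28 (.leaf 10) (.bis 0 4 1 2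
  51 (.bis 2 4 1 4 249 (.bis 3 4 1 4 149 (.leaf 32) (.leaf 10)) (.leaf 10)) (.leaf 10))) (.leaf
  10)) (.bis 3 5 1 1 84 (.leaf 10) (.bis 3 6 2 1 77 (.leaf 10) (.leaf 82))))) (.bis 3 5 1 2 80
  (.bis 2 5 1 2 242 (.bis 5 6 4 1 27 (.bis 0 2 2 1 262 (.leaf 8) (.leaf 10)) (.bis 4 5 1 4 248
  (.bis 0 5 1 2 45 (.leaf 20) (.bis 0 2 2 1 262 (.leaf 20) (.leaf 2))) (.bis 0 2 2 1 262 (.leaf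
  8) (.leaf 10)))) (.bis 0 2 1 1 261 (.bis 2 3 2 1 243 (.bis 3 6 1 1 244 (.leaf 8) (.leaf 8))
  (.bis 2 6 2 1 235 (.leaf 8) (.leaf 8))) (.bis 0 5 2 1 262 (.leaf 8) (.bis 0 6 2 1 49 (.leaf 8)
  (.leaf 10))))) (.bis 0 2 1 1 261 (.bis 3 6 2 1 77 (.bis 2 5 2 1 243 (.leaf 8) (.bis 2 6 2 1 235
  (.leaf 8) (.leaf 8))) (.bis 2 3 1 1 241 (.leaf 82) (.bis 2 5 2 1 243 (.leaf 8) (.leaf 8))))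
  (.bis 3 6 2 1 77 (.leaf 10) (.bis 3 4 2 1 250 (.leaf 10) (.leaf 15)))))) (.bis 1 4 1 2 151
  (.bis 2 4 1 2 247 (.bis 3 4 1 2 87 (.bis 4 5 4 1 148 (.leaf 10) (.bis 4 6 4 1 28 (.bis 0 6 2 1
  49 (.leaf 10) (.leaf 10)) (.bis 0 4 1 2 51 (.bis 1 4 1 4 152 (.bis 2 4 1 4 249 (.leaf 32)
  (.leaf 10)) (.leaf 10)) (.leaf 10)))) (.bis 3 6 2 1 77 (.bis 0 6 2 1 49 (.leaf 10) (.leaf 10))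
  (.bis 2 3 1 2 250 (.leaf 82) (.leaf 10)))) (.bis 0 2 1 1 261 (.bis 3 6 2 1 77 (.bis 1 2 1 2 251
  (.bis 2 6 2 1 235 (.leaf 8) (.leaf 8)) (.leaf 10)) (.bis 2 3 1 1 241 (.bis 3 4 2 1 250 (.leaf
  14) (.leaf 4)) (.bis 1 2 1 2 251 (.leaf 8) (.leaf 14)))) (.bis 3 6 2 1 77 (.bis 0 6 2 1 49
  (.leaf 10) (.leaf 10)) (.bis 3 4 2 1 250 (.leaf 10) (.leaf 82))))) (.bis 0 1 1 1 167 (.bis 1 6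
  2 1 153 (.bis 3 6 2 1 77 (.bis 2 4 2 1 251 (.leaf 10) (.bis 0 2 1 2 263 (.bis 2 6 2 1 235
  (.leaf 8) (.leaf 3)) (.leaf 16))) (.bis 2 3 1 1 241 (.leaf 4) (.bis 2 4 2 1 251 (.leaf 4) (.bis
  0 2 1 2 263 (.bis 2 6 4 1 240 (.leaf 3) (.leaf 3)) (.leaf 3))))) (.bis 1 2 1 1 246 (.bis 2 3 1
  1 241 (.leaf 4) (.bis 2 4 2 1 251 (.leaf 4) (.bis 0 2 1 2 263 (.leaf 3) (.leaf 3)))) (.bis 1 3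
  1 1 147 (.leaf 4) (.leaf 49)))) (.bis 0 2 1 1 261 (.bis 3 6 2 1 77 (.bis 2 4 2 1 251 (.bis 1 6
  1 1 264 (.leaf 10) (.leaf 4)) (.bis 1 2 1 2 263 (.bis 2 6 2 1 235 (.leaf 8) (.leaf 3)) (.bis 1
  6 1 1 264 (.leaf 8) (.leaf 3)))) (.bis 2 3 1 1 241 (.leaf 4) (.bis 2 4 2 1 251 (.leaf 4) (.bis
  1 2 1 2 263 (.leaf 3) (.leaf 3))))) (.bis 3 6 2 1 77 (.bis 0 6 2 1 49 (.leaf 10) (.leaf 10))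
  (.leaf 82))))))) (.bis 0 6 2 1 59 (.bis 1 5 1 2 138 (.bis 5 6 2 1 14 (.bis 4 6 1 1 47 (.bis 3 6
  1 1 94 (.bis 1 6 1 2 140 (.bis 2 6 1 1 234 (.leaf 19) (.bis 0 2 1 2 265 (.bis 2 5 2 1 236
  (.leaf 8) (.bis 2 4 2 1 259 (.leaf 8) (.leaf 8))) (.leaf 8))) (.bis 0 2 1 2 265 (.bis 2 5 2 1
  236 (.bis 1 5 1 1 158 (.leaf 2) (.leaf 2)) (.bis 2 4 2 1 259 (.bis 1 4 1 1 260 (.leaf 2) (.leaf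
  2)) (.leaf 3))) (.bis 0 1 1 1 169 (.bis 1 5 1 1 158 (.leaf 2) (.leaf 2)) (.leaf 2)))) (.bis 3 5
  2 1 92 (.bis 0 2 1 2 265 (.bis 2 5 2 1 236 (.bis 1 5 1 1 158 (.leaf 2) (.leaf 2)) (.bis 2 4 2 1
  259 (.leaf 2) (.leaf 3))) (.bis 0 1 1 1 169 (.leaf 2) (.leaf 2))) (.bis 2 3 1 1 241 (.bis 0 3 1
  2 131 (.bis 3 4 2 1 128 (.leaf 3) (.leaf 4)) (.leaf 8)) (.bis 0 2 1 2 265 (.bis 2 4 2 1 259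
  (.leaf 3) (.leaf 3)) (.leaf 8))))) (.bis 3 5 2 1 92 (.bis 2 4 1 1 261 (.bis 4 5 2 1 43 (.leaf
  2) (.bis 0 4 1 2 60 (.leaf 2) (.leaf 2))) (.bis 0 2 1 2 265 (.bis 2 5 2 1 236 (.leaf 2) (.leaf
  3)) (.leaf 2))) (.bis 2 4 1 1 261 (.bis 0 3 1 2 131 (.bis 3 6 2 1 128 (.bis 1 4 1 2 168 (.leaf
  2) (.leaf 2)) (.bis 3 4 1 1 125 (.leaf 2) (.leaf 4))) (.bis 0 4 1 2 60 (.leaf 2) (.leaf 2)))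
  (.bis 2 3 1 1 241 (.bis 0 3 1 2 131 (.leaf 15) (.leaf 8)) (.bis 0 2 1 2 265 (.leaf 3) (.leaf
  8)))))) (.bis 3 5 1 2 80 (.bis 2 5 1 2 242 (.bis 0 5 1 4 61 (.bis 4 5 1 2 45 (.leaf 20) (.bis 4
  6 2 1 43 (.leaf 20) (.leaf 62))) (.bis 4 6 2 1 43 (.leaf 8) (.bis 2 4 1 2 262 (.leaf 2) (.leaf
  8)))) (.bis 2 4 1 1 261 (.bis 4 6 2 1 43 (.leaf 8) (.bis 4 5 2 1 262 (.leaf 8) (.leaf 2)))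
  (.bis 2 3 2 1 243 (.leaf 8) (.bis 0 2 1 2 265 (.leaf 8) (.leaf 8))))) (.bis 3 6 2 1 92 (.bis 2
  4 1 1 261 (.bis 4 6 2 1 43 (.leaf 2) (.leaf 2)) (.bis 2 5 2 1 243 (.leaf 2) (.bis 0 2 1 2 265
  (.leaf 8) (.leaf 2)))) (.bis 2 4 1 1 261 (.bis 0 3 1 2 131 (.leaf 15) (.bis 0 4 1 2 60 (.leaf
  2) (.leaf 2))) (.bis 2 3 1 1 241 (.bis 0 3 1 2 131 (.leaf 15) (.leaf 8)) (.bis 2 5 2 1 243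
  (.leaf 8) (.bis 0 2 1 2 265 (.leaf 3) (.leaf 8)))))))) (.bis 1 6 1 1 141 (.bis 4 6 1 1 47 (.bis
  3 6 1 1 94 (.bis 5 6 1 2 140 (.bis 2 6 1 1 234 (.leaf 19) (.bis 0 2 1 2 265 (.bis 2 4 2 1 259
  (.leaf 8) (.bis 2 3 2 1 245 (.leaf 8) (.leaf 8))) (.leaf 8))) (.bis 0 2 1 2 265 (.bis 2 4 2 1
  259 (.bis 4 5 1 1 260 (.leaf 3) (.leaf 3)) (.bis 2 5 2 1 238 (.leaf 3) (.leaf 3))) (.bis 0 5 1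
  1 169 (.leaf 3) (.leaf 5)))) (.bis 2 3 1 1 241 (.bis 0 3 1 2 131 (.bis 3 4 2 1 128 (.leaf 3)
  (.leaf 4)) (.leaf 8)) (.bis 0 2 1 2 265 (.bis 2 4 2 1 259 (.leaf 3) (.leaf 3)) (.leaf 8))))
  (.bis 2 4 1 1 261 (.bis 1 4 1 2 165 (.bis 0 3 1 2 131 (.bis 3 6 2 1 128 (.leaf 2) (.leaf 15))
  (.bis 0 4 1 2 60 (.leaf 2) (.leaf 2))) (.bis 0 3 1 2 131 (.bis 3 6 2 1 128 (.leaf 3) (.leaf 4))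
  (.leaf 5))) (.bis 2 3 1 1 241 (.bis 0 3 1 2 131 (.bis 3 6 2 1 128 (.leaf 3) (.leaf 4)) (.leaf
  8)) (.bis 0 2 1 2 265 (.leaf 3) (.leaf 8))))) (.bis 1 4 1 1 167 (.bis 2 4 1 1 261 (.bis 4 6 2 1
  165 (.bis 0 3 1 2 131 (.leaf 4) (.leaf 5)) (.bis 0 3 1 2 131 (.leaf 15) (.leaf 62))) (.bis 2 3
  1 1 241 (.bis 0 3 1 2 131 (.bis 3 6 2 1 142 (.leaf 3) (.leaf 4)) (.leaf 37)) (.bis 1 2 1 2 263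
  (.bis 0 2 1 2 265 (.leaf 3) (.leaf 8)) (.bis 0 1 1 1 199 (.leaf 3) (.leaf 8))))) (.bis 0 1 1 2
  170 (.bis 1 2 1 1 246 (.bis 2 3 1 1 241 (.leaf 4) (.bis 2 4 2 1 263 (.leaf 3) (.leaf 3))) (.bis
  3 6 2 1 142 (.bis 1 6 2 1 146 (.leaf 4) (.leaf 21)) (.bis 1 3 1 1 147 (.leaf 4) (.leaf 21))))
  (.bis 2 3 1 1 241 (.bis 0 3 1 2 131 (.leaf 4) (.leaf 37)) (.bis 2 4 2 1 263 (.bis 0 4 1 1 199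
  (.leaf 3) (.leaf 8)) (.bis 0 2 1 2 265 (.leaf 3) (.leaf 8)))))))) (.bis 1 5 1 2 138 (.bis 0 2 2
  1 266 (.bis 3 5 1 2 80 (.bis 2 5 1 2 242 (.bis 5 6 4 1 61 (.bis 2 4 1 2 262 (.leaf 12) (.leaf
  26)) (.bis 0 5 1 4 267 (.bis 4 5 1 2 45 (.leaf 20) (.bis 2 4 1 2 262 (.leaf 2) (.leaf 20)))
  (.bis 2 4 1 2 262 (.leaf 12) (.leaf 26)))) (.bis 2 4 1 1 261 (.bis 4 5 2 1 262 (.leaf 26)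
  (.leaf 12)) (.bis 2 3 2 1 243 (.leaf 26) (.bis 2 6 2 1 265 (.leaf 26) (.leaf 111))))) (.bis 2 4
  1 1 261 (.bis 3 6 2 1 131 (.leaf 12) (.leaf 15)) (.bis 2 3 1 1 241 (.bis 3 6 2 1 131 (.leaf 37)
  (.leaf 15)) (.bis 2 5 2 1 243 (.leaf 37) (.bis 2 6 2 1 265 (.leaf 37) (.leaf 3)))))) (.bis 0 5
  1 1 66 (.bis 3 5 1 2 80 (.bis 5 6 4 1 61 (.bis 4 6 2 1 60 (.leaf 12) (.leaf 12)) (.bis 2 5 1 4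
  267 (.bis 4 5 1 2 45 (.leaf 20) (.leaf 12)) (.leaf 12))) (.bis 0 3 1 1 134 (.bis 3 6 2 1 131
  (.leaf 12) (.leaf 15)) (.leaf 12))) (.bis 0 1 4 1 172 (.bis 3 5 1 1 134 (.leaf 12) (.bis 3 6 2
  1 131 (.leaf 12) (.leaf 15))) (.bis 0 3 2 1 135 (.bis 3 5 1 1 134 (.leaf 12) (.bis 3 6 2 1 131
  (.leaf 12) (.leaf 15))) (.bis 0 6 4 1 67 (.leaf 12) (.bis 0 4 2 1 71 (.leaf 12) (.bis 0 2 4 1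
  268 (.leaf 12) (.leaf 45)))))))) (.bis 0 1 2 1 173 (.bis 1 4 1 1 167 (.bis 2 4 1 1 261 (.bis 3
  6 2 1 131 (.leaf 72) (.leaf 15)) (.bis 2 3 1 1 241 (.bis 3 6 2 1 131 (.bis 1 6 1 1 199 (.leaf
  72) (.leaf 15)) (.leaf 15)) (.bis 0 2 1 2 269 (.bis 1 2 1 2 263 (.bis 2 6 2 1 265 (.leaf 8)
  (.leaf 3)) (.bis 1 6 1 1 199 (.leaf 8) (.leaf 3))) (.bis 1 6 1 1 199 (.leaf 72) (.leaf 15)))))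
  (.bis 1 6 2 1 170 (.bis 2 3 1 1 241 (.bis 3 6 2 1 131 (.leaf 72) (.leaf 15)) (.bis 0 2 1 2 269
  (.bis 2 4 2 1 263 (.bis 4 6 1 1 199 (.leaf 8) (.leaf 3)) (.bis 2 6 2 1 265 (.leaf 8) (.leaf
  3))) (.bis 4 6 1 1 199 (.leaf 72) (.leaf 15)))) (.bis 1 2 1 1 246 (.bis 2 3 1 1 241 (.leaf 21)
  (.bis 0 2 1 2 269 (.bis 2 4 2 1 263 (.leaf 3) (.leaf 3)) (.leaf 21))) (.bis 1 3 1 1 147 (.leaf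
  21) (.leaf 21))))) (.bis 0 2 2 1 266 (.bis 2 4 1 1 261 (.bis 3 6 2 1 131 (.bis 4 6 2 1 60
  (.leaf 5) (.leaf 12)) (.bis 3 4 1 1 125 (.leaf 12) (.leaf 15))) (.bis 2 3 1 1 241 (.bis 3 6 2 1
  131 (.leaf 72) (.leaf 15)) (.bis 1 2 1 2 269 (.bis 2 6 2 1 265 (.leaf 37) (.leaf 3)) (.leaf
  72)))) (.bis 0 5 4 1 172 (.bis 3 6 2 1 131 (.bis 4 6 2 1 60 (.leaf 5) (.leaf 12)) (.bis 3 4 1 1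
  125 (.leaf 12) (.leaf 15))) (.bis 0 3 2 1 135 (.bis 3 6 2 1 131 (.bis 4 6 2 1 60 (.leaf 12)
  (.leaf 12)) (.bis 3 4 1 1 125 (.leaf 12) (.leaf 15))) (.bis 0 6 4 1 67 (.bis 4 6 2 1 60 (.leaf
  12) (.leaf 12)) (.bis 0 4 2 1 71 (.leaf 12) (.bis 0 1 4 1 177 (.leaf 12) (.bis 0 2 4 1 268
  (.leaf 12) (.leaf 45))))))))))))

def lc8 : List Vr := [⟨[56,0,0,0,0,0,0], 21952, 0⟩, ⟨[0,73,0,73,0,0,0], 127896, 0⟩, ⟨[0,0,85,0,0,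
  42,0], 128523, 0⟩, ⟨[56,0,0,73,0,0,0], 125028, 0⟩, ⟨[0,0,0,0,56,0,0], 21952, 0⟩, ⟨[0,0,0,0,0,42,
  0], 21168, 0⟩, ⟨[0,0,85,0,0,0,119], 143055, 0⟩]

theorem lk8 : chkTr lowT (leafLow 6 lowB) lt8 lc8 = true := by decide +kernel

def lt9 : Tr ℕ := (.bis 3 6 2 1 97 (.bis 4 6 2 1 23 (.bis 1 6 1 1 141 (.bis 0 6 1 1 272 (.bis 2 6
  1 1 273 (.bis 5 6 1 1 234 (.leaf 56) (.bis 4 5 1 2 235 (.bis 3 5 1 2 252 (.leaf 8) (.leaf 56))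
  (.leaf 56))) (.bis 2 3 2 1 274 (.bis 4 5 1 2 235 (.bis 3 5 1 2 252 (.leaf 87) (.leaf 56))
  (.leaf 56)) (.bis 4 5 1 2 235 (.bis 0 2 1 2 275 (.bis 1 2 1 2 276 (.leaf 7) (.leaf 7)) (.leaf
  87)) (.bis 0 2 1 2 275 (.bis 1 2 1 2 276 (.leaf 58) (.leaf 56)) (.leaf 56))))) (.bis 0 4 2 1
  277 (.bis 2 3 2 1 274 (.bis 4 5 1 2 235 (.leaf 87) (.leaf 56)) (.bis 4 5 1 2 235 (.bis 2 6 2 1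
  275 (.leaf 87) (.leaf 7)) (.bis 2 6 2 1 275 (.leaf 56) (.bis 1 2 1 2 276 (.leaf 58) (.leaf
  56))))) (.bis 0 3 2 1 278 (.bis 2 3 2 1 274 (.bis 3 5 1 2 252 (.leaf 25) (.leaf 56)) (.bis 2 6
  2 1 275 (.leaf 25) (.bis 1 2 1 2 276 (.leaf 7) (.leaf 7)))) (.bis 2 6 2 1 275 (.bis 0 1 2 1 279
  (.leaf 3) (.leaf 13)) (.bis 0 1 2 1 279 (.bis 1 2 1 2 276 (.bis 0 2 1 4 280 (.leaf 7) (.leaf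
  3)) (.leaf 3)) (.bis 0 2 1 1 281 (.leaf 7) (.leaf 13))))))) (.bis 1 4 2 1 153 (.bis 0 4 2 1 277
  (.bis 2 3 2 1 274 (.bis 4 5 1 2 235 (.bis 3 5 1 2 252 (.leaf 7) (.leaf 4)) (.leaf 16)) (.bis 4
  5 1 2 235 (.bis 2 6 2 1 276 (.leaf 7) (.leaf 7)) (.bis 2 6 2 1 276 (.leaf 16) (.bis 2 4 2 1 282
  (.leaf 16) (.leaf 7))))) (.bis 0 3 2 1 278 (.bis 2 3 2 1 274 (.bis 3 5 1 2 252 (.leaf 7) (.leaf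
  4)) (.bis 2 6 2 1 276 (.leaf 7) (.leaf 7))) (.bis 0 1 4 1 283 (.bis 2 6 2 1 276 (.leaf 3) (.bis
  1 5 1 4 284 (.leaf 7) (.bis 1 2 1 4 285 (.leaf 7) (.leaf 3)))) (.bis 0 6 2 1 279 (.bis 2 6 2 1
  276 (.leaf 3) (.bis 0 2 1 4 280 (.leaf 7) (.leaf 3))) (.bis 0 2 1 1 281 (.bis 2 6 4 1 280
  (.leaf 3) (.leaf 7)) (.leaf 13)))))) (.bis 0 3 2 1 278 (.bis 1 5 1 1 246 (.bis 2 3 2 1 274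
  (.bis 3 5 1 2 252 (.leaf 7) (.leaf 4)) (.bis 2 6 2 1 276 (.leaf 7) (.leaf 7))) (.bis 1 2 1 1
  286 (.bis 2 3 2 1 274 (.leaf 4) (.bis 2 6 2 1 276 (.leaf 4) (.leaf 7))) (.bis 1 3 2 1 162
  (.leaf 4) (.bis 0 1 1 4 287 (.leaf 30) (.leaf 4))))) (.bis 1 5 1 1 246 (.bis 0 4 4 1 283 (.bis
  2 6 2 1 276 (.leaf 3) (.bis 4 5 1 4 284 (.bis 1 2 1 2 288 (.leaf 7) (.leaf 3)) (.bis 2 4 4 1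
  285 (.leaf 3) (.leaf 7)))) (.bis 0 6 2 1 279 (.bis 2 6 2 1 276 (.leaf 3) (.bis 0 2 1 4 280
  (.leaf 7) (.leaf 3))) (.bis 0 2 1 1 281 (.bis 2 6 4 1 280 (.leaf 3) (.leaf 7)) (.leaf 13))))
  (.bis 0 1 1 1 289 (.bis 1 2 1 1 286 (.bis 2 6 2 1 276 (.leaf 7) (.bis 0 2 1 2 290 (.leaf 7)
  (.leaf 7))) (.bis 1 3 4 1 287 (.leaf 7) (.leaf 30))) (.bis 0 4 4 1 283 (.bis 2 6 2 1 276 (.leaf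
  3) (.bis 1 2 1 2 290 (.bis 2 4 4 1 285 (.leaf 3) (.leaf 7)) (.leaf 3))) (.bis 0 6 2 1 279 (.bis
  2 6 2 1 276 (.leaf 3) (.bis 1 2 1 2 290 (.bis 0 2 1 4 280 (.leaf 7) (.leaf 3)) (.leaf 3)))
  (.bis 0 2 1 1 281 (.bis 1 2 1 2 290 (.bis 2 6 4 1 280 (.leaf 3) (.leaf 7)) (.leaf 3)) (.leaf
  13))))))))) (.bis 0 4 1 2 291 (.bis 1 4 1 2 151 (.bis 4 5 2 1 247 (.bis 1 5 1 2 251 (.bis 0 3 1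
  1 292 (.bis 2 3 2 1 274 (.bis 3 4 1 1 253 (.bis 5 6 2 1 235 (.leaf 16) (.leaf 58)) (.bis 5 6 2
  1 235 (.leaf 16) (.bis 3 5 1 2 252 (.leaf 7) (.leaf 4)))) (.bis 5 6 2 1 235 (.leaf 58) (.leaf
  58))) (.bis 5 6 2 1 235 (.leaf 58) (.leaf 58))) (.bis 0 3 1 1 292 (.bis 2 3 2 1 274 (.leaf 16)
  (.leaf 77)) (.leaf 77))) (.bis 3 4 1 4 103 (.bis 2 4 1 2 293 (.bis 4 6 4 1 28 (.leaf 77) (.bis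
  0 4 1 4 294 (.bis 1 4 1 4 152 (.bis 4 5 4 1 249 (.leaf 32) (.leaf 32)) (.leaf 32)) (.leaf 32)))
  (.leaf 77)) (.bis 0 3 1 1 292 (.bis 2 3 2 1 274 (.leaf 16) (.bis 2 6 2 1 282 (.leaf 16) (.leaf
  46))) (.bis 2 6 2 1 282 (.leaf 16) (.leaf 46))))) (.bis 1 6 2 1 153 (.bis 4 5 1 2 251 (.bis 0 3
  1 1 292 (.bis 2 3 2 1 274 (.bis 5 6 2 1 235 (.leaf 16) (.bis 3 5 1 2 252 (.leaf 7) (.leaf 4)))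
  (.bis 5 6 2 1 235 (.bis 2 6 2 1 282 (.leaf 16) (.leaf 7)) (.leaf 7))) (.bis 5 6 2 1 235 (.bis 2
  6 2 1 282 (.leaf 8) (.leaf 58)) (.leaf 29))) (.bis 0 3 1 1 292 (.bis 2 3 2 1 274 (.leaf 16)
  (.bis 2 6 2 1 282 (.leaf 16) (.leaf 46))) (.bis 2 6 2 1 282 (.leaf 16) (.leaf 46)))) (.bis 1 5
  1 1 246 (.bis 4 5 1 2 251 (.bis 0 3 1 1 292 (.bis 2 3 2 1 274 (.bis 3 5 1 2 252 (.leaf 7)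
  (.leaf 4)) (.leaf 7)) (.leaf 29)) (.bis 0 3 1 1 292 (.bis 2 3 2 1 274 (.leaf 4) (.leaf 46))
  (.leaf 46))) (.bis 1 2 1 1 286 (.bis 0 3 1 1 292 (.bis 2 3 2 1 274 (.leaf 4) (.leaf 46)) (.leaf
  46)) (.bis 0 1 1 2 295 (.bis 1 3 2 1 162 (.bis 3 4 1 1 160 (.leaf 4) (.leaf 4)) (.leaf 49))
  (.bis 0 3 1 1 292 (.bis 3 4 1 1 160 (.leaf 4) (.leaf 4)) (.leaf 4))))))) (.bis 1 6 2 1 153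
  (.bis 0 6 2 1 277 (.bis 3 4 1 1 292 (.bis 5 6 2 1 235 (.bis 2 6 2 1 282 (.leaf 8) (.leaf 58))
  (.leaf 29)) (.bis 2 3 2 1 274 (.bis 5 6 2 1 235 (.leaf 16) (.bis 3 5 1 2 252 (.leaf 7) (.leaf
  4))) (.bis 5 6 2 1 235 (.bis 2 6 2 1 282 (.leaf 16) (.leaf 7)) (.leaf 7)))) (.bis 0 3 2 1 278
  (.bis 3 4 1 1 292 (.leaf 29) (.bis 2 3 2 1 274 (.bis 3 5 1 2 252 (.leaf 7) (.leaf 4)) (.leaf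
  7))) (.bis 0 1 4 1 283 (.leaf 29) (.bis 0 2 1 1 281 (.leaf 29) (.leaf 35))))) (.bis 0 3 2 1 278
  (.bis 1 5 1 1 246 (.bis 3 4 1 1 292 (.leaf 29) (.bis 2 3 2 1 274 (.bis 3 5 1 2 252 (.leaf 7)
  (.leaf 4)) (.leaf 7))) (.bis 1 2 1 1 286 (.bis 3 4 1 1 292 (.leaf 29) (.bis 2 3 2 1 274 (.leaf
  4) (.leaf 7))) (.bis 1 4 2 1 295 (.bis 3 4 1 1 292 (.leaf 4) (.leaf 4)) (.bis 1 3 2 1 162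
  (.leaf 4) (.leaf 21))))) (.bis 1 5 1 1 246 (.bis 0 6 4 1 283 (.leaf 29) (.bis 0 2 1 1 281
  (.leaf 29) (.leaf 35))) (.bis 0 1 1 1 289 (.bis 1 2 1 1 286 (.bis 0 2 1 2 290 (.leaf 29) (.leaf
  29)) (.bis 1 4 2 1 295 (.leaf 29) (.leaf 21))) (.bis 0 6 4 1 283 (.bis 1 2 1 2 290 (.leaf 29)
  (.leaf 3)) (.bis 0 2 1 1 281 (.bis 1 2 1 2 290 (.leaf 29) (.leaf 3)) (.leaf 35))))))))) (.bis 3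
  4 1 1 98 (.bis 0 4 1 2 291 (.bis 1 4 1 2 151 (.bis 4 5 2 1 247 (.bis 3 5 1 1 254 (.bis 1 5 1 2
  251 (.bis 0 6 1 1 292 (.bis 2 6 2 1 274 (.bis 4 6 1 1 253 (.bis 5 6 2 1 252 (.leaf 4) (.leaf
  7)) (.bis 4 5 1 2 296 (.leaf 7) (.leaf 16))) (.leaf 58)) (.leaf 58)) (.bis 0 6 1 1 292 (.bis 2
  6 2 1 274 (.bis 4 6 1 1 253 (.leaf 4) (.leaf 16)) (.leaf 46)) (.leaf 46))) (.bis 2 3 1 1 297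
  (.bis 0 6 1 1 292 (.bis 3 6 2 1 101 (.bis 4 6 1 1 253 (.leaf 16) (.leaf 16)) (.leaf 39)) (.bis
  0 3 1 2 298 (.leaf 39) (.leaf 16))) (.bis 0 6 1 1 292 (.bis 2 6 2 1 274 (.bis 4 6 1 1 253
  (.leaf 16) (.leaf 16)) (.leaf 46)) (.leaf 46)))) (.bis 4 6 4 1 103 (.bis 2 3 1 1 297 (.bis 0 6
  1 1 292 (.bis 3 6 2 1 101 (.leaf 16) (.leaf 39)) (.bis 0 3 1 2 298 (.leaf 39) (.leaf 16)))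
  (.bis 0 6 1 1 292 (.bis 2 6 2 1 274 (.bis 5 6 1 1 253 (.leaf 16) (.leaf 16)) (.leaf 46)) (.leaf
  46))) (.bis 2 4 1 2 293 (.bis 0 4 1 4 294 (.bis 3 4 1 2 104 (.bis 1 4 1 4 152 (.bis 4 5 4 1 249
  (.leaf 32) (.leaf 32)) (.leaf 32)) (.leaf 39)) (.bis 0 3 1 2 298 (.leaf 39) (.leaf 32))) (.bis
  2 3 1 1 297 (.bis 0 3 1 2 298 (.leaf 39) (.leaf 39)) (.leaf 77))))) (.bis 3 5 1 1 254 (.bis 1 5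
  1 1 246 (.bis 4 5 1 2 251 (.bis 0 6 1 1 292 (.bis 2 6 2 1 274 (.bis 5 6 2 1 252 (.leaf 4)
  (.leaf 7)) (.leaf 7)) (.leaf 29)) (.bis 0 6 1 1 292 (.bis 2 6 2 1 274 (.leaf 4) (.leaf 46))
  (.leaf 46))) (.bis 1 2 1 1 286 (.bis 0 6 1 1 292 (.bis 2 6 2 1 274 (.leaf 4) (.leaf 46)) (.leaf
  46)) (.bis 0 1 1 2 295 (.bis 1 6 2 1 162 (.bis 4 6 1 1 160 (.leaf 4) (.leaf 4)) (.leaf 49))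
  (.bis 0 6 1 1 292 (.bis 4 6 1 1 160 (.leaf 4) (.leaf 4)) (.leaf 4))))) (.bis 1 3 1 1 161 (.bis
  2 3 1 1 297 (.bis 0 6 1 1 292 (.bis 3 6 2 1 101 (.leaf 79) (.leaf 39)) (.leaf 39)) (.bis 0 6 1
  1 292 (.bis 2 6 2 1 274 (.leaf 124) (.leaf 46)) (.leaf 46))) (.bis 1 2 1 1 286 (.bis 0 6 1 1
  292 (.bis 2 6 2 1 274 (.leaf 4) (.leaf 46)) (.leaf 46)) (.bis 0 1 1 2 295 (.bis 1 6 2 1 162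
  (.bis 4 6 1 1 160 (.leaf 4) (.leaf 4)) (.leaf 49)) (.bis 0 6 1 1 292 (.bis 4 6 1 1 160 (.leaf
  4) (.leaf 4)) (.leaf 4))))))) (.bis 0 3 1 1 299 (.bis 3 5 1 1 254 (.bis 1 5 1 1 246 (.bis 4 6 1
  1 292 (.bis 2 6 2 1 274 (.bis 5 6 2 1 252 (.leaf 4) (.leaf 7)) (.leaf 7)) (.leaf 29)) (.bis 1 2
  1 1 286 (.bis 4 6 1 1 292 (.bis 2 6 2 1 274 (.leaf 4) (.leaf 7)) (.leaf 29)) (.bis 1 4 2 1 295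
  (.bis 4 6 1 1 292 (.bis 1 6 1 2 300 (.leaf 4) (.leaf 4)) (.leaf 4)) (.bis 1 6 2 1 162 (.bis 4 6
  1 2 300 (.leaf 4) (.leaf 4)) (.leaf 49))))) (.bis 1 3 1 1 161 (.bis 2 3 1 1 297 (.bis 4 6 1 1
  292 (.bis 3 6 2 1 101 (.leaf 76) (.leaf 39)) (.bis 3 4 2 1 298 (.leaf 39) (.leaf 39))) (.bis 4
  6 1 1 292 (.bis 2 6 2 1 274 (.leaf 76) (.leaf 46)) (.leaf 46))) (.bis 1 2 1 1 286 (.bis 4 6 1 1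
  292 (.bis 2 6 2 1 274 (.leaf 4) (.leaf 46)) (.leaf 46)) (.bis 1 4 2 1 295 (.bis 4 6 1 1 292
  (.bis 1 6 1 2 300 (.leaf 4) (.leaf 4)) (.leaf 4)) (.bis 1 6 2 1 162 (.bis 4 6 1 2 300 (.leaf 4)
  (.leaf 4)) (.leaf 49)))))) (.bis 0 6 2 1 278 (.bis 1 5 1 1 246 (.bis 4 6 1 1 292 (.bis 2 6 2 1
  274 (.bis 5 6 2 1 252 (.leaf 4) (.leaf 7)) (.leaf 7)) (.leaf 29)) (.bis 1 2 1 1 286 (.bis 4 6 1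
  1 292 (.bis 2 6 2 1 274 (.leaf 4) (.leaf 7)) (.leaf 29)) (.bis 1 4 2 1 295 (.bis 4 6 1 1 292
  (.bis 1 6 1 2 300 (.leaf 4) (.leaf 4)) (.leaf 4)) (.bis 1 6 2 1 162 (.leaf 4) (.leaf 21)))))
  (.bis 1 5 1 1 246 (.bis 0 2 1 1 281 (.leaf 29) (.bis 0 4 2 1 301 (.leaf 3) (.leaf 35))) (.bis 0
  1 1 1 289 (.bis 1 2 1 1 286 (.leaf 29) (.bis 1 4 2 1 295 (.leaf 29) (.leaf 21))) (.bis 0 2 1 1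
  281 (.leaf 29) (.leaf 35))))))) (.bis 0 3 1 2 302 (.bis 3 5 2 1 257 (.bis 4 5 1 1 254 (.bis 1 5
  1 1 246 (.bis 2 6 2 1 274 (.bis 5 6 2 1 252 (.leaf 18) (.bis 0 5 1 2 303 (.leaf 86) (.leaf
  18))) (.bis 0 5 1 2 303 (.leaf 86) (.bis 0 2 1 2 304 (.leaf 46) (.leaf 18)))) (.bis 1 2 1 1 286
  (.bis 2 6 2 1 274 (.leaf 18) (.bis 0 2 1 2 304 (.leaf 46) (.leaf 18))) (.bis 1 6 2 1 162 (.leaf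
  18) (.bis 1 4 2 1 258 (.leaf 18) (.leaf 49))))) (.bis 1 4 1 1 161 (.bis 2 4 1 1 297 (.bis 4 6 2
  1 101 (.leaf 76) (.leaf 104)) (.bis 2 6 2 1 274 (.leaf 76) (.bis 1 2 1 2 305 (.leaf 46) (.leaf
  46)))) (.bis 1 2 1 1 286 (.bis 2 6 2 1 274 (.leaf 31) (.bis 2 4 2 1 305 (.leaf 31) (.leaf 46)))
  (.bis 1 6 2 1 162 (.leaf 31) (.bis 1 5 2 1 258 (.leaf 31) (.leaf 49)))))) (.bis 2 3 1 2 306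
  (.bis 1 3 1 2 163 (.bis 3 6 4 1 111 (.bis 4 6 2 1 101 (.leaf 31) (.leaf 48)) (.bis 0 3 1 4 307
  (.bis 3 4 2 1 113 (.leaf 48) (.leaf 93)) (.bis 0 4 1 2 308 (.leaf 48) (.leaf 48)))) (.bis 1 4 1
  1 161 (.bis 4 6 2 1 101 (.leaf 31) (.leaf 48)) (.bis 1 6 2 1 162 (.leaf 31) (.bis 1 2 2 1 309
  (.leaf 31) (.leaf 85))))) (.bis 1 4 1 1 161 (.bis 2 4 1 1 297 (.bis 4 6 2 1 101 (.leaf 76)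
  (.leaf 104)) (.bis 2 6 2 1 274 (.leaf 76) (.bis 1 2 1 2 305 (.bis 0 2 1 2 304 (.leaf 46) (.leaf
  46)) (.leaf 46)))) (.bis 1 2 1 1 286 (.bis 2 6 2 1 274 (.leaf 31) (.bis 2 4 2 1 305 (.leaf 31)
  (.bis 0 2 1 2 304 (.leaf 46) (.leaf 18)))) (.bis 1 6 2 1 162 (.leaf 31) (.bis 1 3 2 1 309
  (.leaf 31) (.leaf 49))))))) (.bis 0 4 1 1 299 (.bis 4 5 1 1 254 (.bis 1 5 1 1 246 (.bis 2 6 2 1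
  274 (.bis 5 6 2 1 252 (.leaf 18) (.leaf 29)) (.bis 3 5 1 2 303 (.leaf 7) (.leaf 29))) (.bis 1 2
  1 1 286 (.bis 2 6 2 1 274 (.leaf 18) (.leaf 29)) (.bis 1 6 2 1 162 (.leaf 18) (.bis 1 4 2 1 258
  (.leaf 18) (.leaf 21))))) (.bis 1 4 1 1 161 (.bis 2 4 1 1 297 (.bis 4 6 2 1 101 (.leaf 76)
  (.leaf 104)) (.bis 2 6 2 1 274 (.leaf 76) (.leaf 46))) (.bis 1 2 1 1 286 (.bis 2 6 2 1 274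
  (.leaf 31) (.bis 2 4 2 1 305 (.leaf 31) (.leaf 29))) (.bis 1 6 2 1 162 (.leaf 31) (.leaf
  49))))) (.bis 0 6 2 1 278 (.bis 1 5 1 1 246 (.bis 2 6 2 1 274 (.bis 5 6 2 1 252 (.leaf 18)
  (.leaf 29)) (.leaf 29)) (.bis 1 2 1 1 286 (.bis 2 6 2 1 274 (.leaf 18) (.leaf 29)) (.bis 1 6 2
  1 162 (.leaf 18) (.leaf 21)))) (.bis 1 5 1 1 246 (.bis 0 2 1 1 281 (.leaf 29) (.bis 0 3 2 1 310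
  (.leaf 29) (.leaf 35))) (.bis 0 1 1 1 289 (.bis 1 2 1 1 286 (.bis 0 2 1 2 290 (.bis 2 3 2 1 304
  (.leaf 18) (.leaf 7)) (.leaf 21)) (.bis 1 6 4 1 287 (.leaf 21) (.leaf 21))) (.bis 0 2 1 1 281
  (.bis 1 2 1 2 290 (.leaf 29) (.leaf 29)) (.bis 0 3 2 1 310 (.leaf 29) (.leaf 35))))))))))

def lc9 : List Vr := [⟨[56,0,85,0,0,0,0], 129307, 0⟩, ⟨[0,73,0,73,0,0,0], 127896, 0⟩, ⟨[0,0,85,0,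
  56,0,0], 129307, 0⟩, ⟨[0,0,0,73,0,0,0], 21316, 0⟩, ⟨[0,0,0,0,56,0,0], 21952, 0⟩, ⟨[0,0,85,0,0,
  42,0], 128523, 0⟩, ⟨[0,0,85,0,0,0,119], 143055, 0⟩]

theorem lk9 : chkTr lowT (leafLow 6 lowB) lt9 lc9 = true := by decide +kernel

def lt10 : Tr ℕ := (.bis 3 6 2 1 97 (.bis 2 6 1 1 312 (.bis 1 6 1 1 141 (.bis 0 6 1 1 272 (.bis 4
  6 1 1 273 (.bis 5 6 1 1 234 (.leaf 56) (.bis 3 5 1 2 252 (.leaf 25) (.leaf 56))) (.bis 3 4 1 2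
  274 (.bis 0 4 1 2 275 (.bis 1 4 1 2 276 (.leaf 7) (.leaf 7)) (.leaf 25)) (.bis 3 5 1 2 252
  (.leaf 25) (.leaf 56)))) (.bis 0 3 2 1 278 (.bis 3 4 1 2 274 (.bis 4 6 2 1 275 (.leaf 25) (.bis
  1 4 1 2 276 (.leaf 7) (.leaf 7))) (.bis 3 5 1 2 252 (.leaf 25) (.leaf 56))) (.bis 0 2 2 1 313
  (.bis 4 6 2 1 275 (.leaf 25) (.bis 1 4 1 2 276 (.bis 2 4 1 2 314 (.leaf 7) (.leaf 7)) (.leaf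
  7))) (.bis 4 6 2 1 275 (.bis 0 1 2 1 279 (.leaf 3) (.leaf 13)) (.bis 0 1 2 1 279 (.bis 1 4 1 2
  276 (.bis 0 4 1 4 280 (.leaf 7) (.leaf 3)) (.leaf 3)) (.bis 0 4 1 1 281 (.bis 1 4 1 4 280
  (.leaf 7) (.leaf 3)) (.leaf 13))))))) (.bis 0 3 2 1 278 (.bis 1 5 1 1 246 (.bis 3 4 1 2 274
  (.bis 4 6 2 1 276 (.leaf 7) (.leaf 7)) (.bis 3 5 1 2 252 (.leaf 7) (.leaf 87))) (.bis 1 4 1 1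
  286 (.bis 3 4 1 2 274 (.bis 4 6 2 1 276 (.leaf 7) (.leaf 7)) (.leaf 87)) (.bis 1 2 2 1 315
  (.leaf 87) (.bis 1 3 2 1 162 (.leaf 4) (.leaf 98))))) (.bis 1 5 1 1 246 (.bis 0 2 2 1 313 (.bis
  4 6 2 1 276 (.leaf 7) (.bis 2 4 1 2 314 (.leaf 7) (.leaf 7))) (.bis 0 6 2 1 279 (.bis 4 6 2 1
  276 (.leaf 3) (.bis 0 4 1 4 280 (.leaf 7) (.leaf 3))) (.bis 0 4 1 1 281 (.bis 4 6 4 1 280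
  (.leaf 3) (.leaf 7)) (.leaf 13)))) (.bis 0 1 1 1 289 (.bis 1 4 1 1 286 (.bis 4 6 2 1 276 (.leaf
  7) (.bis 0 4 1 2 290 (.leaf 7) (.bis 0 2 1 1 316 (.leaf 7) (.leaf 7)))) (.bis 1 2 2 1 315
  (.leaf 7) (.leaf 98))) (.bis 0 2 2 1 313 (.bis 4 6 2 1 276 (.leaf 7) (.bis 1 4 1 2 290 (.bis 2
  4 1 2 314 (.leaf 7) (.leaf 7)) (.leaf 7))) (.bis 0 6 2 1 279 (.bis 4 6 2 1 276 (.leaf 3) (.bis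
  1 4 1 2 290 (.bis 0 4 1 4 280 (.leaf 7) (.leaf 3)) (.leaf 3))) (.bis 0 4 1 1 281 (.bis 1 4 1 2
  290 (.bis 4 6 4 1 280 (.leaf 3) (.leaf 7)) (.leaf 3)) (.leaf 13)))))))) (.bis 0 3 2 1 278 (.bis
  1 5 1 1 246 (.bis 2 5 1 1 317 (.bis 3 4 1 2 274 (.leaf 7) (.leaf 87)) (.bis 3 4 1 2 274 (.bis 2
  4 1 1 318 (.leaf 65) (.bis 1 2 1 2 319 (.bis 2 6 2 1 320 (.leaf 18) (.bis 0 2 1 4 321 (.leaf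
  59) (.leaf 18))) (.leaf 18))) (.bis 2 3 2 1 322 (.leaf 18) (.bis 1 2 1 2 319 (.bis 2 6 2 1 320
  (.leaf 18) (.bis 0 2 1 4 321 (.leaf 59) (.leaf 18))) (.leaf 18))))) (.bis 1 4 1 1 286 (.bis 3 4
  1 2 274 (.bis 2 4 1 1 318 (.leaf 65) (.bis 2 5 2 1 319 (.leaf 18) (.bis 2 6 2 1 320 (.leaf 18)
  (.bis 0 2 1 4 321 (.bis 1 2 1 2 323 (.leaf 59) (.leaf 18)) (.leaf 18))))) (.bis 2 3 2 1 322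
  (.leaf 18) (.bis 2 5 2 1 319 (.leaf 18) (.bis 2 6 2 1 320 (.leaf 18) (.bis 0 2 1 4 321 (.bis 1
  2 1 2 323 (.leaf 59) (.leaf 18)) (.leaf 18)))))) (.bis 1 6 2 1 315 (.bis 2 3 2 1 322 (.leaf 18)
  (.bis 2 5 2 1 319 (.leaf 18) (.bis 2 6 2 1 320 (.leaf 18) (.bis 0 2 1 4 321 (.bis 2 4 2 1 323
  (.leaf 18) (.leaf 43)) (.leaf 18))))) (.bis 1 2 1 1 324 (.bis 2 3 2 1 322 (.leaf 18) (.bis 2 5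
  2 1 319 (.leaf 18) (.bis 0 2 1 4 321 (.bis 2 4 2 1 323 (.leaf 18) (.leaf 43)) (.leaf 18))))
  (.bis 1 3 2 1 162 (.leaf 18) (.leaf 81)))))) (.bis 0 2 1 1 325 (.bis 1 5 1 1 246 (.bis 2 5 1 1
  317 (.bis 4 6 2 1 314 (.leaf 7) (.leaf 7)) (.bis 2 4 1 1 318 (.leaf 65) (.bis 1 2 1 2 319 (.bis
  2 6 2 1 320 (.leaf 18) (.bis 2 3 4 1 321 (.leaf 18) (.leaf 43))) (.leaf 18)))) (.bis 1 4 1 1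
  286 (.bis 2 4 1 1 318 (.leaf 65) (.bis 2 5 2 1 319 (.leaf 18) (.bis 2 6 2 1 320 (.leaf 18)
  (.bis 2 3 4 1 321 (.leaf 18) (.leaf 43))))) (.bis 1 6 2 1 315 (.bis 2 5 2 1 319 (.leaf 7) (.bis
  2 6 2 1 320 (.leaf 18) (.bis 2 3 4 1 321 (.leaf 18) (.bis 2 4 2 1 323 (.leaf 18) (.leaf 43)))))
  (.bis 1 2 1 1 324 (.bis 2 5 2 1 319 (.leaf 18) (.bis 2 3 4 1 321 (.leaf 18) (.bis 2 4 2 1 323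
  (.leaf 18) (.leaf 43)))) (.leaf 81))))) (.bis 1 5 1 1 246 (.bis 0 6 2 1 313 (.bis 4 6 2 1 314
  (.leaf 7) (.bis 1 4 1 2 288 (.leaf 7) (.leaf 7))) (.bis 0 4 1 1 281 (.bis 1 4 1 2 288 (.leaf 7)
  (.leaf 7)) (.leaf 35))) (.bis 0 1 1 1 289 (.bis 1 4 1 1 286 (.bis 0 4 1 2 290 (.bis 4 6 2 1 314
  (.leaf 7) (.leaf 7)) (.bis 0 6 1 1 316 (.leaf 7) (.leaf 7))) (.bis 1 6 2 1 315 (.bis 0 6 1 1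
  316 (.leaf 7) (.leaf 7)) (.bis 1 2 2 1 326 (.leaf 29) (.leaf 21)))) (.bis 0 6 2 1 313 (.bis 1 4
  1 2 290 (.bis 4 6 2 1 314 (.leaf 7) (.leaf 7)) (.leaf 7)) (.bis 0 4 1 1 281 (.bis 1 4 1 2 290
  (.leaf 7) (.leaf 7)) (.leaf 35)))))))) (.bis 0 3 1 2 302 (.bis 3 5 2 1 257 (.bis 1 5 1 1 246
  (.bis 2 5 1 1 317 (.bis 4 6 2 1 274 (.bis 5 6 2 1 252 (.leaf 18) (.bis 0 5 1 2 303 (.leaf 86)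
  (.leaf 18))) (.leaf 86)) (.bis 4 6 2 1 274 (.bis 2 6 2 1 322 (.leaf 18) (.bis 1 2 1 2 319 (.bis
  2 4 4 1 327 (.leaf 18) (.leaf 59)) (.leaf 18))) (.bis 2 4 1 1 318 (.leaf 86) (.bis 1 2 1 2 319
  (.bis 2 6 4 1 327 (.leaf 18) (.leaf 59)) (.leaf 18))))) (.bis 1 4 1 1 286 (.bis 4 6 2 1 274
  (.bis 2 6 2 1 322 (.leaf 18) (.bis 2 5 2 1 319 (.leaf 18) (.bis 1 2 1 2 323 (.leaf 59) (.leaf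
  18)))) (.bis 2 4 1 1 318 (.leaf 86) (.bis 2 5 2 1 319 (.leaf 18) (.bis 1 2 1 2 323 (.leaf 59)
  (.leaf 18))))) (.bis 1 2 1 1 324 (.bis 2 6 2 1 322 (.leaf 18) (.bis 2 5 2 1 319 (.leaf 18)
  (.bis 2 4 2 1 323 (.leaf 18) (.leaf 59)))) (.bis 1 6 2 1 162 (.leaf 18) (.leaf 85))))) (.bis 3
  4 2 1 306 (.bis 1 4 1 1 286 (.bis 4 6 2 1 274 (.bis 2 6 2 1 322 (.leaf 18) (.bis 1 2 1 2 323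
  (.bis 2 4 4 1 327 (.leaf 18) (.leaf 59)) (.leaf 18))) (.bis 2 4 1 1 318 (.bis 0 4 1 2 304
  (.leaf 140) (.leaf 18)) (.bis 1 2 1 2 323 (.bis 2 6 4 1 327 (.leaf 18) (.leaf 59)) (.leaf
  18)))) (.bis 1 2 1 1 324 (.bis 2 6 2 1 322 (.leaf 18) (.bis 2 4 2 1 323 (.leaf 18) (.leaf 59)))
  (.bis 1 6 2 1 162 (.leaf 18) (.leaf 85)))) (.bis 1 3 1 2 163 (.bis 3 6 4 1 111 (.bis 2 6 2 1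
  322 (.leaf 31) (.bis 1 2 1 2 328 (.bis 2 3 4 1 329 (.leaf 59) (.leaf 59)) (.leaf 110))) (.bis 2
  3 1 2 330 (.leaf 93) (.bis 1 2 1 2 328 (.bis 2 6 4 1 329 (.leaf 59) (.leaf 59)) (.leaf 93))))
  (.bis 1 2 1 1 324 (.bis 2 6 2 1 322 (.leaf 110) (.bis 2 3 2 1 328 (.leaf 85) (.leaf 59))) (.bis
  1 6 2 1 162 (.leaf 110) (.bis 1 4 2 1 309 (.leaf 85) (.leaf 85))))))) (.bis 0 6 2 1 278 (.bis 1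
  5 1 1 246 (.bis 2 5 1 1 317 (.bis 4 6 2 1 274 (.bis 5 6 2 1 252 (.leaf 18) (.leaf 29)) (.leaf
  29)) (.bis 4 6 2 1 274 (.bis 2 6 2 1 322 (.leaf 18) (.bis 1 2 1 2 319 (.bis 0 2 1 4 321 (.leaf
  59) (.leaf 18)) (.leaf 18))) (.bis 2 4 1 1 318 (.leaf 29) (.bis 1 2 1 2 319 (.bis 0 2 1 4 321
  (.leaf 59) (.leaf 18)) (.leaf 18))))) (.bis 1 4 1 1 286 (.bis 4 6 2 1 274 (.bis 2 6 2 1 322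
  (.leaf 18) (.bis 2 5 2 1 319 (.leaf 18) (.bis 0 2 1 4 321 (.bis 1 2 1 2 323 (.leaf 59) (.leaf
  18)) (.leaf 18)))) (.bis 2 4 1 1 318 (.leaf 29) (.bis 2 5 2 1 319 (.leaf 18) (.bis 0 2 1 4 321
  (.bis 1 2 1 2 323 (.leaf 59) (.leaf 18)) (.leaf 18))))) (.bis 1 2 1 1 324 (.bis 2 6 2 1 322
  (.leaf 18) (.bis 2 5 2 1 319 (.leaf 18) (.bis 0 2 1 4 321 (.leaf 43) (.leaf 18)))) (.bis 1 6 2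
  1 162 (.leaf 18) (.leaf 81))))) (.bis 0 2 1 1 325 (.bis 1 5 1 1 246 (.bis 2 5 1 1 317 (.bis 3 5
  1 2 303 (.bis 1 4 1 2 288 (.leaf 7) (.leaf 7)) (.bis 3 4 1 2 304 (.leaf 7) (.leaf 18))) (.bis 2
  4 1 1 318 (.bis 3 4 1 2 304 (.leaf 29) (.leaf 18)) (.bis 1 2 1 2 319 (.bis 2 6 4 1 321 (.leaf
  18) (.leaf 43)) (.leaf 18)))) (.bis 1 4 1 1 286 (.bis 2 4 1 1 318 (.leaf 29) (.bis 2 5 2 1 319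
  (.leaf 18) (.bis 2 6 4 1 321 (.leaf 18) (.bis 1 2 1 2 323 (.leaf 43) (.leaf 18))))) (.bis 1 2 1
  1 324 (.bis 2 5 2 1 319 (.leaf 18) (.bis 2 6 4 1 321 (.leaf 18) (.bis 2 4 2 1 323 (.leaf 18)
  (.leaf 43)))) (.bis 0 1 1 2 326 (.leaf 81) (.leaf 18))))) (.bis 1 5 1 1 246 (.bis 0 4 1 1 281
  (.bis 3 5 1 2 303 (.leaf 7) (.bis 3 4 1 2 304 (.leaf 7) (.leaf 29))) (.bis 0 3 2 1 310 (.leaf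
  29) (.leaf 35))) (.bis 0 1 1 1 289 (.bis 1 4 1 1 286 (.bis 0 4 1 2 290 (.bis 3 4 1 2 304 (.leaf
  7) (.leaf 18)) (.leaf 29)) (.bis 1 2 2 1 326 (.leaf 29) (.leaf 21))) (.bis 0 4 1 1 281 (.bis 1
  4 1 2 290 (.leaf 29) (.leaf 29)) (.leaf 141))))))))

def lc10 : List Vr := [⟨[56,0,85,0,0,0,0], 129307, 0⟩, ⟨[0,73,0,73,0,0,0], 127896, 0⟩, ⟨[0,0,85,
  73,0,0,0], 117451, 0⟩, ⟨[0,0,0,73,0,0,0], 21316, 0⟩, ⟨[0,0,85,0,56,0,0], 129307, 0⟩, ⟨[0,0,85,0,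
  0,42,0], 128523, 0⟩, ⟨[0,0,85,0,0,0,119], 143055, 0⟩]

theorem lk10 : chkTr lowT (leafLow 6 lowB) lt10 lc10 = true := by decide +kernel

def lt11 : Tr ℕ := (.bis 2 6 2 1 331 (.bis 3 6 1 1 312 (.bis 1 6 1 1 141 (.bis 0 6 1 1 272 (.bis
  4 6 1 1 273 (.bis 5 6 1 1 234 (.leaf 120) (.bis 1 2 1 1 332 (.bis 2 5 1 2 333 (.leaf 25) (.leaf
  25)) (.bis 1 5 1 2 334 (.leaf 25) (.leaf 25)))) (.bis 0 4 1 2 275 (.bis 1 4 1 2 276 (.bis 2 4 1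
  2 335 (.leaf 7) (.leaf 25)) (.leaf 25)) (.leaf 25))) (.bis 0 3 2 1 313 (.bis 4 6 2 1 275 (.leaf
  25) (.bis 1 4 1 2 276 (.bis 2 4 1 2 335 (.leaf 7) (.leaf 25)) (.leaf 25))) (.bis 4 6 2 1 275
  (.bis 0 1 2 1 279 (.bis 1 2 1 1 332 (.leaf 25) (.leaf 13)) (.bis 0 2 2 1 336 (.leaf 25) (.leaf
  13))) (.bis 0 1 2 1 279 (.bis 1 4 1 2 276 (.bis 2 4 1 2 335 (.leaf 7) (.bis 2 5 1 2 333 (.leaf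
  7) (.leaf 25))) (.bis 1 2 1 1 332 (.leaf 25) (.leaf 7))) (.bis 0 4 1 1 281 (.bis 2 4 1 2 335
  (.leaf 7) (.bis 0 2 1 1 337 (.leaf 25) (.leaf 7))) (.bis 0 2 2 1 336 (.bis 2 4 1 1 337 (.leaf
  7) (.leaf 25)) (.leaf 13))))))) (.bis 1 2 2 1 338 (.bis 0 3 2 1 313 (.bis 4 6 2 1 276 (.bis 2 6
  1 1 332 (.leaf 7) (.leaf 25)) (.bis 2 4 1 2 335 (.bis 3 4 1 2 314 (.leaf 7) (.leaf 7)) (.leaf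
  25))) (.bis 0 6 2 1 279 (.bis 4 6 2 1 276 (.bis 2 6 1 1 332 (.leaf 7) (.bis 2 5 1 2 333 (.leaf
  7) (.leaf 25))) (.bis 2 4 1 2 335 (.bis 0 4 1 4 280 (.leaf 7) (.leaf 7)) (.bis 2 5 1 2 333
  (.leaf 7) (.leaf 25)))) (.bis 0 4 1 1 281 (.bis 2 4 1 2 335 (.leaf 7) (.bis 0 2 1 1 337 (.leaf
  25) (.leaf 7))) (.bis 0 2 2 1 336 (.bis 2 4 1 1 337 (.leaf 7) (.leaf 25)) (.leaf 13))))) (.bis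
  1 5 1 1 246 (.bis 0 3 2 1 313 (.bis 4 6 2 1 276 (.leaf 7) (.bis 3 4 1 2 314 (.leaf 7) (.leaf
  7))) (.bis 0 6 2 1 279 (.bis 4 6 2 1 276 (.leaf 3) (.bis 0 4 1 4 280 (.leaf 7) (.leaf 3)))
  (.bis 0 4 1 1 281 (.bis 4 6 4 1 280 (.leaf 3) (.leaf 7)) (.leaf 13)))) (.bis 0 1 1 1 289 (.bis
  1 4 1 1 286 (.bis 4 6 2 1 276 (.leaf 7) (.bis 0 4 1 2 290 (.leaf 7) (.bis 0 3 1 1 316 (.leaf 7)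
  (.leaf 7)))) (.bis 1 3 2 1 315 (.leaf 7) (.leaf 30))) (.bis 0 3 2 1 313 (.bis 4 6 2 1 276
  (.leaf 7) (.bis 1 4 1 2 290 (.bis 3 4 1 2 314 (.leaf 7) (.leaf 7)) (.leaf 7))) (.bis 0 6 2 1
  279 (.bis 4 6 2 1 276 (.leaf 3) (.bis 1 4 1 2 290 (.bis 0 4 1 4 280 (.leaf 7) (.leaf 3)) (.leaf
  3))) (.bis 0 4 1 1 281 (.bis 1 4 1 2 290 (.bis 4 6 4 1 280 (.leaf 3) (.leaf 7)) (.leaf 3))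
  (.leaf 13)))))))) (.bis 1 2 2 1 338 (.bis 0 3 1 1 325 (.bis 2 3 1 2 339 (.bis 3 5 1 1 317 (.bis
  4 6 2 1 314 (.leaf 25) (.leaf 65)) (.bis 3 4 1 1 318 (.bis 4 6 2 1 314 (.leaf 18) (.leaf 65))
  (.bis 3 6 2 1 320 (.leaf 18) (.bis 1 3 1 4 340 (.leaf 43) (.leaf 18))))) (.bis 2 4 1 2 335
  (.bis 4 6 2 1 314 (.leaf 25) (.leaf 65)) (.leaf 25))) (.bis 0 6 2 1 313 (.bis 2 4 1 2 335 (.bis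
  4 6 2 1 314 (.leaf 7) (.leaf 7)) (.leaf 25)) (.bis 0 4 1 1 281 (.bis 2 4 1 2 335 (.leaf 7)
  (.bis 2 3 1 1 341 (.leaf 7) (.leaf 25))) (.bis 0 2 2 1 336 (.bis 2 3 1 1 341 (.leaf 7) (.leaf
  25)) (.leaf 35))))) (.bis 0 3 1 1 325 (.bis 1 5 1 1 246 (.bis 3 5 1 1 317 (.bis 4 6 2 1 314
  (.leaf 7) (.leaf 7)) (.bis 3 4 1 1 318 (.leaf 65) (.bis 1 3 1 2 319 (.bis 3 6 2 1 320 (.leaf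
  18) (.bis 2 3 1 4 340 (.leaf 43) (.leaf 18))) (.leaf 18)))) (.bis 1 4 1 1 286 (.bis 3 4 1 1 318
  (.bis 4 6 2 1 314 (.leaf 18) (.leaf 29)) (.bis 3 5 2 1 319 (.bis 1 6 1 1 342 (.leaf 18) (.leaf
  18)) (.bis 3 6 2 1 320 (.leaf 18) (.bis 2 3 1 4 340 (.leaf 43) (.leaf 18))))) (.bis 1 6 2 1 315
  (.bis 3 5 2 1 319 (.leaf 7) (.bis 3 6 2 1 320 (.leaf 18) (.bis 2 3 1 4 340 (.bis 3 4 2 1 323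
  (.leaf 18) (.leaf 43)) (.leaf 18)))) (.bis 1 3 1 1 324 (.bis 3 5 2 1 319 (.leaf 18) (.bis 2 3 1
  4 340 (.bis 3 4 2 1 323 (.leaf 18) (.leaf 43)) (.leaf 18))) (.bis 0 1 1 2 326 (.leaf 81) (.leaf
  18)))))) (.bis 1 5 1 1 246 (.bis 0 6 2 1 313 (.bis 4 6 2 1 314 (.leaf 7) (.bis 2 4 1 4 343
  (.leaf 7) (.leaf 7))) (.bis 0 4 1 1 281 (.bis 2 4 1 4 343 (.leaf 7) (.leaf 7)) (.leaf 35)))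
  (.bis 0 1 1 1 289 (.bis 1 4 1 1 286 (.bis 0 4 1 2 290 (.bis 4 6 2 1 314 (.leaf 7) (.leaf 7))
  (.bis 0 6 1 1 316 (.leaf 7) (.leaf 7))) (.bis 1 6 2 1 315 (.bis 0 6 1 1 316 (.leaf 7) (.leaf
  7)) (.bis 1 3 2 1 326 (.leaf 29) (.leaf 30)))) (.bis 0 6 2 1 313 (.bis 1 4 1 2 290 (.bis 4 6 2
  1 314 (.leaf 7) (.leaf 7)) (.leaf 7)) (.bis 0 4 1 1 281 (.bis 1 4 1 2 290 (.leaf 7) (.leaf 7))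
  (.leaf 35)))))))) (.bis 1 2 1 2 344 (.bis 2 5 2 1 345 (.bis 0 3 1 1 325 (.bis 3 6 2 1 339 (.bis
  4 6 2 1 335 (.bis 1 6 1 1 346 (.leaf 90) (.bis 1 5 1 2 347 (.leaf 90) (.bis 1 4 2 1 348 (.leaf
  6) (.bis 1 2 1 1 349 (.leaf 6) (.leaf 6))))) (.bis 1 5 1 2 347 (.bis 2 4 1 2 350 (.leaf 65)
  (.leaf 90)) (.bis 1 4 1 2 351 (.bis 2 4 1 2 350 (.leaf 65) (.leaf 6)) (.bis 1 6 2 1 348 (.bis 0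
  2 1 1 352 (.leaf 6) (.leaf 6)) (.bis 1 2 1 1 349 (.leaf 6) (.leaf 6)))))) (.bis 3 5 1 1 317
  (.bis 1 5 1 2 347 (.bis 2 4 1 2 350 (.leaf 65) (.leaf 90)) (.bis 1 4 1 2 351 (.bis 2 4 1 2 350
  (.leaf 65) (.bis 0 2 1 1 352 (.leaf 6) (.leaf 6))) (.bis 1 2 1 1 349 (.bis 0 2 1 1 352 (.leaf
  6) (.leaf 6)) (.leaf 6)))) (.bis 3 4 1 1 318 (.bis 1 4 1 2 351 (.bis 2 4 1 2 350 (.leaf 65)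
  (.bis 2 3 1 1 353 (.leaf 55) (.bis 0 2 1 1 352 (.leaf 6) (.leaf 6)))) (.bis 2 3 1 1 353 (.leaf
  43) (.bis 1 2 1 1 349 (.leaf 6) (.leaf 6)))) (.bis 2 3 1 2 354 (.leaf 43) (.bis 2 4 1 1 353
  (.leaf 43) (.bis 1 2 1 1 349 (.leaf 6) (.leaf 6))))))) (.bis 0 4 1 1 281 (.bis 4 6 2 1 335
  (.bis 1 6 1 1 346 (.bis 3 6 1 1 341 (.bis 0 6 1 1 337 (.bis 5 6 2 1 333 (.bis 2 6 1 1 355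
  (.leaf 25) (.leaf 42)) (.leaf 42)) (.bis 1 5 1 4 356 (.bis 0 2 1 1 357 (.leaf 42) (.leaf 7))
  (.bis 0 2 1 1 357 (.leaf 6) (.leaf 6)))) (.bis 1 5 1 4 356 (.bis 3 5 1 2 358 (.bis 0 2 1 1 357
  (.leaf 42) (.leaf 7)) (.bis 0 2 1 1 357 (.leaf 6) (.leaf 6))) (.leaf 6))) (.bis 1 5 1 2 347
  (.leaf 90) (.bis 1 4 2 1 348 (.bis 0 2 1 1 357 (.leaf 6) (.leaf 6)) (.bis 0 1 1 1 359 (.bis 1 2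
  1 1 349 (.leaf 6) (.leaf 6)) (.bis 0 2 1 1 357 (.leaf 6) (.leaf 6)))))) (.bis 1 5 1 2 347 (.bis
  2 4 1 2 350 (.leaf 7) (.bis 3 5 1 2 358 (.bis 0 2 1 1 357 (.leaf 42) (.leaf 7)) (.bis 0 2 1 1
  357 (.leaf 6) (.leaf 6)))) (.bis 1 4 1 2 351 (.bis 2 4 1 2 350 (.leaf 7) (.bis 0 2 1 1 357
  (.leaf 6) (.leaf 6))) (.bis 1 6 2 1 348 (.bis 0 2 1 1 357 (.leaf 6) (.leaf 6)) (.bis 0 1 1 1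
  359 (.bis 1 2 1 1 349 (.bis 2 3 1 1 352 (.leaf 6) (.leaf 6)) (.leaf 6)) (.bis 0 2 1 1 357 (.bis
  2 3 1 1 352 (.leaf 6) (.leaf 6)) (.leaf 6))))))) (.bis 0 6 2 1 336 (.bis 1 6 1 1 346 (.bis 3 6
  1 1 341 (.bis 4 6 1 1 337 (.bis 5 6 2 1 333 (.bis 2 6 1 1 355 (.leaf 25) (.leaf 42)) (.leaf
  42)) (.bis 1 5 1 4 356 (.bis 2 4 1 1 357 (.leaf 7) (.leaf 42)) (.bis 2 4 1 1 357 (.leaf 6)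
  (.leaf 6)))) (.bis 1 5 1 4 356 (.bis 3 5 1 2 358 (.bis 2 4 1 1 357 (.leaf 7) (.leaf 42)) (.bis
  2 4 1 1 357 (.leaf 6) (.leaf 6))) (.bis 2 4 1 1 357 (.leaf 6) (.leaf 6)))) (.bis 1 5 1 2 347
  (.bis 5 6 4 1 356 (.leaf 6) (.bis 3 5 1 2 358 (.bis 2 4 1 1 357 (.leaf 7) (.leaf 42)) (.bis 2 4
  1 1 357 (.leaf 6) (.leaf 6)))) (.bis 0 1 1 2 360 (.bis 1 4 1 1 359 (.bis 2 4 1 1 357 (.leaf 6)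
  (.leaf 6)) (.bis 1 2 1 1 349 (.leaf 6) (.leaf 6))) (.bis 2 4 1 1 357 (.leaf 6) (.leaf 6)))))
  (.bis 1 5 1 2 347 (.bis 0 2 2 1 361 (.bis 3 5 1 2 358 (.bis 2 4 1 1 357 (.leaf 35) (.leaf 42))
  (.bis 2 4 1 1 357 (.leaf 6) (.leaf 6))) (.leaf 35)) (.bis 0 1 2 1 362 (.bis 1 6 2 1 360 (.bis 2
  4 1 1 357 (.leaf 6) (.bis 2 3 1 1 352 (.leaf 6) (.leaf 6))) (.bis 1 4 1 1 359 (.bis 2 4 1 1 357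
  (.leaf 6) (.bis 2 3 1 1 352 (.leaf 6) (.leaf 6))) (.bis 1 2 1 1 349 (.bis 2 3 1 1 352 (.leaf 6)
  (.leaf 6)) (.leaf 6)))) (.bis 0 2 2 1 361 (.bis 2 4 1 1 357 (.leaf 6) (.leaf 6)) (.leaf
  35))))))) (.bis 0 2 1 2 363 (.bis 2 4 2 1 364 (.bis 3 6 2 1 339 (.bis 4 6 2 1 335 (.bis 1 6 1 1
  346 (.bis 0 6 1 1 365 (.bis 2 6 1 1 366 (.leaf 90) (.bis 2 3 2 1 367 (.leaf 6) (.leaf 101)))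
  (.bis 0 4 2 1 368 (.leaf 101) (.bis 0 3 2 1 369 (.bis 2 3 2 1 367 (.leaf 6) (.leaf 17)) (.leaf
  17)))) (.bis 1 4 2 1 348 (.bis 0 4 2 1 368 (.leaf 55) (.bis 0 3 2 1 369 (.leaf 17) (.leaf 17)))
  (.bis 0 3 2 1 369 (.bis 1 5 1 1 349 (.leaf 17) (.bis 1 2 1 1 370 (.leaf 17) (.leaf 6))) (.bis 1
  5 1 1 349 (.leaf 17) (.bis 0 1 1 1 371 (.bis 1 2 1 1 370 (.leaf 17) (.leaf 6)) (.leaf 17))))))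
  (.bis 0 4 1 2 372 (.bis 1 4 1 2 351 (.bis 4 5 2 1 350 (.leaf 55) (.leaf 99)) (.bis 1 6 2 1 348
  (.leaf 55) (.leaf 17))) (.bis 1 6 2 1 348 (.bis 0 6 2 1 368 (.leaf 55) (.bis 0 3 2 1 369 (.leaf
  17) (.leaf 17))) (.bis 0 3 2 1 369 (.leaf 17) (.bis 1 5 1 1 349 (.leaf 17) (.bis 0 1 1 1 371
  (.leaf 17) (.leaf 17))))))) (.bis 0 3 1 2 373 (.bis 3 4 1 1 318 (.bis 1 4 1 2 351 (.bis 4 5 2 1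
  350 (.bis 3 5 1 1 353 (.leaf 55) (.leaf 55)) (.leaf 99)) (.bis 3 5 1 1 353 (.leaf 17) (.leaf
  55))) (.bis 3 5 2 1 354 (.bis 4 5 1 1 353 (.leaf 17) (.leaf 55)) (.bis 2 3 1 2 374 (.leaf 43)
  (.bis 1 2 1 1 370 (.leaf 55) (.leaf 43))))) (.bis 0 4 1 2 372 (.bis 1 4 1 2 351 (.bis 4 5 2 1
  350 (.leaf 55) (.leaf 99)) (.leaf 17)) (.bis 0 6 2 1 369 (.leaf 17) (.bis 1 5 1 1 349 (.leaf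
  17) (.leaf 17)))))) (.bis 2 3 2 1 375 (.bis 3 6 2 1 339 (.bis 2 6 1 1 376 (.bis 1 6 1 1 346
  (.bis 0 6 1 1 365 (.bis 4 6 1 1 366 (.leaf 90) (.bis 3 4 1 2 367 (.leaf 17) (.leaf 6))) (.bis 0
  3 2 1 369 (.bis 3 4 1 2 367 (.leaf 17) (.leaf 6)) (.bis 0 1 2 1 377 (.bis 1 4 1 2 378 (.leaf
  17) (.leaf 6)) (.bis 0 2 2 1 379 (.leaf 17) (.bis 4 6 2 1 380 (.leaf 6) (.leaf 17)))))) (.bis 0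
  3 2 1 369 (.bis 1 5 1 1 349 (.leaf 17) (.bis 1 4 1 1 370 (.leaf 17) (.leaf 6))) (.bis 1 5 1 1
  349 (.leaf 17) (.bis 0 1 1 1 371 (.bis 1 4 1 1 370 (.leaf 17) (.leaf 6)) (.leaf 17))))) (.bis 0
  3 2 1 369 (.bis 1 5 1 1 349 (.bis 2 5 1 1 381 (.leaf 17) (.bis 2 3 2 1 382 (.leaf 17) (.bis 2 6
  2 1 383 (.leaf 17) (.leaf 40)))) (.bis 1 4 1 1 370 (.bis 2 3 2 1 382 (.leaf 17) (.bis 2 6 2 1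
  383 (.leaf 17) (.leaf 40))) (.bis 1 6 2 1 384 (.bis 2 3 2 1 382 (.leaf 17) (.bis 2 6 2 1 383
  (.leaf 17) (.bis 2 5 2 1 385 (.leaf 17) (.leaf 40)))) (.bis 1 2 1 1 386 (.bis 2 3 2 1 382
  (.leaf 17) (.bis 2 5 2 1 385 (.leaf 17) (.leaf 40))) (.leaf 17))))) (.bis 0 2 1 1 387 (.bis 1 5
  1 1 349 (.bis 2 5 1 1 381 (.leaf 17) (.bis 2 6 2 1 383 (.leaf 17) (.leaf 40))) (.bis 1 4 1 1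
  370 (.bis 2 6 2 1 383 (.leaf 17) (.bis 2 5 2 1 385 (.leaf 17) (.leaf 40))) (.bis 1 6 2 1 384
  (.bis 2 6 2 1 383 (.leaf 17) (.bis 2 5 2 1 385 (.leaf 17) (.leaf 40))) (.bis 1 2 1 1 386 (.bis
  2 5 2 1 385 (.leaf 17) (.leaf 40)) (.leaf 17))))) (.bis 1 5 1 1 349 (.leaf 17) (.leaf 17)))))
  (.bis 0 3 1 2 373 (.bis 3 5 2 1 354 (.bis 1 5 1 1 349 (.bis 2 5 1 1 381 (.leaf 17) (.leaf 40))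
  (.bis 1 4 1 1 370 (.bis 2 6 2 1 382 (.leaf 17) (.leaf 40)) (.bis 1 2 1 1 386 (.leaf 40) (.leaf
  17)))) (.bis 3 4 2 1 374 (.bis 1 4 1 1 370 (.leaf 40) (.leaf 122)) (.leaf 122))) (.bis 0 6 2 1
  369 (.bis 1 5 1 1 349 (.bis 2 5 1 1 381 (.leaf 17) (.bis 2 6 2 1 382 (.leaf 17) (.leaf 40)))
  (.bis 1 4 1 1 370 (.bis 2 6 2 1 382 (.leaf 17) (.bis 2 5 2 1 385 (.leaf 17) (.leaf 40))) (.bis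
  1 2 1 1 386 (.bis 2 6 2 1 382 (.leaf 17) (.leaf 40)) (.leaf 17)))) (.bis 0 2 1 1 387 (.bis 1 5
  1 1 349 (.bis 2 5 1 1 381 (.leaf 17) (.leaf 40)) (.bis 1 4 1 1 370 (.bis 2 5 2 1 385 (.leaf 17)
  (.leaf 40)) (.bis 1 2 1 1 386 (.leaf 40) (.leaf 17)))) (.bis 1 5 1 1 349 (.leaf 17) (.leaf
  17)))))) (.bis 2 6 4 1 388 (.bis 3 6 1 1 376 (.bis 1 6 1 1 346 (.bis 0 6 1 1 365 (.bis 4 6 1 1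
  366 (.leaf 123) (.bis 1 4 1 2 378 (.leaf 60) (.leaf 60))) (.bis 0 1 2 1 377 (.bis 1 4 1 2 378
  (.leaf 60) (.leaf 60)) (.bis 0 3 2 1 379 (.bis 4 6 2 1 380 (.leaf 60) (.leaf 60)) (.bis 4 6 2 1
  380 (.leaf 60) (.bis 0 4 1 1 389 (.bis 2 4 1 2 390 (.leaf 17) (.leaf 27)) (.bis 0 2 2 1 391
  (.leaf 27) (.leaf 17))))))) (.bis 1 2 2 1 392 (.bis 0 6 2 1 377 (.leaf 60) (.leaf 60)) (.bis 1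
  5 1 1 349 (.leaf 17) (.bis 0 1 1 1 371 (.bis 1 4 1 1 370 (.leaf 17) (.leaf 6)) (.bis 0 6 2 1
  377 (.bis 4 6 2 1 378 (.leaf 6) (.leaf 17)) (.leaf 17)))))) (.bis 1 2 2 1 392 (.bis 0 3 1 1 387
  (.bis 2 3 1 2 393 (.bis 3 5 1 1 381 (.leaf 40) (.leaf 40)) (.leaf 60)) (.leaf 60)) (.bis 0 3 1
  1 387 (.bis 1 5 1 1 349 (.bis 3 5 1 1 381 (.leaf 17) (.bis 3 6 2 1 383 (.leaf 17) (.leaf 40)))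
  (.bis 1 4 1 1 370 (.bis 3 6 2 1 383 (.leaf 17) (.bis 3 5 2 1 385 (.leaf 17) (.leaf 40))) (.bis
  1 6 2 1 384 (.bis 3 6 2 1 383 (.leaf 17) (.bis 3 5 2 1 385 (.leaf 17) (.leaf 40))) (.bis 1 3 1
  1 386 (.bis 3 5 2 1 385 (.leaf 17) (.leaf 40)) (.leaf 17))))) (.bis 1 5 1 1 349 (.leaf 17)
  (.leaf 17))))) (.bis 1 2 1 4 394 (.bis 2 5 4 1 395 (.bis 0 3 1 1 387 (.bis 3 6 2 1 393 (.leaf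
  142) (.bis 3 5 1 1 381 (.leaf 88) (.bis 3 4 1 1 396 (.bis 1 4 1 2 397 (.bis 2 4 1 2 398 (.leaf
  40) (.bis 2 3 1 1 399 (.leaf 40) (.leaf 27))) (.bis 2 3 1 1 399 (.leaf 40) (.leaf 27))) (.bis 2
  3 1 2 400 (.leaf 40) (.bis 2 4 1 1 399 (.leaf 40) (.leaf 53)))))) (.bis 0 4 1 1 389 (.bis 4 6 2
  1 390 (.bis 1 6 1 1 401 (.leaf 27) (.leaf 27)) (.bis 1 5 1 2 402 (.bis 2 4 1 2 398 (.leaf 40)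
  (.leaf 27)) (.bis 1 4 1 2 397 (.bis 2 4 1 2 398 (.leaf 40) (.leaf 27)) (.leaf 27)))) (.bis 0 6
  2 1 391 (.bis 1 6 1 1 401 (.leaf 27) (.leaf 27)) (.bis 1 5 1 2 402 (.bis 0 2 2 1 403 (.leaf 27)
  (.leaf 27)) (.bis 0 1 2 1 404 (.leaf 27) (.bis 0 2 2 1 403 (.leaf 27) (.leaf 27))))))) (.bis 0
  2 1 4 405 (.bis 2 4 4 1 406 (.bis 3 6 2 1 393 (.bis 0 4 1 2 407 (.bis 4 6 2 1 390 (.leaf 53)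
  (.leaf 88)) (.bis 1 6 1 1 401 (.leaf 53) (.leaf 53))) (.bis 0 3 1 2 408 (.leaf 143) (.bis 0 4 1
  2 407 (.leaf 88) (.leaf 53)))) (.bis 2 3 4 1 409 (.bis 3 6 2 1 393 (.bis 2 6 1 1 410 (.leaf 53)
  (.leaf 91)) (.bis 0 3 1 2 408 (.leaf 144) (.leaf 91))) (.bis 2 6 8 1 411 (.bis 3 6 1 1 410
  (.bis 1 6 1 1 401 (.leaf 53) (.leaf 53)) (.leaf 91)) (.bis 1 2 1 8 412 (.bis 2 5 8 1 413 (.leaf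
  91) (.bis 0 2 1 8 414 (.bis 2 4 8 1 415 (.leaf 91) (.bis 2 3 8 1 416 (.leaf 145) (.bis 2 6 16 1
  417 (.leaf 105) (.leaf 105)))) (.leaf 91))) (.leaf 91))))) (.bis 0 3 1 1 387 (.bis 3 6 2 1 393
  (.bis 2 4 1 2 407 (.bis 4 6 2 1 390 (.leaf 27) (.leaf 88)) (.bis 1 6 1 1 401 (.leaf 53) (.leaf
  53))) (.bis 2 3 1 2 408 (.bis 3 4 1 1 396 (.bis 1 4 1 2 397 (.bis 4 5 2 1 398 (.leaf 88) (.leaf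
  40)) (.bis 3 5 1 1 399 (.leaf 53) (.leaf 40))) (.bis 3 5 2 1 400 (.leaf 88) (.leaf 40))) (.bis
  2 4 1 2 407 (.leaf 88) (.leaf 53)))) (.bis 2 4 1 2 407 (.bis 0 4 1 1 389 (.bis 4 6 2 1 390
  (.bis 1 6 1 1 401 (.leaf 27) (.leaf 27)) (.bis 1 4 1 2 397 (.bis 4 5 2 1 398 (.leaf 27) (.leaf
  40)) (.leaf 27))) (.bis 0 6 2 1 391 (.bis 1 6 1 1 401 (.leaf 27) (.leaf 27)) (.bis 0 1 2 1 404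
  (.leaf 27) (.bis 0 5 2 1 403 (.leaf 27) (.leaf 27))))) (.bis 0 6 2 1 391 (.bis 1 6 1 1 401
  (.leaf 53) (.leaf 53)) (.leaf 103)))))) (.bis 1 6 2 1 392 (.bis 0 3 1 1 387 (.bis 3 6 2 1 393
  (.bis 4 6 2 1 390 (.leaf 27) (.leaf 40)) (.bis 3 5 1 1 381 (.leaf 40) (.leaf 40))) (.bis 0 4 1
  1 389 (.bis 4 6 2 1 390 (.bis 2 6 1 1 401 (.leaf 27) (.leaf 17)) (.leaf 17)) (.bis 0 6 2 1 391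
  (.bis 2 6 1 1 401 (.leaf 27) (.leaf 17)) (.leaf 17)))) (.bis 0 3 1 1 387 (.bis 1 5 1 1 349
  (.bis 3 5 1 1 381 (.leaf 17) (.leaf 40)) (.bis 1 4 1 1 370 (.bis 3 5 2 1 385 (.leaf 17) (.leaf
  40)) (.bis 1 3 1 1 386 (.leaf 40) (.leaf 17)))) (.leaf 17))))))) (.bis 0 3 1 1 325 (.bis 3 6 2
  1 339 (.bis 4 6 2 1 335 (.bis 1 6 1 1 346 (.bis 0 6 1 1 341 (.bis 2 6 1 1 365 (.bis 5 6 1 1 355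
  (.leaf 25) (.leaf 6)) (.bis 2 4 2 1 368 (.leaf 6) (.bis 2 3 2 1 369 (.leaf 6) (.leaf 6))))
  (.bis 2 4 2 1 368 (.leaf 6) (.bis 2 3 2 1 369 (.leaf 6) (.leaf 6)))) (.bis 1 4 2 1 348 (.bis 2
  4 2 1 368 (.leaf 6) (.bis 2 3 2 1 369 (.leaf 6) (.leaf 6))) (.bis 2 3 2 1 369 (.bis 1 5 1 1 349
  (.leaf 6) (.leaf 6)) (.bis 1 5 1 1 349 (.leaf 6) (.bis 1 2 1 1 371 (.leaf 6) (.leaf 6))))))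
  (.bis 2 4 1 2 372 (.bis 1 4 1 2 351 (.bis 4 5 2 1 350 (.bis 0 5 1 1 352 (.leaf 6) (.leaf 6))
  (.leaf 65)) (.bis 1 6 2 1 348 (.bis 0 5 1 1 352 (.leaf 6) (.leaf 6)) (.bis 1 5 1 1 349 (.leaf
  6) (.leaf 6)))) (.bis 1 6 2 1 348 (.bis 2 6 2 1 368 (.leaf 6) (.bis 2 3 2 1 369 (.leaf 6)
  (.leaf 6))) (.bis 2 3 2 1 369 (.leaf 6) (.leaf 6))))) (.bis 2 3 1 2 373 (.bis 3 4 1 1 318 (.bis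
  1 4 1 2 351 (.bis 4 5 2 1 350 (.bis 3 5 1 1 353 (.leaf 6) (.leaf 55)) (.leaf 99)) (.bis 3 5 1 1
  353 (.bis 1 5 1 1 349 (.leaf 6) (.leaf 6)) (.leaf 43))) (.bis 3 5 2 1 354 (.bis 4 5 1 1 353
  (.bis 1 5 1 1 349 (.leaf 6) (.leaf 6)) (.leaf 43)) (.leaf 43))) (.bis 2 4 1 2 372 (.bis 1 4 1 2
  351 (.bis 4 5 2 1 350 (.leaf 6) (.leaf 99)) (.bis 1 5 1 1 349 (.leaf 6) (.leaf 6))) (.bis 2 6 2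
  1 369 (.bis 1 5 1 1 349 (.leaf 6) (.leaf 6)) (.leaf 6))))) (.bis 0 4 1 1 281 (.bis 4 6 2 1 335
  (.bis 1 6 1 1 346 (.bis 3 6 1 1 341 (.bis 0 6 1 1 337 (.bis 2 6 1 1 365 (.bis 5 6 1 1 355
  (.leaf 25) (.leaf 6)) (.bis 2 4 2 1 368 (.leaf 6) (.bis 0 2 1 2 418 (.leaf 6) (.leaf 6))))
  (.bis 2 4 2 1 368 (.leaf 6) (.bis 0 5 1 1 357 (.bis 2 6 2 1 418 (.leaf 6) (.leaf 6)) (.bis 0 2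
  1 1 419 (.leaf 6) (.leaf 6))))) (.bis 2 4 2 1 368 (.leaf 6) (.leaf 6))) (.bis 1 4 2 1 348 (.bis
  2 4 2 1 368 (.leaf 6) (.leaf 6)) (.bis 0 1 1 1 359 (.bis 1 5 1 1 349 (.bis 3 5 1 1 352 (.leaf
  6) (.bis 2 3 1 1 420 (.leaf 6) (.leaf 6))) (.bis 1 2 1 1 371 (.bis 2 3 1 1 420 (.leaf 6) (.leaf
  6)) (.leaf 6))) (.bis 0 5 1 1 357 (.bis 3 5 1 1 352 (.leaf 6) (.bis 2 3 1 1 420 (.leaf 6)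
  (.leaf 6))) (.bis 0 2 1 1 419 (.bis 2 3 1 1 420 (.leaf 6) (.leaf 6)) (.leaf 6)))))) (.bis 2 4 1
  2 372 (.bis 1 4 1 2 351 (.bis 4 5 2 1 350 (.bis 0 5 1 1 357 (.leaf 6) (.leaf 6)) (.leaf 7))
  (.bis 1 6 2 1 348 (.bis 0 5 1 1 357 (.leaf 6) (.leaf 6)) (.bis 0 1 1 1 359 (.bis 1 5 1 1 349
  (.bis 3 5 1 1 352 (.leaf 6) (.leaf 6)) (.leaf 6)) (.bis 0 5 1 1 357 (.bis 3 5 1 1 352 (.leaf 6)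
  (.leaf 6)) (.leaf 6))))) (.bis 1 6 2 1 348 (.bis 2 6 2 1 368 (.leaf 6) (.leaf 6)) (.bis 0 1 1 1
  359 (.bis 1 5 1 1 349 (.leaf 6) (.bis 1 2 1 1 371 (.bis 2 3 1 1 420 (.leaf 6) (.leaf 6)) (.leaf
  6))) (.bis 0 5 1 1 357 (.leaf 6) (.bis 0 2 1 1 419 (.bis 2 3 1 1 420 (.leaf 6) (.leaf 6))
  (.leaf 6))))))) (.bis 0 6 2 1 336 (.bis 1 6 1 1 346 (.bis 3 6 1 1 341 (.bis 4 6 1 1 337 (.bis 2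
  6 1 1 365 (.bis 5 6 1 1 355 (.leaf 25) (.leaf 6)) (.bis 2 4 2 1 418 (.leaf 6) (.leaf 6))) (.bis
  4 5 1 1 357 (.bis 2 6 2 1 418 (.leaf 6) (.leaf 6)) (.bis 2 4 1 1 419 (.leaf 6) (.bis 2 6 2 1
  418 (.leaf 6) (.leaf 6))))) (.leaf 6)) (.bis 0 1 1 2 360 (.leaf 6) (.leaf 6))) (.bis 0 1 2 1
  362 (.bis 1 6 2 1 360 (.bis 4 5 1 1 357 (.leaf 6) (.leaf 6)) (.bis 1 4 1 1 359 (.bis 4 5 1 1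
  357 (.leaf 6) (.bis 2 4 1 1 419 (.leaf 6) (.leaf 6))) (.bis 1 5 1 1 349 (.leaf 6) (.bis 1 2 1 1
  371 (.leaf 6) (.leaf 6))))) (.bis 0 5 2 1 361 (.bis 4 5 1 1 357 (.leaf 6) (.leaf 6)) (.leaf
  107)))))))) (.bis 1 6 2 1 338 (.bis 0 3 1 1 325 (.bis 3 6 2 1 339 (.bis 4 6 2 1 335 (.bis 2 6 1
  1 346 (.leaf 25) (.bis 2 5 1 2 347 (.leaf 25) (.leaf 121))) (.bis 2 5 1 2 347 (.leaf 65) (.bis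
  2 4 1 2 351 (.leaf 65) (.leaf 121)))) (.bis 3 5 1 1 317 (.bis 2 5 1 2 347 (.bis 1 4 1 4 343
  (.leaf 65) (.leaf 25)) (.bis 2 4 1 2 351 (.bis 1 4 1 4 343 (.leaf 65) (.leaf 18)) (.leaf 43)))
  (.bis 3 4 1 1 318 (.bis 2 4 1 2 351 (.leaf 65) (.leaf 43)) (.bis 1 3 1 4 340 (.leaf 43) (.leaf
  43))))) (.bis 0 4 1 1 281 (.bis 4 6 2 1 335 (.bis 2 6 1 1 346 (.bis 3 6 1 1 341 (.leaf 25)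
  (.leaf 25)) (.bis 2 5 1 2 347 (.leaf 25) (.leaf 57))) (.bis 2 5 1 2 347 (.leaf 7) (.bis 2 4 1 2
  351 (.leaf 7) (.leaf 57)))) (.bis 0 6 2 1 336 (.bis 2 6 1 1 346 (.bis 3 6 1 1 341 (.leaf 25)
  (.leaf 25)) (.bis 2 5 1 2 347 (.leaf 25) (.leaf 57))) (.bis 2 5 1 2 347 (.leaf 35) (.bis 0 2 2
  1 362 (.leaf 57) (.leaf 35)))))) (.bis 0 3 1 1 325 (.bis 1 5 1 1 246 (.bis 3 5 1 1 317 (.bis 2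
  5 1 2 347 (.bis 4 6 4 1 343 (.leaf 7) (.leaf 7)) (.bis 2 4 1 2 351 (.leaf 7) (.leaf 43))) (.bis
  3 4 1 1 318 (.bis 2 4 1 2 351 (.leaf 29) (.leaf 43)) (.bis 1 3 1 2 319 (.bis 3 6 4 1 340 (.leaf
  43) (.leaf 43)) (.leaf 43)))) (.bis 1 4 1 1 286 (.bis 3 4 1 1 318 (.bis 2 4 1 2 351 (.leaf 29)
  (.leaf 43)) (.bis 3 5 2 1 319 (.leaf 43) (.bis 3 6 4 1 340 (.leaf 43) (.leaf 43)))) (.bis 1 3 1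
  1 324 (.bis 3 5 2 1 319 (.leaf 43) (.bis 3 6 4 1 340 (.leaf 43) (.bis 3 4 2 1 323 (.leaf 43)
  (.leaf 43)))) (.leaf 81)))) (.bis 1 5 1 1 246 (.bis 0 4 1 1 281 (.bis 2 5 1 2 347 (.leaf 7)
  (.bis 2 4 1 2 351 (.leaf 7) (.leaf 57))) (.bis 2 5 1 2 347 (.leaf 35) (.bis 0 2 2 1 362 (.leaf
  57) (.leaf 35)))) (.bis 0 1 1 1 289 (.bis 1 4 1 1 286 (.bis 0 4 1 2 290 (.bis 2 4 1 2 351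
  (.leaf 7) (.leaf 43)) (.leaf 57)) (.bis 1 3 2 1 326 (.leaf 57) (.bis 1 2 2 1 421 (.leaf 81)
  (.leaf 81)))) (.bis 0 4 1 1 281 (.bis 1 4 1 2 290 (.bis 2 4 1 2 351 (.leaf 7) (.leaf 57))
  (.leaf 57)) (.leaf 146))))))))

def lc11 : List Vr := [⟨[56,0,85,0,0,0,0], 129307, 0⟩, ⟨[0,73,0,73,0,0,0], 127896, 0⟩, ⟨[0,0,85,0,
  0,0,0], 21675, 0⟩, ⟨[0,0,85,73,0,0,0], 117451, 0⟩, ⟨[0,0,85,0,56,0,0], 129307, 0⟩, ⟨[0,0,85,0,0,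
  42,0], 128523, 0⟩, ⟨[0,0,85,0,0,0,119], 143055, 0⟩]

theorem lk11 : chkTr lowT (leafLow 6 lowB) lt11 lc11 = true := by decide +kernel

def lt12 : Tr ℕ := (.bis 3 6 2 1 97 (.bis 4 6 2 1 23 (.bis 1 6 1 1 141 (.bis 0 6 1 1 94 (.bis 2 6
  1 1 272 (.bis 5 6 1 1 234 (.leaf 56) (.bis 4 5 1 2 235 (.bis 3 5 1 2 252 (.leaf 8) (.leaf 56))
  (.leaf 56))) (.bis 2 4 2 1 277 (.bis 4 5 1 2 235 (.bis 3 5 1 2 252 (.leaf 3) (.leaf 56)) (.leaf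
  56)) (.bis 2 3 2 1 278 (.bis 3 5 1 2 252 (.leaf 3) (.leaf 56)) (.bis 1 2 1 2 279 (.bis 0 2 1 2
  422 (.leaf 13) (.leaf 3)) (.leaf 3))))) (.bis 2 4 2 1 277 (.bis 0 4 2 1 77 (.bis 4 5 1 2 235
  (.bis 3 5 1 2 252 (.bis 0 5 1 4 240 (.leaf 3) (.leaf 3)) (.leaf 4)) (.leaf 16)) (.bis 0 5 1 1
  241 (.bis 3 5 1 2 252 (.leaf 3) (.leaf 4)) (.bis 0 1 2 1 142 (.leaf 4) (.bis 0 3 2 1 114 (.leaf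
  4) (.leaf 4))))) (.bis 2 3 2 1 278 (.bis 0 5 1 1 241 (.bis 3 5 1 2 252 (.leaf 3) (.leaf 4))
  (.bis 0 1 2 1 142 (.leaf 4) (.bis 0 3 2 1 114 (.leaf 4) (.leaf 4)))) (.bis 0 5 1 1 241 (.bis 1
  2 1 2 279 (.bis 2 6 2 1 422 (.leaf 3) (.leaf 13)) (.leaf 3)) (.bis 0 2 1 1 423 (.bis 1 2 1 2
  279 (.leaf 75) (.leaf 3)) (.bis 0 1 2 1 142 (.leaf 3) (.leaf 37))))))) (.bis 1 4 2 1 153 (.bis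
  2 4 2 1 277 (.bis 0 4 2 1 77 (.bis 4 5 1 2 235 (.bis 3 5 1 2 252 (.leaf 3) (.leaf 4)) (.leaf
  16)) (.bis 0 5 1 1 241 (.bis 3 5 1 2 252 (.leaf 3) (.leaf 4)) (.bis 0 6 2 1 142 (.leaf 4)
  (.leaf 4)))) (.bis 2 3 2 1 278 (.bis 0 5 1 1 241 (.bis 3 5 1 2 252 (.leaf 3) (.leaf 4)) (.bis 0
  6 2 1 142 (.leaf 4) (.bis 0 3 2 1 114 (.leaf 4) (.leaf 4)))) (.bis 0 5 1 1 241 (.bis 1 2 1 4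
  283 (.bis 2 6 2 1 279 (.leaf 3) (.leaf 13)) (.leaf 3)) (.bis 0 2 1 1 423 (.bis 1 2 1 4 283
  (.leaf 13) (.leaf 3)) (.bis 0 6 2 1 142 (.leaf 3) (.leaf 37)))))) (.bis 2 3 2 1 278 (.bis 1 5 1
  1 246 (.bis 0 5 1 1 241 (.bis 3 5 1 2 252 (.leaf 3) (.leaf 4)) (.bis 0 6 2 1 142 (.leaf 4)
  (.leaf 4))) (.bis 1 3 2 1 162 (.bis 0 6 2 1 142 (.leaf 4) (.bis 0 3 2 1 114 (.leaf 4) (.leaf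
  4))) (.bis 0 6 2 1 142 (.bis 1 2 4 1 287 (.leaf 4) (.leaf 30)) (.bis 1 2 4 1 287 (.leaf 4)
  (.bis 0 1 1 1 147 (.leaf 21) (.leaf 4)))))) (.bis 1 5 1 1 246 (.bis 0 5 1 1 241 (.bis 2 4 4 1
  283 (.leaf 3) (.bis 2 6 2 1 279 (.leaf 3) (.leaf 13))) (.bis 0 2 1 1 423 (.bis 2 4 4 1 283
  (.leaf 3) (.bis 2 6 2 1 279 (.leaf 3) (.leaf 13))) (.leaf 37))) (.bis 1 2 1 1 289 (.bis 0 2 1 1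
  423 (.bis 2 4 4 1 283 (.leaf 3) (.leaf 13)) (.bis 0 6 2 1 142 (.leaf 3) (.leaf 21))) (.bis 0 6
  2 1 142 (.bis 1 3 4 1 287 (.leaf 3) (.leaf 30)) (.bis 1 3 4 1 287 (.leaf 21) (.bis 0 1 1 1 147
  (.leaf 21) (.leaf 21))))))))) (.bis 2 4 1 2 291 (.bis 1 4 1 2 151 (.bis 4 5 2 1 247 (.bis 0 6 2
  1 77 (.bis 1 5 1 2 251 (.bis 2 3 1 1 292 (.bis 3 4 1 1 253 (.bis 5 6 2 1 235 (.leaf 8) (.bis 0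
  5 1 4 240 (.leaf 8) (.leaf 8))) (.bis 5 6 2 1 235 (.leaf 16) (.bis 3 5 1 2 252 (.leaf 3) (.leaf
  4)))) (.bis 5 6 2 1 235 (.leaf 8) (.bis 0 5 1 4 240 (.leaf 8) (.leaf 8)))) (.bis 2 3 1 1 292
  (.bis 3 4 1 1 253 (.leaf 10) (.leaf 16)) (.leaf 10))) (.bis 0 5 1 1 241 (.bis 1 5 1 2 251 (.bis
  2 3 1 1 292 (.bis 3 4 1 1 253 (.bis 5 6 4 1 240 (.leaf 8) (.leaf 8)) (.bis 3 5 1 2 252 (.leaf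
  3) (.leaf 4))) (.bis 5 6 4 1 240 (.leaf 8) (.leaf 8))) (.bis 2 3 1 1 292 (.bis 3 4 1 1 253
  (.leaf 14) (.leaf 4)) (.leaf 14))) (.bis 0 4 2 1 250 (.bis 2 3 1 1 292 (.bis 3 4 1 1 253 (.leaf
  14) (.leaf 4)) (.leaf 14)) (.bis 2 3 1 1 292 (.bis 1 3 1 1 160 (.leaf 4) (.leaf 4)) (.leaf
  4))))) (.bis 3 4 1 4 103 (.bis 0 4 1 2 87 (.bis 4 6 4 1 28 (.leaf 10) (.bis 2 4 1 4 294 (.bis 1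
  4 1 4 152 (.bis 4 5 4 1 249 (.leaf 10) (.bis 3 4 1 8 105 (.leaf 32) (.leaf 10))) (.leaf 10))
  (.leaf 10))) (.bis 0 6 2 1 77 (.leaf 10) (.bis 0 5 2 1 250 (.leaf 10) (.bis 0 3 4 1 106 (.leaf
  4) (.leaf 4))))) (.bis 0 6 2 1 77 (.bis 2 3 1 1 292 (.leaf 16) (.leaf 10)) (.bis 0 5 2 1 250
  (.bis 2 3 1 1 292 (.bis 3 5 1 1 253 (.leaf 10) (.leaf 4)) (.leaf 10)) (.bis 2 3 1 1 292 (.bis 1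
  3 1 1 160 (.bis 0 4 4 1 106 (.leaf 4) (.leaf 4)) (.bis 0 4 4 1 106 (.leaf 4) (.leaf 4))) (.bis
  0 4 4 1 106 (.leaf 4) (.leaf 4))))))) (.bis 1 6 2 1 153 (.bis 0 6 2 1 77 (.bis 4 5 1 2 251
  (.bis 2 3 1 1 292 (.bis 5 6 2 1 235 (.leaf 16) (.bis 3 5 1 2 252 (.leaf 3) (.leaf 4))) (.bis 5
  6 2 1 235 (.leaf 8) (.bis 0 5 1 4 240 (.leaf 3) (.leaf 3)))) (.bis 2 3 1 1 292 (.leaf 16)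
  (.leaf 10))) (.bis 0 5 1 1 241 (.bis 4 5 1 2 251 (.bis 2 3 1 1 292 (.bis 3 5 1 2 252 (.bis 5 6
  4 1 240 (.leaf 3) (.leaf 3)) (.leaf 4)) (.bis 5 6 4 1 240 (.leaf 3) (.leaf 3))) (.bis 2 3 1 1
  292 (.leaf 4) (.leaf 4))) (.bis 2 3 1 1 292 (.leaf 4) (.leaf 4)))) (.bis 1 5 1 1 246 (.bis 0 5
  1 1 241 (.bis 4 5 1 2 251 (.bis 2 3 1 1 292 (.bis 3 5 1 2 252 (.leaf 3) (.leaf 4)) (.leaf 3))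
  (.bis 2 3 1 1 292 (.bis 3 4 1 1 160 (.leaf 4) (.leaf 4)) (.leaf 4))) (.bis 2 3 1 1 292 (.leaf
  4) (.bis 0 2 2 1 424 (.leaf 4) (.leaf 4)))) (.bis 1 2 2 1 295 (.bis 2 3 1 1 292 (.bis 3 4 1 1
  160 (.bis 0 4 2 1 154 (.leaf 4) (.leaf 4)) (.bis 0 3 2 1 114 (.leaf 4) (.leaf 4))) (.bis 0 2 2
  1 424 (.leaf 4) (.leaf 4))) (.bis 1 3 2 1 162 (.bis 3 4 1 1 160 (.bis 0 4 2 1 154 (.leaf 4)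
  (.leaf 4)) (.bis 0 3 2 1 114 (.leaf 4) (.leaf 4))) (.bis 0 1 1 1 147 (.leaf 49) (.leaf 4)))))))
  (.bis 1 6 2 1 153 (.bis 2 6 2 1 277 (.bis 0 6 2 1 77 (.bis 3 4 1 1 292 (.bis 5 6 2 1 235 (.leaf
  2) (.bis 0 5 1 4 240 (.leaf 3) (.leaf 2))) (.bis 5 6 2 1 235 (.leaf 16) (.bis 3 5 1 2 252
  (.leaf 3) (.leaf 4)))) (.bis 0 5 1 1 241 (.bis 3 4 1 1 292 (.bis 5 6 4 1 240 (.leaf 3) (.leaf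
  3)) (.bis 3 5 1 2 252 (.leaf 3) (.leaf 4))) (.bis 3 4 1 1 292 (.bis 0 2 4 1 425 (.leaf 3)
  (.leaf 4)) (.bis 0 3 2 1 114 (.leaf 4) (.leaf 4))))) (.bis 2 3 2 1 278 (.bis 0 5 1 1 241 (.bis
  3 4 1 1 292 (.leaf 3) (.bis 3 5 1 2 252 (.leaf 3) (.leaf 4))) (.bis 3 4 1 1 292 (.bis 0 6 4 1
  425 (.leaf 3) (.leaf 4)) (.bis 0 3 2 1 114 (.leaf 4) (.leaf 4)))) (.bis 0 5 1 1 241 (.bis 1 2 1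
  4 283 (.leaf 35) (.leaf 3)) (.bis 0 2 1 1 423 (.bis 1 2 1 4 283 (.leaf 35) (.leaf 3)) (.leaf
  37))))) (.bis 2 3 2 1 278 (.bis 1 5 1 1 246 (.bis 0 5 1 1 241 (.bis 3 4 1 1 292 (.leaf 3) (.bis
  3 5 1 2 252 (.leaf 3) (.leaf 4))) (.bis 3 4 1 1 292 (.bis 0 4 2 1 424 (.leaf 3) (.leaf 4))
  (.bis 0 3 2 1 114 (.leaf 4) (.leaf 4)))) (.bis 1 4 2 1 295 (.bis 3 4 1 1 292 (.bis 0 4 2 1 424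
  (.leaf 3) (.leaf 4)) (.bis 0 3 2 1 114 (.leaf 4) (.leaf 4))) (.bis 1 3 2 1 162 (.bis 0 3 2 1
  114 (.leaf 4) (.leaf 4)) (.bis 1 2 4 1 287 (.bis 0 5 2 1 426 (.leaf 4) (.leaf 4)) (.bis 0 1 1 1
  147 (.leaf 21) (.leaf 4)))))) (.bis 1 5 1 1 246 (.bis 0 5 1 1 241 (.bis 2 6 4 1 283 (.leaf 3)
  (.bis 2 4 2 1 301 (.leaf 3) (.leaf 13))) (.bis 0 2 1 1 423 (.bis 2 6 4 1 283 (.leaf 3) (.leaf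
  35)) (.leaf 37))) (.bis 1 2 1 1 289 (.bis 0 2 1 1 423 (.bis 2 6 4 1 283 (.leaf 3) (.bis 2 4 2 1
  301 (.leaf 3) (.leaf 13))) (.leaf 92)) (.bis 1 4 2 1 295 (.bis 0 4 2 1 424 (.leaf 3) (.leaf
  21)) (.bis 1 3 4 1 287 (.bis 0 5 2 1 426 (.leaf 3) (.leaf 21)) (.bis 0 1 1 1 147 (.leaf 21)
  (.leaf 21)))))))))) (.bis 3 4 1 1 98 (.bis 2 4 1 2 291 (.bis 1 4 1 2 151 (.bis 4 5 2 1 247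
  (.bis 3 5 1 1 254 (.bis 0 5 1 1 241 (.bis 1 5 1 2 251 (.bis 2 6 1 1 292 (.bis 4 6 1 1 253 (.bis
  5 6 2 1 252 (.leaf 4) (.leaf 3)) (.leaf 58)) (.leaf 58)) (.bis 2 6 1 1 292 (.bis 4 6 1 1 253
  (.leaf 4) (.leaf 16)) (.leaf 16))) (.bis 0 4 2 1 250 (.bis 2 6 1 1 292 (.bis 4 6 1 1 253 (.leaf
  4) (.leaf 16)) (.leaf 16)) (.bis 2 6 1 1 292 (.bis 1 6 1 1 160 (.leaf 4) (.leaf 4)) (.leaf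
  4)))) (.bis 0 4 2 1 250 (.bis 2 6 1 1 292 (.bis 3 6 2 1 101 (.leaf 16) (.leaf 39)) (.bis 2 3 1
  2 298 (.bis 3 4 2 1 427 (.leaf 10) (.leaf 39)) (.leaf 10))) (.bis 2 6 1 1 292 (.bis 3 6 2 1 101
  (.bis 1 6 1 1 160 (.bis 0 6 2 1 114 (.leaf 4) (.leaf 4)) (.bis 0 1 2 1 154 (.leaf 4) (.leaf
  4))) (.bis 0 3 1 1 102 (.leaf 39) (.leaf 4))) (.bis 0 3 1 1 102 (.bis 2 3 1 2 298 (.leaf 39)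
  (.leaf 4)) (.leaf 4))))) (.bis 4 6 4 1 103 (.bis 0 5 2 1 250 (.bis 2 6 1 1 292 (.bis 3 6 2 1
  101 (.leaf 16) (.leaf 39)) (.bis 2 3 1 2 298 (.leaf 39) (.leaf 10))) (.bis 2 6 1 1 292 (.bis 3
  6 2 1 101 (.bis 1 6 1 1 160 (.bis 0 4 4 1 106 (.leaf 4) (.leaf 4)) (.bis 0 4 4 1 106 (.leaf 4)
  (.leaf 4))) (.bis 0 3 1 1 102 (.leaf 39) (.leaf 4))) (.bis 0 3 1 1 102 (.leaf 39) (.leaf 4))))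
  (.bis 0 4 1 2 87 (.bis 2 4 1 4 294 (.bis 3 4 1 2 104 (.bis 1 4 1 4 152 (.bis 4 5 4 1 249 (.leaf
  32) (.leaf 32)) (.leaf 32)) (.leaf 39)) (.bis 2 3 1 2 298 (.leaf 39) (.leaf 10))) (.bis 0 5 2 1
  250 (.bis 2 3 1 2 298 (.leaf 39) (.leaf 10)) (.bis 0 3 1 1 102 (.leaf 39) (.leaf 4)))))) (.bis
  3 5 1 1 254 (.bis 1 5 1 1 246 (.bis 0 5 1 1 241 (.bis 4 5 1 2 251 (.bis 2 6 1 1 292 (.bis 5 6 2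
  1 252 (.leaf 4) (.leaf 3)) (.leaf 3)) (.bis 2 6 1 1 292 (.bis 4 6 1 1 160 (.leaf 4) (.leaf 4))
  (.leaf 4))) (.bis 2 6 1 1 292 (.leaf 4) (.bis 0 2 2 1 424 (.leaf 4) (.leaf 4)))) (.bis 1 2 2 1
  295 (.bis 2 6 1 1 292 (.bis 4 6 1 1 160 (.bis 0 6 2 1 114 (.leaf 4) (.leaf 4)) (.bis 0 4 2 1
  154 (.leaf 4) (.leaf 4))) (.bis 0 2 2 1 424 (.leaf 4) (.leaf 4))) (.bis 1 6 2 1 162 (.bis 4 6 1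
  1 160 (.bis 0 6 2 1 114 (.leaf 4) (.leaf 4)) (.bis 0 4 2 1 154 (.leaf 4) (.leaf 4))) (.bis 1 3
  2 1 258 (.bis 0 4 2 1 154 (.leaf 4) (.leaf 4)) (.bis 0 1 1 1 147 (.leaf 49) (.leaf 4))))))
  (.bis 1 3 1 1 161 (.bis 2 6 1 1 292 (.bis 3 6 2 1 101 (.bis 4 6 1 1 160 (.bis 0 6 2 1 114
  (.leaf 4) (.leaf 4)) (.bis 0 4 2 1 154 (.leaf 4) (.leaf 4))) (.bis 0 3 1 1 102 (.leaf 39)
  (.leaf 4))) (.bis 0 3 1 1 102 (.leaf 39) (.leaf 4))) (.bis 1 2 2 1 295 (.bis 2 6 1 1 292 (.bis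
  4 6 1 1 160 (.bis 0 6 2 1 114 (.leaf 4) (.leaf 4)) (.leaf 4)) (.bis 0 2 2 1 424 (.leaf 4)
  (.leaf 4))) (.bis 1 6 2 1 162 (.bis 4 6 1 1 160 (.bis 0 6 2 1 114 (.leaf 4) (.leaf 4)) (.leaf
  4)) (.leaf 49)))))) (.bis 2 3 1 1 299 (.bis 3 5 1 1 254 (.bis 1 5 1 1 246 (.bis 0 5 1 1 241
  (.bis 4 6 1 1 292 (.bis 5 6 2 1 252 (.leaf 4) (.leaf 3)) (.leaf 3)) (.bis 4 6 1 1 292 (.leaf 4)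
  (.leaf 4))) (.bis 1 4 2 1 295 (.bis 4 6 1 1 292 (.bis 0 6 2 1 114 (.leaf 4) (.leaf 4)) (.bis 0
  4 2 1 424 (.leaf 3) (.leaf 4))) (.bis 1 6 2 1 162 (.leaf 4) (.bis 1 3 2 1 258 (.leaf 4) (.leaf
  21))))) (.bis 1 3 1 1 161 (.bis 4 6 1 1 292 (.bis 3 6 2 1 101 (.bis 0 6 2 1 114 (.leaf 4)
  (.leaf 4)) (.bis 0 3 1 1 102 (.leaf 39) (.leaf 4))) (.bis 0 3 1 1 102 (.leaf 39) (.leaf 4)))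
  (.bis 1 4 2 1 295 (.bis 4 6 1 1 292 (.leaf 4) (.leaf 4)) (.bis 1 6 2 1 162 (.leaf 4) (.bis 1 5
  2 1 258 (.leaf 4) (.leaf 49)))))) (.bis 2 6 2 1 278 (.bis 1 5 1 1 246 (.bis 0 5 1 1 241 (.bis 4
  6 1 1 292 (.bis 5 6 2 1 252 (.leaf 4) (.leaf 3)) (.leaf 3)) (.bis 4 6 1 1 292 (.leaf 4) (.leaf
  4))) (.bis 1 4 2 1 295 (.bis 4 6 1 1 292 (.leaf 4) (.leaf 4)) (.bis 1 6 2 1 162 (.leaf 4)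
  (.leaf 21)))) (.bis 1 5 1 1 246 (.bis 0 5 1 1 241 (.bis 2 4 2 1 301 (.leaf 3) (.leaf 35)) (.bis
  0 2 1 1 423 (.bis 2 4 2 1 301 (.leaf 3) (.leaf 35)) (.leaf 37))) (.bis 1 2 1 1 289 (.bis 0 2 1
  1 423 (.leaf 35) (.leaf 92)) (.bis 1 4 2 1 295 (.leaf 92) (.bis 1 6 4 1 287 (.leaf 21) (.leaf
  21)))))))) (.bis 2 3 1 2 302 (.bis 3 5 2 1 257 (.bis 4 5 1 1 254 (.bis 1 5 1 1 246 (.bis 0 5 1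
  1 241 (.bis 5 6 2 1 252 (.leaf 18) (.bis 2 5 1 2 303 (.leaf 86) (.leaf 18))) (.leaf 31)) (.bis
  1 6 2 1 162 (.bis 0 6 2 1 114 (.leaf 18) (.leaf 31)) (.bis 1 4 2 1 258 (.leaf 31) (.leaf 49))))
  (.bis 1 4 1 1 161 (.bis 4 6 2 1 101 (.bis 0 6 2 1 114 (.leaf 31) (.leaf 31)) (.bis 0 4 1 1 102
  (.leaf 48) (.leaf 31))) (.bis 1 6 2 1 162 (.leaf 31) (.bis 1 5 2 1 258 (.leaf 31) (.leaf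
  49))))) (.bis 1 3 1 2 163 (.bis 0 3 1 2 109 (.bis 3 6 4 1 111 (.bis 4 6 2 1 101 (.leaf 31)
  (.bis 2 4 1 2 308 (.leaf 48) (.leaf 31))) (.bis 2 3 1 4 307 (.bis 3 4 2 1 113 (.bis 1 4 1 2 428
  (.leaf 48) (.leaf 48)) (.leaf 93)) (.bis 2 4 1 2 308 (.bis 1 4 1 2 428 (.leaf 48) (.leaf 48))
  (.leaf 48)))) (.bis 4 6 2 1 101 (.bis 0 6 2 1 114 (.leaf 31) (.leaf 31)) (.bis 0 4 1 1 102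
  (.leaf 48) (.leaf 31)))) (.bis 1 4 1 1 161 (.bis 4 6 2 1 101 (.bis 0 6 2 1 114 (.leaf 31)
  (.leaf 31)) (.bis 0 4 1 1 102 (.leaf 48) (.leaf 31))) (.bis 1 6 2 1 162 (.bis 0 6 2 1 114
  (.leaf 31) (.leaf 31)) (.bis 0 1 1 1 147 (.leaf 85) (.leaf 31)))))) (.bis 2 4 1 1 299 (.bis 4 5
  1 1 254 (.bis 1 5 1 1 246 (.bis 0 5 1 1 241 (.bis 5 6 2 1 252 (.leaf 18) (.leaf 29)) (.bis 0 6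
  2 1 114 (.leaf 18) (.leaf 31))) (.bis 1 6 2 1 162 (.leaf 31) (.bis 1 4 2 1 258 (.leaf 31)
  (.leaf 21)))) (.bis 1 4 1 1 161 (.bis 4 6 2 1 101 (.leaf 31) (.leaf 104)) (.bis 1 6 2 1 162
  (.leaf 31) (.bis 1 5 2 1 258 (.leaf 31) (.leaf 49))))) (.bis 2 6 2 1 278 (.bis 1 5 1 1 246
  (.bis 0 5 1 1 241 (.bis 5 6 2 1 252 (.leaf 18) (.leaf 29)) (.bis 0 6 2 1 114 (.leaf 18) (.leaf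
  21))) (.bis 1 6 2 1 162 (.leaf 124) (.bis 1 2 4 1 287 (.leaf 21) (.leaf 21)))) (.bis 1 5 1 1
  246 (.bis 0 5 1 1 241 (.bis 2 3 2 1 310 (.leaf 29) (.leaf 35)) (.bis 0 2 1 1 423 (.bis 2 3 2 1
  310 (.leaf 21) (.leaf 35)) (.leaf 21))) (.bis 1 2 1 1 289 (.bis 0 2 1 1 423 (.bis 2 3 2 1 310
  (.leaf 21) (.leaf 35)) (.leaf 21)) (.bis 1 6 4 1 287 (.leaf 21) (.leaf 21)))))))))

def lc12 : List Vr := [⟨[56,0,0,73,0,0,0], 125028, 0⟩, ⟨[0,73,0,73,0,0,0], 127896, 0⟩, ⟨[56,0,85,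
  0,0,0,0], 129307, 0⟩, ⟨[0,0,0,73,0,0,0], 21316, 0⟩, ⟨[0,0,0,0,56,0,0], 21952, 0⟩, ⟨[0,0,85,0,0,
  42,0], 128523, 0⟩, ⟨[0,0,85,0,0,0,119], 143055, 0⟩]

theorem lk12 : chkTr lowT (leafLow 6 lowB) lt12 lc12 = true := by decide +kernel

def lt13 : Tr ℕ := (.bis 0 4 1 1 41 (.bis 4 6 2 1 23 (.bis 1 6 1 1 141 (.bis 0 6 1 1 47 (.bis 3 6
  1 1 94 (.bis 2 6 1 1 272 (.bis 5 6 1 1 234 (.leaf 19) (.bis 4 5 1 2 235 (.bis 0 5 1 2 259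
  (.leaf 8) (.leaf 8)) (.leaf 8))) (.bis 2 4 2 1 277 (.bis 4 5 1 2 235 (.bis 0 5 1 2 259 (.leaf
  3) (.leaf 3)) (.leaf 8)) (.bis 0 2 1 2 429 (.bis 1 2 1 2 279 (.bis 2 3 2 1 422 (.leaf 3) (.leaf
  13)) (.leaf 3)) (.bis 0 5 1 2 259 (.leaf 3) (.leaf 3))))) (.bis 2 4 2 1 277 (.bis 3 4 2 1 77
  (.bis 4 5 1 2 235 (.bis 3 5 1 4 240 (.bis 0 5 1 2 259 (.leaf 3) (.leaf 3)) (.leaf 3)) (.leaf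
  8)) (.bis 3 5 1 1 241 (.bis 4 5 1 4 240 (.leaf 3) (.leaf 3)) (.bis 0 3 1 2 128 (.bis 1 3 1 2
  142 (.leaf 4) (.leaf 3)) (.leaf 3)))) (.bis 3 5 1 1 241 (.bis 0 2 1 2 429 (.bis 1 2 1 2 279
  (.leaf 75) (.leaf 3)) (.bis 0 5 1 2 259 (.leaf 3) (.leaf 3))) (.bis 2 3 1 1 423 (.bis 0 3 1 2
  128 (.leaf 37) (.leaf 3)) (.bis 0 2 1 2 429 (.bis 1 2 1 2 279 (.leaf 75) (.leaf 3)) (.leaf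
  3)))))) (.bis 2 4 2 1 277 (.bis 0 5 1 1 261 (.bis 3 4 2 1 77 (.bis 4 5 1 2 235 (.bis 3 5 1 4
  240 (.leaf 3) (.leaf 3)) (.leaf 8)) (.bis 3 5 1 1 241 (.leaf 3) (.bis 3 6 2 1 128 (.leaf 3)
  (.bis 1 3 1 2 142 (.leaf 4) (.leaf 3))))) (.bis 0 1 2 1 165 (.bis 3 4 2 1 77 (.leaf 8) (.bis 3
  6 2 1 128 (.leaf 3) (.bis 1 3 1 2 142 (.leaf 4) (.leaf 3)))) (.bis 3 4 2 1 77 (.bis 0 4 2 1 49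
  (.leaf 2) (.leaf 2)) (.bis 3 6 2 1 128 (.bis 0 2 4 1 430 (.leaf 2) (.leaf 2)) (.bis 0 3 1 1 125
  (.leaf 4) (.leaf 2)))))) (.bis 0 5 1 1 261 (.bis 3 5 1 1 241 (.bis 2 6 2 1 429 (.leaf 3) (.bis
  1 2 1 2 279 (.leaf 35) (.leaf 3))) (.bis 2 3 1 1 423 (.bis 3 6 2 1 128 (.leaf 3) (.leaf 37))
  (.bis 2 6 2 1 429 (.leaf 3) (.leaf 75)))) (.bis 0 2 1 1 431 (.bis 2 3 1 1 423 (.bis 3 6 2 1 128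
  (.leaf 3) (.bis 1 3 1 2 142 (.leaf 15) (.leaf 3))) (.bis 2 6 2 1 429 (.leaf 3) (.bis 1 2 1 2
  279 (.leaf 22) (.leaf 3)))) (.bis 0 1 2 1 165 (.bis 3 6 2 1 128 (.leaf 3) (.bis 1 3 1 2 142
  (.leaf 15) (.leaf 3))) (.bis 3 6 2 1 128 (.leaf 15) (.bis 0 3 1 1 125 (.leaf 15) (.leaf
  15)))))))) (.bis 0 1 1 1 167 (.bis 1 4 2 1 153 (.bis 2 4 2 1 277 (.bis 3 4 2 1 77 (.bis 0 5 1 2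
  263 (.bis 4 5 1 2 235 (.leaf 3) (.leaf 8)) (.leaf 16)) (.bis 3 5 1 1 241 (.bis 0 5 1 2 263
  (.leaf 3) (.leaf 3)) (.leaf 4))) (.bis 3 5 1 1 241 (.bis 1 2 1 4 283 (.bis 0 5 1 2 263 (.bis 2
  6 2 1 279 (.leaf 3) (.leaf 13)) (.bis 0 2 1 2 432 (.bis 2 6 2 1 279 (.leaf 3) (.leaf 13))
  (.leaf 3))) (.bis 0 5 1 2 263 (.leaf 3) (.leaf 3))) (.bis 2 3 1 1 423 (.leaf 37) (.bis 1 2 1 4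
  283 (.bis 0 2 1 2 432 (.leaf 13) (.leaf 3)) (.leaf 3))))) (.bis 1 5 1 1 246 (.bis 3 5 1 1 241
  (.bis 2 4 4 1 283 (.bis 0 5 1 2 263 (.leaf 3) (.leaf 3)) (.bis 0 5 1 2 263 (.bis 2 6 2 1 279
  (.leaf 3) (.leaf 13)) (.bis 0 2 1 2 432 (.bis 2 6 2 1 279 (.leaf 3) (.leaf 13)) (.leaf 3))))
  (.bis 2 3 1 1 423 (.leaf 37) (.bis 2 4 4 1 283 (.leaf 3) (.bis 0 2 1 2 432 (.bis 2 6 2 1 279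
  (.leaf 3) (.leaf 13)) (.leaf 3))))) (.bis 1 2 1 1 289 (.bis 2 3 1 1 423 (.leaf 92) (.bis 2 4 4
  1 283 (.leaf 3) (.bis 0 2 1 2 432 (.bis 2 6 2 1 279 (.leaf 3) (.leaf 13)) (.leaf 3)))) (.bis 3
  6 2 1 142 (.leaf 30) (.leaf 21))))) (.bis 2 4 2 1 277 (.bis 0 5 1 1 261 (.bis 3 4 2 1 77 (.bis
  1 5 1 2 263 (.bis 4 5 1 2 235 (.leaf 3) (.leaf 8)) (.leaf 16)) (.bis 3 5 1 1 241 (.bis 1 5 1 2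
  263 (.leaf 3) (.leaf 3)) (.leaf 4))) (.bis 0 6 2 1 165 (.bis 3 4 2 1 77 (.leaf 16) (.bis 3 6 2
  1 142 (.leaf 3) (.leaf 4))) (.bis 3 4 2 1 77 (.leaf 62) (.leaf 15)))) (.bis 0 5 1 1 261 (.bis 3
  5 1 1 241 (.bis 1 5 1 2 263 (.bis 2 6 2 1 279 (.leaf 3) (.leaf 35)) (.bis 1 2 1 2 432 (.bis 2 6
  2 1 279 (.leaf 3) (.leaf 22)) (.leaf 3))) (.bis 2 3 1 1 423 (.bis 3 6 2 1 142 (.leaf 3) (.leaf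
  15)) (.bis 1 2 1 2 432 (.bis 2 6 2 1 279 (.leaf 3) (.leaf 22)) (.leaf 3)))) (.bis 0 2 1 1 431
  (.bis 2 3 1 1 423 (.bis 3 6 2 1 142 (.leaf 3) (.leaf 15)) (.bis 1 2 1 2 432 (.bis 2 6 2 1 279
  (.leaf 3) (.leaf 22)) (.bis 0 6 1 1 433 (.leaf 3) (.leaf 3)))) (.bis 0 6 2 1 165 (.bis 3 6 2 1
  142 (.leaf 3) (.leaf 15)) (.bis 0 3 1 1 125 (.leaf 15) (.leaf 15)))))))) (.bis 2 4 1 2 291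
  (.bis 1 4 1 2 151 (.bis 4 5 2 1 247 (.bis 0 5 1 1 261 (.bis 3 6 2 1 77 (.bis 1 5 1 2 251 (.bis
  5 6 2 1 235 (.leaf 8) (.leaf 8)) (.leaf 10)) (.bis 3 5 1 1 241 (.bis 1 5 1 2 251 (.leaf 8)
  (.leaf 14)) (.bis 3 4 2 1 250 (.leaf 14) (.leaf 4)))) (.bis 3 6 2 1 77 (.leaf 10) (.bis 3 4 2 1
  250 (.leaf 10) (.leaf 82)))) (.bis 3 4 1 2 87 (.bis 4 6 4 1 28 (.leaf 10) (.bis 0 4 1 2 51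
  (.bis 2 4 1 4 294 (.bis 1 4 1 4 152 (.bis 4 5 4 1 249 (.leaf 10) (.leaf 32)) (.leaf 10)) (.leaf
  10)) (.leaf 10))) (.bis 3 6 2 1 77 (.leaf 10) (.bis 3 5 2 1 250 (.leaf 10) (.leaf 82))))) (.bis
  0 1 1 1 167 (.bis 1 6 2 1 153 (.bis 3 6 2 1 77 (.bis 4 5 1 2 251 (.bis 0 5 1 2 263 (.bis 5 6 2
  1 235 (.leaf 8) (.leaf 3)) (.leaf 16)) (.leaf 10)) (.bis 3 5 1 1 241 (.bis 4 5 1 2 251 (.bis 0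
  5 1 2 263 (.leaf 3) (.leaf 3)) (.leaf 4)) (.leaf 4))) (.bis 1 5 1 1 246 (.bis 3 5 1 1 241 (.bis
  4 5 1 2 251 (.bis 0 5 1 2 263 (.leaf 3) (.leaf 3)) (.leaf 4)) (.leaf 4)) (.bis 1 2 2 1 295
  (.bis 2 3 1 2 424 (.leaf 4) (.leaf 4)) (.bis 1 3 1 1 147 (.leaf 4) (.leaf 49))))) (.bis 0 5 1 1
  261 (.bis 3 6 2 1 77 (.bis 4 5 1 2 251 (.bis 1 5 1 2 263 (.bis 5 6 2 1 235 (.leaf 8) (.leaf 3))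
  (.leaf 16)) (.leaf 10)) (.bis 3 5 1 1 241 (.bis 4 5 1 2 251 (.bis 1 5 1 2 263 (.leaf 3) (.leaf
  3)) (.leaf 4)) (.leaf 4))) (.bis 3 6 2 1 77 (.leaf 10) (.leaf 82))))) (.bis 0 1 1 1 167 (.bis 1
  6 2 1 153 (.bis 2 6 2 1 277 (.bis 3 6 2 1 77 (.bis 0 5 1 2 263 (.bis 5 6 2 1 235 (.leaf 8)
  (.leaf 3)) (.leaf 16)) (.bis 3 5 1 1 241 (.bis 0 5 1 2 263 (.leaf 3) (.leaf 3)) (.leaf 4)))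
  (.bis 3 5 1 1 241 (.bis 1 2 1 4 283 (.bis 0 5 1 2 263 (.bis 2 4 2 1 301 (.leaf 3) (.leaf 13))
  (.bis 0 2 1 2 432 (.leaf 35) (.leaf 3))) (.bis 0 5 1 2 263 (.leaf 3) (.leaf 3))) (.bis 2 3 1 1
  423 (.leaf 15) (.bis 1 2 1 4 283 (.bis 0 2 1 2 432 (.leaf 35) (.leaf 3)) (.leaf 3))))) (.bis 1
  5 1 1 246 (.bis 3 5 1 1 241 (.bis 2 6 4 1 283 (.bis 0 5 1 2 263 (.leaf 3) (.leaf 3)) (.bis 0 5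
  1 2 263 (.bis 2 4 2 1 301 (.leaf 3) (.leaf 13)) (.bis 0 2 1 2 432 (.bis 2 4 2 1 301 (.leaf 3)
  (.leaf 13)) (.leaf 3)))) (.bis 2 3 1 1 423 (.leaf 37) (.bis 2 6 4 1 283 (.leaf 3) (.bis 0 2 1 2
  432 (.leaf 35) (.leaf 3))))) (.bis 1 2 1 1 289 (.bis 2 3 1 1 423 (.leaf 92) (.bis 2 6 4 1 283
  (.leaf 3) (.bis 0 2 1 2 432 (.leaf 35) (.leaf 3)))) (.bis 1 4 2 1 295 (.leaf 92) (.bis 1 3 1 1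
  147 (.leaf 21) (.leaf 21)))))) (.bis 2 6 2 1 277 (.bis 0 5 1 1 261 (.bis 3 6 2 1 77 (.bis 1 5 1
  2 263 (.bis 5 6 2 1 235 (.leaf 8) (.leaf 3)) (.leaf 16)) (.bis 3 5 1 1 241 (.bis 1 5 1 2 263
  (.leaf 3) (.leaf 3)) (.leaf 4))) (.bis 3 6 2 1 77 (.leaf 62) (.bis 0 3 1 1 125 (.leaf 4) (.leaf
  15)))) (.bis 0 5 1 1 261 (.bis 3 5 1 1 241 (.bis 1 5 1 2 263 (.bis 2 4 2 1 301 (.leaf 3) (.leaf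
  35)) (.bis 1 2 1 2 432 (.bis 2 4 2 1 301 (.leaf 3) (.leaf 22)) (.leaf 3))) (.bis 2 3 1 1 423
  (.leaf 15) (.bis 1 2 1 2 432 (.leaf 35) (.leaf 3)))) (.bis 0 2 1 1 431 (.bis 2 3 1 1 423 (.leaf
  15) (.bis 1 2 1 2 432 (.leaf 35) (.leaf 3))) (.bis 0 3 1 1 125 (.leaf 15) (.leaf 15))))))))
  (.bis 0 6 2 1 59 (.bis 1 6 1 1 141 (.bis 4 6 1 1 47 (.bis 3 6 1 1 94 (.bis 2 6 1 1 272 (.bis 5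
  6 1 1 234 (.leaf 19) (.bis 0 5 1 2 265 (.bis 4 5 1 2 259 (.leaf 8) (.leaf 8)) (.leaf 8))) (.bis
  2 4 2 1 429 (.bis 0 5 1 2 265 (.bis 4 5 1 2 259 (.leaf 3) (.leaf 3)) (.leaf 8)) (.bis 0 5 1 2
  265 (.bis 1 2 1 2 279 (.bis 2 3 2 1 422 (.leaf 3) (.leaf 13)) (.leaf 3)) (.bis 1 2 1 2 279
  (.bis 2 3 2 1 422 (.leaf 8) (.bis 0 2 1 2 434 (.leaf 13) (.leaf 8))) (.leaf 8))))) (.bis 3 5 1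
  1 241 (.bis 2 4 2 1 429 (.bis 0 5 1 2 265 (.bis 4 5 1 2 259 (.leaf 3) (.leaf 3)) (.leaf 8))
  (.bis 0 5 1 2 265 (.bis 1 2 1 2 279 (.leaf 75) (.leaf 3)) (.bis 1 2 1 2 279 (.bis 2 6 2 1 422
  (.leaf 8) (.leaf 22)) (.leaf 8)))) (.bis 2 3 1 1 423 (.bis 0 3 1 2 131 (.bis 3 4 2 1 128 (.leaf
  3) (.leaf 37)) (.leaf 37)) (.bis 2 4 2 1 429 (.leaf 37) (.bis 1 2 1 2 279 (.leaf 75) (.leaf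
  37)))))) (.bis 4 5 1 1 261 (.bis 3 5 1 1 241 (.bis 2 6 2 1 429 (.bis 0 5 1 2 265 (.leaf 3)
  (.leaf 8)) (.bis 0 5 1 2 265 (.bis 1 2 1 2 279 (.leaf 35) (.leaf 3)) (.bis 1 2 1 2 279 (.leaf
  22) (.leaf 8)))) (.bis 2 3 1 1 423 (.bis 0 3 1 2 131 (.leaf 37) (.leaf 37)) (.bis 2 6 2 1 429
  (.leaf 37) (.bis 1 2 1 2 279 (.leaf 22) (.leaf 37))))) (.bis 2 4 1 1 431 (.bis 1 4 1 2 165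
  (.bis 0 3 1 2 131 (.bis 3 6 2 1 128 (.leaf 12) (.leaf 15)) (.leaf 12)) (.bis 0 3 1 2 131 (.bis
  3 6 2 1 128 (.leaf 3) (.bis 1 3 1 2 142 (.leaf 15) (.leaf 3))) (.leaf 5))) (.bis 2 3 1 1 423
  (.bis 0 3 1 2 131 (.bis 3 6 2 1 128 (.leaf 3) (.bis 1 3 1 2 142 (.leaf 15) (.leaf 3))) (.leaf
  37)) (.bis 2 6 2 1 429 (.leaf 37) (.bis 1 2 1 2 279 (.leaf 22) (.leaf 37))))))) (.bis 1 4 1 1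
  167 (.bis 4 5 1 1 261 (.bis 3 5 1 1 241 (.bis 1 5 1 2 263 (.bis 0 5 1 2 265 (.bis 2 6 2 1 279
  (.leaf 3) (.leaf 35)) (.bis 2 6 2 1 279 (.leaf 8) (.bis 0 2 1 2 434 (.leaf 22) (.leaf 8))))
  (.bis 1 2 1 2 432 (.bis 2 6 2 1 279 (.leaf 37) (.bis 0 2 1 2 434 (.leaf 22) (.leaf 22))) (.bis
  0 1 1 1 199 (.leaf 3) (.leaf 37)))) (.bis 2 3 1 1 423 (.bis 0 3 1 2 131 (.bis 3 6 2 1 142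
  (.leaf 3) (.leaf 15)) (.leaf 37)) (.bis 1 2 1 2 432 (.bis 2 6 2 1 279 (.leaf 37) (.bis 0 2 1 2
  434 (.leaf 22) (.leaf 22))) (.bis 0 1 1 1 199 (.bis 4 6 1 1 435 (.leaf 3) (.leaf 3)) (.leaf
  37))))) (.bis 2 4 1 1 431 (.bis 4 6 2 1 165 (.bis 0 3 1 2 131 (.bis 3 6 2 1 142 (.leaf 3)
  (.leaf 15)) (.leaf 5)) (.bis 0 3 1 2 131 (.leaf 15) (.leaf 62))) (.bis 2 3 1 1 423 (.bis 0 3 1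
  2 131 (.bis 3 6 2 1 142 (.leaf 3) (.leaf 15)) (.leaf 37)) (.bis 1 2 1 2 432 (.bis 2 6 2 1 279
  (.leaf 37) (.bis 0 2 1 2 434 (.leaf 22) (.leaf 22))) (.bis 0 1 1 1 199 (.bis 4 6 1 1 433 (.leaf
  3) (.leaf 3)) (.bis 4 6 1 1 433 (.leaf 37) (.leaf 22))))))) (.bis 0 1 1 2 170 (.bis 1 5 1 1 246
  (.bis 3 5 1 1 241 (.bis 4 5 1 2 263 (.bis 2 6 2 1 279 (.leaf 3) (.leaf 13)) (.bis 2 4 2 1 432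
  (.leaf 3) (.bis 2 6 2 1 279 (.leaf 3) (.leaf 13)))) (.bis 2 3 1 1 423 (.leaf 37) (.bis 2 4 2 1
  432 (.leaf 3) (.bis 2 6 2 1 279 (.leaf 3) (.leaf 13))))) (.bis 1 2 1 1 289 (.bis 2 3 1 1 423
  (.leaf 92) (.bis 2 4 2 1 432 (.leaf 3) (.bis 2 6 2 1 279 (.leaf 3) (.leaf 13)))) (.bis 3 6 2 1
  142 (.leaf 30) (.leaf 21)))) (.bis 3 5 1 1 241 (.bis 4 5 1 2 263 (.bis 0 5 1 2 265 (.bis 2 6 2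
  1 279 (.leaf 3) (.leaf 13)) (.bis 2 6 2 1 279 (.leaf 8) (.bis 0 2 1 2 434 (.leaf 13) (.leaf
  8)))) (.bis 2 4 2 1 432 (.bis 0 4 1 1 199 (.leaf 3) (.leaf 37)) (.bis 2 6 2 1 279 (.leaf 37)
  (.bis 0 2 1 2 434 (.leaf 13) (.leaf 22))))) (.bis 2 3 1 1 423 (.bis 0 3 1 2 131 (.leaf 37)
  (.leaf 37)) (.bis 2 4 2 1 432 (.bis 0 4 1 1 199 (.leaf 3) (.leaf 37)) (.bis 2 6 2 1 279 (.leaf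
  37) (.bis 0 2 1 2 434 (.leaf 13) (.leaf 22))))))))) (.bis 0 1 2 1 173 (.bis 1 4 1 1 167 (.bis 4
  5 1 1 261 (.bis 3 5 1 1 241 (.bis 0 5 1 2 269 (.bis 1 5 1 2 263 (.bis 5 6 2 1 265 (.bis 2 6 2 1
  434 (.leaf 8) (.leaf 22)) (.leaf 35)) (.bis 1 2 1 2 432 (.bis 2 6 2 1 434 (.leaf 22) (.leaf
  22)) (.bis 1 6 1 1 199 (.leaf 22) (.leaf 3)))) (.bis 1 2 1 2 432 (.bis 2 6 2 1 434 (.leaf 22)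
  (.leaf 22)) (.bis 1 6 1 1 199 (.leaf 22) (.leaf 15)))) (.bis 2 3 1 1 423 (.bis 3 6 2 1 131
  (.bis 1 6 1 1 199 (.leaf 22) (.leaf 15)) (.leaf 15)) (.bis 1 2 1 2 432 (.bis 2 6 2 1 434 (.leaf
  22) (.leaf 22)) (.bis 1 6 1 1 199 (.leaf 22) (.leaf 15))))) (.bis 2 4 1 1 431 (.bis 3 6 2 1 131
  (.leaf 72) (.leaf 15)) (.bis 2 3 1 1 423 (.bis 3 6 2 1 131 (.leaf 72) (.leaf 15)) (.bis 1 2 1 2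
  432 (.bis 2 6 2 1 434 (.leaf 22) (.leaf 22)) (.bis 1 6 1 1 199 (.leaf 22) (.leaf 15)))))) (.bis
  1 6 2 1 170 (.bis 3 5 1 1 241 (.bis 0 5 1 2 269 (.bis 4 5 1 2 263 (.bis 5 6 2 1 265 (.bis 2 6 2
  1 434 (.leaf 8) (.leaf 13)) (.leaf 13)) (.bis 2 4 2 1 432 (.bis 4 6 1 1 199 (.leaf 22) (.leaf
  3)) (.bis 2 6 2 1 434 (.leaf 22) (.leaf 13)))) (.bis 2 4 2 1 432 (.bis 4 6 1 1 199 (.leaf 22)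
  (.leaf 15)) (.bis 2 6 2 1 434 (.leaf 22) (.leaf 22)))) (.bis 2 3 1 1 423 (.bis 3 6 2 1 131
  (.bis 4 6 1 1 199 (.leaf 22) (.leaf 15)) (.leaf 15)) (.bis 2 4 2 1 432 (.bis 4 6 1 1 199 (.leaf
  22) (.leaf 15)) (.bis 2 6 2 1 434 (.leaf 22) (.leaf 22))))) (.bis 1 5 1 1 246 (.bis 3 5 1 1 241
  (.bis 0 5 1 2 269 (.bis 4 5 1 2 263 (.bis 5 6 4 1 436 (.bis 2 6 4 1 437 (.leaf 3) (.leaf 13))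
  (.bis 1 2 1 2 438 (.leaf 13) (.leaf 3))) (.bis 2 4 2 1 432 (.leaf 3) (.bis 2 6 4 1 437 (.leaf
  3) (.leaf 13)))) (.bis 2 4 2 1 432 (.leaf 21) (.bis 0 2 1 2 439 (.leaf 13) (.leaf 21)))) (.bis
  2 3 1 1 423 (.leaf 21) (.bis 2 4 2 1 432 (.leaf 21) (.leaf 70)))) (.bis 1 2 1 1 289 (.bis 2 3 1
  1 423 (.leaf 21) (.bis 2 4 2 1 432 (.leaf 21) (.leaf 70))) (.leaf 21))))) (.bis 0 5 2 1 266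
  (.bis 4 5 1 1 261 (.bis 3 5 1 1 241 (.bis 1 5 1 2 269 (.bis 5 6 2 1 265 (.leaf 22) (.leaf 75))
  (.leaf 22)) (.bis 2 3 1 1 423 (.bis 3 6 2 1 131 (.leaf 22) (.leaf 15)) (.leaf 22))) (.bis 2 4 1
  1 431 (.bis 3 6 2 1 131 (.leaf 12) (.leaf 15)) (.bis 2 3 1 1 423 (.bis 3 6 2 1 131 (.leaf 22)
  (.leaf 15)) (.leaf 22)))) (.bis 0 2 2 1 440 (.bis 2 4 1 1 431 (.bis 3 6 2 1 131 (.bis 4 6 2 1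
  60 (.leaf 22) (.leaf 72)) (.bis 0 3 1 2 441 (.bis 3 4 1 1 125 (.leaf 12) (.leaf 15)) (.bis 0 4
  1 2 442 (.leaf 12) (.leaf 22)))) (.bis 2 3 1 1 423 (.bis 3 6 2 1 131 (.leaf 22) (.leaf 139))
  (.leaf 22))) (.bis 0 3 2 1 135 (.bis 3 6 2 1 131 (.bis 4 6 2 1 60 (.leaf 22) (.bis 2 4 1 2 442
  (.leaf 12) (.leaf 22))) (.bis 2 3 1 2 441 (.bis 3 4 1 1 125 (.leaf 12) (.leaf 15)) (.bis 2 4 1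
  2 442 (.leaf 12) (.leaf 22)))) (.bis 0 6 4 1 67 (.bis 4 6 2 1 60 (.leaf 22) (.bis 2 4 1 2 442
  (.leaf 12) (.leaf 22))) (.bis 0 4 2 1 71 (.bis 2 4 1 2 442 (.leaf 12) (.leaf 45)) (.bis 0 1 4 1
  177 (.leaf 45) (.bis 0 5 4 1 268 (.leaf 45) (.leaf 45)))))))))))

def lc13 : List Vr := [⟨[56,0,0,0,0,0,0], 21952, 0⟩, ⟨[0,73,0,73,0,0,0], 127896, 0⟩, ⟨[56,0,85,0,
  0,0,0], 129307, 0⟩, ⟨[56,0,0,73,0,0,0], 125028, 0⟩, ⟨[0,0,0,0,56,0,0], 21952, 0⟩, ⟨[0,0,85,0,0,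
  42,0], 128523, 0⟩, ⟨[0,0,85,0,0,0,119], 143055, 0⟩]

theorem lk13 : chkTr lowT (leafLow 6 lowB) lt13 lc13 = true := by decide +kernel

def lt14 : Tr ℕ := (.bis 0 4 1 1 41 (.bis 4 6 2 1 23 (.bis 3 5 1 2 138 (.bis 5 6 2 1 14 (.bis 0 6
  1 1 47 (.bis 1 6 1 1 186 (.bis 3 6 1 2 140 (.bis 2 6 1 1 234 (.leaf 19) (.bis 2 4 2 1 235
  (.leaf 8) (.bis 2 5 2 1 236 (.leaf 8) (.bis 0 2 1 2 259 (.leaf 8) (.leaf 8))))) (.bis 2 4 2 1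
  235 (.bis 3 4 1 1 155 (.leaf 2) (.bis 3 5 1 1 158 (.leaf 2) (.leaf 2))) (.bis 2 5 2 1 236 (.bis
  3 5 1 1 158 (.leaf 2) (.leaf 2)) (.bis 0 2 1 2 259 (.leaf 3) (.bis 0 3 1 1 260 (.leaf 2) (.leaf
  2)))))) (.bis 1 5 2 1 182 (.bis 2 4 2 1 235 (.bis 3 4 1 1 155 (.leaf 2) (.leaf 2)) (.bis 2 5 2
  1 236 (.bis 3 5 1 1 158 (.leaf 2) (.leaf 2)) (.bis 0 2 1 2 259 (.leaf 3) (.leaf 2)))) (.bis 1 2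
  1 1 443 (.bis 2 4 2 1 235 (.leaf 8) (.bis 0 2 1 2 259 (.leaf 3) (.leaf 3))) (.bis 1 4 2 1 192
  (.leaf 8) (.bis 0 1 1 2 187 (.leaf 14) (.leaf 3)))))) (.bis 1 5 2 1 182 (.bis 0 2 1 1 261 (.bis
  2 4 2 1 235 (.leaf 2) (.bis 2 5 2 1 236 (.leaf 2) (.leaf 3))) (.bis 0 5 2 1 43 (.leaf 2) (.bis
  0 4 2 1 49 (.leaf 2) (.leaf 2)))) (.bis 0 2 1 1 261 (.bis 1 2 1 1 443 (.bis 2 4 2 1 235 (.leaf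
  8) (.leaf 3)) (.bis 1 4 2 1 192 (.leaf 8) (.leaf 14))) (.bis 1 4 2 1 192 (.bis 0 4 2 1 49
  (.leaf 2) (.leaf 2)) (.bis 1 6 2 1 187 (.bis 0 3 2 1 168 (.leaf 2) (.leaf 2)) (.bis 0 1 1 1 184
  (.leaf 14) (.leaf 2))))))) (.bis 1 5 1 2 185 (.bis 2 5 1 2 242 (.bis 4 5 1 4 27 (.bis 0 5 1 2
  45 (.leaf 20) (.bis 0 6 2 1 43 (.leaf 20) (.leaf 62))) (.bis 0 6 2 1 43 (.leaf 62) (.bis 0 2 2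
  1 262 (.leaf 24) (.leaf 2)))) (.bis 0 2 1 1 261 (.bis 1 2 1 2 444 (.bis 2 4 2 1 235 (.leaf 8)
  (.leaf 8)) (.leaf 62)) (.bis 0 6 2 1 43 (.leaf 62) (.bis 0 5 2 1 262 (.leaf 24) (.leaf 2)))))
  (.bis 1 6 2 1 182 (.bis 0 2 1 1 261 (.bis 2 5 2 1 444 (.leaf 2) (.bis 2 4 2 1 235 (.leaf 2)
  (.leaf 8))) (.bis 0 6 2 1 43 (.leaf 2) (.leaf 2))) (.bis 0 2 1 1 261 (.bis 1 2 1 1 443 (.bis 2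
  5 2 1 444 (.leaf 34) (.bis 2 4 2 1 235 (.leaf 8) (.leaf 3))) (.bis 1 4 2 1 192 (.leaf 34)
  (.leaf 14))) (.bis 1 4 2 1 192 (.bis 0 4 2 1 49 (.leaf 2) (.leaf 2)) (.leaf 36)))))) (.bis 3 6
  1 1 141 (.bis 0 6 1 1 47 (.bis 1 6 1 1 186 (.bis 5 6 1 2 140 (.bis 2 6 1 1 234 (.leaf 19) (.bis
  2 4 2 1 235 (.leaf 8) (.bis 0 2 1 2 259 (.bis 1 2 1 2 445 (.leaf 8) (.leaf 8)) (.leaf 8))))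
  (.bis 2 4 2 1 235 (.bis 4 5 1 1 155 (.leaf 3) (.leaf 8)) (.bis 0 2 1 2 259 (.bis 2 5 2 1 238
  (.leaf 3) (.leaf 3)) (.bis 0 5 1 1 260 (.leaf 3) (.leaf 3))))) (.bis 1 2 1 1 443 (.bis 2 4 2 1
  235 (.leaf 8) (.bis 0 2 1 2 259 (.leaf 3) (.leaf 3))) (.bis 1 4 2 1 192 (.leaf 8) (.bis 0 1 1 2
  187 (.leaf 14) (.leaf 3))))) (.bis 0 2 1 1 261 (.bis 1 2 1 1 443 (.bis 2 4 2 1 235 (.leaf 8)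
  (.leaf 3)) (.bis 1 4 2 1 192 (.leaf 8) (.bis 1 6 2 1 187 (.leaf 3) (.leaf 14)))) (.bis 0 3 2 1
  165 (.bis 1 4 2 1 192 (.leaf 8) (.bis 1 6 2 1 187 (.leaf 3) (.leaf 14))) (.bis 1 4 2 1 192
  (.bis 0 4 2 1 49 (.leaf 2) (.leaf 2)) (.bis 1 6 2 1 187 (.leaf 2) (.leaf 36)))))) (.bis 0 3 1 1
  167 (.bis 3 4 2 1 153 (.bis 1 2 1 1 443 (.bis 0 2 1 2 263 (.bis 2 4 2 1 235 (.leaf 8) (.leaf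
  3)) (.bis 0 4 1 1 264 (.leaf 8) (.leaf 3))) (.bis 1 4 2 1 192 (.leaf 34) (.leaf 14))) (.bis 2 3
  1 1 246 (.bis 1 6 2 1 188 (.bis 3 6 2 1 146 (.leaf 4) (.leaf 21)) (.bis 1 3 1 1 189 (.leaf 21)
  (.leaf 9))) (.bis 1 2 1 1 443 (.bis 0 2 1 2 263 (.leaf 3) (.leaf 3)) (.leaf 14)))) (.bis 0 2 1
  1 261 (.bis 1 2 1 1 443 (.bis 2 3 2 1 263 (.bis 3 4 1 1 264 (.leaf 8) (.leaf 3)) (.bis 2 4 2 1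
  235 (.leaf 8) (.leaf 3))) (.bis 1 4 2 1 192 (.leaf 34) (.bis 1 6 2 1 188 (.leaf 3) (.leaf
  14)))) (.bis 0 6 2 1 165 (.bis 1 4 2 1 192 (.leaf 16) (.leaf 14)) (.bis 1 4 2 1 192 (.leaf 10)
  (.leaf 36))))))) (.bis 3 5 1 2 138 (.bis 2 4 1 2 247 (.bis 4 5 1 1 25 (.bis 1 5 1 2 185 (.bis 5
  6 4 1 27 (.bis 0 6 2 1 49 (.leaf 10) (.leaf 10)) (.bis 2 5 1 4 248 (.bis 0 5 1 2 45 (.leaf 71)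
  (.leaf 10)) (.leaf 10))) (.bis 1 4 1 1 191 (.leaf 10) (.bis 1 6 2 1 192 (.leaf 10) (.leaf
  66)))) (.bis 3 4 1 4 148 (.bis 1 4 1 2 193 (.bis 4 6 4 1 28 (.leaf 10) (.bis 0 4 1 2 51 (.bis 2
  4 1 4 249 (.leaf 32) (.leaf 10)) (.leaf 10))) (.bis 1 5 1 1 191 (.leaf 10) (.bis 1 6 2 1 192
  (.leaf 10) (.leaf 66)))) (.bis 1 5 1 1 191 (.leaf 10) (.bis 1 6 2 1 192 (.leaf 10) (.leaf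
  66))))) (.bis 1 5 1 2 185 (.bis 2 5 1 2 242 (.bis 5 6 4 1 27 (.bis 0 2 2 1 262 (.leaf 24)
  (.leaf 10)) (.bis 4 5 1 4 248 (.bis 0 5 1 2 45 (.leaf 20) (.bis 0 2 2 1 262 (.leaf 20) (.leaf
  2))) (.bis 0 2 2 1 262 (.leaf 24) (.leaf 10)))) (.bis 0 2 1 1 261 (.bis 1 2 1 2 444 (.bis 2 6 2
  1 235 (.leaf 8) (.leaf 8)) (.leaf 24)) (.bis 0 5 2 1 262 (.leaf 24) (.leaf 10)))) (.bis 0 2 1 1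
  261 (.bis 1 2 1 1 443 (.bis 2 5 2 1 444 (.leaf 34) (.bis 2 6 2 1 235 (.leaf 8) (.leaf 8)))
  (.bis 1 6 2 1 192 (.leaf 34) (.leaf 14))) (.bis 1 6 2 1 192 (.leaf 10) (.leaf 66))))) (.bis 3 4
  1 2 151 (.bis 2 4 1 2 247 (.bis 4 5 4 1 148 (.bis 1 6 2 1 192 (.bis 0 6 2 1 49 (.leaf 10)
  (.leaf 10)) (.bis 0 1 1 1 184 (.leaf 14) (.leaf 10))) (.bis 1 4 1 2 193 (.bis 4 6 4 1 28 (.bis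
  0 6 2 1 49 (.leaf 10) (.leaf 10)) (.bis 0 4 1 2 51 (.bis 3 4 1 4 152 (.bis 2 4 1 4 249 (.leaf
  32) (.leaf 10)) (.leaf 10)) (.leaf 10))) (.bis 1 6 2 1 192 (.bis 0 6 2 1 49 (.leaf 10) (.leaf
  10)) (.bis 0 1 1 1 184 (.leaf 66) (.leaf 10))))) (.bis 0 2 1 1 261 (.bis 1 2 1 1 443 (.bis 2 3
  2 1 251 (.leaf 34) (.bis 2 6 2 1 235 (.leaf 8) (.leaf 8))) (.bis 1 6 2 1 192 (.leaf 34) (.leaf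
  14))) (.bis 1 6 2 1 192 (.bis 0 6 2 1 49 (.leaf 10) (.leaf 10)) (.bis 0 1 1 1 184 (.leaf 14)
  (.leaf 10))))) (.bis 0 3 1 1 167 (.bis 3 6 2 1 153 (.bis 1 2 1 1 443 (.bis 2 4 2 1 251 (.bis 0
  6 1 1 264 (.leaf 34) (.leaf 14)) (.bis 0 2 1 2 263 (.bis 2 6 2 1 235 (.leaf 8) (.leaf 3)) (.bis
  0 6 1 1 264 (.leaf 8) (.leaf 3)))) (.bis 1 6 2 1 192 (.leaf 34) (.leaf 14))) (.bis 2 3 1 1 246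
  (.bis 1 3 1 1 189 (.leaf 49) (.leaf 14)) (.bis 1 2 1 1 443 (.bis 2 4 2 1 251 (.leaf 14) (.bis 0
  2 1 2 263 (.leaf 3) (.leaf 3))) (.leaf 14)))) (.bis 0 2 1 1 261 (.bis 1 2 1 1 443 (.bis 2 4 2 1
  251 (.bis 3 6 1 1 264 (.leaf 34) (.leaf 14)) (.bis 2 3 2 1 263 (.bis 3 6 1 1 264 (.leaf 8)
  (.leaf 3)) (.bis 2 6 2 1 235 (.leaf 8) (.leaf 3)))) (.bis 1 6 2 1 192 (.bis 3 6 1 1 264 (.leaf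
  34) (.leaf 14)) (.leaf 14))) (.bis 1 6 2 1 192 (.leaf 10) (.leaf 66))))))) (.bis 0 6 2 1 59
  (.bis 3 5 1 2 138 (.bis 5 6 2 1 14 (.bis 4 6 1 1 47 (.bis 1 6 1 1 186 (.bis 3 6 1 2 140 (.bis 2
  6 1 1 234 (.leaf 19) (.bis 0 2 1 2 265 (.bis 2 5 2 1 236 (.leaf 8) (.bis 2 4 2 1 259 (.leaf 8)
  (.leaf 8))) (.leaf 8))) (.bis 0 2 1 2 265 (.bis 2 5 2 1 236 (.bis 3 5 1 1 158 (.leaf 2) (.leaf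
  2)) (.bis 2 4 2 1 259 (.bis 3 4 1 1 260 (.leaf 2) (.leaf 2)) (.leaf 3))) (.bis 0 3 1 1 169
  (.bis 3 5 1 1 158 (.leaf 2) (.leaf 2)) (.leaf 2)))) (.bis 1 5 2 1 182 (.bis 0 2 1 2 265 (.bis 2
  5 2 1 236 (.bis 3 5 1 1 158 (.leaf 2) (.leaf 2)) (.bis 2 4 2 1 259 (.leaf 2) (.leaf 3))) (.bis
  0 3 1 1 169 (.leaf 2) (.leaf 2))) (.bis 0 1 1 2 194 (.bis 1 2 1 1 443 (.bis 0 2 1 4 446 (.bis 2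
  4 2 1 259 (.leaf 3) (.leaf 3)) (.leaf 3)) (.bis 1 4 2 1 187 (.leaf 3) (.leaf 9))) (.bis 0 2 1 2
  265 (.bis 1 2 1 4 446 (.bis 2 4 2 1 259 (.leaf 2) (.leaf 3)) (.leaf 2)) (.leaf 2))))) (.bis 1 5
  2 1 182 (.bis 2 4 1 1 261 (.bis 4 5 2 1 43 (.leaf 2) (.bis 0 4 1 2 60 (.leaf 2) (.leaf 2)))
  (.bis 0 2 1 2 265 (.bis 2 5 2 1 236 (.leaf 2) (.leaf 3)) (.leaf 2))) (.bis 2 4 1 1 261 (.bis 0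
  1 1 2 194 (.bis 1 6 2 1 187 (.bis 3 4 1 2 168 (.leaf 2) (.leaf 2)) (.bis 1 4 1 1 184 (.leaf 2)
  (.leaf 14))) (.bis 0 4 1 2 60 (.leaf 2) (.leaf 2))) (.bis 0 1 1 2 194 (.bis 1 2 1 1 443 (.bis 0
  2 1 4 446 (.leaf 3) (.leaf 3)) (.bis 1 6 2 1 187 (.leaf 3) (.leaf 14))) (.bis 0 2 1 2 265 (.bis
  1 2 1 4 446 (.leaf 3) (.leaf 2)) (.leaf 2)))))) (.bis 1 5 1 2 185 (.bis 2 5 1 2 242 (.bis 0 5 1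
  4 61 (.bis 4 5 1 2 45 (.leaf 20) (.bis 4 6 2 1 43 (.leaf 20) (.leaf 62))) (.bis 4 6 2 1 43
  (.leaf 51) (.bis 2 4 1 2 262 (.leaf 2) (.leaf 26)))) (.bis 2 4 1 1 261 (.bis 4 6 2 1 43 (.leaf
  62) (.bis 4 5 2 1 262 (.leaf 26) (.bis 0 4 1 2 60 (.leaf 2) (.leaf 2)))) (.bis 1 2 1 2 444
  (.bis 0 2 1 2 265 (.leaf 8) (.leaf 8)) (.leaf 62)))) (.bis 1 6 2 1 182 (.bis 2 4 1 1 261 (.bis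
  4 6 2 1 43 (.leaf 2) (.leaf 2)) (.bis 2 5 2 1 444 (.leaf 2) (.bis 0 2 1 2 265 (.leaf 8) (.leaf
  2)))) (.bis 2 4 1 1 261 (.bis 0 1 1 2 194 (.leaf 36) (.bis 0 4 1 2 60 (.leaf 2) (.leaf 2)))
  (.bis 0 1 1 2 194 (.bis 1 2 1 1 443 (.bis 2 5 2 1 444 (.leaf 14) (.bis 0 2 1 4 446 (.leaf 3)
  (.leaf 3))) (.leaf 14)) (.bis 2 5 2 1 444 (.leaf 2) (.bis 0 2 1 2 265 (.leaf 3) (.leaf
  2)))))))) (.bis 3 6 1 1 141 (.bis 4 6 1 1 47 (.bis 1 6 1 1 186 (.bis 5 6 1 2 140 (.bis 2 6 1 1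
  234 (.leaf 19) (.bis 0 2 1 2 265 (.bis 2 4 2 1 259 (.leaf 8) (.bis 1 2 1 2 445 (.leaf 8) (.leaf
  8))) (.leaf 8))) (.bis 0 2 1 2 265 (.bis 2 4 2 1 259 (.bis 4 5 1 1 260 (.leaf 3) (.leaf 3))
  (.bis 2 5 2 1 238 (.leaf 3) (.leaf 3))) (.bis 0 5 1 1 169 (.leaf 3) (.leaf 5)))) (.bis 0 1 1 2
  194 (.bis 1 2 1 1 443 (.bis 0 2 1 4 446 (.bis 2 4 2 1 259 (.leaf 3) (.leaf 3)) (.leaf 3)) (.bis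
  1 4 2 1 187 (.leaf 3) (.leaf 14))) (.bis 0 2 1 2 265 (.bis 1 2 1 4 446 (.bis 2 4 2 1 259 (.leaf
  3) (.leaf 3)) (.leaf 3)) (.bis 0 5 1 1 169 (.leaf 3) (.leaf 5))))) (.bis 2 4 1 1 261 (.bis 3 4
  1 2 165 (.bis 0 1 1 2 194 (.bis 1 6 2 1 187 (.leaf 2) (.leaf 36)) (.bis 0 4 1 2 60 (.leaf 2)
  (.leaf 2))) (.bis 0 1 1 2 194 (.bis 1 6 2 1 187 (.leaf 3) (.bis 1 3 2 1 188 (.leaf 3) (.leaf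
  14))) (.leaf 5))) (.bis 0 1 1 2 194 (.bis 1 2 1 1 443 (.bis 0 2 1 4 446 (.leaf 3) (.leaf 3))
  (.bis 1 6 2 1 187 (.leaf 3) (.leaf 14))) (.bis 0 2 1 2 265 (.bis 1 2 1 4 446 (.leaf 3) (.leaf
  3)) (.leaf 5))))) (.bis 3 4 1 1 167 (.bis 2 4 1 1 261 (.bis 4 6 2 1 165 (.bis 0 1 1 2 194
  (.leaf 14) (.leaf 5)) (.bis 0 1 1 2 194 (.leaf 36) (.leaf 62))) (.bis 0 1 1 2 194 (.bis 1 2 1 1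
  443 (.bis 2 3 2 1 263 (.leaf 3) (.leaf 3)) (.bis 1 6 2 1 188 (.leaf 3) (.leaf 14))) (.bis 2 3 2
  1 263 (.leaf 5) (.bis 0 2 1 2 265 (.leaf 3) (.leaf 5))))) (.bis 0 3 1 2 170 (.bis 2 3 1 1 246
  (.bis 1 6 2 1 188 (.bis 3 6 2 1 146 (.leaf 4) (.leaf 21)) (.bis 1 3 1 1 189 (.leaf 21) (.leaf
  9))) (.bis 1 2 1 1 443 (.bis 2 4 2 1 263 (.leaf 3) (.leaf 3)) (.leaf 14))) (.bis 0 1 1 2 194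
  (.bis 1 2 1 1 443 (.bis 2 4 2 1 263 (.leaf 3) (.bis 0 2 1 4 446 (.leaf 3) (.leaf 3))) (.leaf
  14)) (.bis 2 4 2 1 263 (.leaf 5) (.bis 0 2 1 2 265 (.bis 1 2 1 4 446 (.leaf 3) (.leaf 3))
  (.leaf 5)))))))) (.bis 3 5 1 2 138 (.bis 0 2 2 1 266 (.bis 1 5 1 2 185 (.bis 2 5 1 2 242 (.bis
  5 6 4 1 61 (.bis 2 4 1 2 262 (.leaf 12) (.leaf 26)) (.bis 0 5 1 4 267 (.bis 4 5 1 2 45 (.leaf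
  20) (.bis 2 4 1 2 262 (.leaf 2) (.leaf 20))) (.bis 2 4 1 2 262 (.leaf 12) (.leaf 26)))) (.bis 2
  4 1 1 261 (.bis 4 5 2 1 262 (.leaf 26) (.bis 4 6 2 1 60 (.leaf 12) (.leaf 12))) (.bis 1 2 1 2
  444 (.bis 2 6 2 1 265 (.leaf 26) (.leaf 111)) (.bis 1 6 1 1 447 (.leaf 26) (.leaf 26))))) (.bis
  2 4 1 1 261 (.bis 1 6 2 1 194 (.leaf 12) (.bis 0 1 1 2 448 (.leaf 36) (.leaf 12))) (.bis 1 6 2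
  1 194 (.bis 2 5 2 1 444 (.leaf 26) (.bis 2 6 2 1 265 (.leaf 5) (.leaf 3))) (.bis 1 2 1 1 443
  (.bis 2 5 2 1 444 (.leaf 62) (.leaf 3)) (.leaf 73))))) (.bis 0 5 1 1 66 (.bis 1 5 1 2 185 (.bis
  5 6 4 1 61 (.leaf 12) (.bis 2 5 1 4 267 (.bis 4 5 1 2 45 (.leaf 20) (.leaf 12)) (.leaf 12)))
  (.bis 0 1 1 1 196 (.bis 1 6 2 1 194 (.leaf 12) (.leaf 118)) (.bis 4 6 2 1 60 (.leaf 12) (.leaf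
  12)))) (.bis 0 1 2 1 197 (.bis 1 5 1 1 196 (.leaf 12) (.bis 1 6 2 1 194 (.leaf 12) (.leaf
  118))) (.bis 0 3 4 1 172 (.leaf 12) (.bis 0 6 4 1 67 (.leaf 12) (.bis 0 4 2 1 71 (.leaf 12)
  (.bis 0 2 4 1 268 (.leaf 12) (.bis 0 1 4 1 209 (.leaf 12) (.leaf 45))))))))) (.bis 0 3 2 1 173
  (.bis 3 4 1 1 167 (.bis 2 4 1 1 261 (.bis 1 6 2 1 194 (.bis 4 6 2 1 60 (.leaf 5) (.leaf 15))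
  (.leaf 36)) (.bis 1 6 2 1 194 (.bis 0 2 1 2 269 (.bis 2 3 2 1 263 (.bis 3 6 1 1 199 (.leaf 5)
  (.leaf 3)) (.bis 2 6 2 1 265 (.leaf 5) (.leaf 3))) (.bis 3 6 1 1 199 (.leaf 5) (.leaf 5)))
  (.bis 1 2 1 1 443 (.bis 0 2 1 2 269 (.bis 2 3 2 1 263 (.leaf 3) (.leaf 3)) (.leaf 5)) (.leaf
  36)))) (.bis 3 6 2 1 170 (.bis 1 6 2 1 194 (.bis 0 2 1 2 269 (.bis 2 4 2 1 263 (.leaf 5) (.bis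
  2 6 2 1 265 (.leaf 5) (.leaf 3))) (.leaf 5)) (.bis 1 2 1 1 443 (.bis 0 2 1 2 269 (.bis 2 4 2 1
  263 (.leaf 3) (.bis 2 6 4 1 446 (.leaf 3) (.leaf 3))) (.leaf 5)) (.leaf 9))) (.bis 2 3 1 1 246
  (.bis 1 3 1 1 189 (.leaf 21) (.leaf 9)) (.bis 1 2 1 1 443 (.bis 0 2 1 2 269 (.bis 2 4 2 1 263
  (.leaf 3) (.leaf 3)) (.leaf 9)) (.leaf 9))))) (.bis 0 2 2 1 266 (.bis 2 4 1 1 261 (.bis 1 6 2 1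
  194 (.bis 4 6 2 1 60 (.leaf 5) (.leaf 12)) (.bis 0 1 1 2 448 (.leaf 36) (.leaf 12))) (.bis 1 6
  2 1 194 (.bis 2 3 2 1 269 (.leaf 5) (.bis 2 6 2 1 265 (.leaf 5) (.leaf 3))) (.bis 1 2 1 1 443
  (.bis 2 3 2 1 269 (.leaf 5) (.leaf 3)) (.bis 0 1 1 2 448 (.leaf 36) (.leaf 5))))) (.bis 0 1 2 1
  197 (.bis 1 6 2 1 194 (.bis 4 6 2 1 60 (.leaf 5) (.leaf 12)) (.bis 1 2 2 1 448 (.leaf 12)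
  (.leaf 36))) (.bis 0 5 4 1 172 (.leaf 12) (.bis 0 6 4 1 67 (.bis 4 6 2 1 60 (.leaf 12) (.leaf
  12)) (.bis 0 4 2 1 71 (.leaf 12) (.bis 0 3 4 1 177 (.leaf 12) (.bis 0 2 4 1 268 (.leaf 12)
  (.leaf 45))))))))))))

def lc14 : List Vr := [⟨[56,0,0,0,0,0,0], 21952, 0⟩, ⟨[0,73,0,0,56,0,0], 125028, 0⟩, ⟨[0,0,85,0,0,
  42,0], 128523, 0⟩, ⟨[0,73,0,73,0,0,0], 127896, 0⟩, ⟨[0,0,0,0,56,0,0], 21952, 0⟩, ⟨[0,0,0,0,0,42,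
  0], 21168, 0⟩, ⟨[0,0,85,0,0,0,119], 143055, 0⟩]

theorem lk14 : chkTr lowT (leafLow 6 lowB) lt14 lc14 = true := by decide +kernel

def lt15 : Tr ℕ := (.bis 1 5 1 1 200 (.bis 0 6 2 1 59 (.bis 3 5 1 2 138 (.bis 5 6 2 1 14 (.bis 4
  6 1 1 186 (.bis 1 6 1 1 204 (.bis 3 6 1 2 140 (.bis 2 6 1 1 234 (.leaf 19) (.bis 0 2 1 2 265
  (.bis 2 5 2 1 236 (.leaf 8) (.bis 1 2 1 2 449 (.leaf 8) (.leaf 8))) (.leaf 8))) (.bis 0 2 1 2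
  265 (.bis 2 5 2 1 236 (.bis 3 5 1 1 158 (.leaf 2) (.leaf 2)) (.bis 2 3 2 1 238 (.leaf 8) (.leaf
  8))) (.bis 0 3 1 1 169 (.bis 3 5 1 1 158 (.leaf 2) (.leaf 2)) (.leaf 2)))) (.bis 1 5 2 1 201
  (.bis 0 2 1 2 265 (.bis 2 5 2 1 236 (.bis 3 5 1 1 158 (.leaf 2) (.leaf 2)) (.bis 2 3 2 1 238
  (.leaf 8) (.leaf 8))) (.bis 0 3 1 1 169 (.leaf 2) (.leaf 2))) (.bis 1 2 1 1 450 (.bis 0 2 1 2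
  265 (.bis 2 3 2 1 238 (.leaf 5) (.leaf 8)) (.leaf 5)) (.leaf 5)))) (.bis 4 5 2 1 182 (.bis 1 5
  2 1 201 (.bis 0 2 1 2 265 (.bis 2 5 2 1 236 (.leaf 2) (.bis 2 3 2 1 238 (.leaf 8) (.leaf 8)))
  (.leaf 2)) (.bis 1 2 1 1 450 (.bis 0 2 1 2 265 (.bis 2 3 2 1 238 (.leaf 5) (.leaf 8)) (.leaf
  5)) (.leaf 5))) (.bis 0 4 1 2 194 (.bis 2 4 1 1 443 (.leaf 9) (.bis 1 2 1 1 450 (.bis 0 2 1 4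
  446 (.leaf 3) (.leaf 3)) (.leaf 5))) (.bis 1 2 1 1 450 (.bis 0 2 1 2 265 (.bis 2 4 4 1 446
  (.leaf 3) (.leaf 3)) (.leaf 5)) (.leaf 5))))) (.bis 4 5 1 2 185 (.bis 2 5 1 2 242 (.bis 0 5 1 4
  61 (.bis 1 5 1 2 203 (.leaf 20) (.bis 1 6 2 1 201 (.leaf 20) (.leaf 26))) (.bis 1 6 2 1 201
  (.leaf 51) (.leaf 26))) (.bis 1 6 2 1 201 (.bis 2 4 2 1 444 (.leaf 51) (.bis 0 2 1 2 265 (.leaf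
  8) (.leaf 8))) (.bis 1 2 1 1 450 (.bis 2 4 2 1 444 (.bis 0 4 1 1 447 (.leaf 26) (.leaf 8))
  (.bis 0 2 1 2 265 (.leaf 8) (.leaf 8))) (.bis 0 1 1 2 205 (.leaf 26) (.leaf 26))))) (.bis 4 6 2
  1 182 (.bis 1 6 2 1 201 (.bis 2 5 2 1 444 (.leaf 2) (.bis 0 2 1 2 265 (.bis 2 6 2 1 236 (.leaf
  2) (.leaf 8)) (.leaf 2))) (.bis 1 2 1 1 450 (.bis 2 5 2 1 444 (.bis 0 5 1 1 447 (.leaf 14)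
  (.leaf 5)) (.bis 0 2 1 2 265 (.leaf 8) (.leaf 5))) (.bis 0 1 1 2 205 (.leaf 26) (.leaf 26))))
  (.bis 0 4 1 2 194 (.bis 2 4 1 1 443 (.leaf 36) (.bis 1 2 1 1 450 (.bis 2 5 2 1 444 (.leaf 14)
  (.leaf 3)) (.leaf 73))) (.bis 1 2 1 1 450 (.bis 2 5 2 1 444 (.leaf 26) (.bis 0 2 1 2 265 (.leaf
  3) (.leaf 5))) (.bis 0 1 1 2 205 (.leaf 26) (.leaf 26))))))) (.bis 3 6 1 1 141 (.bis 4 6 1 1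
  186 (.bis 1 6 1 1 204 (.bis 5 6 1 2 140 (.bis 2 6 1 1 234 (.leaf 19) (.bis 0 2 1 2 265 (.bis 1
  2 1 2 449 (.bis 2 4 2 1 445 (.leaf 8) (.leaf 8)) (.leaf 8)) (.leaf 8))) (.bis 0 2 1 2 265 (.bis
  2 5 2 1 238 (.leaf 5) (.bis 1 2 1 2 449 (.leaf 3) (.leaf 5))) (.bis 0 5 1 1 169 (.leaf 5)
  (.leaf 5)))) (.bis 1 2 1 1 450 (.bis 0 2 1 2 265 (.bis 2 5 2 1 238 (.leaf 5) (.leaf 8)) (.leaf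
  5)) (.bis 0 1 1 2 205 (.leaf 5) (.leaf 5)))) (.bis 0 4 1 2 194 (.bis 2 4 1 1 443 (.leaf 74)
  (.bis 1 2 1 1 450 (.bis 0 2 1 4 446 (.leaf 3) (.leaf 3)) (.leaf 5))) (.bis 1 2 1 1 450 (.bis 0
  2 1 2 265 (.bis 2 4 4 1 446 (.leaf 3) (.leaf 3)) (.leaf 5)) (.bis 0 1 1 2 205 (.leaf 5) (.leaf
  5))))) (.bis 0 3 1 2 170 (.bis 2 3 1 1 246 (.bis 1 3 1 1 206 (.bis 4 6 2 1 188 (.bis 3 6 2 1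
  146 (.leaf 14) (.leaf 21)) (.leaf 30)) (.leaf 74)) (.bis 2 4 1 1 443 (.leaf 74) (.bis 1 2 1 1
  450 (.leaf 3) (.leaf 74)))) (.bis 0 4 1 2 194 (.bis 2 4 1 1 443 (.leaf 74) (.bis 1 2 1 1 450
  (.bis 0 2 1 4 446 (.leaf 3) (.leaf 3)) (.leaf 5))) (.bis 1 2 1 1 450 (.bis 0 2 1 2 265 (.bis 2
  4 4 1 446 (.leaf 3) (.leaf 3)) (.leaf 5)) (.leaf 5)))))) (.bis 3 5 1 2 138 (.bis 0 2 2 1 266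
  (.bis 4 5 1 2 185 (.bis 2 5 1 2 242 (.bis 5 6 4 1 61 (.leaf 26) (.bis 0 5 1 4 267 (.bis 1 5 1 2
  203 (.leaf 20) (.leaf 26)) (.leaf 26))) (.bis 1 2 1 1 450 (.bis 2 4 2 1 444 (.bis 4 6 1 1 447
  (.leaf 26) (.leaf 26)) (.bis 2 6 2 1 265 (.leaf 26) (.leaf 111))) (.bis 1 6 2 1 205 (.leaf 26)
  (.leaf 26)))) (.bis 4 6 2 1 194 (.bis 1 2 1 1 450 (.bis 2 5 2 1 444 (.leaf 26) (.bis 2 6 2 1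
  265 (.leaf 5) (.leaf 3))) (.leaf 26)) (.bis 2 4 1 1 443 (.bis 0 4 1 2 448 (.leaf 36) (.leaf
  73)) (.bis 1 2 1 1 450 (.bis 2 5 2 1 444 (.leaf 73) (.leaf 3)) (.leaf 73))))) (.bis 0 5 1 1 66
  (.bis 4 5 1 2 185 (.bis 5 6 4 1 61 (.leaf 26) (.bis 2 5 1 4 267 (.bis 1 5 1 2 203 (.leaf 20)
  (.leaf 26)) (.leaf 26))) (.bis 0 4 1 1 196 (.bis 4 6 2 1 194 (.leaf 26) (.leaf 73)) (.bis 1 6 2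
  1 205 (.leaf 12) (.leaf 26)))) (.bis 0 4 2 1 197 (.bis 4 5 1 1 196 (.leaf 26) (.bis 4 6 2 1 194
  (.leaf 5) (.leaf 73))) (.bis 0 3 4 1 172 (.leaf 26) (.bis 0 1 2 1 208 (.leaf 26) (.bis 0 6 4 1
  67 (.leaf 12) (.bis 0 2 4 1 268 (.leaf 12) (.bis 0 4 4 1 209 (.leaf 12) (.leaf 45)))))))))
  (.bis 0 3 2 1 173 (.bis 3 6 2 1 170 (.bis 4 6 2 1 194 (.bis 0 2 1 2 269 (.bis 1 2 1 1 450 (.bis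
  2 6 2 1 265 (.leaf 5) (.leaf 3)) (.leaf 5)) (.leaf 5)) (.bis 2 4 1 1 443 (.leaf 9) (.bis 0 2 1
  2 269 (.bis 1 2 1 1 450 (.bis 2 6 4 1 446 (.leaf 3) (.leaf 3)) (.leaf 5)) (.leaf 5)))) (.bis 2
  3 1 1 246 (.bis 1 3 1 1 206 (.bis 3 4 1 1 189 (.leaf 9) (.leaf 21)) (.leaf 9)) (.bis 2 4 1 1
  443 (.leaf 9) (.bis 0 2 1 2 269 (.bis 1 2 1 1 450 (.leaf 3) (.leaf 9)) (.leaf 9))))) (.bis 0 2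
  2 1 266 (.bis 4 6 2 1 194 (.bis 2 3 2 1 269 (.leaf 5) (.bis 1 2 1 1 450 (.bis 2 6 2 1 265
  (.leaf 5) (.leaf 3)) (.leaf 5))) (.bis 2 4 1 1 443 (.leaf 73) (.bis 2 3 2 1 269 (.leaf 5) (.bis
  1 2 1 1 450 (.leaf 3) (.leaf 5))))) (.bis 0 4 2 1 197 (.bis 4 6 2 1 194 (.leaf 5) (.leaf 73))
  (.bis 0 5 4 1 172 (.bis 1 6 2 1 205 (.leaf 5) (.leaf 5)) (.bis 0 1 2 1 208 (.bis 1 6 2 1 205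
  (.leaf 12) (.leaf 50)) (.bis 0 6 4 1 67 (.leaf 12) (.bis 0 3 4 1 177 (.leaf 12) (.bis 0 2 4 1
  268 (.leaf 12) (.bis 0 4 4 1 209 (.leaf 12) (.leaf 45)))))))))))) (.bis 1 6 2 1 210 (.bis 0 6 2
  1 59 (.bis 3 6 1 1 141 (.bis 4 6 1 1 186 (.bis 5 6 1 1 204 (.bis 2 6 1 1 234 (.leaf 19) (.bis 0
  2 1 2 265 (.bis 1 2 1 2 451 (.bis 2 5 2 1 449 (.leaf 8) (.leaf 8)) (.leaf 63)) (.leaf 19)))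
  (.bis 2 5 1 1 450 (.bis 0 5 1 2 205 (.bis 3 5 1 2 207 (.leaf 5) (.leaf 5)) (.leaf 5)) (.bis 0 2
  1 2 265 (.bis 1 2 1 2 451 (.leaf 8) (.leaf 5)) (.leaf 5)))) (.bis 0 4 1 2 194 (.bis 2 4 1 1 443
  (.bis 3 5 1 2 207 (.leaf 9) (.bis 3 4 1 2 188 (.leaf 9) (.leaf 5))) (.bis 2 5 1 1 450 (.leaf 5)
  (.bis 1 2 1 2 451 (.leaf 3) (.leaf 5)))) (.bis 2 5 1 1 450 (.bis 0 5 1 2 205 (.leaf 5) (.leaf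
  5)) (.bis 0 2 1 2 265 (.bis 1 2 1 2 451 (.leaf 3) (.leaf 5)) (.leaf 5))))) (.bis 0 3 1 2 170
  (.bis 2 3 1 1 246 (.bis 3 5 1 1 206 (.bis 5 6 2 1 207 (.bis 4 6 2 1 188 (.leaf 74) (.leaf 9))
  (.leaf 9)) (.bis 1 3 1 2 211 (.bis 4 6 2 1 188 (.leaf 30) (.leaf 30)) (.bis 4 6 2 1 188 (.leaf
  74) (.leaf 9)))) (.bis 2 4 1 1 443 (.bis 5 6 2 1 207 (.bis 4 6 2 1 188 (.leaf 23) (.leaf 9))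
  (.leaf 9)) (.bis 2 5 1 1 450 (.bis 5 6 2 1 207 (.leaf 63) (.leaf 9)) (.bis 1 2 1 2 451 (.leaf
  3) (.leaf 63))))) (.bis 0 4 1 2 194 (.bis 2 4 1 1 443 (.leaf 74) (.bis 2 5 1 1 450 (.leaf 5)
  (.bis 1 2 1 2 451 (.leaf 3) (.leaf 5)))) (.bis 2 5 1 1 450 (.bis 0 5 1 2 205 (.leaf 5) (.leaf
  5)) (.bis 0 2 1 2 265 (.bis 1 2 1 2 451 (.leaf 3) (.leaf 5)) (.leaf 5)))))) (.bis 0 3 2 1 173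
  (.bis 3 6 2 1 170 (.bis 4 6 2 1 194 (.bis 0 2 1 2 269 (.bis 2 5 1 1 450 (.leaf 5) (.bis 2 6 2 1
  265 (.leaf 5) (.bis 1 2 1 2 451 (.leaf 3) (.leaf 5)))) (.leaf 5)) (.bis 2 4 1 1 443 (.leaf 9)
  (.bis 0 2 1 2 269 (.bis 2 5 1 1 450 (.leaf 5) (.bis 1 2 1 2 451 (.leaf 3) (.leaf 5))) (.leaf
  5)))) (.bis 2 3 1 1 246 (.bis 3 5 1 1 206 (.bis 0 1 1 1 213 (.leaf 9) (.leaf 9)) (.bis 1 3 1 2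
  211 (.bis 3 4 1 1 189 (.leaf 9) (.leaf 21)) (.bis 0 1 1 1 213 (.bis 1 4 1 2 212 (.leaf 9)
  (.leaf 9)) (.bis 0 4 1 2 214 (.leaf 9) (.leaf 9))))) (.bis 2 4 1 1 443 (.bis 0 1 1 1 213 (.leaf
  9) (.leaf 9)) (.bis 0 2 1 2 269 (.bis 2 5 1 1 450 (.leaf 9) (.bis 1 2 1 2 451 (.leaf 3) (.leaf
  9))) (.bis 0 1 1 1 213 (.leaf 9) (.leaf 9)))))) (.bis 0 2 2 1 266 (.bis 4 6 2 1 194 (.bis 2 3 2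
  1 269 (.bis 5 6 2 1 205 (.bis 0 1 1 1 452 (.leaf 5) (.leaf 5)) (.bis 0 1 1 1 452 (.leaf 5)
  (.leaf 5))) (.bis 2 5 1 1 450 (.leaf 5) (.bis 0 1 1 1 452 (.bis 2 6 2 1 265 (.leaf 5) (.bis 1 2
  1 2 451 (.leaf 3) (.leaf 5))) (.bis 2 6 2 1 265 (.leaf 5) (.leaf 3))))) (.bis 2 4 1 1 443 (.bis
  0 4 1 2 448 (.bis 1 3 1 1 213 (.leaf 9) (.leaf 9)) (.bis 0 1 1 1 452 (.leaf 5) (.leaf 5)))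
  (.bis 2 3 2 1 269 (.bis 0 1 1 1 452 (.leaf 5) (.leaf 5)) (.bis 2 5 1 1 450 (.bis 0 1 1 1 452
  (.leaf 5) (.leaf 5)) (.bis 0 1 1 1 452 (.bis 1 2 1 2 451 (.leaf 3) (.leaf 5)) (.leaf 3))))))
  (.bis 0 1 4 1 215 (.bis 4 6 2 1 194 (.bis 5 6 2 1 205 (.bis 1 2 1 1 452 (.leaf 5) (.leaf 5))
  (.bis 1 2 1 1 452 (.leaf 5) (.leaf 5))) (.bis 2 4 1 2 448 (.bis 1 3 1 1 213 (.leaf 36) (.leaf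
  74)) (.bis 1 2 1 1 452 (.leaf 5) (.leaf 5)))) (.bis 0 4 2 1 197 (.bis 4 6 2 1 194 (.leaf 5)
  (.bis 2 4 1 2 448 (.leaf 36) (.leaf 5))) (.bis 0 5 2 1 208 (.leaf 108) (.bis 0 6 4 1 67 (.leaf
  12) (.bis 0 3 4 1 177 (.leaf 12) (.bis 0 2 4 1 268 (.leaf 12) (.bis 0 1 8 1 216 (.leaf 12)
  (.leaf 45))))))))))) (.bis 0 1 1 1 217 (.bis 1 2 2 1 453 (.bis 0 2 1 1 454 (.bis 2 3 1 1 246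
  (.bis 3 5 1 1 206 (.leaf 9) (.bis 3 6 2 1 211 (.bis 4 6 2 1 212 (.leaf 9) (.leaf 9)) (.leaf
  30))) (.bis 2 4 1 1 443 (.leaf 9) (.bis 2 5 1 1 450 (.leaf 9) (.bis 2 6 2 1 451 (.leaf 9)
  (.leaf 47))))) (.bis 0 3 1 1 224 (.bis 3 5 1 1 206 (.leaf 9) (.bis 3 6 2 1 211 (.leaf 9) (.bis
  2 3 1 2 455 (.leaf 30) (.leaf 9)))) (.bis 0 6 2 1 222 (.bis 4 6 2 1 212 (.leaf 9) (.leaf 9))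
  (.bis 0 4 1 1 223 (.leaf 9) (.leaf 83))))) (.bis 1 3 2 1 226 (.bis 0 3 1 1 224 (.bis 3 5 1 1
  206 (.bis 4 6 2 1 212 (.leaf 28) (.leaf 28)) (.bis 3 6 2 1 211 (.bis 4 6 2 1 212 (.leaf 28)
  (.leaf 28)) (.bis 3 4 1 1 189 (.leaf 28) (.leaf 80)))) (.bis 0 6 2 1 222 (.bis 4 6 2 1 212
  (.leaf 28) (.leaf 28)) (.bis 0 4 1 1 223 (.leaf 28) (.leaf 68)))) (.bis 1 4 2 1 227 (.bis 0 6 2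
  1 222 (.bis 4 6 2 1 212 (.leaf 28) (.leaf 28)) (.bis 0 4 1 1 223 (.leaf 28) (.leaf 68))) (.bis
  1 6 4 1 228 (.bis 0 6 2 1 222 (.leaf 28) (.leaf 68)) (.bis 1 5 2 1 229 (.leaf 68) (.bis 0 1 1 2
  230 (.leaf 100) (.leaf 68))))))) (.bis 0 3 2 1 173 (.bis 1 2 1 1 454 (.bis 2 3 1 1 246 (.bis 3
  5 1 1 206 (.bis 0 6 1 1 213 (.leaf 9) (.leaf 9)) (.bis 3 6 2 1 211 (.leaf 9) (.leaf 80))) (.bis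
  2 4 1 1 443 (.bis 0 6 1 1 213 (.leaf 9) (.leaf 9)) (.bis 0 2 1 2 269 (.bis 2 5 1 1 450 (.bis 3
  5 1 2 456 (.leaf 5) (.bis 3 6 1 1 457 (.leaf 5) (.leaf 3))) (.bis 2 6 2 1 451 (.leaf 9) (.leaf
  3))) (.bis 0 6 1 1 213 (.leaf 9) (.leaf 9))))) (.bis 1 3 1 1 224 (.bis 3 5 1 1 206 (.bis 0 6 1
  1 213 (.leaf 9) (.leaf 9)) (.bis 3 6 2 1 211 (.bis 0 6 1 1 213 (.leaf 9) (.leaf 9)) (.leaf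
  80))) (.bis 1 6 2 1 222 (.bis 0 6 1 1 213 (.bis 4 6 2 1 212 (.leaf 9) (.leaf 9)) (.bis 0 4 1 2
  214 (.leaf 9) (.leaf 9))) (.bis 1 4 1 1 223 (.leaf 9) (.leaf 50))))) (.bis 0 2 2 1 266 (.bis 1
  2 1 1 454 (.bis 2 4 1 1 443 (.bis 0 4 1 2 448 (.bis 3 6 1 1 213 (.leaf 9) (.leaf 9)) (.bis 0 6
  1 1 452 (.leaf 5) (.leaf 5))) (.bis 2 3 2 1 269 (.bis 0 6 1 1 452 (.leaf 5) (.leaf 5)) (.bis 2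
  5 1 1 450 (.bis 0 6 1 1 452 (.leaf 5) (.leaf 5)) (.bis 0 6 1 1 452 (.bis 2 6 2 1 451 (.leaf 5)
  (.leaf 3)) (.leaf 3))))) (.bis 0 4 1 2 448 (.bis 1 6 2 1 222 (.leaf 9) (.bis 1 4 1 1 223 (.leaf
  9) (.leaf 50))) (.bis 1 6 2 1 222 (.bis 0 6 1 1 452 (.leaf 5) (.leaf 5)) (.leaf 50)))) (.bis 0
  6 4 1 215 (.bis 2 4 1 2 448 (.bis 1 6 2 1 222 (.bis 3 6 1 1 213 (.bis 0 4 1 4 231 (.leaf 9)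
  (.leaf 5)) (.bis 0 4 1 4 231 (.leaf 9) (.leaf 5))) (.bis 1 4 1 1 223 (.leaf 73) (.leaf 50)))
  (.bis 1 6 2 1 222 (.bis 2 6 1 1 452 (.leaf 5) (.leaf 5)) (.leaf 50))) (.bis 0 4 2 1 197 (.bis 2
  4 1 2 448 (.bis 1 4 1 1 223 (.leaf 36) (.leaf 50)) (.leaf 50)) (.bis 0 5 2 1 208 (.leaf 50)
  (.bis 0 1 2 1 232 (.leaf 50) (.bis 0 3 4 1 177 (.leaf 45) (.bis 0 2 4 1 268 (.leaf 45) (.bis 0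
  6 8 1 216 (.leaf 45) (.leaf 45)))))))))))))

def lc15 : List Vr := [⟨[56,0,0,0,0,0,0], 21952, 0⟩, ⟨[0,73,0,0,0,0,0], 21316, 0⟩, ⟨[0,0,85,0,0,
  42,0], 128523, 0⟩, ⟨[0,73,0,73,0,0,0], 127896, 0⟩, ⟨[0,73,0,0,56,0,0], 125028, 0⟩, ⟨[0,0,0,0,0,
  42,0], 21168, 0⟩, ⟨[0,0,85,0,0,0,119], 143055, 0⟩]

theorem lk15 : chkTr lowT (leafLow 6 lowB) lt15 lc15 = true := by decide +kernel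

end Pool.Agent.Helper10.Fam.A5
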