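import Pool.Agent.Helper10.FamD.A5LowT

set_option autoImplicit false
set_option maxRecDepth 1000000

/-!
# Certificate data for `U ⊕ A5` (lower bound, subtrees)
-/

namespace Pool.Agent.Helper10.Fam.A5

open Pool.Agent.Helper10.Fam

def lt16 : Tr ℕ := (.bis 1 4 1 1 178 (.bis 4 6 2 1 23 (.bis 3 6 1 1 141 (.bis 1 6 1 1 186 (.bis 0
  6 1 1 272 (.bis 2 6 1 1 273 (.bis 5 6 1 1 234 (.leaf 56) (.bis 4 5 1 2 235 (.bis 1 5 1 2 445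
  (.leaf 8) (.leaf 8)) (.leaf 8))) (.bis 4 5 1 2 235 (.bis 0 2 1 2 275 (.bis 2 3 2 1 276 (.leaf
  8) (.bis 1 2 1 2 458 (.leaf 7) (.leaf 8))) (.leaf 8)) (.bis 0 2 1 2 275 (.bis 2 3 2 1 276
  (.leaf 8) (.bis 1 2 1 2 458 (.leaf 58) (.leaf 8))) (.leaf 8)))) (.bis 0 4 2 1 277 (.bis 4 5 1 2
  235 (.bis 2 6 2 1 275 (.leaf 3) (.bis 2 3 2 1 276 (.leaf 3) (.bis 1 2 1 2 458 (.leaf 7) (.leaf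
  3)))) (.bis 2 6 2 1 275 (.leaf 8) (.bis 2 3 2 1 276 (.leaf 8) (.bis 1 2 1 2 458 (.leaf 58)
  (.leaf 8))))) (.bis 0 1 2 1 459 (.bis 2 6 2 1 275 (.leaf 3) (.bis 2 3 2 1 276 (.leaf 3) (.bis 1
  2 1 2 458 (.leaf 7) (.leaf 3)))) (.bis 2 6 2 1 275 (.bis 0 3 2 1 279 (.leaf 3) (.leaf 13))
  (.bis 0 3 2 1 279 (.bis 2 3 2 1 276 (.leaf 3) (.bis 0 2 1 4 280 (.leaf 7) (.leaf 3))) (.bis 0 2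
  1 1 281 (.bis 2 3 4 1 280 (.leaf 3) (.leaf 7)) (.leaf 13))))))) (.bis 0 4 2 1 277 (.bis 1 5 1 1
  443 (.bis 4 5 1 2 235 (.bis 2 3 2 1 276 (.leaf 3) (.bis 2 6 2 1 458 (.leaf 3) (.leaf 7))) (.bis
  2 3 2 1 276 (.leaf 8) (.bis 2 6 2 1 458 (.leaf 8) (.leaf 58)))) (.bis 1 2 1 1 460 (.bis 2 3 2 1
  276 (.leaf 34) (.bis 2 6 2 1 458 (.leaf 34) (.leaf 58))) (.bis 1 4 2 1 192 (.leaf 34) (.leaf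
  14)))) (.bis 0 1 1 1 461 (.bis 1 5 1 1 443 (.bis 2 3 2 1 276 (.leaf 3) (.bis 2 6 2 1 458 (.leaf
  3) (.leaf 7))) (.bis 1 2 1 1 460 (.bis 2 3 2 1 276 (.leaf 14) (.bis 2 6 2 1 458 (.leaf 14)
  (.leaf 7))) (.leaf 14))) (.bis 0 6 2 1 459 (.bis 2 3 2 1 276 (.leaf 3) (.bis 2 6 2 1 458 (.leaf
  3) (.leaf 7))) (.bis 0 3 2 1 279 (.bis 2 3 2 1 276 (.leaf 3) (.bis 0 2 1 4 280 (.leaf 7) (.leaf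
  3))) (.bis 0 2 1 1 281 (.bis 2 3 4 1 280 (.leaf 3) (.leaf 7)) (.leaf 13))))))) (.bis 3 4 2 1
  153 (.bis 0 4 2 1 277 (.bis 1 5 1 1 443 (.bis 4 5 1 2 235 (.bis 2 6 2 1 276 (.leaf 3) (.leaf
  7)) (.bis 2 6 2 1 276 (.leaf 8) (.bis 2 4 2 1 282 (.leaf 8) (.leaf 7)))) (.bis 1 2 1 1 460
  (.bis 2 6 2 1 276 (.leaf 34) (.leaf 58)) (.bis 1 4 2 1 192 (.leaf 34) (.leaf 14)))) (.bis 0 1 1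
  1 461 (.bis 1 5 1 1 443 (.bis 2 6 2 1 276 (.leaf 3) (.leaf 7)) (.bis 1 2 1 1 460 (.bis 2 6 2 1
  276 (.leaf 7) (.leaf 7)) (.leaf 14))) (.bis 0 3 4 1 283 (.bis 2 6 2 1 276 (.leaf 3) (.leaf 7))
  (.bis 0 6 2 1 279 (.bis 2 6 2 1 276 (.leaf 3) (.bis 0 2 1 4 280 (.leaf 7) (.leaf 3))) (.bis 0 2
  1 1 281 (.bis 2 6 4 1 280 (.leaf 3) (.leaf 7)) (.leaf 13)))))) (.bis 0 1 1 1 461 (.bis 3 5 1 1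
  246 (.bis 1 5 1 1 443 (.bis 2 6 2 1 276 (.leaf 3) (.bis 4 5 1 4 284 (.leaf 7) (.bis 0 2 1 2 462
  (.leaf 7) (.leaf 3)))) (.bis 1 2 1 1 460 (.bis 2 6 2 1 276 (.leaf 7) (.leaf 7)) (.leaf 14)))
  (.bis 2 3 1 1 286 (.bis 1 6 2 1 188 (.bis 3 6 2 1 146 (.leaf 30) (.leaf 21)) (.leaf 30)) (.bis
  1 2 1 1 460 (.bis 2 6 2 1 276 (.leaf 7) (.leaf 7)) (.leaf 30)))) (.bis 3 5 1 1 246 (.bis 0 4 4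
  1 283 (.bis 2 6 2 1 276 (.leaf 3) (.bis 4 5 1 4 284 (.bis 1 2 1 2 462 (.leaf 7) (.leaf 3))
  (.bis 1 2 1 2 462 (.leaf 7) (.leaf 3)))) (.bis 0 6 2 1 279 (.bis 2 6 2 1 276 (.leaf 3) (.bis 0
  2 1 4 280 (.leaf 7) (.leaf 3))) (.bis 0 2 1 1 281 (.bis 2 6 4 1 280 (.leaf 3) (.leaf 7)) (.leaf
  13)))) (.bis 0 3 1 1 289 (.bis 2 3 1 1 286 (.leaf 30) (.bis 2 6 2 1 276 (.leaf 7) (.bis 0 2 1 2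
  290 (.leaf 7) (.leaf 7)))) (.bis 0 4 4 1 283 (.bis 2 6 2 1 276 (.leaf 3) (.bis 2 3 2 1 290
  (.leaf 3) (.leaf 7))) (.bis 0 6 2 1 279 (.bis 2 6 2 1 276 (.leaf 3) (.bis 2 3 2 1 290 (.leaf 3)
  (.bis 0 2 1 4 280 (.leaf 7) (.leaf 3)))) (.bis 0 2 1 1 281 (.bis 2 3 2 1 290 (.leaf 3) (.bis 2
  6 4 1 280 (.leaf 3) (.leaf 7))) (.leaf 13))))))))) (.bis 0 4 1 2 291 (.bis 3 4 1 2 151 (.bis 4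
  5 2 1 247 (.bis 1 5 1 1 443 (.bis 3 5 1 2 251 (.bis 5 6 2 1 235 (.leaf 58) (.leaf 58)) (.leaf
  77)) (.bis 1 2 1 1 460 (.bis 2 6 2 1 282 (.leaf 34) (.leaf 77)) (.bis 1 6 2 1 192 (.leaf 34)
  (.leaf 14)))) (.bis 2 4 1 2 293 (.bis 1 4 1 2 193 (.bis 4 6 4 1 28 (.leaf 77) (.bis 0 4 1 4 294
  (.bis 3 4 1 4 152 (.bis 4 5 4 1 249 (.leaf 32) (.leaf 32)) (.leaf 32)) (.leaf 32))) (.bis 1 6 2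
  1 192 (.leaf 77) (.leaf 66))) (.bis 1 2 1 1 460 (.leaf 77) (.bis 1 6 2 1 192 (.leaf 77) (.leaf
  66))))) (.bis 3 6 2 1 153 (.bis 1 5 1 1 443 (.bis 4 5 1 2 251 (.bis 5 6 2 1 235 (.leaf 58)
  (.leaf 29)) (.bis 2 6 2 1 282 (.leaf 34) (.leaf 77))) (.bis 1 2 1 1 460 (.bis 2 6 2 1 282
  (.leaf 34) (.leaf 77)) (.bis 1 6 2 1 192 (.leaf 34) (.leaf 14)))) (.bis 3 5 1 1 246 (.bis 1 5 1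
  1 443 (.bis 4 5 1 2 251 (.leaf 29) (.leaf 119)) (.bis 1 2 1 1 460 (.leaf 119) (.leaf 14)))
  (.bis 2 3 1 1 286 (.bis 0 3 1 2 295 (.leaf 117) (.leaf 106)) (.bis 1 2 1 1 460 (.leaf 46)
  (.leaf 106)))))) (.bis 3 6 2 1 153 (.bis 0 6 2 1 277 (.bis 1 5 1 1 443 (.leaf 58) (.bis 1 2 1 1
  460 (.leaf 58) (.bis 1 6 2 1 192 (.leaf 34) (.leaf 14)))) (.bis 0 1 1 1 461 (.bis 1 5 1 1 443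
  (.leaf 29) (.bis 1 2 1 1 460 (.leaf 29) (.leaf 14))) (.bis 0 3 4 1 283 (.leaf 29) (.bis 0 2 1 1
  281 (.leaf 29) (.leaf 35))))) (.bis 0 1 1 1 461 (.bis 3 5 1 1 246 (.bis 1 5 1 1 443 (.leaf 29)
  (.bis 1 2 1 1 460 (.leaf 29) (.leaf 14))) (.bis 2 3 1 1 286 (.bis 3 4 2 1 295 (.leaf 106)
  (.leaf 30)) (.bis 1 2 1 1 460 (.leaf 29) (.leaf 106)))) (.bis 3 5 1 1 246 (.bis 0 6 4 1 283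
  (.leaf 29) (.bis 0 2 1 1 281 (.leaf 29) (.leaf 35))) (.bis 0 3 1 1 289 (.bis 2 3 1 1 286 (.bis
  3 4 2 1 295 (.leaf 29) (.leaf 21)) (.bis 0 2 1 2 290 (.leaf 29) (.leaf 29))) (.bis 0 6 4 1 283
  (.bis 2 3 2 1 290 (.leaf 3) (.leaf 29)) (.bis 0 2 1 1 281 (.bis 2 3 2 1 290 (.leaf 3) (.leaf
  29)) (.leaf 35))))))))) (.bis 1 6 2 1 210 (.bis 3 6 1 1 141 (.bis 4 6 1 1 186 (.bis 0 6 1 1 272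
  (.bis 2 6 1 1 273 (.bis 5 6 1 1 234 (.leaf 125) (.bis 1 5 1 2 451 (.bis 4 5 1 2 445 (.leaf 8)
  (.leaf 8)) (.leaf 63))) (.bis 1 2 1 2 463 (.bis 0 2 1 2 275 (.bis 2 3 2 1 276 (.leaf 8) (.bis 2
  4 2 1 458 (.leaf 8) (.leaf 7))) (.leaf 8)) (.bis 1 5 1 2 451 (.leaf 8) (.leaf 63)))) (.bis 1 2
  1 2 463 (.bis 0 4 2 1 459 (.bis 2 6 2 1 275 (.leaf 3) (.bis 2 3 2 1 276 (.leaf 3) (.bis 2 4 2 1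
  458 (.leaf 3) (.leaf 7)))) (.bis 2 6 2 1 275 (.bis 0 3 2 1 279 (.leaf 3) (.leaf 13)) (.bis 0 3
  2 1 279 (.bis 2 3 2 1 276 (.leaf 3) (.bis 0 2 1 4 280 (.leaf 7) (.leaf 3))) (.bis 0 2 1 1 281
  (.bis 2 3 4 1 280 (.leaf 3) (.leaf 7)) (.leaf 13))))) (.bis 0 4 2 1 459 (.bis 1 5 1 2 451
  (.leaf 3) (.leaf 63)) (.bis 0 1 2 1 464 (.bis 1 5 1 2 451 (.leaf 3) (.leaf 63)) (.bis 0 3 2 1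
  279 (.leaf 3) (.leaf 13)))))) (.bis 1 2 1 2 463 (.bis 0 4 1 1 461 (.bis 4 5 1 1 443 (.bis 2 3 2
  1 276 (.leaf 3) (.bis 2 6 2 1 458 (.leaf 3) (.leaf 7))) (.bis 2 4 1 1 460 (.leaf 14) (.bis 2 3
  2 1 276 (.leaf 14) (.bis 2 6 2 1 458 (.leaf 14) (.leaf 7))))) (.bis 0 6 2 1 459 (.bis 2 3 2 1
  276 (.leaf 3) (.bis 2 6 2 1 458 (.leaf 3) (.leaf 7))) (.bis 0 3 2 1 279 (.bis 2 3 2 1 276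
  (.leaf 3) (.bis 0 2 1 4 280 (.leaf 7) (.leaf 3))) (.bis 0 2 1 1 281 (.bis 2 3 4 1 280 (.leaf 3)
  (.leaf 7)) (.leaf 13))))) (.bis 0 4 1 1 461 (.bis 4 5 1 1 443 (.bis 1 5 1 2 451 (.leaf 3)
  (.leaf 63)) (.bis 3 4 1 2 188 (.leaf 9) (.leaf 63))) (.bis 0 6 2 1 459 (.bis 1 5 1 2 451 (.leaf
  3) (.leaf 63)) (.bis 0 1 2 1 464 (.bis 1 5 1 2 451 (.leaf 3) (.leaf 23)) (.leaf 13)))))) (.bis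
  1 2 1 2 463 (.bis 0 4 1 1 461 (.bis 3 5 1 1 246 (.bis 4 5 1 1 443 (.bis 2 6 2 1 276 (.leaf 3)
  (.leaf 7)) (.bis 2 4 1 1 460 (.leaf 14) (.bis 2 6 2 1 276 (.leaf 7) (.leaf 7)))) (.bis 2 3 1 1
  286 (.bis 4 6 2 1 188 (.bis 1 3 1 4 465 (.leaf 30) (.leaf 13)) (.bis 1 3 1 4 465 (.leaf 30)
  (.leaf 30))) (.bis 2 4 1 1 460 (.leaf 30) (.bis 2 6 2 1 276 (.leaf 7) (.leaf 7))))) (.bis 3 5 1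
  1 246 (.bis 0 6 2 1 279 (.bis 2 6 2 1 276 (.leaf 3) (.bis 0 2 1 4 280 (.leaf 7) (.leaf 3)))
  (.bis 0 2 1 1 281 (.bis 2 6 4 1 280 (.leaf 3) (.leaf 7)) (.leaf 13))) (.bis 0 3 1 1 289 (.bis 2
  3 1 1 286 (.bis 1 3 1 4 465 (.leaf 30) (.leaf 7)) (.bis 2 6 2 1 276 (.leaf 7) (.bis 0 2 1 2 290
  (.leaf 7) (.leaf 7)))) (.bis 0 6 2 1 279 (.bis 2 6 2 1 276 (.leaf 3) (.bis 2 3 2 1 290 (.leaf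
  3) (.bis 0 2 1 4 280 (.leaf 7) (.leaf 3)))) (.bis 0 2 1 1 281 (.bis 2 3 2 1 290 (.leaf 3)
  (.leaf 7)) (.leaf 13)))))) (.bis 0 4 1 1 461 (.bis 3 5 1 1 246 (.bis 4 5 1 1 443 (.leaf 63)
  (.bis 4 6 2 1 188 (.leaf 23) (.leaf 9))) (.bis 1 3 1 2 211 (.bis 4 6 2 1 188 (.bis 2 3 1 4 465
  (.leaf 30) (.leaf 23)) (.bis 2 3 1 4 465 (.leaf 30) (.leaf 9))) (.bis 4 6 2 1 188 (.leaf 23)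
  (.leaf 9)))) (.bis 3 5 1 1 246 (.bis 0 1 2 1 464 (.bis 1 5 1 2 451 (.leaf 3) (.leaf 23)) (.bis
  0 6 2 1 279 (.leaf 3) (.leaf 13))) (.bis 0 3 1 1 289 (.bis 1 3 1 2 211 (.bis 2 3 1 4 465 (.leaf
  30) (.leaf 23)) (.leaf 23)) (.bis 0 1 2 1 464 (.leaf 23) (.bis 0 6 2 1 279 (.leaf 3) (.leaf
  13)))))))) (.bis 1 2 2 1 466 (.bis 2 6 2 1 463 (.bis 0 4 1 1 461 (.bis 3 5 1 1 246 (.bis 4 5 1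
  1 443 (.bis 5 6 2 1 451 (.leaf 9) (.leaf 47)) (.bis 4 6 2 1 212 (.leaf 9) (.leaf 9))) (.bis 3 6
  2 1 211 (.leaf 9) (.bis 2 3 1 4 465 (.leaf 30) (.leaf 9)))) (.bis 3 5 1 1 246 (.bis 0 6 2 1 464
  (.bis 5 6 2 1 451 (.leaf 9) (.leaf 47)) (.leaf 47)) (.bis 0 3 1 1 289 (.bis 3 6 2 1 211 (.leaf
  9) (.leaf 30)) (.bis 0 6 2 1 464 (.leaf 9) (.leaf 47))))) (.bis 0 4 1 1 461 (.bis 3 5 1 1 246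
  (.bis 4 5 1 1 443 (.bis 1 2 1 2 467 (.leaf 7) (.leaf 47)) (.bis 2 4 1 1 460 (.leaf 30) (.bis 1
  2 1 2 467 (.leaf 7) (.leaf 30)))) (.bis 2 3 1 1 286 (.bis 3 6 4 1 465 (.leaf 30) (.leaf 30))
  (.bis 2 4 1 1 460 (.leaf 30) (.bis 1 2 1 2 467 (.leaf 7) (.leaf 30))))) (.bis 3 5 1 1 246 (.bis
  0 2 1 1 281 (.bis 1 2 1 2 467 (.leaf 7) (.leaf 47)) (.leaf 47)) (.bis 0 3 1 1 289 (.bis 2 3 1 1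
  286 (.bis 3 6 4 1 465 (.leaf 30) (.leaf 30)) (.bis 1 2 1 2 467 (.bis 0 2 1 2 290 (.leaf 7)
  (.leaf 7)) (.leaf 30))) (.bis 0 2 1 1 281 (.bis 1 2 1 2 467 (.bis 2 3 2 1 290 (.leaf 7) (.leaf
  7)) (.leaf 47)) (.leaf 47)))))) (.bis 1 5 2 1 453 (.bis 0 4 1 1 461 (.bis 3 5 1 1 246 (.bis 4 5
  1 1 443 (.bis 5 6 2 1 451 (.leaf 9) (.bis 2 5 1 2 468 (.leaf 47) (.leaf 9))) (.bis 4 6 2 1 212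
  (.leaf 9) (.leaf 9))) (.bis 3 6 2 1 211 (.leaf 9) (.bis 3 4 1 1 189 (.leaf 9) (.leaf 30))))
  (.bis 3 5 1 1 246 (.bis 0 6 2 1 464 (.bis 5 6 2 1 451 (.leaf 9) (.bis 2 5 1 2 468 (.leaf 47)
  (.leaf 9))) (.bis 2 5 1 2 468 (.leaf 47) (.bis 0 2 2 1 469 (.leaf 23) (.leaf 47)))) (.bis 0 3 1
  1 289 (.bis 3 6 2 1 211 (.leaf 9) (.leaf 30)) (.bis 0 6 2 1 464 (.leaf 9) (.bis 0 2 2 1 469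
  (.leaf 23) (.leaf 47)))))) (.bis 0 1 1 2 470 (.bis 1 3 2 1 226 (.bis 3 6 2 1 211 (.bis 4 6 2 1
  212 (.leaf 28) (.leaf 28)) (.bis 0 3 1 2 471 (.bis 3 4 1 1 189 (.leaf 28) (.leaf 80)) (.bis 0 4
  1 2 472 (.leaf 28) (.leaf 28)))) (.bis 1 4 2 1 227 (.bis 4 6 2 1 212 (.leaf 28) (.leaf 28))
  (.bis 1 6 4 1 228 (.bis 3 6 1 1 473 (.leaf 28) (.leaf 28)) (.leaf 100)))) (.bis 0 4 1 1 461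
  (.bis 3 6 2 1 211 (.bis 4 6 2 1 212 (.leaf 28) (.leaf 28)) (.bis 1 3 1 2 471 (.bis 3 4 1 1 189
  (.leaf 9) (.leaf 30)) (.leaf 28))) (.bis 0 3 1 1 289 (.bis 3 6 2 1 211 (.leaf 54) (.bis 1 3 1 2
  471 (.leaf 30) (.leaf 54))) (.bis 0 6 2 1 464 (.leaf 54) (.bis 0 2 2 1 469 (.leaf 54) (.leaf
  70))))))))))

def lc16 : List Vr := [⟨[56,0,85,0,0,0,0], 129307, 0⟩, ⟨[0,73,0,0,0,0,0], 21316, 0⟩, ⟨[0,0,85,0,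
  56,0,0], 129307, 0⟩, ⟨[0,73,0,73,0,0,0], 127896, 0⟩, ⟨[0,0,0,0,56,0,0], 21952, 0⟩, ⟨[0,0,85,0,0,
  42,0], 128523, 0⟩, ⟨[0,0,85,0,0,0,119], 143055, 0⟩]

theorem lk16 : chkTr lowT (leafLow 6 lowB) lt16 lc16 = true := by decide +kernel

def lt17 : Tr ℕ := (.bis 2 6 2 1 331 (.bis 1 6 1 1 475 (.bis 3 6 1 1 141 (.bis 0 6 1 1 272 (.bis
  4 6 1 1 273 (.bis 5 6 1 1 234 (.leaf 120) (.bis 2 3 1 1 332 (.bis 3 5 1 2 334 (.leaf 25) (.leaf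
  25)) (.bis 2 5 1 2 333 (.leaf 25) (.leaf 25)))) (.bis 1 4 1 2 476 (.bis 0 4 1 2 275 (.bis 3 4 1
  2 276 (.bis 2 4 1 2 335 (.leaf 7) (.leaf 25)) (.bis 2 3 1 1 332 (.leaf 7) (.leaf 25))) (.leaf
  25)) (.leaf 25))) (.bis 1 4 1 2 476 (.bis 4 6 2 1 275 (.bis 0 3 2 1 279 (.bis 2 3 1 1 332
  (.leaf 13) (.leaf 25)) (.bis 0 2 2 1 336 (.leaf 25) (.leaf 13))) (.bis 0 3 2 1 279 (.bis 3 4 1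
  2 276 (.bis 2 4 1 2 335 (.leaf 7) (.bis 2 5 1 2 333 (.leaf 7) (.leaf 25))) (.bis 2 3 1 1 332
  (.leaf 7) (.leaf 25))) (.bis 0 4 1 1 281 (.bis 2 4 1 2 335 (.leaf 7) (.bis 0 2 1 1 337 (.leaf
  25) (.leaf 7))) (.bis 0 2 2 1 336 (.bis 2 4 1 1 337 (.leaf 7) (.leaf 25)) (.leaf 13))))) (.bis
  0 3 2 1 279 (.leaf 25) (.bis 0 2 2 1 336 (.leaf 25) (.leaf 13))))) (.bis 2 3 1 2 338 (.bis 3 5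
  1 1 246 (.bis 1 4 1 2 476 (.bis 0 6 2 1 279 (.bis 4 6 2 1 276 (.leaf 3) (.bis 0 4 1 4 280
  (.leaf 7) (.leaf 3))) (.bis 0 4 1 1 281 (.bis 4 6 4 1 280 (.leaf 3) (.leaf 7)) (.leaf 13)))
  (.bis 0 6 2 1 279 (.leaf 13) (.bis 0 1 2 1 477 (.leaf 13) (.leaf 13)))) (.bis 0 3 1 1 289 (.bis
  3 4 1 1 286 (.bis 1 4 1 2 476 (.bis 4 6 2 1 276 (.leaf 7) (.bis 0 4 1 2 290 (.leaf 7) (.leaf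
  7))) (.leaf 13)) (.bis 1 3 1 2 478 (.leaf 30) (.leaf 13))) (.bis 1 4 1 2 476 (.bis 0 6 2 1 279
  (.bis 4 6 2 1 276 (.leaf 3) (.bis 3 4 1 2 290 (.leaf 7) (.leaf 3))) (.bis 0 4 1 1 281 (.bis 3 4
  1 2 290 (.leaf 7) (.leaf 3)) (.leaf 13))) (.bis 0 6 2 1 279 (.leaf 13) (.bis 0 1 2 1 477 (.leaf
  13) (.leaf 13)))))) (.bis 1 4 1 2 476 (.bis 0 6 2 1 279 (.bis 4 6 2 1 276 (.bis 2 6 1 1 332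
  (.leaf 7) (.bis 2 5 1 2 333 (.leaf 7) (.leaf 25))) (.bis 2 4 1 2 335 (.leaf 7) (.bis 2 5 1 2
  333 (.leaf 7) (.leaf 25)))) (.bis 0 4 1 1 281 (.bis 2 4 1 2 335 (.leaf 7) (.bis 0 2 1 1 337
  (.leaf 25) (.leaf 7))) (.bis 0 2 2 1 336 (.bis 2 4 1 1 337 (.leaf 7) (.leaf 25)) (.leaf 13))))
  (.bis 0 6 2 1 279 (.bis 2 6 1 1 332 (.leaf 13) (.leaf 25)) (.bis 0 2 2 1 336 (.leaf 25) (.bis 0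
  1 2 1 477 (.leaf 13) (.leaf 13))))))) (.bis 2 3 1 2 338 (.bis 1 4 1 1 479 (.bis 3 5 1 1 246
  (.bis 4 6 2 1 476 (.bis 0 6 2 1 477 (.leaf 13) (.bis 0 2 4 1 480 (.leaf 7) (.leaf 13))) (.bis 0
  4 1 1 281 (.leaf 7) (.bis 0 2 4 1 480 (.leaf 7) (.leaf 13)))) (.bis 0 3 1 1 289 (.bis 3 4 1 1
  286 (.bis 4 6 2 1 476 (.leaf 13) (.bis 0 4 1 2 290 (.leaf 7) (.leaf 7))) (.bis 3 6 2 1 478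
  (.bis 4 6 1 1 481 (.leaf 13) (.leaf 7)) (.bis 1 3 1 2 482 (.leaf 30) (.leaf 13)))) (.bis 4 6 2
  1 476 (.bis 0 6 2 1 477 (.leaf 13) (.leaf 13)) (.bis 0 4 1 1 281 (.leaf 7) (.leaf 13))))) (.bis
  3 5 1 1 246 (.bis 1 5 1 1 483 (.bis 0 6 2 1 477 (.leaf 13) (.leaf 13)) (.bis 0 1 1 1 484 (.bis
  1 3 2 1 485 (.leaf 13) (.bis 1 6 2 1 486 (.leaf 13) (.bis 1 2 4 1 487 (.leaf 13) (.leaf 44))))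
  (.leaf 13))) (.bis 0 3 1 1 289 (.bis 3 6 2 1 478 (.bis 1 5 2 1 485 (.leaf 13) (.bis 1 6 2 1 486
  (.leaf 13) (.bis 1 2 4 1 487 (.leaf 13) (.bis 0 1 1 2 488 (.leaf 44) (.leaf 13))))) (.bis 1 3 1
  1 489 (.bis 3 4 2 1 482 (.leaf 23) (.leaf 81)) (.bis 1 5 2 1 485 (.leaf 23) (.bis 1 2 4 1 487
  (.leaf 23) (.bis 0 1 1 2 488 (.leaf 44) (.leaf 23)))))) (.bis 0 1 1 1 484 (.bis 1 5 2 1 485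
  (.bis 3 6 1 1 490 (.leaf 13) (.leaf 13)) (.bis 1 6 2 1 486 (.leaf 13) (.bis 1 2 4 1 487 (.leaf
  13) (.leaf 44)))) (.bis 0 6 2 1 477 (.leaf 13) (.leaf 13)))))) (.bis 1 4 1 1 479 (.bis 4 6 2 1
  476 (.bis 0 2 2 1 336 (.leaf 42) (.bis 0 6 2 1 477 (.leaf 13) (.leaf 13))) (.bis 0 4 1 1 281
  (.bis 2 4 1 2 335 (.leaf 7) (.bis 1 2 1 1 491 (.leaf 25) (.leaf 7))) (.bis 0 2 2 1 336 (.bis 1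
  2 1 1 491 (.leaf 25) (.leaf 7)) (.leaf 13)))) (.bis 1 2 2 1 492 (.bis 0 2 2 1 336 (.leaf 42)
  (.bis 0 6 2 1 477 (.leaf 42) (.leaf 78))) (.bis 1 5 1 1 483 (.bis 0 6 2 1 477 (.leaf 42) (.leaf
  78)) (.bis 0 1 1 1 484 (.bis 1 6 2 1 486 (.leaf 23) (.bis 1 3 4 1 487 (.leaf 23) (.leaf 44)))
  (.bis 0 6 2 1 477 (.leaf 23) (.leaf 78)))))))) (.bis 2 3 2 1 344 (.bis 3 6 2 1 338 (.bis 1 4 1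
  1 479 (.bis 0 4 1 1 281 (.bis 4 6 2 1 335 (.bis 2 6 1 1 346 (.bis 1 6 1 1 491 (.leaf 25) (.leaf
  42)) (.bis 2 5 1 2 347 (.leaf 42) (.leaf 57))) (.bis 2 5 1 2 347 (.leaf 7) (.bis 2 4 1 2 351
  (.leaf 7) (.leaf 57)))) (.bis 0 6 2 1 336 (.bis 2 6 1 1 346 (.bis 1 6 1 1 491 (.leaf 25) (.leaf
  42)) (.bis 2 5 1 2 347 (.leaf 42) (.leaf 57))) (.bis 2 5 1 2 347 (.leaf 13) (.bis 0 2 2 1 362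
  (.leaf 57) (.leaf 13))))) (.bis 1 6 2 1 492 (.bis 0 6 2 1 336 (.bis 2 6 1 1 346 (.leaf 42)
  (.bis 2 5 1 2 347 (.leaf 42) (.leaf 57))) (.bis 2 5 1 2 347 (.leaf 78) (.bis 0 2 2 1 362 (.leaf
  57) (.leaf 78)))) (.bis 1 5 1 1 483 (.bis 2 5 1 2 347 (.bis 0 3 4 1 480 (.leaf 42) (.leaf 78))
  (.bis 0 2 2 1 362 (.leaf 44) (.bis 0 3 4 1 480 (.leaf 23) (.leaf 78)))) (.bis 0 1 1 1 484 (.bis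
  1 3 4 1 487 (.leaf 44) (.leaf 44)) (.bis 0 2 2 1 362 (.leaf 44) (.leaf 78)))))) (.bis 1 4 1 1
  479 (.bis 3 5 1 1 246 (.bis 0 4 1 1 281 (.bis 2 5 1 2 347 (.leaf 7) (.bis 2 4 1 2 351 (.leaf 7)
  (.leaf 57))) (.bis 2 5 1 2 347 (.leaf 13) (.bis 0 2 2 1 362 (.leaf 57) (.leaf 13)))) (.bis 0 3
  1 1 289 (.bis 3 4 1 1 286 (.bis 0 4 1 2 290 (.bis 2 4 1 2 351 (.leaf 7) (.leaf 57)) (.leaf 57))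
  (.bis 1 3 1 2 482 (.bis 2 3 1 2 421 (.leaf 81) (.leaf 81)) (.leaf 57))) (.bis 0 4 1 1 281 (.bis
  3 4 1 2 290 (.bis 2 4 1 2 351 (.leaf 7) (.leaf 57)) (.leaf 57)) (.bis 0 2 2 1 362 (.leaf 57)
  (.leaf 13))))) (.bis 3 5 1 1 246 (.bis 1 5 1 1 483 (.bis 2 5 1 2 347 (.bis 0 6 4 1 480 (.leaf
  7) (.leaf 13)) (.bis 0 2 2 1 362 (.leaf 44) (.leaf 13))) (.bis 0 1 1 1 484 (.bis 1 3 2 1 485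
  (.leaf 44) (.bis 1 6 4 1 487 (.leaf 44) (.leaf 44))) (.bis 0 2 2 1 362 (.leaf 44) (.leaf 13))))
  (.bis 0 3 1 1 289 (.bis 1 3 1 1 489 (.leaf 126) (.bis 1 5 2 1 485 (.leaf 44) (.bis 1 6 4 1 487
  (.leaf 44) (.bis 0 1 1 2 488 (.leaf 44) (.leaf 44))))) (.bis 0 1 1 1 484 (.bis 1 5 2 1 485
  (.leaf 44) (.bis 1 6 4 1 487 (.leaf 44) (.leaf 44))) (.bis 0 2 2 1 362 (.leaf 44) (.leaf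
  13))))))) (.bis 2 5 2 1 345 (.bis 1 4 1 1 479 (.bis 0 4 1 1 281 (.bis 4 6 2 1 335 (.bis 3 6 1 1
  346 (.bis 1 6 1 1 491 (.bis 0 6 1 1 337 (.bis 5 6 2 1 333 (.bis 2 6 1 1 355 (.leaf 25) (.leaf
  42)) (.leaf 42)) (.bis 3 5 1 4 356 (.bis 0 2 1 1 357 (.leaf 42) (.leaf 7)) (.bis 0 2 1 1 357
  (.leaf 6) (.leaf 6)))) (.bis 3 5 1 4 356 (.bis 1 5 1 2 493 (.bis 0 2 1 1 357 (.leaf 42) (.leaf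
  7)) (.bis 0 2 1 1 357 (.leaf 6) (.leaf 6))) (.bis 0 2 1 1 357 (.leaf 6) (.leaf 6)))) (.bis 3 5
  1 2 347 (.bis 5 6 4 1 356 (.leaf 6) (.bis 1 5 1 2 493 (.bis 0 2 1 1 357 (.leaf 42) (.leaf 7))
  (.bis 0 2 1 1 357 (.leaf 6) (.leaf 6)))) (.bis 3 4 2 1 348 (.bis 0 2 1 1 357 (.leaf 6) (.leaf
  6)) (.bis 0 3 1 1 359 (.bis 2 3 1 1 349 (.leaf 6) (.leaf 6)) (.bis 0 2 1 1 357 (.leaf 6) (.leaf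
  6)))))) (.bis 3 5 1 2 347 (.bis 2 4 1 2 350 (.leaf 7) (.bis 1 5 1 2 493 (.bis 0 2 1 1 357
  (.leaf 42) (.leaf 7)) (.bis 0 2 1 1 357 (.leaf 6) (.leaf 6)))) (.bis 3 4 1 2 351 (.bis 2 4 1 2
  350 (.leaf 7) (.bis 0 2 1 1 357 (.leaf 6) (.leaf 6))) (.bis 3 6 2 1 348 (.bis 0 2 1 1 357 (.bis
  1 2 1 1 494 (.leaf 6) (.leaf 6)) (.leaf 6)) (.bis 0 3 1 1 359 (.bis 2 3 1 1 349 (.leaf 6) (.bis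
  1 2 1 1 494 (.leaf 6) (.leaf 6))) (.bis 0 2 1 1 357 (.bis 1 2 1 1 494 (.leaf 6) (.leaf 6))
  (.leaf 6))))))) (.bis 0 6 2 1 336 (.bis 3 6 1 1 346 (.bis 1 6 1 1 491 (.bis 4 6 1 1 337 (.bis 5
  6 2 1 333 (.bis 2 6 1 1 355 (.leaf 25) (.leaf 42)) (.leaf 42)) (.bis 3 5 1 4 356 (.bis 2 4 1 1
  357 (.leaf 7) (.leaf 42)) (.bis 2 4 1 1 357 (.leaf 6) (.leaf 6)))) (.bis 3 5 1 4 356 (.bis 1 5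
  1 2 493 (.bis 2 4 1 1 357 (.leaf 7) (.leaf 42)) (.bis 2 4 1 1 357 (.leaf 6) (.leaf 6))) (.leaf
  6))) (.bis 3 5 1 2 347 (.leaf 42) (.bis 0 3 1 2 360 (.bis 3 4 1 1 359 (.bis 2 4 1 1 357 (.leaf
  6) (.leaf 6)) (.bis 2 3 1 1 349 (.leaf 6) (.leaf 6))) (.bis 2 4 1 1 357 (.leaf 6) (.leaf 6)))))
  (.bis 3 5 1 2 347 (.bis 0 2 2 1 361 (.bis 1 5 1 2 493 (.bis 2 4 1 1 357 (.leaf 35) (.leaf 42))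
  (.bis 2 4 1 1 357 (.leaf 6) (.leaf 6))) (.leaf 13)) (.bis 0 3 2 1 362 (.bis 3 6 2 1 360 (.bis 2
  4 1 1 357 (.leaf 6) (.leaf 6)) (.bis 3 4 1 1 359 (.bis 2 4 1 1 357 (.leaf 6) (.bis 1 2 1 1 494
  (.leaf 6) (.leaf 6))) (.bis 2 3 1 1 349 (.leaf 6) (.bis 1 2 1 1 494 (.leaf 6) (.leaf 6)))))
  (.bis 0 2 2 1 361 (.bis 2 4 1 1 357 (.leaf 6) (.leaf 6)) (.leaf 13)))))) (.bis 1 6 2 1 492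
  (.bis 0 6 2 1 336 (.bis 3 6 1 1 346 (.leaf 42) (.bis 3 5 1 2 347 (.leaf 42) (.bis 0 3 1 2 360
  (.bis 2 3 1 1 349 (.leaf 6) (.leaf 6)) (.leaf 6)))) (.bis 3 5 1 2 347 (.bis 0 2 2 1 361 (.leaf
  42) (.leaf 78)) (.bis 0 3 2 1 362 (.bis 3 6 2 1 360 (.bis 2 4 1 1 494 (.leaf 6) (.leaf 6))
  (.bis 2 3 1 1 349 (.leaf 6) (.leaf 6))) (.bis 0 2 2 1 361 (.leaf 6) (.leaf 78))))) (.bis 1 5 1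
  1 483 (.bis 3 5 1 2 347 (.bis 0 2 2 1 361 (.leaf 42) (.leaf 78)) (.bis 0 3 2 1 362 (.bis 2 3 1
  1 349 (.leaf 6) (.bis 2 4 1 1 494 (.leaf 6) (.leaf 6))) (.bis 0 2 2 1 361 (.bis 2 4 1 1 494
  (.leaf 6) (.leaf 6)) (.leaf 78)))) (.bis 0 1 1 1 484 (.bis 1 2 2 1 495 (.bis 0 2 1 1 496 (.bis
  2 3 1 1 349 (.leaf 6) (.leaf 6)) (.leaf 44)) (.leaf 44)) (.bis 0 3 2 1 362 (.bis 1 2 1 1 496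
  (.bis 2 3 1 1 349 (.leaf 6) (.leaf 6)) (.leaf 44)) (.bis 0 2 2 1 361 (.bis 1 2 1 1 496 (.bis 2
  4 1 1 494 (.leaf 6) (.leaf 6)) (.leaf 57)) (.leaf 78))))))) (.bis 0 2 1 2 363 (.bis 2 4 2 1 364
  (.bis 1 4 1 1 479 (.bis 4 6 2 1 335 (.bis 3 6 1 1 346 (.bis 1 6 1 1 491 (.bis 0 6 1 1 365 (.bis
  2 6 1 1 366 (.leaf 42) (.bis 4 5 1 2 497 (.bis 2 3 2 1 378 (.leaf 6) (.leaf 17)) (.bis 2 3 2 1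
  378 (.leaf 6) (.leaf 101)))) (.bis 0 4 2 1 368 (.bis 4 5 1 2 497 (.leaf 17) (.bis 2 3 2 1 378
  (.leaf 6) (.leaf 101))) (.bis 0 1 2 1 498 (.bis 2 3 2 1 378 (.leaf 6) (.leaf 17)) (.bis 0 3 2 1
  377 (.bis 2 3 2 1 378 (.leaf 6) (.leaf 17)) (.bis 2 6 2 1 380 (.leaf 6) (.leaf 17)))))) (.bis 0
  4 2 1 368 (.leaf 55) (.bis 0 1 1 1 499 (.leaf 55) (.leaf 17)))) (.bis 3 4 2 1 348 (.bis 0 4 2 1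
  368 (.leaf 55) (.bis 0 1 1 1 499 (.leaf 55) (.leaf 17))) (.bis 0 1 1 1 499 (.leaf 55) (.leaf
  17)))) (.bis 0 4 1 2 372 (.bis 3 4 1 2 351 (.bis 4 5 2 1 350 (.leaf 55) (.leaf 99)) (.bis 3 6 2
  1 348 (.bis 1 5 1 1 494 (.leaf 55) (.leaf 55)) (.bis 3 5 1 1 349 (.leaf 55) (.leaf 55)))) (.bis
  3 6 2 1 348 (.bis 0 6 2 1 368 (.leaf 55) (.bis 0 1 1 1 499 (.leaf 55) (.leaf 17))) (.bis 0 1 1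
  1 499 (.leaf 55) (.leaf 17))))) (.bis 1 6 2 1 492 (.bis 3 6 1 1 346 (.bis 4 6 1 1 491 (.bis 0 6
  1 1 365 (.bis 2 6 1 1 366 (.leaf 42) (.bis 1 2 1 2 500 (.bis 2 3 2 1 378 (.leaf 6) (.leaf 17))
  (.leaf 6))) (.bis 1 2 1 2 500 (.bis 0 4 2 1 498 (.bis 2 3 2 1 378 (.leaf 6) (.leaf 17)) (.leaf
  17)) (.bis 0 4 2 1 498 (.leaf 6) (.leaf 6)))) (.bis 1 2 1 2 500 (.bis 0 4 1 1 499 (.leaf 55)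
  (.leaf 17)) (.bis 0 4 1 1 499 (.leaf 6) (.leaf 6)))) (.bis 1 2 1 2 500 (.bis 0 4 1 1 499 (.leaf
  55) (.leaf 17)) (.bis 0 4 1 1 499 (.bis 3 5 1 1 349 (.leaf 6) (.leaf 6)) (.leaf 6)))) (.bis 1 2
  2 1 501 (.bis 2 6 2 1 500 (.bis 0 4 1 1 499 (.bis 3 5 1 1 349 (.leaf 6) (.leaf 6)) (.leaf 6))
  (.bis 0 4 1 1 499 (.leaf 101) (.leaf 17))) (.bis 1 5 2 1 495 (.bis 0 4 1 1 499 (.bis 3 5 1 1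
  349 (.leaf 6) (.leaf 6)) (.leaf 6)) (.bis 0 1 1 2 502 (.leaf 44) (.bis 0 4 1 1 499 (.leaf 44)
  (.leaf 89))))))) (.bis 1 2 1 2 503 (.bis 2 6 4 1 388 (.bis 1 6 1 1 504 (.bis 3 6 1 1 346 (.bis
  0 6 1 1 365 (.bis 4 6 1 1 366 (.leaf 123) (.bis 3 4 1 2 378 (.leaf 60) (.leaf 60))) (.bis 0 3 2
  1 377 (.bis 3 4 1 2 378 (.bis 1 4 1 2 505 (.leaf 60) (.leaf 60)) (.leaf 60)) (.bis 1 4 1 2 505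
  (.leaf 60) (.leaf 60)))) (.bis 2 3 1 2 392 (.bis 3 5 1 1 349 (.leaf 17) (.bis 0 3 1 1 371 (.bis
  3 4 1 1 370 (.bis 4 6 2 1 378 (.leaf 6) (.leaf 17)) (.leaf 6)) (.bis 0 6 2 1 377 (.bis 4 6 2 1
  378 (.leaf 6) (.leaf 17)) (.bis 1 4 1 2 505 (.leaf 17) (.leaf 6))))) (.bis 0 6 2 1 377 (.bis 4
  6 2 1 378 (.leaf 60) (.leaf 60)) (.bis 1 4 1 2 505 (.bis 0 4 1 1 389 (.bis 2 4 1 2 390 (.leaf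
  17) (.leaf 27)) (.bis 0 2 2 1 391 (.leaf 27) (.leaf 17))) (.leaf 27))))) (.bis 2 3 1 2 392
  (.bis 1 4 1 1 506 (.bis 3 5 1 1 349 (.leaf 17) (.leaf 17)) (.bis 3 5 1 1 349 (.bis 1 5 1 1 507
  (.leaf 17) (.bis 1 6 2 1 508 (.leaf 27) (.leaf 38))) (.bis 0 3 1 1 371 (.bis 3 6 2 1 509 (.bis
  1 6 2 1 508 (.leaf 27) (.bis 1 5 2 1 510 (.leaf 27) (.leaf 38))) (.bis 1 3 1 1 511 (.leaf 17)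
  (.bis 1 5 2 1 510 (.leaf 17) (.leaf 38)))) (.bis 1 6 2 1 508 (.leaf 27) (.bis 1 5 2 1 510
  (.leaf 27) (.leaf 38)))))) (.bis 1 4 1 1 506 (.leaf 60) (.bis 1 2 2 1 512 (.leaf 27) (.bis 1 5
  1 1 507 (.leaf 27) (.leaf 38)))))) (.bis 2 3 4 1 394 (.bis 3 6 2 1 392 (.bis 1 4 1 1 506 (.bis
  0 4 1 1 389 (.bis 4 6 2 1 390 (.bis 2 6 1 1 401 (.leaf 27) (.leaf 17)) (.leaf 17)) (.bis 0 6 2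
  1 391 (.bis 2 6 1 1 401 (.leaf 27) (.leaf 17)) (.leaf 17))) (.bis 1 6 2 1 512 (.bis 0 6 2 1 391
  (.leaf 27) (.leaf 27)) (.bis 1 5 1 1 507 (.leaf 27) (.leaf 38)))) (.bis 1 4 1 1 506 (.leaf 17)
  (.bis 3 5 1 1 349 (.bis 1 5 1 1 507 (.leaf 17) (.leaf 38)) (.bis 0 3 1 1 371 (.bis 1 3 1 1 511
  (.leaf 17) (.leaf 38)) (.bis 1 5 2 1 510 (.leaf 17) (.leaf 38)))))) (.bis 2 5 4 1 395 (.bis 1 4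
  1 1 506 (.bis 0 4 1 1 389 (.bis 4 6 2 1 390 (.bis 3 6 1 1 401 (.leaf 27) (.leaf 27)) (.bis 3 5
  1 2 402 (.bis 2 4 1 2 398 (.leaf 40) (.leaf 27)) (.bis 3 4 1 2 397 (.bis 2 4 1 2 398 (.leaf 40)
  (.leaf 27)) (.leaf 27)))) (.bis 0 6 2 1 391 (.bis 3 6 1 1 401 (.leaf 27) (.leaf 27)) (.bis 3 5
  1 2 402 (.bis 0 2 2 1 403 (.leaf 27) (.leaf 27)) (.bis 0 3 2 1 404 (.leaf 27) (.bis 0 2 2 1 403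
  (.leaf 27) (.leaf 27)))))) (.bis 1 6 2 1 512 (.leaf 27) (.bis 1 5 1 1 507 (.leaf 27) (.bis 0 1
  1 1 513 (.bis 1 2 2 1 514 (.bis 0 2 1 1 515 (.leaf 27) (.leaf 27)) (.leaf 38)) (.bis 0 3 2 1
  404 (.bis 1 2 1 1 515 (.leaf 27) (.leaf 27)) (.bis 0 2 2 1 403 (.bis 1 2 1 1 515 (.leaf 27)
  (.leaf 27)) (.leaf 27))))))) (.bis 0 2 1 4 405 (.bis 2 4 4 1 406 (.bis 1 4 1 1 506 (.bis 0 4 1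
  2 407 (.bis 4 6 2 1 390 (.bis 3 6 1 1 401 (.leaf 53) (.leaf 53)) (.leaf 88)) (.bis 3 6 1 1 401
  (.bis 1 6 1 1 516 (.leaf 53) (.leaf 53)) (.leaf 53))) (.bis 1 6 2 1 512 (.bis 3 6 1 1 401
  (.leaf 53) (.leaf 53)) (.bis 1 2 2 1 517 (.leaf 53) (.leaf 103)))) (.bis 1 2 1 4 518 (.bis 2 6
  8 1 411 (.bis 1 6 1 1 519 (.bis 3 6 1 1 401 (.leaf 53) (.leaf 53)) (.leaf 94)) (.bis 2 3 8 1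
  412 (.leaf 94) (.bis 2 5 8 1 413 (.leaf 94) (.bis 0 2 1 8 414 (.bis 2 4 8 1 415 (.leaf 94)
  (.bis 1 2 1 8 520 (.bis 2 6 16 1 417 (.leaf 105) (.leaf 105)) (.leaf 150))) (.leaf 94)))))
  (.bis 1 6 2 1 512 (.bis 2 6 1 1 519 (.leaf 53) (.leaf 94)) (.bis 1 4 2 1 517 (.leaf 94) (.leaf
  151))))) (.bis 1 4 1 1 506 (.bis 2 4 1 2 407 (.bis 0 4 1 1 389 (.bis 4 6 2 1 390 (.bis 3 6 1 1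
  401 (.leaf 27) (.leaf 27)) (.bis 3 4 1 2 397 (.bis 4 5 2 1 398 (.leaf 27) (.leaf 40)) (.leaf
  27))) (.bis 0 6 2 1 391 (.bis 3 6 1 1 401 (.leaf 27) (.leaf 27)) (.bis 0 3 2 1 404 (.leaf 27)
  (.bis 0 5 2 1 403 (.leaf 27) (.leaf 27))))) (.bis 0 6 2 1 391 (.bis 3 6 1 1 401 (.leaf 53)
  (.leaf 53)) (.leaf 103))) (.bis 1 6 2 1 512 (.bis 0 6 2 1 391 (.leaf 53) (.leaf 103)) (.leaf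
  103))))))) (.bis 1 6 2 1 492 (.bis 2 6 1 1 504 (.bis 3 6 1 1 346 (.bis 0 6 1 1 365 (.bis 4 6 1
  1 366 (.leaf 42) (.bis 1 4 1 2 500 (.bis 3 4 1 2 378 (.leaf 17) (.leaf 6)) (.leaf 6))) (.bis 1
  4 1 2 500 (.bis 0 3 2 1 377 (.bis 3 4 1 2 378 (.leaf 17) (.leaf 6)) (.bis 2 4 1 2 505 (.leaf
  17) (.leaf 6))) (.leaf 6))) (.bis 1 4 1 2 500 (.bis 3 5 1 1 349 (.leaf 17) (.bis 0 3 1 1 371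
  (.bis 3 4 1 1 370 (.leaf 17) (.leaf 6)) (.bis 0 6 2 1 377 (.bis 4 6 2 1 378 (.leaf 6) (.leaf
  17)) (.bis 2 4 1 2 505 (.leaf 17) (.leaf 6))))) (.bis 3 5 1 1 349 (.leaf 6) (.bis 0 3 1 1 371
  (.leaf 6) (.leaf 6))))) (.bis 1 4 1 2 500 (.bis 2 4 1 1 506 (.bis 3 5 1 1 349 (.leaf 17) (.leaf
  17)) (.bis 3 5 1 1 349 (.bis 2 5 1 1 507 (.leaf 17) (.bis 2 6 2 1 508 (.leaf 27) (.leaf 38)))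
  (.bis 0 3 1 1 371 (.bis 3 6 2 1 509 (.bis 2 6 2 1 508 (.leaf 27) (.bis 2 5 2 1 510 (.leaf 27)
  (.leaf 38))) (.bis 2 3 1 1 511 (.leaf 17) (.bis 2 5 2 1 510 (.leaf 17) (.leaf 38)))) (.bis 2 6
  2 1 508 (.leaf 27) (.bis 2 5 2 1 510 (.leaf 27) (.leaf 38)))))) (.bis 3 5 1 1 349 (.bis 2 5 1 1
  507 (.leaf 38) (.bis 1 2 1 2 521 (.bis 2 6 2 1 508 (.leaf 38) (.leaf 38)) (.leaf 38))) (.bis 0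
  3 1 1 371 (.bis 3 6 2 1 509 (.bis 1 2 1 2 521 (.bis 2 6 2 1 508 (.leaf 38) (.bis 2 5 2 1 510
  (.leaf 38) (.leaf 38))) (.leaf 38)) (.bis 2 3 1 1 511 (.leaf 89) (.bis 1 2 1 2 521 (.bis 2 5 2
  1 510 (.leaf 38) (.leaf 38)) (.leaf 38)))) (.bis 1 2 1 2 521 (.bis 2 6 2 1 508 (.leaf 38)
  (.leaf 38)) (.leaf 38)))))) (.bis 1 4 2 1 501 (.bis 4 6 2 1 500 (.bis 3 5 1 1 349 (.bis 2 5 1 1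
  507 (.leaf 38) (.bis 2 6 2 1 521 (.leaf 38) (.leaf 38))) (.bis 0 3 1 1 371 (.bis 2 3 1 1 511
  (.leaf 89) (.bis 2 6 2 1 521 (.leaf 38) (.leaf 38))) (.bis 2 6 2 1 521 (.leaf 38) (.bis 2 5 2 1
  510 (.leaf 38) (.leaf 38))))) (.bis 2 4 1 1 506 (.bis 3 5 1 1 349 (.leaf 17) (.leaf 17)) (.bis
  3 5 1 1 349 (.bis 2 5 1 1 507 (.leaf 17) (.leaf 38)) (.bis 0 3 1 1 371 (.bis 2 3 1 1 511 (.leaf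
  17) (.leaf 38)) (.bis 2 5 2 1 510 (.leaf 17) (.leaf 38)))))) (.bis 1 5 2 1 495 (.bis 3 5 1 1
  349 (.bis 2 5 1 1 507 (.leaf 38) (.leaf 38)) (.bis 0 3 1 1 371 (.bis 2 3 1 1 511 (.leaf 89)
  (.leaf 38)) (.bis 2 6 2 1 521 (.leaf 38) (.leaf 38)))) (.bis 0 1 1 2 502 (.leaf 127) (.bis 0 3
  1 1 371 (.leaf 127) (.leaf 38)))))))) (.bis 1 4 1 1 479 (.bis 0 4 1 1 281 (.bis 4 6 2 1 335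
  (.bis 3 6 1 1 346 (.bis 1 6 1 1 491 (.bis 0 6 1 1 337 (.bis 2 6 1 1 365 (.bis 5 6 1 1 355
  (.leaf 25) (.leaf 6)) (.bis 2 4 2 1 368 (.leaf 6) (.bis 0 2 1 2 418 (.leaf 6) (.leaf 6))))
  (.bis 2 4 2 1 368 (.leaf 6) (.bis 0 5 1 1 357 (.bis 2 6 2 1 418 (.leaf 6) (.leaf 6)) (.bis 0 2
  1 1 419 (.bis 2 6 2 1 418 (.leaf 6) (.leaf 6)) (.leaf 6))))) (.bis 2 4 2 1 368 (.leaf 6) (.bis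
  0 5 1 1 357 (.bis 1 2 1 1 499 (.leaf 6) (.leaf 6)) (.bis 0 2 1 1 419 (.bis 1 2 1 1 499 (.leaf
  6) (.leaf 6)) (.leaf 6))))) (.bis 3 4 2 1 348 (.bis 2 4 2 1 368 (.leaf 6) (.bis 0 5 1 1 357
  (.bis 1 2 1 1 499 (.leaf 6) (.leaf 6)) (.bis 0 2 1 1 419 (.bis 1 2 1 1 499 (.leaf 6) (.leaf 6))
  (.leaf 6)))) (.bis 0 3 1 1 359 (.bis 1 2 1 1 499 (.bis 3 5 1 1 349 (.leaf 6) (.bis 2 3 1 1 371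
  (.leaf 6) (.leaf 6))) (.bis 3 5 1 1 349 (.leaf 6) (.leaf 6))) (.bis 0 5 1 1 357 (.bis 1 2 1 1
  499 (.leaf 6) (.leaf 6)) (.bis 0 2 1 1 419 (.bis 1 2 1 1 499 (.leaf 6) (.leaf 6)) (.leaf
  6)))))) (.bis 2 4 1 2 372 (.bis 3 4 1 2 351 (.bis 4 5 2 1 350 (.bis 0 5 1 1 357 (.leaf 6)
  (.leaf 6)) (.leaf 7)) (.bis 3 6 2 1 348 (.bis 0 5 1 1 357 (.bis 1 5 1 1 494 (.leaf 6) (.leaf
  6)) (.leaf 6)) (.bis 0 3 1 1 359 (.bis 3 5 1 1 349 (.bis 1 5 1 1 494 (.leaf 6) (.leaf 6))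
  (.leaf 6)) (.bis 0 5 1 1 357 (.bis 1 5 1 1 494 (.leaf 6) (.leaf 6)) (.leaf 6))))) (.bis 3 6 2 1
  348 (.bis 2 6 2 1 368 (.bis 0 5 1 1 357 (.leaf 6) (.leaf 6)) (.bis 0 5 1 1 357 (.bis 1 2 1 1
  499 (.leaf 6) (.leaf 6)) (.bis 0 2 1 1 419 (.bis 1 2 1 1 499 (.leaf 6) (.leaf 6)) (.leaf 6))))
  (.bis 0 3 1 1 359 (.bis 1 2 1 1 499 (.leaf 6) (.bis 3 5 1 1 349 (.leaf 6) (.leaf 6))) (.bis 0 5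
  1 1 357 (.bis 1 2 1 1 499 (.leaf 6) (.leaf 6)) (.bis 0 2 1 1 419 (.bis 1 2 1 1 499 (.leaf 6)
  (.leaf 6)) (.leaf 6))))))) (.bis 0 6 2 1 336 (.bis 3 6 1 1 346 (.bis 1 6 1 1 491 (.bis 4 6 1 1
  337 (.bis 2 6 1 1 365 (.bis 5 6 1 1 355 (.leaf 25) (.leaf 6)) (.bis 2 4 2 1 418 (.leaf 6)
  (.leaf 6))) (.bis 4 5 1 1 357 (.bis 2 6 2 1 418 (.leaf 6) (.leaf 6)) (.bis 2 4 1 1 419 (.leaf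
  6) (.bis 2 6 2 1 418 (.leaf 6) (.leaf 6))))) (.bis 4 5 1 1 357 (.bis 1 2 1 1 499 (.leaf 6)
  (.leaf 6)) (.bis 2 4 1 1 419 (.leaf 6) (.bis 1 2 1 1 499 (.leaf 6) (.leaf 6))))) (.bis 0 3 1 2
  360 (.bis 3 4 1 1 359 (.bis 4 5 1 1 357 (.leaf 6) (.bis 2 4 1 1 419 (.leaf 6) (.leaf 6))) (.bis
  1 2 1 1 499 (.leaf 6) (.bis 3 5 1 1 349 (.leaf 6) (.leaf 6)))) (.leaf 6))) (.bis 0 3 2 1 362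
  (.bis 3 6 2 1 360 (.bis 4 5 1 1 357 (.leaf 6) (.bis 2 4 1 1 419 (.leaf 6) (.leaf 6))) (.bis 3 4
  1 1 359 (.bis 4 5 1 1 357 (.leaf 6) (.bis 2 4 1 1 419 (.leaf 6) (.leaf 6))) (.bis 1 2 1 1 499
  (.bis 3 5 1 1 349 (.leaf 6) (.leaf 6)) (.bis 3 5 1 1 349 (.bis 1 5 1 1 494 (.leaf 6) (.leaf 6))
  (.leaf 6))))) (.bis 0 5 2 1 361 (.bis 4 5 1 1 357 (.leaf 6) (.leaf 6)) (.leaf 107))))) (.bis 1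
  6 2 1 492 (.bis 0 6 2 1 336 (.bis 3 6 1 1 346 (.bis 4 6 1 1 491 (.bis 2 6 1 1 365 (.bis 5 6 1 1
  355 (.leaf 42) (.leaf 6)) (.bis 2 4 2 1 498 (.leaf 6) (.leaf 6))) (.bis 2 4 1 1 499 (.leaf 6)
  (.leaf 6))) (.bis 0 3 1 2 360 (.bis 2 4 1 1 499 (.bis 3 5 1 1 349 (.leaf 6) (.leaf 6)) (.leaf
  6)) (.leaf 6))) (.bis 0 3 2 1 362 (.bis 3 6 2 1 360 (.leaf 6) (.bis 2 4 1 1 499 (.bis 3 5 1 1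
  349 (.leaf 6) (.leaf 6)) (.leaf 6))) (.bis 0 5 2 1 361 (.leaf 6) (.leaf 107)))) (.bis 0 1 1 1
  484 (.bis 1 5 2 1 495 (.bis 0 5 1 1 496 (.leaf 6) (.bis 2 4 1 1 499 (.leaf 44) (.leaf 89)))
  (.bis 1 2 2 1 502 (.bis 2 4 1 1 499 (.leaf 44) (.leaf 89)) (.leaf 44))) (.bis 0 3 2 1 362 (.bis
  1 5 1 1 496 (.bis 2 4 1 1 499 (.bis 3 5 1 1 349 (.leaf 6) (.leaf 6)) (.leaf 6)) (.bis 2 4 1 1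
  499 (.leaf 44) (.leaf 89))) (.bis 0 5 2 1 361 (.bis 1 5 1 1 496 (.leaf 6) (.leaf 89)) (.leaf
  107))))))))))

def lc17 : List Vr := [⟨[56,0,85,0,0,0,0], 129307, 0⟩, ⟨[0,73,85,0,0,0,0], 117451, 0⟩, ⟨[0,0,85,0,
  0,0,0], 21675, 0⟩, ⟨[0,73,0,73,0,0,0], 127896, 0⟩, ⟨[0,0,85,0,56,0,0], 129307, 0⟩, ⟨[0,0,85,0,0,
  42,0], 128523, 0⟩, ⟨[0,0,85,0,0,0,119], 143055, 0⟩]

theorem lk17 : chkTr lowT (leafLow 6 lowB) lt17 lc17 = true := by decide +kernel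

def lt18 : Tr ℕ := (.bis 1 6 2 1 210 (.bis 2 6 1 1 475 (.bis 3 6 1 1 141 (.bis 0 6 1 1 272 (.bis
  4 6 1 1 273 (.bis 5 6 1 1 234 (.leaf 125) (.bis 1 5 1 2 451 (.leaf 25) (.leaf 63))) (.bis 1 4 1
  2 463 (.bis 2 4 1 2 476 (.bis 0 4 1 2 275 (.bis 3 4 1 2 276 (.leaf 7) (.leaf 7)) (.leaf 25))
  (.leaf 25)) (.bis 1 5 1 2 451 (.leaf 25) (.leaf 63)))) (.bis 1 4 1 2 463 (.bis 2 4 1 2 476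
  (.bis 4 6 2 1 275 (.bis 0 3 2 1 279 (.leaf 3) (.bis 0 1 4 1 522 (.leaf 3) (.leaf 13))) (.bis 0
  3 2 1 279 (.bis 3 4 1 2 276 (.leaf 7) (.leaf 3)) (.bis 0 4 1 1 281 (.leaf 7) (.leaf 13))))
  (.bis 0 3 2 1 279 (.leaf 13) (.bis 0 2 2 1 477 (.leaf 13) (.leaf 13)))) (.bis 0 1 2 1 464 (.bis
  1 5 1 2 451 (.leaf 13) (.leaf 63)) (.bis 0 3 2 1 279 (.leaf 13) (.leaf 13))))) (.bis 1 4 1 2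
  463 (.bis 3 5 1 1 246 (.bis 2 4 1 2 476 (.bis 0 6 2 1 279 (.bis 4 6 2 1 276 (.leaf 3) (.leaf
  7)) (.bis 0 4 1 1 281 (.leaf 7) (.leaf 13))) (.bis 0 6 2 1 279 (.leaf 13) (.bis 0 2 2 1 477
  (.leaf 13) (.leaf 13)))) (.bis 0 3 1 1 289 (.bis 3 4 1 1 286 (.bis 2 4 1 2 476 (.bis 4 6 2 1
  276 (.leaf 7) (.leaf 7)) (.leaf 13)) (.bis 2 3 1 2 478 (.leaf 30) (.leaf 13))) (.bis 2 4 1 2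
  476 (.bis 0 6 2 1 279 (.bis 4 6 2 1 276 (.leaf 3) (.bis 3 4 1 2 290 (.leaf 7) (.leaf 3))) (.bis
  0 4 1 1 281 (.bis 3 4 1 2 290 (.leaf 7) (.leaf 3)) (.leaf 13))) (.bis 0 6 2 1 279 (.leaf 13)
  (.bis 0 2 2 1 477 (.leaf 13) (.leaf 13)))))) (.bis 3 5 1 1 246 (.bis 0 1 2 1 464 (.bis 1 5 1 2
  451 (.leaf 13) (.leaf 23)) (.bis 0 6 2 1 279 (.leaf 13) (.leaf 13))) (.bis 0 3 1 1 289 (.bis 2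
  3 1 2 478 (.bis 1 3 1 2 211 (.leaf 30) (.leaf 23)) (.leaf 23)) (.bis 0 1 2 1 464 (.leaf 23)
  (.bis 0 6 2 1 279 (.leaf 13) (.leaf 13))))))) (.bis 1 4 1 2 463 (.bis 2 4 1 1 479 (.bis 3 5 1 1
  246 (.bis 4 6 2 1 476 (.bis 0 6 2 1 477 (.leaf 13) (.bis 0 3 2 1 438 (.leaf 7) (.leaf 13)))
  (.bis 0 4 1 1 281 (.leaf 7) (.bis 0 3 2 1 438 (.leaf 7) (.leaf 13)))) (.bis 0 3 1 1 289 (.bis 3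
  4 1 1 286 (.bis 4 6 2 1 476 (.leaf 13) (.leaf 7)) (.bis 3 6 2 1 478 (.bis 4 6 1 1 481 (.leaf
  13) (.leaf 7)) (.bis 2 3 1 2 482 (.leaf 30) (.leaf 13)))) (.bis 4 6 2 1 476 (.bis 0 6 2 1 477
  (.leaf 13) (.leaf 13)) (.bis 0 4 1 1 281 (.leaf 7) (.leaf 13))))) (.bis 3 5 1 1 246 (.bis 2 5 1
  1 483 (.bis 0 6 2 1 477 (.leaf 13) (.leaf 13)) (.bis 0 2 1 1 484 (.bis 2 3 2 1 485 (.leaf 13)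
  (.bis 2 6 2 1 486 (.leaf 13) (.bis 1 2 1 4 523 (.leaf 44) (.leaf 13)))) (.leaf 13))) (.bis 0 3
  1 1 289 (.bis 3 6 2 1 478 (.bis 2 5 2 1 485 (.leaf 13) (.bis 2 6 2 1 486 (.leaf 13) (.bis 1 2 1
  4 523 (.bis 0 2 1 2 488 (.leaf 44) (.leaf 13)) (.leaf 13)))) (.bis 2 3 1 1 489 (.leaf 126)
  (.bis 2 5 2 1 485 (.leaf 23) (.bis 1 2 1 4 523 (.bis 0 2 1 2 488 (.leaf 44) (.leaf 23)) (.leaf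
  23))))) (.bis 0 2 1 1 484 (.bis 2 5 2 1 485 (.leaf 13) (.bis 2 6 2 1 486 (.leaf 13) (.bis 1 2 1
  4 523 (.leaf 44) (.leaf 13)))) (.leaf 13))))) (.bis 3 5 1 1 246 (.bis 2 5 1 1 483 (.bis 0 1 2 1
  464 (.leaf 148) (.leaf 13)) (.bis 0 1 2 1 464 (.bis 1 2 1 2 524 (.bis 2 3 2 1 485 (.leaf 23)
  (.bis 2 6 2 1 486 (.leaf 23) (.bis 2 4 4 1 523 (.leaf 23) (.leaf 61)))) (.leaf 23)) (.bis 0 2 1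
  1 484 (.bis 2 3 2 1 485 (.leaf 13) (.bis 2 6 2 1 486 (.leaf 13) (.bis 2 4 4 1 523 (.leaf 13)
  (.leaf 61)))) (.leaf 13)))) (.bis 0 3 1 1 289 (.bis 3 6 2 1 478 (.bis 1 2 1 2 524 (.bis 2 5 2 1
  485 (.leaf 23) (.bis 2 6 2 1 486 (.leaf 23) (.bis 2 4 4 1 523 (.leaf 23) (.bis 0 2 1 2 488
  (.leaf 44) (.leaf 23))))) (.leaf 23)) (.bis 2 3 1 1 489 (.bis 1 3 1 2 211 (.leaf 102) (.leaf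
  23)) (.bis 1 2 1 2 524 (.bis 2 5 2 1 485 (.leaf 23) (.bis 2 4 4 1 523 (.leaf 23) (.bis 0 2 1 2
  488 (.leaf 44) (.leaf 23)))) (.leaf 23)))) (.bis 0 1 2 1 464 (.bis 1 2 1 2 524 (.bis 2 5 2 1
  485 (.leaf 23) (.bis 2 6 2 1 486 (.leaf 23) (.bis 2 4 4 1 523 (.leaf 23) (.bis 2 3 2 1 488
  (.leaf 23) (.leaf 61))))) (.leaf 23)) (.bis 0 2 1 1 484 (.bis 2 5 2 1 485 (.leaf 13) (.bis 2 6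
  2 1 486 (.leaf 13) (.bis 2 4 4 1 523 (.leaf 13) (.bis 2 3 2 1 488 (.leaf 13) (.leaf 61)))))
  (.leaf 13))))))) (.bis 1 4 2 1 466 (.bis 4 6 2 1 463 (.bis 3 5 1 1 246 (.bis 2 5 1 1 483 (.bis
  0 6 2 1 464 (.bis 5 6 2 1 451 (.leaf 23) (.leaf 47)) (.leaf 47)) (.bis 0 6 2 1 464 (.bis 2 6 2
  1 524 (.leaf 23) (.bis 2 3 2 1 485 (.leaf 23) (.bis 2 4 4 1 523 (.leaf 23) (.leaf 61)))) (.bis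
  0 2 1 1 484 (.bis 2 3 2 1 485 (.leaf 23) (.bis 2 4 4 1 523 (.leaf 23) (.leaf 61))) (.leaf
  47)))) (.bis 0 3 1 1 289 (.bis 2 3 1 1 489 (.bis 3 6 2 1 211 (.leaf 23) (.leaf 102)) (.bis 2 6
  2 1 524 (.leaf 23) (.bis 2 5 2 1 485 (.leaf 23) (.bis 2 4 4 1 523 (.leaf 23) (.leaf 44)))))
  (.bis 0 6 2 1 464 (.bis 2 6 2 1 524 (.leaf 23) (.bis 2 5 2 1 485 (.leaf 23) (.bis 2 4 4 1 523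
  (.leaf 23) (.bis 2 3 2 1 488 (.leaf 23) (.leaf 61))))) (.bis 0 2 1 1 484 (.bis 2 5 2 1 485
  (.leaf 23) (.bis 2 4 4 1 523 (.leaf 23) (.bis 2 3 2 1 488 (.leaf 23) (.leaf 61)))) (.leaf
  47))))) (.bis 2 4 1 1 479 (.bis 3 5 1 1 246 (.bis 0 4 1 1 281 (.bis 1 4 1 2 467 (.leaf 7)
  (.leaf 47)) (.bis 1 5 1 2 468 (.leaf 13) (.bis 0 1 2 1 469 (.leaf 47) (.leaf 13)))) (.bis 0 3 1
  1 289 (.bis 3 4 1 1 286 (.bis 1 4 1 2 467 (.leaf 7) (.leaf 47)) (.bis 2 3 1 2 482 (.leaf 30)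
  (.leaf 47))) (.bis 0 4 1 1 281 (.bis 1 4 1 2 467 (.leaf 7) (.leaf 47)) (.bis 0 1 2 1 469 (.leaf
  47) (.leaf 13))))) (.bis 3 5 1 1 246 (.bis 2 5 1 1 483 (.bis 1 5 1 2 468 (.bis 0 3 2 1 438
  (.leaf 7) (.leaf 13)) (.bis 0 1 2 1 469 (.leaf 23) (.leaf 13))) (.bis 0 2 1 1 484 (.bis 2 3 2 1
  485 (.leaf 23) (.bis 2 6 4 1 523 (.leaf 23) (.leaf 44))) (.bis 0 1 2 1 469 (.leaf 23) (.leaf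
  13)))) (.bis 0 3 1 1 289 (.bis 2 3 1 1 489 (.bis 3 4 2 1 482 (.leaf 23) (.leaf 102)) (.bis 2 5
  2 1 485 (.leaf 23) (.bis 2 6 4 1 523 (.leaf 23) (.bis 0 2 1 2 488 (.leaf 44) (.leaf 23)))))
  (.bis 0 2 1 1 484 (.bis 2 5 2 1 485 (.leaf 23) (.bis 2 6 4 1 523 (.leaf 23) (.bis 2 3 2 1 488
  (.leaf 23) (.leaf 44)))) (.leaf 47)))))) (.bis 1 5 2 1 453 (.bis 3 5 1 1 246 (.bis 2 5 1 1 483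
  (.bis 0 6 2 1 464 (.bis 5 6 2 1 451 (.leaf 23) (.bis 4 5 1 2 468 (.leaf 47) (.leaf 23))) (.leaf
  47)) (.bis 0 6 2 1 464 (.bis 2 6 2 1 524 (.leaf 23) (.bis 2 3 2 1 485 (.leaf 23) (.bis 0 2 1 4
  525 (.leaf 61) (.leaf 23)))) (.bis 0 2 1 1 484 (.bis 2 3 2 1 485 (.leaf 23) (.bis 2 6 4 1 525
  (.leaf 23) (.leaf 61))) (.leaf 47)))) (.bis 0 3 1 1 289 (.bis 2 3 1 1 489 (.bis 3 6 2 1 211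
  (.leaf 23) (.leaf 102)) (.bis 2 6 2 1 524 (.leaf 23) (.bis 2 5 2 1 485 (.leaf 23) (.bis 0 2 1 2
  488 (.leaf 61) (.leaf 23))))) (.bis 0 6 2 1 464 (.bis 2 6 2 1 524 (.leaf 23) (.bis 2 5 2 1 485
  (.leaf 23) (.bis 2 3 2 1 488 (.leaf 23) (.leaf 61)))) (.bis 0 2 1 1 484 (.bis 2 5 2 1 485
  (.leaf 23) (.bis 2 3 2 1 488 (.leaf 23) (.leaf 61))) (.leaf 47))))) (.bis 0 1 1 2 470 (.bis 1 3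
  2 1 226 (.bis 2 3 1 1 489 (.bis 3 6 2 1 211 (.leaf 54) (.bis 0 3 1 2 471 (.leaf 102) (.leaf
  54))) (.bis 2 6 2 1 524 (.leaf 54) (.bis 1 2 1 2 526 (.leaf 61) (.leaf 54)))) (.bis 1 6 4 1 228
  (.bis 2 6 2 1 524 (.leaf 54) (.bis 2 3 2 1 526 (.leaf 54) (.bis 1 2 1 4 527 (.leaf 61) (.leaf
  54)))) (.bis 1 2 2 1 528 (.bis 2 3 2 1 526 (.leaf 100) (.bis 2 6 4 1 527 (.leaf 100) (.leaf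
  152))) (.leaf 100)))) (.bis 0 3 1 1 289 (.bis 2 3 1 1 489 (.bis 3 6 2 1 211 (.leaf 54) (.leaf
  147)) (.bis 2 6 2 1 524 (.leaf 54) (.bis 0 2 1 2 488 (.leaf 61) (.leaf 54)))) (.bis 0 6 2 1 464
  (.bis 2 6 2 1 524 (.leaf 54) (.bis 2 3 2 1 488 (.leaf 54) (.bis 0 2 1 4 525 (.leaf 61) (.leaf
  54)))) (.bis 0 2 1 1 484 (.bis 2 3 2 1 488 (.leaf 61) (.bis 2 6 4 1 525 (.leaf 61) (.leaf 61)))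
  (.bis 0 4 2 1 469 (.leaf 61) (.leaf 149)))))))))

def lc18 : List Vr := [⟨[56,0,85,0,0,0,0], 129307, 0⟩, ⟨[0,73,0,0,0,0,0], 21316, 0⟩, ⟨[0,73,85,0,
  0,0,0], 117451, 0⟩, ⟨[0,73,0,73,0,0,0], 127896, 0⟩, ⟨[0,0,85,0,56,0,0], 129307, 0⟩, ⟨[0,0,85,0,
  0,42,0], 128523, 0⟩, ⟨[0,0,85,0,0,0,119], 143055, 0⟩]

theorem lk18 : chkTr lowT (leafLow 6 lowB) lt18 lc18 = true := by decide +kernel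

def lt19 : Tr ℕ := (.bis 0 4 1 1 41 (.bis 4 6 2 1 23 (.bis 3 6 1 1 141 (.bis 0 6 1 1 47 (.bis 1 6
  1 1 186 (.bis 2 6 1 1 272 (.bis 5 6 1 1 234 (.leaf 19) (.bis 4 5 1 2 235 (.bis 0 5 1 2 259
  (.leaf 8) (.leaf 8)) (.leaf 8))) (.bis 2 4 2 1 277 (.bis 4 5 1 2 235 (.bis 0 5 1 2 259 (.leaf
  3) (.leaf 3)) (.leaf 8)) (.bis 0 2 1 2 429 (.bis 1 2 1 2 459 (.bis 2 3 2 1 279 (.leaf 3) (.leaf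
  13)) (.leaf 3)) (.bis 0 5 1 2 259 (.leaf 3) (.leaf 3))))) (.bis 2 4 2 1 277 (.bis 1 5 1 1 443
  (.bis 4 5 1 2 235 (.leaf 3) (.leaf 8)) (.bis 1 4 2 1 192 (.leaf 8) (.bis 0 1 1 2 187 (.bis 1 3
  2 1 188 (.leaf 3) (.leaf 14)) (.leaf 3)))) (.bis 1 2 1 1 461 (.bis 0 2 1 2 429 (.bis 2 6 2 1
  459 (.leaf 3) (.leaf 13)) (.bis 0 5 1 2 259 (.leaf 3) (.leaf 3))) (.bis 1 5 1 1 443 (.bis 0 5 1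
  2 259 (.leaf 3) (.leaf 3)) (.bis 0 1 1 2 187 (.bis 1 3 2 1 188 (.leaf 3) (.leaf 14)) (.leaf
  3)))))) (.bis 2 4 2 1 277 (.bis 0 5 1 1 261 (.bis 1 5 1 1 443 (.bis 4 5 1 2 235 (.leaf 3)
  (.leaf 8)) (.bis 1 4 2 1 192 (.leaf 8) (.bis 1 6 2 1 187 (.leaf 3) (.leaf 14)))) (.bis 0 3 2 1
  165 (.bis 1 4 2 1 192 (.leaf 8) (.bis 1 6 2 1 187 (.leaf 3) (.bis 1 3 2 1 188 (.leaf 3) (.leaf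
  14)))) (.bis 1 4 2 1 192 (.bis 0 4 2 1 49 (.leaf 2) (.leaf 2)) (.bis 1 6 2 1 187 (.bis 0 2 4 1
  430 (.leaf 2) (.leaf 2)) (.leaf 66))))) (.bis 0 5 1 1 261 (.bis 1 2 1 1 461 (.bis 2 6 2 1 429
  (.leaf 3) (.bis 2 3 2 1 279 (.leaf 3) (.leaf 35))) (.bis 1 5 1 1 443 (.leaf 3) (.bis 1 6 2 1
  187 (.leaf 3) (.leaf 14)))) (.bis 0 2 1 1 431 (.bis 1 2 1 1 461 (.bis 2 6 2 1 429 (.leaf 3)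
  (.bis 2 3 2 1 279 (.leaf 3) (.leaf 22))) (.bis 1 6 2 1 187 (.leaf 3) (.bis 1 3 2 1 188 (.leaf
  3) (.leaf 14)))) (.bis 0 3 2 1 165 (.bis 1 6 2 1 187 (.leaf 3) (.bis 1 3 2 1 188 (.leaf 3)
  (.bis 1 4 4 1 529 (.leaf 3) (.leaf 14)))) (.bis 1 6 2 1 187 (.leaf 15) (.bis 0 1 1 1 184 (.leaf
  14) (.leaf 15)))))))) (.bis 0 3 1 1 167 (.bis 3 4 2 1 153 (.bis 2 4 2 1 277 (.bis 1 5 1 1 443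
  (.bis 0 5 1 2 263 (.leaf 8) (.leaf 34)) (.bis 1 4 2 1 192 (.leaf 34) (.leaf 14))) (.bis 1 2 1 1
  461 (.bis 2 3 4 1 283 (.bis 0 5 1 2 263 (.leaf 3) (.leaf 3)) (.bis 0 5 1 2 263 (.leaf 13) (.bis
  0 2 1 2 432 (.leaf 13) (.leaf 3)))) (.bis 1 5 1 1 443 (.bis 0 5 1 2 263 (.leaf 3) (.leaf 3))
  (.leaf 14)))) (.bis 1 2 1 1 461 (.bis 3 5 1 1 246 (.bis 2 4 4 1 283 (.bis 0 5 1 2 263 (.leaf 3)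
  (.leaf 3)) (.bis 0 5 1 2 263 (.bis 2 6 2 1 279 (.leaf 3) (.leaf 13)) (.bis 0 2 1 2 432 (.bis 2
  6 2 1 279 (.leaf 3) (.leaf 13)) (.leaf 3)))) (.bis 2 3 1 1 289 (.leaf 30) (.bis 2 4 4 1 283
  (.leaf 3) (.bis 0 2 1 2 432 (.bis 2 6 2 1 279 (.leaf 3) (.leaf 13)) (.leaf 3))))) (.bis 3 5 1 1
  246 (.bis 1 5 1 1 443 (.bis 0 5 1 2 263 (.leaf 3) (.leaf 3)) (.leaf 14)) (.bis 1 6 2 1 188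
  (.bis 3 6 2 1 146 (.leaf 14) (.leaf 21)) (.bis 1 3 1 1 189 (.leaf 21) (.leaf 9)))))) (.bis 2 4
  2 1 277 (.bis 0 5 1 1 261 (.bis 1 5 1 1 443 (.bis 3 5 1 2 263 (.leaf 8) (.leaf 34)) (.bis 1 4 2
  1 192 (.leaf 34) (.leaf 14))) (.bis 0 6 2 1 165 (.bis 1 4 2 1 192 (.leaf 16) (.bis 1 6 2 1 188
  (.leaf 3) (.leaf 14))) (.bis 1 4 2 1 192 (.leaf 62) (.leaf 66)))) (.bis 0 5 1 1 261 (.bis 1 2 1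
  1 461 (.bis 3 5 1 2 263 (.bis 2 6 2 1 279 (.leaf 3) (.leaf 35)) (.bis 2 3 2 1 432 (.leaf 3)
  (.bis 2 6 2 1 279 (.leaf 3) (.leaf 22)))) (.bis 1 5 1 1 443 (.leaf 3) (.bis 1 6 2 1 188 (.leaf
  3) (.leaf 14)))) (.bis 0 2 1 1 431 (.bis 1 2 1 1 461 (.bis 2 3 2 1 432 (.bis 0 6 1 1 433 (.leaf
  3) (.leaf 3)) (.bis 2 6 2 1 279 (.leaf 3) (.leaf 22))) (.bis 1 6 2 1 188 (.leaf 3) (.leaf 14)))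
  (.bis 0 6 2 1 165 (.bis 1 6 2 1 188 (.leaf 3) (.leaf 14)) (.bis 0 1 1 1 184 (.leaf 14) (.leaf
  15)))))))) (.bis 2 4 1 2 291 (.bis 3 4 1 2 151 (.bis 4 5 2 1 247 (.bis 0 5 1 1 261 (.bis 1 5 1
  1 443 (.bis 3 5 1 2 251 (.leaf 8) (.leaf 34)) (.bis 1 6 2 1 192 (.leaf 34) (.leaf 14))) (.bis 1
  6 2 1 192 (.leaf 10) (.leaf 66))) (.bis 1 4 1 2 193 (.bis 4 6 4 1 28 (.bis 0 6 2 1 49 (.leaf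
  10) (.leaf 10)) (.bis 0 4 1 2 51 (.bis 2 4 1 4 294 (.bis 3 4 1 4 152 (.leaf 32) (.leaf 10))
  (.leaf 10)) (.leaf 10))) (.bis 1 6 2 1 192 (.bis 0 6 2 1 49 (.leaf 10) (.leaf 10)) (.bis 0 1 1
  1 184 (.leaf 66) (.leaf 10))))) (.bis 0 3 1 1 167 (.bis 3 6 2 1 153 (.bis 1 5 1 1 443 (.bis 4 5
  1 2 251 (.bis 0 5 1 2 263 (.bis 5 6 2 1 235 (.leaf 8) (.leaf 3)) (.bis 0 6 1 1 264 (.leaf 8)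
  (.leaf 3))) (.bis 0 6 1 1 264 (.leaf 34) (.leaf 14))) (.bis 1 6 2 1 192 (.leaf 34) (.leaf 14)))
  (.bis 3 5 1 1 246 (.bis 1 5 1 1 443 (.bis 4 5 1 2 251 (.bis 0 5 1 2 263 (.leaf 3) (.leaf 3))
  (.leaf 14)) (.leaf 14)) (.bis 2 3 1 2 295 (.leaf 117) (.leaf 14)))) (.bis 0 5 1 1 261 (.bis 1 5
  1 1 443 (.bis 4 5 1 2 251 (.bis 3 5 1 2 263 (.bis 5 6 2 1 235 (.leaf 8) (.leaf 3)) (.bis 3 6 1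
  1 264 (.leaf 8) (.leaf 3))) (.bis 3 6 1 1 264 (.leaf 34) (.leaf 14))) (.bis 1 6 2 1 192 (.leaf
  34) (.leaf 14))) (.bis 1 6 2 1 192 (.leaf 10) (.leaf 66))))) (.bis 0 3 1 1 167 (.bis 3 6 2 1
  153 (.bis 2 6 2 1 277 (.bis 1 5 1 1 443 (.bis 0 5 1 2 263 (.leaf 8) (.leaf 34)) (.bis 1 6 2 1
  192 (.leaf 34) (.leaf 14))) (.bis 1 2 1 1 461 (.bis 2 3 4 1 283 (.bis 0 5 1 2 263 (.leaf 3)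
  (.leaf 3)) (.bis 0 5 1 2 263 (.leaf 35) (.bis 0 2 1 2 432 (.leaf 35) (.leaf 3)))) (.bis 1 5 1 1
  443 (.bis 0 5 1 2 263 (.leaf 3) (.leaf 3)) (.leaf 14)))) (.bis 1 2 1 1 461 (.bis 3 5 1 1 246
  (.bis 2 6 4 1 283 (.bis 0 5 1 2 263 (.leaf 3) (.leaf 3)) (.bis 0 5 1 2 263 (.leaf 35) (.bis 0 2
  1 2 432 (.leaf 35) (.leaf 3)))) (.bis 2 3 1 1 289 (.bis 3 4 2 1 295 (.leaf 3) (.leaf 21)) (.bis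
  2 6 4 1 283 (.leaf 3) (.bis 0 2 1 2 432 (.leaf 35) (.leaf 3))))) (.bis 3 5 1 1 246 (.bis 1 5 1
  1 443 (.bis 0 5 1 2 263 (.leaf 3) (.leaf 3)) (.leaf 14)) (.bis 3 4 2 1 295 (.leaf 14) (.leaf
  30))))) (.bis 2 6 2 1 277 (.bis 0 5 1 1 261 (.bis 1 5 1 1 443 (.bis 3 5 1 2 263 (.bis 5 6 2 1
  235 (.leaf 8) (.leaf 3)) (.bis 3 6 1 1 264 (.leaf 8) (.leaf 3))) (.bis 1 6 2 1 192 (.leaf 34)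
  (.leaf 14))) (.bis 1 6 2 1 192 (.leaf 62) (.leaf 66))) (.bis 0 5 1 1 261 (.bis 1 2 1 1 461
  (.bis 3 5 1 2 263 (.bis 2 4 2 1 301 (.leaf 3) (.leaf 35)) (.bis 2 3 2 1 432 (.leaf 3) (.bis 2 4
  2 1 301 (.leaf 3) (.leaf 22)))) (.bis 1 5 1 1 443 (.bis 3 5 1 2 263 (.leaf 3) (.leaf 3)) (.leaf
  14))) (.bis 0 2 1 1 431 (.bis 1 2 1 1 461 (.bis 2 3 2 1 432 (.leaf 3) (.leaf 35)) (.bis 1 6 4 1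
  529 (.leaf 3) (.leaf 14))) (.bis 0 1 1 1 184 (.leaf 14) (.leaf 15)))))))) (.bis 0 6 2 1 59
  (.bis 3 6 1 1 141 (.bis 4 6 1 1 47 (.bis 1 6 1 1 186 (.bis 2 6 1 1 272 (.bis 5 6 1 1 234 (.leaf
  19) (.bis 0 5 1 2 265 (.bis 4 5 1 2 259 (.leaf 8) (.leaf 8)) (.leaf 8))) (.bis 2 4 2 1 429
  (.bis 0 5 1 2 265 (.bis 4 5 1 2 259 (.leaf 3) (.leaf 3)) (.leaf 8)) (.bis 1 2 1 2 459 (.bis 0 5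
  1 2 265 (.bis 2 3 2 1 279 (.leaf 3) (.leaf 13)) (.bis 2 3 2 1 279 (.leaf 8) (.bis 0 2 1 2 434
  (.leaf 13) (.leaf 8)))) (.bis 0 5 1 2 265 (.leaf 3) (.leaf 8))))) (.bis 1 2 1 1 461 (.bis 2 4 2
  1 429 (.bis 0 5 1 2 265 (.bis 4 5 1 2 259 (.leaf 3) (.bis 1 4 1 1 530 (.leaf 3) (.leaf 3)))
  (.bis 0 1 1 1 531 (.leaf 3) (.leaf 5))) (.bis 2 6 2 1 459 (.bis 0 5 1 2 265 (.leaf 3) (.leaf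
  5)) (.leaf 75))) (.bis 0 1 1 2 194 (.bis 1 5 1 1 443 (.bis 0 5 1 4 446 (.leaf 3) (.leaf 3))
  (.bis 1 4 2 1 187 (.leaf 3) (.leaf 14))) (.bis 0 5 1 2 265 (.bis 1 5 1 4 446 (.leaf 3) (.leaf
  3)) (.bis 0 2 1 1 531 (.leaf 3) (.leaf 5)))))) (.bis 4 5 1 1 261 (.bis 1 2 1 1 461 (.bis 2 6 2
  1 429 (.bis 0 5 1 2 265 (.leaf 3) (.leaf 5)) (.bis 0 5 1 2 265 (.leaf 75) (.bis 2 3 2 1 279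
  (.leaf 5) (.leaf 22)))) (.bis 0 1 1 2 194 (.bis 1 5 1 1 443 (.bis 0 5 1 4 446 (.leaf 3) (.leaf
  3)) (.bis 1 6 2 1 187 (.leaf 3) (.leaf 14))) (.bis 0 5 1 2 265 (.bis 1 5 1 4 446 (.leaf 3)
  (.leaf 3)) (.leaf 5)))) (.bis 2 4 1 1 431 (.bis 3 4 1 2 165 (.bis 0 1 1 2 194 (.bis 1 6 2 1 187
  (.leaf 12) (.leaf 36)) (.leaf 12)) (.bis 0 1 1 2 194 (.bis 1 6 2 1 187 (.leaf 3) (.bis 1 3 2 1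
  188 (.leaf 3) (.leaf 14))) (.leaf 5))) (.bis 1 2 1 1 461 (.bis 2 6 2 1 429 (.leaf 5) (.bis 2 3
  2 1 279 (.leaf 5) (.leaf 22))) (.bis 0 1 1 2 194 (.bis 1 6 2 1 187 (.leaf 3) (.bis 1 3 2 1 188
  (.leaf 3) (.leaf 14))) (.leaf 5)))))) (.bis 3 4 1 1 167 (.bis 4 5 1 1 261 (.bis 1 2 1 1 461
  (.bis 3 5 1 2 263 (.bis 0 5 1 2 265 (.bis 2 6 2 1 279 (.leaf 3) (.leaf 35)) (.bis 2 6 2 1 279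
  (.leaf 5) (.leaf 22))) (.bis 2 3 2 1 432 (.bis 0 3 1 1 199 (.leaf 3) (.leaf 5)) (.bis 2 6 2 1
  279 (.leaf 5) (.bis 0 2 1 2 434 (.leaf 22) (.leaf 5))))) (.bis 0 1 1 2 194 (.bis 1 5 1 1 443
  (.bis 3 5 1 2 263 (.leaf 3) (.leaf 3)) (.bis 1 6 2 1 188 (.leaf 3) (.leaf 14))) (.bis 3 5 1 2
  263 (.bis 0 5 1 2 265 (.leaf 3) (.leaf 5)) (.leaf 5)))) (.bis 2 4 1 1 431 (.bis 4 6 2 1 165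
  (.bis 0 1 1 2 194 (.bis 1 6 2 1 188 (.leaf 3) (.leaf 14)) (.leaf 5)) (.bis 0 1 1 2 194 (.leaf
  36) (.leaf 62))) (.bis 1 2 1 1 461 (.bis 2 3 2 1 432 (.bis 0 3 1 1 199 (.bis 4 6 1 1 433 (.leaf
  3) (.leaf 3)) (.leaf 5)) (.bis 2 6 2 1 279 (.leaf 5) (.bis 0 2 1 2 434 (.leaf 22) (.leaf 5))))
  (.bis 0 1 1 2 194 (.bis 1 6 2 1 188 (.leaf 3) (.leaf 14)) (.leaf 5))))) (.bis 0 3 1 2 170 (.bis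
  1 2 1 1 461 (.bis 3 5 1 1 246 (.bis 4 5 1 2 263 (.bis 2 6 2 1 279 (.leaf 3) (.leaf 13)) (.bis 2
  4 2 1 432 (.leaf 3) (.bis 2 6 2 1 279 (.leaf 3) (.leaf 13)))) (.bis 2 3 1 1 289 (.leaf 30)
  (.bis 2 4 2 1 432 (.leaf 3) (.bis 2 6 2 1 279 (.leaf 3) (.leaf 13))))) (.bis 3 5 1 1 246 (.bis
  1 5 1 1 443 (.bis 4 5 1 2 263 (.leaf 3) (.leaf 3)) (.leaf 14)) (.bis 1 6 2 1 188 (.bis 3 6 2 1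
  146 (.leaf 14) (.leaf 21)) (.bis 1 3 1 1 189 (.leaf 21) (.leaf 9))))) (.bis 1 2 1 1 461 (.bis 4
  5 1 2 263 (.bis 0 5 1 2 265 (.bis 2 6 2 1 279 (.leaf 3) (.leaf 13)) (.bis 2 6 2 1 279 (.leaf 5)
  (.leaf 22))) (.bis 2 4 2 1 432 (.bis 0 4 1 1 199 (.leaf 3) (.leaf 5)) (.bis 2 6 2 1 279 (.leaf
  5) (.bis 0 2 1 2 434 (.leaf 13) (.leaf 5))))) (.bis 0 1 1 2 194 (.bis 1 5 1 1 443 (.bis 4 5 1 2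
  263 (.bis 0 5 1 4 446 (.leaf 3) (.leaf 3)) (.leaf 3)) (.leaf 14)) (.bis 4 5 1 2 263 (.bis 0 5 1
  2 265 (.bis 1 5 1 4 446 (.leaf 3) (.leaf 3)) (.leaf 5)) (.leaf 5))))))) (.bis 0 3 2 1 173 (.bis
  3 4 1 1 167 (.bis 4 5 1 1 261 (.bis 1 2 1 1 461 (.bis 0 5 1 2 269 (.bis 3 5 1 2 263 (.bis 5 6 2
  1 265 (.leaf 22) (.leaf 35)) (.bis 2 3 2 1 432 (.bis 3 6 1 1 199 (.leaf 5) (.leaf 3)) (.bis 2 6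
  2 1 434 (.leaf 5) (.leaf 22)))) (.bis 2 3 2 1 432 (.bis 3 6 1 1 199 (.leaf 5) (.leaf 5)) (.bis
  2 6 2 1 434 (.leaf 5) (.leaf 22)))) (.bis 1 6 2 1 194 (.bis 0 5 1 2 269 (.bis 3 5 1 2 263 (.bis
  5 6 2 1 265 (.leaf 5) (.leaf 3)) (.bis 3 6 1 1 199 (.leaf 5) (.leaf 3))) (.bis 3 6 1 1 199
  (.leaf 5) (.leaf 5))) (.bis 1 5 1 1 443 (.bis 0 5 1 2 269 (.bis 3 5 1 2 263 (.leaf 3) (.leaf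
  3)) (.leaf 5)) (.leaf 36)))) (.bis 2 4 1 1 431 (.bis 1 6 2 1 194 (.leaf 72) (.leaf 36)) (.bis 1
  2 1 1 461 (.bis 2 3 2 1 432 (.bis 3 6 1 1 199 (.leaf 5) (.leaf 5)) (.bis 2 6 2 1 434 (.leaf 5)
  (.leaf 22))) (.bis 1 6 2 1 194 (.bis 3 6 1 1 199 (.leaf 5) (.leaf 5)) (.leaf 36))))) (.bis 3 6
  2 1 170 (.bis 1 2 1 1 461 (.bis 0 5 1 2 269 (.bis 4 5 1 2 263 (.bis 5 6 2 1 265 (.leaf 22)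
  (.leaf 13)) (.bis 2 4 2 1 432 (.bis 4 6 1 1 199 (.leaf 5) (.leaf 3)) (.bis 2 6 2 1 434 (.leaf
  5) (.leaf 13)))) (.bis 2 4 2 1 432 (.bis 4 6 1 1 199 (.leaf 5) (.leaf 5)) (.bis 2 6 2 1 434
  (.leaf 5) (.leaf 22)))) (.bis 1 6 2 1 194 (.bis 0 5 1 2 269 (.bis 4 5 1 2 263 (.bis 5 6 2 1 265
  (.leaf 5) (.leaf 3)) (.bis 4 6 1 1 199 (.leaf 5) (.leaf 3))) (.bis 4 6 1 1 199 (.leaf 5) (.leaf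
  5))) (.bis 1 5 1 1 443 (.bis 0 5 1 2 269 (.bis 4 5 1 2 263 (.bis 5 6 4 1 446 (.leaf 3) (.leaf
  3)) (.leaf 3)) (.leaf 5)) (.leaf 9)))) (.bis 1 2 1 1 461 (.bis 3 5 1 1 246 (.bis 0 5 1 2 269
  (.bis 4 5 1 2 263 (.leaf 13) (.bis 2 4 2 1 432 (.leaf 3) (.leaf 13))) (.bis 2 4 2 1 432 (.leaf
  9) (.leaf 70))) (.bis 2 3 1 1 289 (.leaf 21) (.bis 2 4 2 1 432 (.leaf 9) (.leaf 70)))) (.bis 3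
  5 1 1 246 (.bis 1 5 1 1 443 (.bis 0 5 1 2 269 (.bis 4 5 1 2 263 (.leaf 3) (.leaf 3)) (.leaf 9))
  (.leaf 9)) (.bis 1 3 1 1 189 (.leaf 21) (.leaf 9)))))) (.bis 0 5 2 1 266 (.bis 4 5 1 1 261
  (.bis 1 2 1 1 461 (.bis 3 5 1 2 269 (.bis 5 6 2 1 265 (.leaf 22) (.leaf 75)) (.leaf 22)) (.bis
  1 6 2 1 194 (.bis 3 5 1 2 269 (.bis 5 6 2 1 265 (.leaf 5) (.leaf 3)) (.leaf 5)) (.bis 1 5 1 1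
  443 (.bis 3 5 1 2 269 (.leaf 3) (.leaf 5)) (.leaf 73)))) (.bis 2 4 1 1 431 (.bis 1 6 2 1 194
  (.leaf 12) (.bis 0 1 1 2 448 (.leaf 36) (.leaf 12))) (.bis 1 2 1 1 461 (.leaf 22) (.bis 1 6 2 1
  194 (.leaf 5) (.bis 0 1 1 2 448 (.leaf 36) (.leaf 5)))))) (.bis 0 1 2 1 197 (.bis 2 4 1 1 431
  (.bis 1 6 2 1 194 (.leaf 12) (.bis 1 5 2 1 448 (.leaf 12) (.leaf 36))) (.bis 1 2 1 1 461 (.bis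
  0 2 1 2 532 (.bis 2 6 2 1 434 (.leaf 5) (.leaf 22)) (.bis 1 6 1 1 531 (.leaf 5) (.leaf 5)))
  (.bis 1 6 2 1 194 (.leaf 5) (.bis 1 5 2 1 448 (.leaf 5) (.leaf 36))))) (.bis 0 2 2 1 440 (.bis
  2 4 1 1 431 (.bis 4 6 2 1 60 (.leaf 22) (.leaf 72)) (.bis 1 2 1 2 532 (.leaf 22) (.leaf 22)))
  (.bis 0 6 4 1 67 (.bis 4 6 2 1 60 (.leaf 22) (.leaf 72)) (.bis 0 4 2 1 71 (.leaf 72) (.bis 0 3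
  4 1 177 (.leaf 45) (.bis 0 5 4 1 268 (.leaf 45) (.leaf 45)))))))))))

def lc19 : List Vr := [⟨[56,0,0,0,0,0,0], 21952, 0⟩, ⟨[0,73,0,0,56,0,0], 125028, 0⟩, ⟨[56,0,85,0,
  0,0,0], 129307, 0⟩, ⟨[0,73,0,73,0,0,0], 127896, 0⟩, ⟨[0,0,0,0,56,0,0], 21952, 0⟩, ⟨[0,0,85,0,0,
  42,0], 128523, 0⟩, ⟨[0,0,85,0,0,0,119], 143055, 0⟩]

theorem lk19 : chkTr lowT (leafLow 6 lowB) lt19 lc19 = true := by decide +kernel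

def lt20 : Tr ℕ := (.bis 1 6 2 1 210 (.bis 0 6 2 1 59 (.bis 3 6 1 1 141 (.bis 4 6 1 1 186 (.bis 2
  6 1 1 272 (.bis 5 6 1 1 234 (.leaf 19) (.bis 0 5 1 2 265 (.bis 1 5 1 2 451 (.leaf 8) (.leaf
  63)) (.leaf 19))) (.bis 2 4 2 1 459 (.bis 0 5 1 2 265 (.bis 1 5 1 2 451 (.leaf 3) (.leaf 63))
  (.leaf 63)) (.bis 1 2 1 2 464 (.bis 0 5 1 2 265 (.bis 2 3 2 1 279 (.leaf 3) (.leaf 13)) (.bis 2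
  3 2 1 279 (.leaf 63) (.leaf 75))) (.bis 0 5 1 2 265 (.bis 1 5 1 2 451 (.leaf 3) (.leaf 63))
  (.leaf 63))))) (.bis 2 4 1 1 461 (.bis 0 4 1 2 194 (.bis 4 5 1 1 443 (.bis 1 5 1 2 451 (.bis 0
  5 1 4 446 (.leaf 3) (.leaf 3)) (.leaf 5)) (.bis 3 4 1 2 188 (.leaf 9) (.leaf 5))) (.bis 0 5 1 2
  265 (.bis 1 5 1 2 451 (.bis 4 5 1 4 446 (.leaf 3) (.leaf 3)) (.leaf 5)) (.leaf 5))) (.bis 2 6 2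
  1 459 (.bis 0 5 1 2 265 (.bis 1 5 1 2 451 (.leaf 3) (.leaf 5)) (.leaf 5)) (.bis 1 2 1 2 464
  (.leaf 75) (.bis 0 5 1 2 265 (.bis 1 5 1 2 451 (.leaf 3) (.leaf 5)) (.leaf 5)))))) (.bis 0 3 1
  2 170 (.bis 2 4 1 1 461 (.bis 3 5 1 1 246 (.bis 4 5 1 1 443 (.bis 1 5 1 2 451 (.leaf 3) (.leaf
  23)) (.bis 4 6 2 1 188 (.leaf 23) (.leaf 9))) (.bis 1 3 1 2 211 (.bis 4 6 2 1 188 (.bis 3 6 2 1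
  146 (.leaf 23) (.leaf 21)) (.leaf 30)) (.bis 4 6 2 1 188 (.leaf 23) (.leaf 9)))) (.bis 3 5 1 1
  246 (.bis 1 2 1 2 464 (.bis 2 6 2 1 279 (.bis 0 5 1 4 436 (.leaf 3) (.leaf 3)) (.leaf 13))
  (.bis 1 5 1 2 451 (.leaf 3) (.leaf 23))) (.bis 2 3 1 1 289 (.bis 1 3 1 2 211 (.leaf 30) (.leaf
  23)) (.bis 1 2 1 2 464 (.bis 2 6 2 1 279 (.leaf 3) (.leaf 13)) (.leaf 23))))) (.bis 2 4 1 1 461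
  (.bis 0 4 1 2 194 (.bis 4 5 1 1 443 (.bis 1 5 1 2 451 (.bis 0 5 1 4 446 (.leaf 3) (.leaf 3))
  (.leaf 5)) (.leaf 74)) (.bis 0 5 1 2 265 (.bis 1 5 1 2 451 (.bis 4 5 1 4 446 (.leaf 3) (.leaf
  3)) (.leaf 5)) (.leaf 5))) (.bis 1 2 1 2 464 (.bis 0 5 1 2 265 (.leaf 13) (.bis 2 6 2 1 279
  (.leaf 5) (.leaf 22))) (.bis 0 5 1 2 265 (.bis 1 5 1 2 451 (.leaf 3) (.leaf 5)) (.leaf 5))))))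
  (.bis 0 3 2 1 173 (.bis 3 6 2 1 170 (.bis 2 4 1 1 461 (.bis 4 6 2 1 194 (.bis 0 5 1 2 269 (.bis
  5 6 2 1 265 (.leaf 5) (.bis 1 5 1 2 451 (.leaf 3) (.leaf 5))) (.leaf 5)) (.bis 4 5 1 1 443
  (.bis 0 5 1 2 269 (.bis 1 5 1 2 451 (.leaf 3) (.leaf 5)) (.bis 0 1 1 1 213 (.leaf 5) (.leaf
  5))) (.bis 0 1 1 1 213 (.leaf 9) (.leaf 9)))) (.bis 0 5 1 2 269 (.bis 1 2 1 2 464 (.bis 5 6 2 1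
  265 (.leaf 22) (.leaf 13)) (.bis 5 6 2 1 265 (.leaf 5) (.bis 1 5 1 2 451 (.leaf 3) (.leaf 5))))
  (.bis 1 2 1 2 464 (.leaf 22) (.leaf 5)))) (.bis 2 4 1 1 461 (.bis 3 5 1 1 246 (.bis 4 5 1 1 443
  (.bis 0 5 1 2 269 (.bis 1 5 1 2 451 (.leaf 3) (.leaf 9)) (.bis 0 1 1 1 213 (.leaf 9) (.leaf
  9))) (.bis 0 1 1 1 213 (.leaf 9) (.leaf 9))) (.bis 1 3 1 2 211 (.bis 3 4 1 1 189 (.leaf 9)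
  (.leaf 21)) (.bis 0 1 1 1 213 (.bis 1 4 1 2 212 (.leaf 9) (.leaf 9)) (.leaf 9)))) (.bis 3 5 1 1
  246 (.bis 0 5 1 2 269 (.bis 1 2 1 2 464 (.leaf 13) (.bis 1 5 1 2 451 (.leaf 3) (.leaf 9)))
  (.bis 1 2 1 2 464 (.leaf 70) (.bis 0 1 1 1 213 (.leaf 9) (.leaf 9)))) (.bis 2 3 1 1 289 (.bis 1
  3 1 2 211 (.leaf 21) (.bis 0 1 1 1 213 (.leaf 9) (.leaf 9))) (.bis 1 2 1 2 464 (.leaf 70) (.bis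
  0 1 1 1 213 (.leaf 9) (.leaf 9))))))) (.bis 0 5 2 1 266 (.bis 2 4 1 1 461 (.bis 4 6 2 1 194
  (.bis 3 5 1 2 269 (.bis 0 1 1 1 452 (.bis 5 6 2 1 265 (.leaf 5) (.bis 1 5 1 2 451 (.leaf 3)
  (.leaf 5))) (.bis 5 6 2 1 265 (.leaf 5) (.leaf 3))) (.bis 0 1 1 1 452 (.leaf 5) (.leaf 5)))
  (.bis 4 5 1 1 443 (.bis 3 5 1 2 269 (.bis 0 1 1 1 452 (.bis 1 5 1 2 451 (.leaf 3) (.leaf 5))
  (.bis 5 6 4 1 446 (.leaf 3) (.leaf 3))) (.bis 0 1 1 1 452 (.leaf 5) (.leaf 5))) (.bis 0 4 1 2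
  448 (.bis 1 3 1 1 213 (.leaf 9) (.leaf 9)) (.bis 0 1 1 1 452 (.leaf 5) (.leaf 5))))) (.bis 3 5
  1 2 269 (.bis 1 2 1 2 464 (.bis 5 6 2 1 265 (.leaf 22) (.leaf 75)) (.bis 0 1 1 1 452 (.bis 5 6
  2 1 265 (.leaf 5) (.bis 1 5 1 2 451 (.leaf 3) (.leaf 5))) (.bis 5 6 2 1 265 (.leaf 5) (.leaf
  3)))) (.bis 1 2 1 2 464 (.leaf 22) (.bis 0 1 1 1 452 (.leaf 5) (.leaf 5))))) (.bis 0 1 4 1 215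
  (.bis 2 4 1 1 461 (.bis 4 6 2 1 194 (.bis 1 5 1 1 452 (.leaf 5) (.leaf 5)) (.bis 4 5 2 1 448
  (.bis 1 5 1 1 452 (.leaf 5) (.leaf 5)) (.bis 1 3 1 1 213 (.leaf 36) (.leaf 74)))) (.bis 1 2 1 2
  464 (.leaf 22) (.bis 1 5 1 1 452 (.leaf 5) (.leaf 5)))) (.bis 0 4 2 1 197 (.bis 2 4 1 1 461
  (.bis 4 6 2 1 194 (.leaf 5) (.bis 4 5 2 1 448 (.leaf 5) (.leaf 36))) (.bis 0 2 1 2 532 (.leaf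
  22) (.leaf 5))) (.bis 0 2 2 1 440 (.bis 2 4 2 1 532 (.leaf 22) (.leaf 22)) (.bis 0 6 4 1 67
  (.leaf 22) (.bis 0 3 4 1 177 (.leaf 22) (.bis 0 5 4 1 268 (.leaf 22) (.bis 0 1 8 1 216 (.leaf
  22) (.leaf 45))))))))))) (.bis 0 1 1 1 217 (.bis 1 5 2 1 453 (.bis 0 5 1 1 454 (.bis 2 4 1 1
  461 (.bis 3 5 1 1 246 (.bis 4 5 1 1 443 (.bis 5 6 2 1 451 (.leaf 9) (.leaf 47)) (.leaf 9))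
  (.bis 3 6 2 1 211 (.bis 4 6 2 1 212 (.leaf 9) (.leaf 9)) (.bis 0 3 1 2 455 (.leaf 30) (.leaf
  9)))) (.bis 3 5 1 1 246 (.bis 2 6 2 1 464 (.bis 5 6 2 1 451 (.leaf 9) (.leaf 47)) (.leaf 47))
  (.bis 2 3 1 1 289 (.bis 3 6 2 1 211 (.leaf 9) (.bis 0 3 1 2 455 (.leaf 30) (.leaf 9))) (.bis 2
  6 2 1 464 (.leaf 9) (.leaf 47))))) (.bis 0 3 1 1 224 (.bis 2 4 1 1 461 (.bis 3 6 2 1 211 (.leaf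
  9) (.bis 3 5 2 1 455 (.leaf 9) (.leaf 30))) (.bis 2 3 1 1 289 (.bis 3 6 2 1 211 (.leaf 9) (.bis
  3 5 2 1 455 (.leaf 9) (.leaf 30))) (.bis 2 6 2 1 464 (.leaf 9) (.bis 0 2 1 2 533 (.leaf 47)
  (.leaf 9))))) (.bis 2 4 1 1 461 (.bis 0 6 2 1 222 (.bis 4 6 2 1 212 (.leaf 9) (.leaf 9)) (.bis
  0 4 1 1 223 (.leaf 9) (.leaf 83))) (.bis 0 2 1 1 534 (.bis 2 6 2 1 464 (.leaf 54) (.leaf 70))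
  (.bis 0 6 2 1 222 (.leaf 54) (.leaf 83)))))) (.bis 1 2 2 1 470 (.bis 0 3 1 1 224 (.bis 2 4 1 1
  461 (.bis 3 6 2 1 211 (.bis 4 6 2 1 212 (.leaf 28) (.leaf 28)) (.bis 1 3 1 2 471 (.leaf 30)
  (.bis 1 4 1 2 472 (.leaf 9) (.leaf 28)))) (.bis 2 3 1 1 289 (.bis 3 6 2 1 211 (.leaf 54) (.bis
  1 3 1 2 471 (.leaf 30) (.leaf 54))) (.bis 2 6 2 1 464 (.leaf 54) (.bis 0 2 1 2 533 (.leaf 70)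
  (.leaf 54))))) (.bis 2 4 1 1 461 (.bis 0 6 2 1 222 (.bis 4 6 2 1 212 (.leaf 28) (.leaf 28))
  (.bis 0 4 1 1 223 (.leaf 28) (.leaf 83))) (.bis 0 2 1 1 534 (.bis 2 6 2 1 464 (.leaf 54) (.bis
  2 3 2 1 533 (.leaf 54) (.leaf 70))) (.bis 0 6 2 1 222 (.leaf 54) (.leaf 83))))) (.bis 1 3 2 1
  226 (.bis 0 3 1 1 224 (.bis 3 6 2 1 211 (.bis 4 6 2 1 212 (.leaf 28) (.bis 2 4 1 2 472 (.leaf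
  28) (.leaf 28))) (.bis 2 3 1 2 471 (.bis 3 4 1 1 189 (.leaf 28) (.leaf 80)) (.bis 2 4 1 2 472
  (.bis 1 4 1 2 535 (.leaf 9) (.leaf 28)) (.leaf 28)))) (.bis 0 6 2 1 222 (.bis 4 6 2 1 212
  (.leaf 28) (.bis 2 4 1 2 472 (.leaf 28) (.leaf 28))) (.bis 0 4 1 1 223 (.bis 2 4 1 2 472 (.leaf
  28) (.leaf 28)) (.leaf 68)))) (.bis 1 4 2 1 227 (.bis 0 6 2 1 222 (.bis 4 6 2 1 212 (.leaf 28)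
  (.bis 2 4 1 2 472 (.leaf 28) (.leaf 28))) (.bis 0 4 1 1 223 (.bis 2 4 1 2 472 (.leaf 28) (.leaf
  28)) (.leaf 68))) (.bis 1 6 4 1 228 (.bis 0 6 2 1 222 (.leaf 28) (.leaf 68)) (.bis 0 1 1 2 230
  (.leaf 100) (.leaf 68))))))) (.bis 0 3 2 1 173 (.bis 1 5 1 1 454 (.bis 2 4 1 1 461 (.bis 3 5 1
  1 246 (.bis 4 5 1 1 443 (.bis 0 5 1 2 269 (.bis 5 6 2 1 451 (.leaf 9) (.leaf 3)) (.bis 0 6 1 1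
  213 (.leaf 9) (.leaf 9))) (.bis 0 6 1 1 213 (.leaf 9) (.leaf 9))) (.bis 3 6 2 1 211 (.leaf 9)
  (.bis 1 3 1 2 455 (.leaf 80) (.leaf 9)))) (.bis 3 5 1 1 246 (.bis 0 5 1 2 269 (.bis 2 6 2 1 464
  (.bis 5 6 2 1 451 (.leaf 9) (.leaf 3)) (.leaf 13)) (.bis 2 6 2 1 464 (.bis 0 6 1 1 213 (.leaf
  9) (.leaf 9)) (.leaf 70))) (.bis 2 3 1 1 289 (.bis 3 6 2 1 211 (.bis 0 6 1 1 213 (.leaf 9)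
  (.leaf 9)) (.bis 1 3 1 2 455 (.leaf 21) (.leaf 9))) (.bis 2 6 2 1 464 (.bis 0 6 1 1 213 (.leaf
  9) (.leaf 9)) (.leaf 70))))) (.bis 1 3 1 1 224 (.bis 2 4 1 1 461 (.bis 3 6 2 1 211 (.bis 0 6 1
  1 213 (.leaf 9) (.leaf 9)) (.bis 3 5 2 1 455 (.leaf 9) (.leaf 80))) (.bis 2 3 1 1 289 (.bis 3 6
  2 1 211 (.bis 0 6 1 1 213 (.leaf 9) (.leaf 9)) (.bis 3 5 2 1 455 (.leaf 9) (.leaf 21))) (.bis 2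
  6 2 1 464 (.bis 0 6 1 1 213 (.leaf 9) (.leaf 9)) (.leaf 70)))) (.bis 2 4 1 1 461 (.bis 1 6 2 1
  222 (.bis 0 6 1 1 213 (.bis 4 6 2 1 212 (.leaf 9) (.leaf 9)) (.bis 0 4 1 2 214 (.leaf 9) (.leaf
  9))) (.bis 1 4 1 1 223 (.leaf 9) (.leaf 50))) (.bis 1 2 1 1 534 (.bis 2 6 2 1 464 (.bis 0 6 1 1
  213 (.leaf 54) (.leaf 70)) (.leaf 70)) (.bis 1 6 2 1 222 (.bis 0 6 1 1 213 (.leaf 54) (.leaf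
  50)) (.leaf 50)))))) (.bis 0 5 2 1 266 (.bis 1 5 1 1 454 (.bis 2 4 1 1 461 (.bis 4 5 1 1 443
  (.bis 3 5 1 2 269 (.bis 0 6 1 1 452 (.bis 5 6 2 1 451 (.leaf 5) (.leaf 3)) (.leaf 3)) (.bis 0 6
  1 1 452 (.bis 3 6 1 1 213 (.leaf 5) (.leaf 5)) (.leaf 5))) (.bis 0 4 1 2 448 (.bis 3 6 1 1 213
  (.leaf 9) (.leaf 9)) (.bis 0 6 1 1 452 (.bis 3 6 1 1 213 (.leaf 5) (.leaf 5)) (.leaf 5))))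
  (.bis 3 5 1 2 269 (.bis 2 6 2 1 464 (.bis 0 6 1 1 452 (.bis 5 6 2 1 451 (.leaf 5) (.leaf 3))
  (.bis 0 5 1 2 536 (.leaf 3) (.leaf 3))) (.leaf 75)) (.bis 2 6 2 1 464 (.bis 0 6 1 1 452 (.leaf
  5) (.leaf 5)) (.leaf 22)))) (.bis 2 4 1 1 461 (.bis 0 4 1 2 448 (.bis 1 6 2 1 222 (.bis 3 6 1 1
  213 (.leaf 9) (.leaf 9)) (.leaf 83)) (.bis 1 6 2 1 222 (.bis 0 6 1 1 452 (.leaf 5) (.leaf 5))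
  (.leaf 50))) (.bis 1 2 1 1 534 (.bis 2 6 2 1 464 (.bis 0 6 1 1 452 (.leaf 5) (.leaf 5)) (.leaf
  22)) (.bis 1 6 2 1 222 (.bis 0 6 1 1 452 (.leaf 5) (.leaf 5)) (.leaf 50))))) (.bis 0 6 4 1 215
  (.bis 2 4 1 1 461 (.bis 4 5 2 1 448 (.bis 1 6 2 1 222 (.bis 5 6 1 1 452 (.leaf 5) (.leaf 5))
  (.leaf 50)) (.bis 1 6 2 1 222 (.bis 3 6 1 1 213 (.bis 0 4 1 4 231 (.leaf 9) (.leaf 5)) (.leaf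
  73)) (.bis 1 4 1 1 223 (.leaf 73) (.leaf 50)))) (.bis 1 2 1 1 534 (.bis 2 6 2 1 464 (.bis 5 6 1
  1 452 (.leaf 5) (.leaf 5)) (.leaf 22)) (.bis 1 6 2 1 222 (.bis 5 6 1 1 452 (.leaf 5) (.leaf 5))
  (.leaf 50)))) (.bis 0 4 2 1 197 (.bis 2 4 1 1 461 (.bis 4 5 2 1 448 (.leaf 50) (.bis 1 4 1 1
  223 (.leaf 36) (.leaf 50))) (.bis 1 2 1 1 534 (.bis 0 2 1 2 532 (.leaf 22) (.leaf 5)) (.leaf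
  50))) (.bis 0 2 2 1 440 (.bis 1 2 1 1 534 (.bis 2 4 2 1 532 (.leaf 22) (.leaf 22)) (.leaf 50))
  (.bis 0 1 2 1 232 (.leaf 50) (.bis 0 3 4 1 177 (.leaf 45) (.bis 0 5 4 1 268 (.leaf 45) (.bis 0
  6 8 1 216 (.leaf 45) (.leaf 45))))))))))))

def lc20 : List Vr := [⟨[56,0,0,0,0,0,0], 21952, 0⟩, ⟨[0,73,0,0,0,0,0], 21316, 0⟩, ⟨[56,0,85,0,0,
  0,0], 129307, 0⟩, ⟨[0,73,0,73,0,0,0], 127896, 0⟩, ⟨[0,73,0,0,56,0,0], 125028, 0⟩, ⟨[0,0,85,0,0,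
  42,0], 128523, 0⟩, ⟨[0,0,85,0,0,0,119], 143055, 0⟩]

theorem lk20 : chkTr lowT (leafLow 6 lowB) lt20 lc20 = true := by decide +kernel

end Pool.Agent.Helper10.Fam.A5
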