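import Pool.Agent.Helper10.FamD.A5LowC0
import Pool.Agent.Helper10.FamD.A5LowC1
import Pool.Agent.Helper10.FamD.A5LowC2
import Pool.Agent.Helper10.FamD.A5LowB

set_option autoImplicit false
set_option maxRecDepth 1000000

/-!
# Certificate data for `U ⊕ A5` (lower bound, certificate)
-/

namespace Pool.Agent.Helper10.Fam.A5

open Pool.Agent.Helper10.Fam

def lS : ℕ → Tr ℕ
  | 0 => lt0
  | 1 => lt1
  | 2 => lt2
  | 3 => lt3
  | 4 => lt4
  | 5 => lt5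
  | 6 => lt6
  | 7 => lt7
  | 8 => lt8
  | 9 => lt9
  | 10 => lt10
  | 11 => lt11
  | 12 => lt12
  | 13 => lt13
  | 14 => lt14
  | 15 => lt15
  | 16 => lt16
  | 17 => lt17
  | 18 => lt18
  | 19 => lt19
  | 20 => lt20
  | _ => .leaf 0

def lC : ℕ → List Vr
  | 0 => lc0
  | 1 => lc1
  | 2 => lc2
  | 3 => lc3
  | 4 => lc4
  | 5 => lc5
  | 6 => lc6
  | 7 => lc7
  | 8 => lc8
  | 9 => lc9
  | 10 => lc10
  | 11 => lc11
  | 12 => lc12
  | 13 => lc13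
  | 14 => lc14
  | 15 => lc15
  | 16 => lc16
  | 17 => lc17
  | 18 => lc18
  | 19 => lc19
  | 20 => lc20
  | _ => []

def lowTT : TT := (.bis 2 6 1 119 8 (.bis 1 6 1 96 9 (.bis 3 6 1 96 10 (.ch 0) (.bis 0 3 1 1 72
  (.ch 1) (.ch 2))) (.bis 1 3 1 1 137 (.bis 0 3 1 1 72 (.ch 3) (.ch 4)) (.bis 1 4 1 1 178 (.ch 5)
  (.ch 6)))) (.bis 1 3 1 1 137 (.bis 2 5 1 1 233 (.bis 0 3 1 1 72 (.ch 7) (.ch 8)) (.bis 0 2 1 1
  270 (.bis 2 4 1 1 271 (.ch 9) (.bis 2 3 1 1 311 (.ch 10) (.ch 11))) (.bis 0 3 1 1 72 (.ch 12)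
  (.ch 13)))) (.bis 2 5 1 1 233 (.bis 1 4 1 1 178 (.ch 14) (.ch 15)) (.bis 0 2 1 1 270 (.bis 2 4
  1 1 271 (.ch 16) (.bis 1 2 1 1 474 (.ch 17) (.ch 18))) (.bis 1 4 1 1 178 (.ch 19) (.ch 20))))))

/-- certificate -/
def low : LowCert := ⟨5100000, lowT, lowB, lowL, lowTT.plug lS⟩

theorem lk : ∀ k, k < 21 → chkTr lowT (leafLow 6 lowB) (lS k) (lC k) = true
  | 0, _ => lk0
  | 1, _ => lk1
  | 2, _ => lk2
  | 3, _ => lk3
  | 4, _ => lk4
  | 5, _ => lk5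
  | 6, _ => lk6
  | 7, _ => lk7
  | 8, _ => lk8
  | 9, _ => lk9
  | 10, _ => lk10
  | 11, _ => lk11
  | 12, _ => lk12
  | 13, _ => lk13
  | 14, _ => lk14
  | 15, _ => lk15
  | 16, _ => lk16
  | 17, _ => lk17
  | 18, _ => lk18
  | 19, _ => lk19
  | 20, _ => lk20
  | k + 21, h => absurd h (by omega)

theorem ltop : chkTT lowT 21 lC lowTT lowL = true := by decide +kernel

theorem low3_ok : lowTree dat low = true := plug_ok lk lowTT lowL ltop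

theorem low2_ok : lowBalls dat low = true := balls_ok

theorem low1_ok : lowTab dat low = true := by decide +kernel

end Pool.Agent.Helper10.Fam.A5
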