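import Pool.Agent.Helper10.FamD.D5LowT

set_option autoImplicit false
set_option maxRecDepth 1000000

/-!
# Certificate data for `U ⊕ D5` (lower bound, check of the balls)
-/

namespace Pool.Agent.Helper10.Fam.D5

open Pool.Agent.Helper10.Fam

theorem ball_lB0 : lB0.all (ballOK dat 2200000) = true := by decide +kernel

theorem ball_lB1 : lB1.all (ballOK dat 2200000) = true := by decide +kernel

theorem balls_ok : lowB.all (ballOK dat 2200000) = true := (all_node (by decide +kernel) ball_lB0
  ball_lB1)

end Pool.Agent.Helper10.Fam.D5
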