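import Pool.Agent.Helper10.FamD.D5LowT

set_option autoImplicit false
set_option maxRecDepth 1000000

/-!
# Certificate data for `U ⊕ D5` (lower bound, subtrees)
-/

namespace Pool.Agent.Helper10.Fam.D5

open Pool.Agent.Helper10.Fam

def lt8 : Tr ℕ := (.bis 0 6 2 1 70 (.bis 4 6 1 1 106 (.bis 3 5 1 2 219 (.bis 5 6 2 1 14 (.bis 1 6
  2 1 28 (.bis 2 6 2 1 49 (.bis 3 6 1 2 220 (.bis 0 6 1 2 76 (.leaf 22) (.leaf 33)) (.leaf 33))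
  (.bis 2 5 4 1 35 (.leaf 33) (.bis 0 2 1 4 79 (.bis 2 3 4 1 225 (.leaf 5) (.bis 1 2 1 4 55 (.bis
  2 4 4 1 119 (.leaf 4) (.bis 2 6 4 1 82 (.leaf 4) (.leaf 4))) (.leaf 5))) (.leaf 33)))) (.bis 2
  5 4 1 35 (.bis 1 5 4 1 21 (.leaf 3) (.bis 0 1 1 4 72 (.bis 1 4 4 1 121 (.leaf 2) (.leaf 2))
  (.leaf 3))) (.bis 0 2 1 4 79 (.bis 2 3 4 1 225 (.bis 1 4 4 1 121 (.leaf 2) (.bis 1 5 8 1 56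
  (.leaf 2) (.leaf 2))) (.bis 1 2 1 1 41 (.bis 2 6 4 1 55 (.leaf 2) (.bis 2 4 4 1 119 (.leaf 2)
  (.leaf 4))) (.bis 1 4 4 1 121 (.leaf 2) (.leaf 2)))) (.bis 0 1 1 4 72 (.bis 1 4 4 1 121 (.leaf
  2) (.leaf 2)) (.leaf 3))))) (.bis 2 5 1 1 32 (.bis 0 5 1 4 73 (.bis 4 5 1 4 123 (.bis 1 5 1 1
  20 (.bis 3 5 1 4 368 (.leaf 32) (.leaf 3)) (.bis 1 6 4 1 21 (.leaf 3) (.bis 0 1 1 8 77 (.leaf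
  10) (.leaf 3)))) (.bis 1 6 4 1 21 (.bis 4 6 1 1 127 (.leaf 3) (.leaf 3)) (.bis 1 4 4 1 121
  (.leaf 3) (.bis 0 1 1 8 77 (.leaf 2) (.leaf 3))))) (.bis 1 6 4 1 21 (.leaf 3) (.bis 0 2 1 2 78
  (.bis 1 4 4 1 121 (.leaf 3) (.bis 1 5 8 1 77 (.leaf 3) (.leaf 2))) (.bis 0 1 1 4 72 (.bis 1 4 4
  1 121 (.leaf 3) (.leaf 10)) (.leaf 3))))) (.bis 2 6 4 1 35 (.bis 1 6 4 1 21 (.bis 0 5 1 2 78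
  (.leaf 3) (.leaf 3)) (.bis 0 5 1 2 78 (.bis 1 4 4 1 121 (.leaf 2) (.leaf 2)) (.bis 0 1 1 4 72
  (.bis 1 4 4 1 121 (.leaf 2) (.leaf 2)) (.leaf 3)))) (.bis 0 2 1 4 79 (.bis 2 3 4 1 225 (.bis 1
  4 4 1 121 (.leaf 2) (.bis 1 6 8 1 56 (.leaf 2) (.leaf 2))) (.bis 1 2 1 1 41 (.bis 2 4 4 1 119
  (.leaf 2) (.bis 2 5 2 1 39 (.leaf 2) (.leaf 4))) (.bis 1 4 4 1 121 (.leaf 2) (.leaf 2)))) (.bis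
  0 5 1 2 78 (.bis 1 4 4 1 121 (.leaf 2) (.bis 1 6 8 1 56 (.leaf 2) (.leaf 2))) (.bis 0 1 1 4 72
  (.bis 1 4 4 1 121 (.leaf 2) (.leaf 2)) (.leaf 3))))))) (.bis 1 6 2 1 28 (.bis 2 6 2 1 49 (.bis
  3 6 1 1 230 (.bis 5 6 1 2 220 (.bis 0 6 1 2 76 (.leaf 48) (.leaf 33)) (.leaf 33)) (.bis 2 3 1 2
  234 (.bis 1 3 1 2 235 (.bis 3 4 2 1 369 (.leaf 33) (.leaf 67)) (.leaf 33)) (.leaf 33))) (.bis 0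
  2 1 4 79 (.bis 2 3 2 1 236 (.bis 3 6 2 1 234 (.leaf 5) (.bis 1 3 1 2 235 (.bis 3 4 2 1 369
  (.leaf 5) (.leaf 17)) (.leaf 5))) (.bis 2 5 4 1 225 (.leaf 5) (.bis 1 2 1 4 55 (.bis 2 4 4 1
  119 (.leaf 4) (.leaf 4)) (.leaf 5)))) (.bis 3 6 2 1 234 (.leaf 33) (.bis 1 3 1 2 235 (.bis 3 4
  2 1 369 (.leaf 17) (.leaf 17)) (.leaf 33))))) (.bis 0 2 1 4 79 (.bis 1 3 2 1 240 (.bis 2 3 2 1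
  236 (.bis 3 6 2 1 235 (.leaf 5) (.bis 3 4 2 1 369 (.leaf 5) (.leaf 17))) (.bis 2 5 4 1 225
  (.leaf 5) (.bis 2 6 4 1 55 (.leaf 5) (.bis 2 4 4 1 119 (.leaf 5) (.bis 1 2 1 4 243 (.leaf 4)
  (.leaf 5)))))) (.bis 2 5 4 1 225 (.bis 1 4 4 1 121 (.leaf 2) (.leaf 2)) (.bis 1 2 1 1 41 (.bis
  2 6 4 1 55 (.leaf 2) (.bis 2 4 4 1 119 (.leaf 2) (.leaf 46))) (.leaf 2)))) (.bis 1 3 2 1 240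
  (.bis 3 6 2 1 235 (.leaf 72) (.bis 3 4 2 1 369 (.leaf 17) (.leaf 17))) (.bis 0 1 1 4 72 (.bis 1
  4 4 1 121 (.leaf 2) (.leaf 2)) (.leaf 72)))))) (.bis 3 5 1 2 219 (.bis 4 5 1 2 133 (.bis 2 5 1
  1 32 (.bis 0 5 1 4 73 (.bis 5 6 4 1 123 (.bis 1 6 4 1 121 (.leaf 3) (.bis 0 1 1 8 77 (.leaf 2)
  (.leaf 3))) (.bis 1 5 1 1 20 (.bis 3 5 1 4 368 (.leaf 32) (.leaf 3)) (.bis 0 1 1 8 77 (.bis 1 6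
  8 1 371 (.leaf 3) (.leaf 10)) (.leaf 3)))) (.bis 0 2 1 2 78 (.bis 1 6 4 1 121 (.leaf 3) (.bis 1
  5 8 1 77 (.leaf 3) (.leaf 2))) (.bis 0 1 1 4 72 (.bis 1 6 4 1 121 (.leaf 3) (.leaf 10)) (.leaf
  3)))) (.bis 0 2 1 4 79 (.bis 2 3 4 1 225 (.bis 1 6 4 1 121 (.leaf 2) (.leaf 2)) (.bis 2 4 4 1
  136 (.bis 1 6 4 1 121 (.leaf 2) (.leaf 2)) (.bis 1 2 1 1 41 (.bis 2 6 4 1 119 (.leaf 2) (.leaf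
  26)) (.bis 1 6 4 1 121 (.leaf 2) (.leaf 2))))) (.bis 0 5 1 2 78 (.bis 1 6 4 1 121 (.leaf 2)
  (.leaf 2)) (.bis 0 1 1 4 72 (.bis 1 6 4 1 121 (.leaf 2) (.leaf 2)) (.leaf 3))))) (.bis 0 2 1 4
  79 (.bis 1 4 2 1 146 (.bis 2 4 2 1 143 (.bis 3 4 1 2 379 (.bis 0 4 1 4 208 (.leaf 16) (.leaf
  8)) (.leaf 45)) (.bis 2 3 4 1 225 (.leaf 45) (.bis 2 5 4 1 136 (.leaf 8) (.bis 2 6 4 1 119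
  (.leaf 8) (.bis 1 2 1 4 147 (.leaf 4) (.leaf 8)))))) (.bis 2 3 4 1 225 (.bis 1 6 4 1 121 (.leaf
  2) (.leaf 2)) (.bis 2 5 4 1 136 (.bis 1 6 4 1 121 (.leaf 2) (.leaf 2)) (.bis 1 2 1 1 41 (.bis 2
  6 4 1 119 (.leaf 2) (.bis 2 4 4 1 147 (.leaf 2) (.leaf 4))) (.leaf 2))))) (.bis 1 4 2 1 146
  (.bis 3 4 1 2 379 (.bis 0 4 1 2 207 (.bis 2 4 1 4 208 (.leaf 16) (.leaf 8)) (.leaf 8)) (.leaf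
  37)) (.bis 0 1 1 4 72 (.leaf 2) (.leaf 37))))) (.bis 0 2 1 4 79 (.bis 1 3 2 1 240 (.bis 2 3 2 1
  236 (.bis 4 5 2 1 379 (.bis 3 6 2 1 369 (.leaf 5) (.leaf 17)) (.bis 3 4 1 1 375 (.bis 1 4 1 2
  380 (.bis 2 4 1 2 381 (.bis 0 4 1 4 208 (.leaf 16) (.leaf 8)) (.leaf 8)) (.leaf 8)) (.leaf
  17))) (.bis 2 4 2 1 143 (.bis 4 5 2 1 379 (.leaf 45) (.bis 1 4 1 2 380 (.bis 3 4 1 2 381 (.leaf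
  16) (.leaf 8)) (.leaf 8))) (.bis 2 5 4 1 225 (.leaf 45) (.bis 2 6 4 1 119 (.leaf 8) (.bis 1 2 1
  4 243 (.leaf 4) (.leaf 8)))))) (.bis 1 4 2 1 146 (.bis 2 4 2 1 143 (.bis 4 5 2 1 379 (.leaf 45)
  (.bis 3 4 1 2 380 (.bis 0 4 1 4 208 (.leaf 16) (.leaf 8)) (.leaf 8))) (.bis 2 5 4 1 225 (.leaf
  45) (.bis 2 6 4 1 119 (.leaf 8) (.bis 1 2 1 4 147 (.leaf 46) (.leaf 8))))) (.bis 2 5 4 1 225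
  (.leaf 2) (.bis 1 2 1 1 41 (.bis 2 6 4 1 119 (.leaf 2) (.bis 2 3 4 1 243 (.leaf 2) (.leaf 46)))
  (.bis 1 6 4 1 121 (.leaf 2) (.leaf 2)))))) (.bis 1 3 2 1 240 (.bis 4 5 2 1 379 (.bis 3 6 2 1
  369 (.leaf 17) (.bis 3 5 2 1 382 (.leaf 17) (.leaf 17))) (.bis 3 4 1 1 375 (.bis 0 4 1 2 207
  (.bis 1 4 1 2 380 (.bis 2 4 1 4 208 (.leaf 16) (.leaf 8)) (.leaf 8)) (.leaf 8)) (.bis 3 6 2 1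
  369 (.leaf 8) (.leaf 17)))) (.bis 1 4 2 1 146 (.bis 4 5 2 1 379 (.leaf 37) (.bis 0 4 1 2 207
  (.bis 3 4 1 2 380 (.bis 2 4 1 4 208 (.leaf 16) (.leaf 8)) (.leaf 8)) (.leaf 8))) (.bis 0 1 1 4
  72 (.leaf 2) (.leaf 37))))))) (.bis 0 5 1 1 92 (.bis 3 5 1 2 219 (.bis 4 5 1 2 133 (.bis 2 5 1
  1 32 (.bis 5 6 4 1 73 (.bis 2 6 2 1 78 (.bis 1 6 4 1 72 (.leaf 10) (.bis 0 1 1 2 94 (.leaf 10)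
  (.leaf 10))) (.bis 0 1 1 2 94 (.bis 1 5 8 1 77 (.leaf 3) (.leaf 2)) (.leaf 10))) (.bis 1 5 1 1
  20 (.bis 0 5 1 2 93 (.bis 3 5 1 4 368 (.leaf 32) (.leaf 3)) (.leaf 32)) (.bis 0 1 1 2 94 (.leaf
  10) (.leaf 10)))) (.bis 0 2 1 2 95 (.bis 2 6 4 1 79 (.bis 5 6 2 1 78 (.bis 1 6 4 1 72 (.leaf 3)
  (.leaf 2)) (.bis 1 3 4 1 383 (.leaf 2) (.leaf 2))) (.bis 2 3 4 1 225 (.bis 1 3 4 1 383 (.leaf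
  2) (.leaf 2)) (.bis 2 4 4 1 136 (.bis 1 4 4 1 209 (.leaf 2) (.leaf 2)) (.bis 1 2 1 1 41 (.bis 2
  5 2 1 39 (.leaf 2) (.leaf 26)) (.leaf 2))))) (.bis 5 6 2 1 78 (.bis 1 6 4 1 72 (.leaf 10) (.bis
  0 1 1 2 94 (.leaf 2) (.leaf 10))) (.bis 0 1 1 2 94 (.leaf 2) (.leaf 10))))) (.bis 0 2 1 2 95
  (.bis 2 6 4 1 79 (.bis 1 4 2 1 146 (.bis 3 4 1 2 379 (.bis 4 6 2 1 207 (.leaf 8) (.bis 2 4 1 4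
  208 (.bis 0 4 1 2 210 (.leaf 16) (.leaf 8)) (.leaf 8))) (.leaf 10)) (.bis 1 6 4 1 72 (.leaf 10)
  (.leaf 2))) (.bis 1 4 2 1 146 (.bis 2 4 2 1 143 (.bis 3 4 1 2 379 (.bis 4 6 4 1 208 (.leaf 8)
  (.bis 0 4 1 2 210 (.leaf 16) (.leaf 8))) (.leaf 45)) (.bis 2 3 4 1 225 (.leaf 45) (.bis 2 5 4 1
  136 (.leaf 8) (.bis 1 2 1 4 147 (.leaf 26) (.leaf 8))))) (.bis 2 3 4 1 225 (.leaf 2) (.bis 2 5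
  4 1 136 (.leaf 2) (.bis 1 2 1 1 41 (.bis 2 4 4 1 147 (.leaf 2) (.leaf 26)) (.leaf 2)))))) (.bis
  1 4 2 1 146 (.bis 0 4 1 1 212 (.bis 3 4 1 2 379 (.bis 4 6 2 1 207 (.leaf 8) (.bis 2 4 1 2 210
  (.leaf 16) (.leaf 8))) (.leaf 10)) (.leaf 10)) (.bis 1 6 4 1 72 (.leaf 10) (.leaf 10))))) (.bis
  0 2 1 2 95 (.bis 2 6 4 1 79 (.bis 1 3 2 1 240 (.bis 4 5 2 1 379 (.bis 0 3 1 2 384 (.bis 3 5 2 1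
  382 (.leaf 17) (.leaf 17)) (.leaf 17)) (.bis 3 4 1 1 375 (.bis 4 6 2 1 207 (.leaf 8) (.bis 1 4
  1 2 380 (.bis 2 4 1 4 208 (.leaf 16) (.leaf 8)) (.leaf 8))) (.bis 0 3 1 2 384 (.leaf 17) (.leaf
  8)))) (.bis 1 4 2 1 146 (.bis 4 5 2 1 379 (.leaf 10) (.bis 4 6 2 1 207 (.leaf 8) (.bis 3 4 1 2
  380 (.bis 2 4 1 4 208 (.leaf 16) (.leaf 8)) (.leaf 8)))) (.leaf 10))) (.bis 1 3 2 1 240 (.bis 2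
  3 2 1 236 (.bis 4 5 2 1 379 (.bis 0 3 1 2 384 (.bis 3 5 2 1 382 (.leaf 5) (.leaf 17)) (.leaf
  5)) (.bis 3 4 1 1 375 (.bis 1 4 1 2 380 (.bis 2 4 1 2 381 (.bis 4 6 4 1 208 (.leaf 8) (.leaf
  16)) (.leaf 8)) (.leaf 8)) (.bis 0 3 1 2 384 (.leaf 17) (.leaf 8)))) (.bis 2 4 2 1 143 (.bis 4
  5 2 1 379 (.leaf 45) (.bis 1 4 1 2 380 (.bis 3 4 1 2 381 (.bis 4 6 4 1 208 (.leaf 8) (.leaf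
  16)) (.leaf 8)) (.leaf 8))) (.bis 2 5 4 1 225 (.bis 4 5 1 1 385 (.leaf 5) (.leaf 8)) (.bis 1 2
  1 4 243 (.leaf 26) (.leaf 8))))) (.bis 1 4 2 1 146 (.bis 2 4 2 1 143 (.bis 4 5 2 1 379 (.leaf
  45) (.bis 3 4 1 2 380 (.bis 4 6 4 1 208 (.leaf 8) (.leaf 16)) (.leaf 8))) (.bis 2 5 4 1 225
  (.leaf 45) (.bis 1 2 1 4 147 (.bis 2 3 4 1 243 (.leaf 8) (.leaf 26)) (.leaf 8)))) (.bis 2 5 4 1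
  225 (.leaf 2) (.bis 1 2 1 1 41 (.bis 2 3 4 1 243 (.leaf 2) (.bis 2 4 4 1 147 (.leaf 2) (.leaf
  26))) (.leaf 2)))))) (.bis 1 3 2 1 240 (.bis 0 3 1 1 386 (.bis 4 5 2 1 379 (.bis 2 3 1 2 384
  (.bis 3 5 2 1 382 (.leaf 17) (.leaf 17)) (.leaf 17)) (.bis 3 4 1 1 375 (.bis 4 6 2 1 207 (.leaf
  8) (.bis 1 4 1 2 380 (.bis 0 4 1 2 387 (.leaf 16) (.leaf 8)) (.leaf 8))) (.bis 2 3 1 2 384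
  (.leaf 17) (.leaf 8)))) (.bis 0 4 1 1 212 (.bis 4 5 2 1 379 (.leaf 10) (.bis 4 6 2 1 207 (.leaf
  8) (.bis 1 4 1 2 380 (.bis 3 4 1 2 387 (.leaf 16) (.leaf 8)) (.leaf 8)))) (.leaf 10))) (.bis 1
  4 2 1 146 (.bis 0 4 1 1 212 (.bis 4 5 2 1 379 (.leaf 10) (.bis 4 6 2 1 207 (.leaf 8) (.bis 3 4
  1 2 380 (.leaf 16) (.leaf 8)))) (.leaf 10)) (.bis 1 6 4 1 72 (.leaf 10) (.leaf 10)))))) (.bis 0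
  2 1 1 98 (.bis 2 5 2 1 95 (.bis 1 3 2 1 240 (.bis 3 5 1 1 386 (.bis 4 5 1 1 212 (.leaf 29)
  (.bis 4 6 2 1 207 (.leaf 8) (.bis 1 4 1 2 380 (.bis 3 4 1 2 387 (.bis 2 4 1 2 210 (.leaf 16)
  (.leaf 8)) (.leaf 8)) (.leaf 8)))) (.bis 3 4 1 1 375 (.bis 4 6 2 1 207 (.leaf 8) (.bis 1 4 1 2
  380 (.bis 4 5 2 1 387 (.leaf 8) (.bis 2 4 1 2 210 (.leaf 16) (.leaf 8))) (.leaf 8))) (.bis 2 3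
  1 2 384 (.leaf 17) (.leaf 8)))) (.bis 1 4 2 1 146 (.bis 4 5 1 1 212 (.leaf 29) (.bis 4 6 2 1
  207 (.leaf 8) (.bis 3 4 1 2 380 (.bis 2 4 1 2 210 (.leaf 16) (.leaf 8)) (.leaf 8)))) (.bis 1 6
  4 1 72 (.leaf 29) (.leaf 50)))) (.bis 2 6 4 1 79 (.bis 1 3 2 1 240 (.bis 3 4 1 1 375 (.bis 4 6
  2 1 207 (.leaf 8) (.bis 1 4 1 2 380 (.bis 2 4 1 4 208 (.leaf 16) (.leaf 8)) (.leaf 8))) (.bis 3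
  5 2 1 384 (.leaf 8) (.leaf 17))) (.bis 1 4 2 1 146 (.bis 4 6 2 1 207 (.leaf 8) (.bis 3 4 1 2
  380 (.bis 2 4 1 4 208 (.leaf 16) (.leaf 8)) (.leaf 8))) (.bis 1 6 4 1 72 (.leaf 8) (.leaf
  50)))) (.bis 1 3 2 1 240 (.bis 2 3 2 1 236 (.bis 3 4 1 1 375 (.bis 1 4 1 2 380 (.bis 2 4 1 2
  381 (.bis 4 6 4 1 208 (.leaf 8) (.leaf 16)) (.leaf 8)) (.leaf 8)) (.bis 3 5 2 1 384 (.leaf 8)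
  (.leaf 17))) (.bis 2 4 2 1 143 (.bis 1 4 1 2 380 (.bis 3 4 1 2 381 (.bis 4 6 4 1 208 (.leaf 8)
  (.leaf 16)) (.leaf 8)) (.leaf 8)) (.bis 0 2 1 2 101 (.bis 1 2 1 4 243 (.leaf 26) (.leaf 8))
  (.leaf 8)))) (.bis 1 4 2 1 146 (.bis 2 4 2 1 143 (.bis 3 4 1 2 380 (.bis 4 6 4 1 208 (.leaf 8)
  (.leaf 16)) (.leaf 8)) (.bis 0 2 1 2 101 (.bis 1 2 1 4 147 (.bis 2 3 4 1 243 (.leaf 8) (.leaf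
  26)) (.leaf 8)) (.leaf 8))) (.bis 1 2 1 1 41 (.bis 0 2 1 2 101 (.bis 2 3 4 1 243 (.leaf 37)
  (.bis 2 4 4 1 147 (.leaf 37) (.leaf 26))) (.leaf 37)) (.leaf 72)))))) (.bis 0 1 1 1 102 (.bis 1
  3 2 1 240 (.bis 3 5 1 1 386 (.bis 4 5 1 1 212 (.leaf 29) (.bis 4 6 2 1 207 (.leaf 8) (.bis 1 4
  1 2 380 (.bis 3 4 1 2 387 (.bis 0 4 1 1 213 (.leaf 16) (.leaf 8)) (.leaf 8)) (.leaf 8)))) (.bis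
  3 4 1 1 375 (.bis 4 6 2 1 207 (.leaf 8) (.bis 1 4 1 2 380 (.bis 4 5 2 1 387 (.leaf 8) (.bis 0 4
  1 1 213 (.leaf 16) (.leaf 8))) (.leaf 8))) (.bis 0 3 1 1 388 (.leaf 17) (.leaf 8)))) (.bis 1 4
  2 1 146 (.bis 4 5 1 1 212 (.leaf 29) (.bis 4 6 2 1 207 (.leaf 8) (.bis 3 4 1 2 380 (.bis 0 4 1
  1 213 (.leaf 16) (.leaf 8)) (.leaf 8)))) (.bis 1 6 4 1 72 (.leaf 29) (.leaf 50)))) (.bis 0 3 2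
  1 389 (.bis 3 5 1 1 386 (.bis 4 5 1 1 212 (.leaf 29) (.bis 4 6 2 1 207 (.leaf 29) (.bis 0 4 1 2
  390 (.bis 3 4 1 2 387 (.bis 1 4 1 1 213 (.leaf 16) (.leaf 8)) (.leaf 8)) (.leaf 29)))) (.bis 3
  4 1 1 375 (.bis 4 6 2 1 207 (.leaf 29) (.bis 0 4 1 2 390 (.bis 4 5 2 1 387 (.leaf 8) (.bis 1 4
  1 1 213 (.leaf 16) (.leaf 8))) (.leaf 29))) (.bis 1 3 1 1 388 (.leaf 106) (.leaf 29)))) (.bis 0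
  4 2 1 214 (.bis 4 5 1 1 212 (.leaf 29) (.bis 4 6 2 1 207 (.leaf 29) (.bis 3 4 1 2 390 (.bis 1 4
  1 1 213 (.leaf 83) (.leaf 29)) (.leaf 29)))) (.leaf 73)))))))

def lc8 : List Vr := [⟨[60,0,0,0,0,0,0], 14400, 0⟩, ⟨[0,24,0,0,0,0,0], 13824, 0⟩, ⟨[0,0,27,0,0,0,
  0], 14580, 0⟩, ⟨[60,0,0,69,0,0,0], 78363, 0⟩, ⟨[60,0,0,0,69,0,0], 78363, 0⟩, ⟨[0,0,0,0,0,42,0],
  14112, 0⟩, ⟨[0,0,0,69,0,0,70], 52923, 0⟩]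

theorem lk8 : chkTr lowT (leafLow 4 lowB) lt8 lc8 = true := by decide +kernel

end Pool.Agent.Helper10.Fam.D5
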