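import Pool.Agent.Helper10.FamD.D5LowC0
import Pool.Agent.Helper10.FamD.D5LowC1
import Pool.Agent.Helper10.FamD.D5LowB

set_option autoImplicit false
set_option maxRecDepth 1000000

/-!
# Certificate data for `U ⊕ D5` (lower bound, certificate)
-/

namespace Pool.Agent.Helper10.Fam.D5

open Pool.Agent.Helper10.Fam

def lS : ℕ → Tr ℕ
  | 0 => lt0
  | 1 => lt1
  | 2 => lt2
  | 3 => lt3
  | 4 => lt4
  | 5 => lt5
  | 6 => lt6
  | 7 => lt7
  | 8 => lt8
  | _ => .leaf 0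

def lC : ℕ → List Vr
  | 0 => lc0
  | 1 => lc1
  | 2 => lc2
  | 3 => lc3
  | 4 => lc4
  | 5 => lc5
  | 6 => lc6
  | 7 => lc7
  | 8 => lc8
  | _ => []

def lowTT : TT := (.bis 3 6 1 70 8 (.bis 4 6 1 70 9 (.ch 0) (.bis 0 4 1 1 104 (.bis 4 5 1 1 105
  (.ch 1) (.ch 2)) (.ch 3))) (.bis 0 3 1 1 216 (.bis 3 4 1 1 217 (.bis 4 5 1 1 105 (.ch 4) (.ch
  5)) (.ch 6)) (.bis 0 4 1 1 104 (.ch 7) (.ch 8))))

/-- certificate -/
def low : LowCert := ⟨2200000, lowT, lowB, lowL, lowTT.plug lS⟩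

theorem lk : ∀ k, k < 9 → chkTr lowT (leafLow 4 lowB) (lS k) (lC k) = true
  | 0, _ => lk0
  | 1, _ => lk1
  | 2, _ => lk2
  | 3, _ => lk3
  | 4, _ => lk4
  | 5, _ => lk5
  | 6, _ => lk6
  | 7, _ => lk7
  | 8, _ => lk8
  | k + 9, h => absurd h (by omega)

theorem ltop : chkTT lowT 9 lC lowTT lowL = true := by decide +kernel

theorem low3_ok : lowTree dat low = true := plug_ok lk lowTT lowL ltop

theorem low2_ok : lowBalls dat low = true := balls_ok

theorem low1_ok : lowTab dat low = true := by decide +kernel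

end Pool.Agent.Helper10.Fam.D5
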