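import Pool.Agent.Helper10.FamD.D6LowT

set_option autoImplicit false
set_option maxRecDepth 1000000

/-!
# Certificate data for `U ⊕ D6` (lower bound, subtrees)
-/

namespace Pool.Agent.Helper10.Fam.D6

open Pool.Agent.Helper10.Fam

def lt8 : Tr ℕ := (.bis 3 6 1 1 59 (.bis 0 6 1 2 276 (.bis 6 7 2 1 16 (.bis 2 7 2 1 53 (.bis 5 7
  1 1 149 (.bis 1 7 2 1 35 (.bis 3 7 1 1 66 (.bis 4 7 1 2 277 (.bis 0 7 1 2 278 (.leaf 19) (.bis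
  0 5 1 1 279 (.leaf 3) (.bis 0 2 1 1 280 (.leaf 3) (.leaf 3)))) (.bis 4 6 1 1 281 (.bis 0 5 1 1
  279 (.leaf 3) (.leaf 3)) (.leaf 5))) (.leaf 42)) (.bis 1 5 4 1 151 (.leaf 42) (.bis 1 6 4 1 27
  (.leaf 42) (.bis 1 4 4 1 282 (.leaf 5) (.bis 1 2 4 1 55 (.leaf 3) (.leaf 9)))))) (.bis 5 6 2 1
  129 (.bis 1 7 4 1 151 (.leaf 42) (.bis 1 6 4 1 27 (.leaf 42) (.bis 1 4 4 1 282 (.leaf 5) (.bis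
  1 2 4 1 55 (.leaf 3) (.leaf 9))))) (.bis 1 5 2 1 137 (.bis 2 5 1 2 150 (.bis 0 5 1 2 283 (.leaf
  14) (.leaf 5)) (.leaf 5)) (.bis 1 7 4 1 151 (.leaf 5) (.bis 1 4 4 1 282 (.leaf 5) (.bis 1 2 4 1
  55 (.leaf 3) (.leaf 9))))))) (.bis 2 6 4 1 42 (.bis 5 6 2 1 129 (.bis 1 6 4 1 27 (.leaf 42)
  (.bis 1 4 4 1 282 (.leaf 5) (.bis 1 7 4 1 55 (.leaf 3) (.bis 1 5 8 1 146 (.leaf 3) (.leaf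
  6))))) (.bis 1 5 2 1 137 (.bis 5 7 2 1 150 (.leaf 5) (.bis 0 5 1 2 283 (.leaf 14) (.leaf 5)))
  (.bis 1 4 4 1 282 (.leaf 5) (.bis 1 7 4 1 55 (.leaf 3) (.leaf 9))))) (.bis 1 5 2 1 137 (.bis 2
  5 2 1 140 (.bis 5 7 2 1 150 (.leaf 5) (.bis 0 5 1 2 283 (.leaf 14) (.leaf 5))) (.bis 2 4 4 1
  284 (.leaf 5) (.bis 0 2 1 4 285 (.leaf 2) (.leaf 5)))) (.bis 1 4 4 1 282 (.bis 2 4 4 1 284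
  (.leaf 5) (.bis 0 2 1 4 285 (.leaf 2) (.leaf 5))) (.bis 1 7 4 1 55 (.bis 0 2 1 4 285 (.bis 5 7
  1 1 153 (.bis 2 7 4 1 56 (.leaf 2) (.leaf 2)) (.bis 2 5 4 1 142 (.leaf 2) (.leaf 2))) (.leaf
  3)) (.bis 0 2 1 4 285 (.bis 1 2 1 1 47 (.leaf 2) (.leaf 6)) (.leaf 6))))))) (.bis 2 6 1 1 39
  (.bis 5 6 1 2 144 (.bis 4 6 1 4 286 (.bis 1 6 1 1 26 (.leaf 39) (.bis 1 7 4 1 27 (.leaf 3)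
  (.bis 1 5 4 1 147 (.leaf 3) (.leaf 9)))) (.bis 1 7 4 1 27 (.leaf 42) (.bis 1 4 4 1 282 (.leaf
  24) (.bis 1 5 4 1 147 (.leaf 3) (.leaf 9))))) (.bis 5 7 2 1 129 (.bis 1 7 4 1 27 (.leaf 42)
  (.bis 1 4 4 1 282 (.leaf 24) (.bis 1 5 8 1 146 (.leaf 3) (.leaf 24)))) (.bis 1 5 2 1 137 (.bis
  0 5 1 2 283 (.leaf 79) (.leaf 24)) (.bis 1 4 4 1 282 (.leaf 24) (.bis 1 7 8 1 146 (.leaf 3)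
  (.leaf 24)))))) (.bis 2 7 4 1 42 (.bis 5 7 2 1 129 (.bis 1 7 4 1 27 (.leaf 42) (.bis 1 4 4 1
  282 (.leaf 24) (.bis 1 5 8 1 146 (.leaf 3) (.leaf 6)))) (.bis 1 5 2 1 137 (.bis 0 5 1 2 283
  (.bis 5 6 1 1 145 (.leaf 24) (.leaf 14)) (.leaf 24)) (.bis 1 4 4 1 282 (.leaf 24) (.bis 1 7 8 1
  146 (.leaf 3) (.leaf 6))))) (.bis 1 5 2 1 137 (.bis 2 5 2 1 140 (.bis 0 5 1 2 283 (.bis 5 6 1 1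
  145 (.leaf 24) (.leaf 14)) (.leaf 24)) (.bis 2 4 4 1 284 (.leaf 24) (.bis 0 2 1 4 285 (.leaf 6)
  (.leaf 6)))) (.bis 1 4 4 1 282 (.bis 2 4 4 1 284 (.leaf 24) (.bis 0 2 1 4 285 (.leaf 6) (.leaf
  6))) (.bis 0 2 1 4 285 (.bis 1 2 1 1 47 (.leaf 6) (.leaf 6)) (.leaf 6))))))) (.bis 2 7 2 1 53
  (.bis 5 7 1 1 149 (.bis 1 7 2 1 35 (.bis 0 7 1 1 287 (.bis 3 7 1 1 66 (.bis 4 7 1 2 277 (.bis 6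
  7 1 2 278 (.leaf 19) (.bis 5 6 1 1 279 (.leaf 8) (.leaf 8))) (.bis 1 4 1 1 288 (.leaf 8) (.bis
  5 6 1 1 279 (.leaf 8) (.leaf 8)))) (.leaf 22)) (.bis 0 3 1 1 289 (.leaf 22) (.bis 0 5 2 1 290
  (.leaf 8) (.bis 0 1 2 1 291 (.leaf 8) (.bis 0 2 2 1 292 (.leaf 8) (.bis 0 4 2 1 293 (.leaf 8)
  (.leaf 28))))))) (.bis 0 1 1 2 294 (.bis 1 5 4 1 151 (.leaf 5) (.bis 1 4 4 1 282 (.leaf 5)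
  (.bis 1 2 4 1 55 (.leaf 5) (.leaf 24)))) (.bis 0 3 1 1 289 (.leaf 5) (.bis 0 5 2 1 290 (.leaf
  5) (.bis 0 7 2 1 291 (.leaf 5) (.bis 0 2 2 1 292 (.leaf 5) (.leaf 15))))))) (.bis 0 5 1 1 295
  (.bis 1 5 2 1 137 (.bis 2 5 1 2 150 (.leaf 87) (.leaf 5)) (.bis 1 7 4 1 151 (.leaf 5) (.bis 1 4
  4 1 282 (.bis 2 5 1 1 153 (.leaf 5) (.leaf 5)) (.bis 1 2 4 1 55 (.leaf 5) (.leaf 24))))) (.bis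
  0 1 1 2 294 (.bis 1 7 4 1 151 (.leaf 5) (.bis 1 4 4 1 282 (.leaf 5) (.bis 1 2 4 1 55 (.leaf 5)
  (.leaf 24)))) (.bis 0 3 1 1 289 (.leaf 5) (.bis 0 7 2 1 290 (.leaf 5) (.bis 0 2 2 1 292 (.leaf
  5) (.leaf 15))))))) (.bis 0 5 1 1 295 (.bis 1 5 2 1 137 (.bis 2 5 2 1 140 (.bis 5 7 2 1 150
  (.bis 1 7 1 1 153 (.leaf 5) (.leaf 5)) (.leaf 87)) (.bis 2 4 4 1 284 (.bis 1 7 1 1 153 (.leaf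
  5) (.leaf 5)) (.bis 2 6 4 1 285 (.bis 1 7 1 1 153 (.leaf 5) (.leaf 5)) (.bis 0 2 1 4 296 (.bis
  1 7 1 1 153 (.leaf 2) (.leaf 2)) (.bis 1 7 1 1 153 (.leaf 2) (.leaf 2)))))) (.bis 1 4 4 1 282
  (.bis 2 4 4 1 284 (.bis 5 7 1 1 153 (.leaf 5) (.leaf 5)) (.bis 2 6 4 1 285 (.bis 5 7 1 1 153
  (.leaf 5) (.leaf 5)) (.bis 0 2 1 4 296 (.bis 5 7 1 1 153 (.leaf 2) (.leaf 2)) (.bis 5 7 1 1 153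
  (.leaf 2) (.leaf 2))))) (.bis 1 7 4 1 55 (.bis 2 6 4 1 285 (.leaf 5) (.bis 0 2 1 4 296 (.leaf
  2) (.leaf 2))) (.bis 0 1 1 4 297 (.bis 2 6 4 1 285 (.leaf 6) (.bis 1 2 1 1 47 (.leaf 2) (.leaf
  6))) (.bis 2 6 4 1 285 (.leaf 5) (.bis 0 2 1 4 296 (.leaf 2) (.leaf 2))))))) (.bis 0 1 1 2 294
  (.bis 1 4 4 1 282 (.bis 2 4 4 1 284 (.bis 5 7 1 1 298 (.leaf 5) (.leaf 5)) (.bis 2 6 4 1 285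
  (.bis 5 7 1 1 298 (.leaf 5) (.leaf 5)) (.bis 2 5 4 1 296 (.bis 5 7 1 1 298 (.leaf 2) (.leaf 2))
  (.leaf 2)))) (.bis 1 7 4 1 55 (.bis 2 6 4 1 285 (.leaf 5) (.bis 2 5 4 1 296 (.leaf 2) (.leaf
  2))) (.bis 1 5 4 1 297 (.bis 2 6 4 1 285 (.leaf 5) (.bis 2 5 4 1 296 (.leaf 2) (.leaf 2)))
  (.bis 2 6 4 1 285 (.leaf 6) (.bis 1 2 1 1 47 (.leaf 2) (.leaf 6)))))) (.bis 0 2 1 2 299 (.bis 2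
  4 4 1 284 (.bis 5 7 1 1 298 (.leaf 22) (.leaf 22)) (.bis 2 6 4 1 285 (.leaf 22) (.leaf 2)))
  (.bis 0 3 1 1 289 (.bis 5 7 1 1 298 (.leaf 22) (.leaf 22)) (.bis 0 7 2 1 292 (.bis 5 7 1 1 298
  (.leaf 8) (.leaf 8)) (.leaf 15)))))))) (.bis 3 7 2 1 69 (.bis 2 7 2 1 53 (.bis 5 7 1 1 149
  (.bis 1 7 2 1 35 (.bis 0 7 1 1 287 (.bis 6 7 1 1 66 (.bis 4 7 1 2 277 (.leaf 19) (.bis 1 4 1 1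
  288 (.bis 0 4 1 1 300 (.leaf 5) (.leaf 8)) (.leaf 8))) (.bis 0 6 1 2 301 (.leaf 5) (.bis 1 4 1
  1 288 (.leaf 8) (.leaf 8)))) (.bis 0 6 1 1 289 (.bis 6 7 2 1 301 (.leaf 8) (.leaf 5)) (.bis 0 5
  2 1 290 (.leaf 8) (.bis 0 1 2 1 291 (.leaf 8) (.bis 0 2 2 1 292 (.leaf 8) (.bis 0 3 2 1 302
  (.leaf 8) (.bis 0 4 2 1 293 (.leaf 8) (.leaf 28)))))))) (.bis 0 1 1 2 294 (.bis 1 3 4 1 71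
  (.bis 0 5 1 1 303 (.leaf 5) (.leaf 5)) (.bis 1 5 4 1 151 (.bis 0 5 1 1 303 (.leaf 5) (.leaf 5))
  (.bis 1 4 4 1 282 (.leaf 5) (.bis 1 2 4 1 55 (.leaf 5) (.leaf 24))))) (.bis 0 6 1 1 289 (.bis 1
  5 1 1 303 (.leaf 5) (.leaf 5)) (.bis 0 5 2 1 290 (.bis 1 5 1 1 303 (.leaf 5) (.leaf 5)) (.bis 0
  7 2 1 291 (.leaf 5) (.bis 0 2 2 1 292 (.leaf 5) (.bis 0 3 2 1 302 (.leaf 5) (.bis 0 4 2 1 293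
  (.leaf 5) (.leaf 15))))))))) (.bis 0 5 1 1 295 (.bis 1 5 2 1 137 (.bis 2 5 1 2 150 (.bis 3 5 1
  2 166 (.leaf 14) (.leaf 4)) (.leaf 5)) (.bis 1 3 4 1 71 (.leaf 5) (.bis 1 7 4 1 151 (.leaf 5)
  (.bis 1 4 4 1 282 (.leaf 2) (.bis 1 2 4 1 55 (.leaf 2) (.leaf 24)))))) (.bis 0 1 1 2 294 (.bis
  1 3 4 1 71 (.bis 0 7 1 1 303 (.leaf 5) (.leaf 5)) (.bis 1 7 4 1 151 (.leaf 5) (.bis 1 4 4 1 282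
  (.leaf 2) (.bis 1 2 4 1 55 (.leaf 2) (.leaf 24))))) (.bis 0 6 1 1 289 (.leaf 5) (.bis 0 7 2 1
  290 (.leaf 5) (.bis 0 2 2 1 292 (.leaf 5) (.bis 0 3 2 1 302 (.leaf 5) (.leaf 15)))))))) (.bis 0
  5 1 1 295 (.bis 1 5 2 1 137 (.bis 2 5 2 1 140 (.bis 5 7 2 1 150 (.leaf 5) (.bis 3 5 1 2 166
  (.leaf 14) (.bis 1 3 1 1 169 (.leaf 4) (.leaf 2)))) (.bis 2 3 4 1 72 (.leaf 5) (.bis 2 4 4 1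
  284 (.leaf 2) (.leaf 2)))) (.bis 1 3 4 1 71 (.bis 2 3 4 1 72 (.leaf 5) (.bis 2 4 4 1 284 (.leaf
  2) (.bis 0 2 1 4 296 (.leaf 2) (.leaf 2)))) (.bis 1 4 4 1 282 (.bis 2 4 4 1 284 (.leaf 2) (.bis
  0 2 1 4 296 (.bis 5 7 1 1 153 (.bis 2 7 4 1 56 (.leaf 2) (.leaf 2)) (.bis 2 5 4 1 142 (.leaf 2)
  (.leaf 2))) (.leaf 2))) (.bis 1 7 4 1 55 (.bis 0 2 1 4 296 (.bis 5 7 1 1 153 (.bis 2 7 4 1 56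
  (.leaf 2) (.leaf 2)) (.bis 2 5 4 1 142 (.leaf 2) (.leaf 2))) (.leaf 2)) (.bis 0 1 1 4 297 (.bis
  1 2 1 1 47 (.bis 2 5 4 1 142 (.leaf 2) (.leaf 2)) (.leaf 6)) (.bis 0 2 1 4 296 (.bis 2 5 4 1
  142 (.leaf 2) (.leaf 2)) (.leaf 2))))))) (.bis 0 1 1 2 294 (.bis 1 3 4 1 71 (.bis 2 3 4 1 72
  (.leaf 5) (.bis 2 4 4 1 284 (.leaf 2) (.bis 2 5 4 1 296 (.leaf 2) (.leaf 2)))) (.bis 1 4 4 1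
  282 (.bis 2 4 4 1 284 (.leaf 2) (.bis 2 5 4 1 296 (.leaf 2) (.bis 2 7 4 1 56 (.leaf 2) (.leaf
  2)))) (.bis 1 7 4 1 55 (.bis 2 5 4 1 296 (.leaf 2) (.bis 2 7 4 1 56 (.leaf 2) (.leaf 2))) (.bis
  1 5 4 1 297 (.bis 2 5 4 1 296 (.leaf 2) (.bis 0 2 1 4 304 (.leaf 2) (.leaf 2))) (.bis 1 2 1 1
  47 (.bis 0 2 1 4 304 (.leaf 2) (.leaf 2)) (.leaf 6)))))) (.bis 0 2 1 2 299 (.bis 2 3 4 1 72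
  (.leaf 22) (.bis 2 4 4 1 284 (.leaf 2) (.bis 2 5 4 1 296 (.leaf 2) (.leaf 2)))) (.bis 0 6 1 1
  289 (.leaf 22) (.bis 0 7 2 1 292 (.leaf 8) (.bis 0 3 2 1 302 (.bis 1 3 1 1 305 (.leaf 4) (.leaf
  8)) (.bis 0 4 2 1 293 (.leaf 8) (.leaf 15))))))))) (.bis 0 5 1 1 295 (.bis 1 3 1 1 77 (.bis 2 5
  2 1 140 (.bis 3 5 2 1 170 (.bis 5 7 2 1 166 (.bis 2 7 1 1 172 (.leaf 4) (.leaf 4)) (.leaf 32))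
  (.bis 3 4 4 1 306 (.bis 2 7 1 1 172 (.bis 5 7 1 1 307 (.leaf 4) (.leaf 4)) (.leaf 4)) (.bis 2 7
  1 1 172 (.bis 3 7 4 1 81 (.leaf 4) (.bis 0 3 1 4 308 (.leaf 36) (.leaf 4))) (.bis 0 3 1 4 308
  (.bis 3 6 2 1 83 (.leaf 4) (.leaf 7)) (.leaf 4))))) (.bis 2 7 4 1 72 (.bis 3 4 4 1 306 (.bis 5
  7 1 1 172 (.leaf 4) (.leaf 2)) (.bis 5 7 1 1 172 (.bis 3 7 4 1 81 (.leaf 4) (.bis 0 3 1 4 308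
  (.leaf 36) (.leaf 4))) (.bis 0 3 1 4 308 (.bis 3 6 2 1 83 (.leaf 2) (.leaf 7)) (.leaf 2))))
  (.bis 2 3 1 1 84 (.bis 3 4 4 1 306 (.leaf 2) (.bis 0 3 1 4 308 (.bis 3 6 2 1 83 (.leaf 2)
  (.leaf 7)) (.leaf 2))) (.leaf 2)))) (.bis 1 5 2 1 137 (.bis 2 5 2 1 140 (.bis 5 7 2 1 166 (.bis
  1 7 1 1 169 (.leaf 4) (.leaf 2)) (.leaf 32)) (.bis 2 7 4 1 72 (.bis 1 7 1 1 169 (.leaf 4)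
  (.leaf 2)) (.bis 2 4 4 1 284 (.leaf 2) (.leaf 2)))) (.bis 1 7 4 1 71 (.bis 2 7 4 1 72 (.leaf 4)
  (.bis 2 4 4 1 284 (.leaf 2) (.bis 0 2 1 4 296 (.leaf 2) (.leaf 2)))) (.bis 1 4 4 1 282 (.bis 2
  4 4 1 284 (.leaf 2) (.bis 0 2 1 4 296 (.leaf 2) (.leaf 2))) (.bis 0 1 1 4 297 (.bis 1 2 1 1 47
  (.bis 2 5 4 1 142 (.leaf 2) (.leaf 2)) (.leaf 6)) (.bis 0 2 1 4 296 (.bis 2 5 4 1 142 (.leaf 2)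
  (.leaf 2)) (.leaf 2))))))) (.bis 1 3 1 1 77 (.bis 0 2 1 2 299 (.bis 2 7 4 1 72 (.bis 3 4 4 1
  306 (.leaf 4) (.bis 0 3 1 4 309 (.bis 3 7 4 1 81 (.leaf 4) (.leaf 36)) (.leaf 4))) (.bis 2 3 1
  1 84 (.bis 3 4 4 1 306 (.leaf 2) (.bis 0 3 1 4 309 (.leaf 36) (.leaf 2))) (.leaf 2))) (.bis 0 3
  1 2 310 (.bis 3 4 4 1 306 (.bis 0 6 1 2 311 (.bis 2 7 1 1 312 (.leaf 4) (.leaf 2)) (.bis 2 7 1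
  1 312 (.leaf 4) (.leaf 4))) (.bis 2 3 1 4 309 (.bis 3 7 4 1 81 (.leaf 4) (.leaf 36)) (.bis 0 6
  1 2 311 (.bis 2 7 1 1 312 (.leaf 4) (.leaf 2)) (.bis 2 7 1 1 312 (.leaf 4) (.leaf 4))))) (.bis
  0 6 1 1 289 (.bis 3 6 1 2 311 (.bis 2 7 1 1 312 (.leaf 4) (.leaf 2)) (.bis 2 7 1 1 312 (.leaf
  4) (.leaf 4))) (.bis 0 7 2 1 302 (.leaf 4) (.leaf 15))))) (.bis 0 1 1 2 294 (.bis 1 7 4 1 71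
  (.bis 2 7 4 1 72 (.leaf 5) (.bis 2 4 4 1 284 (.leaf 2) (.bis 2 5 4 1 296 (.leaf 2) (.leaf 2))))
  (.bis 1 4 4 1 282 (.bis 2 4 4 1 284 (.leaf 2) (.bis 2 5 4 1 296 (.leaf 2) (.leaf 2))) (.bis 1 5
  4 1 297 (.bis 2 5 4 1 296 (.leaf 2) (.bis 0 2 1 4 304 (.leaf 2) (.leaf 2))) (.bis 1 2 1 1 47
  (.bis 0 2 1 4 304 (.leaf 2) (.leaf 2)) (.leaf 6))))) (.bis 0 2 1 2 299 (.bis 2 7 4 1 72 (.bis 1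
  7 1 1 305 (.leaf 4) (.leaf 2)) (.bis 2 4 4 1 284 (.leaf 2) (.leaf 2))) (.bis 0 6 1 1 289 (.bis
  1 7 1 1 305 (.leaf 4) (.leaf 2)) (.bis 0 7 2 1 302 (.bis 1 7 1 1 305 (.leaf 4) (.leaf 15))
  (.leaf 15)))))))))

def lc8 : List Vr := [⟨[60,0,0,0,85,0,0,0], 90050, 0⟩, ⟨[0,24,0,0,0,0,0,0], 13824, 0⟩, ⟨[0,0,27,0,
  0,0,0,0], 14580, 0⟩, ⟨[0,0,0,30,0,0,0,0], 14400, 0⟩, ⟨[0,0,0,0,85,85,84,0], 371628, 0⟩, ⟨[0,0,0,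
  0,0,85,42,0], 85682, 0⟩, ⟨[0,0,0,0,0,0,42,0], 14112, 0⟩, ⟨[0,0,0,0,85,0,0,121], 96730, 0⟩]

theorem lk8 : chkTr lowT (leafLow 4 lowB) lt8 lc8 = true := by decide +kernel

def lt9 : Tr ℕ := (.bis 1 4 2 1 313 (.bis 4 7 1 1 314 (.bis 3 7 2 1 69 (.bis 2 7 2 1 53 (.bis 5 7
  1 1 149 (.bis 0 7 1 1 287 (.bis 1 7 1 2 315 (.bis 6 7 1 2 277 (.leaf 73) (.bis 0 6 1 1 300
  (.leaf 8) (.leaf 8))) (.bis 0 1 1 1 316 (.bis 1 2 1 1 317 (.leaf 8) (.leaf 8)) (.leaf 8)))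
  (.bis 0 5 2 1 290 (.bis 1 7 1 1 316 (.leaf 8) (.leaf 8)) (.bis 0 2 2 1 292 (.bis 1 7 1 1 316
  (.leaf 8) (.leaf 8)) (.bis 0 3 2 1 302 (.leaf 8) (.bis 0 4 2 1 318 (.leaf 8) (.leaf 28))))))
  (.bis 0 5 1 1 295 (.bis 2 5 1 2 150 (.bis 3 5 1 2 166 (.bis 4 5 1 2 319 (.leaf 10) (.leaf 8))
  (.leaf 8)) (.leaf 8)) (.bis 0 7 2 1 290 (.leaf 8) (.bis 0 2 2 1 292 (.leaf 8) (.bis 0 3 2 1 302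
  (.leaf 8) (.bis 0 4 2 1 318 (.leaf 8) (.leaf 15))))))) (.bis 0 5 1 1 295 (.bis 2 4 4 1 320
  (.bis 5 7 2 1 150 (.leaf 8) (.bis 3 5 1 2 166 (.bis 4 5 1 2 319 (.leaf 10) (.leaf 8)) (.leaf
  8))) (.bis 2 5 2 1 140 (.bis 5 7 2 1 150 (.leaf 5) (.bis 3 5 1 2 166 (.leaf 10) (.leaf 4)))
  (.bis 2 3 4 1 72 (.leaf 5) (.bis 2 6 4 1 284 (.leaf 2) (.bis 0 2 1 4 296 (.leaf 2) (.leaf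
  2)))))) (.bis 2 4 4 1 320 (.bis 0 7 2 1 292 (.leaf 8) (.bis 0 3 2 1 302 (.leaf 8) (.bis 0 4 2 1
  318 (.leaf 8) (.leaf 15)))) (.bis 0 2 1 2 299 (.bis 2 3 4 1 72 (.leaf 8) (.bis 2 6 4 1 284
  (.leaf 2) (.bis 2 5 4 1 296 (.leaf 2) (.leaf 2)))) (.bis 0 7 2 1 292 (.leaf 8) (.bis 0 3 2 1
  302 (.leaf 4) (.leaf 15))))))) (.bis 0 5 1 1 295 (.bis 2 4 4 1 320 (.bis 3 5 2 1 170 (.bis 5 7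
  2 1 166 (.leaf 23) (.bis 4 5 1 2 319 (.leaf 10) (.leaf 13))) (.bis 3 4 4 1 321 (.leaf 23) (.bis
  3 6 4 1 306 (.leaf 4) (.bis 3 7 4 1 81 (.leaf 4) (.bis 0 3 1 4 308 (.leaf 7) (.leaf 4))))))
  (.bis 2 5 2 1 140 (.bis 3 5 2 1 170 (.bis 5 7 2 1 166 (.bis 2 7 1 1 172 (.leaf 4) (.leaf 4))
  (.leaf 10)) (.bis 3 6 4 1 306 (.bis 2 7 1 1 172 (.leaf 4) (.leaf 4)) (.bis 2 7 1 1 172 (.bis 3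
  7 4 1 81 (.leaf 4) (.bis 0 3 1 4 308 (.leaf 7) (.leaf 4))) (.bis 0 3 1 4 308 (.bis 2 3 1 4 173
  (.leaf 7) (.leaf 4)) (.leaf 4))))) (.bis 2 7 4 1 72 (.bis 3 6 4 1 306 (.leaf 4) (.bis 5 7 1 1
  172 (.bis 3 7 4 1 81 (.leaf 4) (.bis 0 3 1 4 308 (.bis 3 4 8 1 322 (.leaf 4) (.leaf 7)) (.leaf
  4))) (.bis 0 3 1 4 308 (.bis 3 5 4 1 173 (.leaf 2) (.bis 3 4 8 1 322 (.leaf 2) (.leaf 7)))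
  (.leaf 2)))) (.bis 2 3 1 1 84 (.bis 3 6 4 1 306 (.leaf 2) (.bis 0 3 1 4 308 (.bis 3 5 4 1 173
  (.leaf 2) (.leaf 7)) (.leaf 2))) (.bis 2 6 4 1 284 (.leaf 2) (.leaf 2)))))) (.bis 2 4 4 1 320
  (.bis 0 3 1 2 310 (.bis 3 4 4 1 321 (.leaf 8) (.bis 3 6 4 1 306 (.leaf 4) (.bis 3 7 4 1 81
  (.leaf 4) (.bis 3 5 4 1 308 (.leaf 4) (.leaf 7))))) (.bis 0 7 2 1 302 (.leaf 8) (.bis 0 4 2 1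
  318 (.leaf 8) (.leaf 15)))) (.bis 0 2 1 2 299 (.bis 2 7 4 1 72 (.bis 3 6 4 1 306 (.leaf 4)
  (.bis 0 3 1 4 309 (.bis 3 7 4 1 81 (.leaf 4) (.bis 3 5 4 1 308 (.leaf 4) (.leaf 7))) (.leaf
  4))) (.bis 2 3 1 1 84 (.bis 3 6 4 1 306 (.leaf 2) (.bis 0 3 1 4 309 (.bis 3 5 4 1 308 (.leaf 2)
  (.leaf 7)) (.leaf 2))) (.bis 2 6 4 1 284 (.leaf 2) (.leaf 2)))) (.bis 0 3 1 2 310 (.bis 3 6 4 1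
  306 (.leaf 4) (.bis 2 3 1 4 309 (.bis 3 7 4 1 81 (.leaf 4) (.bis 3 5 4 1 308 (.leaf 4) (.leaf
  7))) (.bis 2 7 1 1 312 (.leaf 4) (.leaf 4)))) (.bis 0 7 2 1 302 (.leaf 4) (.leaf 15)))))))
  (.bis 2 4 2 1 323 (.bis 0 5 1 1 295 (.bis 4 5 1 1 324 (.bis 3 5 2 1 170 (.bis 5 7 2 1 319 (.bis
  3 7 1 1 325 (.leaf 13) (.leaf 13)) (.leaf 58)) (.bis 3 7 4 1 321 (.leaf 13) (.bis 3 4 4 1 326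
  (.leaf 13) (.bis 3 6 4 1 306 (.leaf 4) (.bis 0 3 1 4 308 (.leaf 7) (.leaf 4)))))) (.bis 3 4 2 1
  327 (.bis 4 6 2 1 328 (.bis 3 7 1 1 329 (.leaf 13) (.leaf 13)) (.bis 0 4 1 2 330 (.bis 4 7 2 1
  331 (.leaf 13) (.leaf 43)) (.bis 3 7 1 1 329 (.leaf 13) (.leaf 13)))) (.bis 3 7 4 1 321 (.leaf
  13) (.bis 3 5 4 1 326 (.leaf 13) (.bis 3 6 4 1 306 (.leaf 13) (.bis 0 3 1 4 308 (.leaf 7)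
  (.leaf 7))))))) (.bis 0 4 1 1 332 (.bis 3 4 2 1 327 (.bis 4 6 2 1 328 (.leaf 13) (.bis 4 5 2 1
  330 (.bis 3 7 1 1 329 (.leaf 13) (.leaf 13)) (.bis 4 7 2 1 331 (.leaf 13) (.leaf 43)))) (.bis 3
  7 4 1 321 (.leaf 13) (.bis 0 3 1 4 333 (.bis 3 6 4 1 306 (.leaf 13) (.bis 3 5 4 1 308 (.leaf 7)
  (.leaf 7))) (.leaf 13)))) (.bis 0 3 1 2 310 (.bis 3 7 4 1 321 (.leaf 13) (.bis 3 4 4 1 333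
  (.leaf 13) (.bis 3 6 4 1 306 (.leaf 13) (.bis 3 5 4 1 308 (.leaf 7) (.leaf 7))))) (.bis 0 7 2 1
  318 (.leaf 13) (.leaf 28))))) (.bis 0 5 1 1 295 (.bis 2 7 4 1 320 (.bis 3 5 2 1 170 (.bis 5 7 2
  1 319 (.leaf 13) (.leaf 21)) (.bis 3 7 4 1 321 (.leaf 13) (.bis 3 6 4 1 306 (.leaf 4) (.bis 0 3
  1 4 308 (.leaf 7) (.leaf 4))))) (.bis 2 5 2 1 140 (.bis 3 5 2 1 170 (.leaf 21) (.bis 3 6 4 1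
  306 (.leaf 4) (.bis 0 3 1 4 308 (.bis 2 3 1 4 173 (.leaf 7) (.leaf 4)) (.leaf 4)))) (.bis 2 3 1
  1 84 (.bis 3 6 4 1 306 (.leaf 4) (.bis 0 3 1 4 308 (.bis 3 5 4 1 173 (.leaf 4) (.leaf 7))
  (.leaf 4))) (.bis 2 6 4 1 284 (.leaf 4) (.bis 0 2 1 4 296 (.leaf 45) (.leaf 4)))))) (.bis 2 7 4
  1 320 (.bis 0 3 1 2 310 (.bis 3 7 4 1 321 (.leaf 13) (.bis 3 6 4 1 306 (.leaf 4) (.bis 3 5 4 1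
  308 (.leaf 4) (.leaf 7)))) (.bis 0 7 2 1 318 (.leaf 13) (.bis 0 6 2 1 293 (.leaf 13) (.leaf
  28)))) (.bis 0 2 1 2 299 (.bis 2 3 1 1 84 (.bis 3 6 4 1 306 (.leaf 4) (.bis 0 3 1 4 309 (.bis 3
  5 4 1 308 (.leaf 4) (.leaf 7)) (.leaf 4))) (.bis 2 6 4 1 284 (.leaf 4) (.bis 2 5 4 1 296 (.leaf
  4) (.leaf 45)))) (.bis 0 3 1 2 310 (.bis 3 6 4 1 306 (.leaf 4) (.bis 2 3 1 4 309 (.bis 3 5 4 1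
  308 (.leaf 4) (.leaf 7)) (.leaf 4))) (.bis 0 6 2 1 293 (.leaf 4) (.leaf 28)))))))) (.bis 3 7 2
  1 69 (.bis 2 7 2 1 53 (.bis 5 7 1 1 149 (.bis 1 7 2 1 35 (.bis 0 7 1 1 287 (.bis 4 7 1 2 315
  (.bis 6 7 1 2 277 (.leaf 19) (.bis 1 6 1 1 288 (.leaf 8) (.leaf 8))) (.bis 1 4 1 1 334 (.bis 0
  4 1 1 316 (.leaf 5) (.leaf 8)) (.bis 1 6 1 1 288 (.leaf 8) (.leaf 8)))) (.bis 0 5 2 1 290 (.bis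
  1 4 1 1 334 (.bis 4 7 1 1 316 (.leaf 8) (.leaf 5)) (.leaf 8)) (.bis 0 1 2 1 291 (.bis 1 4 1 1
  334 (.leaf 8) (.bis 1 6 1 1 288 (.leaf 8) (.leaf 8))) (.bis 0 2 2 1 292 (.bis 4 7 1 1 316 (.bis
  6 7 1 1 300 (.leaf 8) (.leaf 5)) (.leaf 5)) (.bis 0 3 2 1 302 (.leaf 8) (.leaf 28)))))) (.bis 0
  1 1 2 294 (.bis 1 3 4 1 71 (.bis 0 5 1 1 303 (.bis 4 7 1 1 334 (.leaf 5) (.leaf 5)) (.leaf 5))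
  (.bis 1 5 4 1 151 (.leaf 5) (.bis 1 6 4 1 282 (.leaf 5) (.bis 1 2 4 1 55 (.bis 4 7 1 1 334
  (.leaf 5) (.leaf 2)) (.bis 1 4 4 1 335 (.leaf 5) (.leaf 24)))))) (.bis 0 5 2 1 290 (.bis 1 5 1
  1 303 (.bis 4 7 1 1 334 (.leaf 5) (.leaf 5)) (.leaf 5)) (.bis 0 7 2 1 291 (.leaf 5) (.bis 0 2 2
  1 292 (.leaf 5) (.bis 0 3 2 1 302 (.leaf 5) (.leaf 15))))))) (.bis 0 5 1 1 295 (.bis 1 5 2 1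
  137 (.bis 2 5 1 2 150 (.bis 3 5 1 2 166 (.leaf 10) (.leaf 4)) (.leaf 5)) (.bis 1 3 4 1 71
  (.leaf 5) (.bis 1 7 4 1 151 (.leaf 5) (.bis 1 6 4 1 282 (.leaf 2) (.bis 1 2 4 1 55 (.leaf 2)
  (.bis 1 4 4 1 335 (.leaf 2) (.leaf 24))))))) (.bis 0 1 1 2 294 (.bis 1 3 4 1 71 (.leaf 5) (.bis
  1 7 4 1 151 (.leaf 5) (.bis 1 6 4 1 282 (.leaf 2) (.bis 1 2 4 1 55 (.leaf 2) (.bis 1 4 4 1 335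
  (.leaf 2) (.leaf 24)))))) (.bis 0 7 2 1 290 (.leaf 5) (.bis 0 2 2 1 292 (.leaf 5) (.bis 0 3 2 1
  302 (.leaf 5) (.leaf 15))))))) (.bis 0 5 1 1 295 (.bis 1 5 2 1 137 (.bis 2 5 2 1 140 (.bis 5 7
  2 1 150 (.bis 1 3 1 1 169 (.leaf 5) (.bis 1 7 1 1 153 (.leaf 2) (.leaf 2))) (.bis 3 5 1 2 166
  (.leaf 10) (.bis 1 3 1 1 169 (.leaf 4) (.leaf 2)))) (.bis 2 3 4 1 72 (.leaf 5) (.bis 2 6 4 1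
  284 (.bis 1 7 1 1 153 (.leaf 2) (.leaf 2)) (.bis 0 2 1 4 296 (.bis 1 7 1 1 153 (.leaf 2) (.leaf
  2)) (.bis 1 7 1 1 153 (.leaf 2) (.leaf 2)))))) (.bis 1 3 4 1 71 (.bis 2 3 4 1 72 (.leaf 5)
  (.bis 2 6 4 1 284 (.leaf 2) (.bis 0 2 1 4 296 (.leaf 2) (.leaf 2)))) (.bis 1 6 4 1 282 (.bis 2
  6 4 1 284 (.bis 5 7 1 1 153 (.leaf 2) (.leaf 2)) (.bis 0 2 1 4 296 (.bis 5 7 1 1 153 (.bis 2 4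
  4 1 336 (.leaf 2) (.leaf 2)) (.bis 2 4 4 1 336 (.leaf 2) (.leaf 2))) (.bis 5 7 1 1 153 (.leaf
  2) (.leaf 2)))) (.bis 1 7 4 1 55 (.bis 0 2 1 4 296 (.bis 5 7 1 1 153 (.bis 2 4 4 1 336 (.leaf
  2) (.leaf 2)) (.bis 2 4 4 1 336 (.leaf 2) (.leaf 2))) (.leaf 2)) (.bis 1 4 4 1 335 (.bis 0 2 1
  4 296 (.bis 2 4 4 1 336 (.leaf 2) (.leaf 2)) (.leaf 2)) (.bis 0 1 1 4 297 (.bis 1 2 1 1 47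
  (.bis 2 5 4 1 142 (.leaf 2) (.leaf 2)) (.leaf 6)) (.bis 0 2 1 4 296 (.bis 2 5 4 1 142 (.leaf 2)
  (.leaf 2)) (.leaf 2)))))))) (.bis 0 1 1 2 294 (.bis 1 3 4 1 71 (.bis 2 3 4 1 72 (.leaf 5) (.bis
  2 6 4 1 284 (.leaf 2) (.bis 2 5 4 1 296 (.leaf 2) (.leaf 2)))) (.bis 1 6 4 1 282 (.bis 2 6 4 1
  284 (.leaf 2) (.bis 2 5 4 1 296 (.leaf 2) (.bis 2 4 4 1 336 (.leaf 2) (.leaf 2)))) (.bis 1 7 4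
  1 55 (.bis 2 5 4 1 296 (.leaf 2) (.bis 2 4 4 1 336 (.leaf 2) (.leaf 2))) (.bis 1 4 4 1 335
  (.bis 2 5 4 1 296 (.leaf 2) (.bis 2 4 4 1 336 (.leaf 2) (.leaf 2))) (.bis 1 5 4 1 297 (.bis 2 5
  4 1 296 (.leaf 2) (.bis 0 2 1 4 304 (.leaf 2) (.leaf 2))) (.bis 1 2 1 1 47 (.bis 0 2 1 4 304
  (.leaf 2) (.leaf 2)) (.leaf 6))))))) (.bis 0 2 1 2 299 (.bis 2 3 4 1 72 (.leaf 8) (.bis 2 6 4 1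
  284 (.leaf 2) (.bis 2 5 4 1 296 (.leaf 2) (.leaf 2)))) (.bis 0 7 2 1 292 (.leaf 8) (.bis 0 3 2
  1 302 (.bis 1 3 1 1 305 (.leaf 4) (.leaf 8)) (.leaf 15))))))) (.bis 0 5 1 1 295 (.bis 1 3 1 1
  77 (.bis 2 5 2 1 140 (.bis 3 5 2 1 170 (.bis 5 7 2 1 166 (.bis 2 7 1 1 172 (.leaf 4) (.leaf 4))
  (.leaf 21)) (.bis 3 6 4 1 306 (.bis 2 7 1 1 172 (.bis 5 7 1 1 307 (.leaf 4) (.leaf 4)) (.leaf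
  4)) (.bis 2 7 1 1 172 (.bis 3 7 4 1 81 (.leaf 4) (.bis 0 3 1 4 308 (.leaf 7) (.leaf 4))) (.bis
  0 3 1 4 308 (.bis 2 3 1 4 173 (.leaf 7) (.leaf 4)) (.leaf 4))))) (.bis 2 7 4 1 72 (.bis 3 6 4 1
  306 (.bis 5 7 1 1 172 (.leaf 4) (.leaf 2)) (.bis 5 7 1 1 172 (.bis 3 7 4 1 81 (.leaf 4) (.bis 0
  3 1 4 308 (.leaf 7) (.leaf 4))) (.bis 0 3 1 4 308 (.bis 3 5 4 1 173 (.leaf 2) (.leaf 7)) (.leaf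
  2)))) (.bis 2 3 1 1 84 (.bis 3 6 4 1 306 (.leaf 2) (.bis 0 3 1 4 308 (.leaf 7) (.leaf 2)))
  (.bis 2 6 4 1 284 (.leaf 2) (.leaf 2))))) (.bis 1 5 2 1 137 (.bis 2 5 2 1 140 (.bis 5 7 2 1 166
  (.bis 1 7 1 1 169 (.bis 2 7 1 1 172 (.leaf 4) (.leaf 2)) (.leaf 2)) (.leaf 21)) (.bis 2 7 4 1
  72 (.bis 1 7 1 1 169 (.leaf 4) (.leaf 2)) (.bis 2 6 4 1 284 (.leaf 2) (.bis 0 2 1 4 296 (.leaf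
  2) (.leaf 2))))) (.bis 1 7 4 1 71 (.bis 2 7 4 1 72 (.leaf 4) (.bis 2 6 4 1 284 (.leaf 2) (.bis
  0 2 1 4 296 (.leaf 2) (.leaf 2)))) (.bis 1 6 4 1 282 (.bis 2 6 4 1 284 (.leaf 2) (.bis 0 2 1 4
  296 (.bis 2 4 4 1 336 (.leaf 2) (.leaf 2)) (.leaf 2))) (.bis 1 4 4 1 335 (.bis 0 2 1 4 296
  (.bis 2 4 4 1 336 (.leaf 2) (.leaf 2)) (.leaf 2)) (.bis 0 1 1 4 297 (.bis 1 2 1 1 47 (.bis 2 5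
  4 1 142 (.leaf 2) (.leaf 2)) (.leaf 6)) (.bis 0 2 1 4 296 (.bis 2 5 4 1 142 (.leaf 2) (.leaf
  2)) (.leaf 2)))))))) (.bis 1 3 1 1 77 (.bis 0 2 1 2 299 (.bis 2 7 4 1 72 (.bis 3 6 4 1 306
  (.leaf 4) (.bis 0 3 1 4 309 (.bis 3 7 4 1 81 (.leaf 4) (.leaf 7)) (.bis 0 7 1 1 312 (.leaf 4)
  (.leaf 2)))) (.bis 2 3 1 1 84 (.bis 3 6 4 1 306 (.leaf 2) (.bis 0 3 1 4 309 (.leaf 7) (.leaf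
  2))) (.bis 2 6 4 1 284 (.leaf 2) (.leaf 2)))) (.bis 0 3 1 2 310 (.bis 3 6 4 1 306 (.bis 2 7 1 1
  312 (.leaf 4) (.leaf 4)) (.bis 2 3 1 4 309 (.bis 3 7 4 1 81 (.leaf 4) (.leaf 7)) (.bis 2 7 1 1
  312 (.leaf 4) (.leaf 4)))) (.bis 0 7 2 1 302 (.bis 2 7 1 1 312 (.leaf 4) (.leaf 4)) (.leaf
  15)))) (.bis 0 1 1 2 294 (.bis 1 7 4 1 71 (.bis 2 7 4 1 72 (.leaf 5) (.bis 2 6 4 1 284 (.leaf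
  2) (.bis 2 5 4 1 296 (.leaf 2) (.leaf 2)))) (.bis 1 6 4 1 282 (.bis 2 6 4 1 284 (.leaf 2) (.bis
  2 5 4 1 296 (.leaf 2) (.bis 2 4 4 1 336 (.leaf 2) (.leaf 2)))) (.bis 1 4 4 1 335 (.bis 2 5 4 1
  296 (.leaf 2) (.bis 2 4 4 1 336 (.leaf 2) (.leaf 2))) (.bis 1 5 4 1 297 (.bis 2 5 4 1 296
  (.leaf 2) (.bis 0 2 1 4 304 (.leaf 2) (.leaf 2))) (.bis 1 2 1 1 47 (.bis 0 2 1 4 304 (.leaf 2)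
  (.leaf 2)) (.leaf 6)))))) (.bis 0 2 1 2 299 (.bis 2 7 4 1 72 (.bis 1 7 1 1 305 (.leaf 4) (.leaf
  2)) (.bis 2 6 4 1 284 (.leaf 2) (.bis 2 5 4 1 296 (.leaf 2) (.leaf 2)))) (.bis 0 7 2 1 302
  (.bis 1 7 1 1 305 (.leaf 4) (.leaf 15)) (.leaf 15))))))))

def lc9 : List Vr := [⟨[60,0,0,0,85,0,0,0], 90050, 0⟩, ⟨[0,24,0,0,0,0,0,0], 13824, 0⟩, ⟨[0,0,27,0,
  0,0,0,0], 14580, 0⟩, ⟨[0,0,0,30,0,0,0,0], 14400, 0⟩, ⟨[0,0,0,0,85,85,0,0], 86700, 0⟩, ⟨[0,0,0,0,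
  0,85,42,0], 85682, 0⟩, ⟨[0,0,0,0,85,85,84,0], 371628, 0⟩, ⟨[0,0,0,0,85,0,0,121], 96730, 0⟩]

theorem lk9 : chkTr lowT (leafLow 4 lowB) lt9 lc9 = true := by decide +kernel

def lt10 : Tr ℕ := (.bis 1 4 2 1 313 (.bis 4 7 1 1 314 (.bis 3 7 2 1 69 (.bis 2 7 2 1 53 (.bis 6
  7 1 1 149 (.bis 0 7 1 1 287 (.bis 1 7 1 2 315 (.bis 5 7 1 2 250 (.leaf 73) (.bis 0 5 1 1 337
  (.leaf 23) (.leaf 73))) (.bis 0 5 1 1 337 (.bis 2 5 1 1 338 (.bis 1 3 1 1 339 (.leaf 23) (.leaf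
  23)) (.bis 1 2 1 1 317 (.leaf 8) (.bis 1 3 1 1 339 (.leaf 8) (.leaf 8)))) (.bis 0 1 1 1 316
  (.bis 1 2 1 1 317 (.leaf 8) (.bis 1 3 1 1 339 (.leaf 8) (.leaf 8))) (.leaf 8)))) (.bis 0 5 2 1
  340 (.bis 5 7 1 1 337 (.bis 1 7 1 1 316 (.leaf 8) (.bis 1 2 1 1 317 (.leaf 8) (.leaf 8))) (.bis
  2 5 1 1 338 (.leaf 23) (.bis 1 2 1 1 317 (.leaf 8) (.leaf 8)))) (.bis 0 6 2 1 290 (.bis 1 7 1 1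
  316 (.leaf 8) (.leaf 8)) (.bis 0 2 2 1 292 (.bis 1 7 1 1 316 (.leaf 8) (.leaf 8)) (.bis 0 3 2 1
  302 (.bis 1 7 1 1 316 (.leaf 8) (.leaf 8)) (.leaf 52)))))) (.bis 0 6 1 1 295 (.bis 2 6 1 2 150
  (.bis 3 6 1 2 166 (.bis 4 6 1 2 319 (.leaf 10) (.leaf 23)) (.leaf 23)) (.leaf 23)) (.bis 0 5 2
  1 340 (.leaf 23) (.bis 0 7 2 1 290 (.leaf 8) (.bis 0 2 2 1 292 (.leaf 8) (.bis 0 3 2 1 302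
  (.leaf 8) (.leaf 52))))))) (.bis 0 6 1 1 295 (.bis 2 4 4 1 320 (.bis 6 7 2 1 150 (.leaf 23)
  (.bis 3 6 1 2 166 (.bis 4 6 1 2 319 (.leaf 10) (.leaf 13)) (.leaf 23))) (.bis 2 5 4 1 239 (.bis
  6 7 2 1 150 (.leaf 23) (.bis 3 6 1 2 166 (.leaf 10) (.leaf 23))) (.bis 2 6 2 1 140 (.bis 6 7 2
  1 150 (.leaf 5) (.bis 3 6 1 2 166 (.leaf 10) (.leaf 4))) (.bis 2 3 4 1 72 (.leaf 5) (.bis 0 2 1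
  4 296 (.leaf 2) (.leaf 2)))))) (.bis 2 4 4 1 320 (.bis 0 5 2 1 340 (.leaf 23) (.bis 0 7 2 1 292
  (.leaf 8) (.bis 0 3 2 1 302 (.leaf 8) (.bis 0 4 2 1 318 (.leaf 8) (.leaf 15))))) (.bis 2 5 4 1
  239 (.bis 0 5 2 1 340 (.leaf 23) (.bis 0 2 4 1 341 (.leaf 5) (.bis 0 7 2 1 292 (.leaf 5) (.bis
  0 3 2 1 302 (.leaf 4) (.leaf 15))))) (.bis 0 2 1 2 299 (.bis 2 3 4 1 72 (.leaf 8) (.bis 2 6 4 1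
  296 (.leaf 2) (.leaf 2))) (.bis 0 5 4 1 341 (.leaf 8) (.bis 0 7 2 1 292 (.leaf 8) (.bis 0 3 2 1
  302 (.leaf 4) (.leaf 15))))))))) (.bis 0 6 1 1 295 (.bis 2 4 4 1 320 (.bis 3 6 2 1 170 (.bis 6
  7 2 1 166 (.leaf 23) (.bis 4 6 1 2 319 (.leaf 10) (.leaf 13))) (.bis 3 4 4 1 321 (.leaf 23)
  (.bis 3 5 4 1 193 (.leaf 23) (.bis 3 7 4 1 81 (.leaf 4) (.bis 0 3 1 4 308 (.leaf 7) (.leaf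
  4)))))) (.bis 2 5 4 1 239 (.bis 3 6 2 1 170 (.bis 6 7 2 1 166 (.leaf 23) (.leaf 10)) (.bis 3 5
  4 1 193 (.leaf 23) (.bis 3 7 4 1 81 (.leaf 4) (.bis 0 3 1 4 308 (.bis 2 3 1 8 252 (.leaf 7)
  (.leaf 4)) (.leaf 4))))) (.bis 2 6 2 1 140 (.bis 3 6 2 1 170 (.bis 6 7 2 1 166 (.bis 2 7 1 1
  172 (.leaf 4) (.leaf 4)) (.leaf 10)) (.bis 2 7 1 1 172 (.bis 3 7 4 1 81 (.leaf 4) (.bis 0 3 1 4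
  308 (.bis 3 4 8 1 322 (.leaf 4) (.leaf 7)) (.leaf 4))) (.bis 0 3 1 4 308 (.bis 2 3 1 4 173
  (.bis 3 4 8 1 322 (.leaf 4) (.leaf 7)) (.leaf 4)) (.leaf 4)))) (.bis 2 7 4 1 72 (.bis 6 7 1 1
  172 (.bis 3 7 4 1 81 (.leaf 4) (.bis 0 3 1 4 308 (.bis 3 4 8 1 322 (.leaf 4) (.bis 3 5 8 1 252
  (.leaf 4) (.leaf 7))) (.leaf 4))) (.bis 0 3 1 4 308 (.bis 3 6 4 1 173 (.leaf 2) (.bis 3 4 8 1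
  322 (.leaf 2) (.bis 3 5 8 1 252 (.leaf 2) (.leaf 7)))) (.leaf 2))) (.bis 2 3 1 1 84 (.bis 0 3 1
  4 308 (.bis 3 6 4 1 173 (.leaf 2) (.bis 3 4 8 1 322 (.leaf 2) (.leaf 7))) (.leaf 2)) (.leaf
  2)))))) (.bis 2 4 4 1 320 (.bis 0 5 2 1 340 (.bis 3 4 4 1 321 (.leaf 23) (.bis 3 5 4 1 193
  (.leaf 23) (.bis 0 3 1 8 342 (.bis 3 7 4 1 81 (.leaf 4) (.bis 3 6 4 1 308 (.leaf 4) (.leaf 7)))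
  (.leaf 4)))) (.bis 0 3 1 2 310 (.bis 3 4 4 1 321 (.leaf 8) (.bis 3 5 8 1 342 (.leaf 4) (.bis 3
  7 4 1 81 (.leaf 4) (.bis 3 6 4 1 308 (.leaf 4) (.leaf 7))))) (.bis 0 7 2 1 302 (.leaf 8) (.bis
  0 4 2 1 318 (.leaf 8) (.leaf 15))))) (.bis 2 5 4 1 239 (.bis 0 5 2 1 340 (.bis 3 5 4 1 193
  (.leaf 23) (.bis 0 3 1 8 342 (.bis 3 7 4 1 81 (.leaf 4) (.bis 3 6 4 1 308 (.leaf 4) (.bis 2 3 1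
  8 252 (.leaf 7) (.leaf 4)))) (.leaf 4))) (.bis 0 3 1 2 310 (.bis 3 5 8 1 342 (.leaf 4) (.bis 3
  7 4 1 81 (.leaf 4) (.bis 3 6 4 1 308 (.leaf 4) (.leaf 7)))) (.bis 0 2 4 1 341 (.leaf 4) (.bis 0
  7 2 1 302 (.leaf 4) (.leaf 15))))) (.bis 0 2 1 2 299 (.bis 2 7 4 1 72 (.bis 0 3 1 4 309 (.bis 3
  7 4 1 81 (.leaf 4) (.bis 3 6 4 1 308 (.leaf 4) (.bis 3 4 8 1 322 (.leaf 4) (.leaf 7)))) (.leaf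
  4)) (.bis 2 3 1 1 84 (.bis 0 3 1 4 309 (.bis 3 6 4 1 308 (.leaf 2) (.bis 3 4 8 1 322 (.leaf 2)
  (.leaf 7))) (.leaf 2)) (.leaf 2))) (.bis 0 3 1 2 310 (.bis 2 3 1 4 309 (.bis 3 7 4 1 81 (.leaf
  4) (.bis 3 6 4 1 308 (.leaf 4) (.leaf 7))) (.leaf 4)) (.bis 0 5 4 1 341 (.leaf 4) (.bis 0 7 2 1
  302 (.leaf 4) (.leaf 15))))))))) (.bis 2 4 2 1 323 (.bis 0 6 1 1 295 (.bis 4 6 1 1 324 (.bis 3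
  6 2 1 170 (.bis 6 7 2 1 319 (.leaf 13) (.leaf 58)) (.bis 3 5 4 1 193 (.leaf 13) (.bis 3 7 4 1
  321 (.leaf 13) (.bis 3 4 4 1 326 (.leaf 13) (.bis 0 3 1 4 308 (.leaf 7) (.leaf 4)))))) (.bis 3
  4 2 1 327 (.bis 0 4 1 2 330 (.bis 4 5 2 1 343 (.leaf 13) (.bis 4 7 2 1 331 (.leaf 13) (.leaf
  43))) (.leaf 13)) (.bis 3 5 4 1 193 (.leaf 13) (.bis 3 7 4 1 321 (.leaf 13) (.bis 3 6 4 1 326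
  (.leaf 13) (.bis 0 3 1 4 308 (.leaf 7) (.leaf 7))))))) (.bis 0 5 2 1 340 (.bis 3 4 2 1 327
  (.bis 4 6 2 1 330 (.leaf 13) (.bis 4 5 2 1 343 (.leaf 13) (.leaf 43))) (.bis 3 5 4 1 193 (.leaf
  13) (.bis 3 7 4 1 321 (.leaf 13) (.bis 0 3 1 8 342 (.bis 3 6 4 1 308 (.leaf 7) (.leaf 7))
  (.leaf 7))))) (.bis 0 4 1 1 332 (.bis 3 4 2 1 327 (.bis 4 6 2 1 330 (.leaf 13) (.bis 4 7 2 1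
  331 (.leaf 13) (.leaf 43))) (.bis 3 7 4 1 321 (.leaf 13) (.bis 0 3 1 4 333 (.bis 3 5 8 1 342
  (.leaf 7) (.bis 3 6 4 1 308 (.leaf 7) (.leaf 7))) (.leaf 13)))) (.bis 0 3 1 2 310 (.bis 3 7 4 1
  321 (.leaf 13) (.bis 3 4 4 1 333 (.leaf 13) (.bis 3 5 8 1 342 (.leaf 7) (.bis 3 6 4 1 308
  (.leaf 7) (.leaf 7))))) (.bis 0 7 2 1 318 (.leaf 13) (.leaf 28)))))) (.bis 0 6 1 1 295 (.bis 2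
  5 4 1 239 (.bis 3 6 2 1 170 (.bis 6 7 2 1 319 (.leaf 13) (.leaf 58)) (.bis 3 5 4 1 193 (.leaf
  13) (.bis 3 7 4 1 321 (.leaf 13) (.bis 0 3 1 4 308 (.bis 2 3 1 8 252 (.leaf 7) (.leaf 4))
  (.leaf 4))))) (.bis 2 7 4 1 320 (.bis 3 6 2 1 170 (.bis 6 7 2 1 319 (.leaf 13) (.bis 2 6 1 4
  344 (.leaf 21) (.leaf 4))) (.bis 3 7 4 1 321 (.leaf 13) (.bis 0 3 1 4 308 (.bis 2 3 1 8 322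
  (.leaf 7) (.leaf 4)) (.leaf 4)))) (.bis 2 6 2 1 140 (.bis 3 6 2 1 170 (.leaf 21) (.bis 0 3 1 4
  308 (.bis 2 3 1 4 173 (.bis 3 5 8 1 252 (.leaf 4) (.leaf 7)) (.leaf 4)) (.leaf 4))) (.bis 2 3 1
  1 84 (.bis 0 3 1 4 308 (.bis 3 6 4 1 173 (.leaf 4) (.leaf 7)) (.leaf 4)) (.bis 0 2 1 4 296
  (.leaf 45) (.leaf 4)))))) (.bis 2 5 4 1 239 (.bis 0 5 2 1 340 (.bis 3 5 4 1 193 (.leaf 13)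
  (.bis 3 7 4 1 321 (.leaf 13) (.bis 0 3 1 8 342 (.bis 3 6 4 1 308 (.leaf 4) (.bis 2 3 1 8 252
  (.leaf 7) (.leaf 4))) (.leaf 4)))) (.bis 0 3 1 2 310 (.bis 3 7 4 1 321 (.leaf 13) (.bis 3 5 8 1
  342 (.leaf 4) (.bis 3 6 4 1 308 (.leaf 4) (.leaf 7)))) (.bis 0 2 4 1 341 (.leaf 13) (.bis 0 7 2
  1 318 (.leaf 13) (.leaf 28))))) (.bis 2 7 4 1 320 (.bis 0 3 1 2 310 (.bis 3 7 4 1 321 (.leaf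
  13) (.bis 3 6 4 1 308 (.leaf 4) (.bis 2 3 1 8 322 (.leaf 7) (.leaf 4)))) (.bis 0 5 4 1 341
  (.leaf 13) (.bis 0 7 2 1 318 (.leaf 13) (.leaf 28)))) (.bis 0 2 1 2 299 (.bis 2 3 1 1 84 (.bis
  0 3 1 4 309 (.bis 3 6 4 1 308 (.leaf 4) (.leaf 7)) (.leaf 4)) (.bis 2 6 4 1 296 (.leaf 4)
  (.leaf 45))) (.bis 0 3 1 2 310 (.bis 2 3 1 4 309 (.bis 3 6 4 1 308 (.leaf 4) (.bis 3 5 8 1 252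
  (.leaf 4) (.leaf 7))) (.leaf 4)) (.bis 0 5 4 1 341 (.leaf 4) (.leaf 28))))))))) (.bis 3 7 2 1
  69 (.bis 2 7 2 1 53 (.bis 6 7 1 1 149 (.bis 1 7 2 1 35 (.bis 0 7 1 1 287 (.bis 4 7 1 2 315
  (.bis 5 7 1 2 250 (.leaf 19) (.bis 1 5 1 1 251 (.bis 0 5 1 1 337 (.leaf 23) (.leaf 19)) (.leaf
  19))) (.bis 1 5 1 1 251 (.bis 0 5 1 1 337 (.bis 2 5 1 1 338 (.bis 3 4 1 1 339 (.leaf 23) (.leaf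
  23)) (.bis 2 4 1 1 317 (.bis 3 4 1 1 339 (.leaf 4) (.leaf 4)) (.leaf 5))) (.bis 0 4 1 1 316
  (.bis 2 4 1 1 317 (.leaf 4) (.leaf 5)) (.leaf 8))) (.bis 1 4 1 1 334 (.bis 0 4 1 1 316 (.bis 2
  4 1 1 317 (.leaf 4) (.leaf 5)) (.leaf 8)) (.leaf 8)))) (.bis 0 5 2 1 340 (.bis 1 5 1 1 251
  (.bis 5 7 1 1 337 (.bis 4 7 1 1 316 (.leaf 8) (.bis 2 4 1 1 317 (.leaf 4) (.leaf 5))) (.bis 2 5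
  1 1 338 (.leaf 23) (.bis 2 4 1 1 317 (.leaf 4) (.leaf 5)))) (.bis 1 4 1 1 334 (.bis 4 7 1 1 316
  (.leaf 8) (.leaf 5)) (.leaf 8))) (.bis 0 6 2 1 290 (.bis 1 4 1 1 334 (.bis 4 7 1 1 316 (.leaf
  8) (.leaf 5)) (.leaf 8)) (.bis 0 1 2 1 291 (.bis 1 4 1 1 334 (.bis 4 7 1 1 316 (.leaf 8) (.leaf
  5)) (.leaf 8)) (.bis 0 2 2 1 292 (.bis 4 7 1 1 316 (.leaf 8) (.leaf 5)) (.bis 0 3 2 1 302 (.bis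
  4 7 1 1 316 (.leaf 8) (.leaf 4)) (.bis 4 7 1 1 316 (.leaf 28) (.leaf 15)))))))) (.bis 1 5 4 1
  245 (.bis 0 5 2 1 340 (.bis 5 7 1 1 251 (.bis 4 7 1 1 334 (.leaf 5) (.leaf 5)) (.leaf 23))
  (.bis 0 6 2 1 290 (.bis 4 7 1 1 334 (.leaf 5) (.leaf 5)) (.bis 0 7 2 1 291 (.leaf 5) (.bis 0 2
  2 1 292 (.leaf 5) (.bis 0 3 2 1 302 (.leaf 4) (.leaf 15)))))) (.bis 0 1 1 2 294 (.bis 1 3 4 1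
  71 (.bis 0 6 1 1 303 (.bis 4 7 1 1 334 (.leaf 5) (.leaf 5)) (.bis 4 7 1 1 334 (.leaf 5) (.leaf
  5))) (.bis 1 6 4 1 151 (.bis 0 6 1 1 303 (.bis 4 7 1 1 334 (.leaf 3) (.leaf 5)) (.leaf 5))
  (.bis 1 2 4 1 55 (.bis 4 7 1 1 334 (.leaf 5) (.leaf 2)) (.bis 1 4 4 1 335 (.leaf 5) (.leaf
  24))))) (.bis 0 6 2 1 290 (.bis 1 6 1 1 303 (.bis 4 7 1 1 334 (.leaf 5) (.leaf 5)) (.leaf 5))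
  (.bis 0 7 2 1 291 (.leaf 5) (.bis 0 2 2 1 292 (.leaf 5) (.leaf 117))))))) (.bis 1 5 4 1 245
  (.bis 0 6 1 1 295 (.bis 2 6 1 2 150 (.bis 3 6 1 2 166 (.leaf 10) (.leaf 23)) (.leaf 23)) (.bis
  0 5 2 1 340 (.leaf 23) (.bis 0 7 2 1 290 (.leaf 5) (.bis 0 2 2 1 292 (.leaf 5) (.bis 0 3 2 1
  302 (.leaf 4) (.leaf 15)))))) (.bis 0 6 1 1 295 (.bis 1 6 2 1 137 (.bis 2 6 1 2 150 (.bis 3 6 1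
  2 166 (.leaf 10) (.leaf 4)) (.leaf 5)) (.bis 1 3 4 1 71 (.leaf 5) (.bis 1 7 4 1 151 (.leaf 5)
  (.bis 1 2 4 1 55 (.leaf 2) (.bis 1 4 4 1 335 (.leaf 2) (.leaf 24)))))) (.bis 0 1 1 2 294 (.bis
  1 3 4 1 71 (.leaf 5) (.bis 1 7 4 1 151 (.leaf 5) (.bis 1 2 4 1 55 (.leaf 2) (.bis 1 4 4 1 335
  (.leaf 2) (.leaf 24))))) (.bis 0 7 2 1 290 (.leaf 5) (.bis 0 2 2 1 292 (.leaf 5) (.bis 0 3 2 1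
  302 (.leaf 5) (.leaf 15)))))))) (.bis 1 5 4 1 245 (.bis 0 6 1 1 295 (.bis 2 5 4 1 239 (.bis 6 7
  2 1 150 (.leaf 23) (.bis 3 6 1 2 166 (.leaf 10) (.leaf 23))) (.bis 2 6 2 1 140 (.bis 6 7 2 1
  150 (.leaf 5) (.bis 3 6 1 2 166 (.leaf 10) (.leaf 4))) (.bis 2 3 4 1 72 (.leaf 5) (.bis 0 2 1 4
  296 (.bis 2 4 4 1 336 (.leaf 2) (.leaf 2)) (.leaf 2))))) (.bis 2 5 4 1 239 (.bis 0 5 2 1 340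
  (.leaf 23) (.bis 0 2 4 1 341 (.leaf 5) (.bis 0 7 2 1 292 (.leaf 5) (.bis 0 3 2 1 302 (.leaf 4)
  (.leaf 15))))) (.bis 0 2 1 2 299 (.bis 2 3 4 1 72 (.leaf 8) (.bis 2 6 4 1 296 (.leaf 2) (.bis 2
  4 4 1 336 (.leaf 2) (.leaf 2)))) (.bis 0 5 4 1 341 (.leaf 8) (.bis 0 7 2 1 292 (.leaf 8) (.bis
  0 3 2 1 302 (.leaf 4) (.leaf 15))))))) (.bis 0 6 1 1 295 (.bis 1 6 2 1 137 (.bis 2 6 2 1 140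
  (.bis 6 7 2 1 150 (.leaf 5) (.bis 3 6 1 2 166 (.leaf 10) (.bis 1 3 1 1 169 (.leaf 4) (.leaf
  2)))) (.bis 2 3 4 1 72 (.leaf 5) (.bis 0 2 1 4 296 (.bis 1 7 1 1 153 (.bis 2 4 4 1 336 (.leaf
  2) (.leaf 2)) (.bis 2 4 4 1 336 (.leaf 2) (.leaf 2))) (.bis 1 7 1 1 153 (.leaf 2) (.leaf 2)))))
  (.bis 1 3 4 1 71 (.bis 2 3 4 1 72 (.leaf 5) (.bis 0 2 1 4 296 (.bis 6 7 1 1 153 (.bis 2 4 4 1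
  336 (.leaf 2) (.leaf 2)) (.bis 2 4 4 1 336 (.leaf 2) (.leaf 2))) (.leaf 2))) (.bis 1 7 4 1 55
  (.bis 0 2 1 4 296 (.bis 6 7 1 1 153 (.bis 2 4 4 1 336 (.leaf 2) (.bis 2 7 4 1 56 (.leaf 2)
  (.leaf 2))) (.bis 2 4 4 1 336 (.leaf 2) (.bis 2 5 8 1 247 (.leaf 2) (.leaf 2)))) (.leaf 2))
  (.bis 1 4 4 1 335 (.bis 0 2 1 4 296 (.bis 2 4 4 1 336 (.leaf 2) (.leaf 2)) (.leaf 2)) (.bis 0 1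
  1 4 297 (.bis 1 2 1 1 47 (.bis 2 5 8 1 247 (.leaf 2) (.leaf 2)) (.leaf 9)) (.bis 0 2 1 4 296
  (.bis 2 5 8 1 247 (.leaf 2) (.leaf 2)) (.leaf 2))))))) (.bis 0 1 1 2 294 (.bis 1 3 4 1 71 (.bis
  2 3 4 1 72 (.leaf 5) (.bis 2 6 4 1 296 (.leaf 2) (.bis 2 4 4 1 336 (.leaf 2) (.leaf 2)))) (.bis
  1 7 4 1 55 (.bis 2 6 4 1 296 (.leaf 2) (.bis 2 4 4 1 336 (.leaf 2) (.bis 2 7 4 1 56 (.leaf 2)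
  (.leaf 2)))) (.bis 1 4 4 1 335 (.bis 2 6 4 1 296 (.leaf 2) (.bis 2 4 4 1 336 (.leaf 2) (.leaf
  2))) (.bis 1 6 4 1 297 (.bis 2 6 4 1 296 (.leaf 2) (.bis 0 2 1 4 304 (.leaf 2) (.leaf 2)))
  (.bis 1 2 1 1 47 (.bis 0 2 1 4 304 (.leaf 2) (.leaf 2)) (.leaf 24)))))) (.bis 0 2 1 2 299 (.bis
  2 3 4 1 72 (.leaf 8) (.bis 2 6 4 1 296 (.leaf 2) (.bis 2 4 4 1 336 (.leaf 2) (.leaf 2)))) (.bis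
  0 7 2 1 292 (.leaf 8) (.bis 0 3 2 1 302 (.leaf 8) (.leaf 15)))))))) (.bis 1 5 4 1 245 (.bis 0 6
  1 1 295 (.bis 2 5 4 1 239 (.bis 3 6 2 1 170 (.bis 6 7 2 1 166 (.leaf 23) (.leaf 10)) (.bis 3 5
  4 1 193 (.leaf 23) (.bis 1 3 1 8 248 (.bis 3 7 4 1 81 (.leaf 4) (.bis 0 3 1 4 308 (.leaf 7)
  (.leaf 4))) (.leaf 4)))) (.bis 2 6 2 1 140 (.bis 3 6 2 1 170 (.bis 6 7 2 1 166 (.bis 2 7 1 1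
  172 (.leaf 4) (.leaf 4)) (.leaf 10)) (.bis 1 3 1 8 248 (.bis 2 7 1 1 172 (.bis 3 7 4 1 81
  (.leaf 4) (.bis 0 3 1 4 308 (.leaf 7) (.leaf 4))) (.bis 0 3 1 4 308 (.bis 2 3 1 4 173 (.leaf 7)
  (.leaf 4)) (.leaf 4))) (.bis 2 7 1 1 172 (.leaf 4) (.leaf 4)))) (.bis 2 7 4 1 72 (.bis 1 3 1 8
  248 (.bis 6 7 1 1 172 (.bis 3 7 4 1 81 (.leaf 4) (.bis 0 3 1 4 308 (.bis 3 5 8 1 252 (.leaf 4)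
  (.leaf 7)) (.leaf 4))) (.bis 0 3 1 4 308 (.bis 3 6 4 1 173 (.leaf 2) (.bis 3 5 8 1 252 (.leaf
  2) (.leaf 7))) (.leaf 2))) (.leaf 4)) (.bis 2 3 1 1 84 (.bis 1 3 1 8 248 (.bis 0 3 1 4 308
  (.bis 3 6 4 1 173 (.leaf 2) (.leaf 7)) (.leaf 2)) (.leaf 2)) (.bis 0 2 1 4 296 (.leaf 2) (.leaf
  2)))))) (.bis 2 5 4 1 239 (.bis 0 5 2 1 340 (.bis 3 5 4 1 193 (.leaf 23) (.bis 1 3 1 8 248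
  (.bis 0 3 1 8 342 (.bis 3 7 4 1 81 (.leaf 4) (.bis 3 6 4 1 308 (.leaf 4) (.leaf 7))) (.leaf 4))
  (.leaf 4))) (.bis 0 3 1 2 310 (.bis 1 3 1 8 248 (.bis 3 5 8 1 342 (.leaf 4) (.bis 3 7 4 1 81
  (.leaf 4) (.bis 3 6 4 1 308 (.leaf 4) (.leaf 7)))) (.leaf 4)) (.bis 0 2 4 1 341 (.leaf 4) (.bis
  0 7 2 1 302 (.leaf 4) (.leaf 15))))) (.bis 0 2 1 2 299 (.bis 2 7 4 1 72 (.bis 1 3 1 8 248 (.bis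
  0 3 1 4 309 (.bis 3 7 4 1 81 (.leaf 4) (.bis 3 6 4 1 308 (.leaf 4) (.leaf 7))) (.leaf 4))
  (.leaf 4)) (.bis 2 3 1 1 84 (.bis 1 3 1 8 248 (.bis 0 3 1 4 309 (.bis 3 6 4 1 308 (.leaf 2)
  (.leaf 7)) (.leaf 2)) (.leaf 2)) (.bis 2 6 4 1 296 (.leaf 2) (.leaf 2)))) (.bis 0 3 1 2 310
  (.bis 1 3 1 8 248 (.bis 2 3 1 4 309 (.bis 3 7 4 1 81 (.leaf 4) (.leaf 7)) (.bis 2 7 1 1 312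
  (.leaf 4) (.leaf 4))) (.leaf 4)) (.bis 0 5 4 1 341 (.leaf 4) (.bis 0 7 2 1 302 (.leaf 4) (.leaf
  15))))))) (.bis 0 6 1 1 295 (.bis 1 3 1 1 77 (.bis 2 6 2 1 140 (.bis 3 6 2 1 170 (.bis 6 7 2 1
  166 (.bis 2 7 1 1 172 (.leaf 4) (.leaf 4)) (.leaf 21)) (.bis 3 5 8 1 248 (.bis 2 7 1 1 172
  (.leaf 4) (.leaf 4)) (.bis 2 7 1 1 172 (.bis 3 7 4 1 81 (.leaf 4) (.bis 0 3 1 4 308 (.leaf 7)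
  (.leaf 4))) (.bis 0 3 1 4 308 (.bis 2 3 1 4 173 (.leaf 7) (.leaf 4)) (.leaf 4))))) (.bis 2 7 4
  1 72 (.bis 3 5 8 1 248 (.leaf 4) (.bis 6 7 1 1 172 (.bis 3 7 4 1 81 (.leaf 4) (.bis 0 3 1 4 308
  (.leaf 7) (.leaf 4))) (.bis 0 3 1 4 308 (.bis 3 6 4 1 173 (.leaf 2) (.leaf 7)) (.leaf 2))))
  (.bis 2 3 1 1 84 (.bis 3 5 8 1 248 (.leaf 2) (.bis 0 3 1 4 308 (.leaf 7) (.leaf 2))) (.leaf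
  2)))) (.bis 1 6 2 1 137 (.bis 2 6 2 1 140 (.bis 6 7 2 1 166 (.bis 1 7 1 1 169 (.leaf 4) (.leaf
  2)) (.leaf 21)) (.bis 2 7 4 1 72 (.bis 1 7 1 1 169 (.leaf 4) (.leaf 2)) (.bis 0 2 1 4 296
  (.leaf 2) (.leaf 2)))) (.bis 1 7 4 1 71 (.bis 2 7 4 1 72 (.leaf 4) (.bis 0 2 1 4 296 (.bis 2 4
  4 1 336 (.leaf 2) (.leaf 2)) (.leaf 2))) (.bis 1 4 4 1 335 (.bis 0 2 1 4 296 (.bis 2 4 4 1 336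
  (.leaf 2) (.leaf 2)) (.leaf 2)) (.bis 0 1 1 4 297 (.bis 1 2 1 1 47 (.bis 2 5 8 1 247 (.leaf 2)
  (.leaf 2)) (.leaf 9)) (.bis 0 2 1 4 296 (.bis 2 5 8 1 247 (.leaf 2) (.leaf 2)) (.leaf 2)))))))
  (.bis 1 3 1 1 77 (.bis 0 2 1 2 299 (.bis 2 7 4 1 72 (.bis 3 5 8 1 248 (.leaf 4) (.bis 0 3 1 4
  309 (.bis 3 7 4 1 81 (.leaf 4) (.leaf 7)) (.leaf 4))) (.bis 2 3 1 1 84 (.bis 3 5 8 1 248 (.leaf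
  2) (.bis 0 3 1 4 309 (.leaf 7) (.leaf 2))) (.leaf 2))) (.bis 0 3 1 2 310 (.bis 3 5 8 1 248
  (.bis 2 7 1 1 312 (.leaf 4) (.leaf 4)) (.bis 2 3 1 4 309 (.bis 3 7 4 1 81 (.leaf 4) (.leaf 7))
  (.bis 2 7 1 1 312 (.leaf 4) (.leaf 4)))) (.bis 0 7 2 1 302 (.leaf 4) (.leaf 15)))) (.bis 0 1 1
  2 294 (.bis 1 7 4 1 71 (.bis 2 7 4 1 72 (.leaf 5) (.bis 2 6 4 1 296 (.leaf 2) (.bis 2 4 4 1 336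
  (.leaf 2) (.leaf 2)))) (.bis 1 4 4 1 335 (.bis 2 6 4 1 296 (.leaf 2) (.bis 2 4 4 1 336 (.leaf
  2) (.leaf 2))) (.bis 1 6 4 1 297 (.bis 2 6 4 1 296 (.leaf 2) (.bis 0 2 1 4 304 (.leaf 2) (.leaf
  2))) (.bis 1 2 1 1 47 (.bis 0 2 1 4 304 (.leaf 2) (.leaf 2)) (.leaf 24))))) (.bis 0 2 1 2 299
  (.bis 2 7 4 1 72 (.bis 1 7 1 1 305 (.leaf 4) (.leaf 2)) (.bis 2 6 4 1 296 (.leaf 2) (.leaf 2)))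
  (.bis 0 7 2 1 302 (.bis 1 7 1 1 305 (.leaf 4) (.leaf 15)) (.leaf 15)))))))))

def lc10 : List Vr := [⟨[60,0,0,0,85,0,0,0], 90050, 0⟩, ⟨[0,24,0,0,0,0,0,0], 13824, 0⟩, ⟨[0,0,27,
  0,0,0,0,0], 14580, 0⟩, ⟨[0,0,0,30,0,0,0,0], 14400, 0⟩, ⟨[0,0,0,0,85,85,0,0], 86700, 0⟩, ⟨[0,0,0,
  0,85,170,0,121], 434690, 0⟩, ⟨[0,0,0,0,0,85,42,0], 85682, 0⟩, ⟨[0,0,0,0,85,0,0,121], 96730, 0⟩]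

theorem lk10 : chkTr lowT (leafLow 4 lowB) lt10 lc10 = true := by decide +kernel

def lt11 : Tr ℕ := (.bis 1 5 1 1 182 (.bis 0 5 1 2 345 (.bis 2 5 1 1 183 (.bis 3 5 1 1 196 (.bis
  5 7 4 1 198 (.bis 4 6 1 1 324 (.leaf 80) (.bis 1 4 1 1 346 (.bis 2 4 1 1 347 (.bis 4 7 2 1 343
  (.bis 3 7 2 1 235 (.leaf 80) (.leaf 60)) (.bis 4 5 4 1 348 (.leaf 60) (.bis 3 4 1 1 349 (.leaf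
  43) (.leaf 44)))) (.bis 3 7 2 1 235 (.leaf 80) (.leaf 25))) (.bis 3 7 2 1 235 (.leaf 80) (.leaf
  25)))) (.bis 4 5 1 2 350 (.bis 5 6 2 1 199 (.bis 4 6 1 2 351 (.leaf 25) (.bis 1 4 2 1 352 (.bis
  0 5 1 1 353 (.bis 2 4 2 1 354 (.bis 4 5 1 1 355 (.leaf 25) (.leaf 60)) (.leaf 25)) (.bis 2 4 2
  1 354 (.bis 0 4 1 1 356 (.leaf 60) (.leaf 25)) (.leaf 25))) (.leaf 25))) (.bis 0 5 1 4 357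
  (.bis 1 5 1 2 205 (.bis 2 5 1 2 208 (.bis 3 5 1 2 209 (.bis 5 7 8 1 210 (.bis 4 6 1 1 355
  (.leaf 29) (.leaf 104)) (.bis 4 5 1 4 358 (.bis 5 6 4 1 212 (.bis 4 6 1 2 359 (.leaf 85) (.bis
  1 4 2 1 360 (.bis 0 5 1 1 361 (.bis 2 4 2 1 362 (.leaf 51) (.leaf 51)) (.bis 2 4 2 1 362 (.leaf
  51) (.leaf 29))) (.leaf 51))) (.bis 0 5 1 8 363 (.bis 1 5 1 4 213 (.bis 2 5 1 4 215 (.bis 3 5 1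
  4 216 (.bis 5 7 16 1 217 (.leaf 67) (.bis 4 5 1 8 364 (.bis 5 6 8 1 219 (.leaf 46) (.bis 0 5 1
  16 365 (.bis 1 5 1 8 221 (.bis 2 5 1 8 222 (.bis 3 5 1 8 223 (.bis 5 7 32 1 224 (.leaf 46)
  (.bis 4 5 1 16 366 (.leaf 84) (.leaf 84))) (.leaf 46)) (.leaf 46)) (.leaf 46)) (.leaf 46)))
  (.leaf 118))) (.leaf 67)) (.bis 2 4 2 1 362 (.leaf 51) (.leaf 51))) (.bis 1 4 2 1 360 (.leaf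
  51) (.leaf 51))) (.bis 1 4 2 1 360 (.leaf 51) (.leaf 51)))) (.bis 4 6 1 1 355 (.bis 5 6 1 2 359
  (.leaf 29) (.bis 1 5 2 1 360 (.bis 2 5 2 1 362 (.leaf 51) (.leaf 29)) (.leaf 29))) (.bis 1 4 1
  1 367 (.leaf 104) (.bis 1 5 2 1 360 (.bis 2 5 2 1 362 (.leaf 51) (.leaf 29)) (.leaf 29))))))
  (.bis 4 6 1 1 355 (.leaf 65) (.leaf 94))) (.bis 2 4 2 1 354 (.bis 4 6 1 1 355 (.leaf 65) (.leaf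
  94)) (.leaf 65))) (.bis 1 4 2 1 352 (.bis 2 4 2 1 354 (.bis 4 6 1 1 355 (.leaf 25) (.leaf 94))
  (.leaf 25)) (.leaf 25))) (.bis 1 4 2 1 352 (.bis 0 6 1 1 353 (.bis 2 4 2 1 354 (.bis 4 6 1 1
  355 (.leaf 25) (.leaf 60)) (.leaf 25)) (.bis 2 4 2 1 354 (.leaf 60) (.leaf 25))) (.leaf 25))))
  (.bis 4 6 1 1 324 (.bis 5 6 1 2 351 (.leaf 25) (.bis 1 5 2 1 352 (.bis 2 5 2 1 354 (.bis 0 5 1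
  1 356 (.leaf 60) (.leaf 25)) (.leaf 25)) (.leaf 25))) (.bis 1 4 1 1 346 (.bis 2 4 1 1 347 (.bis
  4 7 4 1 348 (.leaf 60) (.bis 3 4 1 1 349 (.leaf 119) (.leaf 60))) (.bis 2 5 2 1 354 (.bis 0 5 1
  1 356 (.leaf 60) (.leaf 25)) (.leaf 25))) (.bis 1 5 2 1 352 (.bis 2 5 2 1 354 (.bis 0 5 1 1 356
  (.leaf 60) (.leaf 25)) (.leaf 25)) (.leaf 25)))))) (.bis 4 6 1 1 324 (.bis 3 6 2 1 170 (.bis 5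
  7 2 1 235 (.leaf 16) (.leaf 72)) (.bis 3 7 4 1 193 (.leaf 44) (.bis 1 3 1 2 194 (.bis 2 3 1 2
  195 (.bis 0 3 1 4 368 (.bis 3 4 4 1 326 (.leaf 44) (.leaf 86)) (.leaf 44)) (.leaf 44)) (.leaf
  44)))) (.bis 3 4 2 1 327 (.bis 1 4 1 1 346 (.bis 2 4 1 1 347 (.bis 4 7 2 1 343 (.bis 5 7 2 1
  235 (.leaf 27) (.leaf 44)) (.bis 4 5 1 1 349 (.leaf 44) (.leaf 43))) (.bis 5 7 2 1 235 (.leaf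
  27) (.leaf 44))) (.bis 1 3 2 1 369 (.bis 5 7 2 1 235 (.leaf 27) (.leaf 44)) (.bis 5 7 2 1 235
  (.leaf 27) (.leaf 25)))) (.bis 3 7 4 1 193 (.leaf 44) (.bis 1 3 1 2 194 (.bis 2 3 1 2 195 (.bis
  0 3 1 4 368 (.leaf 86) (.leaf 44)) (.leaf 44)) (.leaf 44)))))) (.bis 2 4 2 1 323 (.bis 4 6 1 1
  324 (.bis 3 6 2 1 170 (.leaf 91) (.bis 3 7 4 1 193 (.leaf 27) (.bis 1 3 1 2 194 (.bis 3 5 2 1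
  195 (.leaf 27) (.bis 0 3 1 4 368 (.leaf 64) (.leaf 27))) (.leaf 27)))) (.bis 3 4 2 1 327 (.bis
  1 4 1 1 346 (.bis 4 5 1 1 347 (.bis 5 7 2 1 370 (.leaf 27) (.leaf 27)) (.bis 4 7 2 1 343 (.leaf
  27) (.leaf 43))) (.bis 1 3 2 1 369 (.bis 5 7 2 1 370 (.leaf 13) (.leaf 27)) (.bis 5 7 2 1 370
  (.leaf 27) (.leaf 27)))) (.bis 3 7 4 1 193 (.leaf 27) (.bis 1 3 1 2 194 (.bis 3 5 2 1 195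
  (.leaf 27) (.bis 0 3 1 4 368 (.leaf 64) (.leaf 27))) (.leaf 27))))) (.bis 2 7 4 1 239 (.bis 3 6
  2 1 170 (.leaf 91) (.bis 3 7 4 1 193 (.leaf 27) (.bis 1 3 1 2 194 (.bis 3 5 2 1 195 (.leaf 27)
  (.bis 0 3 1 4 368 (.leaf 7) (.leaf 27))) (.leaf 27)))) (.bis 0 2 1 4 371 (.bis 2 6 2 1 140
  (.bis 3 6 2 1 170 (.leaf 21) (.bis 1 3 1 2 194 (.bis 3 5 2 1 195 (.leaf 21) (.bis 2 3 1 4 173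
  (.leaf 7) (.leaf 7))) (.leaf 21))) (.bis 1 2 1 2 240 (.bis 2 5 2 1 241 (.bis 3 5 2 1 195 (.leaf
  21) (.bis 3 6 4 1 173 (.leaf 7) (.bis 1 3 1 4 242 (.bis 3 7 8 1 252 (.leaf 7) (.leaf 7)) (.leaf
  7)))) (.bis 2 3 1 1 84 (.bis 3 6 4 1 173 (.leaf 4) (.bis 1 3 1 4 242 (.leaf 7) (.leaf 4)))
  (.leaf 45))) (.bis 1 3 1 2 194 (.bis 3 5 2 1 195 (.leaf 21) (.bis 3 6 4 1 173 (.leaf 7) (.bis 2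
  3 1 4 242 (.leaf 7) (.leaf 7)))) (.leaf 21)))) (.bis 3 6 2 1 170 (.leaf 91) (.bis 1 3 1 2 194
  (.bis 3 5 2 1 195 (.leaf 27) (.bis 0 3 1 4 368 (.leaf 7) (.leaf 27))) (.leaf 27))))))) (.bis 2
  4 2 1 323 (.bis 0 6 1 1 295 (.bis 4 6 1 1 324 (.bis 3 6 2 1 170 (.leaf 58) (.bis 3 7 4 1 193
  (.leaf 27) (.bis 1 3 1 2 194 (.bis 3 5 4 1 368 (.leaf 13) (.bis 3 4 4 1 326 (.leaf 13) (.leaf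
  7))) (.leaf 27)))) (.bis 3 4 2 1 327 (.bis 1 4 1 1 346 (.bis 0 4 1 2 330 (.bis 4 7 2 1 343
  (.leaf 13) (.leaf 43)) (.leaf 13)) (.leaf 27)) (.bis 3 7 4 1 193 (.leaf 27) (.bis 1 3 1 2 194
  (.bis 3 5 4 1 368 (.leaf 13) (.bis 3 6 4 1 326 (.leaf 13) (.leaf 7))) (.leaf 27))))) (.bis 0 1
  1 1 372 (.bis 3 4 2 1 327 (.bis 1 4 1 1 346 (.bis 4 6 2 1 330 (.bis 3 7 1 1 373 (.leaf 13)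
  (.leaf 13)) (.bis 0 4 1 2 374 (.bis 4 7 2 1 343 (.leaf 13) (.leaf 43)) (.bis 3 7 1 1 373 (.leaf
  13) (.leaf 13)))) (.bis 1 3 2 1 369 (.bis 3 7 1 1 373 (.leaf 13) (.leaf 13)) (.bis 0 7 1 1 375
  (.leaf 27) (.leaf 27)))) (.bis 3 7 4 1 193 (.leaf 27) (.bis 1 3 1 2 194 (.bis 3 5 4 1 368
  (.leaf 13) (.bis 3 6 4 1 308 (.leaf 7) (.leaf 7))) (.leaf 27)))) (.bis 0 7 2 1 340 (.bis 3 4 2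
  1 327 (.bis 4 6 2 1 330 (.leaf 13) (.bis 1 4 1 2 374 (.bis 4 7 2 1 343 (.leaf 13) (.leaf 43))
  (.bis 3 7 1 1 373 (.leaf 13) (.leaf 13)))) (.bis 3 7 4 1 193 (.leaf 13) (.bis 3 5 4 1 368
  (.leaf 13) (.bis 0 3 1 8 342 (.bis 3 6 4 1 308 (.leaf 7) (.leaf 7)) (.leaf 7))))) (.bis 0 4 1 1
  332 (.bis 3 4 2 1 327 (.bis 4 6 2 1 330 (.leaf 13) (.bis 1 4 1 2 374 (.leaf 43) (.leaf 13)))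
  (.bis 0 3 1 4 333 (.bis 3 5 4 1 368 (.leaf 13) (.bis 3 7 8 1 342 (.leaf 7) (.bis 3 6 4 1 308
  (.leaf 7) (.leaf 7)))) (.leaf 13))) (.bis 0 3 1 2 310 (.bis 3 4 4 1 333 (.leaf 13) (.bis 3 5 4
  1 368 (.leaf 13) (.bis 3 7 8 1 342 (.leaf 7) (.bis 3 6 4 1 308 (.leaf 7) (.leaf 7))))) (.bis 0
  5 2 1 376 (.leaf 13) (.leaf 28))))))) (.bis 0 6 1 1 295 (.bis 2 7 4 1 239 (.bis 3 6 2 1 170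
  (.leaf 58) (.bis 3 7 4 1 193 (.leaf 27) (.bis 1 3 1 2 194 (.bis 3 5 4 1 368 (.leaf 13) (.bis 0
  3 1 4 308 (.leaf 7) (.leaf 7))) (.leaf 27)))) (.bis 2 5 4 1 371 (.bis 3 6 2 1 170 (.leaf 58)
  (.bis 1 3 1 2 194 (.bis 3 5 4 1 368 (.leaf 13) (.bis 0 3 1 4 308 (.leaf 7) (.leaf 7))) (.leaf
  27))) (.bis 2 6 2 1 140 (.bis 3 6 2 1 170 (.leaf 21) (.bis 1 3 1 2 194 (.bis 0 3 1 4 308 (.bis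
  2 3 1 4 173 (.leaf 7) (.leaf 4)) (.leaf 4)) (.leaf 21))) (.bis 1 2 1 2 240 (.bis 2 3 1 1 84
  (.bis 0 3 1 4 308 (.bis 3 6 4 1 173 (.leaf 4) (.leaf 7)) (.leaf 4)) (.leaf 45)) (.bis 1 3 1 2
  194 (.bis 0 3 1 4 308 (.bis 3 6 4 1 173 (.leaf 4) (.bis 2 3 1 4 242 (.leaf 7) (.leaf 4)))
  (.leaf 4)) (.leaf 21)))))) (.bis 0 1 1 1 372 (.bis 2 7 4 1 239 (.bis 3 7 4 1 193 (.leaf 27)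
  (.bis 1 3 1 2 194 (.bis 3 5 4 1 368 (.leaf 13) (.bis 3 6 4 1 308 (.leaf 7) (.leaf 7))) (.leaf
  27))) (.bis 2 5 4 1 371 (.bis 1 3 1 2 194 (.bis 3 5 4 1 368 (.leaf 13) (.bis 3 6 4 1 308 (.leaf
  7) (.bis 0 3 1 4 377 (.leaf 7) (.leaf 7)))) (.leaf 27)) (.bis 1 2 1 2 240 (.bis 2 3 1 1 84
  (.bis 3 6 4 1 308 (.leaf 4) (.bis 0 3 1 4 377 (.leaf 7) (.leaf 4))) (.bis 2 6 4 1 296 (.leaf 4)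
  (.leaf 45))) (.bis 1 3 1 2 194 (.bis 3 6 4 1 308 (.leaf 4) (.bis 0 3 1 4 377 (.bis 2 3 1 4 242
  (.leaf 7) (.leaf 4)) (.leaf 4))) (.leaf 21))))) (.bis 2 7 4 1 239 (.bis 0 7 2 1 340 (.bis 3 7 4
  1 193 (.leaf 13) (.bis 3 5 4 1 368 (.leaf 13) (.bis 0 3 1 8 342 (.bis 3 6 4 1 308 (.leaf 7)
  (.bis 1 3 1 4 377 (.leaf 7) (.leaf 7))) (.leaf 7)))) (.bis 0 3 1 2 310 (.bis 3 5 4 1 368 (.leaf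
  13) (.bis 3 7 8 1 342 (.leaf 7) (.bis 3 6 4 1 308 (.leaf 7) (.leaf 7)))) (.bis 0 2 4 1 341
  (.leaf 13) (.bis 0 5 2 1 376 (.leaf 13) (.leaf 28))))) (.bis 2 5 4 1 371 (.bis 0 3 1 2 310
  (.bis 3 5 4 1 368 (.leaf 13) (.bis 3 6 4 1 308 (.leaf 7) (.bis 1 3 1 4 377 (.leaf 7) (.leaf
  7)))) (.bis 0 7 4 1 341 (.leaf 13) (.bis 0 5 2 1 376 (.leaf 13) (.leaf 28)))) (.bis 0 2 1 2 299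
  (.bis 2 3 1 1 84 (.bis 0 3 1 4 309 (.bis 3 6 4 1 308 (.leaf 4) (.leaf 7)) (.leaf 4)) (.bis 2 6
  4 1 296 (.leaf 4) (.leaf 45))) (.bis 0 3 1 2 310 (.bis 2 3 1 4 309 (.bis 3 6 4 1 308 (.leaf 4)
  (.bis 1 3 1 4 377 (.leaf 7) (.leaf 4))) (.leaf 4)) (.bis 0 7 4 1 341 (.leaf 4) (.leaf
  28)))))))))) (.bis 1 4 2 1 313 (.bis 2 4 2 1 323 (.bis 0 6 1 1 295 (.bis 4 6 1 1 324 (.bis 3 6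
  2 1 170 (.leaf 58) (.bis 3 7 4 1 193 (.leaf 27) (.bis 3 5 2 1 194 (.leaf 27) (.bis 3 4 4 1 326
  (.leaf 13) (.bis 0 3 1 4 308 (.leaf 7) (.leaf 4)))))) (.bis 3 4 2 1 327 (.bis 4 5 1 1 346
  (.leaf 27) (.bis 0 4 1 2 330 (.bis 4 7 2 1 343 (.leaf 13) (.leaf 43)) (.leaf 13))) (.bis 3 7 4
  1 193 (.leaf 27) (.bis 3 5 2 1 194 (.leaf 27) (.bis 3 6 4 1 326 (.leaf 13) (.bis 0 3 1 4 308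
  (.leaf 7) (.leaf 7))))))) (.bis 0 5 1 1 372 (.bis 3 4 2 1 327 (.bis 4 5 1 1 346 (.bis 3 5 1 2
  369 (.bis 0 7 1 1 375 (.leaf 27) (.leaf 27)) (.bis 3 7 1 1 373 (.leaf 13) (.leaf 13))) (.bis 4
  6 2 1 330 (.bis 3 7 1 1 373 (.leaf 13) (.leaf 13)) (.bis 0 4 1 2 374 (.bis 4 7 2 1 343 (.leaf
  13) (.leaf 43)) (.bis 3 7 1 1 373 (.leaf 13) (.leaf 13))))) (.bis 3 7 4 1 193 (.leaf 27) (.bis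
  3 5 2 1 194 (.leaf 27) (.bis 3 6 4 1 308 (.leaf 7) (.leaf 7))))) (.bis 0 7 2 1 340 (.bis 3 4 2
  1 327 (.bis 4 6 2 1 330 (.bis 3 7 1 1 373 (.leaf 13) (.leaf 13)) (.bis 4 5 2 1 374 (.bis 3 7 1
  1 373 (.leaf 13) (.leaf 13)) (.bis 4 7 2 1 343 (.leaf 13) (.leaf 43)))) (.bis 3 7 4 1 193
  (.leaf 13) (.bis 0 3 1 8 342 (.bis 3 6 4 1 308 (.leaf 7) (.bis 3 5 4 1 377 (.leaf 7) (.leaf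
  7))) (.leaf 7)))) (.bis 0 4 1 1 332 (.bis 3 4 2 1 327 (.bis 4 6 2 1 330 (.leaf 13) (.bis 4 5 2
  1 374 (.leaf 13) (.leaf 43))) (.bis 0 3 1 4 333 (.bis 3 7 8 1 342 (.leaf 7) (.bis 3 6 4 1 308
  (.leaf 7) (.leaf 7))) (.leaf 13))) (.bis 0 3 1 2 310 (.bis 3 4 4 1 333 (.leaf 13) (.bis 3 7 8 1
  342 (.leaf 7) (.bis 3 6 4 1 308 (.leaf 7) (.bis 3 5 4 1 377 (.leaf 7) (.leaf 7))))) (.leaf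
  28)))))) (.bis 0 6 1 1 295 (.bis 2 7 4 1 239 (.bis 3 6 2 1 170 (.leaf 58) (.bis 3 7 4 1 193
  (.leaf 27) (.bis 3 5 2 1 194 (.leaf 21) (.bis 0 3 1 4 308 (.bis 2 3 1 8 252 (.leaf 7) (.leaf
  4)) (.leaf 4))))) (.bis 2 6 2 1 140 (.bis 3 6 2 1 170 (.leaf 21) (.bis 3 5 2 1 194 (.leaf 21)
  (.bis 0 3 1 4 308 (.bis 2 3 1 4 173 (.leaf 7) (.leaf 4)) (.leaf 4)))) (.bis 2 5 2 1 240 (.bis 3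
  5 2 1 194 (.leaf 21) (.bis 0 3 1 4 308 (.bis 3 6 4 1 173 (.leaf 4) (.bis 2 3 1 4 242 (.leaf 7)
  (.leaf 4))) (.leaf 4))) (.bis 2 3 1 1 84 (.bis 0 3 1 4 308 (.bis 3 6 4 1 173 (.leaf 4) (.leaf
  7)) (.leaf 4)) (.bis 0 2 1 4 296 (.leaf 45) (.leaf 4)))))) (.bis 0 5 1 1 372 (.bis 2 7 4 1 239
  (.bis 3 7 4 1 193 (.leaf 27) (.bis 3 5 2 1 194 (.leaf 21) (.bis 3 6 4 1 308 (.leaf 4) (.bis 0 3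
  1 4 377 (.leaf 7) (.leaf 4))))) (.bis 2 5 2 1 240 (.bis 3 5 2 1 194 (.leaf 21) (.bis 3 6 4 1
  308 (.leaf 4) (.bis 0 3 1 4 377 (.bis 2 3 1 4 242 (.leaf 7) (.leaf 4)) (.leaf 4)))) (.bis 2 3 1
  1 84 (.bis 3 6 4 1 308 (.leaf 4) (.bis 0 3 1 4 377 (.leaf 7) (.leaf 4))) (.bis 2 6 4 1 296
  (.leaf 4) (.bis 0 2 1 4 378 (.leaf 45) (.leaf 4)))))) (.bis 2 7 4 1 239 (.bis 0 7 2 1 340 (.bis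
  3 7 4 1 193 (.leaf 13) (.bis 0 3 1 8 342 (.bis 3 6 4 1 308 (.leaf 4) (.bis 3 5 4 1 377 (.leaf
  4) (.leaf 7))) (.leaf 4))) (.bis 0 3 1 2 310 (.bis 3 7 8 1 342 (.leaf 4) (.bis 3 6 4 1 308
  (.leaf 4) (.bis 3 5 4 1 377 (.leaf 4) (.leaf 7)))) (.bis 0 2 4 1 341 (.leaf 4) (.leaf 28))))
  (.bis 0 2 1 2 299 (.bis 2 3 1 1 84 (.bis 0 3 1 4 309 (.bis 3 6 4 1 308 (.leaf 4) (.leaf 7))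
  (.leaf 4)) (.bis 2 6 4 1 296 (.leaf 4) (.bis 2 5 4 1 378 (.leaf 4) (.leaf 45)))) (.bis 0 3 1 2
  310 (.bis 2 3 1 4 309 (.bis 3 6 4 1 308 (.leaf 4) (.bis 3 5 4 1 377 (.leaf 4) (.leaf 7)))
  (.leaf 4)) (.bis 0 7 4 1 341 (.leaf 4) (.leaf 28)))))))) (.bis 1 7 4 1 245 (.bis 0 6 1 1 295
  (.bis 2 7 4 1 239 (.bis 3 6 2 1 170 (.leaf 10) (.bis 3 7 4 1 193 (.leaf 10) (.bis 3 5 2 1 194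
  (.leaf 10) (.bis 1 3 1 8 248 (.bis 0 3 1 4 308 (.leaf 7) (.leaf 4)) (.leaf 4))))) (.bis 2 6 2 1
  140 (.bis 3 6 2 1 170 (.leaf 10) (.bis 3 5 2 1 194 (.leaf 10) (.bis 1 3 1 8 248 (.bis 0 3 1 4
  308 (.bis 2 3 1 4 173 (.leaf 7) (.leaf 4)) (.leaf 4)) (.leaf 4)))) (.bis 2 5 2 1 240 (.bis 3 5
  2 1 194 (.leaf 10) (.bis 1 3 1 8 248 (.bis 0 3 1 4 308 (.bis 3 6 4 1 173 (.leaf 4) (.bis 2 3 1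
  4 242 (.leaf 7) (.leaf 4))) (.leaf 4)) (.leaf 4))) (.bis 2 3 1 1 84 (.bis 1 3 1 8 248 (.bis 0 3
  1 4 308 (.bis 3 6 4 1 173 (.leaf 2) (.leaf 7)) (.leaf 2)) (.leaf 2)) (.bis 0 2 1 4 296 (.leaf
  2) (.leaf 2)))))) (.bis 0 5 1 1 372 (.bis 2 7 4 1 239 (.bis 3 7 4 1 193 (.leaf 10) (.bis 3 5 2
  1 194 (.leaf 10) (.bis 1 3 1 8 248 (.bis 3 6 4 1 308 (.leaf 4) (.bis 0 3 1 4 377 (.leaf 7)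
  (.leaf 4))) (.leaf 4)))) (.bis 2 5 2 1 240 (.bis 3 5 2 1 194 (.leaf 10) (.bis 1 3 1 8 248 (.bis
  3 6 4 1 308 (.leaf 4) (.bis 0 3 1 4 377 (.leaf 7) (.leaf 4))) (.leaf 4))) (.bis 2 3 1 1 84
  (.bis 1 3 1 8 248 (.bis 3 6 4 1 308 (.leaf 2) (.bis 0 3 1 4 377 (.leaf 7) (.leaf 2))) (.leaf
  2)) (.bis 2 6 4 1 296 (.leaf 2) (.bis 0 2 1 4 378 (.leaf 2) (.leaf 2)))))) (.bis 2 7 4 1 239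
  (.bis 0 7 2 1 340 (.bis 3 7 4 1 193 (.leaf 10) (.bis 1 3 1 8 248 (.bis 0 3 1 8 342 (.bis 3 6 4
  1 308 (.leaf 4) (.bis 3 5 4 1 377 (.leaf 4) (.leaf 7))) (.leaf 4)) (.leaf 4))) (.bis 0 3 1 2
  310 (.bis 1 3 1 8 248 (.bis 3 7 8 1 342 (.leaf 4) (.bis 3 6 4 1 308 (.leaf 4) (.bis 3 5 4 1 377
  (.leaf 4) (.leaf 7)))) (.leaf 4)) (.bis 0 2 4 1 341 (.leaf 4) (.leaf 15)))) (.bis 0 2 1 2 299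
  (.bis 2 3 1 1 84 (.bis 1 3 1 8 248 (.bis 0 3 1 4 309 (.bis 3 6 4 1 308 (.leaf 2) (.leaf 7))
  (.leaf 2)) (.leaf 2)) (.bis 2 6 4 1 296 (.leaf 2) (.bis 2 5 4 1 378 (.leaf 2) (.leaf 2))))
  (.bis 0 3 1 2 310 (.bis 1 3 1 8 248 (.bis 2 3 1 4 309 (.bis 3 6 4 1 308 (.leaf 4) (.bis 3 5 4 1
  377 (.leaf 4) (.leaf 7))) (.leaf 4)) (.leaf 4)) (.bis 0 7 4 1 341 (.leaf 4) (.leaf 15)))))))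
  (.bis 0 6 1 1 295 (.bis 1 3 1 1 77 (.bis 2 6 2 1 140 (.bis 3 6 2 1 170 (.leaf 21) (.bis 3 5 2 1
  194 (.leaf 21) (.bis 3 7 8 1 248 (.leaf 4) (.bis 0 3 1 4 308 (.leaf 7) (.leaf 4))))) (.bis 2 5
  2 1 240 (.bis 3 5 2 1 194 (.leaf 21) (.bis 3 7 8 1 248 (.leaf 4) (.bis 0 3 1 4 308 (.bis 3 6 4
  1 173 (.leaf 4) (.leaf 7)) (.leaf 4)))) (.bis 2 3 1 1 84 (.bis 3 7 8 1 248 (.leaf 2) (.bis 0 3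
  1 4 308 (.bis 3 6 4 1 173 (.leaf 2) (.leaf 7)) (.leaf 2))) (.leaf 2)))) (.bis 1 6 2 1 137 (.bis
  2 6 2 1 140 (.leaf 21) (.bis 2 5 2 1 240 (.leaf 21) (.bis 0 2 1 4 296 (.bis 2 4 4 1 336 (.leaf
  2) (.leaf 2)) (.leaf 2)))) (.bis 1 5 2 1 246 (.bis 2 5 2 1 240 (.leaf 21) (.bis 0 2 1 4 296
  (.bis 2 4 4 1 336 (.leaf 2) (.leaf 2)) (.leaf 2))) (.bis 1 4 4 1 335 (.bis 0 2 1 4 296 (.bis 2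
  4 4 1 336 (.leaf 2) (.bis 2 7 8 1 247 (.leaf 2) (.leaf 2))) (.leaf 2)) (.bis 0 1 1 4 297 (.bis
  1 2 1 1 47 (.bis 2 7 8 1 247 (.leaf 2) (.leaf 2)) (.leaf 24)) (.bis 0 2 1 4 296 (.bis 2 7 8 1
  247 (.leaf 2) (.leaf 2)) (.leaf 2))))))) (.bis 1 3 1 1 77 (.bis 0 5 1 1 372 (.bis 2 5 2 1 240
  (.bis 3 5 2 1 194 (.leaf 21) (.bis 3 7 8 1 248 (.leaf 4) (.bis 3 6 4 1 308 (.leaf 4) (.bis 0 3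
  1 4 377 (.leaf 7) (.leaf 4))))) (.bis 2 3 1 1 84 (.bis 3 7 8 1 248 (.leaf 2) (.bis 3 6 4 1 308
  (.leaf 2) (.bis 0 3 1 4 377 (.leaf 7) (.leaf 2)))) (.bis 2 6 4 1 296 (.leaf 2) (.leaf 2))))
  (.bis 0 2 1 2 299 (.bis 2 3 1 1 84 (.bis 3 7 8 1 248 (.leaf 2) (.bis 0 3 1 4 309 (.bis 3 6 4 1
  308 (.leaf 2) (.leaf 7)) (.leaf 2))) (.bis 2 6 4 1 296 (.leaf 2) (.leaf 2))) (.bis 0 3 1 2 310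
  (.bis 3 7 8 1 248 (.leaf 4) (.bis 2 3 1 4 309 (.bis 3 6 4 1 308 (.leaf 4) (.leaf 7)) (.leaf
  4))) (.bis 0 7 4 1 379 (.leaf 4) (.leaf 15))))) (.bis 0 5 1 1 372 (.bis 1 5 2 1 246 (.bis 2 5 2
  1 240 (.leaf 21) (.bis 2 6 4 1 296 (.leaf 2) (.bis 0 2 1 4 378 (.leaf 2) (.leaf 2)))) (.bis 1 4
  4 1 335 (.bis 2 6 4 1 296 (.leaf 2) (.bis 0 2 1 4 378 (.bis 2 4 4 1 336 (.leaf 2) (.leaf 2))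
  (.leaf 2))) (.bis 0 1 1 4 380 (.bis 1 6 4 1 297 (.bis 2 6 4 1 296 (.leaf 2) (.bis 2 7 8 1 247
  (.leaf 2) (.leaf 2))) (.bis 1 2 1 1 47 (.bis 2 7 8 1 247 (.leaf 2) (.leaf 2)) (.leaf 24)))
  (.bis 2 6 4 1 296 (.leaf 2) (.bis 0 2 1 4 378 (.leaf 2) (.leaf 2)))))) (.bis 0 1 1 2 294 (.bis
  1 4 4 1 335 (.bis 2 6 4 1 296 (.leaf 2) (.bis 2 5 4 1 378 (.leaf 2) (.bis 2 4 4 1 336 (.leaf 2)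
  (.leaf 2)))) (.bis 1 5 4 1 380 (.bis 2 6 4 1 296 (.leaf 2) (.bis 2 5 4 1 378 (.leaf 2) (.leaf
  2))) (.bis 1 6 4 1 297 (.bis 2 6 4 1 296 (.leaf 2) (.bis 0 2 1 4 304 (.leaf 2) (.leaf 2)))
  (.bis 1 2 1 1 47 (.bis 0 2 1 4 304 (.leaf 2) (.leaf 2)) (.leaf 24))))) (.bis 0 2 1 2 299 (.bis
  2 6 4 1 296 (.leaf 2) (.bis 2 5 4 1 378 (.leaf 2) (.leaf 2))) (.bis 0 7 4 1 379 (.leaf 2)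
  (.leaf 15))))))))))

def lc11 : List Vr := [⟨[60,0,0,0,85,0,0,0], 90050, 0⟩, ⟨[0,24,0,0,0,0,0,0], 13824, 0⟩, ⟨[0,0,27,
  0,0,0,0,0], 14580, 0⟩, ⟨[0,0,0,30,0,0,0,0], 14400, 0⟩, ⟨[0,0,0,0,85,85,0,0], 86700, 0⟩, ⟨[0,0,0,
  0,0,85,0,0], 14450, 0⟩, ⟨[0,0,0,0,0,85,42,0], 85682, 0⟩, ⟨[0,0,0,0,85,170,0,121], 434690, 0⟩]

theorem lk11 : chkTr lowT (leafLow 4 lowB) lt11 lc11 = true := by decide +kernel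

def lt12 : Tr ℕ := (.bis 5 6 1 2 275 (.bis 3 6 1 1 59 (.bis 0 6 1 2 276 (.bis 6 7 2 1 16 (.bis 2
  7 2 1 53 (.bis 1 7 2 1 35 (.bis 3 7 1 1 66 (.bis 5 7 1 2 277 (.bis 0 7 1 2 278 (.bis 4 7 1 1
  382 (.leaf 19) (.bis 4 6 2 1 383 (.leaf 19) (.bis 1 4 1 2 384 (.leaf 8) (.leaf 8)))) (.bis 4 6
  2 1 383 (.bis 0 2 1 1 280 (.leaf 3) (.leaf 3)) (.bis 1 4 1 2 384 (.leaf 8) (.leaf 3)))) (.bis 4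
  6 2 1 383 (.bis 5 6 1 1 281 (.leaf 3) (.leaf 8)) (.leaf 8))) (.bis 4 6 2 1 383 (.leaf 42)
  (.leaf 34))) (.bis 1 4 2 1 385 (.leaf 88) (.bis 1 6 4 1 27 (.leaf 42) (.bis 1 5 4 1 282 (.leaf
  5) (.bis 1 2 4 1 55 (.leaf 3) (.leaf 9)))))) (.bis 2 6 4 1 42 (.bis 1 4 2 1 385 (.leaf 88)
  (.bis 1 6 4 1 27 (.leaf 42) (.bis 1 5 4 1 282 (.leaf 5) (.bis 1 7 4 1 55 (.leaf 3) (.leaf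
  6))))) (.bis 1 4 2 1 385 (.bis 2 4 2 1 386 (.leaf 34) (.bis 2 5 4 1 284 (.leaf 5) (.bis 0 2 1 4
  285 (.leaf 2) (.leaf 5)))) (.bis 1 5 4 1 282 (.bis 2 5 4 1 284 (.leaf 5) (.bis 0 2 1 4 285
  (.bis 2 7 4 1 56 (.leaf 2) (.leaf 2)) (.leaf 5))) (.bis 1 7 4 1 55 (.bis 0 2 1 4 285 (.bis 2 7
  4 1 56 (.leaf 2) (.leaf 2)) (.leaf 3)) (.bis 0 2 1 4 285 (.bis 1 2 1 1 47 (.leaf 2) (.leaf 6))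
  (.leaf 6))))))) (.bis 2 6 1 1 39 (.bis 4 6 1 2 387 (.bis 5 6 1 4 286 (.bis 1 6 1 1 26 (.leaf
  39) (.bis 1 7 4 1 27 (.leaf 3) (.bis 1 4 4 1 388 (.leaf 3) (.leaf 9)))) (.bis 1 7 4 1 27 (.leaf
  42) (.bis 1 5 4 1 282 (.leaf 24) (.bis 1 4 4 1 388 (.leaf 3) (.leaf 9))))) (.bis 1 4 2 1 385
  (.bis 2 4 1 1 389 (.bis 4 7 2 1 383 (.leaf 42) (.leaf 88)) (.leaf 42)) (.bis 1 7 4 1 27 (.leaf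
  42) (.bis 1 5 4 1 282 (.leaf 24) (.leaf 24))))) (.bis 2 7 4 1 42 (.bis 1 4 2 1 385 (.bis 4 6 1
  1 389 (.leaf 42) (.bis 4 7 2 1 383 (.leaf 42) (.leaf 34))) (.bis 1 7 4 1 27 (.leaf 42) (.bis 1
  5 4 1 282 (.leaf 24) (.leaf 6)))) (.bis 1 4 2 1 385 (.bis 2 4 2 1 386 (.leaf 88) (.bis 2 5 4 1
  284 (.leaf 24) (.bis 0 2 1 4 285 (.leaf 6) (.leaf 6)))) (.bis 1 5 4 1 282 (.bis 2 5 4 1 284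
  (.leaf 24) (.bis 0 2 1 4 285 (.leaf 6) (.leaf 6))) (.bis 0 2 1 4 285 (.bis 1 2 1 1 47 (.leaf 6)
  (.leaf 6)) (.leaf 6))))))) (.bis 2 7 2 1 53 (.bis 1 7 2 1 35 (.bis 0 7 1 1 287 (.bis 3 7 1 1 66
  (.bis 5 7 1 2 277 (.bis 6 7 1 2 278 (.bis 4 7 1 1 382 (.leaf 19) (.bis 1 4 1 2 384 (.leaf 8)
  (.leaf 8))) (.bis 1 4 1 2 384 (.leaf 8) (.bis 2 6 1 1 280 (.leaf 8) (.leaf 8)))) (.leaf 8))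
  (.leaf 34)) (.bis 0 3 1 1 289 (.leaf 34) (.bis 0 1 2 1 291 (.leaf 8) (.bis 0 2 2 1 292 (.leaf
  8) (.leaf 28))))) (.bis 0 1 1 2 294 (.bis 1 4 2 1 385 (.leaf 34) (.bis 1 5 4 1 282 (.leaf 5)
  (.bis 1 2 4 1 55 (.leaf 5) (.leaf 24)))) (.bis 0 3 1 1 289 (.leaf 34) (.bis 0 7 2 1 291 (.leaf
  8) (.bis 0 2 2 1 292 (.leaf 8) (.leaf 28)))))) (.bis 0 1 1 2 294 (.bis 1 4 2 1 385 (.bis 2 4 2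
  1 386 (.leaf 34) (.bis 2 5 4 1 284 (.leaf 5) (.bis 2 6 4 1 285 (.leaf 5) (.bis 2 7 4 1 56
  (.leaf 2) (.leaf 2))))) (.bis 1 5 4 1 282 (.bis 2 5 4 1 284 (.leaf 5) (.bis 2 6 4 1 285 (.leaf
  5) (.bis 2 7 4 1 56 (.leaf 2) (.leaf 2)))) (.bis 1 7 4 1 55 (.bis 2 6 4 1 285 (.leaf 5) (.bis 2
  7 4 1 56 (.leaf 2) (.leaf 2))) (.bis 2 6 4 1 285 (.leaf 6) (.bis 1 2 1 1 47 (.leaf 2) (.leaf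
  6)))))) (.bis 0 2 1 2 299 (.bis 2 4 2 1 386 (.leaf 34) (.bis 2 5 4 1 284 (.leaf 22) (.bis 2 6 4
  1 285 (.leaf 22) (.leaf 2)))) (.bis 0 3 1 1 289 (.leaf 34) (.bis 0 7 2 1 292 (.leaf 8) (.leaf
  28))))))) (.bis 3 7 2 1 69 (.bis 2 7 2 1 53 (.bis 1 7 2 1 35 (.bis 0 7 1 1 287 (.bis 6 7 1 1 66
  (.bis 5 7 1 2 277 (.bis 4 7 1 1 382 (.leaf 19) (.bis 1 4 1 2 384 (.leaf 8) (.leaf 8))) (.bis 1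
  4 1 2 384 (.bis 0 5 1 1 300 (.leaf 8) (.leaf 8)) (.bis 1 5 1 1 288 (.bis 0 5 1 1 300 (.leaf 5)
  (.leaf 8)) (.leaf 8)))) (.bis 0 6 1 2 301 (.leaf 34) (.bis 1 4 1 2 384 (.leaf 8) (.bis 1 5 1 1
  288 (.leaf 8) (.leaf 8))))) (.bis 0 6 1 1 289 (.bis 6 7 2 1 301 (.leaf 8) (.leaf 34)) (.bis 0 1
  2 1 291 (.leaf 8) (.bis 0 2 2 1 292 (.leaf 8) (.leaf 116))))) (.bis 0 1 1 2 294 (.bis 1 4 2 1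
  385 (.leaf 34) (.bis 1 3 4 1 71 (.leaf 5) (.bis 1 5 4 1 282 (.leaf 5) (.bis 1 2 4 1 55 (.leaf
  5) (.leaf 24))))) (.bis 0 6 1 1 289 (.leaf 34) (.bis 0 7 2 1 291 (.leaf 8) (.bis 0 2 2 1 292
  (.leaf 8) (.bis 0 3 2 1 302 (.leaf 8) (.bis 0 5 2 1 293 (.leaf 8) (.leaf 28)))))))) (.bis 0 1 1
  2 294 (.bis 1 4 2 1 385 (.bis 2 4 2 1 386 (.leaf 34) (.bis 2 3 4 1 72 (.leaf 5) (.bis 2 5 4 1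
  284 (.leaf 2) (.bis 2 7 4 1 56 (.leaf 2) (.leaf 2))))) (.bis 1 3 4 1 71 (.bis 2 3 4 1 72 (.leaf
  5) (.bis 2 5 4 1 284 (.leaf 2) (.bis 2 7 4 1 56 (.leaf 2) (.leaf 2)))) (.bis 1 5 4 1 282 (.bis
  2 5 4 1 284 (.leaf 2) (.bis 2 7 4 1 56 (.leaf 2) (.bis 0 2 1 4 304 (.leaf 2) (.leaf 2)))) (.bis
  1 7 4 1 55 (.bis 2 7 4 1 56 (.leaf 2) (.bis 0 2 1 4 304 (.leaf 2) (.leaf 2))) (.bis 1 2 1 1 47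
  (.bis 0 2 1 4 304 (.leaf 2) (.leaf 2)) (.leaf 6)))))) (.bis 0 2 1 2 299 (.bis 2 4 2 1 386
  (.leaf 34) (.bis 2 3 4 1 72 (.leaf 22) (.bis 2 5 4 1 284 (.leaf 2) (.leaf 2)))) (.bis 0 6 1 1
  289 (.leaf 34) (.bis 0 7 2 1 292 (.leaf 8) (.bis 0 3 2 1 302 (.leaf 8) (.bis 0 5 2 1 293 (.leaf
  8) (.leaf 28)))))))) (.bis 1 3 1 1 77 (.bis 0 2 1 2 299 (.bis 2 4 2 1 386 (.bis 3 4 2 1 390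
  (.leaf 34) (.bis 3 5 4 1 306 (.leaf 4) (.bis 0 3 1 4 309 (.bis 3 7 4 1 81 (.leaf 4) (.leaf 36))
  (.leaf 4)))) (.bis 2 7 4 1 72 (.bis 3 5 4 1 306 (.leaf 4) (.bis 0 3 1 4 309 (.bis 3 7 4 1 81
  (.leaf 4) (.bis 3 6 2 1 83 (.leaf 4) (.leaf 7))) (.leaf 4))) (.bis 2 3 1 1 84 (.bis 3 5 4 1 306
  (.leaf 2) (.bis 0 3 1 4 309 (.bis 3 6 2 1 83 (.leaf 2) (.leaf 7)) (.leaf 2))) (.leaf 2))))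
  (.bis 0 3 1 2 310 (.bis 3 4 2 1 390 (.leaf 34) (.bis 3 5 4 1 306 (.leaf 4) (.bis 2 3 1 4 309
  (.bis 3 7 4 1 81 (.leaf 4) (.leaf 36)) (.bis 0 6 1 2 311 (.bis 2 7 1 1 312 (.leaf 4) (.leaf 4))
  (.bis 2 7 1 1 312 (.leaf 4) (.leaf 4)))))) (.bis 0 6 1 1 289 (.leaf 34) (.bis 0 7 2 1 302
  (.leaf 34) (.bis 0 1 1 1 391 (.leaf 34) (.bis 0 5 2 1 293 (.leaf 8) (.leaf 28))))))) (.bis 0 1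
  1 2 294 (.bis 1 4 2 1 385 (.bis 2 4 2 1 386 (.bis 3 4 1 1 392 (.bis 0 7 1 1 305 (.leaf 34)
  (.leaf 34)) (.bis 0 7 1 1 305 (.leaf 4) (.leaf 2))) (.bis 2 7 4 1 72 (.leaf 5) (.bis 2 5 4 1
  284 (.leaf 2) (.leaf 2)))) (.bis 1 7 4 1 71 (.bis 2 7 4 1 72 (.leaf 5) (.bis 2 5 4 1 284 (.leaf
  2) (.leaf 2))) (.bis 1 5 4 1 282 (.bis 2 5 4 1 284 (.leaf 2) (.bis 0 2 1 4 304 (.leaf 2) (.leaf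
  2))) (.bis 1 2 1 1 47 (.bis 0 2 1 4 304 (.leaf 2) (.leaf 2)) (.leaf 6))))) (.bis 0 2 1 2 299
  (.bis 2 4 2 1 386 (.bis 3 4 1 1 392 (.bis 1 7 1 1 305 (.leaf 34) (.leaf 34)) (.bis 1 7 1 1 305
  (.leaf 4) (.leaf 2))) (.bis 2 7 4 1 72 (.leaf 22) (.leaf 2))) (.bis 0 6 1 1 289 (.bis 3 4 1 1
  392 (.bis 1 7 1 1 305 (.leaf 34) (.leaf 34)) (.bis 1 7 1 1 305 (.leaf 4) (.leaf 2))) (.bis 0 7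
  2 1 302 (.leaf 34) (.bis 0 3 1 1 391 (.leaf 34) (.bis 0 5 2 1 293 (.leaf 8) (.leaf 28))))))))))
  (.bis 1 5 2 1 313 (.bis 5 7 1 1 314 (.bis 3 7 2 1 69 (.bis 2 7 2 1 53 (.bis 0 7 1 1 287 (.bis 1
  7 1 2 315 (.bis 6 7 1 2 277 (.bis 4 7 1 1 382 (.leaf 73) (.bis 2 4 1 2 393 (.leaf 8) (.leaf
  8))) (.bis 0 6 1 1 300 (.leaf 8) (.leaf 8))) (.bis 0 1 1 1 316 (.leaf 8) (.leaf 8))) (.bis 0 2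
  2 1 292 (.bis 1 7 1 1 316 (.leaf 8) (.leaf 8)) (.bis 0 3 2 1 302 (.leaf 8) (.bis 0 5 2 1 318
  (.leaf 8) (.leaf 28))))) (.bis 2 5 4 1 320 (.bis 0 7 2 1 292 (.leaf 8) (.bis 0 3 2 1 302 (.leaf
  8) (.bis 0 5 2 1 318 (.leaf 8) (.leaf 28)))) (.bis 0 2 1 2 299 (.bis 2 4 2 1 386 (.leaf 8)
  (.bis 2 3 4 1 72 (.leaf 8) (.bis 2 6 4 1 284 (.leaf 2) (.leaf 2)))) (.bis 0 7 2 1 292 (.leaf 8)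
  (.bis 0 3 2 1 302 (.leaf 8) (.leaf 28)))))) (.bis 2 5 4 1 320 (.bis 0 3 1 2 310 (.bis 3 4 2 1
  390 (.leaf 8) (.bis 3 5 4 1 321 (.leaf 8) (.bis 3 6 4 1 306 (.leaf 4) (.bis 3 7 4 1 81 (.leaf
  4) (.leaf 7))))) (.bis 0 7 2 1 302 (.leaf 8) (.bis 0 5 2 1 318 (.leaf 8) (.leaf 28)))) (.bis 0
  2 1 2 299 (.bis 2 4 2 1 386 (.bis 3 4 2 1 390 (.leaf 8) (.bis 3 6 4 1 306 (.leaf 4) (.bis 0 3 1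
  4 309 (.bis 3 7 4 1 81 (.leaf 4) (.bis 2 3 1 4 394 (.leaf 7) (.leaf 4))) (.leaf 4)))) (.bis 2 7
  4 1 72 (.bis 3 6 4 1 306 (.leaf 4) (.bis 0 3 1 4 309 (.bis 3 7 4 1 81 (.leaf 4) (.bis 3 4 4 1
  394 (.leaf 4) (.leaf 7))) (.leaf 4))) (.bis 2 3 1 1 84 (.bis 3 6 4 1 306 (.leaf 2) (.bis 0 3 1
  4 309 (.bis 3 4 4 1 394 (.leaf 2) (.leaf 7)) (.leaf 2))) (.leaf 2)))) (.bis 0 3 1 2 310 (.bis 3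
  4 2 1 390 (.leaf 8) (.bis 3 6 4 1 306 (.leaf 4) (.bis 2 3 1 4 309 (.bis 3 7 4 1 81 (.leaf 4)
  (.leaf 7)) (.leaf 4)))) (.bis 0 7 2 1 302 (.leaf 8) (.leaf 28)))))) (.bis 2 5 2 1 323 (.bis 0 5
  1 1 332 (.bis 4 5 1 1 395 (.bis 3 5 2 1 327 (.bis 5 6 2 1 328 (.leaf 13) (.bis 5 7 2 1 331
  (.leaf 13) (.leaf 43))) (.bis 3 7 4 1 321 (.leaf 13) (.bis 0 3 1 4 333 (.bis 3 4 4 1 396 (.leaf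
  13) (.bis 3 6 4 1 306 (.leaf 13) (.leaf 7))) (.leaf 13)))) (.bis 3 4 2 1 390 (.leaf 17) (.bis 3
  7 4 1 321 (.leaf 13) (.bis 0 3 1 4 333 (.bis 3 5 4 1 396 (.leaf 13) (.bis 3 6 4 1 306 (.leaf
  13) (.leaf 7))) (.leaf 13))))) (.bis 0 3 1 2 310 (.bis 3 4 2 1 390 (.leaf 17) (.bis 3 7 4 1 321
  (.leaf 13) (.bis 3 5 4 1 333 (.leaf 13) (.bis 3 6 4 1 306 (.leaf 13) (.leaf 7))))) (.bis 0 7 2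
  1 318 (.leaf 17) (.leaf 28)))) (.bis 2 7 4 1 320 (.bis 0 3 1 2 310 (.bis 3 4 2 1 390 (.leaf 17)
  (.bis 3 7 4 1 321 (.leaf 13) (.bis 3 6 4 1 306 (.leaf 4) (.bis 2 3 1 8 322 (.leaf 7) (.leaf
  4))))) (.bis 0 7 2 1 318 (.leaf 17) (.bis 0 6 2 1 293 (.leaf 17) (.leaf 28)))) (.bis 0 2 1 2
  299 (.bis 2 4 2 1 386 (.bis 3 4 2 1 390 (.leaf 17) (.bis 3 6 4 1 306 (.leaf 4) (.bis 0 3 1 4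
  309 (.bis 2 3 1 4 394 (.leaf 7) (.leaf 4)) (.leaf 4)))) (.bis 2 3 1 1 84 (.bis 3 6 4 1 306
  (.leaf 4) (.bis 0 3 1 4 309 (.bis 3 4 4 1 394 (.leaf 4) (.leaf 7)) (.leaf 4))) (.bis 2 6 4 1
  284 (.leaf 4) (.leaf 45)))) (.bis 0 3 1 2 310 (.bis 3 4 2 1 390 (.leaf 17) (.bis 3 6 4 1 306
  (.leaf 4) (.bis 2 3 1 4 309 (.leaf 7) (.leaf 4)))) (.bis 0 6 2 1 293 (.leaf 17) (.leaf
  28))))))) (.bis 3 7 2 1 69 (.bis 2 7 2 1 53 (.bis 1 7 2 1 35 (.bis 0 7 1 1 287 (.bis 5 7 1 2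
  315 (.bis 6 7 1 2 277 (.bis 4 7 1 1 382 (.leaf 19) (.bis 1 4 1 2 384 (.leaf 8) (.leaf 8)))
  (.bis 1 4 1 2 384 (.leaf 8) (.bis 1 6 1 1 288 (.bis 0 6 1 1 300 (.leaf 5) (.leaf 8)) (.leaf
  8)))) (.bis 1 5 1 1 334 (.bis 0 5 1 1 316 (.leaf 8) (.leaf 8)) (.leaf 8))) (.bis 0 1 2 1 291
  (.bis 1 5 1 1 334 (.leaf 8) (.leaf 8)) (.bis 0 2 2 1 292 (.bis 5 7 1 1 316 (.leaf 8) (.leaf 8))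
  (.bis 0 3 2 1 302 (.leaf 8) (.leaf 28))))) (.bis 0 1 1 2 294 (.bis 1 4 2 1 385 (.leaf 8) (.bis
  1 3 4 1 71 (.leaf 5) (.bis 1 6 4 1 282 (.leaf 5) (.bis 1 2 4 1 55 (.bis 5 7 1 1 334 (.leaf 5)
  (.leaf 2)) (.bis 1 5 4 1 335 (.leaf 5) (.leaf 24)))))) (.bis 0 7 2 1 291 (.leaf 8) (.bis 0 2 2
  1 292 (.leaf 8) (.bis 0 3 2 1 302 (.leaf 8) (.leaf 28)))))) (.bis 0 1 1 2 294 (.bis 1 4 2 1 385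
  (.bis 2 4 2 1 386 (.leaf 8) (.bis 2 3 4 1 72 (.leaf 5) (.bis 2 6 4 1 284 (.leaf 2) (.bis 2 5 4
  1 336 (.leaf 2) (.leaf 2))))) (.bis 1 3 4 1 71 (.bis 2 3 4 1 72 (.leaf 5) (.bis 2 6 4 1 284
  (.leaf 2) (.bis 2 5 4 1 336 (.leaf 2) (.leaf 2)))) (.bis 1 6 4 1 282 (.bis 2 6 4 1 284 (.leaf
  2) (.bis 2 5 4 1 336 (.leaf 2) (.bis 2 7 4 1 56 (.leaf 2) (.leaf 2)))) (.bis 1 7 4 1 55 (.bis 2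
  5 4 1 336 (.leaf 2) (.bis 2 7 4 1 56 (.leaf 2) (.leaf 2))) (.bis 1 5 4 1 335 (.bis 2 5 4 1 336
  (.leaf 2) (.bis 0 2 1 4 304 (.leaf 2) (.leaf 2))) (.bis 1 2 1 1 47 (.bis 0 2 1 4 304 (.leaf 2)
  (.leaf 2)) (.leaf 6))))))) (.bis 0 2 1 2 299 (.bis 2 4 2 1 386 (.leaf 8) (.bis 2 3 4 1 72
  (.leaf 8) (.bis 2 6 4 1 284 (.leaf 2) (.leaf 2)))) (.bis 0 7 2 1 292 (.leaf 8) (.bis 0 3 2 1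
  302 (.leaf 8) (.leaf 28)))))) (.bis 1 3 1 1 77 (.bis 0 2 1 2 299 (.bis 2 4 2 1 386 (.bis 3 4 2
  1 390 (.leaf 34) (.bis 3 6 4 1 306 (.bis 0 7 1 1 312 (.leaf 4) (.leaf 4)) (.bis 0 3 1 4 309
  (.bis 3 7 4 1 81 (.leaf 4) (.leaf 7)) (.bis 0 7 1 1 312 (.leaf 4) (.leaf 4))))) (.bis 2 7 4 1
  72 (.bis 3 6 4 1 306 (.leaf 4) (.bis 0 3 1 4 309 (.bis 3 7 4 1 81 (.leaf 4) (.leaf 7)) (.leaf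
  4))) (.bis 2 3 1 1 84 (.bis 3 6 4 1 306 (.leaf 2) (.bis 0 3 1 4 309 (.leaf 7) (.leaf 2)))
  (.leaf 2)))) (.bis 0 3 1 2 310 (.bis 3 4 2 1 390 (.leaf 34) (.bis 3 6 4 1 306 (.bis 2 7 1 1 312
  (.leaf 4) (.leaf 4)) (.bis 2 3 1 4 309 (.bis 3 7 4 1 81 (.leaf 4) (.leaf 7)) (.bis 2 7 1 1 312
  (.leaf 4) (.leaf 4))))) (.bis 0 7 2 1 302 (.leaf 34) (.bis 0 1 1 1 391 (.leaf 34) (.leaf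
  28))))) (.bis 0 1 1 2 294 (.bis 1 4 2 1 385 (.bis 2 4 2 1 386 (.bis 3 4 1 1 392 (.bis 0 7 1 1
  305 (.leaf 8) (.leaf 8)) (.bis 0 7 1 1 305 (.leaf 4) (.leaf 2))) (.bis 2 7 4 1 72 (.leaf 5)
  (.bis 2 6 4 1 284 (.leaf 2) (.leaf 2)))) (.bis 1 7 4 1 71 (.bis 2 7 4 1 72 (.leaf 5) (.bis 2 6
  4 1 284 (.leaf 2) (.bis 2 5 4 1 336 (.leaf 2) (.leaf 2)))) (.bis 1 6 4 1 282 (.bis 2 6 4 1 284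
  (.leaf 2) (.bis 2 5 4 1 336 (.leaf 2) (.leaf 2))) (.bis 1 5 4 1 335 (.bis 2 5 4 1 336 (.leaf 2)
  (.bis 0 2 1 4 304 (.leaf 2) (.leaf 2))) (.bis 1 2 1 1 47 (.bis 0 2 1 4 304 (.leaf 2) (.leaf 2))
  (.leaf 6)))))) (.bis 0 2 1 2 299 (.bis 2 4 2 1 386 (.bis 3 4 1 1 392 (.bis 1 7 1 1 305 (.leaf
  8) (.leaf 8)) (.bis 1 7 1 1 305 (.leaf 4) (.leaf 2))) (.bis 2 7 4 1 72 (.bis 1 7 1 1 305 (.leaf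
  4) (.leaf 2)) (.bis 2 6 4 1 284 (.leaf 2) (.leaf 2)))) (.bis 0 7 2 1 302 (.leaf 34) (.leaf
  120))))))))

def lc12 : List Vr := [⟨[60,0,0,0,85,0,0,0], 90050, 0⟩, ⟨[0,24,0,0,0,0,0,0], 13824, 0⟩, ⟨[0,0,27,
  0,0,0,0,0], 14580, 0⟩, ⟨[0,0,0,30,0,0,0,0], 14400, 0⟩, ⟨[0,0,0,0,85,0,42,0], 85682, 0⟩, ⟨[0,0,0,
  0,85,85,0,0], 86700, 0⟩, ⟨[0,0,0,0,0,0,42,0], 14112, 0⟩, ⟨[0,0,0,0,85,0,0,121], 96730, 0⟩]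

theorem lk12 : chkTr lowT (leafLow 4 lowB) lt12 lc12 = true := by decide +kernel

def lt13 : Tr ℕ := (.bis 2 4 1 1 398 (.bis 4 7 2 1 399 (.bis 5 7 1 1 314 (.bis 3 7 2 1 69 (.bis 0
  7 1 1 287 (.bis 2 7 1 1 400 (.bis 1 7 1 1 401 (.bis 6 7 1 1 382 (.leaf 121) (.leaf 40)) (.bis 1
  3 2 1 402 (.leaf 40) (.leaf 40))) (.bis 2 3 2 1 403 (.leaf 40) (.bis 0 2 1 2 404 (.leaf 40)
  (.leaf 40)))) (.bis 0 3 2 1 302 (.bis 2 3 2 1 403 (.leaf 40) (.leaf 40)) (.bis 0 4 2 1 405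
  (.leaf 40) (.leaf 52)))) (.bis 3 4 4 1 406 (.bis 0 7 2 1 302 (.leaf 40) (.bis 0 4 2 1 405
  (.leaf 40) (.bis 0 5 2 1 318 (.leaf 17) (.leaf 52)))) (.bis 0 3 1 2 310 (.bis 3 6 2 1 390
  (.leaf 17) (.bis 3 5 4 1 321 (.leaf 17) (.bis 1 3 1 2 407 (.bis 2 3 1 2 408 (.leaf 92) (.leaf
  17)) (.leaf 17)))) (.bis 0 7 2 1 302 (.leaf 17) (.bis 0 5 2 1 318 (.leaf 17) (.leaf 52))))))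
  (.bis 3 4 4 1 406 (.bis 0 5 1 1 332 (.bis 4 5 1 2 409 (.bis 5 6 1 1 395 (.leaf 96) (.bis 1 5 1
  1 410 (.bis 2 5 1 1 411 (.bis 3 5 1 4 412 (.leaf 43) (.leaf 35)) (.leaf 35)) (.leaf 35))) (.bis
  0 4 1 1 413 (.leaf 40) (.leaf 96))) (.bis 0 4 2 1 405 (.leaf 96) (.bis 0 7 2 1 318 (.leaf 17)
  (.leaf 52)))) (.bis 0 5 1 1 332 (.bis 5 6 1 1 395 (.bis 3 6 2 1 390 (.leaf 17) (.bis 3 7 4 1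
  321 (.leaf 17) (.bis 1 3 1 2 407 (.bis 2 3 1 2 408 (.bis 0 3 1 4 333 (.leaf 68) (.leaf 13))
  (.leaf 17)) (.leaf 17)))) (.bis 3 5 2 1 327 (.bis 1 5 1 1 410 (.bis 2 5 1 1 411 (.leaf 122)
  (.leaf 35)) (.leaf 35)) (.bis 3 7 4 1 321 (.leaf 35) (.bis 1 3 1 2 407 (.bis 2 3 1 2 408 (.bis
  0 3 1 4 333 (.leaf 68) (.leaf 13)) (.leaf 35)) (.leaf 35))))) (.bis 0 3 1 2 310 (.bis 3 6 2 1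
  390 (.bis 0 7 1 1 414 (.leaf 17) (.leaf 17)) (.bis 3 7 4 1 321 (.leaf 17) (.bis 1 3 1 2 407
  (.bis 2 3 1 2 408 (.bis 3 5 4 1 333 (.leaf 13) (.leaf 68)) (.leaf 17)) (.leaf 17)))) (.bis 0 7
  2 1 318 (.leaf 17) (.leaf 52)))))) (.bis 3 4 1 1 415 (.bis 0 4 1 2 416 (.bis 4 5 2 1 417 (.bis
  5 7 2 1 409 (.bis 4 6 1 2 418 (.bis 3 6 1 1 419 (.bis 0 6 1 2 420 (.bis 2 7 2 1 421 (.leaf 40)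
  (.leaf 40)) (.bis 2 7 2 1 421 (.bis 0 7 1 1 422 (.leaf 40) (.leaf 20)) (.leaf 20))) (.bis 3 7 2
  1 423 (.bis 2 7 2 1 421 (.bis 0 7 1 1 422 (.leaf 40) (.leaf 20)) (.bis 0 5 2 1 424 (.leaf 20)
  (.leaf 20))) (.bis 0 5 2 1 424 (.leaf 20) (.leaf 20)))) (.bis 4 7 1 1 425 (.bis 3 7 2 1 423
  (.bis 2 7 2 1 421 (.bis 0 7 1 1 422 (.leaf 75) (.leaf 20)) (.bis 0 5 2 1 424 (.leaf 20) (.leaf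
  20))) (.bis 0 5 2 1 424 (.leaf 20) (.leaf 20))) (.bis 1 4 2 1 426 (.bis 2 4 2 1 427 (.bis 0 5 2
  1 424 (.bis 3 5 4 1 428 (.bis 4 6 2 1 429 (.leaf 20) (.leaf 49)) (.bis 3 4 2 1 430 (.leaf 49)
  (.leaf 20))) (.bis 0 4 1 1 431 (.leaf 49) (.leaf 20))) (.bis 0 5 2 1 424 (.leaf 20) (.leaf
  20))) (.leaf 20)))) (.bis 5 6 1 1 395 (.bis 4 6 1 2 418 (.bis 3 6 1 1 419 (.bis 0 6 1 2 420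
  (.leaf 40) (.bis 0 5 1 1 432 (.leaf 20) (.leaf 20))) (.bis 0 5 1 1 432 (.leaf 20) (.leaf 20)))
  (.bis 1 4 2 1 426 (.bis 2 4 2 1 427 (.bis 0 5 1 1 432 (.bis 4 5 1 1 433 (.leaf 20) (.leaf 49))
  (.bis 0 7 2 1 424 (.bis 3 7 4 1 428 (.bis 4 6 2 1 429 (.leaf 20) (.leaf 49)) (.bis 3 4 2 1 430
  (.leaf 49) (.leaf 20))) (.bis 0 4 1 1 431 (.bis 3 4 2 1 430 (.leaf 49) (.leaf 20)) (.leaf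
  20)))) (.bis 0 5 1 1 432 (.leaf 20) (.leaf 20))) (.bis 0 5 1 1 432 (.leaf 20) (.leaf 20))))
  (.bis 0 5 1 2 434 (.bis 1 5 1 1 410 (.bis 2 5 1 1 411 (.leaf 124) (.bis 2 4 2 1 427 (.leaf 49)
  (.leaf 20))) (.bis 1 4 2 1 426 (.bis 2 4 2 1 427 (.leaf 49) (.leaf 20)) (.leaf 20))) (.bis 1 4
  2 1 426 (.bis 2 4 2 1 427 (.bis 0 6 1 1 432 (.leaf 49) (.bis 0 7 2 1 424 (.leaf 49) (.bis 0 4 1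
  1 431 (.leaf 49) (.leaf 20)))) (.bis 0 6 1 1 432 (.leaf 20) (.leaf 20))) (.bis 0 6 1 1 432
  (.leaf 20) (.leaf 20)))))) (.bis 4 6 2 1 435 (.bis 5 6 1 2 418 (.bis 3 6 1 1 419 (.bis 0 6 1 2
  420 (.bis 2 7 2 1 421 (.bis 1 7 2 1 436 (.leaf 123) (.leaf 53)) (.leaf 53)) (.bis 2 7 2 1 421
  (.bis 0 7 1 1 422 (.leaf 75) (.leaf 20)) (.leaf 20))) (.bis 3 7 2 1 423 (.bis 2 7 2 1 421 (.bis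
  0 7 1 1 422 (.leaf 75) (.leaf 20)) (.leaf 20)) (.leaf 20))) (.bis 5 7 1 1 425 (.bis 3 7 2 1 423
  (.bis 2 7 2 1 421 (.bis 0 7 1 1 422 (.leaf 75) (.leaf 20)) (.leaf 20)) (.leaf 20)) (.bis 1 5 2
  1 426 (.bis 2 5 2 1 427 (.bis 0 5 1 1 431 (.bis 4 5 1 1 437 (.leaf 49) (.leaf 20)) (.leaf 20))
  (.leaf 20)) (.leaf 20)))) (.bis 1 4 1 2 438 (.bis 4 7 4 1 439 (.bis 5 7 1 1 425 (.bis 3 7 2 1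
  423 (.leaf 125) (.bis 2 4 4 1 440 (.leaf 78) (.leaf 20))) (.bis 2 5 2 1 427 (.bis 3 4 4 1 441
  (.bis 0 5 1 1 431 (.bis 4 5 1 2 442 (.bis 5 6 1 1 437 (.leaf 20) (.leaf 49)) (.leaf 78)) (.bis
  2 4 1 1 443 (.leaf 78) (.leaf 20))) (.bis 0 5 1 1 431 (.bis 5 6 1 1 437 (.leaf 20) (.leaf 49))
  (.leaf 20))) (.bis 2 4 4 1 440 (.bis 3 4 4 1 441 (.leaf 78) (.leaf 20)) (.leaf 20)))) (.bis 2 4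
  1 2 444 (.bis 3 4 1 2 445 (.bis 0 4 1 4 446 (.bis 4 5 4 1 447 (.bis 5 7 2 1 442 (.bis 4 6 1 2
  448 (.bis 3 6 1 1 449 (.bis 0 6 1 2 450 (.leaf 31) (.leaf 31)) (.leaf 31)) (.bis 4 7 1 1 451
  (.leaf 31) (.bis 1 4 2 1 452 (.bis 2 4 2 1 453 (.leaf 63) (.leaf 31)) (.leaf 31)))) (.bis 5 6 1
  1 437 (.bis 4 6 1 2 448 (.bis 3 6 1 1 449 (.bis 0 6 1 2 450 (.leaf 20) (.leaf 31)) (.bis 0 5 1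
  1 454 (.leaf 31) (.leaf 31))) (.bis 1 4 2 1 452 (.bis 0 5 1 1 454 (.bis 2 4 2 1 453 (.leaf 63)
  (.leaf 31)) (.bis 2 4 2 1 453 (.leaf 63) (.leaf 31))) (.leaf 31))) (.bis 0 5 1 2 455 (.bis 1 5
  1 1 456 (.leaf 127) (.bis 1 4 2 1 452 (.leaf 63) (.leaf 31))) (.bis 1 4 2 1 452 (.bis 0 6 1 1
  454 (.leaf 63) (.leaf 63)) (.leaf 31))))) (.bis 4 6 4 1 457 (.bis 5 6 1 2 448 (.leaf 31) (.bis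
  5 7 1 1 451 (.leaf 31) (.bis 1 5 2 1 452 (.bis 2 5 2 1 453 (.leaf 63) (.leaf 31)) (.leaf 31))))
  (.bis 1 4 1 4 458 (.bis 4 7 8 1 459 (.bis 5 7 1 1 451 (.leaf 128) (.bis 2 5 2 1 453 (.bis 0 5 1
  1 460 (.bis 4 5 1 2 461 (.leaf 63) (.leaf 54)) (.leaf 54)) (.bis 2 4 4 1 462 (.leaf 54) (.leaf
  31)))) (.bis 2 4 1 4 463 (.bis 3 4 1 4 464 (.bis 0 4 1 8 465 (.bis 4 5 8 1 466 (.bis 5 7 2 1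
  461 (.bis 4 6 1 2 467 (.leaf 54) (.leaf 74)) (.leaf 105)) (.bis 4 6 8 1 468 (.bis 5 6 1 2 467
  (.leaf 54) (.leaf 74)) (.bis 4 7 16 1 469 (.leaf 74) (.bis 1 4 1 8 470 (.bis 2 4 1 8 471 (.bis
  3 4 1 8 472 (.bis 0 4 1 16 473 (.bis 4 5 16 1 474 (.leaf 106) (.leaf 106)) (.leaf 74)) (.leaf
  74)) (.leaf 74)) (.leaf 74))))) (.bis 0 5 1 1 460 (.bis 5 7 2 1 461 (.leaf 54) (.leaf 105))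
  (.leaf 54))) (.bis 0 5 1 1 460 (.bis 5 7 2 1 461 (.leaf 54) (.leaf 129)) (.leaf 54))) (.bis 2 5
  2 1 453 (.bis 0 5 1 1 460 (.bis 5 7 2 1 461 (.leaf 54) (.leaf 63)) (.bis 3 7 4 1 475 (.leaf 54)
  (.leaf 54))) (.bis 2 7 4 1 462 (.leaf 54) (.leaf 54))))) (.bis 5 7 1 1 451 (.leaf 31) (.bis 1 5
  2 1 452 (.bis 2 5 2 1 453 (.leaf 63) (.leaf 31)) (.leaf 31)))))) (.bis 0 5 1 1 431 (.bis 5 7 2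
  1 442 (.bis 0 7 1 1 476 (.bis 3 6 1 1 449 (.bis 4 6 1 2 450 (.leaf 31) (.leaf 31)) (.leaf 31))
  (.leaf 31)) (.bis 5 6 1 1 437 (.bis 3 6 1 1 449 (.bis 4 6 1 2 450 (.leaf 20) (.bis 4 5 1 1 454
  (.leaf 20) (.leaf 31))) (.bis 4 5 1 1 454 (.leaf 31) (.leaf 31))) (.bis 4 5 1 2 455 (.leaf 81)
  (.bis 4 6 1 1 454 (.leaf 31) (.leaf 31))))) (.bis 0 7 2 1 477 (.bis 5 7 1 1 476 (.bis 3 6 1 1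
  449 (.bis 4 6 1 2 450 (.leaf 31) (.leaf 31)) (.leaf 31)) (.leaf 31)) (.bis 0 3 1 1 478 (.leaf
  31) (.leaf 126))))) (.bis 3 7 4 1 441 (.bis 0 5 1 1 431 (.bis 5 7 2 1 442 (.leaf 31) (.bis 5 6
  1 1 437 (.leaf 31) (.leaf 81))) (.bis 0 7 2 1 477 (.bis 5 7 1 1 476 (.bis 4 6 1 1 449 (.leaf
  31) (.leaf 31)) (.leaf 31)) (.bis 0 4 1 1 478 (.leaf 31) (.leaf 20)))) (.bis 0 5 1 1 431 (.bis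
  5 6 1 1 437 (.leaf 81) (.bis 1 5 1 1 456 (.leaf 81) (.leaf 81))) (.leaf 130)))) (.bis 2 5 2 1
  427 (.bis 3 7 4 1 441 (.bis 0 5 1 1 431 (.bis 5 7 2 1 442 (.bis 2 7 1 1 443 (.leaf 31) (.leaf
  20)) (.bis 5 6 1 1 437 (.leaf 20) (.leaf 49))) (.bis 2 7 1 1 443 (.leaf 78) (.leaf 20))) (.bis
  0 5 1 1 431 (.bis 5 6 1 1 437 (.leaf 20) (.leaf 49)) (.leaf 20))) (.bis 2 7 4 1 440 (.bis 3 7 4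
  1 441 (.bis 5 7 1 1 443 (.leaf 78) (.leaf 20)) (.leaf 20)) (.leaf 20))))) (.bis 5 7 1 1 425
  (.bis 3 7 2 1 423 (.bis 2 7 2 1 421 (.leaf 75) (.leaf 20)) (.leaf 20)) (.bis 1 5 2 1 426 (.bis
  2 5 2 1 427 (.bis 0 5 1 1 431 (.bis 5 6 1 1 437 (.leaf 20) (.leaf 49)) (.leaf 20)) (.leaf 20))
  (.leaf 20)))))) (.bis 0 5 1 1 332 (.bis 5 7 2 1 409 (.bis 0 7 1 1 413 (.bis 3 6 1 1 419 (.bis 4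
  6 1 2 420 (.bis 2 7 2 1 421 (.leaf 40) (.leaf 40)) (.bis 2 7 2 1 421 (.bis 4 7 1 1 422 (.leaf
  40) (.leaf 20)) (.leaf 20))) (.bis 3 7 2 1 423 (.bis 2 7 2 1 421 (.bis 4 7 1 1 422 (.leaf 40)
  (.leaf 20)) (.bis 4 5 2 1 424 (.leaf 20) (.leaf 20))) (.leaf 20))) (.leaf 53)) (.bis 5 6 1 1
  395 (.bis 3 6 1 1 419 (.bis 4 6 1 2 420 (.leaf 53) (.leaf 20)) (.bis 4 5 1 1 432 (.leaf 20)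
  (.leaf 20))) (.bis 4 5 1 2 434 (.bis 1 5 1 1 410 (.bis 2 5 1 1 411 (.bis 3 5 1 1 479 (.leaf 43)
  (.leaf 35)) (.leaf 20)) (.leaf 20)) (.bis 4 6 1 1 432 (.leaf 20) (.leaf 20))))) (.bis 0 7 2 1
  405 (.bis 5 7 1 1 413 (.bis 3 6 1 1 419 (.bis 4 6 1 2 420 (.bis 2 7 2 1 421 (.leaf 40) (.leaf
  17)) (.bis 2 7 2 1 421 (.leaf 75) (.leaf 53))) (.bis 3 7 2 1 423 (.leaf 75) (.leaf 53))) (.bis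
  3 6 1 1 419 (.leaf 53) (.leaf 53))) (.bis 0 3 1 1 480 (.leaf 53) (.leaf 131))))) (.bis 3 7 4 1
  406 (.bis 0 5 1 1 332 (.bis 5 7 2 1 409 (.bis 0 7 1 1 413 (.bis 4 6 1 1 419 (.leaf 40) (.bis 4
  7 2 1 423 (.leaf 40) (.leaf 35))) (.leaf 53)) (.bis 5 6 1 1 395 (.leaf 53) (.bis 1 5 1 1 410
  (.bis 2 5 1 1 411 (.bis 3 5 1 4 412 (.bis 4 5 1 1 479 (.leaf 43) (.leaf 35)) (.leaf 35)) (.leaf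
  35)) (.leaf 35)))) (.bis 0 7 2 1 405 (.bis 5 7 1 1 413 (.bis 4 6 1 1 419 (.leaf 40) (.bis 4 7 2
  1 423 (.leaf 40) (.leaf 35))) (.leaf 53)) (.bis 0 4 1 1 480 (.leaf 53) (.leaf 52)))) (.bis 0 5
  1 1 332 (.bis 5 6 1 1 395 (.bis 3 6 2 1 390 (.leaf 53) (.bis 1 3 1 2 407 (.bis 2 3 1 2 408
  (.bis 0 3 1 4 333 (.bis 3 5 4 1 396 (.leaf 35) (.leaf 68)) (.leaf 35)) (.leaf 35)) (.leaf 35)))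
  (.bis 3 5 2 1 327 (.bis 1 5 1 1 410 (.bis 2 5 1 1 411 (.leaf 132) (.leaf 35)) (.leaf 35)) (.bis
  1 3 1 2 407 (.bis 2 3 1 2 408 (.bis 0 3 1 4 333 (.bis 3 6 4 1 396 (.leaf 35) (.leaf 68)) (.leaf
  35)) (.leaf 35)) (.leaf 35)))) (.bis 0 3 1 2 310 (.bis 3 6 2 1 390 (.leaf 107) (.bis 1 3 1 2
  407 (.bis 2 3 1 2 408 (.bis 3 5 4 1 333 (.leaf 35) (.leaf 68)) (.leaf 35)) (.leaf 35))) (.leaf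
  107)))))) (.bis 5 7 1 1 314 (.bis 3 7 2 1 69 (.bis 2 7 2 1 53 (.bis 0 7 1 1 287 (.bis 4 7 1 1
  400 (.bis 1 7 1 1 401 (.bis 6 7 1 1 382 (.leaf 73) (.leaf 8)) (.bis 1 2 2 1 481 (.leaf 8)
  (.leaf 8))) (.bis 2 4 1 2 482 (.bis 3 4 1 2 403 (.leaf 17) (.leaf 8)) (.bis 1 2 2 1 481 (.leaf
  8) (.leaf 8)))) (.bis 0 2 2 1 292 (.bis 2 4 1 2 482 (.leaf 17) (.leaf 8)) (.bis 0 3 2 1 302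
  (.bis 3 4 1 2 403 (.leaf 17) (.leaf 8)) (.leaf 52)))) (.bis 2 5 4 1 320 (.bis 0 7 2 1 292 (.bis
  4 7 2 1 482 (.leaf 8) (.leaf 17)) (.bis 0 3 2 1 302 (.leaf 17) (.leaf 52))) (.bis 0 2 1 2 299
  (.bis 2 6 2 1 386 (.leaf 97) (.bis 1 2 1 2 483 (.bis 2 3 4 1 72 (.bis 4 7 2 1 482 (.leaf 8)
  (.leaf 17)) (.bis 2 4 2 1 484 (.bis 4 7 2 1 482 (.leaf 34) (.leaf 17)) (.leaf 2))) (.leaf 97)))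
  (.bis 0 7 2 1 292 (.leaf 97) (.bis 0 3 2 1 302 (.leaf 17) (.leaf 52)))))) (.bis 2 5 4 1 320
  (.bis 0 3 1 2 310 (.bis 3 6 2 1 390 (.leaf 17) (.bis 3 5 4 1 321 (.leaf 17) (.bis 1 3 1 2 407
  (.bis 3 4 2 1 408 (.leaf 17) (.leaf 92)) (.leaf 17)))) (.bis 0 7 2 1 302 (.leaf 17) (.bis 0 5 2
  1 318 (.leaf 17) (.leaf 52)))) (.bis 0 2 1 2 299 (.bis 2 6 2 1 386 (.bis 3 6 2 1 390 (.bis 4 7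
  2 1 403 (.leaf 8) (.leaf 17)) (.bis 1 3 1 2 407 (.bis 3 4 2 1 408 (.bis 4 7 2 1 403 (.leaf 17)
  (.leaf 17)) (.bis 0 3 1 4 309 (.bis 3 7 4 1 81 (.leaf 17) (.leaf 7)) (.leaf 17))) (.bis 4 7 2 1
  403 (.leaf 8) (.leaf 17)))) (.bis 1 2 1 2 483 (.bis 2 7 4 1 72 (.bis 3 4 2 1 408 (.leaf 17)
  (.bis 0 3 1 4 309 (.bis 3 7 4 1 81 (.leaf 17) (.bis 3 6 4 1 394 (.leaf 7) (.leaf 7))) (.leaf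
  17))) (.bis 2 4 2 1 484 (.bis 3 4 2 1 408 (.leaf 17) (.bis 0 3 1 4 309 (.bis 3 6 4 1 394 (.leaf
  7) (.bis 1 3 1 4 485 (.leaf 7) (.leaf 7))) (.leaf 7))) (.bis 2 3 1 1 84 (.bis 0 3 1 4 309 (.bis
  3 6 4 1 394 (.leaf 2) (.bis 1 3 1 4 485 (.leaf 7) (.leaf 2))) (.leaf 2)) (.leaf 2)))) (.bis 1 3
  1 2 407 (.bis 3 4 2 1 408 (.bis 4 7 2 1 403 (.leaf 17) (.leaf 17)) (.bis 0 3 1 4 309 (.bis 3 7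
  4 1 81 (.leaf 17) (.bis 3 6 4 1 394 (.leaf 7) (.leaf 7))) (.bis 0 7 1 1 312 (.leaf 17) (.leaf
  7)))) (.bis 4 7 2 1 403 (.leaf 8) (.leaf 17))))) (.bis 0 3 1 2 310 (.bis 3 6 2 1 390 (.bis 4 7
  2 1 403 (.leaf 8) (.leaf 17)) (.bis 1 3 1 2 407 (.bis 3 4 2 1 408 (.bis 4 7 2 1 403 (.leaf 17)
  (.leaf 17)) (.bis 2 3 1 4 309 (.bis 3 7 4 1 81 (.leaf 17) (.leaf 7)) (.bis 2 7 1 1 312 (.leaf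
  17) (.leaf 7)))) (.bis 4 7 2 1 403 (.leaf 8) (.leaf 17)))) (.bis 0 7 2 1 302 (.leaf 17) (.leaf
  52)))))) (.bis 2 5 2 1 323 (.bis 0 5 1 1 332 (.bis 5 6 1 1 395 (.bis 3 6 2 1 390 (.leaf 17)
  (.bis 3 7 4 1 321 (.leaf 17) (.bis 1 3 1 2 407 (.bis 3 4 2 1 408 (.leaf 17) (.bis 0 3 1 4 333
  (.leaf 68) (.leaf 13))) (.leaf 17)))) (.bis 3 5 2 1 327 (.bis 1 5 1 1 410 (.bis 4 5 1 1 411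
  (.bis 5 7 2 1 331 (.leaf 13) (.leaf 43)) (.bis 4 7 2 1 486 (.leaf 13) (.leaf 35))) (.bis 1 3 2
  1 487 (.bis 4 7 2 1 486 (.leaf 13) (.leaf 35)) (.bis 4 7 2 1 486 (.leaf 17) (.leaf 17)))) (.bis
  3 7 4 1 321 (.leaf 35) (.bis 1 3 1 2 407 (.bis 3 4 2 1 408 (.leaf 35) (.bis 0 3 1 4 333 (.leaf
  68) (.leaf 13))) (.leaf 35))))) (.bis 0 3 1 2 310 (.bis 3 6 2 1 390 (.bis 2 6 1 2 488 (.bis 0 7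
  1 1 414 (.leaf 17) (.leaf 17)) (.bis 0 7 1 1 414 (.leaf 17) (.leaf 17))) (.bis 3 7 4 1 321
  (.leaf 17) (.bis 1 3 1 2 407 (.bis 3 4 2 1 408 (.leaf 17) (.leaf 64)) (.leaf 17)))) (.bis 0 7 2
  1 318 (.leaf 17) (.leaf 95)))) (.bis 2 7 4 1 320 (.bis 0 3 1 2 310 (.bis 3 6 2 1 390 (.leaf 17)
  (.bis 3 7 4 1 321 (.leaf 17) (.bis 1 3 1 2 407 (.bis 3 4 2 1 408 (.leaf 17) (.leaf 7)) (.leaf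
  17)))) (.bis 0 7 2 1 318 (.leaf 17) (.leaf 95))) (.bis 0 2 1 2 299 (.bis 2 6 2 1 386 (.bis 3 6
  2 1 390 (.leaf 17) (.bis 1 3 1 2 407 (.bis 3 4 2 1 408 (.leaf 17) (.bis 0 3 1 4 309 (.leaf 7)
  (.leaf 7))) (.leaf 17))) (.bis 1 2 1 2 483 (.bis 2 4 2 1 484 (.bis 3 4 2 1 408 (.leaf 17) (.bis
  0 3 1 4 309 (.bis 3 6 4 1 394 (.leaf 7) (.bis 1 3 1 4 485 (.leaf 7) (.leaf 7))) (.leaf 7)))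
  (.bis 2 3 1 1 84 (.bis 0 3 1 4 309 (.bis 3 6 4 1 394 (.leaf 7) (.bis 1 3 1 4 485 (.leaf 7)
  (.leaf 7))) (.leaf 7)) (.leaf 45))) (.bis 1 3 1 2 407 (.bis 3 4 2 1 408 (.leaf 17) (.bis 0 3 1
  4 309 (.bis 3 6 4 1 394 (.leaf 7) (.leaf 7)) (.leaf 7))) (.leaf 17)))) (.bis 0 3 1 2 310 (.bis
  3 6 2 1 390 (.leaf 17) (.bis 1 3 1 2 407 (.bis 3 4 2 1 408 (.leaf 17) (.bis 2 3 1 4 309 (.leaf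
  7) (.leaf 7))) (.leaf 17))) (.leaf 95)))))))

def lc13 : List Vr := [⟨[60,0,0,0,85,0,0,0], 90050, 0⟩, ⟨[0,24,0,0,85,0,0,0], 77234, 0⟩, ⟨[0,0,27,
  0,0,0,0,0], 14580, 0⟩, ⟨[0,0,0,30,0,0,0,0], 14400, 0⟩, ⟨[0,0,0,0,85,0,0,0], 14450, 0⟩, ⟨[0,0,0,
  0,85,85,0,0], 86700, 0⟩, ⟨[0,0,0,0,85,0,42,0], 85682, 0⟩, ⟨[0,0,0,0,85,0,0,121], 96730, 0⟩]

theorem lk13 : chkTr lowT (leafLow 4 lowB) lt13 lc13 = true := by decide +kernel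

def lt14 : Tr ℕ := (.bis 1 5 2 1 313 (.bis 5 7 1 1 314 (.bis 3 7 2 1 69 (.bis 2 7 2 1 53 (.bis 0
  7 1 1 287 (.bis 1 7 1 2 315 (.bis 4 7 1 1 401 (.bis 6 7 1 1 382 (.leaf 73) (.bis 2 6 1 2 393
  (.leaf 8) (.leaf 8))) (.bis 2 4 1 2 481 (.bis 3 4 1 2 402 (.leaf 8) (.leaf 8)) (.leaf 8)))
  (.bis 2 4 1 2 481 (.bis 0 1 1 1 316 (.leaf 8) (.leaf 8)) (.bis 0 1 1 1 316 (.bis 1 2 1 1 317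
  (.leaf 8) (.leaf 8)) (.leaf 8)))) (.bis 0 2 2 1 292 (.bis 2 4 1 2 481 (.bis 1 7 1 1 316 (.leaf
  8) (.leaf 8)) (.bis 1 7 1 1 316 (.leaf 8) (.bis 1 2 1 1 317 (.leaf 8) (.leaf 8)))) (.bis 0 3 2
  1 302 (.bis 1 7 1 1 316 (.leaf 8) (.leaf 8)) (.bis 0 5 2 1 318 (.leaf 8) (.bis 1 7 1 1 316
  (.leaf 28) (.leaf 28)))))) (.bis 2 5 4 1 320 (.bis 0 7 2 1 292 (.leaf 8) (.bis 0 3 2 1 302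
  (.leaf 8) (.leaf 52))) (.bis 0 2 1 2 299 (.bis 2 6 2 1 386 (.leaf 8) (.bis 2 4 2 1 483 (.leaf
  8) (.bis 2 3 4 1 72 (.leaf 8) (.leaf 2)))) (.bis 0 7 2 1 292 (.leaf 8) (.bis 0 3 2 1 302 (.leaf
  8) (.leaf 28)))))) (.bis 2 5 4 1 320 (.bis 0 3 1 2 310 (.bis 3 6 2 1 390 (.leaf 8) (.bis 3 5 4
  1 321 (.leaf 8) (.bis 3 4 2 1 407 (.leaf 8) (.bis 3 7 4 1 81 (.leaf 4) (.leaf 7))))) (.bis 0 7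
  2 1 302 (.leaf 8) (.leaf 52))) (.bis 0 2 1 2 299 (.bis 2 6 2 1 386 (.bis 3 6 2 1 390 (.leaf 8)
  (.bis 3 4 2 1 407 (.leaf 8) (.bis 0 3 1 4 309 (.bis 3 7 4 1 81 (.leaf 4) (.bis 2 3 1 4 394
  (.leaf 7) (.leaf 4))) (.leaf 4)))) (.bis 2 4 2 1 483 (.bis 3 4 2 1 407 (.bis 4 7 2 1 402 (.leaf
  4) (.leaf 8)) (.bis 0 3 1 4 309 (.bis 3 7 4 1 81 (.leaf 4) (.bis 3 6 4 1 394 (.leaf 4) (.leaf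
  7))) (.bis 0 7 1 1 312 (.leaf 4) (.leaf 4)))) (.bis 2 7 4 1 72 (.bis 0 3 1 4 309 (.bis 3 7 4 1
  81 (.leaf 4) (.bis 3 6 4 1 394 (.leaf 4) (.bis 3 4 4 1 485 (.leaf 4) (.leaf 7)))) (.leaf 4))
  (.bis 2 3 1 1 84 (.bis 0 3 1 4 309 (.bis 3 6 4 1 394 (.leaf 2) (.bis 3 4 4 1 485 (.leaf 2)
  (.leaf 7))) (.leaf 2)) (.leaf 2))))) (.bis 0 3 1 2 310 (.bis 3 6 2 1 390 (.leaf 8) (.bis 3 4 2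
  1 407 (.bis 4 7 2 1 402 (.leaf 4) (.leaf 8)) (.bis 2 3 1 4 309 (.bis 3 7 4 1 81 (.leaf 4)
  (.leaf 7)) (.leaf 4)))) (.bis 0 7 2 1 302 (.leaf 8) (.leaf 28)))))) (.bis 2 5 2 1 323 (.bis 0 5
  1 1 332 (.bis 5 6 1 1 395 (.bis 3 6 2 1 390 (.leaf 17) (.bis 3 7 4 1 321 (.leaf 17) (.bis 3 4 2
  1 407 (.leaf 17) (.bis 0 3 1 4 333 (.bis 3 5 4 1 396 (.leaf 13) (.leaf 7)) (.leaf 13))))) (.bis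
  3 5 2 1 327 (.bis 4 5 1 1 410 (.bis 5 7 2 1 331 (.leaf 13) (.leaf 43)) (.leaf 35)) (.bis 3 7 4
  1 321 (.leaf 35) (.bis 3 4 2 1 407 (.leaf 35) (.bis 0 3 1 4 333 (.bis 3 6 4 1 396 (.leaf 13)
  (.leaf 7)) (.leaf 13)))))) (.bis 0 3 1 2 310 (.bis 3 6 2 1 390 (.bis 2 6 1 2 488 (.leaf 17)
  (.bis 0 7 1 1 414 (.leaf 17) (.leaf 17))) (.bis 3 7 4 1 321 (.leaf 17) (.bis 3 4 2 1 407 (.leaf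
  17) (.bis 3 5 4 1 333 (.leaf 13) (.leaf 7))))) (.bis 0 7 2 1 318 (.leaf 17) (.leaf 28)))) (.bis
  2 7 4 1 320 (.bis 0 3 1 2 310 (.bis 3 6 2 1 390 (.leaf 17) (.bis 3 7 4 1 321 (.leaf 17) (.bis 3
  4 2 1 407 (.leaf 17) (.bis 2 3 1 8 322 (.leaf 7) (.leaf 4))))) (.bis 0 7 2 1 318 (.leaf 17)
  (.leaf 28))) (.bis 0 2 1 2 299 (.bis 2 6 2 1 386 (.bis 3 6 2 1 390 (.leaf 17) (.bis 3 4 2 1 407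
  (.leaf 17) (.bis 0 3 1 4 309 (.bis 2 3 1 4 394 (.leaf 7) (.leaf 4)) (.leaf 4)))) (.bis 2 4 2 1
  483 (.bis 3 4 2 1 407 (.leaf 17) (.bis 0 3 1 4 309 (.bis 3 6 4 1 394 (.leaf 4) (.bis 2 3 1 4
  485 (.leaf 7) (.leaf 4))) (.leaf 4))) (.bis 2 3 1 1 84 (.bis 0 3 1 4 309 (.bis 3 6 4 1 394
  (.leaf 4) (.leaf 7)) (.leaf 4)) (.leaf 45)))) (.bis 0 3 1 2 310 (.bis 3 6 2 1 390 (.leaf 17)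
  (.bis 3 4 2 1 407 (.leaf 17) (.bis 2 3 1 4 309 (.leaf 7) (.leaf 4)))) (.leaf 28)))))) (.bis 3 7
  2 1 69 (.bis 2 7 2 1 53 (.bis 1 7 2 1 35 (.bis 0 7 1 1 287 (.bis 5 7 1 2 315 (.bis 4 7 1 1 401
  (.bis 6 7 1 1 382 (.leaf 19) (.bis 1 6 1 2 384 (.leaf 8) (.leaf 8))) (.bis 1 4 1 2 489 (.bis 2
  4 1 2 481 (.leaf 8) (.leaf 8)) (.bis 1 6 1 2 384 (.leaf 8) (.leaf 8)))) (.bis 1 4 1 2 489 (.bis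
  2 4 1 2 481 (.bis 0 5 1 1 316 (.leaf 8) (.leaf 8)) (.bis 0 5 1 1 316 (.bis 2 5 1 1 317 (.leaf
  8) (.leaf 8)) (.leaf 8))) (.bis 1 5 1 1 334 (.bis 0 5 1 1 316 (.leaf 8) (.leaf 8)) (.bis 1 6 1
  2 384 (.leaf 8) (.leaf 8))))) (.bis 0 1 2 1 291 (.bis 1 4 1 2 489 (.bis 2 4 1 2 481 (.bis 5 7 1
  1 316 (.leaf 8) (.leaf 8)) (.bis 5 7 1 1 316 (.leaf 8) (.bis 2 5 1 1 317 (.leaf 8) (.leaf 8))))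
  (.bis 1 5 1 1 334 (.bis 5 7 1 1 316 (.leaf 8) (.leaf 8)) (.leaf 8))) (.bis 0 2 2 1 292 (.bis 2
  4 1 2 481 (.bis 5 7 1 1 316 (.leaf 8) (.leaf 8)) (.bis 5 7 1 1 316 (.leaf 8) (.bis 2 5 1 1 317
  (.leaf 8) (.leaf 8)))) (.bis 0 3 2 1 302 (.bis 5 7 1 1 316 (.leaf 8) (.leaf 8)) (.bis 5 7 1 1
  316 (.leaf 28) (.leaf 28)))))) (.bis 0 1 1 2 294 (.bis 1 6 2 1 385 (.leaf 8) (.bis 1 3 4 1 71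
  (.bis 4 7 2 1 489 (.bis 5 7 1 1 334 (.leaf 5) (.leaf 5)) (.leaf 8)) (.bis 1 4 2 1 490 (.leaf 8)
  (.bis 1 2 4 1 55 (.bis 5 7 1 1 334 (.leaf 5) (.leaf 2)) (.bis 1 5 4 1 335 (.leaf 5) (.leaf
  24)))))) (.bis 0 7 2 1 291 (.leaf 8) (.leaf 133)))) (.bis 0 1 1 2 294 (.bis 1 6 2 1 385 (.bis 2
  6 2 1 386 (.leaf 8) (.bis 2 4 2 1 483 (.leaf 8) (.bis 2 3 4 1 72 (.leaf 8) (.bis 2 5 4 1 336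
  (.leaf 2) (.leaf 2))))) (.bis 1 3 4 1 71 (.bis 2 4 2 1 483 (.leaf 8) (.bis 2 3 4 1 72 (.leaf 8)
  (.bis 2 5 4 1 336 (.leaf 2) (.leaf 2)))) (.bis 1 4 2 1 490 (.bis 2 4 2 1 483 (.leaf 8) (.bis 2
  5 4 1 336 (.leaf 2) (.bis 2 7 4 1 56 (.leaf 2) (.leaf 2)))) (.bis 1 7 4 1 55 (.bis 2 5 4 1 336
  (.leaf 2) (.bis 2 7 4 1 56 (.leaf 2) (.leaf 2))) (.bis 1 5 4 1 335 (.bis 2 5 4 1 336 (.leaf 2)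
  (.bis 0 2 1 4 304 (.leaf 2) (.leaf 2))) (.bis 1 2 1 1 47 (.bis 0 2 1 4 304 (.leaf 2) (.leaf 2))
  (.leaf 6))))))) (.bis 0 2 1 2 299 (.bis 2 6 2 1 386 (.leaf 8) (.bis 2 4 2 1 483 (.bis 1 3 1 1
  305 (.leaf 8) (.bis 4 7 2 1 481 (.leaf 2) (.leaf 8))) (.bis 2 3 4 1 72 (.leaf 8) (.leaf 2))))
  (.bis 0 7 2 1 292 (.leaf 8) (.bis 0 3 2 1 302 (.bis 1 3 1 1 305 (.leaf 8) (.leaf 8)) (.leaf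
  28)))))) (.bis 1 3 1 1 77 (.bis 0 2 1 2 299 (.bis 2 6 2 1 386 (.bis 3 6 2 1 390 (.bis 1 6 1 1
  392 (.bis 4 7 2 1 402 (.leaf 8) (.leaf 8)) (.bis 1 4 1 1 491 (.bis 4 7 2 1 402 (.leaf 4) (.leaf
  8)) (.bis 0 7 1 1 312 (.leaf 4) (.leaf 4)))) (.bis 3 4 2 1 407 (.bis 1 4 1 1 491 (.bis 4 7 2 1
  402 (.leaf 4) (.leaf 8)) (.bis 0 7 1 1 312 (.leaf 4) (.leaf 4))) (.bis 0 3 1 4 309 (.bis 3 7 4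
  1 81 (.leaf 4) (.leaf 7)) (.bis 0 7 1 1 312 (.leaf 4) (.leaf 4))))) (.bis 2 4 2 1 483 (.bis 3 4
  2 1 407 (.bis 1 4 1 1 491 (.bis 4 7 2 1 402 (.bis 0 7 1 1 312 (.leaf 4) (.leaf 4)) (.leaf 8))
  (.bis 0 7 1 1 312 (.leaf 4) (.leaf 4))) (.bis 0 3 1 4 309 (.bis 3 7 4 1 81 (.leaf 4) (.bis 3 6
  4 1 394 (.leaf 4) (.leaf 7))) (.bis 0 7 1 1 312 (.leaf 4) (.leaf 4)))) (.bis 2 7 4 1 72 (.bis 0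
  3 1 4 309 (.bis 3 7 4 1 81 (.leaf 4) (.bis 3 6 4 1 394 (.leaf 4) (.leaf 7))) (.bis 0 7 1 1 312
  (.leaf 4) (.leaf 2))) (.bis 2 3 1 1 84 (.bis 0 3 1 4 309 (.bis 3 6 4 1 394 (.leaf 2) (.leaf 7))
  (.leaf 2)) (.leaf 2))))) (.bis 0 3 1 2 310 (.bis 3 6 2 1 390 (.bis 1 6 1 1 392 (.bis 4 7 2 1
  402 (.leaf 8) (.leaf 8)) (.bis 1 4 1 1 491 (.bis 4 7 2 1 402 (.leaf 4) (.leaf 8)) (.bis 2 7 1 1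
  312 (.leaf 4) (.leaf 4)))) (.bis 3 4 2 1 407 (.bis 1 4 1 1 491 (.bis 4 7 2 1 402 (.leaf 4)
  (.leaf 8)) (.bis 2 7 1 1 312 (.leaf 4) (.leaf 4))) (.bis 2 3 1 4 309 (.bis 3 7 4 1 81 (.leaf 4)
  (.leaf 7)) (.bis 2 7 1 1 312 (.leaf 4) (.leaf 4))))) (.bis 0 7 2 1 302 (.bis 1 6 1 1 392 (.bis
  4 7 2 1 402 (.leaf 8) (.leaf 8)) (.bis 1 4 1 1 491 (.bis 4 7 2 1 402 (.leaf 4) (.leaf 8)) (.bis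
  2 7 1 1 312 (.leaf 4) (.leaf 4)))) (.bis 0 1 1 1 391 (.leaf 56) (.leaf 28))))) (.bis 0 1 1 2
  294 (.bis 1 6 2 1 385 (.bis 2 6 2 1 386 (.bis 3 6 1 1 392 (.bis 0 7 1 1 305 (.leaf 8) (.leaf
  8)) (.bis 0 7 1 1 305 (.leaf 56) (.leaf 56))) (.bis 2 4 2 1 483 (.bis 0 7 1 1 305 (.bis 3 4 1 1
  491 (.bis 4 7 2 1 402 (.leaf 4) (.leaf 8)) (.bis 3 7 2 1 492 (.leaf 4) (.leaf 2))) (.leaf 56))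
  (.bis 2 7 4 1 72 (.bis 0 7 1 1 305 (.leaf 4) (.leaf 2)) (.leaf 2)))) (.bis 1 7 4 1 71 (.bis 2 4
  2 1 483 (.bis 0 7 1 1 305 (.leaf 56) (.leaf 56)) (.bis 2 7 4 1 72 (.leaf 34) (.bis 2 5 4 1 336
  (.leaf 2) (.leaf 2)))) (.bis 1 4 2 1 490 (.bis 2 4 2 1 483 (.leaf 56) (.bis 2 5 4 1 336 (.leaf
  2) (.bis 0 2 1 4 304 (.leaf 2) (.leaf 2)))) (.bis 1 5 4 1 335 (.bis 2 5 4 1 336 (.leaf 2) (.bis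
  0 2 1 4 304 (.leaf 2) (.leaf 2))) (.bis 1 2 1 1 47 (.bis 0 2 1 4 304 (.leaf 2) (.leaf 2))
  (.leaf 6)))))) (.bis 0 2 1 2 299 (.bis 2 6 2 1 386 (.bis 3 6 1 1 392 (.bis 1 7 1 1 305 (.leaf
  8) (.leaf 8)) (.bis 1 7 1 1 305 (.leaf 56) (.leaf 56))) (.bis 2 4 2 1 483 (.bis 1 7 1 1 305
  (.bis 3 4 1 1 491 (.bis 4 7 2 1 402 (.leaf 4) (.leaf 8)) (.bis 0 7 1 1 312 (.leaf 4) (.leaf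
  2))) (.leaf 56)) (.bis 2 7 4 1 72 (.bis 1 7 1 1 305 (.leaf 4) (.leaf 2)) (.leaf 2)))) (.bis 0 7
  2 1 302 (.bis 3 6 1 1 392 (.bis 1 7 1 1 305 (.leaf 8) (.leaf 8)) (.bis 1 7 1 1 305 (.leaf 56)
  (.leaf 56))) (.bis 0 3 1 1 391 (.leaf 56) (.leaf 28))))))))

def lc14 : List Vr := [⟨[60,0,0,0,85,0,0,0], 90050, 0⟩, ⟨[0,24,0,0,0,0,0,0], 13824, 0⟩, ⟨[0,0,27,
  0,0,0,0,0], 14580, 0⟩, ⟨[0,0,0,30,0,0,0,0], 14400, 0⟩, ⟨[0,24,0,0,85,0,0,0], 77234, 0⟩, ⟨[0,0,0,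
  0,85,85,0,0], 86700, 0⟩, ⟨[0,0,0,0,85,0,42,0], 85682, 0⟩, ⟨[0,0,0,0,85,0,0,121], 96730, 0⟩]

theorem lk14 : chkTr lowT (leafLow 4 lowB) lt14 lc14 = true := by decide +kernel

def lt15 : Tr ℕ := (.bis 3 6 1 1 59 (.bis 0 7 1 1 128 (.bis 4 6 1 2 276 (.bis 6 7 2 1 16 (.bis 2
  7 2 1 53 (.bis 5 7 1 1 149 (.bis 1 7 2 1 35 (.bis 3 7 1 1 66 (.bis 4 7 1 2 278 (.leaf 19) (.bis
  4 5 1 1 279 (.leaf 3) (.leaf 3))) (.bis 0 3 1 2 133 (.leaf 3) (.bis 4 5 1 1 279 (.leaf 3)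
  (.leaf 3)))) (.bis 1 5 4 1 151 (.leaf 3) (.bis 1 6 4 1 27 (.leaf 3) (.bis 0 1 1 8 138 (.bis 1 2
  4 1 55 (.leaf 3) (.leaf 9)) (.leaf 3))))) (.bis 5 6 2 1 129 (.bis 1 7 4 1 151 (.leaf 3) (.bis 1
  6 4 1 27 (.leaf 3) (.bis 0 1 1 8 138 (.bis 1 2 4 1 55 (.leaf 3) (.leaf 9)) (.leaf 3)))) (.bis 1
  5 2 1 137 (.bis 2 5 1 2 150 (.bis 4 5 1 2 283 (.leaf 14) (.leaf 3)) (.leaf 3)) (.bis 1 7 4 1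
  151 (.leaf 3) (.bis 0 1 1 8 138 (.bis 1 2 4 1 55 (.leaf 3) (.leaf 9)) (.leaf 3)))))) (.bis 2 6
  4 1 42 (.bis 5 6 2 1 129 (.bis 1 6 4 1 27 (.leaf 3) (.bis 0 1 1 8 138 (.bis 1 7 4 1 55 (.leaf
  3) (.leaf 9)) (.leaf 3))) (.bis 1 5 2 1 137 (.bis 5 7 2 1 150 (.leaf 3) (.bis 4 5 1 2 283 (.bis
  2 5 1 4 139 (.leaf 14) (.leaf 2)) (.leaf 3))) (.bis 0 1 1 8 138 (.bis 1 7 4 1 55 (.leaf 3)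
  (.leaf 9)) (.leaf 3)))) (.bis 1 5 2 1 137 (.bis 2 5 2 1 140 (.bis 5 7 2 1 150 (.leaf 5) (.bis 4
  5 1 2 283 (.leaf 14) (.leaf 5))) (.bis 0 2 1 4 141 (.bis 2 4 4 1 285 (.leaf 5) (.leaf 2))
  (.leaf 5))) (.bis 0 1 1 8 138 (.bis 1 7 4 1 55 (.bis 2 4 4 1 285 (.leaf 3) (.bis 5 7 1 1 153
  (.bis 2 7 4 1 56 (.leaf 2) (.leaf 2)) (.bis 2 5 4 1 142 (.leaf 2) (.leaf 2)))) (.bis 2 4 4 1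
  285 (.leaf 6) (.bis 1 2 1 1 47 (.leaf 2) (.leaf 6)))) (.bis 0 2 1 4 141 (.bis 2 4 4 1 285
  (.leaf 3) (.bis 5 7 1 1 153 (.bis 2 7 4 1 56 (.leaf 2) (.leaf 2)) (.bis 2 5 4 1 142 (.leaf 2)
  (.leaf 2)))) (.leaf 3)))))) (.bis 2 6 1 1 39 (.bis 0 6 1 4 143 (.bis 5 6 1 2 144 (.bis 1 6 1 1
  26 (.leaf 39) (.bis 1 7 4 1 27 (.leaf 3) (.bis 1 5 4 1 147 (.leaf 3) (.leaf 9)))) (.bis 5 7 2 1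
  129 (.bis 1 7 4 1 27 (.leaf 3) (.bis 1 5 8 1 146 (.leaf 3) (.bis 1 6 4 1 147 (.leaf 3) (.leaf
  9)))) (.bis 1 5 2 1 137 (.bis 4 5 1 2 283 (.bis 2 5 1 1 145 (.leaf 14) (.leaf 3)) (.leaf 3))
  (.bis 1 7 8 1 146 (.leaf 3) (.bis 1 6 4 1 147 (.leaf 3) (.leaf 9)))))) (.bis 5 7 2 1 129 (.bis
  1 7 4 1 27 (.leaf 3) (.bis 0 1 1 8 138 (.bis 1 5 8 1 146 (.leaf 3) (.leaf 9)) (.leaf 3))) (.bis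
  1 5 2 1 137 (.bis 4 5 1 2 283 (.bis 2 5 1 1 145 (.leaf 14) (.leaf 3)) (.leaf 3)) (.bis 0 1 1 8
  138 (.leaf 9) (.leaf 3))))) (.bis 2 7 4 1 42 (.bis 5 7 2 1 129 (.bis 1 7 4 1 27 (.leaf 3) (.bis
  0 1 1 8 138 (.leaf 9) (.leaf 3))) (.bis 1 5 2 1 137 (.bis 4 5 1 2 283 (.bis 5 6 1 1 145 (.leaf
  3) (.leaf 14)) (.leaf 3)) (.bis 0 1 1 8 138 (.leaf 9) (.leaf 3)))) (.bis 1 5 2 1 137 (.bis 2 5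
  2 1 140 (.bis 4 5 1 2 283 (.bis 5 6 1 1 145 (.bis 0 6 1 2 148 (.leaf 6) (.leaf 2)) (.leaf 14))
  (.leaf 42)) (.bis 0 2 1 4 141 (.bis 2 4 4 1 285 (.leaf 6) (.leaf 6)) (.leaf 42))) (.bis 0 1 1 8
  138 (.bis 2 4 4 1 285 (.leaf 6) (.bis 1 2 1 1 47 (.leaf 6) (.leaf 6))) (.bis 0 2 1 4 141 (.bis
  2 4 4 1 285 (.leaf 3) (.leaf 6)) (.leaf 3))))))) (.bis 2 7 2 1 53 (.bis 5 7 1 1 149 (.bis 1 7 2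
  1 35 (.bis 4 7 1 1 287 (.bis 3 7 1 1 66 (.bis 6 7 1 2 278 (.leaf 19) (.bis 5 6 1 1 279 (.leaf
  8) (.leaf 8))) (.bis 3 4 2 1 301 (.leaf 8) (.leaf 3))) (.bis 3 4 1 1 289 (.bis 4 5 2 1 290
  (.leaf 8) (.bis 1 4 1 2 291 (.bis 2 4 1 2 292 (.leaf 28) (.leaf 8)) (.leaf 8))) (.bis 3 7 2 1
  301 (.leaf 8) (.leaf 5)))) (.bis 1 4 2 1 294 (.bis 3 4 1 1 289 (.bis 4 5 2 1 290 (.leaf 5)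
  (.bis 4 7 2 1 291 (.leaf 5) (.leaf 57))) (.leaf 5)) (.bis 1 5 4 1 151 (.bis 4 5 1 1 303 (.leaf
  3) (.leaf 5)) (.bis 0 1 1 8 138 (.bis 1 2 4 1 55 (.leaf 5) (.leaf 24)) (.leaf 5))))) (.bis 4 5
  1 1 295 (.bis 1 5 2 1 137 (.bis 2 5 1 2 150 (.bis 5 6 2 1 283 (.leaf 5) (.leaf 14)) (.leaf 5))
  (.bis 1 7 4 1 151 (.leaf 5) (.bis 0 1 1 8 138 (.bis 1 2 4 1 55 (.leaf 5) (.leaf 24)) (.leaf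
  5)))) (.bis 1 4 2 1 294 (.bis 3 4 1 1 289 (.bis 4 7 2 1 290 (.leaf 5) (.bis 2 4 1 2 292 (.leaf
  15) (.leaf 5))) (.leaf 5)) (.bis 1 7 4 1 151 (.leaf 5) (.bis 0 1 1 8 138 (.bis 1 2 4 1 55
  (.leaf 5) (.leaf 24)) (.leaf 5)))))) (.bis 4 5 1 1 295 (.bis 1 5 2 1 137 (.bis 2 5 2 1 140
  (.bis 5 7 2 1 150 (.leaf 5) (.leaf 87)) (.bis 0 2 1 4 141 (.bis 2 6 4 1 285 (.leaf 5) (.bis 2 4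
  4 1 296 (.bis 1 7 1 1 153 (.leaf 2) (.leaf 2)) (.bis 1 7 1 1 153 (.leaf 2) (.leaf 2)))) (.leaf
  5))) (.bis 0 1 1 8 138 (.bis 1 7 4 1 55 (.bis 2 6 4 1 285 (.leaf 5) (.bis 2 4 4 1 296 (.leaf 2)
  (.leaf 2))) (.bis 1 4 4 1 297 (.bis 2 6 4 1 285 (.leaf 5) (.bis 2 4 4 1 296 (.leaf 2) (.leaf
  2))) (.bis 2 6 4 1 285 (.leaf 6) (.bis 1 2 1 1 47 (.leaf 2) (.leaf 6))))) (.bis 0 2 1 4 141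
  (.bis 2 6 4 1 285 (.leaf 5) (.bis 2 4 4 1 296 (.leaf 2) (.leaf 2))) (.leaf 5)))) (.bis 1 4 2 1
  294 (.bis 2 4 2 1 299 (.bis 3 4 1 1 289 (.bis 4 7 2 1 292 (.leaf 8) (.leaf 15)) (.leaf 22))
  (.bis 0 2 1 4 141 (.bis 2 6 4 1 285 (.leaf 22) (.bis 2 5 4 1 296 (.leaf 2) (.leaf 2))) (.leaf
  22))) (.bis 0 1 1 8 138 (.bis 1 7 4 1 55 (.bis 2 6 4 1 285 (.leaf 5) (.bis 2 5 4 1 296 (.leaf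
  2) (.leaf 2))) (.bis 1 5 4 1 297 (.bis 2 6 4 1 285 (.leaf 5) (.bis 2 5 4 1 296 (.leaf 2) (.leaf
  2))) (.bis 2 6 4 1 285 (.leaf 6) (.bis 1 2 1 1 47 (.leaf 2) (.leaf 6))))) (.bis 0 2 1 4 141
  (.bis 2 6 4 1 285 (.leaf 5) (.bis 2 5 4 1 296 (.leaf 2) (.leaf 2))) (.leaf 5))))))) (.bis 0 6 1
  2 154 (.bis 4 6 1 2 276 (.bis 2 6 1 1 39 (.bis 6 7 4 1 143 (.bis 1 5 2 1 137 (.bis 4 5 1 2 283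
  (.bis 2 5 1 1 145 (.leaf 14) (.bis 2 7 2 1 148 (.leaf 3) (.leaf 3))) (.leaf 3)) (.bis 1 7 8 1
  138 (.leaf 3) (.leaf 9))) (.bis 5 6 1 2 144 (.bis 1 6 1 1 26 (.bis 0 6 1 4 493 (.leaf 39)
  (.leaf 3)) (.bis 1 5 4 1 147 (.leaf 3) (.leaf 9))) (.bis 1 5 2 1 137 (.bis 4 5 1 2 283 (.bis 2
  5 1 1 145 (.leaf 14) (.leaf 3)) (.leaf 3)) (.bis 1 6 4 1 147 (.leaf 3) (.leaf 9))))) (.bis 1 5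
  2 1 137 (.bis 2 5 2 1 140 (.bis 4 5 1 2 283 (.bis 5 6 1 1 145 (.bis 6 7 2 1 148 (.leaf 5)
  (.leaf 6)) (.bis 5 7 2 1 132 (.leaf 5) (.leaf 14))) (.bis 6 7 2 1 148 (.leaf 5) (.leaf 6)))
  (.bis 2 7 4 1 141 (.leaf 42) (.bis 0 2 1 4 157 (.leaf 6) (.leaf 6)))) (.bis 1 7 8 1 138 (.bis 2
  7 4 1 141 (.leaf 3) (.bis 0 2 1 4 157 (.bis 2 4 4 1 285 (.leaf 3) (.leaf 6)) (.leaf 3))) (.bis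
  0 2 1 4 157 (.bis 2 4 4 1 285 (.leaf 6) (.leaf 6)) (.leaf 6))))) (.bis 4 5 1 1 295 (.bis 1 5 2
  1 137 (.bis 2 5 2 1 140 (.leaf 87) (.bis 2 7 4 1 141 (.leaf 5) (.bis 0 2 1 4 157 (.bis 2 6 4 1
  285 (.leaf 5) (.leaf 2)) (.leaf 5)))) (.bis 1 7 8 1 138 (.bis 2 7 4 1 141 (.leaf 5) (.bis 0 2 1
  4 157 (.bis 2 6 4 1 285 (.leaf 5) (.bis 2 4 4 1 296 (.leaf 2) (.leaf 2))) (.leaf 5))) (.bis 1 4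
  4 1 297 (.bis 0 2 1 4 157 (.bis 2 6 4 1 285 (.leaf 5) (.bis 2 4 4 1 296 (.leaf 2) (.leaf 2)))
  (.leaf 5)) (.bis 0 2 1 4 157 (.bis 2 6 4 1 285 (.leaf 6) (.bis 1 2 1 1 47 (.leaf 2) (.leaf 6)))
  (.leaf 6))))) (.bis 1 4 2 1 294 (.bis 2 4 2 1 299 (.bis 3 4 1 1 289 (.bis 0 4 1 2 494 (.leaf
  15) (.leaf 11)) (.leaf 11)) (.bis 2 7 4 1 141 (.leaf 11) (.bis 0 2 1 4 157 (.bis 2 6 4 1 285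
  (.leaf 11) (.leaf 2)) (.leaf 11)))) (.bis 1 7 8 1 138 (.bis 2 7 4 1 141 (.leaf 5) (.bis 0 2 1 4
  157 (.bis 2 6 4 1 285 (.leaf 5) (.leaf 2)) (.leaf 5))) (.bis 1 5 4 1 297 (.bis 0 2 1 4 157
  (.bis 2 6 4 1 285 (.leaf 5) (.bis 2 5 4 1 296 (.leaf 2) (.leaf 2))) (.leaf 5)) (.bis 0 2 1 4
  157 (.bis 2 6 4 1 285 (.leaf 6) (.bis 1 2 1 1 47 (.leaf 2) (.leaf 6))) (.leaf 6))))))) (.bis 4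
  5 1 1 295 (.bis 0 1 1 2 163 (.bis 1 5 2 1 137 (.bis 2 5 2 1 140 (.leaf 14) (.bis 2 7 4 1 141
  (.leaf 5) (.bis 2 6 4 1 157 (.leaf 5) (.bis 2 4 4 1 296 (.leaf 2) (.leaf 2))))) (.bis 1 7 8 1
  138 (.bis 2 7 4 1 141 (.leaf 5) (.bis 2 6 4 1 157 (.leaf 5) (.bis 2 4 4 1 296 (.leaf 2) (.leaf
  2)))) (.bis 1 4 4 1 297 (.bis 2 6 4 1 157 (.leaf 5) (.bis 2 4 4 1 296 (.leaf 2) (.bis 0 2 1 4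
  175 (.leaf 2) (.leaf 2)))) (.bis 2 6 4 1 157 (.leaf 6) (.bis 1 2 1 1 47 (.bis 0 2 1 4 175
  (.leaf 2) (.leaf 2)) (.leaf 6)))))) (.bis 0 2 1 2 164 (.bis 2 5 2 1 140 (.leaf 14) (.bis 2 7 4
  1 141 (.leaf 14) (.bis 2 6 4 1 157 (.leaf 14) (.leaf 2)))) (.bis 0 3 1 1 160 (.leaf 14) (.bis 0
  7 2 1 165 (.leaf 14) (.leaf 41))))) (.bis 0 1 1 2 163 (.bis 1 4 2 1 294 (.bis 2 4 2 1 299 (.bis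
  3 4 1 1 289 (.bis 4 6 2 1 494 (.leaf 11) (.leaf 15)) (.leaf 11)) (.bis 2 7 4 1 141 (.leaf 11)
  (.bis 2 6 4 1 157 (.leaf 11) (.bis 2 5 4 1 296 (.leaf 2) (.leaf 2))))) (.bis 1 7 8 1 138 (.bis
  2 7 4 1 141 (.leaf 5) (.bis 2 6 4 1 157 (.leaf 5) (.bis 2 5 4 1 296 (.leaf 2) (.leaf 2))))
  (.bis 1 5 4 1 297 (.bis 2 6 4 1 157 (.leaf 5) (.bis 2 5 4 1 296 (.leaf 2) (.bis 0 2 1 4 175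
  (.leaf 2) (.leaf 2)))) (.bis 2 6 4 1 157 (.leaf 6) (.bis 1 2 1 1 47 (.leaf 2) (.leaf 6))))))
  (.bis 0 2 1 2 164 (.bis 2 4 2 1 299 (.bis 3 4 1 1 289 (.bis 4 6 2 1 494 (.leaf 11) (.bis 1 4 1
  2 495 (.leaf 15) (.leaf 11))) (.leaf 11)) (.bis 2 7 4 1 141 (.leaf 11) (.bis 2 6 4 1 157 (.leaf
  11) (.leaf 2)))) (.bis 0 4 1 1 496 (.bis 3 4 1 1 289 (.bis 4 6 2 1 494 (.leaf 11) (.bis 1 4 1 2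
  495 (.leaf 15) (.leaf 11))) (.leaf 11)) (.bis 0 3 1 1 160 (.bis 3 4 2 1 497 (.leaf 11) (.leaf
  11)) (.leaf 26)))))))) (.bis 0 7 1 1 128 (.bis 3 7 2 1 69 (.bis 2 7 2 1 53 (.bis 5 7 1 1 149
  (.bis 1 7 2 1 35 (.bis 4 7 1 1 287 (.bis 6 7 1 1 66 (.leaf 19) (.bis 4 6 1 2 301 (.bis 0 6 1 2
  133 (.bis 3 6 1 2 167 (.leaf 3) (.leaf 5)) (.leaf 5)) (.leaf 8))) (.bis 4 6 1 1 289 (.bis 6 7 2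
  1 301 (.leaf 8) (.bis 0 6 1 2 133 (.leaf 5) (.leaf 5))) (.bis 4 5 2 1 290 (.leaf 8) (.bis 1 4 1
  2 291 (.bis 2 4 1 2 292 (.leaf 57) (.leaf 8)) (.leaf 8))))) (.bis 1 4 2 1 294 (.bis 4 6 1 1 289
  (.bis 1 5 1 1 303 (.bis 0 6 1 2 133 (.leaf 5) (.leaf 5)) (.leaf 5)) (.bis 4 5 2 1 290 (.bis 1 5
  1 1 303 (.leaf 5) (.leaf 5)) (.bis 4 7 2 1 291 (.leaf 5) (.bis 2 4 1 2 292 (.leaf 57) (.leaf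
  5))))) (.bis 1 3 4 1 71 (.bis 4 5 1 1 303 (.bis 0 6 1 2 133 (.leaf 5) (.leaf 5)) (.bis 3 4 1 1
  305 (.leaf 5) (.bis 0 6 1 2 133 (.leaf 5) (.leaf 5)))) (.bis 1 5 4 1 151 (.bis 4 5 1 1 303
  (.leaf 3) (.leaf 5)) (.bis 0 1 1 8 138 (.bis 1 2 4 1 55 (.leaf 5) (.leaf 24)) (.leaf 5))))))
  (.bis 4 5 1 1 295 (.bis 1 5 2 1 137 (.bis 2 5 1 2 150 (.bis 3 5 1 2 166 (.leaf 14) (.leaf 4))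
  (.leaf 5)) (.bis 1 3 4 1 71 (.leaf 5) (.bis 1 7 4 1 151 (.leaf 5) (.bis 0 1 1 8 138 (.bis 1 2 4
  1 55 (.leaf 2) (.leaf 24)) (.leaf 2))))) (.bis 1 4 2 1 294 (.bis 4 6 1 1 289 (.leaf 5) (.bis 4
  7 2 1 290 (.leaf 5) (.bis 2 4 1 2 292 (.bis 3 4 1 2 302 (.leaf 15) (.leaf 5)) (.leaf 5))))
  (.bis 1 3 4 1 71 (.bis 4 7 1 1 303 (.leaf 5) (.leaf 5)) (.bis 1 7 4 1 151 (.leaf 5) (.bis 0 1 1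
  8 138 (.bis 1 2 4 1 55 (.leaf 2) (.leaf 24)) (.leaf 2))))))) (.bis 4 5 1 1 295 (.bis 1 5 2 1
  137 (.bis 2 5 2 1 140 (.bis 5 7 2 1 150 (.leaf 5) (.bis 3 5 1 2 166 (.leaf 14) (.leaf 4)))
  (.bis 2 3 4 1 72 (.leaf 5) (.bis 0 2 1 4 141 (.bis 2 4 4 1 296 (.leaf 2) (.leaf 2)) (.leaf
  2)))) (.bis 1 3 4 1 71 (.bis 2 3 4 1 72 (.leaf 5) (.bis 0 2 1 4 141 (.bis 2 4 4 1 296 (.leaf 2)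
  (.leaf 2)) (.leaf 2))) (.bis 0 1 1 8 138 (.bis 1 7 4 1 55 (.bis 2 4 4 1 296 (.leaf 2) (.bis 5 7
  1 1 153 (.bis 2 7 4 1 56 (.leaf 2) (.leaf 2)) (.bis 2 5 4 1 142 (.leaf 2) (.leaf 2)))) (.bis 1
  4 4 1 297 (.bis 2 4 4 1 296 (.leaf 2) (.bis 2 5 4 1 142 (.leaf 2) (.leaf 2))) (.bis 1 2 1 1 47
  (.bis 2 5 4 1 142 (.leaf 2) (.leaf 2)) (.leaf 6)))) (.bis 0 2 1 4 141 (.bis 2 4 4 1 296 (.leaf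
  2) (.bis 5 7 1 1 153 (.bis 2 7 4 1 56 (.leaf 2) (.leaf 2)) (.bis 2 5 4 1 142 (.leaf 2) (.leaf
  2)))) (.leaf 2))))) (.bis 1 4 2 1 294 (.bis 2 4 2 1 299 (.bis 4 6 1 1 289 (.leaf 22) (.leaf
  57)) (.bis 2 3 4 1 72 (.leaf 22) (.bis 0 2 1 4 141 (.bis 2 5 4 1 296 (.leaf 2) (.leaf 2))
  (.leaf 2)))) (.bis 1 3 4 1 71 (.bis 2 3 4 1 72 (.leaf 5) (.bis 0 2 1 4 141 (.bis 2 5 4 1 296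
  (.leaf 2) (.leaf 2)) (.leaf 2))) (.bis 0 1 1 8 138 (.bis 1 7 4 1 55 (.bis 2 5 4 1 296 (.leaf 2)
  (.bis 2 7 4 1 56 (.leaf 2) (.leaf 2))) (.bis 1 5 4 1 297 (.bis 2 5 4 1 296 (.leaf 2) (.bis 2 4
  4 1 304 (.leaf 2) (.leaf 2))) (.bis 1 2 1 1 47 (.bis 2 4 4 1 304 (.leaf 2) (.leaf 2)) (.leaf
  6)))) (.bis 0 2 1 4 141 (.bis 2 5 4 1 296 (.leaf 2) (.bis 2 7 4 1 56 (.leaf 2) (.leaf 2)))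
  (.leaf 2))))))) (.bis 4 5 1 1 295 (.bis 1 3 1 1 77 (.bis 2 5 2 1 140 (.bis 3 5 2 1 170 (.bis 5
  7 2 1 166 (.leaf 4) (.leaf 32)) (.bis 0 3 1 4 171 (.bis 2 7 1 1 172 (.bis 3 7 4 1 81 (.leaf 4)
  (.bis 3 4 4 1 308 (.leaf 4) (.leaf 36))) (.bis 3 4 4 1 308 (.leaf 4) (.bis 3 6 2 1 83 (.leaf 4)
  (.leaf 7)))) (.leaf 4))) (.bis 0 3 1 4 171 (.bis 2 7 4 1 72 (.bis 5 7 1 1 172 (.bis 3 7 4 1 81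
  (.leaf 4) (.bis 3 4 4 1 308 (.leaf 4) (.bis 3 6 2 1 83 (.leaf 4) (.leaf 7)))) (.bis 3 4 4 1 308
  (.leaf 2) (.bis 3 6 2 1 83 (.leaf 2) (.bis 3 5 4 1 173 (.leaf 2) (.leaf 7))))) (.bis 2 3 1 1 84
  (.bis 3 4 4 1 308 (.leaf 2) (.bis 3 6 2 1 83 (.leaf 2) (.leaf 7))) (.leaf 2))) (.bis 2 7 4 1 72
  (.leaf 4) (.bis 0 2 1 4 141 (.leaf 2) (.leaf 2))))) (.bis 1 5 2 1 137 (.bis 2 5 2 1 140 (.bis 5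
  7 2 1 166 (.bis 1 7 1 1 169 (.leaf 4) (.leaf 2)) (.leaf 32)) (.bis 2 7 4 1 72 (.leaf 4) (.bis 0
  2 1 4 141 (.leaf 2) (.leaf 2)))) (.bis 1 7 4 1 71 (.bis 2 7 4 1 72 (.leaf 4) (.bis 0 2 1 4 141
  (.bis 2 4 4 1 296 (.leaf 2) (.leaf 2)) (.leaf 2))) (.bis 0 1 1 8 138 (.bis 1 4 4 1 297 (.bis 2
  4 4 1 296 (.leaf 2) (.bis 2 5 4 1 142 (.leaf 2) (.leaf 2))) (.bis 1 2 1 1 47 (.bis 2 5 4 1 142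
  (.leaf 2) (.leaf 2)) (.leaf 6))) (.bis 0 2 1 4 141 (.bis 2 4 4 1 296 (.leaf 2) (.leaf 2))
  (.leaf 2)))))) (.bis 1 3 1 1 77 (.bis 2 4 2 1 299 (.bis 3 4 2 1 310 (.bis 4 6 1 1 289 (.leaf 4)
  (.bis 4 7 2 1 302 (.leaf 4) (.bis 1 4 1 1 391 (.bis 0 4 1 2 498 (.leaf 15) (.leaf 4)) (.leaf
  4)))) (.bis 0 3 1 4 171 (.bis 2 3 1 4 309 (.bis 3 7 4 1 81 (.leaf 4) (.leaf 36)) (.leaf 4))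
  (.leaf 4))) (.bis 0 3 1 4 171 (.bis 2 7 4 1 72 (.bis 3 4 4 1 309 (.leaf 4) (.bis 3 7 4 1 81
  (.leaf 4) (.bis 3 5 4 1 308 (.leaf 4) (.leaf 36)))) (.bis 2 3 1 1 84 (.bis 3 4 4 1 309 (.leaf
  2) (.bis 3 5 4 1 308 (.leaf 2) (.leaf 36))) (.leaf 2))) (.bis 2 7 4 1 72 (.leaf 4) (.bis 0 2 1
  4 141 (.leaf 2) (.leaf 2))))) (.bis 1 4 2 1 294 (.bis 2 4 2 1 299 (.bis 4 6 1 1 289 (.bis 1 7 1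
  1 305 (.leaf 4) (.leaf 2)) (.bis 4 7 2 1 302 (.leaf 22) (.leaf 15))) (.bis 2 7 4 1 72 (.leaf
  22) (.bis 0 2 1 4 141 (.leaf 2) (.leaf 2)))) (.bis 1 7 4 1 71 (.bis 2 7 4 1 72 (.leaf 5) (.bis
  0 2 1 4 141 (.bis 2 5 4 1 296 (.leaf 2) (.leaf 2)) (.leaf 2))) (.bis 0 1 1 8 138 (.bis 1 5 4 1
  297 (.bis 2 5 4 1 296 (.leaf 2) (.bis 2 4 4 1 304 (.leaf 2) (.leaf 2))) (.bis 1 2 1 1 47 (.bis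
  2 4 4 1 304 (.leaf 2) (.leaf 2)) (.leaf 6))) (.bis 0 2 1 4 141 (.bis 2 5 4 1 296 (.leaf 2)
  (.leaf 2)) (.leaf 2)))))))) (.bis 4 5 1 1 295 (.bis 1 3 1 1 77 (.bis 0 2 1 2 164 (.bis 2 5 2 1
  140 (.bis 3 5 2 1 170 (.leaf 32) (.bis 3 7 4 1 171 (.leaf 4) (.bis 0 3 1 4 176 (.bis 3 4 4 1
  308 (.leaf 4) (.leaf 36)) (.leaf 4)))) (.bis 3 7 4 1 171 (.bis 2 7 4 1 141 (.leaf 2) (.bis 2 4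
  4 1 296 (.leaf 2) (.leaf 2))) (.bis 2 3 1 1 84 (.bis 0 3 1 4 176 (.bis 3 4 4 1 308 (.leaf 2)
  (.leaf 36)) (.leaf 2)) (.leaf 2)))) (.bis 0 3 1 2 177 (.bis 3 5 2 1 170 (.leaf 32) (.bis 3 7 4
  1 171 (.leaf 4) (.bis 2 3 1 4 176 (.bis 3 4 4 1 308 (.leaf 4) (.bis 3 6 2 1 83 (.leaf 4) (.leaf
  7))) (.leaf 4)))) (.bis 0 6 1 1 160 (.bis 1 5 1 1 180 (.leaf 32) (.leaf 4)) (.bis 0 1 1 1 179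
  (.bis 1 5 1 1 180 (.bis 5 7 2 1 132 (.leaf 4) (.leaf 10)) (.leaf 4)) (.bis 0 7 2 1 165 (.leaf
  10) (.leaf 16)))))) (.bis 0 1 1 2 163 (.bis 1 5 2 1 137 (.bis 2 5 2 1 140 (.leaf 32) (.bis 2 7
  4 1 141 (.leaf 2) (.bis 2 4 4 1 296 (.leaf 2) (.leaf 2)))) (.bis 1 7 8 1 138 (.bis 2 7 4 1 141
  (.leaf 2) (.bis 2 4 4 1 296 (.leaf 2) (.leaf 2))) (.bis 1 4 4 1 297 (.bis 2 4 4 1 296 (.leaf 2)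
  (.bis 0 2 1 4 175 (.leaf 2) (.leaf 2))) (.bis 1 2 1 1 47 (.bis 0 2 1 4 175 (.leaf 2) (.leaf 2))
  (.leaf 6))))) (.bis 0 2 1 2 164 (.bis 2 5 2 1 140 (.bis 3 5 1 1 180 (.leaf 14) (.leaf 2)) (.bis
  2 7 4 1 141 (.leaf 2) (.leaf 2))) (.bis 0 6 1 1 160 (.bis 3 5 1 1 180 (.leaf 14) (.leaf 2))
  (.bis 0 3 1 1 179 (.bis 3 5 1 1 180 (.leaf 10) (.leaf 2)) (.bis 0 7 2 1 165 (.leaf 10) (.bis 1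
  5 1 2 499 (.leaf 16) (.leaf 16)))))))) (.bis 1 3 1 1 77 (.bis 0 2 1 2 164 (.bis 2 4 2 1 299
  (.bis 3 4 2 1 310 (.bis 4 6 1 1 289 (.leaf 4) (.leaf 15)) (.bis 3 7 4 1 171 (.leaf 4) (.bis 0 3
  1 4 176 (.bis 2 3 1 4 309 (.bis 3 5 4 1 308 (.leaf 4) (.bis 3 6 2 1 83 (.leaf 4) (.leaf 7)))
  (.leaf 4)) (.leaf 4)))) (.bis 3 7 4 1 171 (.bis 2 7 4 1 141 (.leaf 2) (.leaf 2)) (.bis 2 3 1 1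
  84 (.bis 0 3 1 4 176 (.bis 3 4 4 1 309 (.leaf 2) (.leaf 36)) (.leaf 2)) (.leaf 2)))) (.bis 0 3
  1 2 177 (.bis 3 4 2 1 310 (.bis 4 6 1 1 289 (.leaf 4) (.bis 2 4 1 2 500 (.leaf 15) (.leaf 4)))
  (.bis 3 7 4 1 171 (.leaf 4) (.bis 2 3 1 4 176 (.bis 3 5 4 1 308 (.leaf 4) (.bis 3 6 2 1 83
  (.leaf 4) (.leaf 7))) (.leaf 4)))) (.bis 0 4 1 1 496 (.bis 4 6 1 1 289 (.leaf 61) (.bis 2 4 1 2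
  500 (.bis 3 4 1 2 501 (.bis 1 4 1 1 391 (.bis 4 7 2 1 498 (.leaf 11) (.leaf 15)) (.leaf 11))
  (.leaf 15)) (.leaf 15))) (.bis 0 6 1 1 160 (.bis 4 6 1 2 497 (.leaf 4) (.leaf 15)) (.bis 0 1 1
  1 179 (.leaf 15) (.bis 0 7 2 1 165 (.leaf 15) (.leaf 26))))))) (.bis 0 1 1 2 163 (.bis 1 4 2 1
  294 (.bis 2 4 2 1 299 (.bis 4 6 1 1 289 (.leaf 2) (.leaf 15)) (.bis 2 7 4 1 141 (.leaf 2) (.bis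
  2 5 4 1 296 (.leaf 2) (.leaf 2)))) (.bis 1 7 8 1 138 (.bis 2 7 4 1 141 (.leaf 2) (.bis 2 5 4 1
  296 (.leaf 2) (.leaf 2))) (.bis 1 5 4 1 297 (.bis 2 5 4 1 296 (.leaf 2) (.bis 0 2 1 4 175
  (.leaf 2) (.leaf 2))) (.bis 1 2 1 1 47 (.bis 0 2 1 4 175 (.leaf 2) (.leaf 2)) (.leaf 6)))))
  (.bis 0 2 1 2 164 (.bis 2 4 2 1 299 (.bis 4 6 1 1 289 (.leaf 2) (.bis 1 4 1 2 495 (.leaf 15)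
  (.leaf 11))) (.bis 2 7 4 1 141 (.leaf 2) (.leaf 2))) (.bis 0 4 1 1 496 (.bis 4 6 1 1 289 (.leaf
  11) (.bis 1 4 1 2 495 (.bis 2 4 1 2 500 (.bis 3 4 1 1 391 (.bis 4 7 2 1 498 (.leaf 11) (.leaf
  15)) (.leaf 11)) (.leaf 11)) (.leaf 11))) (.bis 0 6 1 1 160 (.leaf 11) (.leaf 26)))))))))

def lc15 : List Vr := [⟨[60,0,0,0,0,85,0,0], 90050, 0⟩, ⟨[0,24,0,0,0,0,0,0], 13824, 0⟩, ⟨[0,0,27,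
  0,0,0,0,0], 14580, 0⟩, ⟨[0,0,0,30,0,0,0,0], 14400, 0⟩, ⟨[60,0,0,0,85,0,0,0], 90050, 0⟩, ⟨[0,0,0,
  0,0,85,42,0], 85682, 0⟩, ⟨[0,0,0,0,0,0,42,0], 14112, 0⟩, ⟨[0,0,0,0,85,0,0,121], 96730, 0⟩]

theorem lk15 : chkTr lowT (leafLow 4 lowB) lt15 lc15 = true := by decide +kernel

end Pool.Agent.Helper10.Fam.D6
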