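import Pool.Agent.Helper10.FamD.D6LowT

set_option autoImplicit false
set_option maxRecDepth 1000000

/-!
# Certificate data for `U ⊕ D6` (lower bound, subtrees)
-/

namespace Pool.Agent.Helper10.Fam.D6

open Pool.Agent.Helper10.Fam

def lt16 : Tr ℕ := (.bis 0 7 1 1 128 (.bis 3 7 2 1 69 (.bis 2 7 2 1 53 (.bis 6 7 1 1 149 (.bis 1
  7 2 1 35 (.bis 4 7 1 1 287 (.bis 5 7 1 2 250 (.leaf 19) (.bis 1 5 1 1 251 (.leaf 73) (.leaf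
  19))) (.bis 4 5 2 1 340 (.bis 1 5 1 1 251 (.leaf 102) (.leaf 8)) (.bis 4 6 2 1 290 (.leaf 8)
  (.bis 1 4 1 2 291 (.bis 2 4 1 2 292 (.bis 3 4 1 2 302 (.leaf 28) (.leaf 8)) (.leaf 8)) (.leaf
  8))))) (.bis 1 5 4 1 245 (.bis 4 5 2 1 340 (.leaf 102) (.bis 4 6 2 1 290 (.leaf 5) (.bis 4 7 2
  1 291 (.leaf 5) (.bis 2 4 1 2 292 (.bis 3 4 1 2 302 (.leaf 15) (.leaf 4)) (.leaf 5))))) (.bis 1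
  4 2 1 294 (.bis 4 6 2 1 290 (.bis 1 6 1 1 303 (.leaf 5) (.bis 1 3 1 1 305 (.leaf 5) (.leaf 5)))
  (.bis 4 7 2 1 291 (.leaf 5) (.bis 2 4 1 2 292 (.bis 3 4 1 2 302 (.leaf 15) (.leaf 5)) (.leaf
  5)))) (.bis 1 3 4 1 71 (.bis 4 6 1 1 303 (.leaf 5) (.bis 3 4 1 1 305 (.leaf 5) (.leaf 5)))
  (.bis 1 6 4 1 151 (.bis 4 6 1 1 303 (.leaf 3) (.leaf 5)) (.bis 0 1 1 8 138 (.bis 1 2 4 1 55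
  (.leaf 5) (.leaf 24)) (.leaf 5))))))) (.bis 1 5 4 1 245 (.bis 4 6 1 1 295 (.bis 2 6 1 2 150
  (.bis 3 6 1 2 166 (.leaf 10) (.leaf 23)) (.leaf 23)) (.bis 4 5 2 1 340 (.leaf 23) (.bis 4 7 2 1
  290 (.leaf 5) (.bis 2 4 1 2 292 (.bis 3 4 1 2 302 (.bis 1 4 1 4 379 (.leaf 15) (.leaf 4))
  (.leaf 4)) (.leaf 5))))) (.bis 4 6 1 1 295 (.bis 1 6 2 1 137 (.bis 2 6 1 2 150 (.bis 3 6 1 2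
  166 (.leaf 10) (.leaf 4)) (.leaf 5)) (.bis 1 3 4 1 71 (.leaf 5) (.bis 1 7 4 1 151 (.leaf 5)
  (.bis 0 1 1 8 138 (.bis 1 2 4 1 55 (.leaf 2) (.leaf 24)) (.leaf 2))))) (.bis 1 4 2 1 294 (.bis
  4 7 2 1 290 (.bis 1 7 1 1 303 (.leaf 5) (.leaf 5)) (.bis 2 4 1 2 292 (.bis 3 4 1 2 302 (.leaf
  15) (.leaf 5)) (.leaf 5))) (.bis 1 3 4 1 71 (.bis 4 7 1 1 303 (.leaf 5) (.leaf 5)) (.bis 1 7 4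
  1 151 (.leaf 5) (.bis 0 1 1 8 138 (.bis 1 2 4 1 55 (.leaf 2) (.leaf 24)) (.leaf 2)))))))) (.bis
  1 5 4 1 245 (.bis 4 6 1 1 295 (.bis 2 5 4 1 239 (.bis 6 7 2 1 150 (.leaf 23) (.bis 3 6 1 2 166
  (.leaf 10) (.leaf 23))) (.bis 2 6 2 1 140 (.bis 6 7 2 1 150 (.leaf 5) (.bis 3 6 1 2 166 (.leaf
  10) (.leaf 4))) (.bis 2 3 4 1 72 (.leaf 5) (.bis 0 2 1 4 141 (.bis 2 4 4 1 296 (.leaf 2) (.leaf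
  2)) (.leaf 2))))) (.bis 2 5 4 1 239 (.bis 4 5 2 1 340 (.leaf 23) (.bis 2 4 1 4 341 (.bis 4 7 2
  1 292 (.leaf 5) (.bis 3 4 1 2 302 (.leaf 15) (.leaf 4))) (.leaf 5))) (.bis 2 4 2 1 299 (.bis 4
  5 4 1 341 (.leaf 8) (.bis 4 7 2 1 292 (.leaf 8) (.bis 3 4 1 2 302 (.leaf 15) (.leaf 4)))) (.bis
  2 3 4 1 72 (.leaf 8) (.bis 0 2 1 4 141 (.bis 2 6 4 1 296 (.leaf 2) (.leaf 2)) (.leaf 2))))))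
  (.bis 4 6 1 1 295 (.bis 1 6 2 1 137 (.bis 2 6 2 1 140 (.bis 6 7 2 1 150 (.leaf 5) (.bis 3 6 1 2
  166 (.leaf 10) (.bis 1 3 1 1 169 (.leaf 4) (.leaf 2)))) (.bis 2 3 4 1 72 (.leaf 5) (.bis 0 2 1
  4 141 (.bis 2 4 4 1 296 (.leaf 2) (.leaf 2)) (.leaf 2)))) (.bis 1 3 4 1 71 (.bis 2 3 4 1 72
  (.leaf 5) (.bis 0 2 1 4 141 (.bis 2 4 4 1 296 (.leaf 2) (.bis 6 7 1 1 153 (.bis 2 7 4 1 56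
  (.leaf 2) (.leaf 2)) (.bis 2 5 8 1 247 (.leaf 2) (.leaf 2)))) (.leaf 2))) (.bis 0 1 1 8 138
  (.bis 1 7 4 1 55 (.bis 2 4 4 1 296 (.leaf 2) (.bis 6 7 1 1 153 (.bis 2 7 4 1 56 (.leaf 2) (.bis
  2 5 8 1 247 (.leaf 2) (.leaf 2))) (.bis 2 5 8 1 247 (.leaf 2) (.leaf 2)))) (.bis 1 4 4 1 297
  (.bis 2 4 4 1 296 (.leaf 2) (.bis 2 5 8 1 247 (.leaf 2) (.leaf 2))) (.bis 1 2 1 1 47 (.bis 2 5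
  8 1 247 (.leaf 2) (.leaf 2)) (.leaf 9)))) (.bis 0 2 1 4 141 (.bis 2 4 4 1 296 (.leaf 2) (.bis 6
  7 1 1 153 (.bis 2 7 4 1 56 (.leaf 2) (.leaf 2)) (.bis 2 5 8 1 247 (.leaf 2) (.leaf 2)))) (.leaf
  2))))) (.bis 1 4 2 1 294 (.bis 2 4 2 1 299 (.bis 4 7 2 1 292 (.leaf 8) (.bis 3 4 1 2 302 (.leaf
  15) (.leaf 8))) (.bis 2 3 4 1 72 (.leaf 8) (.bis 0 2 1 4 141 (.bis 2 6 4 1 296 (.leaf 2) (.leaf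
  2)) (.leaf 2)))) (.bis 1 3 4 1 71 (.bis 2 3 4 1 72 (.leaf 5) (.bis 0 2 1 4 141 (.bis 2 6 4 1
  296 (.leaf 2) (.bis 2 7 4 1 56 (.leaf 2) (.leaf 2))) (.leaf 2))) (.bis 0 1 1 8 138 (.bis 1 7 4
  1 55 (.bis 2 6 4 1 296 (.leaf 2) (.bis 2 7 4 1 56 (.leaf 2) (.bis 2 4 4 1 304 (.leaf 2) (.leaf
  2)))) (.bis 1 6 4 1 297 (.bis 2 6 4 1 296 (.leaf 2) (.bis 2 4 4 1 304 (.leaf 2) (.bis 2 5 8 1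
  247 (.leaf 2) (.leaf 2)))) (.bis 1 2 1 1 47 (.bis 2 4 4 1 304 (.leaf 2) (.leaf 2)) (.leaf
  24)))) (.bis 0 2 1 4 141 (.bis 2 6 4 1 296 (.leaf 2) (.bis 2 7 4 1 56 (.leaf 2) (.leaf 2)))
  (.leaf 2)))))))) (.bis 1 5 4 1 245 (.bis 4 6 1 1 295 (.bis 2 5 4 1 239 (.bis 3 6 2 1 170 (.bis
  6 7 2 1 166 (.leaf 23) (.leaf 10)) (.bis 0 3 1 4 171 (.bis 3 5 4 1 193 (.leaf 23) (.bis 1 3 1 8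
  248 (.bis 3 7 4 1 81 (.leaf 4) (.bis 3 4 4 1 308 (.leaf 4) (.leaf 7))) (.leaf 4))) (.leaf 23)))
  (.bis 2 6 2 1 140 (.bis 3 6 2 1 170 (.bis 6 7 2 1 166 (.leaf 4) (.leaf 10)) (.bis 0 3 1 4 171
  (.bis 1 3 1 8 248 (.bis 2 7 1 1 172 (.bis 3 7 4 1 81 (.leaf 4) (.bis 3 4 4 1 308 (.leaf 4)
  (.leaf 7))) (.bis 3 4 4 1 308 (.leaf 4) (.bis 2 3 1 4 173 (.leaf 7) (.leaf 4)))) (.leaf 4))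
  (.leaf 4))) (.bis 0 3 1 4 171 (.bis 2 7 4 1 72 (.bis 1 3 1 8 248 (.bis 6 7 1 1 172 (.bis 3 7 4
  1 81 (.leaf 4) (.bis 3 4 4 1 308 (.leaf 4) (.bis 3 5 8 1 252 (.leaf 4) (.leaf 7)))) (.bis 3 4 4
  1 308 (.leaf 2) (.bis 3 6 4 1 173 (.leaf 2) (.bis 3 5 8 1 252 (.leaf 2) (.leaf 7))))) (.leaf
  4)) (.bis 2 3 1 1 84 (.bis 1 3 1 8 248 (.bis 3 4 4 1 308 (.leaf 2) (.bis 3 6 4 1 173 (.leaf 2)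
  (.leaf 7))) (.leaf 2)) (.bis 2 4 4 1 296 (.leaf 2) (.leaf 2)))) (.bis 2 7 4 1 72 (.leaf 4)
  (.bis 0 2 1 4 141 (.bis 2 4 4 1 296 (.leaf 2) (.leaf 2)) (.leaf 2)))))) (.bis 2 5 4 1 239 (.bis
  4 5 2 1 340 (.bis 0 3 1 4 171 (.bis 3 5 4 1 193 (.leaf 23) (.bis 1 3 1 8 248 (.bis 3 4 8 1 342
  (.leaf 4) (.bis 3 7 4 1 81 (.leaf 4) (.leaf 7))) (.leaf 4))) (.leaf 23)) (.bis 3 4 2 1 310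
  (.bis 2 4 1 4 341 (.bis 4 7 2 1 302 (.leaf 4) (.leaf 15)) (.leaf 4)) (.bis 0 3 1 4 171 (.bis 1
  3 1 8 248 (.bis 3 5 8 1 342 (.leaf 4) (.bis 3 7 4 1 81 (.leaf 4) (.leaf 7))) (.leaf 4)) (.leaf
  4)))) (.bis 2 4 2 1 299 (.bis 3 4 2 1 310 (.bis 4 5 4 1 341 (.leaf 4) (.bis 4 7 2 1 302 (.leaf
  4) (.leaf 15))) (.bis 0 3 1 4 171 (.bis 1 3 1 8 248 (.bis 2 3 1 4 309 (.bis 3 7 4 1 81 (.leaf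
  4) (.leaf 7)) (.leaf 4)) (.leaf 4)) (.leaf 4))) (.bis 0 3 1 4 171 (.bis 2 7 4 1 72 (.bis 1 3 1
  8 248 (.bis 3 4 4 1 309 (.leaf 4) (.bis 3 7 4 1 81 (.leaf 4) (.bis 3 6 4 1 308 (.leaf 4) (.leaf
  7)))) (.leaf 4)) (.bis 2 3 1 1 84 (.bis 1 3 1 8 248 (.bis 3 4 4 1 309 (.leaf 2) (.leaf 7))
  (.leaf 2)) (.bis 2 6 4 1 296 (.leaf 2) (.leaf 2)))) (.bis 2 7 4 1 72 (.leaf 4) (.bis 0 2 1 4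
  141 (.bis 2 6 4 1 296 (.leaf 2) (.leaf 2)) (.leaf 2))))))) (.bis 4 6 1 1 295 (.bis 1 3 1 1 77
  (.bis 2 6 2 1 140 (.bis 3 6 2 1 170 (.bis 6 7 2 1 166 (.leaf 4) (.leaf 32)) (.bis 0 3 1 4 171
  (.bis 3 5 8 1 248 (.bis 2 7 1 1 172 (.leaf 4) (.leaf 4)) (.bis 2 7 1 1 172 (.bis 3 7 4 1 81
  (.leaf 4) (.leaf 7)) (.bis 3 4 4 1 308 (.leaf 4) (.leaf 7)))) (.leaf 4))) (.bis 0 3 1 4 171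
  (.bis 2 7 4 1 72 (.bis 3 5 8 1 248 (.leaf 4) (.bis 6 7 1 1 172 (.bis 3 7 4 1 81 (.leaf 4) (.bis
  3 4 4 1 308 (.leaf 4) (.leaf 7))) (.bis 3 4 4 1 308 (.leaf 2) (.bis 3 6 4 1 173 (.leaf 2)
  (.leaf 7))))) (.bis 2 3 1 1 84 (.bis 3 5 8 1 248 (.leaf 2) (.bis 3 4 4 1 308 (.leaf 2) (.leaf
  7))) (.leaf 2))) (.bis 2 7 4 1 72 (.leaf 4) (.bis 0 2 1 4 141 (.bis 2 4 4 1 296 (.leaf 2)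
  (.leaf 2)) (.leaf 2))))) (.bis 1 6 2 1 137 (.bis 2 6 2 1 140 (.bis 6 7 2 1 166 (.bis 1 7 1 1
  169 (.leaf 4) (.leaf 2)) (.leaf 32)) (.bis 2 7 4 1 72 (.leaf 4) (.bis 0 2 1 4 141 (.bis 2 4 4 1
  296 (.leaf 2) (.leaf 2)) (.leaf 2)))) (.bis 1 7 4 1 71 (.bis 2 7 4 1 72 (.leaf 4) (.bis 0 2 1 4
  141 (.bis 2 4 4 1 296 (.leaf 2) (.leaf 2)) (.leaf 2))) (.bis 0 1 1 8 138 (.bis 1 4 4 1 297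
  (.bis 2 4 4 1 296 (.leaf 2) (.bis 2 5 8 1 247 (.leaf 2) (.leaf 2))) (.bis 1 2 1 1 47 (.bis 2 5
  8 1 247 (.leaf 2) (.leaf 2)) (.leaf 9))) (.bis 0 2 1 4 141 (.bis 2 4 4 1 296 (.leaf 2) (.bis 2
  5 8 1 247 (.leaf 2) (.leaf 2))) (.leaf 2)))))) (.bis 1 3 1 1 77 (.bis 2 4 2 1 299 (.bis 3 4 2 1
  310 (.bis 4 7 2 1 302 (.leaf 4) (.leaf 15)) (.bis 0 3 1 4 171 (.bis 3 5 8 1 248 (.leaf 4) (.bis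
  2 3 1 4 309 (.bis 3 7 4 1 81 (.leaf 4) (.leaf 7)) (.leaf 4))) (.leaf 4))) (.bis 0 3 1 4 171
  (.bis 2 7 4 1 72 (.bis 3 5 8 1 248 (.leaf 4) (.bis 3 4 4 1 309 (.leaf 4) (.bis 3 7 4 1 81
  (.leaf 4) (.leaf 7)))) (.bis 2 3 1 1 84 (.bis 3 5 8 1 248 (.leaf 2) (.bis 3 4 4 1 309 (.leaf 2)
  (.leaf 7))) (.leaf 2))) (.bis 2 7 4 1 72 (.leaf 4) (.bis 0 2 1 4 141 (.bis 2 6 4 1 296 (.leaf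
  2) (.leaf 2)) (.leaf 2))))) (.bis 1 4 2 1 294 (.bis 2 4 2 1 299 (.bis 4 7 2 1 302 (.leaf 22)
  (.leaf 15)) (.bis 2 7 4 1 72 (.leaf 22) (.bis 0 2 1 4 141 (.bis 2 6 4 1 296 (.leaf 2) (.leaf
  2)) (.leaf 2)))) (.bis 1 7 4 1 71 (.bis 2 7 4 1 72 (.leaf 5) (.bis 0 2 1 4 141 (.bis 2 6 4 1
  296 (.leaf 2) (.leaf 2)) (.leaf 2))) (.bis 0 1 1 8 138 (.bis 1 6 4 1 297 (.bis 2 6 4 1 296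
  (.leaf 2) (.bis 2 4 4 1 304 (.leaf 2) (.leaf 2))) (.bis 1 2 1 1 47 (.bis 2 4 4 1 304 (.leaf 2)
  (.leaf 2)) (.leaf 24))) (.bis 0 2 1 4 141 (.bis 2 6 4 1 296 (.leaf 2) (.bis 2 4 4 1 304 (.leaf
  2) (.leaf 2))) (.leaf 2))))))))) (.bis 1 5 4 1 245 (.bis 4 6 1 1 295 (.bis 2 5 4 1 239 (.bis 0
  3 1 2 177 (.bis 3 6 2 1 170 (.leaf 10) (.bis 3 7 4 1 171 (.leaf 10) (.bis 3 5 4 1 193 (.leaf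
  10) (.bis 1 3 1 8 248 (.bis 3 4 4 1 308 (.leaf 4) (.leaf 7)) (.leaf 4))))) (.bis 0 5 2 1 192
  (.leaf 10) (.leaf 41))) (.bis 0 2 1 2 164 (.bis 2 6 2 1 140 (.bis 3 6 2 1 170 (.leaf 10) (.bis
  3 7 4 1 171 (.leaf 4) (.bis 1 3 1 8 248 (.bis 0 3 1 4 176 (.bis 3 4 4 1 308 (.leaf 4) (.leaf
  7)) (.leaf 4)) (.leaf 4)))) (.bis 3 7 4 1 171 (.bis 2 7 4 1 141 (.leaf 2) (.bis 2 4 4 1 296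
  (.leaf 2) (.leaf 2))) (.bis 2 3 1 1 84 (.bis 1 3 1 8 248 (.bis 0 3 1 4 176 (.bis 3 4 4 1 308
  (.leaf 2) (.leaf 7)) (.leaf 2)) (.leaf 2)) (.bis 2 4 4 1 296 (.leaf 2) (.leaf 2))))) (.bis 0 3
  1 2 177 (.bis 3 6 2 1 170 (.leaf 10) (.bis 3 7 4 1 171 (.leaf 4) (.bis 1 3 1 8 248 (.bis 2 3 1
  4 176 (.bis 3 4 4 1 308 (.leaf 4) (.leaf 7)) (.leaf 4)) (.leaf 4)))) (.leaf 41)))) (.bis 2 5 4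
  1 239 (.bis 4 5 2 1 340 (.bis 0 3 1 2 177 (.bis 3 7 4 1 171 (.leaf 10) (.bis 3 5 4 1 193 (.leaf
  10) (.bis 1 3 1 8 248 (.bis 3 4 8 1 342 (.leaf 4) (.bis 3 6 4 1 308 (.leaf 4) (.leaf 7)))
  (.leaf 4)))) (.bis 0 5 2 1 192 (.leaf 10) (.bis 0 7 2 1 165 (.leaf 10) (.leaf 26)))) (.bis 0 3
  1 2 177 (.bis 3 4 2 1 310 (.bis 2 4 1 4 341 (.bis 1 4 1 4 379 (.bis 0 4 1 2 501 (.leaf 15)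
  (.leaf 4)) (.leaf 4)) (.leaf 4)) (.bis 3 7 4 1 171 (.leaf 4) (.bis 1 3 1 8 248 (.bis 3 5 8 1
  342 (.leaf 4) (.bis 3 6 4 1 308 (.leaf 4) (.leaf 7))) (.leaf 4)))) (.bis 0 4 1 1 496 (.bis 2 4
  1 4 341 (.bis 1 4 1 4 379 (.bis 3 4 1 2 501 (.leaf 15) (.leaf 15)) (.leaf 15)) (.leaf 26))
  (.bis 0 7 2 1 165 (.leaf 26) (.leaf 26))))) (.bis 0 2 1 2 164 (.bis 2 4 2 1 299 (.bis 3 4 2 1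
  310 (.bis 4 5 4 1 341 (.leaf 4) (.bis 0 4 1 2 500 (.leaf 15) (.leaf 4))) (.bis 3 7 4 1 171
  (.leaf 4) (.bis 1 3 1 8 248 (.bis 0 3 1 4 176 (.bis 2 3 1 4 309 (.leaf 7) (.leaf 4)) (.leaf 4))
  (.leaf 4)))) (.bis 3 7 4 1 171 (.bis 2 7 4 1 141 (.leaf 2) (.bis 2 6 4 1 296 (.leaf 2) (.leaf
  2))) (.bis 2 3 1 1 84 (.bis 1 3 1 8 248 (.bis 0 3 1 4 176 (.bis 3 4 4 1 309 (.leaf 2) (.leaf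
  7)) (.leaf 2)) (.leaf 2)) (.bis 2 6 4 1 296 (.leaf 2) (.leaf 2))))) (.bis 0 3 1 2 177 (.bis 3 4
  2 1 310 (.bis 4 5 4 1 341 (.leaf 4) (.bis 2 4 1 2 500 (.bis 1 4 1 4 379 (.bis 0 4 1 2 501
  (.leaf 15) (.leaf 4)) (.leaf 4)) (.leaf 4))) (.bis 3 7 4 1 171 (.leaf 4) (.bis 1 3 1 8 248
  (.bis 2 3 1 4 176 (.leaf 7) (.leaf 4)) (.leaf 4)))) (.bis 0 4 1 1 496 (.bis 4 5 4 1 341 (.leaf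
  26) (.bis 2 4 1 2 500 (.bis 1 4 1 4 379 (.bis 3 4 1 2 501 (.leaf 15) (.leaf 15)) (.leaf 15))
  (.leaf 15))) (.leaf 26)))))) (.bis 4 6 1 1 295 (.bis 1 3 1 1 77 (.bis 0 2 1 2 164 (.bis 2 6 2 1
  140 (.bis 3 6 2 1 170 (.leaf 32) (.bis 3 7 4 1 171 (.leaf 4) (.bis 3 5 8 1 248 (.leaf 4) (.bis
  0 3 1 4 176 (.bis 3 4 4 1 308 (.leaf 4) (.leaf 7)) (.leaf 4))))) (.bis 3 7 4 1 171 (.bis 2 7 4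
  1 141 (.leaf 2) (.bis 2 4 4 1 296 (.leaf 2) (.leaf 2))) (.bis 2 3 1 1 84 (.bis 3 5 8 1 248
  (.leaf 2) (.bis 0 3 1 4 176 (.leaf 7) (.leaf 2))) (.leaf 2)))) (.bis 0 3 1 2 177 (.bis 3 6 2 1
  170 (.leaf 32) (.bis 3 7 4 1 171 (.leaf 4) (.bis 3 5 8 1 248 (.leaf 4) (.bis 2 3 1 4 176 (.leaf
  7) (.leaf 4))))) (.bis 0 1 1 1 179 (.bis 1 6 1 1 180 (.leaf 10) (.leaf 4)) (.leaf 41)))) (.bis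
  0 1 1 2 163 (.bis 1 6 2 1 137 (.bis 2 6 2 1 140 (.leaf 32) (.bis 2 7 4 1 141 (.leaf 2) (.bis 2
  4 4 1 296 (.leaf 2) (.leaf 2)))) (.bis 1 7 8 1 138 (.bis 2 7 4 1 141 (.leaf 2) (.bis 2 4 4 1
  296 (.leaf 2) (.bis 0 2 1 4 175 (.leaf 2) (.leaf 2)))) (.bis 1 4 4 1 297 (.bis 2 4 4 1 296
  (.leaf 2) (.bis 0 2 1 4 175 (.leaf 2) (.leaf 2))) (.bis 1 2 1 1 47 (.bis 0 2 1 4 175 (.leaf 2)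
  (.leaf 2)) (.leaf 9))))) (.bis 0 2 1 2 164 (.bis 2 6 2 1 140 (.bis 3 6 1 1 180 (.leaf 10)
  (.leaf 2)) (.bis 2 7 4 1 141 (.leaf 2) (.bis 2 4 4 1 296 (.leaf 2) (.leaf 2)))) (.bis 0 3 1 1
  179 (.bis 3 6 1 1 180 (.leaf 10) (.leaf 2)) (.leaf 41))))) (.bis 1 3 1 1 77 (.bis 0 2 1 2 164
  (.bis 2 4 2 1 299 (.bis 3 4 2 1 310 (.bis 0 4 1 2 500 (.leaf 15) (.leaf 4)) (.bis 3 7 4 1 171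
  (.leaf 4) (.bis 3 5 8 1 248 (.leaf 4) (.bis 0 3 1 4 176 (.bis 2 3 1 4 309 (.leaf 7) (.leaf 4))
  (.leaf 4))))) (.bis 3 7 4 1 171 (.bis 2 7 4 1 141 (.leaf 2) (.bis 2 6 4 1 296 (.leaf 2) (.leaf
  2))) (.bis 2 3 1 1 84 (.bis 3 5 8 1 248 (.leaf 2) (.bis 0 3 1 4 176 (.leaf 7) (.leaf 2)))
  (.leaf 2)))) (.bis 0 3 1 2 177 (.bis 3 4 2 1 310 (.bis 2 4 1 2 500 (.bis 4 5 4 1 379 (.leaf 4)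
  (.leaf 15)) (.leaf 4)) (.bis 3 7 4 1 171 (.leaf 4) (.bis 3 5 8 1 248 (.leaf 4) (.bis 2 3 1 4
  176 (.leaf 7) (.leaf 4))))) (.bis 0 4 1 1 496 (.bis 2 4 1 2 500 (.bis 4 5 4 1 379 (.leaf 15)
  (.bis 3 4 1 2 501 (.bis 1 4 1 1 391 (.leaf 15) (.leaf 11)) (.leaf 15))) (.leaf 15)) (.leaf
  26)))) (.bis 0 1 1 2 163 (.bis 1 4 2 1 294 (.bis 2 4 2 1 299 (.bis 0 4 1 2 495 (.bis 4 5 4 1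
  379 (.leaf 11) (.leaf 15)) (.leaf 11)) (.bis 2 7 4 1 141 (.leaf 2) (.bis 2 6 4 1 296 (.leaf 2)
  (.leaf 2)))) (.bis 1 7 8 1 138 (.bis 2 7 4 1 141 (.leaf 2) (.bis 2 6 4 1 296 (.leaf 2) (.bis 0
  2 1 4 175 (.leaf 2) (.leaf 2)))) (.bis 1 6 4 1 297 (.bis 2 6 4 1 296 (.leaf 2) (.bis 0 2 1 4
  175 (.leaf 2) (.leaf 2))) (.bis 1 2 1 1 47 (.bis 0 2 1 4 175 (.leaf 2) (.leaf 2)) (.leaf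
  24))))) (.bis 0 2 1 2 164 (.bis 2 4 2 1 299 (.bis 1 4 1 2 495 (.bis 0 4 1 2 500 (.bis 4 5 4 1
  379 (.leaf 4) (.bis 3 4 1 1 391 (.bis 4 7 2 1 498 (.leaf 4) (.leaf 15)) (.leaf 4))) (.leaf 4))
  (.leaf 11)) (.bis 2 7 4 1 141 (.leaf 2) (.bis 2 6 4 1 296 (.leaf 2) (.leaf 2)))) (.bis 0 4 1 1
  496 (.bis 1 4 1 2 495 (.bis 2 4 1 2 500 (.bis 4 5 4 1 379 (.leaf 11) (.bis 3 4 1 1 391 (.leaf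
  15) (.leaf 11))) (.leaf 11)) (.leaf 11)) (.leaf 26))))))))

def lc16 : List Vr := [⟨[60,0,0,0,0,85,0,0], 90050, 0⟩, ⟨[0,24,0,0,0,0,0,0], 13824, 0⟩, ⟨[0,0,27,
  0,0,0,0,0], 14580, 0⟩, ⟨[0,0,0,30,0,0,0,0], 14400, 0⟩, ⟨[60,0,0,0,85,0,0,0], 90050, 0⟩, ⟨[0,0,0,
  0,85,170,0,121], 434690, 0⟩, ⟨[0,0,0,0,0,85,42,0], 85682, 0⟩, ⟨[0,0,0,0,85,0,0,121], 96730, 0⟩]

theorem lk16 : chkTr lowT (leafLow 4 lowB) lt16 lc16 = true := by decide +kernel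

def lt17 : Tr ℕ := (.bis 1 5 1 1 182 (.bis 4 5 1 2 345 (.bis 2 5 1 1 183 (.bis 3 5 1 1 196 (.bis
  0 5 1 2 197 (.bis 5 7 4 1 198 (.bis 0 7 1 1 234 (.bis 3 7 2 1 235 (.leaf 80) (.leaf 25)) (.leaf
  25)) (.bis 5 6 2 1 199 (.leaf 25) (.bis 4 5 1 4 357 (.bis 1 5 1 2 205 (.bis 2 5 1 2 208 (.bis 3
  5 1 2 209 (.bis 5 7 8 1 210 (.bis 0 7 2 1 231 (.bis 3 7 2 1 230 (.leaf 29) (.leaf 29)) (.bis 0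
  5 4 1 228 (.leaf 29) (.bis 0 3 1 1 229 (.bis 3 6 1 1 227 (.leaf 29) (.leaf 29)) (.leaf 29))))
  (.bis 0 5 1 4 211 (.bis 5 6 4 1 212 (.leaf 85) (.bis 4 5 1 8 363 (.bis 1 5 1 4 213 (.bis 2 5 1
  4 215 (.bis 3 5 1 4 216 (.bis 5 7 16 1 217 (.leaf 67) (.bis 0 5 1 8 218 (.bis 5 6 8 1 219
  (.leaf 46) (.bis 4 5 1 16 365 (.bis 1 5 1 8 221 (.bis 2 5 1 8 222 (.bis 3 5 1 8 223 (.bis 5 7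
  32 1 224 (.leaf 46) (.bis 0 5 1 16 225 (.leaf 84) (.leaf 46))) (.leaf 46)) (.leaf 46)) (.leaf
  46)) (.leaf 46))) (.leaf 67))) (.leaf 67)) (.leaf 51)) (.leaf 51)) (.leaf 51))) (.leaf 29)))
  (.bis 0 3 1 2 233 (.leaf 65) (.bis 0 7 2 1 231 (.bis 5 7 2 1 230 (.leaf 29) (.bis 5 6 1 1 227
  (.leaf 29) (.leaf 29))) (.bis 0 5 1 1 229 (.bis 5 6 1 1 227 (.leaf 29) (.leaf 29)) (.leaf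
  29))))) (.leaf 65)) (.leaf 25)) (.leaf 25)))) (.bis 0 7 2 1 192 (.bis 5 7 1 1 234 (.bis 3 7 2 1
  235 (.leaf 16) (.leaf 25)) (.bis 3 6 1 1 200 (.leaf 25) (.leaf 25))) (.bis 0 3 1 1 236 (.leaf
  25) (.leaf 101)))) (.bis 0 3 1 2 177 (.bis 3 6 2 1 170 (.bis 5 7 2 1 235 (.leaf 16) (.leaf 72))
  (.bis 3 7 4 1 193 (.bis 5 7 2 1 235 (.leaf 16) (.leaf 44)) (.bis 1 3 1 2 194 (.bis 2 3 1 2 195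
  (.bis 3 4 4 1 368 (.leaf 44) (.leaf 86)) (.leaf 44)) (.leaf 44)))) (.bis 0 7 2 1 192 (.bis 5 7
  2 1 235 (.leaf 16) (.leaf 72)) (.bis 0 5 1 1 236 (.leaf 72) (.leaf 16))))) (.bis 2 7 4 1 239
  (.bis 0 3 1 2 177 (.bis 3 6 2 1 170 (.leaf 16) (.bis 3 7 4 1 193 (.leaf 16) (.bis 1 3 1 2 194
  (.bis 3 5 2 1 195 (.leaf 16) (.bis 3 4 4 1 368 (.leaf 16) (.leaf 7))) (.leaf 16)))) (.bis 0 7 2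
  1 192 (.leaf 16) (.leaf 16))) (.bis 2 4 4 1 371 (.bis 0 3 1 2 177 (.bis 3 6 2 1 170 (.leaf 16)
  (.bis 1 3 1 2 194 (.bis 3 5 2 1 195 (.leaf 16) (.bis 3 4 4 1 368 (.leaf 16) (.leaf 7))) (.leaf
  16))) (.leaf 16)) (.bis 0 2 1 2 164 (.bis 2 6 2 1 140 (.bis 3 6 2 1 170 (.leaf 16) (.bis 1 3 1
  2 194 (.bis 3 5 2 1 195 (.leaf 16) (.bis 0 3 1 4 176 (.bis 2 3 1 4 173 (.leaf 7) (.leaf 7))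
  (.leaf 7))) (.leaf 16))) (.bis 1 2 1 2 240 (.bis 2 5 2 1 241 (.bis 3 5 2 1 195 (.leaf 16) (.bis
  0 3 1 4 176 (.bis 3 6 4 1 173 (.leaf 7) (.bis 1 3 1 4 242 (.leaf 7) (.leaf 7))) (.leaf 7)))
  (.bis 2 3 1 1 84 (.bis 0 3 1 4 176 (.bis 3 6 4 1 173 (.leaf 2) (.bis 1 3 1 4 242 (.leaf 7)
  (.leaf 2))) (.leaf 2)) (.leaf 2))) (.bis 1 3 1 2 194 (.bis 3 5 2 1 195 (.leaf 16) (.bis 0 3 1 4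
  176 (.bis 3 6 4 1 173 (.leaf 7) (.leaf 7)) (.leaf 7))) (.leaf 16)))) (.bis 0 3 1 2 177 (.bis 3
  6 2 1 170 (.leaf 16) (.bis 1 3 1 2 194 (.bis 3 5 2 1 195 (.leaf 16) (.bis 2 3 1 4 176 (.leaf 7)
  (.leaf 7))) (.leaf 16))) (.leaf 16)))))) (.bis 4 6 1 1 295 (.bis 2 7 4 1 239 (.bis 0 3 1 2 177
  (.bis 3 6 2 1 170 (.leaf 16) (.bis 3 7 4 1 193 (.leaf 16) (.bis 1 3 1 2 194 (.bis 3 5 4 1 368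
  (.leaf 16) (.bis 3 4 4 1 308 (.leaf 7) (.leaf 7))) (.leaf 16)))) (.bis 0 7 2 1 192 (.leaf 16)
  (.leaf 16))) (.bis 2 5 4 1 371 (.bis 0 3 1 2 177 (.bis 3 6 2 1 170 (.leaf 16) (.bis 1 3 1 2 194
  (.bis 3 5 4 1 368 (.leaf 16) (.bis 3 4 4 1 308 (.leaf 7) (.leaf 7))) (.leaf 16))) (.leaf 16))
  (.bis 0 2 1 2 164 (.bis 2 6 2 1 140 (.bis 3 6 2 1 170 (.leaf 10) (.bis 1 3 1 2 194 (.bis 0 3 1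
  4 176 (.bis 3 4 4 1 308 (.leaf 4) (.bis 2 3 1 4 173 (.leaf 7) (.leaf 4))) (.leaf 4)) (.leaf
  10))) (.bis 1 2 1 2 240 (.bis 2 3 1 1 84 (.bis 0 3 1 4 176 (.bis 3 4 4 1 308 (.leaf 2) (.bis 3
  6 4 1 173 (.leaf 2) (.leaf 7))) (.leaf 2)) (.leaf 2)) (.bis 1 3 1 2 194 (.bis 0 3 1 4 176 (.bis
  3 4 4 1 308 (.leaf 4) (.bis 3 6 4 1 173 (.leaf 4) (.leaf 7))) (.leaf 4)) (.leaf 10)))) (.bis 0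
  3 1 2 177 (.bis 3 6 2 1 170 (.leaf 10) (.bis 1 3 1 2 194 (.bis 2 3 1 4 176 (.bis 3 4 4 1 308
  (.leaf 4) (.leaf 7)) (.leaf 4)) (.leaf 10))) (.leaf 16))))) (.bis 1 4 1 1 372 (.bis 2 7 4 1 239
  (.bis 4 7 2 1 340 (.bis 0 3 1 2 177 (.bis 3 7 4 1 193 (.leaf 27) (.bis 3 5 4 1 368 (.leaf 27)
  (.bis 3 4 8 1 342 (.leaf 7) (.bis 3 6 4 1 308 (.leaf 7) (.leaf 7))))) (.bis 0 7 2 1 192 (.leaf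
  27) (.leaf 82))) (.bis 0 3 1 2 177 (.bis 3 4 2 1 310 (.bis 2 4 1 4 341 (.bis 4 5 2 1 376 (.leaf
  64) (.leaf 15)) (.leaf 64)) (.bis 3 5 4 1 368 (.leaf 64) (.bis 3 7 8 1 342 (.leaf 7) (.bis 3 6
  4 1 308 (.leaf 7) (.leaf 7))))) (.bis 0 4 1 1 496 (.bis 2 4 1 4 341 (.bis 4 5 2 1 376 (.leaf
  58) (.leaf 15)) (.leaf 58)) (.leaf 82)))) (.bis 2 5 4 1 371 (.bis 0 3 1 2 177 (.bis 3 4 2 1 310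
  (.bis 4 7 4 1 341 (.leaf 64) (.bis 4 5 2 1 376 (.leaf 64) (.leaf 15))) (.bis 3 5 4 1 368 (.leaf
  64) (.bis 3 6 4 1 308 (.leaf 7) (.bis 1 3 1 4 377 (.leaf 7) (.leaf 7))))) (.bis 0 4 1 1 496
  (.bis 4 7 4 1 341 (.leaf 58) (.bis 4 5 2 1 376 (.leaf 58) (.bis 3 4 1 2 501 (.leaf 15) (.leaf
  15)))) (.leaf 82))) (.bis 0 2 1 2 164 (.bis 2 4 2 1 299 (.bis 3 4 2 1 310 (.bis 4 7 4 1 341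
  (.leaf 4) (.leaf 15)) (.bis 0 3 1 4 176 (.bis 2 3 1 4 309 (.bis 3 6 4 1 308 (.leaf 4) (.leaf
  7)) (.leaf 4)) (.leaf 4))) (.bis 2 3 1 1 84 (.bis 0 3 1 4 176 (.bis 3 4 4 1 309 (.leaf 2) (.bis
  3 6 4 1 308 (.leaf 2) (.leaf 7))) (.leaf 2)) (.bis 2 6 4 1 296 (.leaf 2) (.leaf 2)))) (.bis 0 3
  1 2 177 (.bis 3 4 2 1 310 (.bis 4 7 4 1 341 (.leaf 4) (.bis 2 4 1 2 500 (.leaf 15) (.leaf 4)))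
  (.bis 2 3 1 4 176 (.bis 3 6 4 1 308 (.leaf 4) (.bis 1 3 1 4 377 (.leaf 7) (.leaf 4))) (.leaf
  4))) (.bis 0 4 1 1 496 (.bis 4 7 4 1 341 (.leaf 26) (.bis 2 4 1 2 500 (.bis 3 4 1 2 501 (.leaf
  15) (.leaf 15)) (.leaf 15))) (.leaf 26)))))) (.bis 2 7 4 1 239 (.bis 0 3 1 2 177 (.bis 3 7 4 1
  193 (.leaf 16) (.bis 1 3 1 2 194 (.bis 3 5 4 1 368 (.leaf 16) (.bis 3 6 4 1 308 (.leaf 7)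
  (.leaf 7))) (.leaf 16))) (.bis 0 7 2 1 192 (.leaf 16) (.leaf 16))) (.bis 2 5 4 1 371 (.bis 0 3
  1 2 177 (.bis 1 3 1 2 194 (.bis 3 5 4 1 368 (.leaf 16) (.bis 3 6 4 1 308 (.leaf 7) (.bis 3 4 4
  1 377 (.leaf 7) (.leaf 7)))) (.leaf 16)) (.leaf 16)) (.bis 0 2 1 2 164 (.bis 1 2 1 2 240 (.bis
  2 3 1 1 84 (.bis 0 3 1 4 176 (.bis 3 6 4 1 308 (.leaf 2) (.bis 3 4 4 1 377 (.leaf 2) (.leaf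
  7))) (.leaf 2)) (.bis 2 6 4 1 296 (.leaf 2) (.leaf 2))) (.bis 1 3 1 2 194 (.bis 0 3 1 4 176
  (.bis 3 6 4 1 308 (.leaf 4) (.bis 3 4 4 1 377 (.leaf 4) (.leaf 7))) (.leaf 4)) (.leaf 10)))
  (.bis 0 3 1 2 177 (.bis 1 3 1 2 194 (.bis 2 3 1 4 176 (.bis 3 6 4 1 308 (.leaf 4) (.bis 3 4 4 1
  377 (.leaf 4) (.leaf 7))) (.leaf 4)) (.leaf 10)) (.leaf 16)))))))) (.bis 1 7 4 1 245 (.bis 4 6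
  1 1 295 (.bis 2 7 4 1 239 (.bis 0 3 1 2 177 (.bis 3 6 2 1 170 (.leaf 10) (.bis 3 7 4 1 193
  (.leaf 10) (.bis 3 5 2 1 194 (.leaf 10) (.bis 1 3 1 8 248 (.bis 3 4 4 1 308 (.leaf 4) (.leaf
  7)) (.leaf 4))))) (.leaf 16)) (.bis 0 2 1 2 164 (.bis 2 6 2 1 140 (.bis 3 6 2 1 170 (.leaf 10)
  (.bis 3 5 2 1 194 (.leaf 10) (.bis 1 3 1 8 248 (.bis 0 3 1 4 176 (.bis 3 4 4 1 308 (.leaf 4)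
  (.leaf 7)) (.leaf 4)) (.leaf 4)))) (.bis 2 5 2 1 240 (.bis 3 5 2 1 194 (.leaf 10) (.bis 1 3 1 8
  248 (.bis 0 3 1 4 176 (.bis 3 4 4 1 308 (.leaf 4) (.bis 3 6 4 1 173 (.leaf 4) (.leaf 7)))
  (.leaf 4)) (.leaf 4))) (.bis 2 3 1 1 84 (.bis 1 3 1 8 248 (.bis 0 3 1 4 176 (.bis 3 4 4 1 308
  (.leaf 2) (.bis 3 6 4 1 173 (.leaf 2) (.leaf 7))) (.leaf 2)) (.leaf 2)) (.leaf 2)))) (.bis 0 3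
  1 2 177 (.bis 3 6 2 1 170 (.leaf 10) (.bis 3 5 2 1 194 (.leaf 10) (.bis 1 3 1 8 248 (.bis 2 3 1
  4 176 (.leaf 7) (.leaf 4)) (.leaf 4)))) (.leaf 16)))) (.bis 4 5 1 1 372 (.bis 2 7 4 1 239 (.bis
  0 3 1 2 177 (.bis 3 7 4 1 193 (.leaf 10) (.bis 3 5 2 1 194 (.leaf 10) (.bis 1 3 1 8 248 (.bis 3
  6 4 1 308 (.leaf 4) (.leaf 7)) (.leaf 4)))) (.bis 0 7 2 1 192 (.leaf 10) (.leaf 16))) (.bis 0 2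
  1 2 164 (.bis 2 5 2 1 240 (.bis 3 5 2 1 194 (.leaf 10) (.bis 1 3 1 8 248 (.bis 0 3 1 4 176
  (.bis 3 6 4 1 308 (.leaf 4) (.bis 3 4 4 1 377 (.leaf 4) (.leaf 7))) (.leaf 4)) (.leaf 4)))
  (.bis 2 3 1 1 84 (.bis 1 3 1 8 248 (.bis 0 3 1 4 176 (.bis 3 6 4 1 308 (.leaf 2) (.leaf 7))
  (.leaf 2)) (.leaf 2)) (.bis 2 6 4 1 296 (.leaf 2) (.leaf 2)))) (.bis 0 3 1 2 177 (.bis 3 5 2 1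
  194 (.leaf 10) (.bis 1 3 1 8 248 (.bis 2 3 1 4 176 (.bis 3 6 4 1 308 (.leaf 4) (.leaf 7))
  (.leaf 4)) (.leaf 4))) (.leaf 16)))) (.bis 2 7 4 1 239 (.bis 4 7 2 1 340 (.bis 0 3 1 2 177
  (.bis 3 7 4 1 193 (.leaf 10) (.bis 1 3 1 8 248 (.bis 3 4 8 1 342 (.leaf 4) (.bis 3 6 4 1 308
  (.leaf 4) (.leaf 7))) (.leaf 4))) (.bis 0 7 2 1 192 (.leaf 10) (.leaf 26))) (.bis 0 3 1 2 177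
  (.bis 3 4 2 1 310 (.bis 2 4 1 4 341 (.bis 1 4 1 4 379 (.bis 0 4 1 2 501 (.leaf 15) (.leaf 4))
  (.leaf 4)) (.leaf 4)) (.bis 1 3 1 8 248 (.bis 3 7 8 1 342 (.leaf 4) (.bis 3 6 4 1 308 (.leaf 4)
  (.leaf 7))) (.leaf 4))) (.bis 0 4 1 1 496 (.bis 2 4 1 4 341 (.bis 1 4 1 4 379 (.leaf 15) (.leaf
  15)) (.leaf 26)) (.leaf 26)))) (.bis 0 2 1 2 164 (.bis 2 4 2 1 299 (.bis 3 4 2 1 310 (.bis 4 7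
  4 1 341 (.leaf 4) (.leaf 15)) (.bis 1 3 1 8 248 (.bis 0 3 1 4 176 (.bis 2 3 1 4 309 (.bis 3 6 4
  1 308 (.leaf 4) (.leaf 7)) (.leaf 4)) (.leaf 4)) (.leaf 4))) (.bis 2 3 1 1 84 (.bis 1 3 1 8 248
  (.bis 0 3 1 4 176 (.bis 3 4 4 1 309 (.leaf 2) (.leaf 7)) (.leaf 2)) (.leaf 2)) (.bis 2 6 4 1
  296 (.leaf 2) (.leaf 2)))) (.bis 0 3 1 2 177 (.bis 3 4 2 1 310 (.bis 4 7 4 1 341 (.leaf 4)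
  (.bis 2 4 1 2 500 (.leaf 15) (.leaf 4))) (.bis 1 3 1 8 248 (.bis 2 3 1 4 176 (.bis 3 6 4 1 308
  (.leaf 4) (.leaf 7)) (.leaf 4)) (.leaf 4))) (.bis 0 4 1 1 496 (.bis 4 7 4 1 341 (.leaf 26)
  (.bis 2 4 1 2 500 (.bis 1 4 1 4 379 (.leaf 15) (.leaf 15)) (.leaf 15))) (.leaf 26))))))) (.bis
  4 6 1 1 295 (.bis 1 3 1 1 77 (.bis 0 2 1 2 164 (.bis 2 6 2 1 140 (.bis 3 6 2 1 170 (.leaf 21)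
  (.bis 3 5 2 1 194 (.leaf 21) (.bis 3 7 8 1 248 (.leaf 4) (.bis 0 3 1 4 176 (.leaf 7) (.leaf
  4))))) (.bis 2 5 2 1 240 (.bis 3 5 2 1 194 (.leaf 21) (.bis 3 7 8 1 248 (.leaf 4) (.bis 0 3 1 4
  176 (.bis 3 4 4 1 308 (.leaf 4) (.leaf 7)) (.leaf 4)))) (.bis 2 3 1 1 84 (.bis 3 7 8 1 248
  (.leaf 2) (.bis 0 3 1 4 176 (.bis 3 4 4 1 308 (.leaf 2) (.leaf 7)) (.leaf 2))) (.leaf 2))))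
  (.bis 0 3 1 2 177 (.bis 3 6 2 1 170 (.leaf 21) (.bis 3 5 2 1 194 (.leaf 21) (.bis 3 7 8 1 248
  (.leaf 4) (.bis 2 3 1 4 176 (.leaf 7) (.leaf 4))))) (.bis 0 1 1 1 179 (.leaf 21) (.leaf 16))))
  (.bis 0 1 1 2 163 (.bis 1 6 2 1 137 (.bis 2 6 2 1 140 (.leaf 21) (.bis 2 5 2 1 240 (.leaf 21)
  (.bis 2 4 4 1 296 (.leaf 2) (.leaf 2)))) (.bis 1 5 2 1 246 (.bis 2 5 2 1 240 (.leaf 21) (.bis 2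
  4 4 1 296 (.leaf 2) (.bis 0 2 1 4 175 (.leaf 2) (.leaf 2)))) (.bis 1 4 4 1 297 (.bis 2 4 4 1
  296 (.leaf 2) (.bis 0 2 1 4 175 (.bis 2 7 8 1 247 (.leaf 2) (.leaf 2)) (.leaf 2))) (.bis 1 2 1
  1 47 (.bis 0 2 1 4 175 (.leaf 2) (.leaf 2)) (.leaf 24))))) (.bis 0 2 1 2 164 (.bis 2 6 2 1 140
  (.leaf 21) (.bis 2 5 2 1 240 (.leaf 21) (.bis 2 4 4 1 296 (.leaf 2) (.leaf 2)))) (.bis 0 3 1 1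
  179 (.leaf 21) (.leaf 16))))) (.bis 1 3 1 1 77 (.bis 4 5 1 1 372 (.bis 0 2 1 2 164 (.bis 2 5 2
  1 240 (.bis 3 5 2 1 194 (.leaf 21) (.bis 3 7 8 1 248 (.leaf 4) (.bis 0 3 1 4 176 (.bis 3 6 4 1
  308 (.leaf 4) (.leaf 7)) (.leaf 4)))) (.bis 2 3 1 1 84 (.bis 3 7 8 1 248 (.leaf 2) (.bis 0 3 1
  4 176 (.bis 3 6 4 1 308 (.leaf 2) (.leaf 7)) (.leaf 2))) (.leaf 2))) (.bis 0 3 1 2 177 (.bis 3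
  5 2 1 194 (.leaf 21) (.bis 3 7 8 1 248 (.leaf 4) (.bis 2 3 1 4 176 (.leaf 7) (.leaf 4))))
  (.leaf 82))) (.bis 0 2 1 2 164 (.bis 2 4 2 1 299 (.bis 3 4 2 1 310 (.bis 0 4 1 2 500 (.leaf 15)
  (.leaf 4)) (.bis 3 7 8 1 248 (.leaf 4) (.bis 0 3 1 4 176 (.bis 2 3 1 4 309 (.leaf 7) (.leaf 4))
  (.leaf 4)))) (.bis 2 3 1 1 84 (.bis 3 7 8 1 248 (.leaf 2) (.bis 0 3 1 4 176 (.bis 3 4 4 1 309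
  (.leaf 2) (.leaf 7)) (.leaf 2))) (.leaf 2))) (.bis 0 3 1 2 177 (.bis 3 4 2 1 310 (.bis 2 4 1 2
  500 (.bis 4 7 4 1 379 (.leaf 4) (.leaf 15)) (.leaf 4)) (.bis 3 7 8 1 248 (.leaf 4) (.bis 2 3 1
  4 176 (.bis 3 6 4 1 308 (.leaf 4) (.leaf 7)) (.leaf 4)))) (.bis 0 4 1 1 496 (.bis 2 4 1 2 500
  (.bis 4 7 4 1 379 (.leaf 15) (.leaf 15)) (.leaf 15)) (.leaf 26))))) (.bis 4 5 1 1 372 (.bis 0 1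
  1 2 163 (.bis 1 5 2 1 246 (.bis 2 5 2 1 240 (.leaf 21) (.bis 2 6 4 1 296 (.leaf 2) (.bis 2 4 4
  1 378 (.leaf 2) (.leaf 2)))) (.bis 1 4 4 1 380 (.bis 2 6 4 1 296 (.leaf 2) (.bis 2 4 4 1 378
  (.leaf 2) (.bis 0 2 1 4 175 (.leaf 2) (.leaf 2)))) (.bis 1 6 4 1 297 (.bis 2 6 4 1 296 (.leaf
  2) (.bis 0 2 1 4 175 (.leaf 2) (.leaf 2))) (.bis 1 2 1 1 47 (.bis 0 2 1 4 175 (.leaf 2) (.leaf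
  2)) (.leaf 24))))) (.bis 0 2 1 2 164 (.bis 2 5 2 1 240 (.leaf 21) (.bis 2 6 4 1 296 (.leaf 2)
  (.bis 2 4 4 1 378 (.leaf 2) (.leaf 2)))) (.leaf 82))) (.bis 0 1 1 2 163 (.bis 1 4 2 1 294 (.bis
  2 4 2 1 299 (.bis 0 4 1 2 495 (.leaf 15) (.leaf 11)) (.bis 2 6 4 1 296 (.leaf 2) (.bis 2 5 4 1
  378 (.leaf 2) (.leaf 2)))) (.bis 1 5 4 1 380 (.bis 2 6 4 1 296 (.leaf 2) (.bis 2 5 4 1 378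
  (.leaf 2) (.bis 0 2 1 4 175 (.leaf 2) (.leaf 2)))) (.bis 1 6 4 1 297 (.bis 2 6 4 1 296 (.leaf
  2) (.bis 0 2 1 4 175 (.leaf 2) (.leaf 2))) (.bis 1 2 1 1 47 (.bis 0 2 1 4 175 (.leaf 2) (.leaf
  2)) (.leaf 24))))) (.bis 0 2 1 2 164 (.bis 2 4 2 1 299 (.bis 1 4 1 2 495 (.bis 0 4 1 2 500
  (.leaf 15) (.leaf 4)) (.leaf 11)) (.bis 2 6 4 1 296 (.leaf 2) (.bis 2 5 4 1 378 (.leaf 2)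
  (.leaf 2)))) (.bis 0 4 1 1 496 (.bis 1 4 1 2 495 (.bis 2 4 1 2 500 (.leaf 15) (.leaf 11))
  (.leaf 11)) (.leaf 26)))))))))

def lc17 : List Vr := [⟨[60,0,0,0,0,85,0,0], 90050, 0⟩, ⟨[0,24,0,0,0,0,0,0], 13824, 0⟩, ⟨[0,0,27,
  0,0,0,0,0], 14580, 0⟩, ⟨[0,0,0,30,0,0,0,0], 14400, 0⟩, ⟨[60,0,0,0,85,0,0,0], 90050, 0⟩, ⟨[0,0,0,
  0,0,85,0,0], 14450, 0⟩, ⟨[0,0,0,0,0,85,42,0], 85682, 0⟩, ⟨[0,0,0,0,85,170,0,121], 434690, 0⟩]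

theorem lk17 : chkTr lowT (leafLow 4 lowB) lt17 lc17 = true := by decide +kernel

def lt18 : Tr ℕ := (.bis 0 7 2 1 86 (.bis 3 6 1 1 59 (.bis 5 7 1 1 128 (.bis 4 6 1 2 276 (.bis 6
  7 2 1 16 (.bis 2 7 2 1 53 (.bis 1 7 2 1 35 (.bis 3 7 1 1 66 (.bis 4 7 1 2 278 (.leaf 19) (.leaf
  3)) (.bis 0 3 1 2 93 (.leaf 3) (.leaf 3))) (.bis 1 6 4 1 27 (.bis 0 3 1 2 93 (.leaf 3) (.leaf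
  3)) (.bis 1 5 8 1 138 (.leaf 3) (.bis 1 2 4 1 55 (.leaf 3) (.leaf 9))))) (.bis 2 6 4 1 42 (.bis
  1 6 4 1 27 (.leaf 3) (.bis 1 5 8 1 138 (.leaf 3) (.bis 1 7 4 1 55 (.leaf 3) (.leaf 9)))) (.bis
  0 2 1 4 89 (.bis 1 5 8 1 138 (.bis 2 5 4 1 141 (.leaf 3) (.bis 2 4 4 1 285 (.leaf 3) (.leaf
  2))) (.bis 1 7 4 1 55 (.bis 2 4 4 1 285 (.leaf 3) (.bis 2 7 4 1 56 (.leaf 2) (.leaf 2))) (.bis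
  2 4 4 1 285 (.leaf 6) (.leaf 6)))) (.bis 1 5 8 1 138 (.leaf 3) (.bis 1 7 4 1 55 (.leaf 3)
  (.leaf 9)))))) (.bis 2 6 1 1 39 (.bis 5 6 1 4 143 (.bis 0 6 1 4 88 (.bis 1 6 1 1 26 (.leaf 39)
  (.bis 1 7 4 1 27 (.leaf 3) (.leaf 9))) (.bis 1 7 4 1 27 (.leaf 3) (.bis 0 1 1 4 87 (.leaf 9)
  (.leaf 3)))) (.bis 1 7 4 1 27 (.leaf 3) (.bis 1 5 8 1 138 (.leaf 3) (.bis 0 1 1 4 87 (.leaf 9)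
  (.leaf 3))))) (.bis 2 7 4 1 42 (.bis 1 7 4 1 27 (.leaf 3) (.bis 1 5 8 1 138 (.leaf 3) (.bis 0 1
  1 4 87 (.leaf 6) (.leaf 3)))) (.bis 0 2 1 4 89 (.bis 1 5 8 1 138 (.bis 2 5 4 1 141 (.leaf 3)
  (.bis 2 4 4 1 285 (.leaf 3) (.leaf 6))) (.bis 2 4 4 1 285 (.leaf 6) (.leaf 6))) (.bis 1 5 8 1
  138 (.leaf 3) (.leaf 9)))))) (.bis 2 7 2 1 53 (.bis 1 7 2 1 35 (.bis 4 7 1 1 287 (.bis 3 7 1 1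
  66 (.bis 6 7 1 2 278 (.leaf 19) (.leaf 22)) (.bis 3 4 2 1 301 (.leaf 22) (.bis 0 3 1 2 93
  (.leaf 3) (.leaf 3)))) (.bis 3 4 1 1 289 (.bis 1 4 1 2 291 (.bis 2 4 1 2 292 (.leaf 57) (.leaf
  22)) (.leaf 22)) (.bis 3 7 2 1 301 (.leaf 22) (.leaf 22)))) (.bis 1 4 2 1 294 (.bis 3 4 1 1 289
  (.bis 4 7 2 1 291 (.leaf 22) (.bis 2 4 1 2 292 (.leaf 57) (.leaf 22))) (.leaf 22)) (.bis 1 5 8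
  1 138 (.leaf 22) (.bis 1 2 4 1 55 (.leaf 22) (.leaf 89))))) (.bis 1 4 2 1 294 (.bis 2 4 2 1 299
  (.bis 3 4 1 1 289 (.leaf 57) (.leaf 22)) (.bis 0 2 1 4 89 (.bis 2 5 4 1 141 (.leaf 22) (.bis 2
  6 4 1 285 (.leaf 22) (.leaf 2))) (.leaf 22))) (.bis 0 2 1 4 89 (.bis 1 5 8 1 138 (.bis 2 5 4 1
  141 (.leaf 5) (.bis 2 6 4 1 285 (.leaf 5) (.bis 2 7 4 1 56 (.leaf 2) (.leaf 2)))) (.bis 1 7 4 1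
  55 (.bis 2 6 4 1 285 (.leaf 5) (.bis 2 7 4 1 56 (.leaf 2) (.leaf 2))) (.bis 2 6 4 1 285 (.leaf
  6) (.bis 1 2 1 1 47 (.leaf 2) (.leaf 6))))) (.bis 1 5 8 1 138 (.leaf 22) (.bis 1 7 4 1 55
  (.leaf 22) (.leaf 70))))))) (.bis 4 6 1 2 276 (.bis 5 6 1 2 154 (.bis 2 6 1 1 39 (.bis 6 7 4 1
  143 (.bis 1 7 8 1 138 (.leaf 3) (.bis 0 1 1 4 87 (.leaf 9) (.leaf 3))) (.bis 0 6 1 4 88 (.bis 1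
  6 1 1 26 (.bis 4 6 1 4 502 (.leaf 39) (.leaf 3)) (.bis 1 7 8 1 503 (.leaf 3) (.leaf 9))) (.bis
  0 1 1 4 87 (.bis 1 7 8 1 503 (.leaf 3) (.leaf 9)) (.leaf 3)))) (.bis 0 2 1 4 89 (.bis 1 7 8 1
  138 (.bis 2 7 4 1 141 (.leaf 3) (.bis 2 4 4 1 285 (.leaf 3) (.leaf 6))) (.bis 2 4 4 1 285
  (.leaf 6) (.bis 2 5 4 1 157 (.leaf 6) (.leaf 6)))) (.bis 1 7 8 1 138 (.leaf 3) (.bis 0 1 1 4 87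
  (.leaf 6) (.leaf 3))))) (.bis 1 5 2 1 163 (.bis 2 5 2 1 164 (.bis 0 5 1 2 260 (.bis 3 5 1 1 160
  (.bis 4 5 1 2 504 (.leaf 26) (.leaf 11)) (.leaf 11)) (.leaf 11)) (.bis 0 2 1 4 89 (.bis 2 7 4 1
  141 (.leaf 11) (.bis 2 4 4 1 285 (.leaf 6) (.leaf 6))) (.leaf 11))) (.bis 0 2 1 4 89 (.bis 1 7
  8 1 138 (.bis 2 7 4 1 141 (.leaf 5) (.bis 2 4 4 1 285 (.leaf 5) (.bis 2 6 4 1 157 (.leaf 5)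
  (.leaf 2)))) (.bis 2 4 4 1 285 (.leaf 6) (.bis 2 6 4 1 157 (.leaf 6) (.leaf 6)))) (.bis 1 7 8 1
  138 (.leaf 9) (.leaf 9))))) (.bis 1 4 2 1 294 (.bis 2 4 2 1 299 (.bis 0 5 1 2 260 (.bis 4 5 1 1
  496 (.bis 3 5 1 1 160 (.bis 5 6 2 1 504 (.leaf 11) (.bis 1 5 1 2 505 (.bis 2 5 1 2 506 (.leaf
  26) (.leaf 11)) (.leaf 11))) (.bis 3 4 2 1 497 (.leaf 11) (.leaf 11))) (.bis 3 4 1 1 289 (.leaf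
  15) (.bis 3 5 2 1 497 (.leaf 11) (.leaf 11)))) (.bis 3 4 1 1 289 (.leaf 57) (.bis 0 3 1 2 93
  (.leaf 11) (.leaf 11)))) (.bis 2 5 2 1 164 (.bis 0 5 1 2 260 (.bis 3 5 1 1 160 (.bis 5 6 2 1
  504 (.leaf 11) (.leaf 26)) (.leaf 11)) (.bis 0 2 1 1 261 (.leaf 11) (.bis 0 3 1 2 93 (.leaf 11)
  (.leaf 11)))) (.bis 0 2 1 4 89 (.bis 2 7 4 1 141 (.leaf 11) (.leaf 6)) (.bis 0 5 1 1 261 (.leaf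
  11) (.bis 0 3 1 2 93 (.leaf 11) (.leaf 11)))))) (.bis 1 5 2 1 163 (.bis 2 5 2 1 164 (.bis 0 5 1
  2 260 (.bis 3 5 1 1 160 (.bis 5 6 2 1 504 (.leaf 11) (.bis 4 5 1 2 505 (.bis 5 7 2 1 165 (.leaf
  10) (.leaf 26)) (.leaf 11))) (.leaf 11)) (.bis 0 2 1 1 261 (.leaf 11) (.bis 0 3 1 2 93 (.leaf
  5) (.leaf 11)))) (.bis 0 2 1 4 89 (.bis 2 7 4 1 141 (.leaf 11) (.bis 2 6 4 1 285 (.leaf 6)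
  (.leaf 2))) (.leaf 11))) (.bis 0 2 1 4 89 (.bis 1 7 8 1 138 (.bis 2 7 4 1 141 (.leaf 5) (.bis 2
  6 4 1 285 (.leaf 5) (.leaf 2))) (.bis 2 6 4 1 285 (.leaf 6) (.bis 1 2 1 1 47 (.leaf 2) (.leaf
  6)))) (.bis 1 7 8 1 138 (.leaf 11) (.leaf 70))))))) (.bis 5 7 1 1 128 (.bis 3 7 2 1 69 (.bis 2
  7 2 1 53 (.bis 1 7 2 1 35 (.bis 4 7 1 1 287 (.bis 6 7 1 1 66 (.leaf 19) (.bis 4 6 1 2 301 (.bis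
  0 6 1 2 93 (.bis 5 6 1 2 133 (.leaf 5) (.leaf 5)) (.leaf 19)) (.leaf 19))) (.bis 4 6 1 1 289
  (.bis 6 7 2 1 301 (.leaf 22) (.bis 0 6 1 2 93 (.leaf 5) (.leaf 22))) (.bis 1 4 1 2 291 (.bis 2
  4 1 2 292 (.bis 3 4 1 2 302 (.leaf 57) (.leaf 22)) (.leaf 22)) (.leaf 22)))) (.bis 1 4 2 1 294
  (.bis 4 6 1 1 289 (.bis 0 6 1 2 93 (.leaf 5) (.leaf 22)) (.bis 4 7 2 1 291 (.leaf 22) (.bis 2 4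
  1 2 292 (.leaf 57) (.leaf 22)))) (.bis 1 3 4 1 71 (.bis 0 6 1 2 93 (.bis 3 4 1 1 305 (.leaf 5)
  (.leaf 5)) (.bis 3 4 1 1 305 (.leaf 22) (.leaf 19))) (.bis 1 5 8 1 138 (.bis 0 6 1 2 93 (.leaf
  5) (.leaf 22)) (.bis 1 2 4 1 55 (.leaf 22) (.leaf 89)))))) (.bis 1 4 2 1 294 (.bis 2 4 2 1 299
  (.bis 4 6 1 1 289 (.bis 0 6 1 2 93 (.leaf 22) (.leaf 22)) (.bis 4 7 2 1 292 (.leaf 22) (.bis 3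
  4 1 2 302 (.leaf 57) (.leaf 22)))) (.bis 0 2 1 4 89 (.bis 2 3 4 1 72 (.leaf 22) (.bis 2 5 4 1
  141 (.leaf 2) (.leaf 2))) (.bis 0 6 1 2 93 (.leaf 22) (.leaf 22)))) (.bis 1 3 4 1 71 (.bis 0 2
  1 4 89 (.bis 2 3 4 1 72 (.leaf 5) (.bis 2 5 4 1 141 (.leaf 2) (.bis 2 7 4 1 56 (.leaf 2) (.leaf
  2)))) (.bis 0 6 1 2 93 (.leaf 5) (.leaf 22))) (.bis 0 2 1 4 89 (.bis 1 5 8 1 138 (.bis 2 5 4 1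
  141 (.leaf 2) (.bis 2 7 4 1 56 (.leaf 2) (.leaf 2))) (.bis 1 7 4 1 55 (.bis 2 7 4 1 56 (.leaf
  2) (.bis 2 4 4 1 304 (.leaf 2) (.leaf 2))) (.bis 1 2 1 1 47 (.leaf 2) (.leaf 6)))) (.bis 1 5 8
  1 138 (.leaf 22) (.bis 1 7 4 1 55 (.leaf 22) (.leaf 70))))))) (.bis 0 3 1 4 97 (.bis 1 3 1 1 77
  (.bis 2 4 2 1 299 (.bis 3 4 2 1 310 (.bis 4 6 1 1 289 (.leaf 4) (.bis 4 7 2 1 302 (.leaf 4)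
  (.leaf 15))) (.bis 3 5 4 1 171 (.leaf 4) (.bis 2 3 1 4 309 (.bis 3 7 4 1 81 (.leaf 4) (.leaf
  36)) (.leaf 4)))) (.bis 3 5 4 1 171 (.bis 2 7 4 1 72 (.leaf 4) (.bis 2 5 4 1 141 (.leaf 2)
  (.leaf 2))) (.bis 2 7 4 1 72 (.bis 3 4 4 1 309 (.leaf 4) (.bis 3 7 4 1 81 (.leaf 4) (.bis 3 6 2
  1 83 (.leaf 4) (.leaf 7)))) (.bis 2 3 1 1 84 (.bis 3 4 4 1 309 (.leaf 2) (.leaf 36)) (.leaf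
  2))))) (.bis 1 4 2 1 294 (.bis 2 4 2 1 299 (.bis 4 6 1 1 289 (.leaf 22) (.bis 4 7 2 1 302
  (.leaf 22) (.leaf 15))) (.bis 2 7 4 1 72 (.leaf 22) (.bis 2 5 4 1 141 (.leaf 2) (.leaf 2))))
  (.bis 1 7 4 1 71 (.bis 2 7 4 1 72 (.leaf 5) (.bis 2 5 4 1 141 (.leaf 2) (.bis 2 4 4 1 304
  (.leaf 2) (.leaf 2)))) (.bis 1 5 8 1 138 (.bis 2 5 4 1 141 (.leaf 2) (.bis 2 4 4 1 304 (.leaf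
  2) (.leaf 2))) (.bis 0 1 1 8 98 (.bis 1 2 1 1 47 (.bis 2 4 4 1 304 (.leaf 2) (.leaf 2)) (.leaf
  6)) (.bis 2 4 4 1 304 (.leaf 2) (.bis 2 6 2 1 99 (.leaf 2) (.leaf 2)))))))) (.bis 1 4 2 1 294
  (.bis 2 4 2 1 299 (.bis 4 6 1 1 289 (.bis 0 6 1 2 93 (.leaf 22) (.leaf 22)) (.bis 4 7 2 1 302
  (.leaf 22) (.leaf 57))) (.bis 0 2 1 4 89 (.bis 2 7 4 1 72 (.leaf 22) (.bis 2 5 4 1 141 (.leaf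
  2) (.leaf 2))) (.bis 0 6 1 2 93 (.leaf 22) (.leaf 22)))) (.bis 1 7 4 1 71 (.bis 0 2 1 4 89
  (.bis 2 7 4 1 72 (.leaf 5) (.bis 2 5 4 1 141 (.leaf 2) (.bis 2 4 4 1 304 (.leaf 2) (.leaf 2))))
  (.leaf 22)) (.bis 0 2 1 4 89 (.bis 1 5 8 1 138 (.bis 2 5 4 1 141 (.leaf 2) (.bis 2 4 4 1 304
  (.leaf 2) (.leaf 2))) (.bis 1 3 8 1 98 (.bis 2 4 4 1 304 (.leaf 2) (.bis 2 6 2 1 99 (.leaf 2)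
  (.leaf 2))) (.bis 1 2 1 1 47 (.bis 2 4 4 1 304 (.leaf 2) (.leaf 2)) (.leaf 6)))) (.bis 1 5 8 1
  138 (.leaf 11) (.bis 0 1 1 4 87 (.leaf 6) (.leaf 11)))))))) (.bis 0 3 1 4 97 (.bis 1 3 1 1 77
  (.bis 2 4 2 1 299 (.bis 3 4 2 1 310 (.bis 4 5 1 1 496 (.bis 5 6 1 1 160 (.leaf 61) (.bis 2 5 1
  2 506 (.bis 3 5 1 2 507 (.leaf 26) (.leaf 15)) (.leaf 15))) (.bis 4 6 1 1 289 (.leaf 61) (.leaf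
  15))) (.bis 3 5 2 1 177 (.bis 5 6 1 1 160 (.leaf 4) (.bis 2 5 1 2 506 (.bis 4 5 1 2 507 (.leaf
  26) (.leaf 4)) (.leaf 4))) (.bis 3 7 4 1 171 (.leaf 4) (.bis 2 3 1 4 309 (.bis 3 6 2 1 83
  (.leaf 4) (.leaf 7)) (.leaf 4))))) (.bis 2 5 2 1 164 (.bis 3 5 2 1 177 (.bis 5 6 1 1 160 (.leaf
  4) (.bis 4 5 1 2 506 (.leaf 26) (.leaf 4))) (.bis 3 7 4 1 171 (.leaf 4) (.bis 2 3 1 4 176 (.bis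
  3 4 4 1 309 (.leaf 4) (.leaf 36)) (.leaf 4)))) (.bis 3 7 4 1 171 (.bis 2 7 4 1 141 (.leaf 2)
  (.leaf 2)) (.bis 2 3 1 1 84 (.bis 3 4 4 1 309 (.leaf 2) (.bis 3 5 4 1 176 (.leaf 2) (.leaf
  36))) (.leaf 2))))) (.bis 1 4 2 1 294 (.bis 2 4 2 1 299 (.bis 4 5 1 1 496 (.bis 5 6 1 1 160
  (.leaf 11) (.bis 1 5 1 2 505 (.bis 2 5 1 2 506 (.leaf 26) (.leaf 11)) (.leaf 11))) (.bis 4 6 1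
  1 289 (.leaf 11) (.leaf 15))) (.bis 2 5 2 1 164 (.bis 5 6 1 1 160 (.leaf 2) (.bis 1 5 1 2 505
  (.bis 4 5 1 2 506 (.leaf 26) (.leaf 4)) (.leaf 11))) (.bis 2 7 4 1 141 (.leaf 2) (.leaf 2))))
  (.bis 1 5 2 1 163 (.bis 2 5 2 1 164 (.bis 5 6 1 1 160 (.leaf 2) (.bis 4 5 1 2 505 (.leaf 26)
  (.leaf 11))) (.bis 2 7 4 1 141 (.leaf 2) (.leaf 2))) (.bis 1 7 8 1 138 (.bis 2 7 4 1 141 (.leaf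
  2) (.bis 2 4 4 1 304 (.leaf 2) (.leaf 2))) (.bis 0 1 1 8 98 (.bis 1 2 1 1 47 (.leaf 2) (.leaf
  6)) (.bis 2 4 4 1 304 (.leaf 2) (.bis 2 5 4 1 175 (.leaf 2) (.leaf 2)))))))) (.bis 1 4 2 1 294
  (.bis 2 4 2 1 299 (.bis 0 5 1 2 260 (.bis 4 5 1 1 496 (.bis 5 6 1 1 160 (.bis 4 6 1 2 497
  (.leaf 11) (.leaf 11)) (.bis 1 5 1 2 505 (.bis 2 5 1 2 506 (.leaf 26) (.leaf 11)) (.leaf 11)))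
  (.bis 4 6 1 1 289 (.bis 5 6 1 2 497 (.leaf 11) (.leaf 11)) (.leaf 15))) (.bis 4 6 1 1 289 (.bis
  0 6 1 2 93 (.leaf 11) (.leaf 11)) (.leaf 57))) (.bis 2 5 2 1 164 (.bis 0 5 1 2 260 (.bis 5 6 1
  1 160 (.leaf 11) (.bis 1 5 1 2 505 (.leaf 26) (.leaf 11))) (.bis 0 2 1 1 261 (.bis 5 6 1 4 262
  (.leaf 2) (.leaf 11)) (.bis 0 6 1 2 93 (.leaf 11) (.leaf 11)))) (.bis 0 2 1 4 89 (.bis 2 7 4 1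
  141 (.leaf 2) (.leaf 2)) (.bis 0 5 1 1 261 (.leaf 2) (.bis 0 6 1 2 93 (.leaf 2) (.leaf 11))))))
  (.bis 1 5 2 1 163 (.bis 2 5 2 1 164 (.bis 0 5 1 2 260 (.bis 5 6 1 1 160 (.leaf 11) (.leaf 26))
  (.bis 0 2 1 1 261 (.bis 5 6 1 4 262 (.leaf 2) (.leaf 11)) (.bis 0 6 1 2 93 (.leaf 5) (.leaf
  11)))) (.bis 0 2 1 4 89 (.bis 2 7 4 1 141 (.leaf 2) (.bis 1 2 1 4 175 (.leaf 2) (.leaf 2)))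
  (.leaf 11))) (.bis 0 2 1 4 89 (.bis 1 7 8 1 138 (.bis 2 7 4 1 141 (.leaf 2) (.bis 2 4 4 1 304
  (.leaf 2) (.leaf 2))) (.bis 1 3 8 1 98 (.bis 2 4 4 1 304 (.leaf 2) (.bis 2 5 4 1 175 (.leaf 2)
  (.leaf 2))) (.bis 1 2 1 1 47 (.leaf 2) (.leaf 6)))) (.bis 1 7 8 1 138 (.leaf 11) (.leaf
  70)))))))) (.bis 0 3 1 1 109 (.bis 3 6 1 1 59 (.bis 4 6 1 2 276 (.bis 5 6 1 2 154 (.bis 0 6 1 2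
  110 (.bis 2 6 1 1 39 (.bis 6 7 4 1 88 (.bis 1 7 4 1 87 (.leaf 3) (.leaf 9)) (.bis 1 6 1 1 26
  (.bis 4 6 1 4 502 (.leaf 39) (.leaf 3)) (.leaf 9))) (.bis 2 7 4 1 89 (.bis 1 7 4 1 87 (.leaf 3)
  (.leaf 6)) (.bis 2 4 4 1 285 (.leaf 6) (.bis 2 5 4 1 157 (.leaf 6) (.leaf 6))))) (.bis 2 7 4 1
  89 (.bis 1 7 4 1 87 (.leaf 11) (.leaf 6)) (.bis 2 4 4 1 285 (.leaf 6) (.bis 2 5 4 1 157 (.leaf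
  6) (.leaf 6))))) (.bis 1 5 2 1 163 (.bis 2 5 2 1 164 (.bis 5 7 2 1 260 (.bis 2 7 1 1 261 (.leaf
  11) (.leaf 6)) (.bis 3 5 1 1 160 (.bis 4 5 1 2 504 (.leaf 26) (.leaf 6)) (.leaf 6))) (.bis 2 7
  4 1 89 (.bis 5 7 1 1 261 (.leaf 11) (.leaf 6)) (.bis 2 4 4 1 285 (.leaf 6) (.bis 2 6 4 1 157
  (.leaf 6) (.leaf 6))))) (.bis 2 7 4 1 89 (.bis 1 7 4 1 87 (.leaf 11) (.leaf 6)) (.bis 2 4 4 1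
  285 (.leaf 6) (.bis 2 6 4 1 157 (.leaf 6) (.leaf 6)))))) (.bis 1 4 2 1 294 (.bis 2 4 2 1 299
  (.bis 5 7 2 1 260 (.bis 3 4 1 1 289 (.leaf 76) (.bis 3 7 2 1 93 (.leaf 11) (.leaf 6))) (.bis 4
  5 1 1 496 (.bis 3 5 1 1 160 (.bis 5 6 2 1 504 (.leaf 11) (.bis 1 5 1 2 505 (.leaf 26) (.leaf
  11))) (.bis 3 4 2 1 497 (.leaf 11) (.leaf 6))) (.bis 3 4 1 1 289 (.leaf 15) (.bis 3 5 2 1 497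
  (.leaf 11) (.leaf 6))))) (.bis 2 5 2 1 164 (.bis 5 7 2 1 260 (.bis 2 7 1 1 261 (.bis 3 7 2 1 93
  (.leaf 11) (.leaf 6)) (.bis 2 6 1 1 508 (.leaf 6) (.bis 0 3 1 1 509 (.leaf 6) (.leaf 6))))
  (.bis 3 5 1 1 160 (.bis 5 6 2 1 504 (.leaf 6) (.leaf 26)) (.leaf 6))) (.bis 2 7 4 1 89 (.leaf
  11) (.bis 2 6 4 1 285 (.leaf 6) (.leaf 6))))) (.bis 1 5 2 1 163 (.bis 2 5 2 1 164 (.bis 5 7 2 1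
  260 (.bis 2 7 1 1 261 (.bis 3 7 2 1 93 (.leaf 11) (.leaf 6)) (.bis 2 6 1 1 508 (.leaf 6) (.bis
  0 3 1 1 509 (.leaf 6) (.leaf 6)))) (.bis 3 5 1 1 160 (.bis 5 6 2 1 504 (.leaf 6) (.leaf 26))
  (.leaf 6))) (.bis 2 7 4 1 89 (.leaf 11) (.bis 2 6 4 1 285 (.leaf 6) (.leaf 6)))) (.bis 2 7 4 1
  89 (.leaf 70) (.bis 2 6 4 1 285 (.leaf 6) (.bis 0 2 1 2 115 (.leaf 6) (.leaf 6))))))) (.bis 3 7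
  4 1 97 (.bis 1 4 2 1 294 (.bis 2 4 2 1 299 (.bis 5 7 2 1 260 (.bis 4 6 1 1 289 (.bis 6 7 2 1 93
  (.leaf 11) (.leaf 6)) (.leaf 76)) (.bis 4 5 1 1 496 (.bis 5 6 1 1 160 (.bis 4 6 1 2 497 (.leaf
  6) (.leaf 11)) (.bis 1 5 1 2 505 (.leaf 26) (.leaf 11))) (.bis 4 6 1 1 289 (.bis 5 6 1 2 497
  (.leaf 6) (.leaf 11)) (.leaf 15)))) (.bis 2 5 2 1 164 (.bis 5 7 2 1 260 (.bis 2 7 1 1 261 (.bis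
  6 7 2 1 93 (.leaf 11) (.bis 0 6 1 1 509 (.leaf 6) (.leaf 6))) (.bis 0 6 1 1 509 (.leaf 6)
  (.leaf 6))) (.bis 5 6 1 1 160 (.bis 0 6 1 1 509 (.leaf 6) (.leaf 6)) (.bis 1 5 1 2 505 (.leaf
  26) (.leaf 6)))) (.bis 2 7 4 1 89 (.bis 5 7 1 1 261 (.bis 6 7 2 1 93 (.leaf 11) (.leaf 6))
  (.bis 0 6 1 1 509 (.leaf 2) (.leaf 6))) (.bis 0 2 1 2 115 (.leaf 2) (.bis 0 6 1 1 509 (.leaf 2)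
  (.leaf 6)))))) (.bis 1 5 2 1 163 (.bis 2 5 2 1 164 (.bis 5 7 2 1 260 (.bis 2 7 1 1 261 (.bis 6
  7 2 1 93 (.leaf 11) (.leaf 6)) (.bis 0 6 1 1 509 (.leaf 6) (.leaf 6))) (.bis 5 6 1 1 160 (.bis
  0 6 1 1 509 (.leaf 6) (.leaf 6)) (.leaf 26))) (.bis 2 7 4 1 89 (.bis 5 7 1 1 261 (.bis 6 7 2 1
  93 (.leaf 11) (.leaf 6)) (.bis 0 6 1 1 509 (.leaf 2) (.leaf 6))) (.bis 0 2 1 2 115 (.leaf 2)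
  (.leaf 6)))) (.bis 2 7 4 1 89 (.bis 1 7 4 1 87 (.bis 6 7 2 1 93 (.leaf 11) (.leaf 6)) (.leaf
  6)) (.bis 1 3 8 1 98 (.bis 0 2 1 2 115 (.bis 2 4 4 1 304 (.leaf 2) (.leaf 2)) (.leaf 6)) (.bis
  0 2 1 2 115 (.leaf 6) (.leaf 6)))))) (.bis 1 3 1 1 77 (.bis 2 4 2 1 299 (.bis 3 4 2 1 310 (.bis
  4 5 1 1 496 (.bis 5 6 1 1 160 (.leaf 61) (.bis 2 5 1 2 506 (.bis 3 5 1 2 507 (.leaf 26) (.leaf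
  15)) (.leaf 15))) (.bis 4 6 1 1 289 (.bis 5 6 1 2 497 (.leaf 61) (.leaf 15)) (.leaf 15))) (.bis
  3 5 2 1 177 (.bis 5 6 1 1 160 (.leaf 61) (.bis 2 5 1 2 506 (.bis 4 5 1 2 507 (.leaf 26) (.leaf
  15)) (.leaf 15))) (.bis 0 3 1 2 116 (.bis 2 3 1 4 309 (.bis 3 6 2 1 83 (.leaf 4) (.leaf 7))
  (.bis 4 6 1 2 311 (.leaf 4) (.leaf 4))) (.bis 4 6 1 2 311 (.leaf 61) (.leaf 15))))) (.bis 2 5 2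
  1 164 (.bis 3 5 2 1 177 (.bis 5 6 1 1 160 (.leaf 61) (.bis 4 5 1 2 506 (.leaf 26) (.leaf 15)))
  (.bis 0 3 1 2 116 (.bis 2 3 1 4 176 (.bis 3 4 4 1 309 (.leaf 4) (.bis 3 6 2 1 83 (.leaf 4)
  (.leaf 7))) (.leaf 4)) (.leaf 61))) (.bis 0 3 1 2 116 (.bis 2 3 1 1 84 (.bis 3 4 4 1 309 (.leaf
  4) (.leaf 110)) (.leaf 45)) (.bis 0 2 1 2 115 (.leaf 45) (.leaf 11))))) (.bis 1 4 2 1 294 (.bis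
  2 4 2 1 299 (.bis 4 5 1 1 496 (.bis 5 6 1 1 160 (.leaf 11) (.bis 1 5 1 2 505 (.bis 2 5 1 2 506
  (.leaf 26) (.leaf 11)) (.leaf 11))) (.bis 4 6 1 1 289 (.bis 5 6 1 2 497 (.leaf 6) (.leaf 11))
  (.leaf 15))) (.bis 2 5 2 1 164 (.bis 5 6 1 1 160 (.leaf 6) (.bis 1 5 1 2 505 (.bis 4 5 1 2 506
  (.leaf 26) (.leaf 6)) (.leaf 6))) (.bis 0 2 1 2 115 (.leaf 2) (.leaf 6)))) (.bis 1 5 2 1 163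
  (.bis 2 5 2 1 164 (.bis 5 6 1 1 160 (.leaf 6) (.bis 4 5 1 2 505 (.leaf 26) (.leaf 6))) (.bis 0
  2 1 2 115 (.leaf 2) (.leaf 6))) (.bis 1 7 8 1 98 (.bis 0 2 1 2 115 (.bis 2 4 4 1 304 (.leaf 2)
  (.leaf 2)) (.leaf 6)) (.bis 0 2 1 2 115 (.leaf 6) (.leaf 6)))))))) (.bis 0 6 1 1 117 (.bis 4 6
  1 2 276 (.bis 5 6 1 2 154 (.bis 2 6 1 1 39 (.bis 3 6 1 2 110 (.bis 6 7 4 1 88 (.bis 1 7 4 1 87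
  (.leaf 18) (.leaf 18)) (.bis 1 6 1 1 26 (.leaf 83) (.leaf 18))) (.bis 1 7 4 1 87 (.bis 2 3 1 1
  120 (.leaf 18) (.leaf 18)) (.bis 2 3 1 1 120 (.leaf 18) (.leaf 18)))) (.bis 0 2 1 2 119 (.bis 2
  7 4 1 89 (.leaf 18) (.bis 2 4 4 1 285 (.leaf 6) (.bis 2 5 4 1 157 (.leaf 6) (.bis 3 6 1 1 120
  (.leaf 6) (.leaf 6))))) (.bis 1 7 4 1 87 (.leaf 18) (.bis 3 6 1 1 120 (.leaf 18) (.leaf 18)))))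
  (.bis 0 5 1 1 268 (.bis 1 5 2 1 163 (.bis 2 5 2 1 164 (.bis 5 7 2 1 260 (.bis 2 7 1 1 261
  (.leaf 11) (.leaf 6)) (.bis 4 5 1 2 504 (.leaf 26) (.leaf 6))) (.bis 2 7 4 1 89 (.bis 5 7 1 1
  261 (.leaf 11) (.leaf 6)) (.bis 0 2 1 4 269 (.bis 2 4 4 1 285 (.leaf 6) (.bis 2 6 4 1 157
  (.leaf 6) (.leaf 6))) (.leaf 6)))) (.bis 2 7 4 1 89 (.bis 1 7 4 1 87 (.leaf 11) (.leaf 6))
  (.bis 0 2 1 4 269 (.bis 2 4 4 1 285 (.leaf 6) (.bis 2 6 4 1 157 (.leaf 6) (.leaf 6))) (.bis 1 3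
  2 1 114 (.leaf 6) (.leaf 6))))) (.bis 0 2 1 2 119 (.bis 2 7 4 1 89 (.bis 1 7 4 1 87 (.leaf 11)
  (.leaf 6)) (.bis 2 5 4 1 269 (.leaf 6) (.bis 2 4 4 1 285 (.leaf 6) (.leaf 6)))) (.bis 1 7 4 1
  87 (.leaf 18) (.leaf 18))))) (.bis 0 4 1 1 510 (.bis 1 4 2 1 294 (.bis 2 4 2 1 299 (.bis 5 7 2
  1 260 (.leaf 76) (.bis 4 5 1 1 496 (.bis 5 6 2 1 504 (.leaf 11) (.bis 0 5 1 2 511 (.bis 1 5 1 2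
  505 (.leaf 26) (.leaf 11)) (.leaf 11))) (.leaf 15))) (.bis 2 5 2 1 164 (.bis 5 7 2 1 260 (.bis
  2 7 1 1 261 (.leaf 11) (.leaf 6)) (.bis 5 6 2 1 504 (.leaf 6) (.bis 0 5 1 2 511 (.leaf 26)
  (.leaf 6)))) (.bis 2 7 4 1 89 (.bis 5 7 1 1 261 (.leaf 11) (.leaf 6)) (.bis 0 2 1 4 512 (.bis 2
  6 4 1 285 (.leaf 6) (.leaf 6)) (.leaf 6))))) (.bis 1 5 2 1 163 (.bis 2 5 2 1 164 (.bis 5 7 2 1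
  260 (.leaf 11) (.bis 5 6 2 1 504 (.leaf 6) (.leaf 55))) (.bis 2 7 4 1 89 (.leaf 11) (.bis 0 2 1
  4 512 (.bis 2 6 4 1 285 (.leaf 6) (.leaf 6)) (.leaf 6)))) (.bis 2 7 4 1 89 (.bis 1 7 4 1 87
  (.leaf 11) (.leaf 6)) (.bis 0 2 1 4 512 (.bis 2 6 4 1 285 (.leaf 6) (.bis 2 3 2 1 115 (.leaf 6)
  (.leaf 6))) (.bis 1 3 2 1 114 (.leaf 6) (.leaf 6)))))) (.bis 0 5 1 1 268 (.bis 1 5 2 1 163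
  (.bis 2 5 2 1 164 (.bis 5 7 2 1 260 (.leaf 11) (.bis 5 6 2 1 504 (.leaf 6) (.leaf 55))) (.bis 2
  7 4 1 89 (.leaf 11) (.bis 0 2 1 4 269 (.bis 2 4 4 1 512 (.leaf 6) (.bis 2 6 4 1 285 (.leaf 6)
  (.leaf 6))) (.leaf 6)))) (.bis 2 7 4 1 89 (.bis 1 7 4 1 87 (.leaf 11) (.leaf 6)) (.bis 0 2 1 4
  269 (.bis 2 4 4 1 512 (.bis 1 3 2 1 114 (.leaf 6) (.leaf 6)) (.bis 2 6 4 1 285 (.leaf 6) (.leaf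
  6))) (.bis 1 3 2 1 114 (.leaf 6) (.leaf 6))))) (.bis 0 2 1 2 119 (.bis 2 7 4 1 89 (.bis 1 7 4 1
  87 (.leaf 11) (.leaf 6)) (.bis 2 4 4 1 512 (.bis 1 3 2 1 114 (.leaf 6) (.leaf 6)) (.bis 2 5 4 1
  269 (.leaf 6) (.leaf 6)))) (.bis 1 7 4 1 87 (.leaf 18) (.leaf 18)))))) (.bis 0 2 1 1 121 (.bis
  4 6 1 1 510 (.bis 5 6 1 1 268 (.bis 2 6 2 1 119 (.bis 1 7 4 1 87 (.leaf 18) (.leaf 18)) (.bis 2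
  7 4 1 89 (.bis 1 7 4 1 87 (.leaf 18) (.leaf 6)) (.bis 2 4 4 1 512 (.bis 1 3 2 1 114 (.leaf 6)
  (.leaf 6)) (.bis 2 5 4 1 269 (.bis 1 3 2 1 114 (.leaf 6) (.leaf 6)) (.leaf 6))))) (.bis 1 5 2 1
  163 (.bis 2 5 2 1 164 (.bis 5 7 2 1 260 (.bis 2 7 1 1 261 (.leaf 18) (.leaf 6)) (.leaf 55))
  (.bis 2 7 4 1 89 (.leaf 77) (.bis 2 4 4 1 512 (.leaf 6) (.bis 2 6 4 1 269 (.leaf 6) (.leaf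
  6))))) (.bis 2 7 4 1 89 (.bis 1 7 4 1 87 (.leaf 18) (.leaf 6)) (.bis 2 4 4 1 512 (.bis 1 3 2 1
  114 (.leaf 6) (.leaf 6)) (.bis 2 6 4 1 269 (.bis 1 3 2 1 114 (.leaf 6) (.leaf 6)) (.leaf
  6)))))) (.bis 1 4 2 1 294 (.bis 2 4 2 1 299 (.bis 5 7 2 1 260 (.leaf 76) (.bis 4 5 1 1 496
  (.bis 5 6 2 1 511 (.leaf 55) (.bis 1 5 1 2 505 (.leaf 55) (.leaf 55))) (.leaf 76))) (.bis 2 5 2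
  1 164 (.bis 5 7 2 1 260 (.leaf 77) (.bis 5 6 2 1 511 (.leaf 6) (.bis 1 5 1 2 505 (.leaf 55)
  (.leaf 6)))) (.bis 2 7 4 1 89 (.leaf 77) (.bis 2 6 4 1 512 (.leaf 6) (.leaf 6))))) (.bis 1 5 2
  1 163 (.bis 2 5 2 1 164 (.bis 5 7 2 1 260 (.leaf 77) (.bis 5 6 2 1 511 (.leaf 6) (.leaf 55)))
  (.bis 2 7 4 1 89 (.leaf 77) (.bis 2 6 4 1 512 (.leaf 6) (.bis 2 3 2 1 115 (.leaf 6) (.leaf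
  6))))) (.bis 2 7 4 1 89 (.bis 1 7 4 1 87 (.leaf 18) (.leaf 6)) (.bis 2 6 4 1 512 (.leaf 6)
  (.bis 2 3 2 1 115 (.leaf 6) (.leaf 6))))))) (.bis 0 4 2 1 513 (.bis 4 6 1 1 510 (.bis 5 6 1 1
  268 (.bis 0 1 1 4 514 (.bis 1 7 4 1 87 (.leaf 18) (.leaf 18)) (.leaf 37)) (.bis 1 5 2 1 163
  (.bis 5 7 2 1 260 (.leaf 37) (.bis 0 5 1 2 515 (.leaf 55) (.leaf 37))) (.bis 0 1 1 4 514 (.bis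
  1 7 4 1 87 (.leaf 18) (.leaf 6)) (.leaf 37)))) (.bis 1 4 2 1 294 (.bis 5 7 2 1 260 (.leaf 76)
  (.bis 4 5 1 1 496 (.bis 0 5 1 2 515 (.bis 5 6 2 1 511 (.leaf 55) (.leaf 55)) (.leaf 55)) (.leaf
  76))) (.bis 1 5 2 1 163 (.bis 5 7 2 1 260 (.leaf 37) (.bis 0 5 1 2 515 (.bis 5 6 2 1 511 (.leaf
  37) (.leaf 55)) (.leaf 37))) (.bis 0 1 1 4 514 (.bis 1 7 4 1 87 (.leaf 18) (.leaf 6)) (.leaf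
  37))))) (.bis 0 5 2 1 270 (.bis 5 6 1 1 268 (.bis 0 1 1 4 271 (.bis 1 4 4 1 514 (.leaf 37)
  (.bis 1 7 4 1 87 (.leaf 18) (.leaf 18))) (.bis 0 7 1 1 272 (.leaf 37) (.leaf 37))) (.bis 1 5 2
  1 163 (.bis 5 7 2 1 260 (.bis 0 7 1 1 272 (.leaf 37) (.leaf 37)) (.bis 4 5 1 2 515 (.leaf 55)
  (.leaf 37))) (.bis 0 1 1 4 271 (.bis 1 4 4 1 514 (.bis 5 7 1 1 263 (.leaf 37) (.leaf 37)) (.bis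
  1 7 4 1 87 (.leaf 18) (.leaf 6))) (.bis 0 7 1 1 272 (.leaf 37) (.leaf 37))))) (.bis 0 1 1 1 122
  (.bis 1 4 4 1 514 (.bis 5 7 1 1 272 (.leaf 37) (.leaf 37)) (.bis 1 5 4 1 271 (.bis 5 7 1 1 272
  (.leaf 18) (.leaf 37)) (.bis 1 7 4 1 87 (.leaf 18) (.leaf 18)))) (.bis 0 7 4 1 124 (.leaf 37)
  (.leaf 90)))))))))

def lc18 : List Vr := [⟨[60,0,0,0,0,0,0,0], 14400, 0⟩, ⟨[0,24,0,0,0,0,0,0], 13824, 0⟩, ⟨[0,0,27,0,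
  0,0,0,0], 14580, 0⟩, ⟨[0,0,0,30,0,0,0,0], 14400, 0⟩, ⟨[60,0,0,0,85,0,0,0], 90050, 0⟩, ⟨[60,0,0,
  0,0,85,0,0], 90050, 0⟩, ⟨[0,0,0,0,0,0,42,0], 14112, 0⟩, ⟨[0,0,0,0,85,0,0,121], 96730, 0⟩]

theorem lk18 : chkTr lowT (leafLow 4 lowB) lt18 lc18 = true := by decide +kernel

end Pool.Agent.Helper10.Fam.D6
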