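import Pool.Agent.Helper10.FamD.D6LowC0
import Pool.Agent.Helper10.FamD.D6LowC1
import Pool.Agent.Helper10.FamD.D6LowC2
import Pool.Agent.Helper10.FamD.D6LowB

set_option autoImplicit false
set_option maxRecDepth 1000000

/-!
# Certificate data for `U ⊕ D6` (lower bound, certificate)
-/

namespace Pool.Agent.Helper10.Fam.D6

open Pool.Agent.Helper10.Fam

def lS : ℕ → Tr ℕ
  | 0 => lt0
  | 1 => lt1
  | 2 => lt2
  | 3 => lt3
  | 4 => lt4
  | 5 => lt5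
  | 6 => lt6
  | 7 => lt7
  | 8 => lt8
  | 9 => lt9
  | 10 => lt10
  | 11 => lt11
  | 12 => lt12
  | 13 => lt13
  | 14 => lt14
  | 15 => lt15
  | 16 => lt16
  | 17 => lt17
  | 18 => lt18
  | _ => .leaf 0

def lC : ℕ → List Vr
  | 0 => lc0
  | 1 => lc1
  | 2 => lc2
  | 3 => lc3
  | 4 => lc4
  | 5 => lc5
  | 6 => lc6
  | 7 => lc7
  | 8 => lc8
  | 9 => lc9
  | 10 => lc10
  | 11 => lc11
  | 12 => lc12
  | 13 => lc13
  | 14 => lc14
  | 15 => lc15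
  | 16 => lc16
  | 17 => lc17
  | 18 => lc18
  | _ => []

def lowTT : TT := (.bis 4 7 1 121 9 (.bis 5 7 1 121 10 (.bis 0 7 1 71 11 (.ch 0) (.bis 0 4 2 1 86
  (.ch 1) (.ch 2))) (.bis 0 5 1 1 126 (.bis 5 6 1 1 127 (.ch 3) (.bis 4 5 1 2 181 (.ch 4) (.ch
  5))) (.bis 0 4 2 1 86 (.ch 6) (.ch 7)))) (.bis 0 4 1 1 273 (.bis 4 5 1 1 274 (.bis 5 6 1 1 127
  (.bis 4 6 1 2 275 (.ch 8) (.ch 9)) (.bis 5 7 2 1 181 (.ch 10) (.ch 11))) (.bis 4 6 1 1 381 (.ch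
  12) (.bis 1 4 1 1 397 (.ch 13) (.ch 14)))) (.bis 0 5 1 1 126 (.bis 5 6 1 1 127 (.ch 15) (.bis 5
  7 2 1 181 (.ch 16) (.ch 17))) (.ch 18))))

/-- certificate -/
def low : LowCert := ⟨4260000, lowT, lowB, lowL, lowTT.plug lS⟩

theorem lk : ∀ k, k < 19 → chkTr lowT (leafLow 4 lowB) (lS k) (lC k) = true
  | 0, _ => lk0
  | 1, _ => lk1
  | 2, _ => lk2
  | 3, _ => lk3
  | 4, _ => lk4
  | 5, _ => lk5
  | 6, _ => lk6
  | 7, _ => lk7
  | 8, _ => lk8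
  | 9, _ => lk9
  | 10, _ => lk10
  | 11, _ => lk11
  | 12, _ => lk12
  | 13, _ => lk13
  | 14, _ => lk14
  | 15, _ => lk15
  | 16, _ => lk16
  | 17, _ => lk17
  | 18, _ => lk18
  | k + 19, h => absurd h (by omega)

theorem ltop : chkTT lowT 19 lC lowTT lowL = true := by decide +kernel

theorem low3_ok : lowTree dat low = true := plug_ok lk lowTT lowL ltop

theorem low2_ok : lowBalls dat low = true := balls_ok

theorem low1_ok : lowTab dat low = true := by decide +kernel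

end Pool.Agent.Helper10.Fam.D6
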