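import Pool.Agent.Helper10.FamD.E6LowT

set_option autoImplicit false
set_option maxRecDepth 1000000

/-!
# Certificate data for `U ⊕ E6` (lower bound, check of the balls)
-/

namespace Pool.Agent.Helper10.Fam.E6

open Pool.Agent.Helper10.Fam

theorem ball_lB0 : lB0.all (ballOK dat 2140000) = true := by decide +kernel

theorem ball_lB1 : lB1.all (ballOK dat 2140000) = true := by decide +kernel

theorem ball_lB2 : lB2.all (ballOK dat 2140000) = true := by decide +kernel

theorem ball_lB3 : lB3.all (ballOK dat 2140000) = true := by decide +kernel

theorem ball_lB4 : lB4.all (ballOK dat 2140000) = true := by decide +kernel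

theorem ball_lB5 : lB5.all (ballOK dat 2140000) = true := by decide +kernel

theorem ball_lB6 : lB6.all (ballOK dat 2140000) = true := by decide +kernel

theorem ball_lB7 : lB7.all (ballOK dat 2140000) = true := by decide +kernel

theorem balls_ok : lowB.all (ballOK dat 2140000) = true := (all_node (by decide +kernel)
  (all_node (by decide +kernel) (all_node (by decide +kernel) ball_lB0 ball_lB1) (all_node (by
  decide +kernel) ball_lB2 ball_lB3)) (all_node (by decide +kernel) (all_node (by decide +kernel)
  ball_lB4 ball_lB5) (all_node (by decide +kernel) ball_lB6 ball_lB7)))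

end Pool.Agent.Helper10.Fam.E6
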