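import Pool.Agent.Helper10.FamD.E6LowT

set_option autoImplicit false
set_option maxRecDepth 1000000

/-!
# Certificate data for `U ⊕ E6` (lower bound, subtrees)
-/

namespace Pool.Agent.Helper10.Fam.E6

open Pool.Agent.Helper10.Fam

def lt8 : Tr ℕ := (.bis 4 7 2 1 60 (.bis 1 7 2 1 41 (.bis 3 7 2 1 57 (.bis 0 7 1 1 286 (.bis 2 7
  2 1 121 (.bis 5 7 1 2 264 (.bis 6 7 1 2 271 (.leaf 31) (.bis 2 6 1 1 281 (.bis 1 6 1 1 275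
  (.leaf 5) (.leaf 5)) (.leaf 5))) (.bis 2 5 1 1 268 (.bis 1 5 1 1 261 (.bis 3 5 1 1 262 (.leaf
  39) (.leaf 5)) (.bis 1 6 1 1 275 (.leaf 5) (.leaf 5))) (.bis 2 6 1 1 281 (.bis 1 6 1 1 275
  (.leaf 5) (.leaf 5)) (.leaf 5)))) (.bis 2 5 4 1 160 (.bis 5 7 1 1 268 (.bis 6 7 1 1 281 (.leaf
  5) (.leaf 5)) (.bis 1 5 1 1 261 (.leaf 39) (.leaf 5))) (.bis 0 2 1 4 287 (.bis 1 2 1 4 117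
  (.bis 2 6 4 1 282 (.leaf 5) (.bis 2 4 4 1 105 (.leaf 5) (.bis 2 3 4 1 119 (.leaf 5) (.bis 2 7 4
  1 288 (.leaf 5) (.leaf 9))))) (.bis 6 7 1 1 281 (.leaf 5) (.leaf 5))) (.bis 6 7 1 1 281 (.leaf
  5) (.leaf 5))))) (.bis 2 5 4 1 160 (.bis 0 1 2 1 289 (.bis 1 5 1 1 261 (.leaf 39) (.leaf 5))
  (.bis 0 3 2 1 290 (.bis 3 5 1 1 262 (.leaf 39) (.leaf 5)) (.bis 0 4 2 1 291 (.leaf 39) (.bis 0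
  6 2 1 292 (.leaf 35) (.leaf 35))))) (.bis 0 1 2 1 289 (.bis 2 7 4 1 287 (.leaf 5) (.bis 1 2 1 4
  117 (.bis 2 6 4 1 282 (.leaf 5) (.bis 2 4 4 1 105 (.leaf 5) (.bis 0 2 1 8 293 (.bis 2 3 4 1 119
  (.leaf 5) (.leaf 9)) (.leaf 5)))) (.leaf 5))) (.bis 0 2 1 2 294 (.bis 2 7 4 1 287 (.leaf 5)
  (.bis 2 6 4 1 282 (.leaf 5) (.bis 2 4 4 1 105 (.leaf 5) (.bis 1 2 1 8 293 (.bis 2 3 4 1 119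
  (.leaf 5) (.bis 2 5 8 1 295 (.leaf 5) (.leaf 9))) (.leaf 5))))) (.bis 0 3 2 1 290 (.leaf 5)
  (.bis 0 4 2 1 291 (.leaf 5) (.leaf 35))))))) (.bis 2 5 4 1 160 (.bis 0 1 2 1 289 (.bis 3 5 4 1
  130 (.bis 1 5 1 1 261 (.leaf 39) (.leaf 5)) (.bis 1 3 1 4 56 (.bis 0 3 1 8 296 (.bis 3 6 4 1
  278 (.leaf 2) (.leaf 2)) (.leaf 5)) (.leaf 5))) (.bis 0 3 1 2 297 (.bis 3 5 4 1 130 (.leaf 39)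
  (.bis 1 3 1 8 296 (.bis 3 6 4 1 278 (.leaf 5) (.leaf 32)) (.leaf 5))) (.bis 0 7 2 1 290 (.leaf
  39) (.bis 0 4 2 1 291 (.leaf 39) (.leaf 35))))) (.bis 0 1 2 1 289 (.bis 1 2 1 4 117 (.bis 2 6 4
  1 282 (.bis 0 3 1 8 296 (.bis 3 6 4 1 278 (.leaf 2) (.bis 3 4 4 1 69 (.leaf 2) (.leaf 2)))
  (.leaf 5)) (.bis 2 4 4 1 105 (.bis 0 3 1 8 296 (.bis 3 4 4 1 69 (.leaf 2) (.leaf 2)) (.leaf 5))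
  (.bis 0 2 1 8 293 (.bis 2 7 4 1 119 (.bis 3 7 4 1 283 (.leaf 2) (.bis 3 5 8 1 163 (.leaf 2)
  (.leaf 2))) (.bis 2 3 1 1 120 (.bis 3 5 8 1 163 (.leaf 2) (.leaf 2)) (.leaf 9))) (.bis 0 3 1 8
  296 (.bis 3 7 4 1 283 (.leaf 2) (.leaf 2)) (.leaf 5))))) (.bis 1 3 1 4 56 (.bis 0 3 1 8 296
  (.bis 3 6 4 1 278 (.leaf 2) (.leaf 2)) (.leaf 5)) (.leaf 5))) (.bis 0 2 1 2 294 (.bis 2 6 4 1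
  282 (.bis 1 3 1 8 296 (.bis 3 6 4 1 278 (.leaf 5) (.bis 0 3 1 4 298 (.leaf 2) (.leaf 5)))
  (.leaf 5)) (.bis 2 4 4 1 105 (.bis 1 3 1 8 296 (.bis 0 3 1 4 298 (.bis 3 4 4 1 69 (.leaf 2)
  (.leaf 2)) (.leaf 5)) (.leaf 5)) (.bis 1 2 1 8 293 (.bis 2 7 4 1 119 (.bis 0 3 1 4 298 (.bis 3
  7 4 1 283 (.leaf 2) (.leaf 2)) (.leaf 5)) (.bis 0 3 1 4 298 (.bis 2 3 1 1 120 (.leaf 2) (.leaf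
  9)) (.leaf 9))) (.bis 1 3 1 8 296 (.bis 0 3 1 4 298 (.leaf 2) (.leaf 5)) (.leaf 5))))) (.bis 0
  3 1 2 297 (.bis 1 3 1 8 296 (.bis 3 6 4 1 278 (.leaf 5) (.bis 2 3 1 4 298 (.leaf 32) (.leaf
  5))) (.leaf 5)) (.bis 0 7 2 1 290 (.leaf 5) (.bis 0 4 2 1 291 (.leaf 5) (.leaf 35)))))))) (.bis
  0 1 1 2 299 (.bis 1 5 4 1 133 (.bis 2 5 4 1 160 (.bis 3 5 4 1 130 (.bis 5 7 1 1 261 (.leaf 5)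
  (.leaf 39)) (.bis 3 7 4 1 56 (.leaf 5) (.bis 3 6 4 1 278 (.leaf 2) (.leaf 2)))) (.bis 2 7 4 1
  117 (.bis 3 7 4 1 56 (.leaf 5) (.bis 3 6 4 1 278 (.leaf 2) (.leaf 2))) (.bis 2 6 4 1 282 (.bis
  3 6 4 1 278 (.leaf 2) (.bis 3 4 4 1 69 (.leaf 2) (.leaf 2))) (.bis 1 2 1 8 159 (.bis 2 4 4 1
  105 (.bis 3 4 4 1 69 (.leaf 2) (.leaf 2)) (.bis 0 2 1 4 300 (.bis 2 3 1 1 120 (.leaf 2) (.leaf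
  9)) (.bis 3 5 8 1 163 (.leaf 2) (.leaf 2)))) (.bis 3 4 4 1 69 (.leaf 2) (.leaf 2)))))) (.bis 1
  2 1 1 104 (.bis 2 7 4 1 117 (.bis 3 7 4 1 56 (.leaf 38) (.bis 3 6 4 1 278 (.leaf 2) (.leaf 2)))
  (.bis 2 6 4 1 282 (.bis 3 6 4 1 278 (.leaf 2) (.leaf 2)) (.bis 2 5 8 1 159 (.leaf 2) (.bis 2 4
  4 1 105 (.leaf 2) (.bis 0 2 1 4 300 (.leaf 9) (.leaf 2)))))) (.bis 1 4 4 1 66 (.bis 3 7 4 1 56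
  (.leaf 38) (.leaf 2)) (.bis 3 7 4 1 56 (.leaf 26) (.leaf 26))))) (.bis 2 5 4 1 160 (.bis 0 7 2
  1 289 (.bis 3 5 4 1 130 (.bis 5 7 1 1 261 (.leaf 5) (.leaf 39)) (.bis 3 7 4 1 56 (.leaf 5)
  (.bis 0 3 1 8 296 (.bis 3 6 4 1 278 (.leaf 2) (.leaf 2)) (.leaf 5)))) (.bis 0 3 1 2 297 (.bis 3
  5 4 1 130 (.leaf 39) (.bis 3 7 8 1 296 (.leaf 5) (.bis 3 6 4 1 278 (.leaf 5) (.leaf 15))))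
  (.bis 0 4 2 1 291 (.leaf 39) (.leaf 35)))) (.bis 0 7 2 1 289 (.bis 2 7 4 1 117 (.bis 3 7 4 1 56
  (.leaf 5) (.bis 0 3 1 8 296 (.bis 3 6 4 1 278 (.leaf 2) (.leaf 2)) (.leaf 5))) (.bis 2 6 4 1
  282 (.bis 0 3 1 8 296 (.bis 3 6 4 1 278 (.leaf 2) (.leaf 2)) (.leaf 5)) (.bis 2 4 4 1 105 (.bis
  0 3 1 8 296 (.bis 3 4 4 1 69 (.leaf 2) (.leaf 2)) (.leaf 5)) (.bis 0 2 1 8 293 (.bis 1 2 1 4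
  300 (.bis 2 3 1 1 120 (.bis 3 5 8 1 163 (.leaf 2) (.leaf 2)) (.leaf 9)) (.bis 3 5 8 1 163
  (.leaf 2) (.leaf 2))) (.bis 0 3 1 8 296 (.bis 3 5 8 1 163 (.leaf 2) (.leaf 2)) (.leaf 5))))))
  (.bis 0 2 1 2 294 (.bis 2 6 4 1 282 (.bis 3 7 8 1 296 (.leaf 5) (.bis 3 6 4 1 278 (.leaf 5)
  (.bis 0 3 1 4 298 (.leaf 2) (.leaf 5)))) (.bis 2 4 4 1 105 (.bis 3 7 8 1 296 (.leaf 5) (.bis 0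
  3 1 4 298 (.leaf 2) (.leaf 5))) (.bis 2 7 8 1 293 (.bis 3 7 8 1 296 (.leaf 5) (.bis 0 3 1 4 298
  (.leaf 2) (.leaf 5))) (.bis 1 2 1 4 300 (.bis 0 3 1 4 298 (.bis 2 3 1 1 120 (.leaf 2) (.leaf
  9)) (.bis 2 5 8 1 295 (.leaf 5) (.leaf 9))) (.bis 0 3 1 4 298 (.bis 3 5 8 1 163 (.leaf 2)
  (.leaf 2)) (.leaf 5)))))) (.bis 0 3 1 2 297 (.bis 3 7 8 1 296 (.leaf 5) (.bis 3 6 4 1 278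
  (.leaf 5) (.bis 2 3 1 4 298 (.leaf 15) (.bis 2 4 1 1 301 (.leaf 5) (.leaf 5))))) (.bis 0 4 2 1
  291 (.leaf 5) (.leaf 35)))))))) (.bis 0 1 1 2 299 (.bis 1 5 4 1 133 (.bis 2 5 4 1 160 (.bis 3 5
  4 1 130 (.bis 4 5 4 1 143 (.leaf 39) (.bis 4 6 4 1 284 (.leaf 8) (.bis 2 4 1 8 161 (.bis 0 4 1
  4 302 (.bis 1 4 1 8 150 (.bis 4 7 4 1 81 (.leaf 8) (.leaf 6)) (.leaf 8)) (.leaf 8)) (.leaf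
  8)))) (.bis 4 6 4 1 284 (.bis 3 6 4 1 278 (.leaf 2) (.bis 3 7 4 1 69 (.leaf 2) (.leaf 2)))
  (.bis 2 4 1 8 161 (.bis 0 4 1 4 302 (.bis 1 4 1 8 150 (.bis 4 7 4 1 81 (.bis 3 7 4 1 69 (.leaf
  2) (.leaf 2)) (.bis 3 4 1 1 84 (.leaf 6) (.leaf 2))) (.bis 3 7 4 1 69 (.leaf 2) (.leaf 2)))
  (.bis 3 7 4 1 69 (.leaf 2) (.leaf 2))) (.bis 3 7 4 1 69 (.leaf 2) (.leaf 2))))) (.bis 2 4 1 1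
  110 (.bis 4 6 4 1 284 (.bis 3 6 4 1 278 (.bis 2 6 2 1 285 (.leaf 2) (.leaf 2)) (.leaf 2)) (.bis
  4 5 8 1 161 (.bis 3 7 4 1 69 (.leaf 2) (.leaf 2)) (.bis 0 4 1 4 302 (.bis 1 4 1 8 150 (.bis 4 7
  4 1 81 (.bis 3 7 4 1 69 (.leaf 2) (.leaf 2)) (.bis 3 4 1 1 84 (.leaf 6) (.leaf 2))) (.leaf 2))
  (.leaf 2)))) (.bis 2 6 4 1 282 (.bis 3 6 4 1 278 (.bis 4 6 2 1 285 (.leaf 2) (.leaf 2)) (.leaf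
  2)) (.bis 1 2 1 8 159 (.bis 2 7 4 1 105 (.bis 3 7 4 1 69 (.leaf 2) (.leaf 2)) (.bis 0 2 1 4 300
  (.bis 2 3 1 1 120 (.leaf 2) (.leaf 9)) (.leaf 2))) (.bis 3 7 4 1 69 (.leaf 2) (.leaf 2))))))
  (.bis 2 4 1 1 110 (.bis 1 4 1 1 85 (.bis 4 6 4 1 284 (.leaf 2) (.bis 0 4 1 4 302 (.bis 4 5 8 1
  150 (.leaf 2) (.bis 4 7 4 1 81 (.leaf 2) (.leaf 6))) (.leaf 2))) (.bis 1 7 4 1 66 (.leaf 2)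
  (.bis 1 2 2 1 111 (.leaf 2) (.bis 1 6 4 1 279 (.leaf 2) (.leaf 26))))) (.bis 1 2 1 1 104 (.bis
  2 6 4 1 282 (.leaf 2) (.bis 2 5 8 1 159 (.leaf 2) (.bis 2 7 4 1 105 (.leaf 2) (.bis 0 2 1 4 300
  (.leaf 9) (.leaf 2))))) (.bis 1 7 4 1 66 (.leaf 2) (.bis 1 4 2 1 111 (.leaf 2) (.bis 1 6 4 1
  279 (.leaf 2) (.leaf 26))))))) (.bis 2 5 4 1 160 (.bis 0 4 1 2 303 (.bis 3 5 4 1 130 (.bis 4 5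
  4 1 143 (.leaf 76) (.bis 4 6 4 1 284 (.leaf 15) (.bis 2 4 1 8 161 (.bis 1 4 1 4 302 (.bis 4 7 4
  1 81 (.leaf 15) (.bis 3 4 1 8 147 (.leaf 6) (.leaf 6))) (.leaf 15)) (.leaf 15)))) (.bis 4 6 4 1
  284 (.bis 3 6 4 1 278 (.leaf 15) (.bis 0 3 1 4 304 (.leaf 2) (.leaf 15))) (.bis 2 4 1 8 161
  (.bis 1 4 1 4 302 (.bis 4 7 4 1 81 (.bis 0 3 1 4 304 (.leaf 2) (.leaf 15)) (.bis 0 3 1 4 304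
  (.bis 3 4 1 1 84 (.leaf 6) (.leaf 2)) (.bis 4 5 8 1 147 (.leaf 6) (.leaf 6)))) (.bis 0 3 1 4
  304 (.leaf 2) (.leaf 15))) (.bis 0 3 1 4 304 (.bis 3 7 4 1 69 (.leaf 2) (.leaf 2)) (.leaf
  15))))) (.bis 0 3 1 2 297 (.bis 3 5 4 1 130 (.leaf 76) (.bis 3 6 4 1 278 (.leaf 15) (.bis 3 4 4
  1 304 (.leaf 15) (.leaf 15)))) (.bis 0 7 2 1 291 (.leaf 76) (.leaf 35)))) (.bis 0 2 1 2 294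
  (.bis 2 4 1 1 110 (.bis 4 6 4 1 284 (.bis 3 6 4 1 278 (.leaf 15) (.bis 0 3 1 4 298 (.leaf 2)
  (.leaf 15))) (.bis 0 4 1 4 305 (.bis 4 5 8 1 161 (.bis 3 7 4 1 69 (.leaf 2) (.leaf 2)) (.bis 1
  4 1 4 302 (.bis 4 7 4 1 81 (.bis 3 7 4 1 69 (.leaf 2) (.leaf 2)) (.bis 3 4 1 1 84 (.leaf 6)
  (.leaf 2))) (.leaf 2))) (.bis 0 3 1 4 298 (.leaf 2) (.leaf 15)))) (.bis 2 6 4 1 282 (.bis 3 6 4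
  1 278 (.leaf 15) (.bis 0 3 1 4 298 (.leaf 2) (.leaf 15))) (.bis 2 7 4 1 105 (.bis 0 3 1 4 298
  (.leaf 2) (.leaf 15)) (.bis 1 2 1 4 300 (.bis 0 3 1 4 298 (.leaf 9) (.leaf 9)) (.bis 0 3 1 4
  298 (.leaf 2) (.leaf 9)))))) (.bis 0 4 1 2 303 (.bis 4 6 4 1 284 (.bis 3 6 4 1 278 (.leaf 15)
  (.bis 0 3 1 4 304 (.bis 2 3 1 4 298 (.leaf 2) (.leaf 15)) (.leaf 15))) (.bis 2 4 1 4 305 (.bis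
  4 5 8 1 161 (.bis 0 3 1 4 304 (.bis 3 7 4 1 69 (.leaf 2) (.leaf 2)) (.leaf 15)) (.bis 1 4 1 4
  302 (.bis 4 7 4 1 81 (.bis 0 3 1 4 304 (.bis 3 7 4 1 69 (.leaf 2) (.leaf 2)) (.leaf 15)) (.bis
  0 3 1 4 304 (.bis 3 4 1 1 84 (.leaf 6) (.leaf 2)) (.leaf 6))) (.bis 0 3 1 4 304 (.bis 3 7 4 1
  69 (.leaf 2) (.leaf 2)) (.leaf 15)))) (.bis 0 3 1 4 304 (.bis 2 3 1 4 298 (.leaf 2) (.leaf 15))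
  (.leaf 15)))) (.bis 0 3 1 2 297 (.bis 3 6 4 1 278 (.bis 2 7 1 1 301 (.leaf 15) (.leaf 15))
  (.bis 2 3 1 4 298 (.bis 3 4 4 1 304 (.bis 4 7 1 1 306 (.leaf 15) (.leaf 6)) (.bis 3 7 4 1 69
  (.leaf 15) (.leaf 6))) (.bis 2 7 1 1 301 (.leaf 15) (.leaf 15)))) (.bis 0 7 2 1 291 (.leaf 15)
  (.leaf 35))))))))

def lc8 : List Vr := [⟨[73,0,0,0,0,73,0,0], 63948, 0⟩, ⟨[0,24,0,0,0,0,0,0], 10368, 0⟩, ⟨[0,0,28,0,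
  0,0,0,0], 10976, 0⟩, ⟨[0,0,0,17,0,0,0,0], 10404, 0⟩, ⟨[0,0,0,0,28,0,0,0], 10976, 0⟩, ⟨[73,0,0,0,
  0,146,0,79], 242360, 0⟩, ⟨[73,0,0,0,0,73,84,0], 253452, 0⟩, ⟨[73,0,0,0,0,0,0,79], 45260, 0⟩]

theorem lk8 : chkTr lowT (leafLow 3 lowB) lt8 lc8 = true := by decide +kernel

def lt9 : Tr ℕ := (.bis 0 6 1 2 270 (.bis 2 6 1 1 97 (.bis 4 6 1 1 61 (.bis 6 7 4 1 137 (.bis 1 7
  4 1 133 (.bis 2 7 2 1 153 (.bis 3 7 4 1 130 (.bis 4 7 2 1 128 (.leaf 91) (.leaf 20)) (.bis 3 5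
  2 1 131 (.leaf 20) (.bis 3 6 8 1 142 (.leaf 8) (.bis 0 3 1 4 278 (.bis 3 4 2 1 68 (.leaf 2)
  (.leaf 2)) (.leaf 2))))) (.bis 3 5 2 1 131 (.bis 2 5 1 1 151 (.leaf 20) (.leaf 22)) (.bis 3 6 8
  1 142 (.leaf 22) (.bis 0 3 1 4 278 (.bis 2 3 1 2 100 (.leaf 2) (.leaf 2)) (.leaf 2))))) (.bis 1
  5 2 1 134 (.bis 3 5 2 1 131 (.bis 2 5 1 1 151 (.leaf 20) (.leaf 22)) (.bis 3 6 8 1 142 (.leaf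
  22) (.bis 0 3 1 4 278 (.bis 2 3 1 2 100 (.leaf 2) (.leaf 2)) (.leaf 2)))) (.bis 3 6 8 1 142
  (.bis 1 6 8 1 141 (.leaf 11) (.bis 0 1 1 4 279 (.leaf 7) (.leaf 2))) (.bis 0 1 1 4 279 (.bis 2
  3 1 2 100 (.leaf 7) (.leaf 7)) (.bis 0 3 1 4 278 (.bis 2 3 1 2 100 (.leaf 2) (.leaf 2)) (.leaf
  2)))))) (.bis 3 6 1 1 43 (.bis 5 6 1 2 138 (.bis 1 6 1 1 30 (.bis 0 6 1 4 280 (.bis 6 7 8 1 139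
  (.leaf 11) (.bis 2 6 1 2 99 (.bis 4 6 1 2 63 (.bis 3 6 1 2 44 (.bis 5 6 1 4 307 (.leaf 25)
  (.leaf 25)) (.leaf 11)) (.leaf 11)) (.leaf 11))) (.leaf 11)) (.bis 1 5 4 1 140 (.leaf 11) (.bis
  1 7 8 1 141 (.leaf 11) (.leaf 22)))) (.bis 1 5 2 1 134 (.leaf 72) (.bis 1 6 4 1 140 (.leaf 11)
  (.bis 1 7 8 1 141 (.leaf 11) (.leaf 22))))) (.bis 1 5 2 1 134 (.bis 3 5 2 1 131 (.leaf 72)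
  (.bis 3 7 8 1 142 (.leaf 22) (.bis 0 3 1 4 278 (.bis 2 3 1 2 100 (.leaf 7) (.leaf 7)) (.leaf
  22)))) (.bis 3 7 8 1 142 (.bis 1 7 8 1 141 (.leaf 11) (.bis 0 1 1 4 279 (.leaf 7) (.leaf 11)))
  (.bis 0 1 1 4 279 (.bis 2 3 1 2 100 (.leaf 7) (.leaf 7)) (.bis 0 3 1 4 278 (.bis 2 3 1 2 100
  (.leaf 7) (.leaf 3)) (.leaf 11))))))) (.bis 1 7 4 1 133 (.bis 2 7 2 1 153 (.bis 3 7 4 1 130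
  (.bis 4 7 4 1 143 (.bis 6 7 2 1 128 (.leaf 4) (.bis 5 6 1 1 129 (.leaf 8) (.leaf 4))) (.bis 4 5
  2 1 144 (.bis 5 6 1 1 129 (.leaf 8) (.leaf 4)) (.bis 0 4 1 4 284 (.bis 2 4 1 8 155 (.bis 1 4 1
  8 150 (.bis 4 6 2 1 82 (.leaf 8) (.leaf 6)) (.bis 6 7 4 1 145 (.leaf 4) (.leaf 8))) (.bis 6 7 4
  1 145 (.leaf 4) (.leaf 8))) (.leaf 8)))) (.bis 3 5 2 1 131 (.bis 4 5 2 1 144 (.leaf 20) (.bis 0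
  4 1 4 284 (.bis 2 4 1 8 155 (.bis 1 4 1 8 150 (.bis 4 6 2 1 82 (.leaf 8) (.bis 4 7 8 1 147
  (.leaf 6) (.leaf 6))) (.leaf 8)) (.leaf 8)) (.leaf 8))) (.bis 0 4 1 4 284 (.bis 2 4 1 8 155
  (.bis 1 4 1 8 150 (.bis 4 6 2 1 82 (.bis 3 6 2 1 68 (.leaf 2) (.leaf 2)) (.bis 3 4 1 1 84
  (.leaf 6) (.leaf 2))) (.bis 3 6 2 1 68 (.leaf 2) (.leaf 2))) (.bis 3 6 2 1 68 (.leaf 2) (.leaf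
  2))) (.bis 0 3 1 4 278 (.bis 3 6 2 1 68 (.leaf 2) (.leaf 2)) (.leaf 2))))) (.bis 2 4 1 2 103
  (.bis 3 5 2 1 131 (.bis 4 5 2 1 144 (.leaf 20) (.bis 0 4 1 4 284 (.bis 4 7 8 1 155 (.leaf 8)
  (.bis 1 4 1 8 150 (.bis 4 6 2 1 82 (.leaf 8) (.leaf 6)) (.leaf 8))) (.leaf 8))) (.bis 0 4 1 4
  284 (.bis 4 7 8 1 155 (.bis 3 6 2 1 68 (.leaf 2) (.leaf 2)) (.bis 1 4 1 8 150 (.bis 4 6 2 1 82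
  (.bis 3 6 2 1 68 (.leaf 2) (.leaf 2)) (.bis 3 4 1 1 84 (.leaf 6) (.leaf 2))) (.bis 3 6 2 1 68
  (.leaf 2) (.leaf 2)))) (.bis 0 3 1 4 278 (.bis 3 6 2 1 68 (.leaf 2) (.leaf 2)) (.leaf 2))))
  (.bis 3 5 2 1 131 (.bis 2 5 1 1 151 (.leaf 20) (.leaf 2)) (.bis 0 3 1 4 278 (.bis 2 3 1 2 100
  (.leaf 2) (.leaf 2)) (.leaf 2))))) (.bis 2 4 1 2 103 (.bis 1 5 2 1 134 (.bis 3 5 2 1 131 (.bis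
  4 5 2 1 144 (.leaf 20) (.bis 0 4 1 4 284 (.bis 1 4 1 4 149 (.bis 4 7 8 1 150 (.leaf 8) (.bis 4
  6 2 1 82 (.leaf 8) (.leaf 6))) (.leaf 8)) (.leaf 8))) (.bis 0 4 1 4 284 (.bis 1 4 1 4 149 (.bis
  4 7 8 1 150 (.bis 3 6 2 1 68 (.leaf 2) (.leaf 2)) (.bis 4 6 2 1 82 (.bis 3 6 2 1 68 (.leaf 2)
  (.leaf 2)) (.bis 3 4 1 1 84 (.leaf 6) (.leaf 2)))) (.bis 3 6 2 1 68 (.leaf 2) (.leaf 2))) (.bis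
  0 3 1 4 278 (.bis 3 6 2 1 68 (.leaf 2) (.leaf 2)) (.leaf 2)))) (.bis 1 4 1 1 85 (.bis 0 4 1 4
  284 (.bis 4 5 4 1 149 (.bis 3 6 2 1 68 (.leaf 2) (.leaf 2)) (.bis 4 7 8 1 150 (.leaf 2) (.bis 4
  6 2 1 82 (.bis 3 6 2 1 68 (.leaf 2) (.leaf 2)) (.leaf 6)))) (.bis 0 3 1 4 278 (.leaf 2) (.leaf
  2))) (.bis 0 1 1 4 279 (.leaf 7) (.bis 0 3 1 4 278 (.leaf 2) (.leaf 2))))) (.bis 1 5 2 1 134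
  (.bis 3 5 2 1 131 (.bis 2 5 1 1 151 (.leaf 20) (.leaf 2)) (.bis 0 3 1 4 278 (.leaf 2) (.leaf
  2))) (.bis 0 1 1 4 279 (.bis 2 3 1 2 100 (.leaf 7) (.leaf 7)) (.bis 0 3 1 4 278 (.bis 2 3 1 2
  100 (.leaf 2) (.leaf 2)) (.leaf 2))))))) (.bis 2 5 2 1 156 (.bis 1 7 4 1 133 (.bis 6 7 2 1 153
  (.bis 3 7 4 1 130 (.bis 4 7 4 1 143 (.leaf 4) (.bis 4 5 2 1 144 (.leaf 4) (.bis 0 4 1 4 284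
  (.bis 4 6 8 1 155 (.leaf 4) (.bis 1 4 1 8 150 (.bis 2 4 1 4 157 (.bis 3 4 1 8 147 (.leaf 6)
  (.leaf 4)) (.leaf 4)) (.leaf 4))) (.leaf 4)))) (.bis 3 5 2 1 131 (.bis 4 5 2 1 144 (.leaf 4)
  (.bis 0 4 1 4 284 (.bis 4 6 8 1 155 (.leaf 4) (.bis 1 4 1 8 150 (.bis 2 4 1 4 157 (.bis 4 7 8 1
  147 (.leaf 4) (.leaf 6)) (.leaf 4)) (.leaf 4))) (.leaf 4))) (.bis 0 4 1 4 284 (.bis 4 6 8 1 155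
  (.bis 3 6 8 1 154 (.leaf 2) (.leaf 2)) (.bis 1 4 1 8 150 (.bis 2 4 1 4 157 (.bis 3 4 1 1 84
  (.bis 4 7 8 1 147 (.leaf 2) (.leaf 6)) (.leaf 2)) (.leaf 2)) (.bis 1 3 1 8 158 (.leaf 2) (.leaf
  2)))) (.bis 0 3 1 4 278 (.bis 3 6 8 1 154 (.leaf 2) (.leaf 2)) (.leaf 2))))) (.bis 4 6 2 1 103
  (.bis 3 5 2 1 131 (.bis 5 6 1 1 151 (.leaf 2) (.leaf 20)) (.bis 0 3 1 4 278 (.leaf 2) (.leaf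
  2))) (.bis 3 5 2 1 131 (.bis 4 5 2 1 144 (.leaf 20) (.bis 0 4 1 4 284 (.bis 4 7 8 1 155 (.leaf
  8) (.bis 1 4 1 8 150 (.bis 2 4 1 4 157 (.bis 3 4 1 4 244 (.leaf 6) (.leaf 6)) (.leaf 6)) (.leaf
  6))) (.leaf 8))) (.bis 0 4 1 4 284 (.bis 4 7 8 1 155 (.bis 3 7 8 1 154 (.leaf 2) (.leaf 2))
  (.bis 1 4 1 8 150 (.bis 2 4 1 4 157 (.bis 3 4 1 1 84 (.leaf 6) (.leaf 2)) (.leaf 2)) (.leaf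
  2))) (.bis 0 3 1 4 278 (.leaf 2) (.leaf 2)))))) (.bis 4 6 2 1 103 (.bis 1 5 2 1 134 (.bis 3 5 2
  1 131 (.bis 5 6 1 1 151 (.leaf 2) (.leaf 20)) (.bis 0 3 1 4 278 (.leaf 2) (.leaf 2))) (.bis 0 1
  1 4 279 (.bis 1 2 4 1 308 (.bis 3 6 2 1 100 (.leaf 2) (.leaf 2)) (.bis 3 6 2 1 100 (.leaf 7)
  (.leaf 7))) (.bis 0 3 1 4 278 (.leaf 2) (.leaf 2)))) (.bis 1 5 2 1 134 (.bis 3 5 2 1 131 (.bis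
  4 5 2 1 144 (.leaf 20) (.bis 0 4 1 4 284 (.bis 1 4 1 4 149 (.bis 4 7 8 1 150 (.leaf 6) (.bis 2
  4 1 4 157 (.bis 3 4 1 4 244 (.leaf 6) (.leaf 6)) (.leaf 6))) (.leaf 8)) (.leaf 8))) (.bis 0 4 1
  4 284 (.bis 1 4 1 4 149 (.bis 4 7 8 1 150 (.leaf 2) (.bis 2 4 1 4 157 (.bis 3 4 1 1 84 (.leaf
  6) (.leaf 2)) (.leaf 2))) (.bis 1 3 1 4 135 (.leaf 2) (.leaf 2))) (.bis 0 3 1 4 278 (.leaf 2)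
  (.leaf 2)))) (.bis 1 4 1 1 85 (.bis 0 4 1 4 284 (.bis 4 5 4 1 149 (.leaf 2) (.bis 4 7 8 1 150
  (.leaf 2) (.bis 2 4 1 4 157 (.leaf 6) (.leaf 2)))) (.bis 0 3 1 4 278 (.leaf 2) (.leaf 2)))
  (.bis 0 1 1 4 279 (.leaf 7) (.bis 0 3 1 4 278 (.leaf 2) (.leaf 2))))))) (.bis 1 7 4 1 133 (.bis
  2 7 4 1 160 (.bis 6 7 2 1 153 (.bis 3 7 4 1 130 (.bis 4 7 4 1 143 (.leaf 4) (.bis 0 4 1 4 284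
  (.bis 4 6 8 1 155 (.leaf 4) (.bis 2 4 1 8 161 (.bis 1 4 1 8 150 (.bis 4 5 4 1 157 (.leaf 4)
  (.bis 3 4 1 8 147 (.leaf 6) (.leaf 4))) (.leaf 4)) (.leaf 4))) (.leaf 4))) (.bis 0 4 1 4 284
  (.bis 4 6 8 1 155 (.bis 3 6 8 1 154 (.leaf 2) (.bis 2 3 1 8 163 (.leaf 2) (.leaf 2))) (.bis 2 4
  1 8 161 (.bis 1 4 1 8 150 (.bis 4 5 4 1 157 (.bis 3 5 4 1 164 (.leaf 2) (.leaf 2)) (.bis 3 4 1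
  1 84 (.leaf 6) (.leaf 2))) (.bis 1 3 1 8 158 (.leaf 2) (.leaf 2))) (.bis 2 3 1 8 163 (.leaf 2)
  (.leaf 2)))) (.bis 0 3 1 4 278 (.bis 3 6 8 1 154 (.leaf 2) (.leaf 2)) (.leaf 2)))) (.bis 4 6 2
  1 103 (.bis 0 3 1 4 278 (.bis 3 6 2 1 100 (.leaf 2) (.leaf 2)) (.leaf 2)) (.bis 0 4 1 4 284
  (.bis 4 7 8 1 155 (.bis 3 7 8 1 154 (.leaf 2) (.leaf 2)) (.bis 2 4 1 8 161 (.bis 1 4 1 8 150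
  (.bis 4 5 4 1 157 (.leaf 2) (.bis 3 4 1 1 84 (.leaf 6) (.leaf 2))) (.bis 1 3 1 8 158 (.leaf 2)
  (.leaf 2))) (.bis 2 3 1 8 163 (.leaf 2) (.leaf 2)))) (.bis 0 3 1 4 278 (.bis 3 7 8 1 154 (.leaf
  2) (.leaf 2)) (.leaf 2))))) (.bis 2 4 1 1 110 (.bis 4 6 2 1 103 (.bis 0 3 1 4 278 (.bis 2 6 1 1
  112 (.leaf 2) (.leaf 2)) (.leaf 2)) (.bis 0 4 1 4 284 (.bis 4 7 8 1 161 (.leaf 2) (.bis 1 4 1 8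
  150 (.bis 4 5 4 1 157 (.leaf 2) (.leaf 6)) (.leaf 2))) (.bis 0 3 1 4 278 (.leaf 2) (.leaf 2))))
  (.bis 0 2 1 4 282 (.bis 1 2 1 8 159 (.bis 2 6 2 1 109 (.leaf 2) (.bis 2 3 1 1 120 (.leaf 2)
  (.leaf 9))) (.bis 4 6 1 1 112 (.bis 3 6 2 1 100 (.leaf 2) (.leaf 2)) (.leaf 2))) (.bis 0 3 1 4
  278 (.bis 4 6 1 1 112 (.leaf 2) (.leaf 2)) (.bis 0 4 1 2 285 (.leaf 2) (.leaf 2)))))) (.bis 2 4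
  1 1 110 (.bis 4 6 2 1 103 (.bis 1 2 2 1 111 (.leaf 2) (.bis 0 1 1 4 279 (.leaf 7) (.bis 0 3 1 4
  278 (.leaf 2) (.leaf 2)))) (.bis 1 4 1 1 85 (.bis 0 4 1 4 284 (.bis 4 7 8 1 150 (.leaf 2) (.bis
  4 5 4 1 157 (.leaf 2) (.leaf 6))) (.leaf 2)) (.bis 1 2 2 1 111 (.leaf 2) (.bis 0 1 1 4 279
  (.leaf 7) (.leaf 2))))) (.bis 1 2 1 1 104 (.bis 0 2 1 4 282 (.bis 2 7 8 1 159 (.leaf 2) (.bis 2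
  6 2 1 109 (.leaf 2) (.leaf 9))) (.leaf 2)) (.bis 1 4 2 1 111 (.leaf 2) (.leaf 26))))))) (.bis 0
  1 1 2 299 (.bis 2 5 2 1 156 (.bis 1 7 4 1 133 (.bis 3 7 4 1 130 (.bis 4 7 4 1 143 (.bis 0 5 1 2
  309 (.leaf 4) (.leaf 4)) (.bis 4 5 2 1 144 (.leaf 4) (.bis 4 6 4 1 284 (.leaf 4) (.bis 0 4 1 4
  302 (.bis 1 4 1 8 150 (.bis 2 4 1 4 157 (.bis 3 4 1 8 147 (.leaf 6) (.leaf 4)) (.leaf 4))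
  (.leaf 4)) (.leaf 4))))) (.bis 3 5 2 1 131 (.bis 4 5 2 1 144 (.leaf 4) (.bis 4 6 4 1 284 (.leaf
  4) (.bis 0 4 1 4 302 (.bis 1 4 1 8 150 (.bis 2 4 1 4 157 (.bis 4 7 8 1 147 (.leaf 4) (.leaf 6))
  (.leaf 4)) (.leaf 4)) (.leaf 4)))) (.bis 4 6 4 1 284 (.bis 3 6 4 1 278 (.leaf 2) (.leaf 2))
  (.bis 0 4 1 4 302 (.bis 1 4 1 8 150 (.bis 2 4 1 4 157 (.bis 3 4 1 1 84 (.bis 4 7 8 1 147 (.leaf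
  2) (.leaf 6)) (.leaf 2)) (.leaf 2)) (.leaf 2)) (.bis 0 3 1 4 310 (.leaf 2) (.leaf 2)))))) (.bis
  1 5 2 1 134 (.bis 3 5 2 1 131 (.bis 4 5 2 1 144 (.leaf 4) (.bis 4 6 4 1 284 (.leaf 4) (.bis 1 4
  1 4 149 (.bis 0 4 1 4 302 (.bis 4 7 8 1 150 (.leaf 4) (.bis 2 4 1 4 157 (.leaf 6) (.leaf 4)))
  (.leaf 4)) (.leaf 4)))) (.bis 4 6 4 1 284 (.bis 3 6 4 1 278 (.leaf 2) (.bis 1 3 1 4 135 (.leaf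
  2) (.leaf 2))) (.bis 1 4 1 4 149 (.bis 0 4 1 4 302 (.bis 4 7 8 1 150 (.bis 3 7 8 1 158 (.leaf
  2) (.leaf 2)) (.bis 2 4 1 4 157 (.bis 3 4 1 1 84 (.leaf 6) (.leaf 2)) (.leaf 2))) (.bis 0 3 1 4
  310 (.leaf 2) (.leaf 2))) (.bis 1 3 1 4 135 (.leaf 2) (.leaf 2))))) (.bis 1 4 1 1 85 (.bis 4 6
  4 1 284 (.bis 3 6 4 1 278 (.leaf 2) (.leaf 2)) (.bis 4 5 4 1 149 (.bis 3 5 4 1 135 (.leaf 2)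
  (.leaf 2)) (.bis 0 4 1 4 302 (.bis 4 7 8 1 150 (.leaf 2) (.bis 2 4 1 4 157 (.leaf 6) (.leaf
  2))) (.leaf 2)))) (.bis 1 6 4 1 279 (.bis 3 6 4 1 278 (.leaf 2) (.leaf 2)) (.leaf 26))))) (.bis
  1 7 4 1 133 (.bis 2 7 4 1 160 (.bis 3 7 4 1 130 (.bis 4 7 4 1 143 (.leaf 4) (.bis 4 6 4 1 284
  (.leaf 4) (.bis 2 4 1 8 161 (.bis 0 4 1 4 302 (.bis 1 4 1 8 150 (.bis 4 5 4 1 157 (.leaf 4)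
  (.bis 3 4 1 8 147 (.leaf 6) (.leaf 4))) (.leaf 4)) (.leaf 4)) (.leaf 4)))) (.bis 4 6 4 1 284
  (.bis 3 6 4 1 278 (.leaf 2) (.bis 2 3 1 8 163 (.leaf 2) (.leaf 2))) (.bis 2 4 1 8 161 (.bis 0 4
  1 4 302 (.bis 1 4 1 8 150 (.bis 4 5 4 1 157 (.leaf 2) (.bis 3 4 1 1 84 (.leaf 6) (.leaf 2)))
  (.bis 1 3 1 8 158 (.leaf 2) (.leaf 2))) (.bis 0 3 1 4 310 (.leaf 2) (.leaf 2))) (.bis 2 3 1 8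
  163 (.leaf 2) (.leaf 2))))) (.bis 2 4 1 1 110 (.bis 4 6 4 1 284 (.bis 3 6 4 1 278 (.bis 2 6 2 1
  285 (.leaf 2) (.leaf 2)) (.leaf 2)) (.bis 4 7 8 1 161 (.bis 1 2 1 4 311 (.leaf 2) (.bis 3 7 8 1
  163 (.leaf 2) (.leaf 2))) (.bis 0 4 1 4 302 (.bis 1 4 1 8 150 (.bis 4 5 4 1 157 (.leaf 2)
  (.leaf 6)) (.leaf 2)) (.leaf 2)))) (.bis 2 6 4 1 282 (.bis 3 6 4 1 278 (.bis 4 6 2 1 285 (.leaf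
  2) (.leaf 2)) (.leaf 2)) (.bis 1 2 1 8 159 (.bis 0 2 1 4 300 (.bis 2 3 1 1 120 (.leaf 2) (.leaf
  9)) (.bis 3 7 8 1 163 (.leaf 2) (.leaf 2))) (.bis 1 4 1 4 311 (.leaf 2) (.bis 3 7 8 1 163
  (.leaf 2) (.leaf 2))))))) (.bis 2 4 1 1 110 (.bis 1 4 1 1 85 (.bis 4 6 4 1 284 (.leaf 2) (.bis
  0 4 1 4 302 (.bis 4 7 8 1 150 (.leaf 2) (.bis 4 5 4 1 157 (.leaf 2) (.leaf 6))) (.leaf 2)))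
  (.bis 1 2 2 1 111 (.leaf 2) (.bis 1 6 4 1 279 (.leaf 2) (.leaf 26)))) (.bis 1 2 1 1 104 (.bis 2
  6 4 1 282 (.leaf 2) (.bis 2 7 8 1 159 (.leaf 2) (.bis 0 2 1 4 300 (.bis 2 3 1 1 120 (.leaf 2)
  (.leaf 9)) (.leaf 2)))) (.bis 1 4 2 1 111 (.leaf 2) (.bis 1 6 4 1 279 (.leaf 2) (.leaf
  26))))))) (.bis 2 5 2 1 156 (.bis 0 4 1 2 303 (.bis 3 7 4 1 130 (.bis 4 7 4 1 143 (.bis 0 5 1 2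
  312 (.leaf 4) (.leaf 4)) (.bis 4 5 2 1 144 (.bis 0 5 1 2 312 (.leaf 4) (.leaf 4)) (.bis 4 6 4 1
  284 (.leaf 4) (.bis 1 4 1 4 302 (.bis 2 4 1 4 157 (.bis 3 4 1 8 147 (.leaf 6) (.leaf 4)) (.leaf
  4)) (.leaf 4))))) (.bis 3 5 2 1 131 (.bis 4 5 2 1 144 (.leaf 4) (.bis 4 6 4 1 284 (.leaf 4)
  (.bis 1 4 1 4 302 (.bis 2 4 1 4 157 (.bis 4 7 8 1 147 (.leaf 4) (.leaf 6)) (.leaf 4)) (.leaf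
  4)))) (.bis 4 6 4 1 284 (.bis 3 6 4 1 278 (.leaf 4) (.bis 0 3 1 4 304 (.leaf 2) (.leaf 4)))
  (.bis 1 4 1 4 302 (.bis 2 4 1 4 157 (.bis 0 3 1 4 304 (.bis 3 4 1 1 84 (.bis 4 7 8 1 147 (.leaf
  2) (.leaf 6)) (.leaf 2)) (.bis 4 7 8 1 147 (.leaf 4) (.leaf 6))) (.bis 0 3 1 4 304 (.leaf 2)
  (.leaf 4))) (.bis 0 3 1 4 304 (.leaf 2) (.leaf 4)))))) (.bis 0 3 1 2 297 (.bis 3 7 4 1 130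
  (.bis 0 5 1 2 313 (.bis 4 5 1 2 312 (.leaf 4) (.leaf 4)) (.leaf 4)) (.bis 3 5 2 1 131 (.bis 0 5
  1 2 313 (.leaf 4) (.leaf 4)) (.bis 3 6 4 1 278 (.leaf 4) (.leaf 6)))) (.bis 0 5 1 1 314 (.bis 3
  5 1 2 313 (.leaf 4) (.leaf 4)) (.bis 0 2 2 1 315 (.leaf 4) (.leaf 35))))) (.bis 2 7 4 1 160
  (.bis 0 4 1 2 303 (.bis 3 7 4 1 130 (.bis 4 7 4 1 143 (.leaf 4) (.bis 4 6 4 1 284 (.leaf 4)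
  (.bis 2 4 1 8 161 (.bis 1 4 1 4 302 (.bis 4 5 4 1 157 (.leaf 4) (.bis 3 4 1 8 147 (.leaf 6)
  (.leaf 4))) (.leaf 4)) (.leaf 4)))) (.bis 4 6 4 1 284 (.bis 3 6 4 1 278 (.leaf 4) (.bis 0 3 1 4
  304 (.leaf 2) (.leaf 4))) (.bis 2 4 1 8 161 (.bis 1 4 1 4 302 (.bis 4 5 4 1 157 (.bis 0 3 1 4
  304 (.leaf 2) (.leaf 4)) (.bis 0 3 1 4 304 (.bis 3 4 1 1 84 (.leaf 6) (.leaf 2)) (.bis 4 7 8 1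
  147 (.leaf 4) (.leaf 6)))) (.bis 0 3 1 4 304 (.leaf 2) (.leaf 4))) (.bis 0 3 1 4 304 (.leaf 2)
  (.leaf 4))))) (.bis 0 3 1 2 297 (.bis 3 7 4 1 130 (.leaf 4) (.bis 3 6 4 1 278 (.leaf 4) (.bis 3
  4 4 1 304 (.leaf 4) (.leaf 6)))) (.bis 0 5 2 1 315 (.leaf 4) (.leaf 35)))) (.bis 0 2 1 2 294
  (.bis 2 4 1 1 110 (.bis 4 6 4 1 284 (.bis 3 6 4 1 278 (.leaf 15) (.bis 0 3 1 4 298 (.leaf 2)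
  (.leaf 9))) (.bis 0 4 1 4 305 (.bis 4 7 8 1 161 (.bis 3 7 8 1 163 (.leaf 2) (.leaf 2)) (.bis 1
  4 1 4 302 (.bis 4 5 4 1 157 (.leaf 2) (.leaf 6)) (.leaf 2))) (.bis 0 3 1 4 298 (.leaf 2) (.leaf
  9)))) (.bis 2 6 4 1 282 (.bis 3 6 4 1 278 (.leaf 15) (.bis 0 3 1 4 298 (.leaf 2) (.leaf 9)))
  (.bis 1 2 1 4 300 (.bis 0 3 1 4 298 (.bis 2 3 1 1 120 (.leaf 2) (.leaf 9)) (.bis 2 5 4 1 316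
  (.leaf 9) (.leaf 9))) (.bis 0 3 1 4 298 (.leaf 2) (.leaf 9))))) (.bis 0 4 1 2 303 (.bis 4 6 4 1
  284 (.bis 3 6 4 1 278 (.leaf 15) (.bis 0 3 1 4 304 (.bis 2 3 1 4 298 (.leaf 2) (.leaf 9))
  (.leaf 15))) (.bis 2 4 1 4 305 (.bis 4 7 8 1 161 (.bis 0 3 1 4 304 (.bis 3 7 8 1 163 (.leaf 2)
  (.leaf 2)) (.leaf 6)) (.bis 1 4 1 4 302 (.bis 4 5 4 1 157 (.bis 0 3 1 4 304 (.leaf 2) (.leaf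
  6)) (.bis 0 3 1 4 304 (.leaf 6) (.leaf 6))) (.bis 0 3 1 4 304 (.leaf 2) (.leaf 6)))) (.bis 0 3
  1 4 304 (.bis 2 3 1 4 298 (.leaf 2) (.leaf 9)) (.leaf 15)))) (.bis 0 3 1 2 297 (.bis 3 6 4 1
  278 (.leaf 15) (.bis 2 3 1 4 298 (.bis 3 4 4 1 304 (.leaf 6) (.leaf 6)) (.leaf 15))) (.bis 0 5
  2 1 315 (.leaf 15) (.leaf 35)))))))))

def lc9 : List Vr := [⟨[73,0,0,0,0,73,0,0], 63948, 0⟩, ⟨[0,24,0,0,0,0,0,0], 10368, 0⟩, ⟨[0,0,28,0,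
  0,0,0,0], 10976, 0⟩, ⟨[0,0,0,17,0,0,0,0], 10404, 0⟩, ⟨[0,0,0,0,28,0,0,0], 10976, 0⟩, ⟨[0,0,0,0,
  0,73,42,0], 58034, 0⟩, ⟨[0,0,0,0,0,0,42,0], 10584, 0⟩, ⟨[73,0,0,0,0,146,0,79], 242360, 0⟩]

theorem lk9 : chkTr lowT (leafLow 3 lowB) lt9 lc9 = true := by decide +kernel

def lt10 : Tr ℕ := (.bis 2 5 1 1 165 (.bis 1 5 1 1 166 (.bis 3 5 1 1 167 (.bis 4 5 1 1 168 (.bis
  0 5 1 2 317 (.bis 5 7 4 1 188 (.bis 0 6 1 2 318 (.bis 4 7 2 1 184 (.bis 5 6 1 4 190 (.leaf 4)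
  (.leaf 27)) (.bis 4 6 1 1 185 (.bis 5 6 1 4 190 (.leaf 4) (.leaf 17)) (.bis 2 5 4 1 192 (.leaf
  17) (.leaf 17)))) (.bis 4 7 2 1 184 (.bis 3 7 2 1 179 (.bis 1 7 2 1 176 (.bis 0 7 1 1 319
  (.leaf 27) (.bis 2 5 4 1 192 (.leaf 17) (.bis 0 1 2 1 320 (.leaf 17) (.leaf 17)))) (.bis 0 1 1
  2 321 (.leaf 17) (.bis 2 5 4 1 192 (.leaf 17) (.bis 0 7 2 1 320 (.leaf 17) (.leaf 17))))) (.bis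
  0 1 1 2 321 (.leaf 17) (.leaf 17))) (.bis 0 1 1 2 321 (.leaf 17) (.leaf 17)))) (.bis 5 6 2 1
  189 (.bis 0 6 1 2 318 (.bis 4 6 1 1 185 (.bis 6 7 4 1 190 (.leaf 17) (.leaf 74)) (.bis 2 5 2 1
  191 (.bis 1 7 4 1 322 (.leaf 17) (.leaf 17)) (.bis 2 7 4 1 192 (.leaf 17) (.leaf 17)))) (.bis 0
  1 1 2 321 (.bis 2 5 2 1 191 (.leaf 17) (.bis 2 7 4 1 192 (.leaf 17) (.leaf 17))) (.bis 2 5 2 1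
  191 (.bis 0 4 1 2 323 (.leaf 17) (.leaf 17)) (.leaf 17)))) (.bis 2 5 1 2 193 (.bis 1 5 1 2 194
  (.bis 3 5 1 2 195 (.bis 4 5 1 2 196 (.bis 0 5 1 4 324 (.bis 5 7 8 1 209 (.bis 0 6 1 2 325
  (.leaf 23) (.leaf 77)) (.bis 5 6 4 1 210 (.bis 0 6 1 2 325 (.leaf 23) (.leaf 45)) (.bis 2 5 1 4
  211 (.bis 1 5 1 4 212 (.bis 3 5 1 4 213 (.bis 4 5 1 4 214 (.bis 0 5 1 8 326 (.bis 5 7 16 1 216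
  (.leaf 42) (.bis 5 6 8 1 217 (.leaf 42) (.bis 2 5 1 8 218 (.bis 1 5 1 8 219 (.bis 3 5 1 8 220
  (.leaf 83) (.leaf 42)) (.leaf 42)) (.leaf 42)))) (.leaf 97)) (.leaf 45)) (.leaf 45)) (.leaf
  45)) (.leaf 45)))) (.bis 0 6 1 1 327 (.bis 5 6 1 2 325 (.bis 4 7 2 1 206 (.leaf 23) (.leaf 23))
  (.leaf 77)) (.bis 0 4 1 1 328 (.leaf 77) (.leaf 84)))) (.bis 0 4 1 2 323 (.leaf 52) (.bis 0 6 1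
  1 327 (.bis 4 6 1 2 329 (.bis 5 7 2 1 206 (.leaf 23) (.leaf 23)) (.bis 5 7 2 1 206 (.leaf 52)
  (.leaf 52))) (.bis 0 5 1 1 328 (.leaf 52) (.leaf 84))))) (.bis 0 4 1 2 323 (.leaf 52) (.leaf
  98))) (.bis 0 1 1 2 321 (.leaf 17) (.bis 0 4 1 2 323 (.leaf 17) (.bis 0 6 1 1 327 (.leaf 17)
  (.leaf 17))))) (.bis 0 1 1 2 321 (.bis 2 6 2 1 191 (.leaf 17) (.bis 1 5 2 1 225 (.leaf 17)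
  (.bis 2 7 4 1 192 (.leaf 17) (.leaf 17)))) (.bis 2 6 2 1 191 (.leaf 17) (.leaf 17)))))) (.bis 0
  6 1 1 314 (.bis 5 6 1 2 318 (.bis 4 7 2 1 184 (.leaf 4) (.bis 4 6 1 1 185 (.leaf 4) (.leaf
  33))) (.bis 4 7 2 1 184 (.bis 3 7 2 1 179 (.bis 1 7 2 1 176 (.bis 5 7 1 1 319 (.leaf 4) (.bis 1
  5 1 2 320 (.leaf 27) (.leaf 4))) (.bis 1 5 2 1 321 (.bis 5 7 2 1 320 (.leaf 27) (.leaf 27))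
  (.leaf 27))) (.bis 1 5 2 1 321 (.bis 3 5 2 1 330 (.leaf 27) (.leaf 27)) (.leaf 27))) (.bis 0 4
  1 2 331 (.bis 1 5 2 1 321 (.bis 4 5 2 1 323 (.leaf 17) (.leaf 17)) (.leaf 17)) (.bis 1 5 2 1
  321 (.bis 3 5 2 1 330 (.leaf 27) (.leaf 27)) (.leaf 27))))) (.bis 0 4 1 1 332 (.bis 4 7 2 1 184
  (.bis 3 7 2 1 179 (.bis 1 7 2 1 176 (.bis 5 7 1 1 319 (.leaf 27) (.bis 1 5 1 2 320 (.leaf 27)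
  (.leaf 27))) (.bis 1 5 2 1 321 (.bis 5 7 2 1 320 (.leaf 27) (.leaf 27)) (.leaf 27))) (.bis 1 5
  2 1 321 (.leaf 27) (.leaf 27))) (.bis 4 6 2 1 331 (.bis 1 5 2 1 321 (.leaf 27) (.leaf 27))
  (.bis 1 5 2 1 321 (.bis 4 5 2 1 323 (.leaf 17) (.leaf 17)) (.leaf 17)))) (.bis 0 1 1 1 333
  (.bis 3 7 2 1 179 (.bis 1 7 2 1 176 (.bis 5 7 1 1 319 (.leaf 27) (.leaf 27)) (.bis 1 5 2 1 321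
  (.leaf 27) (.leaf 27))) (.bis 1 5 2 1 321 (.leaf 27) (.leaf 27))) (.bis 0 3 1 1 334 (.leaf 27)
  (.leaf 99)))))) (.bis 0 4 1 2 303 (.bis 4 7 4 1 143 (.bis 0 6 1 2 312 (.bis 5 7 2 1 184 (.leaf
  4) (.bis 5 6 1 1 185 (.leaf 4) (.leaf 33))) (.bis 5 7 2 1 184 (.leaf 4) (.leaf 56))) (.bis 4 6
  2 1 144 (.bis 0 6 1 2 312 (.leaf 33) (.leaf 56)) (.bis 2 4 1 2 234 (.bis 1 4 1 2 235 (.bis 3 4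
  1 2 236 (.leaf 96) (.leaf 56)) (.leaf 56)) (.leaf 56)))) (.bis 0 6 1 1 314 (.bis 4 6 1 2 312
  (.bis 5 7 2 1 184 (.leaf 4) (.bis 5 6 1 1 185 (.leaf 4) (.leaf 33))) (.bis 5 7 2 1 184 (.leaf
  4) (.leaf 56))) (.bis 0 5 1 1 332 (.bis 5 7 2 1 184 (.leaf 85) (.leaf 56)) (.bis 0 1 1 1 333
  (.leaf 85) (.bis 0 3 1 1 334 (.leaf 59) (.leaf 59))))))) (.bis 0 4 1 2 303 (.bis 3 7 4 1 130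
  (.bis 4 7 4 1 143 (.bis 0 6 1 2 312 (.leaf 4) (.leaf 4)) (.bis 4 6 2 1 144 (.bis 0 6 1 2 312
  (.leaf 4) (.leaf 4)) (.bis 2 4 1 2 234 (.bis 1 4 1 2 235 (.bis 4 5 2 1 236 (.leaf 4) (.leaf 6))
  (.leaf 4)) (.leaf 4)))) (.bis 3 6 2 1 131 (.bis 4 6 2 1 144 (.leaf 4) (.bis 2 4 1 2 234 (.bis 1
  4 1 2 235 (.bis 4 5 2 1 236 (.leaf 4) (.bis 4 7 8 1 147 (.leaf 4) (.leaf 6))) (.leaf 4)) (.leaf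
  4))) (.bis 1 3 1 2 241 (.bis 2 3 1 2 242 (.bis 3 5 2 1 243 (.bis 4 5 2 1 236 (.leaf 4) (.bis 4
  7 8 1 147 (.leaf 4) (.bis 4 6 4 1 244 (.leaf 4) (.bis 2 4 1 4 245 (.leaf 6) (.leaf 6))))) (.bis
  0 3 1 4 304 (.bis 3 4 1 1 84 (.bis 4 7 8 1 147 (.leaf 6) (.bis 4 6 4 1 244 (.leaf 6) (.bis 2 4
  1 4 245 (.leaf 6) (.leaf 6)))) (.leaf 6)) (.bis 4 7 8 1 147 (.leaf 4) (.bis 4 6 4 1 244 (.leaf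
  4) (.bis 2 4 1 4 245 (.leaf 6) (.leaf 6)))))) (.bis 2 4 1 2 234 (.bis 4 5 2 1 236 (.leaf 4)
  (.bis 4 7 8 1 147 (.leaf 4) (.bis 4 6 4 1 244 (.leaf 4) (.leaf 6)))) (.leaf 4))) (.bis 2 4 1 2
  234 (.bis 1 4 1 2 235 (.bis 4 5 2 1 236 (.leaf 4) (.bis 4 7 8 1 147 (.leaf 4) (.leaf 6)))
  (.leaf 4)) (.leaf 4))))) (.bis 0 3 1 2 297 (.bis 3 7 4 1 130 (.bis 0 6 1 2 313 (.bis 4 6 1 2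
  312 (.leaf 4) (.leaf 4)) (.leaf 4)) (.bis 3 6 2 1 131 (.bis 0 6 1 2 313 (.bis 4 6 1 2 312
  (.leaf 4) (.leaf 4)) (.leaf 4)) (.bis 1 3 1 2 241 (.bis 2 3 1 2 242 (.bis 3 5 2 1 243 (.leaf 4)
  (.leaf 6)) (.leaf 4)) (.leaf 4)))) (.bis 0 6 1 1 314 (.bis 3 6 1 2 313 (.leaf 4) (.leaf 4))
  (.bis 0 1 1 1 333 (.leaf 4) (.leaf 59)))))) (.bis 0 1 1 2 299 (.bis 1 2 2 1 248 (.bis 3 7 4 1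
  130 (.bis 4 7 4 1 143 (.bis 0 6 1 2 309 (.leaf 4) (.leaf 4)) (.bis 4 6 2 1 144 (.leaf 4) (.bis
  2 4 1 2 234 (.bis 4 5 2 1 235 (.leaf 4) (.bis 0 4 1 4 302 (.bis 1 4 1 4 249 (.leaf 6) (.leaf
  4)) (.leaf 4))) (.leaf 4)))) (.bis 3 6 2 1 131 (.bis 4 6 2 1 144 (.leaf 4) (.bis 2 4 1 2 234
  (.bis 4 5 2 1 235 (.leaf 4) (.bis 0 4 1 4 302 (.bis 1 4 1 4 249 (.bis 4 7 8 1 147 (.leaf 4)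
  (.leaf 6)) (.leaf 4)) (.leaf 4))) (.leaf 4))) (.bis 3 5 2 1 241 (.bis 2 4 1 2 234 (.bis 4 5 2 1
  235 (.leaf 4) (.bis 0 4 1 4 302 (.bis 1 4 1 4 249 (.bis 4 7 8 1 147 (.leaf 4) (.leaf 6)) (.leaf
  4)) (.leaf 4))) (.leaf 4)) (.bis 2 3 1 2 242 (.bis 0 4 1 4 302 (.bis 1 4 1 4 249 (.bis 3 4 1 1
  84 (.bis 4 7 8 1 147 (.leaf 2) (.bis 4 6 4 1 244 (.leaf 2) (.leaf 6))) (.leaf 2)) (.leaf 2))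
  (.leaf 2)) (.bis 2 4 1 2 234 (.bis 0 4 1 4 302 (.bis 1 4 1 4 249 (.bis 4 7 8 1 147 (.leaf 4)
  (.bis 4 6 4 1 244 (.leaf 4) (.leaf 6))) (.leaf 4)) (.leaf 4)) (.leaf 4)))))) (.bis 1 7 4 1 133
  (.bis 3 7 4 1 130 (.bis 4 7 4 1 143 (.bis 0 6 1 2 309 (.leaf 4) (.leaf 4)) (.bis 4 6 2 1 144
  (.leaf 4) (.bis 4 5 2 1 235 (.leaf 4) (.bis 0 4 1 4 302 (.bis 1 4 1 8 150 (.bis 2 4 1 4 249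
  (.leaf 6) (.leaf 4)) (.leaf 4)) (.leaf 4))))) (.bis 3 6 2 1 131 (.bis 4 6 2 1 144 (.leaf 4)
  (.bis 4 5 2 1 235 (.leaf 4) (.bis 0 4 1 4 302 (.bis 1 4 1 8 150 (.bis 2 4 1 4 249 (.bis 4 7 8 1
  147 (.leaf 4) (.leaf 6)) (.leaf 4)) (.leaf 4)) (.leaf 4)))) (.bis 3 5 2 1 241 (.bis 4 5 2 1 235
  (.leaf 4) (.bis 0 4 1 4 302 (.bis 1 4 1 8 150 (.bis 2 4 1 4 249 (.bis 4 7 8 1 147 (.leaf 4)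
  (.leaf 6)) (.leaf 4)) (.leaf 4)) (.leaf 4))) (.bis 0 4 1 4 302 (.bis 1 4 1 8 150 (.bis 2 4 1 4
  249 (.bis 3 4 1 1 84 (.bis 4 7 8 1 147 (.leaf 2) (.leaf 6)) (.leaf 2)) (.leaf 2)) (.leaf 2))
  (.leaf 2))))) (.bis 1 6 2 1 134 (.bis 3 6 2 1 131 (.bis 4 6 2 1 144 (.leaf 4) (.bis 4 5 2 1 235
  (.leaf 4) (.bis 1 4 1 4 149 (.bis 0 4 1 4 302 (.bis 4 7 8 1 150 (.leaf 4) (.bis 2 4 1 4 249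
  (.leaf 6) (.leaf 4))) (.leaf 4)) (.leaf 4)))) (.bis 3 5 2 1 241 (.bis 4 5 2 1 235 (.leaf 4)
  (.bis 1 4 1 4 149 (.bis 0 4 1 4 302 (.bis 4 7 8 1 150 (.leaf 4) (.bis 2 4 1 4 249 (.bis 4 6 4 1
  244 (.leaf 4) (.leaf 6)) (.leaf 4))) (.leaf 4)) (.leaf 4))) (.bis 1 4 1 4 149 (.bis 0 4 1 4 302
  (.bis 4 7 8 1 150 (.leaf 2) (.bis 2 4 1 4 249 (.bis 3 4 1 1 84 (.leaf 6) (.leaf 2)) (.leaf 2)))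
  (.leaf 2)) (.bis 1 3 1 4 135 (.leaf 2) (.leaf 2))))) (.bis 1 4 1 1 85 (.bis 3 5 2 1 241 (.bis 4
  5 2 1 235 (.leaf 51) (.bis 4 6 4 1 149 (.leaf 8) (.bis 0 4 1 4 302 (.bis 4 7 8 1 150 (.leaf 6)
  (.bis 2 4 1 4 249 (.leaf 6) (.leaf 6))) (.leaf 6)))) (.bis 4 6 4 1 149 (.leaf 2) (.bis 0 4 1 4
  302 (.bis 4 7 8 1 150 (.leaf 2) (.bis 2 4 1 4 249 (.leaf 6) (.leaf 2))) (.leaf 2)))) (.bis 1 5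
  2 1 250 (.bis 3 5 2 1 241 (.leaf 51) (.bis 3 6 4 1 135 (.leaf 8) (.leaf 73))) (.bis 0 1 1 4 335
  (.bis 3 6 4 1 135 (.leaf 7) (.leaf 7)) (.bis 3 6 4 1 135 (.leaf 8) (.leaf 26)))))))) (.bis 0 4
  1 2 303 (.bis 3 7 4 1 130 (.bis 4 7 4 1 143 (.bis 0 6 1 2 312 (.leaf 4) (.leaf 4)) (.bis 4 6 2
  1 144 (.bis 0 6 1 2 312 (.leaf 4) (.leaf 4)) (.bis 2 4 1 2 234 (.bis 4 5 2 1 235 (.leaf 4)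
  (.bis 1 4 1 4 302 (.bis 3 4 1 8 147 (.leaf 6) (.leaf 4)) (.leaf 4))) (.leaf 4)))) (.bis 3 6 2 1
  131 (.bis 4 6 2 1 144 (.leaf 4) (.bis 2 4 1 2 234 (.bis 4 5 2 1 235 (.leaf 4) (.bis 1 4 1 4 302
  (.bis 4 7 8 1 147 (.leaf 4) (.leaf 6)) (.leaf 4))) (.leaf 4))) (.bis 3 5 2 1 241 (.bis 2 4 1 2
  234 (.bis 4 5 2 1 235 (.leaf 4) (.bis 1 4 1 4 302 (.bis 4 7 8 1 147 (.leaf 4) (.bis 4 6 4 1 244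
  (.leaf 4) (.leaf 6))) (.leaf 4))) (.leaf 4)) (.bis 2 3 1 2 242 (.bis 1 4 1 4 302 (.bis 0 3 1 4
  304 (.bis 3 4 1 1 84 (.bis 4 7 8 1 147 (.leaf 2) (.bis 4 6 4 1 244 (.leaf 2) (.leaf 6))) (.leaf
  2)) (.bis 4 7 8 1 147 (.leaf 4) (.bis 4 6 4 1 244 (.leaf 4) (.bis 2 4 1 4 245 (.leaf 6) (.leaf
  6))))) (.leaf 6)) (.bis 2 4 1 2 234 (.bis 1 4 1 4 302 (.bis 4 7 8 1 147 (.leaf 4) (.bis 4 6 4 1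
  244 (.leaf 4) (.leaf 6))) (.leaf 4)) (.leaf 4)))))) (.bis 0 3 1 2 297 (.bis 3 7 4 1 130 (.bis 0
  6 1 2 313 (.bis 4 6 1 2 312 (.leaf 4) (.leaf 4)) (.leaf 4)) (.bis 3 6 2 1 131 (.bis 0 6 1 2 313
  (.leaf 4) (.leaf 4)) (.bis 3 5 2 1 241 (.leaf 4) (.bis 2 3 1 2 242 (.leaf 6) (.leaf 4)))))
  (.bis 0 6 1 1 314 (.bis 3 6 1 2 313 (.bis 4 6 1 2 312 (.leaf 4) (.leaf 4)) (.leaf 4)) (.bis 0 5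
  1 1 333 (.leaf 4) (.leaf 59))))))) (.bis 0 1 1 2 299 (.bis 2 6 2 1 156 (.bis 1 5 2 1 248 (.bis
  3 7 4 1 130 (.bis 4 7 4 1 143 (.bis 0 6 1 2 309 (.leaf 4) (.leaf 4)) (.bis 4 6 2 1 144 (.bis 0
  6 1 2 309 (.leaf 4) (.leaf 4)) (.bis 4 5 2 1 234 (.leaf 4) (.bis 0 4 1 4 302 (.bis 2 4 1 4 157
  (.bis 1 4 1 4 249 (.leaf 6) (.leaf 4)) (.leaf 4)) (.leaf 4))))) (.bis 3 6 2 1 131 (.bis 4 6 2 1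
  144 (.leaf 4) (.bis 4 5 2 1 234 (.leaf 4) (.bis 0 4 1 4 302 (.bis 2 4 1 4 157 (.bis 1 4 1 4 249
  (.bis 4 7 8 1 147 (.leaf 4) (.leaf 6)) (.leaf 4)) (.leaf 4)) (.leaf 4)))) (.bis 3 5 2 1 242
  (.bis 4 5 2 1 234 (.leaf 4) (.bis 0 4 1 4 302 (.bis 2 4 1 4 157 (.bis 1 4 1 4 249 (.bis 4 7 8 1
  147 (.leaf 4) (.leaf 6)) (.leaf 4)) (.leaf 4)) (.leaf 4))) (.bis 0 4 1 4 302 (.bis 2 4 1 4 157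
  (.bis 1 4 1 4 249 (.bis 3 4 1 1 84 (.bis 4 7 8 1 147 (.leaf 2) (.leaf 6)) (.leaf 2)) (.leaf 2))
  (.leaf 2)) (.leaf 2))))) (.bis 1 7 4 1 133 (.bis 3 7 4 1 130 (.bis 4 7 4 1 143 (.bis 0 6 1 2
  309 (.leaf 4) (.leaf 4)) (.bis 4 6 2 1 144 (.bis 0 6 1 2 309 (.leaf 4) (.leaf 4)) (.bis 0 4 1 4
  302 (.bis 1 4 1 8 150 (.bis 2 4 1 4 157 (.bis 4 5 4 1 249 (.leaf 4) (.leaf 6)) (.leaf 4))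
  (.leaf 4)) (.leaf 4)))) (.bis 3 6 2 1 131 (.bis 4 6 2 1 144 (.leaf 4) (.bis 0 4 1 4 302 (.bis 1
  4 1 8 150 (.bis 2 4 1 4 157 (.bis 4 5 4 1 249 (.leaf 4) (.bis 4 7 8 1 147 (.leaf 4) (.leaf 6)))
  (.leaf 4)) (.leaf 4)) (.leaf 4))) (.bis 0 4 1 4 302 (.bis 1 4 1 8 150 (.bis 2 4 1 4 157 (.bis 4
  5 4 1 249 (.leaf 2) (.bis 3 4 1 1 84 (.leaf 6) (.leaf 2))) (.leaf 2)) (.leaf 2)) (.bis 0 3 1 4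
  310 (.leaf 2) (.leaf 2))))) (.bis 1 6 2 1 134 (.bis 3 6 2 1 131 (.bis 4 6 2 1 144 (.leaf 4)
  (.bis 1 4 1 4 149 (.bis 0 4 1 4 302 (.bis 4 7 8 1 150 (.leaf 4) (.bis 2 4 1 4 157 (.bis 4 5 4 1
  249 (.leaf 4) (.leaf 6)) (.leaf 4))) (.leaf 4)) (.leaf 4))) (.bis 1 4 1 4 149 (.bis 0 4 1 4 302
  (.bis 4 7 8 1 150 (.leaf 2) (.bis 2 4 1 4 157 (.bis 4 5 4 1 249 (.leaf 2) (.leaf 6)) (.leaf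
  2))) (.bis 0 3 1 4 310 (.leaf 2) (.leaf 2))) (.bis 1 3 1 4 135 (.leaf 2) (.leaf 2)))) (.bis 1 4
  1 1 85 (.bis 4 6 4 1 149 (.bis 3 6 4 1 135 (.leaf 2) (.leaf 2)) (.bis 0 4 1 4 302 (.bis 4 7 8 1
  150 (.leaf 2) (.bis 2 4 1 4 157 (.bis 4 5 4 1 249 (.leaf 2) (.leaf 6)) (.leaf 2))) (.leaf 2)))
  (.bis 1 2 4 1 308 (.leaf 2) (.leaf 26)))))) (.bis 1 5 2 1 248 (.bis 2 7 4 1 160 (.bis 3 7 4 1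
  130 (.bis 4 7 4 1 143 (.leaf 4) (.bis 4 5 2 1 234 (.leaf 4) (.bis 2 4 1 8 161 (.bis 0 4 1 4 302
  (.bis 4 6 4 1 157 (.leaf 4) (.bis 1 4 1 4 249 (.leaf 6) (.leaf 4))) (.leaf 4)) (.leaf 4))))
  (.bis 3 5 2 1 242 (.bis 4 5 2 1 234 (.leaf 4) (.bis 2 4 1 8 161 (.bis 0 4 1 4 302 (.bis 4 6 4 1
  157 (.leaf 4) (.bis 1 4 1 4 249 (.leaf 6) (.leaf 4))) (.leaf 4)) (.leaf 4))) (.bis 2 4 1 8 161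
  (.bis 0 4 1 4 302 (.bis 4 6 4 1 157 (.leaf 2) (.bis 1 4 1 4 249 (.bis 3 4 1 1 84 (.leaf 6)
  (.leaf 2)) (.leaf 2))) (.leaf 2)) (.bis 2 3 1 8 163 (.leaf 2) (.leaf 2))))) (.bis 2 4 1 1 110
  (.bis 3 5 2 1 242 (.bis 4 5 2 1 234 (.leaf 43) (.bis 4 7 8 1 161 (.leaf 6) (.bis 0 4 1 4 302
  (.bis 4 6 4 1 157 (.leaf 6) (.bis 1 4 1 4 249 (.leaf 6) (.leaf 6))) (.leaf 6)))) (.bis 4 7 8 1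
  161 (.leaf 2) (.bis 0 4 1 4 302 (.bis 4 6 4 1 157 (.leaf 2) (.bis 1 4 1 4 249 (.leaf 6) (.leaf
  2))) (.leaf 2)))) (.bis 2 5 2 1 253 (.bis 3 5 2 1 242 (.leaf 43) (.bis 3 7 8 1 163 (.leaf 9)
  (.leaf 9))) (.bis 0 2 1 4 300 (.bis 1 2 1 4 254 (.bis 2 3 1 1 120 (.leaf 9) (.leaf 9)) (.bis 3
  7 8 1 163 (.leaf 9) (.leaf 9))) (.bis 3 7 8 1 163 (.leaf 9) (.leaf 9)))))) (.bis 1 7 4 1 133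
  (.bis 2 7 4 1 160 (.bis 3 7 4 1 130 (.bis 4 7 4 1 143 (.leaf 4) (.bis 2 4 1 8 161 (.bis 0 4 1 4
  302 (.bis 1 4 1 8 150 (.bis 4 6 4 1 157 (.leaf 4) (.bis 4 5 4 1 249 (.leaf 4) (.leaf 6)))
  (.leaf 4)) (.leaf 4)) (.leaf 4))) (.bis 2 4 1 8 161 (.bis 0 4 1 4 302 (.bis 1 4 1 8 150 (.bis 4
  6 4 1 157 (.leaf 2) (.bis 4 5 4 1 249 (.leaf 2) (.leaf 6))) (.leaf 2)) (.bis 0 3 1 4 310 (.leaf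
  2) (.leaf 2))) (.bis 2 3 1 8 163 (.leaf 2) (.leaf 2)))) (.bis 2 4 1 1 110 (.bis 4 7 8 1 161
  (.leaf 2) (.bis 0 4 1 4 302 (.bis 1 4 1 8 150 (.bis 4 6 4 1 157 (.leaf 2) (.leaf 6)) (.leaf 2))
  (.leaf 2))) (.bis 1 2 1 8 159 (.bis 0 2 1 4 300 (.bis 2 5 4 1 254 (.leaf 2) (.bis 2 3 1 1 120
  (.leaf 2) (.leaf 9))) (.leaf 2)) (.leaf 2)))) (.bis 2 4 1 1 110 (.bis 1 4 1 1 85 (.bis 0 4 1 4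
  302 (.bis 4 7 8 1 150 (.leaf 2) (.bis 4 6 4 1 157 (.leaf 2) (.leaf 6))) (.leaf 2)) (.bis 1 2 2
  1 111 (.leaf 2) (.leaf 26))) (.bis 1 2 1 1 104 (.bis 2 7 8 1 159 (.leaf 2) (.bis 0 2 1 4 300
  (.bis 2 5 4 1 254 (.leaf 2) (.leaf 9)) (.leaf 2))) (.bis 1 4 2 1 111 (.leaf 2) (.leaf 26)))))))
  (.bis 2 6 2 1 156 (.bis 0 4 1 2 303 (.bis 3 7 4 1 130 (.bis 4 7 4 1 143 (.bis 0 6 1 2 312 (.bis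
  1 6 1 2 309 (.leaf 4) (.leaf 4)) (.leaf 4)) (.bis 4 6 2 1 144 (.bis 0 6 1 2 312 (.leaf 4)
  (.leaf 4)) (.bis 4 5 2 1 234 (.leaf 4) (.bis 1 4 1 4 302 (.bis 2 4 1 4 157 (.bis 3 4 1 8 147
  (.leaf 6) (.leaf 4)) (.leaf 4)) (.leaf 4))))) (.bis 3 6 2 1 131 (.bis 4 6 2 1 144 (.bis 0 6 1 2
  312 (.leaf 4) (.leaf 4)) (.bis 4 5 2 1 234 (.leaf 4) (.bis 1 4 1 4 302 (.bis 2 4 1 4 157 (.bis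
  4 7 8 1 147 (.leaf 4) (.leaf 6)) (.leaf 4)) (.leaf 4)))) (.bis 3 5 2 1 242 (.bis 4 5 2 1 234
  (.leaf 4) (.bis 1 4 1 4 302 (.bis 2 4 1 4 157 (.bis 4 7 8 1 147 (.leaf 4) (.bis 4 6 4 1 244
  (.leaf 4) (.leaf 6))) (.leaf 4)) (.leaf 4))) (.bis 1 4 1 4 302 (.bis 2 4 1 4 157 (.bis 0 3 1 4
  304 (.bis 3 4 1 1 84 (.bis 4 7 8 1 147 (.leaf 2) (.leaf 6)) (.leaf 2)) (.bis 4 7 8 1 147 (.leaf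
  4) (.bis 4 6 4 1 244 (.leaf 4) (.leaf 6)))) (.leaf 6)) (.leaf 6))))) (.bis 0 3 1 2 297 (.bis 3
  7 4 1 130 (.bis 0 6 1 2 313 (.bis 4 6 1 2 312 (.leaf 4) (.leaf 4)) (.leaf 4)) (.bis 3 6 2 1 131
  (.bis 0 6 1 2 313 (.bis 4 6 1 2 312 (.leaf 4) (.leaf 4)) (.leaf 4)) (.bis 3 5 2 1 242 (.leaf 4)
  (.bis 3 4 4 1 304 (.leaf 4) (.leaf 6))))) (.bis 0 6 1 1 314 (.bis 3 6 1 2 313 (.bis 4 6 1 2 312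
  (.leaf 4) (.leaf 4)) (.leaf 4)) (.leaf 100)))) (.bis 2 7 4 1 160 (.bis 0 4 1 2 303 (.bis 3 7 4
  1 130 (.bis 4 7 4 1 143 (.leaf 4) (.bis 4 5 2 1 234 (.leaf 4) (.bis 2 4 1 8 161 (.bis 1 4 1 4
  302 (.bis 4 6 4 1 157 (.leaf 4) (.leaf 6)) (.leaf 4)) (.leaf 4)))) (.bis 3 5 2 1 242 (.bis 4 5
  2 1 234 (.leaf 4) (.bis 2 4 1 8 161 (.bis 1 4 1 4 302 (.bis 4 6 4 1 157 (.leaf 4) (.bis 4 7 8 1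
  147 (.leaf 4) (.leaf 6))) (.leaf 4)) (.leaf 4))) (.bis 2 4 1 8 161 (.bis 1 4 1 4 302 (.bis 4 6
  4 1 157 (.leaf 6) (.bis 0 3 1 4 304 (.bis 3 4 1 1 84 (.bis 4 7 8 1 147 (.leaf 2) (.leaf 6))
  (.leaf 2)) (.bis 4 7 8 1 147 (.leaf 4) (.leaf 6)))) (.bis 0 3 1 4 304 (.leaf 2) (.leaf 4)))
  (.bis 0 3 1 4 304 (.leaf 2) (.leaf 4))))) (.bis 0 3 1 2 297 (.bis 3 7 4 1 130 (.leaf 4) (.bis 3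
  5 2 1 242 (.leaf 4) (.bis 3 4 4 1 304 (.leaf 4) (.leaf 6)))) (.bis 0 6 2 1 315 (.leaf 4) (.leaf
  59)))) (.bis 0 2 1 2 294 (.bis 2 4 1 1 110 (.bis 0 4 1 4 305 (.bis 3 5 2 1 242 (.bis 4 5 2 1
  234 (.leaf 43) (.bis 4 7 8 1 161 (.leaf 6) (.bis 1 4 1 4 302 (.bis 4 6 4 1 157 (.leaf 6) (.leaf
  6)) (.leaf 6)))) (.bis 4 7 8 1 161 (.leaf 2) (.bis 1 4 1 4 302 (.bis 4 6 4 1 157 (.leaf 2)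
  (.leaf 6)) (.leaf 2)))) (.bis 3 5 2 1 242 (.leaf 43) (.bis 0 3 1 4 298 (.leaf 2) (.leaf 9))))
  (.bis 2 5 2 1 253 (.bis 3 5 2 1 242 (.leaf 43) (.bis 0 3 1 4 298 (.leaf 9) (.leaf 9))) (.bis 1
  2 1 4 300 (.bis 0 3 1 4 298 (.bis 2 3 1 1 120 (.leaf 9) (.leaf 9)) (.bis 2 6 4 1 316 (.leaf 9)
  (.leaf 9))) (.bis 0 3 1 4 298 (.leaf 9) (.leaf 9))))) (.bis 0 4 1 2 303 (.bis 2 4 1 4 305 (.bis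
  3 5 2 1 242 (.bis 4 5 2 1 234 (.leaf 43) (.bis 4 7 8 1 161 (.leaf 6) (.bis 1 4 1 4 302 (.bis 4
  6 4 1 157 (.leaf 6) (.leaf 6)) (.leaf 6)))) (.bis 4 7 8 1 161 (.bis 0 3 1 4 304 (.leaf 2)
  (.leaf 6)) (.bis 1 4 1 4 302 (.bis 4 6 4 1 157 (.bis 0 3 1 4 304 (.leaf 2) (.leaf 6)) (.bis 0 3
  1 4 304 (.bis 3 4 1 1 84 (.leaf 6) (.leaf 2)) (.bis 4 5 4 1 245 (.leaf 6) (.leaf 6)))) (.bis 0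
  3 1 4 304 (.leaf 2) (.leaf 6))))) (.bis 3 5 2 1 242 (.leaf 43) (.bis 0 3 1 4 304 (.bis 2 3 1 4
  298 (.leaf 2) (.leaf 9)) (.leaf 15)))) (.bis 0 3 1 2 297 (.bis 3 5 2 1 242 (.leaf 43) (.bis 2 3
  1 4 298 (.bis 3 4 4 1 304 (.leaf 6) (.leaf 6)) (.leaf 15))) (.bis 0 6 2 1 315 (.leaf 43) (.leaf
  59)))))))))

def lc10 : List Vr := [⟨[73,0,0,0,0,73,0,0], 63948, 0⟩, ⟨[0,24,0,0,0,0,0,0], 10368, 0⟩, ⟨[0,0,28,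
  0,0,0,0,0], 10976, 0⟩, ⟨[0,0,0,17,0,0,0,0], 10404, 0⟩, ⟨[0,0,0,0,28,0,0,0], 10976, 0⟩, ⟨[0,0,0,
  0,0,73,0,0], 10658, 0⟩, ⟨[0,0,0,0,0,73,42,0], 58034, 0⟩, ⟨[73,0,0,0,0,146,0,79], 242360, 0⟩]

theorem lk10 : chkTr lowT (leafLow 3 lowB) lt10 lc10 = true := by decide +kernel

def lt11 : Tr ℕ := (.bis 5 6 1 2 270 (.bis 4 7 2 1 60 (.bis 2 6 1 1 97 (.bis 6 7 2 1 16 (.bis 1 7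
  2 1 41 (.bis 3 7 2 1 57 (.bis 2 7 1 1 116 (.bis 5 7 1 2 271 (.bis 0 7 1 1 337 (.leaf 31) (.bis
  0 4 2 1 338 (.leaf 31) (.leaf 78))) (.bis 0 4 2 1 338 (.bis 4 6 1 1 273 (.bis 5 6 1 1 274
  (.leaf 28) (.leaf 5)) (.bis 1 5 1 1 275 (.leaf 5) (.leaf 5))) (.bis 5 6 1 1 274 (.leaf 34)
  (.leaf 19)))) (.bis 2 4 2 1 101 (.leaf 34) (.leaf 34))) (.bis 3 6 4 1 47 (.leaf 34) (.bis 0 3 1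
  2 339 (.bis 1 3 1 4 56 (.bis 3 5 4 1 278 (.leaf 2) (.bis 2 4 2 1 101 (.bis 3 4 4 1 69 (.leaf 2)
  (.leaf 2)) (.leaf 2))) (.leaf 16)) (.leaf 34)))) (.bis 3 6 4 1 47 (.bis 0 1 1 2 340 (.bis 1 6 4
  1 33 (.leaf 28) (.bis 1 4 4 1 66 (.leaf 16) (.bis 1 5 4 1 279 (.leaf 11) (.leaf 7)))) (.leaf
  34)) (.bis 0 1 1 2 340 (.bis 1 4 4 1 66 (.bis 3 7 4 1 56 (.leaf 16) (.bis 3 5 4 1 278 (.leaf 2)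
  (.bis 2 4 2 1 101 (.bis 3 4 4 1 69 (.leaf 2) (.leaf 2)) (.leaf 2)))) (.bis 3 7 4 1 56 (.bis 1 5
  4 1 279 (.leaf 11) (.leaf 7)) (.bis 1 5 4 1 279 (.bis 3 5 4 1 278 (.leaf 2) (.leaf 2)) (.bis 2
  3 1 2 100 (.leaf 7) (.leaf 7))))) (.bis 0 3 1 2 339 (.bis 3 7 4 1 56 (.leaf 16) (.bis 3 5 4 1
  278 (.leaf 2) (.bis 2 4 2 1 101 (.bis 3 4 4 1 69 (.leaf 2) (.leaf 2)) (.leaf 2)))) (.leaf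
  34))))) (.bis 3 6 1 1 43 (.bis 4 6 1 4 62 (.bis 0 6 1 2 341 (.bis 1 6 1 1 30 (.bis 5 6 1 4 280
  (.bis 2 6 1 2 99 (.bis 6 7 4 1 22 (.leaf 25) (.bis 4 6 1 8 64 (.bis 3 6 1 2 44 (.leaf 25)
  (.leaf 25)) (.leaf 25))) (.leaf 25)) (.leaf 63)) (.bis 1 7 4 1 33 (.leaf 63) (.bis 0 1 1 4 342
  (.leaf 22) (.leaf 63)))) (.bis 0 1 1 2 340 (.bis 1 7 4 1 33 (.leaf 28) (.bis 1 6 4 1 342 (.leaf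
  28) (.bis 1 5 4 1 279 (.leaf 11) (.leaf 7)))) (.leaf 34))) (.bis 0 1 1 2 340 (.bis 1 7 4 1 33
  (.leaf 28) (.bis 1 4 4 1 66 (.leaf 16) (.bis 1 5 4 1 279 (.leaf 11) (.leaf 7)))) (.leaf 34)))
  (.bis 3 7 4 1 47 (.bis 0 1 1 2 340 (.bis 1 7 4 1 33 (.leaf 28) (.bis 1 4 4 1 66 (.leaf 16)
  (.leaf 22))) (.leaf 34)) (.bis 0 1 1 2 340 (.bis 1 4 4 1 66 (.bis 3 5 4 1 278 (.leaf 16) (.bis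
  4 6 1 2 67 (.bis 2 3 1 2 100 (.leaf 7) (.leaf 7)) (.bis 2 4 2 1 101 (.bis 3 4 4 1 69 (.leaf 2)
  (.leaf 2)) (.bis 2 3 1 2 100 (.leaf 2) (.leaf 2))))) (.bis 1 5 4 1 279 (.bis 3 5 4 1 278 (.leaf
  11) (.bis 2 3 1 2 100 (.leaf 7) (.leaf 7))) (.bis 2 3 1 2 100 (.leaf 7) (.leaf 7)))) (.bis 0 3
  1 2 339 (.bis 3 5 4 1 278 (.leaf 16) (.bis 4 6 1 2 67 (.bis 2 3 1 2 100 (.leaf 7) (.leaf 7))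
  (.bis 2 4 2 1 101 (.bis 3 4 4 1 69 (.leaf 2) (.leaf 2)) (.bis 2 3 1 2 100 (.leaf 2) (.leaf
  2))))) (.leaf 34)))))) (.bis 1 7 2 1 41 (.bis 3 7 2 1 57 (.bis 2 7 2 1 121 (.bis 6 7 1 1 116
  (.bis 5 7 1 2 271 (.bis 0 7 1 1 337 (.leaf 31) (.bis 0 4 2 1 338 (.leaf 19) (.leaf 19))) (.bis
  2 5 1 1 281 (.leaf 19) (.bis 0 4 2 1 338 (.leaf 5) (.leaf 19)))) (.bis 4 6 1 2 101 (.leaf 78)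
  (.bis 2 5 1 1 281 (.leaf 19) (.bis 0 4 2 1 338 (.leaf 5) (.leaf 19))))) (.bis 0 2 1 2 343 (.bis
  1 2 1 4 117 (.bis 2 5 4 1 282 (.leaf 16) (.bis 2 4 4 1 105 (.bis 4 6 1 2 101 (.leaf 16) (.leaf
  5)) (.bis 2 3 4 1 119 (.bis 6 7 2 1 122 (.leaf 5) (.leaf 16)) (.bis 2 6 2 1 109 (.leaf 16)
  (.leaf 55))))) (.bis 4 6 1 2 101 (.leaf 16) (.bis 5 7 1 1 281 (.leaf 5) (.leaf 5)))) (.bis 4 6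
  1 2 101 (.leaf 78) (.leaf 19)))) (.bis 0 3 1 2 339 (.bis 1 2 1 4 117 (.bis 2 5 4 1 282 (.bis 3
  5 4 1 278 (.leaf 2) (.bis 4 6 1 2 101 (.bis 3 6 2 1 100 (.leaf 2) (.leaf 2)) (.bis 3 4 4 1 69
  (.leaf 2) (.leaf 2)))) (.bis 2 4 4 1 105 (.bis 4 6 1 2 101 (.bis 3 6 2 1 100 (.leaf 2) (.leaf
  2)) (.bis 3 4 4 1 69 (.leaf 2) (.bis 3 7 4 1 283 (.leaf 2) (.leaf 2)))) (.bis 2 7 4 1 119 (.bis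
  3 6 2 1 100 (.leaf 2) (.leaf 2)) (.bis 2 6 2 1 109 (.bis 3 6 2 1 100 (.leaf 2) (.leaf 2)) (.bis
  2 3 1 1 120 (.leaf 2) (.leaf 9)))))) (.bis 1 3 1 4 56 (.bis 3 5 4 1 278 (.leaf 2) (.bis 4 6 1 2
  101 (.leaf 2) (.bis 3 4 4 1 69 (.leaf 2) (.leaf 2)))) (.leaf 16))) (.bis 0 2 1 2 343 (.bis 1 2
  1 4 117 (.bis 2 5 4 1 282 (.leaf 16) (.bis 2 4 4 1 105 (.leaf 16) (.bis 2 7 4 1 119 (.leaf 16)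
  (.bis 2 6 2 1 109 (.leaf 16) (.leaf 9))))) (.leaf 16)) (.leaf 34)))) (.bis 0 1 1 2 340 (.bis 1
  2 1 1 104 (.bis 2 7 4 1 117 (.bis 3 7 4 1 56 (.leaf 16) (.bis 3 5 4 1 278 (.leaf 2) (.leaf 2)))
  (.bis 2 5 4 1 282 (.bis 3 5 4 1 278 (.leaf 2) (.bis 4 6 1 2 101 (.bis 3 6 2 1 100 (.leaf 2)
  (.leaf 2)) (.leaf 2))) (.bis 2 4 4 1 105 (.bis 4 6 1 2 101 (.bis 3 6 2 1 100 (.leaf 2) (.leaf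
  2)) (.bis 3 4 4 1 69 (.leaf 2) (.leaf 2))) (.bis 0 2 1 4 344 (.bis 2 6 2 1 109 (.bis 3 6 2 1
  100 (.leaf 2) (.leaf 2)) (.bis 2 3 1 1 120 (.leaf 2) (.leaf 9))) (.bis 3 6 2 1 100 (.leaf 2)
  (.leaf 2)))))) (.bis 1 4 4 1 66 (.bis 3 7 4 1 56 (.leaf 16) (.bis 3 5 4 1 278 (.leaf 2) (.leaf
  2))) (.bis 3 7 4 1 56 (.leaf 26) (.bis 1 5 4 1 279 (.bis 3 5 4 1 278 (.leaf 2) (.leaf 2))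
  (.leaf 7))))) (.bis 0 3 1 2 339 (.bis 2 7 4 1 117 (.bis 3 7 4 1 56 (.leaf 16) (.bis 3 5 4 1 278
  (.leaf 2) (.leaf 2))) (.bis 2 5 4 1 282 (.bis 3 5 4 1 278 (.leaf 2) (.bis 4 6 1 2 101 (.bis 3 6
  2 1 100 (.leaf 2) (.leaf 2)) (.bis 3 4 4 1 69 (.leaf 2) (.leaf 2)))) (.bis 2 4 4 1 105 (.bis 4
  6 1 2 101 (.bis 3 6 2 1 100 (.leaf 2) (.leaf 2)) (.bis 3 4 4 1 69 (.leaf 2) (.leaf 2))) (.bis 1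
  2 1 4 344 (.bis 2 6 2 1 109 (.bis 3 6 2 1 100 (.leaf 2) (.leaf 2)) (.bis 2 3 1 1 120 (.leaf 2)
  (.leaf 9))) (.bis 3 6 2 1 100 (.leaf 2) (.leaf 2)))))) (.bis 0 2 1 2 343 (.bis 2 7 4 1 117
  (.leaf 16) (.bis 2 5 4 1 282 (.leaf 16) (.bis 2 4 4 1 105 (.leaf 16) (.bis 1 2 1 4 344 (.bis 2
  6 2 1 109 (.leaf 16) (.leaf 9)) (.leaf 16))))) (.leaf 34)))))) (.bis 2 6 1 1 97 (.bis 4 6 1 1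
  61 (.bis 3 6 1 1 43 (.bis 6 7 4 1 62 (.bis 0 1 1 2 340 (.bis 1 7 4 1 66 (.leaf 28) (.bis 1 5 4
  1 279 (.leaf 11) (.leaf 7))) (.bis 0 4 1 1 345 (.bis 3 7 2 1 67 (.leaf 28) (.leaf 11)) (.bis 0
  3 1 1 346 (.bis 3 7 2 1 67 (.leaf 16) (.leaf 11)) (.leaf 34)))) (.bis 0 6 1 2 341 (.bis 1 6 1 1
  30 (.bis 5 6 1 4 280 (.bis 2 6 1 2 99 (.bis 4 6 1 2 63 (.bis 6 7 8 1 64 (.leaf 25) (.bis 3 6 1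
  2 44 (.bis 0 6 1 4 347 (.leaf 25) (.leaf 25)) (.leaf 25))) (.leaf 25)) (.leaf 25)) (.leaf 63))
  (.bis 0 1 1 4 342 (.bis 1 5 4 1 279 (.leaf 11) (.leaf 22)) (.leaf 63))) (.bis 0 1 1 2 340 (.bis
  1 6 4 1 342 (.leaf 28) (.bis 1 5 4 1 279 (.leaf 11) (.leaf 7))) (.bis 0 4 1 1 345 (.leaf 28)
  (.leaf 34))))) (.bis 0 1 1 2 340 (.bis 1 7 4 1 66 (.bis 3 5 4 1 278 (.leaf 28) (.bis 6 7 2 1 67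
  (.bis 2 7 2 1 101 (.bis 3 7 4 1 69 (.leaf 2) (.leaf 2)) (.bis 2 3 1 2 100 (.leaf 2) (.leaf 2)))
  (.bis 2 3 1 2 100 (.leaf 7) (.leaf 7)))) (.bis 1 5 4 1 279 (.bis 3 5 4 1 278 (.leaf 11) (.bis 2
  3 1 2 100 (.leaf 7) (.leaf 7))) (.bis 2 3 1 2 100 (.leaf 7) (.leaf 7)))) (.bis 0 3 1 2 339
  (.bis 3 5 4 1 278 (.bis 6 7 2 1 67 (.leaf 2) (.leaf 28)) (.bis 6 7 2 1 67 (.bis 2 7 2 1 101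
  (.bis 3 7 4 1 69 (.leaf 2) (.leaf 2)) (.bis 2 3 1 2 100 (.leaf 2) (.leaf 2))) (.bis 2 3 1 2 100
  (.leaf 7) (.leaf 7)))) (.bis 0 4 1 1 345 (.bis 6 7 2 1 67 (.leaf 2) (.leaf 28)) (.bis 0 6 1 1
  346 (.bis 6 7 2 1 67 (.leaf 16) (.leaf 16)) (.bis 2 7 2 1 101 (.leaf 19) (.leaf 34))))))) (.bis
  0 4 1 2 348 (.bis 2 4 1 2 103 (.bis 1 4 1 1 85 (.bis 4 5 4 1 284 (.bis 3 5 4 1 278 (.leaf 2)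
  (.leaf 2)) (.bis 4 7 4 1 81 (.bis 3 7 4 1 69 (.leaf 2) (.leaf 2)) (.bis 4 6 2 1 82 (.bis 3 6 2
  1 68 (.leaf 2) (.leaf 2)) (.leaf 6)))) (.bis 1 7 4 1 66 (.bis 3 5 4 1 278 (.leaf 2) (.leaf 2))
  (.bis 1 5 4 1 279 (.bis 3 5 4 1 278 (.leaf 2) (.leaf 2)) (.leaf 7)))) (.bis 1 7 4 1 66 (.bis 3
  5 4 1 278 (.leaf 2) (.leaf 2)) (.bis 1 5 4 1 279 (.bis 3 5 4 1 278 (.leaf 2) (.leaf 2)) (.leaf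
  7)))) (.bis 0 1 1 2 340 (.bis 1 7 4 1 66 (.bis 3 5 4 1 278 (.leaf 2) (.bis 2 7 2 1 101 (.bis 3
  7 4 1 69 (.leaf 2) (.leaf 2)) (.bis 2 3 1 2 100 (.leaf 2) (.leaf 2)))) (.bis 1 5 4 1 279 (.bis
  3 5 4 1 278 (.leaf 2) (.bis 2 3 1 2 100 (.leaf 2) (.leaf 2))) (.bis 1 4 4 1 349 (.bis 2 3 1 2
  100 (.leaf 2) (.leaf 2)) (.bis 2 3 1 2 100 (.leaf 7) (.leaf 7))))) (.bis 0 3 1 2 339 (.bis 3 5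
  4 1 278 (.leaf 2) (.bis 2 7 2 1 101 (.bis 3 7 4 1 69 (.leaf 2) (.leaf 2)) (.bis 2 3 1 2 100
  (.leaf 2) (.leaf 2)))) (.bis 0 6 1 1 345 (.leaf 2) (.leaf 34)))))) (.bis 0 4 1 2 348 (.bis 2 4
  1 1 110 (.bis 4 6 2 1 103 (.bis 1 7 4 1 66 (.leaf 2) (.bis 1 2 2 1 111 (.leaf 2) (.bis 1 5 4 1
  279 (.leaf 2) (.leaf 7)))) (.bis 1 4 1 1 85 (.bis 4 5 4 1 284 (.leaf 2) (.bis 4 7 4 1 81 (.leaf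
  2) (.leaf 6))) (.bis 1 7 4 1 66 (.bis 3 5 4 1 278 (.leaf 2) (.leaf 2)) (.bis 1 2 2 1 111 (.bis
  3 5 4 1 278 (.leaf 2) (.leaf 2)) (.bis 1 5 4 1 279 (.leaf 2) (.leaf 7)))))) (.bis 1 2 1 1 104
  (.bis 2 5 4 1 282 (.leaf 2) (.bis 2 7 4 1 105 (.leaf 2) (.bis 0 2 1 4 350 (.leaf 79) (.leaf
  2)))) (.bis 1 7 4 1 66 (.leaf 2) (.bis 1 4 2 1 111 (.leaf 2) (.bis 1 5 4 1 279 (.leaf 2) (.leaf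
  7)))))) (.bis 0 1 1 2 340 (.bis 1 2 1 1 104 (.bis 2 5 4 1 282 (.bis 3 5 4 1 278 (.leaf 2)
  (.leaf 2)) (.bis 2 7 4 1 105 (.bis 6 7 2 1 101 (.bis 3 7 4 1 69 (.leaf 2) (.leaf 2)) (.bis 3 6
  2 1 100 (.leaf 2) (.leaf 2))) (.bis 0 2 1 4 344 (.bis 2 4 4 1 350 (.leaf 2) (.bis 2 6 2 1 109
  (.bis 3 6 2 1 100 (.leaf 2) (.leaf 2)) (.bis 2 3 1 1 120 (.leaf 2) (.leaf 9)))) (.bis 3 6 2 1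
  100 (.leaf 2) (.leaf 2))))) (.bis 1 7 4 1 66 (.bis 3 5 4 1 278 (.leaf 2) (.leaf 2)) (.bis 1 5 4
  1 279 (.bis 3 5 4 1 278 (.leaf 2) (.leaf 2)) (.leaf 7)))) (.bis 0 3 1 2 339 (.bis 2 5 4 1 282
  (.bis 3 5 4 1 278 (.leaf 2) (.bis 6 7 2 1 101 (.bis 3 7 4 1 69 (.leaf 2) (.leaf 2)) (.bis 3 6 2
  1 100 (.leaf 2) (.leaf 2)))) (.bis 2 7 4 1 105 (.bis 6 7 2 1 101 (.bis 3 7 4 1 69 (.leaf 2)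
  (.leaf 2)) (.bis 3 6 2 1 100 (.leaf 2) (.leaf 2))) (.bis 1 2 1 4 344 (.bis 2 4 4 1 350 (.bis 3
  6 2 1 100 (.leaf 2) (.leaf 2)) (.bis 2 6 2 1 109 (.bis 3 6 2 1 100 (.leaf 2) (.leaf 2)) (.bis 2
  3 1 1 120 (.leaf 2) (.leaf 9)))) (.bis 3 6 2 1 100 (.leaf 2) (.leaf 2))))) (.bis 0 2 1 2 343
  (.bis 2 5 4 1 282 (.leaf 16) (.bis 2 7 4 1 105 (.leaf 16) (.bis 1 2 1 4 344 (.bis 2 4 4 1 350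
  (.leaf 16) (.bis 2 6 2 1 109 (.leaf 16) (.leaf 9))) (.leaf 16)))) (.leaf 34))))))) (.bis 4 7 2
  1 60 (.bis 1 7 2 1 41 (.bis 3 7 2 1 57 (.bis 5 7 1 1 286 (.bis 2 7 2 1 121 (.bis 6 7 1 2 271
  (.bis 0 7 1 1 337 (.leaf 31) (.bis 0 4 2 1 338 (.leaf 19) (.leaf 19))) (.bis 2 6 1 1 281 (.leaf
  19) (.bis 0 4 2 1 338 (.leaf 5) (.leaf 19)))) (.bis 2 5 4 1 287 (.bis 6 7 1 1 281 (.bis 0 4 2 1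
  338 (.leaf 5) (.leaf 19)) (.leaf 19)) (.bis 0 2 1 2 343 (.bis 1 2 1 4 117 (.bis 2 6 4 1 282
  (.bis 6 7 1 1 281 (.leaf 5) (.leaf 5)) (.bis 2 4 4 1 105 (.leaf 5) (.bis 2 3 4 1 119 (.leaf 5)
  (.bis 2 7 4 1 288 (.leaf 5) (.leaf 9))))) (.bis 6 7 1 1 281 (.leaf 5) (.leaf 5))) (.bis 6 7 1 1
  281 (.leaf 19) (.leaf 19))))) (.bis 1 5 1 2 289 (.bis 2 5 2 1 294 (.bis 3 5 1 2 290 (.bis 0 5 1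
  1 351 (.bis 4 5 1 2 291 (.leaf 35) (.leaf 5)) (.bis 0 2 2 1 352 (.leaf 5) (.leaf 19))) (.bis 0
  2 2 1 352 (.leaf 5) (.leaf 19))) (.bis 2 7 4 1 287 (.bis 0 5 2 1 352 (.leaf 5) (.leaf 19))
  (.bis 0 2 1 2 343 (.bis 2 6 4 1 282 (.leaf 5) (.bis 2 4 4 1 105 (.leaf 5) (.bis 1 2 1 8 293
  (.bis 2 3 4 1 119 (.leaf 5) (.leaf 9)) (.leaf 5)))) (.bis 0 5 2 1 352 (.leaf 5) (.leaf 19)))))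
  (.bis 2 7 4 1 287 (.leaf 19) (.bis 0 2 1 2 343 (.bis 1 2 1 4 117 (.bis 2 6 4 1 282 (.leaf 5)
  (.bis 2 4 4 1 105 (.leaf 5) (.bis 2 5 8 1 293 (.leaf 5) (.bis 2 3 4 1 119 (.leaf 5) (.leaf
  9))))) (.leaf 5)) (.leaf 19))))) (.bis 1 5 1 2 289 (.bis 2 5 2 1 294 (.bis 3 5 2 1 297 (.bis 5
  7 2 1 290 (.bis 0 3 2 1 353 (.leaf 5) (.bis 0 2 2 1 352 (.leaf 5) (.leaf 19))) (.bis 0 5 1 1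
  351 (.bis 4 5 1 2 291 (.leaf 35) (.leaf 5)) (.bis 0 3 2 1 353 (.leaf 5) (.bis 0 2 2 1 352
  (.leaf 5) (.leaf 19))))) (.bis 0 3 1 2 339 (.bis 1 3 1 8 296 (.bis 3 6 4 1 278 (.leaf 5) (.leaf
  32)) (.leaf 5)) (.bis 0 5 2 1 353 (.leaf 5) (.bis 0 2 2 1 352 (.leaf 5) (.leaf 19))))) (.bis 0
  3 1 2 339 (.bis 2 6 4 1 282 (.bis 1 3 1 8 296 (.bis 3 6 4 1 278 (.bis 5 7 1 1 354 (.leaf 2)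
  (.leaf 5)) (.bis 3 5 4 1 298 (.leaf 5) (.leaf 2))) (.leaf 5)) (.bis 2 4 4 1 105 (.bis 1 3 1 8
  296 (.bis 3 5 4 1 298 (.leaf 5) (.leaf 2)) (.leaf 5)) (.bis 1 2 1 8 293 (.bis 2 7 4 1 119 (.bis
  3 5 4 1 298 (.leaf 5) (.leaf 2)) (.bis 3 5 4 1 298 (.bis 0 2 1 4 355 (.leaf 9) (.leaf 5)) (.bis
  2 3 1 1 120 (.leaf 2) (.leaf 9)))) (.bis 1 3 1 8 296 (.bis 3 5 4 1 298 (.leaf 5) (.leaf 2))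
  (.leaf 5))))) (.bis 0 2 1 2 343 (.bis 2 6 4 1 282 (.leaf 5) (.bis 2 4 4 1 105 (.leaf 5) (.bis 1
  2 1 8 293 (.bis 2 7 4 1 119 (.leaf 5) (.bis 2 3 4 1 355 (.leaf 5) (.leaf 9))) (.leaf 5))))
  (.bis 0 5 2 1 352 (.leaf 5) (.leaf 19))))) (.bis 0 3 1 2 339 (.bis 1 2 1 4 117 (.bis 2 6 4 1
  282 (.bis 3 5 8 1 296 (.leaf 5) (.bis 3 6 4 1 278 (.leaf 2) (.leaf 2))) (.bis 2 4 4 1 105 (.bis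
  3 5 8 1 296 (.leaf 5) (.bis 3 4 4 1 69 (.leaf 2) (.leaf 2))) (.bis 2 5 8 1 293 (.bis 3 5 8 1
  296 (.leaf 5) (.bis 3 7 4 1 283 (.leaf 2) (.leaf 2))) (.bis 2 7 4 1 119 (.bis 3 7 4 1 283
  (.leaf 2) (.leaf 2)) (.bis 2 3 1 1 120 (.leaf 2) (.leaf 9)))))) (.bis 1 3 1 4 56 (.bis 3 5 8 1
  296 (.leaf 5) (.bis 3 6 4 1 278 (.leaf 2) (.leaf 2))) (.leaf 5))) (.bis 0 2 1 2 343 (.bis 1 2 1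
  4 117 (.bis 2 6 4 1 282 (.leaf 5) (.bis 2 4 4 1 105 (.leaf 5) (.bis 2 5 8 1 293 (.leaf 5) (.bis
  2 7 4 1 119 (.leaf 5) (.bis 2 3 4 1 355 (.leaf 5) (.leaf 9)))))) (.leaf 5)) (.leaf 19)))))
  (.bis 1 5 2 1 299 (.bis 5 7 2 1 289 (.bis 0 3 1 2 339 (.bis 2 7 4 1 117 (.bis 3 7 4 1 56 (.leaf
  5) (.bis 3 5 8 1 296 (.leaf 5) (.bis 3 6 4 1 278 (.leaf 2) (.leaf 2)))) (.bis 2 6 4 1 282 (.bis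
  3 5 8 1 296 (.leaf 5) (.bis 3 6 4 1 278 (.leaf 2) (.leaf 2))) (.bis 2 4 4 1 105 (.bis 3 5 8 1
  296 (.leaf 5) (.bis 3 4 4 1 69 (.leaf 2) (.leaf 2))) (.bis 2 5 8 1 293 (.bis 3 5 8 1 296 (.leaf
  5) (.leaf 2)) (.bis 1 2 1 4 300 (.bis 2 3 1 1 120 (.leaf 2) (.leaf 9)) (.bis 1 3 1 4 310 (.leaf
  2) (.leaf 2))))))) (.bis 0 2 1 2 343 (.bis 2 7 4 1 117 (.leaf 5) (.bis 2 6 4 1 282 (.leaf 5)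
  (.bis 2 4 4 1 105 (.leaf 5) (.bis 2 5 8 1 293 (.leaf 5) (.bis 1 2 1 4 300 (.bis 2 3 4 1 355
  (.leaf 5) (.leaf 9)) (.leaf 5)))))) (.leaf 19))) (.bis 2 5 2 1 294 (.bis 3 5 2 1 297 (.bis 0 5
  1 1 351 (.bis 4 5 1 2 291 (.leaf 35) (.leaf 5)) (.bis 0 3 2 1 353 (.bis 2 4 1 1 301 (.leaf 5)
  (.leaf 5)) (.bis 0 2 2 1 352 (.leaf 5) (.leaf 19)))) (.bis 0 3 1 2 339 (.bis 3 7 8 1 296 (.leaf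
  5) (.bis 3 6 4 1 278 (.leaf 5) (.leaf 15))) (.bis 0 5 2 1 353 (.leaf 5) (.leaf 57)))) (.bis 0 3
  1 2 339 (.bis 2 6 4 1 282 (.bis 3 7 8 1 296 (.leaf 5) (.bis 3 6 4 1 278 (.leaf 5) (.leaf 15)))
  (.bis 2 4 4 1 105 (.bis 3 7 8 1 296 (.leaf 5) (.bis 3 5 4 1 298 (.leaf 5) (.leaf 2))) (.bis 2 7
  8 1 293 (.bis 3 7 8 1 296 (.leaf 5) (.bis 3 5 4 1 298 (.leaf 5) (.leaf 2))) (.bis 1 2 1 4 300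
  (.bis 3 5 4 1 298 (.bis 0 2 1 4 355 (.leaf 9) (.leaf 5)) (.bis 2 3 1 1 120 (.leaf 2) (.leaf
  9))) (.bis 3 5 4 1 298 (.leaf 5) (.leaf 2)))))) (.bis 0 2 1 2 343 (.bis 2 6 4 1 282 (.leaf 5)
  (.bis 2 4 4 1 105 (.leaf 5) (.bis 2 7 8 1 293 (.leaf 5) (.bis 1 2 1 4 300 (.bis 2 3 4 1 355
  (.leaf 5) (.leaf 9)) (.leaf 5))))) (.leaf 57))))) (.bis 0 1 1 2 340 (.bis 1 2 1 1 104 (.bis 2 7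
  4 1 117 (.bis 3 7 4 1 56 (.leaf 38) (.bis 3 6 4 1 278 (.leaf 2) (.leaf 2))) (.bis 2 6 4 1 282
  (.bis 3 6 4 1 278 (.leaf 2) (.leaf 2)) (.bis 2 4 4 1 105 (.bis 3 4 4 1 69 (.leaf 2) (.leaf 2))
  (.bis 0 2 1 4 344 (.bis 2 5 4 1 300 (.leaf 2) (.bis 2 3 1 1 120 (.leaf 2) (.leaf 9))) (.bis 0 3
  1 4 356 (.leaf 2) (.leaf 2)))))) (.bis 1 4 4 1 66 (.bis 3 7 4 1 56 (.leaf 38) (.bis 3 6 4 1 278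
  (.leaf 2) (.leaf 2))) (.bis 3 7 4 1 56 (.leaf 26) (.leaf 26)))) (.bis 0 3 1 2 339 (.bis 2 7 4 1
  117 (.bis 3 7 4 1 56 (.leaf 5) (.bis 3 6 4 1 278 (.leaf 2) (.leaf 2))) (.bis 2 6 4 1 282 (.bis
  3 6 4 1 278 (.leaf 2) (.bis 3 4 4 1 69 (.leaf 2) (.leaf 2))) (.bis 2 4 4 1 105 (.bis 3 4 4 1 69
  (.leaf 2) (.leaf 2)) (.bis 1 2 1 4 344 (.bis 2 5 4 1 300 (.bis 3 5 4 1 310 (.leaf 2) (.leaf 2))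
  (.bis 2 3 1 1 120 (.leaf 2) (.leaf 9))) (.bis 1 3 1 4 356 (.leaf 2) (.leaf 2)))))) (.bis 0 2 1
  2 343 (.bis 2 7 4 1 117 (.leaf 5) (.bis 2 6 4 1 282 (.leaf 5) (.bis 2 4 4 1 105 (.leaf 5) (.bis
  1 2 1 4 344 (.bis 2 5 4 1 300 (.leaf 5) (.bis 2 3 4 1 355 (.leaf 5) (.leaf 9))) (.leaf 5)))))
  (.leaf 19)))))) (.bis 1 5 2 1 299 (.bis 0 4 1 2 348 (.bis 2 5 2 1 294 (.bis 4 5 2 1 303 (.bis 3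
  5 2 1 297 (.bis 5 7 2 1 291 (.leaf 15) (.bis 0 5 1 2 357 (.leaf 35) (.leaf 15))) (.bis 3 6 4 1
  278 (.leaf 15) (.bis 2 3 1 4 298 (.bis 3 4 4 1 304 (.leaf 15) (.leaf 15)) (.leaf 15)))) (.bis 4
  6 4 1 284 (.bis 3 6 4 1 278 (.leaf 15) (.bis 2 3 1 4 298 (.bis 3 5 4 1 304 (.leaf 15) (.leaf
  2)) (.leaf 15))) (.bis 2 4 1 4 305 (.bis 1 4 1 4 302 (.bis 4 7 4 1 81 (.bis 3 5 4 1 304 (.leaf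
  15) (.bis 3 7 4 1 69 (.leaf 2) (.leaf 2))) (.bis 3 5 4 1 304 (.leaf 6) (.bis 3 4 1 1 84 (.leaf
  6) (.leaf 2)))) (.bis 3 5 4 1 304 (.leaf 15) (.bis 3 7 4 1 69 (.leaf 2) (.leaf 2)))) (.bis 2 3
  1 4 298 (.bis 3 5 4 1 304 (.leaf 15) (.leaf 2)) (.leaf 15))))) (.bis 2 4 1 1 110 (.bis 4 6 4 1
  284 (.bis 3 6 4 1 278 (.leaf 15) (.leaf 15)) (.bis 4 5 4 1 305 (.bis 3 5 4 1 298 (.leaf 15)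
  (.leaf 2)) (.bis 1 4 1 4 302 (.bis 4 7 4 1 81 (.bis 3 7 4 1 69 (.leaf 2) (.leaf 2)) (.bis 3 4 1
  1 84 (.leaf 6) (.leaf 2))) (.bis 3 7 4 1 69 (.leaf 2) (.leaf 2))))) (.bis 2 6 4 1 282 (.bis 3 6
  4 1 278 (.leaf 15) (.leaf 15)) (.bis 2 7 4 1 105 (.bis 3 5 4 1 298 (.leaf 15) (.leaf 2)) (.bis
  1 2 1 4 300 (.bis 0 2 1 4 350 (.bis 3 5 4 1 298 (.leaf 9) (.leaf 9)) (.bis 3 5 4 1 298 (.leaf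
  9) (.leaf 2))) (.bis 3 5 4 1 298 (.leaf 9) (.leaf 2))))))) (.bis 2 5 2 1 294 (.bis 3 5 2 1 297
  (.bis 0 5 1 1 351 (.bis 5 7 2 1 291 (.leaf 5) (.bis 4 5 1 2 357 (.leaf 35) (.leaf 5))) (.bis 0
  3 2 1 353 (.leaf 5) (.leaf 57))) (.bis 0 3 1 2 339 (.bis 3 6 4 1 278 (.leaf 5) (.bis 2 3 1 4
  298 (.leaf 15) (.leaf 5))) (.bis 0 5 2 1 353 (.leaf 5) (.bis 0 2 2 1 352 (.leaf 5) (.leaf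
  19))))) (.bis 0 3 1 2 339 (.bis 2 6 4 1 282 (.bis 3 6 4 1 278 (.leaf 5) (.bis 3 5 4 1 298
  (.leaf 5) (.leaf 2))) (.bis 2 7 4 1 105 (.bis 3 5 4 1 298 (.leaf 5) (.leaf 2)) (.bis 1 2 1 4
  300 (.bis 2 4 4 1 350 (.bis 3 5 4 1 298 (.leaf 5) (.leaf 2)) (.bis 3 5 4 1 298 (.bis 0 2 1 4
  355 (.leaf 9) (.leaf 5)) (.bis 2 3 1 1 120 (.leaf 2) (.leaf 9)))) (.bis 3 5 4 1 298 (.leaf 5)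
  (.leaf 2))))) (.bis 0 2 1 2 343 (.bis 2 6 4 1 282 (.leaf 5) (.bis 2 7 4 1 105 (.leaf 5) (.bis 1
  2 1 4 300 (.bis 2 4 4 1 350 (.leaf 5) (.leaf 9)) (.leaf 5)))) (.bis 0 5 2 1 352 (.leaf 5)
  (.leaf 19)))))) (.bis 0 4 1 2 348 (.bis 2 4 1 1 110 (.bis 1 4 1 1 85 (.bis 4 6 4 1 284 (.leaf
  2) (.bis 4 5 4 1 302 (.leaf 2) (.bis 4 7 4 1 81 (.leaf 2) (.leaf 6)))) (.bis 1 7 4 1 66 (.leaf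
  2) (.bis 1 2 2 1 111 (.bis 3 6 4 1 278 (.leaf 2) (.leaf 2)) (.bis 1 6 4 1 279 (.leaf 2) (.leaf
  26))))) (.bis 1 2 1 1 104 (.bis 2 6 4 1 282 (.leaf 2) (.bis 2 7 4 1 105 (.leaf 2) (.bis 2 5 4 1
  300 (.leaf 2) (.bis 0 2 1 4 350 (.leaf 9) (.leaf 2))))) (.bis 1 7 4 1 66 (.leaf 2) (.bis 1 4 2
  1 111 (.leaf 2) (.bis 1 6 4 1 279 (.leaf 2) (.leaf 26)))))) (.bis 0 1 1 2 340 (.bis 1 2 1 1 104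
  (.bis 2 6 4 1 282 (.bis 3 6 4 1 278 (.leaf 2) (.leaf 2)) (.bis 2 7 4 1 105 (.bis 3 7 4 1 69
  (.leaf 2) (.leaf 2)) (.bis 0 2 1 4 344 (.bis 2 5 4 1 300 (.leaf 2) (.bis 2 4 4 1 350 (.leaf 2)
  (.leaf 9))) (.leaf 2)))) (.bis 1 7 4 1 66 (.bis 3 6 4 1 278 (.leaf 2) (.leaf 2)) (.leaf 26)))
  (.bis 0 3 1 2 339 (.bis 2 6 4 1 282 (.bis 3 6 4 1 278 (.leaf 2) (.bis 3 7 4 1 69 (.leaf 2)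
  (.leaf 2))) (.bis 2 7 4 1 105 (.bis 3 7 4 1 69 (.leaf 2) (.leaf 2)) (.bis 1 2 1 4 344 (.bis 2 5
  4 1 300 (.leaf 2) (.bis 2 4 4 1 350 (.leaf 2) (.bis 2 3 1 1 120 (.leaf 2) (.leaf 9)))) (.bis 1
  3 1 4 356 (.leaf 2) (.leaf 2))))) (.bis 0 2 1 2 343 (.bis 2 6 4 1 282 (.leaf 5) (.bis 2 7 4 1
  105 (.leaf 5) (.bis 1 2 1 4 344 (.bis 2 5 4 1 300 (.leaf 5) (.bis 2 4 4 1 350 (.leaf 5) (.leaf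
  9))) (.leaf 5)))) (.leaf 19))))))))

def lc11 : List Vr := [⟨[73,0,0,0,0,0,42,0], 58034, 0⟩, ⟨[0,24,0,0,0,0,0,0], 10368, 0⟩, ⟨[0,0,28,
  0,0,0,0,0], 10976, 0⟩, ⟨[0,0,0,17,0,0,0,0], 10404, 0⟩, ⟨[0,0,0,0,28,0,0,0], 10976, 0⟩, ⟨[73,0,0,
  0,0,73,0,0], 63948, 0⟩, ⟨[0,0,0,0,0,0,42,0], 10584, 0⟩, ⟨[73,0,0,0,0,0,0,79], 45260, 0⟩]

theorem lk11 : chkTr lowT (leafLow 3 lowB) lt11 lc11 = true := by decide +kernel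

def lt12 : Tr ℕ := (.bis 4 7 2 1 60 (.bis 1 7 2 1 41 (.bis 3 7 2 1 57 (.bis 5 7 1 1 286 (.bis 2 7
  2 1 121 (.bis 0 7 1 1 359 (.bis 6 7 1 1 337 (.leaf 31) (.bis 4 6 1 2 338 (.leaf 19) (.leaf
  19))) (.bis 0 1 2 1 360 (.bis 4 6 1 2 338 (.leaf 19) (.leaf 19)) (.bis 0 3 2 1 361 (.bis 4 6 1
  2 338 (.leaf 12) (.leaf 10)) (.bis 0 2 2 1 362 (.bis 4 6 1 2 338 (.leaf 12) (.leaf 10)) (.bis 4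
  6 1 2 338 (.leaf 12) (.leaf 10)))))) (.bis 2 5 4 1 287 (.bis 0 1 2 1 360 (.bis 4 6 1 2 338
  (.leaf 19) (.leaf 5)) (.bis 0 3 2 1 361 (.bis 4 6 1 2 338 (.leaf 12) (.leaf 5)) (.bis 0 7 2 1
  362 (.bis 4 6 1 2 338 (.leaf 12) (.leaf 5)) (.bis 4 6 1 2 338 (.leaf 12) (.leaf 10))))) (.bis 2
  6 2 1 343 (.bis 0 1 2 1 360 (.leaf 19) (.bis 0 3 2 1 361 (.leaf 12) (.bis 0 7 2 1 362 (.leaf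
  12) (.leaf 12)))) (.bis 1 2 1 4 117 (.bis 2 4 4 1 105 (.bis 0 3 2 1 361 (.leaf 5) (.bis 0 7 2 1
  362 (.leaf 5) (.leaf 10))) (.bis 0 2 1 2 363 (.bis 2 3 4 1 119 (.leaf 5) (.bis 2 7 4 1 288
  (.leaf 5) (.leaf 9))) (.bis 0 3 2 1 361 (.leaf 5) (.bis 0 7 2 1 362 (.leaf 5) (.leaf 10)))))
  (.bis 0 1 2 1 360 (.leaf 5) (.bis 0 3 2 1 361 (.leaf 5) (.bis 0 7 2 1 362 (.leaf 5) (.leaf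
  10)))))))) (.bis 1 5 1 2 289 (.bis 2 5 2 1 294 (.bis 3 5 1 2 290 (.bis 5 6 1 1 351 (.bis 2 6 1
  2 352 (.bis 4 6 1 2 338 (.leaf 12) (.leaf 10)) (.leaf 10)) (.bis 4 5 1 2 291 (.leaf 44) (.leaf
  10))) (.bis 2 6 1 2 352 (.bis 0 3 2 1 361 (.bis 4 6 1 2 338 (.leaf 12) (.leaf 5)) (.bis 4 6 1 2
  338 (.leaf 12) (.leaf 10))) (.leaf 10))) (.bis 2 7 4 1 287 (.bis 5 6 1 2 352 (.bis 0 3 2 1 361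
  (.bis 4 6 1 2 338 (.leaf 12) (.leaf 5)) (.bis 4 6 1 2 338 (.leaf 12) (.leaf 10))) (.leaf 10))
  (.bis 2 6 2 1 343 (.bis 5 6 1 2 352 (.bis 0 3 2 1 361 (.leaf 12) (.leaf 12)) (.leaf 10)) (.bis
  2 4 4 1 105 (.bis 3 5 1 1 354 (.leaf 10) (.bis 0 3 2 1 361 (.leaf 5) (.leaf 10))) (.bis 0 2 1 2
  363 (.bis 1 2 1 8 293 (.bis 2 3 4 1 119 (.leaf 5) (.leaf 9)) (.leaf 5)) (.leaf 10)))))) (.bis 2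
  7 4 1 287 (.bis 0 1 2 1 360 (.bis 4 6 1 2 338 (.leaf 19) (.leaf 5)) (.bis 0 3 2 1 361 (.bis 4 6
  1 2 338 (.leaf 12) (.leaf 5)) (.bis 4 6 1 2 338 (.leaf 12) (.leaf 10)))) (.bis 2 6 2 1 343
  (.bis 0 1 2 1 360 (.leaf 19) (.bis 0 3 2 1 361 (.leaf 12) (.leaf 12))) (.bis 1 2 1 4 117 (.bis
  2 4 4 1 105 (.bis 0 3 2 1 361 (.leaf 5) (.bis 0 1 4 1 364 (.leaf 5) (.leaf 10))) (.bis 0 2 1 2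
  363 (.bis 2 5 8 1 293 (.leaf 5) (.bis 2 3 4 1 119 (.leaf 5) (.leaf 9))) (.bis 0 3 2 1 361
  (.leaf 5) (.leaf 10)))) (.bis 0 1 2 1 360 (.leaf 5) (.bis 0 3 2 1 361 (.leaf 5) (.leaf
  10)))))))) (.bis 1 5 1 2 289 (.bis 2 5 2 1 294 (.bis 3 5 2 1 297 (.bis 5 7 2 1 290 (.bis 3 6 1
  2 353 (.bis 2 6 1 2 352 (.bis 0 7 2 1 361 (.leaf 12) (.leaf 12)) (.leaf 10)) (.leaf 10)) (.bis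
  5 6 1 1 351 (.bis 3 6 1 2 353 (.bis 2 6 1 2 352 (.leaf 12) (.leaf 10)) (.leaf 10)) (.bis 4 5 1
  2 291 (.leaf 44) (.leaf 10)))) (.bis 3 6 2 1 339 (.bis 5 6 1 2 353 (.bis 2 6 1 2 352 (.bis 0 7
  2 1 361 (.leaf 12) (.leaf 12)) (.leaf 10)) (.leaf 10)) (.bis 0 3 1 2 365 (.bis 1 3 1 8 296
  (.leaf 32) (.leaf 5)) (.leaf 10)))) (.bis 3 6 2 1 339 (.bis 2 6 2 1 343 (.bis 5 6 1 2 352 (.bis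
  0 7 2 1 361 (.leaf 12) (.leaf 12)) (.leaf 10)) (.bis 2 4 4 1 105 (.bis 5 7 1 1 354 (.bis 0 7 2
  1 361 (.leaf 5) (.leaf 10)) (.leaf 10)) (.bis 0 2 1 2 363 (.bis 1 2 1 8 293 (.bis 2 7 4 1 119
  (.leaf 5) (.leaf 9)) (.leaf 5)) (.leaf 10)))) (.bis 0 3 1 2 365 (.bis 2 4 4 1 105 (.bis 1 3 1 8
  296 (.bis 3 5 4 1 298 (.leaf 5) (.leaf 32)) (.leaf 5)) (.bis 1 2 1 8 293 (.bis 2 7 4 1 119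
  (.bis 3 5 4 1 298 (.leaf 5) (.leaf 32)) (.bis 3 5 4 1 298 (.bis 2 6 4 1 355 (.leaf 5) (.leaf
  9)) (.bis 2 3 1 1 120 (.leaf 9) (.bis 2 6 4 1 355 (.leaf 9) (.leaf 9))))) (.bis 1 3 1 8 296
  (.leaf 32) (.leaf 5)))) (.bis 2 4 4 1 105 (.leaf 10) (.bis 0 2 1 2 363 (.bis 1 2 1 8 293 (.bis
  2 7 4 1 119 (.leaf 5) (.bis 2 6 4 1 355 (.leaf 5) (.leaf 9))) (.leaf 5)) (.leaf 10)))))) (.bis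
  3 6 2 1 339 (.bis 2 6 2 1 343 (.bis 0 1 2 1 360 (.leaf 19) (.bis 0 7 2 1 361 (.leaf 12) (.leaf
  12))) (.bis 1 2 1 4 117 (.bis 2 4 4 1 105 (.bis 0 7 2 1 361 (.leaf 5) (.bis 0 1 4 1 364 (.leaf
  5) (.leaf 10))) (.bis 0 2 1 2 363 (.bis 2 5 8 1 293 (.leaf 5) (.bis 2 7 4 1 119 (.leaf 5)
  (.leaf 9))) (.bis 0 7 2 1 361 (.leaf 5) (.leaf 10)))) (.bis 0 1 2 1 360 (.leaf 5) (.bis 0 7 2 1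
  361 (.leaf 5) (.leaf 10))))) (.bis 1 2 1 4 117 (.bis 0 3 1 2 365 (.bis 2 4 4 1 105 (.bis 3 5 8
  1 296 (.leaf 5) (.leaf 32)) (.bis 2 5 8 1 293 (.bis 3 5 8 1 296 (.leaf 5) (.leaf 32)) (.bis 2 7
  4 1 119 (.bis 3 7 4 1 283 (.leaf 5) (.leaf 9)) (.bis 2 3 1 1 120 (.leaf 9) (.leaf 9))))) (.bis
  2 4 4 1 105 (.bis 0 7 2 1 361 (.leaf 5) (.leaf 10)) (.bis 0 2 1 2 363 (.bis 2 5 8 1 293 (.leaf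
  5) (.bis 2 7 4 1 119 (.leaf 5) (.bis 2 6 4 1 355 (.leaf 5) (.leaf 9)))) (.leaf 10)))) (.bis 0 3
  1 2 365 (.bis 1 3 1 4 56 (.bis 3 5 8 1 296 (.leaf 5) (.leaf 32)) (.leaf 5)) (.bis 0 1 2 1 360
  (.leaf 5) (.bis 0 7 2 1 361 (.leaf 5) (.leaf 10)))))))) (.bis 1 5 2 1 299 (.bis 5 7 2 1 289
  (.bis 3 6 2 1 339 (.bis 2 6 2 1 343 (.bis 0 7 2 1 360 (.leaf 19) (.leaf 12)) (.bis 2 7 4 1 117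
  (.bis 0 7 2 1 360 (.leaf 5) (.bis 0 2 4 1 364 (.leaf 5) (.leaf 10))) (.bis 2 4 4 1 105 (.bis 0
  7 4 1 364 (.leaf 5) (.leaf 10)) (.bis 0 2 1 2 363 (.bis 2 5 8 1 293 (.leaf 5) (.bis 1 2 1 4 300
  (.leaf 9) (.leaf 5))) (.leaf 10))))) (.bis 2 7 4 1 117 (.bis 0 3 1 2 365 (.bis 3 7 4 1 56
  (.leaf 5) (.bis 3 5 8 1 296 (.leaf 5) (.leaf 15))) (.bis 0 7 2 1 360 (.leaf 5) (.leaf 10)))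
  (.bis 0 3 1 2 365 (.bis 2 4 4 1 105 (.bis 3 5 8 1 296 (.leaf 5) (.leaf 15)) (.bis 2 5 8 1 293
  (.bis 3 5 8 1 296 (.leaf 5) (.leaf 9)) (.bis 1 2 1 4 300 (.bis 2 3 1 1 120 (.leaf 9) (.leaf 9))
  (.leaf 9)))) (.bis 2 4 4 1 105 (.leaf 10) (.bis 0 2 1 2 363 (.bis 2 5 8 1 293 (.leaf 5) (.bis 1
  2 1 4 300 (.bis 2 6 4 1 355 (.leaf 5) (.leaf 9)) (.leaf 5))) (.leaf 10)))))) (.bis 2 5 2 1 294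
  (.bis 3 5 2 1 297 (.bis 5 6 1 1 351 (.bis 3 6 1 2 353 (.bis 2 6 1 2 352 (.leaf 12) (.leaf 10))
  (.bis 2 4 1 1 301 (.leaf 10) (.leaf 10))) (.bis 4 5 1 2 291 (.leaf 44) (.leaf 10))) (.bis 3 6 2
  1 339 (.bis 5 6 1 2 353 (.bis 2 6 1 2 352 (.leaf 12) (.leaf 10)) (.leaf 10)) (.bis 0 3 1 2 365
  (.bis 3 7 8 1 296 (.leaf 5) (.leaf 15)) (.leaf 10)))) (.bis 3 6 2 1 339 (.bis 2 6 2 1 343 (.bis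
  5 6 1 2 352 (.leaf 12) (.leaf 10)) (.bis 2 4 4 1 105 (.leaf 10) (.bis 0 2 1 2 363 (.bis 2 7 8 1
  293 (.leaf 5) (.bis 1 2 1 4 300 (.leaf 9) (.leaf 5))) (.leaf 10)))) (.bis 0 3 1 2 365 (.bis 2 4
  4 1 105 (.bis 3 7 8 1 296 (.leaf 5) (.leaf 15)) (.bis 2 7 8 1 293 (.bis 3 7 8 1 296 (.leaf 5)
  (.leaf 9)) (.bis 1 2 1 4 300 (.bis 3 5 4 1 298 (.bis 2 6 4 1 355 (.leaf 5) (.leaf 9)) (.bis 2 3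
  1 1 120 (.leaf 9) (.bis 2 6 4 1 355 (.leaf 9) (.leaf 9)))) (.bis 3 5 4 1 298 (.leaf 5) (.leaf
  9))))) (.bis 2 4 4 1 105 (.leaf 10) (.bis 0 2 1 2 363 (.bis 2 7 8 1 293 (.leaf 5) (.bis 1 2 1 4
  300 (.bis 2 6 4 1 355 (.leaf 5) (.leaf 9)) (.leaf 5))) (.leaf 10))))))) (.bis 0 1 1 2 366 (.bis
  1 6 2 1 340 (.bis 3 6 2 1 339 (.bis 2 6 2 1 343 (.leaf 19) (.bis 2 7 4 1 117 (.leaf 5) (.bis 2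
  4 4 1 105 (.leaf 5) (.bis 1 2 1 4 344 (.bis 2 5 4 1 300 (.leaf 5) (.bis 0 2 1 4 367 (.leaf 9)
  (.leaf 5))) (.leaf 5))))) (.bis 2 7 4 1 117 (.bis 3 7 4 1 56 (.leaf 5) (.bis 3 4 4 1 69 (.leaf
  2) (.leaf 2))) (.bis 2 4 4 1 105 (.bis 3 4 4 1 69 (.leaf 2) (.leaf 2)) (.bis 1 2 1 4 344 (.bis
  2 5 4 1 300 (.leaf 2) (.bis 0 2 1 4 367 (.bis 2 3 1 1 120 (.leaf 2) (.leaf 9)) (.leaf 2)))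
  (.bis 1 3 1 4 356 (.leaf 2) (.leaf 2)))))) (.bis 1 2 1 1 104 (.bis 2 7 4 1 117 (.bis 3 7 4 1 56
  (.leaf 38) (.leaf 2)) (.bis 2 4 4 1 105 (.bis 3 4 4 1 69 (.leaf 2) (.leaf 2)) (.bis 2 6 4 1 344
  (.leaf 2) (.bis 2 5 4 1 300 (.leaf 2) (.bis 0 2 1 4 367 (.bis 2 3 1 1 120 (.leaf 2) (.leaf 9))
  (.leaf 2)))))) (.bis 1 4 4 1 66 (.bis 3 7 4 1 56 (.leaf 38) (.leaf 2)) (.bis 3 7 4 1 56 (.leaf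
  26) (.leaf 26))))) (.bis 3 6 2 1 339 (.bis 2 6 2 1 343 (.bis 0 7 2 1 360 (.leaf 19) (.leaf 12))
  (.bis 2 7 4 1 117 (.bis 0 7 2 1 360 (.leaf 5) (.leaf 10)) (.bis 2 4 4 1 105 (.bis 0 7 4 1 364
  (.leaf 5) (.leaf 10)) (.bis 0 2 1 2 363 (.bis 2 5 4 1 300 (.leaf 5) (.bis 1 2 1 4 367 (.leaf 9)
  (.leaf 5))) (.leaf 10))))) (.bis 2 7 4 1 117 (.bis 0 3 1 2 365 (.bis 3 7 4 1 56 (.leaf 5)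
  (.leaf 15)) (.bis 0 7 2 1 360 (.leaf 5) (.leaf 10))) (.bis 0 3 1 2 365 (.bis 2 4 4 1 105 (.leaf
  15) (.bis 2 5 4 1 300 (.leaf 9) (.bis 1 2 1 4 367 (.bis 2 3 1 1 120 (.leaf 9) (.leaf 9)) (.leaf
  9)))) (.bis 2 4 4 1 105 (.leaf 10) (.bis 0 2 1 2 363 (.bis 2 5 4 1 300 (.leaf 5) (.bis 1 2 1 4
  367 (.leaf 9) (.leaf 5))) (.leaf 10))))))))) (.bis 1 5 2 1 299 (.bis 4 6 2 1 348 (.bis 2 5 2 1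
  294 (.bis 3 5 2 1 297 (.bis 5 6 1 1 351 (.bis 3 6 1 2 353 (.bis 2 6 1 2 352 (.leaf 12) (.leaf
  10)) (.leaf 10)) (.bis 5 7 2 1 291 (.leaf 10) (.leaf 44))) (.bis 3 6 2 1 339 (.bis 5 6 1 2 353
  (.bis 2 6 1 2 352 (.leaf 12) (.leaf 10)) (.leaf 10)) (.bis 0 3 1 2 365 (.bis 2 3 1 4 298 (.leaf
  15) (.leaf 5)) (.leaf 10)))) (.bis 3 6 2 1 339 (.bis 2 6 2 1 343 (.leaf 57) (.bis 2 7 4 1 105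
  (.leaf 10) (.bis 0 2 1 2 363 (.bis 1 2 1 4 300 (.bis 2 4 4 1 350 (.leaf 5) (.leaf 9)) (.leaf
  5)) (.leaf 10)))) (.bis 0 3 1 2 365 (.bis 2 7 4 1 105 (.bis 3 5 4 1 298 (.leaf 5) (.leaf 15))
  (.bis 1 2 1 4 300 (.bis 2 4 4 1 350 (.leaf 9) (.bis 3 5 4 1 298 (.bis 2 6 4 1 355 (.leaf 5)
  (.leaf 9)) (.bis 2 3 1 1 120 (.leaf 9) (.leaf 9)))) (.leaf 9))) (.bis 2 7 4 1 105 (.leaf 10)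
  (.bis 0 2 1 2 363 (.bis 1 2 1 4 300 (.bis 2 4 4 1 350 (.leaf 5) (.bis 2 6 4 1 355 (.leaf 5)
  (.leaf 9))) (.leaf 5)) (.leaf 10)))))) (.bis 2 5 2 1 294 (.bis 4 5 2 1 303 (.bis 3 5 2 1 297
  (.bis 5 7 2 1 291 (.leaf 47) (.leaf 44)) (.bis 0 3 1 2 365 (.bis 2 3 1 4 298 (.bis 3 4 4 1 304
  (.leaf 15) (.leaf 15)) (.leaf 15)) (.leaf 47))) (.bis 0 4 1 2 368 (.bis 2 4 1 4 305 (.bis 1 4 1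
  4 302 (.bis 4 7 4 1 81 (.bis 3 5 4 1 304 (.leaf 15) (.bis 3 7 4 1 69 (.leaf 15) (.leaf 6)))
  (.bis 3 5 4 1 304 (.leaf 6) (.bis 3 4 1 1 84 (.leaf 6) (.leaf 6)))) (.bis 3 5 4 1 304 (.leaf
  15) (.bis 3 7 4 1 69 (.leaf 15) (.leaf 6)))) (.bis 2 3 1 4 298 (.bis 3 5 4 1 304 (.leaf 15)
  (.leaf 15)) (.leaf 15))) (.bis 0 3 1 2 365 (.bis 2 3 1 4 298 (.bis 3 5 4 1 304 (.leaf 15)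
  (.leaf 15)) (.leaf 15)) (.leaf 47)))) (.bis 2 4 1 1 110 (.bis 0 4 1 2 368 (.bis 4 5 4 1 305
  (.bis 3 5 4 1 298 (.leaf 15) (.leaf 15)) (.bis 1 4 1 4 302 (.bis 4 7 4 1 81 (.bis 3 7 4 1 69
  (.leaf 15) (.leaf 6)) (.bis 3 4 1 1 84 (.leaf 6) (.leaf 6))) (.bis 3 7 4 1 69 (.leaf 15) (.leaf
  6)))) (.bis 0 3 1 2 365 (.bis 3 5 4 1 298 (.leaf 15) (.leaf 15)) (.leaf 47))) (.bis 0 3 1 2 365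
  (.bis 2 7 4 1 105 (.bis 3 5 4 1 298 (.leaf 15) (.leaf 15)) (.bis 1 2 1 4 300 (.bis 2 6 4 1 350
  (.leaf 9) (.leaf 9)) (.leaf 9))) (.bis 2 7 4 1 105 (.leaf 47) (.bis 0 2 1 2 363 (.bis 1 2 1 4
  300 (.bis 2 6 4 1 350 (.leaf 9) (.leaf 9)) (.leaf 9)) (.leaf 47))))))) (.bis 4 6 2 1 348 (.bis
  0 1 1 2 366 (.bis 1 6 2 1 340 (.bis 3 6 2 1 339 (.bis 2 6 2 1 343 (.leaf 19) (.bis 2 7 4 1 105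
  (.leaf 5) (.bis 1 2 1 4 344 (.bis 2 5 4 1 300 (.leaf 5) (.bis 2 4 4 1 350 (.leaf 5) (.bis 0 2 1
  4 367 (.leaf 9) (.leaf 5)))) (.leaf 5)))) (.bis 2 7 4 1 105 (.bis 3 7 4 1 69 (.leaf 2) (.leaf
  2)) (.bis 1 2 1 4 344 (.bis 2 5 4 1 300 (.leaf 2) (.bis 2 4 4 1 350 (.leaf 2) (.bis 0 2 1 4 367
  (.leaf 9) (.leaf 2)))) (.bis 1 3 1 4 356 (.leaf 2) (.leaf 2))))) (.bis 1 2 1 1 104 (.bis 2 7 4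
  1 105 (.bis 3 7 4 1 69 (.leaf 2) (.leaf 2)) (.bis 2 6 4 1 344 (.leaf 2) (.bis 2 5 4 1 300
  (.leaf 2) (.bis 2 4 4 1 350 (.leaf 2) (.leaf 9))))) (.bis 1 7 4 1 66 (.bis 3 7 4 1 69 (.leaf 2)
  (.leaf 2)) (.leaf 26)))) (.bis 3 6 2 1 339 (.bis 2 6 2 1 343 (.leaf 12) (.bis 2 7 4 1 105
  (.leaf 10) (.bis 0 2 1 2 363 (.bis 2 5 4 1 300 (.leaf 5) (.bis 2 4 4 1 350 (.leaf 5) (.bis 1 2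
  1 4 367 (.leaf 9) (.leaf 5)))) (.leaf 10)))) (.bis 0 3 1 2 365 (.bis 2 7 4 1 105 (.leaf 15)
  (.bis 2 5 4 1 300 (.leaf 9) (.bis 2 4 4 1 350 (.leaf 9) (.bis 1 2 1 4 367 (.bis 2 3 1 1 120
  (.leaf 9) (.leaf 9)) (.leaf 9))))) (.bis 2 7 4 1 105 (.leaf 10) (.bis 0 2 1 2 363 (.bis 2 5 4 1
  300 (.leaf 5) (.bis 2 4 4 1 350 (.leaf 5) (.bis 1 2 1 4 367 (.leaf 9) (.leaf 5)))) (.leaf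
  10)))))) (.bis 0 1 1 2 366 (.bis 2 4 1 1 110 (.bis 1 4 1 1 85 (.bis 4 5 4 1 302 (.leaf 2) (.bis
  4 7 4 1 81 (.leaf 2) (.bis 0 4 1 4 369 (.leaf 6) (.leaf 2)))) (.bis 1 7 4 1 66 (.leaf 2) (.bis
  1 2 2 1 111 (.leaf 2) (.leaf 26)))) (.bis 1 2 1 1 104 (.bis 2 7 4 1 105 (.leaf 2) (.bis 2 5 4 1
  300 (.leaf 2) (.bis 2 6 4 1 350 (.leaf 2) (.leaf 9)))) (.bis 1 7 4 1 66 (.leaf 2) (.bis 1 4 2 1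
  111 (.leaf 2) (.leaf 26))))) (.bis 2 4 1 1 110 (.bis 0 4 1 2 368 (.bis 4 5 4 1 302 (.bis 3 7 4
  1 69 (.leaf 15) (.leaf 6)) (.bis 4 7 4 1 81 (.bis 3 7 4 1 69 (.leaf 15) (.leaf 6)) (.bis 1 4 1
  4 369 (.bis 3 4 1 1 84 (.leaf 6) (.leaf 6)) (.leaf 6)))) (.bis 0 3 1 2 365 (.leaf 15) (.leaf
  47))) (.bis 0 3 1 2 365 (.bis 2 7 4 1 105 (.leaf 15) (.bis 2 5 4 1 300 (.leaf 6) (.bis 2 6 4 1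
  350 (.leaf 6) (.bis 1 2 1 4 367 (.leaf 9) (.leaf 6))))) (.bis 2 7 4 1 105 (.leaf 47) (.bis 0 2
  1 2 363 (.bis 2 5 4 1 300 (.leaf 9) (.bis 2 6 4 1 350 (.leaf 9) (.bis 1 2 1 4 367 (.leaf 9)
  (.leaf 9)))) (.leaf 47)))))))))

def lc12 : List Vr := [⟨[73,0,0,0,28,0,0,0], 54338, 0⟩, ⟨[0,24,0,0,0,0,0,0], 10368, 0⟩, ⟨[0,0,28,
  0,0,0,0,0], 10976, 0⟩, ⟨[0,0,0,17,0,0,0,0], 10404, 0⟩, ⟨[0,0,0,0,28,0,0,0], 10976, 0⟩, ⟨[73,0,0,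
  0,0,73,0,0], 63948, 0⟩, ⟨[73,0,0,0,0,0,42,0], 58034, 0⟩, ⟨[73,0,0,0,0,0,0,79], 45260, 0⟩]

theorem lk12 : chkTr lowT (leafLow 3 lowB) lt12 lc12 = true := by decide +kernel

def lt13 : Tr ℕ := (.bis 0 1 1 1 370 (.bis 1 7 2 1 41 (.bis 3 7 2 1 57 (.bis 5 7 1 1 286 (.bis 2
  7 2 1 121 (.bis 4 7 1 1 359 (.bis 0 7 1 1 371 (.bis 6 7 1 1 337 (.leaf 31) (.leaf 19)) (.bis 0
  1 2 1 372 (.leaf 19) (.leaf 12))) (.bis 1 4 1 2 360 (.bis 3 4 1 2 361 (.leaf 12) (.leaf 12))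
  (.bis 0 1 2 1 372 (.leaf 19) (.leaf 12)))) (.bis 2 5 4 1 287 (.bis 1 4 1 2 360 (.bis 3 4 1 2
  361 (.leaf 12) (.leaf 12)) (.leaf 19)) (.bis 2 6 2 1 343 (.bis 1 4 1 2 360 (.bis 3 4 1 2 361
  (.leaf 12) (.leaf 12)) (.leaf 19)) (.bis 1 2 1 4 117 (.bis 2 4 2 1 363 (.bis 3 4 1 2 361 (.leaf
  10) (.leaf 10)) (.bis 0 2 1 2 373 (.bis 2 3 4 1 119 (.leaf 5) (.leaf 55)) (.leaf 10))) (.bis 1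
  4 1 2 360 (.bis 3 4 1 2 361 (.leaf 10) (.leaf 10)) (.leaf 19)))))) (.bis 1 5 1 2 289 (.bis 2 5
  2 1 294 (.bis 3 5 1 2 290 (.bis 5 6 1 1 351 (.bis 2 6 1 2 352 (.leaf 12) (.leaf 10)) (.bis 0 5
  1 1 374 (.leaf 44) (.leaf 10))) (.bis 2 6 1 2 352 (.leaf 12) (.leaf 10))) (.bis 2 7 4 1 287
  (.bis 5 6 1 2 352 (.leaf 12) (.leaf 10)) (.bis 2 6 2 1 343 (.leaf 57) (.bis 2 4 2 1 363 (.leaf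
  10) (.bis 0 2 1 2 373 (.bis 1 2 1 8 293 (.bis 2 3 4 1 119 (.leaf 5) (.leaf 9)) (.leaf 5))
  (.leaf 10)))))) (.bis 2 7 4 1 287 (.bis 1 4 1 2 360 (.leaf 12) (.leaf 19)) (.bis 2 6 2 1 343
  (.bis 1 4 1 2 360 (.leaf 12) (.leaf 19)) (.bis 1 2 1 4 117 (.bis 2 4 2 1 363 (.leaf 10) (.bis 0
  2 1 2 373 (.bis 2 5 8 1 293 (.leaf 5) (.bis 2 3 4 1 119 (.leaf 5) (.leaf 9))) (.leaf 10)))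
  (.bis 1 4 1 2 360 (.bis 3 4 1 2 361 (.leaf 10) (.leaf 10)) (.leaf 19))))))) (.bis 1 5 1 2 289
  (.bis 2 5 2 1 294 (.bis 3 5 2 1 297 (.bis 5 7 2 1 290 (.bis 3 6 1 2 353 (.bis 2 6 1 2 352
  (.leaf 12) (.leaf 10)) (.leaf 10)) (.bis 5 6 1 1 351 (.bis 3 6 1 2 353 (.bis 2 6 1 2 352 (.leaf
  12) (.leaf 10)) (.leaf 10)) (.bis 0 5 1 1 374 (.leaf 44) (.leaf 10)))) (.bis 3 6 2 1 339 (.bis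
  5 6 1 2 353 (.bis 2 6 1 2 352 (.bis 4 7 2 1 361 (.leaf 12) (.leaf 12)) (.leaf 10)) (.leaf 10))
  (.bis 0 3 1 2 375 (.bis 3 4 2 1 365 (.leaf 10) (.bis 1 3 1 8 296 (.leaf 32) (.leaf 5))) (.leaf
  10)))) (.bis 3 6 2 1 339 (.bis 2 6 2 1 343 (.bis 5 6 1 2 352 (.bis 4 7 2 1 361 (.leaf 12)
  (.leaf 12)) (.leaf 10)) (.bis 2 4 2 1 363 (.leaf 10) (.bis 0 2 1 2 373 (.bis 1 2 1 8 293 (.bis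
  2 7 4 1 119 (.leaf 5) (.leaf 9)) (.leaf 5)) (.leaf 10)))) (.bis 0 3 1 2 375 (.bis 3 4 2 1 365
  (.bis 2 4 2 1 363 (.leaf 10) (.bis 1 2 1 8 293 (.bis 2 7 4 1 119 (.leaf 5) (.bis 2 6 4 1 355
  (.leaf 5) (.leaf 9))) (.leaf 5))) (.bis 1 2 1 8 293 (.bis 2 7 4 1 119 (.leaf 32) (.bis 3 5 4 1
  298 (.bis 2 6 4 1 355 (.leaf 5) (.bis 2 4 4 1 376 (.leaf 5) (.leaf 9))) (.bis 2 3 1 1 120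
  (.leaf 9) (.bis 2 6 4 1 355 (.leaf 9) (.leaf 9))))) (.bis 1 3 1 8 296 (.leaf 32) (.leaf 5))))
  (.bis 2 4 2 1 363 (.leaf 10) (.bis 0 2 1 2 373 (.bis 1 2 1 8 293 (.bis 2 7 4 1 119 (.leaf 5)
  (.bis 2 6 4 1 355 (.leaf 5) (.leaf 9))) (.leaf 5)) (.leaf 10)))))) (.bis 3 6 2 1 339 (.bis 2 6
  2 1 343 (.bis 1 4 1 2 360 (.bis 4 7 2 1 361 (.leaf 12) (.leaf 12)) (.leaf 19)) (.bis 1 2 1 4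
  117 (.bis 2 4 2 1 363 (.leaf 10) (.bis 0 2 1 2 373 (.bis 2 5 8 1 293 (.leaf 5) (.bis 2 7 4 1
  119 (.leaf 5) (.leaf 9))) (.leaf 10))) (.bis 1 4 1 2 360 (.bis 4 7 2 1 361 (.leaf 10) (.leaf
  10)) (.leaf 19)))) (.bis 1 2 1 4 117 (.bis 0 3 1 2 375 (.bis 3 4 2 1 365 (.bis 2 4 2 1 363
  (.leaf 10) (.bis 2 5 8 1 293 (.leaf 5) (.bis 2 7 4 1 119 (.leaf 5) (.bis 2 6 4 1 355 (.leaf 5)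
  (.leaf 9))))) (.bis 2 5 8 1 293 (.bis 3 5 8 1 296 (.leaf 5) (.leaf 32)) (.bis 2 7 4 1 119
  (.leaf 32) (.bis 2 3 1 1 120 (.leaf 9) (.bis 2 6 4 1 355 (.leaf 9) (.leaf 9)))))) (.bis 2 4 2 1
  363 (.leaf 10) (.bis 0 2 1 2 373 (.bis 2 5 8 1 293 (.leaf 5) (.bis 2 7 4 1 119 (.leaf 5) (.bis
  2 6 4 1 355 (.leaf 5) (.leaf 9)))) (.leaf 10)))) (.bis 0 3 1 2 375 (.bis 3 4 2 1 365 (.bis 1 4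
  1 2 360 (.leaf 10) (.leaf 5)) (.bis 1 3 1 4 56 (.leaf 32) (.leaf 5))) (.bis 1 4 1 2 360 (.leaf
  10) (.leaf 19))))))) (.bis 1 5 2 1 299 (.bis 5 7 2 1 289 (.bis 3 6 2 1 339 (.bis 2 6 2 1 343
  (.bis 4 7 2 1 360 (.leaf 19) (.leaf 12)) (.bis 2 7 4 1 117 (.bis 4 7 2 1 360 (.leaf 19) (.leaf
  10)) (.bis 2 4 2 1 363 (.leaf 10) (.bis 0 2 1 2 373 (.bis 2 5 8 1 293 (.leaf 5) (.bis 1 2 1 4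
  300 (.leaf 9) (.leaf 5))) (.leaf 10))))) (.bis 2 7 4 1 117 (.bis 0 3 1 2 375 (.bis 3 4 2 1 365
  (.bis 4 7 2 1 360 (.leaf 5) (.leaf 10)) (.bis 3 7 4 1 56 (.leaf 5) (.leaf 15))) (.bis 4 7 2 1
  360 (.leaf 19) (.leaf 10))) (.bis 0 3 1 2 375 (.bis 3 4 2 1 365 (.bis 2 4 2 1 363 (.leaf 10)
  (.bis 2 5 8 1 293 (.leaf 5) (.bis 1 2 1 4 300 (.bis 2 6 4 1 355 (.leaf 5) (.leaf 9)) (.leaf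
  5)))) (.bis 2 5 8 1 293 (.bis 3 5 8 1 296 (.leaf 5) (.leaf 9)) (.bis 1 2 1 4 300 (.bis 2 3 1 1
  120 (.leaf 9) (.bis 2 6 4 1 355 (.leaf 9) (.leaf 9))) (.leaf 9)))) (.bis 2 4 2 1 363 (.leaf 10)
  (.bis 0 2 1 2 373 (.bis 2 5 8 1 293 (.leaf 5) (.bis 1 2 1 4 300 (.bis 2 6 4 1 355 (.leaf 5)
  (.leaf 9)) (.leaf 5))) (.leaf 10)))))) (.bis 2 5 2 1 294 (.bis 3 5 2 1 297 (.bis 5 6 1 1 351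
  (.bis 3 6 1 2 353 (.bis 2 6 1 2 352 (.leaf 12) (.leaf 10)) (.leaf 10)) (.bis 0 5 1 1 374 (.leaf
  44) (.leaf 10))) (.bis 3 6 2 1 339 (.bis 5 6 1 2 353 (.leaf 57) (.leaf 10)) (.bis 0 3 1 2 375
  (.bis 3 4 2 1 365 (.leaf 10) (.bis 3 7 8 1 296 (.leaf 5) (.leaf 9))) (.leaf 10)))) (.bis 3 6 2
  1 339 (.bis 2 6 2 1 343 (.leaf 57) (.bis 2 4 2 1 363 (.leaf 10) (.bis 0 2 1 2 373 (.bis 2 7 8 1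
  293 (.leaf 5) (.bis 1 2 1 4 300 (.leaf 9) (.leaf 5))) (.leaf 10)))) (.bis 0 3 1 2 375 (.bis 3 4
  2 1 365 (.bis 2 4 2 1 363 (.leaf 10) (.bis 2 7 8 1 293 (.leaf 5) (.bis 1 2 1 4 300 (.bis 2 6 4
  1 355 (.leaf 5) (.bis 2 3 4 1 376 (.leaf 5) (.leaf 9))) (.leaf 5)))) (.bis 2 7 8 1 293 (.bis 3
  7 8 1 296 (.leaf 5) (.leaf 9)) (.bis 1 2 1 4 300 (.bis 3 5 4 1 298 (.bis 2 6 4 1 355 (.leaf 5)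
  (.bis 2 4 4 1 376 (.leaf 5) (.leaf 9))) (.bis 2 3 1 1 120 (.leaf 9) (.bis 2 6 4 1 355 (.leaf 9)
  (.leaf 9)))) (.leaf 9)))) (.bis 2 4 2 1 363 (.leaf 10) (.bis 0 2 1 2 373 (.bis 2 7 8 1 293
  (.leaf 5) (.bis 1 2 1 4 300 (.bis 2 6 4 1 355 (.leaf 5) (.leaf 9)) (.leaf 5))) (.leaf 10)))))))
  (.bis 1 4 2 1 366 (.bis 3 6 2 1 339 (.bis 2 6 2 1 343 (.bis 4 7 2 1 360 (.leaf 19) (.leaf 12))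
  (.bis 2 7 4 1 117 (.bis 4 7 2 1 360 (.leaf 19) (.leaf 10)) (.bis 2 4 2 1 363 (.leaf 10) (.bis 0
  2 1 2 373 (.bis 2 5 4 1 300 (.leaf 5) (.bis 1 2 1 4 367 (.leaf 9) (.leaf 5))) (.leaf 10)))))
  (.bis 2 7 4 1 117 (.bis 0 3 1 2 375 (.bis 3 4 2 1 365 (.bis 4 7 2 1 360 (.leaf 5) (.leaf 10))
  (.bis 3 7 4 1 56 (.leaf 5) (.leaf 9))) (.bis 4 7 2 1 360 (.leaf 19) (.leaf 10))) (.bis 0 3 1 2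
  375 (.bis 3 4 2 1 365 (.bis 2 4 2 1 363 (.leaf 10) (.bis 2 5 4 1 300 (.leaf 5) (.bis 1 2 1 4
  367 (.bis 2 6 4 1 355 (.leaf 5) (.leaf 9)) (.leaf 5)))) (.bis 2 5 4 1 300 (.leaf 9) (.bis 1 2 1
  4 367 (.bis 2 3 1 1 120 (.leaf 9) (.bis 2 6 4 1 355 (.leaf 9) (.leaf 9))) (.leaf 9)))) (.bis 2
  4 2 1 363 (.leaf 10) (.bis 0 2 1 2 373 (.bis 2 5 4 1 300 (.leaf 5) (.bis 1 2 1 4 367 (.leaf 9)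
  (.leaf 5))) (.leaf 10)))))) (.bis 1 6 2 1 340 (.bis 3 6 2 1 339 (.bis 2 6 2 1 343 (.leaf 19)
  (.bis 2 7 4 1 117 (.leaf 19) (.bis 0 2 1 2 373 (.bis 1 2 1 4 344 (.bis 2 5 4 1 300 (.leaf 5)
  (.bis 2 4 4 1 367 (.leaf 5) (.leaf 9))) (.leaf 5)) (.leaf 19)))) (.bis 2 7 4 1 117 (.bis 0 3 1
  2 375 (.bis 3 7 4 1 56 (.leaf 5) (.leaf 2)) (.leaf 19)) (.bis 0 3 1 2 375 (.bis 1 2 1 4 344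
  (.bis 2 5 4 1 300 (.leaf 2) (.bis 2 4 4 1 367 (.leaf 2) (.bis 2 3 1 1 120 (.leaf 2) (.leaf
  9)))) (.leaf 2)) (.bis 0 2 1 2 373 (.bis 1 2 1 4 344 (.bis 2 5 4 1 300 (.leaf 5) (.bis 2 4 4 1
  367 (.leaf 5) (.bis 2 6 4 1 355 (.leaf 5) (.leaf 9)))) (.leaf 5)) (.leaf 19))))) (.bis 1 2 1 1
  104 (.bis 2 7 4 1 117 (.bis 0 3 1 2 375 (.bis 3 7 4 1 56 (.leaf 26) (.leaf 2)) (.leaf 80))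
  (.bis 0 3 1 2 375 (.bis 2 6 4 1 344 (.leaf 2) (.bis 2 5 4 1 300 (.leaf 2) (.bis 2 4 4 1 367
  (.leaf 2) (.leaf 9)))) (.bis 0 2 1 2 373 (.bis 2 6 4 1 344 (.leaf 32) (.bis 2 5 4 1 300 (.leaf
  9) (.bis 2 4 4 1 367 (.leaf 9) (.leaf 9)))) (.leaf 80)))) (.bis 0 1 1 2 377 (.bis 3 7 4 1 56
  (.leaf 26) (.leaf 26)) (.bis 0 3 1 2 375 (.bis 3 7 4 1 56 (.leaf 26) (.leaf 26)) (.leaf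
  80)))))))) (.bis 0 3 1 1 378 (.bis 3 7 2 1 57 (.bis 5 7 1 1 286 (.bis 2 7 2 1 121 (.bis 4 7 1 1
  359 (.bis 0 7 1 1 379 (.bis 1 7 1 1 371 (.bis 6 7 1 1 337 (.leaf 31) (.leaf 19)) (.bis 1 3 2 1
  380 (.leaf 12) (.leaf 12))) (.bis 0 3 2 1 381 (.bis 1 3 2 1 380 (.leaf 12) (.leaf 12)) (.leaf
  12))) (.bis 3 4 1 2 361 (.leaf 12) (.leaf 12))) (.bis 2 5 4 1 287 (.bis 3 4 1 2 361 (.leaf 12)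
  (.leaf 12)) (.bis 2 6 2 1 343 (.bis 3 4 1 2 361 (.leaf 12) (.leaf 12)) (.bis 2 4 2 1 363 (.leaf
  10) (.bis 1 2 1 2 373 (.bis 2 3 4 1 119 (.leaf 10) (.bis 0 2 1 2 382 (.leaf 55) (.leaf 10)))
  (.leaf 10)))))) (.bis 2 5 2 1 294 (.bis 3 5 1 2 290 (.bis 5 6 1 1 351 (.bis 2 6 1 2 352 (.leaf
  12) (.leaf 10)) (.bis 1 5 1 1 374 (.bis 0 5 1 1 383 (.leaf 44) (.leaf 10)) (.leaf 10))) (.bis 2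
  6 1 2 352 (.leaf 12) (.leaf 10))) (.bis 2 7 4 1 287 (.bis 5 6 1 2 352 (.leaf 12) (.leaf 10))
  (.bis 2 6 2 1 343 (.leaf 87) (.bis 2 4 2 1 363 (.bis 3 5 1 1 354 (.leaf 10) (.leaf 10)) (.bis 1
  2 1 2 373 (.bis 2 3 4 1 119 (.leaf 10) (.bis 0 2 1 2 382 (.leaf 9) (.leaf 10))) (.bis 3 5 1 1
  354 (.leaf 10) (.leaf 10)))))))) (.bis 2 5 2 1 294 (.bis 3 5 2 1 297 (.bis 5 7 2 1 290 (.bis 3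
  6 1 2 353 (.leaf 87) (.bis 2 7 1 1 354 (.leaf 10) (.leaf 10))) (.bis 5 6 1 1 351 (.bis 3 6 1 2
  353 (.bis 2 6 1 2 352 (.leaf 12) (.leaf 10)) (.leaf 10)) (.bis 1 5 1 1 374 (.leaf 101) (.leaf
  10)))) (.bis 3 6 2 1 339 (.bis 5 6 1 2 353 (.bis 2 6 1 2 352 (.leaf 12) (.bis 2 7 1 1 354
  (.leaf 10) (.leaf 10))) (.bis 2 7 1 1 354 (.leaf 10) (.leaf 10))) (.bis 1 3 1 2 375 (.bis 3 4 2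
  1 365 (.leaf 10) (.bis 0 3 1 2 384 (.leaf 32) (.leaf 10))) (.bis 2 7 1 1 354 (.leaf 10) (.leaf
  10))))) (.bis 3 6 2 1 339 (.bis 2 6 2 1 343 (.bis 5 6 1 2 352 (.leaf 12) (.leaf 10)) (.bis 2 4
  2 1 363 (.bis 5 7 1 1 354 (.leaf 10) (.leaf 10)) (.bis 1 2 1 2 373 (.bis 2 7 4 1 119 (.leaf 10)
  (.bis 0 2 1 2 382 (.leaf 9) (.leaf 10))) (.bis 5 7 1 1 354 (.leaf 10) (.leaf 10))))) (.bis 1 3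
  1 2 375 (.bis 3 4 2 1 365 (.bis 2 4 2 1 363 (.bis 5 7 1 1 354 (.leaf 10) (.leaf 10)) (.bis 2 7
  4 1 119 (.leaf 10) (.bis 0 2 1 2 382 (.bis 2 6 4 1 355 (.leaf 9) (.leaf 9)) (.leaf 10)))) (.bis
  0 3 1 2 384 (.bis 2 7 4 1 119 (.bis 3 5 4 1 298 (.leaf 5) (.leaf 32)) (.bis 3 5 4 1 298 (.bis 2
  6 4 1 355 (.leaf 5) (.bis 2 4 4 1 376 (.leaf 5) (.leaf 9))) (.bis 2 3 1 1 120 (.leaf 9) (.bis 2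
  6 4 1 355 (.leaf 9) (.bis 2 4 4 1 376 (.leaf 9) (.leaf 9)))))) (.bis 2 7 4 1 119 (.leaf 10)
  (.bis 0 2 1 2 382 (.bis 2 6 4 1 355 (.leaf 9) (.bis 2 4 4 1 376 (.leaf 9) (.leaf 9))) (.leaf
  10))))) (.bis 2 4 2 1 363 (.bis 5 7 1 1 354 (.leaf 10) (.leaf 10)) (.bis 1 2 1 2 373 (.bis 2 7
  4 1 119 (.leaf 10) (.bis 0 2 1 2 382 (.leaf 9) (.leaf 10))) (.bis 5 7 1 1 354 (.leaf 10) (.leaf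
  10)))))))) (.bis 0 2 1 1 385 (.bis 5 7 1 1 286 (.bis 2 7 2 1 121 (.bis 0 7 1 1 386 (.bis 4 7 1
  1 359 (.bis 3 7 1 1 379 (.bis 1 7 1 1 371 (.bis 6 7 1 1 337 (.leaf 69) (.leaf 86)) (.bis 5 6 1
  2 387 (.bis 1 2 2 1 388 (.leaf 12) (.leaf 12)) (.bis 1 2 2 1 388 (.leaf 10) (.bis 1 5 2 1 389
  (.leaf 10) (.leaf 10))))) (.bis 2 3 1 2 390 (.leaf 12) (.leaf 12))) (.bis 2 4 1 2 362 (.leaf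
  12) (.leaf 12))) (.bis 0 5 2 1 391 (.bis 2 4 1 2 362 (.leaf 12) (.leaf 12)) (.bis 2 4 1 2 362
  (.bis 0 6 1 1 392 (.leaf 12) (.leaf 60)) (.bis 0 6 1 1 392 (.leaf 12) (.leaf 60))))) (.bis 2 5
  4 1 287 (.bis 0 5 2 1 391 (.bis 4 7 2 1 362 (.leaf 12) (.bis 4 6 1 1 393 (.leaf 12) (.leaf
  10))) (.bis 4 7 2 1 362 (.bis 0 6 1 1 392 (.leaf 12) (.leaf 40)) (.bis 0 6 1 1 392 (.leaf 12)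
  (.leaf 40)))) (.bis 2 6 2 1 343 (.leaf 60) (.bis 2 4 2 1 363 (.leaf 40) (.bis 1 2 1 2 373 (.bis
  2 3 2 1 382 (.leaf 40) (.bis 0 2 1 2 394 (.leaf 55) (.leaf 40))) (.leaf 40)))))) (.bis 2 5 2 1
  294 (.bis 5 6 1 1 351 (.bis 2 6 1 2 352 (.bis 0 7 2 1 391 (.leaf 12) (.bis 0 6 1 1 392 (.leaf
  12) (.leaf 37))) (.bis 0 7 2 1 391 (.leaf 10) (.leaf 40))) (.bis 0 5 1 1 395 (.bis 1 5 1 1 374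
  (.bis 3 5 1 1 383 (.leaf 44) (.leaf 10)) (.leaf 10)) (.bis 0 7 2 1 391 (.leaf 10) (.leaf 40))))
  (.bis 2 7 4 1 287 (.bis 5 6 1 2 352 (.bis 0 7 2 1 391 (.leaf 12) (.bis 0 6 1 1 392 (.leaf 12)
  (.leaf 40))) (.bis 0 7 2 1 391 (.leaf 10) (.leaf 40))) (.bis 2 6 2 1 343 (.bis 5 6 1 2 352
  (.leaf 60) (.leaf 40)) (.bis 2 4 2 1 363 (.leaf 40) (.bis 1 2 1 2 373 (.bis 2 3 2 1 382 (.leaf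
  40) (.leaf 103)) (.leaf 40))))))) (.bis 0 7 2 1 396 (.bis 5 7 1 1 286 (.bis 2 7 1 1 386 (.bis 4
  7 1 1 359 (.bis 3 7 1 1 379 (.bis 1 7 1 1 371 (.bis 6 7 1 1 337 (.leaf 69) (.bis 0 6 1 2 397
  (.leaf 86) (.leaf 69))) (.bis 0 6 1 2 397 (.bis 5 6 1 2 387 (.leaf 12) (.bis 1 5 2 1 389 (.leaf
  12) (.leaf 12))) (.bis 0 1 1 2 398 (.bis 1 5 2 1 389 (.leaf 12) (.leaf 12)) (.leaf 69)))) (.bis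
  0 6 1 2 397 (.bis 5 6 1 2 387 (.bis 3 6 1 1 399 (.leaf 12) (.leaf 12)) (.bis 3 5 2 1 400 (.bis
  1 5 2 1 389 (.leaf 12) (.leaf 12)) (.leaf 12))) (.bis 0 1 1 2 398 (.bis 3 5 2 1 400 (.leaf 12)
  (.leaf 12)) (.bis 0 5 1 1 401 (.bis 3 5 2 1 400 (.leaf 12) (.bis 0 3 1 4 402 (.leaf 12) (.leaf
  12))) (.bis 0 3 1 2 403 (.bis 3 5 4 1 402 (.leaf 29) (.leaf 29)) (.leaf 29)))))) (.bis 0 4 1 2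
  404 (.leaf 12) (.bis 0 6 1 2 397 (.leaf 12) (.bis 0 1 1 2 398 (.leaf 12) (.bis 0 5 1 1 401
  (.bis 3 5 2 1 400 (.leaf 12) (.leaf 12)) (.bis 0 3 1 2 403 (.bis 3 5 4 1 402 (.leaf 29) (.leaf
  29)) (.leaf 29))))))) (.bis 0 4 1 2 404 (.bis 2 5 2 1 391 (.bis 4 6 1 1 393 (.leaf 12) (.leaf
  10)) (.bis 2 6 1 1 392 (.leaf 12) (.leaf 60))) (.bis 2 5 2 1 391 (.bis 0 6 1 2 397 (.leaf 12)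
  (.bis 0 1 1 2 398 (.leaf 12) (.bis 0 5 1 1 401 (.bis 3 5 2 1 400 (.leaf 12) (.leaf 12)) (.bis 0
  3 1 2 403 (.leaf 29) (.leaf 29))))) (.bis 2 6 1 1 392 (.bis 0 6 1 2 397 (.leaf 12) (.bis 0 1 1
  2 398 (.leaf 12) (.leaf 29))) (.bis 0 1 1 2 398 (.leaf 60) (.bis 0 2 1 2 405 (.leaf 102) (.leaf
  29))))))) (.bis 0 5 1 2 406 (.bis 5 6 1 1 351 (.bis 2 7 2 1 391 (.bis 4 6 1 1 393 (.leaf 12)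
  (.leaf 10)) (.bis 2 6 1 1 392 (.leaf 12) (.leaf 37))) (.bis 2 5 1 1 395 (.bis 1 5 1 1 374 (.bis
  3 5 1 1 383 (.leaf 44) (.leaf 10)) (.leaf 10)) (.bis 2 7 2 1 391 (.leaf 10) (.leaf 37)))) (.bis
  0 4 1 2 404 (.bis 2 7 2 1 391 (.bis 4 6 1 1 393 (.leaf 12) (.leaf 10)) (.bis 2 6 1 1 392 (.leaf
  12) (.leaf 18))) (.bis 2 7 2 1 391 (.bis 0 6 1 2 397 (.leaf 12) (.bis 0 1 1 2 398 (.leaf 12)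
  (.bis 0 7 1 1 401 (.leaf 12) (.leaf 29)))) (.bis 2 6 1 1 392 (.bis 0 6 1 2 397 (.leaf 12) (.bis
  0 1 1 2 398 (.leaf 12) (.bis 0 3 1 2 403 (.leaf 29) (.leaf 29)))) (.bis 0 1 1 2 398 (.leaf 18)
  (.bis 0 2 1 2 405 (.leaf 18) (.bis 0 3 1 2 403 (.leaf 18) (.leaf 29))))))))) (.bis 0 5 2 1 407
  (.bis 5 7 2 1 406 (.bis 0 6 1 2 408 (.bis 4 7 2 1 404 (.bis 2 6 1 1 392 (.bis 6 7 2 1 397 (.bis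
  1 7 2 1 398 (.bis 3 7 2 1 403 (.leaf 29) (.leaf 29)) (.leaf 12)) (.leaf 12)) (.bis 1 7 2 1 398
  (.bis 2 7 2 1 405 (.bis 3 7 2 1 403 (.leaf 29) (.leaf 18)) (.leaf 18)) (.leaf 18))) (.bis 2 6 1
  1 392 (.leaf 12) (.leaf 18))) (.bis 4 7 2 1 404 (.bis 0 7 1 1 409 (.bis 1 7 2 1 398 (.bis 2 7 2
  1 405 (.bis 3 7 2 1 403 (.leaf 29) (.leaf 18)) (.leaf 18)) (.leaf 18)) (.bis 0 1 1 2 410 (.leaf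
  18) (.bis 2 5 4 1 411 (.leaf 37) (.leaf 37)))) (.bis 0 1 1 2 410 (.leaf 18) (.leaf 37)))) (.bis
  5 6 1 1 351 (.bis 0 6 1 2 408 (.bis 2 6 1 1 392 (.leaf 12) (.leaf 37)) (.bis 2 5 2 1 412 (.bis
  0 1 1 2 410 (.leaf 10) (.leaf 37)) (.bis 0 1 1 2 410 (.leaf 18) (.leaf 37)))) (.bis 2 5 1 1 395
  (.bis 1 5 1 1 374 (.bis 3 5 1 1 383 (.leaf 104) (.leaf 37)) (.leaf 37)) (.bis 2 6 2 1 412 (.bis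
  0 1 1 2 410 (.leaf 10) (.leaf 37)) (.bis 0 1 1 2 410 (.leaf 37) (.leaf 37)))))) (.bis 0 6 2 1
  413 (.bis 5 6 1 2 408 (.bis 4 7 2 1 404 (.bis 2 6 1 1 392 (.bis 6 7 2 1 397 (.bis 1 7 2 1 398
  (.bis 3 7 2 1 403 (.leaf 29) (.leaf 29)) (.leaf 29)) (.leaf 88)) (.bis 1 7 2 1 398 (.bis 2 7 2
  1 405 (.bis 3 7 2 1 403 (.leaf 29) (.leaf 18)) (.leaf 18)) (.leaf 18))) (.leaf 88)) (.bis 4 7 2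
  1 404 (.bis 5 7 1 1 409 (.bis 1 7 2 1 398 (.bis 2 7 2 1 405 (.leaf 29) (.leaf 18)) (.leaf 18))
  (.bis 1 5 2 1 410 (.bis 2 5 2 1 414 (.leaf 48) (.leaf 18)) (.leaf 18))) (.bis 1 5 2 1 410 (.bis
  0 4 1 2 415 (.bis 2 5 2 1 414 (.leaf 37) (.leaf 18)) (.bis 2 5 2 1 414 (.bis 0 5 1 1 416 (.leaf
  37) (.leaf 18)) (.leaf 18))) (.bis 0 4 1 2 415 (.leaf 18) (.leaf 18))))) (.bis 0 4 2 1 417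
  (.bis 4 7 2 1 404 (.bis 5 7 1 1 409 (.bis 1 7 2 1 398 (.bis 2 7 2 1 405 (.bis 3 7 2 1 403 (.bis
  0 7 1 1 418 (.leaf 29) (.bis 0 1 2 1 419 (.leaf 18) (.leaf 18))) (.bis 3 5 4 1 420 (.bis 0 1 2
  1 419 (.leaf 18) (.leaf 18)) (.bis 3 6 2 1 421 (.bis 0 1 2 1 419 (.leaf 18) (.leaf 18)) (.bis 0
  1 2 1 419 (.leaf 18) (.leaf 18))))) (.bis 2 5 4 1 422 (.bis 3 5 4 1 420 (.bis 0 1 2 1 419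
  (.leaf 18) (.leaf 18)) (.bis 3 6 2 1 421 (.bis 0 1 2 1 419 (.leaf 18) (.leaf 18)) (.bis 0 1 2 1
  419 (.leaf 18) (.leaf 18)))) (.bis 2 6 2 1 423 (.bis 3 6 2 1 421 (.bis 0 1 2 1 419 (.leaf 18)
  (.leaf 18)) (.bis 0 1 2 1 419 (.leaf 18) (.leaf 18))) (.bis 1 2 1 4 424 (.bis 2 4 4 1 425 (.bis
  0 3 1 2 426 (.leaf 18) (.leaf 18)) (.bis 0 3 1 2 426 (.leaf 18) (.leaf 18))) (.bis 0 1 2 1 419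
  (.leaf 18) (.leaf 18)))))) (.bis 0 1 1 2 427 (.leaf 18) (.leaf 18))) (.bis 1 5 2 1 410 (.bis 2
  5 2 1 414 (.bis 5 6 1 1 416 (.leaf 18) (.leaf 48)) (.leaf 18)) (.leaf 18))) (.bis 1 5 2 1 410
  (.bis 4 6 2 1 415 (.bis 2 5 2 1 414 (.bis 5 6 1 1 416 (.leaf 18) (.leaf 48)) (.leaf 18)) (.bis
  2 5 2 1 414 (.leaf 105) (.leaf 18))) (.bis 4 6 2 1 415 (.bis 0 1 1 2 427 (.leaf 18) (.leaf 18))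
  (.bis 0 1 1 2 427 (.leaf 18) (.leaf 18))))) (.bis 0 1 2 1 428 (.bis 5 7 1 1 409 (.bis 1 7 2 1
  398 (.bis 2 7 2 1 405 (.bis 3 7 2 1 403 (.bis 4 7 1 1 418 (.bis 0 7 1 1 429 (.leaf 29) (.leaf
  81)) (.bis 1 4 1 2 419 (.leaf 18) (.leaf 18))) (.bis 3 5 4 1 420 (.bis 1 4 1 2 419 (.leaf 18)
  (.leaf 18)) (.bis 3 6 2 1 421 (.bis 1 4 1 2 419 (.leaf 18) (.leaf 18)) (.bis 1 4 1 2 419 (.leaf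
  18) (.leaf 18))))) (.leaf 18)) (.bis 1 4 2 1 427 (.leaf 18) (.leaf 18))) (.bis 1 5 2 1 410
  (.bis 2 5 2 1 414 (.bis 5 6 1 1 416 (.leaf 18) (.leaf 48)) (.leaf 18)) (.leaf 18))) (.bis 0 3 2
  1 430 (.bis 5 7 1 1 409 (.bis 2 7 2 1 405 (.bis 3 7 2 1 403 (.bis 4 7 1 1 418 (.bis 0 7 1 1 431
  (.bis 1 7 1 1 429 (.leaf 29) (.leaf 21)) (.leaf 21)) (.leaf 21)) (.leaf 48)) (.leaf 61)) (.bis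
  2 5 2 1 414 (.leaf 48) (.leaf 61))) (.bis 0 2 2 1 432 (.bis 5 7 1 1 409 (.bis 2 7 2 1 405 (.bis
  0 7 1 1 433 (.bis 4 7 1 1 418 (.bis 3 7 1 1 431 (.leaf 81) (.leaf 21)) (.leaf 21)) (.leaf 21))
  (.leaf 61)) (.bis 2 5 2 1 414 (.bis 5 6 1 1 416 (.bis 2 6 1 2 434 (.bis 0 7 2 1 435 (.leaf 21)
  (.leaf 21)) (.bis 0 7 2 1 435 (.leaf 48) (.leaf 61))) (.bis 0 5 1 1 436 (.leaf 48) (.leaf 61)))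
  (.leaf 61))) (.bis 0 7 4 1 437 (.bis 5 7 1 1 409 (.bis 2 7 1 1 433 (.bis 4 7 1 1 418 (.bis 3 7
  1 1 431 (.bis 1 7 1 1 429 (.bis 6 7 1 1 438 (.bis 0 5 1 1 439 (.leaf 29) (.leaf 81)) (.bis 0 6
  1 2 440 (.leaf 21) (.leaf 21))) (.bis 0 6 1 2 440 (.leaf 21) (.leaf 21))) (.bis 0 6 1 2 440
  (.leaf 21) (.leaf 21))) (.bis 0 4 1 2 441 (.leaf 21) (.bis 0 6 1 2 440 (.leaf 21) (.leaf 21))))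
  (.bis 2 5 2 1 435 (.bis 0 4 1 2 441 (.leaf 21) (.bis 0 6 1 2 440 (.leaf 21) (.leaf 21))) (.bis
  0 4 1 2 441 (.leaf 21) (.bis 2 6 1 1 442 (.bis 0 6 1 2 440 (.leaf 21) (.leaf 21)) (.bis 0 1 1 2
  443 (.leaf 21) (.leaf 21)))))) (.bis 0 5 1 2 444 (.bis 5 6 1 1 416 (.bis 2 7 2 1 435 (.leaf 21)
  (.leaf 21)) (.bis 2 5 1 1 436 (.leaf 48) (.leaf 21))) (.bis 2 7 2 1 435 (.bis 0 4 1 2 441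
  (.leaf 21) (.bis 0 6 1 2 440 (.leaf 21) (.bis 0 7 1 1 439 (.leaf 21) (.leaf 21)))) (.bis 0 4 1
  2 441 (.leaf 21) (.bis 2 6 1 1 442 (.bis 0 6 1 2 440 (.leaf 21) (.bis 0 1 1 2 443 (.leaf 21)
  (.leaf 21))) (.bis 0 1 1 2 443 (.leaf 21) (.bis 0 2 1 2 445 (.leaf 21) (.leaf 21)))))))) (.bis
  0 5 4 1 446 (.bis 5 7 2 1 444 (.bis 0 6 1 2 447 (.bis 4 7 2 1 441 (.bis 2 6 1 1 442 (.bis 6 7 2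
  1 440 (.bis 1 7 2 1 443 (.leaf 21) (.leaf 21)) (.leaf 21)) (.bis 1 7 2 1 443 (.bis 2 7 2 1 445
  (.leaf 21) (.leaf 21)) (.leaf 21))) (.leaf 21)) (.bis 4 7 2 1 441 (.bis 0 7 1 1 448 (.bis 1 7 2
  1 443 (.leaf 21) (.leaf 21)) (.leaf 41)) (.leaf 41))) (.bis 5 6 1 1 416 (.bis 0 6 1 2 447
  (.leaf 21) (.leaf 41)) (.bis 2 5 1 1 436 (.leaf 106) (.leaf 41)))) (.bis 0 6 4 1 449 (.bis 5 6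
  1 2 447 (.bis 4 7 2 1 441 (.bis 2 6 1 1 442 (.bis 6 7 2 1 440 (.bis 1 7 2 1 443 (.leaf 21)
  (.leaf 21)) (.leaf 21)) (.bis 1 7 2 1 443 (.bis 2 7 2 1 445 (.leaf 21) (.leaf 21)) (.leaf 21)))
  (.leaf 21)) (.bis 4 7 2 1 441 (.bis 5 7 1 1 448 (.bis 1 7 2 1 443 (.leaf 21) (.leaf 21)) (.leaf
  41)) (.leaf 41))) (.bis 0 4 4 1 450 (.bis 4 7 2 1 441 (.bis 5 7 1 1 448 (.bis 1 7 2 1 443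
  (.leaf 70) (.leaf 41)) (.leaf 41)) (.leaf 41)) (.bis 0 1 4 1 451 (.bis 5 7 1 1 448 (.bis 1 7 2
  1 443 (.leaf 70) (.leaf 41)) (.leaf 41)) (.bis 0 3 4 1 452 (.bis 5 7 1 1 448 (.bis 2 7 2 1 445
  (.leaf 70) (.leaf 41)) (.leaf 41)) (.bis 0 2 4 1 453 (.bis 5 7 1 1 448 (.bis 2 7 2 1 445 (.leaf
  49) (.leaf 70)) (.leaf 89)) (.bis 0 5 8 1 454 (.bis 5 7 1 1 448 (.bis 0 7 1 2 455 (.leaf 49)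
  (.leaf 49)) (.leaf 89)) (.bis 0 7 8 1 456 (.bis 5 7 1 2 455 (.leaf 49) (.leaf 49)) (.bis 0 6 8
  1 457 (.leaf 49) (.bis 0 4 8 1 458 (.leaf 49) (.bis 0 1 8 1 459 (.leaf 49) (.bis 0 3 8 1 460
  (.leaf 49) (.leaf 107))))))))))))))))))))))))

def lc13 : List Vr := [⟨[73,0,0,0,0,0,0,0], 10658, 0⟩, ⟨[0,24,0,0,0,0,0,0], 10368, 0⟩, ⟨[0,0,28,0,
  0,0,0,0], 10976, 0⟩, ⟨[0,0,0,17,0,0,0,0], 10404, 0⟩, ⟨[73,0,0,0,28,0,0,0], 54338, 0⟩, ⟨[73,0,0,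
  0,0,73,0,0], 63948, 0⟩, ⟨[73,0,0,0,0,0,42,0], 58034, 0⟩, ⟨[73,0,0,0,0,0,0,79], 45260, 0⟩]

theorem lk13 : chkTr lowT (leafLow 3 lowB) lt13 lc13 = true := by decide +kernel

end Pool.Agent.Helper10.Fam.E6
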