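import Pool.Agent.Helper10.FamD.E6LowC0
import Pool.Agent.Helper10.FamD.E6LowC1
import Pool.Agent.Helper10.FamD.E6LowB

set_option autoImplicit false
set_option maxRecDepth 1000000

/-!
# Certificate data for `U ⊕ E6` (lower bound, certificate)
-/

namespace Pool.Agent.Helper10.Fam.E6

open Pool.Agent.Helper10.Fam

def lS : ℕ → Tr ℕ
  | 0 => lt0
  | 1 => lt1
  | 2 => lt2
  | 3 => lt3
  | 4 => lt4
  | 5 => lt5
  | 6 => lt6
  | 7 => lt7
  | 8 => lt8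
  | 9 => lt9
  | 10 => lt10
  | 11 => lt11
  | 12 => lt12
  | 13 => lt13
  | _ => .leaf 0

def lC : ℕ → List Vr
  | 0 => lc0
  | 1 => lc1
  | 2 => lc2
  | 3 => lc3
  | 4 => lc4
  | 5 => lc5
  | 6 => lc6
  | 7 => lc7
  | 8 => lc8
  | 9 => lc9
  | 10 => lc10
  | 11 => lc11
  | 12 => lc12
  | 13 => lc13
  | _ => []

def lowTT : TT := (.bis 0 7 1 79 9 (.bis 5 7 1 79 10 (.bis 2 7 1 47 11 (.ch 0) (.ch 1)) (.bis 0 5
  1 2 123 (.bis 5 6 1 1 124 (.ch 2) (.bis 2 5 1 1 165 (.ch 3) (.ch 4))) (.bis 0 4 1 2 60 (.ch 5)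
  (.ch 6)))) (.bis 0 5 1 1 269 (.bis 5 7 2 1 123 (.bis 0 6 1 2 270 (.ch 7) (.ch 8)) (.bis 5 6 1 1
  124 (.ch 9) (.ch 10))) (.bis 0 6 1 1 336 (.ch 11) (.bis 0 4 1 1 358 (.ch 12) (.ch 13)))))

/-- certificate -/
def low : LowCert := ⟨2140000, lowT, lowB, lowL, lowTT.plug lS⟩

theorem lk : ∀ k, k < 14 → chkTr lowT (leafLow 3 lowB) (lS k) (lC k) = true
  | 0, _ => lk0
  | 1, _ => lk1
  | 2, _ => lk2
  | 3, _ => lk3
  | 4, _ => lk4
  | 5, _ => lk5
  | 6, _ => lk6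
  | 7, _ => lk7
  | 8, _ => lk8
  | 9, _ => lk9
  | 10, _ => lk10
  | 11, _ => lk11
  | 12, _ => lk12
  | 13, _ => lk13
  | k + 14, h => absurd h (by omega)

theorem ltop : chkTT lowT 14 lC lowTT lowL = true := by decide +kernel

theorem low3_ok : lowTree dat low = true := plug_ok lk lowTT lowL ltop

theorem low2_ok : lowBalls dat low = true := balls_ok

theorem low1_ok : lowTab dat low = true := by decide +kernel

end Pool.Agent.Helper10.Fam.E6
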