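import Pool.Agent.Helper10.FamD.E7LowT

set_option autoImplicit false
set_option maxRecDepth 1000000

/-!
# Certificate data for `U ⊕ E7` (lower bound, subtrees)
-/

namespace Pool.Agent.Helper10.Fam.E7

open Pool.Agent.Helper10.Fam

def lt8 : Tr ℕ := (.bis 5 7 1 2 19 (.bis 2 7 1 1 130 (.bis 1 7 1 2 20 (.bis 4 7 1 4 215 (.bis 7 8
  2 1 21 (.bis 0 8 2 1 93 (.bis 2 8 1 1 136 (.bis 1 3 2 1 160 (.bis 3 7 1 2 163 (.bis 6 7 1 2 114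
  (.bis 4 8 1 4 216 (.bis 5 8 1 2 104 (.leaf 4) (.leaf 4)) (.leaf 2)) (.bis 6 8 1 4 117 (.bis 4 8
  1 4 216 (.leaf 4) (.leaf 2)) (.leaf 2))) (.bis 3 5 1 2 165 (.bis 6 8 1 4 117 (.bis 4 8 1 4 216
  (.leaf 4) (.leaf 2)) (.leaf 2)) (.bis 6 8 1 4 117 (.bis 3 8 1 4 169 (.bis 4 8 1 4 216 (.leaf 4)
  (.leaf 2)) (.leaf 2)) (.leaf 2)))) (.bis 1 6 2 1 111 (.bis 6 7 1 2 114 (.bis 4 8 1 4 216 (.bis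
  5 8 1 2 104 (.leaf 4) (.leaf 4)) (.leaf 2)) (.bis 6 8 1 4 117 (.bis 4 8 1 4 216 (.leaf 4)
  (.leaf 2)) (.leaf 2))) (.bis 1 8 1 2 96 (.bis 4 8 1 4 216 (.leaf 4) (.leaf 2)) (.leaf 2))))
  (.bis 1 3 2 1 160 (.leaf 2) (.bis 1 6 2 1 111 (.leaf 2) (.leaf 2)))) (.bis 0 5 4 1 85 (.bis 1 3
  2 1 160 (.leaf 2) (.bis 1 6 2 1 111 (.leaf 2) (.leaf 2))) (.bis 0 1 4 1 86 (.bis 1 3 2 1 160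
  (.leaf 2) (.bis 1 6 2 1 111 (.leaf 2) (.leaf 2))) (.bis 0 7 4 1 87 (.bis 2 3 4 1 178 (.leaf 2)
  (.leaf 2)) (.bis 0 3 8 1 173 (.leaf 2) (.bis 0 4 8 1 222 (.leaf 2) (.bis 0 6 8 1 125 (.leaf 2)
  (.leaf 11)))))))) (.bis 3 7 1 8 167 (.bis 6 7 1 8 116 (.bis 0 7 1 1 68 (.bis 4 7 1 8 217 (.bis
  5 7 1 4 26 (.bis 2 7 1 2 134 (.leaf 32) (.leaf 14)) (.leaf 14)) (.leaf 14)) (.bis 0 5 4 1 85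
  (.leaf 14) (.bis 0 1 4 1 86 (.leaf 14) (.bis 0 8 4 1 87 (.leaf 14) (.bis 0 4 8 1 222 (.leaf 14)
  (.bis 0 3 16 1 174 (.leaf 14) (.leaf 21))))))) (.bis 0 5 4 1 85 (.bis 1 6 2 1 111 (.bis 6 8 1 2
  114 (.leaf 2) (.leaf 2)) (.leaf 2)) (.bis 0 1 4 1 86 (.bis 1 6 2 1 111 (.bis 6 8 1 2 114 (.leaf
  2) (.leaf 2)) (.leaf 2)) (.bis 0 8 4 1 87 (.bis 6 8 1 2 114 (.leaf 2) (.bis 2 6 4 1 133 (.leaf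
  2) (.leaf 2))) (.bis 0 4 8 1 222 (.bis 2 6 4 1 133 (.bis 1 6 1 1 224 (.leaf 2) (.leaf 2))
  (.leaf 2)) (.bis 0 6 8 1 125 (.bis 2 6 4 1 133 (.leaf 2) (.leaf 2)) (.bis 0 3 16 1 174 (.leaf
  2) (.leaf 21)))))))) (.bis 0 5 4 1 85 (.bis 1 3 2 1 160 (.bis 2 3 4 1 178 (.leaf 2) (.bis 6 8 1
  2 114 (.leaf 2) (.leaf 2))) (.bis 1 6 2 1 111 (.bis 6 8 1 2 114 (.leaf 2) (.leaf 2)) (.leaf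
  2))) (.bis 0 1 4 1 86 (.bis 1 3 2 1 160 (.bis 2 3 4 1 178 (.leaf 2) (.leaf 2)) (.bis 1 6 2 1
  111 (.leaf 2) (.leaf 2))) (.bis 0 8 4 1 87 (.bis 2 3 4 1 178 (.bis 3 8 1 2 163 (.leaf 2) (.leaf
  2)) (.bis 6 8 1 2 114 (.leaf 2) (.leaf 2))) (.bis 0 3 8 1 173 (.bis 2 3 4 1 178 (.leaf 2)
  (.leaf 2)) (.bis 0 4 8 1 222 (.bis 2 6 4 1 133 (.leaf 2) (.leaf 2)) (.bis 0 6 8 1 125 (.bis 2 6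
  4 1 133 (.leaf 2) (.leaf 2)) (.leaf 21))))))))) (.bis 0 8 2 1 93 (.bis 2 8 1 1 136 (.bis 1 4 1
  1 218 (.bis 3 5 1 2 165 (.bis 4 5 1 1 219 (.bis 6 8 1 4 117 (.bis 7 8 1 4 216 (.leaf 4) (.leaf
  2)) (.leaf 2)) (.bis 6 8 1 4 117 (.bis 7 8 1 4 216 (.leaf 4) (.leaf 4)) (.leaf 4))) (.bis 6 8 1
  4 117 (.bis 3 8 1 4 169 (.leaf 4) (.leaf 4)) (.leaf 4))) (.bis 1 3 2 1 160 (.bis 3 5 1 2 165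
  (.bis 6 8 1 4 117 (.bis 7 8 1 4 216 (.leaf 4) (.leaf 2)) (.leaf 2)) (.bis 6 8 1 4 117 (.bis 3 8
  1 4 169 (.leaf 4) (.leaf 2)) (.leaf 2))) (.bis 1 6 2 1 111 (.bis 6 8 1 4 117 (.bis 7 8 1 4 216
  (.leaf 4) (.leaf 2)) (.leaf 2)) (.bis 1 8 1 2 96 (.bis 7 8 1 4 216 (.leaf 4) (.leaf 2)) (.leaf
  2))))) (.bis 2 4 2 1 225 (.bis 1 4 1 1 218 (.bis 3 5 1 2 165 (.leaf 4) (.leaf 4)) (.leaf 2))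
  (.leaf 2))) (.bis 0 4 4 1 223 (.bis 2 4 2 1 225 (.bis 1 4 1 1 218 (.bis 3 5 1 2 165 (.bis 4 5 1
  1 219 (.leaf 2) (.leaf 4)) (.leaf 4)) (.bis 1 3 2 1 160 (.bis 3 5 1 2 165 (.leaf 2) (.leaf 2))
  (.leaf 2))) (.bis 1 3 2 1 160 (.bis 2 3 4 1 178 (.bis 3 5 1 2 165 (.leaf 2) (.leaf 2)) (.bis 5
  6 2 1 115 (.leaf 2) (.leaf 2))) (.leaf 2))) (.bis 0 5 4 1 85 (.bis 1 3 2 1 160 (.bis 2 3 4 1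
  178 (.bis 3 5 1 2 165 (.leaf 2) (.leaf 2)) (.leaf 2)) (.leaf 2)) (.bis 0 1 4 1 86 (.bis 1 3 2 1
  160 (.leaf 2) (.leaf 2)) (.bis 0 3 8 1 173 (.leaf 2) (.bis 0 7 8 1 222 (.leaf 2) (.leaf
  11)))))))) (.bis 0 1 2 1 95 (.bis 1 2 1 1 137 (.bis 2 8 1 1 136 (.bis 4 7 1 1 218 (.bis 3 7 1 2
  160 (.bis 6 7 1 2 111 (.bis 7 8 1 2 96 (.bis 0 8 1 2 97 (.leaf 4) (.leaf 2)) (.leaf 2)) (.bis 6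
  8 1 4 117 (.bis 0 8 1 2 97 (.leaf 4) (.leaf 2)) (.leaf 2))) (.bis 3 5 1 2 165 (.bis 6 8 1 4 117
  (.bis 0 8 1 2 97 (.leaf 4) (.leaf 2)) (.leaf 2)) (.bis 6 8 1 4 117 (.bis 3 8 1 4 169 (.leaf 4)
  (.leaf 2)) (.leaf 2)))) (.bis 3 5 1 2 165 (.bis 4 5 1 1 219 (.bis 6 8 1 4 117 (.leaf 4) (.leaf
  2)) (.bis 6 8 1 4 117 (.leaf 4) (.leaf 4))) (.bis 6 8 1 4 117 (.bis 3 8 1 4 169 (.leaf 4)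
  (.leaf 4)) (.leaf 4)))) (.bis 2 4 2 1 225 (.bis 4 7 1 1 218 (.leaf 2) (.bis 3 5 1 2 165 (.leaf
  4) (.leaf 4))) (.leaf 2))) (.bis 4 7 1 1 218 (.bis 3 7 1 2 160 (.bis 1 6 4 1 119 (.bis 6 7 1 2
  111 (.bis 7 8 1 2 96 (.leaf 4) (.leaf 2)) (.bis 6 8 1 4 117 (.leaf 4) (.leaf 2))) (.leaf 4))
  (.bis 1 6 4 1 119 (.bis 3 5 1 2 165 (.bis 6 8 1 4 117 (.leaf 4) (.leaf 2)) (.bis 6 8 1 4 117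
  (.bis 3 8 1 4 169 (.leaf 4) (.leaf 2)) (.leaf 2))) (.leaf 4))) (.bis 1 6 4 1 119 (.bis 3 5 1 2
  165 (.bis 4 5 1 1 219 (.bis 6 8 1 4 117 (.leaf 4) (.leaf 2)) (.bis 6 8 1 4 117 (.leaf 4) (.leaf
  4))) (.bis 6 8 1 4 117 (.bis 3 8 1 4 169 (.leaf 4) (.leaf 4)) (.leaf 4))) (.bis 1 3 4 1 170
  (.bis 3 5 1 2 165 (.leaf 4) (.bis 3 8 1 4 169 (.leaf 4) (.leaf 4))) (.bis 1 4 2 1 220 (.leaf 4)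
  (.leaf 4)))))) (.bis 0 8 2 1 93 (.bis 2 8 1 1 136 (.bis 4 7 1 1 218 (.bis 3 7 1 2 160 (.bis 6 7
  1 2 111 (.bis 7 8 1 2 96 (.bis 1 8 1 2 97 (.leaf 4) (.leaf 2)) (.leaf 2)) (.bis 6 8 1 4 117
  (.bis 1 8 1 2 97 (.leaf 4) (.leaf 2)) (.leaf 2))) (.bis 3 5 1 2 165 (.bis 6 8 1 4 117 (.bis 1 8
  1 2 97 (.leaf 4) (.leaf 2)) (.leaf 2)) (.bis 6 8 1 4 117 (.bis 3 8 1 4 169 (.leaf 4) (.leaf 2))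
  (.leaf 2)))) (.bis 3 5 1 2 165 (.bis 4 5 1 1 219 (.bis 6 8 1 4 117 (.leaf 4) (.leaf 2)) (.bis 6
  8 1 4 117 (.leaf 4) (.leaf 4))) (.bis 6 8 1 4 117 (.bis 3 8 1 4 169 (.leaf 4) (.leaf 4)) (.leaf
  4)))) (.bis 2 4 2 1 225 (.bis 4 7 1 1 218 (.leaf 2) (.bis 3 5 1 2 165 (.leaf 4) (.leaf 4)))
  (.leaf 2))) (.bis 0 4 4 1 223 (.bis 2 4 2 1 225 (.bis 4 7 1 1 218 (.bis 3 7 1 2 160 (.leaf 2)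
  (.bis 3 5 1 2 165 (.leaf 2) (.leaf 2))) (.bis 3 5 1 2 165 (.bis 4 5 1 1 219 (.leaf 2) (.leaf
  4)) (.leaf 4))) (.bis 3 7 1 2 160 (.leaf 2) (.bis 2 3 4 1 178 (.bis 3 5 1 2 165 (.bis 5 6 2 1
  115 (.leaf 2) (.leaf 2)) (.leaf 2)) (.bis 5 6 2 1 115 (.leaf 2) (.leaf 2))))) (.bis 0 5 4 1 85
  (.bis 3 7 1 2 160 (.leaf 2) (.bis 2 3 4 1 178 (.bis 3 5 1 2 165 (.bis 5 6 2 1 115 (.leaf 2)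
  (.leaf 2)) (.leaf 2)) (.bis 5 6 2 1 115 (.leaf 2) (.leaf 2)))) (.bis 0 7 4 1 86 (.bis 3 7 1 2
  160 (.bis 6 7 1 2 111 (.leaf 2) (.leaf 2)) (.leaf 2)) (.bis 0 3 8 1 173 (.leaf 2) (.leaf
  11)))))))) (.bis 1 2 1 2 138 (.bis 2 8 2 1 139 (.bis 0 8 2 1 93 (.bis 7 8 1 1 136 (.bis 3 5 1 2
  165 (.bis 4 5 1 1 219 (.bis 6 8 1 4 117 (.bis 1 5 1 1 140 (.bis 2 5 1 1 141 (.bis 5 8 1 2 104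
  (.leaf 4) (.leaf 4)) (.bis 2 8 1 2 226 (.leaf 4) (.leaf 2))) (.bis 1 8 1 2 194 (.leaf 4) (.leaf
  2))) (.bis 1 5 1 1 140 (.leaf 2) (.leaf 2))) (.bis 6 8 1 4 117 (.bis 1 8 1 2 194 (.leaf 4)
  (.leaf 4)) (.leaf 4))) (.bis 6 8 1 4 117 (.bis 3 8 1 4 169 (.bis 1 8 1 2 194 (.leaf 4) (.leaf
  4)) (.leaf 4)) (.leaf 4))) (.bis 4 7 1 2 225 (.bis 3 7 1 4 178 (.bis 1 5 1 1 140 (.bis 5 6 2 1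
  115 (.leaf 2) (.leaf 2)) (.leaf 2)) (.bis 3 5 1 2 165 (.bis 1 5 1 1 140 (.leaf 2) (.leaf 2))
  (.leaf 2))) (.bis 3 5 1 2 165 (.bis 4 5 1 1 219 (.bis 1 5 1 1 140 (.leaf 2) (.leaf 2)) (.leaf
  4)) (.leaf 4)))) (.bis 0 4 4 1 223 (.bis 4 7 1 2 225 (.bis 3 7 1 4 178 (.bis 1 5 1 1 140 (.bis
  5 6 2 1 115 (.leaf 2) (.bis 2 5 1 1 141 (.leaf 2) (.leaf 2))) (.leaf 2)) (.bis 3 5 1 2 165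
  (.bis 1 5 1 1 140 (.bis 5 6 2 1 115 (.leaf 2) (.leaf 2)) (.leaf 2)) (.leaf 2))) (.bis 3 5 1 2
  165 (.bis 4 5 1 1 219 (.bis 1 5 1 1 140 (.bis 5 6 2 1 115 (.leaf 2) (.leaf 2)) (.leaf 2))
  (.leaf 4)) (.leaf 4))) (.bis 0 5 4 1 85 (.bis 3 7 1 4 178 (.bis 1 5 1 1 140 (.bis 5 6 2 1 115
  (.leaf 2) (.leaf 2)) (.leaf 2)) (.bis 3 5 1 2 165 (.bis 1 5 1 1 140 (.bis 5 6 2 1 115 (.leaf 2)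
  (.leaf 2)) (.leaf 2)) (.leaf 2))) (.bis 0 3 8 1 173 (.bis 3 7 1 4 178 (.leaf 2) (.leaf 2))
  (.bis 0 6 8 1 125 (.leaf 2) (.bis 0 1 4 1 144 (.leaf 2) (.leaf 11))))))) (.bis 2 5 4 1 151
  (.bis 0 4 4 1 223 (.bis 4 7 1 2 225 (.bis 3 7 1 4 178 (.bis 1 5 1 1 140 (.bis 5 6 2 1 115
  (.leaf 2) (.bis 5 8 1 1 141 (.leaf 2) (.leaf 2))) (.leaf 2)) (.bis 3 5 1 2 165 (.bis 1 5 1 1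
  140 (.bis 5 6 2 1 115 (.leaf 2) (.leaf 2)) (.leaf 2)) (.leaf 2))) (.bis 3 5 1 2 165 (.bis 4 5 1
  1 219 (.bis 1 5 1 1 140 (.bis 5 6 2 1 115 (.leaf 2) (.leaf 2)) (.leaf 2)) (.leaf 10)) (.leaf
  10))) (.bis 0 5 4 1 85 (.bis 3 7 1 4 178 (.bis 1 5 1 1 140 (.bis 5 6 2 1 115 (.leaf 2) (.bis 5
  8 1 1 141 (.leaf 2) (.leaf 2))) (.leaf 2)) (.bis 3 5 1 2 165 (.bis 1 5 1 1 140 (.bis 5 6 2 1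
  115 (.leaf 2) (.leaf 2)) (.leaf 2)) (.leaf 2))) (.bis 0 3 8 1 173 (.leaf 2) (.bis 0 6 8 1 125
  (.leaf 2) (.bis 0 1 4 1 144 (.leaf 2) (.leaf 11)))))) (.bis 0 4 4 1 223 (.bis 2 4 4 1 227 (.bis
  4 7 1 2 225 (.bis 3 7 1 4 178 (.leaf 2) (.leaf 2)) (.leaf 10)) (.bis 2 3 8 1 186 (.bis 3 7 1 4
  178 (.leaf 2) (.leaf 2)) (.leaf 11))) (.bis 0 3 8 1 173 (.bis 2 3 8 1 186 (.bis 3 7 1 4 178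
  (.leaf 2) (.leaf 2)) (.leaf 11)) (.bis 0 6 8 1 125 (.leaf 11) (.bis 0 1 4 1 144 (.leaf 11)
  (.leaf 11))))))) (.bis 0 1 2 1 95 (.bis 1 7 1 1 137 (.bis 7 8 1 1 136 (.bis 3 5 1 2 165 (.bis 4
  5 1 1 219 (.bis 6 8 1 4 117 (.bis 2 5 1 1 140 (.bis 0 8 1 2 97 (.leaf 4) (.leaf 2)) (.bis 2 8 1
  2 194 (.leaf 4) (.leaf 2))) (.leaf 2)) (.bis 6 8 1 4 117 (.bis 0 4 1 1 228 (.bis 2 8 1 2 194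
  (.leaf 4) (.leaf 4)) (.bis 2 8 1 2 194 (.leaf 4) (.leaf 2))) (.leaf 4))) (.bis 6 8 1 4 117
  (.bis 3 8 1 4 169 (.bis 0 4 1 1 228 (.leaf 4) (.bis 2 8 1 2 194 (.leaf 4) (.leaf 2))) (.leaf
  4)) (.leaf 4))) (.bis 4 7 1 2 225 (.bis 3 7 1 4 178 (.bis 2 5 1 1 140 (.leaf 2) (.leaf 2))
  (.bis 3 5 1 2 165 (.bis 2 5 1 1 140 (.leaf 2) (.leaf 2)) (.leaf 2))) (.bis 3 5 1 2 165 (.bis 4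
  5 1 1 219 (.leaf 2) (.leaf 4)) (.leaf 4)))) (.bis 1 6 4 1 119 (.bis 3 5 1 2 165 (.bis 4 5 1 1
  219 (.bis 6 8 1 4 117 (.leaf 4) (.leaf 2)) (.bis 6 8 1 4 117 (.bis 0 4 1 1 228 (.leaf 4) (.bis
  2 8 1 2 194 (.leaf 4) (.leaf 2))) (.leaf 4))) (.bis 6 8 1 4 117 (.bis 3 8 1 4 169 (.leaf 4)
  (.leaf 4)) (.leaf 4))) (.bis 1 3 4 1 170 (.bis 3 5 1 2 165 (.bis 4 5 1 1 219 (.bis 2 5 1 1 140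
  (.leaf 4) (.bis 2 8 1 2 194 (.leaf 4) (.leaf 2))) (.bis 0 4 1 1 228 (.bis 2 8 1 2 194 (.leaf 4)
  (.leaf 4)) (.bis 2 8 1 2 194 (.leaf 4) (.leaf 2)))) (.bis 3 8 1 4 169 (.leaf 4) (.leaf 4)))
  (.bis 1 4 2 1 220 (.bis 4 5 1 1 219 (.leaf 4) (.leaf 4)) (.bis 1 5 2 1 39 (.leaf 4) (.leaf
  4)))))) (.bis 0 8 2 1 93 (.bis 7 8 1 1 136 (.bis 3 5 1 2 165 (.bis 4 5 1 1 219 (.bis 6 8 1 4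
  117 (.bis 2 5 1 1 140 (.bis 1 8 1 2 97 (.leaf 4) (.leaf 2)) (.bis 2 8 1 2 194 (.leaf 4) (.leaf
  2))) (.leaf 2)) (.bis 6 8 1 4 117 (.bis 1 4 1 1 228 (.bis 2 8 1 2 194 (.leaf 4) (.leaf 4))
  (.bis 2 8 1 2 194 (.leaf 4) (.leaf 2))) (.leaf 4))) (.bis 6 8 1 4 117 (.bis 3 8 1 4 169 (.bis 1
  4 1 1 228 (.leaf 4) (.bis 2 8 1 2 194 (.leaf 4) (.leaf 2))) (.leaf 4)) (.leaf 4))) (.bis 4 7 1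
  2 225 (.bis 3 7 1 4 178 (.bis 2 5 1 1 140 (.leaf 2) (.leaf 2)) (.bis 3 5 1 2 165 (.bis 2 5 1 1
  140 (.leaf 2) (.leaf 2)) (.leaf 2))) (.bis 3 5 1 2 165 (.bis 4 5 1 1 219 (.leaf 2) (.leaf 4))
  (.leaf 4)))) (.bis 0 4 4 1 223 (.bis 4 7 1 2 225 (.bis 3 7 1 4 178 (.bis 2 5 1 1 140 (.bis 5 6
  2 1 115 (.leaf 2) (.leaf 2)) (.leaf 2)) (.bis 3 5 1 2 165 (.bis 2 5 1 1 140 (.bis 5 6 2 1 115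
  (.leaf 2) (.leaf 2)) (.leaf 2)) (.leaf 2))) (.bis 3 5 1 2 165 (.bis 4 5 1 1 219 (.bis 2 5 1 1
  140 (.leaf 2) (.leaf 2)) (.leaf 4)) (.leaf 4))) (.bis 0 5 4 1 85 (.bis 3 7 1 4 178 (.bis 2 5 1
  1 140 (.bis 5 6 2 1 115 (.leaf 2) (.leaf 2)) (.leaf 2)) (.bis 3 5 1 2 165 (.bis 2 5 1 1 140
  (.bis 5 6 2 1 115 (.leaf 2) (.leaf 2)) (.leaf 2)) (.leaf 2))) (.bis 0 3 8 1 173 (.bis 3 7 1 4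
  178 (.leaf 2) (.leaf 2)) (.bis 0 6 8 1 125 (.leaf 2) (.leaf 11))))))))) (.bis 2 5 2 1 154 (.bis
  0 5 2 1 102 (.bis 1 6 4 1 119 (.bis 5 6 4 1 121 (.bis 3 7 1 2 165 (.bis 4 7 1 1 219 (.bis 6 8 1
  4 117 (.leaf 4) (.bis 6 7 1 2 115 (.leaf 4) (.leaf 4))) (.bis 6 8 1 4 117 (.leaf 4) (.leaf 4)))
  (.bis 6 8 1 4 117 (.bis 3 8 1 4 169 (.leaf 4) (.leaf 4)) (.leaf 4))) (.bis 3 5 1 4 168 (.bis 4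
  7 1 1 219 (.leaf 16) (.leaf 16)) (.bis 3 7 1 2 165 (.bis 4 7 1 1 219 (.leaf 4) (.leaf 4)) (.bis
  3 8 1 4 169 (.leaf 4) (.leaf 4))))) (.bis 1 3 4 1 170 (.bis 3 5 1 4 168 (.bis 4 7 1 1 219
  (.leaf 16) (.leaf 16)) (.bis 3 7 1 2 165 (.bis 4 7 1 1 219 (.leaf 4) (.leaf 4)) (.bis 3 8 1 4
  169 (.leaf 4) (.leaf 4)))) (.bis 1 4 2 1 220 (.bis 4 7 1 1 219 (.leaf 16) (.leaf 16)) (.bis 1 7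
  2 1 39 (.leaf 16) (.leaf 16))))) (.bis 0 1 2 1 95 (.bis 1 6 4 1 119 (.bis 3 7 1 2 165 (.bis 4 7
  1 1 219 (.bis 6 8 1 4 117 (.leaf 4) (.leaf 2)) (.bis 6 8 1 4 117 (.leaf 4) (.leaf 4))) (.bis 6
  8 1 4 117 (.bis 3 8 1 4 169 (.leaf 4) (.leaf 4)) (.leaf 4))) (.bis 1 3 4 1 170 (.bis 3 7 1 2
  165 (.bis 4 7 1 1 219 (.leaf 4) (.bis 0 4 1 1 228 (.leaf 4) (.bis 0 8 1 2 97 (.leaf 4) (.leaf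
  2)))) (.bis 3 8 1 4 169 (.leaf 4) (.leaf 4))) (.bis 1 4 2 1 220 (.bis 4 7 1 1 219 (.leaf 4)
  (.leaf 4)) (.bis 1 7 2 1 39 (.leaf 4) (.leaf 4))))) (.bis 0 8 2 1 93 (.bis 3 7 1 2 165 (.bis 4
  7 1 1 219 (.bis 6 8 1 4 117 (.bis 1 8 1 2 97 (.leaf 4) (.leaf 2)) (.leaf 2)) (.bis 6 8 1 4 117
  (.bis 1 4 1 1 228 (.bis 0 8 1 2 229 (.leaf 4) (.leaf 4)) (.bis 1 8 1 2 97 (.leaf 4) (.leaf 2)))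
  (.leaf 4))) (.bis 6 8 1 4 117 (.bis 3 8 1 4 169 (.bis 1 4 1 1 228 (.bis 0 8 1 2 229 (.leaf 4)
  (.leaf 4)) (.bis 1 8 1 2 97 (.leaf 4) (.leaf 2))) (.leaf 4)) (.leaf 4))) (.bis 0 4 4 1 223
  (.bis 3 7 1 2 165 (.bis 4 7 1 1 219 (.bis 6 7 1 2 115 (.leaf 2) (.leaf 2)) (.leaf 4)) (.leaf
  4)) (.bis 0 7 4 1 85 (.bis 3 7 1 2 165 (.bis 6 7 1 2 115 (.leaf 2) (.leaf 2)) (.leaf 2)) (.bis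
  0 3 8 1 173 (.leaf 2) (.bis 0 6 8 1 125 (.leaf 2) (.bis 0 2 4 1 157 (.leaf 2) (.leaf
  11))))))))) (.bis 1 2 1 2 138 (.bis 2 8 2 1 139 (.bis 0 8 2 1 93 (.bis 3 7 1 2 165 (.bis 4 7 1
  1 219 (.bis 6 8 1 4 117 (.bis 1 7 1 1 140 (.bis 2 7 1 1 141 (.bis 7 8 1 2 104 (.leaf 4) (.leaf
  4)) (.bis 2 8 1 2 226 (.leaf 4) (.leaf 2))) (.bis 1 8 1 2 194 (.leaf 4) (.leaf 2))) (.bis 1 7 1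
  1 140 (.leaf 2) (.leaf 2))) (.bis 6 8 1 4 117 (.bis 1 8 1 2 194 (.leaf 4) (.leaf 4)) (.leaf
  4))) (.bis 6 8 1 4 117 (.bis 3 8 1 4 169 (.bis 1 8 1 2 194 (.leaf 4) (.leaf 4)) (.leaf 4))
  (.leaf 4))) (.bis 0 4 4 1 223 (.bis 3 7 1 2 165 (.bis 4 7 1 1 219 (.bis 1 7 1 1 140 (.bis 6 7 1
  2 115 (.leaf 2) (.leaf 2)) (.leaf 2)) (.leaf 4)) (.leaf 4)) (.bis 0 7 4 1 85 (.bis 3 7 1 2 165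
  (.bis 1 7 1 1 140 (.bis 6 7 1 2 115 (.leaf 2) (.leaf 2)) (.leaf 2)) (.leaf 2)) (.bis 0 3 8 1
  173 (.leaf 2) (.bis 0 6 8 1 125 (.leaf 2) (.bis 0 5 4 1 157 (.leaf 2) (.bis 0 1 4 1 144 (.leaf
  2) (.leaf 11)))))))) (.bis 2 7 4 1 151 (.bis 0 4 4 1 223 (.bis 3 7 1 2 165 (.bis 4 7 1 1 219
  (.bis 1 7 1 1 140 (.bis 6 7 1 2 115 (.leaf 2) (.leaf 2)) (.leaf 2)) (.leaf 10)) (.leaf 10))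
  (.bis 0 7 4 1 85 (.bis 3 7 1 2 165 (.bis 1 7 1 1 140 (.bis 6 7 1 2 115 (.leaf 2) (.leaf 2))
  (.leaf 2)) (.leaf 2)) (.bis 0 3 8 1 173 (.leaf 2) (.bis 0 6 8 1 125 (.leaf 2) (.bis 0 5 4 1 157
  (.leaf 2) (.bis 0 1 4 1 144 (.leaf 2) (.leaf 11))))))) (.bis 0 4 4 1 223 (.bis 2 4 4 1 227
  (.leaf 10) (.bis 2 3 8 1 186 (.leaf 2) (.leaf 6))) (.bis 0 3 8 1 173 (.bis 2 3 8 1 186 (.leaf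
  2) (.leaf 6)) (.bis 0 6 8 1 125 (.bis 2 4 8 1 230 (.leaf 2) (.leaf 6)) (.bis 0 5 4 1 157 (.leaf
  6) (.bis 0 1 4 1 144 (.leaf 6) (.leaf 11)))))))) (.bis 0 1 2 1 95 (.bis 1 6 4 1 119 (.bis 3 7 1
  2 165 (.bis 4 7 1 1 219 (.bis 6 8 1 4 117 (.bis 2 7 1 1 140 (.leaf 4) (.bis 2 8 1 2 194 (.leaf
  4) (.leaf 2))) (.bis 2 7 1 1 140 (.leaf 2) (.leaf 2))) (.bis 6 8 1 4 117 (.bis 0 4 1 1 228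
  (.bis 2 8 1 2 194 (.leaf 4) (.leaf 4)) (.bis 2 8 1 2 194 (.leaf 4) (.leaf 2))) (.leaf 4)))
  (.bis 6 8 1 4 117 (.bis 3 8 1 4 169 (.leaf 4) (.leaf 4)) (.leaf 4))) (.bis 1 3 4 1 170 (.bis 3
  7 1 2 165 (.bis 4 7 1 1 219 (.bis 2 7 1 1 140 (.leaf 4) (.bis 2 8 1 2 194 (.leaf 4) (.leaf 2)))
  (.bis 0 4 1 1 228 (.bis 2 8 1 2 194 (.leaf 4) (.leaf 4)) (.bis 2 8 1 2 194 (.leaf 4) (.leaf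
  2)))) (.bis 3 8 1 4 169 (.bis 0 4 1 1 228 (.leaf 4) (.bis 2 8 1 2 194 (.leaf 4) (.leaf 2)))
  (.leaf 4))) (.bis 1 4 2 1 220 (.bis 4 7 1 1 219 (.bis 2 7 1 1 140 (.leaf 4) (.leaf 4)) (.leaf
  4)) (.bis 1 7 2 1 39 (.bis 2 7 1 1 140 (.leaf 4) (.leaf 4)) (.leaf 4))))) (.bis 0 8 2 1 93
  (.bis 3 7 1 2 165 (.bis 4 7 1 1 219 (.bis 6 8 1 4 117 (.bis 2 7 1 1 140 (.bis 1 8 1 2 97 (.leaf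
  4) (.leaf 2)) (.bis 2 8 1 2 194 (.leaf 4) (.leaf 2))) (.bis 2 7 1 1 140 (.leaf 2) (.leaf 2)))
  (.bis 6 8 1 4 117 (.bis 1 4 1 1 228 (.bis 2 8 1 2 194 (.leaf 4) (.leaf 4)) (.bis 2 8 1 2 194
  (.leaf 4) (.leaf 2))) (.leaf 4))) (.bis 6 8 1 4 117 (.bis 3 8 1 4 169 (.bis 1 4 1 1 228 (.bis 2
  8 1 2 194 (.leaf 4) (.leaf 4)) (.bis 2 8 1 2 194 (.leaf 4) (.leaf 2))) (.leaf 4)) (.leaf 4)))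
  (.bis 0 4 4 1 223 (.bis 3 7 1 2 165 (.bis 4 7 1 1 219 (.bis 2 7 1 1 140 (.bis 6 7 1 2 115
  (.leaf 2) (.leaf 2)) (.leaf 2)) (.leaf 4)) (.leaf 4)) (.bis 0 7 4 1 85 (.bis 3 7 1 2 165 (.bis
  2 7 1 1 140 (.bis 6 7 1 2 115 (.leaf 2) (.leaf 2)) (.leaf 2)) (.leaf 2)) (.bis 0 3 8 1 173
  (.leaf 2) (.bis 0 6 8 1 125 (.leaf 2) (.bis 0 5 4 1 157 (.leaf 2) (.leaf 11)))))))))))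

def lc8 : List Vr := [⟨[24,0,0,0,0,0,0,0,0], 6912, 0⟩, ⟨[0,28,0,0,0,0,0,0,84], 25872, 0⟩, ⟨[0,0,
  17,0,0,0,0,0,0], 6936, 0⟩, ⟨[0,0,0,52,0,0,85,0,155], 385445, 0⟩, ⟨[0,0,0,0,38,0,85,0,155],
  206149, 0⟩, ⟨[0,0,0,0,0,30,0,0,94], 29760, 0⟩, ⟨[0,0,68,0,0,0,85,0,155], 389861, 0⟩, ⟨[0,0,0,0,
  0,0,0,42,0], 7056, 0⟩, ⟨[0,0,0,0,19,0,0,0,85], 26961, 0⟩]

theorem lk8 : chkTr lowT (leafLow 2 lowB) lt8 lc8 = true := by decide +kernel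

def lt9 : Tr ℕ := (.bis 5 7 1 2 19 (.bis 2 7 1 1 130 (.bis 1 7 1 2 20 (.bis 4 7 1 4 215 (.bis 7 8
  2 1 21 (.bis 0 8 2 1 93 (.bis 2 8 1 1 136 (.bis 3 8 1 1 191 (.bis 1 6 2 1 160 (.bis 6 7 1 2 163
  (.bis 4 8 1 4 216 (.bis 5 8 1 2 104 (.leaf 4) (.leaf 4)) (.leaf 2)) (.bis 5 6 2 1 165 (.bis 6 8
  1 4 169 (.bis 4 8 1 4 216 (.leaf 4) (.leaf 2)) (.leaf 2)) (.bis 4 8 1 4 216 (.bis 5 8 1 2 104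
  (.leaf 4) (.leaf 4)) (.leaf 2)))) (.bis 1 8 1 2 96 (.bis 4 8 1 4 216 (.leaf 4) (.leaf 2))
  (.leaf 2))) (.bis 1 6 2 1 160 (.bis 6 7 1 2 163 (.leaf 2) (.leaf 2)) (.leaf 2))) (.bis 1 6 2 1
  160 (.bis 2 6 4 1 178 (.leaf 2) (.leaf 2)) (.leaf 2))) (.bis 0 5 4 1 85 (.bis 1 6 2 1 160 (.bis
  2 6 4 1 178 (.bis 6 7 1 2 163 (.leaf 2) (.leaf 2)) (.leaf 2)) (.leaf 2)) (.bis 0 1 4 1 86 (.bis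
  1 6 2 1 160 (.bis 2 6 4 1 178 (.bis 6 7 1 2 163 (.leaf 2) (.leaf 2)) (.leaf 2)) (.leaf 2))
  (.bis 0 7 4 1 87 (.bis 2 6 4 1 178 (.bis 6 7 1 2 163 (.leaf 2) (.bis 1 6 1 1 189 (.leaf 2)
  (.leaf 2))) (.leaf 2)) (.bis 0 6 8 1 173 (.bis 2 6 4 1 178 (.bis 1 6 1 1 189 (.leaf 2) (.leaf
  2)) (.leaf 2)) (.bis 0 4 8 1 222 (.leaf 2) (.leaf 11))))))) (.bis 6 7 1 8 167 (.bis 0 7 1 1 68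
  (.bis 4 7 1 8 217 (.bis 3 7 1 2 190 (.bis 5 7 1 4 26 (.leaf 32) (.leaf 14)) (.leaf 14)) (.leaf
  14)) (.bis 0 5 4 1 85 (.leaf 14) (.bis 0 1 4 1 86 (.leaf 14) (.bis 0 8 4 1 87 (.leaf 14) (.bis
  0 4 8 1 222 (.leaf 14) (.bis 0 6 16 1 174 (.leaf 14) (.leaf 21))))))) (.bis 0 5 4 1 85 (.bis 1
  6 2 1 160 (.bis 2 6 4 1 178 (.bis 6 8 1 2 163 (.leaf 2) (.leaf 2)) (.leaf 2)) (.leaf 2)) (.bis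
  0 1 4 1 86 (.bis 1 6 2 1 160 (.bis 2 6 4 1 178 (.bis 6 8 1 2 163 (.leaf 2) (.leaf 2)) (.leaf
  2)) (.leaf 2)) (.bis 0 8 4 1 87 (.bis 2 6 4 1 178 (.bis 6 8 1 2 163 (.leaf 2) (.bis 1 6 1 1 189
  (.leaf 2) (.leaf 2))) (.leaf 2)) (.bis 0 6 8 1 173 (.bis 2 6 4 1 178 (.bis 1 6 1 1 189 (.leaf
  2) (.leaf 2)) (.leaf 2)) (.bis 0 4 8 1 222 (.leaf 2) (.leaf 21)))))))) (.bis 0 8 2 1 93 (.bis 2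
  8 1 1 136 (.bis 3 8 1 1 191 (.bis 1 4 1 1 218 (.bis 5 6 2 1 165 (.bis 6 8 1 4 169 (.bis 7 8 1 4
  216 (.leaf 4) (.leaf 4)) (.leaf 4)) (.bis 4 5 1 1 219 (.bis 7 8 1 4 216 (.leaf 4) (.leaf 2))
  (.bis 7 8 1 4 216 (.leaf 4) (.leaf 4)))) (.bis 1 6 2 1 160 (.bis 5 6 2 1 165 (.bis 6 8 1 4 169
  (.bis 7 8 1 4 216 (.leaf 4) (.leaf 2)) (.leaf 2)) (.bis 7 8 1 4 216 (.bis 5 8 1 2 104 (.leaf 4)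
  (.leaf 4)) (.leaf 2))) (.bis 1 8 1 2 96 (.bis 7 8 1 4 216 (.leaf 4) (.leaf 2)) (.leaf 2))))
  (.bis 3 4 2 1 231 (.bis 1 4 1 1 218 (.leaf 4) (.leaf 2)) (.leaf 2))) (.bis 2 4 2 1 225 (.bis 3
  4 2 1 231 (.bis 1 4 1 1 218 (.bis 5 6 2 1 165 (.leaf 4) (.leaf 4)) (.leaf 2)) (.leaf 2)) (.bis
  1 6 2 1 160 (.leaf 2) (.leaf 2)))) (.bis 0 4 4 1 223 (.bis 2 4 2 1 225 (.bis 3 4 2 1 231 (.bis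
  1 4 1 1 218 (.bis 5 6 2 1 165 (.leaf 4) (.leaf 4)) (.bis 1 6 2 1 160 (.bis 5 6 2 1 165 (.leaf
  2) (.leaf 2)) (.leaf 2))) (.bis 1 6 2 1 160 (.bis 5 6 2 1 165 (.leaf 2) (.leaf 2)) (.leaf 2)))
  (.leaf 2)) (.bis 0 5 4 1 85 (.bis 1 6 2 1 160 (.leaf 2) (.leaf 2)) (.bis 0 1 4 1 86 (.bis 1 6 2
  1 160 (.bis 2 6 4 1 178 (.leaf 2) (.leaf 2)) (.leaf 2)) (.bis 0 6 8 1 173 (.bis 2 6 4 1 178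
  (.leaf 2) (.leaf 2)) (.bis 0 7 8 1 222 (.leaf 2) (.leaf 11)))))))) (.bis 0 1 2 1 95 (.bis 1 2 1
  1 137 (.bis 2 8 1 1 136 (.bis 3 8 1 1 191 (.bis 4 7 1 1 218 (.bis 6 7 1 2 160 (.bis 7 8 1 2 96
  (.bis 0 8 1 2 97 (.leaf 4) (.leaf 2)) (.leaf 2)) (.bis 5 6 2 1 165 (.bis 6 8 1 4 169 (.bis 0 8
  1 2 97 (.leaf 4) (.leaf 2)) (.leaf 2)) (.bis 0 8 1 2 97 (.bis 5 8 1 2 104 (.leaf 4) (.leaf 4))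
  (.leaf 2)))) (.bis 5 6 2 1 165 (.bis 6 8 1 4 169 (.bis 0 4 1 1 228 (.leaf 4) (.bis 0 8 1 2 97
  (.leaf 4) (.leaf 2))) (.leaf 4)) (.bis 4 5 1 1 219 (.bis 0 8 1 2 97 (.leaf 4) (.leaf 2)) (.bis
  0 4 1 1 228 (.bis 1 4 1 1 232 (.bis 4 8 1 2 233 (.leaf 4) (.leaf 4)) (.bis 1 8 1 2 234 (.leaf
  4) (.leaf 2))) (.bis 0 8 1 2 97 (.leaf 4) (.leaf 2)))))) (.bis 3 4 2 1 231 (.bis 4 7 1 1 218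
  (.leaf 2) (.leaf 4)) (.leaf 2))) (.bis 2 4 2 1 225 (.bis 3 4 2 1 231 (.bis 4 7 1 1 218 (.leaf
  2) (.bis 5 6 2 1 165 (.leaf 4) (.leaf 4))) (.leaf 2)) (.bis 6 7 1 2 160 (.leaf 2) (.leaf 2))))
  (.bis 1 3 1 1 192 (.bis 3 8 1 1 191 (.bis 4 7 1 1 218 (.bis 6 7 1 2 160 (.bis 7 8 1 2 96 (.bis
  0 8 1 2 97 (.leaf 4) (.leaf 2)) (.leaf 2)) (.bis 5 6 2 1 165 (.bis 6 8 1 4 169 (.bis 0 8 1 2 97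
  (.leaf 4) (.leaf 2)) (.leaf 2)) (.bis 0 8 1 2 97 (.bis 5 8 1 2 104 (.leaf 4) (.leaf 4)) (.leaf
  2)))) (.bis 5 6 2 1 165 (.bis 6 8 1 4 169 (.bis 0 4 1 1 228 (.leaf 4) (.bis 0 8 1 2 97 (.leaf
  4) (.leaf 2))) (.leaf 4)) (.bis 4 5 1 1 219 (.bis 0 8 1 2 97 (.leaf 4) (.leaf 2)) (.bis 0 4 1 1
  228 (.bis 2 4 1 1 232 (.bis 1 4 1 1 235 (.bis 4 8 1 2 233 (.leaf 4) (.leaf 4)) (.bis 1 8 1 2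
  236 (.leaf 4) (.leaf 2))) (.bis 2 8 1 2 234 (.leaf 4) (.leaf 2))) (.bis 0 8 1 2 97 (.leaf 4)
  (.leaf 2)))))) (.bis 3 4 2 1 231 (.bis 4 7 1 1 218 (.leaf 2) (.leaf 4)) (.leaf 2))) (.bis 4 7 1
  1 218 (.bis 6 7 1 2 160 (.bis 1 5 2 1 39 (.bis 7 8 1 2 96 (.leaf 4) (.leaf 2)) (.leaf 4)) (.bis
  1 6 4 1 170 (.bis 5 6 2 1 165 (.bis 6 8 1 4 169 (.bis 0 8 1 2 97 (.leaf 4) (.leaf 2)) (.leaf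
  2)) (.bis 0 8 1 2 97 (.leaf 4) (.leaf 2))) (.leaf 4))) (.bis 1 6 4 1 170 (.bis 5 6 2 1 165
  (.bis 6 8 1 4 169 (.leaf 4) (.leaf 4)) (.bis 4 5 1 1 219 (.bis 0 8 1 2 97 (.leaf 4) (.leaf 2))
  (.bis 0 4 1 1 228 (.bis 2 4 1 1 232 (.bis 3 4 1 1 235 (.bis 4 8 1 2 233 (.leaf 4) (.leaf 4))
  (.bis 3 8 1 2 236 (.leaf 4) (.leaf 2))) (.bis 2 8 1 2 234 (.leaf 4) (.leaf 2))) (.bis 0 8 1 2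
  97 (.leaf 4) (.leaf 2))))) (.bis 1 4 2 1 220 (.leaf 4) (.leaf 4)))))) (.bis 0 8 2 1 93 (.bis 2
  8 1 1 136 (.bis 3 8 1 1 191 (.bis 4 7 1 1 218 (.bis 6 7 1 2 160 (.bis 7 8 1 2 96 (.bis 1 8 1 2
  97 (.leaf 4) (.leaf 2)) (.leaf 2)) (.bis 5 6 2 1 165 (.bis 6 8 1 4 169 (.bis 1 8 1 2 97 (.leaf
  4) (.leaf 2)) (.leaf 2)) (.bis 1 8 1 2 97 (.bis 5 8 1 2 104 (.leaf 4) (.leaf 4)) (.leaf 2))))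
  (.bis 5 6 2 1 165 (.bis 6 8 1 4 169 (.bis 1 4 1 1 228 (.leaf 4) (.bis 1 8 1 2 97 (.leaf 4)
  (.leaf 2))) (.leaf 4)) (.bis 4 5 1 1 219 (.bis 1 8 1 2 97 (.leaf 4) (.leaf 2)) (.bis 1 4 1 1
  228 (.bis 0 8 1 2 229 (.leaf 4) (.leaf 4)) (.bis 1 8 1 2 97 (.leaf 4) (.leaf 2)))))) (.bis 3 4
  2 1 231 (.bis 4 7 1 1 218 (.leaf 2) (.bis 5 6 2 1 165 (.leaf 4) (.leaf 4))) (.leaf 2))) (.bis 2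
  4 2 1 225 (.bis 3 4 2 1 231 (.bis 4 7 1 1 218 (.leaf 2) (.bis 5 6 2 1 165 (.leaf 4) (.leaf 4)))
  (.leaf 2)) (.bis 6 7 1 2 160 (.leaf 2) (.bis 2 6 4 1 178 (.bis 5 6 2 1 165 (.leaf 2) (.leaf 2))
  (.leaf 2))))) (.bis 0 4 4 1 223 (.bis 2 4 2 1 225 (.bis 3 4 2 1 231 (.bis 4 7 1 1 218 (.bis 6 7
  1 2 160 (.leaf 2) (.bis 5 6 2 1 165 (.leaf 2) (.leaf 2))) (.bis 5 6 2 1 165 (.leaf 4) (.bis 4 5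
  1 1 219 (.leaf 2) (.leaf 4)))) (.bis 6 7 1 2 160 (.leaf 2) (.bis 5 6 2 1 165 (.leaf 2) (.leaf
  2)))) (.bis 6 7 1 2 160 (.leaf 2) (.bis 2 6 4 1 178 (.bis 5 6 2 1 165 (.leaf 2) (.bis 0 5 1 2
  237 (.leaf 2) (.leaf 2))) (.bis 0 5 1 2 237 (.leaf 2) (.leaf 2))))) (.bis 0 5 4 1 85 (.bis 6 7
  1 2 160 (.leaf 2) (.bis 2 6 4 1 178 (.bis 5 6 2 1 165 (.leaf 2) (.leaf 2)) (.bis 4 5 1 2 237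
  (.leaf 2) (.leaf 2)))) (.bis 0 7 4 1 86 (.bis 6 7 1 2 160 (.leaf 2) (.bis 2 6 4 1 178 (.leaf 2)
  (.leaf 2))) (.bis 0 6 8 1 173 (.bis 2 6 4 1 178 (.leaf 2) (.leaf 2)) (.leaf 11)))))))) (.bis 1
  2 1 2 138 (.bis 2 8 2 1 139 (.bis 0 8 2 1 93 (.bis 7 8 1 1 136 (.bis 3 8 1 1 191 (.bis 5 6 2 1
  165 (.bis 6 8 1 4 169 (.bis 1 8 1 2 194 (.leaf 4) (.leaf 4)) (.leaf 4)) (.bis 4 5 1 1 219 (.bis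
  1 5 1 1 140 (.bis 2 5 1 1 141 (.bis 5 8 1 2 104 (.leaf 4) (.leaf 4)) (.bis 2 8 1 2 226 (.bis 0
  8 1 2 229 (.leaf 4) (.leaf 2)) (.leaf 2))) (.bis 1 8 1 2 194 (.bis 2 8 1 2 226 (.leaf 4) (.leaf
  2)) (.leaf 2))) (.bis 1 8 1 2 194 (.bis 2 8 1 2 226 (.leaf 4) (.leaf 4)) (.leaf 4)))) (.bis 3 4
  2 1 231 (.bis 5 6 2 1 165 (.leaf 4) (.bis 4 5 1 1 219 (.leaf 2) (.leaf 4))) (.bis 5 6 2 1 165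
  (.leaf 2) (.leaf 2)))) (.bis 4 7 1 2 225 (.bis 6 7 1 4 178 (.bis 1 5 1 1 140 (.bis 2 5 1 1 141
  (.leaf 2) (.leaf 2)) (.leaf 2)) (.bis 5 6 2 1 165 (.leaf 2) (.bis 1 5 1 1 140 (.leaf 2) (.leaf
  2)))) (.bis 3 4 2 1 231 (.bis 5 6 2 1 165 (.leaf 4) (.bis 4 5 1 1 219 (.leaf 2) (.leaf 4)))
  (.bis 5 6 2 1 165 (.leaf 2) (.bis 1 5 1 1 140 (.leaf 2) (.leaf 2)))))) (.bis 0 4 4 1 223 (.bis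
  4 7 1 2 225 (.bis 6 7 1 4 178 (.bis 1 5 1 1 140 (.bis 2 5 1 1 141 (.leaf 2) (.leaf 2)) (.leaf
  2)) (.bis 5 6 2 1 165 (.leaf 2) (.bis 1 5 1 1 140 (.bis 2 5 1 1 141 (.leaf 2) (.leaf 2)) (.leaf
  2)))) (.bis 3 4 2 1 231 (.bis 5 6 2 1 165 (.leaf 4) (.bis 4 5 1 1 219 (.bis 1 5 1 1 140 (.leaf
  2) (.leaf 2)) (.leaf 4))) (.bis 5 6 2 1 165 (.leaf 2) (.bis 1 5 1 1 140 (.bis 2 5 1 1 141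
  (.leaf 2) (.leaf 2)) (.leaf 2))))) (.bis 0 5 4 1 85 (.bis 6 7 1 4 178 (.bis 1 5 1 1 140 (.bis 2
  5 1 1 141 (.leaf 2) (.leaf 2)) (.leaf 2)) (.bis 5 6 2 1 165 (.leaf 2) (.bis 1 5 1 1 140 (.leaf
  2) (.leaf 2)))) (.bis 0 6 8 1 173 (.leaf 2) (.bis 0 1 4 1 144 (.leaf 2) (.leaf 11)))))) (.bis 2
  5 4 1 151 (.bis 0 4 4 1 223 (.bis 4 7 1 2 225 (.bis 6 7 1 4 178 (.bis 1 5 1 1 140 (.bis 5 8 1 1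
  141 (.leaf 2) (.bis 0 5 1 2 237 (.leaf 2) (.leaf 2))) (.leaf 2)) (.bis 5 6 2 1 165 (.leaf 2)
  (.bis 1 5 1 1 140 (.bis 5 8 1 1 141 (.leaf 2) (.leaf 2)) (.leaf 2)))) (.bis 3 4 2 1 231 (.bis 5
  6 2 1 165 (.leaf 10) (.bis 4 5 1 1 219 (.bis 1 5 1 1 140 (.leaf 2) (.leaf 2)) (.leaf 10)))
  (.bis 5 6 2 1 165 (.leaf 2) (.bis 1 5 1 1 140 (.bis 5 8 1 1 141 (.leaf 2) (.leaf 2)) (.leaf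
  2))))) (.bis 0 5 4 1 85 (.bis 6 7 1 4 178 (.bis 1 5 1 1 140 (.bis 5 8 1 1 141 (.leaf 2) (.leaf
  2)) (.leaf 2)) (.bis 5 6 2 1 165 (.leaf 2) (.bis 1 5 1 1 140 (.bis 5 8 1 1 141 (.leaf 2) (.leaf
  2)) (.leaf 2)))) (.bis 0 6 8 1 173 (.leaf 2) (.bis 0 1 4 1 144 (.leaf 2) (.leaf 11))))) (.bis 0
  4 4 1 223 (.bis 2 4 4 1 227 (.bis 4 7 1 2 225 (.leaf 2) (.bis 3 4 2 1 231 (.leaf 10) (.leaf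
  2))) (.bis 2 6 8 1 186 (.leaf 2) (.leaf 11))) (.bis 0 6 8 1 173 (.bis 2 6 8 1 186 (.leaf 2)
  (.leaf 11)) (.bis 0 1 4 1 144 (.leaf 11) (.bis 0 8 4 1 152 (.leaf 11) (.leaf 11))))))) (.bis 0
  1 2 1 95 (.bis 1 7 1 1 137 (.bis 7 8 1 1 136 (.bis 3 8 1 1 191 (.bis 5 6 2 1 165 (.bis 6 8 1 4
  169 (.bis 0 4 1 1 228 (.bis 2 8 1 2 194 (.leaf 4) (.leaf 4)) (.bis 2 8 1 2 194 (.leaf 4) (.leaf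
  2))) (.leaf 4)) (.bis 4 5 1 1 219 (.bis 2 5 1 1 140 (.bis 0 8 1 2 97 (.bis 5 8 1 2 104 (.leaf
  4) (.leaf 4)) (.leaf 2)) (.bis 2 8 1 2 194 (.bis 0 8 1 2 97 (.leaf 4) (.leaf 2)) (.leaf 2)))
  (.bis 0 4 1 1 228 (.bis 2 8 1 2 194 (.leaf 4) (.leaf 4)) (.bis 2 8 1 2 194 (.bis 0 8 1 2 97
  (.leaf 4) (.leaf 2)) (.leaf 2))))) (.bis 3 4 2 1 231 (.bis 5 6 2 1 165 (.leaf 4) (.bis 4 5 1 1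
  219 (.leaf 2) (.leaf 4))) (.bis 5 6 2 1 165 (.leaf 2) (.leaf 2)))) (.bis 4 7 1 2 225 (.bis 6 7
  1 4 178 (.bis 2 5 1 1 140 (.leaf 2) (.leaf 2)) (.bis 5 6 2 1 165 (.leaf 2) (.leaf 2))) (.bis 3
  4 2 1 231 (.bis 5 6 2 1 165 (.leaf 4) (.bis 4 5 1 1 219 (.leaf 2) (.leaf 4))) (.bis 5 6 2 1 165
  (.leaf 2) (.leaf 2))))) (.bis 1 3 1 1 192 (.bis 3 8 1 1 191 (.bis 5 6 2 1 165 (.bis 6 8 1 4 169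
  (.bis 0 4 1 1 228 (.bis 2 8 1 2 194 (.leaf 4) (.leaf 4)) (.bis 2 8 1 2 194 (.bis 0 8 1 2 97
  (.leaf 4) (.leaf 2)) (.leaf 2))) (.leaf 4)) (.bis 4 5 1 1 219 (.bis 2 5 1 1 140 (.bis 0 8 1 2
  97 (.bis 5 8 1 2 104 (.leaf 4) (.leaf 4)) (.leaf 2)) (.bis 2 8 1 2 194 (.bis 0 8 1 2 97 (.leaf
  4) (.leaf 2)) (.leaf 2))) (.bis 0 4 1 1 228 (.bis 2 8 1 2 194 (.leaf 4) (.leaf 4)) (.bis 2 8 1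
  2 194 (.bis 0 8 1 2 97 (.leaf 4) (.leaf 2)) (.leaf 2))))) (.bis 3 4 2 1 231 (.bis 5 6 2 1 165
  (.leaf 4) (.bis 4 5 1 1 219 (.leaf 2) (.leaf 4))) (.bis 5 6 2 1 165 (.leaf 2) (.leaf 2))))
  (.bis 1 6 4 1 170 (.bis 5 6 2 1 165 (.bis 6 8 1 4 169 (.bis 0 4 1 1 228 (.bis 2 8 1 2 194
  (.leaf 4) (.leaf 4)) (.bis 2 8 1 2 194 (.leaf 4) (.leaf 2))) (.leaf 4)) (.bis 4 5 1 1 219 (.bis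
  2 5 1 1 140 (.bis 0 8 1 2 97 (.leaf 4) (.leaf 2)) (.bis 2 8 1 2 194 (.bis 0 8 1 2 97 (.leaf 4)
  (.leaf 2)) (.leaf 2))) (.bis 0 4 1 1 228 (.bis 2 8 1 2 194 (.leaf 4) (.leaf 4)) (.bis 2 8 1 2
  194 (.leaf 4) (.leaf 2))))) (.bis 1 4 2 1 220 (.bis 4 5 1 1 219 (.leaf 4) (.bis 0 4 1 1 228
  (.leaf 4) (.bis 2 8 1 2 194 (.leaf 4) (.leaf 4)))) (.bis 1 5 2 1 39 (.leaf 4) (.leaf 4))))))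
  (.bis 0 8 2 1 93 (.bis 7 8 1 1 136 (.bis 3 8 1 1 191 (.bis 5 6 2 1 165 (.bis 6 8 1 4 169 (.bis
  1 4 1 1 228 (.bis 2 8 1 2 194 (.leaf 4) (.leaf 4)) (.bis 2 8 1 2 194 (.leaf 4) (.leaf 2)))
  (.leaf 4)) (.bis 4 5 1 1 219 (.bis 2 5 1 1 140 (.bis 1 8 1 2 97 (.bis 5 8 1 2 104 (.leaf 4)
  (.leaf 4)) (.leaf 2)) (.bis 2 8 1 2 194 (.bis 1 8 1 2 97 (.leaf 4) (.leaf 2)) (.leaf 2))) (.bis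
  1 4 1 1 228 (.bis 2 8 1 2 194 (.leaf 4) (.leaf 4)) (.bis 2 8 1 2 194 (.bis 1 8 1 2 97 (.leaf 4)
  (.leaf 2)) (.leaf 2))))) (.bis 3 4 2 1 231 (.bis 5 6 2 1 165 (.leaf 4) (.bis 4 5 1 1 219 (.leaf
  2) (.leaf 4))) (.bis 5 6 2 1 165 (.leaf 2) (.leaf 2)))) (.bis 4 7 1 2 225 (.bis 6 7 1 4 178
  (.bis 2 5 1 1 140 (.leaf 2) (.leaf 2)) (.bis 5 6 2 1 165 (.leaf 2) (.bis 2 5 1 1 140 (.leaf 2)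
  (.leaf 2)))) (.bis 3 4 2 1 231 (.bis 5 6 2 1 165 (.leaf 4) (.bis 4 5 1 1 219 (.leaf 2) (.leaf
  4))) (.bis 5 6 2 1 165 (.leaf 2) (.leaf 2))))) (.bis 0 4 4 1 223 (.bis 4 7 1 2 225 (.bis 6 7 1
  4 178 (.bis 2 5 1 1 140 (.bis 0 5 1 2 237 (.leaf 2) (.leaf 2)) (.leaf 2)) (.bis 5 6 2 1 165
  (.leaf 2) (.bis 2 5 1 1 140 (.leaf 2) (.leaf 2)))) (.bis 3 4 2 1 231 (.bis 5 6 2 1 165 (.leaf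
  4) (.bis 4 5 1 1 219 (.bis 2 5 1 1 140 (.leaf 2) (.leaf 2)) (.leaf 4))) (.bis 5 6 2 1 165
  (.leaf 2) (.bis 2 5 1 1 140 (.leaf 2) (.leaf 2))))) (.bis 0 5 4 1 85 (.bis 6 7 1 4 178 (.bis 2
  5 1 1 140 (.bis 4 5 1 2 237 (.leaf 2) (.leaf 2)) (.leaf 2)) (.bis 5 6 2 1 165 (.leaf 2) (.bis 2
  5 1 1 140 (.leaf 2) (.leaf 2)))) (.bis 0 6 8 1 173 (.leaf 2) (.bis 0 2 4 1 144 (.leaf 2) (.leaf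
  11))))))))) (.bis 2 5 2 1 154 (.bis 0 5 2 1 102 (.bis 3 5 1 1 195 (.bis 1 6 4 1 170 (.bis 5 6 4
  1 168 (.bis 6 7 1 2 165 (.leaf 4) (.bis 6 8 1 4 169 (.leaf 4) (.leaf 4))) (.leaf 16)) (.leaf
  16)) (.bis 1 3 1 1 192 (.bis 3 8 1 1 191 (.bis 6 7 1 2 165 (.bis 4 7 1 1 219 (.bis 7 8 1 2 104
  (.bis 2 8 1 2 238 (.leaf 4) (.leaf 4)) (.leaf 4)) (.bis 1 4 1 1 235 (.bis 2 8 1 2 238 (.leaf 4)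
  (.leaf 4)) (.bis 2 8 1 2 238 (.leaf 4) (.leaf 2)))) (.bis 6 8 1 4 169 (.bis 1 4 1 1 235 (.bis 2
  8 1 2 238 (.leaf 4) (.leaf 4)) (.bis 2 8 1 2 238 (.leaf 4) (.leaf 2))) (.leaf 4))) (.bis 3 4 2
  1 231 (.bis 6 7 1 2 165 (.leaf 4) (.leaf 4)) (.leaf 2))) (.bis 1 6 4 1 170 (.bis 6 7 1 2 165
  (.bis 4 7 1 1 219 (.bis 7 8 1 2 104 (.leaf 4) (.leaf 4)) (.bis 3 4 1 1 235 (.bis 2 8 1 2 238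
  (.leaf 4) (.leaf 4)) (.bis 2 8 1 2 238 (.leaf 4) (.leaf 2)))) (.bis 6 8 1 4 169 (.leaf 4)
  (.leaf 4))) (.bis 1 4 2 1 220 (.leaf 4) (.leaf 4))))) (.bis 0 1 2 1 95 (.bis 1 3 1 1 192 (.bis
  3 8 1 1 191 (.bis 6 7 1 2 165 (.bis 4 7 1 1 219 (.bis 0 8 1 2 97 (.bis 7 8 1 2 104 (.leaf 4)
  (.leaf 4)) (.leaf 2)) (.bis 0 4 1 1 228 (.bis 1 4 1 1 235 (.bis 2 8 1 2 238 (.leaf 4) (.leaf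
  4)) (.bis 2 8 1 2 238 (.leaf 4) (.leaf 2))) (.bis 0 8 1 2 97 (.bis 2 8 1 2 238 (.leaf 4) (.leaf
  2)) (.leaf 2)))) (.bis 6 8 1 4 169 (.bis 0 4 1 1 228 (.bis 1 4 1 1 235 (.bis 2 8 1 2 238 (.leaf
  4) (.leaf 4)) (.bis 2 8 1 2 238 (.leaf 4) (.leaf 2))) (.bis 0 8 1 2 97 (.leaf 4) (.leaf 2)))
  (.leaf 4))) (.bis 3 4 2 1 231 (.bis 6 7 1 2 165 (.bis 4 7 1 1 219 (.leaf 2) (.leaf 4)) (.leaf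
  4)) (.bis 6 7 1 2 165 (.leaf 2) (.leaf 2)))) (.bis 1 6 4 1 170 (.bis 6 7 1 2 165 (.bis 4 7 1 1
  219 (.bis 0 8 1 2 97 (.leaf 4) (.leaf 2)) (.bis 0 4 1 1 228 (.bis 3 4 1 1 235 (.bis 2 8 1 2 238
  (.leaf 4) (.leaf 4)) (.bis 2 8 1 2 238 (.leaf 4) (.leaf 2))) (.bis 0 8 1 2 97 (.leaf 4) (.leaf
  2)))) (.bis 6 8 1 4 169 (.bis 0 4 1 1 228 (.bis 3 4 1 1 235 (.bis 2 8 1 2 238 (.leaf 4) (.leaf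
  4)) (.bis 2 8 1 2 238 (.leaf 4) (.leaf 2))) (.bis 0 8 1 2 97 (.leaf 4) (.leaf 2))) (.leaf 4)))
  (.bis 1 4 2 1 220 (.bis 4 7 1 1 219 (.leaf 4) (.leaf 4)) (.leaf 4)))) (.bis 0 8 2 1 93 (.bis 3
  8 1 1 191 (.bis 6 7 1 2 165 (.bis 4 7 1 1 219 (.bis 1 8 1 2 97 (.bis 7 8 1 2 104 (.leaf 4)
  (.leaf 4)) (.leaf 2)) (.bis 1 4 1 1 228 (.bis 0 8 1 2 229 (.bis 2 8 1 2 238 (.leaf 4) (.leaf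
  4)) (.leaf 4)) (.bis 1 8 1 2 97 (.bis 0 8 1 2 229 (.leaf 4) (.leaf 2)) (.leaf 2)))) (.bis 6 8 1
  4 169 (.bis 1 4 1 1 228 (.bis 0 8 1 2 229 (.leaf 4) (.leaf 4)) (.bis 1 8 1 2 97 (.bis 0 8 1 2
  229 (.leaf 4) (.leaf 2)) (.leaf 2))) (.leaf 4))) (.bis 3 4 2 1 231 (.bis 6 7 1 2 165 (.leaf 4)
  (.leaf 4)) (.bis 6 7 1 2 165 (.leaf 2) (.leaf 2)))) (.bis 0 4 4 1 223 (.bis 3 4 2 1 231 (.bis 6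
  7 1 2 165 (.bis 4 7 1 1 219 (.bis 0 7 1 2 237 (.leaf 2) (.leaf 2)) (.leaf 4)) (.leaf 4)) (.bis
  6 7 1 2 165 (.bis 0 7 1 2 237 (.leaf 2) (.leaf 2)) (.leaf 2))) (.bis 0 7 4 1 85 (.bis 6 7 1 2
  165 (.bis 4 7 1 2 237 (.leaf 2) (.leaf 2)) (.leaf 2)) (.bis 0 6 8 1 173 (.leaf 2) (.bis 0 2 4 1
  157 (.leaf 2) (.leaf 11)))))))) (.bis 1 2 1 2 138 (.bis 2 8 2 1 139 (.bis 0 8 2 1 93 (.bis 3 8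
  1 1 191 (.bis 6 7 1 2 165 (.bis 4 7 1 1 219 (.bis 1 7 1 1 140 (.bis 2 7 1 1 141 (.bis 7 8 1 2
  104 (.bis 0 8 1 2 229 (.leaf 4) (.leaf 4)) (.leaf 4)) (.bis 2 8 1 2 226 (.bis 0 8 1 2 229
  (.leaf 4) (.leaf 2)) (.leaf 2))) (.bis 1 8 1 2 194 (.bis 2 8 1 2 226 (.leaf 4) (.leaf 2))
  (.leaf 2))) (.bis 1 8 1 2 194 (.bis 2 8 1 2 226 (.leaf 4) (.leaf 4)) (.leaf 4))) (.bis 6 8 1 4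
  169 (.bis 1 8 1 2 194 (.leaf 4) (.leaf 4)) (.leaf 4))) (.bis 3 4 2 1 231 (.bis 6 7 1 2 165
  (.bis 4 7 1 1 219 (.bis 1 7 1 1 140 (.leaf 2) (.leaf 2)) (.leaf 4)) (.leaf 4)) (.bis 6 7 1 2
  165 (.bis 1 7 1 1 140 (.leaf 2) (.leaf 2)) (.leaf 2)))) (.bis 0 4 4 1 223 (.bis 3 4 2 1 231
  (.bis 6 7 1 2 165 (.bis 4 7 1 1 219 (.bis 1 7 1 1 140 (.leaf 2) (.leaf 2)) (.leaf 4)) (.leaf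
  4)) (.bis 6 7 1 2 165 (.bis 1 7 1 1 140 (.bis 2 7 1 1 141 (.leaf 2) (.leaf 2)) (.leaf 2))
  (.leaf 2))) (.bis 0 7 4 1 85 (.bis 6 7 1 2 165 (.bis 1 7 1 1 140 (.leaf 2) (.leaf 2)) (.leaf
  2)) (.bis 0 6 8 1 173 (.leaf 2) (.bis 0 5 4 1 157 (.leaf 2) (.bis 0 1 4 1 144 (.leaf 2) (.leaf
  11))))))) (.bis 2 7 4 1 151 (.bis 0 4 4 1 223 (.bis 3 4 2 1 231 (.bis 6 7 1 2 165 (.bis 4 7 1 1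
  219 (.bis 1 7 1 1 140 (.leaf 2) (.leaf 2)) (.leaf 10)) (.leaf 10)) (.bis 6 7 1 2 165 (.bis 1 7
  1 1 140 (.bis 7 8 1 1 141 (.leaf 2) (.leaf 2)) (.leaf 2)) (.leaf 2))) (.bis 0 7 4 1 85 (.bis 6
  7 1 2 165 (.bis 1 7 1 1 140 (.bis 7 8 1 1 141 (.leaf 2) (.leaf 2)) (.leaf 2)) (.leaf 2)) (.bis
  0 6 8 1 173 (.leaf 2) (.bis 0 5 4 1 157 (.leaf 2) (.bis 0 1 4 1 144 (.leaf 2) (.leaf 11))))))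
  (.bis 0 4 4 1 223 (.bis 2 4 4 1 227 (.bis 3 4 2 1 231 (.leaf 10) (.leaf 2)) (.bis 2 6 8 1 186
  (.bis 3 6 4 1 198 (.leaf 2) (.leaf 2)) (.leaf 6))) (.bis 0 6 8 1 173 (.bis 2 6 8 1 186 (.leaf
  2) (.leaf 6)) (.bis 0 5 4 1 157 (.leaf 6) (.bis 0 1 4 1 144 (.leaf 6) (.leaf 11))))))) (.bis 0
  1 2 1 95 (.bis 1 3 1 1 192 (.bis 3 8 1 1 191 (.bis 6 7 1 2 165 (.bis 4 7 1 1 219 (.bis 2 7 1 1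
  140 (.bis 0 8 1 2 97 (.bis 7 8 1 2 104 (.leaf 4) (.leaf 4)) (.leaf 2)) (.bis 2 8 1 2 194 (.bis
  0 8 1 2 97 (.leaf 4) (.leaf 2)) (.leaf 2))) (.bis 0 4 1 1 228 (.bis 2 8 1 2 194 (.bis 1 4 1 1
  235 (.bis 5 8 1 2 238 (.leaf 4) (.leaf 4)) (.bis 5 8 1 2 238 (.leaf 4) (.leaf 2))) (.leaf 4))
  (.bis 2 8 1 2 194 (.bis 0 8 1 2 97 (.leaf 4) (.leaf 2)) (.leaf 2)))) (.bis 6 8 1 4 169 (.bis 0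
  4 1 1 228 (.bis 2 8 1 2 194 (.leaf 4) (.leaf 4)) (.bis 2 8 1 2 194 (.bis 0 8 1 2 97 (.leaf 4)
  (.leaf 2)) (.leaf 2))) (.leaf 4))) (.bis 3 4 2 1 231 (.bis 6 7 1 2 165 (.bis 4 7 1 1 219 (.leaf
  2) (.leaf 4)) (.leaf 4)) (.bis 6 7 1 2 165 (.leaf 2) (.leaf 2)))) (.bis 1 6 4 1 170 (.bis 6 7 1
  2 165 (.bis 4 7 1 1 219 (.bis 2 7 1 1 140 (.bis 0 8 1 2 97 (.leaf 4) (.leaf 2)) (.bis 2 8 1 2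
  194 (.bis 0 8 1 2 97 (.leaf 4) (.leaf 2)) (.leaf 2))) (.bis 0 4 1 1 228 (.bis 2 8 1 2 194
  (.leaf 4) (.leaf 4)) (.bis 2 8 1 2 194 (.bis 0 8 1 2 97 (.leaf 4) (.leaf 2)) (.leaf 2)))) (.bis
  6 8 1 4 169 (.bis 0 4 1 1 228 (.bis 2 8 1 2 194 (.leaf 4) (.leaf 4)) (.bis 2 8 1 2 194 (.leaf
  4) (.leaf 2))) (.leaf 4))) (.bis 1 4 2 1 220 (.bis 4 7 1 1 219 (.bis 2 7 1 1 140 (.leaf 4)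
  (.bis 2 8 1 2 194 (.leaf 4) (.leaf 4))) (.bis 0 4 1 1 228 (.bis 2 8 1 2 194 (.leaf 4) (.leaf
  4)) (.bis 2 8 1 2 194 (.leaf 4) (.leaf 4)))) (.bis 1 7 2 1 39 (.leaf 4) (.leaf 4))))) (.bis 0 8
  2 1 93 (.bis 3 8 1 1 191 (.bis 6 7 1 2 165 (.bis 4 7 1 1 219 (.bis 2 7 1 1 140 (.bis 1 8 1 2 97
  (.bis 7 8 1 2 104 (.leaf 4) (.leaf 4)) (.leaf 2)) (.bis 2 8 1 2 194 (.bis 1 8 1 2 97 (.leaf 4)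
  (.leaf 2)) (.leaf 2))) (.bis 1 4 1 1 228 (.bis 2 8 1 2 194 (.bis 0 8 1 2 229 (.leaf 4) (.leaf
  4)) (.leaf 4)) (.bis 2 8 1 2 194 (.bis 1 8 1 2 97 (.leaf 4) (.leaf 2)) (.leaf 2)))) (.bis 6 8 1
  4 169 (.bis 1 4 1 1 228 (.bis 2 8 1 2 194 (.leaf 4) (.leaf 4)) (.bis 2 8 1 2 194 (.bis 1 8 1 2
  97 (.leaf 4) (.leaf 2)) (.leaf 2))) (.leaf 4))) (.bis 3 4 2 1 231 (.bis 6 7 1 2 165 (.bis 4 7 1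
  1 219 (.leaf 2) (.leaf 4)) (.leaf 4)) (.bis 6 7 1 2 165 (.bis 2 7 1 1 140 (.leaf 2) (.leaf 2))
  (.leaf 2)))) (.bis 0 4 4 1 223 (.bis 3 4 2 1 231 (.bis 6 7 1 2 165 (.bis 4 7 1 1 219 (.bis 2 7
  1 1 140 (.leaf 2) (.leaf 2)) (.leaf 4)) (.leaf 4)) (.bis 6 7 1 2 165 (.bis 2 7 1 1 140 (.leaf
  2) (.leaf 2)) (.leaf 2))) (.bis 0 7 4 1 85 (.bis 6 7 1 2 165 (.bis 2 7 1 1 140 (.leaf 2) (.leaf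
  2)) (.leaf 2)) (.bis 0 6 8 1 173 (.leaf 2) (.bis 0 5 4 1 157 (.leaf 2) (.leaf 11))))))))))

def lc9 : List Vr := [⟨[24,0,0,0,0,0,0,0,0], 6912, 0⟩, ⟨[0,28,0,0,0,0,0,0,84], 25872, 0⟩, ⟨[0,0,
  17,0,0,0,0,0,0], 6936, 0⟩, ⟨[0,0,0,13,0,0,0,42,0], 31288, 0⟩, ⟨[0,0,0,0,38,0,85,0,155], 206149,
  0⟩, ⟨[0,0,0,0,0,30,0,0,94], 29760, 0⟩, ⟨[0,0,0,52,0,0,85,0,155], 385445, 0⟩, ⟨[0,0,0,0,0,0,0,42,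
  0], 7056, 0⟩, ⟨[0,0,0,0,19,0,0,0,85], 26961, 0⟩]

theorem lk9 : chkTr lowT (leafLow 2 lowB) lt9 lc9 = true := by decide +kernel

def lt10 : Tr ℕ := (.bis 3 5 2 1 196 (.bis 2 5 2 1 154 (.bis 0 5 2 1 102 (.bis 5 7 1 1 195 (.bis
  1 7 1 1 192 (.bis 7 8 1 1 191 (.bis 6 8 1 4 169 (.bis 1 4 1 1 235 (.bis 2 8 1 2 238 (.leaf 4)
  (.leaf 4)) (.bis 2 8 1 2 238 (.leaf 4) (.leaf 2))) (.leaf 4)) (.bis 4 7 1 2 231 (.leaf 2)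
  (.leaf 4))) (.bis 1 6 4 1 170 (.bis 6 8 1 4 169 (.bis 4 7 1 1 235 (.bis 2 8 1 2 238 (.leaf 4)
  (.leaf 2)) (.bis 2 8 1 2 238 (.leaf 4) (.leaf 4))) (.leaf 4)) (.bis 1 4 2 1 220 (.bis 4 7 1 1
  235 (.bis 2 8 1 2 238 (.leaf 4) (.leaf 4)) (.bis 2 8 1 2 238 (.leaf 4) (.leaf 4))) (.bis 1 2 2
  1 155 (.leaf 4) (.leaf 4))))) (.bis 1 6 4 1 170 (.bis 5 6 4 1 168 (.bis 6 8 1 4 169 (.leaf 4)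
  (.leaf 4)) (.leaf 16)) (.bis 1 4 2 1 220 (.leaf 16) (.leaf 16)))) (.bis 0 1 2 1 95 (.bis 1 7 1
  1 192 (.bis 7 8 1 1 191 (.bis 6 8 1 4 169 (.bis 0 4 1 1 228 (.bis 1 4 1 1 235 (.bis 2 8 1 2 238
  (.leaf 4) (.leaf 4)) (.bis 2 8 1 2 238 (.leaf 4) (.leaf 2))) (.bis 0 8 1 2 97 (.bis 2 8 1 2 238
  (.leaf 4) (.leaf 2)) (.leaf 2))) (.leaf 4)) (.bis 4 7 1 2 231 (.leaf 2) (.leaf 4))) (.bis 1 6 4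
  1 170 (.bis 6 8 1 4 169 (.bis 0 4 1 1 228 (.bis 4 7 1 1 235 (.bis 2 8 1 2 238 (.leaf 4) (.leaf
  2)) (.bis 2 8 1 2 238 (.leaf 4) (.leaf 4))) (.bis 0 8 1 2 97 (.leaf 4) (.leaf 2))) (.leaf 4))
  (.bis 1 4 2 1 220 (.bis 0 4 1 1 228 (.bis 4 7 1 1 235 (.bis 2 8 1 2 238 (.leaf 4) (.leaf 4))
  (.bis 2 8 1 2 238 (.leaf 4) (.leaf 4))) (.bis 0 8 1 2 97 (.leaf 4) (.leaf 4))) (.bis 1 2 2 1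
  155 (.bis 0 8 1 2 97 (.leaf 4) (.leaf 4)) (.leaf 4))))) (.bis 0 8 2 1 93 (.bis 7 8 1 1 191
  (.bis 6 8 1 4 169 (.bis 1 4 1 1 228 (.bis 0 8 1 2 229 (.leaf 4) (.leaf 4)) (.bis 1 8 1 2 97
  (.bis 0 8 1 2 229 (.leaf 4) (.leaf 2)) (.leaf 2))) (.leaf 4)) (.bis 4 7 1 2 231 (.leaf 2)
  (.leaf 4))) (.bis 0 4 4 1 223 (.bis 4 7 1 2 231 (.bis 6 7 1 4 198 (.leaf 2) (.leaf 2)) (.leaf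
  4)) (.bis 0 6 8 1 173 (.bis 6 7 1 4 198 (.leaf 2) (.leaf 2)) (.bis 0 3 4 1 199 (.leaf 2) (.bis
  0 2 4 1 157 (.leaf 2) (.leaf 11)))))))) (.bis 1 2 1 2 138 (.bis 2 8 2 1 139 (.bis 0 8 2 1 93
  (.bis 7 8 1 1 191 (.bis 6 8 1 4 169 (.bis 1 8 1 2 194 (.bis 2 8 1 2 226 (.leaf 4) (.leaf 4))
  (.leaf 4)) (.leaf 4)) (.bis 4 7 1 2 231 (.bis 6 7 1 4 198 (.leaf 2) (.leaf 2)) (.leaf 4)))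
  (.bis 0 4 4 1 223 (.bis 4 7 1 2 231 (.bis 6 7 1 4 198 (.leaf 2) (.leaf 2)) (.leaf 4)) (.bis 0 6
  8 1 173 (.bis 6 7 1 4 198 (.leaf 2) (.leaf 2)) (.bis 0 3 4 1 199 (.leaf 2) (.bis 0 5 4 1 157
  (.leaf 2) (.bis 0 1 4 1 144 (.leaf 2) (.leaf 11))))))) (.bis 0 4 4 1 223 (.bis 2 4 4 1 227
  (.bis 4 7 1 2 231 (.bis 6 7 1 4 198 (.leaf 2) (.leaf 2)) (.leaf 10)) (.bis 2 6 8 1 186 (.bis 6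
  7 1 4 198 (.leaf 2) (.leaf 2)) (.bis 2 3 4 1 200 (.bis 3 7 1 2 201 (.leaf 2) (.leaf 2)) (.bis 0
  2 1 8 230 (.bis 2 7 2 1 239 (.leaf 2) (.leaf 6)) (.bis 5 7 1 2 240 (.leaf 2) (.leaf 2))))))
  (.bis 0 6 8 1 173 (.bis 2 6 8 1 186 (.bis 6 7 1 4 198 (.leaf 2) (.leaf 2)) (.leaf 6)) (.bis 0 3
  4 1 199 (.bis 2 3 4 1 200 (.leaf 2) (.leaf 6)) (.bis 0 5 4 1 157 (.leaf 6) (.bis 0 1 4 1 144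
  (.leaf 6) (.leaf 11))))))) (.bis 0 1 2 1 95 (.bis 1 7 1 1 192 (.bis 7 8 1 1 191 (.bis 6 8 1 4
  169 (.bis 0 4 1 1 228 (.bis 2 8 1 2 194 (.leaf 4) (.leaf 4)) (.bis 2 8 1 2 194 (.bis 0 8 1 2 97
  (.leaf 4) (.leaf 2)) (.leaf 2))) (.leaf 4)) (.bis 4 7 1 2 231 (.leaf 2) (.leaf 4))) (.bis 1 6 4
  1 170 (.bis 6 8 1 4 169 (.bis 0 4 1 1 228 (.bis 2 8 1 2 194 (.leaf 4) (.leaf 4)) (.bis 2 8 1 2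
  194 (.bis 0 8 1 2 97 (.leaf 4) (.leaf 2)) (.leaf 2))) (.leaf 4)) (.bis 1 4 2 1 220 (.bis 0 4 1
  1 228 (.bis 2 8 1 2 194 (.leaf 4) (.leaf 4)) (.bis 2 8 1 2 194 (.leaf 4) (.leaf 4))) (.leaf
  4)))) (.bis 0 8 2 1 93 (.bis 7 8 1 1 191 (.bis 6 8 1 4 169 (.bis 1 4 1 1 228 (.bis 2 8 1 2 194
  (.bis 0 8 1 2 229 (.leaf 4) (.leaf 4)) (.leaf 4)) (.bis 2 8 1 2 194 (.bis 1 8 1 2 97 (.leaf 4)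
  (.leaf 2)) (.leaf 2))) (.leaf 4)) (.bis 4 7 1 2 231 (.leaf 2) (.leaf 4))) (.bis 0 4 4 1 223
  (.bis 4 7 1 2 231 (.bis 6 7 1 4 198 (.leaf 2) (.leaf 2)) (.leaf 4)) (.bis 0 6 8 1 173 (.bis 6 7
  1 4 198 (.leaf 2) (.leaf 2)) (.bis 0 3 4 1 199 (.leaf 2) (.bis 0 5 4 1 157 (.leaf 2) (.leaf
  11))))))))) (.bis 1 3 1 2 202 (.bis 3 8 2 1 203 (.bis 2 8 2 1 139 (.bis 0 8 2 1 93 (.bis 7 8 1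
  1 191 (.bis 6 8 1 4 169 (.bis 1 8 1 2 205 (.bis 3 8 1 2 241 (.leaf 4) (.leaf 4)) (.leaf 4))
  (.leaf 4)) (.bis 4 7 1 2 231 (.bis 6 7 1 4 198 (.leaf 2) (.leaf 2)) (.leaf 4))) (.bis 0 4 4 1
  223 (.bis 4 7 1 2 231 (.bis 6 7 1 4 198 (.leaf 2) (.leaf 2)) (.leaf 4)) (.bis 0 6 8 1 173 (.bis
  6 7 1 4 198 (.leaf 2) (.leaf 2)) (.bis 0 5 4 1 199 (.leaf 2) (.bis 0 1 4 1 206 (.leaf 2) (.bis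
  0 3 4 1 207 (.leaf 2) (.leaf 11))))))) (.bis 0 4 4 1 223 (.bis 2 4 4 1 227 (.bis 4 7 1 2 231
  (.bis 6 7 1 4 198 (.leaf 2) (.leaf 2)) (.leaf 10)) (.bis 2 6 8 1 186 (.bis 6 7 1 4 198 (.leaf
  2) (.leaf 2)) (.bis 2 5 4 1 200 (.bis 5 7 1 2 201 (.leaf 2) (.leaf 2)) (.bis 1 2 1 4 211 (.bis
  2 3 4 1 242 (.bis 4 7 1 4 243 (.leaf 2) (.leaf 2)) (.bis 0 2 1 8 230 (.bis 2 7 2 1 239 (.leaf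
  2) (.leaf 6)) (.bis 4 7 1 4 243 (.leaf 2) (.leaf 2)))) (.bis 4 7 1 4 243 (.leaf 2) (.leaf
  2)))))) (.bis 0 6 8 1 173 (.bis 2 6 8 1 186 (.bis 6 7 1 4 198 (.leaf 2) (.leaf 2)) (.bis 2 5 4
  1 200 (.leaf 2) (.leaf 6))) (.bis 0 5 4 1 199 (.bis 2 5 4 1 200 (.leaf 2) (.bis 1 2 1 4 211
  (.leaf 6) (.leaf 2))) (.bis 0 1 4 1 206 (.bis 1 2 1 4 211 (.leaf 6) (.leaf 2)) (.bis 0 3 4 1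
  207 (.bis 2 3 4 1 242 (.leaf 2) (.leaf 6)) (.leaf 11))))))) (.bis 0 4 4 1 223 (.bis 2 4 4 1 227
  (.bis 3 4 4 1 244 (.bis 4 7 1 2 231 (.bis 6 7 1 4 198 (.leaf 2) (.leaf 2)) (.leaf 10)) (.bis 0
  3 1 8 245 (.bis 3 7 2 1 212 (.bis 6 7 1 4 198 (.leaf 5) (.leaf 5)) (.leaf 6)) (.bis 6 7 1 4 198
  (.bis 5 7 1 2 201 (.leaf 2) (.leaf 2)) (.leaf 2)))) (.bis 2 6 8 1 186 (.bis 0 3 1 8 245 (.bis 3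
  7 2 1 212 (.leaf 5) (.leaf 6)) (.bis 6 7 1 4 198 (.leaf 2) (.leaf 2))) (.bis 2 5 4 1 200 (.bis
  0 3 1 8 245 (.bis 3 7 2 1 212 (.leaf 5) (.leaf 6)) (.bis 5 7 1 2 201 (.leaf 2) (.leaf 2)))
  (.bis 0 3 1 8 245 (.bis 3 7 2 1 212 (.leaf 6) (.leaf 6)) (.bis 1 2 1 4 211 (.bis 2 8 4 1 242
  (.bis 4 7 1 4 243 (.leaf 2) (.leaf 2)) (.bis 0 2 1 8 230 (.bis 2 7 2 1 239 (.leaf 2) (.leaf 6))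
  (.leaf 2))) (.bis 4 7 1 4 243 (.leaf 2) (.leaf 2))))))) (.bis 0 6 8 1 173 (.bis 2 6 8 1 186
  (.bis 3 4 8 1 245 (.bis 6 7 1 4 198 (.leaf 2) (.leaf 2)) (.bis 3 7 2 1 212 (.leaf 5) (.leaf
  6))) (.leaf 6)) (.bis 0 5 4 1 199 (.bis 2 5 4 1 200 (.bis 3 4 8 1 245 (.leaf 2) (.leaf 6))
  (.leaf 6)) (.bis 0 3 1 1 213 (.leaf 6) (.bis 0 1 4 1 206 (.leaf 6) (.leaf 11))))))) (.bis 1 2 1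
  2 138 (.bis 2 8 2 1 139 (.bis 0 8 2 1 93 (.bis 7 8 1 1 191 (.bis 6 8 1 4 169 (.bis 3 8 1 2 205
  (.bis 1 8 1 2 194 (.leaf 4) (.leaf 4)) (.leaf 4)) (.leaf 4)) (.bis 4 7 1 2 231 (.leaf 2) (.leaf
  4))) (.bis 0 4 4 1 223 (.bis 4 7 1 2 231 (.bis 6 7 1 4 198 (.leaf 2) (.leaf 2)) (.leaf 4))
  (.bis 0 6 8 1 173 (.bis 6 7 1 4 198 (.leaf 2) (.leaf 2)) (.bis 0 5 4 1 199 (.leaf 2) (.bis 0 3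
  4 1 206 (.leaf 2) (.bis 0 1 4 1 144 (.leaf 2) (.leaf 11))))))) (.bis 0 4 4 1 223 (.bis 2 4 4 1
  227 (.bis 4 7 1 2 231 (.bis 6 7 1 4 198 (.leaf 2) (.leaf 2)) (.leaf 10)) (.bis 2 6 8 1 186
  (.bis 6 7 1 4 198 (.leaf 2) (.leaf 2)) (.bis 2 5 4 1 200 (.bis 5 7 1 2 201 (.leaf 2) (.leaf 2))
  (.bis 2 3 4 1 211 (.bis 4 7 1 4 243 (.leaf 2) (.leaf 2)) (.bis 0 2 1 8 230 (.bis 2 7 2 1 239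
  (.leaf 2) (.leaf 6)) (.bis 4 7 1 4 243 (.leaf 2) (.leaf 2))))))) (.bis 0 6 8 1 173 (.bis 2 6 8
  1 186 (.bis 6 7 1 4 198 (.leaf 2) (.leaf 2)) (.bis 2 5 4 1 200 (.leaf 2) (.leaf 6))) (.bis 0 5
  4 1 199 (.bis 2 5 4 1 200 (.leaf 2) (.leaf 6)) (.bis 0 3 4 1 206 (.bis 2 3 4 1 211 (.leaf 2)
  (.leaf 6)) (.bis 0 1 4 1 144 (.leaf 6) (.leaf 11))))))) (.bis 0 1 2 1 95 (.bis 1 7 1 1 192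
  (.bis 7 8 1 1 191 (.bis 6 8 1 4 169 (.bis 0 4 1 1 228 (.bis 3 8 1 2 205 (.bis 2 8 1 2 194
  (.leaf 4) (.leaf 4)) (.leaf 4)) (.bis 3 8 1 2 205 (.bis 2 8 1 2 194 (.leaf 4) (.leaf 2)) (.leaf
  2))) (.leaf 4)) (.bis 4 7 1 2 231 (.leaf 2) (.leaf 4))) (.bis 1 6 4 1 170 (.bis 6 8 1 4 169
  (.bis 0 4 1 1 228 (.bis 3 8 1 2 205 (.leaf 4) (.leaf 4)) (.bis 3 8 1 2 205 (.bis 2 8 1 2 194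
  (.leaf 4) (.leaf 2)) (.leaf 2))) (.leaf 4)) (.bis 1 4 2 1 220 (.bis 0 4 1 1 228 (.bis 3 8 1 2
  205 (.leaf 4) (.leaf 4)) (.bis 3 8 1 2 205 (.bis 2 8 1 2 194 (.leaf 4) (.leaf 4)) (.leaf 4)))
  (.bis 1 5 2 1 246 (.bis 3 8 1 2 205 (.leaf 4) (.leaf 4)) (.leaf 4))))) (.bis 0 8 2 1 93 (.bis 7
  8 1 1 191 (.bis 6 8 1 4 169 (.bis 1 4 1 1 228 (.bis 3 8 1 2 205 (.bis 2 8 1 2 194 (.leaf 4)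
  (.leaf 4)) (.leaf 4)) (.bis 3 8 1 2 205 (.bis 2 8 1 2 194 (.leaf 4) (.leaf 2)) (.leaf 2)))
  (.leaf 4)) (.bis 4 7 1 2 231 (.leaf 2) (.leaf 4))) (.bis 0 4 4 1 223 (.bis 4 7 1 2 231 (.bis 6
  7 1 4 198 (.leaf 2) (.leaf 2)) (.leaf 4)) (.bis 0 6 8 1 173 (.bis 6 7 1 4 198 (.leaf 2) (.leaf
  2)) (.bis 0 5 4 1 199 (.leaf 2) (.bis 0 3 4 1 206 (.leaf 2) (.leaf 11))))))))))

def lc10 : List Vr := [⟨[24,0,0,0,0,0,0,0,0], 6912, 0⟩, ⟨[0,28,0,0,0,0,0,0,84], 25872, 0⟩, ⟨[0,0,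
  17,0,0,0,0,0,0], 6936, 0⟩, ⟨[0,0,0,13,0,0,0,0,0], 6760, 0⟩, ⟨[0,0,0,0,38,0,85,0,155], 206149,
  0⟩, ⟨[0,0,0,0,0,30,0,0,94], 29760, 0⟩, ⟨[0,0,0,52,0,0,85,0,155], 385445, 0⟩, ⟨[0,0,0,13,0,0,0,
  42,0], 31288, 0⟩, ⟨[0,0,0,0,19,0,0,0,85], 26961, 0⟩]

theorem lk10 : chkTr lowT (leafLow 2 lowB) lt10 lc10 = true := by decide +kernel

def lt11 : Tr ℕ := (.bis 5 7 1 2 19 (.bis 2 7 1 1 130 (.bis 1 7 1 2 20 (.bis 6 7 1 4 215 (.bis 7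
  8 2 1 21 (.bis 0 8 2 1 93 (.bis 2 8 1 1 136 (.bis 3 8 1 1 191 (.bis 4 8 1 1 248 (.bis 1 8 1 2
  96 (.bis 6 8 1 4 216 (.leaf 4) (.leaf 2)) (.leaf 2)) (.leaf 2)) (.leaf 2)) (.leaf 2)) (.bis 0 5
  4 1 85 (.leaf 2) (.bis 0 1 4 1 86 (.leaf 2) (.bis 0 7 4 1 87 (.leaf 2) (.bis 0 6 8 1 222 (.leaf
  2) (.leaf 11)))))) (.bis 0 7 1 1 68 (.bis 4 7 1 2 249 (.bis 6 7 1 8 217 (.bis 3 7 1 2 190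
  (.leaf 32) (.leaf 14)) (.leaf 14)) (.leaf 14)) (.bis 0 5 4 1 85 (.leaf 14) (.bis 0 1 4 1 86
  (.leaf 14) (.bis 0 8 4 1 87 (.leaf 14) (.bis 0 6 8 1 222 (.leaf 14) (.leaf 21))))))) (.bis 0 8
  2 1 93 (.bis 2 8 1 1 136 (.bis 3 8 1 1 191 (.bis 4 8 1 1 248 (.bis 1 6 1 1 218 (.bis 5 6 1 1
  219 (.bis 7 8 1 4 216 (.leaf 4) (.leaf 4)) (.bis 7 8 1 4 216 (.leaf 4) (.leaf 2))) (.bis 1 8 1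
  2 96 (.bis 7 8 1 4 216 (.leaf 4) (.leaf 2)) (.leaf 2))) (.bis 1 6 1 1 218 (.bis 4 6 2 1 250
  (.leaf 4) (.leaf 2)) (.leaf 2))) (.bis 3 6 2 1 231 (.bis 1 6 1 1 218 (.bis 4 6 2 1 250 (.leaf
  4) (.leaf 2)) (.leaf 2)) (.leaf 2))) (.bis 2 6 2 1 225 (.bis 3 6 2 1 231 (.bis 1 6 1 1 218
  (.bis 4 6 2 1 250 (.leaf 4) (.leaf 2)) (.leaf 2)) (.leaf 2)) (.leaf 2))) (.bis 0 6 4 1 223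
  (.bis 2 6 2 1 225 (.bis 3 6 2 1 231 (.bis 1 6 1 1 218 (.bis 4 6 2 1 250 (.bis 5 6 1 1 219
  (.leaf 4) (.leaf 2)) (.bis 4 5 2 1 251 (.leaf 2) (.leaf 2))) (.leaf 2)) (.leaf 2)) (.leaf 2))
  (.bis 0 5 4 1 85 (.leaf 2) (.bis 0 1 4 1 86 (.bis 1 6 2 1 252 (.leaf 2) (.leaf 2)) (.bis 0 7 8
  1 222 (.leaf 2) (.leaf 11))))))) (.bis 0 1 2 1 95 (.bis 1 4 1 1 253 (.bis 2 8 1 1 136 (.bis 3 8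
  1 1 191 (.bis 4 8 1 1 248 (.bis 6 7 1 1 218 (.bis 7 8 1 2 96 (.bis 0 8 1 2 97 (.leaf 4) (.leaf
  2)) (.leaf 2)) (.bis 5 6 1 1 219 (.bis 0 6 1 1 228 (.bis 6 8 1 2 233 (.leaf 4) (.leaf 4)) (.bis
  0 8 1 2 97 (.leaf 4) (.leaf 2))) (.bis 0 8 1 2 97 (.leaf 4) (.leaf 2)))) (.bis 6 7 1 1 218
  (.leaf 2) (.bis 4 6 2 1 250 (.bis 5 6 1 1 219 (.leaf 4) (.leaf 2)) (.leaf 2)))) (.bis 3 6 2 1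
  231 (.bis 6 7 1 1 218 (.leaf 2) (.bis 4 6 2 1 250 (.leaf 4) (.leaf 2))) (.leaf 2))) (.bis 2 6 2
  1 225 (.bis 3 6 2 1 231 (.bis 6 7 1 1 218 (.leaf 2) (.bis 4 6 2 1 250 (.leaf 4) (.leaf 2)))
  (.leaf 2)) (.leaf 2))) (.bis 1 2 1 1 137 (.bis 2 8 1 1 136 (.bis 3 8 1 1 191 (.bis 6 7 1 1 218
  (.bis 7 8 1 2 96 (.bis 0 8 1 2 97 (.leaf 4) (.leaf 2)) (.leaf 2)) (.bis 5 6 1 1 219 (.bis 0 6 1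
  1 228 (.bis 1 6 1 1 232 (.bis 6 8 1 2 233 (.leaf 4) (.leaf 4)) (.bis 1 8 1 2 234 (.leaf 4)
  (.leaf 2))) (.bis 0 8 1 2 97 (.leaf 4) (.leaf 2))) (.bis 0 8 1 2 97 (.leaf 4) (.leaf 2))))
  (.bis 3 6 2 1 231 (.bis 6 7 1 1 218 (.leaf 2) (.bis 5 6 1 1 219 (.leaf 4) (.leaf 2))) (.leaf
  2))) (.bis 2 6 2 1 225 (.bis 3 6 2 1 231 (.bis 6 7 1 1 218 (.leaf 2) (.bis 5 6 1 1 219 (.leaf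
  4) (.leaf 2))) (.leaf 2)) (.leaf 2))) (.bis 1 3 1 1 192 (.bis 3 8 1 1 191 (.bis 6 7 1 1 218
  (.bis 7 8 1 2 96 (.bis 0 8 1 2 97 (.leaf 4) (.leaf 2)) (.leaf 2)) (.bis 5 6 1 1 219 (.bis 0 6 1
  1 228 (.bis 2 6 1 1 232 (.bis 1 6 1 1 235 (.bis 6 8 1 2 233 (.leaf 4) (.leaf 4)) (.bis 1 8 1 2
  236 (.leaf 4) (.leaf 2))) (.bis 2 8 1 2 234 (.leaf 4) (.leaf 2))) (.bis 0 8 1 2 97 (.leaf 4)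
  (.leaf 2))) (.bis 0 8 1 2 97 (.leaf 4) (.leaf 2)))) (.bis 3 6 2 1 231 (.bis 6 7 1 1 218 (.leaf
  2) (.bis 5 6 1 1 219 (.leaf 4) (.leaf 2))) (.leaf 2))) (.bis 6 7 1 1 218 (.bis 1 5 2 1 39 (.bis
  7 8 1 2 96 (.leaf 4) (.leaf 2)) (.leaf 4)) (.bis 1 6 2 1 220 (.leaf 4) (.leaf 4)))))) (.bis 0 8
  2 1 93 (.bis 2 8 1 1 136 (.bis 3 8 1 1 191 (.bis 4 8 1 1 248 (.bis 6 7 1 1 218 (.bis 7 8 1 2 96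
  (.bis 1 8 1 2 97 (.leaf 4) (.leaf 2)) (.leaf 2)) (.bis 5 6 1 1 219 (.bis 1 6 1 1 228 (.bis 0 8
  1 2 229 (.leaf 4) (.leaf 4)) (.bis 1 8 1 2 97 (.leaf 4) (.leaf 2))) (.bis 1 8 1 2 97 (.leaf 4)
  (.leaf 2)))) (.bis 6 7 1 1 218 (.leaf 2) (.bis 4 6 2 1 250 (.bis 5 6 1 1 219 (.leaf 4) (.leaf
  2)) (.leaf 2)))) (.bis 3 6 2 1 231 (.bis 6 7 1 1 218 (.leaf 2) (.bis 4 6 2 1 250 (.leaf 4)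
  (.leaf 2))) (.leaf 2))) (.bis 2 6 2 1 225 (.bis 3 6 2 1 231 (.bis 6 7 1 1 218 (.leaf 2) (.bis 4
  6 2 1 250 (.bis 5 6 1 1 219 (.leaf 4) (.leaf 2)) (.leaf 2))) (.leaf 2)) (.leaf 2))) (.bis 0 6 4
  1 223 (.bis 2 6 2 1 225 (.bis 3 6 2 1 231 (.bis 6 7 1 1 218 (.leaf 2) (.bis 4 6 2 1 250 (.bis 5
  6 1 1 219 (.leaf 4) (.bis 0 5 1 2 237 (.leaf 2) (.leaf 2))) (.bis 4 5 2 1 251 (.leaf 2) (.leaf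
  2)))) (.bis 0 7 1 2 252 (.leaf 2) (.bis 4 5 2 1 251 (.leaf 2) (.leaf 2)))) (.leaf 2)) (.bis 0 5
  4 1 85 (.leaf 2) (.bis 0 7 4 1 86 (.bis 6 7 1 2 252 (.leaf 2) (.leaf 2)) (.bis 0 4 2 1 254
  (.leaf 2) (.leaf 11)))))))) (.bis 1 2 1 2 138 (.bis 2 8 2 1 139 (.bis 0 8 2 1 93 (.bis 7 8 1 1
  136 (.bis 3 8 1 1 191 (.bis 4 8 1 1 248 (.bis 5 6 1 1 219 (.bis 1 8 1 2 194 (.leaf 4) (.leaf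
  4)) (.bis 1 5 1 1 140 (.bis 2 5 1 1 141 (.bis 5 8 1 2 104 (.leaf 4) (.leaf 4)) (.bis 2 8 1 2
  226 (.bis 0 8 1 2 229 (.leaf 4) (.leaf 2)) (.leaf 2))) (.bis 1 8 1 2 194 (.bis 2 8 1 2 226
  (.leaf 4) (.leaf 2)) (.leaf 2)))) (.bis 4 6 2 1 250 (.bis 5 6 1 1 219 (.leaf 4) (.leaf 2))
  (.bis 1 5 1 1 140 (.leaf 2) (.leaf 2)))) (.bis 3 6 2 1 231 (.bis 4 6 2 1 250 (.bis 5 6 1 1 219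
  (.leaf 4) (.bis 1 5 1 1 140 (.leaf 2) (.leaf 2))) (.bis 1 5 1 1 140 (.leaf 2) (.leaf 2))) (.bis
  1 5 1 1 140 (.leaf 2) (.leaf 2)))) (.bis 6 7 1 2 225 (.bis 1 5 1 1 140 (.bis 2 5 1 1 141 (.leaf
  2) (.leaf 2)) (.leaf 2)) (.bis 3 6 2 1 231 (.bis 4 6 2 1 250 (.bis 5 6 1 1 219 (.leaf 4) (.bis
  1 5 1 1 140 (.leaf 2) (.leaf 2))) (.bis 1 5 1 1 140 (.bis 2 5 1 1 141 (.leaf 2) (.leaf 2))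
  (.leaf 2))) (.bis 1 5 1 1 140 (.leaf 2) (.leaf 2))))) (.bis 0 6 4 1 223 (.bis 6 7 1 2 225 (.bis
  1 5 1 1 140 (.bis 2 5 1 1 141 (.leaf 2) (.leaf 2)) (.leaf 2)) (.bis 3 6 2 1 231 (.bis 4 6 2 1
  250 (.bis 5 6 1 1 219 (.leaf 4) (.bis 1 5 1 1 140 (.bis 2 5 1 1 141 (.leaf 2) (.leaf 2)) (.leaf
  2))) (.bis 1 5 1 1 140 (.bis 2 5 1 1 141 (.leaf 2) (.leaf 2)) (.leaf 2))) (.bis 1 5 1 1 140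
  (.bis 2 5 1 1 141 (.leaf 2) (.leaf 2)) (.leaf 2)))) (.bis 0 5 4 1 85 (.bis 1 5 1 1 140 (.bis 2
  5 1 1 141 (.leaf 2) (.leaf 2)) (.leaf 2)) (.bis 0 1 4 1 144 (.leaf 2) (.bis 0 2 4 1 152 (.leaf
  2) (.leaf 11)))))) (.bis 2 5 4 1 151 (.bis 0 6 4 1 223 (.bis 6 7 1 2 225 (.bis 1 5 1 1 140
  (.bis 5 8 1 1 141 (.leaf 2) (.bis 4 5 2 1 251 (.leaf 2) (.leaf 2))) (.leaf 2)) (.bis 3 6 2 1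
  231 (.bis 4 6 2 1 250 (.bis 5 6 1 1 219 (.leaf 10) (.bis 1 5 1 1 140 (.bis 5 8 1 1 141 (.leaf
  2) (.leaf 2)) (.leaf 2))) (.bis 1 5 1 1 140 (.bis 5 8 1 1 141 (.leaf 2) (.bis 4 5 2 1 251
  (.leaf 2) (.leaf 2))) (.leaf 2))) (.bis 1 5 1 1 140 (.bis 5 8 1 1 141 (.leaf 2) (.leaf 2))
  (.leaf 2)))) (.bis 0 5 4 1 85 (.bis 1 5 1 1 140 (.bis 5 8 1 1 141 (.leaf 2) (.bis 4 5 2 1 251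
  (.leaf 2) (.leaf 2))) (.leaf 2)) (.bis 0 1 4 1 144 (.leaf 2) (.bis 0 8 4 1 152 (.leaf 2) (.leaf
  11))))) (.bis 0 6 4 1 223 (.bis 2 6 4 1 227 (.bis 6 7 1 2 225 (.leaf 2) (.bis 3 6 2 1 231
  (.leaf 42) (.leaf 2))) (.bis 2 4 2 1 255 (.leaf 2) (.leaf 11))) (.bis 0 1 4 1 144 (.bis 2 4 2 1
  255 (.leaf 2) (.leaf 11)) (.bis 0 8 4 1 152 (.bis 2 4 2 1 255 (.leaf 2) (.leaf 11)) (.bis 2 4 2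
  1 255 (.bis 0 4 2 1 254 (.leaf 2) (.leaf 11)) (.leaf 11))))))) (.bis 0 1 2 1 95 (.bis 1 4 1 1
  253 (.bis 7 8 1 1 136 (.bis 3 8 1 1 191 (.bis 4 8 1 1 248 (.bis 5 6 1 1 219 (.bis 0 6 1 1 228
  (.bis 2 8 1 2 194 (.leaf 4) (.leaf 4)) (.bis 2 8 1 2 194 (.bis 0 8 1 2 97 (.leaf 4) (.leaf 2))
  (.leaf 2))) (.bis 2 5 1 1 140 (.bis 0 8 1 2 97 (.leaf 4) (.leaf 2)) (.bis 2 8 1 2 194 (.bis 0 8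
  1 2 97 (.leaf 4) (.leaf 2)) (.leaf 2)))) (.bis 4 6 2 1 250 (.bis 5 6 1 1 219 (.leaf 4) (.leaf
  2)) (.leaf 2))) (.bis 3 6 2 1 231 (.bis 4 6 2 1 250 (.bis 5 6 1 1 219 (.leaf 4) (.leaf 2))
  (.leaf 2)) (.leaf 2))) (.bis 6 7 1 2 225 (.bis 2 5 1 1 140 (.leaf 2) (.leaf 2)) (.bis 3 6 2 1
  231 (.bis 4 6 2 1 250 (.bis 5 6 1 1 219 (.leaf 4) (.leaf 2)) (.bis 2 5 1 1 140 (.leaf 2) (.leaf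
  2))) (.bis 2 5 1 1 140 (.leaf 2) (.leaf 2))))) (.bis 1 7 1 1 137 (.bis 7 8 1 1 136 (.bis 3 8 1
  1 191 (.bis 5 6 1 1 219 (.bis 0 6 1 1 228 (.bis 2 8 1 2 194 (.leaf 4) (.leaf 4)) (.bis 2 8 1 2
  194 (.bis 0 8 1 2 97 (.leaf 4) (.leaf 2)) (.leaf 2))) (.bis 2 5 1 1 140 (.bis 0 8 1 2 97 (.bis
  5 8 1 2 104 (.leaf 4) (.leaf 4)) (.leaf 2)) (.bis 2 8 1 2 194 (.bis 0 8 1 2 97 (.leaf 4) (.leaf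
  2)) (.leaf 2)))) (.bis 3 6 2 1 231 (.bis 5 6 1 1 219 (.bis 0 6 1 1 228 (.leaf 4) (.leaf 2))
  (.leaf 2)) (.leaf 2))) (.bis 6 7 1 2 225 (.leaf 2) (.bis 3 6 2 1 231 (.bis 5 6 1 1 219 (.leaf
  4) (.leaf 2)) (.leaf 2)))) (.bis 1 3 1 1 192 (.bis 3 8 1 1 191 (.bis 5 6 1 1 219 (.bis 0 6 1 1
  228 (.bis 2 8 1 2 194 (.leaf 4) (.leaf 4)) (.bis 2 8 1 2 194 (.bis 0 8 1 2 97 (.leaf 4) (.leaf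
  2)) (.leaf 2))) (.bis 2 5 1 1 140 (.bis 0 8 1 2 97 (.bis 5 8 1 2 104 (.leaf 4) (.leaf 4))
  (.leaf 2)) (.bis 2 8 1 2 194 (.bis 0 8 1 2 97 (.leaf 4) (.leaf 2)) (.leaf 2)))) (.bis 3 6 2 1
  231 (.bis 5 6 1 1 219 (.bis 0 6 1 1 228 (.leaf 4) (.leaf 2)) (.leaf 2)) (.leaf 2))) (.bis 1 6 2
  1 220 (.bis 5 6 1 1 219 (.bis 0 6 1 1 228 (.bis 2 8 1 2 194 (.leaf 4) (.leaf 4)) (.bis 2 8 1 2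
  194 (.leaf 4) (.leaf 4))) (.bis 2 5 1 1 140 (.bis 0 8 1 2 97 (.leaf 4) (.leaf 4)) (.bis 2 8 1 2
  194 (.leaf 4) (.leaf 4)))) (.leaf 4))))) (.bis 0 8 2 1 93 (.bis 7 8 1 1 136 (.bis 3 8 1 1 191
  (.bis 4 8 1 1 248 (.bis 5 6 1 1 219 (.bis 1 6 1 1 228 (.bis 2 8 1 2 194 (.leaf 4) (.leaf 4))
  (.bis 2 8 1 2 194 (.bis 1 8 1 2 97 (.leaf 4) (.leaf 2)) (.leaf 2))) (.bis 2 5 1 1 140 (.bis 1 8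
  1 2 97 (.leaf 4) (.leaf 2)) (.bis 2 8 1 2 194 (.bis 1 8 1 2 97 (.leaf 4) (.leaf 2)) (.leaf
  2)))) (.bis 4 6 2 1 250 (.bis 5 6 1 1 219 (.leaf 4) (.leaf 2)) (.leaf 2))) (.bis 3 6 2 1 231
  (.bis 4 6 2 1 250 (.bis 5 6 1 1 219 (.leaf 4) (.leaf 2)) (.bis 2 5 1 1 140 (.leaf 2) (.leaf
  2))) (.bis 2 5 1 1 140 (.leaf 2) (.leaf 2)))) (.bis 6 7 1 2 225 (.bis 2 5 1 1 140 (.leaf 2)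
  (.leaf 2)) (.bis 3 6 2 1 231 (.bis 4 6 2 1 250 (.bis 5 6 1 1 219 (.leaf 4) (.bis 2 5 1 1 140
  (.leaf 2) (.leaf 2))) (.bis 2 5 1 1 140 (.leaf 2) (.leaf 2))) (.bis 2 5 1 1 140 (.leaf 2)
  (.leaf 2))))) (.bis 0 6 4 1 223 (.bis 6 7 1 2 225 (.bis 2 5 1 1 140 (.bis 4 5 2 1 251 (.leaf 2)
  (.leaf 2)) (.leaf 2)) (.bis 3 6 2 1 231 (.bis 4 6 2 1 250 (.bis 5 6 1 1 219 (.leaf 4) (.bis 2 5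
  1 1 140 (.bis 0 5 1 2 237 (.leaf 2) (.leaf 2)) (.leaf 2))) (.bis 2 5 1 1 140 (.bis 4 5 2 1 251
  (.leaf 2) (.leaf 2)) (.leaf 2))) (.bis 2 5 1 1 140 (.bis 4 5 2 1 251 (.leaf 2) (.leaf 2))
  (.leaf 2)))) (.bis 0 5 4 1 85 (.bis 2 5 1 1 140 (.bis 4 5 2 1 251 (.leaf 2) (.leaf 2)) (.leaf
  2)) (.bis 0 2 4 1 144 (.leaf 2) (.leaf 11)))))))) (.bis 2 5 2 1 154 (.bis 0 5 2 1 102 (.bis 3 5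
  1 1 195 (.bis 4 5 1 1 256 (.bis 1 6 2 1 220 (.leaf 16) (.leaf 16)) (.bis 1 4 1 1 253 (.bis 4 8
  1 1 248 (.bis 6 7 1 1 219 (.bis 7 8 1 2 104 (.bis 2 8 1 2 238 (.leaf 4) (.leaf 4)) (.leaf 4))
  (.bis 2 8 1 2 238 (.leaf 4) (.leaf 4))) (.bis 4 6 2 1 250 (.leaf 4) (.leaf 2))) (.bis 1 6 2 1
  220 (.leaf 4) (.bis 1 7 2 1 39 (.leaf 4) (.leaf 4))))) (.bis 1 4 1 1 253 (.bis 3 8 1 1 191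
  (.bis 4 8 1 1 248 (.bis 6 7 1 1 219 (.bis 7 8 1 2 104 (.leaf 4) (.leaf 4)) (.bis 2 8 1 2 238
  (.leaf 4) (.leaf 4))) (.bis 4 6 2 1 250 (.leaf 4) (.leaf 2))) (.bis 3 6 2 1 231 (.bis 4 6 2 1
  250 (.leaf 4) (.leaf 2)) (.leaf 2))) (.bis 1 3 1 1 192 (.bis 3 8 1 1 191 (.bis 6 7 1 1 219
  (.bis 7 8 1 2 104 (.bis 2 8 1 2 238 (.leaf 4) (.leaf 4)) (.leaf 4)) (.bis 1 6 1 1 235 (.bis 2 8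
  1 2 238 (.leaf 4) (.leaf 4)) (.bis 2 8 1 2 238 (.leaf 4) (.leaf 2)))) (.bis 3 6 2 1 231 (.bis 6
  7 1 1 219 (.leaf 2) (.leaf 4)) (.leaf 2))) (.bis 1 6 2 1 220 (.bis 6 7 1 1 219 (.bis 7 8 1 2
  104 (.leaf 4) (.leaf 4)) (.bis 3 6 1 1 235 (.bis 2 8 1 2 238 (.leaf 4) (.leaf 4)) (.bis 2 8 1 2
  238 (.leaf 4) (.leaf 4)))) (.bis 1 7 2 1 39 (.leaf 4) (.leaf 4)))))) (.bis 0 1 2 1 95 (.bis 1 4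
  1 1 253 (.bis 3 8 1 1 191 (.bis 4 8 1 1 248 (.bis 6 7 1 1 219 (.bis 0 8 1 2 97 (.bis 7 8 1 2
  104 (.leaf 4) (.leaf 4)) (.leaf 2)) (.bis 0 6 1 1 228 (.bis 2 8 1 2 238 (.leaf 4) (.leaf 4))
  (.bis 0 8 1 2 97 (.bis 2 8 1 2 238 (.leaf 4) (.leaf 2)) (.leaf 2)))) (.bis 4 6 2 1 250 (.bis 6
  7 1 1 219 (.leaf 2) (.leaf 4)) (.leaf 2))) (.bis 3 6 2 1 231 (.bis 4 6 2 1 250 (.bis 6 7 1 1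
  219 (.leaf 2) (.leaf 4)) (.leaf 2)) (.leaf 2))) (.bis 1 3 1 1 192 (.bis 3 8 1 1 191 (.bis 6 7 1
  1 219 (.bis 0 8 1 2 97 (.bis 7 8 1 2 104 (.leaf 4) (.leaf 4)) (.leaf 2)) (.bis 0 6 1 1 228
  (.bis 1 6 1 1 235 (.bis 2 8 1 2 238 (.leaf 4) (.leaf 4)) (.bis 2 8 1 2 238 (.leaf 4) (.leaf
  2))) (.bis 0 8 1 2 97 (.bis 2 8 1 2 238 (.leaf 4) (.leaf 2)) (.leaf 2)))) (.bis 3 6 2 1 231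
  (.bis 6 7 1 1 219 (.leaf 2) (.leaf 4)) (.leaf 2))) (.bis 1 6 2 1 220 (.bis 6 7 1 1 219 (.bis 0
  8 1 2 97 (.leaf 4) (.leaf 4)) (.bis 0 6 1 1 228 (.bis 3 6 1 1 235 (.bis 2 8 1 2 238 (.leaf 4)
  (.leaf 4)) (.bis 2 8 1 2 238 (.leaf 4) (.leaf 4))) (.bis 0 8 1 2 97 (.leaf 4) (.leaf 4))))
  (.bis 1 7 2 1 39 (.leaf 4) (.leaf 4))))) (.bis 0 8 2 1 93 (.bis 3 8 1 1 191 (.bis 4 8 1 1 248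
  (.bis 6 7 1 1 219 (.bis 1 8 1 2 97 (.bis 7 8 1 2 104 (.leaf 4) (.leaf 4)) (.leaf 2)) (.bis 1 6
  1 1 228 (.bis 0 8 1 2 229 (.leaf 4) (.leaf 4)) (.bis 1 8 1 2 97 (.bis 0 8 1 2 229 (.leaf 4)
  (.leaf 2)) (.leaf 2)))) (.bis 4 6 2 1 250 (.bis 6 7 1 1 219 (.leaf 2) (.leaf 4)) (.leaf 2)))
  (.bis 3 6 2 1 231 (.bis 4 6 2 1 250 (.bis 6 7 1 1 219 (.leaf 2) (.leaf 4)) (.bis 4 7 2 1 251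
  (.leaf 2) (.leaf 2))) (.bis 4 7 2 1 251 (.leaf 2) (.leaf 2)))) (.bis 0 6 4 1 223 (.bis 3 6 2 1
  231 (.bis 4 6 2 1 250 (.bis 6 7 1 1 219 (.bis 0 7 1 2 237 (.leaf 2) (.leaf 2)) (.leaf 4)) (.bis
  4 7 2 1 251 (.bis 0 7 1 2 237 (.leaf 2) (.leaf 2)) (.leaf 2))) (.bis 4 7 2 1 251 (.bis 0 7 1 2
  237 (.leaf 2) (.leaf 2)) (.leaf 2))) (.bis 0 7 4 1 85 (.bis 4 7 2 1 251 (.leaf 2) (.leaf 2))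
  (.bis 0 2 4 1 157 (.leaf 2) (.bis 0 4 2 1 254 (.leaf 2) (.leaf 11)))))))) (.bis 1 2 1 2 138
  (.bis 2 8 2 1 139 (.bis 0 8 2 1 93 (.bis 3 8 1 1 191 (.bis 4 8 1 1 248 (.bis 6 7 1 1 219 (.bis
  1 7 1 1 140 (.bis 2 7 1 1 141 (.bis 7 8 1 2 104 (.bis 0 8 1 2 229 (.leaf 4) (.leaf 4)) (.leaf
  4)) (.bis 2 8 1 2 226 (.bis 0 8 1 2 229 (.leaf 4) (.leaf 2)) (.leaf 2))) (.bis 1 8 1 2 194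
  (.bis 2 8 1 2 226 (.leaf 4) (.leaf 2)) (.leaf 2))) (.bis 1 8 1 2 194 (.bis 2 8 1 2 226 (.leaf
  4) (.leaf 4)) (.leaf 4))) (.bis 4 6 2 1 250 (.bis 6 7 1 1 219 (.bis 1 7 1 1 140 (.leaf 2)
  (.leaf 2)) (.leaf 4)) (.bis 1 7 1 1 140 (.leaf 2) (.leaf 2)))) (.bis 3 6 2 1 231 (.bis 4 6 2 1
  250 (.bis 6 7 1 1 219 (.bis 1 7 1 1 140 (.leaf 2) (.leaf 2)) (.leaf 4)) (.bis 1 7 1 1 140 (.bis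
  2 7 1 1 141 (.leaf 2) (.leaf 2)) (.leaf 2))) (.bis 1 7 1 1 140 (.bis 2 7 1 1 141 (.leaf 2)
  (.leaf 2)) (.leaf 2)))) (.bis 0 6 4 1 223 (.bis 3 6 2 1 231 (.bis 4 6 2 1 250 (.bis 6 7 1 1 219
  (.bis 1 7 1 1 140 (.bis 2 7 1 1 141 (.leaf 2) (.leaf 2)) (.leaf 2)) (.leaf 4)) (.bis 1 7 1 1
  140 (.bis 2 7 1 1 141 (.bis 4 7 2 1 251 (.leaf 2) (.leaf 2)) (.leaf 2)) (.leaf 2))) (.bis 1 7 1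
  1 140 (.bis 2 7 1 1 141 (.leaf 2) (.leaf 2)) (.leaf 2))) (.bis 0 7 4 1 85 (.bis 1 7 1 1 140
  (.bis 2 7 1 1 141 (.leaf 2) (.leaf 2)) (.leaf 2)) (.bis 0 5 4 1 157 (.leaf 2) (.bis 0 1 4 1 144
  (.leaf 2) (.leaf 11)))))) (.bis 2 7 4 1 151 (.bis 0 6 4 1 223 (.bis 3 6 2 1 231 (.bis 4 6 2 1
  250 (.bis 6 7 1 1 219 (.bis 1 7 1 1 140 (.bis 7 8 1 1 141 (.leaf 2) (.leaf 2)) (.leaf 2))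
  (.leaf 10)) (.bis 1 7 1 1 140 (.bis 7 8 1 1 141 (.leaf 2) (.bis 4 7 2 1 251 (.leaf 2) (.leaf
  2))) (.leaf 2))) (.bis 1 7 1 1 140 (.bis 7 8 1 1 141 (.leaf 2) (.bis 4 7 2 1 251 (.leaf 2)
  (.leaf 2))) (.leaf 2))) (.bis 0 7 4 1 85 (.bis 1 7 1 1 140 (.bis 7 8 1 1 141 (.leaf 2) (.leaf
  2)) (.leaf 2)) (.bis 0 5 4 1 157 (.leaf 2) (.bis 0 1 4 1 144 (.leaf 2) (.bis 0 8 4 1 152 (.leaf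
  2) (.leaf 11)))))) (.bis 0 6 4 1 223 (.bis 2 6 4 1 227 (.bis 3 6 2 1 231 (.bis 4 6 2 1 250
  (.leaf 10) (.leaf 2)) (.leaf 2)) (.bis 2 4 2 1 255 (.leaf 2) (.leaf 6))) (.bis 0 5 4 1 157
  (.bis 2 4 2 1 255 (.leaf 2) (.leaf 6)) (.bis 0 1 4 1 144 (.leaf 6) (.bis 0 8 4 1 152 (.leaf 6)
  (.leaf 11))))))) (.bis 0 1 2 1 95 (.bis 1 4 1 1 253 (.bis 3 8 1 1 191 (.bis 4 8 1 1 248 (.bis 6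
  7 1 1 219 (.bis 2 7 1 1 140 (.bis 0 8 1 2 97 (.leaf 4) (.leaf 2)) (.bis 2 8 1 2 194 (.bis 0 8 1
  2 97 (.leaf 4) (.leaf 2)) (.leaf 2))) (.bis 0 6 1 1 228 (.bis 2 8 1 2 194 (.leaf 4) (.leaf 4))
  (.bis 2 8 1 2 194 (.bis 0 8 1 2 97 (.leaf 4) (.leaf 2)) (.leaf 2)))) (.bis 4 6 2 1 250 (.bis 6
  7 1 1 219 (.leaf 2) (.leaf 4)) (.bis 2 7 1 1 140 (.leaf 2) (.leaf 2)))) (.bis 3 6 2 1 231 (.bis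
  4 6 2 1 250 (.bis 6 7 1 1 219 (.leaf 2) (.leaf 4)) (.bis 2 7 1 1 140 (.leaf 2) (.leaf 2)))
  (.bis 2 7 1 1 140 (.leaf 2) (.leaf 2)))) (.bis 1 3 1 1 192 (.bis 3 8 1 1 191 (.bis 6 7 1 1 219
  (.bis 2 7 1 1 140 (.bis 0 8 1 2 97 (.bis 7 8 1 2 104 (.leaf 4) (.leaf 4)) (.leaf 2)) (.bis 2 8
  1 2 194 (.bis 0 8 1 2 97 (.leaf 4) (.leaf 2)) (.leaf 2))) (.bis 0 6 1 1 228 (.bis 2 8 1 2 194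
  (.bis 1 6 1 1 235 (.leaf 4) (.bis 5 8 1 2 238 (.leaf 4) (.leaf 2))) (.leaf 4)) (.bis 2 8 1 2
  194 (.bis 0 8 1 2 97 (.leaf 4) (.leaf 2)) (.leaf 2)))) (.bis 3 6 2 1 231 (.bis 6 7 1 1 219
  (.leaf 2) (.leaf 4)) (.bis 2 7 1 1 140 (.leaf 2) (.leaf 2)))) (.bis 1 6 2 1 220 (.bis 6 7 1 1
  219 (.bis 2 7 1 1 140 (.bis 0 8 1 2 97 (.leaf 4) (.leaf 4)) (.bis 2 8 1 2 194 (.leaf 4) (.leaf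
  4))) (.bis 0 6 1 1 228 (.bis 2 8 1 2 194 (.leaf 4) (.leaf 4)) (.bis 2 8 1 2 194 (.leaf 4)
  (.leaf 4)))) (.bis 1 7 2 1 39 (.bis 2 7 1 1 140 (.leaf 4) (.bis 2 8 1 2 194 (.leaf 4) (.leaf
  4))) (.leaf 4))))) (.bis 0 8 2 1 93 (.bis 3 8 1 1 191 (.bis 4 8 1 1 248 (.bis 6 7 1 1 219 (.bis
  2 7 1 1 140 (.bis 1 8 1 2 97 (.bis 7 8 1 2 104 (.leaf 4) (.leaf 4)) (.leaf 2)) (.bis 2 8 1 2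
  194 (.bis 1 8 1 2 97 (.leaf 4) (.leaf 2)) (.leaf 2))) (.bis 1 6 1 1 228 (.bis 2 8 1 2 194
  (.leaf 4) (.leaf 4)) (.bis 2 8 1 2 194 (.bis 1 8 1 2 97 (.leaf 4) (.leaf 2)) (.leaf 2)))) (.bis
  4 6 2 1 250 (.bis 6 7 1 1 219 (.leaf 2) (.leaf 4)) (.bis 2 7 1 1 140 (.leaf 2) (.leaf 2))))
  (.bis 3 6 2 1 231 (.bis 4 6 2 1 250 (.bis 6 7 1 1 219 (.bis 2 7 1 1 140 (.leaf 2) (.leaf 2))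
  (.leaf 4)) (.bis 2 7 1 1 140 (.leaf 2) (.leaf 2))) (.bis 2 7 1 1 140 (.leaf 2) (.leaf 2))))
  (.bis 0 6 4 1 223 (.bis 3 6 2 1 231 (.bis 4 6 2 1 250 (.bis 6 7 1 1 219 (.bis 2 7 1 1 140 (.bis
  0 7 1 2 237 (.leaf 2) (.leaf 2)) (.leaf 2)) (.leaf 4)) (.bis 2 7 1 1 140 (.bis 4 7 2 1 251
  (.leaf 2) (.leaf 2)) (.leaf 2))) (.bis 2 7 1 1 140 (.bis 4 7 2 1 251 (.leaf 2) (.leaf 2))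
  (.leaf 2))) (.bis 0 7 4 1 85 (.bis 2 7 1 1 140 (.bis 4 7 2 1 251 (.leaf 2) (.leaf 2)) (.leaf
  2)) (.bis 0 5 4 1 157 (.leaf 2) (.bis 0 2 4 1 144 (.leaf 2) (.leaf 11))))))))))

def lc11 : List Vr := [⟨[24,0,0,0,0,0,0,0,0], 6912, 0⟩, ⟨[0,28,0,0,0,0,0,0,84], 25872, 0⟩, ⟨[0,0,
  17,0,0,0,0,0,0], 6936, 0⟩, ⟨[0,0,0,13,0,0,0,42,0], 31288, 0⟩, ⟨[0,0,0,0,19,0,0,42,0], 33789, 0⟩,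
   ⟨[0,0,0,0,0,30,0,0,94], 29760, 0⟩, ⟨[0,0,0,0,38,0,85,0,155], 206149, 0⟩, ⟨[0,0,0,0,0,0,0,42,0],
   7056, 0⟩, ⟨[0,0,0,0,19,0,0,0,85], 26961, 0⟩]

theorem lk11 : chkTr lowT (leafLow 2 lowB) lt11 lc11 = true := by decide +kernel

def lt12 : Tr ℕ := (.bis 3 5 2 1 196 (.bis 2 5 2 1 154 (.bis 0 5 2 1 102 (.bis 5 7 1 1 195 (.bis
  1 4 1 1 253 (.bis 7 8 1 1 191 (.bis 4 8 1 1 248 (.bis 2 8 1 2 238 (.bis 0 8 1 2 105 (.leaf 4)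
  (.leaf 4)) (.leaf 4)) (.bis 4 6 2 1 250 (.leaf 4) (.leaf 2))) (.bis 6 7 1 2 231 (.leaf 2)
  (.leaf 29))) (.bis 1 7 1 1 192 (.bis 7 8 1 1 191 (.bis 1 6 1 1 235 (.bis 2 8 1 2 238 (.bis 0 8
  1 2 105 (.leaf 4) (.leaf 4)) (.leaf 4)) (.bis 2 8 1 2 238 (.bis 0 8 1 2 105 (.leaf 4) (.leaf
  2)) (.leaf 2))) (.bis 6 7 1 2 231 (.leaf 2) (.leaf 4))) (.bis 1 6 2 1 220 (.bis 6 7 1 1 235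
  (.bis 2 8 1 2 238 (.leaf 4) (.leaf 4)) (.bis 2 8 1 2 238 (.leaf 4) (.leaf 4))) (.bis 1 2 2 1
  155 (.bis 2 8 1 2 238 (.leaf 4) (.leaf 4)) (.leaf 4))))) (.bis 4 5 1 1 256 (.bis 1 6 2 1 220
  (.leaf 16) (.bis 1 2 2 1 155 (.leaf 16) (.leaf 16))) (.bis 1 4 1 1 253 (.bis 4 8 1 1 248 (.bis
  2 8 1 2 238 (.bis 0 8 1 2 105 (.leaf 4) (.leaf 4)) (.leaf 4)) (.leaf 29)) (.bis 1 6 2 1 220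
  (.bis 2 8 1 2 238 (.leaf 4) (.leaf 4)) (.bis 1 2 2 1 155 (.bis 2 8 1 2 238 (.leaf 4) (.leaf 4))
  (.bis 1 3 2 1 246 (.leaf 4) (.leaf 4))))))) (.bis 0 1 2 1 95 (.bis 1 4 1 1 253 (.bis 7 8 1 1
  191 (.bis 4 8 1 1 248 (.bis 0 6 1 1 228 (.bis 2 8 1 2 238 (.bis 5 8 1 2 105 (.leaf 4) (.leaf
  4)) (.leaf 4)) (.bis 0 8 1 2 97 (.bis 2 8 1 2 238 (.leaf 4) (.leaf 2)) (.leaf 2))) (.bis 4 6 2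
  1 250 (.leaf 4) (.leaf 2))) (.bis 6 7 1 2 231 (.leaf 2) (.bis 4 6 2 1 250 (.leaf 4) (.leaf
  2)))) (.bis 1 7 1 1 192 (.bis 7 8 1 1 191 (.bis 0 6 1 1 228 (.bis 1 6 1 1 235 (.bis 2 8 1 2 238
  (.bis 5 8 1 2 105 (.leaf 4) (.leaf 4)) (.leaf 4)) (.bis 2 8 1 2 238 (.bis 5 8 1 2 105 (.leaf 4)
  (.leaf 2)) (.leaf 2))) (.bis 0 8 1 2 97 (.bis 2 8 1 2 238 (.leaf 4) (.leaf 2)) (.leaf 2)))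
  (.bis 6 7 1 2 231 (.leaf 2) (.leaf 4))) (.bis 1 6 2 1 220 (.bis 0 6 1 1 228 (.bis 6 7 1 1 235
  (.bis 2 8 1 2 238 (.leaf 4) (.leaf 4)) (.bis 2 8 1 2 238 (.leaf 4) (.leaf 4))) (.bis 0 8 1 2 97
  (.bis 2 8 1 2 238 (.leaf 4) (.leaf 4)) (.leaf 4))) (.bis 1 2 2 1 155 (.bis 0 8 1 2 97 (.leaf 4)
  (.leaf 4)) (.leaf 4))))) (.bis 0 8 2 1 93 (.bis 7 8 1 1 191 (.bis 4 8 1 1 248 (.bis 1 6 1 1 228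
  (.bis 0 8 1 2 229 (.bis 2 8 1 2 238 (.leaf 4) (.leaf 4)) (.leaf 4)) (.bis 1 8 1 2 97 (.bis 0 8
  1 2 229 (.leaf 4) (.leaf 2)) (.leaf 2))) (.bis 4 6 2 1 250 (.leaf 4) (.leaf 2))) (.bis 6 7 1 2
  231 (.leaf 2) (.bis 4 6 2 1 250 (.leaf 4) (.leaf 2)))) (.bis 0 6 4 1 223 (.bis 6 7 1 2 231
  (.leaf 2) (.bis 4 6 2 1 250 (.leaf 4) (.leaf 2))) (.bis 0 3 4 1 199 (.leaf 2) (.bis 0 2 4 1 157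
  (.leaf 2) (.leaf 11))))))) (.bis 1 2 1 2 138 (.bis 2 8 2 1 139 (.bis 0 8 2 1 93 (.bis 7 8 1 1
  191 (.bis 4 8 1 1 248 (.bis 1 8 1 2 194 (.bis 2 8 1 2 226 (.leaf 4) (.leaf 4)) (.leaf 4)) (.bis
  4 6 2 1 250 (.leaf 4) (.leaf 2))) (.bis 6 7 1 2 231 (.leaf 2) (.bis 4 6 2 1 250 (.leaf 4)
  (.leaf 2)))) (.bis 0 6 4 1 223 (.bis 6 7 1 2 231 (.leaf 2) (.bis 4 6 2 1 250 (.leaf 4) (.leaf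
  2))) (.bis 0 3 4 1 199 (.leaf 2) (.bis 0 5 4 1 157 (.leaf 2) (.bis 0 1 4 1 144 (.leaf 2) (.leaf
  11)))))) (.bis 0 6 4 1 223 (.bis 2 6 4 1 227 (.bis 6 7 1 2 231 (.leaf 2) (.bis 4 6 2 1 250
  (.leaf 10) (.leaf 2))) (.bis 2 3 4 1 200 (.leaf 2) (.leaf 6))) (.bis 0 3 4 1 199 (.bis 2 3 4 1
  200 (.leaf 2) (.leaf 6)) (.bis 0 5 4 1 157 (.bis 2 4 2 1 255 (.leaf 2) (.leaf 6)) (.bis 0 1 4 1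
  144 (.leaf 6) (.leaf 11)))))) (.bis 0 1 2 1 95 (.bis 1 4 1 1 253 (.bis 7 8 1 1 191 (.bis 4 8 1
  1 248 (.bis 0 6 1 1 228 (.bis 2 8 1 2 194 (.bis 5 8 1 2 238 (.leaf 4) (.leaf 4)) (.leaf 4))
  (.bis 2 8 1 2 194 (.bis 0 8 1 2 97 (.leaf 4) (.leaf 2)) (.leaf 2))) (.bis 4 6 2 1 250 (.leaf 4)
  (.leaf 2))) (.bis 6 7 1 2 231 (.leaf 2) (.bis 4 6 2 1 250 (.leaf 4) (.leaf 2)))) (.bis 1 7 1 1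
  192 (.bis 7 8 1 1 191 (.bis 0 6 1 1 228 (.bis 2 8 1 2 194 (.bis 1 6 1 1 235 (.bis 5 8 1 2 238
  (.leaf 4) (.leaf 4)) (.bis 5 8 1 2 238 (.leaf 4) (.leaf 2))) (.leaf 4)) (.bis 2 8 1 2 194 (.bis
  0 8 1 2 97 (.bis 5 8 1 2 238 (.leaf 4) (.leaf 2)) (.leaf 2)) (.leaf 2))) (.bis 6 7 1 2 231
  (.leaf 2) (.bis 0 6 1 1 228 (.leaf 4) (.leaf 2)))) (.bis 1 6 2 1 220 (.bis 0 6 1 1 228 (.bis 2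
  8 1 2 194 (.leaf 4) (.leaf 4)) (.bis 2 8 1 2 194 (.bis 0 8 1 2 97 (.leaf 4) (.leaf 4)) (.leaf
  4))) (.bis 1 5 2 1 155 (.bis 2 8 1 2 194 (.leaf 4) (.leaf 4)) (.leaf 4))))) (.bis 0 8 2 1 93
  (.bis 7 8 1 1 191 (.bis 4 8 1 1 248 (.bis 1 6 1 1 228 (.bis 2 8 1 2 194 (.bis 0 8 1 2 229
  (.leaf 4) (.leaf 4)) (.leaf 4)) (.bis 2 8 1 2 194 (.bis 1 8 1 2 97 (.bis 0 8 1 2 229 (.leaf 4)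
  (.leaf 2)) (.leaf 2)) (.leaf 2))) (.bis 4 6 2 1 250 (.leaf 4) (.leaf 2))) (.bis 6 7 1 2 231
  (.leaf 2) (.bis 4 6 2 1 250 (.leaf 4) (.leaf 2)))) (.bis 0 6 4 1 223 (.bis 6 7 1 2 231 (.leaf
  2) (.bis 4 6 2 1 250 (.leaf 4) (.leaf 2))) (.bis 0 3 4 1 199 (.leaf 2) (.bis 0 5 4 1 157 (.leaf
  2) (.bis 0 2 4 1 144 (.leaf 2) (.leaf 11))))))))) (.bis 1 3 1 2 202 (.bis 3 8 2 1 203 (.bis 2 8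
  2 1 139 (.bis 0 8 2 1 93 (.bis 7 8 1 1 191 (.bis 4 8 1 1 248 (.bis 1 8 1 2 205 (.bis 3 8 1 2
  241 (.leaf 4) (.leaf 4)) (.leaf 4)) (.bis 4 6 2 1 250 (.leaf 4) (.leaf 2))) (.bis 6 7 1 2 231
  (.leaf 2) (.bis 4 6 2 1 250 (.leaf 4) (.leaf 2)))) (.bis 0 6 4 1 223 (.bis 6 7 1 2 231 (.leaf
  2) (.bis 4 6 2 1 250 (.leaf 4) (.leaf 2))) (.bis 0 5 4 1 199 (.leaf 2) (.bis 0 1 4 1 206 (.leaf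
  2) (.bis 0 3 4 1 207 (.leaf 2) (.bis 0 2 4 1 152 (.leaf 2) (.leaf 11))))))) (.bis 0 6 4 1 223
  (.bis 2 6 4 1 227 (.bis 6 7 1 2 231 (.leaf 2) (.bis 4 6 2 1 250 (.leaf 10) (.leaf 2))) (.bis 2
  5 4 1 200 (.leaf 2) (.bis 2 4 2 1 255 (.leaf 2) (.leaf 6)))) (.bis 0 5 4 1 199 (.bis 2 5 4 1
  200 (.leaf 2) (.bis 2 4 2 1 255 (.leaf 2) (.leaf 6))) (.bis 0 1 4 1 206 (.bis 2 4 2 1 255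
  (.leaf 2) (.leaf 6)) (.bis 0 3 4 1 207 (.bis 2 4 2 1 255 (.leaf 2) (.leaf 6)) (.bis 0 8 4 1 152
  (.bis 2 4 2 1 255 (.leaf 2) (.leaf 6)) (.bis 2 4 2 1 255 (.leaf 11) (.leaf 11)))))))) (.bis 0 6
  4 1 223 (.bis 2 6 4 1 227 (.bis 3 6 4 1 244 (.bis 6 7 1 2 231 (.leaf 2) (.bis 4 6 2 1 250
  (.leaf 10) (.leaf 2))) (.bis 0 3 1 8 245 (.leaf 6) (.leaf 2))) (.bis 2 5 4 1 200 (.bis 0 3 1 8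
  245 (.leaf 6) (.leaf 2)) (.leaf 6))) (.bis 0 5 4 1 199 (.bis 2 5 4 1 200 (.bis 3 6 8 1 245
  (.leaf 2) (.leaf 6)) (.leaf 6)) (.bis 0 3 1 1 213 (.leaf 6) (.bis 0 1 4 1 206 (.bis 2 4 2 1 255
  (.leaf 5) (.leaf 6)) (.leaf 11)))))) (.bis 1 2 1 2 138 (.bis 2 8 2 1 139 (.bis 0 8 2 1 93 (.bis
  7 8 1 1 191 (.bis 4 8 1 1 248 (.bis 3 8 1 2 205 (.bis 1 8 1 2 194 (.leaf 4) (.leaf 4)) (.bis 1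
  6 1 1 257 (.leaf 4) (.leaf 2))) (.bis 4 6 2 1 250 (.leaf 4) (.leaf 2))) (.bis 6 7 1 2 231
  (.leaf 2) (.bis 4 6 2 1 250 (.leaf 4) (.leaf 2)))) (.bis 0 6 4 1 223 (.bis 6 7 1 2 231 (.leaf
  2) (.bis 4 6 2 1 250 (.leaf 4) (.leaf 2))) (.bis 0 5 4 1 199 (.leaf 2) (.bis 0 3 4 1 206 (.leaf
  2) (.bis 0 1 4 1 144 (.leaf 2) (.leaf 11)))))) (.bis 0 6 4 1 223 (.bis 2 6 4 1 227 (.bis 6 7 1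
  2 231 (.leaf 2) (.bis 4 6 2 1 250 (.leaf 10) (.leaf 2))) (.bis 2 5 4 1 200 (.leaf 2) (.leaf
  6))) (.bis 0 5 4 1 199 (.bis 2 5 4 1 200 (.leaf 2) (.leaf 6)) (.bis 0 3 4 1 206 (.bis 2 4 2 1
  255 (.leaf 2) (.leaf 6)) (.bis 0 1 4 1 144 (.leaf 6) (.leaf 11)))))) (.bis 0 1 2 1 95 (.bis 1 4
  1 1 253 (.bis 7 8 1 1 191 (.bis 4 8 1 1 248 (.bis 0 6 1 1 228 (.bis 3 8 1 2 205 (.bis 2 8 1 2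
  194 (.leaf 4) (.leaf 4)) (.leaf 4)) (.bis 3 8 1 2 205 (.bis 2 8 1 2 194 (.bis 0 8 1 2 97 (.leaf
  4) (.leaf 2)) (.leaf 2)) (.leaf 2))) (.bis 4 6 2 1 250 (.leaf 4) (.leaf 2))) (.bis 6 7 1 2 231
  (.leaf 2) (.bis 4 6 2 1 250 (.leaf 4) (.leaf 2)))) (.bis 1 7 1 1 192 (.bis 7 8 1 1 191 (.bis 0
  6 1 1 228 (.bis 3 8 1 2 205 (.bis 2 8 1 2 194 (.leaf 4) (.leaf 4)) (.leaf 4)) (.bis 3 8 1 2 205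
  (.bis 2 8 1 2 194 (.bis 0 8 1 2 97 (.leaf 4) (.leaf 2)) (.leaf 2)) (.leaf 2))) (.bis 6 7 1 2
  231 (.leaf 2) (.bis 0 6 1 1 228 (.leaf 4) (.leaf 2)))) (.bis 1 6 2 1 220 (.bis 0 6 1 1 228
  (.bis 3 8 1 2 205 (.bis 2 8 1 2 194 (.leaf 4) (.leaf 4)) (.leaf 4)) (.bis 3 8 1 2 205 (.bis 2 8
  1 2 194 (.leaf 4) (.leaf 4)) (.leaf 4))) (.bis 1 5 2 1 246 (.bis 3 8 1 2 205 (.bis 2 8 1 2 194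
  (.leaf 4) (.leaf 4)) (.leaf 4)) (.bis 3 8 1 2 205 (.leaf 4) (.bis 1 3 2 1 258 (.leaf 4) (.leaf
  4))))))) (.bis 0 8 2 1 93 (.bis 7 8 1 1 191 (.bis 4 8 1 1 248 (.bis 1 6 1 1 228 (.bis 3 8 1 2
  205 (.bis 2 8 1 2 194 (.leaf 4) (.leaf 4)) (.leaf 4)) (.bis 3 8 1 2 205 (.bis 2 8 1 2 194 (.bis
  1 8 1 2 97 (.leaf 4) (.leaf 2)) (.leaf 2)) (.leaf 2))) (.bis 4 6 2 1 250 (.bis 1 6 1 1 228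
  (.leaf 4) (.leaf 2)) (.leaf 2))) (.bis 6 7 1 2 231 (.leaf 2) (.bis 4 6 2 1 250 (.leaf 4) (.leaf
  2)))) (.bis 0 6 4 1 223 (.bis 6 7 1 2 231 (.leaf 2) (.bis 4 6 2 1 250 (.leaf 4) (.leaf 2)))
  (.bis 0 5 4 1 199 (.leaf 2) (.bis 0 3 4 1 206 (.leaf 2) (.bis 0 2 4 1 144 (.leaf 2) (.leaf
  11))))))))))

def lc12 : List Vr := [⟨[24,0,0,0,0,0,0,0,0], 6912, 0⟩, ⟨[0,28,0,0,0,0,0,0,84], 25872, 0⟩, ⟨[0,0,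
  17,0,0,0,0,0,0], 6936, 0⟩, ⟨[0,0,0,13,0,0,0,0,0], 6760, 0⟩, ⟨[0,0,0,0,19,0,0,42,0], 33789, 0⟩,
  ⟨[0,0,0,0,0,30,0,0,94], 29760, 0⟩, ⟨[0,0,0,0,38,0,85,0,155], 206149, 0⟩, ⟨[0,0,0,13,0,0,0,42,0],
   31288, 0⟩, ⟨[0,0,0,0,19,0,0,0,85], 26961, 0⟩]

theorem lk12 : chkTr lowT (leafLow 2 lowB) lt12 lc12 = true := by decide +kernel

def lt13 : Tr ℕ := (.bis 1 4 1 2 259 (.bis 4 5 2 1 260 (.bis 3 5 2 1 196 (.bis 2 5 2 1 154 (.bis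
  0 5 2 1 102 (.bis 5 7 1 1 256 (.bis 7 8 1 1 248 (.bis 1 8 1 2 261 (.bis 4 8 1 2 262 (.leaf 4)
  (.leaf 10)) (.leaf 10)) (.bis 6 7 1 2 250 (.leaf 5) (.leaf 10))) (.bis 1 5 1 2 263 (.bis 4 5 1
  2 264 (.leaf 16) (.bis 4 8 1 2 262 (.leaf 4) (.leaf 10))) (.bis 1 8 1 2 261 (.bis 4 8 1 2 262
  (.leaf 4) (.leaf 10)) (.leaf 10)))) (.bis 0 8 2 1 93 (.bis 7 8 1 1 248 (.bis 1 8 1 2 261 (.bis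
  4 8 1 2 262 (.bis 0 8 1 2 229 (.leaf 4) (.leaf 4)) (.leaf 10)) (.leaf 10)) (.bis 6 7 1 2 250
  (.leaf 5) (.leaf 10))) (.bis 0 6 4 1 223 (.bis 6 7 1 2 250 (.leaf 5) (.leaf 10)) (.bis 0 4 4 1
  265 (.leaf 5) (.bis 0 3 4 1 199 (.leaf 2) (.bis 0 1 4 1 266 (.leaf 2) (.bis 0 2 4 1 157 (.leaf
  2) (.leaf 11)))))))) (.bis 2 8 2 1 139 (.bis 0 8 2 1 93 (.bis 7 8 1 1 248 (.bis 1 8 1 2 261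
  (.bis 4 8 1 2 262 (.bis 2 8 1 2 226 (.leaf 4) (.leaf 4)) (.leaf 10)) (.leaf 10)) (.bis 6 7 1 2
  250 (.leaf 5) (.leaf 10))) (.bis 0 6 4 1 223 (.bis 6 7 1 2 250 (.leaf 5) (.leaf 10)) (.bis 0 4
  4 1 265 (.leaf 5) (.bis 0 3 4 1 199 (.leaf 2) (.bis 0 1 4 1 266 (.leaf 2) (.bis 0 5 4 1 157
  (.leaf 2) (.leaf 11))))))) (.bis 0 6 4 1 223 (.bis 2 6 4 1 227 (.bis 6 7 1 2 250 (.leaf 5)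
  (.leaf 10)) (.bis 2 4 4 1 267 (.bis 3 7 1 2 268 (.leaf 5) (.leaf 5)) (.bis 2 3 4 1 200 (.bis 3
  7 1 2 268 (.leaf 2) (.leaf 2)) (.leaf 6)))) (.bis 0 4 4 1 265 (.bis 2 4 4 1 267 (.leaf 5) (.bis
  2 3 4 1 200 (.leaf 2) (.leaf 6))) (.bis 0 3 4 1 199 (.bis 2 3 4 1 200 (.leaf 2) (.bis 1 2 1 4
  269 (.leaf 6) (.leaf 2))) (.bis 0 1 4 1 266 (.bis 1 2 1 4 269 (.leaf 6) (.leaf 2)) (.bis 0 5 4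
  1 157 (.bis 2 7 2 1 255 (.leaf 2) (.leaf 6)) (.bis 0 8 4 1 152 (.bis 2 7 2 1 255 (.leaf 2)
  (.leaf 6)) (.bis 2 7 2 1 255 (.leaf 11) (.leaf 11)))))))))) (.bis 3 8 2 1 203 (.bis 2 8 2 1 139
  (.bis 0 8 2 1 93 (.bis 7 8 1 1 248 (.bis 1 8 1 2 261 (.bis 4 8 1 2 262 (.bis 3 8 1 2 241 (.leaf
  4) (.leaf 4)) (.leaf 10)) (.leaf 10)) (.bis 6 7 1 2 250 (.leaf 5) (.leaf 10))) (.bis 0 6 4 1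
  223 (.bis 6 7 1 2 250 (.leaf 5) (.leaf 10)) (.bis 0 4 4 1 265 (.leaf 5) (.bis 0 5 4 1 199
  (.leaf 2) (.bis 0 1 4 1 266 (.leaf 2) (.bis 0 3 4 1 207 (.leaf 2) (.bis 0 2 4 1 152 (.leaf 2)
  (.leaf 11)))))))) (.bis 0 6 4 1 223 (.bis 2 6 4 1 227 (.bis 6 7 1 2 250 (.leaf 5) (.leaf 10))
  (.bis 2 4 4 1 267 (.bis 5 7 1 2 268 (.leaf 5) (.leaf 5)) (.bis 2 5 4 1 200 (.leaf 2) (.bis 1 2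
  1 4 269 (.leaf 6) (.leaf 2))))) (.bis 0 4 4 1 265 (.bis 2 4 4 1 267 (.leaf 5) (.bis 2 5 4 1 200
  (.leaf 2) (.bis 1 2 1 4 269 (.leaf 6) (.leaf 2)))) (.bis 0 5 4 1 199 (.bis 2 5 4 1 200 (.leaf
  2) (.bis 1 2 1 4 269 (.leaf 6) (.leaf 2))) (.bis 0 1 4 1 266 (.bis 1 2 1 4 269 (.leaf 6) (.leaf
  2)) (.bis 0 3 4 1 207 (.bis 2 7 2 1 255 (.leaf 2) (.leaf 6)) (.bis 0 8 4 1 152 (.bis 2 7 2 1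
  255 (.leaf 2) (.leaf 6)) (.bis 2 7 2 1 255 (.leaf 11) (.leaf 11))))))))) (.bis 0 6 4 1 223
  (.bis 2 6 4 1 227 (.bis 3 6 4 1 244 (.bis 6 7 1 2 250 (.bis 5 7 1 2 268 (.leaf 5) (.leaf 5))
  (.leaf 10)) (.bis 0 3 1 8 245 (.bis 3 4 4 1 270 (.bis 5 7 1 2 268 (.leaf 5) (.leaf 5)) (.bis 3
  7 2 1 271 (.leaf 5) (.leaf 6))) (.bis 5 7 1 2 268 (.leaf 5) (.leaf 5)))) (.bis 2 4 4 1 267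
  (.bis 0 3 1 8 245 (.bis 3 4 4 1 270 (.bis 5 7 1 2 268 (.leaf 5) (.leaf 5)) (.bis 3 7 2 1 271
  (.leaf 5) (.leaf 6))) (.leaf 5)) (.bis 2 5 4 1 200 (.bis 0 3 1 8 245 (.leaf 6) (.leaf 2))
  (.leaf 6)))) (.bis 0 4 4 1 265 (.bis 2 4 4 1 267 (.bis 3 6 8 1 245 (.leaf 5) (.bis 3 4 4 1 270
  (.leaf 5) (.leaf 6))) (.bis 2 5 4 1 200 (.bis 3 6 8 1 245 (.leaf 2) (.leaf 6)) (.leaf 6)))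
  (.bis 0 5 4 1 199 (.bis 2 5 4 1 200 (.bis 3 6 8 1 245 (.leaf 2) (.leaf 6)) (.leaf 6)) (.bis 0 1
  4 1 266 (.bis 3 6 8 1 245 (.bis 1 2 1 4 269 (.leaf 6) (.leaf 2)) (.leaf 6)) (.bis 0 3 1 1 213
  (.leaf 6) (.leaf 11)))))))) (.bis 4 8 2 1 272 (.bis 3 8 2 1 203 (.bis 2 8 2 1 139 (.bis 0 8 2 1
  93 (.bis 7 8 1 1 248 (.bis 1 8 1 2 261 (.bis 4 8 1 2 273 (.bis 5 8 1 2 262 (.leaf 4) (.leaf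
  10)) (.leaf 10)) (.leaf 10)) (.bis 6 7 1 2 250 (.leaf 5) (.leaf 10))) (.bis 0 6 4 1 223 (.bis 6
  7 1 2 250 (.leaf 5) (.leaf 10)) (.bis 0 5 4 1 265 (.leaf 5) (.bis 0 4 4 1 274 (.leaf 5) (.bis 0
  1 4 1 266 (.leaf 2) (.bis 0 3 4 1 207 (.leaf 2) (.bis 0 2 4 1 152 (.leaf 2) (.leaf 11))))))))
  (.bis 0 6 4 1 223 (.bis 2 6 4 1 227 (.bis 6 7 1 2 250 (.leaf 5) (.leaf 10)) (.bis 2 5 4 1 267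
  (.leaf 5) (.bis 2 4 4 1 275 (.leaf 5) (.bis 1 2 1 4 269 (.leaf 6) (.leaf 5))))) (.bis 0 5 4 1
  265 (.bis 2 5 4 1 267 (.leaf 5) (.bis 2 4 4 1 275 (.leaf 5) (.bis 1 2 1 4 269 (.leaf 6) (.leaf
  5)))) (.bis 0 4 4 1 274 (.bis 2 4 4 1 275 (.leaf 5) (.bis 1 2 1 4 269 (.leaf 6) (.leaf 5)))
  (.bis 0 1 4 1 266 (.bis 1 2 1 4 269 (.bis 2 7 2 1 255 (.leaf 2) (.leaf 6)) (.leaf 2)) (.bis 0 3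
  4 1 207 (.bis 2 7 2 1 255 (.leaf 2) (.leaf 6)) (.bis 0 8 4 1 152 (.bis 2 7 2 1 255 (.leaf 2)
  (.leaf 6)) (.bis 2 7 2 1 255 (.leaf 11) (.leaf 11))))))))) (.bis 0 6 4 1 223 (.bis 2 6 4 1 227
  (.bis 3 6 4 1 244 (.bis 6 7 1 2 250 (.leaf 5) (.leaf 10)) (.bis 0 3 1 8 245 (.bis 3 5 4 1 270
  (.bis 5 7 1 2 276 (.leaf 5) (.leaf 5)) (.bis 3 7 2 1 271 (.leaf 5) (.leaf 6))) (.bis 5 7 1 2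
  276 (.leaf 5) (.leaf 5)))) (.bis 2 5 4 1 267 (.bis 0 3 1 8 245 (.bis 3 5 4 1 270 (.bis 5 7 1 2
  276 (.leaf 5) (.leaf 5)) (.leaf 6)) (.leaf 5)) (.bis 2 4 4 1 275 (.bis 0 3 1 8 245 (.leaf 6)
  (.leaf 5)) (.leaf 6)))) (.bis 0 5 4 1 265 (.bis 2 5 4 1 267 (.bis 3 6 8 1 245 (.leaf 5) (.bis 3
  5 4 1 270 (.leaf 5) (.leaf 6))) (.bis 2 4 4 1 275 (.bis 3 6 8 1 245 (.leaf 5) (.leaf 6)) (.leaf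
  6))) (.bis 0 4 4 1 274 (.bis 2 4 4 1 275 (.bis 3 6 8 1 245 (.leaf 5) (.leaf 6)) (.leaf 6))
  (.bis 0 1 4 1 266 (.bis 3 6 8 1 245 (.bis 1 2 1 4 269 (.leaf 6) (.leaf 2)) (.leaf 6)) (.bis 0 3
  1 1 213 (.leaf 6) (.leaf 11))))))) (.bis 0 6 4 1 223 (.bis 2 6 4 1 227 (.bis 3 6 4 1 244 (.bis
  4 6 4 1 277 (.bis 6 7 1 2 250 (.bis 5 7 1 2 276 (.leaf 5) (.leaf 5)) (.leaf 42)) (.bis 0 4 1 8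
  278 (.bis 4 7 2 1 279 (.leaf 5) (.leaf 22)) (.bis 5 7 1 2 276 (.leaf 5) (.leaf 5)))) (.bis 0 4
  1 8 278 (.bis 3 5 4 1 270 (.bis 4 7 2 1 279 (.leaf 5) (.leaf 22)) (.bis 4 7 2 1 279 (.leaf 6)
  (.leaf 22))) (.bis 0 3 1 8 245 (.bis 3 5 4 1 270 (.bis 5 7 1 2 276 (.leaf 5) (.leaf 5)) (.leaf
  6)) (.leaf 5)))) (.bis 2 5 4 1 267 (.bis 0 4 1 8 278 (.bis 3 5 4 1 270 (.bis 4 7 2 1 279 (.leaf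
  5) (.leaf 22)) (.bis 4 7 2 1 279 (.leaf 6) (.leaf 22))) (.bis 0 3 1 8 245 (.bis 3 5 4 1 270
  (.leaf 5) (.leaf 6)) (.leaf 5))) (.bis 0 4 1 8 278 (.bis 2 8 4 1 275 (.leaf 22) (.leaf 22))
  (.bis 2 8 4 1 275 (.bis 0 3 1 8 245 (.leaf 6) (.leaf 5)) (.leaf 6))))) (.bis 0 4 1 1 280 (.bis
  2 5 4 1 267 (.leaf 22) (.leaf 22)) (.bis 0 5 4 1 265 (.bis 2 5 4 1 267 (.bis 3 6 8 1 245 (.leaf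
  5) (.leaf 6)) (.leaf 6)) (.bis 0 8 4 1 274 (.bis 2 8 4 1 275 (.bis 3 6 8 1 245 (.leaf 5) (.leaf
  6)) (.leaf 6)) (.bis 0 1 4 1 266 (.leaf 6) (.bis 0 3 1 1 213 (.leaf 6) (.leaf 11))))))))) (.bis
  3 5 2 1 196 (.bis 2 5 2 1 154 (.bis 0 5 2 1 102 (.bis 5 7 1 1 256 (.bis 1 7 1 1 253 (.bis 7 8 1
  1 248 (.bis 4 8 1 2 261 (.bis 2 8 1 2 238 (.leaf 4) (.leaf 4)) (.leaf 10)) (.leaf 42)) (.bis 1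
  6 2 1 220 (.bis 4 8 1 2 261 (.leaf 4) (.leaf 10)) (.bis 1 4 2 1 281 (.bis 4 8 1 2 261 (.leaf 4)
  (.leaf 10)) (.bis 1 2 2 1 155 (.leaf 4) (.leaf 4))))) (.bis 4 5 1 2 263 (.bis 1 6 2 1 220
  (.leaf 16) (.bis 1 2 2 1 155 (.leaf 16) (.leaf 16))) (.bis 1 6 2 1 220 (.bis 4 8 1 2 261 (.leaf
  4) (.leaf 10)) (.bis 1 4 2 1 281 (.bis 4 8 1 2 261 (.leaf 4) (.leaf 10)) (.bis 1 2 2 1 155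
  (.leaf 4) (.leaf 4)))))) (.bis 0 1 2 1 95 (.bis 1 7 1 1 253 (.bis 7 8 1 1 248 (.bis 0 6 1 1 228
  (.bis 4 8 1 2 261 (.bis 2 8 1 2 238 (.leaf 4) (.leaf 4)) (.leaf 10)) (.bis 0 8 1 2 97 (.bis 4 8
  1 2 261 (.bis 2 8 1 2 238 (.leaf 4) (.leaf 2)) (.leaf 2)) (.leaf 2))) (.bis 6 7 1 2 250 (.leaf
  2) (.leaf 10))) (.bis 1 6 2 1 220 (.bis 0 6 1 1 228 (.bis 4 8 1 2 261 (.bis 2 8 1 2 238 (.leaf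
  4) (.leaf 4)) (.leaf 10)) (.bis 0 8 1 2 97 (.bis 4 8 1 2 261 (.leaf 4) (.leaf 10)) (.leaf 10)))
  (.bis 1 4 2 1 281 (.bis 0 8 1 2 97 (.bis 4 8 1 2 261 (.leaf 4) (.leaf 10)) (.leaf 10)) (.bis 1
  2 2 1 155 (.bis 0 8 1 2 97 (.leaf 4) (.leaf 4)) (.leaf 4))))) (.bis 0 8 2 1 93 (.bis 7 8 1 1
  248 (.bis 1 6 1 1 228 (.bis 4 8 1 2 261 (.bis 0 8 1 2 229 (.leaf 4) (.leaf 4)) (.leaf 10))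
  (.bis 1 8 1 2 97 (.bis 4 8 1 2 261 (.bis 0 8 1 2 229 (.leaf 4) (.leaf 2)) (.leaf 2)) (.leaf
  2))) (.bis 6 7 1 2 250 (.leaf 2) (.leaf 10))) (.bis 0 6 4 1 223 (.bis 6 7 1 2 250 (.leaf 2)
  (.leaf 10)) (.bis 0 3 4 1 199 (.leaf 2) (.bis 0 4 4 1 266 (.leaf 2) (.bis 0 2 4 1 157 (.leaf 2)
  (.leaf 11)))))))) (.bis 1 2 1 2 138 (.bis 2 8 2 1 139 (.bis 0 8 2 1 93 (.bis 7 8 1 1 248 (.bis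
  1 8 1 2 194 (.bis 4 8 1 2 261 (.bis 2 8 1 2 226 (.leaf 4) (.leaf 4)) (.leaf 10)) (.leaf 10))
  (.bis 6 7 1 2 250 (.leaf 2) (.leaf 10))) (.bis 0 6 4 1 223 (.bis 6 7 1 2 250 (.leaf 2) (.leaf
  10)) (.bis 0 3 4 1 199 (.leaf 2) (.bis 0 4 4 1 266 (.leaf 2) (.bis 0 5 4 1 157 (.leaf 2) (.bis
  0 1 4 1 144 (.leaf 2) (.leaf 11))))))) (.bis 0 6 4 1 223 (.bis 2 6 4 1 227 (.bis 6 7 1 2 250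
  (.leaf 2) (.leaf 10)) (.bis 2 3 4 1 200 (.bis 1 7 1 2 282 (.leaf 2) (.leaf 2)) (.bis 2 4 4 1
  269 (.bis 1 7 1 2 282 (.leaf 2) (.leaf 2)) (.bis 2 7 2 1 255 (.leaf 2) (.leaf 6))))) (.bis 0 3
  4 1 199 (.bis 2 3 4 1 200 (.leaf 2) (.bis 2 4 4 1 269 (.leaf 2) (.leaf 6))) (.bis 0 4 4 1 266
  (.bis 2 4 4 1 269 (.leaf 2) (.leaf 6)) (.bis 0 5 4 1 157 (.bis 2 7 2 1 255 (.leaf 2) (.leaf 6))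
  (.bis 0 1 4 1 144 (.leaf 6) (.leaf 11))))))) (.bis 0 1 2 1 95 (.bis 1 7 1 1 253 (.bis 7 8 1 1
  248 (.bis 0 6 1 1 228 (.bis 2 8 1 2 194 (.bis 4 8 1 2 261 (.leaf 4) (.leaf 10)) (.leaf 10))
  (.bis 2 8 1 2 194 (.bis 0 8 1 2 97 (.bis 4 8 1 2 261 (.leaf 4) (.leaf 2)) (.leaf 2)) (.leaf
  2))) (.bis 6 7 1 2 250 (.leaf 2) (.leaf 10))) (.bis 1 6 2 1 220 (.bis 0 6 1 1 228 (.bis 2 8 1 2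
  194 (.bis 4 8 1 2 261 (.leaf 4) (.leaf 10)) (.leaf 10)) (.bis 2 8 1 2 194 (.bis 0 8 1 2 97
  (.leaf 10) (.leaf 10)) (.leaf 10))) (.bis 1 4 2 1 281 (.bis 2 8 1 2 194 (.bis 0 8 1 2 97 (.leaf
  10) (.leaf 10)) (.leaf 10)) (.bis 1 5 2 1 155 (.bis 2 8 1 2 194 (.leaf 4) (.leaf 4)) (.leaf
  4))))) (.bis 0 8 2 1 93 (.bis 7 8 1 1 248 (.bis 1 6 1 1 228 (.bis 2 8 1 2 194 (.bis 4 8 1 2 261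
  (.bis 0 8 1 2 229 (.leaf 4) (.leaf 4)) (.leaf 10)) (.leaf 10)) (.bis 2 8 1 2 194 (.bis 1 8 1 2
  97 (.bis 4 8 1 2 261 (.leaf 4) (.leaf 2)) (.leaf 2)) (.leaf 2))) (.bis 6 7 1 2 250 (.leaf 2)
  (.leaf 10))) (.bis 0 6 4 1 223 (.bis 6 7 1 2 250 (.leaf 2) (.leaf 10)) (.bis 0 3 4 1 199 (.leaf
  2) (.bis 0 4 4 1 266 (.leaf 2) (.bis 0 5 4 1 157 (.leaf 2) (.bis 0 2 4 1 144 (.leaf 2) (.leaf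
  11)))))))))) (.bis 1 3 1 2 202 (.bis 3 8 2 1 203 (.bis 2 8 2 1 139 (.bis 0 8 2 1 93 (.bis 7 8 1
  1 248 (.bis 1 8 1 2 205 (.bis 4 8 1 2 261 (.bis 3 8 1 2 241 (.leaf 4) (.leaf 4)) (.leaf 10))
  (.leaf 10)) (.bis 6 7 1 2 250 (.leaf 2) (.leaf 10))) (.bis 0 6 4 1 223 (.bis 6 7 1 2 250 (.leaf
  2) (.leaf 10)) (.bis 0 5 4 1 199 (.leaf 2) (.bis 0 4 4 1 266 (.leaf 2) (.bis 0 1 4 1 206 (.leaf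
  2) (.bis 0 3 4 1 207 (.leaf 2) (.leaf 11))))))) (.bis 0 6 4 1 223 (.bis 2 6 4 1 227 (.bis 6 7 1
  2 250 (.leaf 2) (.leaf 10)) (.bis 2 5 4 1 200 (.bis 1 7 1 2 283 (.leaf 2) (.leaf 2)) (.bis 2 4
  4 1 269 (.leaf 2) (.leaf 6)))) (.bis 0 5 4 1 199 (.bis 2 5 4 1 200 (.leaf 2) (.bis 2 4 4 1 269
  (.leaf 2) (.leaf 6))) (.bis 0 4 4 1 266 (.bis 2 4 4 1 269 (.leaf 2) (.bis 2 7 2 1 255 (.leaf 2)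
  (.leaf 6))) (.bis 0 1 4 1 206 (.bis 2 7 2 1 255 (.leaf 2) (.leaf 6)) (.bis 0 3 4 1 207 (.bis 2
  7 2 1 255 (.leaf 2) (.leaf 6)) (.leaf 11))))))) (.bis 0 6 4 1 223 (.bis 2 6 4 1 227 (.bis 3 6 4
  1 244 (.bis 6 7 1 2 250 (.leaf 2) (.leaf 10)) (.bis 0 3 1 8 245 (.bis 3 7 2 1 271 (.leaf 5)
  (.leaf 6)) (.bis 1 7 1 2 283 (.leaf 2) (.leaf 2)))) (.bis 2 5 4 1 200 (.bis 0 3 1 8 245 (.bis 3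
  7 2 1 271 (.leaf 5) (.leaf 6)) (.leaf 2)) (.leaf 6))) (.bis 0 5 4 1 199 (.bis 2 5 4 1 200 (.bis
  3 6 8 1 245 (.leaf 2) (.leaf 6)) (.leaf 6)) (.bis 0 4 4 1 266 (.bis 3 6 8 1 245 (.bis 2 4 4 1
  269 (.leaf 2) (.leaf 6)) (.leaf 6)) (.bis 0 3 1 1 213 (.leaf 6) (.bis 0 1 4 1 206 (.leaf 6)
  (.leaf 11))))))) (.bis 1 2 1 2 138 (.bis 2 8 2 1 139 (.bis 0 8 2 1 93 (.bis 7 8 1 1 248 (.bis 3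
  8 1 2 205 (.bis 1 8 1 2 194 (.bis 4 8 1 2 261 (.leaf 4) (.leaf 10)) (.leaf 10)) (.leaf 10))
  (.bis 6 7 1 2 250 (.leaf 2) (.leaf 10))) (.bis 0 6 4 1 223 (.bis 6 7 1 2 250 (.leaf 2) (.leaf
  10)) (.bis 0 5 4 1 199 (.leaf 2) (.bis 0 4 4 1 266 (.leaf 2) (.bis 0 3 4 1 206 (.leaf 2) (.bis
  0 1 4 1 144 (.leaf 2) (.leaf 11))))))) (.bis 0 6 4 1 223 (.bis 2 6 4 1 227 (.bis 6 7 1 2 250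
  (.leaf 2) (.leaf 10)) (.bis 2 5 4 1 200 (.bis 3 7 1 2 283 (.leaf 2) (.leaf 2)) (.bis 2 4 4 1
  269 (.bis 3 7 1 2 283 (.leaf 2) (.leaf 2)) (.bis 2 7 2 1 255 (.leaf 2) (.leaf 6))))) (.bis 0 5
  4 1 199 (.bis 2 5 4 1 200 (.leaf 2) (.bis 2 4 4 1 269 (.leaf 2) (.leaf 6))) (.bis 0 4 4 1 266
  (.bis 2 4 4 1 269 (.leaf 2) (.leaf 6)) (.bis 0 3 4 1 206 (.bis 2 7 2 1 255 (.leaf 2) (.leaf 6))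
  (.bis 0 1 4 1 144 (.leaf 6) (.leaf 11))))))) (.bis 0 1 2 1 95 (.bis 1 7 1 1 253 (.bis 7 8 1 1
  248 (.bis 0 6 1 1 228 (.bis 3 8 1 2 205 (.bis 2 8 1 2 194 (.bis 4 8 1 2 261 (.leaf 4) (.leaf
  10)) (.leaf 10)) (.leaf 10)) (.bis 3 8 1 2 205 (.bis 2 8 1 2 194 (.bis 0 8 1 2 97 (.leaf 10)
  (.leaf 2)) (.leaf 2)) (.leaf 2))) (.bis 6 7 1 2 250 (.leaf 2) (.leaf 10))) (.bis 1 6 2 1 220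
  (.bis 0 6 1 1 228 (.bis 3 8 1 2 205 (.bis 2 8 1 2 194 (.leaf 10) (.leaf 10)) (.leaf 10)) (.bis
  3 8 1 2 205 (.bis 2 8 1 2 194 (.leaf 10) (.leaf 10)) (.leaf 10))) (.bis 1 4 2 1 281 (.bis 3 8 1
  2 205 (.bis 2 8 1 2 194 (.leaf 10) (.leaf 10)) (.leaf 10)) (.bis 1 5 2 1 246 (.bis 3 8 1 2 205
  (.leaf 4) (.leaf 4)) (.leaf 4))))) (.bis 0 8 2 1 93 (.bis 7 8 1 1 248 (.bis 1 6 1 1 228 (.bis 3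
  8 1 2 205 (.bis 2 8 1 2 194 (.bis 4 8 1 2 261 (.leaf 4) (.leaf 10)) (.leaf 10)) (.leaf 10))
  (.bis 3 8 1 2 205 (.bis 2 8 1 2 194 (.bis 1 8 1 2 97 (.leaf 10) (.leaf 2)) (.leaf 2)) (.leaf
  2))) (.bis 6 7 1 2 250 (.leaf 2) (.leaf 10))) (.bis 0 6 4 1 223 (.bis 6 7 1 2 250 (.leaf 2)
  (.leaf 10)) (.bis 0 5 4 1 199 (.leaf 2) (.bis 0 4 4 1 266 (.leaf 2) (.bis 0 3 4 1 206 (.leaf 2)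
  (.bis 0 2 4 1 144 (.leaf 2) (.leaf 11))))))))))))

def lc13 : List Vr := [⟨[24,0,0,0,0,0,0,0,0], 6912, 0⟩, ⟨[0,28,0,0,0,0,0,0,84], 25872, 0⟩, ⟨[0,0,
  17,0,0,0,0,0,0], 6936, 0⟩, ⟨[0,0,0,13,0,0,0,0,0], 6760, 0⟩, ⟨[0,0,0,0,19,0,0,0,0], 7581, 0⟩,
  ⟨[0,0,0,0,0,30,0,0,94], 29760, 0⟩, ⟨[0,0,0,0,38,0,85,0,155], 206149, 0⟩, ⟨[0,0,0,0,19,0,0,42,0],
   33789, 0⟩, ⟨[0,0,0,0,19,0,0,0,85], 26961, 0⟩]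

theorem lk13 : chkTr lowT (leafLow 2 lowB) lt13 lc13 = true := by decide +kernel

def lt14 : Tr ℕ := (.bis 0 6 4 1 50 (.bis 6 7 1 4 18 (.bis 5 7 1 2 19 (.bis 7 8 2 1 20 (.bis 1 6
  1 1 285 (.bis 4 7 1 1 218 (.bis 6 8 1 4 31 (.bis 3 7 1 2 160 (.bis 0 8 1 4 59 (.bis 2 8 1 4 119
  (.leaf 4) (.leaf 4)) (.leaf 4)) (.bis 0 8 1 4 59 (.bis 2 8 1 4 119 (.bis 3 8 1 4 170 (.leaf 4)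
  (.leaf 4)) (.leaf 4)) (.leaf 4))) (.leaf 38)) (.bis 6 8 1 4 31 (.bis 0 8 1 4 59 (.bis 2 8 1 4
  119 (.bis 3 8 1 4 170 (.leaf 4) (.bis 3 5 1 2 165 (.leaf 4) (.leaf 4))) (.bis 3 5 1 2 165
  (.leaf 4) (.leaf 4))) (.bis 3 5 1 2 165 (.leaf 4) (.leaf 4))) (.leaf 38))) (.bis 4 7 1 1 218
  (.bis 1 5 1 2 286 (.bis 3 7 1 2 160 (.bis 0 8 1 4 59 (.bis 2 8 1 4 119 (.bis 5 8 1 2 39 (.leaf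
  4) (.leaf 2)) (.leaf 2)) (.leaf 2)) (.bis 0 8 1 4 59 (.bis 2 8 1 4 119 (.bis 3 8 1 4 170 (.leaf
  4) (.leaf 2)) (.bis 3 5 1 2 165 (.leaf 2) (.leaf 2))) (.bis 3 5 1 2 165 (.leaf 2) (.leaf 2))))
  (.bis 1 7 1 2 287 (.bis 3 7 1 2 160 (.bis 0 8 1 4 59 (.bis 2 8 1 4 119 (.bis 7 8 1 2 98 (.leaf
  4) (.leaf 4)) (.leaf 2)) (.leaf 2)) (.bis 0 8 1 4 59 (.bis 2 8 1 4 119 (.bis 3 8 1 4 170 (.leaf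
  4) (.leaf 2)) (.leaf 2)) (.leaf 2))) (.bis 0 8 1 4 59 (.bis 2 8 1 4 119 (.bis 3 8 1 4 170 (.bis
  1 8 1 4 288 (.leaf 4) (.leaf 10)) (.leaf 10)) (.leaf 10)) (.leaf 10)))) (.bis 1 5 1 2 286 (.bis
  0 8 1 4 59 (.bis 2 8 1 4 119 (.bis 3 8 1 4 170 (.bis 4 8 1 2 220 (.leaf 4) (.bis 4 5 1 1 219
  (.leaf 4) (.leaf 4))) (.bis 3 5 1 2 165 (.leaf 4) (.leaf 4))) (.bis 3 5 1 2 165 (.leaf 4)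
  (.leaf 4))) (.bis 3 5 1 2 165 (.leaf 4) (.leaf 4))) (.bis 0 8 1 4 59 (.bis 2 8 1 4 119 (.bis 3
  8 1 4 170 (.bis 4 8 1 2 220 (.leaf 39) (.leaf 10)) (.leaf 10)) (.leaf 10)) (.leaf 10))))) (.bis
  4 7 1 4 215 (.bis 1 7 1 8 289 (.bis 3 7 1 8 167 (.bis 2 7 1 8 116 (.bis 0 7 1 8 54 (.bis 4 7 1
  8 217 (.bis 5 7 1 4 26 (.bis 6 7 1 8 27 (.leaf 32) (.leaf 14)) (.leaf 14)) (.leaf 14)) (.bis 0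
  8 1 2 53 (.leaf 14) (.leaf 14))) (.bis 2 8 1 2 111 (.leaf 14) (.leaf 26))) (.bis 3 8 1 2 160
  (.bis 2 8 1 2 111 (.leaf 14) (.leaf 26)) (.leaf 26))) (.bis 1 6 1 1 285 (.leaf 38) (.bis 1 5 1
  2 286 (.leaf 2) (.bis 1 8 1 2 287 (.leaf 2) (.leaf 5))))) (.bis 1 6 1 1 285 (.bis 4 8 1 1 218
  (.leaf 38) (.leaf 38)) (.bis 4 8 1 1 218 (.bis 1 5 1 2 286 (.leaf 2) (.bis 1 8 1 2 287 (.bis 3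
  8 1 2 160 (.leaf 2) (.leaf 2)) (.leaf 5))) (.bis 1 5 1 2 286 (.bis 3 5 1 2 165 (.leaf 4) (.leaf
  4)) (.leaf 9)))))) (.bis 1 5 1 4 290 (.bis 6 8 1 4 31 (.bis 0 8 1 4 59 (.bis 2 8 1 4 119 (.bis
  3 8 1 4 170 (.bis 4 8 1 2 220 (.bis 7 8 1 2 39 (.leaf 16) (.leaf 16)) (.bis 4 7 1 1 219 (.leaf
  16) (.leaf 16))) (.bis 3 5 1 4 168 (.bis 4 7 1 1 219 (.leaf 16) (.leaf 16)) (.bis 3 7 1 2 165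
  (.leaf 4) (.leaf 4)))) (.bis 2 5 1 4 121 (.bis 3 5 1 4 168 (.bis 4 7 1 1 219 (.leaf 16) (.leaf
  16)) (.bis 3 7 1 2 165 (.leaf 4) (.leaf 4))) (.bis 3 7 1 2 165 (.bis 4 7 1 1 219 (.leaf 4)
  (.leaf 4)) (.leaf 4)))) (.bis 0 5 1 4 61 (.bis 2 5 1 4 121 (.bis 3 5 1 4 168 (.bis 4 7 1 1 219
  (.leaf 16) (.leaf 16)) (.bis 3 7 1 2 165 (.leaf 4) (.leaf 4))) (.bis 3 7 1 2 165 (.leaf 4)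
  (.leaf 4))) (.bis 3 7 1 2 165 (.leaf 4) (.leaf 4)))) (.bis 5 6 4 1 40 (.leaf 38) (.bis 0 5 1 4
  61 (.bis 2 5 1 4 121 (.leaf 16) (.bis 3 7 1 2 165 (.leaf 4) (.leaf 4))) (.bis 3 7 1 2 165
  (.leaf 4) (.leaf 4))))) (.bis 1 6 1 1 285 (.bis 6 8 1 4 31 (.bis 0 8 1 4 59 (.bis 2 8 1 4 119
  (.bis 3 8 1 4 170 (.bis 4 8 1 2 220 (.bis 7 8 1 2 39 (.leaf 4) (.leaf 4)) (.bis 4 7 1 1 219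
  (.leaf 4) (.leaf 4))) (.bis 3 7 1 2 165 (.leaf 4) (.leaf 4))) (.bis 3 7 1 2 165 (.leaf 4)
  (.leaf 4))) (.bis 3 7 1 2 165 (.leaf 4) (.leaf 4))) (.bis 3 6 1 1 162 (.leaf 38) (.bis 3 7 1 2
  165 (.leaf 4) (.leaf 4)))) (.bis 1 7 1 2 286 (.bis 0 8 1 4 59 (.bis 2 8 1 4 119 (.bis 3 8 1 4
  170 (.bis 4 8 1 2 220 (.bis 7 8 1 2 39 (.leaf 4) (.leaf 4)) (.bis 4 7 1 1 219 (.leaf 4) (.leaf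
  4))) (.bis 3 7 1 2 165 (.bis 4 7 1 1 219 (.leaf 4) (.leaf 4)) (.leaf 4))) (.bis 3 7 1 2 165
  (.bis 4 7 1 1 219 (.leaf 4) (.leaf 4)) (.leaf 4))) (.bis 3 7 1 2 165 (.bis 4 7 1 1 219 (.leaf
  4) (.leaf 4)) (.leaf 4))) (.bis 0 8 1 4 59 (.bis 2 8 1 4 119 (.bis 3 8 1 4 170 (.bis 4 8 1 2
  220 (.leaf 39) (.leaf 10)) (.leaf 10)) (.leaf 10)) (.leaf 10)))))) (.bis 1 6 1 2 291 (.bis 3 6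
  1 2 171 (.bis 2 6 1 2 122 (.bis 6 8 1 2 47 (.bis 7 8 1 4 31 (.bis 0 8 1 4 59 (.leaf 16) (.leaf
  16)) (.bis 5 7 4 1 40 (.bis 4 7 1 1 221 (.leaf 23) (.leaf 4)) (.leaf 16))) (.bis 0 6 1 2 66
  (.bis 6 7 2 1 48 (.bis 5 7 4 1 40 (.bis 4 7 1 1 221 (.bis 7 8 1 1 49 (.leaf 4) (.bis 1 7 1 2
  292 (.leaf 23) (.leaf 4))) (.leaf 4)) (.leaf 16)) (.leaf 37)) (.bis 5 7 4 1 40 (.bis 4 7 1 1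
  221 (.bis 7 8 1 1 49 (.leaf 4) (.bis 1 7 1 2 292 (.leaf 23) (.leaf 4))) (.leaf 4)) (.leaf
  16)))) (.bis 7 8 1 4 31 (.bis 0 8 1 4 59 (.bis 2 8 1 4 119 (.leaf 16) (.bis 2 5 1 4 121 (.leaf
  16) (.leaf 4))) (.bis 0 5 1 4 61 (.leaf 16) (.leaf 4))) (.bis 5 7 4 1 40 (.bis 4 7 1 1 221
  (.bis 1 7 1 2 292 (.leaf 23) (.leaf 4)) (.leaf 4)) (.bis 0 5 1 4 61 (.leaf 16) (.leaf 4)))))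
  (.bis 7 8 1 4 31 (.bis 0 8 1 4 59 (.bis 2 8 1 4 119 (.leaf 16) (.bis 2 5 1 4 121 (.leaf 16)
  (.leaf 4))) (.bis 0 5 1 4 61 (.bis 2 5 1 4 121 (.leaf 16) (.leaf 4)) (.leaf 4))) (.bis 5 7 4 1
  40 (.bis 3 7 1 1 162 (.bis 4 7 1 1 221 (.leaf 23) (.leaf 4)) (.leaf 4)) (.bis 0 5 1 4 61 (.leaf
  16) (.leaf 4))))) (.bis 1 5 1 4 290 (.bis 7 8 1 4 31 (.bis 0 8 1 4 59 (.bis 2 8 1 4 119 (.leaf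
  16) (.bis 2 5 1 4 121 (.leaf 16) (.leaf 4))) (.bis 0 5 1 4 61 (.bis 2 5 1 4 121 (.leaf 16)
  (.leaf 4)) (.leaf 4))) (.bis 5 7 4 1 40 (.bis 3 7 1 1 162 (.bis 4 7 1 1 221 (.leaf 23) (.leaf
  4)) (.leaf 4)) (.bis 0 5 1 4 61 (.leaf 16) (.leaf 4)))) (.bis 1 7 1 1 285 (.bis 7 8 1 4 31
  (.bis 0 8 1 4 59 (.bis 2 8 1 4 119 (.bis 3 8 1 4 170 (.leaf 4) (.leaf 4)) (.leaf 4)) (.leaf 4))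
  (.bis 3 7 1 1 162 (.bis 4 7 1 1 221 (.leaf 23) (.leaf 4)) (.leaf 4))) (.bis 0 8 1 4 59 (.bis 2
  8 1 4 119 (.bis 3 8 1 4 170 (.bis 4 8 1 2 220 (.leaf 73) (.leaf 10)) (.leaf 10)) (.leaf 10))
  (.leaf 10)))))) (.bis 5 7 1 2 19 (.bis 7 8 2 1 20 (.bis 0 8 2 1 95 (.bis 4 7 1 1 218 (.bis 1 5
  1 2 286 (.bis 3 7 1 2 160 (.bis 6 8 1 4 59 (.bis 2 8 1 4 119 (.bis 5 8 1 2 39 (.leaf 4) (.leaf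
  2)) (.leaf 2)) (.leaf 2)) (.bis 6 8 1 4 59 (.bis 2 8 1 4 119 (.bis 3 8 1 4 170 (.leaf 4) (.leaf
  2)) (.bis 3 5 1 2 165 (.leaf 2) (.leaf 2))) (.bis 3 5 1 2 165 (.leaf 2) (.leaf 2)))) (.bis 1 7
  1 2 287 (.bis 3 7 1 2 160 (.bis 6 8 1 4 59 (.bis 2 8 1 4 119 (.bis 7 8 1 2 98 (.leaf 4) (.leaf
  4)) (.leaf 2)) (.leaf 2)) (.bis 6 8 1 4 59 (.bis 2 8 1 4 119 (.bis 3 8 1 4 170 (.leaf 4) (.leaf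
  2)) (.leaf 2)) (.leaf 2))) (.bis 6 8 1 4 59 (.bis 2 8 1 4 119 (.bis 3 8 1 4 170 (.leaf 39)
  (.leaf 10)) (.leaf 10)) (.leaf 10)))) (.bis 1 5 1 2 286 (.bis 6 8 1 4 59 (.bis 2 8 1 4 119
  (.bis 3 8 1 4 170 (.bis 4 8 1 2 220 (.bis 5 8 1 2 39 (.leaf 4) (.leaf 4)) (.bis 4 5 1 1 219
  (.leaf 4) (.leaf 4))) (.bis 3 5 1 2 165 (.leaf 4) (.leaf 4))) (.bis 3 5 1 2 165 (.leaf 4)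
  (.leaf 4))) (.bis 3 5 1 2 165 (.leaf 4) (.leaf 4))) (.bis 6 8 1 4 59 (.bis 2 8 1 4 119 (.bis 3
  8 1 4 170 (.bis 4 8 1 2 220 (.leaf 39) (.leaf 10)) (.leaf 10)) (.leaf 10)) (.leaf 10)))) (.bis
  0 4 4 1 223 (.bis 4 7 1 1 218 (.bis 1 5 1 2 286 (.bis 3 7 1 2 160 (.leaf 2) (.bis 3 5 1 2 165
  (.leaf 2) (.leaf 2))) (.bis 1 7 1 2 287 (.bis 3 7 1 2 160 (.bis 2 7 1 2 111 (.leaf 2) (.leaf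
  2)) (.leaf 2)) (.leaf 5))) (.bis 1 5 1 2 286 (.bis 3 5 1 2 165 (.bis 4 5 1 1 219 (.leaf 2)
  (.leaf 4)) (.leaf 4)) (.leaf 10))) (.bis 0 5 4 1 85 (.bis 1 5 1 2 286 (.bis 3 7 1 2 160 (.leaf
  2) (.bis 3 5 1 2 165 (.leaf 2) (.leaf 2))) (.bis 1 7 1 2 287 (.bis 3 7 1 2 160 (.bis 2 7 1 2
  111 (.leaf 2) (.leaf 2)) (.leaf 2)) (.leaf 5))) (.bis 0 7 4 1 86 (.bis 1 7 1 2 287 (.bis 3 7 1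
  2 160 (.bis 2 7 1 2 111 (.leaf 2) (.leaf 2)) (.leaf 2)) (.leaf 5)) (.bis 0 1 8 1 293 (.leaf 5)
  (.bis 0 3 8 1 173 (.leaf 2) (.leaf 21))))))) (.bis 4 7 1 4 215 (.bis 1 7 1 8 289 (.bis 3 7 1 8
  167 (.bis 2 7 1 8 116 (.bis 0 7 1 1 68 (.bis 6 7 1 8 54 (.bis 4 7 1 8 217 (.bis 5 7 1 4 26
  (.bis 7 8 4 1 74 (.leaf 14) (.leaf 32)) (.leaf 14)) (.leaf 14)) (.bis 0 6 4 1 73 (.leaf 2)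
  (.leaf 14))) (.bis 0 5 4 1 85 (.leaf 14) (.bis 0 8 4 1 86 (.leaf 14) (.bis 0 4 8 1 222 (.leaf
  14) (.bis 0 1 16 1 294 (.leaf 14) (.bis 0 3 16 1 174 (.leaf 14) (.leaf 21))))))) (.bis 0 5 4 1
  85 (.bis 2 8 1 2 111 (.leaf 2) (.leaf 2)) (.bis 0 8 4 1 86 (.bis 2 8 1 2 111 (.leaf 2) (.leaf
  2)) (.bis 0 4 8 1 222 (.leaf 2) (.bis 0 2 8 1 125 (.leaf 2) (.bis 0 1 16 1 294 (.leaf 2) (.leaf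
  21))))))) (.bis 0 5 4 1 85 (.bis 3 8 1 2 160 (.leaf 2) (.leaf 2)) (.bis 0 8 4 1 86 (.bis 3 8 1
  2 160 (.leaf 2) (.leaf 2)) (.bis 0 3 8 1 173 (.leaf 2) (.bis 0 4 8 1 222 (.leaf 2) (.bis 0 2 8
  1 125 (.leaf 2) (.leaf 21))))))) (.bis 0 5 4 1 85 (.bis 1 5 1 2 286 (.leaf 2) (.bis 1 8 1 2 287
  (.leaf 2) (.leaf 5))) (.bis 0 8 4 1 86 (.bis 1 8 1 2 287 (.leaf 2) (.leaf 5)) (.bis 0 1 8 1 293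
  (.leaf 5) (.bis 0 3 8 1 173 (.leaf 2) (.bis 0 4 8 1 222 (.leaf 2) (.bis 0 2 8 1 125 (.leaf 2)
  (.leaf 21)))))))) (.bis 0 4 4 1 223 (.bis 4 8 1 1 218 (.bis 1 5 1 2 286 (.bis 3 8 1 2 160
  (.leaf 2) (.bis 3 5 1 2 165 (.leaf 2) (.leaf 2))) (.bis 1 8 1 2 287 (.bis 3 8 1 2 160 (.bis 2 8
  1 2 111 (.leaf 2) (.leaf 2)) (.leaf 2)) (.leaf 5))) (.bis 1 5 1 2 286 (.bis 3 5 1 2 165 (.bis 4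
  5 1 1 219 (.leaf 2) (.leaf 4)) (.leaf 4)) (.leaf 9))) (.bis 0 5 4 1 85 (.bis 1 5 1 2 286 (.bis
  3 8 1 2 160 (.leaf 2) (.bis 3 5 1 2 165 (.leaf 2) (.leaf 2))) (.bis 1 8 1 2 287 (.bis 3 8 1 2
  160 (.leaf 2) (.leaf 2)) (.leaf 5))) (.bis 0 8 4 1 86 (.bis 1 8 1 2 287 (.bis 3 8 1 2 160
  (.leaf 2) (.leaf 2)) (.leaf 5)) (.bis 0 1 8 1 293 (.leaf 5) (.bis 0 3 8 1 173 (.leaf 2) (.bis 0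
  7 8 1 222 (.leaf 2) (.leaf 21))))))))) (.bis 0 5 2 1 102 (.bis 1 5 1 4 290 (.bis 6 8 1 4 59
  (.bis 2 8 1 4 119 (.bis 3 8 1 4 170 (.bis 4 8 1 2 220 (.bis 7 8 1 2 39 (.leaf 16) (.leaf 16))
  (.bis 4 7 1 1 219 (.leaf 16) (.leaf 16))) (.bis 3 5 1 4 168 (.bis 4 7 1 1 219 (.leaf 16) (.leaf
  16)) (.bis 3 7 1 2 165 (.bis 4 7 1 1 219 (.leaf 4) (.leaf 4)) (.leaf 4)))) (.bis 2 5 1 4 121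
  (.bis 3 5 1 4 168 (.bis 4 7 1 1 219 (.leaf 16) (.leaf 16)) (.bis 3 7 1 2 165 (.bis 4 7 1 1 219
  (.leaf 4) (.leaf 4)) (.leaf 4))) (.bis 3 7 1 2 165 (.bis 4 7 1 1 219 (.leaf 4) (.leaf 4))
  (.leaf 4)))) (.bis 5 6 4 1 61 (.bis 3 7 1 2 165 (.bis 4 7 1 1 219 (.leaf 4) (.leaf 4)) (.leaf
  4)) (.bis 2 5 1 4 121 (.bis 3 5 1 4 168 (.bis 4 7 1 1 219 (.leaf 16) (.leaf 16)) (.bis 3 7 1 2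
  165 (.bis 4 7 1 1 219 (.leaf 4) (.leaf 4)) (.leaf 4))) (.bis 3 7 1 2 165 (.bis 4 7 1 1 219
  (.leaf 4) (.leaf 4)) (.leaf 4))))) (.bis 1 7 1 2 286 (.bis 6 8 1 4 59 (.bis 2 8 1 4 119 (.bis 3
  8 1 4 170 (.bis 4 8 1 2 220 (.bis 7 8 1 2 39 (.leaf 4) (.leaf 4)) (.bis 4 7 1 1 219 (.leaf 4)
  (.leaf 4))) (.bis 3 7 1 2 165 (.leaf 4) (.leaf 4))) (.bis 3 7 1 2 165 (.bis 4 7 1 1 219 (.leaf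
  4) (.leaf 4)) (.leaf 4))) (.bis 3 7 1 2 165 (.bis 4 7 1 1 219 (.leaf 4) (.leaf 4)) (.leaf 4)))
  (.bis 6 8 1 4 59 (.bis 2 8 1 4 119 (.bis 3 8 1 4 170 (.bis 4 8 1 2 220 (.leaf 39) (.leaf 10))
  (.leaf 10)) (.leaf 10)) (.leaf 10)))) (.bis 0 8 2 1 95 (.bis 1 7 1 2 286 (.bis 6 8 1 4 59 (.bis
  2 8 1 4 119 (.bis 3 8 1 4 170 (.bis 4 8 1 2 220 (.bis 7 8 1 2 39 (.leaf 4) (.leaf 4)) (.bis 4 7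
  1 1 219 (.leaf 4) (.leaf 4))) (.bis 3 7 1 2 165 (.leaf 4) (.leaf 4))) (.bis 3 7 1 2 165 (.bis 4
  7 1 1 219 (.leaf 2) (.leaf 4)) (.leaf 4))) (.bis 3 7 1 2 165 (.bis 4 7 1 1 219 (.leaf 2) (.leaf
  4)) (.leaf 4))) (.bis 6 8 1 4 59 (.bis 2 8 1 4 119 (.bis 3 8 1 4 170 (.bis 4 8 1 2 220 (.leaf
  39) (.leaf 10)) (.leaf 10)) (.leaf 10)) (.leaf 10))) (.bis 0 4 4 1 223 (.bis 1 7 1 2 286 (.bis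
  3 7 1 2 165 (.bis 4 7 1 1 219 (.leaf 2) (.leaf 4)) (.leaf 4)) (.leaf 10)) (.bis 0 7 4 1 85
  (.bis 1 7 1 2 286 (.bis 3 7 1 2 165 (.bis 2 7 1 2 115 (.leaf 2) (.leaf 2)) (.leaf 2)) (.leaf
  5)) (.bis 0 1 8 1 293 (.leaf 5) (.bis 0 3 8 1 173 (.leaf 2) (.bis 0 2 8 1 125 (.leaf 2) (.leaf
  21))))))))))

def lc14 : List Vr := [⟨[24,0,0,0,0,0,0,0,0], 6912, 0⟩, ⟨[0,112,0,0,0,0,85,0,155], 406901, 0⟩,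
  ⟨[0,0,68,0,0,0,85,0,155], 389861, 0⟩, ⟨[0,0,0,52,0,0,85,0,155], 385445, 0⟩, ⟨[0,0,0,0,38,0,85,0,
  155], 206149, 0⟩, ⟨[0,0,0,0,0,30,0,0,94], 29760, 0⟩, ⟨[0,0,0,0,0,0,85,0,155], 59925, 0⟩, ⟨[0,0,
  0,0,0,0,0,42,0], 7056, 0⟩, ⟨[0,28,0,0,0,0,0,0,84], 25872, 0⟩]

theorem lk14 : chkTr lowT (leafLow 2 lowB) lt14 lc14 = true := by decide +kernel

def lt15 : Tr ℕ := (.bis 5 7 1 2 19 (.bis 2 7 1 1 130 (.bis 7 8 2 1 20 (.bis 0 8 2 1 95 (.bis 2 8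
  1 1 137 (.bis 4 7 1 1 218 (.bis 1 5 1 2 286 (.bis 3 7 1 2 160 (.bis 6 8 1 4 119 (.bis 5 8 1 2
  39 (.leaf 4) (.leaf 2)) (.leaf 2)) (.bis 6 8 1 4 119 (.bis 3 8 1 4 170 (.bis 5 8 1 2 39 (.leaf
  4) (.leaf 2)) (.leaf 2)) (.leaf 2))) (.bis 1 7 1 2 287 (.bis 3 7 1 2 160 (.bis 6 8 1 4 119
  (.bis 7 8 1 2 98 (.leaf 4) (.leaf 4)) (.leaf 2)) (.bis 6 8 1 4 119 (.bis 3 8 1 4 170 (.bis 0 8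
  1 2 99 (.leaf 4) (.leaf 2)) (.leaf 2)) (.leaf 2))) (.bis 6 8 1 4 119 (.bis 3 8 1 4 170 (.bis 1
  8 1 4 288 (.leaf 4) (.leaf 10)) (.leaf 10)) (.leaf 10)))) (.bis 1 5 1 2 286 (.bis 6 8 1 4 119
  (.bis 3 8 1 4 170 (.bis 4 8 1 2 220 (.leaf 4) (.leaf 4)) (.bis 3 5 1 2 165 (.leaf 4) (.leaf
  4))) (.bis 3 5 1 2 165 (.leaf 4) (.leaf 4))) (.bis 6 8 1 4 119 (.bis 3 8 1 4 170 (.bis 4 8 1 2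
  220 (.leaf 39) (.leaf 10)) (.leaf 10)) (.leaf 10)))) (.bis 2 4 2 1 225 (.bis 4 7 1 1 218 (.bis
  1 5 1 2 286 (.leaf 2) (.bis 1 7 1 2 287 (.bis 3 7 1 2 160 (.leaf 2) (.leaf 2)) (.leaf 5)))
  (.bis 1 5 1 2 286 (.bis 3 5 1 2 165 (.leaf 4) (.leaf 4)) (.leaf 10))) (.bis 1 2 1 4 295 (.leaf
  2) (.bis 1 5 1 2 286 (.leaf 2) (.bis 1 7 1 2 287 (.bis 3 7 1 2 160 (.leaf 2) (.leaf 2)) (.leaf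
  5)))))) (.bis 0 4 4 1 223 (.bis 2 4 2 1 225 (.bis 4 7 1 1 218 (.bis 1 5 1 2 286 (.bis 3 7 1 2
  160 (.leaf 2) (.bis 3 5 1 2 165 (.leaf 2) (.leaf 2))) (.bis 1 7 1 2 287 (.bis 3 7 1 2 160 (.bis
  6 7 1 2 111 (.leaf 2) (.leaf 2)) (.leaf 2)) (.leaf 5))) (.bis 1 5 1 2 286 (.bis 3 5 1 2 165
  (.bis 4 5 1 1 219 (.leaf 2) (.leaf 4)) (.leaf 4)) (.leaf 10))) (.bis 1 2 1 4 295 (.bis 3 7 1 2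
  160 (.leaf 2) (.bis 2 3 4 1 178 (.bis 3 5 1 2 165 (.bis 5 6 2 1 115 (.leaf 2) (.leaf 2)) (.leaf
  2)) (.bis 5 6 2 1 115 (.leaf 2) (.bis 0 5 1 2 237 (.leaf 2) (.leaf 2))))) (.bis 1 5 1 2 286
  (.bis 3 7 1 2 160 (.leaf 2) (.bis 3 5 1 2 165 (.bis 5 6 2 1 115 (.leaf 2) (.leaf 2)) (.leaf
  2))) (.bis 1 7 1 2 287 (.bis 3 7 1 2 160 (.bis 6 7 1 2 111 (.leaf 2) (.leaf 2)) (.leaf 2))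
  (.leaf 5))))) (.bis 0 5 4 1 85 (.bis 1 2 1 4 295 (.bis 3 7 1 2 160 (.leaf 2) (.bis 2 3 4 1 178
  (.bis 3 5 1 2 165 (.bis 5 6 2 1 115 (.leaf 2) (.leaf 2)) (.leaf 2)) (.bis 5 6 2 1 115 (.leaf 2)
  (.bis 4 5 1 2 237 (.leaf 2) (.leaf 2))))) (.bis 1 5 1 2 286 (.bis 3 7 1 2 160 (.leaf 2) (.bis 3
  5 1 2 165 (.leaf 2) (.leaf 2))) (.bis 1 7 1 2 287 (.bis 3 7 1 2 160 (.leaf 2) (.leaf 2)) (.leaf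
  5)))) (.bis 0 7 4 1 86 (.bis 1 2 1 4 295 (.bis 3 7 1 2 160 (.bis 6 7 1 2 111 (.leaf 2) (.leaf
  2)) (.leaf 2)) (.bis 1 7 1 2 287 (.bis 3 7 1 2 160 (.leaf 2) (.leaf 2)) (.leaf 5))) (.bis 0 1 8
  1 293 (.leaf 5) (.bis 0 3 8 1 173 (.leaf 2) (.leaf 11))))))) (.bis 4 7 1 4 215 (.bis 1 7 1 8
  289 (.bis 3 7 1 8 167 (.bis 6 7 1 8 116 (.bis 0 7 1 1 68 (.bis 4 7 1 8 217 (.bis 5 7 1 4 26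
  (.bis 2 7 1 2 134 (.leaf 32) (.leaf 14)) (.leaf 14)) (.leaf 14)) (.bis 0 5 4 1 85 (.leaf 14)
  (.bis 0 8 4 1 86 (.leaf 14) (.bis 0 4 8 1 222 (.leaf 14) (.bis 0 1 16 1 294 (.leaf 14) (.bis 0
  3 16 1 174 (.leaf 14) (.leaf 21))))))) (.bis 0 5 4 1 85 (.bis 6 8 1 2 111 (.leaf 2) (.bis 5 6 2
  1 115 (.leaf 2) (.leaf 2))) (.bis 0 8 4 1 86 (.bis 6 8 1 2 111 (.leaf 2) (.bis 2 6 4 1 133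
  (.leaf 2) (.leaf 2))) (.bis 0 4 8 1 222 (.bis 2 6 4 1 133 (.bis 6 8 1 1 224 (.leaf 2) (.leaf
  2)) (.leaf 2)) (.bis 0 6 8 1 125 (.bis 2 6 4 1 133 (.leaf 2) (.leaf 2)) (.bis 0 1 16 1 294
  (.leaf 2) (.bis 0 3 16 1 174 (.leaf 2) (.leaf 21)))))))) (.bis 0 5 4 1 85 (.bis 3 8 1 2 160
  (.bis 6 8 1 2 111 (.leaf 2) (.leaf 2)) (.bis 2 3 4 1 178 (.leaf 2) (.leaf 2))) (.bis 0 8 4 1 86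
  (.bis 3 8 1 2 160 (.bis 6 8 1 2 111 (.leaf 2) (.leaf 2)) (.bis 2 3 4 1 178 (.leaf 2) (.leaf
  2))) (.bis 0 3 8 1 173 (.bis 2 3 4 1 178 (.leaf 2) (.leaf 2)) (.bis 0 4 8 1 222 (.bis 2 6 4 1
  133 (.leaf 2) (.leaf 2)) (.bis 0 6 8 1 125 (.leaf 2) (.leaf 21))))))) (.bis 0 5 4 1 85 (.bis 1
  2 1 4 295 (.bis 3 8 1 2 160 (.bis 6 8 1 2 111 (.leaf 2) (.leaf 2)) (.leaf 2)) (.bis 1 5 1 2 286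
  (.leaf 2) (.bis 1 8 1 2 287 (.leaf 2) (.leaf 5)))) (.bis 0 8 4 1 86 (.bis 1 2 1 4 295 (.bis 3 8
  1 2 160 (.bis 6 8 1 2 111 (.leaf 2) (.leaf 2)) (.leaf 2)) (.bis 1 8 1 2 287 (.leaf 2) (.leaf
  5))) (.bis 0 1 8 1 293 (.bis 1 2 1 4 295 (.leaf 2) (.leaf 5)) (.bis 0 3 8 1 173 (.leaf 2) (.bis
  0 4 8 1 222 (.leaf 2) (.bis 0 6 8 1 125 (.leaf 2) (.leaf 21)))))))) (.bis 0 4 4 1 223 (.bis 2 4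
  2 1 225 (.bis 4 8 1 1 218 (.bis 1 5 1 2 286 (.bis 3 8 1 2 160 (.leaf 2) (.bis 3 5 1 2 165
  (.leaf 2) (.leaf 2))) (.bis 1 8 1 2 287 (.bis 3 8 1 2 160 (.bis 6 8 1 2 111 (.leaf 2) (.leaf
  2)) (.leaf 2)) (.leaf 5))) (.bis 1 5 1 2 286 (.bis 3 5 1 2 165 (.bis 4 5 1 1 219 (.leaf 2)
  (.leaf 4)) (.leaf 4)) (.leaf 9))) (.bis 1 2 1 4 295 (.bis 3 8 1 2 160 (.leaf 2) (.bis 2 3 4 1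
  178 (.bis 3 5 1 2 165 (.bis 5 6 2 1 115 (.leaf 2) (.leaf 2)) (.leaf 2)) (.bis 5 6 2 1 115
  (.leaf 2) (.leaf 2)))) (.bis 1 5 1 2 286 (.bis 3 8 1 2 160 (.leaf 2) (.bis 3 5 1 2 165 (.leaf
  2) (.leaf 2))) (.bis 1 8 1 2 287 (.bis 3 8 1 2 160 (.bis 6 8 1 2 111 (.leaf 2) (.leaf 2))
  (.leaf 2)) (.leaf 5))))) (.bis 0 5 4 1 85 (.bis 1 2 1 4 295 (.bis 3 8 1 2 160 (.leaf 2) (.bis 2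
  3 4 1 178 (.bis 3 5 1 2 165 (.leaf 2) (.leaf 2)) (.bis 5 6 2 1 115 (.leaf 2) (.leaf 2)))) (.bis
  1 5 1 2 286 (.bis 3 8 1 2 160 (.leaf 2) (.bis 3 5 1 2 165 (.leaf 2) (.leaf 2))) (.bis 1 8 1 2
  287 (.bis 3 8 1 2 160 (.leaf 2) (.leaf 2)) (.leaf 5)))) (.bis 0 8 4 1 86 (.bis 1 2 1 4 295
  (.bis 3 8 1 2 160 (.leaf 2) (.leaf 2)) (.bis 1 8 1 2 287 (.bis 3 8 1 2 160 (.leaf 2) (.leaf 2))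
  (.leaf 5))) (.bis 0 1 8 1 293 (.leaf 5) (.bis 0 3 8 1 173 (.leaf 2) (.bis 0 7 8 1 222 (.leaf 2)
  (.leaf 11))))))))) (.bis 2 8 2 1 138 (.bis 0 8 2 1 95 (.bis 7 8 1 1 137 (.bis 1 5 1 2 286 (.bis
  6 8 1 4 119 (.bis 3 8 1 4 170 (.bis 4 8 1 2 220 (.bis 5 8 1 2 39 (.leaf 4) (.leaf 4)) (.bis 4 5
  1 1 219 (.leaf 4) (.leaf 4))) (.bis 3 5 1 2 165 (.bis 4 5 1 1 219 (.leaf 2) (.leaf 4)) (.leaf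
  4))) (.bis 3 5 1 2 165 (.bis 4 5 1 1 219 (.leaf 2) (.leaf 4)) (.leaf 4))) (.bis 6 8 1 4 119
  (.bis 3 8 1 4 170 (.bis 4 8 1 2 220 (.bis 1 8 1 4 288 (.leaf 4) (.leaf 10)) (.leaf 10)) (.leaf
  10)) (.leaf 10))) (.bis 4 7 1 2 225 (.bis 1 7 1 4 295 (.bis 3 7 1 4 178 (.bis 2 5 1 1 140 (.bis
  5 6 2 1 115 (.leaf 2) (.leaf 2)) (.leaf 2)) (.bis 3 5 1 2 165 (.bis 2 5 1 1 140 (.leaf 2)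
  (.leaf 2)) (.leaf 2))) (.bis 1 5 1 2 286 (.bis 3 5 1 2 165 (.bis 2 5 1 1 140 (.leaf 2) (.leaf
  2)) (.leaf 2)) (.leaf 5))) (.bis 1 5 1 2 286 (.bis 3 5 1 2 165 (.bis 4 5 1 1 219 (.leaf 2)
  (.leaf 4)) (.leaf 4)) (.leaf 10)))) (.bis 0 4 4 1 223 (.bis 4 7 1 2 225 (.bis 1 7 1 4 295 (.bis
  3 7 1 4 178 (.bis 2 5 1 1 140 (.bis 5 6 2 1 115 (.leaf 2) (.bis 0 5 1 2 237 (.leaf 2) (.leaf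
  2))) (.leaf 2)) (.bis 3 5 1 2 165 (.bis 2 5 1 1 140 (.bis 5 6 2 1 115 (.leaf 2) (.leaf 2))
  (.leaf 2)) (.leaf 2))) (.bis 1 5 1 2 286 (.bis 3 5 1 2 165 (.bis 2 5 1 1 140 (.bis 5 6 2 1 115
  (.leaf 2) (.leaf 2)) (.leaf 2)) (.leaf 2)) (.leaf 5))) (.bis 1 5 1 2 286 (.bis 3 5 1 2 165
  (.bis 4 5 1 1 219 (.bis 2 5 1 1 140 (.leaf 2) (.leaf 2)) (.leaf 4)) (.leaf 4)) (.leaf 10)))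
  (.bis 0 5 4 1 85 (.bis 1 7 1 4 295 (.bis 3 7 1 4 178 (.bis 2 5 1 1 140 (.bis 5 6 2 1 115 (.leaf
  2) (.leaf 2)) (.leaf 2)) (.bis 3 5 1 2 165 (.bis 2 5 1 1 140 (.bis 5 6 2 1 115 (.leaf 2) (.leaf
  2)) (.leaf 2)) (.leaf 2))) (.bis 1 5 1 2 286 (.bis 3 5 1 2 165 (.bis 2 5 1 1 140 (.leaf 2)
  (.leaf 2)) (.leaf 2)) (.leaf 5))) (.bis 0 1 8 1 293 (.bis 1 7 1 4 295 (.leaf 2) (.leaf 5))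
  (.bis 0 3 8 1 173 (.leaf 2) (.bis 0 6 8 1 125 (.leaf 2) (.leaf 11))))))) (.bis 2 5 4 1 151
  (.bis 0 4 4 1 223 (.bis 4 7 1 2 225 (.bis 1 7 1 4 295 (.bis 3 7 1 4 178 (.bis 5 8 1 1 140
  (.leaf 2) (.bis 5 6 2 1 115 (.leaf 2) (.bis 0 5 1 2 237 (.leaf 2) (.leaf 2)))) (.bis 3 5 1 2
  165 (.bis 5 8 1 1 140 (.leaf 2) (.bis 5 6 2 1 115 (.leaf 2) (.leaf 2))) (.leaf 2))) (.bis 1 5 1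
  2 286 (.bis 3 5 1 2 165 (.bis 5 8 1 1 140 (.leaf 2) (.bis 5 6 2 1 115 (.leaf 2) (.leaf 2)))
  (.leaf 2)) (.leaf 5))) (.bis 1 5 1 2 286 (.bis 3 5 1 2 165 (.bis 4 5 1 1 219 (.bis 5 8 1 1 140
  (.leaf 2) (.leaf 2)) (.leaf 10)) (.leaf 10)) (.leaf 10))) (.bis 0 5 4 1 85 (.bis 1 7 1 4 295
  (.bis 3 7 1 4 178 (.bis 5 8 1 1 140 (.leaf 2) (.bis 5 6 2 1 115 (.leaf 2) (.leaf 2))) (.bis 3 5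
  1 2 165 (.bis 5 8 1 1 140 (.leaf 2) (.bis 5 6 2 1 115 (.leaf 2) (.leaf 2))) (.leaf 2))) (.bis 1
  5 1 2 286 (.bis 3 5 1 2 165 (.bis 5 8 1 1 140 (.leaf 2) (.leaf 2)) (.leaf 2)) (.leaf 5))) (.bis
  0 1 8 1 293 (.bis 1 7 1 4 295 (.leaf 2) (.leaf 5)) (.bis 0 3 8 1 173 (.leaf 2) (.bis 0 6 8 1
  125 (.leaf 2) (.leaf 11)))))) (.bis 0 4 4 1 223 (.bis 2 4 4 1 227 (.bis 4 7 1 2 225 (.bis 1 7 1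
  4 295 (.bis 3 7 1 4 178 (.leaf 2) (.leaf 2)) (.leaf 5)) (.leaf 10)) (.bis 1 7 1 4 295 (.bis 2 3
  8 1 186 (.bis 3 7 1 4 178 (.leaf 2) (.leaf 2)) (.leaf 11)) (.bis 1 2 1 8 296 (.bis 2 3 8 1 186
  (.leaf 2) (.leaf 6)) (.leaf 5)))) (.bis 0 1 8 1 293 (.bis 1 7 1 4 295 (.bis 2 3 8 1 186 (.leaf
  2) (.leaf 11)) (.bis 1 2 1 8 296 (.bis 2 3 8 1 186 (.leaf 2) (.leaf 6)) (.leaf 5))) (.bis 0 3 8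
  1 173 (.bis 2 3 8 1 186 (.bis 3 7 1 4 178 (.leaf 2) (.leaf 2)) (.leaf 11)) (.bis 0 6 8 1 125
  (.leaf 11) (.leaf 11)))))))) (.bis 2 5 2 1 154 (.bis 0 5 2 1 102 (.bis 1 5 1 4 290 (.bis 6 8 1
  4 119 (.bis 3 8 1 4 170 (.bis 4 8 1 2 220 (.bis 7 8 1 2 39 (.leaf 16) (.leaf 16)) (.bis 4 7 1 1
  219 (.bis 5 7 2 1 106 (.leaf 4) (.leaf 16)) (.leaf 16))) (.bis 3 5 1 4 168 (.bis 4 7 1 1 219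
  (.bis 5 7 2 1 106 (.leaf 4) (.leaf 16)) (.leaf 16)) (.bis 3 7 1 2 165 (.bis 4 7 1 1 219 (.leaf
  4) (.leaf 4)) (.leaf 4)))) (.bis 5 6 4 1 121 (.bis 3 7 1 2 165 (.bis 4 7 1 1 219 (.bis 6 7 1 2
  115 (.leaf 4) (.leaf 4)) (.leaf 4)) (.leaf 4)) (.bis 3 5 1 4 168 (.bis 4 7 1 1 219 (.bis 5 7 2
  1 106 (.leaf 4) (.leaf 16)) (.leaf 16)) (.bis 3 7 1 2 165 (.bis 4 7 1 1 219 (.leaf 4) (.leaf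
  4)) (.leaf 4))))) (.bis 1 7 1 2 286 (.bis 6 8 1 4 119 (.bis 3 8 1 4 170 (.bis 4 8 1 2 220 (.bis
  7 8 1 2 39 (.leaf 4) (.leaf 4)) (.bis 4 7 1 1 219 (.bis 7 8 2 1 297 (.leaf 4) (.leaf 4)) (.leaf
  4))) (.bis 3 7 1 2 165 (.bis 4 7 1 1 219 (.leaf 4) (.leaf 4)) (.leaf 4))) (.bis 3 7 1 2 165
  (.bis 4 7 1 1 219 (.leaf 4) (.leaf 4)) (.leaf 4))) (.bis 6 8 1 4 119 (.bis 3 8 1 4 170 (.bis 4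
  8 1 2 220 (.bis 1 8 1 4 288 (.leaf 4) (.leaf 10)) (.leaf 10)) (.leaf 10)) (.leaf 10)))) (.bis 0
  8 2 1 95 (.bis 1 7 1 2 286 (.bis 6 8 1 4 119 (.bis 3 8 1 4 170 (.bis 4 8 1 2 220 (.bis 7 8 1 2
  39 (.leaf 4) (.leaf 4)) (.bis 4 7 1 1 219 (.leaf 4) (.leaf 4))) (.bis 3 7 1 2 165 (.bis 4 7 1 1
  219 (.leaf 2) (.leaf 4)) (.leaf 4))) (.bis 3 7 1 2 165 (.bis 4 7 1 1 219 (.leaf 2) (.leaf 4))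
  (.leaf 4))) (.bis 6 8 1 4 119 (.bis 3 8 1 4 170 (.bis 4 8 1 2 220 (.bis 1 8 1 4 288 (.leaf 4)
  (.leaf 10)) (.leaf 10)) (.leaf 10)) (.leaf 10))) (.bis 0 4 4 1 223 (.bis 1 7 1 2 286 (.bis 3 7
  1 2 165 (.bis 4 7 1 1 219 (.bis 6 7 1 2 115 (.leaf 2) (.leaf 2)) (.leaf 4)) (.leaf 4)) (.leaf
  10)) (.bis 0 7 4 1 85 (.bis 1 7 1 2 286 (.bis 3 7 1 2 165 (.bis 6 7 1 2 115 (.leaf 2) (.leaf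
  2)) (.leaf 2)) (.leaf 5)) (.bis 0 1 8 1 293 (.leaf 5) (.bis 0 3 8 1 173 (.leaf 2) (.bis 0 6 8 1
  125 (.leaf 2) (.leaf 11)))))))) (.bis 2 8 2 1 138 (.bis 0 8 2 1 95 (.bis 1 7 1 2 286 (.bis 6 8
  1 4 119 (.bis 3 8 1 4 170 (.bis 4 8 1 2 220 (.bis 7 8 1 2 39 (.leaf 4) (.bis 2 7 1 1 140 (.leaf
  4) (.leaf 4))) (.bis 4 7 1 1 219 (.bis 2 7 1 1 140 (.leaf 4) (.leaf 4)) (.leaf 4))) (.bis 3 7 1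
  2 165 (.bis 4 7 1 1 219 (.leaf 2) (.leaf 4)) (.leaf 4))) (.bis 3 7 1 2 165 (.bis 4 7 1 1 219
  (.bis 2 7 1 1 140 (.leaf 2) (.leaf 2)) (.leaf 4)) (.leaf 4))) (.bis 6 8 1 4 119 (.bis 3 8 1 4
  170 (.bis 4 8 1 2 220 (.bis 1 8 1 4 288 (.leaf 4) (.leaf 10)) (.leaf 10)) (.leaf 10)) (.leaf
  10))) (.bis 0 4 4 1 223 (.bis 1 7 1 2 286 (.bis 3 7 1 2 165 (.bis 4 7 1 1 219 (.bis 2 7 1 1 140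
  (.leaf 2) (.leaf 2)) (.leaf 4)) (.leaf 4)) (.leaf 10)) (.bis 0 7 4 1 85 (.bis 1 7 1 2 286 (.bis
  3 7 1 2 165 (.bis 2 7 1 1 140 (.leaf 2) (.leaf 2)) (.leaf 2)) (.leaf 5)) (.bis 0 1 8 1 293
  (.leaf 5) (.bis 0 3 8 1 173 (.leaf 2) (.bis 0 6 8 1 125 (.leaf 2) (.bis 0 5 4 1 157 (.leaf 2)
  (.leaf 11)))))))) (.bis 2 7 4 1 151 (.bis 0 4 4 1 223 (.bis 1 7 1 2 286 (.bis 3 7 1 2 165 (.bis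
  4 7 1 1 219 (.bis 7 8 1 1 140 (.leaf 2) (.leaf 2)) (.leaf 10)) (.leaf 10)) (.leaf 10)) (.bis 0
  7 4 1 85 (.bis 1 7 1 2 286 (.bis 3 7 1 2 165 (.bis 7 8 1 1 140 (.leaf 2) (.leaf 2)) (.leaf 2))
  (.leaf 5)) (.bis 0 1 8 1 293 (.leaf 5) (.bis 0 3 8 1 173 (.leaf 2) (.bis 0 6 8 1 125 (.leaf 2)
  (.bis 0 5 4 1 157 (.leaf 2) (.leaf 11))))))) (.bis 0 4 4 1 223 (.bis 2 4 4 1 227 (.leaf 10)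
  (.bis 1 2 1 8 296 (.bis 2 3 8 1 186 (.leaf 2) (.leaf 6)) (.leaf 5))) (.bis 0 1 8 1 293 (.bis 1
  2 1 8 296 (.bis 2 3 8 1 186 (.leaf 2) (.leaf 6)) (.leaf 5)) (.bis 0 3 8 1 173 (.bis 2 3 8 1 186
  (.leaf 2) (.leaf 6)) (.bis 0 6 8 1 125 (.bis 2 4 8 1 230 (.leaf 2) (.leaf 6)) (.bis 0 5 4 1 157
  (.leaf 6) (.leaf 11))))))))))

def lc15 : List Vr := [⟨[24,0,0,0,0,0,0,0,0], 6912, 0⟩, ⟨[0,112,0,0,0,0,85,0,155], 406901, 0⟩,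
  ⟨[0,0,17,0,0,0,0,0,0], 6936, 0⟩, ⟨[0,0,0,52,0,0,85,0,155], 385445, 0⟩, ⟨[0,0,0,0,38,0,85,0,155],
   206149, 0⟩, ⟨[0,0,0,0,0,30,0,0,94], 29760, 0⟩, ⟨[0,0,68,0,0,0,85,0,155], 389861, 0⟩, ⟨[0,0,0,0,
  0,0,0,42,0], 7056, 0⟩, ⟨[0,28,0,0,0,0,0,0,84], 25872, 0⟩]

theorem lk15 : chkTr lowT (leafLow 2 lowB) lt15 lc15 = true := by decide +kernel

end Pool.Agent.Helper10.Fam.E7
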