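import Pool.Agent.Helper10.FamD.E7LowT

set_option autoImplicit false
set_option maxRecDepth 1000000

/-!
# Certificate data for `U ⊕ E7` (lower bound, subtrees)
-/

namespace Pool.Agent.Helper10.Fam.E7

open Pool.Agent.Helper10.Fam

def lt16 : Tr ℕ := (.bis 3 7 1 1 187 (.bis 5 7 1 2 19 (.bis 2 7 1 1 130 (.bis 7 8 2 1 20 (.bis 0
  8 2 1 95 (.bis 2 8 1 1 137 (.bis 3 8 1 1 192 (.bis 4 7 1 1 218 (.bis 1 5 1 2 286 (.bis 6 7 1 2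
  160 (.bis 5 8 1 2 39 (.bis 7 8 1 2 98 (.leaf 4) (.leaf 4)) (.leaf 2)) (.bis 6 8 1 4 170 (.bis 5
  8 1 2 39 (.leaf 4) (.leaf 2)) (.leaf 2))) (.bis 1 7 1 2 287 (.bis 6 7 1 2 160 (.bis 7 8 1 2 98
  (.bis 0 8 1 2 99 (.leaf 4) (.leaf 4)) (.leaf 4)) (.bis 6 8 1 4 170 (.bis 0 8 1 2 99 (.leaf 4)
  (.leaf 2)) (.leaf 2))) (.bis 6 8 1 4 170 (.bis 1 8 1 4 288 (.leaf 4) (.leaf 10)) (.leaf 10))))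
  (.bis 1 5 1 2 286 (.bis 6 8 1 4 170 (.bis 4 8 1 2 220 (.leaf 4) (.leaf 4)) (.leaf 4)) (.bis 6 8
  1 4 170 (.bis 4 8 1 2 220 (.bis 1 8 1 4 288 (.leaf 4) (.leaf 10)) (.leaf 10)) (.leaf 10))))
  (.bis 3 4 2 1 231 (.bis 4 7 1 1 218 (.leaf 72) (.bis 1 5 1 2 286 (.leaf 4) (.leaf 10))) (.bis 1
  5 1 2 286 (.leaf 2) (.bis 1 7 1 2 287 (.leaf 2) (.leaf 5))))) (.bis 2 4 2 1 225 (.bis 3 4 2 1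
  231 (.bis 4 7 1 1 218 (.bis 1 5 1 2 286 (.leaf 2) (.bis 1 7 1 2 287 (.leaf 2) (.leaf 5))) (.bis
  1 5 1 2 286 (.bis 5 6 2 1 165 (.leaf 4) (.leaf 4)) (.leaf 10))) (.bis 1 5 1 2 286 (.leaf 2)
  (.bis 1 7 1 2 287 (.leaf 2) (.leaf 5)))) (.bis 1 2 1 4 295 (.bis 6 7 1 2 160 (.leaf 2) (.bis 2
  6 4 1 178 (.bis 5 6 2 1 165 (.leaf 2) (.leaf 2)) (.bis 2 5 2 1 193 (.leaf 2) (.leaf 2)))) (.bis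
  1 5 1 2 286 (.leaf 2) (.bis 1 7 1 2 287 (.leaf 2) (.leaf 5)))))) (.bis 0 4 4 1 223 (.bis 2 4 2
  1 225 (.bis 3 4 2 1 231 (.bis 4 7 1 1 218 (.bis 1 5 1 2 286 (.bis 6 7 1 2 160 (.leaf 2) (.bis 5
  6 2 1 165 (.leaf 2) (.leaf 2))) (.bis 1 7 1 2 287 (.bis 6 7 1 2 160 (.leaf 2) (.leaf 2)) (.leaf
  5))) (.bis 1 5 1 2 286 (.bis 5 6 2 1 165 (.leaf 4) (.bis 4 5 1 1 219 (.leaf 2) (.leaf 4)))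
  (.leaf 10))) (.bis 1 5 1 2 286 (.bis 6 7 1 2 160 (.leaf 2) (.bis 5 6 2 1 165 (.leaf 2) (.leaf
  2))) (.bis 1 7 1 2 287 (.bis 6 7 1 2 160 (.leaf 2) (.leaf 2)) (.leaf 5)))) (.bis 1 2 1 4 295
  (.bis 6 7 1 2 160 (.leaf 2) (.bis 2 6 4 1 178 (.bis 5 6 2 1 165 (.leaf 2) (.bis 0 5 1 2 237
  (.leaf 2) (.leaf 2))) (.bis 0 5 1 2 237 (.bis 2 5 2 1 193 (.leaf 2) (.leaf 2)) (.leaf 2))))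
  (.bis 1 5 1 2 286 (.bis 6 7 1 2 160 (.leaf 2) (.bis 5 6 2 1 165 (.leaf 2) (.leaf 2))) (.bis 1 7
  1 2 287 (.bis 6 7 1 2 160 (.leaf 2) (.leaf 2)) (.leaf 5))))) (.bis 0 5 4 1 85 (.bis 1 2 1 4 295
  (.bis 6 7 1 2 160 (.leaf 2) (.bis 2 6 4 1 178 (.bis 5 6 2 1 165 (.leaf 2) (.bis 4 5 1 2 237
  (.leaf 2) (.leaf 2))) (.bis 4 5 1 2 237 (.bis 2 5 2 1 193 (.leaf 2) (.leaf 2)) (.leaf 2))))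
  (.bis 1 5 1 2 286 (.leaf 2) (.bis 1 7 1 2 287 (.bis 6 7 1 2 160 (.leaf 2) (.leaf 2)) (.leaf
  5)))) (.bis 0 7 4 1 86 (.bis 1 2 1 4 295 (.bis 6 7 1 2 160 (.leaf 2) (.leaf 2)) (.bis 1 7 1 2
  287 (.bis 6 7 1 2 160 (.leaf 2) (.leaf 2)) (.leaf 5))) (.bis 0 1 8 1 293 (.bis 1 2 1 4 295
  (.bis 2 6 4 1 178 (.leaf 2) (.leaf 2)) (.leaf 5)) (.bis 0 6 8 1 173 (.bis 2 6 4 1 178 (.leaf 2)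
  (.leaf 2)) (.leaf 11))))))) (.bis 4 7 1 4 215 (.bis 1 7 1 8 289 (.bis 6 7 1 8 167 (.bis 0 7 1 1
  68 (.bis 4 7 1 8 217 (.bis 3 7 1 2 190 (.bis 5 7 1 4 26 (.leaf 32) (.leaf 14)) (.leaf 14))
  (.leaf 14)) (.bis 0 5 4 1 85 (.leaf 14) (.bis 0 8 4 1 86 (.leaf 14) (.bis 0 4 8 1 222 (.leaf
  14) (.bis 0 1 16 1 294 (.leaf 14) (.bis 0 6 16 1 174 (.leaf 14) (.leaf 21))))))) (.bis 0 5 4 1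
  85 (.bis 6 8 1 2 160 (.leaf 2) (.bis 2 6 4 1 178 (.bis 5 6 2 1 165 (.leaf 2) (.leaf 2)) (.leaf
  2))) (.bis 0 8 4 1 86 (.bis 6 8 1 2 160 (.leaf 2) (.bis 2 6 4 1 178 (.bis 0 6 1 1 189 (.leaf 2)
  (.leaf 2)) (.leaf 2))) (.bis 0 6 8 1 173 (.bis 2 6 4 1 178 (.bis 6 8 1 1 189 (.leaf 2) (.leaf
  2)) (.leaf 2)) (.bis 0 4 8 1 222 (.leaf 2) (.bis 0 1 16 1 294 (.leaf 2) (.leaf 21))))))) (.bis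
  0 5 4 1 85 (.bis 1 2 1 4 295 (.bis 6 8 1 2 160 (.leaf 2) (.bis 2 6 4 1 178 (.bis 5 6 2 1 165
  (.leaf 2) (.leaf 2)) (.leaf 2))) (.bis 1 5 1 2 286 (.bis 6 8 1 2 160 (.leaf 2) (.leaf 2)) (.bis
  1 8 1 2 287 (.bis 6 8 1 2 160 (.leaf 2) (.leaf 2)) (.leaf 5)))) (.bis 0 8 4 1 86 (.bis 1 2 1 4
  295 (.bis 6 8 1 2 160 (.leaf 2) (.bis 2 6 4 1 178 (.bis 0 6 1 1 189 (.leaf 2) (.leaf 2)) (.leaf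
  2))) (.bis 1 8 1 2 287 (.bis 6 8 1 2 160 (.leaf 2) (.bis 0 6 1 1 189 (.leaf 2) (.leaf 2)))
  (.bis 1 3 1 4 298 (.bis 0 6 1 1 189 (.leaf 2) (.leaf 2)) (.leaf 5)))) (.bis 0 1 8 1 293 (.bis 1
  2 1 4 295 (.bis 2 6 4 1 178 (.bis 6 8 1 1 189 (.leaf 2) (.leaf 2)) (.leaf 2)) (.bis 1 3 1 4 298
  (.leaf 2) (.leaf 5))) (.bis 0 6 8 1 173 (.bis 2 6 4 1 178 (.leaf 2) (.leaf 2)) (.bis 0 4 8 1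
  222 (.leaf 2) (.leaf 21))))))) (.bis 0 4 4 1 223 (.bis 2 4 2 1 225 (.bis 3 4 2 1 231 (.bis 4 8
  1 1 218 (.bis 1 5 1 2 286 (.bis 6 8 1 2 160 (.leaf 2) (.leaf 2)) (.bis 1 8 1 2 287 (.bis 6 8 1
  2 160 (.leaf 2) (.leaf 2)) (.leaf 5))) (.bis 1 5 1 2 286 (.bis 5 6 2 1 165 (.leaf 4) (.leaf 4))
  (.leaf 9))) (.bis 1 5 1 2 286 (.bis 6 8 1 2 160 (.leaf 2) (.bis 5 6 2 1 165 (.leaf 2) (.leaf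
  2))) (.bis 1 8 1 2 287 (.bis 6 8 1 2 160 (.leaf 2) (.leaf 2)) (.leaf 5)))) (.bis 1 2 1 4 295
  (.bis 6 8 1 2 160 (.leaf 2) (.bis 2 6 4 1 178 (.bis 5 6 2 1 165 (.leaf 2) (.leaf 2)) (.bis 0 5
  1 2 237 (.leaf 2) (.leaf 2)))) (.bis 1 5 1 2 286 (.leaf 2) (.bis 1 8 1 2 287 (.bis 6 8 1 2 160
  (.leaf 2) (.leaf 2)) (.leaf 5))))) (.bis 0 5 4 1 85 (.bis 1 2 1 4 295 (.bis 6 8 1 2 160 (.leaf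
  2) (.bis 2 6 4 1 178 (.bis 5 6 2 1 165 (.leaf 2) (.leaf 2)) (.bis 4 5 1 2 237 (.leaf 2) (.leaf
  2)))) (.bis 1 5 1 2 286 (.leaf 2) (.bis 1 8 1 2 287 (.leaf 2) (.leaf 5)))) (.bis 0 8 4 1 86
  (.bis 1 2 1 4 295 (.bis 6 8 1 2 160 (.leaf 2) (.bis 2 6 4 1 178 (.leaf 2) (.leaf 2))) (.bis 1 8
  1 2 287 (.bis 6 8 1 2 160 (.leaf 2) (.leaf 2)) (.leaf 5))) (.bis 0 1 8 1 293 (.bis 1 2 1 4 295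
  (.bis 2 6 4 1 178 (.leaf 2) (.leaf 2)) (.leaf 5)) (.bis 0 6 8 1 173 (.bis 2 6 4 1 178 (.leaf 2)
  (.leaf 2)) (.leaf 21)))))))) (.bis 2 8 2 1 138 (.bis 0 8 2 1 95 (.bis 7 8 1 1 137 (.bis 3 8 1 1
  192 (.bis 1 5 1 2 286 (.bis 6 8 1 4 170 (.bis 4 8 1 2 220 (.bis 5 8 1 2 39 (.leaf 4) (.leaf 4))
  (.bis 4 5 1 1 219 (.leaf 4) (.leaf 4))) (.bis 5 6 2 1 165 (.leaf 4) (.bis 4 5 1 1 219 (.leaf 2)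
  (.leaf 4)))) (.bis 6 8 1 4 170 (.bis 4 8 1 2 220 (.bis 1 8 1 4 288 (.leaf 4) (.leaf 10)) (.leaf
  10)) (.leaf 10))) (.bis 3 4 2 1 231 (.bis 1 5 1 2 286 (.bis 5 6 2 1 165 (.leaf 4) (.bis 4 5 1 1
  219 (.leaf 2) (.leaf 4))) (.leaf 10)) (.bis 1 5 1 2 286 (.bis 5 6 2 1 165 (.leaf 2) (.leaf 2))
  (.leaf 5)))) (.bis 4 7 1 2 225 (.bis 1 7 1 4 295 (.bis 6 7 1 4 178 (.bis 2 5 1 1 140 (.bis 5 7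
  1 2 193 (.leaf 2) (.leaf 2)) (.leaf 2)) (.bis 5 6 2 1 165 (.leaf 2) (.bis 2 5 1 1 140 (.leaf 2)
  (.leaf 2)))) (.bis 1 5 1 2 286 (.bis 5 6 2 1 165 (.leaf 2) (.leaf 2)) (.leaf 5))) (.bis 3 4 2 1
  231 (.bis 1 5 1 2 286 (.bis 5 6 2 1 165 (.leaf 4) (.bis 4 5 1 1 219 (.leaf 2) (.leaf 4)))
  (.leaf 10)) (.bis 1 5 1 2 286 (.bis 5 6 2 1 165 (.leaf 2) (.leaf 2)) (.leaf 5))))) (.bis 0 4 4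
  1 223 (.bis 4 7 1 2 225 (.bis 1 7 1 4 295 (.bis 6 7 1 4 178 (.bis 2 5 1 1 140 (.bis 0 5 1 2 237
  (.bis 5 7 1 2 193 (.leaf 2) (.leaf 2)) (.leaf 2)) (.leaf 2)) (.bis 5 6 2 1 165 (.leaf 2) (.bis
  2 5 1 1 140 (.bis 0 5 1 2 237 (.leaf 2) (.leaf 2)) (.leaf 2)))) (.bis 1 5 1 2 286 (.bis 5 6 2 1
  165 (.leaf 2) (.bis 2 5 1 1 140 (.leaf 2) (.leaf 2))) (.leaf 5))) (.bis 3 4 2 1 231 (.bis 1 5 1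
  2 286 (.bis 5 6 2 1 165 (.leaf 4) (.bis 4 5 1 1 219 (.leaf 2) (.leaf 4))) (.leaf 10)) (.bis 1 5
  1 2 286 (.bis 5 6 2 1 165 (.leaf 2) (.bis 2 5 1 1 140 (.leaf 2) (.leaf 2))) (.leaf 5)))) (.bis
  0 5 4 1 85 (.bis 1 7 1 4 295 (.bis 6 7 1 4 178 (.bis 2 5 1 1 140 (.bis 4 5 1 2 237 (.bis 5 7 1
  2 193 (.leaf 2) (.leaf 2)) (.leaf 2)) (.leaf 2)) (.bis 5 6 2 1 165 (.leaf 2) (.bis 2 5 1 1 140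
  (.leaf 2) (.leaf 2)))) (.bis 1 5 1 2 286 (.bis 5 6 2 1 165 (.leaf 2) (.bis 2 5 1 1 140 (.leaf
  2) (.leaf 2))) (.leaf 5))) (.bis 0 1 8 1 293 (.leaf 5) (.bis 0 6 8 1 173 (.leaf 2) (.leaf
  11)))))) (.bis 2 5 4 1 151 (.bis 0 4 4 1 223 (.bis 4 7 1 2 225 (.bis 1 7 1 4 295 (.bis 6 7 1 4
  178 (.bis 5 8 1 1 140 (.leaf 2) (.bis 0 5 1 2 237 (.bis 5 7 1 2 193 (.leaf 2) (.leaf 2)) (.leaf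
  2))) (.bis 5 6 2 1 165 (.leaf 2) (.bis 5 8 1 1 140 (.leaf 2) (.bis 0 5 1 2 237 (.leaf 2) (.leaf
  2))))) (.bis 1 5 1 2 286 (.bis 5 6 2 1 165 (.leaf 2) (.bis 5 8 1 1 140 (.leaf 2) (.leaf 2)))
  (.leaf 5))) (.bis 3 4 2 1 231 (.bis 1 5 1 2 286 (.bis 5 6 2 1 165 (.leaf 10) (.bis 4 5 1 1 219
  (.leaf 2) (.leaf 10))) (.leaf 10)) (.bis 1 5 1 2 286 (.bis 5 6 2 1 165 (.leaf 2) (.bis 5 8 1 1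
  140 (.leaf 2) (.leaf 2))) (.leaf 5)))) (.bis 0 5 4 1 85 (.bis 1 7 1 4 295 (.bis 6 7 1 4 178
  (.bis 5 8 1 1 140 (.leaf 2) (.bis 4 5 1 2 237 (.bis 5 7 1 2 193 (.leaf 2) (.leaf 2)) (.leaf
  2))) (.bis 5 6 2 1 165 (.leaf 2) (.bis 5 8 1 1 140 (.leaf 2) (.bis 4 5 1 2 237 (.leaf 2) (.leaf
  2))))) (.bis 1 5 1 2 286 (.bis 5 6 2 1 165 (.leaf 2) (.bis 5 8 1 1 140 (.leaf 2) (.leaf 2)))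
  (.leaf 5))) (.bis 0 1 8 1 293 (.leaf 5) (.bis 0 6 8 1 173 (.leaf 2) (.bis 0 8 4 1 144 (.leaf 2)
  (.leaf 11)))))) (.bis 0 4 4 1 223 (.bis 2 4 4 1 227 (.bis 4 7 1 2 225 (.leaf 5) (.bis 3 4 2 1
  231 (.leaf 10) (.leaf 5))) (.bis 1 7 1 4 295 (.bis 2 6 8 1 186 (.leaf 2) (.leaf 11)) (.bis 1 2
  1 8 296 (.leaf 6) (.leaf 5)))) (.bis 0 1 8 1 293 (.bis 1 7 1 4 295 (.bis 2 6 8 1 186 (.leaf 2)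
  (.leaf 11)) (.bis 1 2 1 8 296 (.leaf 6) (.leaf 5))) (.bis 0 6 8 1 173 (.bis 2 6 8 1 186 (.leaf
  2) (.leaf 11)) (.bis 0 8 4 1 144 (.leaf 11) (.leaf 11)))))))) (.bis 2 5 2 1 154 (.bis 0 5 2 1
  102 (.bis 3 5 1 1 195 (.bis 1 5 1 4 290 (.bis 6 8 1 4 170 (.bis 4 8 1 2 220 (.leaf 16) (.bis 4
  7 1 1 219 (.leaf 16) (.leaf 16))) (.bis 5 6 4 1 168 (.bis 6 7 1 2 165 (.bis 4 7 1 1 219 (.leaf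
  4) (.leaf 4)) (.leaf 4)) (.bis 4 7 1 1 219 (.leaf 16) (.leaf 16)))) (.bis 1 7 1 2 286 (.bis 6 8
  1 4 170 (.bis 4 8 1 2 220 (.bis 7 8 1 2 39 (.leaf 4) (.leaf 4)) (.bis 4 7 1 1 219 (.leaf 4)
  (.leaf 4))) (.bis 6 7 1 2 165 (.leaf 4) (.leaf 4))) (.bis 6 8 1 4 170 (.bis 4 8 1 2 220 (.bis 1
  8 1 4 288 (.leaf 4) (.leaf 10)) (.leaf 10)) (.leaf 10)))) (.bis 3 8 1 1 192 (.bis 1 7 1 2 286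
  (.bis 6 8 1 4 170 (.bis 4 8 1 2 220 (.bis 7 8 1 2 39 (.leaf 4) (.leaf 4)) (.leaf 4)) (.bis 6 7
  1 2 165 (.leaf 4) (.leaf 4))) (.bis 6 8 1 4 170 (.bis 4 8 1 2 220 (.bis 1 8 1 4 288 (.bis 2 8 1
  2 155 (.leaf 4) (.leaf 4)) (.leaf 10)) (.leaf 10)) (.leaf 10))) (.bis 3 4 2 1 231 (.bis 1 7 1 2
  286 (.bis 6 7 1 2 165 (.leaf 4) (.leaf 4)) (.leaf 10)) (.bis 1 7 1 2 286 (.leaf 2) (.leaf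
  5))))) (.bis 0 8 2 1 95 (.bis 3 8 1 1 192 (.bis 1 7 1 2 286 (.bis 6 8 1 4 170 (.bis 4 8 1 2 220
  (.bis 7 8 1 2 39 (.leaf 4) (.leaf 4)) (.bis 4 7 1 1 219 (.leaf 4) (.leaf 4))) (.bis 6 7 1 2 165
  (.leaf 4) (.leaf 4))) (.bis 6 8 1 4 170 (.bis 4 8 1 2 220 (.bis 1 8 1 4 288 (.bis 2 8 1 2 155
  (.leaf 4) (.leaf 4)) (.leaf 10)) (.leaf 10)) (.leaf 10))) (.bis 3 4 2 1 231 (.bis 1 7 1 2 286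
  (.bis 6 7 1 2 165 (.leaf 4) (.leaf 4)) (.leaf 10)) (.bis 1 7 1 2 286 (.bis 6 7 1 2 165 (.leaf
  2) (.leaf 2)) (.leaf 5)))) (.bis 0 4 4 1 223 (.bis 3 4 2 1 231 (.bis 1 7 1 2 286 (.bis 6 7 1 2
  165 (.bis 4 7 1 1 219 (.leaf 2) (.leaf 4)) (.leaf 4)) (.leaf 10)) (.bis 1 7 1 2 286 (.bis 6 7 1
  2 165 (.leaf 2) (.leaf 2)) (.bis 1 3 1 4 298 (.leaf 2) (.leaf 5)))) (.bis 0 7 4 1 85 (.bis 1 7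
  1 2 286 (.bis 6 7 1 2 165 (.leaf 2) (.leaf 2)) (.leaf 5)) (.bis 0 1 8 1 293 (.leaf 5) (.bis 0 6
  8 1 173 (.leaf 2) (.bis 0 2 4 1 157 (.leaf 2) (.leaf 11)))))))) (.bis 2 8 2 1 138 (.bis 0 8 2 1
  95 (.bis 3 8 1 1 192 (.bis 1 7 1 2 286 (.bis 6 8 1 4 170 (.bis 4 8 1 2 220 (.bis 7 8 1 2 39
  (.leaf 4) (.leaf 4)) (.bis 4 7 1 1 219 (.bis 2 7 1 1 140 (.leaf 4) (.leaf 4)) (.leaf 4))) (.bis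
  6 7 1 2 165 (.bis 4 7 1 1 219 (.leaf 2) (.leaf 4)) (.leaf 4))) (.bis 6 8 1 4 170 (.bis 4 8 1 2
  220 (.bis 1 8 1 4 288 (.leaf 4) (.leaf 10)) (.leaf 10)) (.leaf 10))) (.bis 3 4 2 1 231 (.bis 1
  7 1 2 286 (.bis 6 7 1 2 165 (.bis 4 7 1 1 219 (.leaf 2) (.leaf 4)) (.leaf 4)) (.leaf 10)) (.bis
  1 7 1 2 286 (.bis 6 7 1 2 165 (.leaf 2) (.leaf 2)) (.leaf 5)))) (.bis 0 4 4 1 223 (.bis 3 4 2 1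
  231 (.bis 1 7 1 2 286 (.bis 6 7 1 2 165 (.bis 4 7 1 1 219 (.bis 2 7 1 1 140 (.leaf 2) (.leaf
  2)) (.leaf 4)) (.leaf 4)) (.leaf 10)) (.bis 1 7 1 2 286 (.bis 6 7 1 2 165 (.bis 2 7 1 1 140
  (.leaf 2) (.leaf 2)) (.leaf 2)) (.bis 1 3 1 4 298 (.leaf 2) (.leaf 5)))) (.bis 0 7 4 1 85 (.bis
  1 7 1 2 286 (.bis 6 7 1 2 165 (.bis 2 7 1 1 140 (.leaf 2) (.leaf 2)) (.leaf 2)) (.leaf 5))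
  (.bis 0 1 8 1 293 (.leaf 5) (.bis 0 6 8 1 173 (.leaf 2) (.bis 0 5 4 1 157 (.leaf 2) (.leaf
  11))))))) (.bis 2 7 4 1 151 (.bis 0 4 4 1 223 (.bis 3 4 2 1 231 (.bis 1 7 1 2 286 (.bis 6 7 1 2
  165 (.bis 4 7 1 1 219 (.bis 7 8 1 1 140 (.leaf 2) (.leaf 2)) (.leaf 10)) (.leaf 10)) (.leaf
  10)) (.bis 1 7 1 2 286 (.bis 6 7 1 2 165 (.bis 7 8 1 1 140 (.leaf 2) (.leaf 2)) (.leaf 2))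
  (.leaf 5))) (.bis 0 7 4 1 85 (.bis 1 7 1 2 286 (.bis 6 7 1 2 165 (.bis 7 8 1 1 140 (.leaf 2)
  (.leaf 2)) (.leaf 2)) (.leaf 5)) (.bis 0 1 8 1 293 (.leaf 5) (.bis 0 6 8 1 173 (.leaf 2) (.bis
  0 5 4 1 157 (.leaf 2) (.leaf 11)))))) (.bis 0 4 4 1 223 (.bis 2 4 4 1 227 (.bis 3 4 2 1 231
  (.leaf 10) (.bis 1 3 1 4 298 (.leaf 2) (.leaf 5))) (.bis 1 2 1 8 296 (.bis 2 6 8 1 186 (.bis 3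
  6 4 1 198 (.leaf 2) (.leaf 2)) (.leaf 6)) (.bis 1 3 1 4 298 (.leaf 2) (.leaf 5)))) (.bis 0 1 8
  1 293 (.bis 1 2 1 8 296 (.leaf 6) (.leaf 5)) (.bis 0 6 8 1 173 (.bis 2 6 8 1 186 (.leaf 2)
  (.leaf 6)) (.bis 0 5 4 1 157 (.leaf 6) (.leaf 11))))))))) (.bis 3 5 2 1 196 (.bis 2 5 2 1 154
  (.bis 0 5 2 1 102 (.bis 5 7 1 1 195 (.bis 7 8 1 1 192 (.bis 6 8 1 4 170 (.bis 4 8 1 2 220 (.bis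
  1 8 1 4 288 (.bis 2 8 1 2 155 (.leaf 4) (.leaf 4)) (.leaf 10)) (.leaf 10)) (.leaf 10)) (.bis 4
  7 1 2 231 (.bis 1 7 1 4 298 (.leaf 2) (.leaf 5)) (.leaf 10))) (.bis 1 5 1 4 290 (.bis 6 8 1 4
  170 (.bis 4 8 1 2 220 (.bis 2 8 1 2 155 (.leaf 16) (.bis 3 5 1 2 299 (.leaf 16) (.leaf 4)))
  (.bis 3 5 1 2 299 (.leaf 16) (.leaf 4))) (.bis 5 6 4 1 168 (.leaf 4) (.bis 3 5 1 2 299 (.leaf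
  16) (.leaf 4)))) (.bis 6 8 1 4 170 (.bis 4 8 1 2 220 (.bis 1 8 1 4 288 (.bis 2 8 1 2 155 (.leaf
  4) (.leaf 4)) (.leaf 10)) (.leaf 10)) (.leaf 10)))) (.bis 0 8 2 1 95 (.bis 7 8 1 1 192 (.bis 6
  8 1 4 170 (.bis 4 8 1 2 220 (.bis 1 8 1 4 288 (.bis 2 8 1 2 155 (.leaf 4) (.leaf 4)) (.leaf
  10)) (.leaf 10)) (.leaf 10)) (.bis 4 7 1 2 231 (.bis 1 7 1 4 298 (.leaf 2) (.leaf 5)) (.leaf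
  10))) (.bis 0 4 4 1 223 (.bis 4 7 1 2 231 (.bis 1 7 1 4 298 (.leaf 2) (.leaf 5)) (.leaf 10))
  (.bis 0 1 8 1 293 (.bis 1 7 1 4 298 (.leaf 2) (.leaf 5)) (.bis 0 6 8 1 173 (.bis 6 7 1 4 198
  (.leaf 2) (.leaf 2)) (.bis 0 3 4 1 199 (.leaf 2) (.bis 0 2 4 1 157 (.leaf 2) (.leaf 11))))))))
  (.bis 2 8 2 1 138 (.bis 0 8 2 1 95 (.bis 7 8 1 1 192 (.bis 6 8 1 4 170 (.bis 4 8 1 2 220 (.bis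
  1 8 1 4 288 (.bis 5 8 1 2 155 (.leaf 4) (.leaf 4)) (.leaf 10)) (.leaf 10)) (.leaf 10)) (.bis 4
  7 1 2 231 (.bis 1 7 1 4 298 (.leaf 2) (.leaf 5)) (.leaf 10))) (.bis 0 4 4 1 223 (.bis 4 7 1 2
  231 (.bis 1 7 1 4 298 (.leaf 2) (.leaf 5)) (.leaf 10)) (.bis 0 1 8 1 293 (.bis 1 7 1 4 298
  (.leaf 2) (.leaf 5)) (.bis 0 6 8 1 173 (.bis 6 7 1 4 198 (.leaf 2) (.leaf 2)) (.bis 0 3 4 1 199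
  (.leaf 2) (.bis 0 5 4 1 157 (.leaf 2) (.leaf 11))))))) (.bis 0 4 4 1 223 (.bis 2 4 4 1 227
  (.bis 4 7 1 2 231 (.bis 1 7 1 4 298 (.bis 6 7 1 4 198 (.leaf 2) (.leaf 2)) (.leaf 5)) (.leaf
  10)) (.bis 1 2 1 8 296 (.bis 2 6 8 1 186 (.bis 6 7 1 4 198 (.leaf 2) (.leaf 2)) (.bis 2 3 4 1
  200 (.bis 3 7 1 2 201 (.leaf 2) (.leaf 2)) (.bis 0 2 1 8 230 (.bis 2 7 2 1 239 (.leaf 2) (.leaf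
  6)) (.bis 5 7 1 2 240 (.leaf 2) (.leaf 2))))) (.bis 1 7 1 4 298 (.bis 6 7 1 4 198 (.leaf 2)
  (.leaf 2)) (.leaf 5)))) (.bis 0 1 8 1 293 (.bis 1 2 1 8 296 (.bis 2 6 8 1 186 (.bis 6 7 1 4 198
  (.leaf 2) (.leaf 2)) (.leaf 6)) (.bis 1 7 1 4 298 (.leaf 2) (.leaf 5))) (.bis 0 6 8 1 173 (.bis
  2 6 8 1 186 (.bis 6 7 1 4 198 (.leaf 2) (.leaf 2)) (.leaf 6)) (.bis 0 3 4 1 199 (.bis 2 3 4 1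
  200 (.leaf 2) (.leaf 6)) (.bis 0 5 4 1 157 (.bis 2 4 8 1 230 (.leaf 2) (.leaf 6)) (.leaf
  11)))))))) (.bis 3 8 2 1 202 (.bis 2 8 2 1 138 (.bis 0 8 2 1 95 (.bis 7 8 1 1 192 (.bis 6 8 1 4
  170 (.bis 4 8 1 2 220 (.bis 1 8 1 4 288 (.bis 5 8 1 2 246 (.leaf 4) (.leaf 4)) (.leaf 10))
  (.leaf 10)) (.leaf 10)) (.bis 4 7 1 2 231 (.bis 1 7 1 4 298 (.leaf 2) (.leaf 5)) (.leaf 10)))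
  (.bis 0 4 4 1 223 (.bis 4 7 1 2 231 (.bis 1 7 1 4 298 (.leaf 2) (.leaf 5)) (.leaf 10)) (.bis 0
  1 8 1 293 (.bis 1 7 1 4 298 (.leaf 2) (.leaf 5)) (.bis 0 6 8 1 173 (.leaf 2) (.bis 0 5 4 1 199
  (.leaf 2) (.bis 0 3 4 1 206 (.leaf 2) (.leaf 11))))))) (.bis 0 4 4 1 223 (.bis 2 4 4 1 227
  (.bis 4 7 1 2 231 (.bis 1 7 1 4 298 (.leaf 2) (.leaf 5)) (.leaf 10)) (.bis 1 2 1 8 296 (.bis 2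
  6 8 1 186 (.bis 6 7 1 4 198 (.leaf 2) (.leaf 2)) (.bis 2 5 4 1 200 (.bis 5 7 1 2 201 (.leaf 2)
  (.leaf 2)) (.bis 2 3 4 1 211 (.bis 4 7 1 4 243 (.leaf 2) (.leaf 2)) (.bis 0 2 1 8 230 (.bis 2 7
  2 1 239 (.leaf 2) (.leaf 6)) (.bis 4 7 1 4 243 (.leaf 2) (.leaf 2)))))) (.bis 1 7 1 4 298 (.bis
  6 7 1 4 198 (.leaf 2) (.leaf 2)) (.leaf 5)))) (.bis 0 1 8 1 293 (.bis 1 2 1 8 296 (.bis 2 6 8 1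
  186 (.bis 6 7 1 4 198 (.leaf 2) (.leaf 2)) (.leaf 6)) (.bis 1 7 1 4 298 (.leaf 2) (.leaf 5)))
  (.bis 0 6 8 1 173 (.bis 2 6 8 1 186 (.leaf 2) (.bis 2 5 4 1 200 (.leaf 2) (.leaf 6))) (.bis 0 5
  4 1 199 (.bis 2 5 4 1 200 (.leaf 2) (.leaf 6)) (.bis 0 3 4 1 206 (.bis 2 3 4 1 211 (.leaf 2)
  (.leaf 6)) (.leaf 11))))))) (.bis 0 4 4 1 223 (.bis 2 4 4 1 227 (.bis 3 4 4 1 244 (.bis 4 7 1 2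
  231 (.bis 1 7 1 4 298 (.bis 6 7 1 4 198 (.leaf 2) (.leaf 2)) (.leaf 5)) (.leaf 10)) (.bis 1 7 1
  4 298 (.bis 0 3 1 8 245 (.bis 3 7 2 1 212 (.leaf 5) (.leaf 6)) (.bis 6 7 1 4 198 (.leaf 2)
  (.leaf 2))) (.bis 1 3 1 8 300 (.bis 0 3 1 8 245 (.leaf 6) (.leaf 5)) (.leaf 5)))) (.bis 1 2 1 8
  296 (.bis 2 6 8 1 186 (.bis 0 3 1 8 245 (.bis 3 7 2 1 212 (.leaf 5) (.leaf 6)) (.bis 6 7 1 4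
  198 (.leaf 2) (.leaf 2))) (.bis 2 5 4 1 200 (.bis 0 3 1 8 245 (.bis 3 7 2 1 212 (.leaf 5)
  (.leaf 6)) (.bis 5 7 1 2 201 (.leaf 2) (.leaf 2))) (.bis 0 3 1 8 245 (.bis 3 7 2 1 212 (.leaf
  6) (.leaf 6)) (.bis 2 8 4 1 211 (.bis 4 7 1 4 243 (.leaf 2) (.leaf 2)) (.bis 0 2 1 8 230 (.bis
  2 7 2 1 239 (.leaf 2) (.leaf 6)) (.bis 4 7 1 4 243 (.leaf 2) (.leaf 2))))))) (.bis 1 7 1 4 298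
  (.bis 0 3 1 8 245 (.bis 3 7 2 1 212 (.leaf 5) (.leaf 6)) (.bis 6 7 1 4 198 (.leaf 2) (.leaf
  2))) (.bis 1 3 1 8 300 (.bis 0 3 1 8 245 (.leaf 6) (.leaf 5)) (.leaf 5))))) (.bis 0 1 8 1 293
  (.bis 1 2 1 8 296 (.leaf 6) (.bis 1 7 1 4 298 (.bis 3 4 8 1 245 (.leaf 2) (.leaf 6)) (.bis 1 3
  1 8 300 (.leaf 6) (.leaf 5)))) (.bis 0 6 8 1 173 (.bis 2 6 8 1 186 (.bis 3 4 8 1 245 (.leaf 2)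
  (.leaf 6)) (.leaf 6)) (.bis 0 5 4 1 199 (.bis 2 5 4 1 200 (.bis 3 4 8 1 245 (.leaf 2) (.leaf
  6)) (.leaf 6)) (.bis 0 3 1 1 213 (.leaf 6) (.leaf 11)))))))))

def lc16 : List Vr := [⟨[24,0,0,0,0,0,0,0,0], 6912, 0⟩, ⟨[0,112,0,0,0,0,85,0,155], 406901, 0⟩,
  ⟨[0,0,17,0,0,0,0,0,0], 6936, 0⟩, ⟨[0,0,0,13,0,0,0,0,0], 6760, 0⟩, ⟨[0,0,0,0,38,0,85,0,155],
  206149, 0⟩, ⟨[0,0,0,0,0,30,0,0,94], 29760, 0⟩, ⟨[0,0,0,52,0,0,85,0,155], 385445, 0⟩, ⟨[0,0,0,0,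
  0,0,0,42,0], 7056, 0⟩, ⟨[0,28,0,0,0,0,0,0,84], 25872, 0⟩]

theorem lk16 : chkTr lowT (leafLow 2 lowB) lt16 lc16 = true := by decide +kernel

def lt17 : Tr ℕ := (.bis 3 7 1 1 187 (.bis 5 7 1 2 19 (.bis 2 7 1 1 130 (.bis 7 8 2 1 20 (.bis 0
  8 2 1 95 (.bis 4 8 1 1 253 (.bis 2 8 1 1 137 (.bis 3 8 1 1 192 (.bis 6 7 1 1 218 (.bis 1 5 1 2
  286 (.bis 5 8 1 2 39 (.bis 7 8 1 2 98 (.leaf 4) (.leaf 4)) (.leaf 2)) (.bis 1 7 1 2 287 (.bis 7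
  8 1 2 98 (.bis 0 8 1 2 99 (.leaf 4) (.leaf 4)) (.leaf 4)) (.bis 1 8 1 4 288 (.bis 0 8 1 2 99
  (.leaf 4) (.leaf 4)) (.leaf 10)))) (.bis 1 5 1 2 286 (.bis 6 8 1 2 220 (.bis 5 8 1 2 39 (.leaf
  4) (.leaf 4)) (.bis 5 6 1 1 219 (.leaf 4) (.leaf 4))) (.bis 6 8 1 2 220 (.bis 1 8 1 4 288
  (.leaf 4) (.leaf 10)) (.leaf 10)))) (.bis 3 6 2 1 231 (.bis 6 7 1 1 218 (.bis 1 5 1 2 286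
  (.leaf 2) (.leaf 39)) (.bis 1 5 1 2 286 (.bis 5 6 1 1 219 (.leaf 4) (.leaf 2)) (.leaf 10)))
  (.bis 1 5 1 2 286 (.leaf 2) (.leaf 52)))) (.bis 2 6 2 1 225 (.bis 3 6 2 1 231 (.bis 6 7 1 1 218
  (.bis 1 5 1 2 286 (.leaf 2) (.leaf 39)) (.bis 1 5 1 2 286 (.leaf 4) (.leaf 10))) (.bis 1 5 1 2
  286 (.leaf 2) (.leaf 52))) (.bis 1 2 1 4 295 (.leaf 2) (.bis 1 5 1 2 286 (.leaf 2) (.leaf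
  52))))) (.bis 2 6 2 1 225 (.bis 3 6 2 1 231 (.bis 6 7 1 1 218 (.bis 1 5 1 2 286 (.leaf 2) (.bis
  1 7 1 2 287 (.leaf 2) (.leaf 5))) (.bis 1 5 1 2 286 (.bis 4 6 2 1 250 (.leaf 4) (.leaf 2))
  (.leaf 42))) (.bis 1 5 1 2 286 (.leaf 2) (.bis 1 7 1 2 287 (.leaf 2) (.leaf 5)))) (.bis 1 2 1 4
  295 (.leaf 2) (.bis 1 5 1 2 286 (.leaf 2) (.bis 1 7 1 2 287 (.leaf 2) (.leaf 5)))))) (.bis 0 6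
  4 1 223 (.bis 2 6 2 1 225 (.bis 3 6 2 1 231 (.bis 6 7 1 1 218 (.bis 1 5 1 2 286 (.leaf 2) (.bis
  1 7 1 2 287 (.bis 0 7 1 2 252 (.leaf 2) (.leaf 2)) (.leaf 5))) (.bis 1 5 1 2 286 (.bis 4 6 2 1
  250 (.bis 5 6 1 1 219 (.leaf 4) (.leaf 2)) (.bis 4 5 2 1 251 (.leaf 2) (.leaf 2))) (.bis 4 6 2
  1 250 (.leaf 10) (.leaf 5)))) (.bis 1 5 1 2 286 (.leaf 2) (.bis 1 7 1 2 287 (.bis 0 7 1 2 252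
  (.leaf 2) (.leaf 2)) (.leaf 5)))) (.bis 1 2 1 4 295 (.bis 0 7 1 2 252 (.leaf 2) (.bis 4 5 2 1
  251 (.bis 0 5 1 2 237 (.leaf 2) (.leaf 2)) (.leaf 2))) (.bis 1 5 1 2 286 (.leaf 2) (.bis 1 7 1
  2 287 (.bis 0 7 1 2 252 (.leaf 2) (.leaf 2)) (.leaf 5))))) (.bis 0 5 4 1 85 (.bis 1 2 1 4 295
  (.bis 6 7 1 2 252 (.leaf 2) (.bis 4 5 2 1 251 (.bis 5 6 2 1 237 (.leaf 2) (.leaf 2)) (.leaf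
  2))) (.bis 1 5 1 2 286 (.leaf 2) (.bis 1 7 1 2 287 (.leaf 2) (.leaf 5)))) (.bis 0 7 4 1 86
  (.bis 1 2 1 4 295 (.bis 6 7 1 2 252 (.leaf 2) (.leaf 2)) (.bis 1 7 1 2 287 (.leaf 2) (.bis 1 3
  1 4 298 (.leaf 2) (.leaf 5)))) (.bis 0 1 8 1 293 (.bis 1 2 1 4 295 (.leaf 2) (.bis 1 3 1 4 298
  (.leaf 2) (.bis 1 4 1 4 301 (.leaf 2) (.leaf 5)))) (.leaf 11)))))) (.bis 6 7 1 4 215 (.bis 1 7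
  1 8 289 (.bis 0 7 1 1 68 (.bis 4 7 1 2 249 (.bis 6 7 1 8 217 (.bis 3 7 1 2 190 (.bis 5 7 1 4 26
  (.leaf 32) (.leaf 14)) (.bis 0 5 2 1 302 (.leaf 14) (.leaf 14))) (.leaf 14)) (.leaf 14)) (.bis
  0 5 4 1 85 (.leaf 14) (.bis 0 8 4 1 86 (.leaf 14) (.bis 0 6 8 1 222 (.leaf 14) (.bis 0 1 16 1
  294 (.leaf 14) (.leaf 21)))))) (.bis 0 5 4 1 85 (.bis 1 2 1 4 295 (.leaf 2) (.bis 1 5 1 2 286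
  (.leaf 2) (.bis 1 8 1 2 287 (.leaf 2) (.bis 1 3 1 4 298 (.leaf 2) (.bis 1 4 1 4 301 (.leaf 2)
  (.leaf 5)))))) (.bis 0 8 4 1 86 (.bis 1 2 1 4 295 (.leaf 2) (.bis 1 8 1 2 287 (.leaf 2) (.bis 1
  3 1 4 298 (.leaf 2) (.bis 1 4 1 4 301 (.leaf 2) (.leaf 5))))) (.bis 0 1 8 1 293 (.bis 1 2 1 4
  295 (.leaf 2) (.bis 1 3 1 4 298 (.leaf 2) (.bis 1 4 1 4 301 (.leaf 2) (.leaf 5)))) (.bis 0 6 8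
  1 222 (.leaf 2) (.bis 0 7 16 1 294 (.leaf 2) (.leaf 11))))))) (.bis 0 6 4 1 223 (.bis 2 6 2 1
  225 (.bis 3 6 2 1 231 (.bis 6 8 1 1 218 (.bis 1 5 1 2 286 (.leaf 2) (.bis 1 8 1 2 287 (.bis 0 8
  1 2 252 (.leaf 2) (.leaf 2)) (.leaf 5))) (.bis 1 5 1 2 286 (.bis 4 6 2 1 250 (.bis 5 6 1 1 219
  (.leaf 4) (.leaf 2)) (.leaf 2)) (.leaf 29))) (.bis 1 5 1 2 286 (.leaf 2) (.bis 1 8 1 2 287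
  (.bis 0 8 1 2 252 (.leaf 2) (.leaf 2)) (.leaf 5)))) (.bis 1 2 1 4 295 (.leaf 2) (.bis 1 5 1 2
  286 (.leaf 2) (.bis 1 8 1 2 287 (.bis 0 8 1 2 252 (.leaf 2) (.leaf 2)) (.leaf 5))))) (.bis 0 5
  4 1 85 (.bis 1 2 1 4 295 (.leaf 2) (.bis 1 5 1 2 286 (.leaf 2) (.bis 1 8 1 2 287 (.leaf 2)
  (.bis 1 3 1 4 298 (.leaf 2) (.leaf 5))))) (.bis 0 8 4 1 86 (.bis 1 2 1 4 295 (.bis 6 8 1 2 252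
  (.leaf 2) (.leaf 2)) (.bis 1 8 1 2 287 (.leaf 2) (.bis 1 3 1 4 298 (.leaf 2) (.bis 1 4 1 4 301
  (.leaf 2) (.leaf 5))))) (.bis 0 1 8 1 293 (.bis 1 2 1 4 295 (.leaf 2) (.bis 1 3 1 4 298 (.leaf
  2) (.bis 1 4 1 4 301 (.leaf 2) (.leaf 5)))) (.bis 0 7 8 1 222 (.leaf 2) (.leaf 11)))))))) (.bis
  2 8 2 1 138 (.bis 0 8 2 1 95 (.bis 4 8 1 1 253 (.bis 7 8 1 1 137 (.bis 3 8 1 1 192 (.bis 1 5 1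
  2 286 (.bis 6 8 1 2 220 (.bis 5 8 1 2 39 (.bis 2 8 1 2 303 (.leaf 4) (.leaf 4)) (.leaf 4))
  (.bis 5 6 1 1 219 (.leaf 4) (.leaf 4))) (.bis 6 8 1 2 220 (.bis 1 8 1 4 288 (.bis 2 8 1 2 303
  (.leaf 4) (.leaf 4)) (.leaf 10)) (.bis 0 6 1 1 228 (.leaf 10) (.leaf 10)))) (.bis 3 6 2 1 231
  (.bis 1 5 1 2 286 (.bis 5 6 1 1 219 (.bis 0 6 1 1 228 (.leaf 4) (.leaf 2)) (.leaf 2)) (.bis 0 6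
  1 1 228 (.leaf 10) (.leaf 5))) (.bis 1 5 1 2 286 (.leaf 2) (.leaf 5)))) (.bis 6 7 1 2 225 (.bis
  1 7 1 4 295 (.bis 2 5 1 1 140 (.leaf 2) (.leaf 2)) (.bis 1 5 1 2 286 (.bis 2 5 1 1 140 (.leaf
  2) (.leaf 2)) (.leaf 5))) (.bis 3 6 2 1 231 (.bis 1 5 1 2 286 (.bis 5 6 1 1 219 (.leaf 4)
  (.leaf 2)) (.leaf 10)) (.bis 1 5 1 2 286 (.leaf 2) (.leaf 5))))) (.bis 6 7 1 2 225 (.bis 1 7 1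
  4 295 (.bis 2 5 1 1 140 (.bis 4 5 2 1 251 (.leaf 2) (.leaf 2)) (.leaf 2)) (.bis 1 5 1 2 286
  (.bis 2 5 1 1 140 (.leaf 2) (.leaf 2)) (.leaf 5))) (.bis 3 6 2 1 231 (.bis 1 5 1 2 286 (.bis 4
  6 2 1 250 (.bis 5 6 1 1 219 (.leaf 4) (.leaf 2)) (.bis 2 5 1 1 140 (.leaf 2) (.leaf 2))) (.leaf
  42)) (.bis 1 5 1 2 286 (.bis 2 5 1 1 140 (.leaf 2) (.leaf 2)) (.leaf 5))))) (.bis 0 6 4 1 223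
  (.bis 6 7 1 2 225 (.bis 1 7 1 4 295 (.bis 2 5 1 1 140 (.bis 4 5 2 1 251 (.bis 0 5 1 2 237
  (.leaf 2) (.leaf 2)) (.leaf 2)) (.leaf 2)) (.bis 1 5 1 2 286 (.bis 2 5 1 1 140 (.bis 4 5 2 1
  251 (.leaf 2) (.leaf 2)) (.leaf 2)) (.leaf 5))) (.bis 3 6 2 1 231 (.bis 1 5 1 2 286 (.bis 4 6 2
  1 250 (.bis 5 6 1 1 219 (.leaf 4) (.bis 2 5 1 1 140 (.leaf 2) (.leaf 2))) (.bis 2 5 1 1 140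
  (.bis 4 5 2 1 251 (.leaf 2) (.leaf 2)) (.leaf 2))) (.leaf 42)) (.bis 1 5 1 2 286 (.bis 2 5 1 1
  140 (.bis 4 5 2 1 251 (.leaf 2) (.leaf 2)) (.leaf 2)) (.leaf 5)))) (.bis 0 5 4 1 85 (.bis 1 7 1
  4 295 (.bis 2 5 1 1 140 (.bis 4 5 2 1 251 (.leaf 2) (.leaf 2)) (.leaf 2)) (.bis 1 5 1 2 286
  (.bis 2 5 1 1 140 (.bis 4 5 2 1 251 (.leaf 2) (.leaf 2)) (.leaf 2)) (.leaf 5))) (.bis 0 1 8 1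
  293 (.bis 1 7 1 4 295 (.leaf 2) (.leaf 5)) (.bis 0 2 4 1 144 (.leaf 2) (.leaf 11)))))) (.bis 2
  5 4 1 151 (.bis 0 6 4 1 223 (.bis 6 7 1 2 225 (.bis 1 7 1 4 295 (.bis 5 8 1 1 140 (.leaf 2)
  (.bis 4 5 2 1 251 (.bis 0 5 1 2 237 (.leaf 2) (.leaf 2)) (.leaf 2))) (.bis 1 5 1 2 286 (.bis 5
  8 1 1 140 (.leaf 2) (.bis 4 5 2 1 251 (.leaf 2) (.leaf 2))) (.leaf 5))) (.bis 3 6 2 1 231 (.bis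
  1 5 1 2 286 (.bis 4 6 2 1 250 (.bis 5 6 1 1 219 (.leaf 10) (.bis 5 8 1 1 140 (.leaf 2) (.leaf
  2))) (.bis 5 8 1 1 140 (.leaf 2) (.bis 4 5 2 1 251 (.leaf 2) (.leaf 2)))) (.leaf 42)) (.bis 1 5
  1 2 286 (.bis 5 8 1 1 140 (.leaf 2) (.bis 4 5 2 1 251 (.leaf 2) (.leaf 2))) (.leaf 5)))) (.bis
  0 5 4 1 85 (.bis 1 7 1 4 295 (.bis 5 8 1 1 140 (.leaf 2) (.bis 4 5 2 1 251 (.bis 5 6 2 1 237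
  (.leaf 2) (.leaf 2)) (.leaf 2))) (.bis 1 5 1 2 286 (.bis 5 8 1 1 140 (.leaf 2) (.bis 4 5 2 1
  251 (.leaf 2) (.leaf 2))) (.bis 1 3 1 4 298 (.leaf 2) (.leaf 5)))) (.bis 0 1 8 1 293 (.bis 1 7
  1 4 295 (.leaf 2) (.bis 1 3 1 4 298 (.leaf 2) (.leaf 5))) (.bis 0 8 4 1 144 (.leaf 2) (.leaf
  11))))) (.bis 0 6 4 1 223 (.bis 2 6 4 1 227 (.bis 6 7 1 2 225 (.bis 1 7 1 4 295 (.leaf 2)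
  (.leaf 5)) (.bis 3 6 2 1 231 (.leaf 42) (.leaf 5))) (.bis 1 7 1 4 295 (.bis 2 4 2 1 255 (.leaf
  2) (.leaf 11)) (.bis 1 2 1 8 296 (.leaf 6) (.leaf 5)))) (.bis 0 1 8 1 293 (.bis 1 7 1 4 295
  (.bis 2 4 2 1 255 (.leaf 2) (.leaf 11)) (.bis 1 2 1 8 296 (.leaf 6) (.leaf 5))) (.bis 0 8 4 1
  144 (.bis 2 4 2 1 255 (.leaf 2) (.leaf 11)) (.bis 2 4 2 1 255 (.bis 0 4 2 1 254 (.leaf 2)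
  (.leaf 11)) (.leaf 11)))))))) (.bis 2 5 2 1 154 (.bis 0 5 2 1 102 (.bis 3 5 1 1 195 (.bis 4 5 1
  1 256 (.bis 1 5 1 4 290 (.bis 6 8 1 2 220 (.bis 7 8 1 2 39 (.leaf 16) (.leaf 16)) (.leaf 16))
  (.bis 1 7 1 2 286 (.bis 6 8 1 2 220 (.bis 7 8 1 2 39 (.bis 2 8 1 2 155 (.leaf 4) (.leaf 4))
  (.leaf 4)) (.leaf 4)) (.bis 6 8 1 2 220 (.bis 1 8 1 4 288 (.bis 2 8 1 2 155 (.leaf 4) (.leaf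
  4)) (.leaf 10)) (.leaf 10)))) (.bis 4 8 1 1 253 (.bis 1 7 1 2 286 (.bis 6 8 1 2 220 (.bis 7 8 1
  2 39 (.bis 2 8 1 2 155 (.bis 0 8 1 2 108 (.leaf 4) (.leaf 4)) (.leaf 4)) (.leaf 4)) (.leaf 4))
  (.bis 6 8 1 2 220 (.bis 1 8 1 4 288 (.bis 2 8 1 2 155 (.bis 0 8 1 2 108 (.leaf 4) (.leaf 4))
  (.leaf 4)) (.leaf 10)) (.leaf 10))) (.bis 1 7 1 2 286 (.bis 4 6 2 1 250 (.leaf 4) (.leaf 2))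
  (.bis 4 6 2 1 250 (.leaf 10) (.leaf 5))))) (.bis 4 8 1 1 253 (.bis 3 8 1 1 192 (.bis 1 7 1 2
  286 (.bis 6 8 1 2 220 (.bis 7 8 1 2 39 (.bis 2 8 1 2 155 (.leaf 4) (.leaf 4)) (.leaf 4)) (.leaf
  4)) (.bis 6 8 1 2 220 (.bis 1 8 1 4 288 (.bis 2 8 1 2 155 (.leaf 4) (.leaf 4)) (.leaf 10))
  (.leaf 10))) (.bis 3 6 2 1 231 (.bis 1 7 1 2 286 (.leaf 4) (.leaf 10)) (.bis 1 7 1 2 286 (.leaf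
  2) (.leaf 5)))) (.bis 3 6 2 1 231 (.bis 1 7 1 2 286 (.bis 4 6 2 1 250 (.leaf 4) (.leaf 2))
  (.bis 4 6 2 1 250 (.leaf 10) (.leaf 5))) (.bis 1 7 1 2 286 (.leaf 2) (.leaf 5))))) (.bis 0 8 2
  1 95 (.bis 4 8 1 1 253 (.bis 3 8 1 1 192 (.bis 1 7 1 2 286 (.bis 6 8 1 2 220 (.bis 7 8 1 2 39
  (.bis 2 8 1 2 155 (.leaf 4) (.leaf 4)) (.leaf 4)) (.leaf 4)) (.bis 6 8 1 2 220 (.bis 1 8 1 4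
  288 (.bis 2 8 1 2 155 (.leaf 4) (.leaf 4)) (.leaf 10)) (.leaf 10))) (.bis 3 6 2 1 231 (.bis 1 7
  1 2 286 (.bis 6 7 1 1 219 (.leaf 2) (.leaf 4)) (.leaf 10)) (.bis 1 7 1 2 286 (.leaf 2) (.leaf
  5)))) (.bis 3 6 2 1 231 (.bis 1 7 1 2 286 (.bis 4 6 2 1 250 (.bis 6 7 1 1 219 (.leaf 2) (.leaf
  4)) (.leaf 2)) (.bis 4 6 2 1 250 (.leaf 10) (.leaf 5))) (.bis 1 7 1 2 286 (.leaf 2) (.leaf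
  5)))) (.bis 0 6 4 1 223 (.bis 3 6 2 1 231 (.bis 1 7 1 2 286 (.bis 4 6 2 1 250 (.bis 6 7 1 1 219
  (.bis 0 7 1 2 237 (.leaf 2) (.leaf 2)) (.leaf 4)) (.bis 4 7 2 1 251 (.leaf 2) (.leaf 2))) (.bis
  4 6 2 1 250 (.leaf 10) (.leaf 5))) (.bis 1 7 1 2 286 (.bis 4 7 2 1 251 (.leaf 2) (.leaf 2))
  (.leaf 5))) (.bis 0 7 4 1 85 (.bis 1 7 1 2 286 (.bis 4 7 2 1 251 (.leaf 2) (.leaf 2)) (.bis 1 3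
  1 4 298 (.leaf 2) (.leaf 5))) (.bis 0 1 8 1 293 (.bis 1 3 1 4 298 (.leaf 2) (.leaf 5)) (.bis 0
  2 4 1 157 (.leaf 2) (.leaf 11))))))) (.bis 2 8 2 1 138 (.bis 0 8 2 1 95 (.bis 4 8 1 1 253 (.bis
  3 8 1 1 192 (.bis 1 7 1 2 286 (.bis 6 8 1 2 220 (.bis 7 8 1 2 39 (.bis 5 8 1 2 155 (.leaf 4)
  (.leaf 4)) (.leaf 4)) (.bis 6 7 1 1 219 (.leaf 4) (.leaf 4))) (.bis 6 8 1 2 220 (.bis 1 8 1 4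
  288 (.bis 5 8 1 2 155 (.leaf 4) (.leaf 4)) (.leaf 10)) (.leaf 10))) (.bis 3 6 2 1 231 (.bis 1 7
  1 2 286 (.bis 6 7 1 1 219 (.leaf 2) (.leaf 4)) (.leaf 10)) (.bis 1 7 1 2 286 (.bis 2 7 1 1 140
  (.leaf 2) (.leaf 2)) (.leaf 5)))) (.bis 3 6 2 1 231 (.bis 1 7 1 2 286 (.bis 4 6 2 1 250 (.bis 6
  7 1 1 219 (.leaf 2) (.leaf 4)) (.bis 2 7 1 1 140 (.leaf 2) (.leaf 2))) (.bis 4 6 2 1 250 (.leaf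
  10) (.leaf 5))) (.bis 1 7 1 2 286 (.bis 2 7 1 1 140 (.leaf 2) (.leaf 2)) (.leaf 5)))) (.bis 0 6
  4 1 223 (.bis 3 6 2 1 231 (.bis 1 7 1 2 286 (.bis 4 6 2 1 250 (.bis 6 7 1 1 219 (.bis 2 7 1 1
  140 (.leaf 2) (.leaf 2)) (.leaf 4)) (.bis 2 7 1 1 140 (.bis 4 7 2 1 251 (.leaf 2) (.leaf 2))
  (.leaf 2))) (.bis 4 6 2 1 250 (.leaf 10) (.leaf 5))) (.bis 1 7 1 2 286 (.bis 2 7 1 1 140 (.bis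
  4 7 2 1 251 (.leaf 2) (.leaf 2)) (.leaf 2)) (.leaf 5))) (.bis 0 7 4 1 85 (.bis 1 7 1 2 286
  (.bis 2 7 1 1 140 (.leaf 2) (.leaf 2)) (.leaf 5)) (.bis 0 1 8 1 293 (.leaf 5) (.bis 0 5 4 1 157
  (.leaf 2) (.leaf 11)))))) (.bis 2 7 4 1 151 (.bis 0 6 4 1 223 (.bis 3 6 2 1 231 (.bis 1 7 1 2
  286 (.bis 4 6 2 1 250 (.bis 6 7 1 1 219 (.bis 7 8 1 1 140 (.leaf 2) (.leaf 2)) (.leaf 10))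
  (.bis 7 8 1 1 140 (.leaf 2) (.bis 4 7 2 1 251 (.leaf 2) (.leaf 2)))) (.leaf 42)) (.bis 1 7 1 2
  286 (.bis 7 8 1 1 140 (.leaf 2) (.bis 4 7 2 1 251 (.leaf 2) (.leaf 2))) (.leaf 5))) (.bis 0 7 4
  1 85 (.bis 1 7 1 2 286 (.bis 7 8 1 1 140 (.leaf 2) (.leaf 2)) (.bis 1 3 1 4 298 (.leaf 2)
  (.leaf 5))) (.bis 0 1 8 1 293 (.bis 1 3 1 4 298 (.leaf 2) (.leaf 5)) (.bis 0 5 4 1 157 (.leaf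
  2) (.bis 0 8 4 1 144 (.leaf 2) (.leaf 11)))))) (.bis 0 6 4 1 223 (.bis 2 6 4 1 227 (.bis 3 6 2
  1 231 (.bis 4 6 2 1 250 (.leaf 10) (.leaf 5)) (.leaf 5)) (.bis 1 2 1 8 296 (.leaf 6) (.leaf
  5))) (.bis 0 1 8 1 293 (.bis 1 2 1 8 296 (.leaf 6) (.leaf 5)) (.bis 0 5 4 1 157 (.bis 2 4 2 1
  255 (.leaf 2) (.leaf 6)) (.bis 0 8 4 1 144 (.leaf 6) (.bis 2 4 2 1 255 (.leaf 11) (.leaf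
  11)))))))))) (.bis 3 5 2 1 196 (.bis 2 5 2 1 154 (.bis 0 5 2 1 102 (.bis 5 7 1 1 195 (.bis 4 8
  1 1 253 (.bis 7 8 1 1 192 (.bis 6 8 1 2 220 (.bis 1 8 1 4 288 (.bis 2 8 1 2 155 (.bis 3 8 1 2
  246 (.leaf 4) (.leaf 4)) (.leaf 4)) (.leaf 10)) (.leaf 10)) (.bis 6 7 1 2 231 (.leaf 5) (.leaf
  10))) (.bis 6 7 1 2 231 (.leaf 5) (.bis 4 6 2 1 250 (.leaf 10) (.leaf 5)))) (.bis 4 5 1 1 256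
  (.bis 1 5 1 4 290 (.bis 6 8 1 2 220 (.bis 2 8 1 2 155 (.bis 3 8 1 2 246 (.leaf 16) (.leaf 16))
  (.bis 3 5 1 2 299 (.leaf 16) (.leaf 4))) (.bis 3 5 1 2 299 (.leaf 16) (.leaf 4))) (.bis 6 8 1 2
  220 (.bis 1 8 1 4 288 (.bis 2 8 1 2 155 (.bis 3 8 1 2 246 (.leaf 4) (.leaf 4)) (.leaf 4))
  (.leaf 10)) (.leaf 10))) (.bis 4 8 1 1 253 (.bis 6 8 1 2 220 (.bis 1 8 1 4 288 (.bis 2 8 1 2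
  155 (.bis 3 8 1 2 246 (.leaf 4) (.leaf 4)) (.leaf 4)) (.leaf 10)) (.leaf 10)) (.bis 4 6 2 1 250
  (.leaf 10) (.leaf 5))))) (.bis 0 8 2 1 95 (.bis 4 8 1 1 253 (.bis 7 8 1 1 192 (.bis 6 8 1 2 220
  (.bis 1 8 1 4 288 (.bis 2 8 1 2 155 (.leaf 4) (.leaf 4)) (.leaf 10)) (.leaf 10)) (.bis 6 7 1 2
  231 (.leaf 5) (.leaf 10))) (.bis 6 7 1 2 231 (.leaf 5) (.bis 4 6 2 1 250 (.leaf 10) (.leaf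
  5)))) (.bis 0 6 4 1 223 (.bis 6 7 1 2 231 (.leaf 5) (.bis 4 6 2 1 250 (.leaf 10) (.leaf 5)))
  (.bis 0 1 8 1 293 (.leaf 5) (.bis 0 3 4 1 199 (.leaf 2) (.bis 0 2 4 1 157 (.leaf 2) (.leaf
  11))))))) (.bis 2 8 2 1 138 (.bis 0 8 2 1 95 (.bis 4 8 1 1 253 (.bis 7 8 1 1 192 (.bis 6 8 1 2
  220 (.bis 1 8 1 4 288 (.bis 5 8 1 2 155 (.leaf 4) (.leaf 4)) (.leaf 10)) (.leaf 10)) (.bis 6 7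
  1 2 231 (.leaf 5) (.leaf 10))) (.bis 6 7 1 2 231 (.leaf 5) (.bis 4 6 2 1 250 (.leaf 10) (.leaf
  5)))) (.bis 0 6 4 1 223 (.bis 6 7 1 2 231 (.leaf 5) (.bis 4 6 2 1 250 (.leaf 10) (.leaf 5)))
  (.bis 0 1 8 1 293 (.leaf 5) (.bis 0 3 4 1 199 (.leaf 2) (.bis 0 5 4 1 157 (.leaf 2) (.leaf
  11)))))) (.bis 0 6 4 1 223 (.bis 2 6 4 1 227 (.bis 6 7 1 2 231 (.leaf 5) (.bis 4 6 2 1 250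
  (.leaf 10) (.leaf 5))) (.bis 1 2 1 8 296 (.bis 2 3 4 1 200 (.leaf 2) (.leaf 6)) (.leaf 5)))
  (.bis 0 1 8 1 293 (.bis 1 2 1 8 296 (.bis 2 3 4 1 200 (.leaf 2) (.leaf 6)) (.leaf 5)) (.bis 0 3
  4 1 199 (.bis 2 3 4 1 200 (.leaf 2) (.leaf 6)) (.bis 0 5 4 1 157 (.bis 2 4 2 1 255 (.leaf 2)
  (.leaf 6)) (.bis 0 8 4 1 144 (.leaf 6) (.bis 2 4 2 1 255 (.leaf 11) (.leaf 11))))))))) (.bis 3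
  8 2 1 202 (.bis 2 8 2 1 138 (.bis 0 8 2 1 95 (.bis 4 8 1 1 253 (.bis 7 8 1 1 192 (.bis 6 8 1 2
  220 (.bis 1 8 1 4 288 (.bis 5 8 1 2 246 (.leaf 4) (.leaf 4)) (.leaf 10)) (.leaf 10)) (.bis 6 7
  1 2 231 (.leaf 5) (.bis 0 6 1 1 228 (.leaf 10) (.leaf 5)))) (.bis 6 7 1 2 231 (.leaf 5) (.bis 4
  6 2 1 250 (.leaf 10) (.leaf 5)))) (.bis 0 6 4 1 223 (.bis 6 7 1 2 231 (.leaf 5) (.bis 4 6 2 1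
  250 (.leaf 10) (.leaf 5))) (.bis 0 1 8 1 293 (.leaf 5) (.bis 0 5 4 1 199 (.leaf 2) (.bis 0 3 4
  1 206 (.leaf 2) (.leaf 11)))))) (.bis 0 6 4 1 223 (.bis 2 6 4 1 227 (.bis 6 7 1 2 231 (.leaf 5)
  (.bis 4 6 2 1 250 (.leaf 10) (.leaf 5))) (.bis 1 2 1 8 296 (.bis 2 5 4 1 200 (.leaf 2) (.leaf
  6)) (.leaf 5))) (.bis 0 1 8 1 293 (.bis 1 2 1 8 296 (.bis 2 5 4 1 200 (.leaf 2) (.leaf 6))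
  (.leaf 5)) (.bis 0 5 4 1 199 (.bis 2 5 4 1 200 (.leaf 2) (.leaf 6)) (.bis 0 3 4 1 206 (.bis 2 4
  2 1 255 (.leaf 2) (.leaf 6)) (.bis 0 8 4 1 144 (.bis 2 4 2 1 255 (.leaf 2) (.leaf 6)) (.bis 2 4
  2 1 255 (.leaf 11) (.leaf 11)))))))) (.bis 0 6 4 1 223 (.bis 2 6 4 1 227 (.bis 3 6 4 1 244
  (.bis 6 7 1 2 231 (.leaf 5) (.bis 4 6 2 1 250 (.leaf 10) (.bis 1 4 1 4 301 (.leaf 2) (.leaf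
  5)))) (.bis 1 7 1 4 298 (.bis 0 3 1 8 245 (.leaf 6) (.leaf 2)) (.bis 1 3 1 8 300 (.bis 0 3 1 8
  245 (.bis 3 4 2 1 271 (.leaf 5) (.leaf 6)) (.leaf 5)) (.bis 1 4 1 4 301 (.leaf 5) (.leaf 5)))))
  (.bis 1 2 1 8 296 (.leaf 6) (.bis 1 7 1 4 298 (.bis 0 3 1 8 245 (.leaf 6) (.leaf 2)) (.bis 1 3
  1 8 300 (.leaf 6) (.bis 1 4 1 4 301 (.leaf 5) (.leaf 5)))))) (.bis 0 1 8 1 293 (.bis 1 2 1 8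
  296 (.leaf 6) (.bis 1 7 1 4 298 (.bis 3 6 8 1 245 (.leaf 2) (.leaf 6)) (.bis 1 3 1 8 300 (.leaf
  6) (.bis 1 4 1 4 301 (.leaf 5) (.leaf 5))))) (.bis 0 5 4 1 199 (.bis 2 5 4 1 200 (.bis 3 6 8 1
  245 (.leaf 2) (.leaf 6)) (.leaf 6)) (.bis 0 3 1 1 213 (.leaf 6) (.leaf 11))))))))

def lc17 : List Vr := [⟨[24,0,0,0,0,0,0,0,0], 6912, 0⟩, ⟨[0,112,0,0,0,0,85,0,155], 406901, 0⟩,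
  ⟨[0,0,17,0,0,0,0,0,0], 6936, 0⟩, ⟨[0,0,0,13,0,0,0,0,0], 6760, 0⟩, ⟨[0,0,0,0,19,0,0,42,0], 33789,
   0⟩, ⟨[0,0,0,0,0,30,0,0,94], 29760, 0⟩, ⟨[0,0,0,0,38,0,85,0,155], 206149, 0⟩, ⟨[0,0,0,0,0,0,0,
  42,0], 7056, 0⟩, ⟨[0,28,0,0,0,0,0,0,84], 25872, 0⟩]

theorem lk17 : chkTr lowT (leafLow 2 lowB) lt17 lc17 = true := by decide +kernel

def lt18 : Tr ℕ := (.bis 4 8 2 1 259 (.bis 3 5 2 1 196 (.bis 2 5 2 1 154 (.bis 0 5 2 1 102 (.bis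
  5 7 1 1 256 (.bis 7 8 1 1 253 (.bis 6 8 1 2 220 (.bis 4 8 1 2 281 (.bis 1 8 1 4 288 (.bis 2 8 1
  2 155 (.leaf 4) (.leaf 4)) (.leaf 10)) (.leaf 10)) (.leaf 10)) (.bis 6 7 1 2 250 (.leaf 5)
  (.leaf 10))) (.bis 1 5 1 4 290 (.bis 4 5 1 2 263 (.bis 6 8 1 2 220 (.bis 2 8 1 2 155 (.leaf 16)
  (.leaf 16)) (.bis 3 5 1 2 299 (.leaf 16) (.leaf 4))) (.bis 6 8 1 2 220 (.bis 4 8 1 2 281 (.bis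
  2 8 1 2 155 (.bis 3 8 1 2 246 (.leaf 4) (.leaf 4)) (.leaf 4)) (.leaf 10)) (.leaf 10))) (.bis 6
  8 1 2 220 (.bis 4 8 1 2 281 (.bis 1 8 1 4 288 (.bis 2 8 1 2 155 (.leaf 4) (.leaf 4)) (.leaf
  10)) (.leaf 10)) (.leaf 10)))) (.bis 0 8 2 1 95 (.bis 7 8 1 1 253 (.bis 6 8 1 2 220 (.bis 4 8 1
  2 281 (.bis 1 8 1 4 288 (.bis 2 8 1 2 155 (.leaf 4) (.leaf 4)) (.leaf 10)) (.leaf 10)) (.leaf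
  10)) (.bis 6 7 1 2 250 (.leaf 5) (.leaf 10))) (.bis 0 6 4 1 223 (.bis 6 7 1 2 250 (.bis 1 7 1 4
  301 (.leaf 2) (.leaf 5)) (.leaf 10)) (.bis 0 1 8 1 293 (.bis 1 7 1 4 301 (.leaf 2) (.leaf 5))
  (.bis 0 3 4 1 199 (.leaf 2) (.bis 0 4 4 1 266 (.leaf 2) (.bis 0 2 4 1 157 (.leaf 2) (.leaf
  11)))))))) (.bis 2 8 2 1 138 (.bis 0 8 2 1 95 (.bis 7 8 1 1 253 (.bis 6 8 1 2 220 (.bis 4 8 1 2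
  281 (.bis 1 8 1 4 288 (.bis 5 8 1 2 155 (.leaf 4) (.leaf 4)) (.leaf 10)) (.leaf 10)) (.leaf
  10)) (.bis 6 7 1 2 250 (.leaf 5) (.leaf 10))) (.bis 0 6 4 1 223 (.bis 6 7 1 2 250 (.bis 1 7 1 4
  301 (.leaf 2) (.leaf 5)) (.leaf 10)) (.bis 0 1 8 1 293 (.bis 1 7 1 4 301 (.leaf 2) (.leaf 5))
  (.bis 0 3 4 1 199 (.leaf 2) (.bis 0 4 4 1 266 (.leaf 2) (.bis 0 5 4 1 157 (.leaf 2) (.leaf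
  11))))))) (.bis 0 6 4 1 223 (.bis 2 6 4 1 227 (.bis 6 7 1 2 250 (.bis 1 7 1 4 301 (.leaf 2)
  (.leaf 5)) (.leaf 10)) (.bis 1 2 1 8 296 (.bis 2 3 4 1 200 (.bis 7 8 2 1 282 (.leaf 2) (.leaf
  2)) (.bis 2 4 4 1 269 (.bis 7 8 2 1 282 (.leaf 2) (.leaf 2)) (.bis 2 7 2 1 255 (.leaf 2) (.leaf
  6)))) (.bis 1 7 1 4 301 (.leaf 2) (.leaf 5)))) (.bis 0 1 8 1 293 (.bis 1 2 1 8 296 (.bis 2 3 4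
  1 200 (.leaf 2) (.leaf 6)) (.bis 1 7 1 4 301 (.leaf 2) (.leaf 5))) (.bis 0 3 4 1 199 (.bis 2 3
  4 1 200 (.leaf 2) (.bis 2 4 4 1 269 (.leaf 2) (.leaf 6))) (.bis 0 4 4 1 266 (.bis 2 4 4 1 269
  (.leaf 2) (.leaf 6)) (.bis 0 5 4 1 157 (.bis 2 7 2 1 255 (.leaf 2) (.leaf 6)) (.leaf 11))))))))
  (.bis 3 8 2 1 202 (.bis 2 8 2 1 138 (.bis 0 8 2 1 95 (.bis 7 8 1 1 253 (.bis 6 8 1 2 220 (.bis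
  4 8 1 2 281 (.bis 1 8 1 4 288 (.bis 5 8 1 2 246 (.leaf 4) (.leaf 4)) (.leaf 10)) (.leaf 10))
  (.leaf 10)) (.bis 6 7 1 2 250 (.bis 1 7 1 4 301 (.leaf 2) (.leaf 5)) (.leaf 10))) (.bis 0 6 4 1
  223 (.bis 6 7 1 2 250 (.bis 1 7 1 4 301 (.leaf 2) (.leaf 5)) (.leaf 10)) (.bis 0 1 8 1 293
  (.bis 1 7 1 4 301 (.leaf 2) (.leaf 5)) (.bis 0 5 4 1 199 (.leaf 2) (.bis 0 4 4 1 266 (.leaf 2)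
  (.bis 0 3 4 1 206 (.leaf 2) (.leaf 11))))))) (.bis 0 6 4 1 223 (.bis 2 6 4 1 227 (.bis 6 7 1 2
  250 (.bis 1 7 1 4 301 (.leaf 2) (.leaf 5)) (.leaf 10)) (.bis 1 2 1 8 296 (.bis 2 5 4 1 200
  (.bis 3 7 1 2 283 (.leaf 2) (.leaf 2)) (.bis 2 4 4 1 269 (.bis 3 7 1 2 283 (.leaf 2) (.leaf 2))
  (.bis 2 7 2 1 255 (.leaf 2) (.leaf 6)))) (.bis 1 7 1 4 301 (.leaf 2) (.leaf 5)))) (.bis 0 1 8 1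
  293 (.bis 1 2 1 8 296 (.bis 2 5 4 1 200 (.bis 3 7 1 2 283 (.leaf 2) (.leaf 2)) (.leaf 6)) (.bis
  1 7 1 4 301 (.leaf 2) (.leaf 5))) (.bis 0 5 4 1 199 (.bis 2 5 4 1 200 (.leaf 2) (.bis 2 4 4 1
  269 (.leaf 2) (.leaf 6))) (.bis 0 4 4 1 266 (.bis 2 4 4 1 269 (.leaf 2) (.leaf 6)) (.bis 0 3 4
  1 206 (.bis 2 7 2 1 255 (.leaf 2) (.leaf 6)) (.leaf 11))))))) (.bis 0 6 4 1 223 (.bis 2 6 4 1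
  227 (.bis 3 6 4 1 244 (.bis 6 7 1 2 250 (.bis 1 7 1 4 301 (.leaf 2) (.leaf 5)) (.leaf 10))
  (.bis 1 3 1 8 300 (.bis 0 3 1 8 245 (.bis 3 7 2 1 271 (.leaf 5) (.leaf 6)) (.bis 7 8 2 1 283
  (.leaf 5) (.leaf 5))) (.bis 1 7 1 4 301 (.leaf 5) (.leaf 5)))) (.bis 1 2 1 8 296 (.bis 2 5 4 1
  200 (.bis 0 3 1 8 245 (.bis 3 7 2 1 271 (.leaf 5) (.leaf 6)) (.leaf 2)) (.leaf 6)) (.bis 1 3 1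
  8 300 (.bis 0 3 1 8 245 (.bis 3 7 2 1 271 (.leaf 5) (.leaf 6)) (.bis 7 8 2 1 283 (.leaf 5)
  (.leaf 5))) (.bis 1 7 1 4 301 (.leaf 5) (.leaf 5))))) (.bis 0 1 8 1 293 (.bis 1 2 1 8 296 (.bis
  2 5 4 1 200 (.leaf 6) (.leaf 6)) (.bis 1 3 1 8 300 (.bis 3 6 8 1 245 (.leaf 5) (.bis 3 7 2 1
  271 (.leaf 5) (.leaf 6))) (.bis 1 7 1 4 301 (.leaf 5) (.leaf 5)))) (.bis 0 5 4 1 199 (.bis 2 5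
  4 1 200 (.bis 3 6 8 1 245 (.leaf 2) (.leaf 6)) (.leaf 6)) (.bis 0 4 4 1 266 (.leaf 6) (.bis 0 3
  1 1 213 (.leaf 6) (.leaf 11)))))))) (.bis 4 5 2 1 260 (.bis 3 5 2 1 196 (.bis 2 5 2 1 154 (.bis
  0 5 2 1 102 (.bis 5 7 1 1 256 (.bis 6 7 1 2 250 (.bis 1 7 1 4 301 (.leaf 5) (.leaf 5)) (.leaf
  10)) (.bis 1 5 1 4 290 (.bis 5 8 2 1 263 (.leaf 10) (.bis 4 5 1 2 264 (.leaf 16) (.leaf 10)))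
  (.leaf 10))) (.bis 0 6 4 1 223 (.bis 6 7 1 2 250 (.bis 1 7 1 4 301 (.leaf 5) (.leaf 5)) (.leaf
  10)) (.bis 0 1 8 1 293 (.bis 1 7 1 4 301 (.leaf 5) (.leaf 5)) (.bis 0 4 4 1 265 (.leaf 5) (.bis
  0 3 4 1 199 (.leaf 2) (.bis 0 8 4 1 266 (.leaf 2) (.bis 0 2 4 1 157 (.leaf 2) (.leaf 11))))))))
  (.bis 0 6 4 1 223 (.bis 2 6 4 1 227 (.bis 6 7 1 2 250 (.bis 1 7 1 4 301 (.leaf 5) (.leaf 5))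
  (.leaf 10)) (.bis 1 2 1 8 296 (.bis 2 4 4 1 267 (.bis 3 7 1 2 268 (.leaf 5) (.leaf 5)) (.bis 2
  3 4 1 200 (.bis 3 7 1 2 268 (.leaf 2) (.leaf 2)) (.leaf 6))) (.bis 1 7 1 4 301 (.leaf 5) (.leaf
  5)))) (.bis 0 1 8 1 293 (.bis 1 2 1 8 296 (.bis 2 4 4 1 267 (.leaf 5) (.bis 2 3 4 1 200 (.leaf
  2) (.leaf 6))) (.bis 1 7 1 4 301 (.leaf 5) (.leaf 5))) (.bis 0 4 4 1 265 (.bis 2 4 4 1 267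
  (.leaf 5) (.bis 2 3 4 1 200 (.leaf 2) (.leaf 6))) (.bis 0 3 4 1 199 (.bis 2 3 4 1 200 (.leaf 2)
  (.bis 2 8 4 1 269 (.leaf 2) (.leaf 6))) (.bis 0 8 4 1 266 (.bis 2 8 4 1 269 (.leaf 2) (.leaf
  6)) (.bis 0 5 4 1 157 (.bis 2 7 2 1 255 (.leaf 2) (.leaf 6)) (.bis 2 7 2 1 255 (.leaf 11)
  (.leaf 11))))))))) (.bis 0 6 4 1 223 (.bis 2 6 4 1 227 (.bis 3 6 4 1 244 (.bis 6 7 1 2 250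
  (.bis 1 7 1 4 301 (.leaf 5) (.leaf 5)) (.leaf 10)) (.bis 1 3 1 8 300 (.bis 0 3 1 8 245 (.bis 3
  4 4 1 270 (.bis 5 7 1 2 268 (.leaf 5) (.leaf 5)) (.bis 3 7 2 1 271 (.leaf 5) (.leaf 6))) (.bis
  5 7 1 2 268 (.leaf 5) (.leaf 5))) (.bis 1 7 1 4 301 (.leaf 5) (.leaf 5)))) (.bis 1 2 1 8 296
  (.bis 2 4 4 1 267 (.bis 0 3 1 8 245 (.leaf 6) (.leaf 5)) (.leaf 6)) (.bis 1 3 1 8 300 (.bis 0 3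
  1 8 245 (.bis 3 4 4 1 270 (.bis 5 7 1 2 268 (.leaf 5) (.leaf 5)) (.bis 3 7 2 1 271 (.leaf 5)
  (.leaf 6))) (.bis 5 7 1 2 268 (.leaf 5) (.leaf 5))) (.bis 1 7 1 4 301 (.leaf 5) (.leaf 5)))))
  (.bis 0 1 8 1 293 (.bis 1 2 1 8 296 (.bis 2 4 4 1 267 (.bis 3 6 8 1 245 (.leaf 5) (.leaf 6))
  (.leaf 6)) (.bis 1 3 1 8 300 (.bis 3 6 8 1 245 (.leaf 5) (.leaf 6)) (.bis 1 7 1 4 301 (.leaf 5)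
  (.leaf 5)))) (.bis 0 4 4 1 265 (.bis 2 4 4 1 267 (.bis 3 6 8 1 245 (.leaf 5) (.bis 3 4 4 1 270
  (.leaf 5) (.leaf 6))) (.leaf 6)) (.bis 0 5 4 1 199 (.bis 2 5 4 1 200 (.bis 3 6 8 1 245 (.leaf
  2) (.leaf 6)) (.leaf 6)) (.bis 0 8 4 1 266 (.bis 3 6 8 1 245 (.bis 2 8 4 1 269 (.leaf 2) (.leaf
  6)) (.leaf 6)) (.bis 0 3 1 1 213 (.bis 3 6 8 1 245 (.leaf 6) (.leaf 6)) (.leaf 11)))))))) (.bis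
  0 6 4 1 223 (.bis 2 6 4 1 227 (.bis 3 6 4 1 244 (.bis 4 6 4 1 277 (.bis 6 7 1 2 250 (.bis 1 7 1
  4 301 (.leaf 5) (.leaf 5)) (.leaf 42)) (.bis 1 4 1 8 304 (.bis 0 4 1 8 278 (.bis 4 7 2 1 279
  (.leaf 5) (.leaf 22)) (.bis 5 7 1 2 276 (.leaf 5) (.leaf 5))) (.bis 1 7 1 4 301 (.leaf 5)
  (.leaf 5)))) (.bis 1 4 1 8 304 (.bis 0 4 1 8 278 (.bis 3 5 4 1 270 (.bis 4 7 2 1 279 (.leaf 5)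
  (.leaf 22)) (.bis 4 7 2 1 279 (.leaf 6) (.leaf 22))) (.bis 0 3 1 8 245 (.bis 3 5 4 1 270 (.bis
  5 7 1 2 276 (.leaf 5) (.leaf 5)) (.bis 3 7 2 1 271 (.leaf 5) (.leaf 6))) (.leaf 5))) (.bis 1 3
  1 8 300 (.bis 0 3 1 8 245 (.bis 3 5 4 1 270 (.bis 1 7 1 8 305 (.leaf 5) (.leaf 5)) (.bis 3 7 2
  1 271 (.leaf 5) (.leaf 6))) (.bis 1 7 1 8 305 (.leaf 5) (.leaf 5))) (.bis 1 7 1 4 301 (.leaf 5)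
  (.leaf 5))))) (.bis 1 4 1 8 304 (.bis 2 5 4 1 267 (.leaf 22) (.leaf 22)) (.bis 1 2 1 8 296
  (.bis 2 5 4 1 267 (.bis 0 3 1 8 245 (.leaf 6) (.leaf 5)) (.leaf 6)) (.bis 1 3 1 8 300 (.bis 0 3
  1 8 245 (.bis 3 5 4 1 270 (.bis 1 7 1 8 305 (.leaf 5) (.leaf 5)) (.bis 3 7 2 1 271 (.leaf 5)
  (.leaf 6))) (.leaf 5)) (.bis 1 7 1 4 301 (.leaf 5) (.leaf 5)))))) (.bis 0 4 1 1 280 (.bis 1 4 1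
  8 304 (.bis 2 5 4 1 267 (.leaf 22) (.leaf 22)) (.bis 1 2 1 8 296 (.leaf 6) (.leaf 13))) (.bis 0
  1 8 1 293 (.bis 1 2 1 8 296 (.leaf 6) (.bis 1 3 1 8 300 (.leaf 6) (.leaf 5))) (.bis 0 5 4 1 265
  (.bis 2 5 4 1 267 (.bis 3 6 8 1 245 (.leaf 5) (.leaf 6)) (.leaf 6)) (.bis 0 8 4 1 266 (.leaf 6)
  (.bis 0 3 1 1 213 (.leaf 6) (.leaf 11)))))))))

def lc18 : List Vr := [⟨[24,0,0,0,0,0,0,0,0], 6912, 0⟩, ⟨[0,112,0,0,0,0,85,0,155], 406901, 0⟩,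
  ⟨[0,0,17,0,0,0,0,0,0], 6936, 0⟩, ⟨[0,0,0,13,0,0,0,0,0], 6760, 0⟩, ⟨[0,0,0,0,19,0,0,0,0], 7581,
  0⟩, ⟨[0,0,0,0,0,30,0,0,94], 29760, 0⟩, ⟨[0,0,0,0,38,0,85,0,155], 206149, 0⟩, ⟨[0,0,0,0,19,0,0,
  42,0], 33789, 0⟩, ⟨[0,28,0,0,0,0,0,0,84], 25872, 0⟩]

theorem lk18 : chkTr lowT (leafLow 2 lowB) lt18 lc18 = true := by decide +kernel

def lt19 : Tr ℕ := (.bis 4 7 1 1 247 (.bis 3 7 1 1 187 (.bis 5 7 1 2 19 (.bis 2 7 1 1 130 (.bis 7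
  8 2 1 20 (.bis 0 8 2 1 95 (.bis 4 8 1 1 253 (.bis 2 8 1 1 137 (.bis 3 8 1 1 192 (.bis 1 8 1 1
  307 (.bis 5 6 2 1 286 (.bis 6 7 1 2 287 (.bis 7 8 1 2 98 (.bis 0 8 1 2 99 (.leaf 4) (.leaf 4))
  (.leaf 4)) (.bis 6 8 1 4 288 (.bis 0 8 1 2 99 (.leaf 4) (.leaf 4)) (.leaf 10))) (.bis 5 8 1 2
  39 (.bis 7 8 1 2 98 (.leaf 4) (.leaf 4)) (.leaf 2))) (.bis 5 6 2 1 286 (.leaf 52) (.leaf 2)))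
  (.bis 5 6 2 1 286 (.bis 6 7 1 2 287 (.leaf 2) (.leaf 5)) (.leaf 2))) (.bis 2 6 4 1 295 (.bis 5
  6 2 1 286 (.bis 6 7 1 2 287 (.leaf 2) (.leaf 5)) (.leaf 2)) (.bis 1 5 2 1 308 (.leaf 2) (.leaf
  2)))) (.bis 2 6 4 1 295 (.bis 5 6 2 1 286 (.bis 6 7 1 2 287 (.leaf 2) (.leaf 5)) (.leaf 2))
  (.bis 1 5 2 1 308 (.leaf 2) (.leaf 2)))) (.bis 0 5 4 1 85 (.bis 2 6 4 1 295 (.bis 5 6 2 1 286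
  (.bis 6 7 1 2 287 (.leaf 2) (.bis 3 6 4 1 298 (.leaf 5) (.leaf 2))) (.leaf 2)) (.bis 1 5 2 1
  308 (.leaf 2) (.leaf 2))) (.bis 0 7 4 1 86 (.bis 2 6 4 1 295 (.bis 6 7 1 2 287 (.leaf 2) (.bis
  3 6 4 1 298 (.bis 4 6 4 1 301 (.leaf 5) (.leaf 2)) (.leaf 2))) (.bis 4 7 2 1 309 (.leaf 2)
  (.leaf 2))) (.bis 0 6 8 1 293 (.bis 2 6 4 1 295 (.bis 3 6 4 1 298 (.bis 4 6 4 1 301 (.leaf 5)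
  (.leaf 2)) (.leaf 2)) (.leaf 2)) (.bis 0 1 2 1 310 (.leaf 2) (.leaf 11)))))) (.bis 6 7 1 8 289
  (.bis 0 7 1 1 68 (.bis 1 7 1 2 311 (.bis 4 7 1 2 249 (.bis 3 7 1 2 190 (.bis 5 7 1 4 26 (.leaf
  32) (.leaf 14)) (.bis 0 5 2 1 302 (.leaf 14) (.leaf 14))) (.bis 4 8 2 1 309 (.bis 0 5 2 1 302
  (.leaf 14) (.leaf 14)) (.bis 4 5 2 1 251 (.bis 0 5 2 1 302 (.leaf 14) (.leaf 14)) (.leaf 14))))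
  (.bis 1 5 2 1 308 (.bis 4 8 2 1 309 (.leaf 14) (.bis 4 5 2 1 251 (.bis 0 5 2 1 302 (.leaf 14)
  (.leaf 14)) (.leaf 14))) (.bis 4 8 2 1 309 (.leaf 14) (.leaf 14)))) (.bis 0 5 4 1 85 (.bis 1 5
  2 1 308 (.leaf 14) (.leaf 14)) (.bis 0 8 4 1 86 (.bis 4 8 2 1 309 (.leaf 14) (.leaf 14)) (.bis
  0 6 16 1 294 (.leaf 14) (.bis 0 1 2 1 310 (.leaf 14) (.leaf 21)))))) (.bis 0 5 4 1 85 (.bis 2 6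
  4 1 295 (.bis 5 6 2 1 286 (.bis 6 8 1 2 287 (.leaf 2) (.bis 3 6 4 1 298 (.bis 4 6 4 1 301
  (.leaf 5) (.leaf 2)) (.leaf 2))) (.leaf 2)) (.bis 1 5 2 1 308 (.leaf 2) (.leaf 2))) (.bis 0 8 4
  1 86 (.bis 2 6 4 1 295 (.bis 6 8 1 2 287 (.leaf 2) (.bis 3 6 4 1 298 (.bis 4 6 4 1 301 (.bis 5
  6 1 1 312 (.leaf 5) (.leaf 2)) (.leaf 2)) (.leaf 2))) (.bis 4 8 2 1 309 (.leaf 2) (.leaf 2)))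
  (.bis 0 6 8 1 293 (.bis 2 6 4 1 295 (.bis 3 6 4 1 298 (.bis 4 6 4 1 301 (.bis 5 6 1 1 312
  (.leaf 5) (.leaf 2)) (.leaf 2)) (.leaf 2)) (.leaf 2)) (.bis 0 7 16 1 294 (.leaf 2) (.bis 0 1 2
  1 310 (.leaf 2) (.leaf 11)))))))) (.bis 2 8 2 1 138 (.bis 0 8 2 1 95 (.bis 4 8 1 1 253 (.bis 7
  8 1 1 137 (.bis 3 8 1 1 192 (.bis 1 8 1 1 307 (.bis 5 6 2 1 286 (.bis 6 8 1 4 288 (.bis 2 8 1 2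
  303 (.leaf 4) (.leaf 4)) (.leaf 10)) (.bis 5 8 1 2 39 (.bis 2 8 1 2 303 (.leaf 4) (.leaf 2))
  (.leaf 2))) (.bis 5 6 2 1 286 (.leaf 5) (.bis 1 5 2 1 308 (.leaf 2) (.leaf 2)))) (.bis 5 6 2 1
  286 (.leaf 5) (.bis 1 5 2 1 308 (.leaf 2) (.leaf 2)))) (.bis 6 7 1 4 295 (.bis 1 5 2 1 308
  (.bis 2 5 1 1 140 (.leaf 2) (.leaf 2)) (.leaf 2)) (.bis 5 6 2 1 286 (.leaf 5) (.bis 1 5 2 1 308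
  (.leaf 2) (.leaf 2))))) (.bis 6 7 1 4 295 (.bis 1 5 2 1 308 (.bis 2 5 1 1 140 (.bis 4 5 2 1 251
  (.leaf 2) (.leaf 2)) (.leaf 2)) (.leaf 2)) (.bis 5 6 2 1 286 (.leaf 5) (.bis 1 5 2 1 308 (.bis
  2 5 1 1 140 (.leaf 2) (.leaf 2)) (.leaf 2))))) (.bis 0 5 4 1 85 (.bis 6 7 1 4 295 (.bis 1 5 2 1
  308 (.bis 2 5 1 1 140 (.bis 4 5 2 1 251 (.leaf 2) (.leaf 2)) (.leaf 2)) (.leaf 2)) (.bis 5 6 2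
  1 286 (.bis 3 6 4 1 298 (.leaf 5) (.leaf 2)) (.bis 1 5 2 1 308 (.bis 2 5 1 1 140 (.leaf 2)
  (.leaf 2)) (.leaf 2)))) (.bis 0 6 8 1 293 (.bis 6 7 1 4 295 (.leaf 2) (.bis 3 6 4 1 298 (.leaf
  5) (.leaf 2))) (.bis 0 2 4 1 144 (.leaf 2) (.leaf 11))))) (.bis 2 5 4 1 151 (.bis 0 5 4 1 85
  (.bis 6 7 1 4 295 (.bis 1 5 2 1 308 (.bis 5 8 1 1 140 (.leaf 2) (.bis 4 5 2 1 251 (.leaf 2)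
  (.leaf 2))) (.leaf 2)) (.bis 5 6 2 1 286 (.bis 3 6 4 1 298 (.leaf 5) (.leaf 2)) (.bis 1 5 2 1
  308 (.bis 5 8 1 1 140 (.leaf 2) (.leaf 2)) (.leaf 2)))) (.bis 0 6 8 1 293 (.bis 6 7 1 4 295
  (.leaf 2) (.bis 3 6 4 1 298 (.leaf 5) (.leaf 2))) (.bis 0 8 4 1 144 (.leaf 2) (.bis 0 1 2 1 310
  (.leaf 2) (.leaf 11))))) (.bis 0 6 8 1 293 (.bis 6 7 1 4 295 (.bis 1 2 1 2 313 (.leaf 11)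
  (.leaf 2)) (.bis 2 6 8 1 296 (.leaf 5) (.bis 1 2 1 2 313 (.leaf 6) (.leaf 2)))) (.bis 0 8 4 1
  144 (.bis 1 2 1 2 313 (.leaf 11) (.leaf 2)) (.bis 1 2 1 2 313 (.bis 2 4 2 1 255 (.bis 0 4 2 1
  254 (.leaf 2) (.leaf 11)) (.leaf 11)) (.bis 0 1 2 1 310 (.leaf 2) (.leaf 11)))))))) (.bis 2 5 2
  1 154 (.bis 0 5 2 1 102 (.bis 1 5 1 1 314 (.bis 3 5 1 1 195 (.bis 4 5 1 1 256 (.bis 5 6 4 1 290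
  (.bis 6 7 1 2 286 (.bis 7 8 1 2 39 (.bis 2 8 1 2 155 (.bis 0 8 1 2 108 (.leaf 4) (.leaf 4))
  (.leaf 4)) (.leaf 4)) (.bis 6 8 1 4 288 (.bis 2 8 1 2 155 (.bis 0 8 1 2 108 (.leaf 4) (.leaf
  4)) (.leaf 4)) (.leaf 10))) (.bis 7 8 1 2 39 (.bis 2 8 1 2 155 (.leaf 16) (.bis 2 5 1 2 315
  (.leaf 16) (.leaf 4))) (.bis 5 7 2 1 106 (.leaf 4) (.leaf 16)))) (.bis 4 8 1 1 253 (.bis 6 7 1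
  2 286 (.bis 7 8 1 2 39 (.bis 2 8 1 2 155 (.bis 0 8 1 2 108 (.leaf 4) (.leaf 2)) (.leaf 2))
  (.leaf 2)) (.bis 6 8 1 4 288 (.bis 2 8 1 2 155 (.bis 0 8 1 2 108 (.leaf 4) (.leaf 4)) (.leaf
  4)) (.leaf 10))) (.bis 6 7 1 2 286 (.leaf 2) (.leaf 5)))) (.bis 4 8 1 1 253 (.bis 3 8 1 1 192
  (.bis 6 7 1 2 286 (.bis 7 8 1 2 39 (.bis 2 8 1 2 155 (.bis 0 8 1 2 108 (.leaf 4) (.leaf 2))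
  (.leaf 2)) (.leaf 2)) (.bis 6 8 1 4 288 (.bis 2 8 1 2 155 (.bis 0 8 1 2 108 (.leaf 4) (.leaf
  4)) (.leaf 4)) (.leaf 10))) (.bis 6 7 1 2 286 (.leaf 2) (.leaf 5))) (.bis 6 7 1 2 286 (.leaf 2)
  (.leaf 5)))) (.bis 4 8 1 1 253 (.bis 3 8 1 1 192 (.bis 1 8 1 1 307 (.bis 6 7 1 2 286 (.bis 7 8
  1 2 39 (.bis 2 8 1 2 155 (.bis 0 8 1 2 108 (.leaf 4) (.leaf 2)) (.leaf 2)) (.leaf 2)) (.bis 6 8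
  1 4 288 (.bis 2 8 1 2 155 (.bis 0 8 1 2 108 (.leaf 4) (.leaf 4)) (.leaf 4)) (.leaf 10))) (.bis
  6 7 1 2 286 (.leaf 2) (.leaf 5))) (.bis 6 7 1 2 286 (.leaf 2) (.leaf 5))) (.bis 6 7 1 2 286
  (.leaf 2) (.leaf 5)))) (.bis 0 8 2 1 95 (.bis 4 8 1 1 253 (.bis 3 8 1 1 192 (.bis 1 8 1 1 307
  (.bis 6 7 1 2 286 (.bis 7 8 1 2 39 (.bis 2 8 1 2 155 (.bis 5 8 1 2 108 (.leaf 4) (.leaf 2))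
  (.leaf 2)) (.leaf 2)) (.bis 6 8 1 4 288 (.bis 2 8 1 2 155 (.bis 5 8 1 2 108 (.leaf 4) (.leaf
  4)) (.leaf 4)) (.leaf 10))) (.bis 6 7 1 2 286 (.leaf 2) (.leaf 5))) (.bis 6 7 1 2 286 (.leaf 2)
  (.leaf 5))) (.bis 6 7 1 2 286 (.bis 1 7 2 1 308 (.leaf 2) (.leaf 2)) (.leaf 5))) (.bis 0 7 4 1
  85 (.bis 6 7 1 2 286 (.bis 1 7 2 1 308 (.leaf 2) (.leaf 2)) (.bis 3 6 4 1 298 (.leaf 5) (.leaf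
  2))) (.bis 0 6 8 1 293 (.bis 3 6 4 1 298 (.leaf 5) (.leaf 2)) (.bis 0 2 4 1 157 (.leaf 2)
  (.leaf 11)))))) (.bis 2 8 2 1 138 (.bis 0 8 2 1 95 (.bis 4 8 1 1 253 (.bis 3 8 1 1 192 (.bis 1
  8 1 1 307 (.bis 6 7 1 2 286 (.bis 7 8 1 2 39 (.bis 5 8 1 2 155 (.bis 2 8 1 2 303 (.leaf 4)
  (.leaf 2)) (.leaf 2)) (.leaf 2)) (.bis 6 8 1 4 288 (.bis 5 8 1 2 155 (.bis 2 8 1 2 303 (.leaf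
  4) (.leaf 4)) (.leaf 4)) (.leaf 10))) (.bis 6 7 1 2 286 (.bis 1 7 2 1 308 (.leaf 2) (.leaf 2))
  (.leaf 5))) (.bis 6 7 1 2 286 (.bis 1 7 2 1 308 (.leaf 2) (.leaf 2)) (.leaf 5))) (.bis 6 7 1 2
  286 (.bis 1 7 2 1 308 (.leaf 2) (.leaf 2)) (.leaf 5))) (.bis 0 7 4 1 85 (.bis 6 7 1 2 286 (.bis
  1 7 2 1 308 (.leaf 2) (.leaf 2)) (.bis 3 6 4 1 298 (.leaf 5) (.leaf 2))) (.bis 0 6 8 1 293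
  (.bis 3 6 4 1 298 (.leaf 5) (.leaf 2)) (.bis 0 5 4 1 157 (.leaf 2) (.bis 0 2 4 1 144 (.leaf 2)
  (.leaf 11)))))) (.bis 2 7 4 1 151 (.bis 0 7 4 1 85 (.bis 6 7 1 2 286 (.bis 1 7 2 1 308 (.leaf
  2) (.leaf 2)) (.bis 3 6 4 1 298 (.leaf 5) (.leaf 2))) (.bis 0 6 8 1 293 (.bis 3 6 4 1 298
  (.leaf 5) (.leaf 2)) (.bis 0 5 4 1 157 (.leaf 2) (.bis 0 8 4 1 144 (.leaf 2) (.leaf 11)))))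
  (.bis 0 6 8 1 293 (.bis 2 6 8 1 296 (.leaf 5) (.leaf 11)) (.bis 0 5 4 1 157 (.bis 1 2 1 2 313
  (.leaf 6) (.leaf 2)) (.bis 0 8 4 1 144 (.bis 1 2 1 2 313 (.leaf 6) (.leaf 2)) (.bis 1 2 1 2 313
  (.leaf 11) (.bis 0 1 2 1 310 (.leaf 2) (.leaf 11)))))))))) (.bis 3 5 2 1 196 (.bis 2 5 2 1 154
  (.bis 0 5 2 1 102 (.bis 1 5 1 1 314 (.bis 5 7 1 1 195 (.bis 4 8 1 1 253 (.bis 7 8 1 1 192 (.bis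
  6 8 1 4 288 (.bis 2 8 1 2 155 (.bis 3 8 1 2 246 (.leaf 4) (.leaf 4)) (.leaf 4)) (.leaf 10))
  (.leaf 5)) (.leaf 5)) (.bis 4 5 1 1 256 (.bis 5 6 4 1 290 (.bis 6 8 1 4 288 (.bis 2 8 1 2 155
  (.bis 3 8 1 2 246 (.leaf 4) (.leaf 4)) (.leaf 4)) (.leaf 10)) (.bis 2 8 1 2 155 (.bis 3 8 1 2
  246 (.leaf 16) (.bis 3 5 1 2 299 (.leaf 16) (.leaf 4))) (.bis 3 5 1 2 299 (.leaf 16) (.leaf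
  4)))) (.bis 4 8 1 1 253 (.bis 6 8 1 4 288 (.bis 2 8 1 2 155 (.bis 3 8 1 2 246 (.bis 0 8 1 2 108
  (.leaf 4) (.leaf 4)) (.leaf 4)) (.leaf 4)) (.leaf 10)) (.leaf 5)))) (.bis 4 8 1 1 253 (.bis 7 8
  1 1 192 (.bis 1 8 1 1 307 (.bis 6 8 1 4 288 (.bis 2 8 1 2 155 (.bis 3 8 1 2 246 (.leaf 4)
  (.leaf 4)) (.leaf 4)) (.leaf 10)) (.leaf 5)) (.leaf 5)) (.leaf 5))) (.bis 0 8 2 1 95 (.bis 4 8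
  1 1 253 (.bis 7 8 1 1 192 (.bis 1 8 1 1 307 (.bis 6 8 1 4 288 (.bis 2 8 1 2 155 (.bis 3 8 1 2
  246 (.leaf 4) (.leaf 4)) (.leaf 4)) (.leaf 10)) (.leaf 5)) (.leaf 5)) (.leaf 5)) (.bis 0 6 8 1
  293 (.leaf 5) (.bis 0 3 4 1 199 (.leaf 2) (.bis 0 2 4 1 157 (.leaf 2) (.leaf 11)))))) (.bis 2 8
  2 1 138 (.bis 0 8 2 1 95 (.bis 4 8 1 1 253 (.bis 7 8 1 1 192 (.bis 1 8 1 1 307 (.bis 6 8 1 4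
  288 (.bis 5 8 1 2 155 (.bis 3 8 1 2 246 (.leaf 4) (.leaf 4)) (.leaf 4)) (.leaf 10)) (.leaf 5))
  (.leaf 5)) (.leaf 5)) (.bis 0 6 8 1 293 (.leaf 5) (.bis 0 3 4 1 199 (.leaf 2) (.bis 0 5 4 1 157
  (.leaf 2) (.bis 0 2 4 1 144 (.leaf 2) (.leaf 11)))))) (.bis 0 6 8 1 293 (.bis 2 6 8 1 296
  (.leaf 5) (.bis 2 3 4 1 200 (.leaf 2) (.leaf 11))) (.bis 0 3 4 1 199 (.bis 2 3 4 1 200 (.leaf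
  2) (.leaf 11)) (.bis 0 5 4 1 157 (.bis 1 2 1 2 313 (.leaf 6) (.leaf 2)) (.bis 0 8 4 1 144 (.bis
  1 2 1 2 313 (.leaf 6) (.leaf 2)) (.bis 1 2 1 2 313 (.leaf 11) (.leaf 11)))))))) (.bis 3 8 2 1
  202 (.bis 2 8 2 1 138 (.bis 0 8 2 1 95 (.bis 4 8 1 1 253 (.bis 7 8 1 1 192 (.bis 1 8 1 1 307
  (.bis 6 8 1 4 288 (.bis 5 8 1 2 246 (.bis 3 8 1 2 258 (.leaf 4) (.leaf 4)) (.leaf 4)) (.leaf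
  10)) (.leaf 5)) (.leaf 5)) (.leaf 5)) (.bis 0 6 8 1 293 (.leaf 5) (.bis 0 5 4 1 199 (.leaf 2)
  (.bis 0 3 4 1 206 (.leaf 2) (.bis 0 2 4 1 144 (.leaf 2) (.leaf 11)))))) (.bis 0 6 8 1 293 (.bis
  2 6 8 1 296 (.leaf 5) (.bis 2 5 4 1 200 (.leaf 2) (.leaf 11))) (.bis 0 5 4 1 199 (.bis 2 5 4 1
  200 (.leaf 2) (.leaf 11)) (.bis 0 3 4 1 206 (.bis 1 2 1 2 313 (.leaf 6) (.leaf 2)) (.bis 0 8 4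
  1 144 (.bis 1 2 1 2 313 (.leaf 6) (.leaf 2)) (.bis 1 2 1 2 313 (.leaf 11) (.leaf 11)))))))
  (.bis 0 6 8 1 293 (.bis 2 6 8 1 296 (.bis 6 7 1 4 298 (.bis 1 3 1 2 316 (.leaf 6) (.leaf 5))
  (.bis 1 3 1 2 316 (.leaf 13) (.leaf 5))) (.leaf 18)) (.bis 0 5 4 1 199 (.bis 2 5 4 1 200 (.bis
  1 3 1 2 316 (.leaf 6) (.leaf 5)) (.leaf 18)) (.bis 0 3 1 1 213 (.leaf 18) (.bis 0 8 4 1 206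
  (.bis 1 2 1 2 313 (.leaf 6) (.leaf 5)) (.leaf 11)))))))) (.bis 4 8 2 1 259 (.bis 3 5 2 1 196
  (.bis 2 5 2 1 154 (.bis 0 5 2 1 102 (.bis 1 5 1 1 314 (.bis 5 7 1 1 256 (.bis 7 8 1 1 253 (.bis
  4 8 1 2 281 (.bis 6 8 1 4 288 (.bis 2 8 1 2 155 (.bis 3 8 1 2 246 (.leaf 4) (.leaf 4)) (.leaf
  4)) (.leaf 10)) (.leaf 10)) (.leaf 5)) (.bis 5 6 4 1 290 (.bis 4 8 1 2 281 (.bis 6 8 1 4 288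
  (.bis 2 8 1 2 155 (.bis 3 8 1 2 246 (.leaf 4) (.leaf 4)) (.leaf 4)) (.leaf 10)) (.leaf 10))
  (.bis 4 5 1 2 263 (.bis 2 8 1 2 155 (.bis 3 8 1 2 246 (.leaf 16) (.leaf 16)) (.bis 3 5 1 2 299
  (.leaf 16) (.leaf 4))) (.bis 4 8 1 2 281 (.bis 2 8 1 2 155 (.bis 3 8 1 2 246 (.leaf 4) (.leaf
  4)) (.leaf 4)) (.leaf 10))))) (.bis 7 8 1 1 253 (.bis 1 8 1 1 307 (.bis 4 8 1 2 281 (.bis 6 8 1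
  4 288 (.bis 2 8 1 2 155 (.leaf 4) (.leaf 4)) (.leaf 10)) (.leaf 10)) (.bis 1 3 2 1 317 (.leaf
  5) (.leaf 5))) (.leaf 5))) (.bis 0 8 2 1 95 (.bis 7 8 1 1 253 (.bis 1 8 1 1 307 (.bis 4 8 1 2
  281 (.bis 6 8 1 4 288 (.bis 2 8 1 2 155 (.leaf 4) (.leaf 4)) (.leaf 10)) (.leaf 10)) (.bis 1 3
  2 1 317 (.leaf 5) (.leaf 5))) (.leaf 5)) (.bis 0 6 8 1 293 (.leaf 5) (.bis 0 3 4 1 199 (.leaf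
  2) (.bis 0 4 4 1 266 (.leaf 2) (.bis 0 2 4 1 157 (.leaf 2) (.leaf 11))))))) (.bis 2 8 2 1 138
  (.bis 0 8 2 1 95 (.bis 7 8 1 1 253 (.bis 1 8 1 1 307 (.bis 4 8 1 2 281 (.bis 6 8 1 4 288 (.bis
  5 8 1 2 155 (.leaf 4) (.leaf 4)) (.leaf 10)) (.leaf 10)) (.leaf 5)) (.leaf 5)) (.bis 0 6 8 1
  293 (.leaf 5) (.bis 0 3 4 1 199 (.leaf 2) (.bis 0 4 4 1 266 (.leaf 2) (.bis 0 5 4 1 157 (.leaf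
  2) (.leaf 11)))))) (.bis 0 6 8 1 293 (.bis 2 6 8 1 296 (.leaf 5) (.bis 2 3 4 1 200 (.leaf 2)
  (.leaf 18))) (.bis 0 3 4 1 199 (.bis 2 3 4 1 200 (.leaf 2) (.leaf 18)) (.bis 0 4 4 1 266 (.bis
  1 2 1 2 313 (.leaf 6) (.leaf 2)) (.bis 0 5 4 1 157 (.leaf 11) (.leaf 11))))))) (.bis 3 8 2 1
  202 (.bis 2 8 2 1 138 (.bis 0 8 2 1 95 (.bis 7 8 1 1 253 (.bis 1 8 1 1 307 (.bis 4 8 1 2 281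
  (.bis 6 8 1 4 288 (.bis 5 8 1 2 246 (.leaf 4) (.leaf 4)) (.leaf 10)) (.leaf 10)) (.leaf 5))
  (.leaf 5)) (.bis 0 6 8 1 293 (.leaf 5) (.bis 0 5 4 1 199 (.leaf 2) (.bis 0 4 4 1 266 (.leaf 2)
  (.bis 0 3 4 1 206 (.leaf 2) (.leaf 11)))))) (.bis 0 6 8 1 293 (.bis 2 6 8 1 296 (.leaf 5) (.bis
  2 5 4 1 200 (.leaf 2) (.leaf 18))) (.bis 0 5 4 1 199 (.bis 2 5 4 1 200 (.leaf 2) (.bis 1 2 1 2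
  313 (.leaf 6) (.leaf 2))) (.bis 0 4 4 1 266 (.bis 1 2 1 2 313 (.leaf 6) (.leaf 2)) (.bis 0 3 4
  1 206 (.bis 1 2 1 2 313 (.leaf 6) (.leaf 2)) (.leaf 11)))))) (.bis 0 6 8 1 293 (.bis 2 6 8 1
  296 (.bis 1 3 1 2 316 (.bis 3 6 8 1 300 (.bis 6 7 1 4 301 (.leaf 5) (.leaf 5)) (.leaf 6))
  (.leaf 5)) (.leaf 18)) (.bis 0 5 4 1 199 (.bis 2 5 4 1 200 (.bis 1 3 1 2 316 (.leaf 6) (.leaf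
  5)) (.leaf 18)) (.bis 0 4 4 1 266 (.leaf 18) (.bis 0 3 1 1 213 (.leaf 18) (.leaf 11)))))))
  (.bis 4 5 2 1 260 (.bis 3 5 2 1 196 (.bis 2 5 2 1 154 (.bis 0 5 2 1 102 (.bis 1 5 1 1 314 (.bis
  5 7 1 1 256 (.bis 6 7 1 4 301 (.leaf 5) (.leaf 5)) (.bis 5 6 4 1 290 (.leaf 10) (.bis 5 8 2 1
  263 (.leaf 10) (.bis 4 5 1 2 264 (.bis 3 5 1 2 299 (.leaf 16) (.leaf 4)) (.leaf 10))))) (.bis 1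
  4 2 1 318 (.leaf 5) (.leaf 5))) (.bis 0 6 8 1 293 (.bis 1 4 2 1 318 (.leaf 5) (.leaf 5)) (.bis
  0 4 4 1 265 (.bis 1 4 2 1 318 (.leaf 5) (.leaf 2)) (.bis 0 3 4 1 199 (.leaf 2) (.bis 0 8 4 1
  266 (.leaf 2) (.bis 0 2 4 1 157 (.leaf 2) (.leaf 11))))))) (.bis 0 6 8 1 293 (.bis 2 6 8 1 296
  (.bis 1 4 2 1 318 (.leaf 5) (.leaf 5)) (.bis 2 4 4 1 267 (.bis 1 4 2 1 318 (.leaf 5) (.leaf 2))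
  (.leaf 18))) (.bis 0 4 4 1 265 (.bis 2 4 4 1 267 (.bis 1 4 2 1 318 (.leaf 5) (.leaf 2)) (.bis 2
  3 4 1 200 (.bis 1 3 2 1 317 (.leaf 2) (.leaf 2)) (.leaf 18))) (.bis 0 3 4 1 199 (.bis 2 3 4 1
  200 (.leaf 2) (.leaf 18)) (.bis 0 8 4 1 266 (.bis 1 2 1 2 313 (.leaf 6) (.leaf 2)) (.bis 0 5 4
  1 157 (.bis 1 2 1 2 313 (.leaf 6) (.leaf 2)) (.bis 1 2 1 2 313 (.leaf 11) (.leaf 11))))))))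
  (.bis 0 6 8 1 293 (.bis 2 6 8 1 296 (.bis 1 4 2 1 318 (.bis 3 6 8 1 300 (.leaf 5) (.leaf 6))
  (.bis 1 3 1 2 316 (.leaf 13) (.leaf 5))) (.bis 2 4 4 1 267 (.bis 1 4 2 1 318 (.bis 3 4 4 1 270
  (.leaf 5) (.leaf 6)) (.bis 1 3 1 2 316 (.leaf 6) (.leaf 5))) (.leaf 18))) (.bis 0 4 4 1 265
  (.bis 2 4 4 1 267 (.bis 1 4 2 1 318 (.bis 3 4 4 1 270 (.leaf 5) (.leaf 6)) (.bis 1 3 1 2 316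
  (.leaf 6) (.leaf 5))) (.leaf 18)) (.bis 0 5 4 1 199 (.bis 2 5 4 1 200 (.bis 1 3 1 2 316 (.leaf
  6) (.leaf 5)) (.leaf 18)) (.bis 0 8 4 1 266 (.bis 1 3 1 2 316 (.leaf 6) (.bis 1 2 1 2 313
  (.leaf 6) (.leaf 5))) (.bis 0 3 1 1 213 (.leaf 18) (.leaf 11))))))) (.bis 0 4 1 1 280 (.bis 1 4
  1 2 319 (.bis 4 6 8 1 304 (.bis 2 6 8 1 296 (.leaf 13) (.leaf 6)) (.bis 2 5 4 1 267 (.leaf 22)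
  (.leaf 22))) (.bis 2 6 8 1 296 (.leaf 27) (.bis 2 5 4 1 267 (.leaf 27) (.leaf 18)))) (.bis 0 6
  8 1 293 (.bis 2 6 8 1 296 (.leaf 27) (.bis 2 5 4 1 267 (.leaf 27) (.leaf 18))) (.bis 0 5 4 1
  265 (.leaf 74) (.bis 0 8 4 1 266 (.leaf 18) (.bis 0 3 1 1 213 (.leaf 18) (.leaf 11)))))))))

def lc19 : List Vr := [⟨[24,0,0,0,0,0,0,0,0], 6912, 0⟩, ⟨[0,28,0,0,0,0,0,42,0], 32928, 0⟩, ⟨[0,0,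
  17,0,0,0,0,0,0], 6936, 0⟩, ⟨[0,0,0,13,0,0,0,0,0], 6760, 0⟩, ⟨[0,0,0,0,19,0,0,0,0], 7581, 0⟩,
  ⟨[0,0,0,0,0,30,0,0,94], 29760, 0⟩, ⟨[0,112,0,0,0,0,85,0,155], 406901, 0⟩, ⟨[0,0,0,0,0,0,0,42,0],
   7056, 0⟩, ⟨[0,28,0,0,0,0,0,0,84], 25872, 0⟩]

theorem lk19 : chkTr lowT (leafLow 2 lowB) lt19 lc19 = true := by decide +kernel

def lt20 : Tr ℕ := (.bis 1 5 2 1 320 (.bis 4 8 2 1 259 (.bis 3 5 2 1 196 (.bis 2 5 2 1 154 (.bis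
  0 5 2 1 102 (.bis 5 7 1 1 314 (.bis 7 8 1 1 307 (.bis 4 8 1 2 281 (.bis 6 8 1 4 288 (.bis 2 8 1
  2 155 (.bis 3 8 1 2 246 (.leaf 16) (.leaf 10)) (.leaf 10)) (.leaf 10)) (.leaf 10)) (.bis 3 7 1
  2 317 (.leaf 5) (.leaf 5))) (.bis 5 6 4 1 290 (.bis 4 8 1 2 281 (.bis 6 8 1 4 288 (.bis 2 8 1 2
  155 (.bis 3 8 1 2 246 (.leaf 16) (.leaf 10)) (.leaf 10)) (.leaf 10)) (.leaf 10)) (.bis 4 5 1 2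
  263 (.bis 1 5 1 2 321 (.bis 2 8 1 2 155 (.leaf 16) (.bis 3 5 1 2 299 (.leaf 16) (.leaf 4)))
  (.bis 2 8 1 2 155 (.bis 3 8 1 2 246 (.leaf 16) (.leaf 10)) (.leaf 10))) (.bis 4 8 1 2 281 (.bis
  2 8 1 2 155 (.bis 3 8 1 2 246 (.leaf 16) (.leaf 10)) (.leaf 10)) (.leaf 10))))) (.bis 0 8 2 1
  95 (.bis 7 8 1 1 307 (.bis 4 8 1 2 281 (.bis 6 8 1 4 288 (.bis 2 8 1 2 155 (.bis 3 8 1 2 246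
  (.leaf 16) (.leaf 10)) (.leaf 10)) (.leaf 10)) (.leaf 10)) (.bis 3 7 1 2 317 (.leaf 5) (.leaf
  5))) (.bis 0 6 8 1 293 (.bis 3 7 1 2 317 (.leaf 5) (.leaf 5)) (.bis 0 1 4 1 322 (.bis 3 7 1 2
  317 (.leaf 2) (.leaf 2)) (.bis 0 3 4 1 199 (.bis 3 7 1 2 317 (.leaf 2) (.leaf 2)) (.bis 0 4 4 1
  266 (.bis 5 7 1 2 323 (.leaf 2) (.leaf 2)) (.bis 0 2 4 1 157 (.bis 5 7 1 2 323 (.leaf 2) (.leaf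
  2)) (.bis 0 7 2 1 310 (.leaf 2) (.leaf 11))))))))) (.bis 2 8 2 1 138 (.bis 0 8 2 1 95 (.bis 7 8
  1 1 307 (.bis 4 8 1 2 281 (.bis 6 8 1 4 288 (.bis 5 8 1 2 155 (.bis 3 8 1 2 246 (.leaf 39)
  (.leaf 10)) (.leaf 10)) (.leaf 10)) (.leaf 10)) (.bis 3 7 1 2 317 (.leaf 5) (.leaf 5))) (.bis 0
  6 8 1 293 (.bis 3 7 1 2 317 (.leaf 5) (.leaf 5)) (.bis 0 1 4 1 322 (.bis 3 7 1 2 317 (.leaf 2)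
  (.leaf 2)) (.bis 0 3 4 1 199 (.bis 3 7 1 2 317 (.leaf 2) (.leaf 2)) (.bis 0 4 4 1 266 (.leaf 2)
  (.bis 0 5 4 1 157 (.leaf 2) (.leaf 11))))))) (.bis 0 6 8 1 293 (.bis 2 6 8 1 296 (.bis 3 7 1 2
  317 (.leaf 5) (.leaf 5)) (.bis 1 2 1 4 324 (.bis 2 3 4 1 200 (.bis 3 7 1 2 317 (.leaf 2) (.leaf
  2)) (.bis 2 7 2 1 313 (.leaf 2) (.leaf 6))) (.bis 3 7 1 2 317 (.leaf 2) (.leaf 2)))) (.bis 0 1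
  4 1 322 (.bis 1 2 1 4 324 (.bis 2 3 4 1 200 (.bis 3 7 1 2 317 (.leaf 2) (.leaf 2)) (.bis 2 7 2
  1 313 (.leaf 2) (.leaf 6))) (.bis 3 7 1 2 317 (.leaf 2) (.leaf 2))) (.bis 0 3 4 1 199 (.bis 2 3
  4 1 200 (.bis 3 7 1 2 317 (.leaf 2) (.leaf 2)) (.bis 2 7 2 1 313 (.leaf 2) (.leaf 6))) (.bis 0
  4 4 1 266 (.bis 2 7 2 1 313 (.leaf 2) (.leaf 6)) (.bis 0 5 4 1 157 (.leaf 11) (.leaf 11))))))))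
  (.bis 3 8 2 1 202 (.bis 2 8 2 1 138 (.bis 0 8 2 1 95 (.bis 7 8 1 1 307 (.bis 4 8 1 2 281 (.bis
  6 8 1 4 288 (.bis 5 8 1 2 246 (.bis 1 8 1 2 325 (.leaf 4) (.leaf 10)) (.leaf 10)) (.leaf 10))
  (.leaf 10)) (.bis 5 7 1 2 317 (.leaf 5) (.leaf 5))) (.bis 0 6 8 1 293 (.bis 5 7 1 2 317 (.leaf
  5) (.leaf 5)) (.bis 0 1 4 1 322 (.leaf 2) (.bis 0 5 4 1 199 (.leaf 2) (.bis 0 4 4 1 266 (.leaf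
  2) (.bis 0 3 4 1 206 (.leaf 2) (.leaf 11))))))) (.bis 0 6 8 1 293 (.bis 2 6 8 1 296 (.bis 5 7 1
  2 317 (.leaf 5) (.leaf 5)) (.bis 1 2 1 4 324 (.bis 2 5 4 1 200 (.bis 5 7 1 2 317 (.leaf 2)
  (.leaf 2)) (.bis 2 7 2 1 313 (.leaf 2) (.leaf 6))) (.bis 5 7 1 2 317 (.leaf 2) (.leaf 2))))
  (.bis 0 1 4 1 322 (.bis 1 2 1 4 324 (.bis 2 5 4 1 200 (.bis 5 7 1 2 317 (.leaf 2) (.leaf 2))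
  (.leaf 18)) (.bis 5 7 1 2 317 (.leaf 2) (.leaf 2))) (.bis 0 5 4 1 199 (.bis 2 5 4 1 200 (.bis 5
  7 1 2 317 (.leaf 2) (.leaf 2)) (.bis 2 7 2 1 313 (.leaf 2) (.leaf 6))) (.bis 0 4 4 1 266 (.bis
  2 7 2 1 313 (.leaf 2) (.leaf 6)) (.bis 0 3 4 1 206 (.bis 2 7 2 1 313 (.leaf 2) (.leaf 6))
  (.leaf 11))))))) (.bis 0 6 8 1 293 (.bis 2 6 8 1 296 (.bis 3 7 2 1 316 (.leaf 5) (.bis 3 6 8 1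
  300 (.leaf 5) (.leaf 13))) (.bis 1 2 1 4 324 (.bis 2 5 4 1 200 (.bis 3 7 2 1 316 (.leaf 5)
  (.leaf 6)) (.bis 3 7 2 1 316 (.leaf 18) (.leaf 6))) (.bis 3 7 2 1 316 (.leaf 5) (.leaf 13))))
  (.bis 0 1 4 1 322 (.bis 1 2 1 4 324 (.bis 2 5 4 1 200 (.bis 3 7 2 1 316 (.leaf 5) (.leaf 6))
  (.bis 3 7 2 1 316 (.leaf 18) (.leaf 6))) (.bis 3 7 2 1 316 (.leaf 5) (.leaf 13))) (.bis 0 5 4 1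
  199 (.bis 2 5 4 1 200 (.bis 3 7 2 1 316 (.leaf 5) (.leaf 6)) (.leaf 18)) (.bis 0 4 4 1 266
  (.leaf 18) (.bis 0 3 1 1 213 (.leaf 18) (.leaf 11)))))))) (.bis 4 5 2 1 260 (.bis 3 5 2 1 196
  (.bis 2 5 2 1 154 (.bis 0 5 2 1 102 (.bis 5 7 1 1 314 (.bis 4 7 1 2 318 (.bis 3 7 1 2 317
  (.leaf 5) (.leaf 5)) (.leaf 5)) (.bis 5 6 4 1 290 (.leaf 10) (.bis 5 8 2 1 263 (.leaf 10) (.bis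
  1 5 1 2 321 (.bis 4 5 1 2 264 (.leaf 16) (.leaf 10)) (.leaf 10))))) (.bis 0 6 8 1 293 (.bis 4 7
  1 2 318 (.bis 3 7 1 2 317 (.leaf 5) (.leaf 5)) (.leaf 5)) (.bis 0 4 4 1 265 (.bis 4 7 1 2 318
  (.bis 3 7 1 2 317 (.leaf 2) (.leaf 2)) (.leaf 5)) (.bis 0 1 4 1 322 (.bis 3 7 1 2 317 (.leaf 2)
  (.leaf 2)) (.bis 0 3 4 1 199 (.bis 3 7 1 2 317 (.leaf 2) (.leaf 2)) (.bis 0 8 4 1 266 (.bis 5 7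
  1 2 323 (.leaf 2) (.leaf 2)) (.bis 0 2 4 1 157 (.bis 5 7 1 2 323 (.leaf 2) (.leaf 2)) (.bis 0 7
  2 1 310 (.leaf 2) (.leaf 11))))))))) (.bis 0 6 8 1 293 (.bis 2 6 8 1 296 (.bis 4 7 1 2 318
  (.bis 3 7 1 2 317 (.leaf 5) (.leaf 5)) (.leaf 5)) (.bis 2 4 4 1 267 (.bis 4 7 1 2 318 (.bis 3 7
  1 2 317 (.leaf 2) (.leaf 2)) (.leaf 5)) (.bis 1 2 1 4 324 (.bis 2 3 4 1 200 (.bis 3 7 1 2 317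
  (.leaf 2) (.leaf 2)) (.bis 2 7 2 1 313 (.leaf 2) (.leaf 6))) (.bis 3 7 1 2 317 (.leaf 2) (.leaf
  2))))) (.bis 0 4 4 1 265 (.bis 2 4 4 1 267 (.bis 4 7 1 2 318 (.bis 3 7 1 2 317 (.leaf 2) (.leaf
  2)) (.leaf 5)) (.bis 1 2 1 4 324 (.bis 2 3 4 1 200 (.bis 3 7 1 2 317 (.leaf 2) (.leaf 2)) (.bis
  2 7 2 1 313 (.leaf 2) (.leaf 6))) (.bis 3 7 1 2 317 (.leaf 2) (.leaf 2)))) (.bis 0 1 4 1 322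
  (.bis 1 2 1 4 324 (.bis 2 3 4 1 200 (.bis 3 7 1 2 317 (.leaf 2) (.leaf 2)) (.bis 2 7 2 1 313
  (.leaf 2) (.leaf 6))) (.bis 3 7 1 2 317 (.leaf 2) (.leaf 2))) (.bis 0 3 4 1 199 (.bis 2 3 4 1
  200 (.bis 3 7 1 2 317 (.leaf 2) (.leaf 2)) (.bis 2 7 2 1 313 (.leaf 2) (.leaf 6))) (.bis 0 8 4
  1 266 (.bis 2 7 2 1 313 (.leaf 2) (.leaf 6)) (.bis 0 5 4 1 157 (.bis 2 7 2 1 313 (.leaf 2)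
  (.leaf 6)) (.bis 2 7 2 1 313 (.leaf 11) (.leaf 11))))))))) (.bis 0 6 8 1 293 (.bis 2 6 8 1 296
  (.bis 4 7 1 2 318 (.bis 3 7 2 1 316 (.leaf 5) (.bis 3 6 8 1 300 (.leaf 5) (.leaf 13))) (.bis 3
  6 8 1 300 (.leaf 5) (.bis 3 4 4 1 270 (.leaf 5) (.leaf 13)))) (.bis 2 4 4 1 267 (.bis 4 7 1 2
  318 (.bis 3 7 2 1 316 (.leaf 5) (.leaf 13)) (.bis 3 4 4 1 270 (.leaf 5) (.leaf 13))) (.bis 1 2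
  1 4 324 (.bis 2 5 4 1 200 (.bis 3 7 2 1 316 (.leaf 5) (.leaf 6)) (.bis 3 7 2 1 316 (.leaf 18)
  (.leaf 6))) (.bis 3 7 2 1 316 (.leaf 5) (.leaf 13))))) (.bis 0 4 4 1 265 (.bis 2 4 4 1 267
  (.bis 4 7 1 2 318 (.bis 3 7 2 1 316 (.leaf 5) (.leaf 13)) (.bis 3 4 4 1 270 (.leaf 5) (.bis 1 3
  1 4 326 (.leaf 6) (.leaf 5)))) (.bis 1 2 1 4 324 (.bis 2 5 4 1 200 (.bis 3 7 2 1 316 (.leaf 5)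
  (.leaf 6)) (.bis 3 7 2 1 316 (.leaf 18) (.leaf 6))) (.bis 3 7 2 1 316 (.leaf 5) (.leaf 13))))
  (.bis 0 1 4 1 322 (.bis 1 2 1 4 324 (.bis 2 5 4 1 200 (.bis 3 7 2 1 316 (.leaf 5) (.leaf 6))
  (.bis 3 7 2 1 316 (.leaf 18) (.leaf 6))) (.bis 3 7 2 1 316 (.leaf 5) (.leaf 13))) (.bis 0 5 4 1
  199 (.bis 2 5 4 1 200 (.bis 3 7 2 1 316 (.leaf 5) (.leaf 6)) (.bis 3 7 2 1 316 (.leaf 18)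
  (.leaf 6))) (.bis 0 8 4 1 266 (.bis 3 7 2 1 316 (.bis 2 7 2 1 313 (.leaf 5) (.leaf 6)) (.leaf
  6)) (.bis 0 3 1 1 213 (.leaf 18) (.bis 2 7 2 1 313 (.leaf 11) (.leaf 11))))))))) (.bis 0 4 1 1
  280 (.bis 4 7 2 1 319 (.bis 2 6 8 1 296 (.bis 5 7 1 2 318 (.leaf 27) (.leaf 13)) (.bis 2 5 4 1
  267 (.bis 5 7 1 2 318 (.leaf 18) (.leaf 13)) (.bis 1 2 1 4 324 (.bis 3 7 2 1 316 (.leaf 18)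
  (.leaf 6)) (.bis 3 7 2 1 316 (.leaf 5) (.leaf 13))))) (.bis 4 6 8 1 304 (.bis 2 6 8 1 296
  (.leaf 13) (.bis 2 5 4 1 267 (.leaf 13) (.leaf 18))) (.bis 1 4 1 4 327 (.bis 2 5 4 1 267 (.leaf
  22) (.leaf 22)) (.bis 2 5 4 1 267 (.leaf 13) (.leaf 18))))) (.bis 0 6 8 1 293 (.bis 2 6 8 1 296
  (.bis 5 7 1 2 318 (.bis 3 7 2 1 316 (.leaf 5) (.leaf 13)) (.bis 3 6 8 1 300 (.leaf 5) (.leaf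
  13))) (.bis 2 5 4 1 267 (.bis 5 7 1 2 318 (.leaf 18) (.leaf 13)) (.bis 1 2 1 4 324 (.bis 3 7 2
  1 316 (.leaf 18) (.leaf 6)) (.bis 3 7 2 1 316 (.leaf 5) (.leaf 13))))) (.bis 0 5 4 1 265 (.bis
  2 5 4 1 267 (.bis 5 7 1 2 318 (.leaf 18) (.bis 3 5 4 1 270 (.leaf 5) (.leaf 13))) (.bis 1 2 1 4
  324 (.bis 3 7 2 1 316 (.leaf 18) (.leaf 6)) (.bis 3 7 2 1 316 (.leaf 5) (.leaf 13)))) (.bis 0 1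
  4 1 322 (.leaf 18) (.bis 0 8 4 1 266 (.bis 3 7 2 1 316 (.leaf 18) (.leaf 6)) (.bis 0 3 1 1 213
  (.bis 3 7 2 1 316 (.leaf 11) (.leaf 6)) (.bis 2 7 2 1 313 (.leaf 11) (.leaf 11)))))))))) (.bis
  4 8 2 1 259 (.bis 1 8 2 1 328 (.bis 3 8 2 1 202 (.bis 2 8 2 1 138 (.bis 0 8 2 1 95 (.bis 7 8 1
  1 307 (.bis 4 8 1 2 281 (.bis 6 8 1 4 288 (.bis 1 8 1 2 329 (.bis 5 8 1 2 325 (.leaf 4) (.leaf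
  10)) (.leaf 39)) (.leaf 39)) (.leaf 39)) (.leaf 52)) (.bis 0 1 4 1 330 (.leaf 52) (.bis 0 6 8 1
  293 (.leaf 5) (.bis 0 5 4 1 322 (.leaf 2) (.bis 0 4 4 1 266 (.leaf 2) (.bis 0 3 4 1 206 (.leaf
  2) (.leaf 11))))))) (.bis 0 1 4 1 330 (.bis 1 2 1 4 331 (.bis 2 6 8 1 296 (.leaf 5) (.bis 2 5 4
  1 324 (.leaf 5) (.leaf 18))) (.leaf 36)) (.bis 0 6 8 1 293 (.bis 2 6 8 1 296 (.leaf 5) (.bis 2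
  5 4 1 324 (.leaf 2) (.leaf 18))) (.bis 0 5 4 1 322 (.bis 2 5 4 1 324 (.leaf 2) (.bis 2 7 2 1
  313 (.leaf 2) (.leaf 6))) (.bis 0 4 4 1 266 (.bis 2 7 2 1 313 (.leaf 2) (.leaf 6)) (.bis 0 3 4
  1 206 (.bis 2 7 2 1 313 (.leaf 2) (.leaf 6)) (.leaf 11))))))) (.bis 0 1 4 1 330 (.bis 1 2 1 4
  331 (.bis 2 6 8 1 296 (.bis 3 7 2 1 316 (.leaf 5) (.leaf 13)) (.leaf 18)) (.bis 1 3 1 4 332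
  (.bis 3 7 2 1 316 (.leaf 5) (.leaf 13)) (.leaf 36))) (.bis 0 6 8 1 293 (.bis 2 6 8 1 296 (.bis
  3 7 2 1 316 (.leaf 5) (.leaf 13)) (.bis 2 5 4 1 324 (.bis 3 7 2 1 316 (.leaf 5) (.leaf 13))
  (.leaf 18))) (.bis 0 5 4 1 322 (.bis 2 5 4 1 324 (.bis 3 7 2 1 316 (.leaf 5) (.leaf 13)) (.leaf
  18)) (.bis 0 4 4 1 266 (.leaf 18) (.bis 0 3 1 1 213 (.leaf 18) (.leaf 11))))))) (.bis 0 1 1 1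
  333 (.bis 2 8 4 1 331 (.bis 1 4 4 1 334 (.bis 3 8 4 1 332 (.leaf 36) (.leaf 27)) (.bis 1 7 2 1
  335 (.bis 3 8 4 1 332 (.leaf 36) (.leaf 27)) (.bis 1 5 4 1 336 (.bis 3 8 4 1 332 (.leaf 36)
  (.leaf 13)) (.leaf 49)))) (.bis 1 2 1 1 337 (.leaf 36) (.bis 1 4 4 1 334 (.leaf 27) (.bis 1 7 2
  1 335 (.leaf 27) (.leaf 49))))) (.bis 0 8 4 1 330 (.bis 2 8 4 1 331 (.bis 3 8 4 1 332 (.leaf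
  36) (.leaf 27)) (.bis 2 6 8 1 296 (.leaf 27) (.leaf 18))) (.bis 0 6 8 1 293 (.bis 2 6 8 1 296
  (.bis 3 7 2 1 316 (.leaf 27) (.leaf 13)) (.leaf 18)) (.bis 0 5 4 1 322 (.leaf 18) (.bis 0 4 4 1
  266 (.leaf 18) (.bis 0 3 1 1 213 (.leaf 18) (.leaf 11)))))))) (.bis 0 1 1 1 333 (.bis 4 7 2 1
  319 (.bis 1 2 1 1 337 (.leaf 36) (.leaf 49)) (.bis 4 6 8 1 304 (.bis 1 2 1 1 337 (.bis 2 6 8 1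
  296 (.leaf 13) (.leaf 18)) (.leaf 49)) (.bis 1 4 1 1 338 (.bis 4 5 4 1 327 (.bis 2 5 4 1 324
  (.leaf 13) (.leaf 22)) (.bis 0 4 1 2 339 (.bis 2 8 4 1 269 (.leaf 22) (.leaf 7)) (.leaf 22)))
  (.bis 1 2 1 1 337 (.leaf 36) (.leaf 49))))) (.bis 0 4 1 1 280 (.bis 4 7 2 1 319 (.leaf 36)
  (.bis 4 6 8 1 304 (.bis 2 6 8 1 296 (.leaf 13) (.leaf 18)) (.bis 4 5 4 1 327 (.leaf 18) (.leaf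
  22)))) (.bis 0 6 8 1 293 (.leaf 36) (.bis 0 5 4 1 322 (.leaf 18) (.bis 0 8 4 1 266 (.leaf 18)
  (.leaf 67))))))))

def lc20 : List Vr := [⟨[24,0,0,0,0,0,0,0,0], 6912, 0⟩, ⟨[0,28,0,0,0,0,0,0,0], 7056, 0⟩, ⟨[0,0,17,
  0,0,0,0,0,0], 6936, 0⟩, ⟨[0,0,0,13,0,0,0,0,0], 6760, 0⟩, ⟨[0,0,0,0,19,0,0,0,0], 7581, 0⟩, ⟨[0,0,
  0,0,0,30,0,0,94], 29760, 0⟩, ⟨[0,112,0,0,0,0,85,0,155], 406901, 0⟩, ⟨[0,28,0,0,0,0,0,42,0],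
  32928, 0⟩, ⟨[0,28,0,0,0,0,0,0,84], 25872, 0⟩]

theorem lk20 : chkTr lowT (leafLow 2 lowB) lt20 lc20 = true := by decide +kernel

def lt21 : Tr ℕ := (.bis 2 6 4 1 110 (.bis 0 6 4 1 50 (.bis 6 7 1 4 18 (.bis 7 8 2 1 19 (.bis 5 8
  1 1 341 (.bis 1 8 1 4 290 (.bis 6 8 1 4 40 (.bis 0 8 1 4 61 (.bis 2 8 1 4 121 (.bis 3 8 1 4 168
  (.bis 4 7 1 1 219 (.leaf 16) (.leaf 16)) (.bis 3 7 1 2 165 (.leaf 4) (.leaf 4))) (.bis 3 7 1 2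
  165 (.leaf 4) (.leaf 4))) (.bis 3 7 1 2 165 (.leaf 4) (.leaf 4))) (.bis 3 6 1 1 162 (.leaf 38)
  (.bis 3 7 1 2 165 (.leaf 4) (.leaf 4)))) (.bis 1 6 1 1 285 (.bis 3 6 1 1 162 (.leaf 38) (.bis 3
  7 1 2 165 (.bis 4 7 1 1 219 (.leaf 4) (.leaf 4)) (.leaf 4))) (.bis 1 7 1 2 286 (.bis 3 7 1 2
  165 (.bis 4 7 1 1 219 (.leaf 4) (.leaf 4)) (.leaf 4)) (.leaf 10)))) (.bis 1 6 1 1 285 (.bis 4 5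
  1 2 342 (.bis 3 6 1 1 162 (.leaf 26) (.bis 3 7 1 2 165 (.leaf 26) (.leaf 9))) (.bis 3 6 1 1 162
  (.leaf 38) (.bis 3 7 1 2 165 (.bis 4 7 1 1 219 (.leaf 2) (.leaf 4)) (.leaf 4)))) (.bis 1 7 1 2
  286 (.bis 4 5 1 2 342 (.bis 3 7 1 2 165 (.leaf 26) (.leaf 9)) (.bis 3 7 1 2 165 (.bis 4 7 1 1
  219 (.leaf 2) (.leaf 4)) (.leaf 4))) (.bis 4 5 1 2 342 (.bis 1 5 1 4 343 (.leaf 9) (.leaf 9))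
  (.leaf 9))))) (.bis 4 7 1 4 215 (.bis 1 7 1 8 289 (.bis 3 7 1 8 167 (.bis 2 7 1 8 116 (.bis 0 7
  1 8 54 (.bis 5 7 1 2 344 (.bis 4 7 1 8 217 (.bis 7 8 4 1 26 (.leaf 14) (.bis 6 7 1 8 27 (.leaf
  32) (.leaf 14))) (.leaf 14)) (.leaf 14)) (.bis 5 6 4 1 345 (.bis 0 8 1 2 60 (.leaf 14) (.leaf
  14)) (.bis 0 5 1 4 346 (.leaf 14) (.leaf 2)))) (.bis 5 6 4 1 345 (.bis 2 6 1 1 118 (.leaf 14)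
  (.leaf 2)) (.bis 0 5 1 4 346 (.bis 2 5 1 4 347 (.leaf 14) (.bis 2 8 1 2 115 (.leaf 2) (.leaf
  2))) (.leaf 2)))) (.leaf 26)) (.bis 1 6 1 1 285 (.bis 3 6 1 1 162 (.bis 5 6 4 1 345 (.leaf 26)
  (.leaf 26)) (.leaf 26)) (.bis 1 8 1 2 286 (.leaf 26) (.bis 1 5 1 4 343 (.leaf 5) (.leaf 5)))))
  (.bis 1 6 1 1 285 (.bis 4 5 1 2 342 (.bis 3 6 1 1 162 (.bis 5 6 4 1 345 (.leaf 26) (.leaf 26))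
  (.bis 3 8 1 2 165 (.leaf 26) (.bis 0 5 1 4 346 (.leaf 5) (.leaf 2)))) (.bis 3 6 1 1 162 (.leaf
  38) (.bis 3 8 1 2 165 (.bis 4 8 1 1 219 (.leaf 2) (.leaf 4)) (.leaf 4)))) (.bis 1 8 1 2 286
  (.bis 4 5 1 2 342 (.bis 3 8 1 2 165 (.leaf 26) (.leaf 5)) (.bis 3 8 1 2 165 (.bis 4 8 1 1 219
  (.leaf 2) (.leaf 4)) (.leaf 4))) (.bis 4 5 1 2 342 (.bis 1 5 1 4 343 (.leaf 5) (.leaf 5))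
  (.leaf 9)))))) (.bis 5 6 1 1 348 (.bis 1 6 1 2 291 (.bis 3 6 1 2 171 (.bis 2 6 1 2 122 (.bis 0
  6 1 2 66 (.bis 6 7 2 1 48 (.bis 7 8 1 4 40 (.leaf 16) (.bis 4 7 1 1 221 (.bis 1 7 1 2 292
  (.leaf 23) (.leaf 4)) (.leaf 4))) (.bis 4 6 1 2 349 (.leaf 37) (.bis 4 8 1 2 350 (.leaf 37)
  (.leaf 37)))) (.bis 7 8 1 4 40 (.bis 0 8 1 4 61 (.leaf 16) (.leaf 4)) (.bis 4 7 1 1 221 (.bis 1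
  7 1 2 292 (.leaf 23) (.leaf 4)) (.leaf 4)))) (.bis 7 8 1 4 40 (.bis 0 8 1 4 61 (.leaf 16)
  (.leaf 4)) (.bis 4 7 1 1 221 (.bis 1 7 1 2 292 (.leaf 23) (.leaf 4)) (.leaf 4)))) (.bis 7 8 1 4
  40 (.bis 0 8 1 4 61 (.bis 2 8 1 4 121 (.leaf 16) (.leaf 4)) (.leaf 4)) (.bis 3 7 1 1 162 (.bis
  4 7 1 1 221 (.bis 1 7 1 2 292 (.leaf 23) (.leaf 4)) (.leaf 4)) (.leaf 4)))) (.bis 1 8 1 4 290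
  (.bis 7 8 1 4 40 (.bis 0 8 1 4 61 (.leaf 16) (.leaf 4)) (.bis 3 7 1 1 162 (.bis 4 7 1 1 221
  (.leaf 23) (.leaf 4)) (.leaf 4))) (.bis 1 7 1 1 285 (.bis 3 7 1 1 162 (.bis 4 7 1 1 221 (.bis 6
  7 1 2 292 (.leaf 23) (.leaf 4)) (.leaf 4)) (.leaf 4)) (.leaf 24)))) (.bis 5 8 1 1 341 (.bis 1 8
  1 4 290 (.bis 7 8 1 4 40 (.bis 0 8 1 4 61 (.leaf 16) (.leaf 4)) (.bis 3 7 1 1 162 (.bis 4 7 1 1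
  221 (.leaf 23) (.leaf 4)) (.leaf 4))) (.bis 1 7 1 1 285 (.bis 3 7 1 1 162 (.bis 4 7 1 1 221
  (.leaf 23) (.leaf 4)) (.leaf 4)) (.leaf 24))) (.bis 1 7 1 1 285 (.bis 4 5 1 2 342 (.bis 3 7 1 1
  162 (.bis 5 7 4 1 345 (.leaf 26) (.leaf 9)) (.bis 5 6 2 1 351 (.leaf 4) (.leaf 9))) (.bis 3 7 1
  1 162 (.bis 4 7 1 1 221 (.leaf 26) (.leaf 4)) (.leaf 4))) (.bis 4 5 1 2 342 (.bis 1 5 1 4 343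
  (.leaf 9) (.leaf 9)) (.leaf 9)))))) (.bis 7 8 2 1 19 (.bis 0 8 2 1 102 (.bis 5 8 1 1 341 (.bis
  1 8 1 4 290 (.bis 6 8 1 4 61 (.bis 2 8 1 4 121 (.bis 3 8 1 4 168 (.bis 4 7 1 1 219 (.leaf 16)
  (.leaf 16)) (.bis 3 7 1 2 165 (.bis 4 7 1 1 219 (.leaf 4) (.leaf 4)) (.leaf 4))) (.bis 3 7 1 2
  165 (.bis 4 7 1 1 219 (.leaf 4) (.leaf 4)) (.leaf 4))) (.bis 3 7 1 2 165 (.bis 4 7 1 1 219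
  (.leaf 4) (.leaf 4)) (.leaf 4))) (.bis 1 7 1 2 286 (.bis 3 7 1 2 165 (.bis 4 7 1 1 219 (.leaf
  4) (.leaf 4)) (.leaf 4)) (.leaf 10))) (.bis 1 7 1 2 286 (.bis 4 5 1 2 342 (.bis 3 7 1 2 165
  (.leaf 26) (.leaf 9)) (.bis 3 7 1 2 165 (.bis 4 7 1 1 219 (.leaf 2) (.leaf 4)) (.leaf 4)))
  (.bis 4 5 1 2 342 (.bis 1 5 1 4 343 (.leaf 9) (.leaf 9)) (.leaf 9)))) (.bis 0 4 4 1 223 (.bis 1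
  7 1 2 286 (.bis 4 5 1 2 342 (.bis 3 7 1 2 165 (.bis 5 6 4 1 346 (.bis 2 7 1 2 115 (.leaf 2)
  (.leaf 2)) (.bis 2 5 1 4 347 (.bis 5 7 2 1 352 (.leaf 2) (.leaf 5)) (.bis 2 7 1 2 115 (.leaf 2)
  (.leaf 2)))) (.bis 5 6 4 1 346 (.leaf 2) (.leaf 5))) (.bis 3 7 1 2 165 (.bis 4 7 1 1 219 (.bis
  2 7 1 2 115 (.leaf 2) (.leaf 2)) (.leaf 4)) (.leaf 4))) (.bis 4 5 1 2 342 (.bis 1 5 1 4 343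
  (.leaf 5) (.leaf 5)) (.leaf 9))) (.bis 0 7 4 1 85 (.bis 1 7 1 2 286 (.bis 3 7 1 2 165 (.leaf
  26) (.bis 5 6 4 1 346 (.leaf 2) (.leaf 5))) (.bis 1 5 1 4 343 (.leaf 5) (.leaf 5))) (.bis 0 1 8
  1 293 (.bis 1 5 1 4 343 (.leaf 5) (.leaf 5)) (.bis 0 3 8 1 173 (.bis 5 6 4 1 346 (.leaf 2)
  (.leaf 5)) (.bis 0 2 8 1 125 (.bis 5 6 4 1 346 (.leaf 2) (.leaf 5)) (.bis 0 5 2 1 353 (.leaf 5)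
  (.leaf 21)))))))) (.bis 4 7 1 4 215 (.bis 1 7 1 8 289 (.bis 3 7 1 8 167 (.bis 2 7 1 8 116 (.bis
  0 7 1 1 68 (.bis 6 7 1 8 54 (.bis 5 7 1 2 344 (.bis 4 7 1 8 217 (.bis 7 8 4 1 26 (.leaf 14)
  (.leaf 32)) (.leaf 14)) (.leaf 14)) (.bis 5 6 4 1 346 (.leaf 14) (.leaf 14))) (.bis 0 8 4 1 85
  (.leaf 14) (.bis 0 4 8 1 222 (.leaf 14) (.bis 0 5 2 1 353 (.leaf 14) (.bis 0 1 16 1 294 (.leaf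
  14) (.bis 0 3 16 1 174 (.leaf 14) (.leaf 21))))))) (.bis 0 8 4 1 85 (.bis 5 6 4 1 346 (.leaf 2)
  (.bis 2 5 1 4 347 (.leaf 14) (.leaf 2))) (.bis 0 4 8 1 222 (.leaf 19) (.bis 0 2 8 1 125 (.leaf
  19) (.bis 0 5 2 1 353 (.leaf 14) (.bis 0 1 16 1 294 (.leaf 14) (.leaf 21))))))) (.bis 0 8 4 1
  85 (.leaf 26) (.bis 0 3 8 1 173 (.leaf 5) (.bis 0 4 8 1 222 (.leaf 5) (.bis 0 2 8 1 125 (.leaf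
  5) (.bis 0 5 2 1 353 (.leaf 5) (.leaf 21))))))) (.bis 0 8 4 1 85 (.bis 1 8 1 2 286 (.leaf 26)
  (.leaf 5)) (.bis 0 1 8 1 293 (.leaf 5) (.bis 0 3 8 1 173 (.leaf 5) (.bis 0 4 8 1 222 (.leaf 5)
  (.bis 0 2 8 1 125 (.leaf 5) (.leaf 21))))))) (.bis 0 4 4 1 223 (.bis 1 8 1 2 286 (.bis 4 5 1 2
  342 (.bis 3 8 1 2 165 (.bis 5 6 4 1 346 (.bis 2 8 1 2 115 (.leaf 2) (.leaf 2)) (.bis 2 5 1 4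
  347 (.leaf 14) (.bis 2 8 1 2 115 (.leaf 2) (.leaf 2)))) (.leaf 5)) (.bis 3 8 1 2 165 (.bis 4 8
  1 1 219 (.leaf 2) (.leaf 4)) (.leaf 4))) (.bis 4 5 1 2 342 (.bis 1 5 1 4 343 (.leaf 5) (.leaf
  5)) (.leaf 9))) (.bis 0 8 4 1 85 (.bis 1 8 1 2 286 (.bis 3 8 1 2 165 (.leaf 26) (.leaf 5))
  (.bis 1 5 1 4 343 (.leaf 5) (.leaf 5))) (.bis 0 1 8 1 293 (.bis 1 5 1 4 343 (.leaf 5) (.leaf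
  5)) (.bis 0 3 8 1 173 (.leaf 5) (.bis 0 7 8 1 222 (.leaf 5) (.bis 0 2 8 1 125 (.bis 5 6 4 1 346
  (.leaf 2) (.leaf 5)) (.bis 0 5 2 1 353 (.leaf 5) (.leaf 21))))))))))) (.bis 7 8 2 1 19 (.bis 2
  8 2 1 154 (.bis 0 8 2 1 102 (.bis 5 8 1 1 341 (.bis 1 8 1 4 290 (.bis 6 8 1 4 121 (.bis 3 8 1 4
  168 (.bis 4 7 1 1 219 (.leaf 16) (.leaf 16)) (.bis 3 7 1 2 165 (.bis 4 7 1 1 219 (.leaf 4)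
  (.leaf 4)) (.leaf 4))) (.bis 3 7 1 2 165 (.bis 4 7 1 1 219 (.leaf 4) (.leaf 4)) (.leaf 4)))
  (.bis 1 7 1 2 286 (.bis 3 7 1 2 165 (.bis 4 7 1 1 219 (.leaf 4) (.leaf 4)) (.leaf 4)) (.leaf
  10))) (.bis 1 7 1 2 286 (.bis 4 5 1 2 342 (.bis 3 7 1 2 165 (.leaf 26) (.leaf 9)) (.bis 3 7 1 2
  165 (.bis 4 7 1 1 219 (.leaf 2) (.leaf 4)) (.leaf 4))) (.bis 4 5 1 2 342 (.bis 1 5 1 4 343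
  (.leaf 9) (.leaf 9)) (.leaf 9)))) (.bis 0 4 4 1 223 (.bis 1 7 1 2 286 (.bis 4 5 1 2 342 (.bis 3
  7 1 2 165 (.bis 5 6 4 1 347 (.bis 6 7 1 2 115 (.leaf 2) (.leaf 2)) (.bis 5 7 2 1 352 (.leaf 2)
  (.leaf 5))) (.leaf 5)) (.bis 3 7 1 2 165 (.bis 4 7 1 1 219 (.bis 6 7 1 2 115 (.leaf 2) (.leaf
  2)) (.leaf 4)) (.leaf 4))) (.bis 4 5 1 2 342 (.bis 1 5 1 4 343 (.leaf 5) (.leaf 5)) (.leaf 9)))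
  (.bis 0 7 4 1 85 (.bis 1 7 1 2 286 (.bis 3 7 1 2 165 (.leaf 26) (.leaf 5)) (.bis 1 5 1 4 343
  (.leaf 5) (.leaf 5))) (.bis 0 1 8 1 293 (.bis 1 5 1 4 343 (.leaf 5) (.leaf 5)) (.bis 0 3 8 1
  173 (.bis 5 6 4 1 347 (.leaf 2) (.leaf 5)) (.bis 0 6 8 1 125 (.bis 5 6 4 1 347 (.leaf 2) (.leaf
  5)) (.bis 0 2 4 1 157 (.bis 5 8 2 1 354 (.leaf 2) (.leaf 5)) (.bis 0 5 2 1 353 (.leaf 5) (.leaf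
  11))))))))) (.bis 2 7 4 1 151 (.bis 0 4 4 1 223 (.bis 1 7 1 2 286 (.bis 4 5 1 2 342 (.bis 3 7 1
  2 165 (.bis 5 6 4 1 347 (.bis 6 7 1 2 115 (.leaf 2) (.leaf 2)) (.bis 5 7 2 1 352 (.leaf 2)
  (.leaf 5))) (.leaf 5)) (.bis 3 7 1 2 165 (.bis 4 7 1 1 219 (.bis 6 7 1 2 115 (.leaf 2) (.leaf
  2)) (.leaf 9)) (.leaf 9))) (.bis 4 5 1 2 342 (.bis 1 5 1 4 343 (.leaf 5) (.leaf 5)) (.leaf 9)))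
  (.bis 0 7 4 1 85 (.bis 1 7 1 2 286 (.bis 3 7 1 2 165 (.bis 5 6 4 1 347 (.bis 6 7 1 2 115 (.leaf
  2) (.leaf 2)) (.leaf 26)) (.leaf 5)) (.leaf 5)) (.bis 0 1 8 1 293 (.bis 1 5 1 4 343 (.leaf 5)
  (.leaf 5)) (.bis 0 3 8 1 173 (.leaf 5) (.bis 0 6 8 1 125 (.leaf 5) (.bis 0 8 4 1 157 (.leaf 5)
  (.bis 0 5 2 1 353 (.leaf 5) (.leaf 11)))))))) (.bis 0 4 4 1 223 (.bis 2 4 4 1 227 (.bis 4 5 1 2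
  342 (.bis 1 5 1 4 343 (.leaf 5) (.leaf 5)) (.leaf 9)) (.bis 1 2 1 8 296 (.bis 2 5 2 1 355
  (.leaf 5) (.leaf 6)) (.bis 1 5 1 4 343 (.leaf 5) (.leaf 5)))) (.bis 0 1 8 1 293 (.bis 1 2 1 8
  296 (.bis 2 5 2 1 355 (.leaf 5) (.leaf 6)) (.bis 1 5 1 4 343 (.leaf 5) (.leaf 5))) (.bis 0 3 8
  1 173 (.bis 2 5 2 1 355 (.leaf 5) (.bis 2 3 8 1 186 (.leaf 5) (.leaf 6))) (.bis 0 6 8 1 125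
  (.bis 2 5 2 1 355 (.leaf 5) (.leaf 6)) (.bis 0 8 4 1 157 (.bis 2 5 2 1 355 (.leaf 5) (.leaf 6))
  (.bis 0 5 2 1 353 (.bis 2 5 2 1 355 (.leaf 5) (.leaf 6)) (.bis 2 4 8 1 230 (.leaf 11) (.leaf
  11)))))))))) (.bis 2 7 1 1 130 (.bis 4 7 1 4 215 (.bis 1 7 1 8 289 (.bis 3 7 1 8 167 (.bis 6 7
  1 8 116 (.bis 0 7 1 1 68 (.bis 5 7 1 2 344 (.bis 4 7 1 8 217 (.bis 7 8 4 1 26 (.leaf 14) (.bis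
  2 7 1 2 134 (.leaf 32) (.leaf 14))) (.leaf 14)) (.leaf 14)) (.bis 0 8 4 1 85 (.leaf 14) (.bis 0
  4 8 1 222 (.leaf 14) (.bis 0 5 2 1 353 (.leaf 14) (.bis 0 1 16 1 294 (.leaf 14) (.bis 0 3 16 1
  174 (.leaf 14) (.leaf 21))))))) (.bis 0 8 4 1 85 (.bis 5 6 4 1 347 (.bis 6 8 1 2 115 (.leaf 2)
  (.leaf 2)) (.leaf 14)) (.bis 0 4 8 1 222 (.bis 5 6 4 1 347 (.bis 2 6 4 1 133 (.leaf 2) (.leaf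
  2)) (.leaf 14)) (.bis 0 6 8 1 125 (.bis 5 6 4 1 347 (.leaf 2) (.leaf 14)) (.bis 0 5 2 1 353
  (.leaf 14) (.bis 0 1 16 1 294 (.leaf 14) (.leaf 21))))))) (.bis 0 8 4 1 85 (.bis 2 3 4 1 178
  (.leaf 26) (.bis 5 6 4 1 347 (.leaf 2) (.leaf 14))) (.bis 0 3 8 1 173 (.leaf 5) (.bis 0 4 8 1
  222 (.leaf 5) (.bis 0 6 8 1 125 (.leaf 5) (.bis 0 5 2 1 353 (.leaf 5) (.leaf 21))))))) (.bis 0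
  8 4 1 85 (.bis 1 2 1 4 295 (.bis 2 3 4 1 178 (.bis 3 8 1 2 165 (.leaf 26) (.leaf 5)) (.bis 5 6
  4 1 347 (.bis 6 8 1 2 115 (.leaf 2) (.leaf 2)) (.bis 5 8 2 1 352 (.leaf 2) (.leaf 5)))) (.bis 1
  8 1 2 286 (.leaf 26) (.leaf 5))) (.bis 0 1 8 1 293 (.bis 1 2 1 4 295 (.leaf 5) (.leaf 5)) (.bis
  0 3 8 1 173 (.leaf 5) (.bis 0 4 8 1 222 (.leaf 5) (.bis 0 6 8 1 125 (.leaf 5) (.leaf 21)))))))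
  (.bis 0 4 4 1 223 (.bis 2 4 2 1 225 (.bis 1 8 1 2 286 (.bis 4 5 1 2 342 (.bis 3 8 1 2 165 (.bis
  5 6 4 1 347 (.bis 6 8 1 2 115 (.leaf 2) (.leaf 2)) (.leaf 14)) (.leaf 5)) (.bis 3 8 1 2 165
  (.bis 4 8 1 1 219 (.leaf 2) (.leaf 4)) (.leaf 4))) (.bis 4 5 1 2 342 (.leaf 5) (.leaf 9)))
  (.bis 1 2 1 4 295 (.bis 2 3 4 1 178 (.bis 3 8 1 2 165 (.bis 5 6 4 1 347 (.bis 6 8 1 2 115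
  (.leaf 2) (.leaf 2)) (.bis 5 8 2 1 352 (.leaf 2) (.leaf 5))) (.leaf 5)) (.bis 5 6 4 1 347 (.bis
  6 8 1 2 115 (.bis 0 8 1 2 237 (.leaf 2) (.leaf 2)) (.leaf 2)) (.bis 5 8 2 1 352 (.bis 0 8 1 2
  237 (.leaf 2) (.leaf 2)) (.leaf 5)))) (.bis 1 8 1 2 286 (.bis 3 8 1 2 165 (.bis 5 6 4 1 347
  (.bis 6 8 1 2 115 (.leaf 2) (.leaf 2)) (.leaf 14)) (.leaf 5)) (.leaf 5)))) (.bis 0 8 4 1 85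
  (.bis 1 2 1 4 295 (.bis 2 3 4 1 178 (.bis 3 8 1 2 165 (.bis 5 6 4 1 347 (.bis 6 8 1 2 115
  (.leaf 2) (.leaf 2)) (.bis 5 8 2 1 352 (.leaf 2) (.leaf 5))) (.leaf 5)) (.bis 5 6 4 1 347 (.bis
  6 8 1 2 115 (.leaf 2) (.leaf 2)) (.bis 5 8 2 1 352 (.leaf 2) (.leaf 5)))) (.bis 1 8 1 2 286
  (.bis 3 8 1 2 165 (.leaf 26) (.leaf 5)) (.leaf 5))) (.bis 0 1 8 1 293 (.leaf 5) (.bis 0 3 8 1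
  173 (.leaf 5) (.bis 0 7 8 1 222 (.leaf 5) (.bis 0 6 8 1 125 (.leaf 5) (.leaf 21)))))))) (.bis 2
  8 4 1 151 (.bis 0 4 4 1 223 (.bis 4 7 1 2 225 (.bis 1 7 1 4 295 (.bis 3 7 1 4 178 (.bis 5 6 4 1
  347 (.bis 6 8 1 2 115 (.bis 0 8 1 2 237 (.bis 7 8 2 1 193 (.leaf 2) (.leaf 2)) (.leaf 2))
  (.leaf 2)) (.bis 5 8 2 1 352 (.bis 0 8 1 2 237 (.bis 7 8 2 1 193 (.leaf 2) (.leaf 2)) (.leaf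
  2)) (.leaf 5))) (.bis 3 8 1 2 165 (.bis 5 6 4 1 347 (.bis 6 8 1 2 115 (.bis 0 8 1 2 237 (.leaf
  2) (.leaf 2)) (.leaf 2)) (.bis 5 8 2 1 352 (.bis 0 8 1 2 237 (.leaf 2) (.leaf 2)) (.leaf 5)))
  (.leaf 5))) (.bis 1 8 1 2 286 (.bis 3 8 1 2 165 (.bis 5 6 4 1 347 (.bis 6 8 1 2 115 (.leaf 2)
  (.leaf 2)) (.bis 5 8 2 1 352 (.leaf 2) (.leaf 5))) (.leaf 5)) (.leaf 5))) (.bis 1 8 1 2 286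
  (.bis 4 5 1 2 342 (.bis 3 8 1 2 165 (.bis 5 6 4 1 347 (.bis 6 8 1 2 115 (.leaf 2) (.leaf 2))
  (.bis 5 8 2 1 352 (.leaf 2) (.leaf 5))) (.leaf 5)) (.bis 3 8 1 2 165 (.bis 4 8 1 1 219 (.bis 6
  8 1 2 115 (.leaf 2) (.leaf 2)) (.leaf 9)) (.leaf 9))) (.bis 4 5 1 2 342 (.leaf 5) (.leaf 9))))
  (.bis 0 8 4 1 85 (.bis 1 7 1 4 295 (.bis 3 7 1 4 178 (.bis 5 6 4 1 347 (.bis 6 8 1 2 115 (.bis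
  4 8 1 2 237 (.leaf 2) (.leaf 2)) (.leaf 2)) (.bis 5 8 2 1 352 (.bis 4 8 1 2 237 (.leaf 2)
  (.leaf 2)) (.leaf 5))) (.bis 3 8 1 2 165 (.bis 5 6 4 1 347 (.bis 6 8 1 2 115 (.bis 4 8 1 2 237
  (.leaf 2) (.leaf 2)) (.leaf 2)) (.bis 5 8 2 1 352 (.leaf 2) (.leaf 5))) (.leaf 5))) (.bis 1 8 1
  2 286 (.bis 3 8 1 2 165 (.bis 5 6 4 1 347 (.bis 6 8 1 2 115 (.leaf 2) (.leaf 2)) (.bis 5 8 2 1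
  352 (.leaf 2) (.leaf 5))) (.leaf 5)) (.leaf 5))) (.bis 0 1 8 1 293 (.leaf 5) (.bis 0 3 8 1 173
  (.leaf 5) (.bis 0 6 8 1 125 (.leaf 5) (.leaf 21)))))) (.bis 0 4 4 1 223 (.bis 2 4 4 1 227 (.bis
  4 7 1 2 225 (.bis 1 7 1 4 295 (.leaf 5) (.bis 1 5 1 4 343 (.leaf 5) (.leaf 5))) (.bis 4 5 1 2
  342 (.bis 1 5 1 4 343 (.leaf 5) (.leaf 5)) (.leaf 9))) (.bis 1 7 1 4 295 (.bis 2 5 2 1 355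
  (.leaf 5) (.bis 2 3 8 1 186 (.leaf 5) (.leaf 11))) (.bis 1 2 1 8 296 (.bis 2 5 2 1 355 (.leaf
  5) (.leaf 6)) (.bis 1 5 1 4 343 (.leaf 5) (.leaf 5))))) (.bis 0 1 8 1 293 (.bis 1 7 1 4 295
  (.bis 2 5 2 1 355 (.leaf 5) (.bis 2 3 8 1 186 (.leaf 5) (.leaf 11))) (.bis 1 2 1 8 296 (.bis 2
  5 2 1 355 (.leaf 5) (.leaf 6)) (.bis 1 5 1 4 343 (.leaf 5) (.leaf 5)))) (.bis 0 3 8 1 173 (.bis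
  2 5 2 1 355 (.leaf 5) (.leaf 18)) (.bis 0 6 8 1 125 (.bis 2 5 2 1 355 (.leaf 5) (.leaf 11))
  (.bis 0 5 2 1 353 (.bis 2 5 2 1 355 (.leaf 5) (.leaf 11)) (.bis 2 4 8 1 230 (.leaf 11) (.leaf
  11)))))))))))

def lc21 : List Vr := [⟨[24,0,0,0,0,0,0,0,0], 6912, 0⟩, ⟨[0,112,0,0,0,0,85,0,155], 406901, 0⟩,
  ⟨[0,0,17,0,0,0,0,0,0], 6936, 0⟩, ⟨[0,0,0,52,0,0,85,0,155], 385445, 0⟩, ⟨[0,0,0,0,38,0,85,0,155],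
   206149, 0⟩, ⟨[0,0,0,0,0,30,0,42,0], 34416, 0⟩, ⟨[0,0,0,0,0,0,85,0,155], 59925, 0⟩, ⟨[0,0,0,0,0,
  0,0,42,0], 7056, 0⟩, ⟨[0,0,0,0,0,30,0,0,94], 29760, 0⟩]

theorem lk21 : chkTr lowT (leafLow 2 lowB) lt21 lc21 = true := by decide +kernel

def lt22 : Tr ℕ := (.bis 3 7 1 1 187 (.bis 7 8 2 1 19 (.bis 2 8 2 1 154 (.bis 0 8 2 1 102 (.bis 3
  8 1 1 195 (.bis 5 8 1 1 341 (.bis 1 8 1 4 290 (.bis 6 8 1 4 168 (.bis 4 7 1 1 219 (.leaf 16)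
  (.leaf 16)) (.bis 6 7 1 2 165 (.leaf 4) (.leaf 4))) (.bis 1 7 1 2 286 (.bis 6 7 1 2 165 (.leaf
  4) (.leaf 4)) (.leaf 10))) (.bis 1 7 1 2 286 (.bis 4 5 1 2 342 (.bis 6 7 1 2 165 (.leaf 26)
  (.leaf 9)) (.bis 6 7 1 2 165 (.leaf 4) (.leaf 4))) (.bis 4 5 1 2 342 (.leaf 9) (.leaf 9))))
  (.bis 3 4 2 1 231 (.bis 1 7 1 2 286 (.bis 4 5 1 2 342 (.bis 6 7 1 2 165 (.leaf 26) (.leaf 5))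
  (.bis 6 7 1 2 165 (.leaf 4) (.leaf 4))) (.bis 4 5 1 2 342 (.leaf 5) (.leaf 9))) (.bis 1 7 1 2
  286 (.bis 6 7 1 2 165 (.leaf 26) (.leaf 5)) (.leaf 5)))) (.bis 0 4 4 1 223 (.bis 3 4 2 1 231
  (.bis 1 7 1 2 286 (.bis 4 5 1 2 342 (.bis 6 7 1 2 165 (.bis 5 7 2 1 352 (.leaf 2) (.leaf 5))
  (.leaf 5)) (.bis 6 7 1 2 165 (.bis 4 7 1 1 219 (.leaf 2) (.leaf 4)) (.leaf 4))) (.bis 4 5 1 2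
  342 (.leaf 5) (.leaf 9))) (.bis 1 7 1 2 286 (.bis 6 7 1 2 165 (.leaf 26) (.leaf 5)) (.leaf 5)))
  (.bis 0 7 4 1 85 (.bis 1 7 1 2 286 (.bis 6 7 1 2 165 (.leaf 26) (.leaf 5)) (.leaf 5)) (.bis 0 1
  8 1 293 (.leaf 5) (.bis 0 6 8 1 173 (.leaf 5) (.bis 0 2 4 1 157 (.leaf 5) (.leaf 21)))))))
  (.bis 2 7 4 1 151 (.bis 0 4 4 1 223 (.bis 3 4 2 1 231 (.bis 1 7 1 2 286 (.bis 4 5 1 2 342 (.bis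
  6 7 1 2 165 (.bis 5 7 2 1 352 (.leaf 2) (.leaf 5)) (.leaf 5)) (.bis 6 7 1 2 165 (.bis 4 7 1 1
  219 (.leaf 2) (.leaf 9)) (.leaf 9))) (.bis 4 5 1 2 342 (.leaf 5) (.leaf 9))) (.bis 1 7 1 2 286
  (.bis 6 7 1 2 165 (.bis 5 7 2 1 352 (.leaf 2) (.leaf 5)) (.leaf 5)) (.leaf 5))) (.bis 0 7 4 1
  85 (.bis 1 7 1 2 286 (.bis 6 7 1 2 165 (.leaf 26) (.leaf 5)) (.leaf 5)) (.bis 0 1 8 1 293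
  (.leaf 5) (.bis 0 6 8 1 173 (.leaf 5) (.bis 0 8 4 1 157 (.leaf 5) (.leaf 21)))))) (.bis 0 4 4 1
  223 (.bis 2 4 4 1 227 (.bis 3 4 2 1 231 (.bis 4 5 1 2 342 (.leaf 5) (.leaf 9)) (.leaf 5)) (.bis
  1 2 1 8 296 (.bis 2 5 2 1 355 (.leaf 5) (.leaf 6)) (.leaf 5))) (.bis 0 1 8 1 293 (.bis 1 2 1 8
  296 (.bis 2 5 2 1 355 (.leaf 5) (.leaf 6)) (.leaf 5)) (.bis 0 6 8 1 173 (.bis 2 5 2 1 355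
  (.leaf 5) (.bis 2 6 8 1 186 (.leaf 5) (.leaf 6))) (.bis 0 8 4 1 157 (.bis 2 5 2 1 355 (.leaf 5)
  (.leaf 6)) (.bis 0 5 2 1 353 (.bis 2 5 2 1 355 (.leaf 5) (.leaf 6)) (.bis 2 4 8 1 230 (.leaf
  11) (.leaf 11))))))))) (.bis 2 7 1 1 130 (.bis 4 7 1 4 215 (.bis 1 7 1 8 289 (.bis 6 7 1 8 167
  (.bis 0 7 1 1 68 (.bis 5 7 1 2 344 (.bis 4 7 1 8 217 (.bis 3 7 1 2 190 (.bis 7 8 4 1 26 (.leaf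
  14) (.leaf 32)) (.bis 0 8 2 1 302 (.leaf 14) (.leaf 14))) (.leaf 14)) (.leaf 14)) (.bis 0 8 4 1
  85 (.leaf 14) (.bis 0 4 8 1 222 (.leaf 14) (.bis 0 5 2 1 353 (.leaf 14) (.bis 0 1 16 1 294
  (.leaf 14) (.leaf 21)))))) (.bis 0 8 4 1 85 (.bis 2 6 4 1 178 (.bis 6 8 1 2 165 (.leaf 14)
  (.bis 5 6 4 1 356 (.leaf 2) (.leaf 5))) (.leaf 14)) (.bis 0 6 8 1 173 (.bis 2 6 4 1 178 (.bis 5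
  6 4 1 356 (.leaf 2) (.leaf 5)) (.leaf 5)) (.bis 0 4 8 1 222 (.leaf 5) (.bis 0 5 2 1 353 (.leaf
  5) (.bis 0 1 16 1 294 (.leaf 5) (.leaf 21))))))) (.bis 0 8 4 1 85 (.bis 1 2 1 4 295 (.bis 2 6 4
  1 178 (.bis 6 8 1 2 165 (.leaf 14) (.leaf 5)) (.bis 5 8 2 1 352 (.leaf 2) (.leaf 5))) (.bis 1 8
  1 2 286 (.bis 6 8 1 2 165 (.leaf 14) (.leaf 5)) (.bis 1 5 1 4 343 (.leaf 5) (.leaf 5)))) (.bis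
  0 1 8 1 293 (.bis 1 2 1 4 295 (.bis 2 6 4 1 178 (.leaf 5) (.leaf 5)) (.bis 1 5 1 4 343 (.leaf
  5) (.leaf 5))) (.bis 0 6 8 1 173 (.bis 2 6 4 1 178 (.leaf 5) (.leaf 5)) (.bis 0 4 8 1 222
  (.leaf 5) (.bis 0 5 2 1 353 (.leaf 5) (.leaf 21))))))) (.bis 0 4 4 1 223 (.bis 2 4 2 1 225
  (.bis 3 4 2 1 231 (.bis 1 8 1 2 286 (.bis 4 5 1 2 342 (.bis 6 8 1 2 165 (.leaf 14) (.leaf 5))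
  (.bis 6 8 1 2 165 (.bis 4 8 1 1 219 (.leaf 2) (.leaf 4)) (.leaf 4))) (.bis 4 5 1 2 342 (.leaf
  5) (.leaf 9))) (.bis 1 8 1 2 286 (.bis 6 8 1 2 165 (.leaf 14) (.leaf 5)) (.leaf 5))) (.bis 1 2
  1 4 295 (.bis 2 6 4 1 178 (.bis 6 8 1 2 165 (.bis 5 8 2 1 352 (.leaf 2) (.leaf 5)) (.leaf 5))
  (.bis 5 8 2 1 352 (.bis 0 8 1 2 237 (.leaf 2) (.leaf 2)) (.leaf 5))) (.bis 1 8 1 2 286 (.bis 6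
  8 1 2 165 (.leaf 14) (.leaf 5)) (.leaf 5)))) (.bis 0 8 4 1 85 (.bis 1 2 1 4 295 (.bis 2 6 4 1
  178 (.bis 6 8 1 2 165 (.leaf 14) (.leaf 5)) (.bis 5 8 2 1 352 (.bis 4 8 1 2 237 (.leaf 2)
  (.leaf 2)) (.leaf 5))) (.bis 1 8 1 2 286 (.bis 6 8 1 2 165 (.leaf 14) (.leaf 5)) (.leaf 5)))
  (.bis 0 1 8 1 293 (.bis 1 2 1 4 295 (.leaf 5) (.leaf 5)) (.bis 0 6 8 1 173 (.leaf 5) (.bis 0 7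
  8 1 222 (.leaf 5) (.leaf 21))))))) (.bis 2 8 4 1 151 (.bis 0 4 4 1 223 (.bis 4 7 1 2 225 (.bis
  1 7 1 4 295 (.bis 6 7 1 4 178 (.bis 5 8 2 1 352 (.bis 0 8 1 2 237 (.bis 7 8 2 1 193 (.leaf 2)
  (.leaf 2)) (.leaf 2)) (.leaf 5)) (.bis 6 8 1 2 165 (.bis 5 8 2 1 352 (.bis 0 8 1 2 237 (.leaf
  2) (.leaf 2)) (.leaf 5)) (.leaf 5))) (.bis 1 8 1 2 286 (.bis 6 8 1 2 165 (.bis 5 8 2 1 352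
  (.leaf 2) (.leaf 5)) (.leaf 5)) (.leaf 5))) (.bis 3 4 2 1 231 (.bis 1 8 1 2 286 (.bis 4 5 1 2
  342 (.bis 6 8 1 2 165 (.bis 5 8 2 1 352 (.leaf 2) (.leaf 5)) (.leaf 5)) (.bis 6 8 1 2 165 (.bis
  4 8 1 1 219 (.leaf 2) (.leaf 9)) (.leaf 9))) (.bis 4 5 1 2 342 (.leaf 5) (.leaf 9))) (.bis 1 8
  1 2 286 (.bis 6 8 1 2 165 (.bis 5 8 2 1 352 (.leaf 2) (.leaf 5)) (.leaf 5)) (.leaf 5)))) (.bis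
  0 8 4 1 85 (.bis 1 7 1 4 295 (.bis 6 7 1 4 178 (.bis 5 8 2 1 352 (.bis 4 8 1 2 237 (.bis 7 8 2
  1 193 (.leaf 2) (.leaf 2)) (.leaf 2)) (.leaf 5)) (.bis 6 8 1 2 165 (.bis 5 8 2 1 352 (.leaf 2)
  (.leaf 5)) (.leaf 5))) (.bis 1 8 1 2 286 (.bis 6 8 1 2 165 (.leaf 14) (.leaf 5)) (.leaf 5)))
  (.bis 0 1 8 1 293 (.bis 1 7 1 4 295 (.leaf 5) (.leaf 5)) (.bis 0 6 8 1 173 (.leaf 5) (.bis 0 5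
  2 1 353 (.leaf 5) (.leaf 11)))))) (.bis 0 4 4 1 223 (.bis 2 4 4 1 227 (.bis 4 7 1 2 225 (.leaf
  5) (.bis 3 4 2 1 231 (.bis 4 5 1 2 342 (.leaf 5) (.leaf 9)) (.leaf 5))) (.bis 1 7 1 4 295 (.bis
  2 5 2 1 355 (.leaf 5) (.bis 2 6 8 1 186 (.leaf 5) (.leaf 11))) (.bis 1 2 1 8 296 (.bis 2 5 2 1
  355 (.leaf 5) (.leaf 6)) (.leaf 5)))) (.bis 0 1 8 1 293 (.bis 1 7 1 4 295 (.bis 2 5 2 1 355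
  (.leaf 5) (.bis 2 6 8 1 186 (.leaf 5) (.leaf 11))) (.bis 1 2 1 8 296 (.bis 2 5 2 1 355 (.leaf
  5) (.leaf 6)) (.leaf 5))) (.bis 0 6 8 1 173 (.bis 2 5 2 1 355 (.leaf 5) (.leaf 18)) (.bis 0 5 2
  1 353 (.bis 2 5 2 1 355 (.leaf 5) (.leaf 11)) (.bis 2 4 8 1 230 (.leaf 11) (.leaf 11)))))))))
  (.bis 3 8 2 1 196 (.bis 2 8 2 1 154 (.bis 0 8 2 1 102 (.bis 7 8 1 1 195 (.bis 5 8 1 1 341 (.bis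
  1 8 1 4 290 (.bis 6 8 1 4 168 (.bis 3 8 1 2 299 (.leaf 16) (.leaf 4)) (.leaf 4)) (.leaf 10))
  (.bis 4 5 1 2 342 (.leaf 9) (.leaf 9))) (.bis 4 7 1 2 231 (.leaf 5) (.bis 4 5 1 2 342 (.leaf 5)
  (.leaf 9)))) (.bis 0 4 4 1 223 (.bis 4 7 1 2 231 (.leaf 5) (.bis 4 5 1 2 342 (.bis 1 5 1 4 343
  (.leaf 5) (.leaf 5)) (.leaf 9))) (.bis 0 1 8 1 293 (.leaf 5) (.bis 0 6 8 1 173 (.leaf 5) (.bis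
  0 3 4 1 199 (.leaf 5) (.bis 0 2 4 1 157 (.leaf 5) (.leaf 21))))))) (.bis 0 4 4 1 223 (.bis 2 4
  4 1 227 (.bis 4 7 1 2 231 (.bis 1 5 1 4 343 (.leaf 5) (.bis 1 7 1 4 298 (.leaf 2) (.leaf 5)))
  (.bis 4 5 1 2 342 (.bis 1 5 1 4 343 (.leaf 5) (.leaf 5)) (.leaf 9))) (.bis 1 2 1 8 296 (.bis 2
  5 2 1 355 (.leaf 5) (.bis 2 6 8 1 186 (.bis 6 7 1 4 198 (.leaf 5) (.leaf 5)) (.leaf 6))) (.bis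
  1 5 1 4 343 (.leaf 5) (.bis 1 7 1 4 298 (.leaf 2) (.leaf 5))))) (.bis 0 1 8 1 293 (.bis 1 2 1 8
  296 (.bis 2 5 2 1 355 (.leaf 5) (.bis 2 6 8 1 186 (.leaf 5) (.leaf 6))) (.bis 1 5 1 4 343
  (.leaf 5) (.bis 1 7 1 4 298 (.leaf 2) (.leaf 5)))) (.bis 0 6 8 1 173 (.bis 2 5 2 1 355 (.leaf
  5) (.bis 2 6 8 1 186 (.leaf 5) (.leaf 6))) (.bis 0 3 4 1 199 (.bis 2 5 2 1 355 (.leaf 5) (.bis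
  2 3 4 1 200 (.leaf 5) (.leaf 6))) (.bis 0 8 4 1 157 (.bis 2 5 2 1 355 (.leaf 5) (.leaf 6))
  (.bis 0 5 2 1 353 (.bis 2 5 2 1 355 (.leaf 5) (.leaf 6)) (.bis 2 4 8 1 230 (.leaf 11) (.leaf
  11))))))))) (.bis 0 4 4 1 223 (.bis 2 4 4 1 227 (.bis 3 4 4 1 244 (.bis 4 7 1 2 231 (.bis 1 5 1
  4 343 (.leaf 5) (.bis 1 7 1 4 298 (.bis 6 7 1 4 198 (.leaf 2) (.leaf 2)) (.leaf 5))) (.bis 4 5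
  1 2 342 (.bis 1 5 1 4 343 (.leaf 5) (.leaf 5)) (.leaf 9))) (.bis 3 5 2 1 357 (.leaf 5) (.bis 1
  7 1 4 298 (.bis 0 3 1 8 245 (.leaf 6) (.leaf 5)) (.bis 1 3 1 8 300 (.leaf 6) (.leaf 5)))))
  (.bis 1 2 1 8 296 (.bis 3 5 2 1 357 (.bis 2 5 2 1 355 (.leaf 5) (.leaf 6)) (.leaf 6)) (.bis 3 5
  2 1 357 (.leaf 5) (.bis 1 7 1 4 298 (.bis 0 3 1 8 245 (.leaf 6) (.leaf 5)) (.bis 1 3 1 8 300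
  (.leaf 6) (.leaf 5)))))) (.bis 0 1 8 1 293 (.bis 1 2 1 8 296 (.bis 3 5 2 1 357 (.bis 2 5 2 1
  355 (.leaf 5) (.leaf 6)) (.leaf 6)) (.bis 3 5 2 1 357 (.leaf 5) (.bis 1 7 1 4 298 (.bis 3 4 8 1
  245 (.leaf 5) (.leaf 6)) (.bis 1 3 1 8 300 (.leaf 6) (.leaf 5))))) (.bis 0 6 8 1 173 (.bis 3 5
  2 1 357 (.bis 2 5 2 1 355 (.leaf 5) (.bis 2 6 8 1 186 (.leaf 5) (.leaf 6))) (.leaf 6)) (.bis 0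
  8 4 1 199 (.bis 3 5 2 1 357 (.bis 2 5 2 1 355 (.leaf 5) (.leaf 6)) (.leaf 6)) (.bis 0 3 1 1 213
  (.bis 3 5 2 1 357 (.leaf 6) (.leaf 6)) (.bis 0 5 2 1 353 (.bis 2 5 2 1 355 (.leaf 5) (.leaf 6))
  (.leaf 11)))))))))

def lc22 : List Vr := [⟨[24,0,0,0,0,0,0,0,0], 6912, 0⟩, ⟨[0,112,0,0,0,0,85,0,155], 406901, 0⟩,
  ⟨[0,0,17,0,0,0,0,0,0], 6936, 0⟩, ⟨[0,0,0,13,0,0,0,0,0], 6760, 0⟩, ⟨[0,0,0,0,38,0,85,0,155],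
  206149, 0⟩, ⟨[0,0,0,0,0,30,0,42,0], 34416, 0⟩, ⟨[0,0,0,52,0,0,85,0,155], 385445, 0⟩, ⟨[0,0,0,0,
  0,0,0,42,0], 7056, 0⟩, ⟨[0,0,0,0,0,30,0,0,94], 29760, 0⟩]

theorem lk22 : chkTr lowT (leafLow 2 lowB) lt22 lc22 = true := by decide +kernel

def lt23 : Tr ℕ := (.bis 4 7 1 1 247 (.bis 3 7 1 1 187 (.bis 7 8 2 1 19 (.bis 2 8 2 1 154 (.bis 0
  8 2 1 102 (.bis 3 8 1 1 195 (.bis 4 8 1 1 256 (.bis 5 8 1 1 341 (.bis 1 8 1 4 290 (.bis 6 7 1 1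
  219 (.bis 7 8 1 2 106 (.leaf 16) (.leaf 4)) (.bis 2 8 1 2 315 (.leaf 16) (.leaf 4))) (.bis 1 7
  1 2 286 (.leaf 4) (.leaf 10))) (.bis 1 7 1 2 286 (.bis 5 6 2 1 342 (.leaf 4) (.leaf 26)) (.bis
  5 6 2 1 342 (.leaf 9) (.leaf 9)))) (.bis 1 7 1 2 286 (.bis 4 6 2 1 250 (.leaf 76) (.leaf 26))
  (.leaf 29))) (.bis 3 6 2 1 231 (.bis 1 7 1 2 286 (.bis 4 6 2 1 250 (.bis 5 6 2 1 342 (.bis 6 7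
  1 1 219 (.leaf 2) (.leaf 4)) (.leaf 26)) (.leaf 26)) (.leaf 29)) (.bis 1 7 1 2 286 (.leaf 26)
  (.bis 1 5 1 4 343 (.leaf 5) (.leaf 5))))) (.bis 0 6 4 1 223 (.bis 3 6 2 1 231 (.bis 1 7 1 2 286
  (.bis 4 6 2 1 250 (.bis 5 6 2 1 342 (.bis 6 7 1 1 219 (.bis 0 7 1 2 237 (.leaf 2) (.leaf 2))
  (.leaf 4)) (.bis 5 7 2 1 352 (.bis 0 7 1 2 237 (.leaf 2) (.leaf 2)) (.leaf 5))) (.bis 5 7 2 1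
  352 (.leaf 2) (.leaf 5))) (.leaf 29)) (.bis 1 7 1 2 286 (.bis 5 7 2 1 352 (.leaf 2) (.leaf 5))
  (.leaf 5))) (.bis 0 7 4 1 85 (.bis 1 7 1 2 286 (.bis 5 7 2 1 352 (.leaf 2) (.leaf 5)) (.bis 1 5
  1 4 343 (.leaf 5) (.leaf 5))) (.bis 0 1 8 1 293 (.bis 1 5 1 4 343 (.leaf 5) (.bis 1 3 1 4 298
  (.leaf 2) (.leaf 5))) (.bis 0 2 4 1 157 (.leaf 5) (.bis 0 5 2 1 353 (.leaf 5) (.leaf 11)))))))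
  (.bis 2 7 4 1 151 (.bis 0 6 4 1 223 (.bis 3 6 2 1 231 (.bis 1 7 1 2 286 (.bis 4 6 2 1 250 (.bis
  5 6 2 1 342 (.bis 6 7 1 1 219 (.bis 0 7 1 2 237 (.leaf 2) (.leaf 2)) (.leaf 9)) (.bis 5 7 2 1
  352 (.bis 0 7 1 2 237 (.leaf 2) (.leaf 2)) (.leaf 5))) (.bis 5 7 2 1 352 (.bis 4 7 2 1 251
  (.leaf 2) (.leaf 2)) (.leaf 5))) (.leaf 29)) (.bis 1 7 1 2 286 (.bis 5 7 2 1 352 (.bis 4 7 2 1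
  251 (.leaf 2) (.leaf 2)) (.leaf 5)) (.bis 1 5 1 4 343 (.leaf 5) (.leaf 5)))) (.bis 0 7 4 1 85
  (.bis 1 7 1 2 286 (.bis 5 7 2 1 352 (.leaf 2) (.leaf 5)) (.bis 1 5 1 4 343 (.leaf 5) (.bis 1 3
  1 4 298 (.leaf 2) (.leaf 5)))) (.bis 0 1 8 1 293 (.bis 1 5 1 4 343 (.leaf 5) (.bis 1 3 1 4 298
  (.leaf 2) (.leaf 5))) (.bis 0 8 4 1 157 (.leaf 5) (.bis 0 5 2 1 353 (.leaf 5) (.leaf 11))))))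
  (.bis 0 6 4 1 223 (.bis 2 6 4 1 227 (.bis 3 6 2 1 231 (.leaf 29) (.bis 1 5 1 4 343 (.leaf 5)
  (.leaf 5))) (.bis 1 2 1 8 296 (.bis 2 5 2 1 355 (.leaf 5) (.leaf 6)) (.leaf 5))) (.bis 0 1 8 1
  293 (.bis 1 2 1 8 296 (.bis 2 5 2 1 355 (.leaf 5) (.leaf 6)) (.leaf 5)) (.bis 0 8 4 1 157 (.bis
  2 5 2 1 355 (.leaf 5) (.leaf 6)) (.bis 0 5 2 1 353 (.bis 2 5 2 1 355 (.leaf 5) (.bis 2 4 2 1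
  255 (.leaf 5) (.leaf 6))) (.bis 2 4 2 1 255 (.leaf 11) (.leaf 11)))))))) (.bis 2 7 1 1 130
  (.bis 6 7 1 4 215 (.bis 1 7 1 8 289 (.bis 0 7 1 1 68 (.bis 5 7 1 2 344 (.bis 4 7 1 2 249 (.bis
  6 7 1 8 217 (.bis 3 7 1 2 190 (.bis 7 8 4 1 26 (.leaf 14) (.leaf 32)) (.bis 0 8 2 1 302 (.bis 2
  8 2 1 193 (.leaf 14) (.leaf 14)) (.leaf 14))) (.leaf 14)) (.bis 4 8 2 1 251 (.leaf 14) (.leaf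
  14))) (.bis 5 8 2 1 352 (.leaf 14) (.leaf 14))) (.bis 0 8 4 1 85 (.bis 5 8 2 1 352 (.leaf 14)
  (.leaf 14)) (.bis 0 6 8 1 222 (.leaf 14) (.bis 0 5 2 1 353 (.leaf 14) (.bis 0 1 16 1 294 (.leaf
  14) (.leaf 21)))))) (.bis 0 8 4 1 85 (.bis 1 2 1 4 295 (.bis 5 8 2 1 352 (.leaf 2) (.leaf 5))
  (.bis 1 8 1 2 286 (.leaf 14) (.bis 1 5 1 4 343 (.leaf 5) (.bis 1 3 1 4 298 (.leaf 2) (.leaf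
  5))))) (.bis 0 1 8 1 293 (.bis 1 2 1 4 295 (.leaf 5) (.bis 1 5 1 4 343 (.leaf 5) (.bis 1 3 1 4
  298 (.leaf 2) (.leaf 5)))) (.bis 0 6 8 1 222 (.leaf 5) (.bis 0 5 2 1 353 (.leaf 5) (.bis 0 7 16
  1 294 (.leaf 5) (.leaf 11))))))) (.bis 0 6 4 1 223 (.bis 2 6 2 1 225 (.bis 3 6 2 1 231 (.bis 1
  8 1 2 286 (.bis 4 6 2 1 250 (.bis 5 6 2 1 342 (.bis 6 8 1 1 219 (.bis 0 8 1 2 237 (.leaf 2)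
  (.leaf 2)) (.leaf 4)) (.bis 5 8 2 1 352 (.leaf 2) (.leaf 5))) (.bis 5 8 2 1 352 (.leaf 2)
  (.leaf 5))) (.leaf 29)) (.bis 1 8 1 2 286 (.bis 5 8 2 1 352 (.leaf 2) (.leaf 5)) (.bis 1 5 1 4
  343 (.leaf 5) (.leaf 5)))) (.bis 1 2 1 4 295 (.bis 5 8 2 1 352 (.bis 4 8 2 1 251 (.leaf 2)
  (.leaf 2)) (.leaf 5)) (.bis 1 8 1 2 286 (.bis 5 8 2 1 352 (.leaf 2) (.leaf 5)) (.bis 1 5 1 4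
  343 (.leaf 5) (.leaf 5))))) (.bis 0 8 4 1 85 (.bis 1 2 1 4 295 (.bis 5 8 2 1 352 (.bis 4 8 2 1
  251 (.leaf 2) (.leaf 2)) (.leaf 5)) (.bis 1 8 1 2 286 (.bis 5 8 2 1 352 (.leaf 2) (.leaf 5))
  (.bis 1 5 1 4 343 (.leaf 5) (.bis 1 3 1 4 298 (.leaf 2) (.leaf 5))))) (.bis 0 1 8 1 293 (.bis 1
  2 1 4 295 (.leaf 5) (.bis 1 5 1 4 343 (.leaf 5) (.bis 1 3 1 4 298 (.leaf 2) (.leaf 5)))) (.bis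
  0 7 8 1 222 (.leaf 5) (.bis 0 5 2 1 353 (.leaf 5) (.leaf 11))))))) (.bis 2 8 4 1 151 (.bis 0 6
  4 1 223 (.bis 6 7 1 2 225 (.bis 1 7 1 4 295 (.bis 5 8 2 1 352 (.bis 4 8 2 1 251 (.bis 0 8 1 2
  237 (.leaf 2) (.leaf 2)) (.leaf 2)) (.leaf 5)) (.bis 1 8 1 2 286 (.bis 5 8 2 1 352 (.bis 4 8 2
  1 251 (.leaf 2) (.leaf 2)) (.leaf 5)) (.bis 1 5 1 4 343 (.leaf 5) (.leaf 5)))) (.bis 3 6 2 1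
  231 (.bis 1 8 1 2 286 (.bis 4 6 2 1 250 (.bis 5 6 2 1 342 (.bis 6 8 1 1 219 (.bis 0 8 1 2 237
  (.leaf 2) (.leaf 2)) (.leaf 9)) (.bis 5 8 2 1 352 (.bis 0 8 1 2 237 (.leaf 2) (.leaf 2)) (.leaf
  5))) (.bis 5 8 2 1 352 (.bis 4 8 2 1 251 (.leaf 2) (.leaf 2)) (.leaf 5))) (.leaf 29)) (.bis 1 8
  1 2 286 (.bis 5 8 2 1 352 (.bis 4 8 2 1 251 (.leaf 2) (.leaf 2)) (.leaf 5)) (.bis 1 5 1 4 343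
  (.leaf 5) (.leaf 5))))) (.bis 0 8 4 1 85 (.bis 1 7 1 4 295 (.bis 5 8 2 1 352 (.bis 4 8 2 1 251
  (.bis 6 8 1 2 237 (.leaf 2) (.leaf 2)) (.leaf 2)) (.leaf 5)) (.bis 1 8 1 2 286 (.bis 5 8 2 1
  352 (.bis 4 8 2 1 251 (.leaf 2) (.leaf 2)) (.leaf 5)) (.bis 1 5 1 4 343 (.leaf 5) (.bis 1 3 1 4
  298 (.leaf 2) (.leaf 5))))) (.bis 0 1 8 1 293 (.bis 1 7 1 4 295 (.leaf 5) (.bis 1 5 1 4 343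
  (.leaf 5) (.bis 1 3 1 4 298 (.leaf 2) (.leaf 5)))) (.bis 0 5 2 1 353 (.leaf 5) (.leaf 11)))))
  (.bis 0 6 4 1 223 (.bis 2 6 4 1 227 (.bis 6 7 1 2 225 (.bis 1 7 1 4 295 (.leaf 5) (.bis 1 5 1 4
  343 (.leaf 5) (.leaf 5))) (.bis 3 6 2 1 231 (.leaf 29) (.bis 1 5 1 4 343 (.leaf 5) (.leaf 5))))
  (.bis 1 7 1 4 295 (.bis 2 5 2 1 355 (.leaf 5) (.bis 2 4 2 1 255 (.leaf 5) (.leaf 11))) (.bis 1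
  2 1 8 296 (.bis 2 5 2 1 355 (.leaf 5) (.leaf 6)) (.leaf 5)))) (.bis 0 1 8 1 293 (.bis 1 7 1 4
  295 (.bis 2 5 2 1 355 (.leaf 5) (.bis 2 4 2 1 255 (.leaf 5) (.leaf 11))) (.bis 1 2 1 8 296
  (.bis 2 5 2 1 355 (.leaf 5) (.leaf 6)) (.bis 1 5 1 4 343 (.leaf 5) (.leaf 5)))) (.bis 0 5 2 1
  353 (.bis 2 5 2 1 355 (.leaf 5) (.bis 2 4 2 1 255 (.leaf 5) (.leaf 11))) (.bis 2 4 2 1 255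
  (.bis 0 4 2 1 254 (.leaf 5) (.leaf 11)) (.leaf 11)))))))) (.bis 3 8 2 1 196 (.bis 2 8 2 1 154
  (.bis 0 8 2 1 102 (.bis 7 8 1 1 195 (.bis 4 8 1 1 256 (.bis 5 8 1 1 341 (.bis 1 8 1 4 290 (.bis
  3 8 1 2 299 (.leaf 16) (.leaf 4)) (.leaf 10)) (.bis 5 6 2 1 342 (.leaf 9) (.leaf 9))) (.leaf
  29)) (.bis 6 7 1 2 231 (.bis 1 5 1 4 343 (.leaf 5) (.leaf 5)) (.leaf 29))) (.bis 0 6 4 1 223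
  (.bis 6 7 1 2 231 (.leaf 5) (.leaf 29)) (.bis 0 1 8 1 293 (.leaf 5) (.bis 0 3 4 1 199 (.leaf 5)
  (.bis 0 2 4 1 157 (.leaf 5) (.bis 0 5 2 1 353 (.leaf 5) (.leaf 11))))))) (.bis 0 6 4 1 223
  (.bis 2 6 4 1 227 (.bis 6 7 1 2 231 (.leaf 5) (.leaf 29)) (.bis 1 2 1 8 296 (.bis 2 5 2 1 355
  (.leaf 5) (.leaf 6)) (.leaf 5))) (.bis 0 1 8 1 293 (.bis 1 2 1 8 296 (.bis 2 5 2 1 355 (.leaf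
  5) (.leaf 6)) (.leaf 5)) (.bis 0 3 4 1 199 (.bis 2 5 2 1 355 (.leaf 5) (.bis 2 3 4 1 200 (.leaf
  5) (.leaf 6))) (.bis 0 8 4 1 157 (.bis 2 5 2 1 355 (.leaf 5) (.leaf 6)) (.bis 0 5 2 1 353 (.bis
  2 5 2 1 355 (.leaf 5) (.bis 2 4 2 1 255 (.leaf 5) (.leaf 6))) (.bis 2 4 2 1 255 (.leaf 11)
  (.leaf 11)))))))) (.bis 0 6 4 1 223 (.bis 2 6 4 1 227 (.bis 3 6 4 1 244 (.bis 6 7 1 2 231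
  (.leaf 5) (.leaf 29)) (.bis 3 5 2 1 357 (.leaf 5) (.bis 1 7 1 4 298 (.bis 0 3 1 8 245 (.leaf 6)
  (.leaf 5)) (.bis 1 3 1 8 300 (.leaf 6) (.leaf 5))))) (.bis 1 2 1 8 296 (.bis 3 5 2 1 357 (.bis
  2 5 2 1 355 (.leaf 5) (.leaf 6)) (.leaf 6)) (.bis 3 5 2 1 357 (.leaf 5) (.bis 1 7 1 4 298 (.bis
  0 3 1 8 245 (.leaf 6) (.leaf 5)) (.bis 1 3 1 8 300 (.leaf 6) (.leaf 5)))))) (.bis 0 1 8 1 293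
  (.bis 1 2 1 8 296 (.bis 3 5 2 1 357 (.bis 2 5 2 1 355 (.leaf 5) (.leaf 6)) (.leaf 6)) (.bis 3 5
  2 1 357 (.leaf 5) (.bis 1 7 1 4 298 (.bis 3 6 8 1 245 (.leaf 5) (.leaf 6)) (.bis 1 3 1 8 300
  (.leaf 6) (.leaf 5))))) (.bis 0 8 4 1 199 (.bis 3 5 2 1 357 (.bis 2 5 2 1 355 (.leaf 5) (.bis 2
  8 4 1 200 (.leaf 5) (.leaf 6))) (.leaf 6)) (.bis 0 3 1 1 213 (.bis 3 5 2 1 357 (.bis 2 5 2 1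
  355 (.leaf 5) (.leaf 6)) (.leaf 6)) (.bis 0 5 2 1 353 (.bis 2 5 2 1 355 (.leaf 5) (.leaf 6))
  (.bis 2 4 2 1 255 (.leaf 11) (.leaf 11))))))))) (.bis 4 8 2 1 260 (.bis 3 8 2 1 196 (.bis 2 8 2
  1 154 (.bis 0 8 2 1 102 (.bis 7 8 1 1 256 (.bis 5 8 1 1 341 (.bis 1 8 1 4 290 (.bis 4 8 1 2 264
  (.bis 3 8 1 2 299 (.leaf 16) (.leaf 4)) (.leaf 10)) (.leaf 10)) (.bis 5 6 2 1 342 (.leaf 9)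
  (.leaf 9))) (.leaf 29)) (.bis 0 6 4 1 223 (.bis 6 7 1 2 250 (.leaf 5) (.bis 5 6 2 1 342 (.leaf
  9) (.leaf 5))) (.bis 0 1 8 1 293 (.leaf 5) (.bis 0 4 4 1 265 (.leaf 5) (.bis 0 3 4 1 199 (.leaf
  5) (.bis 0 2 4 1 157 (.leaf 5) (.leaf 21))))))) (.bis 0 6 4 1 223 (.bis 2 6 4 1 227 (.bis 6 7 1
  2 250 (.leaf 5) (.bis 5 6 2 1 342 (.leaf 9) (.bis 1 5 1 4 343 (.leaf 5) (.leaf 5)))) (.bis 1 2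
  1 8 296 (.bis 2 4 4 1 267 (.leaf 5) (.bis 2 5 2 1 355 (.leaf 5) (.leaf 6))) (.leaf 5))) (.bis 0
  1 8 1 293 (.bis 1 2 1 8 296 (.bis 2 4 4 1 267 (.leaf 5) (.bis 2 5 2 1 355 (.leaf 5) (.leaf 6)))
  (.leaf 5)) (.bis 0 4 4 1 265 (.bis 2 4 4 1 267 (.leaf 5) (.bis 2 5 2 1 355 (.leaf 5) (.leaf
  6))) (.bis 0 3 4 1 199 (.bis 2 5 2 1 355 (.leaf 5) (.bis 2 3 4 1 200 (.leaf 5) (.leaf 6)))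
  (.bis 0 8 4 1 157 (.bis 2 5 2 1 355 (.leaf 5) (.leaf 6)) (.bis 0 5 2 1 353 (.bis 2 5 2 1 355
  (.leaf 5) (.bis 2 7 2 1 255 (.leaf 5) (.leaf 6))) (.bis 2 7 2 1 255 (.leaf 11) (.leaf
  11))))))))) (.bis 0 6 4 1 223 (.bis 2 6 4 1 227 (.bis 3 6 4 1 244 (.bis 6 7 1 2 250 (.leaf 5)
  (.bis 5 6 2 1 342 (.leaf 9) (.bis 1 5 1 4 343 (.leaf 5) (.leaf 5)))) (.bis 3 5 2 1 357 (.leaf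
  5) (.bis 1 3 1 8 300 (.leaf 6) (.bis 1 7 1 4 301 (.leaf 5) (.leaf 5))))) (.bis 1 2 1 8 296
  (.bis 2 4 4 1 267 (.bis 3 5 2 1 357 (.leaf 5) (.bis 0 3 1 8 245 (.leaf 6) (.leaf 5))) (.bis 3 5
  2 1 357 (.bis 2 5 2 1 355 (.leaf 5) (.leaf 6)) (.leaf 6))) (.bis 3 5 2 1 357 (.leaf 5) (.bis 1
  3 1 8 300 (.leaf 6) (.leaf 5))))) (.bis 0 1 8 1 293 (.bis 1 2 1 8 296 (.bis 2 4 4 1 267 (.bis 3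
  5 2 1 357 (.leaf 5) (.leaf 6)) (.leaf 6)) (.bis 3 5 2 1 357 (.leaf 5) (.bis 1 3 1 8 300 (.leaf
  6) (.leaf 5)))) (.bis 0 4 4 1 265 (.bis 2 4 4 1 267 (.bis 3 5 2 1 357 (.leaf 5) (.bis 3 6 8 1
  245 (.leaf 5) (.leaf 6))) (.bis 3 5 2 1 357 (.bis 2 5 2 1 355 (.leaf 5) (.leaf 6)) (.leaf 6)))
  (.bis 0 8 4 1 199 (.bis 3 5 2 1 357 (.bis 2 5 2 1 355 (.leaf 5) (.bis 2 8 4 1 200 (.leaf 5)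
  (.leaf 6))) (.leaf 6)) (.bis 0 3 1 1 213 (.bis 3 5 2 1 357 (.bis 2 5 2 1 355 (.leaf 5) (.leaf
  6)) (.leaf 6)) (.bis 0 5 2 1 353 (.bis 2 5 2 1 355 (.leaf 5) (.leaf 6)) (.bis 2 7 2 1 255
  (.leaf 11) (.leaf 11))))))))) (.bis 0 6 4 1 223 (.bis 2 6 4 1 227 (.bis 3 6 4 1 244 (.bis 4 6 4
  1 277 (.bis 6 7 1 2 250 (.leaf 5) (.bis 5 6 2 1 342 (.leaf 9) (.bis 1 5 1 4 343 (.leaf 5)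
  (.leaf 5)))) (.bis 1 4 1 8 304 (.bis 4 5 2 1 358 (.leaf 5) (.leaf 22)) (.bis 1 5 1 4 343 (.leaf
  5) (.bis 1 7 1 4 301 (.leaf 5) (.leaf 5))))) (.bis 1 4 1 8 304 (.bis 4 5 2 1 358 (.bis 3 5 2 1
  357 (.leaf 5) (.leaf 6)) (.leaf 22)) (.bis 3 5 2 1 357 (.leaf 5) (.bis 1 3 1 8 300 (.leaf 6)
  (.leaf 5))))) (.bis 1 4 1 8 304 (.bis 2 8 4 1 267 (.bis 4 5 2 1 358 (.bis 3 5 2 1 357 (.leaf 5)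
  (.leaf 6)) (.leaf 22)) (.bis 4 5 2 1 358 (.leaf 6) (.leaf 22))) (.bis 1 2 1 8 296 (.bis 2 8 4 1
  267 (.bis 3 5 2 1 357 (.leaf 5) (.leaf 6)) (.bis 3 5 2 1 357 (.leaf 6) (.leaf 6))) (.bis 3 5 2
  1 357 (.leaf 5) (.leaf 13))))) (.bis 0 4 1 1 280 (.bis 1 4 1 8 304 (.bis 2 8 4 1 267 (.leaf 22)
  (.bis 4 5 2 1 358 (.leaf 6) (.leaf 22))) (.bis 1 2 1 8 296 (.leaf 6) (.bis 3 5 2 1 357 (.leaf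
  5) (.leaf 13)))) (.bis 0 1 8 1 293 (.bis 1 2 1 8 296 (.leaf 6) (.bis 3 5 2 1 357 (.leaf 5)
  (.leaf 13))) (.bis 0 8 4 1 265 (.bis 2 8 4 1 267 (.bis 3 5 2 1 357 (.leaf 5) (.bis 3 6 8 1 245
  (.leaf 5) (.leaf 6))) (.leaf 6)) (.bis 0 3 1 1 213 (.bis 3 5 2 1 357 (.leaf 6) (.leaf 6))
  (.leaf 34))))))))

def lc23 : List Vr := [⟨[24,0,0,0,0,0,0,0,0], 6912, 0⟩, ⟨[0,112,0,0,0,0,85,0,155], 406901, 0⟩,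
  ⟨[0,0,17,0,0,0,0,0,0], 6936, 0⟩, ⟨[0,0,0,13,0,0,0,0,0], 6760, 0⟩, ⟨[0,0,0,0,19,0,0,0,0], 7581,
  0⟩, ⟨[0,0,0,0,0,30,0,42,0], 34416, 0⟩, ⟨[0,0,0,0,38,0,85,0,155], 206149, 0⟩, ⟨[0,0,0,0,0,0,0,42,
  0], 7056, 0⟩, ⟨[0,0,0,0,0,30,0,0,94], 29760, 0⟩]

theorem lk23 : chkTr lowT (leafLow 2 lowB) lt23 lc23 = true := by decide +kernel

end Pool.Agent.Helper10.Fam.E7
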