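import Pool.Agent.Helper10.FamD.E7LowT

set_option autoImplicit false
set_option maxRecDepth 1000000

/-!
# Certificate data for `U ⊕ E7` (lower bound, subtrees)
-/

namespace Pool.Agent.Helper10.Fam.E7

open Pool.Agent.Helper10.Fam

def lt24 : Tr ℕ := (.bis 4 6 2 1 214 (.bis 3 6 4 1 159 (.bis 2 6 4 1 110 (.bis 0 6 4 1 50 (.bis 6
  7 1 1 348 (.bis 7 8 1 1 341 (.bis 1 8 1 4 290 (.bis 5 8 1 4 360 (.bis 0 8 1 4 61 (.bis 2 8 1 4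
  121 (.leaf 16) (.leaf 16)) (.leaf 16)) (.leaf 24)) (.leaf 24)) (.bis 4 7 1 2 342 (.bis 1 7 1 4
  343 (.leaf 9) (.leaf 9)) (.leaf 9))) (.bis 1 6 1 2 291 (.bis 5 6 1 2 361 (.bis 3 6 1 2 171
  (.bis 2 6 1 2 122 (.bis 0 6 1 2 66 (.bis 4 6 1 2 349 (.bis 6 8 1 2 362 (.leaf 37) (.leaf 37))
  (.bis 4 8 1 2 350 (.bis 1 8 1 8 363 (.leaf 37) (.leaf 24)) (.leaf 24))) (.bis 0 8 1 4 61 (.bis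
  4 8 1 2 350 (.leaf 37) (.leaf 24)) (.leaf 24))) (.bis 0 8 1 4 61 (.bis 2 8 1 4 121 (.leaf 37)
  (.leaf 24)) (.leaf 24))) (.bis 0 8 1 4 61 (.bis 2 8 1 4 121 (.bis 3 8 1 4 168 (.leaf 37) (.leaf
  24)) (.leaf 24)) (.leaf 24))) (.bis 5 8 1 4 360 (.bis 0 8 1 4 61 (.bis 2 8 1 4 121 (.leaf 71)
  (.leaf 24)) (.leaf 24)) (.leaf 24))) (.bis 1 8 1 4 290 (.bis 5 8 1 4 360 (.bis 0 8 1 4 61 (.bis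
  2 8 1 4 121 (.leaf 16) (.leaf 16)) (.leaf 16)) (.leaf 24)) (.leaf 24)))) (.bis 0 8 2 1 102
  (.bis 7 8 1 1 341 (.bis 1 8 1 4 290 (.bis 5 8 1 4 360 (.bis 6 8 1 4 61 (.bis 2 8 1 4 121 (.leaf
  16) (.leaf 16)) (.leaf 16)) (.leaf 24)) (.leaf 24)) (.bis 4 7 1 2 342 (.bis 1 7 1 4 343 (.leaf
  9) (.leaf 9)) (.leaf 9))) (.bis 0 5 8 1 364 (.bis 4 7 1 2 342 (.bis 1 7 1 4 343 (.leaf 9)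
  (.leaf 9)) (.leaf 9)) (.bis 0 4 4 1 223 (.bis 4 7 1 2 342 (.bis 1 7 1 4 343 (.leaf 5) (.leaf
  5)) (.leaf 9)) (.bis 0 1 8 1 293 (.bis 1 7 1 4 343 (.leaf 5) (.leaf 5)) (.bis 0 3 8 1 173 (.bis
  6 7 1 4 346 (.leaf 5) (.leaf 2)) (.bis 0 2 8 1 125 (.bis 6 7 1 4 346 (.leaf 5) (.leaf 2)) (.bis
  0 7 2 1 353 (.leaf 5) (.leaf 21))))))))) (.bis 2 8 2 1 154 (.bis 0 8 2 1 102 (.bis 7 8 1 1 341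
  (.bis 1 8 1 4 290 (.bis 5 8 1 4 360 (.bis 6 8 1 4 121 (.bis 3 8 1 4 168 (.leaf 16) (.leaf 16))
  (.leaf 16)) (.leaf 24)) (.leaf 24)) (.bis 4 7 1 2 342 (.bis 1 7 1 4 343 (.leaf 9) (.leaf 9))
  (.leaf 9))) (.bis 0 5 8 1 364 (.bis 4 7 1 2 342 (.bis 1 7 1 4 343 (.leaf 9) (.leaf 9)) (.leaf
  9)) (.bis 0 4 4 1 223 (.bis 4 7 1 2 342 (.bis 1 7 1 4 343 (.leaf 5) (.leaf 5)) (.leaf 9)) (.bis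
  0 1 8 1 293 (.bis 1 7 1 4 343 (.leaf 5) (.leaf 5)) (.bis 0 3 8 1 173 (.bis 6 7 1 4 347 (.leaf
  5) (.leaf 2)) (.bis 0 6 8 1 125 (.bis 6 7 1 4 347 (.leaf 5) (.leaf 2)) (.bis 0 2 4 1 157 (.bis
  7 8 2 1 354 (.leaf 2) (.leaf 5)) (.bis 0 7 2 1 353 (.leaf 5) (.leaf 11))))))))) (.bis 0 5 8 1
  364 (.bis 2 4 4 1 227 (.bis 4 7 1 2 342 (.bis 1 7 1 4 343 (.leaf 9) (.leaf 9)) (.leaf 9)) (.bis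
  2 5 8 1 365 (.bis 1 7 1 4 343 (.leaf 9) (.leaf 9)) (.bis 1 2 1 8 296 (.bis 2 7 2 1 355 (.leaf
  5) (.leaf 6)) (.bis 1 7 1 4 343 (.leaf 5) (.leaf 5))))) (.bis 0 4 4 1 223 (.bis 2 4 4 1 227
  (.bis 4 7 1 2 342 (.bis 1 7 1 4 343 (.leaf 5) (.leaf 5)) (.leaf 9)) (.bis 1 2 1 8 296 (.bis 2 7
  2 1 355 (.leaf 5) (.bis 2 3 8 1 186 (.leaf 5) (.leaf 6))) (.bis 1 7 1 4 343 (.bis 6 7 1 4 347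
  (.leaf 5) (.leaf 2)) (.leaf 5)))) (.bis 0 1 8 1 293 (.bis 1 2 1 8 296 (.bis 2 7 2 1 355 (.leaf
  5) (.bis 2 3 8 1 186 (.leaf 5) (.leaf 6))) (.bis 1 7 1 4 343 (.leaf 5) (.leaf 5))) (.bis 0 3 8
  1 173 (.bis 2 7 2 1 355 (.leaf 5) (.bis 2 3 8 1 186 (.leaf 5) (.leaf 6))) (.bis 0 6 8 1 125
  (.bis 2 7 2 1 355 (.leaf 5) (.leaf 6)) (.bis 0 8 4 1 157 (.bis 2 7 2 1 355 (.leaf 5) (.leaf 6))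
  (.bis 0 7 2 1 353 (.bis 2 7 2 1 355 (.leaf 5) (.leaf 6)) (.bis 2 4 8 1 230 (.leaf 11) (.leaf
  11))))))))))) (.bis 3 8 2 1 196 (.bis 2 8 2 1 154 (.bis 0 8 2 1 102 (.bis 7 8 1 1 341 (.bis 1 8
  1 4 290 (.bis 5 8 1 4 360 (.bis 6 8 1 4 168 (.leaf 16) (.leaf 16)) (.leaf 24)) (.leaf 24))
  (.bis 4 7 1 2 342 (.leaf 9) (.leaf 9))) (.bis 0 5 8 1 364 (.bis 4 7 1 2 342 (.leaf 9) (.leaf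
  9)) (.bis 0 4 4 1 223 (.bis 4 7 1 2 342 (.leaf 5) (.leaf 9)) (.bis 0 1 8 1 293 (.bis 1 7 1 4
  343 (.leaf 5) (.leaf 5)) (.bis 0 6 8 1 173 (.bis 6 7 1 4 356 (.leaf 5) (.leaf 2)) (.bis 0 3 4 1
  199 (.leaf 5) (.bis 0 2 4 1 157 (.bis 7 8 2 1 354 (.leaf 2) (.leaf 5)) (.bis 0 7 2 1 353 (.leaf
  5) (.leaf 11))))))))) (.bis 0 5 8 1 364 (.bis 2 4 4 1 227 (.bis 4 7 1 2 342 (.bis 1 7 1 4 343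
  (.leaf 9) (.leaf 9)) (.leaf 9)) (.bis 2 5 8 1 365 (.bis 1 7 1 4 343 (.leaf 9) (.leaf 9)) (.bis
  1 2 1 8 296 (.bis 2 7 2 1 355 (.leaf 5) (.leaf 6)) (.bis 1 7 1 4 343 (.leaf 5) (.leaf 5)))))
  (.bis 0 4 4 1 223 (.bis 2 4 4 1 227 (.bis 4 7 1 2 342 (.bis 1 7 1 4 343 (.leaf 5) (.leaf 5))
  (.leaf 9)) (.bis 1 2 1 8 296 (.bis 2 7 2 1 355 (.leaf 5) (.bis 2 6 8 1 186 (.leaf 5) (.leaf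
  6))) (.bis 1 7 1 4 343 (.leaf 5) (.leaf 5)))) (.bis 0 1 8 1 293 (.bis 1 2 1 8 296 (.bis 2 7 2 1
  355 (.leaf 5) (.bis 2 6 8 1 186 (.leaf 5) (.leaf 6))) (.bis 1 7 1 4 343 (.leaf 5) (.leaf 5)))
  (.bis 0 6 8 1 173 (.bis 2 7 2 1 355 (.leaf 5) (.bis 2 6 8 1 186 (.leaf 5) (.leaf 6))) (.bis 0 3
  4 1 199 (.bis 2 7 2 1 355 (.leaf 5) (.bis 2 3 4 1 200 (.leaf 5) (.leaf 6))) (.bis 0 8 4 1 157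
  (.bis 2 7 2 1 355 (.leaf 5) (.leaf 6)) (.bis 0 7 2 1 353 (.bis 2 7 2 1 355 (.leaf 5) (.leaf 6))
  (.bis 2 4 8 1 230 (.leaf 11) (.leaf 11)))))))))) (.bis 0 5 8 1 364 (.bis 2 4 4 1 227 (.bis 3 4
  4 1 244 (.bis 4 7 1 2 342 (.bis 1 7 1 4 343 (.leaf 9) (.leaf 9)) (.leaf 9)) (.bis 3 5 8 1 366
  (.bis 1 7 1 4 343 (.leaf 9) (.leaf 9)) (.bis 3 7 2 1 357 (.bis 1 7 1 4 343 (.leaf 5) (.leaf 5))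
  (.bis 1 3 1 8 300 (.leaf 6) (.leaf 5))))) (.bis 2 5 8 1 365 (.bis 3 5 8 1 366 (.bis 1 7 1 4 343
  (.leaf 9) (.leaf 9)) (.bis 3 7 2 1 357 (.leaf 5) (.bis 1 3 1 8 300 (.leaf 6) (.leaf 5)))) (.bis
  1 2 1 8 296 (.bis 3 7 2 1 357 (.bis 2 7 2 1 355 (.leaf 5) (.leaf 6)) (.leaf 6)) (.bis 3 7 2 1
  357 (.leaf 5) (.bis 1 3 1 8 300 (.leaf 6) (.leaf 5)))))) (.bis 0 4 4 1 223 (.bis 2 4 4 1 227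
  (.bis 3 4 4 1 244 (.bis 4 7 1 2 342 (.bis 1 7 1 4 343 (.leaf 5) (.leaf 5)) (.leaf 9)) (.bis 3 7
  2 1 357 (.leaf 5) (.bis 1 3 1 8 300 (.bis 0 3 1 8 245 (.leaf 6) (.leaf 5)) (.leaf 5)))) (.bis 1
  2 1 8 296 (.bis 3 7 2 1 357 (.bis 2 7 2 1 355 (.leaf 5) (.bis 2 6 8 1 186 (.leaf 5) (.leaf 6)))
  (.leaf 6)) (.bis 3 7 2 1 357 (.leaf 5) (.bis 1 3 1 8 300 (.leaf 6) (.leaf 5))))) (.bis 0 1 8 1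
  293 (.bis 1 2 1 8 296 (.bis 3 7 2 1 357 (.bis 2 7 2 1 355 (.leaf 5) (.leaf 6)) (.leaf 6)) (.bis
  3 7 2 1 357 (.leaf 5) (.bis 1 3 1 8 300 (.leaf 6) (.leaf 5)))) (.bis 0 6 8 1 173 (.bis 3 7 2 1
  357 (.bis 2 7 2 1 355 (.leaf 5) (.bis 2 6 8 1 186 (.leaf 5) (.leaf 6))) (.bis 2 6 8 1 186 (.bis
  3 4 8 1 245 (.leaf 5) (.leaf 6)) (.leaf 6))) (.bis 0 8 4 1 199 (.bis 3 7 2 1 357 (.bis 2 7 2 1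
  355 (.leaf 5) (.leaf 6)) (.bis 2 8 4 1 200 (.bis 3 4 8 1 245 (.leaf 5) (.leaf 6)) (.leaf 6)))
  (.bis 0 3 1 1 213 (.bis 3 7 2 1 357 (.bis 2 7 2 1 355 (.leaf 5) (.leaf 6)) (.leaf 6)) (.bis 0 7
  2 1 353 (.bis 2 7 2 1 355 (.leaf 5) (.leaf 6)) (.bis 2 4 8 1 230 (.leaf 11) (.leaf
  11))))))))))) (.bis 4 8 2 1 260 (.bis 3 8 2 1 196 (.bis 2 8 2 1 154 (.bis 0 8 2 1 102 (.bis 7 8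
  1 1 341 (.bis 1 8 1 4 290 (.bis 5 8 1 4 360 (.bis 4 8 1 2 264 (.leaf 16) (.leaf 24)) (.leaf
  24)) (.leaf 24)) (.bis 6 7 1 2 342 (.leaf 9) (.leaf 9))) (.bis 0 5 8 1 364 (.bis 6 7 1 2 342
  (.leaf 9) (.leaf 9)) (.bis 0 6 4 1 223 (.bis 6 7 1 2 342 (.leaf 5) (.leaf 9)) (.bis 0 1 8 1 293
  (.bis 1 7 1 4 343 (.leaf 5) (.leaf 5)) (.bis 0 4 4 1 265 (.leaf 5) (.bis 0 3 4 1 199 (.leaf 5)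
  (.bis 0 2 4 1 157 (.leaf 5) (.bis 0 7 2 1 353 (.leaf 5) (.leaf 11))))))))) (.bis 0 5 8 1 364
  (.bis 2 6 4 1 227 (.bis 6 7 1 2 342 (.leaf 9) (.leaf 9)) (.bis 2 5 8 1 365 (.bis 1 7 1 4 343
  (.leaf 9) (.leaf 9)) (.bis 1 2 1 8 296 (.bis 2 4 4 1 267 (.bis 1 7 1 8 367 (.leaf 5) (.leaf 5))
  (.bis 2 7 2 1 355 (.leaf 5) (.leaf 6))) (.bis 1 7 1 4 343 (.leaf 5) (.leaf 5))))) (.bis 0 6 4 1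
  223 (.bis 2 6 4 1 227 (.bis 6 7 1 2 342 (.leaf 5) (.leaf 9)) (.bis 1 2 1 8 296 (.bis 2 4 4 1
  267 (.bis 1 7 1 8 367 (.leaf 5) (.leaf 5)) (.bis 2 7 2 1 355 (.leaf 5) (.leaf 6))) (.bis 1 7 1
  4 343 (.leaf 5) (.leaf 5)))) (.bis 0 1 8 1 293 (.bis 1 2 1 8 296 (.bis 2 4 4 1 267 (.leaf 5)
  (.bis 2 7 2 1 355 (.leaf 5) (.leaf 6))) (.bis 1 7 1 4 343 (.leaf 5) (.leaf 5))) (.bis 0 4 4 1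
  265 (.bis 2 4 4 1 267 (.leaf 5) (.bis 2 7 2 1 355 (.leaf 5) (.bis 2 3 4 1 200 (.leaf 5) (.leaf
  6)))) (.bis 0 3 4 1 199 (.bis 2 7 2 1 355 (.leaf 5) (.bis 2 3 4 1 200 (.leaf 5) (.leaf 6)))
  (.bis 0 8 4 1 157 (.bis 2 7 2 1 355 (.leaf 5) (.leaf 6)) (.bis 0 7 2 1 353 (.bis 2 7 2 1 355
  (.leaf 5) (.bis 2 6 8 1 230 (.leaf 5) (.leaf 6))) (.bis 2 6 8 1 230 (.leaf 11) (.leaf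
  11)))))))))) (.bis 0 5 8 1 364 (.bis 2 6 4 1 227 (.bis 3 6 4 1 244 (.bis 6 7 1 2 342 (.bis 1 7
  1 4 343 (.leaf 9) (.leaf 9)) (.leaf 9)) (.bis 3 5 8 1 366 (.bis 1 7 1 4 343 (.leaf 9) (.leaf
  9)) (.bis 3 7 2 1 357 (.leaf 5) (.bis 1 3 1 8 300 (.leaf 6) (.leaf 5))))) (.bis 2 5 8 1 365
  (.bis 3 5 8 1 366 (.bis 1 7 1 4 343 (.leaf 9) (.leaf 9)) (.bis 3 7 2 1 357 (.leaf 5) (.bis 1 3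
  1 8 300 (.leaf 6) (.leaf 5)))) (.bis 1 2 1 8 296 (.bis 2 4 4 1 267 (.bis 3 7 2 1 357 (.leaf 5)
  (.leaf 6)) (.bis 3 7 2 1 357 (.leaf 6) (.leaf 6))) (.bis 3 7 2 1 357 (.leaf 5) (.bis 1 3 1 8
  300 (.leaf 6) (.leaf 5)))))) (.bis 0 6 4 1 223 (.bis 2 6 4 1 227 (.bis 3 6 4 1 244 (.bis 6 7 1
  2 342 (.bis 1 7 1 4 343 (.leaf 5) (.leaf 5)) (.leaf 9)) (.bis 3 7 2 1 357 (.leaf 5) (.bis 1 3 1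
  8 300 (.bis 0 3 1 8 245 (.leaf 6) (.leaf 5)) (.leaf 5)))) (.bis 1 2 1 8 296 (.bis 2 4 4 1 267
  (.bis 3 7 2 1 357 (.leaf 5) (.bis 0 3 1 8 245 (.leaf 6) (.leaf 5))) (.bis 3 7 2 1 357 (.bis 2 7
  2 1 355 (.leaf 5) (.leaf 6)) (.leaf 6))) (.bis 3 7 2 1 357 (.leaf 5) (.bis 1 3 1 8 300 (.leaf
  6) (.leaf 5))))) (.bis 0 1 8 1 293 (.bis 1 2 1 8 296 (.bis 2 4 4 1 267 (.bis 3 7 2 1 357 (.leaf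
  5) (.bis 3 6 8 1 245 (.leaf 5) (.leaf 6))) (.bis 3 7 2 1 357 (.leaf 6) (.leaf 6))) (.bis 3 7 2
  1 357 (.leaf 5) (.bis 1 3 1 8 300 (.leaf 6) (.leaf 5)))) (.bis 0 4 4 1 265 (.bis 2 4 4 1 267
  (.bis 3 7 2 1 357 (.leaf 5) (.bis 3 6 8 1 245 (.leaf 5) (.leaf 6))) (.bis 3 7 2 1 357 (.bis 2 7
  2 1 355 (.leaf 5) (.leaf 6)) (.leaf 6))) (.bis 0 8 4 1 199 (.bis 3 7 2 1 357 (.bis 2 7 2 1 355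
  (.leaf 5) (.bis 2 8 4 1 200 (.leaf 5) (.leaf 6))) (.bis 2 8 4 1 200 (.bis 3 6 8 1 245 (.leaf 5)
  (.leaf 6)) (.leaf 6))) (.bis 0 3 1 1 213 (.bis 3 7 2 1 357 (.bis 2 7 2 1 355 (.leaf 5) (.leaf
  6)) (.leaf 6)) (.bis 0 7 2 1 353 (.bis 2 7 2 1 355 (.leaf 5) (.leaf 6)) (.bis 2 6 8 1 230
  (.leaf 11) (.leaf 11)))))))))) (.bis 0 5 8 1 364 (.bis 2 6 4 1 227 (.bis 3 6 4 1 244 (.bis 4 6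
  4 1 277 (.bis 6 7 1 2 342 (.bis 1 7 1 4 343 (.leaf 9) (.leaf 9)) (.leaf 9)) (.bis 4 5 8 1 368
  (.bis 1 7 1 4 343 (.leaf 9) (.leaf 9)) (.bis 1 4 1 8 304 (.bis 4 7 2 1 358 (.leaf 6) (.leaf
  22)) (.bis 1 7 1 4 343 (.leaf 6) (.leaf 9))))) (.bis 3 5 8 1 366 (.bis 4 5 8 1 368 (.bis 1 7 1
  4 343 (.leaf 9) (.leaf 9)) (.bis 1 4 1 8 304 (.bis 4 7 2 1 358 (.leaf 6) (.leaf 22)) (.bis 1 7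
  1 4 343 (.leaf 6) (.leaf 9)))) (.bis 1 4 1 8 304 (.bis 4 7 2 1 358 (.bis 3 7 2 1 357 (.leaf 5)
  (.leaf 6)) (.leaf 22)) (.bis 3 7 2 1 357 (.leaf 5) (.leaf 13))))) (.bis 2 5 8 1 365 (.bis 3 5 8
  1 366 (.bis 4 5 8 1 368 (.bis 1 7 1 4 343 (.leaf 9) (.leaf 9)) (.bis 1 4 1 8 304 (.bis 4 7 2 1
  358 (.leaf 6) (.leaf 22)) (.bis 1 7 1 4 343 (.leaf 6) (.leaf 9)))) (.bis 1 4 1 8 304 (.bis 4 7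
  2 1 358 (.bis 3 7 2 1 357 (.leaf 5) (.leaf 6)) (.leaf 22)) (.bis 3 7 2 1 357 (.leaf 5) (.leaf
  13)))) (.bis 1 4 1 8 304 (.bis 2 8 4 1 267 (.bis 4 7 2 1 358 (.bis 3 7 2 1 357 (.leaf 5) (.leaf
  6)) (.leaf 22)) (.bis 4 7 2 1 358 (.bis 3 7 2 1 357 (.leaf 6) (.leaf 6)) (.leaf 7))) (.bis 1 2
  1 8 296 (.bis 2 8 4 1 267 (.bis 3 7 2 1 357 (.leaf 5) (.leaf 6)) (.bis 3 7 2 1 357 (.leaf 6)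
  (.leaf 6))) (.bis 3 7 2 1 357 (.leaf 5) (.leaf 13)))))) (.bis 0 6 4 1 223 (.bis 2 6 4 1 227
  (.bis 3 6 4 1 244 (.bis 4 6 4 1 277 (.bis 6 7 1 2 342 (.bis 1 7 1 4 343 (.leaf 5) (.leaf 5))
  (.leaf 9)) (.bis 1 4 1 8 304 (.bis 4 7 2 1 358 (.leaf 5) (.bis 0 4 1 8 278 (.leaf 22) (.leaf
  5))) (.bis 1 7 1 4 343 (.leaf 5) (.leaf 5)))) (.bis 1 4 1 8 304 (.bis 4 7 2 1 358 (.bis 3 7 2 1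
  357 (.leaf 5) (.bis 0 3 1 8 245 (.leaf 6) (.leaf 5))) (.leaf 22)) (.bis 3 7 2 1 357 (.leaf 5)
  (.bis 1 3 1 8 300 (.leaf 6) (.leaf 5))))) (.bis 1 4 1 8 304 (.bis 2 8 4 1 267 (.bis 4 7 2 1 358
  (.bis 3 7 2 1 357 (.leaf 5) (.leaf 6)) (.leaf 22)) (.bis 4 7 2 1 358 (.leaf 6) (.leaf 22)))
  (.bis 1 2 1 8 296 (.bis 2 8 4 1 267 (.bis 3 7 2 1 357 (.leaf 5) (.leaf 6)) (.bis 3 7 2 1 357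
  (.leaf 6) (.leaf 6))) (.bis 3 7 2 1 357 (.leaf 5) (.bis 1 3 1 8 300 (.leaf 6) (.leaf 5))))))
  (.bis 0 4 1 1 280 (.bis 1 4 1 8 304 (.bis 2 8 4 1 267 (.bis 4 7 2 1 358 (.bis 3 7 2 1 357
  (.leaf 5) (.leaf 6)) (.leaf 22)) (.bis 4 7 2 1 358 (.leaf 6) (.leaf 22))) (.bis 1 2 1 8 296
  (.bis 2 8 4 1 267 (.bis 3 7 2 1 357 (.leaf 5) (.leaf 6)) (.bis 3 7 2 1 357 (.leaf 6) (.leaf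
  6))) (.bis 3 7 2 1 357 (.leaf 5) (.leaf 13)))) (.bis 0 1 8 1 293 (.bis 1 2 1 8 296 (.bis 2 8 4
  1 267 (.bis 3 7 2 1 357 (.leaf 5) (.leaf 6)) (.bis 3 7 2 1 357 (.leaf 6) (.leaf 6))) (.bis 3 7
  2 1 357 (.leaf 5) (.bis 1 3 1 8 300 (.leaf 6) (.leaf 5)))) (.bis 0 8 4 1 265 (.bis 2 8 4 1 267
  (.bis 3 7 2 1 357 (.leaf 5) (.bis 3 6 8 1 245 (.leaf 5) (.leaf 6))) (.bis 3 7 2 1 357 (.leaf 6)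
  (.leaf 6))) (.bis 0 3 1 1 213 (.bis 3 7 2 1 357 (.leaf 6) (.leaf 6)) (.bis 0 7 2 1 353 (.bis 2
  7 2 1 355 (.leaf 5) (.leaf 6)) (.leaf 11))))))))))

def lc24 : List Vr := [⟨[24,0,0,0,0,0,0,0,0], 6912, 0⟩, ⟨[0,112,0,0,0,0,85,0,155], 406901, 0⟩,
  ⟨[0,0,17,0,0,0,0,0,0], 6936, 0⟩, ⟨[0,0,0,13,0,0,0,0,0], 6760, 0⟩, ⟨[0,0,0,0,19,0,0,0,0], 7581,
  0⟩, ⟨[0,0,0,0,0,120,85,0,155], 405525, 0⟩, ⟨[0,0,0,0,0,0,85,0,155], 59925, 0⟩, ⟨[0,0,0,0,0,30,0,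
  42,0], 34416, 0⟩, ⟨[0,0,0,0,0,30,0,0,94], 29760, 0⟩]

theorem lk24 : chkTr lowT (leafLow 2 lowB) lt24 lc24 = true := by decide +kernel

def lt25 : Tr ℕ := (.bis 5 8 2 1 369 (.bis 4 8 2 1 260 (.bis 3 8 2 1 196 (.bis 2 8 2 1 154 (.bis
  0 8 2 1 102 (.bis 7 8 1 1 341 (.bis 1 8 1 4 290 (.bis 6 8 1 4 360 (.bis 5 8 1 2 370 (.bis 4 8 1
  2 264 (.leaf 16) (.leaf 24)) (.leaf 24)) (.leaf 24)) (.leaf 24)) (.bis 1 7 1 4 343 (.leaf 9)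
  (.leaf 9))) (.bis 0 6 8 1 364 (.leaf 9) (.bis 0 5 4 1 371 (.leaf 9) (.bis 0 1 8 1 293 (.leaf 5)
  (.bis 0 4 4 1 265 (.leaf 5) (.bis 0 3 4 1 199 (.leaf 5) (.bis 0 2 4 1 157 (.leaf 5) (.leaf
  21)))))))) (.bis 0 6 8 1 364 (.bis 2 6 8 1 365 (.leaf 9) (.bis 2 5 4 1 372 (.leaf 9) (.bis 1 2
  1 8 296 (.bis 2 4 4 1 267 (.leaf 5) (.bis 2 7 2 1 355 (.leaf 5) (.leaf 6))) (.bis 1 7 1 4 343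
  (.leaf 5) (.leaf 5))))) (.bis 0 5 4 1 371 (.bis 2 5 4 1 372 (.leaf 9) (.bis 1 2 1 8 296 (.bis 2
  4 4 1 267 (.leaf 5) (.bis 2 7 2 1 355 (.leaf 5) (.leaf 6))) (.leaf 5))) (.bis 0 1 8 1 293 (.bis
  1 2 1 8 296 (.bis 2 4 4 1 267 (.leaf 5) (.bis 2 7 2 1 355 (.leaf 5) (.leaf 6))) (.leaf 5))
  (.bis 0 4 4 1 265 (.bis 2 4 4 1 267 (.leaf 5) (.bis 2 7 2 1 355 (.leaf 5) (.leaf 6))) (.bis 0 3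
  4 1 199 (.bis 2 7 2 1 355 (.leaf 5) (.bis 2 3 4 1 200 (.leaf 5) (.leaf 6))) (.bis 0 8 4 1 157
  (.bis 2 7 2 1 355 (.leaf 5) (.leaf 6)) (.bis 0 7 2 1 353 (.bis 2 7 2 1 355 (.leaf 5) (.leaf 6))
  (.bis 0 2 1 1 373 (.leaf 6) (.leaf 11)))))))))) (.bis 0 6 8 1 364 (.bis 2 6 8 1 365 (.bis 3 6 8
  1 366 (.leaf 9) (.bis 3 5 4 1 374 (.leaf 9) (.bis 3 7 2 1 357 (.leaf 5) (.leaf 13)))) (.bis 2 5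
  4 1 372 (.bis 3 5 4 1 374 (.leaf 9) (.bis 3 7 2 1 357 (.leaf 5) (.bis 1 3 1 8 300 (.leaf 6)
  (.leaf 5)))) (.bis 1 2 1 8 296 (.bis 2 4 4 1 267 (.bis 3 7 2 1 357 (.leaf 5) (.leaf 6)) (.bis 3
  7 2 1 357 (.leaf 6) (.leaf 6))) (.bis 3 7 2 1 357 (.leaf 5) (.bis 1 3 1 8 300 (.leaf 6) (.leaf
  5)))))) (.bis 0 5 4 1 371 (.bis 2 5 4 1 372 (.bis 3 5 4 1 374 (.leaf 9) (.bis 3 7 2 1 357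
  (.leaf 5) (.bis 1 3 1 8 300 (.leaf 6) (.leaf 5)))) (.bis 1 2 1 8 296 (.bis 2 4 4 1 267 (.bis 3
  7 2 1 357 (.leaf 5) (.leaf 6)) (.bis 3 7 2 1 357 (.leaf 6) (.leaf 6))) (.bis 3 7 2 1 357 (.leaf
  5) (.bis 1 3 1 8 300 (.leaf 6) (.leaf 5))))) (.bis 0 1 8 1 293 (.bis 1 2 1 8 296 (.bis 2 4 4 1
  267 (.bis 3 7 2 1 357 (.leaf 5) (.leaf 6)) (.bis 3 7 2 1 357 (.leaf 6) (.leaf 6))) (.bis 3 7 2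
  1 357 (.leaf 5) (.bis 1 3 1 8 300 (.leaf 6) (.leaf 5)))) (.bis 0 4 4 1 265 (.bis 2 4 4 1 267
  (.bis 3 7 2 1 357 (.leaf 5) (.bis 3 4 4 1 270 (.leaf 5) (.leaf 6))) (.bis 3 7 2 1 357 (.bis 2 7
  2 1 355 (.leaf 5) (.leaf 6)) (.leaf 6))) (.bis 0 8 4 1 199 (.bis 3 7 2 1 357 (.bis 2 7 2 1 355
  (.leaf 5) (.leaf 6)) (.leaf 6)) (.bis 0 3 1 1 213 (.bis 3 7 2 1 357 (.bis 2 7 2 1 355 (.leaf 5)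
  (.leaf 6)) (.leaf 6)) (.bis 0 7 2 1 353 (.bis 2 7 2 1 355 (.leaf 5) (.leaf 6)) (.bis 0 2 1 1
  373 (.leaf 6) (.leaf 11)))))))))) (.bis 0 6 8 1 364 (.bis 2 6 8 1 365 (.bis 3 6 8 1 366 (.bis 4
  6 8 1 368 (.leaf 9) (.bis 1 4 1 8 304 (.bis 4 5 4 1 375 (.leaf 9) (.bis 4 7 2 1 358 (.leaf 6)
  (.leaf 22))) (.leaf 9))) (.bis 3 5 4 1 374 (.bis 1 4 1 8 304 (.bis 4 5 4 1 375 (.leaf 9) (.bis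
  4 7 2 1 358 (.leaf 6) (.leaf 22))) (.leaf 9)) (.bis 1 4 1 8 304 (.bis 4 7 2 1 358 (.leaf 6)
  (.leaf 22)) (.bis 3 7 2 1 357 (.leaf 5) (.leaf 13))))) (.bis 2 5 4 1 372 (.bis 3 5 4 1 374
  (.bis 1 4 1 8 304 (.bis 4 5 4 1 375 (.leaf 9) (.bis 4 7 2 1 358 (.leaf 6) (.leaf 22))) (.leaf
  9)) (.bis 1 4 1 8 304 (.bis 4 7 2 1 358 (.bis 3 7 2 1 357 (.leaf 5) (.leaf 6)) (.leaf 22))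
  (.bis 3 7 2 1 357 (.leaf 5) (.leaf 13)))) (.bis 1 4 1 8 304 (.bis 2 8 4 1 267 (.bis 4 7 2 1 358
  (.bis 3 7 2 1 357 (.leaf 5) (.leaf 6)) (.leaf 22)) (.bis 4 7 2 1 358 (.leaf 6) (.leaf 7)))
  (.bis 1 2 1 8 296 (.bis 2 8 4 1 267 (.bis 3 7 2 1 357 (.leaf 5) (.leaf 6)) (.bis 3 7 2 1 357
  (.leaf 6) (.leaf 6))) (.bis 3 7 2 1 357 (.leaf 5) (.leaf 13)))))) (.bis 0 5 4 1 371 (.bis 2 5 4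
  1 372 (.bis 3 5 4 1 374 (.bis 1 4 1 8 304 (.bis 4 5 4 1 375 (.leaf 9) (.bis 4 7 2 1 358 (.leaf
  6) (.leaf 22))) (.leaf 9)) (.bis 1 4 1 8 304 (.bis 4 7 2 1 358 (.bis 3 7 2 1 357 (.leaf 5)
  (.leaf 6)) (.leaf 22)) (.bis 3 7 2 1 357 (.leaf 5) (.leaf 13)))) (.bis 1 4 1 8 304 (.bis 2 8 4
  1 267 (.bis 4 7 2 1 358 (.bis 3 7 2 1 357 (.leaf 5) (.leaf 6)) (.leaf 22)) (.bis 4 7 2 1 358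
  (.leaf 6) (.leaf 7))) (.bis 1 2 1 8 296 (.bis 2 8 4 1 267 (.bis 3 7 2 1 357 (.leaf 5) (.leaf
  6)) (.bis 3 7 2 1 357 (.leaf 6) (.leaf 6))) (.bis 3 7 2 1 357 (.leaf 5) (.leaf 13))))) (.bis 0
  4 1 1 280 (.bis 1 4 1 8 304 (.bis 2 8 4 1 267 (.bis 4 7 2 1 358 (.bis 3 7 2 1 357 (.leaf 5)
  (.leaf 6)) (.leaf 22)) (.bis 4 7 2 1 358 (.leaf 6) (.leaf 7))) (.bis 1 2 1 8 296 (.bis 2 8 4 1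
  267 (.leaf 6) (.bis 3 7 2 1 357 (.leaf 6) (.leaf 6))) (.bis 3 7 2 1 357 (.leaf 5) (.leaf 13))))
  (.bis 0 1 8 1 293 (.bis 1 2 1 8 296 (.bis 2 8 4 1 267 (.bis 3 7 2 1 357 (.leaf 5) (.leaf 6))
  (.bis 3 7 2 1 357 (.leaf 6) (.leaf 6))) (.bis 3 7 2 1 357 (.leaf 5) (.leaf 13))) (.bis 0 8 4 1
  265 (.bis 2 8 4 1 267 (.bis 3 7 2 1 357 (.leaf 5) (.bis 3 8 4 1 270 (.leaf 5) (.leaf 6))) (.bis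
  3 7 2 1 357 (.leaf 6) (.leaf 6))) (.bis 0 3 1 1 213 (.bis 3 7 2 1 357 (.leaf 6) (.leaf 6))
  (.bis 0 7 2 1 353 (.bis 2 7 2 1 355 (.leaf 5) (.leaf 6)) (.leaf 11))))))))) (.bis 0 5 1 1 376
  (.bis 2 5 1 1 377 (.bis 1 5 1 8 378 (.bis 3 5 1 1 379 (.bis 4 6 8 1 368 (.bis 5 7 2 1 380
  (.leaf 20) (.leaf 65)) (.bis 5 7 2 1 380 (.bis 4 8 4 1 375 (.leaf 20) (.bis 4 7 2 1 358 (.leaf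
  20) (.leaf 33))) (.bis 4 8 4 1 375 (.leaf 65) (.leaf 56)))) (.bis 3 6 8 1 366 (.bis 4 6 8 1 368
  (.bis 5 7 1 1 381 (.leaf 20) (.leaf 20)) (.bis 4 8 4 1 375 (.bis 5 7 1 1 381 (.leaf 20) (.leaf
  20)) (.bis 4 7 2 1 358 (.leaf 20) (.leaf 7)))) (.bis 3 8 4 1 374 (.bis 4 8 4 1 375 (.leaf 20)
  (.bis 4 7 2 1 358 (.leaf 20) (.leaf 7))) (.bis 4 7 2 1 358 (.bis 3 7 2 1 357 (.leaf 20) (.leaf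
  7)) (.leaf 7))))) (.bis 3 6 8 1 366 (.bis 4 6 8 1 368 (.bis 1 2 1 4 382 (.leaf 20) (.bis 0 1 4
  1 383 (.bis 1 7 1 4 343 (.leaf 9) (.leaf 9)) (.leaf 20))) (.bis 1 4 1 8 304 (.bis 4 8 4 1 375
  (.bis 1 7 1 8 384 (.leaf 20) (.leaf 20)) (.bis 4 7 2 1 358 (.leaf 13) (.leaf 7))) (.bis 1 2 1 4
  382 (.leaf 20) (.bis 0 1 4 1 383 (.bis 1 7 1 4 343 (.leaf 9) (.leaf 9)) (.leaf 20))))) (.bis 3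
  8 4 1 374 (.bis 1 4 1 8 304 (.bis 4 8 4 1 375 (.leaf 20) (.bis 4 7 2 1 358 (.leaf 13) (.leaf
  7))) (.bis 1 2 1 4 382 (.leaf 20) (.bis 0 1 4 1 383 (.bis 1 7 1 4 343 (.leaf 9) (.leaf 9))
  (.leaf 20)))) (.bis 1 4 1 8 304 (.bis 4 7 2 1 358 (.leaf 13) (.leaf 7)) (.bis 3 7 2 1 357 (.bis
  1 2 1 4 382 (.leaf 13) (.leaf 13)) (.bis 1 2 1 4 382 (.leaf 7) (.leaf 13))))))) (.bis 2 6 8 1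
  365 (.bis 3 6 8 1 366 (.bis 4 6 8 1 368 (.bis 1 5 1 4 382 (.leaf 20) (.bis 0 1 4 1 383 (.bis 1
  7 1 4 343 (.leaf 9) (.leaf 9)) (.leaf 20))) (.bis 1 4 1 8 304 (.bis 4 8 4 1 375 (.leaf 20)
  (.bis 4 7 2 1 358 (.leaf 6) (.leaf 7))) (.bis 1 5 1 4 382 (.leaf 20) (.leaf 20)))) (.bis 3 8 4
  1 374 (.bis 1 4 1 8 304 (.bis 4 8 4 1 375 (.leaf 20) (.bis 4 7 2 1 358 (.leaf 6) (.leaf 7)))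
  (.bis 1 5 1 4 382 (.leaf 20) (.leaf 20))) (.bis 1 4 1 8 304 (.bis 4 7 2 1 358 (.leaf 6) (.leaf
  7)) (.bis 3 7 2 1 357 (.bis 1 5 1 4 382 (.leaf 6) (.leaf 13)) (.bis 1 5 1 4 382 (.leaf 6)
  (.leaf 13)))))) (.bis 2 8 4 1 372 (.bis 3 8 4 1 374 (.bis 1 4 1 8 304 (.bis 4 8 4 1 375 (.leaf
  20) (.bis 4 7 2 1 358 (.leaf 6) (.leaf 7))) (.bis 1 5 1 4 382 (.leaf 20) (.leaf 20))) (.bis 1 4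
  1 8 304 (.bis 4 7 2 1 358 (.leaf 6) (.leaf 7)) (.bis 3 7 2 1 357 (.bis 1 5 1 4 382 (.leaf 6)
  (.bis 0 1 4 1 383 (.leaf 5) (.leaf 6))) (.bis 1 5 1 4 382 (.leaf 6) (.leaf 13))))) (.bis 1 4 1
  8 304 (.bis 4 7 2 1 358 (.leaf 6) (.leaf 7)) (.bis 1 2 1 8 296 (.bis 3 7 2 1 357 (.leaf 6)
  (.leaf 6)) (.bis 3 7 2 1 357 (.bis 1 5 1 4 382 (.leaf 6) (.leaf 13)) (.bis 1 5 1 4 382 (.leaf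
  6) (.leaf 13)))))))) (.bis 0 6 8 1 364 (.bis 2 6 8 1 365 (.bis 3 6 8 1 366 (.bis 4 6 8 1 368
  (.bis 1 5 1 4 383 (.leaf 20) (.leaf 9)) (.bis 1 4 1 8 304 (.bis 4 8 4 1 375 (.leaf 20) (.leaf
  22)) (.bis 1 5 1 4 383 (.leaf 20) (.leaf 9)))) (.bis 3 8 4 1 374 (.bis 1 4 1 8 304 (.bis 4 8 4
  1 375 (.leaf 20) (.leaf 22)) (.leaf 20)) (.bis 1 4 1 8 304 (.bis 4 7 2 1 358 (.leaf 6) (.leaf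
  7)) (.bis 3 7 2 1 357 (.bis 1 5 1 4 383 (.leaf 6) (.leaf 5)) (.bis 1 5 1 4 383 (.leaf 6) (.leaf
  13)))))) (.bis 2 8 4 1 372 (.bis 3 8 4 1 374 (.bis 1 4 1 8 304 (.bis 4 8 4 1 375 (.leaf 20)
  (.bis 4 7 2 1 358 (.leaf 6) (.leaf 7))) (.bis 1 5 1 4 383 (.leaf 20) (.leaf 9))) (.bis 1 4 1 8
  304 (.leaf 22) (.bis 3 7 2 1 357 (.bis 1 5 1 4 383 (.leaf 6) (.leaf 5)) (.bis 1 5 1 4 383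
  (.leaf 6) (.leaf 13))))) (.bis 1 4 1 8 304 (.bis 4 7 2 1 358 (.leaf 6) (.leaf 7)) (.bis 1 2 1 8
  296 (.bis 3 7 2 1 357 (.leaf 6) (.leaf 6)) (.bis 3 7 2 1 357 (.leaf 13) (.leaf 13)))))) (.bis 0
  8 4 1 371 (.bis 2 8 4 1 372 (.bis 3 8 4 1 374 (.bis 1 4 1 8 304 (.bis 4 8 4 1 375 (.leaf 20)
  (.bis 4 7 2 1 358 (.leaf 6) (.leaf 7))) (.bis 1 5 1 4 383 (.leaf 20) (.leaf 9))) (.bis 1 4 1 8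
  304 (.bis 4 7 2 1 358 (.bis 3 7 2 1 357 (.leaf 6) (.leaf 6)) (.leaf 7)) (.bis 3 7 2 1 357 (.bis
  1 5 1 4 383 (.leaf 6) (.leaf 5)) (.bis 1 5 1 4 383 (.leaf 6) (.leaf 13))))) (.bis 1 4 1 8 304
  (.bis 4 7 2 1 358 (.bis 3 7 2 1 357 (.bis 2 7 2 1 355 (.leaf 6) (.leaf 6)) (.leaf 6)) (.leaf
  7)) (.bis 1 2 1 8 296 (.leaf 6) (.bis 3 7 2 1 357 (.bis 1 5 1 4 383 (.leaf 6) (.leaf 5)) (.leaf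
  13))))) (.bis 0 4 1 1 280 (.bis 1 4 1 8 304 (.bis 4 7 2 1 358 (.leaf 6) (.leaf 7)) (.bis 1 2 1
  8 296 (.bis 3 7 2 1 357 (.leaf 6) (.leaf 6)) (.bis 3 7 2 1 357 (.bis 1 5 1 4 383 (.leaf 6)
  (.leaf 5)) (.bis 1 5 1 4 383 (.leaf 6) (.leaf 13))))) (.bis 0 1 8 1 293 (.bis 1 2 1 8 296 (.bis
  3 7 2 1 357 (.leaf 6) (.leaf 6)) (.bis 3 7 2 1 357 (.bis 1 5 1 4 383 (.leaf 6) (.leaf 5)) (.bis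
  1 5 1 4 383 (.leaf 6) (.leaf 13)))) (.bis 0 3 1 1 213 (.bis 3 7 2 1 357 (.leaf 6) (.leaf 6))
  (.bis 0 7 2 1 353 (.bis 2 7 2 1 355 (.leaf 6) (.leaf 6)) (.leaf 34)))))))))

def lc25 : List Vr := [⟨[24,0,0,0,0,0,0,0,0], 6912, 0⟩, ⟨[0,112,0,0,0,0,85,0,155], 406901, 0⟩,
  ⟨[0,0,17,0,0,0,0,0,0], 6936, 0⟩, ⟨[0,0,0,13,0,0,0,0,0], 6760, 0⟩, ⟨[0,0,0,0,19,0,0,0,0], 7581,
  0⟩, ⟨[0,0,0,0,0,30,0,0,0], 7200, 0⟩, ⟨[0,0,0,0,0,120,85,0,155], 405525, 0⟩, ⟨[0,0,0,0,0,30,0,42,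
  0], 34416, 0⟩, ⟨[0,0,0,0,0,30,0,0,94], 29760, 0⟩]

theorem lk25 : chkTr lowT (leafLow 2 lowB) lt25 lc25 = true := by decide +kernel

def lt26 : Tr ℕ := (.bis 1 7 1 1 306 (.bis 4 7 1 1 247 (.bis 3 7 1 1 187 (.bis 7 8 2 1 19 (.bis 2
  8 2 1 154 (.bis 0 8 2 1 102 (.bis 1 8 1 1 314 (.bis 3 8 1 1 195 (.bis 4 8 1 1 256 (.bis 5 8 1 1
  341 (.bis 6 8 1 4 290 (.bis 7 8 1 2 106 (.leaf 16) (.leaf 4)) (.bis 6 7 1 2 286 (.leaf 4)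
  (.leaf 10))) (.bis 6 7 1 2 286 (.leaf 26) (.leaf 9))) (.bis 6 7 1 2 286 (.leaf 26) (.leaf 5)))
  (.bis 6 7 1 2 286 (.leaf 26) (.bis 5 6 4 1 343 (.leaf 5) (.leaf 5)))) (.bis 6 7 1 2 286 (.bis 1
  7 2 1 308 (.leaf 26) (.leaf 5)) (.bis 5 6 4 1 343 (.leaf 5) (.leaf 5)))) (.bis 0 7 4 1 85 (.bis
  6 7 1 2 286 (.bis 1 7 2 1 308 (.leaf 26) (.leaf 5)) (.bis 5 6 4 1 343 (.bis 3 6 4 1 298 (.leaf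
  5) (.leaf 2)) (.leaf 5))) (.bis 0 6 8 1 293 (.bis 5 6 4 1 343 (.bis 3 6 4 1 298 (.leaf 5)
  (.leaf 2)) (.leaf 5)) (.bis 0 2 4 1 157 (.leaf 5) (.bis 0 5 2 1 353 (.leaf 5) (.leaf 11))))))
  (.bis 2 7 4 1 151 (.bis 0 7 4 1 85 (.bis 6 7 1 2 286 (.bis 1 7 2 1 308 (.leaf 26) (.leaf 5))
  (.bis 5 6 4 1 343 (.bis 3 6 4 1 298 (.leaf 5) (.leaf 2)) (.leaf 5))) (.bis 0 6 8 1 293 (.bis 5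
  6 4 1 343 (.bis 3 6 4 1 298 (.leaf 5) (.leaf 2)) (.leaf 5)) (.bis 0 8 4 1 157 (.leaf 5) (.bis 0
  5 2 1 353 (.leaf 5) (.leaf 11))))) (.bis 0 6 8 1 293 (.bis 2 6 8 1 296 (.bis 5 6 4 1 343 (.leaf
  5) (.leaf 5)) (.bis 2 5 2 1 355 (.leaf 5) (.leaf 11))) (.bis 0 8 4 1 157 (.bis 2 5 2 1 355
  (.leaf 5) (.bis 1 2 1 2 313 (.leaf 6) (.leaf 5))) (.bis 0 5 2 1 353 (.bis 2 5 2 1 355 (.leaf 5)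
  (.bis 1 2 1 2 313 (.leaf 6) (.leaf 5))) (.bis 1 2 1 2 313 (.leaf 11) (.bis 0 1 2 1 310 (.leaf
  5) (.leaf 11)))))))) (.bis 2 7 1 1 130 (.bis 6 7 1 8 289 (.bis 0 7 1 1 68 (.bis 5 7 1 2 344
  (.bis 1 7 1 2 311 (.bis 4 7 1 2 249 (.bis 3 7 1 2 190 (.bis 7 8 4 1 26 (.bis 0 8 2 1 302 (.leaf
  14) (.leaf 14)) (.leaf 32)) (.bis 0 8 2 1 302 (.bis 2 8 2 1 193 (.leaf 14) (.leaf 14)) (.leaf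
  14))) (.bis 4 8 2 1 251 (.bis 0 8 2 1 302 (.leaf 14) (.leaf 14)) (.leaf 14))) (.bis 1 8 2 1 308
  (.bis 4 8 2 1 251 (.bis 0 8 2 1 302 (.leaf 14) (.leaf 14)) (.leaf 14)) (.leaf 14))) (.bis 1 8 2
  1 308 (.bis 5 8 2 1 352 (.bis 4 8 2 1 251 (.leaf 14) (.leaf 14)) (.leaf 14)) (.leaf 14))) (.bis
  0 8 4 1 85 (.bis 1 8 2 1 308 (.bis 5 8 2 1 352 (.bis 4 8 2 1 251 (.leaf 14) (.leaf 14)) (.leaf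
  14)) (.leaf 14)) (.bis 0 5 2 1 353 (.leaf 14) (.bis 0 6 16 1 294 (.leaf 14) (.bis 0 1 2 1 310
  (.leaf 14) (.leaf 21)))))) (.bis 0 8 4 1 85 (.bis 2 6 4 1 295 (.bis 6 8 1 2 286 (.bis 1 8 2 1
  308 (.leaf 14) (.leaf 5)) (.bis 5 6 4 1 343 (.bis 3 6 4 1 298 (.bis 4 6 4 1 301 (.leaf 5)
  (.leaf 2)) (.leaf 2)) (.leaf 5))) (.bis 1 8 2 1 308 (.bis 5 8 2 1 352 (.bis 4 8 2 1 251 (.leaf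
  2) (.leaf 2)) (.leaf 5)) (.leaf 5))) (.bis 0 6 8 1 293 (.bis 2 6 4 1 295 (.bis 5 6 4 1 343
  (.bis 3 6 4 1 298 (.bis 4 6 4 1 301 (.leaf 5) (.leaf 2)) (.leaf 2)) (.leaf 5)) (.leaf 5)) (.bis
  0 5 2 1 353 (.leaf 5) (.bis 0 7 16 1 294 (.leaf 5) (.leaf 11)))))) (.bis 2 8 4 1 151 (.bis 0 8
  4 1 85 (.bis 6 7 1 4 295 (.bis 1 8 2 1 308 (.bis 5 8 2 1 352 (.bis 4 8 2 1 251 (.leaf 2) (.leaf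
  2)) (.leaf 5)) (.leaf 5)) (.bis 6 8 1 2 286 (.bis 1 8 2 1 308 (.bis 5 8 2 1 352 (.leaf 2)
  (.leaf 5)) (.leaf 5)) (.bis 5 6 4 1 343 (.bis 3 6 4 1 298 (.leaf 5) (.leaf 2)) (.leaf 5))))
  (.bis 0 6 8 1 293 (.bis 6 7 1 4 295 (.leaf 5) (.bis 5 6 4 1 343 (.bis 3 6 4 1 298 (.leaf 5)
  (.leaf 2)) (.leaf 5))) (.bis 0 5 2 1 353 (.leaf 5) (.bis 0 1 2 1 310 (.leaf 5) (.leaf 11)))))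
  (.bis 0 6 8 1 293 (.bis 6 7 1 4 295 (.bis 2 5 2 1 355 (.leaf 5) (.bis 1 2 1 2 313 (.leaf 11)
  (.leaf 5))) (.bis 2 6 8 1 296 (.bis 5 6 4 1 343 (.leaf 5) (.leaf 5)) (.bis 2 5 2 1 355 (.leaf
  5) (.leaf 11)))) (.bis 0 5 2 1 353 (.bis 2 5 2 1 355 (.leaf 5) (.bis 1 2 1 2 313 (.leaf 11)
  (.leaf 5))) (.bis 1 2 1 2 313 (.bis 2 4 2 1 255 (.bis 0 4 2 1 254 (.leaf 5) (.leaf 11)) (.bis 2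
  3 2 1 239 (.bis 0 3 2 1 385 (.leaf 5) (.leaf 11)) (.leaf 11))) (.bis 0 1 2 1 310 (.leaf 5)
  (.leaf 11)))))))) (.bis 3 8 2 1 196 (.bis 2 8 2 1 154 (.bis 0 8 2 1 102 (.bis 1 8 1 1 314 (.bis
  7 8 1 1 195 (.bis 4 8 1 1 256 (.bis 5 8 1 1 341 (.bis 6 8 1 4 290 (.bis 3 8 1 2 299 (.bis 2 8 1
  2 315 (.leaf 16) (.leaf 4)) (.leaf 4)) (.leaf 10)) (.leaf 9)) (.leaf 5)) (.bis 5 6 4 1 343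
  (.leaf 5) (.leaf 5))) (.bis 5 6 4 1 343 (.leaf 5) (.leaf 5))) (.bis 0 6 8 1 293 (.bis 5 6 4 1
  343 (.leaf 5) (.leaf 5)) (.bis 0 3 4 1 199 (.leaf 5) (.bis 0 2 4 1 157 (.leaf 5) (.bis 0 5 2 1
  353 (.leaf 5) (.leaf 11)))))) (.bis 0 6 8 1 293 (.bis 2 6 8 1 296 (.leaf 5) (.bis 2 5 2 1 355
  (.leaf 5) (.leaf 18))) (.bis 0 3 4 1 199 (.bis 2 5 2 1 355 (.leaf 5) (.bis 2 3 4 1 200 (.leaf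
  5) (.leaf 11))) (.bis 0 8 4 1 157 (.bis 2 5 2 1 355 (.leaf 5) (.leaf 11)) (.bis 0 5 2 1 353
  (.bis 2 5 2 1 355 (.leaf 5) (.bis 1 2 1 2 313 (.leaf 6) (.leaf 5))) (.bis 1 2 1 2 313 (.leaf
  11) (.leaf 11))))))) (.bis 0 6 8 1 293 (.bis 2 6 8 1 296 (.bis 3 5 2 1 357 (.bis 5 6 4 1 343
  (.leaf 5) (.leaf 5)) (.bis 6 7 1 4 298 (.bis 1 3 1 2 316 (.leaf 6) (.leaf 5)) (.bis 1 3 1 2 316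
  (.leaf 13) (.leaf 5)))) (.bis 3 5 2 1 357 (.bis 2 5 2 1 355 (.leaf 5) (.leaf 18)) (.leaf 18)))
  (.bis 0 8 4 1 199 (.bis 3 5 2 1 357 (.bis 2 5 2 1 355 (.leaf 5) (.bis 2 8 4 1 200 (.leaf 5)
  (.leaf 11))) (.leaf 18)) (.bis 0 3 1 1 213 (.bis 3 5 2 1 357 (.bis 2 5 2 1 355 (.leaf 5) (.leaf
  11)) (.leaf 18)) (.bis 0 5 2 1 353 (.bis 2 5 2 1 355 (.leaf 5) (.leaf 11)) (.bis 1 2 1 2 313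
  (.leaf 11) (.leaf 11)))))))) (.bis 4 8 2 1 260 (.bis 3 8 2 1 196 (.bis 2 8 2 1 154 (.bis 0 8 2
  1 102 (.bis 1 8 1 1 314 (.bis 7 8 1 1 256 (.bis 5 8 1 1 341 (.bis 6 8 1 4 290 (.bis 4 8 1 2 264
  (.bis 3 8 1 2 299 (.leaf 16) (.leaf 4)) (.leaf 10)) (.leaf 10)) (.leaf 9)) (.leaf 5)) (.leaf
  5)) (.bis 0 6 8 1 293 (.leaf 5) (.bis 0 4 4 1 265 (.leaf 5) (.bis 0 3 4 1 199 (.leaf 5) (.bis 0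
  2 4 1 157 (.leaf 5) (.leaf 21)))))) (.bis 0 6 8 1 293 (.bis 2 6 8 1 296 (.leaf 5) (.bis 2 4 4 1
  267 (.leaf 5) (.bis 2 5 2 1 355 (.leaf 5) (.leaf 18)))) (.bis 0 4 4 1 265 (.bis 2 4 4 1 267
  (.leaf 5) (.bis 2 5 2 1 355 (.leaf 5) (.leaf 18))) (.bis 0 3 4 1 199 (.bis 2 5 2 1 355 (.leaf
  5) (.bis 2 3 4 1 200 (.leaf 5) (.leaf 11))) (.bis 0 8 4 1 157 (.bis 2 5 2 1 355 (.leaf 5)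
  (.leaf 11)) (.bis 0 5 2 1 353 (.bis 2 5 2 1 355 (.leaf 5) (.leaf 11)) (.bis 1 2 1 2 313 (.leaf
  11) (.leaf 11)))))))) (.bis 0 6 8 1 293 (.bis 2 6 8 1 296 (.bis 3 5 2 1 357 (.leaf 5) (.bis 1 4
  2 1 318 (.bis 3 6 8 1 300 (.leaf 5) (.leaf 6)) (.bis 1 3 1 2 316 (.leaf 13) (.leaf 5)))) (.bis
  2 4 4 1 267 (.bis 3 5 2 1 357 (.leaf 5) (.leaf 27)) (.leaf 18))) (.bis 0 4 4 1 265 (.bis 2 4 4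
  1 267 (.bis 3 5 2 1 357 (.leaf 5) (.bis 1 4 2 1 318 (.bis 3 4 4 1 270 (.leaf 5) (.leaf 6))
  (.bis 1 3 1 2 316 (.leaf 6) (.leaf 5)))) (.bis 3 5 2 1 357 (.bis 2 5 2 1 355 (.leaf 5) (.leaf
  18)) (.leaf 18))) (.bis 0 8 4 1 199 (.bis 3 5 2 1 357 (.bis 2 5 2 1 355 (.leaf 5) (.leaf 18))
  (.leaf 18)) (.bis 0 3 1 1 213 (.bis 3 5 2 1 357 (.bis 2 5 2 1 355 (.leaf 5) (.leaf 11)) (.leaf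
  18)) (.bis 0 5 2 1 353 (.bis 2 5 2 1 355 (.leaf 5) (.leaf 11)) (.leaf 11))))))) (.bis 0 4 1 1
  280 (.bis 1 4 1 2 319 (.bis 4 6 8 1 304 (.bis 2 6 8 1 296 (.leaf 13) (.bis 2 8 4 1 267 (.leaf
  6) (.bis 3 5 2 1 357 (.leaf 6) (.leaf 6)))) (.bis 2 8 4 1 267 (.bis 4 5 2 1 358 (.leaf 6)
  (.leaf 22)) (.bis 4 5 2 1 358 (.leaf 6) (.leaf 22)))) (.bis 2 6 8 1 296 (.bis 3 5 2 1 357 (.bis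
  1 8 2 1 318 (.bis 5 6 4 1 343 (.leaf 5) (.leaf 5)) (.bis 5 6 4 1 343 (.leaf 5) (.leaf 5)))
  (.bis 1 8 2 1 318 (.bis 3 6 8 1 300 (.leaf 5) (.leaf 6)) (.bis 1 3 1 2 316 (.bis 3 6 8 1 300
  (.leaf 5) (.leaf 6)) (.bis 6 7 1 4 301 (.leaf 5) (.leaf 5))))) (.bis 2 8 4 1 267 (.leaf 27)
  (.leaf 18)))) (.bis 0 6 8 1 293 (.bis 2 6 8 1 296 (.bis 3 5 2 1 357 (.bis 1 8 2 1 318 (.leaf 5)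
  (.bis 5 6 4 1 343 (.leaf 5) (.leaf 5))) (.leaf 27)) (.bis 2 8 4 1 267 (.bis 3 5 2 1 357 (.leaf
  5) (.leaf 27)) (.leaf 18))) (.bis 0 8 4 1 265 (.bis 2 8 4 1 267 (.bis 3 5 2 1 357 (.leaf 5)
  (.leaf 27)) (.leaf 18)) (.bis 0 3 1 1 213 (.leaf 18) (.leaf 34))))))) (.bis 1 8 2 1 320 (.bis 4
  8 2 1 260 (.bis 3 8 2 1 196 (.bis 2 8 2 1 154 (.bis 0 8 2 1 102 (.bis 7 8 1 1 314 (.bis 5 8 1 1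
  341 (.bis 6 8 1 4 290 (.bis 1 8 1 2 321 (.bis 4 8 1 2 264 (.leaf 16) (.leaf 10)) (.leaf 10))
  (.leaf 10)) (.bis 5 6 4 1 343 (.leaf 9) (.leaf 9))) (.bis 4 7 1 2 318 (.leaf 5) (.bis 5 6 4 1
  343 (.leaf 5) (.leaf 5)))) (.bis 0 6 8 1 293 (.bis 4 7 1 2 318 (.leaf 5) (.bis 5 6 4 1 343
  (.leaf 5) (.leaf 5))) (.bis 0 4 4 1 265 (.bis 4 7 1 2 318 (.leaf 5) (.leaf 5)) (.bis 0 1 4 1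
  322 (.leaf 5) (.bis 0 3 4 1 199 (.leaf 5) (.bis 0 2 4 1 157 (.leaf 5) (.leaf 21))))))) (.bis 0
  6 8 1 293 (.bis 2 6 8 1 296 (.bis 4 7 1 2 318 (.bis 5 6 4 1 343 (.leaf 5) (.leaf 5)) (.bis 5 6
  4 1 343 (.leaf 5) (.leaf 5))) (.bis 2 4 4 1 267 (.bis 4 7 1 2 318 (.leaf 5) (.bis 1 5 1 2 386
  (.leaf 5) (.leaf 5))) (.bis 1 2 1 4 324 (.bis 2 5 2 1 355 (.leaf 5) (.bis 2 3 4 1 200 (.bis 3 7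
  1 2 317 (.leaf 5) (.leaf 5)) (.bis 2 7 2 1 313 (.leaf 5) (.leaf 6)))) (.bis 3 7 1 2 317 (.leaf
  5) (.bis 1 5 1 2 386 (.leaf 5) (.leaf 2)))))) (.bis 0 4 4 1 265 (.bis 2 4 4 1 267 (.bis 4 7 1 2
  318 (.leaf 5) (.leaf 5)) (.bis 1 2 1 4 324 (.bis 2 5 2 1 355 (.leaf 5) (.bis 2 3 4 1 200 (.bis
  3 7 1 2 317 (.leaf 5) (.leaf 5)) (.bis 2 7 2 1 313 (.leaf 5) (.leaf 6)))) (.leaf 5))) (.bis 0 1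
  4 1 322 (.bis 1 2 1 4 324 (.bis 2 5 2 1 355 (.leaf 5) (.leaf 18)) (.leaf 5)) (.bis 0 3 4 1 199
  (.bis 2 5 2 1 355 (.leaf 5) (.leaf 18)) (.bis 0 8 4 1 157 (.bis 2 5 2 1 355 (.leaf 5) (.leaf
  11)) (.bis 0 5 2 1 353 (.bis 2 5 2 1 355 (.leaf 5) (.leaf 11)) (.bis 2 7 2 1 313 (.leaf 11)
  (.leaf 11))))))))) (.bis 0 6 8 1 293 (.bis 2 6 8 1 296 (.bis 3 5 2 1 357 (.leaf 5) (.bis 4 7 1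
  2 318 (.bis 3 7 2 1 316 (.leaf 5) (.leaf 13)) (.bis 3 6 8 1 300 (.leaf 5) (.leaf 13)))) (.bis 2
  4 4 1 267 (.bis 3 5 2 1 357 (.leaf 5) (.bis 4 7 1 2 318 (.leaf 18) (.leaf 13))) (.bis 3 5 2 1
  357 (.bis 1 2 1 4 324 (.leaf 18) (.leaf 5)) (.bis 1 2 1 4 324 (.bis 2 8 4 1 200 (.bis 3 7 2 1
  316 (.leaf 5) (.leaf 6)) (.bis 3 7 2 1 316 (.leaf 11) (.leaf 6))) (.bis 3 7 2 1 316 (.leaf 5)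
  (.leaf 13)))))) (.bis 0 4 4 1 265 (.bis 2 4 4 1 267 (.bis 3 5 2 1 357 (.bis 4 7 1 2 318 (.leaf
  5) (.leaf 5)) (.bis 4 7 1 2 318 (.bis 3 7 2 1 316 (.leaf 5) (.leaf 13)) (.bis 3 4 4 1 270
  (.leaf 5) (.leaf 13)))) (.leaf 18)) (.bis 0 1 4 1 322 (.bis 3 5 2 1 357 (.bis 1 2 1 4 324 (.bis
  2 5 2 1 355 (.leaf 5) (.leaf 18)) (.leaf 5)) (.leaf 18)) (.bis 0 8 4 1 199 (.bis 3 5 2 1 357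
  (.bis 2 5 2 1 355 (.leaf 5) (.leaf 18)) (.leaf 18)) (.bis 0 3 1 1 213 (.bis 3 5 2 1 357 (.leaf
  18) (.leaf 18)) (.bis 0 5 2 1 353 (.bis 2 5 2 1 355 (.leaf 5) (.leaf 11)) (.leaf 11))))))))
  (.bis 0 4 1 1 280 (.bis 4 7 2 1 319 (.bis 2 6 8 1 296 (.bis 3 5 2 1 357 (.leaf 5) (.leaf 27))
  (.bis 2 8 4 1 267 (.leaf 27) (.bis 3 5 2 1 357 (.leaf 18) (.bis 1 2 1 4 324 (.bis 3 7 2 1 316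
  (.leaf 11) (.leaf 6)) (.leaf 18))))) (.bis 4 6 8 1 304 (.bis 2 6 8 1 296 (.bis 3 5 2 1 357
  (.leaf 5) (.leaf 13)) (.bis 2 8 4 1 267 (.bis 3 5 2 1 357 (.leaf 5) (.leaf 13)) (.bis 3 5 2 1
  357 (.bis 1 2 1 4 324 (.bis 2 5 2 1 355 (.leaf 5) (.leaf 6)) (.leaf 5)) (.bis 1 2 1 4 324
  (.leaf 6) (.leaf 13))))) (.bis 1 4 1 4 327 (.bis 2 8 4 1 267 (.bis 4 5 2 1 358 (.bis 3 5 2 1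
  357 (.leaf 5) (.leaf 6)) (.leaf 22)) (.bis 4 5 2 1 358 (.bis 3 5 2 1 357 (.leaf 6) (.leaf 6))
  (.leaf 7))) (.bis 2 8 4 1 267 (.bis 3 5 2 1 357 (.leaf 5) (.leaf 13)) (.bis 3 5 2 1 357 (.bis 1
  2 1 4 324 (.bis 2 5 2 1 355 (.leaf 5) (.leaf 6)) (.leaf 5)) (.leaf 18)))))) (.bis 0 6 8 1 293
  (.bis 2 6 8 1 296 (.bis 3 5 2 1 357 (.leaf 5) (.leaf 27)) (.bis 2 8 4 1 267 (.leaf 27) (.bis 3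
  5 2 1 357 (.leaf 18) (.bis 1 2 1 4 324 (.bis 3 7 2 1 316 (.leaf 11) (.leaf 6)) (.leaf 18)))))
  (.bis 0 8 4 1 265 (.bis 2 8 4 1 267 (.bis 3 5 2 1 357 (.leaf 5) (.bis 7 8 2 1 318 (.leaf 13)
  (.leaf 18))) (.bis 3 5 2 1 357 (.leaf 18) (.bis 1 2 1 4 324 (.bis 3 7 2 1 316 (.leaf 11) (.leaf
  6)) (.leaf 18)))) (.bis 0 1 4 1 322 (.bis 3 5 2 1 357 (.bis 1 2 1 4 324 (.leaf 18) (.leaf 5))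
  (.leaf 18)) (.bis 0 3 1 1 213 (.bis 3 5 2 1 357 (.leaf 18) (.leaf 18)) (.bis 0 5 2 1 353 (.leaf
  18) (.leaf 11)))))))) (.bis 0 1 1 1 333 (.bis 1 5 2 1 387 (.bis 4 7 2 1 319 (.bis 2 6 8 1 296
  (.bis 3 5 2 1 357 (.leaf 27) (.leaf 27)) (.bis 3 5 2 1 357 (.bis 2 8 4 1 324 (.leaf 18) (.leaf
  18)) (.leaf 18))) (.bis 4 6 8 1 304 (.bis 2 6 8 1 296 (.bis 3 5 2 1 357 (.bis 5 6 4 1 343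
  (.leaf 13) (.leaf 13)) (.leaf 13)) (.bis 3 5 2 1 357 (.bis 2 8 4 1 324 (.bis 0 5 1 1 388 (.leaf
  5) (.leaf 13)) (.bis 2 5 2 1 355 (.leaf 6) (.leaf 6))) (.leaf 18))) (.bis 4 8 4 1 327 (.bis 3 5
  2 1 357 (.bis 2 8 4 1 324 (.bis 0 5 1 1 388 (.leaf 5) (.leaf 13)) (.bis 2 5 2 1 355 (.leaf 6)
  (.leaf 6))) (.leaf 18)) (.bis 4 5 2 1 358 (.bis 3 5 2 1 357 (.bis 2 5 2 1 355 (.leaf 6) (.leaf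
  6)) (.leaf 6)) (.leaf 22))))) (.bis 4 7 2 1 319 (.bis 1 2 1 1 337 (.leaf 36) (.leaf 49)) (.bis
  4 6 8 1 304 (.bis 1 2 1 1 337 (.leaf 36) (.leaf 49)) (.bis 1 4 1 1 338 (.bis 4 8 4 1 327 (.bis
  2 8 4 1 324 (.leaf 13) (.leaf 22)) (.leaf 22)) (.bis 1 2 1 1 337 (.bis 2 8 4 1 324 (.leaf 13)
  (.leaf 22)) (.bis 1 8 4 1 336 (.leaf 13) (.leaf 31))))))) (.bis 0 4 1 1 280 (.bis 4 7 2 1 319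
  (.bis 2 6 8 1 296 (.bis 3 5 2 1 357 (.leaf 27) (.leaf 27)) (.bis 3 5 2 1 357 (.bis 2 8 4 1 324
  (.leaf 18) (.bis 2 5 2 1 355 (.leaf 18) (.leaf 11))) (.bis 2 8 4 1 324 (.leaf 18) (.leaf 18))))
  (.bis 4 6 8 1 304 (.bis 2 6 8 1 296 (.bis 3 5 2 1 357 (.bis 5 6 4 1 343 (.leaf 13) (.leaf 13))
  (.leaf 13)) (.bis 3 5 2 1 357 (.bis 2 8 4 1 324 (.bis 1 5 1 1 388 (.leaf 5) (.leaf 13)) (.bis 2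
  5 2 1 355 (.leaf 6) (.leaf 6))) (.bis 2 8 4 1 324 (.leaf 13) (.leaf 6)))) (.bis 4 8 4 1 327
  (.bis 3 5 2 1 357 (.bis 2 8 4 1 324 (.bis 1 5 1 1 388 (.leaf 5) (.leaf 13)) (.bis 2 5 2 1 355
  (.leaf 6) (.leaf 6))) (.bis 2 8 4 1 324 (.leaf 13) (.leaf 6))) (.bis 4 5 2 1 358 (.bis 3 5 2 1
  357 (.leaf 6) (.leaf 6)) (.leaf 22))))) (.bis 0 6 8 1 293 (.bis 2 6 8 1 296 (.bis 3 5 2 1 357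
  (.bis 5 6 4 1 343 (.leaf 27) (.leaf 18)) (.leaf 27)) (.bis 3 5 2 1 357 (.bis 2 8 4 1 324 (.leaf
  18) (.bis 2 5 2 1 355 (.leaf 18) (.leaf 11))) (.bis 2 8 4 1 324 (.leaf 18) (.leaf 18)))) (.bis
  0 8 4 1 322 (.bis 3 5 2 1 357 (.leaf 18) (.bis 2 8 4 1 324 (.leaf 18) (.leaf 18))) (.bis 0 3 1
  1 213 (.bis 3 5 2 1 357 (.bis 2 5 2 1 355 (.leaf 18) (.leaf 11)) (.leaf 18)) (.bis 0 5 2 1 353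
  (.bis 2 5 2 1 355 (.leaf 18) (.leaf 11)) (.leaf 11)))))))))

def lc26 : List Vr := [⟨[24,0,0,0,0,0,0,0,0], 6912, 0⟩, ⟨[0,28,0,0,0,0,0,0,0], 7056, 0⟩, ⟨[0,0,17,
  0,0,0,0,0,0], 6936, 0⟩, ⟨[0,0,0,13,0,0,0,0,0], 6760, 0⟩, ⟨[0,0,0,0,19,0,0,0,0], 7581, 0⟩, ⟨[0,0,
  0,0,0,30,0,42,0], 34416, 0⟩, ⟨[0,112,0,0,0,0,85,0,155], 406901, 0⟩, ⟨[0,0,0,0,0,0,0,42,0], 7056,
   0⟩, ⟨[0,0,0,0,0,30,0,0,94], 29760, 0⟩]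

theorem lk26 : chkTr lowT (leafLow 2 lowB) lt26 lc26 = true := by decide +kernel

def lt27 : Tr ℕ := (.bis 1 8 2 1 320 (.bis 5 8 2 1 369 (.bis 4 8 2 1 260 (.bis 3 8 2 1 196 (.bis
  2 8 2 1 154 (.bis 0 8 2 1 102 (.bis 7 8 1 1 341 (.bis 6 8 1 4 290 (.bis 1 8 1 2 321 (.bis 5 8 1
  2 370 (.bis 4 8 1 2 264 (.leaf 16) (.leaf 24)) (.leaf 24)) (.leaf 24)) (.leaf 24)) (.bis 6 7 1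
  4 343 (.leaf 9) (.leaf 9))) (.bis 0 5 4 1 371 (.bis 6 7 1 4 343 (.leaf 9) (.leaf 9)) (.bis 0 6
  8 1 293 (.bis 6 7 1 4 343 (.leaf 5) (.leaf 5)) (.bis 0 4 4 1 265 (.leaf 5) (.bis 0 1 4 1 322
  (.leaf 5) (.bis 0 3 4 1 199 (.leaf 5) (.bis 0 2 4 1 157 (.leaf 5) (.bis 0 7 2 1 353 (.leaf 5)
  (.leaf 11))))))))) (.bis 0 5 4 1 371 (.bis 2 5 4 1 372 (.bis 6 7 1 4 343 (.leaf 9) (.leaf 9))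
  (.bis 2 6 8 1 296 (.bis 6 7 1 4 343 (.leaf 5) (.leaf 5)) (.bis 2 4 4 1 267 (.bis 1 7 1 2 386
  (.leaf 5) (.leaf 5)) (.bis 1 2 1 4 324 (.bis 2 7 2 1 355 (.leaf 5) (.leaf 6)) (.bis 1 7 1 2 386
  (.leaf 5) (.leaf 5)))))) (.bis 0 6 8 1 293 (.bis 2 6 8 1 296 (.bis 6 7 1 4 343 (.leaf 5) (.leaf
  5)) (.bis 2 4 4 1 267 (.bis 1 7 1 2 386 (.leaf 5) (.leaf 5)) (.bis 1 2 1 4 324 (.bis 2 7 2 1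
  355 (.leaf 5) (.leaf 6)) (.bis 1 7 1 2 386 (.leaf 5) (.leaf 2))))) (.bis 0 4 4 1 265 (.bis 2 4
  4 1 267 (.leaf 5) (.bis 1 2 1 4 324 (.bis 2 7 2 1 355 (.leaf 5) (.leaf 6)) (.leaf 5))) (.bis 0
  1 4 1 322 (.bis 1 2 1 4 324 (.bis 2 7 2 1 355 (.leaf 5) (.leaf 6)) (.leaf 5)) (.bis 0 3 4 1 199
  (.bis 2 7 2 1 355 (.leaf 5) (.bis 2 3 4 1 200 (.leaf 5) (.leaf 6))) (.bis 0 8 4 1 157 (.bis 2 7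
  2 1 355 (.leaf 5) (.leaf 6)) (.bis 0 7 2 1 353 (.bis 2 7 2 1 355 (.leaf 5) (.leaf 6)) (.bis 0 2
  1 1 373 (.leaf 6) (.leaf 11)))))))))) (.bis 0 5 4 1 371 (.bis 2 5 4 1 372 (.bis 3 5 4 1 374
  (.leaf 9) (.bis 3 7 2 1 357 (.leaf 5) (.bis 3 6 8 1 300 (.leaf 5) (.leaf 13)))) (.bis 2 6 8 1
  296 (.bis 3 7 2 1 357 (.leaf 5) (.bis 3 6 8 1 300 (.leaf 5) (.leaf 13))) (.bis 2 4 4 1 267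
  (.bis 3 7 2 1 357 (.leaf 5) (.leaf 13)) (.bis 3 7 2 1 357 (.bis 1 2 1 4 324 (.leaf 6) (.leaf
  5)) (.leaf 18))))) (.bis 0 6 8 1 293 (.bis 2 6 8 1 296 (.bis 3 7 2 1 357 (.leaf 5) (.bis 3 6 8
  1 300 (.leaf 5) (.leaf 13))) (.bis 2 4 4 1 267 (.bis 3 7 2 1 357 (.leaf 5) (.leaf 13)) (.bis 3
  7 2 1 357 (.bis 1 2 1 4 324 (.leaf 6) (.leaf 5)) (.leaf 18)))) (.bis 0 4 4 1 265 (.bis 2 4 4 1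
  267 (.bis 3 7 2 1 357 (.leaf 5) (.bis 3 4 4 1 270 (.leaf 5) (.leaf 13))) (.bis 3 7 2 1 357
  (.bis 1 2 1 4 324 (.leaf 6) (.leaf 5)) (.leaf 18))) (.bis 0 1 4 1 322 (.bis 3 7 2 1 357 (.bis 1
  2 1 4 324 (.bis 2 7 2 1 355 (.leaf 5) (.leaf 6)) (.leaf 5)) (.bis 1 2 1 4 324 (.leaf 6) (.bis 1
  3 1 4 326 (.leaf 6) (.leaf 5)))) (.bis 0 8 4 1 199 (.bis 3 7 2 1 357 (.bis 2 7 2 1 355 (.leaf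
  5) (.leaf 6)) (.leaf 6)) (.bis 0 3 1 1 213 (.bis 3 7 2 1 357 (.leaf 6) (.leaf 6)) (.bis 0 7 2 1
  353 (.bis 2 7 2 1 355 (.leaf 5) (.leaf 6)) (.leaf 11))))))))) (.bis 0 5 4 1 371 (.bis 2 5 4 1
  372 (.bis 3 5 4 1 374 (.bis 4 6 8 1 304 (.leaf 9) (.bis 4 5 4 1 375 (.leaf 9) (.bis 1 4 1 4 327
  (.bis 4 7 2 1 358 (.leaf 6) (.leaf 22)) (.leaf 13)))) (.bis 4 6 8 1 304 (.bis 3 7 2 1 357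
  (.leaf 5) (.leaf 13)) (.bis 1 4 1 4 327 (.bis 4 7 2 1 358 (.bis 3 7 2 1 357 (.leaf 5) (.leaf
  6)) (.leaf 22)) (.bis 3 7 2 1 357 (.leaf 5) (.leaf 13))))) (.bis 4 6 8 1 304 (.bis 2 6 8 1 296
  (.bis 3 7 2 1 357 (.leaf 5) (.leaf 13)) (.bis 2 8 4 1 267 (.bis 3 7 2 1 357 (.leaf 5) (.leaf
  13)) (.bis 3 7 2 1 357 (.leaf 18) (.leaf 18)))) (.bis 1 4 1 4 327 (.bis 2 8 4 1 267 (.bis 4 7 2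
  1 358 (.leaf 6) (.leaf 22)) (.bis 4 7 2 1 358 (.bis 3 7 2 1 357 (.bis 2 7 2 1 355 (.leaf 5)
  (.leaf 6)) (.leaf 6)) (.leaf 7))) (.bis 2 8 4 1 267 (.bis 3 7 2 1 357 (.leaf 5) (.leaf 13))
  (.bis 3 7 2 1 357 (.bis 1 2 1 4 324 (.leaf 6) (.leaf 5)) (.leaf 18)))))) (.bis 0 4 1 1 280
  (.bis 4 6 8 1 304 (.bis 2 6 8 1 296 (.bis 3 7 2 1 357 (.leaf 5) (.leaf 13)) (.bis 2 8 4 1 267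
  (.bis 3 7 2 1 357 (.leaf 5) (.leaf 13)) (.bis 3 7 2 1 357 (.leaf 18) (.leaf 18)))) (.bis 1 4 1
  4 327 (.bis 2 8 4 1 267 (.bis 4 7 2 1 358 (.leaf 6) (.leaf 22)) (.bis 4 7 2 1 358 (.bis 3 7 2 1
  357 (.bis 2 7 2 1 355 (.leaf 5) (.leaf 6)) (.leaf 6)) (.leaf 7))) (.bis 2 8 4 1 267 (.bis 3 7 2
  1 357 (.leaf 5) (.leaf 13)) (.bis 3 7 2 1 357 (.bis 1 2 1 4 324 (.leaf 6) (.leaf 5)) (.leaf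
  18))))) (.bis 0 6 8 1 293 (.bis 2 6 8 1 296 (.bis 3 7 2 1 357 (.leaf 5) (.leaf 13)) (.bis 2 8 4
  1 267 (.bis 3 7 2 1 357 (.leaf 5) (.leaf 13)) (.bis 3 7 2 1 357 (.leaf 18) (.leaf 18)))) (.bis
  0 8 4 1 265 (.bis 2 8 4 1 267 (.bis 3 7 2 1 357 (.leaf 5) (.leaf 13)) (.bis 3 7 2 1 357 (.leaf
  18) (.bis 1 2 1 4 324 (.leaf 6) (.leaf 13)))) (.bis 0 1 4 1 322 (.bis 3 7 2 1 357 (.bis 1 2 1 4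
  324 (.leaf 6) (.leaf 5)) (.leaf 18)) (.bis 0 3 1 1 213 (.bis 3 7 2 1 357 (.leaf 6) (.leaf 6))
  (.bis 0 7 2 1 353 (.leaf 6) (.leaf 11))))))))) (.bis 0 5 1 1 376 (.bis 2 5 1 1 377 (.bis 5 6 8
  1 378 (.bis 3 8 4 1 374 (.bis 4 6 8 1 304 (.leaf 20) (.bis 4 8 4 1 375 (.leaf 20) (.bis 1 4 1 4
  327 (.bis 4 7 2 1 358 (.leaf 13) (.leaf 7)) (.bis 1 2 1 2 389 (.bis 6 7 1 8 384 (.leaf 13)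
  (.leaf 3)) (.bis 0 1 2 1 390 (.bis 1 7 1 2 386 (.leaf 13) (.leaf 13)) (.leaf 13)))))) (.bis 4 6
  8 1 304 (.bis 3 7 2 1 357 (.leaf 13) (.leaf 13)) (.bis 1 4 1 4 327 (.bis 4 7 2 1 358 (.leaf 13)
  (.leaf 7)) (.bis 3 7 2 1 357 (.leaf 13) (.leaf 13))))) (.bis 1 5 1 4 391 (.bis 3 5 1 1 379
  (.bis 5 7 2 1 380 (.bis 4 8 4 1 375 (.leaf 20) (.bis 4 7 2 1 358 (.leaf 20) (.leaf 33))) (.bis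
  4 8 4 1 375 (.leaf 65) (.leaf 56))) (.bis 3 8 4 1 374 (.bis 4 8 4 1 375 (.bis 5 7 1 1 381
  (.leaf 20) (.leaf 20)) (.bis 4 7 2 1 358 (.leaf 20) (.leaf 7))) (.bis 4 7 2 1 358 (.bis 3 7 2 1
  357 (.leaf 20) (.leaf 7)) (.leaf 7)))) (.bis 3 8 4 1 374 (.bis 4 8 4 1 375 (.leaf 20) (.bis 1 4
  1 4 327 (.bis 4 7 2 1 358 (.leaf 13) (.leaf 7)) (.leaf 13))) (.bis 1 4 1 4 327 (.bis 4 7 2 1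
  358 (.bis 3 7 2 1 357 (.leaf 13) (.leaf 7)) (.leaf 7)) (.bis 3 7 2 1 357 (.leaf 13) (.leaf
  13)))))) (.bis 2 8 4 1 372 (.bis 3 8 4 1 374 (.bis 4 6 8 1 304 (.leaf 20) (.bis 4 8 4 1 375
  (.leaf 20) (.bis 1 4 1 4 327 (.bis 4 7 2 1 358 (.leaf 6) (.leaf 7)) (.leaf 13)))) (.bis 4 6 8 1
  304 (.bis 3 7 2 1 357 (.bis 5 6 4 1 382 (.leaf 13) (.leaf 13)) (.leaf 13)) (.bis 1 4 1 4 327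
  (.bis 4 7 2 1 358 (.leaf 6) (.leaf 7)) (.bis 3 7 2 1 357 (.leaf 13) (.leaf 13))))) (.bis 4 6 8
  1 304 (.bis 2 6 8 1 296 (.bis 3 7 2 1 357 (.leaf 13) (.leaf 13)) (.bis 3 7 2 1 357 (.leaf 55)
  (.bis 1 2 1 4 324 (.leaf 6) (.leaf 13)))) (.bis 1 4 1 4 327 (.bis 4 7 2 1 358 (.bis 3 7 2 1 357
  (.bis 2 7 2 1 355 (.leaf 6) (.leaf 6)) (.leaf 6)) (.leaf 7)) (.bis 3 7 2 1 357 (.bis 1 2 1 4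
  324 (.leaf 6) (.leaf 13)) (.bis 1 2 1 4 324 (.leaf 6) (.leaf 13))))))) (.bis 0 8 4 1 371 (.bis
  2 8 4 1 372 (.bis 3 8 4 1 374 (.bis 4 6 8 1 304 (.leaf 20) (.bis 4 8 4 1 375 (.leaf 20) (.bis 1
  4 1 4 327 (.leaf 22) (.leaf 13)))) (.bis 4 6 8 1 304 (.bis 3 7 2 1 357 (.leaf 13) (.leaf 13))
  (.bis 1 4 1 4 327 (.bis 4 7 2 1 358 (.leaf 6) (.leaf 7)) (.leaf 13)))) (.bis 4 6 8 1 304 (.bis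
  2 6 8 1 296 (.bis 3 7 2 1 357 (.leaf 13) (.leaf 13)) (.bis 3 7 2 1 357 (.bis 1 2 1 4 324 (.leaf
  6) (.leaf 13)) (.leaf 18))) (.bis 1 4 1 4 327 (.bis 4 7 2 1 358 (.bis 3 7 2 1 357 (.bis 2 7 2 1
  355 (.leaf 6) (.leaf 6)) (.leaf 6)) (.leaf 7)) (.bis 3 7 2 1 357 (.bis 1 2 1 4 324 (.leaf 6)
  (.leaf 13)) (.leaf 18))))) (.bis 0 4 1 1 280 (.bis 4 6 8 1 304 (.bis 2 6 8 1 296 (.bis 3 7 2 1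
  357 (.leaf 13) (.leaf 13)) (.bis 3 7 2 1 357 (.leaf 18) (.bis 1 2 1 4 324 (.leaf 6) (.leaf
  13)))) (.bis 1 4 1 4 327 (.bis 4 7 2 1 358 (.leaf 6) (.leaf 7)) (.bis 3 7 2 1 357 (.bis 1 2 1 4
  324 (.leaf 6) (.leaf 13)) (.bis 1 2 1 4 324 (.leaf 6) (.leaf 13))))) (.bis 0 6 8 1 293 (.bis 2
  6 8 1 296 (.bis 3 7 2 1 357 (.leaf 13) (.leaf 13)) (.bis 3 7 2 1 357 (.bis 1 2 1 4 324 (.leaf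
  6) (.leaf 13)) (.bis 1 2 1 4 324 (.leaf 6) (.leaf 13)))) (.bis 0 1 4 1 322 (.bis 3 7 2 1 357
  (.bis 1 2 1 4 324 (.leaf 6) (.leaf 13)) (.bis 1 2 1 4 324 (.leaf 6) (.leaf 13))) (.bis 0 3 1 1
  213 (.bis 3 7 2 1 357 (.leaf 6) (.leaf 6)) (.bis 0 7 2 1 353 (.leaf 6) (.leaf 34))))))))) (.bis
  0 5 1 1 376 (.bis 1 5 1 1 392 (.bis 2 5 1 1 377 (.bis 5 6 8 1 378 (.bis 4 6 8 1 304 (.bis 3 7 2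
  1 357 (.bis 2 6 4 1 382 (.bis 0 6 4 1 383 (.bis 6 7 1 4 343 (.leaf 20) (.leaf 20)) (.leaf 20))
  (.leaf 20)) (.bis 2 6 4 1 382 (.leaf 27) (.bis 2 8 2 1 389 (.leaf 27) (.leaf 7)))) (.bis 4 8 4
  1 327 (.bis 3 7 2 1 357 (.leaf 20) (.leaf 27)) (.bis 4 7 2 1 358 (.bis 3 7 2 1 357 (.leaf 20)
  (.leaf 7)) (.leaf 7)))) (.bis 5 8 4 1 391 (.bis 4 8 4 1 327 (.bis 3 7 2 1 357 (.leaf 20) (.bis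
  2 8 2 1 389 (.leaf 27) (.leaf 7))) (.bis 4 7 2 1 358 (.bis 3 7 2 1 357 (.leaf 20) (.leaf 7))
  (.leaf 7))) (.bis 3 5 1 1 379 (.bis 5 7 2 1 380 (.bis 4 7 2 1 358 (.leaf 20) (.leaf 33)) (.bis
  4 5 1 1 393 (.leaf 15) (.leaf 33))) (.bis 4 7 2 1 358 (.bis 3 7 2 1 357 (.leaf 20) (.leaf 7))
  (.leaf 7))))) (.bis 4 6 8 1 304 (.bis 2 6 8 1 296 (.bis 3 7 2 1 357 (.leaf 20) (.leaf 27))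
  (.bis 3 7 2 1 357 (.bis 2 8 4 1 324 (.leaf 20) (.bis 2 7 2 1 355 (.leaf 20) (.leaf 7))) (.bis 2
  8 4 1 324 (.leaf 27) (.leaf 7)))) (.bis 4 8 4 1 327 (.bis 3 7 2 1 357 (.bis 2 8 4 1 324 (.leaf
  20) (.bis 2 7 2 1 355 (.leaf 20) (.leaf 7))) (.bis 2 8 4 1 324 (.leaf 27) (.leaf 7))) (.bis 4 7
  2 1 358 (.bis 3 7 2 1 357 (.bis 2 7 2 1 355 (.leaf 20) (.bis 1 2 1 2 394 (.leaf 6) (.leaf 7)))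
  (.bis 1 2 1 2 394 (.leaf 6) (.leaf 7))) (.bis 1 2 1 2 394 (.leaf 7) (.leaf 7)))))) (.bis 1 7 2
  1 387 (.bis 4 6 8 1 304 (.bis 2 6 8 1 296 (.bis 3 7 2 1 357 (.leaf 20) (.leaf 27)) (.bis 3 7 2
  1 357 (.bis 2 8 4 1 324 (.leaf 20) (.leaf 55)) (.leaf 55))) (.bis 4 8 4 1 327 (.bis 3 7 2 1 357
  (.bis 2 8 4 1 324 (.leaf 20) (.bis 2 7 2 1 355 (.leaf 20) (.leaf 7))) (.bis 2 8 4 1 324 (.leaf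
  27) (.leaf 7))) (.bis 4 7 2 1 358 (.bis 3 7 2 1 357 (.bis 2 7 2 1 355 (.leaf 20) (.bis 2 5 2 1
  394 (.leaf 7) (.leaf 6))) (.bis 2 5 2 1 394 (.leaf 7) (.leaf 6))) (.bis 2 5 2 1 394 (.leaf 7)
  (.leaf 7))))) (.bis 0 1 1 2 395 (.bis 4 6 8 1 304 (.bis 1 2 1 1 337 (.bis 2 6 8 1 296 (.leaf
  27) (.leaf 55)) (.leaf 75)) (.bis 1 4 1 1 338 (.bis 4 8 4 1 327 (.bis 2 8 4 1 324 (.leaf 27)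
  (.bis 2 5 2 1 394 (.leaf 7) (.leaf 7))) (.bis 2 5 2 1 394 (.leaf 7) (.leaf 7))) (.bis 1 2 1 1
  337 (.bis 2 8 4 1 324 (.leaf 27) (.leaf 7)) (.bis 1 8 4 1 336 (.leaf 27) (.leaf 31))))) (.bis 4
  6 8 1 304 (.bis 2 6 8 1 296 (.leaf 27) (.leaf 55)) (.bis 4 8 4 1 327 (.bis 2 8 4 1 324 (.leaf
  27) (.leaf 7)) (.bis 2 5 2 1 394 (.leaf 7) (.leaf 7))))))) (.bis 0 1 1 1 333 (.bis 1 7 2 1 387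
  (.bis 4 6 8 1 304 (.bis 2 6 8 1 296 (.bis 3 7 2 1 357 (.leaf 13) (.leaf 13)) (.bis 3 7 2 1 357
  (.leaf 18) (.leaf 18))) (.bis 4 8 4 1 327 (.bis 3 7 2 1 357 (.bis 2 8 4 1 324 (.leaf 13) (.leaf
  6)) (.leaf 18)) (.bis 4 7 2 1 358 (.bis 3 7 2 1 357 (.bis 2 7 2 1 355 (.leaf 6) (.leaf 6))
  (.leaf 6)) (.leaf 22)))) (.bis 1 5 2 1 395 (.bis 4 6 8 1 304 (.bis 2 6 8 1 296 (.leaf 13)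
  (.leaf 18)) (.bis 4 8 4 1 327 (.leaf 18) (.leaf 22))) (.bis 4 6 8 1 304 (.bis 1 2 1 1 337
  (.leaf 36) (.leaf 49)) (.bis 1 4 1 1 338 (.bis 4 8 4 1 327 (.bis 2 8 4 1 324 (.leaf 13) (.leaf
  22)) (.bis 0 4 1 2 339 (.bis 2 4 1 1 396 (.leaf 7) (.leaf 7)) (.leaf 22))) (.bis 1 2 1 1 337
  (.bis 2 8 4 1 324 (.leaf 13) (.leaf 22)) (.bis 1 8 4 1 336 (.leaf 13) (.leaf 31))))))) (.bis 0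
  4 1 1 280 (.bis 4 6 8 1 304 (.bis 2 6 8 1 296 (.bis 3 7 2 1 357 (.bis 5 6 4 1 383 (.bis 6 7 1 4
  343 (.leaf 13) (.leaf 13)) (.leaf 13)) (.leaf 13)) (.bis 3 7 2 1 357 (.bis 2 8 4 1 324 (.leaf
  13) (.bis 2 7 2 1 355 (.leaf 6) (.leaf 6))) (.bis 2 8 4 1 324 (.leaf 13) (.leaf 6)))) (.bis 4 8
  4 1 327 (.bis 3 7 2 1 357 (.bis 2 8 4 1 324 (.leaf 13) (.bis 2 7 2 1 355 (.leaf 6) (.leaf 6)))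
  (.bis 2 8 4 1 324 (.leaf 13) (.leaf 6))) (.bis 4 7 2 1 358 (.bis 3 7 2 1 357 (.leaf 6) (.leaf
  6)) (.leaf 22)))) (.bis 0 6 8 1 293 (.bis 2 6 8 1 296 (.bis 3 7 2 1 357 (.leaf 13) (.leaf 13))
  (.bis 3 7 2 1 357 (.bis 2 8 4 1 324 (.leaf 13) (.bis 2 7 2 1 355 (.leaf 6) (.leaf 6))) (.bis 2
  8 4 1 324 (.leaf 13) (.leaf 6)))) (.bis 0 8 4 1 322 (.bis 3 7 2 1 357 (.bis 2 8 4 1 324 (.leaf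
  13) (.bis 2 7 2 1 355 (.leaf 6) (.leaf 6))) (.bis 2 8 4 1 324 (.leaf 13) (.leaf 6))) (.bis 0 3
  1 1 213 (.bis 3 7 2 1 357 (.bis 2 7 2 1 355 (.leaf 6) (.leaf 6)) (.leaf 6)) (.bis 0 7 2 1 353
  (.bis 2 7 2 1 355 (.leaf 6) (.leaf 6)) (.leaf 34)))))))))

def lc27 : List Vr := [⟨[24,0,0,0,0,0,0,0,0], 6912, 0⟩, ⟨[0,28,0,0,0,0,0,0,0], 7056, 0⟩, ⟨[0,0,17,
  0,0,0,0,0,0], 6936, 0⟩, ⟨[0,0,0,13,0,0,0,0,0], 6760, 0⟩, ⟨[0,0,0,0,19,0,0,0,0], 7581, 0⟩, ⟨[0,0,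
  0,0,0,30,0,0,0], 7200, 0⟩, ⟨[0,112,0,0,0,0,85,0,155], 406901, 0⟩, ⟨[0,0,0,0,0,30,0,42,0], 34416,
   0⟩, ⟨[0,0,0,0,0,30,0,0,94], 29760, 0⟩]

theorem lk27 : chkTr lowT (leafLow 2 lowB) lt27 lc27 = true := by decide +kernel

def lt28 : Tr ℕ := (.bis 3 8 4 1 159 (.bis 2 8 4 1 110 (.bis 0 8 4 1 50 (.bis 7 8 4 1 18 (.bis 5
  8 1 1 348 (.bis 6 8 1 1 398 (.bis 1 8 1 2 291 (.bis 3 8 1 2 171 (.bis 2 8 1 2 122 (.bis 0 8 1 2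
  66 (.bis 7 8 1 2 48 (.leaf 37) (.bis 4 7 1 1 221 (.bis 1 7 1 2 292 (.bis 6 7 1 1 399 (.bis 3 7
  1 2 400 (.leaf 23) (.leaf 23)) (.leaf 37)) (.leaf 37)) (.leaf 37))) (.bis 4 7 1 1 221 (.bis 1 7
  1 2 292 (.bis 6 7 1 1 399 (.bis 3 7 1 2 400 (.leaf 23) (.leaf 23)) (.leaf 37)) (.leaf 24))
  (.leaf 24))) (.bis 4 7 1 1 221 (.bis 1 7 1 2 292 (.bis 2 7 1 1 118 (.bis 6 7 1 1 399 (.leaf 23)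
  (.leaf 37)) (.leaf 24)) (.leaf 24)) (.leaf 24))) (.bis 3 7 1 1 162 (.bis 4 7 1 1 221 (.bis 1 7
  1 2 292 (.bis 2 7 1 1 118 (.leaf 64) (.leaf 24)) (.leaf 24)) (.leaf 24)) (.leaf 24))) (.bis 1 7
  1 1 285 (.bis 3 7 1 1 162 (.bis 4 7 1 1 221 (.bis 7 8 2 1 292 (.leaf 24) (.leaf 64)) (.leaf
  24)) (.leaf 24)) (.leaf 24))) (.bis 6 7 4 1 401 (.bis 1 7 1 1 285 (.bis 3 7 1 1 162 (.bis 4 7 1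
  1 221 (.bis 2 7 1 1 118 (.leaf 78) (.leaf 43)) (.leaf 43)) (.leaf 43)) (.leaf 59)) (.bis 1 6 1
  4 402 (.bis 0 6 1 4 403 (.leaf 43) (.leaf 43)) (.leaf 59)))) (.bis 6 7 4 1 401 (.bis 1 7 1 1
  285 (.bis 4 5 1 2 342 (.bis 3 7 1 1 162 (.bis 5 7 4 1 345 (.leaf 26) (.leaf 9)) (.bis 5 8 2 1
  351 (.leaf 9) (.leaf 9))) (.bis 3 7 1 1 162 (.bis 4 7 1 1 221 (.leaf 26) (.leaf 9)) (.leaf 9)))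
  (.bis 4 5 1 2 342 (.bis 1 5 1 4 343 (.bis 5 8 2 1 351 (.leaf 9) (.leaf 9)) (.leaf 9)) (.leaf
  9))) (.bis 1 6 1 4 402 (.bis 0 6 1 4 403 (.bis 2 6 1 4 404 (.bis 4 6 1 2 405 (.bis 3 6 1 4 406
  (.bis 6 8 2 1 407 (.bis 5 8 2 1 351 (.leaf 9) (.bis 4 5 1 4 408 (.bis 5 6 4 1 409 (.leaf 9)
  (.bis 1 5 1 8 410 (.leaf 9) (.leaf 9))) (.leaf 9))) (.bis 5 6 1 1 411 (.leaf 17) (.bis 4 5 1 4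
  408 (.bis 5 8 4 1 409 (.leaf 9) (.bis 1 5 1 8 410 (.leaf 9) (.leaf 9))) (.leaf 9)))) (.bis 5 8
  2 1 351 (.leaf 9) (.bis 3 5 1 4 356 (.bis 4 5 1 4 408 (.leaf 9) (.leaf 9)) (.leaf 9)))) (.bis 4
  5 1 2 342 (.bis 5 8 2 1 351 (.leaf 9) (.bis 3 5 1 4 356 (.bis 5 6 4 1 408 (.leaf 9) (.leaf 9))
  (.leaf 9))) (.leaf 9))) (.bis 4 5 1 2 342 (.bis 5 8 2 1 351 (.leaf 9) (.bis 2 5 1 4 347 (.leaf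
  9) (.leaf 9))) (.leaf 9))) (.bis 4 5 1 2 342 (.bis 5 8 2 1 351 (.leaf 9) (.bis 0 5 1 4 346
  (.leaf 9) (.leaf 9))) (.leaf 9))) (.bis 4 5 1 2 342 (.bis 1 5 1 4 343 (.bis 5 8 2 1 351 (.leaf
  9) (.leaf 9)) (.leaf 9)) (.leaf 9))))) (.bis 6 7 1 2 412 (.bis 4 7 1 4 215 (.bis 1 7 1 8 289
  (.bis 3 7 1 8 167 (.bis 2 7 1 8 116 (.bis 0 7 1 8 54 (.bis 5 7 1 2 344 (.bis 4 7 1 8 217 (.bis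
  6 7 1 4 413 (.bis 7 8 8 1 27 (.leaf 14) (.leaf 32)) (.leaf 14)) (.leaf 14)) (.leaf 14)) (.bis 5
  8 4 1 345 (.bis 0 6 1 2 414 (.leaf 14) (.leaf 14)) (.bis 0 5 1 4 346 (.leaf 14) (.leaf 14))))
  (.bis 5 8 4 1 345 (.bis 2 6 1 2 415 (.bis 0 6 1 2 414 (.leaf 14) (.leaf 14)) (.leaf 26)) (.bis
  2 6 1 2 415 (.bis 0 5 1 4 346 (.leaf 14) (.leaf 14)) (.leaf 19)))) (.leaf 26)) (.bis 1 8 1 1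
  285 (.bis 3 6 1 2 416 (.leaf 26) (.bis 3 8 1 1 162 (.leaf 26) (.leaf 5))) (.bis 1 6 1 2 417
  (.leaf 19) (.bis 1 5 1 4 343 (.leaf 5) (.leaf 5))))) (.bis 1 8 1 1 285 (.bis 4 6 1 1 418 (.bis
  3 6 1 2 416 (.bis 5 8 4 1 345 (.leaf 26) (.leaf 19)) (.bis 3 8 1 1 162 (.bis 5 8 4 1 345 (.leaf
  26) (.leaf 5)) (.bis 0 5 1 4 346 (.leaf 5) (.leaf 2)))) (.bis 4 5 1 2 342 (.bis 3 8 1 1 162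
  (.bis 5 8 4 1 345 (.leaf 26) (.leaf 5)) (.bis 0 5 1 4 346 (.leaf 5) (.leaf 2))) (.bis 3 8 1 1
  162 (.bis 4 8 1 1 221 (.leaf 26) (.leaf 9)) (.leaf 9)))) (.bis 1 6 1 2 417 (.bis 4 6 1 1 418
  (.leaf 19) (.bis 4 5 1 2 342 (.leaf 5) (.leaf 9))) (.bis 4 5 1 2 342 (.bis 1 5 1 4 343 (.leaf
  5) (.leaf 5)) (.leaf 9))))) (.bis 6 8 4 1 401 (.bis 1 8 1 1 285 (.bis 4 7 1 1 418 (.bis 3 7 1 2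
  416 (.bis 5 8 4 1 345 (.bis 2 7 1 2 415 (.leaf 26) (.bis 2 8 1 1 118 (.leaf 26) (.leaf 9)))
  (.leaf 26)) (.bis 3 8 1 1 162 (.bis 5 8 4 1 345 (.leaf 26) (.leaf 9)) (.bis 0 5 1 4 346 (.leaf
  9) (.leaf 9)))) (.bis 4 5 1 2 342 (.bis 3 8 1 1 162 (.bis 5 8 4 1 345 (.bis 2 8 1 1 118 (.leaf
  26) (.leaf 9)) (.leaf 9)) (.bis 0 5 1 4 346 (.leaf 9) (.leaf 9))) (.bis 3 8 1 1 162 (.bis 4 8 1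
  1 221 (.bis 2 8 1 1 118 (.leaf 26) (.leaf 9)) (.leaf 9)) (.leaf 9)))) (.bis 1 7 1 2 417 (.bis 4
  7 1 1 418 (.leaf 26) (.bis 4 5 1 2 342 (.leaf 9) (.leaf 9))) (.bis 4 5 1 2 342 (.bis 1 5 1 4
  343 (.leaf 9) (.leaf 9)) (.leaf 9)))) (.bis 1 6 1 4 402 (.bis 0 6 1 4 403 (.bis 2 6 1 4 404
  (.bis 4 6 1 2 405 (.bis 3 6 1 4 406 (.bis 5 6 1 1 411 (.bis 6 7 2 1 419 (.leaf 43) (.leaf 17))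
  (.bis 4 5 1 4 408 (.bis 1 5 1 8 410 (.leaf 29) (.leaf 29)) (.leaf 29))) (.bis 3 7 1 2 416 (.bis
  4 5 1 4 408 (.bis 1 5 1 8 410 (.leaf 29) (.leaf 29)) (.leaf 29)) (.bis 3 5 1 4 356 (.bis 4 5 1
  4 408 (.bis 1 5 1 8 410 (.leaf 9) (.leaf 9)) (.leaf 9)) (.leaf 9)))) (.bis 4 7 1 1 418 (.bis 3
  7 1 2 416 (.bis 5 6 4 1 408 (.leaf 29) (.leaf 29)) (.bis 3 5 1 4 356 (.bis 5 6 4 1 408 (.leaf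
  9) (.leaf 9)) (.leaf 9))) (.bis 4 5 1 2 342 (.bis 3 5 1 4 356 (.bis 5 6 4 1 408 (.leaf 9)
  (.leaf 9)) (.leaf 9)) (.leaf 9)))) (.bis 4 7 1 1 418 (.bis 3 7 1 2 416 (.bis 2 7 1 2 415 (.bis
  1 5 1 8 410 (.leaf 29) (.leaf 29)) (.bis 2 5 1 4 347 (.leaf 9) (.leaf 9))) (.bis 2 5 1 4 347
  (.bis 3 5 1 4 356 (.leaf 9) (.leaf 9)) (.leaf 9))) (.bis 4 5 1 2 342 (.bis 2 5 1 4 347 (.bis 3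
  5 1 4 356 (.leaf 9) (.leaf 9)) (.leaf 9)) (.leaf 9)))) (.bis 4 7 1 1 418 (.bis 3 7 1 2 416
  (.bis 2 7 1 2 415 (.leaf 29) (.bis 0 5 1 4 346 (.leaf 9) (.leaf 9))) (.bis 0 5 1 4 346 (.leaf
  9) (.leaf 9))) (.bis 4 5 1 2 342 (.bis 0 5 1 4 346 (.leaf 9) (.leaf 9)) (.leaf 9)))) (.bis 1 7
  1 2 417 (.bis 4 7 1 1 418 (.leaf 29) (.bis 4 5 1 2 342 (.bis 0 5 1 4 346 (.leaf 9) (.leaf 9))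
  (.leaf 9))) (.bis 4 5 1 2 342 (.bis 1 5 1 4 343 (.leaf 9) (.leaf 9)) (.leaf 9))))))) (.bis 6 7
  1 2 412 (.bis 4 7 1 4 215 (.bis 1 7 1 8 289 (.bis 3 7 1 8 167 (.bis 2 7 1 8 116 (.bis 0 7 1 1
  68 (.bis 7 8 8 1 54 (.bis 5 8 4 1 346 (.leaf 14) (.leaf 14)) (.bis 5 7 1 2 344 (.bis 4 7 1 8
  217 (.bis 6 7 1 4 413 (.bis 1 7 1 16 420 (.leaf 32) (.leaf 14)) (.leaf 14)) (.leaf 14)) (.leaf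
  14))) (.bis 0 6 4 1 421 (.bis 5 8 4 1 346 (.leaf 14) (.leaf 14)) (.bis 0 4 8 1 222 (.leaf 14)
  (.bis 0 5 2 1 353 (.leaf 14) (.bis 0 1 16 1 294 (.leaf 14) (.leaf 21)))))) (.bis 0 6 4 1 421
  (.bis 2 6 1 2 415 (.leaf 14) (.leaf 19)) (.bis 0 4 8 1 222 (.leaf 19) (.bis 0 2 8 1 125 (.leaf
  19) (.bis 0 5 2 1 353 (.leaf 14) (.bis 0 1 16 1 294 (.leaf 14) (.leaf 21))))))) (.bis 0 6 4 1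
  421 (.leaf 19) (.bis 0 3 8 1 173 (.leaf 5) (.bis 0 4 8 1 222 (.leaf 5) (.bis 0 2 8 1 125 (.leaf
  5) (.bis 0 5 2 1 353 (.leaf 5) (.leaf 21))))))) (.bis 0 1 8 1 293 (.bis 1 6 1 2 417 (.leaf 19)
  (.leaf 5)) (.bis 0 6 4 1 421 (.leaf 19) (.bis 0 3 8 1 173 (.leaf 5) (.bis 0 4 8 1 222 (.leaf 5)
  (.bis 0 2 8 1 125 (.leaf 5) (.leaf 21))))))) (.bis 0 4 4 1 223 (.bis 1 6 1 2 417 (.bis 4 6 1 1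
  418 (.leaf 19) (.bis 4 5 1 2 342 (.leaf 5) (.leaf 9))) (.bis 4 5 1 2 342 (.bis 1 5 1 4 343
  (.leaf 5) (.leaf 5)) (.leaf 9))) (.bis 0 1 8 1 293 (.bis 1 6 1 2 417 (.bis 3 6 1 2 416 (.leaf
  19) (.leaf 5)) (.bis 1 5 1 4 343 (.leaf 5) (.leaf 5))) (.bis 0 6 4 1 421 (.leaf 19) (.bis 0 3 8
  1 173 (.leaf 5) (.bis 0 7 8 1 222 (.leaf 5) (.bis 0 2 8 1 125 (.leaf 5) (.bis 0 5 2 1 353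
  (.leaf 5) (.leaf 21))))))))) (.bis 0 6 2 1 422 (.bis 1 6 1 4 402 (.bis 6 8 4 1 403 (.bis 4 7 1
  1 418 (.bis 3 7 1 2 416 (.leaf 19) (.bis 5 8 4 1 346 (.leaf 9) (.leaf 9))) (.bis 4 5 1 2 342
  (.bis 5 8 4 1 346 (.leaf 9) (.leaf 9)) (.leaf 9))) (.bis 2 6 1 4 404 (.bis 4 6 1 2 405 (.bis 3
  6 1 4 406 (.bis 5 6 1 1 411 (.bis 6 7 2 1 419 (.leaf 43) (.leaf 17)) (.bis 4 5 1 4 408 (.bis 1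
  5 1 8 410 (.leaf 19) (.leaf 19)) (.leaf 29))) (.bis 3 7 1 2 416 (.bis 4 5 1 4 408 (.bis 1 5 1 8
  410 (.leaf 19) (.leaf 19)) (.leaf 29)) (.bis 3 5 1 4 356 (.bis 4 5 1 4 408 (.leaf 9) (.leaf 9))
  (.leaf 9)))) (.bis 4 7 1 1 418 (.bis 3 7 1 2 416 (.bis 5 6 4 1 408 (.leaf 29) (.leaf 19)) (.bis
  3 5 1 4 356 (.bis 5 6 4 1 408 (.leaf 9) (.leaf 9)) (.leaf 9))) (.bis 4 5 1 2 342 (.bis 3 5 1 4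
  356 (.bis 5 6 4 1 408 (.leaf 9) (.leaf 9)) (.leaf 9)) (.leaf 9)))) (.bis 4 7 1 1 418 (.bis 3 7
  1 2 416 (.bis 2 7 1 2 415 (.leaf 19) (.bis 2 5 1 4 347 (.leaf 9) (.leaf 9))) (.bis 2 5 1 4 347
  (.leaf 9) (.leaf 9))) (.bis 4 5 1 2 342 (.bis 2 5 1 4 347 (.leaf 9) (.leaf 9)) (.leaf 9)))))
  (.bis 1 7 1 2 417 (.bis 4 7 1 1 418 (.leaf 19) (.bis 4 5 1 2 342 (.leaf 9) (.leaf 9))) (.bis 4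
  5 1 2 342 (.bis 1 5 1 4 343 (.leaf 9) (.leaf 9)) (.leaf 9)))) (.bis 0 4 4 1 223 (.bis 1 7 1 2
  417 (.bis 4 7 1 1 418 (.leaf 19) (.bis 4 5 1 2 342 (.leaf 5) (.leaf 9))) (.bis 4 5 1 2 342
  (.bis 1 5 1 4 343 (.leaf 5) (.leaf 5)) (.leaf 9))) (.bis 0 1 8 1 293 (.bis 1 7 1 2 417 (.bis 3
  7 1 2 416 (.leaf 19) (.leaf 5)) (.bis 1 5 1 4 343 (.leaf 5) (.leaf 5))) (.bis 0 7 4 1 421 (.bis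
  3 7 1 2 416 (.leaf 19) (.leaf 5)) (.bis 0 3 8 1 173 (.leaf 5) (.bis 0 2 8 1 125 (.leaf 5) (.bis
  0 5 2 1 353 (.leaf 5) (.leaf 21)))))))))) (.bis 6 7 1 2 412 (.bis 2 7 1 1 130 (.bis 4 7 1 4 215
  (.bis 1 7 1 8 289 (.bis 3 7 1 8 167 (.bis 7 8 8 1 116 (.bis 0 6 4 1 421 (.bis 6 8 2 1 415 (.bis
  5 8 4 1 347 (.leaf 19) (.leaf 14)) (.leaf 14)) (.bis 0 4 8 1 222 (.bis 5 8 4 1 347 (.bis 2 8 4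
  1 133 (.leaf 19) (.leaf 14)) (.leaf 14)) (.bis 0 8 8 1 125 (.bis 5 8 4 1 347 (.leaf 19) (.leaf
  14)) (.bis 0 5 2 1 353 (.leaf 14) (.bis 0 1 16 1 294 (.leaf 14) (.leaf 21)))))) (.bis 0 7 1 1
  68 (.bis 5 7 1 2 344 (.bis 4 7 1 8 217 (.bis 6 7 1 4 413 (.bis 2 7 1 2 134 (.leaf 32) (.leaf
  14)) (.leaf 14)) (.leaf 14)) (.leaf 14)) (.bis 0 6 4 1 421 (.leaf 14) (.bis 0 4 8 1 222 (.leaf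
  14) (.bis 0 5 2 1 353 (.leaf 14) (.bis 0 1 16 1 294 (.leaf 14) (.bis 0 3 16 1 174 (.leaf 14)
  (.leaf 21)))))))) (.bis 0 6 4 1 421 (.bis 3 6 1 2 416 (.bis 6 8 2 1 415 (.bis 5 8 4 1 347
  (.leaf 5) (.leaf 5)) (.leaf 14)) (.bis 2 3 4 1 178 (.leaf 5) (.leaf 5))) (.bis 0 3 8 1 173
  (.leaf 5) (.bis 0 4 8 1 222 (.bis 5 8 4 1 347 (.leaf 5) (.leaf 5)) (.bis 0 8 8 1 125 (.leaf 5)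
  (.bis 0 5 2 1 353 (.leaf 5) (.leaf 21))))))) (.bis 0 1 8 1 293 (.bis 1 6 1 2 417 (.leaf 19)
  (.leaf 5)) (.bis 0 6 4 1 421 (.bis 3 6 1 2 416 (.leaf 19) (.leaf 5)) (.bis 0 3 8 1 173 (.leaf
  5) (.bis 0 4 8 1 222 (.leaf 5) (.bis 0 8 8 1 125 (.leaf 5) (.leaf 21))))))) (.bis 0 4 4 1 223
  (.bis 2 4 2 1 225 (.bis 1 6 1 2 417 (.bis 4 6 1 1 418 (.leaf 19) (.bis 4 5 1 2 342 (.leaf 5)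
  (.leaf 9))) (.bis 4 5 1 2 342 (.leaf 5) (.leaf 9))) (.bis 1 6 1 2 417 (.leaf 19) (.bis 1 2 1 4
  295 (.leaf 5) (.leaf 5)))) (.bis 0 1 8 1 293 (.bis 1 6 1 2 417 (.leaf 19) (.bis 1 2 1 4 295
  (.leaf 5) (.leaf 5))) (.bis 0 6 4 1 421 (.leaf 19) (.bis 0 3 8 1 173 (.leaf 5) (.bis 0 7 8 1
  222 (.leaf 5) (.bis 0 8 8 1 125 (.leaf 5) (.leaf 21)))))))) (.bis 0 4 4 1 223 (.bis 2 4 4 1 227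
  (.bis 4 7 1 2 225 (.bis 1 6 1 2 417 (.bis 3 6 1 2 416 (.leaf 19) (.bis 3 7 1 4 178 (.leaf 5)
  (.leaf 5))) (.bis 1 7 1 4 295 (.bis 3 7 1 4 178 (.leaf 5) (.leaf 5)) (.bis 1 5 1 4 343 (.leaf
  5) (.leaf 5)))) (.bis 1 6 1 2 417 (.bis 4 6 1 1 418 (.bis 3 6 1 2 416 (.leaf 19) (.leaf 5))
  (.bis 4 5 1 2 342 (.leaf 5) (.leaf 9))) (.bis 4 5 1 2 342 (.bis 1 5 1 4 343 (.leaf 5) (.leaf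
  5)) (.leaf 9)))) (.bis 2 6 4 1 423 (.bis 1 6 1 2 417 (.leaf 19) (.bis 1 7 1 4 295 (.leaf 5)
  (.leaf 5))) (.bis 1 7 1 4 295 (.bis 2 5 2 1 355 (.leaf 5) (.leaf 18)) (.bis 1 2 1 8 296 (.bis 2
  5 2 1 355 (.leaf 5) (.leaf 6)) (.bis 1 5 1 4 343 (.leaf 5) (.leaf 5)))))) (.bis 2 6 4 1 423
  (.bis 0 1 8 1 293 (.bis 1 6 1 2 417 (.leaf 19) (.bis 1 7 1 4 295 (.leaf 5) (.leaf 5))) (.bis 0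
  6 4 1 421 (.leaf 19) (.bis 0 3 8 1 173 (.leaf 5) (.bis 0 8 8 1 125 (.leaf 5) (.leaf 21)))))
  (.bis 0 1 8 1 293 (.bis 1 7 1 4 295 (.bis 2 5 2 1 355 (.leaf 5) (.leaf 18)) (.bis 1 2 1 8 296
  (.bis 2 5 2 1 355 (.leaf 5) (.leaf 6)) (.bis 1 5 1 4 343 (.leaf 5) (.leaf 5)))) (.bis 0 3 8 1
  173 (.bis 2 5 2 1 355 (.leaf 5) (.leaf 18)) (.bis 0 8 8 1 125 (.bis 2 5 2 1 355 (.leaf 5)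
  (.leaf 11)) (.bis 0 5 2 1 353 (.bis 2 5 2 1 355 (.leaf 5) (.leaf 11)) (.leaf 11)))))))) (.bis 0
  6 2 1 422 (.bis 2 6 2 1 424 (.bis 1 6 1 4 402 (.bis 6 8 4 1 404 (.bis 4 7 1 1 418 (.bis 3 7 1 2
  416 (.leaf 19) (.bis 5 8 4 1 347 (.leaf 9) (.leaf 9))) (.bis 4 5 1 2 342 (.bis 5 8 4 1 347
  (.leaf 9) (.leaf 9)) (.leaf 9))) (.bis 4 6 1 2 405 (.bis 3 6 1 4 406 (.bis 5 6 1 1 411 (.bis 6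
  7 2 1 419 (.leaf 43) (.leaf 17)) (.bis 4 5 1 4 408 (.leaf 19) (.leaf 29))) (.bis 3 7 1 2 416
  (.bis 4 5 1 4 408 (.leaf 19) (.leaf 29)) (.bis 3 5 1 4 356 (.bis 4 5 1 4 408 (.leaf 9) (.leaf
  9)) (.leaf 9)))) (.bis 4 7 1 1 418 (.bis 3 7 1 2 416 (.bis 5 6 4 1 408 (.leaf 29) (.leaf 19))
  (.bis 3 5 1 4 356 (.leaf 9) (.leaf 9))) (.bis 4 5 1 2 342 (.bis 3 5 1 4 356 (.leaf 9) (.leaf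
  9)) (.leaf 9))))) (.bis 1 7 1 2 417 (.leaf 29) (.bis 4 5 1 2 342 (.leaf 9) (.leaf 9)))) (.bis 2
  4 4 1 227 (.bis 1 7 1 2 417 (.bis 4 7 1 1 418 (.leaf 19) (.bis 4 5 1 2 342 (.leaf 5) (.leaf
  9))) (.bis 4 5 1 2 342 (.leaf 5) (.leaf 9))) (.bis 2 7 4 1 423 (.bis 1 7 1 2 417 (.leaf 19)
  (.leaf 5)) (.bis 1 2 1 8 296 (.bis 2 5 2 1 355 (.leaf 5) (.leaf 6)) (.bis 1 5 1 4 343 (.leaf 5)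
  (.leaf 5)))))) (.bis 0 4 4 1 223 (.bis 2 4 4 1 227 (.bis 1 7 1 2 417 (.bis 4 7 1 1 418 (.leaf
  19) (.bis 4 5 1 2 342 (.leaf 5) (.leaf 9))) (.bis 4 5 1 2 342 (.leaf 5) (.leaf 9))) (.bis 2 7 4
  1 423 (.bis 1 7 1 2 417 (.leaf 19) (.leaf 5)) (.bis 1 2 1 8 296 (.bis 2 5 2 1 355 (.leaf 5)
  (.leaf 6)) (.bis 1 5 1 4 343 (.leaf 5) (.leaf 5))))) (.bis 2 7 4 1 423 (.bis 0 1 8 1 293 (.bis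
  1 7 1 2 417 (.leaf 19) (.leaf 5)) (.bis 0 7 4 1 421 (.leaf 19) (.bis 0 3 8 1 173 (.leaf 5)
  (.bis 0 8 8 1 125 (.leaf 5) (.leaf 21))))) (.bis 0 1 8 1 293 (.bis 1 2 1 8 296 (.bis 2 5 2 1
  355 (.leaf 5) (.leaf 6)) (.bis 1 5 1 4 343 (.leaf 5) (.leaf 5))) (.bis 0 3 8 1 173 (.bis 2 5 2
  1 355 (.leaf 5) (.bis 2 3 8 1 186 (.leaf 5) (.leaf 6))) (.bis 0 8 8 1 125 (.bis 2 5 2 1 355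
  (.leaf 5) (.leaf 6)) (.bis 0 5 2 1 353 (.bis 2 5 2 1 355 (.leaf 5) (.bis 2 6 4 1 425 (.leaf 5)
  (.leaf 6))) (.bis 2 6 4 1 425 (.leaf 21) (.leaf 11))))))))))) (.bis 3 7 1 1 187 (.bis 6 7 1 2
  412 (.bis 2 7 1 1 130 (.bis 4 7 1 4 215 (.bis 1 7 1 8 289 (.bis 7 8 8 1 167 (.bis 0 6 4 1 421
  (.bis 6 8 2 1 416 (.bis 2 8 4 1 178 (.bis 0 8 1 1 426 (.leaf 5) (.leaf 5)) (.leaf 5)) (.leaf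
  14)) (.bis 0 8 8 1 173 (.bis 2 8 4 1 178 (.bis 6 8 1 1 426 (.leaf 5) (.leaf 5)) (.leaf 5))
  (.bis 0 4 8 1 222 (.leaf 5) (.bis 0 5 2 1 353 (.leaf 5) (.bis 0 1 16 1 294 (.leaf 5) (.leaf
  21)))))) (.bis 0 7 1 1 68 (.bis 5 7 1 2 344 (.bis 4 7 1 8 217 (.bis 6 7 1 4 413 (.bis 3 7 1 2
  190 (.leaf 32) (.leaf 14)) (.leaf 14)) (.leaf 14)) (.leaf 14)) (.bis 0 6 4 1 421 (.leaf 14)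
  (.bis 0 4 8 1 222 (.leaf 14) (.bis 0 5 2 1 353 (.leaf 14) (.bis 0 1 16 1 294 (.leaf 14) (.leaf
  21))))))) (.bis 0 1 8 1 293 (.bis 1 6 1 2 417 (.bis 6 8 2 1 416 (.leaf 5) (.leaf 19)) (.bis 1 2
  1 4 295 (.bis 2 8 4 1 178 (.leaf 5) (.leaf 5)) (.leaf 5))) (.bis 0 6 4 1 421 (.bis 6 8 2 1 416
  (.bis 2 8 4 1 178 (.leaf 5) (.leaf 5)) (.leaf 19)) (.bis 0 8 8 1 173 (.bis 2 8 4 1 178 (.leaf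
  5) (.leaf 5)) (.bis 0 4 8 1 222 (.leaf 5) (.bis 0 5 2 1 353 (.leaf 5) (.leaf 21))))))) (.bis 0
  4 4 1 223 (.bis 2 4 2 1 225 (.bis 3 4 2 1 231 (.bis 1 6 1 2 417 (.leaf 29) (.bis 4 5 1 2 342
  (.leaf 5) (.leaf 9))) (.bis 1 6 1 2 417 (.leaf 19) (.leaf 5))) (.bis 1 6 1 2 417 (.leaf 19)
  (.bis 1 2 1 4 295 (.leaf 5) (.leaf 5)))) (.bis 0 1 8 1 293 (.bis 1 6 1 2 417 (.leaf 19) (.leaf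
  5)) (.bis 0 6 4 1 421 (.bis 6 8 2 1 416 (.leaf 5) (.leaf 19)) (.bis 0 8 8 1 173 (.leaf 5) (.bis
  0 7 8 1 222 (.leaf 5) (.leaf 21))))))) (.bis 0 4 4 1 223 (.bis 2 4 4 1 227 (.bis 4 7 1 2 225
  (.bis 1 6 1 2 417 (.leaf 19) (.leaf 5)) (.bis 3 4 2 1 231 (.bis 1 6 1 2 417 (.bis 4 6 1 1 418
  (.leaf 19) (.bis 4 5 1 2 342 (.leaf 5) (.leaf 9))) (.bis 4 5 1 2 342 (.leaf 5) (.leaf 9)))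
  (.bis 1 6 1 2 417 (.leaf 19) (.leaf 5)))) (.bis 2 6 4 1 423 (.bis 1 6 1 2 417 (.leaf 19) (.leaf
  5)) (.bis 1 7 1 4 295 (.bis 2 5 2 1 355 (.leaf 5) (.leaf 18)) (.bis 1 2 1 8 296 (.bis 2 5 2 1
  355 (.leaf 5) (.leaf 6)) (.leaf 5))))) (.bis 2 6 4 1 423 (.bis 0 1 8 1 293 (.bis 1 6 1 2 417
  (.leaf 19) (.bis 1 7 1 4 295 (.leaf 5) (.leaf 5))) (.bis 0 6 4 1 421 (.bis 6 8 2 1 416 (.leaf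
  5) (.leaf 19)) (.bis 0 8 8 1 173 (.bis 7 8 4 1 178 (.leaf 5) (.leaf 5)) (.bis 0 5 2 1 353
  (.leaf 5) (.leaf 11))))) (.bis 0 1 8 1 293 (.bis 1 7 1 4 295 (.bis 2 5 2 1 355 (.leaf 5) (.bis
  2 8 8 1 186 (.leaf 5) (.leaf 11))) (.bis 1 2 1 8 296 (.bis 2 5 2 1 355 (.leaf 5) (.leaf 6))
  (.leaf 5))) (.bis 0 8 8 1 173 (.bis 2 5 2 1 355 (.leaf 5) (.leaf 18)) (.bis 0 5 2 1 353 (.bis 2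
  5 2 1 355 (.leaf 5) (.leaf 11)) (.bis 2 4 8 1 230 (.leaf 11) (.leaf 11)))))))) (.bis 0 6 2 1
  422 (.bis 2 6 2 1 424 (.bis 3 6 1 1 427 (.bis 1 6 1 4 402 (.bis 4 6 1 2 405 (.bis 6 8 4 1 406
  (.bis 7 8 2 1 416 (.bis 5 8 4 1 356 (.leaf 9) (.leaf 9)) (.leaf 29)) (.bis 5 6 1 1 411 (.leaf
  43) (.bis 4 5 1 4 408 (.leaf 19) (.leaf 29)))) (.bis 4 7 1 1 418 (.leaf 29) (.bis 4 5 1 2 342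
  (.leaf 9) (.leaf 9)))) (.bis 1 7 1 2 417 (.bis 4 7 1 1 418 (.leaf 19) (.leaf 9)) (.bis 4 5 1 2
  342 (.leaf 9) (.leaf 9)))) (.bis 3 4 2 1 231 (.bis 1 7 1 2 417 (.bis 4 7 1 1 418 (.leaf 19)
  (.leaf 9)) (.leaf 9)) (.bis 1 7 1 2 417 (.leaf 19) (.leaf 5)))) (.bis 2 4 4 1 227 (.bis 3 4 2 1
  231 (.bis 1 7 1 2 417 (.leaf 29) (.bis 4 5 1 2 342 (.leaf 5) (.leaf 9))) (.bis 1 7 1 2 417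
  (.leaf 19) (.leaf 5))) (.bis 2 7 4 1 423 (.bis 1 7 1 2 417 (.leaf 19) (.leaf 5)) (.bis 1 2 1 8
  296 (.bis 2 5 2 1 355 (.leaf 5) (.leaf 6)) (.leaf 5))))) (.bis 0 4 4 1 223 (.bis 2 4 4 1 227
  (.bis 3 4 2 1 231 (.bis 1 7 1 2 417 (.bis 4 7 1 1 418 (.leaf 19) (.leaf 9)) (.bis 4 5 1 2 342
  (.leaf 5) (.leaf 9))) (.bis 1 7 1 2 417 (.leaf 19) (.leaf 5))) (.bis 2 7 4 1 423 (.bis 1 7 1 2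
  417 (.leaf 19) (.leaf 5)) (.bis 1 2 1 8 296 (.bis 2 5 2 1 355 (.leaf 5) (.leaf 6)) (.leaf 5))))
  (.bis 2 7 4 1 423 (.bis 0 1 8 1 293 (.bis 1 7 1 2 417 (.leaf 19) (.leaf 5)) (.bis 0 7 4 1 421
  (.bis 7 8 2 1 416 (.leaf 5) (.leaf 19)) (.bis 0 8 8 1 173 (.leaf 5) (.bis 0 5 2 1 353 (.leaf 5)
  (.leaf 21))))) (.bis 0 1 8 1 293 (.bis 1 2 1 8 296 (.bis 2 5 2 1 355 (.leaf 5) (.leaf 6))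
  (.leaf 5)) (.bis 0 8 8 1 173 (.bis 2 5 2 1 355 (.leaf 5) (.bis 2 8 8 1 186 (.leaf 5) (.leaf
  6))) (.bis 0 5 2 1 353 (.bis 2 5 2 1 355 (.leaf 5) (.bis 2 6 4 1 425 (.leaf 5) (.leaf 6)))
  (.bis 2 6 4 1 425 (.leaf 21) (.leaf 11))))))))) (.bis 0 6 2 1 422 (.bis 2 6 2 1 424 (.bis 3 6 2
  1 428 (.bis 6 7 1 1 427 (.bis 4 7 1 2 231 (.bis 1 5 1 4 343 (.leaf 5) (.bis 1 7 1 4 298 (.leaf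
  5) (.leaf 5))) (.leaf 9)) (.bis 1 6 1 4 402 (.bis 4 6 1 2 405 (.bis 6 8 4 1 406 (.bis 5 8 4 1
  356 (.leaf 3) (.bis 4 5 1 4 408 (.leaf 9) (.leaf 3))) (.bis 5 6 1 1 411 (.leaf 8) (.bis 4 5 1 4
  408 (.leaf 9) (.leaf 3)))) (.bis 4 5 1 2 342 (.leaf 9) (.leaf 9))) (.bis 4 5 1 2 342 (.leaf 9)
  (.leaf 9)))) (.bis 3 4 4 1 244 (.bis 4 7 1 2 231 (.bis 1 5 1 4 343 (.leaf 5) (.bis 1 7 1 4 298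
  (.leaf 5) (.leaf 5))) (.bis 4 5 1 2 342 (.leaf 5) (.leaf 9))) (.bis 0 3 1 4 429 (.bis 3 5 2 1
  357 (.leaf 5) (.bis 1 7 1 4 298 (.leaf 6) (.leaf 13))) (.bis 1 5 1 4 343 (.leaf 5) (.bis 1 7 1
  4 298 (.leaf 5) (.leaf 5)))))) (.bis 2 4 4 1 227 (.bis 3 4 4 1 244 (.bis 4 7 1 2 231 (.bis 1 5
  1 4 343 (.leaf 5) (.bis 1 7 1 4 298 (.leaf 5) (.leaf 5))) (.bis 4 5 1 2 342 (.leaf 5) (.leaf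
  9))) (.bis 0 3 1 4 429 (.bis 3 5 2 1 357 (.leaf 5) (.bis 1 7 1 4 298 (.leaf 6) (.leaf 13)))
  (.bis 1 5 1 4 343 (.leaf 5) (.bis 1 7 1 4 298 (.leaf 5) (.leaf 5))))) (.bis 1 2 1 8 296 (.bis 0
  3 1 4 429 (.bis 3 5 2 1 357 (.leaf 6) (.leaf 6)) (.bis 2 5 2 1 355 (.leaf 5) (.leaf 6))) (.bis
  0 3 1 4 429 (.bis 3 5 2 1 357 (.leaf 5) (.bis 1 7 1 4 298 (.leaf 6) (.leaf 13))) (.leaf 5)))))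
  (.bis 0 4 4 1 223 (.bis 2 4 4 1 227 (.bis 3 4 4 1 244 (.bis 4 7 1 2 231 (.bis 1 5 1 4 343
  (.leaf 5) (.bis 1 7 1 4 298 (.leaf 5) (.leaf 5))) (.bis 4 5 1 2 342 (.bis 1 5 1 4 343 (.leaf 5)
  (.leaf 3)) (.leaf 9))) (.bis 3 6 4 1 429 (.leaf 5) (.bis 3 5 2 1 357 (.leaf 5) (.bis 1 7 1 4
  298 (.leaf 6) (.bis 1 3 1 8 300 (.leaf 6) (.leaf 5)))))) (.bis 1 2 1 8 296 (.bis 3 6 4 1 429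
  (.bis 2 5 2 1 355 (.leaf 5) (.leaf 6)) (.bis 3 5 2 1 357 (.bis 2 5 2 1 355 (.leaf 5) (.leaf 6))
  (.leaf 6))) (.bis 3 6 4 1 429 (.leaf 5) (.bis 3 5 2 1 357 (.leaf 5) (.bis 1 7 1 4 298 (.leaf 6)
  (.leaf 13)))))) (.bis 0 1 8 1 293 (.bis 1 2 1 8 296 (.bis 3 6 4 1 429 (.bis 2 5 2 1 355 (.leaf
  5) (.leaf 6)) (.bis 3 5 2 1 357 (.bis 2 5 2 1 355 (.leaf 5) (.leaf 6)) (.leaf 6))) (.bis 3 6 4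
  1 429 (.leaf 5) (.bis 3 5 2 1 357 (.leaf 5) (.leaf 13)))) (.bis 0 8 8 1 173 (.bis 3 6 4 1 429
  (.bis 2 5 2 1 355 (.leaf 5) (.bis 2 8 8 1 186 (.leaf 5) (.leaf 6))) (.bis 3 5 2 1 357 (.bis 2 5
  2 1 355 (.leaf 5) (.leaf 6)) (.leaf 6))) (.bis 0 3 1 1 213 (.bis 3 6 4 1 429 (.bis 2 5 2 1 355
  (.leaf 5) (.leaf 6)) (.bis 3 5 2 1 357 (.leaf 6) (.leaf 6))) (.bis 0 5 2 1 353 (.bis 2 5 2 1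
  355 (.leaf 5) (.leaf 6)) (.bis 2 6 4 1 425 (.leaf 21) (.leaf 11))))))))))

def lc28 : List Vr := [⟨[24,0,0,0,0,0,0,0,0], 6912, 0⟩, ⟨[0,112,0,0,0,0,85,0,155], 406901, 0⟩,
  ⟨[0,0,17,0,0,0,0,0,0], 6936, 0⟩, ⟨[0,0,0,13,0,0,0,0,0], 6760, 0⟩, ⟨[0,0,0,0,38,0,85,0,155],
  206149, 0⟩, ⟨[0,0,0,0,0,30,0,42,0], 34416, 0⟩, ⟨[0,0,0,0,0,0,85,42,0], 42841, 0⟩, ⟨[0,0,0,0,0,0,
  0,42,0], 7056, 0⟩, ⟨[0,0,0,0,0,0,85,0,155], 59925, 0⟩]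

theorem lk28 : chkTr lowT (leafLow 2 lowB) lt28 lc28 = true := by decide +kernel

def lt29 : Tr ℕ := (.bis 4 7 1 1 247 (.bis 3 7 1 1 187 (.bis 6 7 1 2 412 (.bis 2 7 1 1 130 (.bis
  7 8 4 1 215 (.bis 0 8 4 1 223 (.bis 2 8 2 1 225 (.bis 3 8 2 1 231 (.bis 1 6 1 2 417 (.bis 6 8 1
  1 418 (.leaf 29) (.leaf 14)) (.leaf 29)) (.bis 1 6 1 2 417 (.leaf 14) (.bis 1 5 1 4 343 (.leaf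
  5) (.leaf 5)))) (.bis 1 6 1 2 417 (.leaf 14) (.bis 1 2 1 4 295 (.leaf 5) (.bis 1 5 1 4 343
  (.leaf 5) (.leaf 5))))) (.bis 0 1 8 1 293 (.bis 1 6 1 2 417 (.leaf 19) (.bis 1 2 1 4 295 (.leaf
  5) (.bis 1 5 1 4 343 (.leaf 5) (.leaf 5)))) (.bis 0 6 4 1 421 (.leaf 19) (.bis 0 7 8 1 222
  (.leaf 5) (.bis 0 5 2 1 353 (.leaf 5) (.leaf 11)))))) (.bis 1 7 1 8 289 (.bis 0 7 1 1 68 (.bis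
  5 7 1 2 344 (.bis 4 7 1 2 249 (.bis 7 8 8 1 217 (.leaf 14) (.bis 6 7 1 4 413 (.bis 3 7 1 2 190
  (.leaf 32) (.leaf 14)) (.leaf 14))) (.leaf 14)) (.leaf 14)) (.bis 0 6 4 1 421 (.leaf 14) (.bis
  0 8 8 1 222 (.leaf 14) (.bis 0 5 2 1 353 (.leaf 14) (.bis 0 1 16 1 294 (.leaf 14) (.leaf
  21)))))) (.bis 0 1 8 1 293 (.bis 1 6 1 2 417 (.leaf 19) (.bis 1 2 1 4 295 (.leaf 5) (.bis 1 5 1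
  4 343 (.leaf 5) (.bis 1 3 1 4 298 (.leaf 2) (.leaf 5))))) (.bis 0 6 4 1 421 (.leaf 19) (.bis 0
  8 8 1 222 (.leaf 5) (.bis 0 5 2 1 353 (.leaf 5) (.bis 0 7 16 1 294 (.leaf 5) (.leaf 11))))))))
  (.bis 0 8 4 1 223 (.bis 2 8 4 1 227 (.bis 7 8 2 1 225 (.bis 3 8 2 1 231 (.bis 1 6 1 2 417 (.bis
  6 8 1 1 418 (.leaf 29) (.leaf 19)) (.leaf 29)) (.bis 1 6 1 2 417 (.leaf 19) (.leaf 5))) (.bis 1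
  6 1 2 417 (.leaf 19) (.bis 1 7 1 4 295 (.leaf 5) (.leaf 5)))) (.bis 2 6 4 1 423 (.bis 1 6 1 2
  417 (.leaf 19) (.bis 1 7 1 4 295 (.leaf 5) (.bis 1 5 1 4 343 (.leaf 5) (.leaf 5)))) (.bis 1 7 1
  4 295 (.bis 2 5 2 1 355 (.leaf 5) (.bis 2 4 2 1 255 (.leaf 5) (.leaf 11))) (.bis 1 2 1 8 296
  (.bis 2 5 2 1 355 (.leaf 5) (.leaf 6)) (.bis 1 5 1 4 343 (.leaf 5) (.leaf 5)))))) (.bis 2 6 4 1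
  423 (.bis 0 1 8 1 293 (.bis 1 6 1 2 417 (.leaf 19) (.bis 1 7 1 4 295 (.leaf 5) (.bis 1 5 1 4
  343 (.leaf 5) (.leaf 5)))) (.bis 0 6 4 1 421 (.leaf 19) (.bis 0 5 2 1 353 (.leaf 5) (.leaf
  11)))) (.bis 0 1 8 1 293 (.bis 1 7 1 4 295 (.bis 2 5 2 1 355 (.leaf 5) (.bis 2 4 2 1 255 (.leaf
  5) (.leaf 11))) (.bis 1 2 1 8 296 (.bis 2 5 2 1 355 (.leaf 5) (.leaf 6)) (.bis 1 5 1 4 343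
  (.leaf 5) (.leaf 5)))) (.bis 0 5 2 1 353 (.bis 2 5 2 1 355 (.leaf 5) (.bis 2 4 2 1 255 (.leaf
  5) (.leaf 11))) (.bis 2 4 2 1 255 (.bis 0 4 2 1 254 (.leaf 5) (.leaf 11)) (.leaf 11)))))))
  (.bis 0 6 2 1 422 (.bis 2 6 2 1 424 (.bis 3 6 1 1 427 (.bis 4 6 1 1 430 (.bis 1 6 1 4 402 (.bis
  6 8 2 1 405 (.bis 7 8 1 1 418 (.bis 5 8 2 1 342 (.leaf 9) (.leaf 9)) (.leaf 29)) (.bis 5 6 1 1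
  411 (.leaf 43) (.leaf 29))) (.bis 1 7 1 2 417 (.bis 7 8 1 1 418 (.bis 5 8 2 1 342 (.bis 0 8 1 1
  431 (.leaf 9) (.leaf 9)) (.leaf 9)) (.leaf 19)) (.bis 5 8 2 1 342 (.leaf 9) (.bis 1 5 1 4 343
  (.leaf 9) (.leaf 3))))) (.bis 1 7 1 2 417 (.bis 7 8 1 1 418 (.bis 4 8 2 1 250 (.bis 5 8 2 1 342
  (.leaf 9) (.leaf 5)) (.leaf 5)) (.leaf 19)) (.bis 4 8 2 1 250 (.bis 5 8 2 1 342 (.leaf 9) (.bis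
  1 5 1 4 343 (.leaf 5) (.leaf 3))) (.bis 1 5 1 4 343 (.leaf 5) (.bis 1 4 1 4 301 (.leaf 5)
  (.leaf 3)))))) (.bis 3 8 2 1 231 (.bis 1 7 1 2 417 (.bis 7 8 1 1 418 (.bis 4 8 2 1 250 (.bis 5
  8 2 1 342 (.leaf 9) (.leaf 5)) (.leaf 5)) (.leaf 19)) (.bis 4 8 2 1 250 (.leaf 9) (.bis 1 5 1 4
  343 (.leaf 5) (.leaf 5)))) (.bis 1 7 1 2 417 (.leaf 19) (.bis 1 5 1 4 343 (.leaf 5) (.bis 1 3 1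
  4 298 (.leaf 5) (.leaf 5)))))) (.bis 2 8 4 1 227 (.bis 3 8 2 1 231 (.bis 1 7 1 2 417 (.bis 7 8
  1 1 418 (.bis 4 8 2 1 250 (.leaf 9) (.leaf 5)) (.leaf 19)) (.bis 4 8 2 1 250 (.leaf 9) (.leaf
  5))) (.bis 1 7 1 2 417 (.leaf 19) (.bis 1 5 1 4 343 (.leaf 5) (.leaf 5)))) (.bis 2 7 4 1 423
  (.bis 1 7 1 2 417 (.leaf 19) (.bis 1 5 1 4 343 (.leaf 5) (.bis 1 3 1 4 298 (.leaf 5) (.leaf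
  5)))) (.bis 1 2 1 8 296 (.bis 2 5 2 1 355 (.leaf 5) (.leaf 6)) (.bis 1 5 1 4 343 (.leaf 5)
  (.leaf 5)))))) (.bis 0 8 4 1 223 (.bis 2 8 4 1 227 (.bis 3 8 2 1 231 (.bis 1 7 1 2 417 (.bis 7
  8 1 1 418 (.leaf 29) (.leaf 19)) (.leaf 29)) (.bis 1 7 1 2 417 (.leaf 19) (.bis 1 5 1 4 343
  (.leaf 5) (.leaf 5)))) (.bis 2 7 4 1 423 (.bis 1 7 1 2 417 (.leaf 19) (.bis 1 5 1 4 343 (.leaf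
  5) (.leaf 5))) (.bis 1 2 1 8 296 (.bis 2 5 2 1 355 (.leaf 5) (.leaf 6)) (.bis 1 5 1 4 343
  (.leaf 5) (.leaf 5))))) (.bis 2 7 4 1 423 (.bis 0 1 8 1 293 (.bis 1 7 1 2 417 (.leaf 19) (.bis
  1 5 1 4 343 (.leaf 5) (.bis 1 3 1 4 298 (.leaf 5) (.leaf 5)))) (.bis 0 7 4 1 421 (.leaf 19)
  (.bis 0 5 2 1 353 (.leaf 5) (.leaf 21)))) (.bis 0 1 8 1 293 (.bis 1 2 1 8 296 (.bis 2 5 2 1 355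
  (.leaf 5) (.leaf 6)) (.bis 1 5 1 4 343 (.leaf 5) (.leaf 5))) (.bis 0 5 2 1 353 (.bis 2 5 2 1
  355 (.leaf 5) (.bis 2 6 4 1 425 (.leaf 5) (.leaf 6))) (.bis 2 6 4 1 425 (.bis 0 4 2 1 254
  (.leaf 5) (.leaf 21)) (.bis 2 4 2 1 255 (.bis 0 4 2 1 254 (.leaf 5) (.leaf 11)) (.leaf
  11))))))))) (.bis 0 6 2 1 422 (.bis 2 6 2 1 424 (.bis 3 6 2 1 428 (.bis 6 7 1 1 427 (.bis 7 8 2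
  1 231 (.bis 4 8 2 1 250 (.bis 5 8 2 1 342 (.leaf 9) (.bis 1 5 1 4 343 (.leaf 5) (.leaf 3)))
  (.bis 1 5 1 4 343 (.leaf 5) (.leaf 5))) (.bis 1 5 1 4 343 (.leaf 5) (.bis 1 7 1 4 298 (.leaf 5)
  (.leaf 5)))) (.bis 4 6 1 1 430 (.bis 1 6 1 4 402 (.bis 6 8 2 1 405 (.bis 5 8 2 1 342 (.bis 0 8
  1 1 431 (.leaf 9) (.leaf 3)) (.leaf 9)) (.bis 5 6 1 1 411 (.leaf 8) (.bis 5 8 4 1 408 (.leaf 3)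
  (.leaf 9)))) (.bis 5 8 2 1 342 (.bis 0 8 1 1 431 (.leaf 9) (.bis 0 1 2 1 432 (.leaf 3) (.leaf
  3))) (.bis 1 5 1 4 343 (.leaf 9) (.bis 0 1 2 1 432 (.leaf 3) (.leaf 3))))) (.bis 4 8 2 1 250
  (.bis 5 8 2 1 342 (.leaf 9) (.bis 1 5 1 4 343 (.leaf 5) (.bis 0 1 2 1 432 (.leaf 3) (.leaf
  3)))) (.bis 1 5 1 4 343 (.leaf 5) (.bis 1 4 1 4 301 (.leaf 5) (.leaf 3)))))) (.bis 3 8 4 1 244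
  (.bis 7 8 2 1 231 (.bis 4 8 2 1 250 (.leaf 9) (.leaf 5)) (.bis 1 5 1 4 343 (.leaf 5) (.leaf
  5))) (.bis 0 3 1 4 429 (.bis 3 5 2 1 357 (.bis 1 5 1 4 343 (.leaf 5) (.bis 1 7 1 4 298 (.leaf
  5) (.leaf 5))) (.bis 1 7 1 4 298 (.leaf 6) (.leaf 13))) (.bis 1 5 1 4 343 (.leaf 5) (.bis 1 7 1
  4 298 (.leaf 5) (.leaf 5)))))) (.bis 2 8 4 1 227 (.bis 3 8 4 1 244 (.bis 7 8 2 1 231 (.leaf 29)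
  (.bis 1 5 1 4 343 (.leaf 5) (.leaf 5))) (.bis 0 3 1 4 429 (.bis 3 5 2 1 357 (.bis 1 5 1 4 343
  (.leaf 5) (.leaf 5)) (.bis 1 7 1 4 298 (.leaf 6) (.leaf 13))) (.bis 1 5 1 4 343 (.leaf 5)
  (.leaf 5)))) (.bis 1 2 1 8 296 (.bis 0 3 1 4 429 (.leaf 6) (.bis 2 5 2 1 355 (.leaf 5) (.leaf
  6))) (.bis 0 3 1 4 429 (.bis 3 5 2 1 357 (.bis 1 5 1 4 343 (.leaf 5) (.leaf 5)) (.bis 1 7 1 4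
  298 (.leaf 6) (.leaf 13))) (.bis 1 5 1 4 343 (.leaf 5) (.leaf 5)))))) (.bis 0 8 4 1 223 (.bis 2
  8 4 1 227 (.bis 3 8 4 1 244 (.bis 7 8 2 1 231 (.leaf 29) (.leaf 5)) (.bis 3 6 4 1 429 (.bis 1 5
  1 4 343 (.leaf 5) (.leaf 5)) (.bis 3 5 2 1 357 (.bis 1 5 1 4 343 (.leaf 5) (.leaf 5)) (.leaf
  13)))) (.bis 1 2 1 8 296 (.bis 3 6 4 1 429 (.bis 2 5 2 1 355 (.leaf 5) (.leaf 6)) (.leaf 6))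
  (.bis 3 6 4 1 429 (.bis 1 5 1 4 343 (.leaf 5) (.leaf 5)) (.bis 3 5 2 1 357 (.bis 1 5 1 4 343
  (.leaf 5) (.leaf 5)) (.leaf 13))))) (.bis 0 1 8 1 293 (.bis 1 2 1 8 296 (.bis 3 6 4 1 429 (.bis
  2 5 2 1 355 (.leaf 5) (.leaf 6)) (.leaf 6)) (.bis 3 6 4 1 429 (.bis 1 5 1 4 343 (.leaf 5)
  (.leaf 5)) (.bis 3 5 2 1 357 (.bis 1 5 1 4 343 (.leaf 5) (.leaf 5)) (.bis 1 7 1 4 298 (.leaf 6)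
  (.leaf 13))))) (.bis 0 3 1 1 213 (.bis 3 6 4 1 429 (.bis 2 5 2 1 355 (.leaf 5) (.leaf 6))
  (.leaf 6)) (.bis 0 5 2 1 353 (.bis 2 5 2 1 355 (.leaf 5) (.bis 2 6 4 1 425 (.leaf 5) (.leaf
  6))) (.bis 2 6 4 1 425 (.leaf 21) (.leaf 11)))))))) (.bis 0 6 2 1 422 (.bis 2 6 2 1 424 (.bis 3
  6 2 1 428 (.bis 4 6 2 1 433 (.bis 6 7 1 1 430 (.bis 7 8 2 1 250 (.bis 5 8 2 1 342 (.leaf 9)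
  (.bis 1 5 1 4 343 (.leaf 9) (.bis 0 1 2 1 432 (.leaf 3) (.leaf 3)))) (.bis 1 5 1 4 343 (.leaf
  13) (.bis 1 7 1 4 301 (.leaf 13) (.leaf 3)))) (.bis 1 6 1 4 402 (.bis 6 8 2 1 405 (.bis 5 8 2 1
  342 (.bis 0 8 1 1 431 (.leaf 9) (.leaf 3)) (.bis 5 6 4 1 408 (.leaf 3) (.leaf 9))) (.bis 5 6 1
  1 411 (.leaf 8) (.bis 5 8 4 1 408 (.leaf 3) (.leaf 9)))) (.bis 5 8 2 1 342 (.bis 0 8 1 1 431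
  (.leaf 9) (.bis 0 1 2 1 432 (.leaf 3) (.leaf 3))) (.bis 1 5 1 4 343 (.leaf 9) (.bis 0 1 2 1 432
  (.leaf 3) (.leaf 3)))))) (.bis 4 8 4 1 277 (.bis 7 8 2 1 250 (.bis 5 8 2 1 342 (.leaf 9) (.bis
  1 5 1 4 343 (.leaf 6) (.leaf 3))) (.bis 1 5 1 4 343 (.leaf 6) (.leaf 13))) (.bis 0 4 1 4 434
  (.bis 1 4 1 8 304 (.bis 4 5 2 1 358 (.leaf 6) (.leaf 22)) (.bis 1 5 1 4 343 (.leaf 6) (.bis 1 7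
  1 4 301 (.leaf 6) (.leaf 3)))) (.bis 1 5 1 4 343 (.leaf 6) (.bis 1 7 1 4 301 (.leaf 6) (.leaf
  3)))))) (.bis 3 8 4 1 244 (.bis 4 8 4 1 277 (.bis 7 8 2 1 250 (.bis 5 8 2 1 342 (.leaf 9)
  (.leaf 5)) (.leaf 5)) (.bis 0 4 1 4 434 (.bis 1 4 1 8 304 (.bis 4 5 2 1 358 (.leaf 5) (.leaf
  22)) (.leaf 5)) (.bis 1 5 1 4 343 (.leaf 5) (.leaf 5)))) (.bis 0 4 1 4 434 (.bis 1 4 1 8 304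
  (.leaf 22) (.bis 3 5 2 1 357 (.bis 1 5 1 4 343 (.leaf 5) (.leaf 5)) (.leaf 13))) (.bis 0 3 1 4
  429 (.bis 3 5 2 1 357 (.bis 1 5 1 4 343 (.leaf 5) (.leaf 5)) (.bis 1 3 1 8 300 (.leaf 6) (.leaf
  5))) (.bis 1 5 1 4 343 (.leaf 5) (.bis 1 7 1 4 301 (.leaf 5) (.leaf 3))))))) (.bis 2 8 4 1 227
  (.bis 3 8 4 1 244 (.bis 4 8 4 1 277 (.leaf 29) (.bis 0 4 1 4 434 (.bis 1 4 1 8 304 (.bis 4 5 2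
  1 358 (.leaf 5) (.leaf 22)) (.leaf 5)) (.leaf 5))) (.bis 0 4 1 4 434 (.bis 1 4 1 8 304 (.leaf
  22) (.bis 3 5 2 1 357 (.leaf 5) (.leaf 13))) (.bis 0 3 1 4 429 (.bis 3 5 2 1 357 (.bis 1 5 1 4
  343 (.leaf 5) (.leaf 5)) (.leaf 13)) (.bis 1 5 1 4 343 (.leaf 5) (.leaf 5))))) (.bis 0 4 1 4
  434 (.bis 1 4 1 8 304 (.bis 4 5 2 1 358 (.bis 3 5 2 1 357 (.bis 2 5 2 1 355 (.leaf 5) (.leaf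
  6)) (.leaf 6)) (.leaf 22)) (.bis 1 2 1 8 296 (.leaf 6) (.bis 3 5 2 1 357 (.leaf 5) (.leaf
  13)))) (.bis 1 2 1 8 296 (.bis 0 3 1 4 429 (.leaf 6) (.bis 2 5 2 1 355 (.leaf 5) (.leaf 6)))
  (.bis 0 3 1 4 429 (.bis 3 5 2 1 357 (.bis 1 5 1 4 343 (.leaf 5) (.leaf 5)) (.bis 1 3 1 8 300
  (.leaf 6) (.leaf 5))) (.bis 1 5 1 4 343 (.leaf 5) (.leaf 5))))))) (.bis 0 8 4 1 223 (.bis 2 8 4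
  1 227 (.bis 3 8 4 1 244 (.bis 4 8 4 1 277 (.leaf 29) (.bis 4 6 4 1 434 (.leaf 5) (.bis 1 4 1 8
  304 (.bis 4 5 2 1 358 (.leaf 5) (.leaf 22)) (.leaf 5)))) (.bis 4 6 4 1 434 (.bis 3 6 4 1 429
  (.leaf 5) (.bis 3 5 2 1 357 (.leaf 5) (.leaf 13))) (.bis 1 4 1 8 304 (.bis 4 5 2 1 358 (.bis 3
  5 2 1 357 (.leaf 5) (.leaf 6)) (.leaf 22)) (.bis 3 5 2 1 357 (.leaf 5) (.leaf 13))))) (.bis 4 6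
  4 1 434 (.bis 1 2 1 8 296 (.bis 3 6 4 1 429 (.bis 2 5 2 1 355 (.leaf 5) (.leaf 6)) (.leaf 6))
  (.bis 3 6 4 1 429 (.leaf 5) (.bis 3 5 2 1 357 (.leaf 5) (.leaf 13)))) (.bis 1 4 1 8 304 (.bis 4
  5 2 1 358 (.bis 3 5 2 1 357 (.bis 2 5 2 1 355 (.leaf 5) (.leaf 6)) (.leaf 6)) (.leaf 22)) (.bis
  1 2 1 8 296 (.leaf 6) (.bis 3 5 2 1 357 (.leaf 5) (.leaf 13)))))) (.bis 0 4 1 1 280 (.bis 4 6 4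
  1 434 (.bis 1 2 1 8 296 (.leaf 6) (.bis 3 6 4 1 429 (.bis 1 5 1 4 343 (.leaf 5) (.leaf 5))
  (.bis 3 5 2 1 357 (.bis 1 5 1 4 343 (.leaf 5) (.leaf 5)) (.bis 1 3 1 8 300 (.leaf 6) (.leaf
  5))))) (.bis 1 4 1 8 304 (.bis 4 5 2 1 358 (.bis 3 5 2 1 357 (.bis 2 5 2 1 355 (.leaf 5) (.leaf
  6)) (.leaf 6)) (.leaf 22)) (.bis 1 2 1 8 296 (.leaf 6) (.bis 3 5 2 1 357 (.bis 1 5 1 4 343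
  (.leaf 5) (.leaf 5)) (.bis 1 3 1 8 300 (.leaf 6) (.leaf 5)))))) (.bis 0 1 8 1 293 (.bis 1 2 1 8
  296 (.bis 3 6 4 1 429 (.bis 2 5 2 1 355 (.leaf 5) (.leaf 6)) (.leaf 6)) (.bis 3 6 4 1 429 (.bis
  1 5 1 4 343 (.leaf 5) (.leaf 5)) (.bis 3 5 2 1 357 (.bis 1 5 1 4 343 (.leaf 5) (.leaf 5)) (.bis
  1 3 1 8 300 (.leaf 6) (.leaf 5))))) (.bis 0 3 1 1 213 (.bis 3 6 4 1 429 (.bis 2 5 2 1 355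
  (.leaf 5) (.leaf 6)) (.bis 3 5 2 1 357 (.leaf 6) (.leaf 6))) (.bis 0 5 2 1 353 (.bis 2 5 2 1
  355 (.leaf 5) (.leaf 6)) (.leaf 34))))))))

def lc29 : List Vr := [⟨[24,0,0,0,0,0,0,0,0], 6912, 0⟩, ⟨[0,112,0,0,0,0,85,0,155], 406901, 0⟩,
  ⟨[0,0,17,0,0,0,0,0,0], 6936, 0⟩, ⟨[0,0,0,13,0,0,0,0,0], 6760, 0⟩, ⟨[0,0,0,0,19,0,0,0,0], 7581,
  0⟩, ⟨[0,0,0,0,0,30,0,42,0], 34416, 0⟩, ⟨[0,0,0,0,0,0,85,42,0], 42841, 0⟩, ⟨[0,0,0,0,0,0,0,42,0],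
   7056, 0⟩, ⟨[0,0,0,0,38,0,85,0,155], 206149, 0⟩]

theorem lk29 : chkTr lowT (leafLow 2 lowB) lt29 lc29 = true := by decide +kernel

def lt30 : Tr ℕ := (.bis 5 8 4 1 359 (.bis 4 8 2 1 214 (.bis 3 8 4 1 159 (.bis 2 8 4 1 110 (.bis
  0 8 4 1 50 (.bis 7 8 1 1 348 (.bis 6 8 1 1 398 (.bis 1 8 1 2 291 (.bis 5 8 1 2 361 (.bis 3 8 1
  2 171 (.bis 2 8 1 2 122 (.bis 0 8 1 2 66 (.leaf 37) (.bis 0 6 1 1 435 (.leaf 24) (.leaf 24)))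
  (.leaf 24)) (.leaf 24)) (.leaf 24)) (.leaf 24)) (.bis 1 6 1 4 402 (.bis 0 6 1 4 403 (.leaf 68)
  (.leaf 24)) (.leaf 24))) (.bis 1 6 1 4 402 (.bis 0 6 1 4 403 (.bis 2 6 1 4 404 (.bis 4 6 1 2
  405 (.bis 3 6 1 4 406 (.bis 6 8 2 1 407 (.bis 7 8 2 1 351 (.leaf 9) (.bis 5 7 1 4 436 (.bis 4 7
  1 4 408 (.bis 6 7 1 4 409 (.leaf 9) (.leaf 9)) (.leaf 9)) (.leaf 9))) (.bis 6 7 1 1 411 (.bis 5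
  7 1 4 436 (.bis 4 7 1 4 408 (.bis 7 8 4 1 409 (.leaf 9) (.leaf 9)) (.leaf 9)) (.leaf 9)) (.leaf
  8))) (.bis 7 8 2 1 351 (.leaf 9) (.bis 3 7 1 4 356 (.bis 5 7 1 4 436 (.leaf 9) (.leaf 9))
  (.leaf 9)))) (.bis 4 7 1 2 342 (.bis 7 8 2 1 351 (.leaf 9) (.bis 3 7 1 4 356 (.bis 5 7 1 4 436
  (.leaf 9) (.leaf 9)) (.leaf 9))) (.leaf 9))) (.bis 4 7 1 2 342 (.bis 7 8 2 1 351 (.leaf 9)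
  (.bis 2 7 1 4 347 (.leaf 9) (.leaf 9))) (.leaf 9))) (.bis 4 7 1 2 342 (.bis 7 8 2 1 351 (.leaf
  9) (.bis 0 7 1 4 346 (.leaf 9) (.leaf 9))) (.leaf 9))) (.bis 4 7 1 2 342 (.bis 1 7 1 4 343
  (.bis 7 8 2 1 351 (.leaf 9) (.leaf 9)) (.leaf 9)) (.leaf 9)))) (.bis 0 6 2 1 422 (.bis 1 6 1 4
  402 (.bis 6 8 4 1 403 (.bis 4 7 1 2 342 (.bis 0 5 2 1 437 (.bis 7 8 4 1 346 (.leaf 9) (.leaf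
  9)) (.bis 7 8 4 1 346 (.leaf 9) (.leaf 9))) (.leaf 9)) (.bis 2 6 1 4 404 (.bis 4 6 1 2 405
  (.bis 3 6 1 4 406 (.bis 6 7 1 1 411 (.bis 0 5 2 1 437 (.bis 5 7 1 4 436 (.bis 4 7 1 4 408
  (.leaf 9) (.leaf 3)) (.leaf 3)) (.bis 4 7 1 4 408 (.bis 1 7 1 8 410 (.leaf 9) (.leaf 3)) (.leaf
  3))) (.leaf 8)) (.bis 0 5 2 1 437 (.bis 3 7 1 4 356 (.bis 5 7 1 4 436 (.bis 4 7 1 4 408 (.leaf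
  9) (.leaf 3)) (.leaf 3)) (.leaf 3)) (.bis 3 7 1 4 356 (.bis 4 7 1 4 408 (.bis 1 7 1 8 410
  (.leaf 9) (.leaf 3)) (.leaf 3)) (.leaf 3)))) (.bis 4 7 1 2 342 (.bis 0 5 2 1 437 (.bis 3 7 1 4
  356 (.bis 5 7 1 4 436 (.leaf 9) (.leaf 3)) (.leaf 3)) (.bis 3 7 1 4 356 (.bis 6 7 1 4 408
  (.leaf 9) (.leaf 3)) (.leaf 3))) (.leaf 9))) (.bis 4 7 1 2 342 (.bis 0 5 2 1 437 (.bis 2 7 1 4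
  347 (.bis 3 7 1 4 356 (.leaf 9) (.leaf 3)) (.leaf 9)) (.bis 2 7 1 4 347 (.leaf 9) (.leaf 9)))
  (.leaf 9)))) (.bis 4 7 1 2 342 (.bis 1 7 1 4 343 (.leaf 9) (.leaf 9)) (.leaf 9))) (.bis 0 5 8 1
  364 (.bis 4 7 1 2 342 (.leaf 9) (.leaf 9)) (.bis 0 4 4 1 223 (.bis 4 7 1 2 342 (.bis 1 7 1 4
  343 (.leaf 5) (.leaf 5)) (.leaf 9)) (.bis 0 1 8 1 293 (.bis 1 7 1 4 343 (.leaf 5) (.leaf 5))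
  (.bis 0 3 8 1 173 (.bis 7 8 4 1 346 (.leaf 5) (.leaf 5)) (.bis 0 2 8 1 125 (.bis 7 8 4 1 346
  (.leaf 5) (.leaf 5)) (.bis 0 7 2 1 353 (.leaf 5) (.leaf 21))))))))) (.bis 0 6 2 1 422 (.bis 2 6
  2 1 424 (.bis 1 6 1 4 402 (.bis 6 8 4 1 404 (.bis 4 7 1 2 342 (.bis 0 5 2 1 437 (.bis 7 8 4 1
  347 (.leaf 9) (.leaf 9)) (.bis 7 8 4 1 347 (.leaf 9) (.leaf 9))) (.leaf 9)) (.bis 4 6 1 2 405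
  (.bis 3 6 1 4 406 (.bis 6 7 1 1 411 (.bis 0 5 2 1 437 (.bis 5 7 1 4 436 (.bis 4 7 1 4 408
  (.leaf 9) (.leaf 3)) (.leaf 3)) (.bis 4 7 1 4 408 (.bis 1 7 1 8 410 (.leaf 9) (.leaf 3)) (.leaf
  3))) (.leaf 8)) (.bis 0 5 2 1 437 (.bis 3 7 1 4 356 (.bis 5 7 1 4 436 (.leaf 9) (.leaf 3))
  (.leaf 3)) (.bis 3 7 1 4 356 (.bis 4 7 1 4 408 (.leaf 9) (.leaf 3)) (.leaf 3)))) (.bis 4 7 1 2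
  342 (.bis 0 5 2 1 437 (.bis 3 7 1 4 356 (.bis 5 7 1 4 436 (.leaf 9) (.leaf 3)) (.leaf 3)) (.bis
  3 7 1 4 356 (.leaf 9) (.leaf 3))) (.leaf 9)))) (.bis 4 7 1 2 342 (.bis 1 7 1 4 343 (.leaf 9)
  (.leaf 9)) (.leaf 9))) (.bis 2 4 4 1 227 (.bis 4 7 1 2 342 (.bis 1 7 1 4 343 (.leaf 9) (.leaf
  9)) (.leaf 9)) (.bis 2 5 8 1 365 (.bis 1 7 1 4 343 (.leaf 9) (.leaf 9)) (.bis 1 2 1 8 296 (.bis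
  2 7 2 1 355 (.leaf 5) (.leaf 6)) (.bis 1 7 1 4 343 (.leaf 5) (.leaf 5)))))) (.bis 0 5 8 1 364
  (.bis 2 4 4 1 227 (.bis 4 7 1 2 342 (.leaf 9) (.leaf 9)) (.bis 2 5 8 1 365 (.bis 1 7 1 4 343
  (.leaf 9) (.leaf 9)) (.bis 1 2 1 8 296 (.bis 2 7 2 1 355 (.leaf 5) (.leaf 6)) (.bis 1 7 1 4 343
  (.leaf 5) (.leaf 5))))) (.bis 0 4 4 1 223 (.bis 2 4 4 1 227 (.bis 4 7 1 2 342 (.leaf 5) (.leaf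
  9)) (.bis 1 2 1 8 296 (.bis 2 7 2 1 355 (.leaf 5) (.bis 2 3 8 1 186 (.leaf 5) (.leaf 6))) (.bis
  1 7 1 4 343 (.leaf 5) (.leaf 5)))) (.bis 0 1 8 1 293 (.bis 1 2 1 8 296 (.bis 2 7 2 1 355 (.leaf
  5) (.bis 2 3 8 1 186 (.leaf 5) (.leaf 6))) (.bis 1 7 1 4 343 (.leaf 5) (.leaf 5))) (.bis 0 3 8
  1 173 (.bis 2 7 2 1 355 (.leaf 5) (.bis 2 3 8 1 186 (.leaf 5) (.leaf 6))) (.bis 0 8 8 1 125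
  (.bis 2 7 2 1 355 (.leaf 5) (.bis 2 6 4 1 425 (.leaf 5) (.leaf 6))) (.bis 0 7 2 1 353 (.bis 2 7
  2 1 355 (.leaf 5) (.bis 2 6 4 1 425 (.leaf 5) (.leaf 6))) (.bis 2 6 4 1 425 (.leaf 21) (.leaf
  11)))))))))) (.bis 0 6 2 1 422 (.bis 2 6 2 1 424 (.bis 3 6 2 1 428 (.bis 1 6 1 4 402 (.bis 4 6
  1 2 405 (.bis 6 8 4 1 406 (.bis 0 5 2 1 437 (.bis 7 8 4 1 356 (.leaf 3) (.bis 5 7 1 4 436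
  (.leaf 9) (.leaf 3))) (.bis 7 8 4 1 356 (.leaf 3) (.bis 4 7 1 4 408 (.leaf 9) (.leaf 3))))
  (.bis 6 7 1 1 411 (.bis 0 5 2 1 437 (.bis 5 7 1 4 436 (.bis 4 7 1 4 408 (.leaf 9) (.leaf 3))
  (.leaf 3)) (.bis 4 7 1 4 408 (.leaf 9) (.leaf 3))) (.bis 5 6 1 4 438 (.leaf 8) (.leaf 3))))
  (.bis 4 7 1 2 342 (.bis 0 5 2 1 437 (.bis 7 8 4 1 356 (.leaf 3) (.leaf 9)) (.bis 7 8 4 1 356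
  (.leaf 3) (.leaf 9))) (.leaf 9))) (.bis 4 7 1 2 342 (.bis 1 7 1 4 343 (.leaf 9) (.leaf 3))
  (.leaf 9))) (.bis 3 4 4 1 244 (.bis 4 7 1 2 342 (.leaf 9) (.leaf 9)) (.bis 3 5 8 1 366 (.bis 1
  7 1 4 343 (.leaf 9) (.leaf 3)) (.bis 0 3 1 4 429 (.bis 3 7 2 1 357 (.leaf 5) (.leaf 13)) (.bis
  1 7 1 4 343 (.leaf 5) (.leaf 3)))))) (.bis 2 4 4 1 227 (.bis 3 4 4 1 244 (.bis 4 7 1 2 342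
  (.bis 1 7 1 4 343 (.leaf 9) (.leaf 3)) (.leaf 9)) (.bis 3 5 8 1 366 (.bis 1 7 1 4 343 (.leaf 9)
  (.leaf 3)) (.bis 0 3 1 4 429 (.bis 3 7 2 1 357 (.leaf 5) (.leaf 13)) (.bis 1 7 1 4 343 (.leaf
  5) (.leaf 3))))) (.bis 2 5 8 1 365 (.bis 3 5 8 1 366 (.bis 1 7 1 4 343 (.leaf 9) (.leaf 3))
  (.bis 0 3 1 4 429 (.bis 3 7 2 1 357 (.leaf 5) (.leaf 13)) (.leaf 5))) (.bis 1 2 1 8 296 (.bis 0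
  3 1 4 429 (.bis 3 7 2 1 357 (.leaf 6) (.leaf 6)) (.bis 2 7 2 1 355 (.leaf 5) (.leaf 6))) (.bis
  0 3 1 4 429 (.bis 3 7 2 1 357 (.leaf 5) (.leaf 13)) (.bis 1 7 1 4 343 (.leaf 5) (.leaf 3)))))))
  (.bis 0 5 8 1 364 (.bis 2 4 4 1 227 (.bis 3 4 4 1 244 (.bis 4 7 1 2 342 (.leaf 9) (.leaf 9))
  (.bis 3 5 8 1 366 (.bis 1 7 1 4 343 (.leaf 9) (.leaf 3)) (.bis 3 6 4 1 429 (.leaf 5) (.bis 3 7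
  2 1 357 (.leaf 5) (.leaf 13))))) (.bis 2 5 8 1 365 (.bis 3 5 8 1 366 (.leaf 9) (.bis 3 6 4 1
  429 (.leaf 5) (.bis 3 7 2 1 357 (.leaf 5) (.leaf 13)))) (.bis 1 2 1 8 296 (.bis 3 6 4 1 429
  (.bis 2 7 2 1 355 (.leaf 5) (.leaf 6)) (.bis 3 7 2 1 357 (.leaf 6) (.leaf 6))) (.bis 3 6 4 1
  429 (.leaf 5) (.bis 3 7 2 1 357 (.leaf 5) (.leaf 13)))))) (.bis 0 4 4 1 223 (.bis 2 4 4 1 227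
  (.bis 3 4 4 1 244 (.bis 4 7 1 2 342 (.leaf 5) (.leaf 9)) (.bis 3 6 4 1 429 (.bis 1 7 1 4 343
  (.leaf 5) (.leaf 3)) (.bis 3 7 2 1 357 (.leaf 5) (.bis 1 3 1 8 300 (.leaf 6) (.leaf 3)))))
  (.bis 1 2 1 8 296 (.bis 3 6 4 1 429 (.bis 2 7 2 1 355 (.leaf 5) (.leaf 6)) (.bis 3 7 2 1 357
  (.bis 2 7 2 1 355 (.leaf 5) (.leaf 6)) (.leaf 6))) (.bis 3 6 4 1 429 (.bis 1 7 1 4 343 (.leaf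
  5) (.leaf 3)) (.bis 3 7 2 1 357 (.leaf 5) (.bis 1 3 1 8 300 (.leaf 6) (.leaf 3)))))) (.bis 0 1
  8 1 293 (.bis 1 2 1 8 296 (.bis 3 6 4 1 429 (.bis 2 7 2 1 355 (.leaf 5) (.leaf 6)) (.bis 3 7 2
  1 357 (.bis 2 7 2 1 355 (.leaf 5) (.leaf 6)) (.leaf 6))) (.bis 3 6 4 1 429 (.leaf 5) (.bis 3 7
  2 1 357 (.leaf 5) (.bis 1 3 1 8 300 (.leaf 6) (.leaf 5))))) (.bis 0 8 8 1 173 (.bis 3 6 4 1 429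
  (.bis 2 7 2 1 355 (.leaf 5) (.bis 2 8 8 1 186 (.leaf 5) (.leaf 6))) (.bis 3 7 2 1 357 (.bis 2 7
  2 1 355 (.leaf 5) (.leaf 6)) (.leaf 6))) (.bis 0 3 1 1 213 (.bis 3 6 4 1 429 (.bis 2 7 2 1 355
  (.leaf 5) (.leaf 6)) (.bis 3 7 2 1 357 (.leaf 6) (.leaf 6))) (.bis 0 7 2 1 353 (.bis 2 7 2 1
  355 (.leaf 5) (.leaf 6)) (.bis 2 6 4 1 425 (.leaf 21) (.leaf 11)))))))))) (.bis 0 6 2 1 422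
  (.bis 2 6 2 1 424 (.bis 3 6 2 1 428 (.bis 4 6 2 1 433 (.bis 1 6 1 4 402 (.bis 6 8 2 1 405 (.bis
  7 8 2 1 342 (.leaf 9) (.bis 0 5 2 1 437 (.bis 5 7 1 4 436 (.leaf 9) (.leaf 3)) (.bis 6 7 1 4
  408 (.leaf 9) (.leaf 3)))) (.bis 6 7 1 1 411 (.bis 0 5 2 1 437 (.bis 5 7 1 4 436 (.leaf 9)
  (.leaf 3)) (.bis 7 8 4 1 408 (.leaf 3) (.leaf 9))) (.bis 5 6 1 4 438 (.leaf 8) (.leaf 3))))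
  (.bis 7 8 2 1 342 (.leaf 9) (.bis 1 7 1 4 343 (.leaf 9) (.leaf 3)))) (.bis 4 8 4 1 277 (.bis 7
  8 2 1 342 (.leaf 9) (.bis 1 7 1 4 343 (.leaf 9) (.leaf 3))) (.bis 0 4 1 4 434 (.bis 4 5 8 1 368
  (.bis 1 7 1 4 343 (.leaf 9) (.leaf 3)) (.bis 1 4 1 8 304 (.bis 4 7 2 1 358 (.leaf 6) (.leaf 7))
  (.bis 1 7 1 4 343 (.leaf 6) (.leaf 3)))) (.bis 1 7 1 4 343 (.leaf 9) (.leaf 3))))) (.bis 3 8 4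
  1 244 (.bis 4 8 4 1 277 (.bis 7 8 2 1 342 (.leaf 9) (.leaf 9)) (.bis 0 4 1 4 434 (.bis 4 5 8 1
  368 (.bis 1 7 1 4 343 (.leaf 9) (.leaf 3)) (.bis 1 4 1 8 304 (.bis 4 7 2 1 358 (.leaf 6) (.leaf
  7)) (.bis 1 7 1 4 343 (.leaf 6) (.leaf 3)))) (.leaf 9))) (.bis 3 5 8 1 366 (.bis 0 4 1 4 434
  (.bis 4 5 8 1 368 (.bis 1 7 1 4 343 (.leaf 9) (.leaf 3)) (.bis 1 4 1 8 304 (.bis 4 7 2 1 358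
  (.leaf 6) (.leaf 7)) (.bis 1 7 1 4 343 (.leaf 6) (.leaf 3)))) (.leaf 9)) (.bis 0 4 1 4 434
  (.bis 1 4 1 8 304 (.bis 4 7 2 1 358 (.leaf 6) (.leaf 7)) (.bis 3 7 2 1 357 (.leaf 5) (.leaf
  13))) (.bis 0 3 1 4 429 (.bis 3 7 2 1 357 (.bis 1 7 1 4 343 (.leaf 5) (.leaf 3)) (.bis 1 3 1 8
  300 (.leaf 6) (.leaf 3))) (.bis 1 7 1 4 343 (.leaf 5) (.leaf 3))))))) (.bis 2 8 4 1 227 (.bis 3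
  8 4 1 244 (.bis 4 8 4 1 277 (.bis 7 8 2 1 342 (.leaf 9) (.leaf 9)) (.bis 0 4 1 4 434 (.bis 4 5
  8 1 368 (.bis 1 7 1 4 343 (.leaf 9) (.leaf 3)) (.bis 1 4 1 8 304 (.bis 4 7 2 1 358 (.leaf 6)
  (.leaf 7)) (.bis 1 7 1 4 343 (.leaf 6) (.leaf 3)))) (.leaf 9))) (.bis 3 5 8 1 366 (.bis 0 4 1 4
  434 (.bis 4 5 8 1 368 (.bis 1 7 1 4 343 (.leaf 9) (.leaf 3)) (.bis 1 4 1 8 304 (.bis 4 7 2 1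
  358 (.leaf 6) (.leaf 7)) (.bis 1 7 1 4 343 (.leaf 6) (.leaf 3)))) (.leaf 9)) (.bis 0 4 1 4 434
  (.bis 1 4 1 8 304 (.bis 4 7 2 1 358 (.leaf 6) (.leaf 7)) (.bis 3 7 2 1 357 (.leaf 5) (.leaf
  13))) (.bis 0 3 1 4 429 (.bis 3 7 2 1 357 (.leaf 5) (.leaf 13)) (.leaf 5))))) (.bis 2 5 8 1 365
  (.bis 3 5 8 1 366 (.bis 0 4 1 4 434 (.bis 4 5 8 1 368 (.leaf 9) (.bis 1 4 1 8 304 (.bis 4 7 2 1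
  358 (.leaf 6) (.leaf 7)) (.bis 1 7 1 4 343 (.leaf 6) (.leaf 3)))) (.leaf 9)) (.bis 0 4 1 4 434
  (.bis 1 4 1 8 304 (.bis 4 7 2 1 358 (.leaf 6) (.leaf 7)) (.bis 3 7 2 1 357 (.leaf 5) (.leaf
  13))) (.bis 0 3 1 4 429 (.bis 3 7 2 1 357 (.bis 1 7 1 4 343 (.leaf 5) (.leaf 3)) (.leaf 13))
  (.bis 1 7 1 4 343 (.leaf 5) (.leaf 3))))) (.bis 0 4 1 4 434 (.bis 1 4 1 8 304 (.bis 4 7 2 1 358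
  (.leaf 6) (.leaf 7)) (.bis 1 2 1 8 296 (.bis 3 7 2 1 357 (.leaf 6) (.leaf 6)) (.bis 3 7 2 1 357
  (.leaf 5) (.leaf 13)))) (.bis 1 2 1 8 296 (.bis 0 3 1 4 429 (.bis 3 7 2 1 357 (.leaf 6) (.leaf
  6)) (.leaf 6)) (.bis 0 3 1 4 429 (.bis 3 7 2 1 357 (.leaf 5) (.leaf 13)) (.leaf 5))))))) (.bis
  0 5 8 1 364 (.bis 2 8 4 1 227 (.bis 3 8 4 1 244 (.bis 4 8 4 1 277 (.bis 7 8 2 1 342 (.leaf 9)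
  (.leaf 9)) (.bis 4 6 4 1 434 (.leaf 9) (.bis 4 5 8 1 368 (.bis 1 7 1 4 343 (.leaf 9) (.leaf 3))
  (.bis 1 4 1 8 304 (.bis 4 7 2 1 358 (.leaf 6) (.leaf 7)) (.bis 1 7 1 4 343 (.leaf 6) (.leaf
  3)))))) (.bis 3 5 8 1 366 (.bis 4 6 4 1 434 (.leaf 9) (.bis 4 5 8 1 368 (.bis 1 7 1 4 343
  (.leaf 9) (.leaf 3)) (.bis 1 4 1 8 304 (.bis 4 7 2 1 358 (.leaf 6) (.leaf 7)) (.bis 1 7 1 4 343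
  (.leaf 6) (.leaf 3))))) (.bis 4 6 4 1 434 (.bis 3 6 4 1 429 (.leaf 5) (.bis 3 7 2 1 357 (.leaf
  5) (.leaf 13))) (.bis 1 4 1 8 304 (.bis 4 7 2 1 358 (.leaf 6) (.leaf 7)) (.bis 3 7 2 1 357
  (.leaf 5) (.leaf 13)))))) (.bis 2 5 8 1 365 (.bis 3 5 8 1 366 (.bis 4 6 4 1 434 (.leaf 9) (.bis
  4 5 8 1 368 (.leaf 9) (.bis 1 4 1 8 304 (.bis 4 7 2 1 358 (.leaf 6) (.leaf 7)) (.leaf 9))))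
  (.bis 4 6 4 1 434 (.bis 3 6 4 1 429 (.leaf 5) (.leaf 13)) (.bis 1 4 1 8 304 (.bis 4 7 2 1 358
  (.leaf 6) (.leaf 7)) (.bis 3 7 2 1 357 (.leaf 5) (.leaf 13))))) (.bis 4 6 4 1 434 (.bis 1 2 1 8
  296 (.bis 3 6 4 1 429 (.leaf 6) (.bis 3 7 2 1 357 (.leaf 6) (.leaf 6))) (.bis 3 6 4 1 429
  (.leaf 5) (.bis 3 7 2 1 357 (.leaf 5) (.leaf 13)))) (.bis 1 4 1 8 304 (.bis 4 7 2 1 358 (.leaf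
  6) (.leaf 7)) (.bis 1 2 1 8 296 (.bis 3 7 2 1 357 (.leaf 6) (.leaf 6)) (.bis 3 7 2 1 357 (.leaf
  5) (.leaf 13))))))) (.bis 0 8 4 1 223 (.bis 2 8 4 1 227 (.bis 3 8 4 1 244 (.bis 4 8 4 1 277
  (.bis 7 8 2 1 342 (.leaf 9) (.leaf 5)) (.bis 4 6 4 1 434 (.leaf 5) (.bis 1 4 1 8 304 (.bis 4 7
  2 1 358 (.leaf 5) (.leaf 22)) (.bis 1 7 1 4 343 (.leaf 5) (.leaf 3))))) (.bis 4 6 4 1 434 (.bis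
  3 6 4 1 429 (.leaf 5) (.bis 3 7 2 1 357 (.leaf 5) (.leaf 13))) (.bis 1 4 1 8 304 (.bis 4 7 2 1
  358 (.bis 3 7 2 1 357 (.leaf 5) (.leaf 6)) (.leaf 22)) (.bis 3 7 2 1 357 (.leaf 5) (.leaf
  13))))) (.bis 4 6 4 1 434 (.bis 1 2 1 8 296 (.bis 3 6 4 1 429 (.bis 2 7 2 1 355 (.leaf 5)
  (.leaf 6)) (.bis 3 7 2 1 357 (.leaf 6) (.leaf 6))) (.bis 3 6 4 1 429 (.leaf 5) (.bis 3 7 2 1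
  357 (.leaf 5) (.leaf 13)))) (.bis 1 4 1 8 304 (.bis 4 7 2 1 358 (.bis 3 7 2 1 357 (.bis 2 7 2 1
  355 (.leaf 5) (.leaf 6)) (.leaf 6)) (.leaf 22)) (.bis 1 2 1 8 296 (.bis 3 7 2 1 357 (.bis 2 7 2
  1 355 (.leaf 5) (.leaf 6)) (.leaf 6)) (.bis 3 7 2 1 357 (.leaf 5) (.leaf 13)))))) (.bis 0 4 1 1
  280 (.bis 4 6 4 1 434 (.bis 1 2 1 8 296 (.bis 3 6 4 1 429 (.bis 2 7 2 1 355 (.leaf 5) (.leaf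
  6)) (.bis 3 7 2 1 357 (.leaf 6) (.leaf 6))) (.bis 3 6 4 1 429 (.bis 1 7 1 4 343 (.leaf 5)
  (.leaf 5)) (.bis 3 7 2 1 357 (.bis 1 7 1 4 343 (.leaf 5) (.leaf 5)) (.bis 1 3 1 8 300 (.leaf 6)
  (.leaf 5))))) (.bis 1 4 1 8 304 (.bis 4 7 2 1 358 (.leaf 6) (.leaf 22)) (.bis 1 2 1 8 296 (.bis
  3 7 2 1 357 (.leaf 6) (.leaf 6)) (.bis 3 7 2 1 357 (.leaf 5) (.leaf 13))))) (.bis 0 1 8 1 293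
  (.bis 1 2 1 8 296 (.bis 3 6 4 1 429 (.bis 2 7 2 1 355 (.leaf 5) (.leaf 6)) (.bis 3 7 2 1 357
  (.leaf 6) (.leaf 6))) (.bis 3 6 4 1 429 (.leaf 5) (.bis 3 7 2 1 357 (.leaf 5) (.leaf 13))))
  (.bis 0 3 1 1 213 (.bis 3 6 4 1 429 (.bis 2 7 2 1 355 (.leaf 5) (.leaf 6)) (.bis 3 7 2 1 357
  (.leaf 6) (.leaf 6))) (.bis 0 7 2 1 353 (.bis 2 7 2 1 355 (.leaf 5) (.leaf 6)) (.bis 2 6 4 1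
  425 (.leaf 21) (.leaf 11)))))))))) (.bis 0 5 1 1 376 (.bis 2 6 2 1 424 (.bis 3 6 2 1 428 (.bis
  4 6 2 1 433 (.bis 5 6 2 1 439 (.bis 0 6 1 1 440 (.bis 1 6 1 4 402 (.bis 6 7 1 1 411 (.bis 7 8 4
  1 436 (.leaf 3) (.leaf 33)) (.bis 6 8 4 1 438 (.leaf 3) (.leaf 8))) (.bis 1 5 1 2 441 (.bis 7 8
  4 1 436 (.leaf 3) (.bis 6 7 1 8 410 (.leaf 33) (.leaf 3))) (.bis 1 7 1 4 343 (.leaf 9) (.bis 0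
  1 2 1 442 (.leaf 3) (.leaf 3))))) (.bis 1 5 1 2 441 (.leaf 57) (.bis 0 1 4 1 383 (.bis 1 7 1 4
  343 (.leaf 9) (.leaf 3)) (.leaf 20)))) (.bis 1 5 1 8 378 (.bis 2 5 1 4 443 (.bis 5 7 2 1 380
  (.leaf 57) (.bis 3 5 1 4 444 (.bis 4 5 1 4 445 (.leaf 15) (.leaf 3)) (.leaf 3))) (.leaf 57))
  (.bis 1 6 1 2 441 (.leaf 57) (.bis 0 1 4 1 383 (.bis 1 7 1 4 343 (.leaf 9) (.leaf 3)) (.leaf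
  20))))) (.bis 1 5 1 8 378 (.bis 2 5 1 4 443 (.bis 4 8 8 1 368 (.bis 5 7 2 1 380 (.leaf 20)
  (.bis 3 5 1 4 444 (.bis 5 6 4 1 445 (.leaf 3) (.leaf 15)) (.leaf 3))) (.bis 5 7 2 1 380 (.bis 4
  7 2 1 358 (.leaf 20) (.leaf 33)) (.bis 3 5 1 4 444 (.bis 4 5 1 1 393 (.leaf 15) (.leaf 33))
  (.bis 3 4 1 4 446 (.leaf 33) (.leaf 3))))) (.bis 4 8 8 1 368 (.leaf 20) (.bis 4 7 2 1 358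
  (.leaf 13) (.bis 2 4 1 4 447 (.leaf 7) (.leaf 3))))) (.bis 4 8 8 1 368 (.bis 0 1 4 1 383 (.bis
  1 7 1 4 343 (.leaf 9) (.leaf 3)) (.leaf 20)) (.bis 1 4 1 8 304 (.bis 4 7 2 1 358 (.leaf 13)
  (.leaf 7)) (.bis 0 1 4 1 383 (.bis 1 7 1 4 343 (.leaf 9) (.leaf 3)) (.leaf 13)))))) (.bis 1 5 1
  8 378 (.bis 3 5 1 1 379 (.bis 2 5 1 4 443 (.bis 4 8 8 1 368 (.bis 5 7 2 1 380 (.leaf 20) (.bis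
  5 6 4 1 444 (.leaf 3) (.leaf 15))) (.bis 5 7 2 1 380 (.bis 4 7 2 1 358 (.leaf 20) (.leaf 33))
  (.bis 5 6 4 1 444 (.bis 4 6 4 1 446 (.leaf 3) (.leaf 33)) (.bis 4 5 1 1 393 (.leaf 15) (.leaf
  33))))) (.bis 4 8 8 1 368 (.leaf 20) (.bis 4 7 2 1 358 (.leaf 20) (.leaf 7)))) (.bis 3 8 8 1
  366 (.bis 4 8 8 1 368 (.leaf 20) (.bis 4 7 2 1 358 (.leaf 20) (.leaf 7))) (.bis 4 7 2 1 358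
  (.leaf 22) (.leaf 7)))) (.bis 3 8 8 1 366 (.bis 4 8 8 1 368 (.bis 0 1 4 1 383 (.bis 1 7 1 4 343
  (.leaf 9) (.leaf 3)) (.leaf 20)) (.bis 1 4 1 8 304 (.bis 4 7 2 1 358 (.leaf 13) (.leaf 7))
  (.bis 0 1 4 1 383 (.bis 1 7 1 4 343 (.leaf 9) (.leaf 3)) (.leaf 13)))) (.bis 1 4 1 8 304 (.bis
  4 7 2 1 358 (.leaf 13) (.leaf 7)) (.bis 3 7 2 1 357 (.bis 0 1 4 1 383 (.leaf 9) (.leaf 13))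
  (.bis 0 1 4 1 383 (.leaf 13) (.leaf 7))))))) (.bis 2 5 1 1 377 (.bis 1 5 1 8 378 (.bis 3 5 1 1
  379 (.bis 5 6 4 1 443 (.bis 4 8 8 1 368 (.leaf 20) (.bis 4 7 2 1 358 (.leaf 20) (.leaf 7)))
  (.bis 4 8 8 1 368 (.bis 5 7 2 1 380 (.leaf 20) (.leaf 15)) (.bis 5 7 2 1 380 (.bis 4 7 2 1 358
  (.leaf 20) (.leaf 33)) (.leaf 56)))) (.bis 3 8 8 1 366 (.bis 4 8 8 1 368 (.leaf 20) (.bis 4 7 2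
  1 358 (.leaf 20) (.leaf 7))) (.bis 4 7 2 1 358 (.leaf 22) (.leaf 7)))) (.bis 3 8 8 1 366 (.bis
  4 8 8 1 368 (.bis 1 2 1 4 382 (.leaf 20) (.leaf 20)) (.bis 1 4 1 8 304 (.bis 4 7 2 1 358 (.leaf
  13) (.leaf 7)) (.bis 1 2 1 4 382 (.leaf 13) (.leaf 13)))) (.bis 1 4 1 8 304 (.bis 4 7 2 1 358
  (.leaf 13) (.leaf 7)) (.bis 3 7 2 1 357 (.bis 1 2 1 4 382 (.leaf 13) (.leaf 13)) (.bis 1 2 1 4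
  382 (.leaf 7) (.leaf 13)))))) (.bis 2 8 8 1 365 (.bis 3 8 8 1 366 (.bis 4 8 8 1 368 (.bis 1 5 1
  4 382 (.leaf 20) (.leaf 20)) (.bis 1 4 1 8 304 (.bis 4 7 2 1 358 (.leaf 6) (.leaf 7)) (.bis 1 5
  1 4 382 (.leaf 6) (.leaf 13)))) (.bis 1 4 1 8 304 (.bis 4 7 2 1 358 (.leaf 6) (.leaf 7)) (.bis
  3 7 2 1 357 (.bis 1 5 1 4 382 (.leaf 6) (.leaf 13)) (.bis 1 5 1 4 382 (.leaf 6) (.leaf 13)))))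
  (.bis 1 4 1 8 304 (.bis 4 7 2 1 358 (.leaf 6) (.leaf 7)) (.bis 1 2 1 8 296 (.bis 3 7 2 1 357
  (.leaf 6) (.leaf 6)) (.bis 3 7 2 1 357 (.bis 1 5 1 4 382 (.leaf 6) (.leaf 13)) (.bis 1 5 1 4
  382 (.leaf 6) (.leaf 13)))))))) (.bis 0 6 2 1 422 (.bis 2 6 2 1 424 (.bis 3 6 2 1 428 (.bis 4 6
  2 1 433 (.bis 5 6 1 1 440 (.bis 1 6 1 4 402 (.bis 6 7 1 1 411 (.bis 0 8 2 1 437 (.bis 7 8 4 1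
  436 (.leaf 3) (.leaf 9)) (.bis 1 7 1 8 410 (.leaf 9) (.leaf 3))) (.bis 6 8 4 1 438 (.leaf 3)
  (.leaf 8))) (.bis 1 7 1 4 343 (.leaf 9) (.bis 0 8 2 1 437 (.bis 1 5 1 2 442 (.leaf 3) (.leaf
  3)) (.bis 0 1 2 1 432 (.bis 1 5 1 2 442 (.leaf 3) (.leaf 3)) (.leaf 3))))) (.bis 1 5 1 4 383
  (.leaf 50) (.bis 1 7 1 4 343 (.leaf 9) (.bis 0 8 2 1 437 (.leaf 3) (.bis 0 1 2 1 432 (.leaf 3)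
  (.leaf 3)))))) (.bis 0 4 1 4 434 (.bis 4 8 8 1 368 (.bis 1 5 1 4 383 (.leaf 20) (.bis 1 7 1 4
  343 (.leaf 9) (.leaf 3))) (.bis 1 4 1 8 304 (.leaf 22) (.bis 1 5 1 4 383 (.leaf 6) (.bis 1 7 1
  4 343 (.leaf 6) (.leaf 3))))) (.bis 1 5 1 4 383 (.bis 0 8 2 1 437 (.leaf 20) (.leaf 6)) (.bis 1
  7 1 4 343 (.bis 0 8 2 1 437 (.leaf 9) (.leaf 6)) (.leaf 3))))) (.bis 3 8 8 1 366 (.bis 0 4 1 4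
  434 (.bis 4 8 8 1 368 (.bis 1 5 1 4 383 (.leaf 20) (.leaf 9)) (.bis 1 4 1 8 304 (.leaf 22)
  (.bis 1 5 1 4 383 (.leaf 6) (.leaf 9)))) (.bis 1 5 1 4 383 (.leaf 50) (.leaf 9))) (.bis 0 4 1 4
  434 (.bis 1 4 1 8 304 (.bis 4 7 2 1 358 (.leaf 6) (.leaf 7)) (.bis 3 7 2 1 357 (.bis 1 5 1 4
  383 (.leaf 6) (.leaf 5)) (.bis 1 5 1 4 383 (.leaf 6) (.leaf 13)))) (.bis 0 3 1 4 429 (.bis 3 7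
  2 1 357 (.bis 1 5 1 4 383 (.leaf 6) (.bis 1 7 1 4 343 (.leaf 5) (.leaf 3))) (.bis 1 5 1 4 383
  (.leaf 6) (.bis 1 3 1 8 300 (.leaf 6) (.leaf 3)))) (.bis 1 5 1 4 383 (.leaf 6) (.bis 1 7 1 4
  343 (.leaf 5) (.leaf 3))))))) (.bis 2 8 8 1 365 (.bis 3 8 8 1 366 (.bis 0 4 1 4 434 (.bis 4 8 8
  1 368 (.bis 1 5 1 4 383 (.leaf 20) (.leaf 9)) (.bis 1 4 1 8 304 (.leaf 22) (.bis 1 5 1 4 383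
  (.leaf 6) (.leaf 9)))) (.bis 1 5 1 4 383 (.leaf 50) (.leaf 9))) (.bis 0 4 1 4 434 (.bis 1 4 1 8
  304 (.bis 4 7 2 1 358 (.leaf 6) (.leaf 7)) (.bis 3 7 2 1 357 (.bis 1 5 1 4 383 (.leaf 6) (.leaf
  5)) (.bis 1 5 1 4 383 (.leaf 6) (.leaf 13)))) (.bis 0 3 1 4 429 (.bis 3 7 2 1 357 (.bis 1 5 1 4
  383 (.leaf 6) (.bis 1 7 1 4 343 (.leaf 5) (.leaf 3))) (.bis 1 5 1 4 383 (.leaf 6) (.bis 1 3 1 8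
  300 (.leaf 6) (.leaf 3)))) (.bis 1 5 1 4 383 (.leaf 6) (.bis 1 7 1 4 343 (.leaf 5) (.leaf
  3)))))) (.bis 0 4 1 4 434 (.bis 1 4 1 8 304 (.bis 4 7 2 1 358 (.leaf 6) (.leaf 7)) (.bis 1 2 1
  8 296 (.bis 3 7 2 1 357 (.leaf 6) (.leaf 6)) (.bis 3 7 2 1 357 (.bis 1 5 1 4 383 (.leaf 6)
  (.leaf 5)) (.bis 1 5 1 4 383 (.leaf 6) (.leaf 13))))) (.bis 1 2 1 8 296 (.leaf 6) (.bis 0 3 1 4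
  429 (.bis 3 7 2 1 357 (.bis 1 5 1 4 383 (.leaf 6) (.leaf 5)) (.bis 1 5 1 4 383 (.leaf 6) (.leaf
  13))) (.bis 1 5 1 4 383 (.leaf 6) (.leaf 5))))))) (.bis 0 8 8 1 364 (.bis 2 8 8 1 365 (.bis 3 8
  8 1 366 (.bis 4 6 4 1 434 (.bis 1 5 1 4 383 (.leaf 50) (.leaf 9)) (.bis 4 8 8 1 368 (.bis 1 5 1
  4 383 (.leaf 20) (.leaf 9)) (.bis 1 4 1 8 304 (.leaf 22) (.bis 1 5 1 4 383 (.leaf 6) (.leaf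
  9))))) (.bis 4 6 4 1 434 (.bis 3 6 4 1 429 (.bis 1 5 1 4 383 (.leaf 6) (.bis 1 7 1 4 343 (.leaf
  5) (.leaf 3))) (.bis 3 7 2 1 357 (.bis 1 5 1 4 383 (.leaf 6) (.bis 1 7 1 4 343 (.leaf 5) (.leaf
  3))) (.bis 1 5 1 4 383 (.leaf 6) (.leaf 13)))) (.bis 1 4 1 8 304 (.bis 4 7 2 1 358 (.leaf 6)
  (.leaf 7)) (.bis 3 7 2 1 357 (.bis 1 5 1 4 383 (.leaf 6) (.leaf 5)) (.bis 1 5 1 4 383 (.leaf 6)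
  (.leaf 13)))))) (.bis 4 6 4 1 434 (.bis 1 2 1 8 296 (.leaf 6) (.bis 3 6 4 1 429 (.bis 1 5 1 4
  383 (.leaf 6) (.leaf 5)) (.bis 3 7 2 1 357 (.bis 1 5 1 4 383 (.leaf 6) (.leaf 5)) (.bis 1 5 1 4
  383 (.leaf 6) (.leaf 13))))) (.bis 1 4 1 8 304 (.bis 4 7 2 1 358 (.leaf 6) (.leaf 7)) (.bis 1 2
  1 8 296 (.bis 3 7 2 1 357 (.leaf 6) (.leaf 6)) (.leaf 13))))) (.bis 0 4 1 1 280 (.bis 4 6 4 1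
  434 (.bis 1 2 1 8 296 (.leaf 6) (.bis 3 6 4 1 429 (.bis 1 5 1 4 383 (.leaf 6) (.bis 1 7 1 4 343
  (.leaf 5) (.leaf 5))) (.bis 3 7 2 1 357 (.bis 1 5 1 4 383 (.leaf 6) (.bis 1 7 1 4 343 (.leaf 5)
  (.leaf 5))) (.bis 1 5 1 4 383 (.leaf 6) (.bis 1 3 1 8 300 (.leaf 6) (.leaf 5)))))) (.bis 1 4 1
  8 304 (.bis 4 7 2 1 358 (.leaf 6) (.leaf 7)) (.bis 1 2 1 8 296 (.bis 3 7 2 1 357 (.leaf 6)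
  (.leaf 6)) (.bis 3 7 2 1 357 (.bis 1 5 1 4 383 (.leaf 6) (.leaf 5)) (.bis 1 5 1 4 383 (.leaf 6)
  (.leaf 13)))))) (.bis 0 1 8 1 293 (.bis 1 2 1 8 296 (.leaf 6) (.bis 3 6 4 1 429 (.bis 1 5 1 4
  383 (.leaf 6) (.leaf 5)) (.bis 3 7 2 1 357 (.bis 1 5 1 4 383 (.leaf 6) (.leaf 5)) (.bis 1 5 1 4
  383 (.leaf 6) (.leaf 13))))) (.bis 0 3 1 1 213 (.leaf 6) (.leaf 34))))))))

def lc30 : List Vr := [⟨[24,0,0,0,0,0,0,0,0], 6912, 0⟩, ⟨[0,112,0,0,0,0,85,0,155], 406901, 0⟩,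
  ⟨[0,0,17,0,0,0,0,0,0], 6936, 0⟩, ⟨[0,0,0,13,0,0,0,0,0], 6760, 0⟩, ⟨[0,0,0,0,19,0,0,0,0], 7581,
  0⟩, ⟨[0,0,0,0,0,30,0,0,0], 7200, 0⟩, ⟨[0,0,0,0,0,0,85,42,0], 42841, 0⟩, ⟨[0,0,0,0,0,30,0,42,0],
  34416, 0⟩, ⟨[0,0,0,0,0,0,85,0,155], 59925, 0⟩]

theorem lk30 : chkTr lowT (leafLow 2 lowB) lt30 lc30 = true := by decide +kernel

def lt31 : Tr ℕ := (.bis 5 7 1 1 340 (.bis 1 7 1 1 306 (.bis 4 7 1 1 247 (.bis 3 7 1 1 187 (.bis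
  6 7 1 2 412 (.bis 2 7 1 1 130 (.bis 7 8 8 1 289 (.bis 0 8 8 1 293 (.bis 6 8 2 1 417 (.bis 2 8 4
  1 295 (.bis 5 8 4 1 343 (.bis 3 8 4 1 298 (.leaf 5) (.leaf 2)) (.leaf 5)) (.leaf 5)) (.leaf
  19)) (.bis 0 6 4 1 421 (.leaf 19) (.bis 0 5 2 1 353 (.leaf 5) (.bis 0 7 16 1 294 (.leaf 5)
  (.leaf 11))))) (.bis 0 7 1 1 68 (.bis 5 7 1 2 344 (.bis 1 7 1 2 311 (.bis 4 7 1 2 249 (.bis 6 7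
  1 4 413 (.bis 3 7 1 2 190 (.leaf 32) (.leaf 14)) (.leaf 14)) (.leaf 14)) (.leaf 14)) (.leaf
  14)) (.bis 0 6 4 1 421 (.leaf 14) (.bis 0 5 2 1 353 (.leaf 14) (.bis 0 8 16 1 294 (.leaf 14)
  (.bis 0 1 2 1 310 (.leaf 14) (.leaf 21))))))) (.bis 2 6 4 1 423 (.bis 0 8 8 1 293 (.bis 6 8 2 1
  417 (.bis 7 8 4 1 295 (.bis 5 8 4 1 343 (.bis 3 8 4 1 298 (.leaf 5) (.leaf 2)) (.leaf 5))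
  (.leaf 5)) (.leaf 19)) (.bis 0 6 4 1 421 (.leaf 19) (.bis 0 5 2 1 353 (.leaf 5) (.bis 0 1 2 1
  310 (.leaf 5) (.leaf 11))))) (.bis 0 8 8 1 293 (.bis 7 8 4 1 295 (.bis 2 8 8 1 296 (.bis 5 8 4
  1 343 (.bis 3 8 4 1 298 (.leaf 5) (.leaf 2)) (.leaf 5)) (.bis 2 5 2 1 355 (.leaf 5) (.leaf
  11))) (.bis 2 5 2 1 355 (.leaf 5) (.bis 1 2 1 2 313 (.leaf 11) (.leaf 5)))) (.bis 0 5 2 1 353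
  (.bis 2 5 2 1 355 (.leaf 5) (.bis 1 2 1 2 313 (.leaf 11) (.leaf 5))) (.bis 1 2 1 2 313 (.bis 2
  4 2 1 255 (.bis 0 4 2 1 254 (.leaf 5) (.leaf 11)) (.bis 2 3 2 1 239 (.bis 0 3 2 1 385 (.leaf 5)
  (.leaf 11)) (.leaf 11))) (.bis 0 1 2 1 310 (.leaf 5) (.leaf 11))))))) (.bis 0 6 2 1 422 (.bis 2
  6 2 1 424 (.bis 1 6 1 1 448 (.bis 3 6 1 1 427 (.bis 4 6 1 1 430 (.bis 6 8 4 1 402 (.bis 7 8 2 1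
  417 (.bis 5 8 4 1 343 (.bis 0 8 2 1 432 (.leaf 3) (.leaf 3)) (.leaf 9)) (.leaf 19)) (.leaf 79))
  (.bis 7 8 2 1 417 (.bis 5 8 4 1 343 (.bis 4 8 4 1 301 (.bis 0 8 2 1 432 (.leaf 3) (.leaf 3))
  (.leaf 5)) (.leaf 5)) (.leaf 19))) (.bis 7 8 2 1 417 (.bis 5 8 4 1 343 (.bis 3 8 4 1 298 (.bis
  4 8 4 1 301 (.leaf 5) (.leaf 5)) (.leaf 5)) (.leaf 5)) (.leaf 19))) (.bis 7 8 2 1 417 (.bis 5 8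
  4 1 343 (.bis 3 8 4 1 298 (.leaf 5) (.leaf 5)) (.leaf 5)) (.leaf 19))) (.bis 2 7 4 1 423 (.bis
  7 8 2 1 417 (.bis 5 8 4 1 343 (.bis 3 8 4 1 298 (.bis 4 8 4 1 301 (.leaf 5) (.leaf 5)) (.leaf
  5)) (.leaf 5)) (.leaf 19)) (.bis 2 8 8 1 296 (.bis 5 8 4 1 343 (.bis 3 8 4 1 298 (.leaf 5)
  (.leaf 5)) (.leaf 5)) (.bis 2 5 2 1 355 (.leaf 5) (.leaf 34))))) (.bis 2 7 4 1 423 (.bis 0 8 8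
  1 293 (.bis 7 8 2 1 417 (.bis 5 8 4 1 343 (.bis 3 8 4 1 298 (.leaf 5) (.leaf 5)) (.leaf 5))
  (.leaf 19)) (.bis 0 7 4 1 421 (.leaf 19) (.bis 0 5 2 1 353 (.leaf 5) (.bis 0 1 2 1 310 (.leaf
  5) (.leaf 21))))) (.bis 0 8 8 1 293 (.bis 2 8 8 1 296 (.bis 5 8 4 1 343 (.bis 3 8 4 1 298
  (.leaf 5) (.leaf 5)) (.leaf 5)) (.bis 2 5 2 1 355 (.leaf 5) (.leaf 34))) (.bis 0 5 2 1 353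
  (.bis 2 5 2 1 355 (.leaf 5) (.bis 2 6 4 1 425 (.leaf 5) (.leaf 11))) (.bis 2 6 4 1 425 (.bis 0
  1 2 1 310 (.leaf 5) (.leaf 21)) (.bis 1 2 1 2 313 (.bis 2 4 2 1 255 (.bis 0 4 2 1 254 (.leaf 5)
  (.leaf 11)) (.leaf 11)) (.bis 0 1 2 1 310 (.leaf 5) (.leaf 11))))))))) (.bis 0 6 2 1 422 (.bis
  2 6 2 1 424 (.bis 3 6 2 1 428 (.bis 1 6 1 1 448 (.bis 6 7 1 1 427 (.bis 5 8 4 1 343 (.bis 7 8 4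
  1 298 (.bis 4 8 4 1 301 (.leaf 5) (.leaf 5)) (.leaf 5)) (.leaf 5)) (.bis 4 6 1 1 430 (.bis 6 8
  4 1 402 (.bis 5 8 4 1 343 (.bis 0 8 2 1 432 (.bis 4 8 2 1 449 (.leaf 3) (.leaf 3)) (.leaf 3))
  (.leaf 9)) (.bis 5 6 1 1 411 (.leaf 8) (.leaf 9))) (.bis 5 8 4 1 343 (.bis 4 8 4 1 301 (.bis 0
  8 2 1 432 (.leaf 3) (.leaf 3)) (.leaf 5)) (.leaf 5)))) (.bis 5 8 4 1 343 (.bis 7 8 4 1 298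
  (.leaf 5) (.leaf 5)) (.leaf 5))) (.bis 0 3 1 4 429 (.bis 3 5 2 1 357 (.bis 5 8 4 1 343 (.bis 7
  8 4 1 298 (.leaf 5) (.leaf 5)) (.leaf 5)) (.bis 7 8 4 1 298 (.bis 1 3 1 2 316 (.bis 3 8 8 1 300
  (.leaf 5) (.leaf 6)) (.bis 4 8 4 1 301 (.leaf 5) (.leaf 5))) (.bis 1 3 1 2 316 (.leaf 6) (.leaf
  5)))) (.bis 5 8 4 1 343 (.bis 7 8 4 1 298 (.leaf 5) (.leaf 5)) (.leaf 5)))) (.bis 2 8 8 1 296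
  (.bis 0 3 1 4 429 (.bis 3 5 2 1 357 (.bis 5 8 4 1 343 (.bis 7 8 4 1 298 (.leaf 5) (.leaf 5))
  (.leaf 5)) (.bis 7 8 4 1 298 (.leaf 45) (.leaf 18))) (.bis 5 8 4 1 343 (.bis 7 8 4 1 298 (.leaf
  5) (.leaf 5)) (.leaf 5))) (.bis 0 3 1 4 429 (.leaf 18) (.bis 2 5 2 1 355 (.leaf 5) (.leaf
  34))))) (.bis 0 8 8 1 293 (.bis 2 8 8 1 296 (.bis 3 6 4 1 429 (.bis 5 8 4 1 343 (.leaf 5)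
  (.leaf 5)) (.bis 3 5 2 1 357 (.bis 5 8 4 1 343 (.bis 7 8 4 1 298 (.leaf 5) (.leaf 5)) (.leaf
  5)) (.bis 7 8 4 1 298 (.leaf 27) (.leaf 18)))) (.bis 3 6 4 1 429 (.bis 2 5 2 1 355 (.leaf 5)
  (.leaf 34)) (.leaf 18))) (.bis 0 3 1 1 213 (.bis 3 6 4 1 429 (.bis 2 5 2 1 355 (.leaf 5) (.leaf
  34)) (.leaf 18)) (.bis 0 5 2 1 353 (.bis 2 5 2 1 355 (.leaf 5) (.bis 2 6 4 1 425 (.leaf 5)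
  (.leaf 11))) (.bis 2 6 4 1 425 (.leaf 21) (.leaf 11))))))) (.bis 0 6 2 1 422 (.bis 2 6 2 1 424
  (.bis 3 6 2 1 428 (.bis 4 6 2 1 433 (.bis 1 6 1 1 448 (.bis 6 7 1 1 430 (.bis 5 8 4 1 343 (.bis
  7 8 4 1 301 (.bis 0 8 2 1 432 (.leaf 3) (.leaf 3)) (.leaf 13)) (.leaf 13)) (.bis 6 8 4 1 402
  (.bis 5 8 4 1 343 (.bis 0 8 2 1 432 (.bis 7 8 2 1 449 (.leaf 3) (.leaf 3)) (.leaf 3)) (.leaf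
  9)) (.bis 5 6 1 1 411 (.leaf 8) (.leaf 9)))) (.bis 1 4 2 1 450 (.bis 5 8 4 1 343 (.bis 7 8 4 1
  301 (.leaf 3) (.leaf 13)) (.leaf 13)) (.bis 5 8 4 1 343 (.bis 7 8 4 1 301 (.leaf 5) (.leaf 5))
  (.leaf 5)))) (.bis 1 4 1 2 319 (.bis 0 4 1 4 434 (.bis 4 8 8 1 304 (.bis 5 8 4 1 343 (.bis 7 8
  4 1 301 (.leaf 13) (.leaf 6)) (.leaf 6)) (.bis 4 5 2 1 358 (.leaf 6) (.leaf 22))) (.bis 5 8 4 1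
  343 (.bis 7 8 4 1 301 (.bis 0 8 2 1 432 (.leaf 13) (.leaf 6)) (.leaf 6)) (.leaf 6))) (.bis 1 6
  2 1 450 (.bis 5 8 4 1 343 (.bis 7 8 4 1 301 (.leaf 13) (.leaf 6)) (.leaf 6)) (.bis 5 8 4 1 343
  (.bis 7 8 4 1 301 (.leaf 5) (.leaf 5)) (.leaf 5))))) (.bis 1 4 1 2 319 (.bis 0 4 1 4 434 (.bis
  4 8 8 1 304 (.bis 3 5 2 1 357 (.bis 5 8 4 1 343 (.leaf 5) (.leaf 5)) (.bis 3 8 8 1 300 (.leaf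
  5) (.leaf 6))) (.leaf 22)) (.bis 0 3 1 4 429 (.bis 3 5 2 1 357 (.bis 5 8 4 1 343 (.bis 7 8 4 1
  301 (.leaf 5) (.leaf 5)) (.leaf 5)) (.bis 3 8 8 1 300 (.bis 7 8 4 1 301 (.leaf 5) (.leaf 5))
  (.leaf 6))) (.bis 5 8 4 1 343 (.bis 7 8 4 1 301 (.leaf 5) (.leaf 5)) (.leaf 5)))) (.bis 0 3 1 4
  429 (.bis 3 5 2 1 357 (.bis 5 8 4 1 343 (.bis 7 8 4 1 301 (.leaf 5) (.leaf 5)) (.leaf 5)) (.bis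
  1 3 1 2 316 (.bis 3 8 8 1 300 (.bis 7 8 4 1 301 (.leaf 5) (.leaf 5)) (.leaf 6)) (.bis 7 8 4 1
  301 (.leaf 5) (.leaf 5)))) (.bis 5 8 4 1 343 (.bis 7 8 4 1 301 (.leaf 5) (.leaf 5)) (.leaf
  5))))) (.bis 1 4 1 2 319 (.bis 0 4 1 4 434 (.bis 4 8 8 1 304 (.bis 2 8 8 1 296 (.bis 3 5 2 1
  357 (.bis 5 8 4 1 343 (.leaf 5) (.leaf 5)) (.bis 3 8 8 1 300 (.leaf 5) (.leaf 6))) (.leaf 6))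
  (.leaf 22)) (.bis 2 8 8 1 296 (.bis 0 3 1 4 429 (.bis 3 5 2 1 357 (.bis 5 8 4 1 343 (.leaf 5)
  (.leaf 5)) (.bis 3 8 8 1 300 (.leaf 5) (.leaf 6))) (.bis 5 8 4 1 343 (.leaf 5) (.leaf 5)))
  (.leaf 6))) (.bis 2 8 8 1 296 (.bis 0 3 1 4 429 (.bis 3 5 2 1 357 (.bis 5 8 4 1 343 (.leaf 5)
  (.leaf 5)) (.bis 1 3 1 2 316 (.bis 3 8 8 1 300 (.leaf 5) (.leaf 6)) (.bis 7 8 4 1 301 (.leaf 5)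
  (.leaf 5)))) (.bis 5 8 4 1 343 (.leaf 5) (.leaf 5))) (.bis 0 3 1 4 429 (.leaf 18) (.bis 2 5 2 1
  355 (.leaf 5) (.leaf 34)))))) (.bis 0 4 1 1 280 (.bis 1 4 1 2 319 (.bis 4 6 4 1 434 (.bis 2 8 8
  1 296 (.bis 3 6 4 1 429 (.bis 5 8 4 1 343 (.bis 7 8 4 1 301 (.leaf 5) (.leaf 5)) (.leaf 5))
  (.bis 3 5 2 1 357 (.bis 5 8 4 1 343 (.bis 7 8 4 1 301 (.leaf 5) (.leaf 5)) (.leaf 5)) (.bis 3 8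
  8 1 300 (.bis 7 8 4 1 301 (.leaf 5) (.leaf 5)) (.leaf 6)))) (.leaf 6)) (.bis 4 8 8 1 304 (.bis
  2 8 8 1 296 (.bis 3 5 2 1 357 (.bis 5 8 4 1 343 (.leaf 5) (.leaf 5)) (.bis 3 8 8 1 300 (.leaf
  5) (.leaf 6))) (.bis 3 5 2 1 357 (.leaf 6) (.leaf 6))) (.bis 4 5 2 1 358 (.leaf 6) (.leaf
  22)))) (.bis 2 8 8 1 296 (.bis 3 6 4 1 429 (.bis 5 8 4 1 343 (.bis 7 8 4 1 301 (.leaf 5) (.leaf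
  5)) (.leaf 5)) (.bis 3 5 2 1 357 (.bis 5 8 4 1 343 (.bis 7 8 4 1 301 (.leaf 5) (.leaf 5))
  (.leaf 5)) (.bis 1 3 1 2 316 (.bis 3 8 8 1 300 (.bis 7 8 4 1 301 (.leaf 5) (.leaf 5)) (.leaf
  6)) (.bis 7 8 4 1 301 (.leaf 5) (.leaf 5))))) (.leaf 44))) (.bis 0 8 8 1 293 (.bis 2 8 8 1 296
  (.bis 3 6 4 1 429 (.bis 5 8 4 1 343 (.leaf 5) (.leaf 5)) (.bis 3 5 2 1 357 (.bis 5 8 4 1 343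
  (.leaf 5) (.leaf 5)) (.bis 1 3 1 2 316 (.bis 3 8 8 1 300 (.leaf 5) (.leaf 6)) (.bis 7 8 4 1 301
  (.leaf 5) (.leaf 5))))) (.bis 3 6 4 1 429 (.leaf 34) (.leaf 18))) (.bis 0 3 1 1 213 (.leaf 44)
  (.bis 0 5 2 1 353 (.bis 2 5 2 1 355 (.leaf 5) (.leaf 34)) (.leaf 34))))))) (.bis 1 6 2 1 451
  (.bis 0 6 2 1 422 (.bis 2 6 2 1 424 (.bis 3 6 2 1 428 (.bis 4 6 2 1 433 (.bis 6 7 1 1 448 (.bis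
  4 7 1 2 450 (.bis 5 8 4 1 343 (.bis 0 8 2 1 432 (.bis 3 7 1 2 452 (.leaf 45) (.leaf 3)) (.bis 3
  7 1 2 452 (.leaf 19) (.leaf 3))) (.bis 3 7 1 2 452 (.leaf 19) (.leaf 9))) (.bis 5 8 4 1 343
  (.bis 0 8 2 1 432 (.leaf 3) (.leaf 3)) (.leaf 9))) (.bis 6 8 4 1 402 (.bis 5 8 4 1 343 (.bis 0
  8 2 1 432 (.leaf 3) (.leaf 3)) (.leaf 9)) (.bis 5 6 1 1 411 (.leaf 8) (.bis 5 8 8 1 410 (.leaf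
  3) (.leaf 9))))) (.bis 4 7 2 1 319 (.bis 6 7 1 2 450 (.bis 5 8 4 1 343 (.bis 0 8 2 1 432 (.leaf
  45) (.bis 3 7 1 2 452 (.leaf 19) (.leaf 6))) (.leaf 19)) (.bis 5 8 4 1 343 (.bis 0 8 2 1 432
  (.leaf 13) (.leaf 6)) (.leaf 6))) (.bis 0 4 1 4 434 (.bis 4 8 8 1 304 (.bis 5 8 4 1 343 (.leaf
  13) (.leaf 6)) (.bis 4 5 2 1 358 (.leaf 6) (.leaf 7))) (.bis 5 8 4 1 343 (.bis 0 8 2 1 432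
  (.leaf 13) (.leaf 6)) (.leaf 6))))) (.bis 4 7 2 1 319 (.bis 0 3 1 4 429 (.bis 3 5 2 1 357 (.bis
  5 8 4 1 343 (.leaf 45) (.leaf 19)) (.bis 3 7 2 1 316 (.leaf 45) (.bis 3 8 8 1 300 (.leaf 13)
  (.leaf 6)))) (.bis 5 8 4 1 343 (.bis 0 8 2 1 432 (.bis 6 7 1 2 452 (.leaf 45) (.leaf 13)) (.bis
  6 7 1 2 452 (.leaf 19) (.leaf 6))) (.bis 6 7 1 2 452 (.leaf 19) (.leaf 6)))) (.bis 0 4 1 4 434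
  (.bis 4 8 8 1 304 (.bis 3 5 2 1 357 (.bis 5 8 4 1 343 (.leaf 13) (.leaf 6)) (.leaf 13)) (.bis 4
  5 2 1 358 (.leaf 6) (.leaf 7))) (.bis 0 3 1 4 429 (.bis 3 5 2 1 357 (.bis 5 8 4 1 343 (.leaf
  13) (.leaf 6)) (.bis 3 8 8 1 300 (.leaf 13) (.leaf 6))) (.bis 5 8 4 1 343 (.bis 0 8 2 1 432
  (.leaf 13) (.leaf 6)) (.leaf 6)))))) (.bis 4 7 2 1 319 (.bis 2 8 8 1 296 (.bis 0 3 1 4 429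
  (.leaf 45) (.leaf 45)) (.leaf 44)) (.bis 0 4 1 4 434 (.bis 4 8 8 1 304 (.bis 2 8 8 1 296 (.bis
  3 5 2 1 357 (.leaf 13) (.leaf 13)) (.bis 3 5 2 1 357 (.bis 2 5 2 1 355 (.leaf 6) (.leaf 6))
  (.leaf 6))) (.bis 4 5 2 1 358 (.bis 3 5 2 1 357 (.bis 2 5 2 1 355 (.leaf 6) (.bis 1 2 1 4 453
  (.leaf 6) (.leaf 6))) (.bis 1 2 1 4 453 (.leaf 6) (.leaf 6))) (.bis 4 6 4 1 447 (.bis 1 2 1 4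
  453 (.leaf 6) (.leaf 6)) (.bis 1 2 1 4 453 (.leaf 7) (.leaf 7))))) (.bis 2 8 8 1 296 (.bis 0 3
  1 4 429 (.bis 3 5 2 1 357 (.bis 5 8 4 1 343 (.leaf 13) (.leaf 6)) (.leaf 13)) (.bis 5 8 4 1 343
  (.leaf 13) (.leaf 6))) (.leaf 6))))) (.bis 0 4 1 1 280 (.bis 4 7 2 1 319 (.bis 2 8 8 1 296
  (.leaf 45) (.leaf 44)) (.bis 4 6 4 1 434 (.bis 2 8 8 1 296 (.bis 3 6 4 1 429 (.bis 5 8 4 1 343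
  (.leaf 13) (.leaf 6)) (.bis 3 5 2 1 357 (.bis 5 8 4 1 343 (.leaf 13) (.leaf 6)) (.bis 3 8 8 1
  300 (.leaf 13) (.leaf 6)))) (.bis 3 6 4 1 429 (.bis 2 5 2 1 355 (.leaf 6) (.leaf 6)) (.bis 3 5
  2 1 357 (.leaf 6) (.leaf 6)))) (.bis 4 8 8 1 304 (.bis 2 8 8 1 296 (.bis 3 5 2 1 357 (.leaf 13)
  (.leaf 13)) (.bis 3 5 2 1 357 (.leaf 6) (.leaf 6))) (.bis 4 5 2 1 358 (.bis 3 5 2 1 357 (.bis 2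
  5 2 1 355 (.leaf 6) (.leaf 6)) (.leaf 6)) (.bis 1 2 1 4 453 (.leaf 7) (.leaf 7)))))) (.bis 0 8
  8 1 293 (.bis 2 8 8 1 296 (.bis 3 6 4 1 429 (.leaf 45) (.bis 3 5 2 1 357 (.leaf 27) (.leaf
  27))) (.leaf 44)) (.bis 0 1 4 1 454 (.bis 3 6 4 1 429 (.bis 2 5 2 1 355 (.leaf 19) (.leaf 44))
  (.bis 3 5 2 1 357 (.bis 2 5 2 1 355 (.leaf 19) (.leaf 36)) (.leaf 36))) (.bis 0 3 1 1 213 (.bis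
  3 6 4 1 429 (.leaf 34) (.bis 3 5 2 1 357 (.leaf 18) (.bis 3 7 2 1 316 (.leaf 11) (.leaf 6))))
  (.leaf 34)))))) (.bis 0 1 1 1 333 (.bis 1 5 2 1 387 (.bis 4 7 2 1 319 (.bis 2 8 8 1 296 (.bis 3
  5 2 1 357 (.leaf 27) (.leaf 27)) (.bis 3 5 2 1 357 (.leaf 44) (.leaf 36))) (.bis 4 8 8 1 304
  (.bis 2 8 8 1 296 (.bis 3 5 2 1 357 (.bis 5 8 4 1 343 (.leaf 13) (.leaf 6)) (.leaf 13)) (.bis 3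
  5 2 1 357 (.bis 2 5 2 1 355 (.leaf 6) (.leaf 6)) (.leaf 6))) (.bis 4 5 2 1 358 (.bis 3 5 2 1
  357 (.bis 2 5 2 1 355 (.leaf 6) (.leaf 6)) (.leaf 6)) (.leaf 40)))) (.bis 4 7 2 1 319 (.bis 1 2
  1 1 337 (.bis 2 8 8 1 296 (.leaf 27) (.leaf 36)) (.bis 1 7 2 1 335 (.bis 3 7 2 1 316 (.leaf 27)
  (.bis 3 8 8 1 300 (.leaf 13) (.leaf 13))) (.bis 3 8 8 1 300 (.leaf 31) (.leaf 31)))) (.bis 4 8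
  8 1 304 (.bis 1 2 1 1 337 (.bis 2 8 8 1 296 (.leaf 13) (.leaf 6)) (.leaf 31)) (.bis 1 4 1 1 338
  (.bis 2 6 4 1 453 (.leaf 40) (.leaf 22)) (.bis 1 2 1 1 337 (.leaf 36) (.leaf 31)))))) (.bis 0 4
  1 1 280 (.bis 4 7 2 1 319 (.bis 2 8 8 1 296 (.bis 3 5 2 1 357 (.leaf 27) (.bis 3 7 2 1 316
  (.leaf 27) (.bis 3 8 8 1 300 (.leaf 13) (.leaf 6)))) (.bis 3 5 2 1 357 (.leaf 44) (.leaf 36)))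
  (.bis 4 8 8 1 304 (.bis 2 8 8 1 296 (.bis 3 5 2 1 357 (.bis 5 8 4 1 343 (.leaf 13) (.leaf 6))
  (.leaf 13)) (.bis 3 5 2 1 357 (.bis 2 5 2 1 355 (.leaf 6) (.leaf 6)) (.leaf 6))) (.bis 4 5 2 1
  358 (.bis 3 5 2 1 357 (.bis 2 5 2 1 355 (.leaf 6) (.leaf 6)) (.leaf 6)) (.leaf 40)))) (.bis 0 8
  8 1 293 (.bis 2 8 8 1 296 (.bis 3 5 2 1 357 (.leaf 27) (.leaf 27)) (.bis 3 5 2 1 357 (.leaf 44)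
  (.leaf 36))) (.bis 0 6 4 1 454 (.bis 3 5 2 1 357 (.leaf 44) (.leaf 36)) (.bis 0 3 1 1 213 (.bis
  3 5 2 1 357 (.bis 2 5 2 1 355 (.leaf 18) (.leaf 11)) (.leaf 18)) (.bis 0 5 2 1 353 (.bis 2 5 2
  1 355 (.leaf 18) (.leaf 11)) (.leaf 11))))))))) (.bis 1 6 2 1 451 (.bis 0 5 1 1 376 (.bis 2 6 2
  1 424 (.bis 3 6 2 1 428 (.bis 4 6 2 1 433 (.bis 5 6 2 1 439 (.bis 0 6 1 1 440 (.bis 6 8 4 1 402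
  (.bis 5 8 2 1 441 (.bis 7 8 4 1 343 (.bis 0 8 2 1 442 (.leaf 3) (.leaf 3)) (.bis 6 7 1 8 410
  (.leaf 9) (.leaf 3))) (.bis 6 7 1 8 410 (.bis 1 7 1 2 455 (.leaf 33) (.leaf 3)) (.leaf 3)))
  (.bis 6 7 1 1 411 (.bis 7 8 8 1 410 (.leaf 3) (.leaf 33)) (.leaf 8))) (.bis 5 8 2 1 441 (.bis 0
  8 4 1 383 (.bis 7 8 4 1 343 (.leaf 3) (.leaf 9)) (.leaf 13)) (.bis 1 7 1 2 455 (.leaf 33)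
  (.leaf 3)))) (.bis 5 8 8 1 378 (.bis 6 8 2 1 441 (.bis 0 8 4 1 383 (.bis 7 8 4 1 343 (.leaf 3)
  (.leaf 9)) (.leaf 13)) (.leaf 33)) (.bis 2 5 1 4 443 (.bis 1 5 1 4 456 (.bis 5 7 2 1 380 (.leaf
  33) (.bis 3 5 1 4 444 (.leaf 15) (.leaf 3))) (.bis 1 7 1 2 455 (.leaf 33) (.leaf 3))) (.leaf
  33)))) (.bis 5 8 8 1 378 (.bis 4 8 8 1 304 (.bis 0 8 4 1 383 (.bis 7 8 4 1 343 (.leaf 3) (.leaf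
  9)) (.leaf 13)) (.bis 4 7 2 1 358 (.leaf 13) (.bis 2 4 1 4 447 (.leaf 7) (.leaf 3)))) (.bis 2 5
  1 4 443 (.bis 1 5 1 4 456 (.bis 5 7 2 1 380 (.bis 4 7 2 1 358 (.leaf 20) (.bis 3 4 1 4 446
  (.leaf 33) (.leaf 3))) (.bis 3 5 1 4 444 (.bis 4 5 1 1 393 (.leaf 15) (.bis 4 7 4 1 457 (.leaf
  15) (.leaf 7))) (.bis 3 4 1 4 446 (.bis 4 7 4 1 457 (.leaf 3) (.leaf 7)) (.leaf 3)))) (.bis 4 7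
  2 1 358 (.leaf 20) (.bis 1 4 1 4 458 (.leaf 7) (.leaf 3)))) (.bis 4 7 2 1 358 (.leaf 13) (.bis
  2 4 1 4 447 (.bis 1 4 1 4 458 (.leaf 7) (.leaf 3)) (.leaf 3)))))) (.bis 5 8 8 1 378 (.bis 4 8 8
  1 304 (.bis 3 7 2 1 357 (.bis 0 8 4 1 383 (.leaf 9) (.leaf 13)) (.leaf 13)) (.bis 4 7 2 1 358
  (.bis 3 7 2 1 357 (.leaf 13) (.leaf 7)) (.leaf 7))) (.bis 3 5 1 1 379 (.bis 2 5 1 4 443 (.bis 1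
  5 1 4 456 (.bis 5 7 2 1 380 (.bis 4 7 2 1 358 (.leaf 20) (.bis 4 6 4 1 446 (.leaf 3) (.leaf
  33))) (.bis 5 6 4 1 444 (.bis 4 6 4 1 446 (.leaf 3) (.leaf 33)) (.bis 4 5 1 1 393 (.leaf 15)
  (.bis 4 7 4 1 457 (.leaf 15) (.leaf 7))))) (.bis 4 7 2 1 358 (.leaf 20) (.bis 1 4 1 4 458
  (.leaf 7) (.leaf 3)))) (.bis 4 7 2 1 358 (.leaf 20) (.bis 2 4 1 4 447 (.leaf 7) (.leaf 3))))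
  (.bis 4 7 2 1 358 (.bis 3 7 2 1 357 (.leaf 20) (.leaf 7)) (.leaf 7))))) (.bis 2 5 1 1 377 (.bis
  5 8 8 1 378 (.bis 4 8 8 1 304 (.bis 3 7 2 1 357 (.bis 2 8 4 1 382 (.leaf 13) (.leaf 13)) (.bis
  2 8 4 1 382 (.leaf 13) (.leaf 7))) (.bis 4 7 2 1 358 (.bis 3 7 2 1 357 (.leaf 13) (.leaf 7))
  (.leaf 7))) (.bis 3 5 1 1 379 (.bis 5 6 4 1 443 (.bis 4 7 2 1 358 (.leaf 20) (.leaf 7)) (.bis 1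
  5 1 4 456 (.bis 5 7 2 1 380 (.bis 4 7 2 1 358 (.leaf 20) (.leaf 33)) (.bis 4 5 1 1 393 (.leaf
  15) (.leaf 33))) (.bis 4 7 2 1 358 (.leaf 20) (.leaf 7)))) (.bis 4 7 2 1 358 (.bis 3 7 2 1 357
  (.leaf 20) (.leaf 7)) (.leaf 7)))) (.bis 4 8 8 1 304 (.bis 2 8 8 1 296 (.bis 3 7 2 1 357 (.bis
  5 8 4 1 382 (.leaf 13) (.leaf 6)) (.bis 5 8 4 1 382 (.leaf 13) (.leaf 6))) (.bis 3 7 2 1 357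
  (.leaf 6) (.leaf 6))) (.bis 4 7 2 1 358 (.bis 3 7 2 1 357 (.bis 2 7 2 1 355 (.leaf 6) (.leaf
  6)) (.leaf 6)) (.leaf 7))))) (.bis 0 6 2 1 422 (.bis 2 6 2 1 424 (.bis 3 6 2 1 428 (.bis 4 6 2
  1 433 (.bis 5 6 1 1 440 (.bis 6 8 4 1 402 (.bis 7 8 4 1 343 (.bis 0 8 2 1 432 (.leaf 3) (.leaf
  3)) (.leaf 9)) (.bis 6 7 1 1 411 (.bis 7 8 8 1 410 (.leaf 3) (.leaf 9)) (.leaf 8))) (.bis 5 8 4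
  1 383 (.bis 7 8 4 1 343 (.bis 0 8 2 1 432 (.leaf 3) (.leaf 3)) (.leaf 9)) (.leaf 13))) (.bis 0
  4 1 4 434 (.bis 4 8 8 1 304 (.bis 5 8 4 1 383 (.bis 7 8 4 1 343 (.leaf 3) (.leaf 6)) (.leaf 6))
  (.bis 4 7 2 1 358 (.leaf 6) (.bis 2 4 1 4 447 (.leaf 7) (.leaf 3)))) (.bis 5 8 4 1 383 (.bis 7
  8 4 1 343 (.bis 0 8 2 1 432 (.leaf 3) (.leaf 3)) (.leaf 6)) (.leaf 6)))) (.bis 0 4 1 4 434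
  (.bis 4 8 8 1 304 (.bis 3 7 2 1 357 (.bis 5 8 4 1 383 (.leaf 9) (.leaf 6)) (.bis 5 8 4 1 383
  (.leaf 13) (.leaf 6))) (.bis 4 7 2 1 358 (.bis 3 7 2 1 357 (.leaf 6) (.leaf 6)) (.leaf 7)))
  (.bis 0 3 1 4 429 (.bis 3 7 2 1 357 (.bis 5 8 4 1 383 (.bis 7 8 4 1 343 (.leaf 3) (.leaf 6))
  (.leaf 6)) (.bis 5 8 4 1 383 (.bis 3 8 8 1 300 (.leaf 3) (.leaf 6)) (.leaf 6))) (.bis 5 8 4 1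
  383 (.bis 7 8 4 1 343 (.leaf 3) (.leaf 6)) (.leaf 6))))) (.bis 0 4 1 4 434 (.bis 4 8 8 1 304
  (.bis 2 8 8 1 296 (.bis 3 7 2 1 357 (.leaf 13) (.leaf 13)) (.bis 3 7 2 1 357 (.bis 2 7 2 1 355
  (.leaf 6) (.leaf 6)) (.leaf 6))) (.bis 4 7 2 1 358 (.bis 3 7 2 1 357 (.bis 2 7 2 1 355 (.leaf
  6) (.bis 1 2 1 4 453 (.leaf 6) (.leaf 6))) (.bis 1 2 1 4 453 (.leaf 6) (.leaf 6))) (.bis 4 6 4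
  1 447 (.bis 1 2 1 4 453 (.leaf 6) (.leaf 6)) (.bis 1 2 1 4 453 (.leaf 7) (.leaf 7))))) (.bis 2
  8 8 1 296 (.bis 0 3 1 4 429 (.bis 3 7 2 1 357 (.bis 5 8 4 1 383 (.leaf 9) (.leaf 6)) (.bis 5 8
  4 1 383 (.leaf 13) (.leaf 6))) (.bis 5 8 4 1 383 (.leaf 9) (.leaf 6))) (.bis 0 3 1 4 429 (.bis
  3 7 2 1 357 (.bis 2 7 2 1 355 (.leaf 6) (.leaf 6)) (.leaf 6)) (.bis 2 7 2 1 355 (.leaf 6)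
  (.leaf 6)))))) (.bis 0 4 1 1 280 (.bis 4 6 4 1 434 (.bis 2 8 8 1 296 (.bis 3 6 4 1 429 (.bis 5
  8 4 1 383 (.leaf 13) (.leaf 6)) (.bis 3 7 2 1 357 (.bis 5 8 4 1 383 (.leaf 13) (.leaf 6)) (.bis
  5 8 4 1 383 (.leaf 13) (.leaf 6)))) (.leaf 6)) (.bis 4 8 8 1 304 (.bis 2 8 8 1 296 (.bis 3 7 2
  1 357 (.bis 5 8 4 1 383 (.leaf 13) (.leaf 6)) (.bis 5 8 4 1 383 (.leaf 13) (.leaf 6))) (.bis 3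
  7 2 1 357 (.leaf 6) (.leaf 6))) (.bis 4 7 2 1 358 (.bis 3 7 2 1 357 (.bis 2 7 2 1 355 (.leaf 6)
  (.leaf 6)) (.leaf 6)) (.bis 1 2 1 4 453 (.leaf 7) (.leaf 7))))) (.bis 0 8 8 1 293 (.bis 2 8 8 1
  296 (.bis 3 6 4 1 429 (.bis 5 8 4 1 383 (.leaf 13) (.leaf 6)) (.bis 3 7 2 1 357 (.bis 5 8 4 1
  383 (.leaf 13) (.leaf 6)) (.bis 5 8 4 1 383 (.leaf 13) (.leaf 6)))) (.bis 3 6 4 1 429 (.leaf 6)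
  (.bis 3 7 2 1 357 (.leaf 6) (.leaf 6)))) (.bis 0 1 4 1 454 (.bis 3 6 4 1 429 (.bis 2 7 2 1 355
  (.leaf 6) (.leaf 6)) (.bis 3 7 2 1 357 (.leaf 6) (.leaf 6))) (.bis 0 3 1 1 213 (.bis 3 6 4 1
  429 (.leaf 6) (.bis 3 7 2 1 357 (.leaf 6) (.leaf 6))) (.bis 0 7 2 1 353 (.bis 2 7 2 1 355
  (.leaf 6) (.leaf 6)) (.leaf 34)))))))) (.bis 0 5 1 1 376 (.bis 1 5 1 1 392 (.bis 2 5 1 1 377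
  (.bis 5 8 8 1 378 (.bis 4 8 8 1 304 (.bis 3 7 2 1 357 (.bis 2 8 4 1 382 (.leaf 20) (.leaf 20))
  (.bis 2 8 4 1 382 (.leaf 27) (.leaf 7))) (.bis 4 7 2 1 358 (.bis 3 7 2 1 357 (.leaf 20) (.leaf
  7)) (.leaf 7))) (.bis 3 5 1 1 379 (.bis 5 6 4 1 456 (.bis 4 7 2 1 358 (.bis 1 7 1 1 459 (.leaf
  20) (.leaf 7)) (.leaf 7)) (.bis 5 7 2 1 380 (.bis 4 7 2 1 358 (.leaf 20) (.leaf 33)) (.bis 4 5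
  1 1 393 (.leaf 15) (.leaf 33)))) (.bis 4 7 2 1 358 (.bis 3 7 2 1 357 (.leaf 20) (.leaf 7))
  (.leaf 7)))) (.bis 4 8 8 1 304 (.bis 2 8 8 1 296 (.bis 3 7 2 1 357 (.bis 5 8 4 1 382 (.bis 0 8
  4 1 383 (.bis 7 8 4 1 343 (.leaf 20) (.leaf 20)) (.leaf 20)) (.leaf 20)) (.bis 5 8 4 1 382
  (.leaf 27) (.leaf 7))) (.bis 3 7 2 1 357 (.bis 2 7 2 1 355 (.leaf 20) (.leaf 7)) (.leaf 7)))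
  (.bis 4 7 2 1 358 (.bis 3 7 2 1 357 (.bis 2 7 2 1 355 (.leaf 20) (.bis 1 2 1 2 394 (.leaf 6)
  (.leaf 7))) (.bis 1 2 1 2 394 (.leaf 6) (.leaf 7))) (.bis 1 2 1 2 394 (.leaf 7) (.leaf 7)))))
  (.bis 1 7 2 1 387 (.bis 4 8 8 1 304 (.bis 2 8 8 1 296 (.bis 3 7 2 1 357 (.leaf 20) (.leaf 27))
  (.bis 3 7 2 1 357 (.bis 2 7 2 1 355 (.leaf 20) (.leaf 7)) (.leaf 7))) (.bis 4 7 2 1 358 (.bis 3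
  7 2 1 357 (.bis 2 7 2 1 355 (.leaf 20) (.bis 2 5 2 1 394 (.leaf 7) (.leaf 6))) (.bis 2 5 2 1
  394 (.leaf 7) (.leaf 6))) (.bis 2 5 2 1 394 (.leaf 7) (.leaf 7)))) (.bis 0 1 1 2 395 (.bis 4 8
  8 1 304 (.bis 1 2 1 1 337 (.bis 2 8 8 1 296 (.leaf 27) (.leaf 7)) (.bis 3 8 8 1 300 (.leaf 31)
  (.leaf 31))) (.bis 1 4 1 1 338 (.bis 2 5 2 1 394 (.leaf 7) (.bis 2 6 4 1 453 (.leaf 7) (.leaf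
  7))) (.bis 1 2 1 1 337 (.bis 2 5 2 1 394 (.leaf 7) (.leaf 7)) (.leaf 31)))) (.bis 4 8 8 1 304
  (.bis 2 8 8 1 296 (.leaf 27) (.leaf 7)) (.bis 2 5 2 1 394 (.leaf 7) (.leaf 7)))))) (.bis 0 1 1
  1 333 (.bis 1 7 2 1 387 (.bis 4 8 8 1 304 (.bis 2 8 8 1 296 (.bis 3 7 2 1 357 (.leaf 13) (.leaf
  13)) (.bis 3 7 2 1 357 (.leaf 6) (.leaf 6))) (.bis 4 7 2 1 358 (.bis 3 7 2 1 357 (.bis 2 7 2 1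
  355 (.leaf 6) (.leaf 6)) (.leaf 6)) (.leaf 40))) (.bis 1 5 2 1 395 (.bis 4 8 8 1 304 (.bis 2 8
  8 1 296 (.leaf 13) (.leaf 6)) (.leaf 40)) (.bis 4 8 8 1 304 (.bis 1 2 1 1 337 (.bis 2 8 8 1 296
  (.leaf 13) (.leaf 6)) (.bis 3 8 8 1 300 (.leaf 31) (.leaf 31))) (.bis 1 4 1 1 338 (.bis 2 6 4 1
  453 (.leaf 40) (.leaf 22)) (.bis 1 2 1 1 337 (.leaf 36) (.leaf 31)))))) (.bis 0 4 1 1 280 (.bis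
  4 8 8 1 304 (.bis 2 8 8 1 296 (.bis 3 7 2 1 357 (.leaf 13) (.leaf 13)) (.bis 3 7 2 1 357 (.bis
  2 7 2 1 355 (.leaf 6) (.leaf 6)) (.leaf 6))) (.bis 4 7 2 1 358 (.bis 3 7 2 1 357 (.bis 2 7 2 1
  355 (.leaf 6) (.leaf 6)) (.leaf 6)) (.leaf 40))) (.bis 0 8 8 1 293 (.bis 2 8 8 1 296 (.bis 3 7
  2 1 357 (.bis 5 8 4 1 383 (.bis 7 8 4 1 343 (.leaf 13) (.leaf 6)) (.leaf 6)) (.bis 5 8 4 1 383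
  (.leaf 13) (.leaf 6))) (.bis 3 7 2 1 357 (.leaf 6) (.leaf 6))) (.bis 0 6 4 1 454 (.bis 3 7 2 1
  357 (.leaf 6) (.leaf 6)) (.bis 0 3 1 1 213 (.bis 3 7 2 1 357 (.bis 2 7 2 1 355 (.leaf 6) (.leaf
  6)) (.leaf 6)) (.bis 0 7 2 1 353 (.bis 2 7 2 1 355 (.leaf 6) (.leaf 6)) (.leaf 34))))))))))

def lc31 : List Vr := [⟨[24,0,0,0,0,0,0,0,0], 6912, 0⟩, ⟨[0,28,0,0,0,0,0,0,0], 7056, 0⟩, ⟨[0,0,17,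
  0,0,0,0,0,0], 6936, 0⟩, ⟨[0,0,0,13,0,0,0,0,0], 6760, 0⟩, ⟨[0,0,0,0,19,0,0,0,0], 7581, 0⟩, ⟨[0,0,
  0,0,0,30,0,0,0], 7200, 0⟩, ⟨[0,0,0,0,0,0,85,42,0], 42841, 0⟩, ⟨[0,0,0,0,0,0,0,42,0], 7056, 0⟩,
  ⟨[0,112,0,0,0,0,85,0,155], 406901, 0⟩]

theorem lk31 : chkTr lowT (leafLow 2 lowB) lt31 lc31 = true := by decide +kernel

end Pool.Agent.Helper10.Fam.E7
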