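import Pool.Agent.Helper10.FamD.E7LowT

set_option autoImplicit false
set_option maxRecDepth 1000000

/-!
# Certificate data for `U ⊕ E7` (lower bound, subtrees)
-/

namespace Pool.Agent.Helper10.Fam.E7

open Pool.Agent.Helper10.Fam

def lt32 : Tr ℕ := (.bis 5 8 4 1 359 (.bis 4 8 2 1 214 (.bis 3 8 4 1 159 (.bis 1 8 1 1 464 (.bis
  2 8 1 1 465 (.bis 0 8 1 1 466 (.bis 7 8 1 1 398 (.bis 6 8 1 2 467 (.bis 5 8 1 2 361 (.bis 3 8 1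
  2 171 (.bis 6 8 1 4 468 (.leaf 37) (.leaf 53)) (.bis 3 6 2 1 469 (.leaf 53) (.leaf 24))) (.bis
  3 6 2 1 469 (.leaf 53) (.leaf 24))) (.bis 3 6 1 1 470 (.leaf 53) (.bis 3 8 2 1 469 (.leaf 53)
  (.leaf 30)))) (.bis 3 6 1 1 470 (.leaf 53) (.bis 4 7 1 2 405 (.bis 3 7 1 4 406 (.leaf 30)
  (.leaf 30)) (.leaf 30)))) (.bis 3 6 1 1 470 (.bis 4 6 2 1 471 (.bis 5 6 1 1 472 (.bis 0 8 2 1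
  473 (.leaf 41) (.leaf 41)) (.bis 0 5 4 1 474 (.leaf 17) (.leaf 30))) (.bis 0 4 2 1 475 (.leaf
  17) (.bis 0 5 4 1 474 (.leaf 17) (.leaf 30)))) (.bis 0 4 2 1 475 (.leaf 17) (.bis 0 3 4 1 476
  (.leaf 17) (.leaf 30))))) (.bis 3 6 1 1 470 (.bis 4 6 2 1 471 (.bis 5 6 1 1 472 (.leaf 41)
  (.leaf 41)) (.bis 2 4 2 1 477 (.bis 0 4 2 1 475 (.leaf 17) (.leaf 30)) (.leaf 41))) (.bis 2 4 2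
  1 477 (.bis 0 4 2 1 475 (.leaf 17) (.bis 0 3 4 1 476 (.leaf 17) (.leaf 30))) (.bis 2 3 4 1 478
  (.bis 0 3 4 1 476 (.leaf 17) (.leaf 30)) (.leaf 41))))) (.bis 3 6 1 1 470 (.bis 1 4 2 1 479
  (.bis 4 6 2 1 471 (.bis 5 6 1 1 472 (.leaf 41) (.leaf 8)) (.bis 2 4 2 1 477 (.leaf 30) (.leaf
  8))) (.bis 5 6 1 1 472 (.leaf 60) (.bis 1 5 4 1 480 (.leaf 8) (.leaf 8)))) (.bis 1 4 2 1 479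
  (.bis 2 4 2 1 477 (.leaf 30) (.bis 2 3 4 1 478 (.bis 0 3 4 1 476 (.leaf 17) (.leaf 8)) (.leaf
  8))) (.bis 1 3 4 1 481 (.bis 2 3 4 1 478 (.bis 0 3 4 1 476 (.leaf 17) (.leaf 8)) (.leaf 8))
  (.bis 1 5 4 1 480 (.leaf 8) (.leaf 8)))))) (.bis 3 6 8 1 482 (.bis 6 8 1 1 470 (.bis 1 4 2 1
  479 (.bis 2 4 2 1 477 (.leaf 30) (.bis 2 8 4 1 478 (.bis 0 8 4 1 476 (.leaf 17) (.leaf 8))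
  (.bis 2 5 4 1 483 (.leaf 8) (.leaf 8)))) (.bis 1 8 4 1 481 (.bis 2 8 4 1 478 (.bis 0 8 4 1 476
  (.leaf 17) (.leaf 8)) (.bis 2 5 4 1 483 (.leaf 8) (.leaf 8))) (.bis 1 5 4 1 480 (.bis 2 5 4 1
  483 (.leaf 8) (.leaf 8)) (.leaf 8)))) (.bis 1 4 2 1 479 (.bis 4 6 2 1 471 (.bis 5 6 1 1 472
  (.leaf 41) (.leaf 8)) (.bis 2 4 2 1 477 (.leaf 30) (.leaf 8))) (.bis 5 6 1 1 472 (.leaf 60)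
  (.bis 1 5 4 1 480 (.leaf 8) (.leaf 8))))) (.bis 3 7 2 1 428 (.bis 1 4 2 1 479 (.bis 2 4 2 1 477
  (.leaf 30) (.bis 2 8 4 1 478 (.bis 0 8 4 1 476 (.leaf 17) (.leaf 8)) (.bis 2 5 4 1 483 (.leaf
  8) (.leaf 8)))) (.bis 1 8 4 1 481 (.bis 2 8 4 1 478 (.bis 0 8 4 1 476 (.leaf 17) (.bis 0 5 4 1
  474 (.leaf 8) (.leaf 8))) (.bis 2 5 4 1 483 (.leaf 8) (.leaf 8))) (.bis 1 5 4 1 480 (.bis 2 5 4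
  1 483 (.leaf 8) (.leaf 8)) (.leaf 8)))) (.bis 0 3 1 2 484 (.bis 1 4 2 1 479 (.bis 2 3 1 2 485
  (.bis 3 4 4 1 244 (.leaf 17) (.bis 3 5 8 1 366 (.leaf 3) (.bis 1 3 1 8 486 (.bis 3 6 16 1 487
  (.leaf 3) (.leaf 25)) (.leaf 3)))) (.bis 2 4 2 1 477 (.leaf 17) (.bis 2 8 4 1 478 (.leaf 3)
  (.bis 2 5 4 1 483 (.leaf 3) (.leaf 8))))) (.bis 1 3 1 2 488 (.bis 2 3 1 2 485 (.bis 3 5 8 1 366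
  (.leaf 3) (.bis 3 4 8 1 486 (.leaf 3) (.bis 3 6 16 1 487 (.leaf 3) (.leaf 25)))) (.bis 2 8 4 1
  478 (.leaf 3) (.bis 2 5 4 1 483 (.bis 1 5 2 1 489 (.leaf 3) (.leaf 3)) (.leaf 8)))) (.bis 1 8 4
  1 481 (.bis 2 8 4 1 478 (.leaf 3) (.bis 2 5 4 1 483 (.leaf 3) (.leaf 8))) (.bis 1 5 4 1 480
  (.bis 2 5 4 1 483 (.leaf 3) (.leaf 8)) (.leaf 8))))) (.bis 1 4 2 1 479 (.bis 2 4 2 1 477 (.leaf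
  30) (.bis 2 8 4 1 478 (.leaf 30) (.bis 2 5 4 1 483 (.leaf 8) (.leaf 8)))) (.bis 1 8 4 1 481
  (.bis 2 8 4 1 478 (.leaf 30) (.bis 2 5 4 1 483 (.leaf 8) (.leaf 8))) (.bis 1 5 4 1 480 (.bis 2
  5 4 1 483 (.leaf 8) (.leaf 8)) (.leaf 8)))))))) (.bis 3 6 8 1 482 (.bis 4 6 8 1 490 (.bis 1 8 2
  1 479 (.bis 6 8 1 2 471 (.bis 2 8 2 1 477 (.bis 0 8 2 1 475 (.leaf 17) (.leaf 8)) (.leaf 8))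
  (.bis 5 6 1 1 472 (.leaf 41) (.leaf 8))) (.bis 5 6 1 1 472 (.bis 3 6 1 2 491 (.leaf 60) (.leaf
  8)) (.bis 1 5 4 1 480 (.bis 2 5 4 1 483 (.leaf 8) (.leaf 8)) (.leaf 8)))) (.bis 4 7 2 1 433
  (.bis 1 8 2 1 479 (.bis 2 8 2 1 477 (.bis 0 8 2 1 475 (.leaf 17) (.leaf 8)) (.bis 2 5 4 1 483
  (.leaf 8) (.leaf 8))) (.bis 1 5 4 1 480 (.bis 2 5 4 1 483 (.leaf 8) (.leaf 8)) (.leaf 8)))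
  (.bis 1 8 2 1 479 (.bis 0 4 1 2 492 (.bis 2 4 1 2 493 (.bis 4 8 4 1 277 (.bis 2 8 1 1 494
  (.leaf 17) (.leaf 3)) (.bis 4 5 8 1 368 (.leaf 3) (.bis 1 4 1 8 495 (.bis 3 4 1 16 496 (.leaf
  33) (.leaf 3)) (.leaf 3)))) (.bis 2 8 2 1 477 (.bis 4 8 1 1 494 (.leaf 17) (.leaf 3)) (.leaf
  8))) (.bis 2 8 2 1 477 (.bis 0 8 2 1 475 (.leaf 17) (.leaf 8)) (.bis 2 5 4 1 483 (.leaf 8)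
  (.leaf 8)))) (.bis 0 4 1 2 492 (.bis 1 4 1 2 497 (.bis 2 4 1 2 493 (.bis 4 5 8 1 368 (.leaf 3)
  (.bis 4 8 8 1 495 (.leaf 3) (.bis 3 4 1 16 496 (.leaf 33) (.leaf 3)))) (.bis 2 5 4 1 483 (.leaf
  3) (.leaf 8))) (.bis 1 5 4 1 480 (.bis 2 5 4 1 483 (.leaf 3) (.leaf 8)) (.leaf 8))) (.bis 1 5 4
  1 480 (.bis 2 5 4 1 483 (.leaf 8) (.leaf 8)) (.leaf 8)))))) (.bis 3 7 2 1 428 (.bis 4 7 2 1 433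
  (.bis 1 8 2 1 479 (.bis 2 8 2 1 477 (.bis 0 8 2 1 475 (.leaf 17) (.leaf 8)) (.bis 2 5 4 1 483
  (.leaf 8) (.leaf 8))) (.bis 1 5 4 1 480 (.bis 2 5 4 1 483 (.leaf 8) (.leaf 8)) (.leaf 8)))
  (.bis 1 8 2 1 479 (.bis 0 4 1 2 492 (.bis 2 4 1 2 493 (.bis 4 8 4 1 277 (.bis 2 8 1 1 494
  (.leaf 17) (.leaf 3)) (.bis 4 5 8 1 368 (.leaf 3) (.bis 1 4 1 8 495 (.bis 4 6 16 1 496 (.leaf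
  3) (.leaf 7)) (.leaf 3)))) (.bis 2 8 2 1 477 (.bis 4 8 1 1 494 (.leaf 17) (.leaf 3)) (.bis 2 5
  4 1 483 (.leaf 3) (.leaf 8)))) (.bis 2 8 2 1 477 (.bis 0 8 2 1 475 (.leaf 17) (.leaf 8)) (.bis
  2 5 4 1 483 (.leaf 8) (.leaf 8)))) (.bis 0 4 1 2 492 (.bis 1 4 1 2 497 (.bis 2 4 1 2 493 (.bis
  4 5 8 1 368 (.leaf 3) (.bis 4 8 8 1 495 (.leaf 3) (.bis 4 6 16 1 496 (.leaf 3) (.leaf 7))))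
  (.bis 2 5 4 1 483 (.leaf 3) (.leaf 8))) (.bis 1 5 4 1 480 (.bis 2 5 4 1 483 (.leaf 3) (.leaf
  8)) (.leaf 8))) (.bis 1 5 4 1 480 (.bis 2 5 4 1 483 (.leaf 8) (.leaf 8)) (.leaf 8))))) (.bis 0
  3 1 2 484 (.bis 1 8 2 1 479 (.bis 2 3 1 2 485 (.bis 3 8 4 1 244 (.bis 4 8 4 1 277 (.leaf 17)
  (.bis 4 5 8 1 368 (.leaf 3) (.bis 1 4 1 8 495 (.bis 4 6 16 1 496 (.leaf 3) (.leaf 7)) (.leaf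
  3)))) (.bis 3 5 8 1 366 (.bis 4 5 8 1 368 (.leaf 3) (.bis 1 4 1 8 495 (.bis 4 6 16 1 496 (.leaf
  3) (.leaf 7)) (.leaf 3))) (.bis 1 3 1 8 486 (.bis 4 6 16 1 496 (.bis 3 6 16 1 487 (.leaf 3)
  (.leaf 7)) (.leaf 7)) (.bis 1 4 1 8 495 (.bis 4 6 16 1 496 (.leaf 3) (.bis 4 7 4 1 446 (.leaf
  3) (.leaf 7))) (.leaf 3))))) (.bis 2 4 1 2 493 (.bis 4 8 4 1 277 (.bis 3 8 1 1 498 (.leaf 17)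
  (.leaf 3)) (.bis 4 5 8 1 368 (.leaf 3) (.bis 1 4 1 8 495 (.bis 4 6 16 1 496 (.leaf 3) (.leaf
  7)) (.leaf 3)))) (.bis 2 8 2 1 477 (.bis 3 8 1 1 498 (.bis 4 8 1 1 494 (.leaf 17) (.leaf 3))
  (.leaf 3)) (.bis 2 5 4 1 483 (.leaf 3) (.leaf 8))))) (.bis 1 3 1 2 488 (.bis 2 3 1 2 485 (.bis
  3 5 8 1 366 (.bis 4 5 8 1 368 (.leaf 3) (.bis 4 8 8 1 495 (.leaf 3) (.bis 4 6 16 1 496 (.leaf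
  3) (.leaf 7)))) (.bis 3 8 8 1 486 (.bis 4 8 8 1 495 (.leaf 3) (.bis 4 6 16 1 496 (.leaf 3)
  (.bis 4 7 4 1 446 (.leaf 3) (.leaf 7)))) (.bis 4 6 16 1 496 (.bis 3 6 16 1 487 (.leaf 3) (.leaf
  7)) (.bis 4 7 4 1 446 (.leaf 7) (.leaf 7))))) (.bis 2 4 1 2 493 (.bis 4 5 8 1 368 (.bis 1 5 2 1
  489 (.leaf 3) (.leaf 3)) (.bis 4 8 8 1 495 (.leaf 3) (.bis 4 6 16 1 496 (.leaf 3) (.bis 4 7 4 1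
  446 (.leaf 3) (.leaf 7))))) (.bis 2 5 4 1 483 (.bis 1 5 2 1 489 (.leaf 3) (.leaf 3)) (.leaf
  8)))) (.bis 1 4 1 2 497 (.bis 2 4 1 2 493 (.bis 4 5 8 1 368 (.bis 3 5 2 1 489 (.leaf 3) (.leaf
  3)) (.bis 4 8 8 1 495 (.leaf 3) (.bis 4 6 16 1 496 (.leaf 3) (.leaf 7)))) (.bis 2 5 4 1 483
  (.bis 3 5 2 1 489 (.leaf 3) (.leaf 3)) (.leaf 8))) (.bis 1 5 4 1 480 (.bis 2 5 4 1 483 (.leaf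
  3) (.leaf 8)) (.leaf 8))))) (.bis 1 8 2 1 479 (.bis 0 4 1 2 492 (.bis 2 4 1 2 493 (.bis 4 8 4 1
  277 (.bis 2 8 1 1 494 (.leaf 17) (.leaf 3)) (.bis 4 5 8 1 368 (.leaf 3) (.bis 1 4 1 8 495 (.bis
  4 6 16 1 496 (.leaf 3) (.leaf 7)) (.leaf 3)))) (.bis 2 8 2 1 477 (.bis 4 8 1 1 494 (.bis 3 8 1
  1 499 (.leaf 17) (.leaf 3)) (.leaf 3)) (.bis 2 5 4 1 483 (.leaf 3) (.leaf 8)))) (.bis 2 8 2 1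
  477 (.bis 0 8 2 1 475 (.bis 3 8 1 1 499 (.leaf 17) (.leaf 3)) (.leaf 8)) (.bis 2 5 4 1 483
  (.leaf 8) (.leaf 8)))) (.bis 0 4 1 2 492 (.bis 1 4 1 2 497 (.bis 2 4 1 2 493 (.bis 4 5 8 1 368
  (.leaf 3) (.bis 4 8 8 1 495 (.leaf 3) (.bis 4 6 16 1 496 (.leaf 3) (.leaf 7)))) (.bis 2 5 4 1
  483 (.bis 1 5 2 1 500 (.leaf 3) (.leaf 3)) (.leaf 8))) (.bis 1 5 4 1 480 (.bis 2 5 4 1 483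
  (.leaf 3) (.leaf 8)) (.leaf 8))) (.bis 1 5 4 1 480 (.bis 2 5 4 1 483 (.leaf 8) (.leaf 8))
  (.leaf 8)))))))) (.bis 3 6 8 1 482 (.bis 4 6 8 1 490 (.bis 5 6 8 1 501 (.bis 6 8 1 1 472 (.bis
  1 8 4 1 480 (.bis 2 8 4 1 483 (.leaf 8) (.leaf 8)) (.leaf 8)) (.bis 3 6 1 2 491 (.leaf 60)
  (.leaf 8))) (.bis 5 7 2 1 439 (.bis 1 8 4 1 480 (.bis 2 8 4 1 483 (.leaf 8) (.leaf 8)) (.leaf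
  8)) (.bis 0 5 1 2 502 (.bis 1 5 1 2 503 (.bis 2 5 1 2 504 (.bis 3 5 1 16 505 (.bis 4 5 1 16 506
  (.bis 5 8 8 1 507 (.leaf 3) (.leaf 15)) (.leaf 3)) (.leaf 3)) (.bis 2 8 4 1 483 (.leaf 3)
  (.leaf 8))) (.bis 1 8 4 1 480 (.leaf 8) (.leaf 8))) (.bis 1 8 4 1 480 (.bis 2 8 4 1 483 (.leaf
  8) (.leaf 8)) (.leaf 8))))) (.bis 4 7 2 1 433 (.bis 5 7 2 1 439 (.bis 1 8 4 1 480 (.bis 2 8 4 1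
  483 (.leaf 8) (.leaf 8)) (.leaf 8)) (.bis 0 5 1 2 502 (.bis 1 5 1 2 503 (.bis 2 5 1 2 504 (.bis
  3 5 1 16 505 (.bis 5 6 16 1 506 (.leaf 3) (.bis 4 5 1 4 445 (.leaf 15) (.leaf 3))) (.leaf 3))
  (.bis 2 8 4 1 483 (.leaf 3) (.leaf 8))) (.bis 1 8 4 1 480 (.bis 2 8 4 1 483 (.leaf 3) (.leaf
  8)) (.leaf 8))) (.bis 1 8 4 1 480 (.bis 2 8 4 1 483 (.leaf 8) (.leaf 8)) (.leaf 8)))) (.bis 0 4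
  1 2 492 (.bis 1 4 1 2 497 (.bis 2 4 1 2 493 (.bis 4 8 8 1 368 (.bis 3 5 1 16 505 (.bis 5 6 16 1
  506 (.leaf 3) (.bis 5 7 4 1 445 (.leaf 3) (.bis 0 5 1 4 508 (.leaf 15) (.leaf 3)))) (.leaf 3))
  (.bis 3 5 1 16 505 (.bis 5 6 16 1 506 (.bis 4 6 16 1 509 (.leaf 3) (.leaf 33)) (.bis 4 5 1 1
  393 (.bis 5 7 4 1 445 (.leaf 15) (.bis 0 5 1 4 508 (.leaf 15) (.leaf 15))) (.leaf 33))) (.bis 3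
  4 1 16 496 (.bis 4 6 16 1 509 (.leaf 3) (.leaf 7)) (.leaf 3)))) (.bis 2 5 1 2 504 (.bis 3 5 1
  16 505 (.bis 5 6 16 1 506 (.bis 1 8 2 1 500 (.leaf 3) (.leaf 3)) (.bis 5 7 4 1 445 (.bis 1 8 2
  1 500 (.leaf 3) (.leaf 3)) (.bis 0 5 1 4 508 (.bis 1 5 1 4 510 (.bis 4 5 1 4 511 (.bis 5 8 8 1
  507 (.leaf 3) (.leaf 15)) (.bis 4 8 2 1 512 (.leaf 3) (.leaf 3))) (.bis 1 8 2 1 500 (.leaf 3)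
  (.leaf 3))) (.bis 1 8 2 1 500 (.leaf 3) (.leaf 3))))) (.bis 1 8 2 1 500 (.leaf 3) (.leaf 3)))
  (.bis 2 8 4 1 483 (.bis 1 8 2 1 500 (.leaf 3) (.leaf 3)) (.leaf 8)))) (.bis 1 5 1 2 503 (.bis 2
  5 1 2 504 (.bis 3 5 1 16 505 (.bis 5 6 16 1 506 (.bis 4 8 2 1 500 (.leaf 3) (.leaf 3)) (.bis 5
  7 4 1 445 (.bis 4 8 2 1 500 (.leaf 3) (.leaf 3)) (.bis 0 5 1 4 508 (.bis 4 5 1 4 510 (.bis 5 8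
  8 1 507 (.leaf 3) (.leaf 15)) (.bis 4 8 2 1 500 (.leaf 3) (.leaf 3))) (.bis 4 8 2 1 500 (.leaf
  3) (.leaf 3))))) (.bis 4 8 2 1 500 (.leaf 3) (.leaf 3))) (.bis 2 8 4 1 483 (.bis 4 8 2 1 500
  (.leaf 3) (.leaf 3)) (.leaf 8))) (.bis 1 8 4 1 480 (.bis 2 8 4 1 483 (.leaf 3) (.leaf 8))
  (.leaf 8)))) (.bis 0 5 1 2 502 (.bis 1 5 1 2 503 (.bis 2 5 1 2 504 (.bis 3 5 1 16 505 (.bis 5 6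
  16 1 506 (.leaf 3) (.bis 5 7 4 1 445 (.leaf 3) (.bis 4 5 1 4 508 (.bis 5 8 8 1 507 (.leaf 3)
  (.leaf 15)) (.bis 4 8 2 1 513 (.leaf 3) (.leaf 3))))) (.leaf 3)) (.bis 2 8 4 1 483 (.leaf 3)
  (.leaf 8))) (.bis 1 8 4 1 480 (.bis 2 8 4 1 483 (.leaf 3) (.leaf 8)) (.leaf 8))) (.bis 1 8 4 1
  480 (.bis 2 8 4 1 483 (.leaf 8) (.leaf 8)) (.leaf 8)))))) (.bis 3 7 2 1 428 (.bis 4 7 2 1 433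
  (.bis 5 7 2 1 439 (.bis 1 8 4 1 480 (.bis 2 8 4 1 483 (.bis 0 8 4 1 474 (.leaf 8) (.leaf 8))
  (.leaf 8)) (.leaf 8)) (.bis 0 5 1 2 502 (.bis 1 5 1 2 503 (.bis 2 5 1 2 504 (.bis 3 5 1 4 444
  (.bis 5 6 16 1 505 (.leaf 3) (.bis 4 5 1 4 445 (.leaf 15) (.leaf 3))) (.leaf 3)) (.bis 2 8 4 1
  483 (.leaf 3) (.leaf 8))) (.bis 1 8 4 1 480 (.bis 2 8 4 1 483 (.leaf 3) (.leaf 8)) (.leaf 8)))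
  (.bis 1 8 4 1 480 (.bis 2 8 4 1 483 (.leaf 8) (.leaf 8)) (.leaf 8)))) (.bis 0 4 1 2 492 (.bis 1
  4 1 2 497 (.bis 2 4 1 2 493 (.bis 4 8 8 1 368 (.bis 3 5 1 4 444 (.bis 5 6 16 1 505 (.leaf 3)
  (.bis 5 7 4 1 445 (.leaf 3) (.bis 0 5 1 4 508 (.leaf 15) (.leaf 3)))) (.leaf 3)) (.bis 3 5 1 4
  444 (.bis 5 6 16 1 505 (.bis 4 6 16 1 496 (.leaf 3) (.leaf 7)) (.bis 4 5 1 1 393 (.bis 5 7 4 1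
  445 (.leaf 7) (.bis 0 5 1 4 508 (.leaf 15) (.leaf 7))) (.leaf 7))) (.bis 4 6 16 1 496 (.leaf 3)
  (.leaf 7)))) (.bis 2 5 1 2 504 (.bis 3 5 1 4 444 (.bis 5 6 16 1 505 (.bis 1 8 2 1 500 (.leaf 3)
  (.leaf 3)) (.bis 5 7 4 1 445 (.bis 1 8 2 1 500 (.leaf 3) (.leaf 3)) (.bis 0 5 1 4 508 (.bis 1 5
  1 4 510 (.bis 4 5 1 4 511 (.bis 5 8 8 1 507 (.leaf 3) (.leaf 15)) (.bis 4 8 2 1 512 (.leaf 3)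
  (.leaf 3))) (.bis 1 8 2 1 500 (.leaf 3) (.leaf 3))) (.bis 1 8 2 1 500 (.leaf 3) (.leaf 3)))))
  (.bis 1 8 2 1 500 (.leaf 3) (.leaf 3))) (.bis 2 8 4 1 483 (.bis 1 8 2 1 500 (.leaf 3) (.leaf
  3)) (.leaf 8)))) (.bis 1 5 1 2 503 (.bis 2 5 1 2 504 (.bis 3 5 1 4 444 (.bis 5 6 16 1 505 (.bis
  4 8 2 1 500 (.leaf 3) (.leaf 3)) (.bis 5 7 4 1 445 (.bis 4 8 2 1 500 (.leaf 3) (.leaf 3)) (.bis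
  0 5 1 4 508 (.bis 4 5 1 4 510 (.bis 5 8 8 1 507 (.leaf 3) (.leaf 15)) (.bis 4 8 2 1 500 (.leaf
  3) (.leaf 3))) (.bis 4 8 2 1 500 (.leaf 3) (.leaf 3))))) (.bis 4 8 2 1 500 (.leaf 3) (.leaf
  3))) (.bis 2 8 4 1 483 (.bis 4 8 2 1 500 (.leaf 3) (.leaf 3)) (.leaf 8))) (.bis 1 8 4 1 480
  (.bis 2 8 4 1 483 (.leaf 3) (.leaf 8)) (.leaf 8)))) (.bis 0 5 1 2 502 (.bis 1 5 1 2 503 (.bis 2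
  5 1 2 504 (.bis 3 5 1 4 444 (.bis 5 6 16 1 505 (.leaf 3) (.bis 5 7 4 1 445 (.leaf 3) (.bis 4 5
  1 4 508 (.bis 5 8 8 1 507 (.leaf 3) (.leaf 15)) (.bis 4 8 2 1 513 (.leaf 3) (.leaf 3)))))
  (.leaf 3)) (.bis 2 8 4 1 483 (.leaf 3) (.leaf 8))) (.bis 1 8 4 1 480 (.bis 2 8 4 1 483 (.leaf
  3) (.leaf 8)) (.leaf 8))) (.bis 1 8 4 1 480 (.bis 2 8 4 1 483 (.bis 0 8 4 1 474 (.leaf 3)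
  (.leaf 8)) (.leaf 8)) (.leaf 8))))) (.bis 0 3 1 2 484 (.bis 1 3 1 2 488 (.bis 2 3 1 2 485 (.bis
  3 5 1 1 379 (.bis 4 8 8 1 368 (.bis 5 7 4 1 444 (.bis 1 8 2 1 489 (.leaf 3) (.leaf 3)) (.bis 5
  6 16 1 505 (.leaf 3) (.bis 0 5 1 4 514 (.bis 1 5 1 4 515 (.leaf 15) (.leaf 3)) (.bis 1 8 2 1
  489 (.leaf 3) (.leaf 3))))) (.bis 5 7 4 1 444 (.bis 4 6 16 1 496 (.leaf 3) (.leaf 7)) (.bis 5 6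
  16 1 505 (.bis 4 6 16 1 496 (.leaf 3) (.leaf 7)) (.bis 0 5 1 4 514 (.bis 1 5 1 4 515 (.bis 2 5
  1 4 516 (.bis 4 5 1 1 393 (.leaf 15) (.leaf 7)) (.bis 4 6 32 1 517 (.leaf 3) (.leaf 7))) (.bis
  4 6 32 1 517 (.leaf 3) (.leaf 7))) (.bis 4 6 32 1 517 (.leaf 3) (.leaf 7)))))) (.bis 3 8 8 1
  366 (.bis 4 8 8 1 368 (.leaf 3) (.bis 4 6 16 1 496 (.leaf 3) (.leaf 7))) (.bis 4 6 16 1 496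
  (.bis 3 6 16 1 487 (.leaf 3) (.leaf 7)) (.leaf 7)))) (.bis 2 4 1 2 493 (.bis 4 8 8 1 368 (.bis
  5 7 4 1 444 (.bis 1 8 2 1 489 (.leaf 3) (.leaf 3)) (.bis 5 6 16 1 505 (.bis 1 8 2 1 489 (.leaf
  3) (.leaf 3)) (.bis 0 5 1 4 514 (.bis 1 5 1 4 515 (.bis 3 5 1 4 516 (.leaf 15) (.leaf 3)) (.bis
  1 8 2 1 489 (.leaf 3) (.leaf 3))) (.bis 1 8 2 1 489 (.leaf 3) (.leaf 3))))) (.bis 5 7 4 1 444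
  (.bis 4 6 16 1 496 (.leaf 3) (.bis 4 7 4 1 446 (.leaf 3) (.leaf 7))) (.bis 5 6 16 1 505 (.bis 4
  6 16 1 496 (.leaf 3) (.bis 4 5 32 1 517 (.leaf 3) (.leaf 7))) (.bis 0 5 1 4 514 (.bis 1 5 1 4
  515 (.bis 3 5 1 4 516 (.bis 4 5 1 1 393 (.leaf 15) (.bis 4 6 32 1 517 (.leaf 7) (.leaf 7)))
  (.bis 4 6 32 1 517 (.leaf 3) (.leaf 7))) (.bis 4 6 32 1 517 (.leaf 3) (.leaf 7))) (.bis 4 6 32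
  1 517 (.leaf 3) (.leaf 7)))))) (.bis 2 5 1 2 504 (.bis 5 7 4 1 444 (.bis 1 8 2 1 489 (.bis 3 8
  2 1 518 (.leaf 3) (.leaf 3)) (.leaf 3)) (.bis 5 6 16 1 505 (.bis 1 8 2 1 489 (.leaf 3) (.leaf
  3)) (.bis 0 5 1 4 514 (.bis 1 5 1 4 515 (.bis 3 5 1 4 516 (.bis 4 5 1 4 511 (.bis 5 8 8 1 507
  (.leaf 3) (.leaf 15)) (.bis 4 8 2 1 512 (.leaf 3) (.leaf 3))) (.bis 3 8 2 1 518 (.leaf 3)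
  (.leaf 3))) (.bis 1 8 2 1 489 (.leaf 3) (.leaf 3))) (.bis 1 8 2 1 489 (.bis 3 8 2 1 518 (.leaf
  3) (.leaf 3)) (.leaf 3))))) (.bis 2 8 4 1 483 (.bis 1 8 2 1 489 (.bis 3 8 2 1 518 (.leaf 3)
  (.leaf 3)) (.leaf 3)) (.leaf 8))))) (.bis 1 4 1 2 497 (.bis 2 4 1 2 493 (.bis 4 8 8 1 368 (.bis
  5 7 4 1 444 (.bis 3 8 2 1 489 (.leaf 3) (.leaf 3)) (.bis 5 6 16 1 505 (.bis 3 8 2 1 489 (.leaf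
  3) (.leaf 3)) (.bis 0 5 1 4 514 (.bis 3 5 1 4 515 (.bis 1 5 1 4 510 (.leaf 15) (.leaf 3)) (.bis
  3 8 2 1 489 (.leaf 3) (.leaf 3))) (.bis 3 8 2 1 489 (.leaf 3) (.leaf 3))))) (.bis 5 7 4 1 444
  (.bis 4 6 16 1 496 (.leaf 3) (.bis 4 7 4 1 446 (.leaf 3) (.leaf 7))) (.bis 5 6 16 1 505 (.bis 4
  6 16 1 496 (.leaf 3) (.bis 4 5 32 1 517 (.leaf 3) (.leaf 7))) (.bis 0 5 1 4 514 (.bis 3 5 1 4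
  515 (.bis 4 5 1 1 393 (.leaf 15) (.leaf 7)) (.bis 4 6 32 1 517 (.leaf 3) (.leaf 7))) (.bis 4 6
  32 1 517 (.leaf 3) (.leaf 7)))))) (.bis 2 5 1 2 504 (.bis 5 7 4 1 444 (.bis 3 8 2 1 489 (.bis 1
  8 2 1 500 (.leaf 3) (.leaf 3)) (.leaf 3)) (.bis 5 6 16 1 505 (.bis 3 8 2 1 489 (.leaf 3) (.leaf
  3)) (.bis 0 5 1 4 514 (.bis 3 5 1 4 515 (.bis 1 5 1 4 510 (.bis 4 5 1 4 511 (.bis 5 8 8 1 507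
  (.leaf 3) (.leaf 15)) (.bis 4 8 2 1 512 (.leaf 3) (.leaf 3))) (.bis 1 8 2 1 500 (.leaf 3)
  (.leaf 3))) (.bis 3 8 2 1 489 (.leaf 3) (.leaf 3))) (.bis 3 8 2 1 489 (.bis 1 8 2 1 500 (.leaf
  3) (.leaf 3)) (.leaf 3))))) (.bis 2 8 4 1 483 (.bis 3 8 2 1 489 (.bis 1 8 2 1 500 (.leaf 3)
  (.leaf 3)) (.leaf 3)) (.leaf 8)))) (.bis 1 5 1 2 503 (.bis 2 5 1 2 504 (.bis 5 7 4 1 444 (.bis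
  3 8 2 1 489 (.leaf 3) (.leaf 3)) (.bis 5 6 16 1 505 (.bis 3 8 2 1 489 (.leaf 3) (.leaf 3))
  (.bis 0 5 1 4 514 (.bis 3 5 1 4 515 (.bis 4 5 1 4 510 (.bis 5 8 8 1 507 (.leaf 3) (.leaf 15))
  (.bis 4 8 2 1 500 (.leaf 3) (.leaf 3))) (.bis 3 8 2 1 489 (.leaf 3) (.leaf 3))) (.bis 3 8 2 1
  489 (.leaf 3) (.leaf 3))))) (.bis 2 8 4 1 483 (.bis 3 8 2 1 489 (.leaf 3) (.leaf 3)) (.leaf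
  8))) (.bis 1 8 4 1 480 (.bis 2 8 4 1 483 (.bis 3 8 2 1 489 (.leaf 3) (.leaf 3)) (.leaf 8))
  (.leaf 8))))) (.bis 0 4 1 2 492 (.bis 1 4 1 2 497 (.bis 2 4 1 2 493 (.bis 4 8 8 1 368 (.bis 5 7
  4 1 444 (.bis 1 8 2 1 500 (.leaf 3) (.leaf 3)) (.bis 5 6 16 1 505 (.leaf 3) (.bis 3 5 1 4 514
  (.bis 0 5 1 4 508 (.leaf 15) (.leaf 3)) (.bis 1 8 2 1 500 (.leaf 3) (.leaf 3))))) (.bis 5 7 4 1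
  444 (.bis 4 6 16 1 496 (.leaf 3) (.bis 4 7 4 1 446 (.leaf 3) (.leaf 7))) (.bis 5 6 16 1 505
  (.bis 4 6 16 1 496 (.leaf 3) (.leaf 7)) (.bis 3 5 1 4 514 (.bis 4 5 1 1 393 (.bis 0 5 1 4 508
  (.leaf 15) (.leaf 7)) (.leaf 7)) (.bis 4 6 32 1 517 (.leaf 3) (.leaf 7)))))) (.bis 2 5 1 2 504
  (.bis 5 7 4 1 444 (.bis 1 8 2 1 500 (.leaf 3) (.leaf 3)) (.bis 5 6 16 1 505 (.bis 1 8 2 1 500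
  (.leaf 3) (.leaf 3)) (.bis 3 5 1 4 514 (.bis 0 5 1 4 508 (.bis 1 5 1 4 510 (.bis 4 5 1 4 511
  (.bis 5 8 8 1 507 (.leaf 3) (.leaf 15)) (.bis 4 8 2 1 512 (.leaf 3) (.leaf 3))) (.bis 1 8 2 1
  500 (.leaf 3) (.leaf 3))) (.bis 1 8 2 1 500 (.leaf 3) (.leaf 3))) (.bis 1 8 2 1 500 (.leaf 3)
  (.leaf 3))))) (.bis 2 8 4 1 483 (.bis 1 8 2 1 500 (.leaf 3) (.leaf 3)) (.leaf 8)))) (.bis 1 5 1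
  2 503 (.bis 2 5 1 2 504 (.bis 5 7 4 1 444 (.bis 4 8 2 1 500 (.leaf 3) (.leaf 3)) (.bis 5 6 16 1
  505 (.bis 4 8 2 1 500 (.leaf 3) (.leaf 3)) (.bis 3 5 1 4 514 (.bis 0 5 1 4 508 (.bis 4 5 1 4
  510 (.bis 5 8 8 1 507 (.leaf 3) (.leaf 15)) (.bis 4 8 2 1 500 (.leaf 3) (.leaf 3))) (.bis 4 8 2
  1 500 (.leaf 3) (.leaf 3))) (.bis 4 8 2 1 500 (.leaf 3) (.leaf 3))))) (.bis 2 8 4 1 483 (.bis 4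
  8 2 1 500 (.leaf 3) (.leaf 3)) (.leaf 8))) (.bis 1 8 4 1 480 (.bis 2 8 4 1 483 (.bis 4 8 2 1
  500 (.leaf 3) (.leaf 3)) (.leaf 8)) (.leaf 8)))) (.bis 0 5 1 2 502 (.bis 1 5 1 2 503 (.bis 2 5
  1 2 504 (.bis 5 7 4 1 444 (.bis 3 8 2 1 519 (.leaf 3) (.leaf 3)) (.bis 5 6 16 1 505 (.bis 3 8 2
  1 519 (.leaf 3) (.leaf 3)) (.bis 3 5 1 4 514 (.bis 4 5 1 4 508 (.bis 5 8 8 1 507 (.leaf 3)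
  (.leaf 15)) (.bis 4 8 2 1 513 (.leaf 3) (.leaf 3))) (.bis 3 8 2 1 519 (.leaf 3) (.leaf 3)))))
  (.bis 2 8 4 1 483 (.bis 3 8 2 1 519 (.leaf 3) (.leaf 3)) (.leaf 8))) (.bis 1 8 4 1 480 (.bis 2
  8 4 1 483 (.leaf 3) (.leaf 8)) (.leaf 8))) (.bis 1 8 4 1 480 (.bis 2 8 4 1 483 (.bis 0 8 4 1
  474 (.leaf 3) (.leaf 8)) (.leaf 8)) (.leaf 8))))))))

def lc32 : List Vr := [⟨[24,0,0,0,0,0,85,0,0], 38617, 0⟩, ⟨[0,28,0,0,0,0,85,0,0], 38081, 0⟩, ⟨[0,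
  0,17,0,0,0,85,0,0], 37281, 0⟩, ⟨[0,0,0,13,0,0,0,0,0], 6760, 0⟩, ⟨[0,0,0,0,19,0,0,0,0], 7581, 0⟩,
   ⟨[0,0,0,0,0,30,0,0,0], 7200, 0⟩, ⟨[0,0,0,0,0,0,425,0,155], 444125, 0⟩, ⟨[0,0,0,0,0,0,85,42,0],
  42841, 0⟩, ⟨[0,0,0,0,0,0,85,0,155], 59925, 0⟩]

theorem lk32 : chkTr lowT (leafLow 2 lowB) lt32 lc32 = true := by decide +kernel

def lt33 : Tr ℕ := (.bis 3 6 1 1 520 (.bis 4 6 1 1 521 (.bis 5 6 1 1 522 (.bis 6 7 2 1 523 (.bis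
  5 7 1 1 524 (.bis 1 8 4 1 525 (.bis 7 8 4 1 526 (.bis 4 8 4 1 527 (.leaf 35) (.leaf 35)) (.leaf
  47)) (.leaf 47)) (.bis 1 8 4 1 525 (.bis 5 8 4 1 528 (.bis 4 8 4 1 527 (.leaf 35) (.leaf 35))
  (.leaf 35)) (.leaf 35))) (.bis 0 6 1 2 529 (.bis 1 6 1 2 530 (.bis 2 6 1 2 531 (.bis 3 6 1 2
  532 (.bis 4 6 1 2 533 (.bis 6 8 8 1 534 (.bis 5 8 4 1 528 (.bis 4 8 2 1 535 (.leaf 80) (.leaf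
  46)) (.bis 5 6 8 1 536 (.leaf 46) (.leaf 61))) (.bis 5 6 1 2 537 (.bis 6 7 4 1 538 (.leaf 46)
  (.bis 0 6 1 4 539 (.bis 1 6 1 4 540 (.bis 2 6 1 4 541 (.bis 3 6 1 4 542 (.bis 4 6 1 4 543 (.bis
  5 6 1 4 544 (.bis 6 8 16 1 545 (.leaf 62) (.bis 6 7 8 1 546 (.leaf 62) (.bis 0 6 1 8 547 (.leaf
  81) (.leaf 62)))) (.leaf 62)) (.leaf 46)) (.leaf 46)) (.leaf 46)) (.leaf 46)) (.leaf 46)))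
  (.bis 5 8 8 1 536 (.leaf 46) (.leaf 61)))) (.bis 5 8 4 1 528 (.bis 4 8 4 1 527 (.bis 6 8 2 1
  535 (.leaf 35) (.leaf 46)) (.leaf 61)) (.leaf 61))) (.bis 5 8 4 1 528 (.bis 4 8 4 1 527 (.leaf
  35) (.leaf 35)) (.leaf 35))) (.bis 5 8 4 1 528 (.bis 4 8 4 1 527 (.leaf 35) (.leaf 35)) (.leaf
  35))) (.bis 1 8 4 1 525 (.bis 5 8 4 1 528 (.bis 4 8 4 1 527 (.leaf 35) (.leaf 35)) (.leaf 35))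
  (.leaf 35))) (.bis 1 8 4 1 525 (.bis 5 8 4 1 528 (.bis 4 8 4 1 527 (.leaf 35) (.leaf 35))
  (.leaf 35)) (.leaf 35)))) (.bis 5 8 8 1 501 (.bis 6 7 1 1 524 (.bis 1 8 4 1 525 (.bis 7 8 4 1
  526 (.bis 4 8 4 1 527 (.leaf 35) (.leaf 8)) (.leaf 8)) (.leaf 8)) (.bis 1 8 4 1 525 (.bis 6 8 4
  1 528 (.bis 4 8 4 1 527 (.leaf 35) (.leaf 35)) (.leaf 35)) (.leaf 35))) (.bis 5 7 2 1 439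
  (.leaf 47) (.bis 0 5 1 2 502 (.bis 1 5 1 2 503 (.bis 2 5 1 2 504 (.bis 3 5 1 2 548 (.bis 4 5 1
  2 549 (.bis 5 6 2 1 550 (.leaf 47) (.bis 5 8 16 1 551 (.leaf 15) (.leaf 15))) (.leaf 47))
  (.leaf 47)) (.leaf 47)) (.leaf 47)) (.leaf 47))))) (.bis 4 8 8 1 490 (.bis 5 8 8 1 501 (.bis 1
  8 4 1 525 (.bis 4 8 1 2 552 (.bis 7 8 4 1 526 (.leaf 35) (.leaf 8)) (.leaf 8)) (.leaf 8)) (.bis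
  5 7 2 1 439 (.leaf 8) (.bis 0 5 1 2 502 (.bis 1 5 1 2 503 (.bis 2 5 1 2 504 (.bis 3 5 1 2 548
  (.bis 5 6 2 1 549 (.leaf 8) (.bis 4 5 1 16 506 (.bis 5 8 16 1 551 (.leaf 15) (.leaf 15)) (.leaf
  8))) (.leaf 8)) (.leaf 8)) (.leaf 8)) (.leaf 8)))) (.bis 4 7 2 1 433 (.bis 5 7 2 1 439 (.leaf
  8) (.bis 0 5 1 2 502 (.bis 1 5 1 2 503 (.bis 2 5 1 2 504 (.bis 3 5 1 2 548 (.bis 5 6 2 1 549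
  (.leaf 8) (.bis 5 8 16 1 506 (.leaf 8) (.bis 4 5 1 4 445 (.leaf 15) (.leaf 8)))) (.leaf 8))
  (.leaf 8)) (.leaf 8)) (.leaf 8))) (.bis 0 4 1 2 492 (.bis 1 4 1 2 497 (.bis 2 4 1 2 493 (.bis 3
  4 1 2 553 (.bis 4 6 2 1 554 (.bis 5 6 2 1 549 (.leaf 8) (.bis 5 8 16 1 506 (.leaf 8) (.bis 5 7
  4 1 445 (.leaf 8) (.bis 0 5 1 4 508 (.bis 1 5 1 4 510 (.bis 2 5 1 4 511 (.leaf 15) (.leaf 15))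
  (.leaf 15)) (.leaf 8))))) (.bis 5 8 16 1 506 (.bis 4 8 16 1 509 (.leaf 3) (.bis 4 5 32 1 555
  (.leaf 3) (.leaf 33))) (.bis 4 5 1 1 393 (.bis 5 7 4 1 445 (.leaf 15) (.bis 0 5 1 4 508 (.bis 1
  5 1 4 510 (.leaf 15) (.leaf 15)) (.leaf 15))) (.leaf 33)))) (.bis 3 5 1 2 548 (.bis 5 6 2 1 549
  (.leaf 8) (.bis 5 8 16 1 506 (.leaf 8) (.bis 5 7 4 1 445 (.leaf 8) (.bis 0 5 1 4 508 (.bis 1 5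
  1 4 510 (.leaf 15) (.leaf 15)) (.leaf 8))))) (.leaf 8))) (.bis 2 5 1 2 504 (.bis 3 5 1 2 548
  (.bis 5 6 2 1 549 (.leaf 8) (.bis 5 8 16 1 506 (.leaf 8) (.bis 5 7 4 1 445 (.leaf 8) (.bis 0 5
  1 4 508 (.leaf 15) (.leaf 8))))) (.leaf 8)) (.leaf 8))) (.bis 1 5 1 2 503 (.bis 2 5 1 2 504
  (.bis 3 5 1 2 548 (.bis 5 6 2 1 549 (.leaf 8) (.bis 5 8 16 1 506 (.leaf 8) (.bis 5 7 4 1 445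
  (.leaf 8) (.bis 0 5 1 4 508 (.leaf 15) (.leaf 8))))) (.leaf 8)) (.leaf 8)) (.leaf 8))) (.bis 0
  5 1 2 502 (.bis 1 5 1 2 503 (.bis 2 5 1 2 504 (.bis 3 5 1 2 548 (.bis 5 6 2 1 549 (.leaf 8)
  (.bis 5 8 16 1 506 (.leaf 8) (.bis 5 7 4 1 445 (.leaf 8) (.leaf 15)))) (.leaf 8)) (.leaf 8))
  (.leaf 8)) (.leaf 8)))))) (.bis 3 8 8 1 482 (.bis 4 8 8 1 490 (.bis 5 8 8 1 501 (.bis 3 8 1 2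
  491 (.bis 1 8 4 1 525 (.bis 4 8 1 2 552 (.leaf 41) (.leaf 8)) (.leaf 8)) (.leaf 8)) (.bis 5 7 2
  1 439 (.leaf 8) (.bis 0 5 1 2 502 (.bis 1 5 1 2 503 (.bis 2 5 1 2 504 (.bis 5 6 2 1 548 (.leaf
  8) (.bis 3 5 1 16 505 (.bis 4 5 1 16 506 (.bis 5 8 16 1 551 (.leaf 15) (.leaf 15)) (.leaf 3))
  (.leaf 3))) (.leaf 8)) (.leaf 8)) (.leaf 8)))) (.bis 4 7 2 1 433 (.bis 5 7 2 1 439 (.leaf 8)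
  (.bis 0 5 1 2 502 (.bis 1 5 1 2 503 (.bis 2 5 1 2 504 (.bis 5 6 2 1 548 (.leaf 8) (.bis 3 5 1
  16 505 (.bis 5 8 16 1 506 (.leaf 3) (.bis 4 5 1 4 445 (.leaf 15) (.leaf 3))) (.leaf 3))) (.leaf
  8)) (.leaf 8)) (.leaf 8))) (.bis 0 4 1 2 492 (.bis 1 4 1 2 497 (.bis 2 4 1 2 493 (.bis 4 6 2 1
  553 (.bis 5 6 2 1 548 (.leaf 8) (.bis 3 5 1 16 505 (.bis 5 8 16 1 506 (.leaf 3) (.bis 5 7 4 1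
  445 (.leaf 3) (.bis 0 5 1 4 508 (.bis 1 5 1 4 510 (.leaf 15) (.leaf 3)) (.leaf 3)))) (.leaf
  3))) (.bis 3 5 1 16 505 (.bis 5 8 16 1 506 (.bis 4 8 16 1 509 (.leaf 3) (.bis 3 4 1 32 517
  (.leaf 33) (.leaf 3))) (.bis 4 5 1 1 393 (.bis 5 7 4 1 445 (.leaf 15) (.bis 0 5 1 4 508 (.leaf
  15) (.leaf 15))) (.bis 3 4 1 32 517 (.leaf 33) (.leaf 15)))) (.bis 3 4 1 16 496 (.bis 4 8 16 1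
  509 (.leaf 3) (.leaf 7)) (.leaf 3)))) (.bis 2 5 1 2 504 (.bis 5 6 2 1 548 (.leaf 8) (.bis 3 5 1
  16 505 (.bis 5 8 16 1 506 (.leaf 3) (.bis 5 7 4 1 445 (.leaf 3) (.bis 0 5 1 4 508 (.leaf 15)
  (.leaf 3)))) (.leaf 3))) (.leaf 8))) (.bis 1 5 1 2 503 (.bis 2 5 1 2 504 (.bis 5 6 2 1 548
  (.leaf 8) (.bis 3 5 1 16 505 (.bis 5 8 16 1 506 (.leaf 3) (.bis 5 7 4 1 445 (.leaf 3) (.bis 0 5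
  1 4 508 (.leaf 15) (.leaf 3)))) (.leaf 3))) (.leaf 8)) (.leaf 8))) (.bis 0 5 1 2 502 (.bis 1 5
  1 2 503 (.bis 2 5 1 2 504 (.bis 5 6 2 1 548 (.leaf 8) (.bis 3 5 1 16 505 (.bis 5 8 16 1 506
  (.leaf 3) (.bis 5 7 4 1 445 (.leaf 3) (.leaf 15))) (.leaf 3))) (.leaf 8)) (.leaf 8)) (.leaf
  8))))) (.bis 3 7 2 1 428 (.bis 4 7 2 1 433 (.bis 5 7 2 1 439 (.leaf 8) (.bis 0 5 1 2 502 (.bis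
  1 5 1 2 503 (.bis 2 5 1 2 504 (.bis 5 6 2 1 548 (.leaf 8) (.bis 3 5 1 4 444 (.bis 5 8 16 1 505
  (.leaf 3) (.bis 4 5 1 4 445 (.leaf 15) (.leaf 3))) (.leaf 3))) (.leaf 8)) (.leaf 8)) (.leaf
  8))) (.bis 0 4 1 2 492 (.bis 1 4 1 2 497 (.bis 2 4 1 2 493 (.bis 4 6 2 1 553 (.bis 5 6 2 1 548
  (.leaf 8) (.bis 3 5 1 4 444 (.bis 5 8 16 1 505 (.leaf 3) (.bis 5 7 4 1 445 (.leaf 3) (.bis 0 5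
  1 4 508 (.bis 1 5 1 4 510 (.leaf 15) (.leaf 3)) (.leaf 3)))) (.leaf 3))) (.bis 3 5 1 4 444
  (.bis 5 8 16 1 505 (.bis 4 8 16 1 496 (.leaf 3) (.bis 4 5 32 1 517 (.leaf 3) (.leaf 7))) (.bis
  4 5 1 1 393 (.bis 5 7 4 1 445 (.leaf 7) (.bis 0 5 1 4 508 (.leaf 15) (.leaf 7))) (.bis 4 8 32 1
  517 (.leaf 7) (.leaf 7)))) (.bis 4 8 16 1 496 (.leaf 3) (.bis 3 4 1 4 446 (.leaf 7) (.leaf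
  3))))) (.bis 2 5 1 2 504 (.bis 5 6 2 1 548 (.leaf 8) (.bis 3 5 1 4 444 (.bis 5 8 16 1 505
  (.leaf 3) (.bis 5 7 4 1 445 (.leaf 3) (.bis 0 5 1 4 508 (.leaf 15) (.leaf 3)))) (.leaf 3)))
  (.leaf 8))) (.bis 1 5 1 2 503 (.bis 2 5 1 2 504 (.bis 5 6 2 1 548 (.leaf 8) (.bis 3 5 1 4 444
  (.bis 5 8 16 1 505 (.leaf 3) (.bis 5 7 4 1 445 (.leaf 3) (.bis 0 5 1 4 508 (.leaf 15) (.leaf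
  3)))) (.leaf 3))) (.leaf 8)) (.leaf 8))) (.bis 0 5 1 2 502 (.bis 1 5 1 2 503 (.bis 2 5 1 2 504
  (.bis 5 6 2 1 548 (.leaf 8) (.bis 3 5 1 4 444 (.bis 5 8 16 1 505 (.leaf 3) (.bis 5 7 4 1 445
  (.leaf 3) (.leaf 15))) (.leaf 3))) (.leaf 8)) (.leaf 8)) (.leaf 8)))) (.bis 0 3 1 2 484 (.bis 1
  3 1 2 488 (.bis 2 3 1 2 485 (.bis 3 6 2 1 556 (.bis 4 6 2 1 553 (.bis 5 6 2 1 548 (.leaf 8)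
  (.bis 5 7 4 1 444 (.leaf 3) (.bis 5 8 16 1 505 (.leaf 3) (.bis 0 5 1 4 514 (.bis 1 5 1 4 515
  (.bis 2 5 1 4 516 (.leaf 15) (.leaf 3)) (.leaf 3)) (.leaf 3))))) (.bis 5 7 4 1 444 (.bis 4 8 16
  1 496 (.leaf 3) (.bis 4 7 4 1 446 (.leaf 3) (.bis 0 4 1 4 557 (.leaf 7) (.leaf 3)))) (.bis 5 8
  16 1 505 (.bis 4 8 16 1 496 (.leaf 3) (.bis 4 5 32 1 517 (.leaf 3) (.bis 0 4 1 4 557 (.leaf 7)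
  (.leaf 3)))) (.bis 0 5 1 4 514 (.bis 1 5 1 4 515 (.bis 2 5 1 4 516 (.bis 3 5 1 4 558 (.bis 4 5
  1 1 393 (.leaf 15) (.bis 4 8 32 1 517 (.leaf 7) (.leaf 7))) (.bis 4 8 32 1 517 (.leaf 3) (.bis
  3 4 1 4 559 (.leaf 7) (.leaf 3)))) (.bis 4 8 32 1 517 (.leaf 3) (.bis 2 4 1 4 560 (.leaf 7)
  (.leaf 3)))) (.bis 4 8 32 1 517 (.leaf 3) (.bis 1 4 1 4 561 (.leaf 7) (.leaf 3)))) (.bis 4 8 32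
  1 517 (.leaf 3) (.bis 0 4 1 4 557 (.leaf 7) (.leaf 3))))))) (.bis 3 5 1 1 379 (.bis 5 7 4 1 444
  (.bis 4 8 16 1 496 (.leaf 3) (.bis 4 7 4 1 446 (.leaf 3) (.leaf 7))) (.bis 5 8 16 1 505 (.bis 4
  8 16 1 496 (.leaf 3) (.bis 4 5 32 1 517 (.leaf 3) (.leaf 7))) (.bis 0 5 1 4 514 (.bis 1 5 1 4
  515 (.bis 2 5 1 4 516 (.bis 5 6 4 1 558 (.bis 4 8 32 1 517 (.leaf 3) (.bis 4 6 4 1 559 (.leaf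
  3) (.leaf 7))) (.bis 4 5 1 1 393 (.leaf 15) (.bis 4 8 32 1 517 (.leaf 7) (.leaf 7)))) (.bis 4 8
  32 1 517 (.leaf 3) (.bis 2 4 1 4 560 (.leaf 7) (.leaf 3)))) (.bis 4 8 32 1 517 (.leaf 3) (.bis
  1 4 1 4 561 (.leaf 7) (.leaf 3)))) (.bis 4 8 32 1 517 (.leaf 3) (.bis 0 4 1 4 557 (.leaf 7)
  (.leaf 3)))))) (.bis 4 8 16 1 496 (.bis 3 8 16 1 487 (.leaf 3) (.leaf 7)) (.bis 4 7 4 1 446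
  (.leaf 7) (.leaf 7))))) (.bis 2 4 1 2 493 (.bis 4 6 2 1 553 (.bis 5 6 2 1 548 (.leaf 8) (.bis 5
  7 4 1 444 (.leaf 3) (.bis 5 8 16 1 505 (.leaf 3) (.bis 0 5 1 4 514 (.bis 1 5 1 4 515 (.bis 3 5
  1 4 516 (.leaf 15) (.leaf 3)) (.leaf 3)) (.leaf 3))))) (.bis 5 7 4 1 444 (.bis 4 8 16 1 496
  (.leaf 3) (.bis 4 7 4 1 446 (.leaf 3) (.bis 0 4 1 4 557 (.leaf 7) (.leaf 3)))) (.bis 5 8 16 1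
  505 (.bis 4 8 16 1 496 (.leaf 3) (.bis 4 5 32 1 517 (.leaf 3) (.bis 0 4 1 4 557 (.leaf 7)
  (.leaf 3)))) (.bis 0 5 1 4 514 (.bis 1 5 1 4 515 (.bis 3 5 1 4 516 (.bis 4 5 1 1 393 (.leaf 15)
  (.bis 4 8 32 1 517 (.leaf 7) (.leaf 7))) (.bis 4 8 32 1 517 (.leaf 3) (.bis 3 4 1 4 560 (.leaf
  7) (.leaf 3)))) (.bis 4 8 32 1 517 (.leaf 3) (.bis 1 4 1 4 561 (.leaf 7) (.leaf 3)))) (.bis 4 8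
  32 1 517 (.leaf 3) (.bis 0 4 1 4 557 (.leaf 7) (.leaf 3))))))) (.bis 2 5 1 2 504 (.bis 5 6 2 1
  548 (.leaf 8) (.bis 5 7 4 1 444 (.leaf 3) (.bis 5 8 16 1 505 (.leaf 3) (.bis 0 5 1 4 514 (.bis
  1 5 1 4 515 (.bis 3 5 1 4 516 (.leaf 15) (.leaf 3)) (.leaf 3)) (.leaf 3))))) (.leaf 8)))) (.bis
  1 4 1 2 497 (.bis 2 4 1 2 493 (.bis 4 6 2 1 553 (.bis 5 6 2 1 548 (.leaf 8) (.bis 5 7 4 1 444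
  (.leaf 3) (.bis 5 8 16 1 505 (.leaf 3) (.bis 0 5 1 4 514 (.bis 3 5 1 4 515 (.bis 1 5 1 4 510
  (.leaf 15) (.leaf 3)) (.leaf 3)) (.leaf 3))))) (.bis 5 7 4 1 444 (.bis 4 8 16 1 496 (.leaf 3)
  (.bis 4 7 4 1 446 (.leaf 3) (.leaf 7))) (.bis 5 8 16 1 505 (.bis 4 8 16 1 496 (.leaf 3) (.bis 4
  5 32 1 517 (.leaf 3) (.leaf 7))) (.bis 0 5 1 4 514 (.bis 3 5 1 4 515 (.bis 4 5 1 1 393 (.leaf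
  15) (.bis 4 8 32 1 517 (.leaf 7) (.leaf 7))) (.bis 4 8 32 1 517 (.leaf 3) (.bis 3 4 1 4 561
  (.leaf 7) (.leaf 3)))) (.bis 4 8 32 1 517 (.leaf 3) (.bis 0 4 1 4 557 (.leaf 7) (.leaf 3)))))))
  (.bis 2 5 1 2 504 (.bis 5 6 2 1 548 (.leaf 8) (.bis 5 7 4 1 444 (.leaf 3) (.bis 5 8 16 1 505
  (.leaf 3) (.bis 0 5 1 4 514 (.bis 3 5 1 4 515 (.leaf 15) (.leaf 3)) (.leaf 3))))) (.leaf 8)))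
  (.bis 1 5 1 2 503 (.bis 2 5 1 2 504 (.bis 5 6 2 1 548 (.leaf 8) (.bis 5 7 4 1 444 (.leaf 3)
  (.bis 5 8 16 1 505 (.leaf 3) (.bis 0 5 1 4 514 (.bis 3 5 1 4 515 (.leaf 15) (.leaf 3)) (.leaf
  3))))) (.leaf 8)) (.leaf 8)))) (.bis 0 4 1 2 492 (.bis 1 4 1 2 497 (.bis 2 4 1 2 493 (.bis 4 6
  2 1 553 (.bis 5 6 2 1 548 (.leaf 8) (.bis 5 7 4 1 444 (.leaf 3) (.bis 5 8 16 1 505 (.leaf 3)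
  (.bis 3 5 1 4 514 (.bis 0 5 1 4 508 (.bis 1 5 1 4 510 (.leaf 15) (.leaf 3)) (.leaf 3)) (.leaf
  3))))) (.bis 5 7 4 1 444 (.bis 4 8 16 1 496 (.leaf 3) (.bis 4 7 4 1 446 (.leaf 3) (.leaf 7)))
  (.bis 5 8 16 1 505 (.bis 4 8 16 1 496 (.leaf 3) (.bis 4 5 32 1 517 (.leaf 3) (.leaf 7))) (.bis
  3 5 1 4 514 (.bis 4 5 1 1 393 (.bis 0 5 1 4 508 (.leaf 15) (.leaf 7)) (.bis 4 8 32 1 517 (.leaf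
  7) (.leaf 7))) (.bis 4 8 32 1 517 (.leaf 3) (.bis 3 4 1 4 557 (.leaf 7) (.leaf 3))))))) (.bis 2
  5 1 2 504 (.bis 5 6 2 1 548 (.leaf 8) (.bis 5 7 4 1 444 (.leaf 3) (.bis 5 8 16 1 505 (.leaf 3)
  (.bis 3 5 1 4 514 (.bis 0 5 1 4 508 (.leaf 15) (.leaf 3)) (.leaf 3))))) (.leaf 8))) (.bis 1 5 1
  2 503 (.bis 2 5 1 2 504 (.bis 5 6 2 1 548 (.leaf 8) (.bis 5 7 4 1 444 (.leaf 3) (.bis 5 8 16 1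
  505 (.leaf 3) (.bis 3 5 1 4 514 (.bis 0 5 1 4 508 (.leaf 15) (.leaf 3)) (.leaf 3))))) (.leaf
  8)) (.leaf 8))) (.bis 0 5 1 2 502 (.bis 1 5 1 2 503 (.bis 2 5 1 2 504 (.bis 5 6 2 1 548 (.leaf
  8) (.bis 5 7 4 1 444 (.leaf 3) (.bis 5 8 16 1 505 (.leaf 3) (.bis 3 5 1 4 514 (.leaf 15) (.leaf
  3))))) (.leaf 8)) (.leaf 8)) (.leaf 8)))))))

def lc33 : List Vr := [⟨[24,0,0,0,0,0,85,0,0], 38617, 0⟩, ⟨[0,28,0,0,0,0,85,0,0], 38081, 0⟩, ⟨[0,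
  0,17,0,0,0,85,0,0], 37281, 0⟩, ⟨[0,0,0,13,0,0,0,0,0], 6760, 0⟩, ⟨[0,0,0,0,19,0,0,0,0], 7581, 0⟩,
   ⟨[0,0,0,0,0,30,0,0,0], 7200, 0⟩, ⟨[0,0,0,0,0,0,85,0,0], 7225, 0⟩, ⟨[0,0,0,0,0,0,85,42,0],
  42841, 0⟩, ⟨[0,0,0,0,0,0,425,0,155], 444125, 0⟩]

theorem lk33 : chkTr lowT (leafLow 2 lowB) lt33 lc33 = true := by decide +kernel

def lt34 : Tr ℕ := (.bis 4 8 2 1 214 (.bis 3 8 4 1 159 (.bis 2 8 4 1 110 (.bis 1 8 1 1 464 (.bis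
  6 8 1 1 465 (.bis 0 8 1 1 466 (.bis 7 8 1 1 398 (.bis 5 8 1 2 361 (.bis 3 8 1 2 171 (.bis 2 8 1
  2 122 (.leaf 37) (.bis 2 7 1 1 562 (.leaf 24) (.leaf 24))) (.leaf 24)) (.leaf 24)) (.bis 2 7 1
  4 404 (.leaf 30) (.leaf 24))) (.bis 0 4 2 1 475 (.bis 2 7 1 4 404 (.leaf 17) (.leaf 17)) (.bis
  0 2 4 1 563 (.leaf 17) (.bis 0 3 4 1 476 (.leaf 17) (.leaf 30))))) (.bis 4 6 1 2 477 (.bis 2 6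
  1 4 564 (.bis 3 6 1 4 478 (.leaf 41) (.bis 0 3 4 1 476 (.leaf 17) (.leaf 30))) (.bis 0 2 4 1
  563 (.leaf 17) (.bis 0 3 4 1 476 (.leaf 17) (.leaf 30)))) (.bis 0 4 2 1 475 (.bis 2 7 1 4 404
  (.leaf 17) (.leaf 17)) (.bis 0 2 4 1 563 (.leaf 17) (.bis 0 3 4 1 476 (.leaf 17) (.leaf
  30)))))) (.bis 1 2 4 1 565 (.bis 4 6 1 2 477 (.bis 2 6 1 4 564 (.bis 3 6 1 4 478 (.bis 5 6 1 4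
  483 (.leaf 8) (.leaf 8)) (.bis 0 3 4 1 476 (.leaf 17) (.leaf 8))) (.bis 0 2 4 1 563 (.leaf 17)
  (.bis 0 3 4 1 476 (.leaf 17) (.leaf 8)))) (.bis 0 4 2 1 475 (.leaf 17) (.bis 0 2 4 1 563 (.leaf
  17) (.bis 0 3 4 1 476 (.leaf 17) (.leaf 8))))) (.bis 1 4 2 1 479 (.bis 4 6 1 2 477 (.bis 3 6 1
  4 478 (.leaf 8) (.bis 0 3 4 1 476 (.leaf 17) (.leaf 8))) (.leaf 30)) (.bis 1 3 4 1 481 (.bis 3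
  6 1 4 478 (.bis 5 6 1 4 483 (.leaf 8) (.leaf 8)) (.bis 0 3 4 1 476 (.leaf 17) (.leaf 8))) (.bis
  1 5 4 1 480 (.bis 5 6 1 4 483 (.leaf 8) (.leaf 8)) (.bis 1 8 2 1 566 (.leaf 8) (.leaf 8)))))))
  (.bis 1 2 1 2 567 (.bis 2 7 2 1 424 (.bis 4 6 1 2 477 (.bis 6 8 4 1 564 (.bis 0 8 4 1 563
  (.leaf 17) (.bis 0 3 4 1 476 (.leaf 17) (.bis 0 5 4 1 474 (.leaf 8) (.leaf 8)))) (.bis 3 6 1 4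
  478 (.bis 5 6 1 4 483 (.leaf 8) (.bis 0 5 4 1 474 (.leaf 8) (.leaf 8))) (.bis 0 3 4 1 476
  (.leaf 17) (.bis 0 5 4 1 474 (.leaf 8) (.leaf 8))))) (.leaf 30)) (.bis 0 2 1 2 568 (.bis 2 6 2
  1 569 (.bis 4 6 1 2 477 (.leaf 82) (.leaf 17)) (.bis 2 4 4 1 227 (.leaf 17) (.bis 2 5 8 1 365
  (.leaf 17) (.bis 2 3 8 1 186 (.leaf 25) (.leaf 25))))) (.bis 4 6 1 2 477 (.bis 6 8 4 1 564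
  (.leaf 30) (.bis 3 6 1 4 478 (.bis 5 6 1 4 483 (.leaf 8) (.bis 0 5 4 1 474 (.leaf 3) (.leaf
  8))) (.bis 0 3 4 1 476 (.leaf 3) (.bis 0 5 4 1 474 (.leaf 3) (.leaf 8))))) (.bis 0 4 2 1 475
  (.leaf 17) (.leaf 30))))) (.bis 1 8 4 1 565 (.bis 4 6 1 2 477 (.bis 6 8 4 1 564 (.bis 0 8 4 1
  563 (.leaf 17) (.bis 0 3 4 1 476 (.leaf 17) (.bis 0 5 4 1 474 (.leaf 8) (.leaf 8)))) (.bis 3 6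
  1 4 478 (.bis 5 6 1 4 483 (.leaf 8) (.bis 0 5 4 1 474 (.leaf 8) (.leaf 8))) (.bis 0 3 4 1 476
  (.leaf 17) (.bis 0 5 4 1 474 (.leaf 8) (.leaf 8))))) (.leaf 30)) (.bis 1 4 2 1 479 (.bis 4 6 1
  2 477 (.bis 3 6 1 4 478 (.bis 5 6 1 4 483 (.leaf 8) (.leaf 8)) (.bis 0 3 4 1 476 (.leaf 17)
  (.bis 0 5 4 1 474 (.leaf 8) (.leaf 8)))) (.bis 0 4 2 1 475 (.leaf 17) (.bis 0 3 4 1 476 (.leaf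
  17) (.leaf 8)))) (.bis 1 3 4 1 481 (.bis 3 6 1 4 478 (.bis 5 6 1 4 483 (.leaf 8) (.bis 0 5 4 1
  474 (.leaf 8) (.leaf 8))) (.bis 0 3 4 1 476 (.leaf 17) (.bis 0 5 4 1 474 (.leaf 8) (.leaf 8))))
  (.bis 1 5 4 1 480 (.bis 5 6 1 4 483 (.leaf 8) (.bis 0 5 4 1 474 (.leaf 8) (.leaf 8))) (.leaf
  8))))))) (.bis 1 2 1 2 567 (.bis 2 7 2 1 424 (.bis 3 7 2 1 428 (.bis 4 6 1 2 477 (.bis 6 8 4 1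
  478 (.bis 0 8 4 1 476 (.leaf 17) (.bis 0 5 4 1 474 (.leaf 8) (.leaf 8))) (.bis 5 6 1 4 483
  (.leaf 8) (.bis 0 5 4 1 474 (.leaf 8) (.leaf 8)))) (.bis 0 4 2 1 475 (.leaf 17) (.bis 0 8 4 1
  476 (.leaf 17) (.bis 0 5 4 1 474 (.leaf 8) (.leaf 8))))) (.bis 0 3 1 2 484 (.bis 3 6 2 1 485
  (.bis 4 6 1 2 477 (.bis 6 8 4 1 478 (.leaf 3) (.bis 5 6 1 4 483 (.leaf 8) (.bis 1 5 2 1 570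
  (.leaf 3) (.leaf 3)))) (.bis 1 4 1 1 571 (.leaf 17) (.leaf 3))) (.bis 3 4 4 1 244 (.bis 1 4 1 1
  571 (.leaf 17) (.leaf 3)) (.bis 3 5 8 1 366 (.leaf 3) (.bis 3 8 8 1 572 (.leaf 3) (.leaf 7)))))
  (.bis 4 6 1 2 477 (.bis 6 8 4 1 478 (.leaf 30) (.bis 5 6 1 4 483 (.leaf 8) (.bis 0 5 4 1 474
  (.leaf 3) (.leaf 8)))) (.bis 0 4 2 1 475 (.leaf 17) (.leaf 30))))) (.bis 0 2 1 2 568 (.bis 2 6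
  2 1 569 (.bis 3 6 2 1 485 (.bis 4 6 1 2 477 (.bis 6 8 4 1 478 (.bis 2 5 2 1 573 (.leaf 3) (.bis
  2 8 2 1 574 (.leaf 3) (.leaf 3))) (.bis 5 6 1 4 483 (.leaf 8) (.bis 2 5 2 1 573 (.leaf 3)
  (.leaf 3)))) (.bis 1 4 1 1 571 (.bis 2 4 1 1 575 (.leaf 17) (.leaf 3)) (.leaf 3))) (.bis 3 4 4
  1 244 (.bis 1 4 1 1 571 (.leaf 17) (.bis 2 5 2 1 573 (.leaf 3) (.leaf 3))) (.bis 3 5 8 1 366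
  (.bis 2 5 2 1 573 (.leaf 3) (.leaf 3)) (.bis 3 8 8 1 572 (.leaf 3) (.leaf 7))))) (.bis 2 4 4 1
  227 (.bis 3 4 4 1 244 (.bis 1 4 1 1 571 (.leaf 17) (.leaf 3)) (.bis 3 5 8 1 366 (.leaf 3) (.bis
  3 8 8 1 572 (.leaf 3) (.leaf 7)))) (.bis 2 5 8 1 365 (.bis 3 5 8 1 366 (.leaf 3) (.bis 3 8 8 1
  572 (.leaf 3) (.leaf 7))) (.bis 2 8 8 1 186 (.bis 3 8 8 1 572 (.leaf 3) (.leaf 7)) (.leaf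
  7))))) (.bis 0 3 1 2 484 (.bis 3 6 2 1 485 (.bis 4 6 1 2 477 (.bis 6 8 4 1 478 (.bis 1 5 2 1
  570 (.leaf 3) (.bis 1 8 2 1 576 (.leaf 3) (.leaf 3))) (.bis 5 6 1 4 483 (.leaf 8) (.bis 1 5 2 1
  570 (.leaf 3) (.leaf 3)))) (.bis 1 4 1 1 571 (.bis 3 4 1 1 498 (.leaf 17) (.leaf 3)) (.leaf
  3))) (.bis 3 4 4 1 244 (.bis 1 4 1 1 571 (.leaf 17) (.leaf 3)) (.bis 3 5 8 1 366 (.leaf 3)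
  (.bis 3 8 8 1 572 (.leaf 3) (.leaf 7))))) (.bis 4 6 1 2 477 (.bis 6 8 4 1 478 (.bis 0 8 4 1 476
  (.leaf 3) (.bis 0 5 4 1 474 (.bis 1 5 2 1 570 (.leaf 3) (.leaf 3)) (.leaf 8))) (.bis 5 6 1 4
  483 (.leaf 8) (.bis 0 5 4 1 474 (.leaf 3) (.leaf 8)))) (.bis 0 4 2 1 475 (.bis 1 4 1 1 571
  (.leaf 17) (.leaf 3)) (.leaf 30)))))) (.bis 3 7 2 1 428 (.bis 1 4 2 1 479 (.bis 4 6 1 2 477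
  (.bis 6 8 4 1 478 (.bis 0 8 4 1 476 (.leaf 17) (.bis 0 5 4 1 474 (.leaf 8) (.leaf 8))) (.bis 5
  6 1 4 483 (.leaf 8) (.leaf 8))) (.bis 0 4 2 1 475 (.leaf 17) (.bis 0 8 4 1 476 (.leaf 17)
  (.leaf 8)))) (.bis 1 8 4 1 481 (.bis 6 8 4 1 478 (.bis 0 8 4 1 476 (.leaf 17) (.bis 0 5 4 1 474
  (.leaf 8) (.leaf 8))) (.bis 5 6 1 4 483 (.leaf 8) (.bis 0 5 4 1 474 (.leaf 8) (.leaf 8))))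
  (.bis 1 5 4 1 480 (.bis 5 6 1 4 483 (.leaf 8) (.bis 0 5 4 1 474 (.leaf 8) (.leaf 8))) (.leaf
  8)))) (.bis 0 3 1 2 484 (.bis 1 4 2 1 479 (.bis 3 6 2 1 485 (.bis 4 6 1 2 477 (.bis 6 8 4 1 478
  (.leaf 3) (.bis 5 6 1 4 483 (.leaf 8) (.leaf 3))) (.bis 2 4 1 1 571 (.leaf 17) (.leaf 3)))
  (.bis 3 4 4 1 244 (.bis 2 4 1 1 571 (.leaf 17) (.leaf 3)) (.bis 3 5 8 1 366 (.leaf 3) (.bis 1 3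
  1 8 486 (.leaf 25) (.leaf 3))))) (.bis 1 3 1 2 488 (.bis 3 6 2 1 485 (.bis 6 8 4 1 478 (.bis 1
  5 2 1 489 (.leaf 3) (.bis 1 8 2 1 577 (.leaf 3) (.leaf 3))) (.bis 5 6 1 4 483 (.leaf 8) (.bis 1
  5 2 1 489 (.leaf 3) (.leaf 3)))) (.bis 3 5 8 1 366 (.leaf 3) (.bis 3 4 8 1 486 (.leaf 3) (.bis
  3 8 8 1 572 (.leaf 3) (.leaf 7))))) (.bis 1 8 4 1 481 (.bis 6 8 4 1 478 (.leaf 3) (.bis 5 6 1 4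
  483 (.leaf 8) (.bis 3 5 2 1 489 (.leaf 3) (.leaf 3)))) (.bis 1 5 4 1 480 (.bis 5 6 1 4 483
  (.leaf 8) (.bis 3 5 2 1 489 (.leaf 3) (.leaf 3))) (.leaf 8))))) (.bis 1 4 2 1 479 (.bis 4 6 1 2
  477 (.bis 6 8 4 1 478 (.leaf 30) (.bis 5 6 1 4 483 (.leaf 8) (.leaf 8))) (.bis 0 4 2 1 475
  (.leaf 17) (.leaf 30))) (.bis 1 8 4 1 481 (.bis 6 8 4 1 478 (.bis 0 8 4 1 476 (.leaf 3) (.bis 0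
  5 4 1 474 (.leaf 3) (.leaf 8))) (.bis 5 6 1 4 483 (.leaf 8) (.bis 0 5 4 1 474 (.leaf 3) (.leaf
  8)))) (.bis 1 5 4 1 480 (.bis 5 6 1 4 483 (.leaf 8) (.bis 0 5 4 1 474 (.leaf 3) (.leaf 8)))
  (.leaf 8)))))))) (.bis 1 2 1 2 567 (.bis 2 7 2 1 424 (.bis 3 7 2 1 428 (.bis 4 7 2 1 433 (.bis
  6 8 2 1 477 (.bis 0 8 2 1 475 (.bis 7 8 2 1 405 (.leaf 17) (.leaf 8)) (.bis 0 5 4 1 474 (.leaf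
  8) (.leaf 8))) (.bis 5 6 1 4 483 (.leaf 8) (.bis 0 5 4 1 474 (.leaf 8) (.leaf 8)))) (.bis 0 4 1
  2 492 (.bis 4 6 2 1 493 (.bis 6 8 2 1 477 (.bis 1 8 1 1 571 (.bis 4 8 1 1 494 (.leaf 17) (.leaf
  3)) (.bis 1 5 2 1 570 (.leaf 3) (.leaf 3))) (.bis 5 6 1 4 483 (.leaf 8) (.bis 1 5 2 1 570
  (.leaf 3) (.leaf 3)))) (.bis 4 8 4 1 277 (.bis 1 8 1 1 571 (.bis 6 8 1 1 494 (.leaf 17) (.leaf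
  3)) (.leaf 3)) (.bis 4 5 8 1 368 (.leaf 3) (.bis 2 4 1 4 447 (.leaf 7) (.leaf 3))))) (.bis 6 8
  2 1 477 (.bis 0 8 2 1 475 (.bis 1 8 1 1 571 (.leaf 17) (.leaf 3)) (.bis 0 5 4 1 474 (.leaf 3)
  (.leaf 8))) (.bis 5 6 1 4 483 (.leaf 8) (.bis 0 5 4 1 474 (.leaf 3) (.leaf 8)))))) (.bis 0 3 1
  2 484 (.bis 3 6 2 1 485 (.bis 4 6 2 1 493 (.bis 6 8 2 1 477 (.bis 1 8 1 1 571 (.bis 3 8 1 1 498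
  (.bis 4 8 1 1 494 (.leaf 17) (.leaf 3)) (.leaf 3)) (.bis 1 5 2 1 570 (.leaf 3) (.leaf 3)))
  (.bis 5 6 1 4 483 (.leaf 8) (.bis 1 5 2 1 570 (.leaf 3) (.leaf 3)))) (.bis 4 8 4 1 277 (.bis 1
  8 1 1 571 (.bis 3 8 1 1 498 (.leaf 17) (.leaf 3)) (.bis 1 5 2 1 570 (.leaf 3) (.leaf 3))) (.bis
  4 5 8 1 368 (.bis 1 5 2 1 570 (.leaf 3) (.leaf 3)) (.bis 2 4 1 4 447 (.bis 4 7 4 1 446 (.leaf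
  3) (.leaf 7)) (.leaf 3))))) (.bis 3 8 4 1 244 (.bis 4 8 4 1 277 (.bis 1 8 1 1 571 (.leaf 17)
  (.leaf 3)) (.bis 4 5 8 1 368 (.leaf 3) (.bis 2 4 1 4 447 (.leaf 7) (.leaf 3)))) (.bis 3 5 8 1
  366 (.bis 4 5 8 1 368 (.leaf 3) (.bis 2 4 1 4 447 (.bis 4 7 4 1 446 (.leaf 3) (.leaf 7)) (.leaf
  3))) (.bis 2 4 1 4 447 (.leaf 7) (.bis 2 3 1 4 578 (.leaf 7) (.leaf 3)))))) (.bis 0 4 1 2 492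
  (.bis 4 6 2 1 493 (.bis 6 8 2 1 477 (.bis 1 8 1 1 571 (.bis 4 8 1 1 494 (.leaf 17) (.leaf 3))
  (.bis 1 5 2 1 570 (.leaf 3) (.leaf 3))) (.bis 5 6 1 4 483 (.leaf 8) (.bis 1 5 2 1 570 (.leaf 3)
  (.leaf 3)))) (.bis 4 8 4 1 277 (.bis 1 8 1 1 571 (.bis 6 8 1 1 494 (.leaf 17) (.leaf 3)) (.bis
  1 5 2 1 570 (.leaf 3) (.leaf 3))) (.bis 4 5 8 1 368 (.bis 1 5 2 1 570 (.leaf 3) (.leaf 3))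
  (.bis 2 4 1 4 447 (.leaf 7) (.leaf 3))))) (.bis 6 8 2 1 477 (.bis 0 8 2 1 475 (.bis 1 8 1 1 571
  (.bis 3 8 1 1 499 (.leaf 17) (.leaf 3)) (.leaf 3)) (.bis 0 5 4 1 474 (.leaf 3) (.leaf 8)))
  (.bis 5 6 1 4 483 (.leaf 8) (.bis 0 5 4 1 474 (.leaf 3) (.leaf 8))))))) (.bis 0 2 1 2 568 (.bis
  2 6 2 1 569 (.bis 3 6 2 1 485 (.bis 4 6 2 1 493 (.bis 6 8 2 1 477 (.bis 1 8 1 1 571 (.bis 2 8 1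
  1 575 (.bis 3 8 1 1 498 (.leaf 17) (.leaf 3)) (.leaf 3)) (.bis 2 5 2 1 573 (.leaf 3) (.leaf
  3))) (.bis 5 6 1 4 483 (.leaf 8) (.bis 2 5 2 1 573 (.bis 1 5 2 1 570 (.leaf 3) (.leaf 3))
  (.leaf 3)))) (.bis 4 8 4 1 277 (.bis 1 8 1 1 571 (.bis 2 8 1 1 575 (.bis 3 8 1 1 498 (.leaf 17)
  (.leaf 3)) (.leaf 3)) (.bis 2 5 2 1 573 (.leaf 3) (.leaf 3))) (.bis 4 5 8 1 368 (.bis 2 5 2 1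
  573 (.leaf 3) (.leaf 3)) (.bis 4 7 4 1 447 (.leaf 3) (.bis 0 4 1 4 579 (.leaf 7) (.leaf 3))))))
  (.bis 3 8 4 1 244 (.bis 4 8 4 1 277 (.bis 1 8 1 1 571 (.bis 2 8 1 1 575 (.leaf 17) (.leaf 3))
  (.bis 2 5 2 1 573 (.leaf 3) (.leaf 3))) (.bis 4 5 8 1 368 (.leaf 3) (.bis 4 7 4 1 447 (.leaf 3)
  (.bis 0 4 1 4 579 (.leaf 7) (.leaf 3))))) (.bis 3 5 8 1 366 (.bis 4 5 8 1 368 (.bis 2 5 2 1 573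
  (.leaf 3) (.leaf 3)) (.bis 4 7 4 1 447 (.leaf 3) (.bis 0 4 1 4 579 (.leaf 7) (.leaf 3)))) (.bis
  4 7 4 1 447 (.bis 3 7 4 1 578 (.leaf 3) (.leaf 7)) (.bis 0 4 1 4 579 (.leaf 7) (.leaf 7))))))
  (.bis 2 8 4 1 227 (.bis 3 8 4 1 244 (.bis 4 8 4 1 277 (.bis 1 8 1 1 571 (.leaf 17) (.leaf 3))
  (.bis 4 5 8 1 368 (.leaf 3) (.bis 4 7 4 1 447 (.leaf 3) (.bis 0 4 1 4 579 (.leaf 7) (.leaf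
  3))))) (.bis 3 5 8 1 366 (.bis 4 5 8 1 368 (.leaf 3) (.bis 4 7 4 1 447 (.leaf 3) (.bis 0 4 1 4
  579 (.leaf 7) (.leaf 3)))) (.bis 4 7 4 1 447 (.bis 3 7 4 1 578 (.leaf 3) (.leaf 7)) (.bis 0 4 1
  4 579 (.leaf 7) (.leaf 7))))) (.bis 2 5 8 1 365 (.bis 3 5 8 1 366 (.bis 4 5 8 1 368 (.leaf 3)
  (.bis 4 7 4 1 447 (.leaf 3) (.bis 0 4 1 4 579 (.leaf 7) (.leaf 3)))) (.bis 4 7 4 1 447 (.bis 3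
  7 4 1 578 (.leaf 3) (.leaf 7)) (.bis 0 4 1 4 579 (.leaf 7) (.leaf 7)))) (.bis 4 7 4 1 447 (.bis
  3 7 4 1 578 (.leaf 7) (.leaf 7)) (.bis 2 4 1 1 396 (.leaf 7) (.leaf 7)))))) (.bis 0 3 1 2 484
  (.bis 3 6 2 1 485 (.bis 4 6 2 1 493 (.bis 6 8 2 1 477 (.bis 1 8 1 1 571 (.bis 3 8 1 1 498 (.bis
  4 8 1 1 494 (.leaf 17) (.leaf 3)) (.leaf 3)) (.bis 1 5 2 1 570 (.leaf 3) (.leaf 3))) (.bis 5 6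
  1 4 483 (.leaf 8) (.bis 1 5 2 1 570 (.bis 2 5 2 1 580 (.leaf 3) (.leaf 3)) (.leaf 3)))) (.bis 4
  8 4 1 277 (.bis 1 8 1 1 571 (.bis 3 8 1 1 498 (.bis 6 8 1 1 494 (.leaf 17) (.leaf 3)) (.leaf
  3)) (.bis 1 5 2 1 570 (.leaf 3) (.leaf 3))) (.bis 4 5 8 1 368 (.bis 1 5 2 1 570 (.leaf 3)
  (.leaf 3)) (.bis 4 7 4 1 447 (.leaf 3) (.bis 2 4 1 4 579 (.leaf 7) (.leaf 3)))))) (.bis 3 8 4 1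
  244 (.bis 4 8 4 1 277 (.bis 1 8 1 1 571 (.bis 6 8 1 1 498 (.leaf 17) (.leaf 3)) (.leaf 3))
  (.bis 4 5 8 1 368 (.leaf 3) (.bis 4 7 4 1 447 (.leaf 3) (.bis 2 4 1 4 579 (.leaf 7) (.leaf
  3))))) (.bis 3 5 8 1 366 (.bis 4 5 8 1 368 (.bis 1 5 2 1 570 (.leaf 3) (.leaf 3)) (.bis 4 7 4 1
  447 (.leaf 3) (.bis 2 4 1 4 579 (.leaf 7) (.leaf 3)))) (.bis 4 7 4 1 447 (.bis 3 7 4 1 578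
  (.leaf 3) (.leaf 7)) (.bis 2 4 1 4 579 (.leaf 7) (.leaf 7)))))) (.bis 0 4 1 2 492 (.bis 4 6 2 1
  493 (.bis 6 8 2 1 477 (.bis 1 8 1 1 571 (.bis 4 8 1 1 494 (.bis 2 8 1 1 581 (.leaf 17) (.leaf
  3)) (.leaf 3)) (.bis 1 5 2 1 570 (.leaf 3) (.leaf 3))) (.bis 5 6 1 4 483 (.leaf 8) (.bis 1 5 2
  1 570 (.leaf 3) (.leaf 3)))) (.bis 4 8 4 1 277 (.bis 1 8 1 1 571 (.bis 6 8 1 1 494 (.bis 2 8 1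
  1 581 (.leaf 17) (.leaf 3)) (.leaf 3)) (.bis 1 5 2 1 570 (.leaf 3) (.leaf 3))) (.bis 4 5 8 1
  368 (.bis 1 5 2 1 570 (.leaf 3) (.leaf 3)) (.bis 4 7 4 1 447 (.leaf 3) (.leaf 7))))) (.bis 6 8
  2 1 477 (.bis 0 8 2 1 475 (.bis 1 8 1 1 571 (.bis 2 8 1 1 581 (.leaf 17) (.leaf 3)) (.leaf 3))
  (.bis 0 5 4 1 474 (.leaf 3) (.leaf 8))) (.bis 5 6 1 4 483 (.leaf 8) (.bis 0 5 4 1 474 (.bis 1 5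
  2 1 570 (.leaf 3) (.leaf 3)) (.leaf 8)))))))) (.bis 3 7 2 1 428 (.bis 4 7 2 1 433 (.bis 1 8 2 1
  479 (.bis 6 8 2 1 477 (.bis 0 8 2 1 475 (.bis 7 8 2 1 405 (.leaf 17) (.leaf 8)) (.leaf 8))
  (.bis 5 6 1 4 483 (.leaf 8) (.leaf 8))) (.bis 1 5 4 1 480 (.bis 5 6 1 4 483 (.leaf 8) (.bis 0 5
  4 1 474 (.leaf 8) (.leaf 8))) (.leaf 8))) (.bis 1 8 2 1 479 (.bis 0 4 1 2 492 (.bis 4 6 2 1 493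
  (.bis 6 8 2 1 477 (.bis 2 8 1 1 571 (.bis 4 8 1 1 494 (.leaf 17) (.leaf 3)) (.leaf 3)) (.bis 5
  6 1 4 483 (.leaf 8) (.leaf 3))) (.bis 4 8 4 1 277 (.bis 2 8 1 1 571 (.bis 6 8 1 1 494 (.leaf
  17) (.leaf 3)) (.leaf 3)) (.bis 4 5 8 1 368 (.leaf 3) (.bis 1 4 1 8 495 (.leaf 7) (.leaf 3)))))
  (.bis 6 8 2 1 477 (.bis 0 8 2 1 475 (.bis 2 8 1 1 571 (.leaf 17) (.leaf 3)) (.leaf 8)) (.bis 5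
  6 1 4 483 (.leaf 8) (.leaf 8)))) (.bis 0 4 1 2 492 (.bis 1 4 1 2 497 (.bis 4 6 2 1 493 (.bis 5
  6 1 4 483 (.leaf 8) (.bis 2 5 2 1 570 (.leaf 3) (.leaf 3))) (.bis 4 5 8 1 368 (.bis 2 5 2 1 570
  (.leaf 3) (.leaf 3)) (.bis 4 8 8 1 495 (.leaf 3) (.bis 3 4 1 4 446 (.leaf 7) (.leaf 3)))))
  (.bis 1 5 4 1 480 (.bis 5 6 1 4 483 (.leaf 8) (.leaf 3)) (.leaf 8))) (.bis 1 5 4 1 480 (.bis 5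
  6 1 4 483 (.leaf 8) (.bis 0 5 4 1 474 (.leaf 3) (.leaf 8))) (.leaf 8))))) (.bis 0 3 1 2 484
  (.bis 1 8 2 1 479 (.bis 3 6 2 1 485 (.bis 4 6 2 1 493 (.bis 6 8 2 1 477 (.bis 2 8 1 1 571 (.bis
  3 8 1 1 498 (.leaf 17) (.leaf 3)) (.leaf 3)) (.bis 5 6 1 4 483 (.leaf 8) (.bis 2 5 2 1 570
  (.leaf 3) (.leaf 3)))) (.bis 4 8 4 1 277 (.bis 2 8 1 1 571 (.bis 3 8 1 1 498 (.leaf 17) (.leaf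
  3)) (.leaf 3)) (.bis 4 5 8 1 368 (.leaf 3) (.bis 1 4 1 8 495 (.bis 4 7 4 1 446 (.leaf 3) (.leaf
  7)) (.leaf 3))))) (.bis 3 8 4 1 244 (.bis 4 8 4 1 277 (.bis 2 8 1 1 571 (.leaf 17) (.leaf 3))
  (.bis 4 5 8 1 368 (.leaf 3) (.bis 1 4 1 8 495 (.bis 4 7 4 1 446 (.leaf 3) (.leaf 7)) (.leaf
  3)))) (.bis 3 5 8 1 366 (.bis 4 5 8 1 368 (.leaf 3) (.bis 1 4 1 8 495 (.bis 4 7 4 1 446 (.leaf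
  3) (.leaf 7)) (.leaf 3))) (.bis 1 3 1 8 486 (.bis 4 7 4 1 446 (.leaf 7) (.leaf 7)) (.bis 1 4 1
  8 495 (.bis 4 7 4 1 446 (.leaf 3) (.bis 2 4 1 4 582 (.leaf 7) (.leaf 3))) (.leaf 3)))))) (.bis
  1 3 1 2 488 (.bis 3 6 2 1 485 (.bis 4 6 2 1 493 (.bis 5 6 1 4 483 (.leaf 8) (.bis 1 5 2 1 489
  (.bis 2 5 2 1 570 (.leaf 3) (.leaf 3)) (.leaf 3))) (.bis 4 5 8 1 368 (.bis 1 5 2 1 489 (.leaf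
  3) (.leaf 3)) (.bis 4 8 8 1 495 (.leaf 3) (.bis 4 7 4 1 446 (.leaf 3) (.bis 2 4 1 4 582 (.leaf
  7) (.leaf 3)))))) (.bis 3 5 8 1 366 (.bis 4 5 8 1 368 (.leaf 3) (.bis 4 8 8 1 495 (.leaf 3)
  (.bis 4 7 4 1 446 (.leaf 3) (.leaf 7)))) (.bis 3 8 8 1 486 (.bis 4 8 8 1 495 (.leaf 3) (.bis 4
  7 4 1 446 (.leaf 3) (.bis 2 4 1 4 582 (.leaf 7) (.leaf 3)))) (.bis 4 7 4 1 446 (.bis 3 7 4 1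
  583 (.leaf 3) (.leaf 7)) (.leaf 7))))) (.bis 1 4 1 2 497 (.bis 4 6 2 1 493 (.bis 5 6 1 4 483
  (.leaf 8) (.bis 3 5 2 1 489 (.bis 2 5 2 1 570 (.leaf 3) (.leaf 3)) (.leaf 3))) (.bis 4 5 8 1
  368 (.bis 3 5 2 1 489 (.leaf 3) (.leaf 3)) (.bis 4 8 8 1 495 (.leaf 3) (.bis 4 7 4 1 446 (.leaf
  3) (.leaf 7))))) (.bis 1 5 4 1 480 (.bis 5 6 1 4 483 (.leaf 8) (.bis 3 5 2 1 489 (.leaf 3)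
  (.leaf 3))) (.leaf 8))))) (.bis 1 8 2 1 479 (.bis 0 4 1 2 492 (.bis 4 6 2 1 493 (.bis 6 8 2 1
  477 (.bis 2 8 1 1 571 (.bis 4 8 1 1 494 (.leaf 17) (.leaf 3)) (.leaf 3)) (.bis 5 6 1 4 483
  (.leaf 8) (.leaf 3))) (.bis 4 8 4 1 277 (.bis 2 8 1 1 571 (.bis 6 8 1 1 494 (.leaf 17) (.leaf
  3)) (.leaf 3)) (.bis 4 5 8 1 368 (.leaf 3) (.bis 1 4 1 8 495 (.bis 4 7 4 1 446 (.leaf 3) (.leaf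
  7)) (.leaf 3))))) (.bis 6 8 2 1 477 (.bis 0 8 2 1 475 (.bis 2 8 1 1 571 (.leaf 17) (.leaf 3))
  (.leaf 8)) (.bis 5 6 1 4 483 (.leaf 8) (.bis 0 5 4 1 474 (.leaf 3) (.leaf 8))))) (.bis 0 4 1 2
  492 (.bis 1 4 1 2 497 (.bis 4 6 2 1 493 (.bis 5 6 1 4 483 (.leaf 8) (.bis 2 5 2 1 570 (.leaf 3)
  (.leaf 3))) (.bis 4 5 8 1 368 (.bis 2 5 2 1 570 (.leaf 3) (.leaf 3)) (.bis 4 8 8 1 495 (.leaf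
  3) (.bis 4 7 4 1 446 (.leaf 3) (.leaf 7))))) (.bis 1 5 4 1 480 (.bis 5 6 1 4 483 (.leaf 8)
  (.bis 2 5 2 1 570 (.leaf 3) (.leaf 3))) (.leaf 8))) (.bis 1 5 4 1 480 (.bis 5 6 1 4 483 (.leaf
  8) (.bis 0 5 4 1 474 (.leaf 3) (.leaf 8))) (.leaf 8))))))))

def lc34 : List Vr := [⟨[24,0,0,0,0,0,85,0,0], 38617, 0⟩, ⟨[0,28,0,0,0,0,85,0,0], 38081, 0⟩, ⟨[0,
  0,17,0,0,0,0,0,0], 6936, 0⟩, ⟨[0,0,0,13,0,0,0,0,0], 6760, 0⟩, ⟨[0,0,0,0,19,0,0,0,0], 7581, 0⟩,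
  ⟨[0,0,0,0,0,120,85,0,155], 405525, 0⟩, ⟨[0,0,17,0,0,0,85,0,0], 37281, 0⟩, ⟨[0,0,0,0,0,0,85,42,
  0], 42841, 0⟩, ⟨[0,0,0,0,0,0,85,0,155], 59925, 0⟩]

theorem lk34 : chkTr lowT (leafLow 2 lowB) lt34 lc34 = true := by decide +kernel

def lt35 : Tr ℕ := (.bis 2 7 2 1 424 (.bis 3 7 2 1 428 (.bis 4 7 2 1 433 (.bis 5 7 2 1 439 (.bis
  6 8 4 1 483 (.bis 0 8 4 1 474 (.leaf 8) (.leaf 8)) (.leaf 8)) (.bis 0 5 1 2 502 (.bis 5 6 2 1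
  504 (.bis 6 8 4 1 483 (.leaf 3) (.leaf 8)) (.bis 2 5 1 4 443 (.bis 3 5 1 4 444 (.bis 1 5 1 4
  584 (.bis 4 5 1 4 445 (.leaf 15) (.leaf 3)) (.leaf 3)) (.leaf 3)) (.bis 1 8 2 1 570 (.leaf 3)
  (.leaf 3)))) (.bis 6 8 4 1 483 (.bis 0 8 4 1 474 (.leaf 3) (.leaf 8)) (.leaf 8)))) (.bis 0 4 1
  2 492 (.bis 4 6 2 1 493 (.bis 5 6 2 1 504 (.bis 6 8 4 1 483 (.bis 1 8 2 1 570 (.leaf 3) (.leaf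
  3)) (.leaf 8)) (.bis 2 5 1 4 443 (.bis 3 5 1 4 444 (.bis 1 5 1 4 584 (.bis 5 7 4 1 445 (.bis 4
  8 2 1 512 (.leaf 3) (.leaf 3)) (.bis 0 5 1 4 508 (.bis 4 5 1 4 511 (.bis 5 8 8 1 507 (.leaf 3)
  (.leaf 15)) (.bis 4 8 2 1 512 (.leaf 3) (.leaf 3))) (.bis 4 8 2 1 512 (.leaf 3) (.leaf 3))))
  (.bis 1 8 2 1 570 (.leaf 3) (.leaf 3))) (.bis 1 8 2 1 570 (.leaf 3) (.leaf 3))) (.bis 1 8 2 1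
  570 (.leaf 3) (.leaf 3)))) (.bis 2 5 1 4 443 (.bis 4 8 8 1 368 (.bis 3 5 1 4 444 (.bis 1 5 1 4
  584 (.bis 5 7 4 1 445 (.leaf 3) (.bis 0 5 1 4 508 (.leaf 15) (.leaf 3))) (.leaf 3)) (.leaf 3))
  (.bis 3 5 1 4 444 (.bis 1 5 1 4 584 (.bis 4 5 1 1 393 (.bis 5 7 4 1 445 (.leaf 7) (.leaf 15))
  (.leaf 7)) (.bis 1 4 1 4 582 (.leaf 7) (.leaf 3))) (.bis 3 4 1 4 446 (.leaf 7) (.leaf 3))))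
  (.bis 4 8 8 1 368 (.bis 1 8 2 1 570 (.leaf 3) (.leaf 3)) (.bis 2 4 1 4 447 (.bis 3 4 1 4 446
  (.leaf 7) (.leaf 3)) (.leaf 3))))) (.bis 0 5 1 2 502 (.bis 5 6 2 1 504 (.bis 6 8 4 1 483 (.bis
  1 8 2 1 570 (.leaf 3) (.leaf 3)) (.leaf 8)) (.bis 2 5 1 4 443 (.bis 3 5 1 4 444 (.bis 1 5 1 4
  584 (.bis 5 7 4 1 445 (.leaf 3) (.leaf 15)) (.bis 1 8 2 1 570 (.leaf 3) (.leaf 3))) (.bis 1 8 2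
  1 570 (.leaf 3) (.leaf 3))) (.bis 1 8 2 1 570 (.leaf 3) (.leaf 3)))) (.bis 6 8 4 1 483 (.bis 0
  8 4 1 474 (.leaf 3) (.leaf 8)) (.leaf 8))))) (.bis 0 3 1 2 484 (.bis 3 6 2 1 485 (.bis 4 6 2 1
  493 (.bis 5 6 2 1 504 (.bis 6 8 4 1 483 (.bis 1 8 2 1 570 (.bis 3 8 2 1 518 (.leaf 3) (.leaf
  3)) (.leaf 3)) (.leaf 8)) (.bis 2 5 1 4 443 (.bis 5 7 4 1 444 (.bis 1 8 2 1 570 (.bis 3 8 2 1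
  518 (.leaf 3) (.leaf 3)) (.leaf 3)) (.bis 1 5 1 4 584 (.bis 0 5 1 4 514 (.bis 3 5 1 4 516 (.bis
  4 5 1 4 511 (.bis 5 8 8 1 507 (.leaf 3) (.leaf 15)) (.bis 4 8 2 1 512 (.leaf 3) (.leaf 3)))
  (.bis 3 8 2 1 518 (.leaf 3) (.leaf 3))) (.bis 3 8 2 1 518 (.leaf 3) (.leaf 3))) (.bis 1 8 2 1
  570 (.bis 3 8 2 1 518 (.leaf 3) (.leaf 3)) (.leaf 3)))) (.bis 1 8 2 1 570 (.bis 3 8 2 1 518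
  (.leaf 3) (.leaf 3)) (.leaf 3)))) (.bis 2 5 1 4 443 (.bis 4 8 8 1 368 (.bis 5 7 4 1 444 (.bis 1
  8 2 1 570 (.leaf 3) (.leaf 3)) (.bis 1 5 1 4 584 (.bis 0 5 1 4 514 (.bis 3 5 1 4 516 (.leaf 15)
  (.leaf 3)) (.leaf 3)) (.bis 1 8 2 1 570 (.leaf 3) (.leaf 3)))) (.bis 5 7 4 1 444 (.bis 4 7 4 1
  446 (.leaf 3) (.bis 1 4 1 4 582 (.leaf 7) (.leaf 3))) (.bis 1 5 1 4 584 (.bis 0 5 1 4 514 (.bis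
  3 5 1 4 516 (.bis 4 5 1 1 393 (.leaf 15) (.leaf 7)) (.bis 3 4 1 4 560 (.leaf 7) (.leaf 3)))
  (.bis 0 4 1 4 557 (.leaf 7) (.leaf 3))) (.bis 1 4 1 4 582 (.leaf 7) (.leaf 3))))) (.bis 4 8 8 1
  368 (.bis 1 8 2 1 570 (.leaf 3) (.leaf 3)) (.bis 2 4 1 4 447 (.bis 4 7 4 1 446 (.leaf 3) (.leaf
  7)) (.leaf 3))))) (.bis 3 5 1 1 379 (.bis 2 5 1 4 443 (.bis 4 8 8 1 368 (.bis 5 7 4 1 444 (.bis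
  1 8 2 1 570 (.leaf 3) (.leaf 3)) (.bis 1 5 1 4 584 (.bis 0 5 1 4 514 (.leaf 15) (.leaf 3))
  (.bis 1 8 2 1 570 (.leaf 3) (.leaf 3)))) (.bis 5 7 4 1 444 (.bis 4 7 4 1 446 (.leaf 3) (.leaf
  7)) (.bis 1 5 1 4 584 (.bis 0 5 1 4 514 (.bis 5 6 4 1 516 (.bis 4 6 4 1 560 (.leaf 3) (.leaf
  7)) (.bis 4 5 1 1 393 (.leaf 15) (.leaf 7))) (.bis 0 4 1 4 557 (.leaf 7) (.leaf 3))) (.bis 1 4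
  1 4 582 (.leaf 7) (.leaf 3))))) (.bis 4 8 8 1 368 (.bis 1 8 2 1 570 (.leaf 3) (.leaf 3)) (.bis
  2 4 1 4 447 (.bis 4 7 4 1 446 (.leaf 3) (.leaf 7)) (.leaf 3)))) (.bis 3 8 8 1 366 (.bis 4 8 8 1
  368 (.bis 1 8 2 1 570 (.leaf 3) (.leaf 3)) (.bis 2 4 1 4 447 (.leaf 7) (.leaf 3))) (.bis 2 4 1
  4 447 (.leaf 7) (.leaf 7))))) (.bis 0 4 1 2 492 (.bis 4 6 2 1 493 (.bis 5 6 2 1 504 (.bis 6 8 4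
  1 483 (.bis 1 8 2 1 570 (.bis 3 8 2 1 519 (.leaf 3) (.leaf 3)) (.leaf 3)) (.leaf 8)) (.bis 2 5
  1 4 443 (.bis 5 7 4 1 444 (.bis 1 8 2 1 570 (.leaf 3) (.leaf 3)) (.bis 1 5 1 4 584 (.bis 3 5 1
  4 514 (.bis 0 5 1 4 508 (.bis 4 5 1 4 511 (.bis 5 8 8 1 507 (.leaf 3) (.leaf 15)) (.bis 4 8 2 1
  512 (.leaf 3) (.leaf 3))) (.bis 4 8 2 1 512 (.leaf 3) (.leaf 3))) (.bis 3 8 2 1 519 (.leaf 3)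
  (.leaf 3))) (.bis 1 8 2 1 570 (.leaf 3) (.leaf 3)))) (.bis 1 8 2 1 570 (.bis 3 8 2 1 519 (.leaf
  3) (.leaf 3)) (.leaf 3)))) (.bis 2 5 1 4 443 (.bis 4 8 8 1 368 (.bis 5 7 4 1 444 (.bis 1 8 2 1
  570 (.leaf 3) (.leaf 3)) (.bis 1 5 1 4 584 (.bis 3 5 1 4 514 (.bis 0 5 1 4 508 (.leaf 15)
  (.leaf 3)) (.leaf 3)) (.bis 1 8 2 1 570 (.leaf 3) (.leaf 3)))) (.bis 5 7 4 1 444 (.bis 4 7 4 1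
  446 (.leaf 3) (.leaf 7)) (.bis 1 5 1 4 584 (.bis 3 5 1 4 514 (.bis 4 5 1 1 393 (.leaf 15)
  (.leaf 7)) (.bis 3 4 1 4 557 (.leaf 7) (.leaf 3))) (.bis 1 4 1 4 582 (.leaf 7) (.leaf 3)))))
  (.bis 4 8 8 1 368 (.bis 1 8 2 1 570 (.leaf 3) (.leaf 3)) (.bis 2 4 1 4 447 (.bis 4 7 4 1 446
  (.leaf 3) (.leaf 7)) (.leaf 3))))) (.bis 0 5 1 2 502 (.bis 5 6 2 1 504 (.bis 6 8 4 1 483 (.bis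
  1 8 2 1 570 (.leaf 3) (.leaf 3)) (.leaf 8)) (.bis 2 5 1 4 443 (.bis 5 7 4 1 444 (.bis 1 8 2 1
  570 (.leaf 3) (.leaf 3)) (.bis 1 5 1 4 584 (.bis 3 5 1 4 514 (.bis 4 5 1 4 508 (.bis 5 8 8 1
  507 (.leaf 3) (.leaf 15)) (.bis 4 8 2 1 513 (.leaf 3) (.leaf 3))) (.bis 3 8 2 1 519 (.leaf 3)
  (.leaf 3))) (.bis 1 8 2 1 570 (.leaf 3) (.leaf 3)))) (.bis 1 8 2 1 570 (.leaf 3) (.leaf 3))))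
  (.bis 6 8 4 1 483 (.bis 0 8 4 1 474 (.bis 1 8 2 1 570 (.leaf 3) (.leaf 3)) (.leaf 8)) (.leaf
  8)))))) (.bis 0 2 1 2 568 (.bis 2 5 1 1 377 (.bis 3 6 2 1 485 (.bis 4 6 2 1 493 (.bis 5 6 2 1
  504 (.bis 2 6 1 1 585 (.bis 6 8 4 1 483 (.bis 1 8 2 1 570 (.bis 0 8 2 1 580 (.leaf 3) (.leaf
  3)) (.leaf 3)) (.leaf 8)) (.bis 1 8 2 1 570 (.bis 0 8 2 1 580 (.leaf 3) (.leaf 3)) (.leaf 3)))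
  (.bis 5 7 4 1 443 (.bis 1 8 2 1 570 (.bis 0 8 2 1 580 (.leaf 3) (.leaf 3)) (.leaf 3)) (.bis 0 5
  1 4 586 (.bis 1 5 1 4 584 (.bis 3 5 1 4 516 (.bis 4 5 1 4 511 (.bis 5 8 8 1 507 (.leaf 3)
  (.leaf 15)) (.bis 4 8 2 1 512 (.leaf 3) (.leaf 3))) (.bis 3 8 2 1 518 (.leaf 3) (.leaf 3)))
  (.bis 1 8 2 1 570 (.bis 3 8 2 1 518 (.leaf 3) (.leaf 3)) (.leaf 3))) (.bis 1 8 2 1 570 (.bis 0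
  8 2 1 580 (.leaf 3) (.leaf 3)) (.leaf 3))))) (.bis 5 7 4 1 443 (.bis 4 8 8 1 368 (.bis 1 8 2 1
  570 (.leaf 3) (.leaf 3)) (.bis 4 7 4 1 447 (.leaf 3) (.leaf 7))) (.bis 0 5 1 4 586 (.bis 4 8 8
  1 368 (.bis 1 5 1 4 584 (.bis 3 5 1 4 516 (.leaf 15) (.bis 3 8 2 1 518 (.leaf 3) (.leaf 3)))
  (.bis 1 8 2 1 570 (.leaf 3) (.leaf 3))) (.bis 1 5 1 4 584 (.bis 3 5 1 4 516 (.bis 4 5 1 1 393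
  (.leaf 15) (.leaf 7)) (.bis 3 4 1 4 560 (.leaf 7) (.leaf 3))) (.bis 1 4 1 4 582 (.leaf 7)
  (.leaf 3)))) (.bis 4 8 8 1 368 (.bis 1 8 2 1 570 (.leaf 3) (.leaf 3)) (.bis 0 4 1 4 579 (.leaf
  7) (.leaf 3)))))) (.bis 3 5 1 1 379 (.bis 5 7 4 1 443 (.bis 4 8 8 1 368 (.bis 1 8 2 1 570
  (.leaf 3) (.leaf 3)) (.bis 4 7 4 1 447 (.leaf 3) (.leaf 7))) (.bis 0 5 1 4 586 (.bis 4 8 8 1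
  368 (.bis 1 5 1 4 584 (.leaf 15) (.bis 1 8 2 1 570 (.leaf 3) (.leaf 3))) (.bis 1 5 1 4 584
  (.leaf 56) (.leaf 7))) (.bis 4 8 8 1 368 (.bis 1 8 2 1 570 (.leaf 3) (.leaf 3)) (.bis 0 4 1 4
  579 (.leaf 7) (.leaf 3))))) (.bis 3 8 8 1 366 (.bis 4 8 8 1 368 (.bis 1 8 2 1 570 (.leaf 3)
  (.leaf 3)) (.bis 4 7 4 1 447 (.leaf 3) (.leaf 7))) (.leaf 7)))) (.bis 2 6 2 1 569 (.bis 3 6 2 1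
  485 (.bis 4 6 2 1 493 (.bis 5 6 1 1 585 (.bis 6 8 4 1 483 (.bis 2 8 2 1 573 (.bis 1 8 2 1 570
  (.bis 0 8 2 1 580 (.leaf 3) (.leaf 3)) (.leaf 3)) (.leaf 3)) (.leaf 8)) (.bis 2 8 2 1 573 (.bis
  1 8 2 1 570 (.bis 0 8 2 1 580 (.leaf 3) (.leaf 3)) (.leaf 3)) (.leaf 3))) (.bis 4 8 8 1 368
  (.bis 2 8 2 1 573 (.bis 1 8 2 1 570 (.leaf 3) (.leaf 3)) (.leaf 3)) (.bis 4 7 4 1 447 (.leaf 3)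
  (.bis 0 4 1 4 579 (.leaf 7) (.leaf 3))))) (.bis 3 8 8 1 366 (.bis 4 8 8 1 368 (.bis 2 8 2 1 573
  (.leaf 3) (.leaf 3)) (.bis 4 7 4 1 447 (.leaf 3) (.bis 0 4 1 4 579 (.leaf 7) (.leaf 3)))) (.bis
  4 7 4 1 447 (.bis 3 7 4 1 578 (.leaf 3) (.leaf 7)) (.leaf 7)))) (.bis 2 8 8 1 365 (.bis 3 8 8 1
  366 (.bis 4 8 8 1 368 (.bis 6 8 2 1 573 (.leaf 3) (.leaf 3)) (.bis 4 7 4 1 447 (.leaf 3) (.leaf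
  7))) (.bis 4 7 4 1 447 (.bis 3 7 4 1 578 (.leaf 3) (.leaf 7)) (.leaf 7))) (.bis 4 7 4 1 447
  (.leaf 7) (.bis 2 4 1 1 396 (.leaf 7) (.leaf 7)))))) (.bis 0 3 1 2 484 (.bis 3 6 2 1 485 (.bis
  4 6 2 1 493 (.bis 5 6 2 1 504 (.bis 6 8 4 1 483 (.bis 1 8 2 1 570 (.bis 2 8 2 1 580 (.leaf 3)
  (.leaf 3)) (.leaf 3)) (.leaf 8)) (.bis 5 7 4 1 443 (.bis 1 8 2 1 570 (.bis 2 8 2 1 580 (.leaf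
  3) (.leaf 3)) (.leaf 3)) (.bis 2 5 1 4 586 (.bis 1 5 1 4 584 (.bis 0 5 1 4 514 (.bis 3 5 1 4
  516 (.bis 4 5 1 4 511 (.bis 5 8 8 1 507 (.leaf 3) (.leaf 15)) (.bis 4 8 2 1 512 (.leaf 3)
  (.leaf 3))) (.bis 3 8 2 1 518 (.leaf 3) (.leaf 3))) (.bis 3 8 2 1 518 (.leaf 3) (.leaf 3)))
  (.bis 1 8 2 1 570 (.bis 3 8 2 1 518 (.leaf 3) (.leaf 3)) (.leaf 3))) (.bis 1 8 2 1 570 (.bis 2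
  8 2 1 580 (.leaf 3) (.leaf 3)) (.leaf 3))))) (.bis 5 7 4 1 443 (.bis 4 8 8 1 368 (.bis 1 8 2 1
  570 (.bis 2 8 2 1 580 (.leaf 3) (.leaf 3)) (.leaf 3)) (.bis 4 7 4 1 447 (.leaf 3) (.bis 2 4 1 4
  579 (.leaf 7) (.leaf 3)))) (.bis 2 5 1 4 586 (.bis 4 8 8 1 368 (.bis 1 5 1 4 584 (.bis 0 5 1 4
  514 (.bis 3 5 1 4 516 (.leaf 15) (.leaf 3)) (.bis 3 8 2 1 518 (.leaf 3) (.leaf 3))) (.bis 1 8 2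
  1 570 (.leaf 3) (.leaf 3))) (.bis 1 5 1 4 584 (.bis 0 5 1 4 514 (.bis 3 5 1 4 516 (.bis 4 5 1 1
  393 (.leaf 15) (.leaf 7)) (.bis 3 4 1 4 560 (.leaf 7) (.leaf 3))) (.bis 0 4 1 4 557 (.leaf 7)
  (.leaf 3))) (.bis 1 4 1 4 582 (.bis 0 4 1 4 557 (.leaf 7) (.leaf 3)) (.leaf 3)))) (.bis 4 8 8 1
  368 (.bis 1 8 2 1 570 (.leaf 3) (.leaf 3)) (.bis 2 4 1 4 579 (.bis 1 4 1 4 582 (.leaf 7) (.leaf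
  3)) (.leaf 3)))))) (.bis 3 5 1 1 379 (.bis 5 7 4 1 443 (.bis 4 8 8 1 368 (.bis 1 8 2 1 570
  (.leaf 3) (.leaf 3)) (.bis 4 7 4 1 447 (.leaf 3) (.bis 2 4 1 4 579 (.leaf 7) (.leaf 3)))) (.bis
  2 5 1 4 586 (.bis 4 8 8 1 368 (.bis 1 5 1 4 584 (.bis 0 5 1 4 514 (.leaf 15) (.leaf 3)) (.bis 1
  8 2 1 570 (.leaf 3) (.leaf 3))) (.bis 1 5 1 4 584 (.bis 0 5 1 4 514 (.bis 5 6 4 1 516 (.bis 4 6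
  4 1 560 (.leaf 3) (.leaf 7)) (.bis 4 5 1 1 393 (.leaf 15) (.leaf 7))) (.bis 0 4 1 4 557 (.leaf
  7) (.leaf 3))) (.bis 1 4 1 4 582 (.leaf 7) (.leaf 3)))) (.bis 4 8 8 1 368 (.bis 1 8 2 1 570
  (.leaf 3) (.leaf 3)) (.bis 2 4 1 4 579 (.leaf 7) (.leaf 3))))) (.bis 3 8 8 1 366 (.bis 4 8 8 1
  368 (.bis 1 8 2 1 570 (.leaf 3) (.leaf 3)) (.bis 4 7 4 1 447 (.leaf 3) (.leaf 7))) (.bis 4 7 4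
  1 447 (.leaf 7) (.leaf 7))))) (.bis 0 4 1 2 492 (.bis 4 6 2 1 493 (.bis 5 6 2 1 504 (.bis 6 8 4
  1 483 (.bis 1 8 2 1 570 (.bis 2 8 2 1 580 (.leaf 3) (.leaf 3)) (.leaf 3)) (.leaf 8)) (.bis 5 7
  4 1 443 (.bis 1 8 2 1 570 (.bis 2 8 2 1 580 (.leaf 3) (.leaf 3)) (.leaf 3)) (.bis 2 5 1 4 586
  (.bis 1 5 1 4 584 (.bis 3 5 1 4 514 (.bis 0 5 1 4 508 (.bis 4 5 1 4 511 (.bis 5 8 8 1 507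
  (.leaf 3) (.leaf 15)) (.bis 4 8 2 1 512 (.leaf 3) (.leaf 3))) (.bis 4 8 2 1 512 (.leaf 3)
  (.leaf 3))) (.bis 3 8 2 1 519 (.leaf 3) (.leaf 3))) (.bis 1 8 2 1 570 (.bis 3 8 2 1 519 (.leaf
  3) (.leaf 3)) (.leaf 3))) (.bis 1 8 2 1 570 (.bis 2 8 2 1 580 (.leaf 3) (.leaf 3)) (.leaf
  3))))) (.bis 5 7 4 1 443 (.bis 4 8 8 1 368 (.bis 1 8 2 1 570 (.leaf 3) (.leaf 3)) (.bis 4 7 4 1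
  447 (.leaf 3) (.bis 2 4 1 4 579 (.leaf 7) (.leaf 3)))) (.bis 2 5 1 4 586 (.bis 4 8 8 1 368
  (.bis 1 5 1 4 584 (.bis 3 5 1 4 514 (.bis 0 5 1 4 508 (.leaf 15) (.leaf 3)) (.leaf 3)) (.bis 1
  8 2 1 570 (.leaf 3) (.leaf 3))) (.bis 1 5 1 4 584 (.bis 3 5 1 4 514 (.bis 4 5 1 1 393 (.leaf
  15) (.leaf 7)) (.bis 3 4 1 4 557 (.leaf 7) (.leaf 3))) (.bis 1 4 1 4 582 (.leaf 7) (.leaf 3))))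
  (.bis 4 8 8 1 368 (.bis 1 8 2 1 570 (.leaf 3) (.leaf 3)) (.bis 2 4 1 4 579 (.bis 1 4 1 4 582
  (.leaf 7) (.leaf 3)) (.leaf 3)))))) (.bis 0 5 1 2 502 (.bis 5 6 2 1 504 (.bis 6 8 4 1 483 (.bis
  1 8 2 1 570 (.bis 2 8 2 1 580 (.leaf 3) (.leaf 3)) (.leaf 3)) (.leaf 8)) (.bis 5 7 4 1 443
  (.bis 1 8 2 1 570 (.bis 2 8 2 1 580 (.leaf 3) (.leaf 3)) (.leaf 3)) (.bis 2 5 1 4 586 (.bis 1 5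
  1 4 584 (.bis 3 5 1 4 514 (.bis 4 5 1 4 508 (.bis 5 8 8 1 507 (.leaf 3) (.leaf 15)) (.bis 4 8 2
  1 513 (.leaf 3) (.leaf 3))) (.bis 3 8 2 1 519 (.leaf 3) (.leaf 3))) (.bis 1 8 2 1 570 (.leaf 3)
  (.leaf 3))) (.bis 1 8 2 1 570 (.bis 2 8 2 1 580 (.leaf 3) (.leaf 3)) (.leaf 3))))) (.bis 6 8 4
  1 483 (.bis 0 8 4 1 474 (.bis 1 8 2 1 570 (.leaf 3) (.leaf 3)) (.leaf 8)) (.leaf 8)))))))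

def lc35 : List Vr := [⟨[24,0,0,0,0,0,85,0,0], 38617, 0⟩, ⟨[0,28,34,0,0,0,85,0,0], 142529, 0⟩,
  ⟨[0,0,17,0,0,0,0,0,0], 6936, 0⟩, ⟨[0,0,0,13,0,0,0,0,0], 6760, 0⟩, ⟨[0,0,0,0,19,0,0,0,0], 7581,
  0⟩, ⟨[0,0,0,0,0,30,0,0,0], 7200, 0⟩, ⟨[0,0,17,0,0,0,85,0,0], 37281, 0⟩, ⟨[0,0,0,0,0,0,85,42,0],
  42841, 0⟩, ⟨[0,0,0,0,0,120,85,0,155], 405525, 0⟩]

theorem lk35 : chkTr lowT (leafLow 2 lowB) lt35 lc35 = true := by decide +kernel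

def lt36 : Tr ℕ := (.bis 3 7 2 1 428 (.bis 4 7 2 1 433 (.bis 5 7 2 1 439 (.bis 1 8 4 1 480 (.bis
  6 8 4 1 483 (.bis 0 8 4 1 474 (.leaf 8) (.leaf 8)) (.leaf 8)) (.leaf 8)) (.bis 0 5 1 2 502
  (.bis 1 5 1 2 503 (.bis 5 6 2 1 504 (.bis 6 8 4 1 483 (.bis 2 8 2 1 570 (.leaf 3) (.leaf 3))
  (.leaf 8)) (.bis 3 5 1 4 444 (.bis 2 5 1 4 584 (.bis 4 5 1 4 445 (.bis 5 8 8 1 507 (.leaf 3)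
  (.leaf 15)) (.leaf 3)) (.bis 2 8 2 1 570 (.leaf 3) (.leaf 3))) (.bis 2 8 2 1 570 (.leaf 3)
  (.leaf 3)))) (.bis 1 8 4 1 480 (.bis 6 8 4 1 483 (.leaf 3) (.leaf 8)) (.leaf 8))) (.bis 1 8 4 1
  480 (.bis 6 8 4 1 483 (.bis 0 8 4 1 474 (.leaf 3) (.leaf 8)) (.leaf 8)) (.leaf 8)))) (.bis 0 4
  1 2 492 (.bis 1 4 1 2 497 (.bis 4 6 2 1 493 (.bis 5 6 2 1 504 (.bis 6 8 4 1 483 (.bis 2 8 2 1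
  570 (.bis 1 8 2 1 500 (.leaf 3) (.leaf 3)) (.leaf 3)) (.leaf 8)) (.bis 3 5 1 4 444 (.bis 2 5 1
  4 584 (.bis 5 7 4 1 445 (.bis 1 8 2 1 500 (.leaf 3) (.leaf 3)) (.bis 0 5 1 4 508 (.bis 1 5 1 4
  510 (.bis 4 5 1 4 511 (.bis 5 8 8 1 507 (.leaf 3) (.leaf 15)) (.bis 4 8 2 1 512 (.leaf 3)
  (.leaf 3))) (.bis 1 8 2 1 500 (.leaf 3) (.leaf 3))) (.bis 1 8 2 1 500 (.leaf 3) (.leaf 3))))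
  (.bis 2 8 2 1 570 (.bis 1 8 2 1 500 (.leaf 3) (.leaf 3)) (.leaf 3))) (.bis 2 8 2 1 570 (.bis 1
  8 2 1 500 (.leaf 3) (.leaf 3)) (.leaf 3)))) (.bis 4 8 8 1 368 (.bis 3 5 1 4 444 (.bis 2 5 1 4
  584 (.bis 5 7 4 1 445 (.leaf 3) (.bis 0 5 1 4 508 (.leaf 15) (.bis 1 8 2 1 500 (.leaf 3) (.leaf
  3)))) (.bis 2 8 2 1 570 (.leaf 3) (.leaf 3))) (.bis 2 8 2 1 570 (.leaf 3) (.leaf 3))) (.bis 3 5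
  1 4 444 (.bis 2 5 1 4 584 (.bis 4 5 1 1 393 (.bis 5 7 4 1 445 (.leaf 7) (.bis 0 5 1 4 508
  (.leaf 15) (.leaf 7))) (.leaf 7)) (.bis 2 4 1 4 582 (.leaf 7) (.leaf 3))) (.bis 3 4 1 4 446
  (.leaf 7) (.leaf 3))))) (.bis 1 5 1 2 503 (.bis 5 6 2 1 504 (.bis 6 8 4 1 483 (.bis 2 8 2 1 570
  (.leaf 3) (.leaf 3)) (.leaf 8)) (.bis 3 5 1 4 444 (.bis 2 5 1 4 584 (.bis 5 7 4 1 445 (.bis 4 8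
  2 1 500 (.leaf 3) (.leaf 3)) (.bis 0 5 1 4 508 (.bis 4 5 1 4 510 (.bis 5 8 8 1 507 (.leaf 3)
  (.leaf 15)) (.bis 4 8 2 1 500 (.leaf 3) (.leaf 3))) (.bis 4 8 2 1 500 (.leaf 3) (.leaf 3))))
  (.bis 2 8 2 1 570 (.bis 4 8 2 1 500 (.leaf 3) (.leaf 3)) (.leaf 3))) (.bis 2 8 2 1 570 (.bis 4
  8 2 1 500 (.leaf 3) (.leaf 3)) (.leaf 3)))) (.bis 1 8 4 1 480 (.bis 6 8 4 1 483 (.bis 2 8 2 1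
  570 (.leaf 3) (.leaf 3)) (.leaf 8)) (.leaf 8)))) (.bis 0 5 1 2 502 (.bis 1 5 1 2 503 (.bis 5 6
  2 1 504 (.bis 6 8 4 1 483 (.bis 2 8 2 1 570 (.leaf 3) (.leaf 3)) (.leaf 8)) (.bis 3 5 1 4 444
  (.bis 2 5 1 4 584 (.bis 5 7 4 1 445 (.bis 4 8 2 1 513 (.leaf 3) (.leaf 3)) (.bis 4 5 1 4 508
  (.bis 5 8 8 1 507 (.leaf 3) (.leaf 15)) (.bis 4 8 2 1 513 (.leaf 3) (.leaf 3)))) (.bis 2 8 2 1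
  570 (.leaf 3) (.leaf 3))) (.bis 2 8 2 1 570 (.leaf 3) (.leaf 3)))) (.bis 1 8 4 1 480 (.bis 6 8
  4 1 483 (.bis 2 8 2 1 570 (.leaf 3) (.leaf 3)) (.leaf 8)) (.leaf 8))) (.bis 1 8 4 1 480 (.bis 6
  8 4 1 483 (.bis 0 8 4 1 474 (.leaf 3) (.leaf 8)) (.leaf 8)) (.leaf 8))))) (.bis 0 3 1 2 484
  (.bis 1 3 1 2 488 (.bis 3 6 2 1 485 (.bis 4 6 2 1 493 (.bis 5 6 2 1 504 (.bis 6 8 4 1 483 (.bis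
  1 8 2 1 489 (.bis 2 8 2 1 570 (.leaf 3) (.leaf 3)) (.leaf 3)) (.leaf 8)) (.bis 5 7 4 1 444
  (.bis 1 8 2 1 489 (.bis 2 8 2 1 570 (.leaf 3) (.leaf 3)) (.leaf 3)) (.bis 2 5 1 4 584 (.bis 0 5
  1 4 514 (.bis 1 5 1 4 515 (.bis 3 5 1 4 516 (.bis 4 5 1 4 511 (.bis 5 8 8 1 507 (.leaf 3)
  (.leaf 15)) (.bis 4 8 2 1 512 (.leaf 3) (.leaf 3))) (.bis 3 8 2 1 518 (.bis 4 8 2 1 512 (.leaf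
  3) (.leaf 3)) (.leaf 3))) (.bis 1 8 2 1 489 (.bis 3 8 2 1 518 (.leaf 3) (.leaf 3)) (.leaf 3)))
  (.bis 1 8 2 1 489 (.bis 3 8 2 1 518 (.leaf 3) (.leaf 3)) (.leaf 3))) (.bis 1 8 2 1 489 (.bis 2
  8 2 1 570 (.leaf 3) (.leaf 3)) (.leaf 3))))) (.bis 4 8 8 1 368 (.bis 5 7 4 1 444 (.bis 1 8 2 1
  489 (.bis 2 8 2 1 570 (.leaf 3) (.leaf 3)) (.leaf 3)) (.bis 2 5 1 4 584 (.bis 0 5 1 4 514 (.bis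
  1 5 1 4 515 (.bis 3 5 1 4 516 (.leaf 15) (.bis 3 8 2 1 518 (.leaf 3) (.leaf 3))) (.bis 1 8 2 1
  489 (.leaf 3) (.leaf 3))) (.bis 1 8 2 1 489 (.leaf 3) (.leaf 3))) (.bis 1 8 2 1 489 (.bis 2 8 2
  1 570 (.leaf 3) (.leaf 3)) (.leaf 3)))) (.bis 5 7 4 1 444 (.bis 4 7 4 1 446 (.leaf 3) (.bis 2 4
  1 4 582 (.leaf 7) (.leaf 3))) (.bis 2 5 1 4 584 (.bis 0 5 1 4 514 (.bis 1 5 1 4 515 (.bis 3 5 1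
  4 516 (.bis 4 5 1 1 393 (.leaf 15) (.leaf 7)) (.bis 3 4 1 4 560 (.leaf 7) (.leaf 3))) (.bis 1 4
  1 4 561 (.leaf 7) (.leaf 3))) (.bis 0 4 1 4 557 (.leaf 7) (.leaf 3))) (.bis 2 4 1 4 582 (.bis 0
  4 1 4 557 (.leaf 7) (.leaf 3)) (.leaf 3)))))) (.bis 3 5 1 1 379 (.bis 4 8 8 1 368 (.bis 5 7 4 1
  444 (.bis 1 8 2 1 489 (.leaf 3) (.leaf 3)) (.bis 2 5 1 4 584 (.bis 0 5 1 4 514 (.bis 1 5 1 4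
  515 (.bis 5 6 4 1 516 (.bis 6 8 2 1 518 (.leaf 3) (.leaf 3)) (.bis 5 8 8 1 507 (.leaf 3) (.leaf
  15))) (.bis 1 8 2 1 489 (.leaf 3) (.leaf 3))) (.bis 1 8 2 1 489 (.leaf 3) (.leaf 3))) (.bis 1 8
  2 1 489 (.leaf 3) (.leaf 3)))) (.bis 5 7 4 1 444 (.bis 4 7 4 1 446 (.leaf 3) (.leaf 7)) (.bis 2
  5 1 4 584 (.bis 0 5 1 4 514 (.bis 1 5 1 4 515 (.bis 5 6 4 1 516 (.bis 4 6 4 1 560 (.leaf 3)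
  (.leaf 7)) (.bis 4 5 1 1 393 (.leaf 15) (.leaf 7))) (.bis 1 4 1 4 561 (.leaf 7) (.leaf 3)))
  (.bis 0 4 1 4 557 (.leaf 7) (.leaf 3))) (.bis 2 4 1 4 582 (.leaf 7) (.leaf 3))))) (.bis 3 8 8 1
  366 (.bis 4 8 8 1 368 (.bis 1 8 2 1 489 (.leaf 3) (.leaf 3)) (.bis 4 7 4 1 446 (.leaf 3) (.leaf
  7))) (.bis 4 7 4 1 446 (.leaf 7) (.leaf 7))))) (.bis 1 4 1 2 497 (.bis 4 6 2 1 493 (.bis 5 6 2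
  1 504 (.bis 6 8 4 1 483 (.bis 3 8 2 1 489 (.bis 2 8 2 1 570 (.leaf 3) (.leaf 3)) (.leaf 3))
  (.leaf 8)) (.bis 5 7 4 1 444 (.bis 3 8 2 1 489 (.bis 2 8 2 1 570 (.leaf 3) (.leaf 3)) (.leaf
  3)) (.bis 2 5 1 4 584 (.bis 0 5 1 4 514 (.bis 3 5 1 4 515 (.bis 1 5 1 4 510 (.bis 4 5 1 4 511
  (.bis 5 8 8 1 507 (.leaf 3) (.leaf 15)) (.bis 4 8 2 1 512 (.leaf 3) (.leaf 3))) (.bis 1 8 2 1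
  500 (.bis 4 8 2 1 512 (.leaf 3) (.leaf 3)) (.leaf 3))) (.bis 3 8 2 1 489 (.bis 1 8 2 1 500
  (.leaf 3) (.leaf 3)) (.leaf 3))) (.bis 3 8 2 1 489 (.bis 1 8 2 1 500 (.leaf 3) (.leaf 3))
  (.leaf 3))) (.bis 3 8 2 1 489 (.bis 2 8 2 1 570 (.leaf 3) (.leaf 3)) (.leaf 3))))) (.bis 4 8 8
  1 368 (.bis 5 7 4 1 444 (.bis 3 8 2 1 489 (.bis 2 8 2 1 570 (.leaf 3) (.leaf 3)) (.leaf 3))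
  (.bis 2 5 1 4 584 (.bis 0 5 1 4 514 (.bis 3 5 1 4 515 (.bis 1 5 1 4 510 (.leaf 15) (.bis 1 8 2
  1 500 (.leaf 3) (.leaf 3))) (.bis 3 8 2 1 489 (.leaf 3) (.leaf 3))) (.bis 3 8 2 1 489 (.leaf 3)
  (.leaf 3))) (.bis 3 8 2 1 489 (.bis 2 8 2 1 570 (.leaf 3) (.leaf 3)) (.leaf 3)))) (.bis 5 7 4 1
  444 (.bis 4 7 4 1 446 (.leaf 3) (.bis 2 4 1 4 582 (.leaf 7) (.leaf 3))) (.bis 2 5 1 4 584 (.bis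
  0 5 1 4 514 (.bis 3 5 1 4 515 (.bis 4 5 1 1 393 (.leaf 15) (.leaf 7)) (.bis 3 4 1 4 561 (.leaf
  7) (.leaf 3))) (.bis 0 4 1 4 557 (.leaf 7) (.leaf 3))) (.bis 2 4 1 4 582 (.leaf 7) (.leaf
  3)))))) (.bis 1 5 1 2 503 (.bis 5 6 2 1 504 (.bis 6 8 4 1 483 (.bis 3 8 2 1 489 (.bis 2 8 2 1
  570 (.leaf 3) (.leaf 3)) (.leaf 3)) (.leaf 8)) (.bis 5 7 4 1 444 (.bis 3 8 2 1 489 (.bis 2 8 2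
  1 570 (.leaf 3) (.leaf 3)) (.leaf 3)) (.bis 2 5 1 4 584 (.bis 0 5 1 4 514 (.bis 3 5 1 4 515
  (.bis 4 5 1 4 510 (.bis 5 8 8 1 507 (.leaf 3) (.leaf 15)) (.bis 4 8 2 1 500 (.bis 1 8 2 1 587
  (.leaf 3) (.leaf 3)) (.leaf 3))) (.bis 3 8 2 1 489 (.bis 4 8 2 1 500 (.leaf 3) (.leaf 3))
  (.leaf 3))) (.bis 3 8 2 1 489 (.bis 4 8 2 1 500 (.leaf 3) (.leaf 3)) (.leaf 3))) (.bis 3 8 2 1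
  489 (.bis 2 8 2 1 570 (.leaf 3) (.leaf 3)) (.leaf 3))))) (.bis 1 8 4 1 480 (.bis 6 8 4 1 483
  (.bis 3 8 2 1 489 (.bis 2 8 2 1 570 (.leaf 3) (.leaf 3)) (.leaf 3)) (.leaf 8)) (.leaf 8)))))
  (.bis 0 4 1 2 492 (.bis 1 4 1 2 497 (.bis 4 6 2 1 493 (.bis 5 6 2 1 504 (.bis 6 8 4 1 483 (.bis
  2 8 2 1 570 (.bis 1 8 2 1 500 (.leaf 3) (.leaf 3)) (.leaf 3)) (.leaf 8)) (.bis 5 7 4 1 444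
  (.bis 2 8 2 1 570 (.bis 1 8 2 1 500 (.leaf 3) (.leaf 3)) (.leaf 3)) (.bis 2 5 1 4 584 (.bis 3 5
  1 4 514 (.bis 0 5 1 4 508 (.bis 1 5 1 4 510 (.bis 4 5 1 4 511 (.bis 5 8 8 1 507 (.leaf 3)
  (.leaf 15)) (.bis 4 8 2 1 512 (.leaf 3) (.leaf 3))) (.bis 1 8 2 1 500 (.leaf 3) (.leaf 3)))
  (.bis 1 8 2 1 500 (.bis 4 8 2 1 512 (.leaf 3) (.leaf 3)) (.leaf 3))) (.bis 1 8 2 1 500 (.bis 3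
  8 2 1 519 (.leaf 3) (.leaf 3)) (.leaf 3))) (.bis 2 8 2 1 570 (.bis 1 8 2 1 500 (.leaf 3) (.leaf
  3)) (.leaf 3))))) (.bis 4 8 8 1 368 (.bis 5 7 4 1 444 (.bis 2 8 2 1 570 (.leaf 3) (.leaf 3))
  (.bis 2 5 1 4 584 (.bis 3 5 1 4 514 (.bis 0 5 1 4 508 (.leaf 15) (.bis 1 8 2 1 500 (.leaf 3)
  (.leaf 3))) (.bis 1 8 2 1 500 (.leaf 3) (.leaf 3))) (.bis 2 8 2 1 570 (.leaf 3) (.leaf 3))))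
  (.bis 5 7 4 1 444 (.bis 4 7 4 1 446 (.leaf 3) (.leaf 7)) (.bis 2 5 1 4 584 (.bis 3 5 1 4 514
  (.bis 4 5 1 1 393 (.bis 0 5 1 4 508 (.leaf 15) (.leaf 7)) (.leaf 7)) (.bis 3 4 1 4 557 (.leaf
  7) (.leaf 3))) (.bis 2 4 1 4 582 (.leaf 7) (.leaf 3)))))) (.bis 1 5 1 2 503 (.bis 5 6 2 1 504
  (.bis 6 8 4 1 483 (.bis 2 8 2 1 570 (.bis 4 8 2 1 500 (.leaf 3) (.leaf 3)) (.leaf 3)) (.leaf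
  8)) (.bis 5 7 4 1 444 (.bis 2 8 2 1 570 (.bis 4 8 2 1 500 (.leaf 3) (.leaf 3)) (.leaf 3)) (.bis
  2 5 1 4 584 (.bis 3 5 1 4 514 (.bis 0 5 1 4 508 (.bis 4 5 1 4 510 (.bis 5 8 8 1 507 (.leaf 3)
  (.leaf 15)) (.bis 4 8 2 1 500 (.bis 1 8 2 1 587 (.leaf 3) (.leaf 3)) (.leaf 3))) (.bis 4 8 2 1
  500 (.leaf 3) (.leaf 3))) (.bis 4 8 2 1 500 (.bis 3 8 2 1 519 (.leaf 3) (.leaf 3)) (.leaf 3)))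
  (.bis 2 8 2 1 570 (.bis 4 8 2 1 500 (.leaf 3) (.leaf 3)) (.leaf 3))))) (.bis 1 8 4 1 480 (.bis
  6 8 4 1 483 (.bis 2 8 2 1 570 (.leaf 3) (.leaf 3)) (.leaf 8)) (.leaf 8)))) (.bis 0 5 1 2 502
  (.bis 1 5 1 2 503 (.bis 5 6 2 1 504 (.bis 6 8 4 1 483 (.bis 2 8 2 1 570 (.leaf 3) (.leaf 3))
  (.leaf 8)) (.bis 5 7 4 1 444 (.bis 2 8 2 1 570 (.bis 3 8 2 1 519 (.leaf 3) (.leaf 3)) (.leaf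
  3)) (.bis 2 5 1 4 584 (.bis 3 5 1 4 514 (.bis 4 5 1 4 508 (.bis 5 8 8 1 507 (.leaf 3) (.leaf
  15)) (.bis 4 8 2 1 513 (.leaf 3) (.leaf 3))) (.bis 3 8 2 1 519 (.leaf 3) (.leaf 3))) (.bis 2 8
  2 1 570 (.bis 3 8 2 1 519 (.leaf 3) (.leaf 3)) (.leaf 3))))) (.bis 1 8 4 1 480 (.bis 6 8 4 1
  483 (.bis 2 8 2 1 570 (.leaf 3) (.leaf 3)) (.leaf 8)) (.leaf 8))) (.bis 1 8 4 1 480 (.bis 6 8 4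
  1 483 (.bis 0 8 4 1 474 (.leaf 3) (.leaf 8)) (.leaf 8)) (.leaf 8))))))

def lc36 : List Vr := [⟨[24,0,0,0,0,0,85,0,0], 38617, 0⟩, ⟨[0,28,0,0,0,0,85,0,0], 38081, 0⟩, ⟨[0,
  28,34,0,0,0,85,0,0], 142529, 0⟩, ⟨[0,0,0,13,0,0,0,0,0], 6760, 0⟩, ⟨[0,0,0,0,19,0,0,0,0], 7581,
  0⟩, ⟨[0,0,0,0,0,30,0,0,0], 7200, 0⟩, ⟨[0,0,17,0,0,0,85,0,0], 37281, 0⟩, ⟨[0,0,0,0,0,0,85,42,0],
  42841, 0⟩, ⟨[0,0,0,0,0,120,85,0,155], 405525, 0⟩]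

theorem lk36 : chkTr lowT (leafLow 2 lowB) lt36 lc36 = true := by decide +kernel

def lt37 : Tr ℕ := (.bis 4 8 2 1 214 (.bis 3 8 4 1 159 (.bis 2 8 4 1 110 (.bis 6 8 1 1 464 (.bis
  0 8 1 1 466 (.bis 7 8 1 1 398 (.bis 1 8 1 2 291 (.bis 5 8 1 2 361 (.bis 3 8 1 2 171 (.bis 2 8 1
  2 122 (.leaf 37) (.leaf 24)) (.leaf 24)) (.leaf 24)) (.leaf 24)) (.bis 1 7 1 4 402 (.leaf 30)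
  (.leaf 24))) (.bis 0 1 4 1 588 (.bis 1 7 1 4 402 (.leaf 17) (.leaf 17)) (.bis 0 4 2 1 475
  (.leaf 17) (.bis 0 2 4 1 563 (.leaf 17) (.bis 0 3 4 1 476 (.leaf 17) (.leaf 30)))))) (.bis 2 6
  1 4 565 (.bis 4 6 1 2 479 (.bis 3 6 1 4 481 (.bis 0 1 4 1 588 (.bis 1 6 1 4 589 (.leaf 8) (.bis
  1 7 1 4 402 (.leaf 8) (.leaf 17))) (.bis 5 6 1 4 480 (.leaf 8) (.leaf 8))) (.bis 0 1 4 1 588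
  (.leaf 17) (.bis 0 3 4 1 476 (.leaf 17) (.leaf 8)))) (.bis 0 1 4 1 588 (.leaf 17) (.leaf 30)))
  (.bis 0 1 4 1 588 (.bis 1 7 1 4 402 (.leaf 17) (.leaf 17)) (.leaf 30)))) (.bis 2 6 2 1 567
  (.bis 6 8 4 1 565 (.bis 0 1 4 1 588 (.bis 1 7 1 4 402 (.leaf 17) (.leaf 17)) (.leaf 30)) (.bis
  4 6 1 2 479 (.bis 3 6 1 4 481 (.bis 0 1 4 1 588 (.bis 1 6 1 4 589 (.bis 5 6 1 4 480 (.leaf 8)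
  (.leaf 8)) (.bis 1 7 1 4 402 (.leaf 8) (.leaf 3))) (.bis 5 6 1 4 480 (.leaf 8) (.bis 0 5 4 1
  474 (.leaf 8) (.leaf 8)))) (.bis 0 1 4 1 588 (.leaf 17) (.bis 0 3 4 1 476 (.leaf 17) (.bis 0 5
  4 1 474 (.leaf 8) (.leaf 8))))) (.bis 0 1 4 1 588 (.bis 1 7 1 4 402 (.leaf 17) (.leaf 17))
  (.bis 0 4 2 1 475 (.leaf 17) (.bis 0 3 4 1 476 (.leaf 17) (.bis 0 5 4 1 474 (.leaf 8) (.leaf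
  8))))))) (.bis 2 7 2 1 424 (.bis 0 1 4 1 588 (.bis 1 7 1 4 402 (.leaf 17) (.leaf 17)) (.leaf
  30)) (.bis 0 2 1 2 568 (.bis 2 4 4 1 227 (.leaf 17) (.bis 2 5 8 1 365 (.leaf 17) (.bis 1 2 1 8
  296 (.leaf 25) (.leaf 13)))) (.bis 0 1 4 1 588 (.leaf 17) (.bis 0 4 2 1 475 (.leaf 17) (.leaf
  30))))))) (.bis 2 6 2 1 567 (.bis 3 7 2 1 428 (.bis 4 6 1 2 479 (.bis 6 8 4 1 481 (.bis 0 1 4 1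
  588 (.leaf 17) (.bis 0 8 4 1 476 (.leaf 17) (.bis 0 5 4 1 474 (.leaf 8) (.leaf 8)))) (.bis 0 1
  4 1 588 (.bis 1 6 1 4 589 (.bis 5 6 1 4 480 (.leaf 8) (.leaf 8)) (.bis 1 7 1 4 402 (.leaf 8)
  (.leaf 3))) (.bis 5 6 1 4 480 (.leaf 8) (.bis 0 5 4 1 474 (.leaf 8) (.leaf 8))))) (.bis 0 1 4 1
  588 (.leaf 17) (.bis 0 4 2 1 475 (.leaf 17) (.bis 0 8 4 1 476 (.leaf 17) (.bis 0 5 4 1 474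
  (.leaf 8) (.leaf 8)))))) (.bis 0 3 1 2 484 (.bis 4 6 1 2 479 (.bis 3 6 2 1 488 (.bis 6 8 4 1
  481 (.leaf 3) (.bis 1 6 1 4 589 (.bis 5 6 1 4 480 (.leaf 8) (.bis 3 5 2 1 489 (.leaf 3) (.leaf
  3))) (.bis 3 5 2 1 489 (.bis 2 5 2 1 570 (.bis 0 5 2 1 519 (.leaf 3) (.bis 0 1 2 1 590 (.leaf
  3) (.leaf 3))) (.bis 0 1 2 1 590 (.leaf 3) (.leaf 3))) (.bis 0 1 2 1 590 (.bis 1 3 1 2 591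
  (.leaf 3) (.leaf 3)) (.leaf 3))))) (.bis 3 5 8 1 366 (.leaf 3) (.bis 3 4 8 1 486 (.leaf 3)
  (.bis 1 3 1 8 300 (.leaf 25) (.leaf 3))))) (.bis 3 4 4 1 244 (.leaf 17) (.bis 3 5 8 1 366
  (.leaf 3) (.bis 3 6 8 1 486 (.leaf 3) (.bis 1 3 1 8 300 (.leaf 13) (.leaf 3)))))) (.bis 4 6 1 2
  479 (.bis 6 8 4 1 481 (.bis 0 1 4 1 588 (.leaf 3) (.bis 0 8 4 1 476 (.leaf 3) (.bis 0 5 4 1 474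
  (.leaf 3) (.leaf 8)))) (.bis 0 1 4 1 588 (.bis 1 6 1 4 589 (.bis 5 6 1 4 480 (.leaf 8) (.leaf
  3)) (.bis 2 5 2 1 570 (.leaf 3) (.bis 1 3 1 2 590 (.leaf 3) (.leaf 3)))) (.bis 5 6 1 4 480
  (.leaf 8) (.bis 0 5 4 1 474 (.leaf 3) (.leaf 8))))) (.bis 0 1 4 1 588 (.leaf 17) (.bis 0 4 2 1
  475 (.leaf 17) (.leaf 30)))))) (.bis 2 7 2 1 424 (.bis 3 7 2 1 428 (.bis 0 1 4 1 588 (.leaf 17)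
  (.bis 0 4 2 1 475 (.leaf 17) (.bis 0 8 4 1 476 (.leaf 17) (.bis 0 5 4 1 474 (.leaf 8) (.leaf
  8))))) (.bis 0 3 1 2 484 (.bis 3 4 4 1 244 (.leaf 17) (.bis 3 5 8 1 366 (.leaf 3) (.bis 1 3 1 8
  300 (.leaf 13) (.leaf 3)))) (.bis 0 1 4 1 588 (.leaf 17) (.bis 0 4 2 1 475 (.bis 4 6 1 1 571
  (.leaf 3) (.leaf 17)) (.leaf 30))))) (.bis 0 2 1 2 568 (.bis 2 4 4 1 227 (.bis 3 4 4 1 244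
  (.leaf 17) (.bis 3 5 8 1 366 (.leaf 3) (.bis 1 3 1 8 300 (.leaf 13) (.leaf 3)))) (.bis 2 5 8 1
  365 (.bis 3 5 8 1 366 (.leaf 3) (.bis 1 3 1 8 300 (.leaf 13) (.leaf 3))) (.bis 1 2 1 8 296
  (.leaf 25) (.bis 1 3 1 8 300 (.leaf 13) (.leaf 3))))) (.bis 0 3 1 2 484 (.bis 3 4 4 1 244
  (.leaf 17) (.bis 3 5 8 1 366 (.leaf 3) (.bis 1 3 1 8 300 (.leaf 13) (.leaf 3)))) (.bis 0 1 4 1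
  588 (.bis 4 6 1 1 571 (.leaf 3) (.leaf 17)) (.bis 0 4 2 1 475 (.bis 4 6 1 1 571 (.leaf 3)
  (.leaf 17)) (.bis 0 8 4 1 476 (.leaf 3) (.bis 0 5 4 1 474 (.bis 5 6 1 2 570 (.leaf 3) (.leaf
  3)) (.leaf 8)))))))))) (.bis 2 6 2 1 567 (.bis 3 7 2 1 428 (.bis 4 7 2 1 433 (.bis 6 8 2 1 479
  (.bis 0 1 4 1 588 (.bis 1 7 1 4 402 (.bis 7 8 2 1 405 (.leaf 17) (.leaf 8)) (.leaf 17)) (.bis 0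
  8 2 1 475 (.bis 7 8 2 1 405 (.leaf 17) (.leaf 8)) (.bis 0 5 4 1 474 (.leaf 8) (.leaf 8))))
  (.bis 0 1 4 1 588 (.bis 1 6 1 4 589 (.bis 5 6 1 4 480 (.leaf 8) (.leaf 8)) (.bis 1 7 1 4 402
  (.leaf 8) (.leaf 3))) (.bis 5 6 1 4 480 (.leaf 8) (.bis 0 5 4 1 474 (.leaf 8) (.leaf 8)))))
  (.bis 6 8 2 1 479 (.bis 0 4 1 2 492 (.bis 4 8 4 1 277 (.leaf 17) (.bis 4 5 8 1 368 (.bis 0 1 2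
  1 592 (.leaf 3) (.leaf 3)) (.bis 1 4 1 8 304 (.bis 4 6 8 1 495 (.leaf 3) (.leaf 7)) (.bis 0 1 2
  1 592 (.leaf 3) (.leaf 3))))) (.bis 0 1 4 1 588 (.bis 2 8 1 1 571 (.leaf 17) (.bis 1 4 1 2 592
  (.leaf 3) (.leaf 3))) (.bis 0 8 2 1 475 (.bis 2 8 1 1 571 (.leaf 17) (.leaf 3)) (.bis 0 5 4 1
  474 (.leaf 3) (.leaf 8))))) (.bis 0 4 1 2 492 (.bis 4 6 2 1 497 (.bis 1 6 1 4 589 (.bis 5 6 1 4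
  480 (.leaf 8) (.bis 2 5 2 1 570 (.leaf 3) (.leaf 3))) (.bis 0 1 2 1 592 (.bis 1 4 1 2 593
  (.leaf 3) (.leaf 3)) (.bis 2 5 2 1 570 (.leaf 3) (.leaf 3)))) (.bis 4 5 8 1 368 (.bis 0 1 2 1
  592 (.bis 1 6 1 2 593 (.leaf 3) (.leaf 3)) (.leaf 3)) (.bis 1 4 1 8 304 (.bis 4 8 8 1 495
  (.leaf 3) (.leaf 7)) (.bis 0 1 2 1 592 (.bis 1 6 1 2 593 (.leaf 3) (.leaf 3)) (.leaf 3)))))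
  (.bis 0 1 4 1 588 (.bis 1 6 1 4 589 (.bis 5 6 1 4 480 (.leaf 8) (.leaf 3)) (.bis 1 4 1 2 592
  (.leaf 3) (.leaf 3))) (.bis 5 6 1 4 480 (.leaf 8) (.bis 0 5 4 1 474 (.leaf 3) (.leaf 8)))))))
  (.bis 0 3 1 2 484 (.bis 6 8 2 1 479 (.bis 3 8 4 1 244 (.bis 4 8 4 1 277 (.leaf 17) (.bis 4 5 8
  1 368 (.leaf 3) (.bis 1 4 1 8 304 (.bis 4 6 8 1 495 (.leaf 3) (.leaf 7)) (.leaf 3)))) (.bis 3 5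
  8 1 366 (.bis 4 5 8 1 368 (.leaf 3) (.bis 1 4 1 8 304 (.bis 4 6 8 1 495 (.leaf 3) (.leaf 7))
  (.leaf 3))) (.bis 1 4 1 8 304 (.bis 3 6 8 1 486 (.bis 4 6 8 1 495 (.leaf 3) (.bis 4 7 4 1 446
  (.leaf 3) (.leaf 7))) (.leaf 7)) (.bis 3 6 8 1 486 (.leaf 3) (.leaf 13))))) (.bis 3 6 2 1 488
  (.bis 4 6 2 1 497 (.bis 1 6 1 4 589 (.bis 5 6 1 4 480 (.leaf 8) (.bis 3 5 2 1 489 (.leaf 3)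
  (.leaf 3))) (.bis 3 5 2 1 489 (.bis 1 4 1 2 593 (.bis 2 5 2 1 570 (.leaf 3) (.leaf 3)) (.leaf
  3)) (.bis 1 4 1 2 593 (.leaf 3) (.bis 0 1 2 1 590 (.leaf 3) (.leaf 3))))) (.bis 4 5 8 1 368
  (.bis 3 5 2 1 489 (.bis 1 6 1 2 593 (.leaf 3) (.leaf 3)) (.bis 1 6 1 2 593 (.leaf 3) (.bis 0 1
  2 1 590 (.leaf 3) (.leaf 3)))) (.bis 1 4 1 8 304 (.bis 4 8 8 1 495 (.leaf 3) (.leaf 7)) (.bis 1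
  6 1 2 593 (.leaf 3) (.leaf 3))))) (.bis 3 5 8 1 366 (.bis 4 5 8 1 368 (.bis 5 6 1 2 489 (.bis 0
  1 2 1 590 (.leaf 3) (.leaf 3)) (.leaf 3)) (.bis 1 4 1 8 304 (.bis 4 8 8 1 495 (.leaf 3) (.leaf
  7)) (.leaf 3))) (.bis 1 4 1 8 304 (.bis 3 8 8 1 486 (.bis 4 8 8 1 495 (.leaf 3) (.bis 4 7 4 1
  446 (.leaf 3) (.leaf 7))) (.leaf 7)) (.bis 3 8 8 1 486 (.leaf 3) (.bis 1 3 1 8 300 (.leaf 7)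
  (.leaf 3))))))) (.bis 6 8 2 1 479 (.bis 0 4 1 2 492 (.bis 4 8 4 1 277 (.bis 2 8 1 1 571 (.leaf
  17) (.leaf 3)) (.bis 4 5 8 1 368 (.bis 0 1 2 1 592 (.leaf 3) (.leaf 3)) (.bis 1 4 1 8 304 (.bis
  4 6 8 1 495 (.leaf 3) (.leaf 7)) (.bis 0 1 2 1 592 (.leaf 3) (.leaf 3))))) (.bis 0 1 4 1 588
  (.bis 2 8 1 1 571 (.leaf 17) (.bis 1 4 1 2 592 (.leaf 3) (.leaf 3))) (.bis 0 8 2 1 475 (.bis 2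
  8 1 1 571 (.leaf 17) (.leaf 3)) (.bis 0 5 4 1 474 (.leaf 3) (.leaf 8))))) (.bis 0 4 1 2 492
  (.bis 4 6 2 1 497 (.bis 1 6 1 4 589 (.bis 5 6 1 4 480 (.leaf 8) (.bis 2 5 2 1 570 (.leaf 3)
  (.leaf 3))) (.bis 0 1 2 1 592 (.bis 1 4 1 2 593 (.bis 2 5 2 1 570 (.leaf 3) (.leaf 3)) (.leaf
  3)) (.bis 2 5 2 1 570 (.leaf 3) (.leaf 3)))) (.bis 4 5 8 1 368 (.bis 0 1 2 1 592 (.bis 1 6 1 2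
  593 (.leaf 3) (.leaf 3)) (.leaf 3)) (.bis 1 4 1 8 304 (.bis 4 8 8 1 495 (.leaf 3) (.leaf 7))
  (.bis 0 1 2 1 592 (.bis 1 6 1 2 593 (.leaf 3) (.leaf 3)) (.leaf 3))))) (.bis 0 1 4 1 588 (.bis
  1 6 1 4 589 (.bis 5 6 1 4 480 (.leaf 8) (.bis 2 5 2 1 570 (.leaf 3) (.leaf 3))) (.bis 1 4 1 2
  592 (.bis 2 5 2 1 570 (.leaf 3) (.leaf 3)) (.leaf 3))) (.bis 5 6 1 4 480 (.leaf 8) (.bis 0 5 4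
  1 474 (.leaf 3) (.leaf 8)))))))) (.bis 2 7 2 1 424 (.bis 3 7 2 1 428 (.bis 4 7 2 1 433 (.bis 0
  1 4 1 588 (.bis 1 7 1 4 402 (.bis 7 8 2 1 405 (.bis 6 8 1 1 571 (.leaf 9) (.leaf 3)) (.bis 5 7
  1 4 438 (.leaf 8) (.leaf 3))) (.bis 6 8 1 1 571 (.leaf 9) (.bis 5 6 1 2 570 (.bis 1 4 1 2 594
  (.leaf 3) (.leaf 3)) (.leaf 3)))) (.bis 0 8 2 1 475 (.bis 7 8 2 1 405 (.bis 6 8 1 1 571 (.leaf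
  9) (.leaf 3)) (.leaf 8)) (.bis 0 5 4 1 474 (.leaf 8) (.leaf 8)))) (.bis 0 4 1 2 492 (.bis 4 8 4
  1 277 (.bis 6 8 1 1 571 (.leaf 17) (.bis 0 1 2 1 592 (.leaf 3) (.leaf 3))) (.bis 4 5 8 1 368
  (.bis 0 1 2 1 592 (.leaf 3) (.leaf 3)) (.bis 1 4 1 8 304 (.bis 2 4 1 4 447 (.leaf 7) (.leaf 3))
  (.bis 0 1 2 1 592 (.leaf 3) (.leaf 3))))) (.bis 0 1 4 1 588 (.bis 6 8 1 1 571 (.leaf 17) (.bis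
  1 4 1 2 592 (.leaf 3) (.leaf 3))) (.bis 0 8 2 1 475 (.bis 6 8 1 1 571 (.bis 4 8 1 1 595 (.leaf
  9) (.leaf 3)) (.leaf 3)) (.bis 0 5 4 1 474 (.leaf 3) (.leaf 8)))))) (.bis 0 3 1 2 484 (.bis 3 8
  4 1 244 (.bis 4 8 4 1 277 (.leaf 17) (.bis 4 5 8 1 368 (.leaf 3) (.bis 1 4 1 8 304 (.bis 2 4 1
  4 447 (.leaf 7) (.leaf 3)) (.leaf 3)))) (.bis 3 5 8 1 366 (.bis 4 5 8 1 368 (.leaf 3) (.bis 1 4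
  1 8 304 (.bis 2 4 1 4 447 (.leaf 7) (.leaf 3)) (.leaf 3))) (.bis 1 4 1 8 304 (.bis 2 4 1 4 447
  (.leaf 7) (.leaf 7)) (.leaf 13)))) (.bis 0 4 1 2 492 (.bis 4 8 4 1 277 (.bis 6 8 1 1 571 (.leaf
  17) (.bis 0 1 2 1 592 (.leaf 3) (.leaf 3))) (.bis 4 5 8 1 368 (.bis 0 1 2 1 592 (.leaf 3)
  (.leaf 3)) (.bis 1 4 1 8 304 (.bis 2 4 1 4 447 (.leaf 7) (.leaf 3)) (.bis 0 1 2 1 592 (.leaf 3)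
  (.leaf 3))))) (.bis 0 1 4 1 588 (.bis 6 8 1 1 571 (.bis 3 8 1 1 499 (.leaf 17) (.bis 1 4 1 2
  592 (.leaf 3) (.leaf 3))) (.bis 1 4 1 2 592 (.bis 5 6 1 2 570 (.leaf 3) (.leaf 3)) (.leaf 3)))
  (.bis 0 8 2 1 475 (.bis 6 8 1 1 571 (.bis 3 8 1 1 499 (.leaf 17) (.leaf 3)) (.leaf 3)) (.bis 0
  5 4 1 474 (.bis 5 6 1 2 570 (.leaf 3) (.leaf 3)) (.leaf 8))))))) (.bis 0 2 1 2 568 (.bis 2 8 4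
  1 227 (.bis 3 8 4 1 244 (.bis 4 8 4 1 277 (.leaf 17) (.bis 4 5 8 1 368 (.leaf 3) (.bis 1 4 1 8
  304 (.bis 4 7 4 1 447 (.leaf 3) (.leaf 7)) (.leaf 3)))) (.bis 3 5 8 1 366 (.bis 4 5 8 1 368
  (.leaf 3) (.bis 1 4 1 8 304 (.bis 4 7 4 1 447 (.leaf 3) (.leaf 7)) (.leaf 3))) (.bis 1 4 1 8
  304 (.bis 4 7 4 1 447 (.leaf 7) (.leaf 7)) (.leaf 13)))) (.bis 2 5 8 1 365 (.bis 3 5 8 1 366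
  (.bis 4 5 8 1 368 (.leaf 3) (.bis 1 4 1 8 304 (.bis 4 7 4 1 447 (.leaf 3) (.leaf 7)) (.leaf
  3))) (.bis 1 4 1 8 304 (.bis 4 7 4 1 447 (.leaf 7) (.leaf 7)) (.leaf 13))) (.bis 1 4 1 8 304
  (.bis 4 7 4 1 447 (.leaf 7) (.leaf 7)) (.bis 1 2 1 8 296 (.leaf 7) (.leaf 13))))) (.bis 0 3 1 2
  484 (.bis 3 8 4 1 244 (.bis 4 8 4 1 277 (.leaf 17) (.bis 4 5 8 1 368 (.leaf 3) (.bis 1 4 1 8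
  304 (.bis 4 7 4 1 447 (.leaf 3) (.leaf 7)) (.leaf 3)))) (.bis 3 5 8 1 366 (.bis 4 5 8 1 368
  (.leaf 3) (.bis 1 4 1 8 304 (.bis 4 7 4 1 447 (.leaf 3) (.leaf 7)) (.leaf 3))) (.bis 1 4 1 8
  304 (.bis 4 7 4 1 447 (.leaf 7) (.leaf 7)) (.leaf 13)))) (.bis 0 4 1 2 492 (.bis 4 8 4 1 277
  (.bis 6 8 1 1 571 (.leaf 17) (.bis 0 1 2 1 592 (.leaf 3) (.leaf 3))) (.bis 4 5 8 1 368 (.bis 0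
  1 2 1 592 (.leaf 3) (.leaf 3)) (.bis 1 4 1 8 304 (.bis 4 7 4 1 447 (.leaf 3) (.leaf 7)) (.bis 0
  1 2 1 592 (.leaf 3) (.leaf 3))))) (.bis 0 1 4 1 588 (.bis 6 8 1 1 571 (.bis 2 8 1 1 581 (.leaf
  17) (.bis 1 4 1 2 592 (.leaf 3) (.leaf 3))) (.bis 1 4 1 2 592 (.bis 5 6 1 2 570 (.leaf 3)
  (.leaf 3)) (.bis 5 6 1 2 570 (.bis 1 2 1 2 596 (.leaf 3) (.leaf 3)) (.leaf 3)))) (.bis 0 8 2 1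
  475 (.bis 6 8 1 1 571 (.bis 2 8 1 1 581 (.leaf 17) (.leaf 3)) (.bis 5 6 1 2 570 (.leaf 3)
  (.leaf 3))) (.bis 0 5 4 1 474 (.bis 5 6 1 2 570 (.leaf 3) (.leaf 3)) (.leaf 8))))))))))

def lc37 : List Vr := [⟨[24,0,0,0,0,0,85,0,0], 38617, 0⟩, ⟨[0,112,0,0,0,0,85,0,155], 406901, 0⟩,
  ⟨[0,0,17,0,0,0,0,0,0], 6936, 0⟩, ⟨[0,0,0,13,0,0,0,0,0], 6760, 0⟩, ⟨[0,0,0,0,19,0,0,0,0], 7581,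
  0⟩, ⟨[0,0,0,0,0,120,85,0,155], 405525, 0⟩, ⟨[0,28,0,0,0,0,85,0,0], 38081, 0⟩, ⟨[0,0,0,0,0,0,85,
  42,0], 42841, 0⟩, ⟨[0,0,0,0,0,0,85,0,155], 59925, 0⟩]

theorem lk37 : chkTr lowT (leafLow 2 lowB) lt37 lc37 = true := by decide +kernel

def lt38 : Tr ℕ := (.bis 2 6 2 1 567 (.bis 3 7 2 1 428 (.bis 4 7 2 1 433 (.bis 5 7 2 1 439 (.bis
  0 1 4 1 588 (.bis 1 6 1 4 589 (.bis 6 8 4 1 480 (.leaf 8) (.leaf 8)) (.bis 1 7 1 4 402 (.bis 7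
  8 4 1 438 (.leaf 3) (.leaf 8)) (.bis 1 5 1 2 441 (.leaf 3) (.leaf 3)))) (.bis 6 8 4 1 480 (.bis
  0 8 4 1 474 (.leaf 8) (.leaf 8)) (.leaf 8))) (.bis 1 5 1 8 378 (.bis 0 5 1 2 502 (.bis 5 6 2 1
  503 (.bis 6 8 4 1 480 (.leaf 3) (.leaf 8)) (.bis 3 5 1 4 444 (.bis 2 5 1 4 584 (.bis 4 5 1 4
  445 (.leaf 15) (.leaf 3)) (.leaf 3)) (.leaf 3))) (.bis 6 8 4 1 480 (.leaf 8) (.leaf 8))) (.bis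
  0 1 4 1 588 (.bis 1 6 1 4 589 (.leaf 8) (.bis 1 7 1 2 441 (.leaf 3) (.leaf 3))) (.bis 6 8 4 1
  480 (.leaf 8) (.leaf 8))))) (.bis 1 5 1 8 378 (.bis 0 4 1 2 492 (.bis 4 6 2 1 497 (.bis 5 6 2 1
  503 (.bis 6 8 4 1 480 (.leaf 3) (.leaf 8)) (.bis 3 5 1 4 444 (.bis 2 5 1 4 584 (.bis 5 7 4 1
  445 (.leaf 3) (.leaf 15)) (.bis 2 8 2 1 570 (.leaf 3) (.leaf 3))) (.bis 2 8 2 1 570 (.leaf 3)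
  (.leaf 3)))) (.bis 4 8 8 1 368 (.bis 3 5 1 4 444 (.bis 2 5 1 4 584 (.bis 5 7 4 1 445 (.leaf 3)
  (.bis 0 5 1 4 508 (.leaf 15) (.leaf 3))) (.leaf 3)) (.leaf 3)) (.bis 3 5 1 4 444 (.bis 2 5 1 4
  584 (.bis 4 5 1 1 393 (.bis 5 7 4 1 445 (.leaf 7) (.leaf 15)) (.leaf 7)) (.bis 2 4 1 4 582
  (.leaf 7) (.leaf 3))) (.bis 3 4 1 4 446 (.leaf 7) (.leaf 3))))) (.bis 0 5 1 2 502 (.bis 5 6 2 1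
  503 (.bis 6 8 4 1 480 (.leaf 3) (.leaf 8)) (.bis 3 5 1 4 444 (.bis 2 5 1 4 584 (.bis 5 7 4 1
  445 (.leaf 3) (.leaf 15)) (.leaf 3)) (.leaf 3))) (.bis 6 8 4 1 480 (.leaf 8) (.leaf 8)))) (.bis
  0 4 1 2 492 (.bis 4 6 2 1 497 (.bis 1 6 1 4 589 (.bis 6 8 4 1 480 (.leaf 3) (.leaf 8)) (.bis 0
  1 2 1 592 (.bis 1 4 1 2 593 (.leaf 3) (.leaf 3)) (.leaf 3))) (.bis 4 8 8 1 368 (.bis 0 1 2 1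
  592 (.bis 1 6 1 2 593 (.leaf 3) (.leaf 3)) (.leaf 3)) (.bis 1 4 1 8 304 (.leaf 7) (.bis 0 1 2 1
  592 (.bis 1 6 1 2 593 (.leaf 3) (.leaf 3)) (.leaf 3))))) (.bis 0 1 4 1 588 (.bis 1 6 1 4 589
  (.bis 6 8 4 1 480 (.leaf 3) (.leaf 8)) (.bis 1 4 1 2 592 (.leaf 3) (.leaf 3))) (.bis 6 8 4 1
  480 (.leaf 8) (.leaf 8)))))) (.bis 1 5 1 8 378 (.bis 0 3 1 2 484 (.bis 3 6 2 1 488 (.bis 4 6 2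
  1 497 (.bis 5 6 2 1 503 (.bis 6 8 4 1 480 (.bis 3 8 2 1 489 (.leaf 3) (.leaf 3)) (.leaf 8))
  (.bis 5 7 4 1 444 (.bis 3 8 2 1 489 (.leaf 3) (.leaf 3)) (.bis 2 5 1 4 584 (.bis 0 5 1 4 514
  (.bis 3 5 1 4 515 (.bis 4 5 1 4 510 (.leaf 15) (.bis 4 8 2 1 500 (.leaf 3) (.leaf 3))) (.bis 3
  8 2 1 489 (.leaf 3) (.leaf 3))) (.bis 3 8 2 1 489 (.leaf 3) (.leaf 3))) (.bis 3 8 2 1 489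
  (.leaf 3) (.leaf 3))))) (.bis 4 8 8 1 368 (.bis 5 7 4 1 444 (.bis 3 8 2 1 489 (.leaf 3) (.leaf
  3)) (.bis 2 5 1 4 584 (.bis 0 5 1 4 514 (.bis 3 5 1 4 515 (.leaf 15) (.leaf 3)) (.leaf 3))
  (.bis 3 8 2 1 489 (.leaf 3) (.leaf 3)))) (.bis 5 7 4 1 444 (.bis 4 7 4 1 446 (.leaf 3) (.leaf
  7)) (.bis 2 5 1 4 584 (.bis 0 5 1 4 514 (.bis 3 5 1 4 515 (.bis 4 5 1 1 393 (.leaf 15) (.leaf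
  7)) (.bis 3 4 1 4 561 (.leaf 7) (.leaf 3))) (.bis 0 4 1 4 557 (.leaf 7) (.leaf 3))) (.bis 2 4 1
  4 582 (.leaf 7) (.leaf 3)))))) (.bis 3 5 1 1 379 (.bis 4 8 8 1 368 (.bis 5 7 4 1 444 (.leaf 3)
  (.bis 2 5 1 4 584 (.bis 0 5 1 4 514 (.leaf 15) (.leaf 3)) (.leaf 3))) (.bis 5 7 4 1 444 (.bis 4
  7 4 1 446 (.leaf 3) (.leaf 7)) (.bis 2 5 1 4 584 (.bis 0 5 1 4 514 (.bis 5 6 4 1 515 (.bis 4 6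
  4 1 561 (.leaf 3) (.leaf 7)) (.bis 4 5 1 1 393 (.leaf 15) (.leaf 7))) (.bis 0 4 1 4 557 (.leaf
  7) (.leaf 3))) (.bis 2 4 1 4 582 (.leaf 7) (.leaf 3))))) (.bis 3 8 8 1 366 (.bis 4 8 8 1 368
  (.leaf 3) (.bis 4 7 4 1 446 (.leaf 3) (.leaf 7))) (.leaf 7)))) (.bis 0 4 1 2 492 (.bis 4 6 2 1
  497 (.bis 5 6 2 1 503 (.bis 6 8 4 1 480 (.bis 2 8 2 1 570 (.leaf 3) (.leaf 3)) (.leaf 8)) (.bis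
  5 7 4 1 444 (.bis 2 8 2 1 570 (.leaf 3) (.leaf 3)) (.bis 2 5 1 4 584 (.bis 3 5 1 4 514 (.leaf
  15) (.bis 4 8 2 1 500 (.leaf 3) (.leaf 3))) (.bis 2 8 2 1 570 (.leaf 3) (.leaf 3))))) (.bis 4 8
  8 1 368 (.bis 5 7 4 1 444 (.leaf 3) (.bis 2 5 1 4 584 (.bis 3 5 1 4 514 (.bis 0 5 1 4 508
  (.leaf 15) (.leaf 3)) (.leaf 3)) (.leaf 3))) (.bis 5 7 4 1 444 (.bis 4 7 4 1 446 (.leaf 3)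
  (.leaf 7)) (.bis 2 5 1 4 584 (.bis 3 5 1 4 514 (.bis 4 5 1 1 393 (.leaf 15) (.leaf 7)) (.bis 3
  4 1 4 557 (.leaf 7) (.leaf 3))) (.bis 2 4 1 4 582 (.leaf 7) (.leaf 3)))))) (.bis 0 5 1 2 502
  (.bis 5 6 2 1 503 (.bis 6 8 4 1 480 (.leaf 3) (.leaf 8)) (.bis 5 7 4 1 444 (.bis 2 8 2 1 570
  (.leaf 3) (.leaf 3)) (.bis 2 5 1 4 584 (.bis 3 5 1 4 514 (.leaf 15) (.leaf 3)) (.bis 2 8 2 1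
  570 (.leaf 3) (.leaf 3))))) (.bis 6 8 4 1 480 (.bis 0 8 4 1 474 (.leaf 3) (.leaf 8)) (.leaf
  8))))) (.bis 0 3 1 2 484 (.bis 3 6 2 1 488 (.bis 4 6 2 1 497 (.bis 1 6 1 4 589 (.bis 6 8 4 1
  480 (.bis 3 8 2 1 489 (.leaf 3) (.leaf 3)) (.leaf 8)) (.bis 3 8 2 1 489 (.bis 1 4 1 2 593
  (.leaf 3) (.leaf 3)) (.bis 1 4 1 2 593 (.leaf 3) (.bis 0 1 2 1 590 (.leaf 3) (.leaf 3)))))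
  (.bis 4 8 8 1 368 (.bis 3 8 2 1 489 (.bis 1 6 1 2 593 (.leaf 3) (.leaf 3)) (.bis 1 6 1 2 593
  (.leaf 3) (.bis 0 1 2 1 590 (.leaf 3) (.leaf 3)))) (.bis 1 4 1 8 304 (.bis 4 7 4 1 446 (.leaf
  3) (.leaf 7)) (.bis 1 6 1 2 593 (.leaf 3) (.leaf 3))))) (.bis 3 8 8 1 366 (.bis 4 8 8 1 368
  (.bis 6 8 2 1 489 (.bis 2 8 2 1 570 (.leaf 3) (.bis 0 1 2 1 590 (.leaf 3) (.leaf 3))) (.bis 0 1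
  2 1 590 (.leaf 3) (.leaf 3))) (.bis 1 4 1 8 304 (.leaf 7) (.leaf 3))) (.bis 1 4 1 8 304 (.leaf
  7) (.bis 1 3 1 8 300 (.leaf 7) (.leaf 3))))) (.bis 0 4 1 2 492 (.bis 4 6 2 1 497 (.bis 1 6 1 4
  589 (.bis 6 8 4 1 480 (.bis 2 8 2 1 570 (.leaf 3) (.leaf 3)) (.leaf 8)) (.bis 0 1 2 1 592 (.bis
  1 4 1 2 593 (.leaf 3) (.leaf 3)) (.bis 2 8 2 1 570 (.leaf 3) (.leaf 3)))) (.bis 4 8 8 1 368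
  (.bis 0 1 2 1 592 (.bis 1 6 1 2 593 (.leaf 3) (.leaf 3)) (.leaf 3)) (.bis 1 4 1 8 304 (.leaf 7)
  (.bis 0 1 2 1 592 (.bis 1 6 1 2 593 (.leaf 3) (.leaf 3)) (.leaf 3))))) (.bis 0 1 4 1 588 (.bis
  1 6 1 4 589 (.bis 6 8 4 1 480 (.leaf 3) (.leaf 8)) (.bis 1 4 1 2 592 (.leaf 3) (.leaf 3)))
  (.bis 6 8 4 1 480 (.bis 0 8 4 1 474 (.leaf 3) (.leaf 8)) (.leaf 8))))))) (.bis 2 7 2 1 424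
  (.bis 3 7 2 1 428 (.bis 4 7 2 1 433 (.bis 5 7 2 1 439 (.bis 0 1 4 1 588 (.bis 1 7 1 4 402 (.bis
  7 8 4 1 438 (.leaf 3) (.leaf 8)) (.bis 1 5 1 2 441 (.leaf 3) (.bis 6 8 2 1 570 (.bis 1 4 1 2
  594 (.leaf 3) (.leaf 3)) (.bis 1 4 1 2 594 (.leaf 3) (.leaf 3))))) (.bis 0 8 4 1 474 (.bis 7 8
  4 1 438 (.leaf 3) (.leaf 8)) (.leaf 8))) (.bis 1 5 1 8 378 (.bis 0 5 1 2 502 (.bis 2 5 1 4 443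
  (.bis 3 5 1 4 444 (.bis 5 6 4 1 584 (.leaf 3) (.bis 4 5 1 4 445 (.leaf 15) (.leaf 3))) (.leaf
  3)) (.leaf 3)) (.leaf 8)) (.bis 0 1 4 1 588 (.bis 1 7 1 2 441 (.leaf 3) (.bis 6 8 2 1 570
  (.leaf 3) (.bis 1 4 1 2 594 (.leaf 3) (.leaf 3)))) (.leaf 8)))) (.bis 1 5 1 8 378 (.bis 0 4 1 2
  492 (.bis 2 5 1 4 443 (.bis 4 8 8 1 368 (.bis 3 5 1 4 444 (.bis 5 6 4 1 584 (.leaf 3) (.bis 5 7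
  4 1 445 (.leaf 3) (.leaf 15))) (.leaf 3)) (.bis 3 5 1 4 444 (.bis 5 6 4 1 584 (.bis 4 6 4 1 582
  (.leaf 3) (.leaf 7)) (.bis 4 5 1 1 393 (.leaf 15) (.leaf 7))) (.bis 3 4 1 4 446 (.leaf 7)
  (.leaf 3)))) (.bis 4 8 8 1 368 (.leaf 3) (.bis 2 4 1 4 447 (.bis 3 4 1 4 446 (.leaf 7) (.leaf
  3)) (.leaf 3)))) (.bis 0 5 1 2 502 (.bis 2 5 1 4 443 (.bis 3 5 1 4 444 (.bis 5 6 4 1 584 (.leaf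
  3) (.bis 5 7 4 1 445 (.leaf 3) (.leaf 15))) (.leaf 3)) (.leaf 3)) (.bis 0 8 4 1 474 (.leaf 3)
  (.leaf 8)))) (.bis 0 4 1 2 492 (.bis 4 8 8 1 368 (.bis 0 1 2 1 592 (.bis 6 8 2 1 570 (.leaf 3)
  (.bis 1 7 1 2 594 (.leaf 3) (.leaf 3))) (.leaf 3)) (.bis 1 4 1 8 304 (.bis 2 4 1 4 447 (.leaf
  7) (.leaf 3)) (.bis 0 1 2 1 592 (.leaf 3) (.leaf 3)))) (.bis 0 1 4 1 588 (.bis 1 4 1 2 592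
  (.leaf 3) (.leaf 3)) (.bis 0 8 4 1 474 (.leaf 3) (.leaf 8)))))) (.bis 1 5 1 8 378 (.bis 0 3 1 2
  484 (.bis 3 5 1 1 379 (.bis 2 5 1 4 443 (.bis 4 8 8 1 368 (.bis 5 7 4 1 444 (.leaf 3) (.bis 5 6
  4 1 584 (.leaf 3) (.leaf 15))) (.bis 5 7 4 1 444 (.bis 4 7 4 1 446 (.leaf 3) (.leaf 7)) (.bis 5
  6 4 1 584 (.bis 4 6 4 1 582 (.leaf 3) (.leaf 7)) (.bis 0 5 1 4 514 (.bis 4 5 1 1 393 (.leaf 15)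
  (.leaf 7)) (.bis 0 4 1 4 557 (.leaf 7) (.leaf 3)))))) (.bis 4 8 8 1 368 (.leaf 3) (.bis 2 4 1 4
  447 (.leaf 7) (.leaf 3)))) (.bis 3 8 8 1 366 (.bis 4 8 8 1 368 (.leaf 3) (.bis 2 4 1 4 447
  (.leaf 7) (.leaf 3))) (.bis 2 4 1 4 447 (.leaf 7) (.leaf 7)))) (.bis 0 4 1 2 492 (.bis 2 5 1 4
  443 (.bis 4 8 8 1 368 (.bis 5 7 4 1 444 (.leaf 3) (.bis 5 6 4 1 584 (.leaf 3) (.bis 3 5 1 4 514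
  (.leaf 15) (.leaf 3)))) (.bis 5 7 4 1 444 (.bis 4 7 4 1 446 (.leaf 3) (.leaf 7)) (.bis 5 6 4 1
  584 (.bis 4 6 4 1 582 (.leaf 3) (.leaf 7)) (.bis 3 5 1 4 514 (.bis 4 5 1 1 393 (.leaf 15)
  (.leaf 7)) (.bis 3 4 1 4 557 (.leaf 7) (.leaf 3)))))) (.bis 4 8 8 1 368 (.leaf 3) (.bis 2 4 1 4
  447 (.bis 4 7 4 1 446 (.leaf 3) (.leaf 7)) (.leaf 3)))) (.bis 0 5 1 2 502 (.bis 2 5 1 4 443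
  (.bis 5 7 4 1 444 (.leaf 3) (.bis 5 6 4 1 584 (.leaf 3) (.bis 3 5 1 4 514 (.leaf 15) (.leaf
  3)))) (.leaf 3)) (.bis 0 8 4 1 474 (.leaf 3) (.leaf 8))))) (.bis 0 3 1 2 484 (.bis 3 8 8 1 366
  (.bis 4 8 8 1 368 (.bis 6 8 2 1 570 (.leaf 3) (.bis 0 1 2 1 590 (.leaf 3) (.leaf 3))) (.bis 1 4
  1 8 304 (.bis 2 4 1 4 447 (.leaf 7) (.leaf 3)) (.leaf 3))) (.bis 1 4 1 8 304 (.bis 2 4 1 4 447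
  (.leaf 7) (.leaf 7)) (.bis 1 3 1 8 300 (.leaf 7) (.leaf 3)))) (.bis 0 4 1 2 492 (.bis 4 8 8 1
  368 (.bis 0 1 2 1 592 (.leaf 3) (.leaf 3)) (.bis 1 4 1 8 304 (.bis 2 4 1 4 447 (.leaf 7) (.leaf
  3)) (.bis 0 1 2 1 592 (.leaf 3) (.leaf 3)))) (.bis 0 1 4 1 588 (.bis 1 4 1 2 592 (.leaf 3)
  (.leaf 3)) (.bis 0 8 4 1 474 (.leaf 3) (.leaf 8))))))) (.bis 0 2 1 2 568 (.bis 2 5 1 1 377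
  (.bis 1 5 1 8 378 (.bis 3 5 1 1 379 (.bis 5 7 4 1 443 (.bis 4 8 8 1 368 (.leaf 3) (.bis 4 7 4 1
  447 (.leaf 3) (.leaf 7))) (.bis 0 5 1 4 586 (.bis 4 8 8 1 368 (.leaf 15) (.bis 5 6 4 1 584
  (.leaf 7) (.bis 4 5 1 1 393 (.leaf 15) (.leaf 7)))) (.bis 4 8 8 1 368 (.leaf 3) (.leaf 7))))
  (.bis 3 8 8 1 366 (.bis 4 8 8 1 368 (.leaf 3) (.leaf 7)) (.leaf 7))) (.bis 3 8 8 1 366 (.bis 4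
  8 8 1 368 (.bis 1 2 1 4 382 (.leaf 3) (.leaf 3)) (.bis 1 4 1 8 304 (.leaf 7) (.bis 1 2 1 4 382
  (.leaf 3) (.leaf 3)))) (.bis 1 4 1 8 304 (.leaf 7) (.bis 1 2 1 4 382 (.leaf 7) (.bis 1 3 1 8
  300 (.leaf 7) (.leaf 3)))))) (.bis 2 8 8 1 365 (.bis 3 8 8 1 366 (.bis 4 8 8 1 368 (.bis 1 5 1
  4 382 (.leaf 3) (.leaf 3)) (.bis 1 4 1 8 304 (.leaf 7) (.bis 1 5 1 4 382 (.leaf 3) (.leaf 3))))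
  (.bis 1 4 1 8 304 (.leaf 7) (.bis 1 5 1 4 382 (.leaf 7) (.leaf 13)))) (.bis 1 4 1 8 304 (.leaf
  7) (.bis 1 2 1 8 296 (.leaf 7) (.bis 1 5 1 4 382 (.leaf 7) (.leaf 13)))))) (.bis 1 5 1 8 378
  (.bis 0 3 1 2 484 (.bis 3 5 1 1 379 (.bis 5 7 4 1 443 (.bis 4 8 8 1 368 (.leaf 3) (.bis 4 7 4 1
  447 (.leaf 3) (.leaf 7))) (.bis 2 5 1 4 586 (.bis 4 8 8 1 368 (.bis 5 6 4 1 584 (.leaf 3)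
  (.leaf 15)) (.bis 5 6 4 1 584 (.bis 4 6 4 1 582 (.leaf 3) (.leaf 7)) (.bis 0 5 1 4 514 (.bis 4
  5 1 1 393 (.leaf 15) (.leaf 7)) (.bis 0 4 1 4 557 (.leaf 7) (.leaf 3))))) (.bis 4 8 8 1 368
  (.leaf 3) (.bis 2 4 1 4 579 (.leaf 7) (.leaf 3))))) (.bis 3 8 8 1 366 (.bis 4 8 8 1 368 (.leaf
  3) (.bis 4 7 4 1 447 (.leaf 3) (.leaf 7))) (.bis 4 7 4 1 447 (.leaf 7) (.leaf 7)))) (.bis 0 4 1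
  2 492 (.bis 5 7 4 1 443 (.bis 4 8 8 1 368 (.leaf 3) (.bis 4 7 4 1 447 (.leaf 3) (.bis 2 4 1 4
  579 (.leaf 7) (.leaf 3)))) (.bis 2 5 1 4 586 (.bis 4 8 8 1 368 (.bis 5 6 4 1 584 (.leaf 3)
  (.bis 3 5 1 4 514 (.leaf 15) (.leaf 3))) (.bis 5 6 4 1 584 (.bis 4 6 4 1 582 (.leaf 3) (.leaf
  7)) (.bis 3 5 1 4 514 (.bis 4 5 1 1 393 (.leaf 15) (.leaf 7)) (.bis 3 4 1 4 557 (.leaf 7)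
  (.leaf 3))))) (.bis 4 8 8 1 368 (.leaf 3) (.bis 2 4 1 4 579 (.bis 4 6 4 1 582 (.leaf 3) (.leaf
  7)) (.leaf 3))))) (.bis 0 5 1 2 502 (.bis 5 7 4 1 443 (.bis 6 8 2 1 570 (.leaf 3) (.leaf 3))
  (.bis 2 5 1 4 586 (.bis 5 6 4 1 584 (.leaf 3) (.bis 3 5 1 4 514 (.leaf 15) (.leaf 3))) (.bis 6
  8 2 1 570 (.leaf 3) (.leaf 3)))) (.bis 0 8 4 1 474 (.bis 6 8 2 1 570 (.leaf 3) (.leaf 3))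
  (.leaf 8))))) (.bis 0 3 1 2 484 (.bis 3 8 8 1 366 (.bis 4 8 8 1 368 (.bis 6 8 2 1 570 (.bis 2 8
  2 1 580 (.leaf 3) (.bis 1 2 1 2 596 (.leaf 3) (.leaf 3))) (.bis 1 2 1 2 596 (.leaf 3) (.leaf
  3))) (.bis 1 4 1 8 304 (.bis 4 7 4 1 447 (.leaf 3) (.leaf 7)) (.bis 1 2 1 2 596 (.leaf 3)
  (.leaf 3)))) (.bis 1 4 1 8 304 (.bis 4 7 4 1 447 (.leaf 7) (.leaf 7)) (.bis 1 3 1 8 300 (.leaf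
  7) (.leaf 3)))) (.bis 0 4 1 2 492 (.bis 4 8 8 1 368 (.bis 0 1 2 1 592 (.bis 6 8 2 1 570 (.bis 2
  8 2 1 580 (.leaf 3) (.bis 1 2 1 2 596 (.leaf 3) (.leaf 3))) (.bis 1 2 1 2 596 (.leaf 3) (.leaf
  3))) (.leaf 3)) (.bis 1 4 1 8 304 (.bis 4 7 4 1 447 (.leaf 3) (.leaf 7)) (.bis 0 1 2 1 592
  (.leaf 3) (.leaf 3)))) (.bis 0 1 4 1 588 (.bis 1 4 1 2 592 (.bis 6 8 2 1 570 (.leaf 3) (.leaf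
  3)) (.bis 6 8 2 1 570 (.leaf 3) (.bis 1 2 1 2 596 (.leaf 3) (.leaf 3)))) (.bis 0 8 4 1 474
  (.bis 6 8 2 1 570 (.leaf 3) (.leaf 3)) (.leaf 8)))))))))

def lc38 : List Vr := [⟨[24,0,0,0,0,0,85,0,0], 38617, 0⟩, ⟨[0,112,0,0,0,0,85,0,155], 406901, 0⟩,
  ⟨[0,0,17,0,0,0,0,0,0], 6936, 0⟩, ⟨[0,0,0,13,0,0,0,0,0], 6760, 0⟩, ⟨[0,0,0,0,19,0,0,0,0], 7581,
  0⟩, ⟨[0,0,0,0,0,30,0,0,0], 7200, 0⟩, ⟨[0,28,0,0,0,0,85,0,0], 38081, 0⟩, ⟨[0,0,0,0,0,0,85,42,0],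
  42841, 0⟩, ⟨[0,0,0,0,0,120,85,0,155], 405525, 0⟩]

theorem lk38 : chkTr lowT (leafLow 2 lowB) lt38 lc38 = true := by decide +kernel

def lt39 : Tr ℕ := (.bis 1 7 2 1 451 (.bis 2 6 2 1 567 (.bis 3 7 2 1 428 (.bis 4 7 2 1 433 (.bis
  5 7 2 1 439 (.bis 0 8 4 1 588 (.bis 6 8 4 1 589 (.bis 7 8 4 1 402 (.bis 5 8 2 1 441 (.bis 4 8 2
  1 594 (.leaf 3) (.leaf 3)) (.leaf 3)) (.leaf 8)) (.leaf 8)) (.leaf 8)) (.bis 5 8 8 1 378 (.bis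
  0 8 4 1 588 (.bis 6 8 4 1 589 (.bis 7 8 2 1 441 (.leaf 3) (.leaf 3)) (.leaf 8)) (.leaf 8))
  (.bis 0 5 1 2 502 (.bis 5 6 2 1 503 (.leaf 8) (.bis 1 5 1 4 456 (.bis 3 5 1 4 444 (.bis 2 5 1 4
  584 (.leaf 15) (.leaf 3)) (.leaf 3)) (.leaf 3))) (.leaf 8)))) (.bis 5 8 8 1 378 (.bis 0 4 1 2
  492 (.bis 4 6 2 1 497 (.bis 6 8 4 1 589 (.bis 0 8 2 1 592 (.bis 4 8 2 1 593 (.leaf 3) (.leaf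
  3)) (.leaf 3)) (.leaf 8)) (.bis 4 8 8 1 304 (.bis 0 8 2 1 592 (.leaf 3) (.leaf 3)) (.bis 1 4 1
  4 458 (.leaf 7) (.leaf 3)))) (.bis 0 8 4 1 588 (.bis 6 8 4 1 589 (.bis 4 8 2 1 592 (.leaf 3)
  (.leaf 3)) (.leaf 8)) (.leaf 8))) (.bis 0 4 1 2 492 (.bis 4 6 2 1 497 (.bis 5 6 2 1 503 (.leaf
  8) (.bis 1 5 1 4 456 (.bis 3 5 1 4 444 (.bis 2 5 1 4 584 (.bis 5 7 4 1 445 (.leaf 3) (.leaf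
  15)) (.leaf 3)) (.leaf 3)) (.leaf 3))) (.bis 1 5 1 4 456 (.bis 3 5 1 4 444 (.bis 2 5 1 4 584
  (.bis 4 5 1 1 393 (.bis 5 7 4 1 445 (.leaf 7) (.leaf 15)) (.bis 4 8 16 1 597 (.leaf 7) (.leaf
  7))) (.bis 2 4 1 4 582 (.bis 4 8 16 1 597 (.leaf 3) (.leaf 7)) (.leaf 3))) (.bis 3 4 1 4 446
  (.bis 2 4 1 4 582 (.leaf 7) (.leaf 3)) (.leaf 3))) (.bis 1 4 1 4 458 (.bis 3 4 1 4 446 (.leaf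
  7) (.leaf 3)) (.leaf 3)))) (.bis 0 5 1 2 502 (.bis 5 6 2 1 503 (.leaf 8) (.bis 1 5 1 4 456
  (.bis 3 5 1 4 444 (.bis 2 5 1 4 584 (.bis 5 7 4 1 445 (.leaf 3) (.leaf 15)) (.leaf 3)) (.leaf
  3)) (.leaf 3))) (.leaf 8))))) (.bis 5 8 8 1 378 (.bis 0 3 1 2 484 (.bis 3 6 2 1 488 (.bis 4 6 2
  1 497 (.bis 6 8 4 1 589 (.bis 4 8 2 1 593 (.bis 0 8 2 1 590 (.leaf 3) (.leaf 3)) (.leaf 3))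
  (.leaf 8)) (.bis 4 8 8 1 304 (.bis 6 8 2 1 593 (.leaf 3) (.leaf 3)) (.bis 1 4 1 4 458 (.bis 4 7
  4 1 446 (.leaf 3) (.leaf 7)) (.leaf 3)))) (.bis 4 8 8 1 304 (.bis 3 8 8 1 300 (.leaf 3) (.leaf
  7)) (.bis 1 4 1 4 458 (.leaf 7) (.bis 3 5 16 1 598 (.leaf 3) (.leaf 7))))) (.bis 0 4 1 2 492
  (.bis 4 6 2 1 497 (.bis 6 8 4 1 589 (.bis 0 8 2 1 592 (.bis 4 8 2 1 593 (.leaf 3) (.leaf 3))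
  (.leaf 3)) (.leaf 8)) (.bis 4 8 8 1 304 (.bis 0 8 2 1 592 (.leaf 3) (.leaf 3)) (.bis 1 4 1 4
  458 (.leaf 7) (.leaf 3)))) (.bis 0 8 4 1 588 (.bis 6 8 4 1 589 (.bis 4 8 2 1 592 (.leaf 3)
  (.leaf 3)) (.leaf 8)) (.leaf 8)))) (.bis 0 3 1 2 484 (.bis 3 6 2 1 488 (.bis 4 6 2 1 497 (.bis
  5 6 2 1 503 (.leaf 8) (.bis 1 5 1 4 456 (.bis 5 7 4 1 444 (.leaf 3) (.bis 2 5 1 4 584 (.bis 0 5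
  1 4 514 (.bis 3 5 1 4 515 (.leaf 15) (.leaf 3)) (.leaf 3)) (.leaf 3))) (.leaf 3))) (.bis 1 5 1
  4 456 (.bis 5 7 4 1 444 (.bis 4 7 4 1 446 (.leaf 3) (.bis 2 4 1 4 582 (.leaf 7) (.leaf 3)))
  (.bis 2 5 1 4 584 (.bis 0 5 1 4 514 (.bis 3 5 1 4 515 (.bis 4 5 1 1 393 (.leaf 15) (.bis 4 8 16
  1 597 (.leaf 7) (.leaf 7))) (.bis 3 4 1 4 561 (.bis 4 8 16 1 597 (.leaf 3) (.leaf 7)) (.leaf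
  3))) (.bis 0 4 1 4 557 (.bis 3 4 1 4 561 (.leaf 7) (.leaf 3)) (.leaf 3))) (.bis 2 4 1 4 582
  (.bis 0 4 1 4 557 (.leaf 7) (.leaf 3)) (.leaf 3)))) (.bis 1 4 1 4 458 (.bis 4 7 4 1 446 (.leaf
  3) (.bis 2 4 1 4 582 (.leaf 7) (.leaf 3))) (.leaf 3)))) (.bis 3 5 1 1 379 (.bis 1 5 1 4 456
  (.bis 5 7 4 1 444 (.bis 4 7 4 1 446 (.leaf 3) (.bis 2 4 1 4 582 (.leaf 7) (.leaf 3))) (.bis 2 5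
  1 4 584 (.bis 0 5 1 4 514 (.bis 5 6 4 1 515 (.bis 4 6 4 1 561 (.leaf 3) (.bis 4 8 16 1 597
  (.leaf 3) (.leaf 7))) (.bis 4 5 1 1 393 (.leaf 15) (.bis 4 8 16 1 597 (.leaf 7) (.leaf 7))))
  (.bis 0 4 1 4 557 (.bis 4 6 4 1 561 (.leaf 3) (.leaf 7)) (.leaf 3))) (.bis 2 4 1 4 582 (.bis 0
  4 1 4 557 (.leaf 7) (.leaf 3)) (.leaf 3)))) (.bis 1 4 1 4 458 (.bis 4 7 4 1 446 (.leaf 3)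
  (.leaf 7)) (.leaf 3))) (.bis 1 4 1 4 458 (.leaf 7) (.bis 3 8 16 1 598 (.leaf 3) (.leaf 7)))))
  (.bis 0 4 1 2 492 (.bis 4 6 2 1 497 (.bis 5 6 2 1 503 (.leaf 8) (.bis 1 5 1 4 456 (.bis 5 7 4 1
  444 (.leaf 3) (.bis 2 5 1 4 584 (.bis 3 5 1 4 514 (.leaf 15) (.leaf 3)) (.leaf 3))) (.leaf 3)))
  (.bis 1 5 1 4 456 (.bis 5 7 4 1 444 (.bis 4 7 4 1 446 (.leaf 3) (.bis 2 4 1 4 582 (.leaf 7)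
  (.leaf 3))) (.bis 2 5 1 4 584 (.bis 3 5 1 4 514 (.bis 4 5 1 1 393 (.leaf 15) (.bis 4 8 16 1 597
  (.leaf 7) (.leaf 7))) (.bis 3 4 1 4 557 (.bis 4 8 16 1 597 (.leaf 3) (.leaf 7)) (.leaf 3)))
  (.bis 2 4 1 4 582 (.bis 3 4 1 4 557 (.leaf 7) (.leaf 3)) (.leaf 3)))) (.bis 1 4 1 4 458 (.bis 4
  7 4 1 446 (.leaf 3) (.leaf 7)) (.leaf 3)))) (.bis 0 5 1 2 502 (.bis 5 6 2 1 503 (.leaf 8) (.bis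
  1 5 1 4 456 (.bis 5 7 4 1 444 (.leaf 3) (.bis 2 5 1 4 584 (.bis 3 5 1 4 514 (.leaf 15) (.leaf
  3)) (.leaf 3))) (.leaf 3))) (.leaf 8)))))) (.bis 2 7 2 1 424 (.bis 3 7 2 1 428 (.bis 4 7 2 1
  433 (.bis 5 7 2 1 439 (.bis 0 8 4 1 588 (.bis 7 8 4 1 402 (.bis 5 8 2 1 441 (.bis 4 8 2 1 594
  (.leaf 3) (.leaf 3)) (.leaf 3)) (.leaf 8)) (.leaf 8)) (.bis 5 8 8 1 378 (.bis 0 8 4 1 588 (.bis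
  7 8 2 1 441 (.bis 4 8 2 1 594 (.leaf 3) (.leaf 3)) (.leaf 3)) (.leaf 8)) (.bis 0 5 1 2 502
  (.bis 2 5 1 4 443 (.bis 1 5 1 4 456 (.bis 3 5 1 4 444 (.bis 5 6 4 1 584 (.leaf 3) (.leaf 15))
  (.leaf 3)) (.leaf 3)) (.leaf 3)) (.leaf 8)))) (.bis 5 8 8 1 378 (.bis 0 4 1 2 492 (.bis 4 8 8 1
  304 (.bis 0 8 2 1 592 (.leaf 3) (.leaf 3)) (.bis 2 4 1 4 447 (.bis 1 4 1 4 458 (.leaf 7) (.leaf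
  3)) (.leaf 3))) (.bis 0 8 4 1 588 (.bis 4 8 2 1 592 (.bis 7 8 2 1 594 (.leaf 3) (.leaf 3))
  (.leaf 3)) (.leaf 8))) (.bis 0 4 1 2 492 (.bis 2 5 1 4 443 (.bis 1 5 1 4 456 (.bis 3 5 1 4 444
  (.bis 5 6 4 1 584 (.bis 4 6 4 1 582 (.leaf 3) (.bis 2 4 1 8 599 (.leaf 7) (.leaf 3))) (.bis 4 5
  1 1 393 (.leaf 15) (.bis 2 4 1 8 599 (.leaf 7) (.leaf 7)))) (.bis 3 4 1 4 446 (.bis 4 6 4 1 582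
  (.leaf 3) (.leaf 7)) (.leaf 3))) (.bis 1 4 1 4 458 (.bis 3 4 1 4 446 (.leaf 7) (.leaf 3))
  (.leaf 3))) (.bis 2 4 1 4 447 (.bis 1 4 1 4 458 (.bis 3 4 1 4 446 (.leaf 7) (.leaf 3)) (.leaf
  3)) (.leaf 3))) (.bis 0 5 1 2 502 (.bis 2 5 1 4 443 (.bis 1 5 1 4 456 (.bis 3 5 1 4 444 (.bis 5
  6 4 1 584 (.leaf 3) (.bis 5 7 4 1 445 (.leaf 3) (.leaf 15))) (.leaf 3)) (.leaf 3)) (.leaf 3))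
  (.leaf 8))))) (.bis 5 8 8 1 378 (.bis 0 3 1 2 484 (.bis 4 8 8 1 304 (.bis 3 8 8 1 300 (.leaf 3)
  (.bis 2 3 1 4 578 (.leaf 7) (.leaf 3))) (.bis 2 4 1 4 447 (.leaf 7) (.bis 2 3 1 4 578 (.leaf 7)
  (.leaf 3)))) (.bis 0 4 1 2 492 (.bis 4 8 8 1 304 (.bis 0 8 2 1 592 (.leaf 3) (.leaf 3)) (.bis 2
  4 1 4 447 (.bis 1 4 1 4 458 (.leaf 7) (.leaf 3)) (.leaf 3))) (.bis 0 8 4 1 588 (.bis 4 8 2 1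
  592 (.bis 3 8 2 1 590 (.leaf 3) (.leaf 3)) (.leaf 3)) (.leaf 8)))) (.bis 0 3 1 2 484 (.bis 3 5
  1 1 379 (.bis 2 5 1 4 443 (.bis 1 5 1 4 456 (.bis 5 7 4 1 444 (.bis 4 7 4 1 446 (.leaf 3) (.bis
  4 6 4 1 582 (.leaf 3) (.leaf 7))) (.bis 5 6 4 1 584 (.bis 4 6 4 1 582 (.leaf 3) (.bis 0 4 1 4
  557 (.leaf 7) (.leaf 3))) (.bis 0 5 1 4 514 (.bis 4 5 1 1 393 (.leaf 15) (.bis 2 4 1 8 599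
  (.leaf 7) (.leaf 7))) (.bis 0 4 1 4 557 (.bis 2 4 1 8 599 (.leaf 7) (.leaf 3)) (.leaf 3)))))
  (.bis 1 4 1 4 458 (.bis 4 7 4 1 446 (.leaf 3) (.leaf 7)) (.leaf 3))) (.bis 2 4 1 4 447 (.bis 1
  4 1 4 458 (.leaf 7) (.leaf 3)) (.leaf 3))) (.bis 2 4 1 4 447 (.leaf 7) (.bis 2 3 1 4 578 (.leaf
  7) (.leaf 3)))) (.bis 0 4 1 2 492 (.bis 2 5 1 4 443 (.bis 1 5 1 4 456 (.bis 5 7 4 1 444 (.bis 4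
  7 4 1 446 (.leaf 3) (.bis 4 6 4 1 582 (.leaf 3) (.leaf 7))) (.bis 5 6 4 1 584 (.bis 4 6 4 1 582
  (.leaf 3) (.bis 3 4 1 4 557 (.leaf 7) (.leaf 3))) (.bis 3 5 1 4 514 (.bis 4 5 1 1 393 (.leaf
  15) (.bis 2 4 1 8 599 (.leaf 7) (.leaf 7))) (.bis 3 4 1 4 557 (.bis 2 4 1 8 599 (.leaf 7)
  (.leaf 3)) (.leaf 3))))) (.bis 1 4 1 4 458 (.bis 4 7 4 1 446 (.leaf 3) (.bis 4 6 4 1 582 (.leaf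
  3) (.leaf 7))) (.leaf 3))) (.bis 2 4 1 4 447 (.bis 1 4 1 4 458 (.bis 4 7 4 1 446 (.leaf 3)
  (.leaf 7)) (.leaf 3)) (.leaf 3))) (.bis 0 5 1 2 502 (.bis 2 5 1 4 443 (.bis 1 5 1 4 456 (.bis 5
  7 4 1 444 (.leaf 3) (.bis 5 6 4 1 584 (.leaf 3) (.bis 3 5 1 4 514 (.leaf 15) (.leaf 3))))
  (.leaf 3)) (.leaf 3)) (.leaf 8)))))) (.bis 0 2 1 2 568 (.bis 2 5 1 1 377 (.bis 5 8 8 1 378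
  (.bis 4 8 8 1 304 (.bis 2 8 4 1 382 (.bis 3 8 8 1 300 (.leaf 3) (.leaf 7)) (.bis 3 7 4 1 578
  (.leaf 3) (.leaf 7))) (.bis 4 7 4 1 447 (.bis 3 7 4 1 578 (.leaf 3) (.leaf 7)) (.leaf 7)))
  (.bis 3 5 1 1 379 (.bis 5 7 4 1 443 (.bis 4 7 4 1 447 (.leaf 3) (.bis 1 4 1 4 458 (.leaf 7)
  (.leaf 3))) (.bis 1 5 1 4 456 (.bis 0 5 1 4 586 (.bis 5 6 4 1 584 (.bis 4 6 4 1 582 (.leaf 3)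
  (.leaf 7)) (.bis 4 5 1 1 393 (.leaf 15) (.leaf 7))) (.bis 0 4 1 4 579 (.leaf 7) (.leaf 3)))
  (.bis 1 4 1 4 458 (.leaf 7) (.leaf 3)))) (.bis 4 7 4 1 447 (.bis 3 7 4 1 578 (.leaf 3) (.leaf
  7)) (.leaf 7)))) (.bis 4 8 8 1 304 (.bis 2 8 8 1 296 (.leaf 13) (.leaf 7)) (.bis 4 7 4 1 447
  (.bis 1 2 1 4 453 (.leaf 7) (.leaf 7)) (.leaf 7)))) (.bis 5 8 8 1 378 (.bis 0 3 1 2 484 (.bis 4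
  8 8 1 304 (.bis 3 8 8 1 300 (.leaf 3) (.bis 3 7 4 1 578 (.leaf 3) (.leaf 7))) (.bis 4 7 4 1 447
  (.bis 3 7 4 1 578 (.leaf 3) (.leaf 7)) (.leaf 7))) (.bis 0 4 1 2 492 (.bis 4 8 8 1 304 (.bis 0
  8 2 1 592 (.leaf 3) (.leaf 3)) (.bis 4 7 4 1 447 (.leaf 3) (.bis 1 4 1 4 458 (.leaf 7) (.leaf
  3)))) (.bis 0 8 4 1 588 (.bis 4 8 2 1 592 (.bis 2 8 2 1 596 (.leaf 3) (.leaf 3)) (.leaf 3))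
  (.leaf 8)))) (.bis 0 3 1 2 484 (.bis 3 5 1 1 379 (.bis 5 7 4 1 443 (.bis 4 7 4 1 447 (.leaf 3)
  (.bis 1 4 1 4 458 (.leaf 7) (.leaf 3))) (.bis 1 5 1 4 456 (.bis 2 5 1 4 586 (.bis 5 6 4 1 584
  (.bis 4 6 4 1 582 (.leaf 3) (.bis 0 4 1 4 557 (.leaf 7) (.leaf 3))) (.bis 0 5 1 4 514 (.bis 4 5
  1 1 393 (.leaf 15) (.bis 4 7 8 1 599 (.leaf 7) (.leaf 7))) (.bis 0 4 1 4 557 (.bis 4 7 8 1 599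
  (.leaf 3) (.leaf 7)) (.leaf 3)))) (.bis 2 4 1 4 579 (.bis 4 6 4 1 582 (.leaf 3) (.leaf 7))
  (.leaf 3))) (.bis 1 4 1 4 458 (.bis 2 4 1 4 579 (.leaf 7) (.leaf 3)) (.leaf 3)))) (.bis 4 7 4 1
  447 (.bis 3 7 4 1 578 (.leaf 3) (.leaf 7)) (.leaf 7))) (.bis 0 4 1 2 492 (.bis 5 7 4 1 443
  (.bis 4 7 4 1 447 (.leaf 3) (.bis 1 4 1 4 458 (.bis 2 4 1 4 579 (.leaf 7) (.leaf 3)) (.leaf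
  3))) (.bis 1 5 1 4 456 (.bis 2 5 1 4 586 (.bis 5 6 4 1 584 (.bis 4 6 4 1 582 (.leaf 3) (.bis 3
  4 1 4 557 (.leaf 7) (.leaf 3))) (.bis 3 5 1 4 514 (.bis 4 5 1 1 393 (.leaf 15) (.bis 4 7 8 1
  599 (.leaf 7) (.leaf 7))) (.bis 3 4 1 4 557 (.bis 4 7 8 1 599 (.leaf 3) (.leaf 7)) (.leaf 3))))
  (.bis 2 4 1 4 579 (.bis 4 6 4 1 582 (.leaf 3) (.leaf 7)) (.leaf 3))) (.bis 1 4 1 4 458 (.bis 2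
  4 1 4 579 (.bis 4 6 4 1 582 (.leaf 3) (.leaf 7)) (.leaf 3)) (.leaf 3)))) (.bis 0 5 1 2 502
  (.bis 5 7 4 1 443 (.leaf 3) (.bis 1 5 1 4 456 (.bis 2 5 1 4 586 (.bis 5 6 4 1 584 (.leaf 3)
  (.bis 3 5 1 4 514 (.leaf 15) (.leaf 3))) (.leaf 3)) (.leaf 3))) (.leaf 8)))))))) (.bis 0 1 1 2
  600 (.bis 2 6 2 1 567 (.bis 1 5 1 1 392 (.bis 5 8 8 1 378 (.bis 3 6 2 1 488 (.bis 4 6 2 1 497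
  (.bis 6 8 4 1 589 (.bis 4 8 2 1 593 (.leaf 31) (.leaf 31)) (.leaf 66)) (.bis 4 8 8 1 304 (.bis
  6 8 2 1 593 (.leaf 31) (.leaf 7)) (.bis 4 7 4 1 458 (.leaf 7) (.leaf 7)))) (.bis 4 8 8 1 304
  (.bis 3 8 8 1 300 (.leaf 31) (.leaf 7)) (.leaf 7))) (.bis 3 6 2 1 488 (.bis 4 6 2 1 497 (.bis 5
  6 2 1 503 (.leaf 66) (.bis 5 7 4 1 456 (.leaf 15) (.bis 0 5 1 4 601 (.bis 2 5 1 4 584 (.bis 3 5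
  1 4 515 (.leaf 15) (.leaf 15)) (.leaf 15)) (.leaf 15)))) (.bis 5 7 4 1 456 (.bis 4 7 4 1 458
  (.leaf 7) (.bis 0 4 1 4 602 (.leaf 7) (.leaf 7))) (.bis 0 5 1 4 601 (.bis 2 5 1 4 584 (.bis 3 5
  1 4 515 (.bis 4 5 1 1 393 (.leaf 15) (.bis 4 8 16 1 597 (.leaf 7) (.leaf 7))) (.bis 3 4 1 4 561
  (.bis 4 8 16 1 597 (.leaf 7) (.leaf 7)) (.leaf 7))) (.bis 2 4 1 4 582 (.bis 3 4 1 4 561 (.leaf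
  7) (.leaf 7)) (.leaf 7))) (.bis 0 4 1 4 602 (.bis 2 4 1 4 582 (.leaf 7) (.leaf 7)) (.leaf
  7))))) (.bis 3 5 1 1 379 (.bis 5 7 4 1 456 (.bis 4 7 4 1 458 (.leaf 7) (.leaf 7)) (.bis 0 5 1 4
  601 (.bis 2 5 1 4 584 (.bis 5 6 4 1 515 (.bis 4 6 4 1 561 (.leaf 7) (.leaf 7)) (.bis 4 5 1 1
  393 (.leaf 15) (.leaf 7))) (.bis 2 4 1 4 582 (.leaf 7) (.leaf 7))) (.bis 0 4 1 4 602 (.leaf 7)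
  (.leaf 7)))) (.leaf 7)))) (.bis 1 6 2 1 603 (.bis 3 6 2 1 488 (.bis 4 6 2 1 497 (.bis 6 8 4 1
  589 (.bis 4 8 2 1 593 (.bis 5 8 4 1 604 (.leaf 31) (.leaf 31)) (.leaf 31)) (.bis 5 6 1 1 605
  (.leaf 66) (.leaf 31))) (.bis 4 8 8 1 304 (.bis 6 8 2 1 593 (.leaf 31) (.leaf 31)) (.bis 1 4 1
  4 606 (.leaf 7) (.leaf 31)))) (.bis 4 8 8 1 304 (.bis 3 8 8 1 300 (.leaf 31) (.leaf 31)) (.bis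
  1 4 1 4 606 (.leaf 7) (.leaf 31)))) (.bis 4 8 8 1 304 (.bis 1 2 4 1 607 (.leaf 31) (.leaf 31))
  (.bis 1 4 1 1 338 (.leaf 40) (.bis 1 2 4 1 607 (.leaf 31) (.leaf 31)))))) (.bis 1 5 1 1 392
  (.bis 2 5 1 1 377 (.bis 5 8 8 1 378 (.bis 4 8 8 1 304 (.bis 2 8 4 1 382 (.leaf 31) (.leaf 7))
  (.leaf 7)) (.bis 3 5 1 1 379 (.bis 5 7 4 1 456 (.bis 4 7 4 1 458 (.leaf 7) (.leaf 7)) (.bis 0 5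
  1 4 601 (.bis 5 6 4 1 584 (.bis 4 6 4 1 582 (.leaf 7) (.leaf 7)) (.bis 4 5 1 1 393 (.leaf 15)
  (.leaf 7))) (.bis 0 4 1 4 602 (.leaf 7) (.leaf 7)))) (.leaf 7))) (.bis 4 8 8 1 304 (.bis 2 8 8
  1 296 (.leaf 58) (.bis 1 2 1 2 394 (.leaf 7) (.leaf 7))) (.bis 1 2 1 2 394 (.leaf 7) (.leaf
  7)))) (.bis 4 8 8 1 304 (.bis 1 2 1 1 337 (.bis 2 8 8 1 296 (.leaf 31) (.leaf 7)) (.bis 1 6 4 1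
  607 (.leaf 31) (.leaf 31))) (.bis 1 4 1 1 338 (.bis 2 5 2 1 394 (.leaf 7) (.bis 2 7 4 1 453
  (.leaf 7) (.leaf 7))) (.bis 1 2 1 1 337 (.bis 2 5 2 1 394 (.leaf 7) (.leaf 7)) (.leaf 31))))))
  (.bis 2 6 2 1 567 (.bis 5 8 8 1 378 (.bis 0 3 1 2 484 (.bis 3 6 2 1 488 (.bis 4 6 2 1 497 (.bis
  6 8 4 1 589 (.bis 4 8 2 1 593 (.bis 0 8 2 1 590 (.leaf 3) (.leaf 3)) (.leaf 3)) (.leaf 8))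
  (.bis 4 8 8 1 304 (.bis 6 8 2 1 593 (.leaf 3) (.leaf 3)) (.bis 4 7 4 1 458 (.leaf 3) (.bis 1 4
  1 4 602 (.leaf 7) (.leaf 3))))) (.bis 4 8 8 1 304 (.bis 3 8 8 1 300 (.leaf 3) (.leaf 7)) (.bis
  4 7 4 1 458 (.bis 3 5 16 1 598 (.leaf 3) (.leaf 7)) (.leaf 7)))) (.bis 0 4 1 2 492 (.bis 4 6 2
  1 497 (.bis 6 8 4 1 589 (.bis 0 8 2 1 592 (.bis 4 8 2 1 593 (.leaf 3) (.leaf 3)) (.leaf 3))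
  (.leaf 8)) (.bis 4 8 8 1 304 (.bis 0 8 2 1 592 (.leaf 3) (.leaf 3)) (.bis 4 7 4 1 458 (.leaf 3)
  (.leaf 7)))) (.bis 0 8 4 1 588 (.bis 6 8 4 1 589 (.bis 4 8 2 1 592 (.leaf 3) (.leaf 3)) (.leaf
  8)) (.leaf 8)))) (.bis 0 3 1 2 484 (.bis 3 6 2 1 488 (.bis 4 6 2 1 497 (.bis 5 6 2 1 503 (.leaf
  8) (.bis 5 7 4 1 456 (.leaf 3) (.bis 1 5 1 4 601 (.bis 2 5 1 4 584 (.bis 0 5 1 4 514 (.bis 3 5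
  1 4 515 (.leaf 15) (.leaf 3)) (.leaf 3)) (.leaf 3)) (.leaf 3)))) (.bis 5 7 4 1 456 (.bis 4 7 4
  1 458 (.leaf 3) (.bis 1 4 1 4 602 (.bis 2 4 1 4 582 (.leaf 7) (.leaf 3)) (.leaf 3))) (.bis 1 5
  1 4 601 (.bis 2 5 1 4 584 (.bis 0 5 1 4 514 (.bis 3 5 1 4 515 (.bis 4 5 1 1 393 (.leaf 15)
  (.bis 4 8 16 1 597 (.leaf 7) (.leaf 7))) (.bis 3 4 1 4 561 (.bis 4 8 16 1 597 (.leaf 3) (.leaf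
  7)) (.leaf 3))) (.bis 0 4 1 4 557 (.bis 3 4 1 4 561 (.leaf 7) (.leaf 3)) (.leaf 3))) (.bis 2 4
  1 4 582 (.bis 0 4 1 4 557 (.leaf 7) (.leaf 3)) (.leaf 3))) (.bis 1 4 1 4 602 (.bis 2 4 1 4 582
  (.leaf 7) (.leaf 3)) (.leaf 3))))) (.bis 3 5 1 1 379 (.bis 5 7 4 1 456 (.bis 4 7 4 1 458 (.leaf
  3) (.bis 1 4 1 4 602 (.leaf 7) (.leaf 3))) (.bis 1 5 1 4 601 (.bis 2 5 1 4 584 (.bis 0 5 1 4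
  514 (.bis 5 6 4 1 515 (.bis 4 6 4 1 561 (.leaf 3) (.bis 4 8 16 1 597 (.leaf 3) (.leaf 7)))
  (.bis 4 5 1 1 393 (.leaf 15) (.bis 4 8 16 1 597 (.leaf 7) (.leaf 7)))) (.bis 0 4 1 4 557 (.bis
  4 6 4 1 561 (.leaf 3) (.leaf 7)) (.leaf 3))) (.bis 2 4 1 4 582 (.bis 0 4 1 4 557 (.leaf 7)
  (.leaf 3)) (.leaf 3))) (.bis 1 4 1 4 602 (.bis 2 4 1 4 582 (.leaf 7) (.leaf 3)) (.leaf 3))))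
  (.bis 4 7 4 1 458 (.bis 3 8 16 1 598 (.leaf 3) (.leaf 7)) (.leaf 7)))) (.bis 0 4 1 2 492 (.bis
  4 6 2 1 497 (.bis 5 6 2 1 503 (.leaf 8) (.bis 5 7 4 1 456 (.leaf 3) (.bis 1 5 1 4 601 (.bis 2 5
  1 4 584 (.bis 3 5 1 4 514 (.leaf 15) (.leaf 3)) (.leaf 3)) (.leaf 3)))) (.bis 5 7 4 1 456 (.bis
  4 7 4 1 458 (.leaf 3) (.bis 1 4 1 4 602 (.leaf 7) (.leaf 3))) (.bis 1 5 1 4 601 (.bis 2 5 1 4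
  584 (.bis 3 5 1 4 514 (.bis 4 5 1 1 393 (.leaf 15) (.bis 4 8 16 1 597 (.leaf 7) (.leaf 7)))
  (.bis 3 4 1 4 557 (.bis 4 8 16 1 597 (.leaf 3) (.leaf 7)) (.leaf 3))) (.bis 2 4 1 4 582 (.bis 3
  4 1 4 557 (.leaf 7) (.leaf 3)) (.leaf 3))) (.bis 1 4 1 4 602 (.bis 2 4 1 4 582 (.leaf 7) (.leaf
  3)) (.leaf 3))))) (.bis 0 5 1 2 502 (.bis 5 6 2 1 503 (.leaf 8) (.bis 5 7 4 1 456 (.leaf 3)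
  (.bis 1 5 1 4 601 (.bis 2 5 1 4 584 (.bis 3 5 1 4 514 (.leaf 15) (.leaf 3)) (.leaf 3)) (.leaf
  3)))) (.leaf 8))))) (.bis 0 2 1 2 568 (.bis 2 5 1 1 377 (.bis 5 8 8 1 378 (.bis 4 8 8 1 304
  (.bis 2 8 4 1 382 (.bis 3 8 8 1 300 (.leaf 3) (.leaf 7)) (.leaf 7)) (.leaf 7)) (.bis 3 5 1 1
  379 (.bis 5 7 4 1 456 (.bis 4 7 4 1 458 (.leaf 3) (.bis 0 4 1 4 579 (.leaf 7) (.leaf 3))) (.bis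
  0 5 1 4 586 (.bis 1 5 1 4 601 (.bis 5 6 4 1 584 (.bis 4 6 4 1 582 (.leaf 3) (.leaf 7)) (.bis 4
  5 1 1 393 (.leaf 15) (.leaf 7))) (.bis 1 4 1 4 602 (.leaf 7) (.leaf 3))) (.bis 0 4 1 4 579
  (.leaf 7) (.leaf 3)))) (.bis 4 7 4 1 458 (.leaf 7) (.leaf 7)))) (.bis 4 8 8 1 304 (.bis 2 8 8 1
  296 (.leaf 13) (.leaf 7)) (.bis 2 7 4 1 453 (.bis 4 7 4 1 458 (.leaf 7) (.leaf 7)) (.leaf 7))))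
  (.bis 5 8 8 1 378 (.bis 0 3 1 2 484 (.bis 4 8 8 1 304 (.bis 3 8 8 1 300 (.leaf 3) (.leaf 7))
  (.bis 4 7 4 1 458 (.bis 3 5 16 1 598 (.leaf 3) (.leaf 7)) (.leaf 7))) (.bis 0 4 1 2 492 (.bis 4
  8 8 1 304 (.bis 0 8 2 1 592 (.leaf 3) (.leaf 3)) (.bis 4 7 4 1 458 (.leaf 3) (.bis 2 4 1 4 579
  (.leaf 7) (.leaf 3)))) (.bis 0 8 4 1 588 (.bis 4 8 2 1 592 (.bis 2 8 2 1 596 (.leaf 3) (.leaf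
  3)) (.leaf 3)) (.leaf 8)))) (.bis 0 3 1 2 484 (.bis 3 5 1 1 379 (.bis 5 7 4 1 456 (.bis 4 7 4 1
  458 (.leaf 3) (.bis 2 4 1 4 579 (.leaf 7) (.leaf 3))) (.bis 2 5 1 4 586 (.bis 1 5 1 4 601 (.bis
  5 6 4 1 584 (.bis 4 6 4 1 582 (.leaf 3) (.bis 0 4 1 4 557 (.leaf 7) (.leaf 3))) (.bis 0 5 1 4
  514 (.bis 4 5 1 1 393 (.leaf 15) (.bis 4 8 16 1 597 (.leaf 7) (.leaf 7))) (.bis 0 4 1 4 557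
  (.bis 4 8 16 1 597 (.leaf 3) (.leaf 7)) (.leaf 3)))) (.bis 1 4 1 4 602 (.bis 4 6 4 1 582 (.leaf
  3) (.leaf 7)) (.leaf 3))) (.bis 2 4 1 4 579 (.bis 1 4 1 4 602 (.leaf 7) (.leaf 3)) (.leaf 3))))
  (.bis 4 7 4 1 458 (.bis 3 8 16 1 598 (.leaf 3) (.leaf 7)) (.leaf 7))) (.bis 0 4 1 2 492 (.bis 5
  7 4 1 456 (.bis 4 7 4 1 458 (.leaf 3) (.bis 2 4 1 4 579 (.bis 1 4 1 4 602 (.leaf 7) (.leaf 3))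
  (.leaf 3))) (.bis 2 5 1 4 586 (.bis 1 5 1 4 601 (.bis 5 6 4 1 584 (.bis 4 6 4 1 582 (.leaf 3)
  (.bis 3 4 1 4 557 (.leaf 7) (.leaf 3))) (.bis 3 5 1 4 514 (.bis 4 5 1 1 393 (.leaf 15) (.bis 4
  8 16 1 597 (.leaf 7) (.leaf 7))) (.bis 3 4 1 4 557 (.bis 4 8 16 1 597 (.leaf 3) (.leaf 7))
  (.leaf 3)))) (.bis 1 4 1 4 602 (.bis 4 6 4 1 582 (.leaf 3) (.leaf 7)) (.leaf 3))) (.bis 2 4 1 4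
  579 (.bis 1 4 1 4 602 (.leaf 7) (.leaf 3)) (.leaf 3)))) (.bis 0 5 1 2 502 (.bis 5 7 4 1 456
  (.leaf 3) (.bis 2 5 1 4 586 (.bis 1 5 1 4 601 (.bis 5 6 4 1 584 (.leaf 3) (.bis 3 5 1 4 514
  (.leaf 15) (.leaf 3))) (.leaf 3)) (.leaf 3))) (.leaf 8)))))))))

def lc39 : List Vr := [⟨[24,0,0,0,0,0,85,0,0], 38617, 0⟩, ⟨[0,28,0,0,0,0,0,0,0], 7056, 0⟩, ⟨[0,0,
  17,0,0,0,0,0,0], 6936, 0⟩, ⟨[0,0,0,13,0,0,0,0,0], 6760, 0⟩, ⟨[0,0,0,0,19,0,0,0,0], 7581, 0⟩,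
  ⟨[0,0,0,0,0,30,0,0,0], 7200, 0⟩, ⟨[0,28,0,0,0,0,85,0,0], 38081, 0⟩, ⟨[0,0,0,0,0,0,85,42,0],
  42841, 0⟩, ⟨[0,112,0,0,0,0,85,0,155], 406901, 0⟩]

theorem lk39 : chkTr lowT (leafLow 2 lowB) lt39 lc39 = true := by decide +kernel

end Pool.Agent.Helper10.Fam.E7
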