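import Pool.Agent.Helper10.FamD.E7LowT

set_option autoImplicit false
set_option maxRecDepth 1000000

/-!
# Certificate data for `U ⊕ E7` (lower bound, subtrees)
-/

namespace Pool.Agent.Helper10.Fam.E7

open Pool.Agent.Helper10.Fam

def lt40 : Tr ℕ := (.bis 4 8 2 1 214 (.bis 3 8 4 1 159 (.bis 2 8 4 1 110 (.bis 0 8 4 1 50 (.bis 6
  8 1 1 466 (.bis 7 8 1 1 398 (.bis 1 8 1 2 291 (.bis 5 8 1 2 361 (.bis 3 8 1 2 171 (.bis 2 8 1 2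
  122 (.bis 0 8 1 2 66 (.leaf 37) (.bis 0 7 1 1 435 (.leaf 24) (.leaf 24))) (.bis 0 7 1 1 435
  (.leaf 24) (.leaf 24))) (.leaf 24)) (.leaf 24)) (.leaf 24)) (.bis 1 7 1 4 402 (.bis 0 7 1 4 403
  (.leaf 30) (.leaf 24)) (.leaf 24))) (.bis 0 6 1 4 608 (.bis 1 6 1 4 588 (.leaf 30) (.bis 1 7 1
  4 402 (.leaf 17) (.leaf 17))) (.bis 1 7 1 4 402 (.bis 0 7 1 4 403 (.leaf 17) (.leaf 59)) (.leaf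
  59)))) (.bis 0 7 2 1 422 (.bis 6 8 4 1 608 (.bis 1 7 1 4 402 (.leaf 68) (.leaf 9)) (.bis 1 6 1
  4 588 (.leaf 30) (.bis 1 7 1 4 402 (.leaf 17) (.leaf 9)))) (.bis 0 6 2 1 609 (.bis 6 8 4 1 608
  (.leaf 50) (.bis 1 6 1 4 588 (.leaf 30) (.leaf 17))) (.bis 0 5 8 1 364 (.leaf 50) (.bis 0 4 4 1
  223 (.leaf 50) (.bis 0 1 8 1 293 (.leaf 50) (.bis 0 3 8 1 173 (.leaf 19) (.bis 0 2 8 1 125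
  (.leaf 19) (.leaf 77))))))))) (.bis 0 7 2 1 422 (.bis 2 7 2 1 424 (.bis 1 6 1 4 588 (.leaf 30)
  (.bis 1 7 1 4 402 (.leaf 17) (.leaf 9))) (.bis 2 6 2 1 568 (.bis 1 6 1 4 588 (.leaf 30) (.leaf
  17)) (.bis 2 4 4 1 227 (.leaf 17) (.bis 2 5 8 1 365 (.leaf 17) (.bis 1 2 1 8 296 (.bis 2 3 8 1
  186 (.leaf 6) (.leaf 6)) (.leaf 13)))))) (.bis 0 6 2 1 609 (.bis 2 6 2 1 568 (.bis 1 6 1 4 588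
  (.bis 4 6 1 2 475 (.leaf 30) (.leaf 17)) (.leaf 17)) (.bis 2 4 4 1 227 (.leaf 17) (.bis 2 5 8 1
  365 (.leaf 17) (.bis 1 2 1 8 296 (.bis 2 3 8 1 186 (.leaf 25) (.leaf 25)) (.leaf 25))))) (.bis
  0 5 8 1 364 (.bis 2 4 4 1 227 (.leaf 17) (.bis 2 5 8 1 365 (.leaf 17) (.bis 1 2 1 8 296 (.bis 2
  3 8 1 186 (.leaf 19) (.leaf 25)) (.leaf 25)))) (.bis 0 4 4 1 223 (.bis 2 4 4 1 227 (.leaf 17)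
  (.bis 1 2 1 8 296 (.bis 2 3 8 1 186 (.leaf 19) (.bis 2 7 4 1 425 (.leaf 19) (.leaf 25))) (.leaf
  25))) (.bis 0 1 8 1 293 (.bis 1 2 1 8 296 (.bis 2 3 8 1 186 (.leaf 19) (.bis 2 7 4 1 425 (.leaf
  19) (.leaf 25))) (.leaf 25)) (.bis 0 3 8 1 173 (.bis 2 3 8 1 186 (.leaf 19) (.bis 2 7 4 1 425
  (.leaf 19) (.leaf 25))) (.bis 0 8 8 1 125 (.bis 2 7 4 1 425 (.leaf 19) (.bis 2 6 4 1 610 (.leaf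
  19) (.leaf 6))) (.bis 2 7 4 1 425 (.leaf 34) (.bis 2 6 4 1 610 (.leaf 34) (.leaf 11)))))))))))
  (.bis 0 7 2 1 422 (.bis 2 7 2 1 424 (.bis 3 7 2 1 428 (.bis 1 6 1 4 588 (.bis 4 6 1 2 475 (.bis
  6 8 4 1 476 (.leaf 17) (.bis 5 6 1 4 474 (.leaf 8) (.leaf 8))) (.leaf 17)) (.leaf 17)) (.bis 3
  6 2 1 484 (.bis 1 6 1 4 588 (.bis 4 6 1 2 475 (.leaf 30) (.leaf 17)) (.leaf 17)) (.bis 3 4 4 1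
  244 (.leaf 17) (.bis 3 5 8 1 366 (.leaf 3) (.bis 0 3 1 4 429 (.bis 1 3 1 8 300 (.leaf 6) (.leaf
  3)) (.leaf 3)))))) (.bis 2 6 2 1 568 (.bis 3 6 2 1 484 (.bis 1 6 1 4 588 (.bis 4 6 1 2 475
  (.bis 6 8 4 1 476 (.leaf 3) (.bis 5 6 1 4 474 (.leaf 8) (.leaf 3))) (.bis 2 4 1 1 581 (.leaf
  17) (.leaf 3))) (.leaf 17)) (.bis 3 4 4 1 244 (.leaf 17) (.bis 3 5 8 1 366 (.leaf 3) (.bis 0 3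
  1 4 429 (.bis 1 3 1 8 300 (.leaf 6) (.leaf 3)) (.leaf 3))))) (.bis 2 4 4 1 227 (.bis 3 4 4 1
  244 (.leaf 17) (.bis 3 5 8 1 366 (.leaf 3) (.bis 0 3 1 4 429 (.bis 1 3 1 8 300 (.leaf 6) (.leaf
  3)) (.leaf 3)))) (.bis 2 5 8 1 365 (.bis 3 5 8 1 366 (.leaf 3) (.bis 0 3 1 4 429 (.bis 1 3 1 8
  300 (.leaf 6) (.leaf 3)) (.leaf 3))) (.bis 1 2 1 8 296 (.bis 0 3 1 4 429 (.leaf 6) (.leaf 6))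
  (.bis 0 3 1 4 429 (.bis 1 3 1 8 300 (.leaf 6) (.leaf 3)) (.leaf 3))))))) (.bis 0 6 2 1 609
  (.bis 2 6 2 1 568 (.bis 3 6 2 1 484 (.bis 1 6 1 4 588 (.bis 4 6 1 2 475 (.bis 6 8 4 1 476
  (.leaf 3) (.bis 5 6 1 4 474 (.leaf 8) (.bis 0 5 2 1 611 (.leaf 3) (.leaf 3)))) (.bis 0 4 1 1
  612 (.leaf 17) (.leaf 3))) (.bis 0 4 1 1 612 (.leaf 17) (.bis 0 5 2 1 611 (.leaf 3) (.bis 0 1 2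
  1 613 (.leaf 3) (.leaf 3))))) (.bis 3 4 4 1 244 (.leaf 17) (.bis 3 5 8 1 366 (.leaf 3) (.bis 3
  7 4 1 429 (.leaf 3) (.bis 0 3 1 4 614 (.leaf 13) (.leaf 3)))))) (.bis 2 4 4 1 227 (.bis 3 4 4 1
  244 (.leaf 17) (.bis 3 5 8 1 366 (.leaf 3) (.bis 3 7 4 1 429 (.leaf 3) (.bis 0 3 1 4 614 (.leaf
  13) (.leaf 3))))) (.bis 2 5 8 1 365 (.bis 3 5 8 1 366 (.leaf 3) (.bis 3 7 4 1 429 (.leaf 3)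
  (.bis 0 3 1 4 614 (.leaf 13) (.leaf 3)))) (.bis 1 2 1 8 296 (.bis 3 7 4 1 429 (.bis 2 8 8 1 186
  (.leaf 3) (.leaf 25)) (.leaf 25)) (.bis 3 7 4 1 429 (.leaf 3) (.bis 0 3 1 4 614 (.leaf 13)
  (.leaf 3))))))) (.bis 0 5 8 1 364 (.bis 2 4 4 1 227 (.bis 3 4 4 1 244 (.leaf 17) (.bis 3 5 8 1
  366 (.leaf 3) (.bis 3 7 4 1 429 (.leaf 3) (.bis 3 6 4 1 614 (.leaf 3) (.leaf 13))))) (.bis 2 5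
  8 1 365 (.bis 3 5 8 1 366 (.leaf 3) (.bis 3 7 4 1 429 (.leaf 3) (.bis 3 6 4 1 614 (.leaf 3)
  (.leaf 13)))) (.bis 1 2 1 8 296 (.bis 3 7 4 1 429 (.bis 2 8 8 1 186 (.leaf 3) (.leaf 25))
  (.leaf 25)) (.bis 3 7 4 1 429 (.leaf 3) (.bis 3 6 4 1 614 (.leaf 3) (.leaf 13)))))) (.bis 0 4 4
  1 223 (.bis 2 4 4 1 227 (.bis 3 4 4 1 244 (.leaf 17) (.bis 3 7 4 1 429 (.leaf 3) (.bis 3 6 4 1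
  614 (.leaf 3) (.bis 1 3 1 8 300 (.leaf 6) (.leaf 3))))) (.bis 1 2 1 8 296 (.bis 3 7 4 1 429
  (.bis 2 8 8 1 186 (.leaf 3) (.leaf 25)) (.bis 3 6 4 1 614 (.bis 2 8 8 1 186 (.leaf 3) (.leaf
  25)) (.leaf 6))) (.bis 3 7 4 1 429 (.leaf 3) (.bis 3 6 4 1 614 (.leaf 3) (.bis 1 3 1 8 300
  (.leaf 6) (.leaf 3)))))) (.bis 0 1 8 1 293 (.bis 1 2 1 8 296 (.bis 3 7 4 1 429 (.bis 2 8 8 1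
  186 (.leaf 19) (.leaf 25)) (.leaf 25)) (.bis 3 7 4 1 429 (.leaf 25) (.bis 3 6 4 1 614 (.leaf
  25) (.bis 1 3 1 8 300 (.leaf 6) (.leaf 5))))) (.bis 0 8 8 1 173 (.bis 3 7 4 1 429 (.bis 2 8 8 1
  186 (.leaf 19) (.bis 2 7 4 1 425 (.leaf 19) (.leaf 25))) (.bis 3 6 4 1 614 (.bis 2 8 8 1 186
  (.leaf 19) (.leaf 25)) (.leaf 6))) (.bis 0 3 1 1 213 (.bis 3 7 4 1 429 (.bis 2 7 4 1 425 (.leaf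
  19) (.leaf 25)) (.bis 3 6 4 1 614 (.leaf 25) (.leaf 6))) (.bis 2 7 4 1 425 (.leaf 34) (.leaf
  34)))))))))) (.bis 0 7 2 1 422 (.bis 2 7 2 1 424 (.bis 3 7 2 1 428 (.bis 4 7 2 1 433 (.bis 1 6
  1 4 588 (.bis 6 8 2 1 475 (.bis 7 8 2 1 405 (.leaf 9) (.leaf 8)) (.bis 5 6 1 4 474 (.leaf 8)
  (.leaf 8))) (.bis 1 7 1 4 402 (.bis 7 8 2 1 405 (.bis 0 8 1 1 431 (.leaf 9) (.leaf 3)) (.bis 5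
  7 1 4 438 (.leaf 8) (.leaf 3))) (.leaf 9))) (.bis 4 6 2 1 492 (.bis 1 6 1 4 588 (.bis 6 8 2 1
  475 (.bis 4 8 1 1 595 (.leaf 9) (.leaf 3)) (.bis 5 6 1 4 474 (.leaf 8) (.leaf 3))) (.bis 4 8 1
  1 595 (.leaf 9) (.bis 1 4 1 2 592 (.leaf 3) (.bis 0 5 2 1 437 (.leaf 3) (.bis 0 1 2 1 432
  (.leaf 3) (.leaf 3)))))) (.bis 4 8 4 1 277 (.bis 6 8 1 1 595 (.leaf 9) (.bis 1 6 1 2 592 (.leaf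
  3) (.leaf 3))) (.bis 0 4 1 4 434 (.bis 4 5 8 1 368 (.bis 1 6 1 2 592 (.leaf 3) (.leaf 3)) (.bis
  1 4 1 8 304 (.leaf 7) (.bis 1 6 1 2 592 (.leaf 3) (.leaf 3)))) (.bis 1 6 1 2 592 (.bis 0 5 2 1
  437 (.leaf 3) (.leaf 3)) (.bis 0 5 2 1 437 (.leaf 3) (.bis 0 1 2 1 432 (.leaf 3) (.leaf
  3)))))))) (.bis 3 6 2 1 484 (.bis 4 6 2 1 492 (.bis 1 6 1 4 588 (.bis 6 8 2 1 475 (.bis 3 8 1 1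
  499 (.bis 4 8 1 1 595 (.leaf 9) (.leaf 3)) (.leaf 3)) (.bis 5 6 1 4 474 (.leaf 8) (.leaf 3)))
  (.bis 3 8 1 1 499 (.leaf 17) (.bis 1 4 1 2 592 (.bis 0 5 2 1 437 (.leaf 3) (.leaf 3)) (.leaf
  3)))) (.bis 4 8 4 1 277 (.bis 3 8 1 1 499 (.leaf 17) (.bis 1 6 1 2 592 (.leaf 3) (.leaf 3)))
  (.bis 0 4 1 4 434 (.bis 4 5 8 1 368 (.bis 1 6 1 2 592 (.leaf 3) (.leaf 3)) (.bis 1 4 1 8 304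
  (.leaf 7) (.bis 1 6 1 2 592 (.leaf 3) (.leaf 3)))) (.bis 1 6 1 2 592 (.bis 0 5 2 1 437 (.leaf
  3) (.leaf 3)) (.bis 0 5 2 1 437 (.leaf 3) (.bis 0 1 2 1 432 (.leaf 3) (.leaf 3))))))) (.bis 3 8
  4 1 244 (.bis 4 8 4 1 277 (.leaf 17) (.bis 0 4 1 4 434 (.bis 4 5 8 1 368 (.leaf 3) (.bis 1 4 1
  8 304 (.leaf 7) (.leaf 3))) (.leaf 3))) (.bis 3 5 8 1 366 (.bis 0 4 1 4 434 (.bis 4 5 8 1 368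
  (.leaf 3) (.bis 1 4 1 8 304 (.leaf 7) (.leaf 3))) (.leaf 3)) (.bis 0 4 1 4 434 (.bis 1 4 1 8
  304 (.leaf 7) (.leaf 13)) (.bis 0 3 1 4 429 (.bis 1 3 1 8 300 (.leaf 6) (.leaf 3)) (.bis 0 1 2
  1 432 (.leaf 3) (.leaf 3)))))))) (.bis 2 6 2 1 568 (.bis 3 6 2 1 484 (.bis 4 6 2 1 492 (.bis 1
  6 1 4 588 (.bis 6 8 2 1 475 (.bis 2 8 1 1 581 (.bis 3 8 1 1 499 (.leaf 17) (.leaf 3)) (.bis 0 5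
  2 1 437 (.leaf 3) (.leaf 3))) (.bis 5 6 1 4 474 (.leaf 8) (.bis 0 5 2 1 437 (.leaf 3) (.leaf
  3)))) (.bis 2 8 1 1 581 (.leaf 17) (.bis 1 4 1 2 592 (.bis 0 5 2 1 437 (.leaf 3) (.leaf 3))
  (.bis 0 5 2 1 437 (.leaf 3) (.bis 0 1 2 1 432 (.leaf 3) (.leaf 3)))))) (.bis 4 8 4 1 277 (.bis
  2 8 1 1 581 (.leaf 17) (.bis 1 6 1 2 592 (.leaf 3) (.leaf 3))) (.bis 0 4 1 4 434 (.bis 4 5 8 1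
  368 (.bis 1 6 1 2 592 (.leaf 3) (.leaf 3)) (.bis 1 4 1 8 304 (.leaf 7) (.bis 1 6 1 2 592 (.leaf
  3) (.leaf 3)))) (.bis 1 6 1 2 592 (.bis 0 5 2 1 437 (.leaf 3) (.leaf 3)) (.bis 0 5 2 1 437
  (.leaf 3) (.bis 0 1 2 1 432 (.leaf 3) (.leaf 3))))))) (.bis 3 8 4 1 244 (.bis 4 8 4 1 277
  (.leaf 17) (.bis 0 4 1 4 434 (.bis 4 5 8 1 368 (.leaf 3) (.bis 1 4 1 8 304 (.leaf 7) (.leaf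
  3))) (.leaf 3))) (.bis 3 5 8 1 366 (.bis 0 4 1 4 434 (.bis 4 5 8 1 368 (.leaf 3) (.bis 1 4 1 8
  304 (.leaf 7) (.leaf 3))) (.bis 0 5 2 1 437 (.leaf 3) (.bis 0 1 2 1 432 (.leaf 3) (.leaf 3))))
  (.bis 0 4 1 4 434 (.bis 1 4 1 8 304 (.leaf 7) (.leaf 13)) (.bis 0 3 1 4 429 (.bis 1 3 1 8 300
  (.leaf 6) (.leaf 3)) (.bis 0 1 2 1 432 (.leaf 3) (.leaf 3))))))) (.bis 2 8 4 1 227 (.bis 3 8 4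
  1 244 (.bis 4 8 4 1 277 (.leaf 17) (.bis 0 4 1 4 434 (.bis 4 5 8 1 368 (.leaf 3) (.bis 1 4 1 8
  304 (.leaf 7) (.leaf 3))) (.leaf 3))) (.bis 3 5 8 1 366 (.bis 0 4 1 4 434 (.bis 4 5 8 1 368
  (.leaf 3) (.bis 1 4 1 8 304 (.leaf 7) (.leaf 3))) (.leaf 3)) (.bis 0 4 1 4 434 (.bis 1 4 1 8
  304 (.leaf 7) (.leaf 13)) (.bis 0 3 1 4 429 (.leaf 13) (.leaf 3))))) (.bis 2 5 8 1 365 (.bis 3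
  5 8 1 366 (.bis 0 4 1 4 434 (.bis 4 5 8 1 368 (.leaf 3) (.bis 1 4 1 8 304 (.leaf 7) (.leaf 3)))
  (.leaf 3)) (.bis 0 4 1 4 434 (.bis 1 4 1 8 304 (.leaf 7) (.leaf 13)) (.bis 0 3 1 4 429 (.bis 1
  3 1 8 300 (.leaf 6) (.leaf 3)) (.bis 0 1 2 1 432 (.leaf 3) (.leaf 3))))) (.bis 0 4 1 4 434
  (.bis 1 4 1 8 304 (.leaf 7) (.bis 1 2 1 8 296 (.leaf 6) (.leaf 13))) (.bis 1 2 1 8 296 (.bis 0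
  3 1 4 429 (.leaf 6) (.leaf 6)) (.bis 0 3 1 4 429 (.leaf 13) (.bis 0 1 2 1 432 (.leaf 3) (.leaf
  3))))))))) (.bis 0 6 2 1 609 (.bis 2 6 2 1 568 (.bis 3 6 2 1 484 (.bis 4 6 2 1 492 (.bis 1 6 1
  4 588 (.bis 6 8 2 1 475 (.bis 0 8 1 1 612 (.bis 2 8 1 1 581 (.leaf 17) (.leaf 3)) (.bis 0 5 2 1
  611 (.leaf 3) (.leaf 3))) (.bis 5 6 1 4 474 (.leaf 8) (.bis 0 5 2 1 611 (.leaf 3) (.leaf 3))))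
  (.bis 0 8 1 1 612 (.bis 2 8 1 1 581 (.leaf 17) (.bis 1 4 1 2 592 (.leaf 3) (.leaf 3))) (.bis 0
  5 2 1 611 (.bis 1 4 1 2 592 (.leaf 3) (.bis 5 7 1 2 437 (.bis 1 7 1 2 432 (.leaf 3) (.leaf 3))
  (.leaf 3))) (.bis 0 1 2 1 613 (.bis 1 4 1 2 592 (.leaf 3) (.bis 1 7 1 2 432 (.leaf 3) (.leaf
  3))) (.leaf 3))))) (.bis 4 8 4 1 277 (.bis 0 8 1 1 612 (.leaf 17) (.bis 0 5 2 1 611 (.bis 1 6 1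
  2 592 (.leaf 3) (.leaf 3)) (.bis 0 1 2 1 613 (.bis 1 6 1 2 592 (.leaf 3) (.leaf 3)) (.leaf
  3)))) (.bis 4 7 4 1 434 (.bis 0 5 2 1 611 (.bis 1 6 1 2 592 (.leaf 3) (.bis 5 7 1 2 437 (.bis 1
  7 1 2 432 (.leaf 3) (.leaf 3)) (.leaf 3))) (.bis 0 1 2 1 613 (.bis 1 6 1 2 592 (.leaf 3) (.bis
  1 7 1 2 432 (.leaf 3) (.leaf 3))) (.leaf 3))) (.bis 4 5 8 1 368 (.bis 0 5 2 1 611 (.bis 1 6 1 2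
  592 (.leaf 3) (.leaf 3)) (.bis 0 1 2 1 613 (.bis 1 6 1 2 592 (.leaf 3) (.leaf 3)) (.leaf 3)))
  (.bis 1 4 1 8 304 (.leaf 7) (.bis 0 1 2 1 613 (.bis 1 6 1 2 592 (.leaf 3) (.leaf 3)) (.leaf
  3))))))) (.bis 3 8 4 1 244 (.bis 4 8 4 1 277 (.leaf 17) (.bis 4 7 4 1 434 (.bis 0 5 2 1 611
  (.leaf 3) (.bis 0 1 2 1 613 (.leaf 3) (.leaf 3))) (.bis 4 5 8 1 368 (.leaf 3) (.bis 1 4 1 8 304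
  (.leaf 7) (.leaf 3))))) (.bis 3 5 8 1 366 (.bis 4 7 4 1 434 (.bis 0 5 2 1 611 (.leaf 3) (.bis 0
  1 2 1 613 (.leaf 3) (.leaf 3))) (.bis 4 5 8 1 368 (.bis 0 5 2 1 611 (.leaf 3) (.bis 0 1 2 1 613
  (.leaf 3) (.leaf 3))) (.bis 1 4 1 8 304 (.leaf 7) (.leaf 3)))) (.bis 4 7 4 1 434 (.bis 3 7 4 1
  429 (.bis 0 1 2 1 613 (.leaf 3) (.leaf 3)) (.bis 0 3 1 4 614 (.bis 1 3 1 8 300 (.leaf 6) (.leaf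
  3)) (.bis 0 1 2 1 613 (.leaf 3) (.leaf 3)))) (.bis 1 4 1 8 304 (.leaf 7) (.bis 0 3 1 4 614
  (.bis 1 3 1 8 300 (.leaf 6) (.leaf 3)) (.bis 0 1 2 1 613 (.leaf 3) (.leaf 3)))))))) (.bis 2 8 4
  1 227 (.bis 3 8 4 1 244 (.bis 4 8 4 1 277 (.leaf 17) (.bis 4 7 4 1 434 (.leaf 3) (.bis 4 5 8 1
  368 (.leaf 3) (.bis 1 4 1 8 304 (.leaf 7) (.leaf 3))))) (.bis 3 5 8 1 366 (.bis 4 7 4 1 434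
  (.leaf 3) (.bis 4 5 8 1 368 (.leaf 3) (.bis 1 4 1 8 304 (.leaf 7) (.leaf 3)))) (.bis 4 7 4 1
  434 (.bis 3 7 4 1 429 (.bis 0 1 2 1 613 (.leaf 3) (.leaf 3)) (.leaf 25)) (.bis 1 4 1 8 304
  (.leaf 7) (.leaf 25))))) (.bis 2 5 8 1 365 (.bis 3 5 8 1 366 (.bis 4 7 4 1 434 (.leaf 3) (.bis
  4 5 8 1 368 (.leaf 3) (.bis 1 4 1 8 304 (.leaf 7) (.leaf 3)))) (.bis 4 7 4 1 434 (.bis 3 7 4 1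
  429 (.bis 0 1 2 1 613 (.leaf 3) (.leaf 3)) (.bis 0 3 1 4 614 (.bis 1 3 1 8 300 (.leaf 6) (.leaf
  3)) (.bis 0 1 2 1 613 (.leaf 3) (.leaf 3)))) (.bis 1 4 1 8 304 (.leaf 7) (.leaf 25)))) (.bis 4
  7 4 1 434 (.bis 1 2 1 8 296 (.bis 3 7 4 1 429 (.leaf 25) (.leaf 7)) (.bis 3 7 4 1 429 (.bis 0 1
  2 1 613 (.leaf 3) (.leaf 3)) (.bis 0 3 1 4 614 (.leaf 13) (.bis 0 1 2 1 613 (.leaf 3) (.leaf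
  3))))) (.bis 1 4 1 8 304 (.bis 0 4 1 4 615 (.leaf 7) (.leaf 7)) (.bis 1 2 1 8 296 (.leaf 7)
  (.leaf 25))))))) (.bis 0 5 8 1 364 (.bis 2 8 4 1 227 (.bis 3 8 4 1 244 (.bis 4 8 4 1 277 (.leaf
  17) (.bis 4 7 4 1 434 (.leaf 3) (.bis 4 5 8 1 368 (.leaf 3) (.bis 1 4 1 8 304 (.bis 4 6 4 1 615
  (.leaf 3) (.leaf 7)) (.leaf 3))))) (.bis 3 5 8 1 366 (.bis 4 7 4 1 434 (.leaf 3) (.bis 4 5 8 1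
  368 (.leaf 3) (.bis 1 4 1 8 304 (.leaf 7) (.leaf 3)))) (.bis 4 7 4 1 434 (.bis 3 7 4 1 429
  (.leaf 3) (.bis 3 6 4 1 614 (.leaf 3) (.leaf 13))) (.bis 1 4 1 8 304 (.leaf 7) (.bis 3 6 4 1
  614 (.leaf 3) (.leaf 13)))))) (.bis 2 5 8 1 365 (.bis 3 5 8 1 366 (.bis 4 7 4 1 434 (.leaf 3)
  (.bis 4 5 8 1 368 (.leaf 3) (.bis 1 4 1 8 304 (.bis 4 6 4 1 615 (.leaf 3) (.leaf 7)) (.leaf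
  3)))) (.bis 4 7 4 1 434 (.bis 3 7 4 1 429 (.bis 1 6 1 2 613 (.leaf 3) (.leaf 3)) (.bis 3 6 4 1
  614 (.bis 1 6 1 2 613 (.leaf 3) (.leaf 3)) (.leaf 13))) (.bis 1 4 1 8 304 (.leaf 7) (.bis 3 6 4
  1 614 (.leaf 3) (.leaf 13))))) (.bis 4 7 4 1 434 (.bis 1 2 1 8 296 (.bis 3 7 4 1 429 (.leaf 25)
  (.leaf 7)) (.bis 3 7 4 1 429 (.leaf 3) (.bis 3 6 4 1 614 (.leaf 3) (.leaf 13)))) (.bis 1 4 1 8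
  304 (.bis 4 6 4 1 615 (.leaf 7) (.leaf 7)) (.leaf 25))))) (.bis 0 8 4 1 223 (.bis 2 8 4 1 227
  (.bis 3 8 4 1 244 (.bis 4 8 4 1 277 (.leaf 17) (.bis 4 7 4 1 434 (.leaf 3) (.bis 1 4 1 8 304
  (.bis 4 6 4 1 615 (.leaf 3) (.bis 0 4 1 8 278 (.leaf 7) (.leaf 3))) (.leaf 3)))) (.bis 4 7 4 1
  434 (.bis 3 7 4 1 429 (.leaf 3) (.bis 3 6 4 1 614 (.leaf 3) (.bis 1 3 1 8 300 (.leaf 6) (.leaf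
  3)))) (.bis 1 4 1 8 304 (.bis 4 6 4 1 615 (.bis 3 6 4 1 614 (.leaf 3) (.leaf 6)) (.leaf 22))
  (.bis 3 6 4 1 614 (.leaf 3) (.bis 1 3 1 8 300 (.leaf 6) (.leaf 3)))))) (.bis 4 7 4 1 434 (.bis
  1 2 1 8 296 (.bis 3 7 4 1 429 (.bis 2 7 4 1 425 (.leaf 3) (.leaf 25)) (.leaf 25)) (.bis 3 7 4 1
  429 (.leaf 3) (.bis 3 6 4 1 614 (.leaf 3) (.leaf 13)))) (.bis 1 4 1 8 304 (.bis 4 6 4 1 615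
  (.bis 3 6 4 1 614 (.bis 2 6 4 1 610 (.leaf 25) (.leaf 6)) (.leaf 6)) (.leaf 22)) (.bis 1 2 1 8
  296 (.leaf 25) (.bis 3 6 4 1 614 (.leaf 3) (.leaf 13)))))) (.bis 0 4 1 1 280 (.bis 4 7 4 1 434
  (.bis 1 2 1 8 296 (.bis 3 7 4 1 429 (.bis 2 7 4 1 425 (.leaf 19) (.leaf 25)) (.leaf 25)) (.bis
  3 7 4 1 429 (.bis 1 6 1 2 613 (.leaf 19) (.leaf 5)) (.bis 3 6 4 1 614 (.bis 1 6 1 2 613 (.leaf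
  19) (.leaf 5)) (.bis 1 3 1 8 300 (.leaf 6) (.leaf 5))))) (.bis 1 4 1 8 304 (.leaf 83) (.bis 1 2
  1 8 296 (.leaf 25) (.leaf 25)))) (.bis 0 1 8 1 293 (.bis 1 2 1 8 296 (.bis 3 7 4 1 429 (.bis 2
  7 4 1 425 (.leaf 19) (.leaf 25)) (.leaf 25)) (.bis 3 7 4 1 429 (.bis 1 6 1 2 613 (.leaf 19)
  (.leaf 5)) (.bis 3 6 4 1 614 (.bis 1 6 1 2 613 (.leaf 19) (.leaf 5)) (.leaf 13)))) (.bis 0 3 1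
  1 213 (.bis 3 7 4 1 429 (.bis 2 7 4 1 425 (.leaf 19) (.leaf 25)) (.leaf 25)) (.bis 2 7 4 1 425
  (.leaf 34) (.leaf 34))))))))))

def lc40 : List Vr := [⟨[24,0,0,0,0,0,0,0,0], 6912, 0⟩, ⟨[0,112,0,0,0,0,85,0,155], 406901, 0⟩,
  ⟨[0,0,17,0,0,0,0,0,0], 6936, 0⟩, ⟨[0,0,0,13,0,0,0,0,0], 6760, 0⟩, ⟨[0,0,0,0,19,0,0,0,0], 7581,
  0⟩, ⟨[0,0,0,0,0,120,85,0,155], 405525, 0⟩, ⟨[24,0,0,0,0,0,85,0,0], 38617, 0⟩, ⟨[0,0,0,0,0,0,85,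
  42,0], 42841, 0⟩, ⟨[0,0,0,0,0,0,85,0,155], 59925, 0⟩]

theorem lk40 : chkTr lowT (leafLow 2 lowB) lt40 lc40 = true := by decide +kernel

def lt41 : Tr ℕ := (.bis 0 5 1 1 376 (.bis 2 7 2 1 424 (.bis 3 7 2 1 428 (.bis 4 7 2 1 433 (.bis
  5 7 2 1 439 (.bis 1 6 1 4 588 (.bis 0 7 1 1 440 (.bis 6 8 4 1 474 (.leaf 8) (.leaf 8)) (.bis 0
  6 1 1 616 (.bis 6 8 4 1 474 (.leaf 3) (.leaf 8)) (.leaf 3))) (.bis 0 7 1 1 440 (.bis 1 7 1 4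
  402 (.leaf 8) (.bis 1 5 1 2 441 (.leaf 3) (.bis 0 1 2 1 442 (.leaf 3) (.leaf 3)))) (.bis 1 5 1
  2 441 (.leaf 3) (.bis 0 1 4 1 383 (.bis 1 7 1 2 442 (.leaf 3) (.leaf 3)) (.leaf 3))))) (.bis 1
  5 1 8 378 (.bis 5 6 2 1 502 (.leaf 51) (.bis 2 5 1 4 443 (.bis 3 5 1 4 444 (.bis 4 5 1 4 445
  (.leaf 15) (.leaf 3)) (.leaf 3)) (.leaf 3))) (.bis 1 6 1 4 588 (.bis 0 6 1 1 616 (.leaf 8)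
  (.leaf 3)) (.bis 1 7 1 2 441 (.leaf 3) (.bis 0 1 4 1 383 (.leaf 3) (.leaf 3)))))) (.bis 1 5 1 8
  378 (.bis 4 6 2 1 492 (.bis 5 6 2 1 502 (.leaf 51) (.bis 2 5 1 4 443 (.bis 3 5 1 4 444 (.bis 5
  7 4 1 445 (.leaf 3) (.leaf 15)) (.leaf 3)) (.leaf 3))) (.bis 2 5 1 4 443 (.bis 4 8 8 1 368
  (.bis 3 5 1 4 444 (.bis 5 7 4 1 445 (.leaf 3) (.leaf 15)) (.leaf 3)) (.bis 3 5 1 4 444 (.bis 4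
  5 1 1 393 (.bis 5 7 4 1 445 (.leaf 7) (.leaf 15)) (.leaf 7)) (.bis 3 4 1 4 446 (.leaf 7) (.leaf
  3)))) (.bis 4 8 8 1 368 (.leaf 3) (.bis 2 4 1 4 447 (.leaf 7) (.leaf 3))))) (.bis 4 6 2 1 492
  (.bis 1 6 1 4 588 (.bis 0 6 1 1 616 (.bis 6 8 4 1 474 (.leaf 3) (.leaf 8)) (.leaf 3)) (.bis 0 1
  4 1 383 (.bis 1 4 1 2 592 (.leaf 3) (.leaf 3)) (.leaf 3))) (.bis 4 8 8 1 368 (.bis 0 1 4 1 383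
  (.bis 1 6 1 2 592 (.leaf 3) (.leaf 3)) (.leaf 3)) (.bis 1 4 1 8 304 (.leaf 7) (.bis 0 1 4 1 383
  (.leaf 3) (.leaf 3))))))) (.bis 1 5 1 8 378 (.bis 3 6 2 1 484 (.bis 4 6 2 1 492 (.bis 5 6 2 1
  502 (.bis 0 6 1 1 616 (.bis 6 8 4 1 474 (.leaf 3) (.leaf 8)) (.leaf 3)) (.bis 2 5 1 4 443 (.bis
  5 7 4 1 444 (.leaf 3) (.bis 3 5 1 4 514 (.leaf 15) (.leaf 3))) (.leaf 3))) (.bis 2 5 1 4 443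
  (.bis 4 8 8 1 368 (.bis 5 7 4 1 444 (.leaf 3) (.bis 3 5 1 4 514 (.leaf 15) (.leaf 3))) (.bis 5
  7 4 1 444 (.bis 4 7 4 1 446 (.leaf 3) (.leaf 7)) (.bis 3 5 1 4 514 (.bis 4 5 1 1 393 (.leaf 15)
  (.leaf 7)) (.bis 3 4 1 4 557 (.leaf 7) (.leaf 3))))) (.bis 4 8 8 1 368 (.leaf 3) (.bis 2 4 1 4
  447 (.leaf 7) (.leaf 3))))) (.bis 3 5 1 1 379 (.bis 2 5 1 4 443 (.bis 4 8 8 1 368 (.bis 5 7 4 1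
  444 (.leaf 3) (.bis 5 6 4 1 514 (.leaf 3) (.leaf 15))) (.bis 5 7 4 1 444 (.bis 4 7 4 1 446
  (.leaf 3) (.leaf 7)) (.bis 5 6 4 1 514 (.leaf 7) (.bis 4 5 1 1 393 (.leaf 15) (.leaf 7)))))
  (.bis 4 8 8 1 368 (.leaf 3) (.bis 2 4 1 4 447 (.leaf 7) (.leaf 3)))) (.bis 3 8 8 1 366 (.bis 4
  8 8 1 368 (.leaf 3) (.leaf 7)) (.leaf 7)))) (.bis 3 6 2 1 484 (.bis 4 6 2 1 492 (.bis 1 6 1 4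
  588 (.leaf 51) (.bis 0 1 4 1 383 (.bis 1 4 1 2 592 (.leaf 3) (.leaf 3)) (.leaf 3))) (.bis 4 8 8
  1 368 (.bis 0 1 4 1 383 (.bis 1 6 1 2 592 (.leaf 3) (.leaf 3)) (.leaf 3)) (.bis 1 4 1 8 304
  (.leaf 7) (.bis 0 1 4 1 383 (.leaf 3) (.leaf 3))))) (.bis 3 8 8 1 366 (.bis 4 8 8 1 368 (.bis 0
  1 4 1 383 (.leaf 3) (.leaf 3)) (.bis 1 4 1 8 304 (.leaf 7) (.bis 0 1 4 1 383 (.leaf 3) (.leaf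
  3)))) (.bis 1 4 1 8 304 (.leaf 7) (.bis 0 1 4 1 383 (.bis 1 3 1 8 300 (.leaf 7) (.leaf 3))
  (.leaf 7))))))) (.bis 2 6 2 1 568 (.bis 1 5 1 8 378 (.bis 3 6 2 1 484 (.bis 4 6 2 1 492 (.bis 5
  6 2 1 502 (.bis 0 6 1 1 616 (.bis 6 8 4 1 474 (.leaf 3) (.leaf 8)) (.bis 2 8 2 1 580 (.leaf 3)
  (.leaf 3))) (.bis 5 7 4 1 443 (.leaf 3) (.bis 2 5 1 4 586 (.bis 3 5 1 4 514 (.leaf 15) (.leaf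
  3)) (.leaf 3)))) (.bis 5 7 4 1 443 (.bis 4 8 8 1 368 (.leaf 3) (.bis 4 7 4 1 447 (.leaf 3)
  (.leaf 7))) (.bis 2 5 1 4 586 (.bis 4 8 8 1 368 (.bis 3 5 1 4 514 (.leaf 15) (.leaf 3)) (.bis 3
  5 1 4 514 (.bis 4 5 1 1 393 (.leaf 15) (.leaf 7)) (.bis 3 4 1 4 557 (.leaf 7) (.leaf 3))))
  (.bis 4 8 8 1 368 (.leaf 3) (.bis 2 4 1 4 579 (.leaf 7) (.leaf 3)))))) (.bis 3 5 1 1 379 (.bis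
  5 7 4 1 443 (.bis 4 8 8 1 368 (.leaf 3) (.bis 4 7 4 1 447 (.leaf 3) (.leaf 7))) (.bis 2 5 1 4
  586 (.bis 4 8 8 1 368 (.bis 5 6 4 1 514 (.leaf 3) (.leaf 15)) (.bis 5 6 4 1 514 (.leaf 7) (.bis
  4 5 1 1 393 (.leaf 15) (.leaf 7)))) (.bis 4 8 8 1 368 (.leaf 3) (.bis 2 4 1 4 579 (.leaf 7)
  (.leaf 3))))) (.bis 3 8 8 1 366 (.bis 4 8 8 1 368 (.leaf 3) (.leaf 7)) (.leaf 7)))) (.bis 3 6 2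
  1 484 (.bis 4 6 2 1 492 (.bis 1 6 1 4 588 (.bis 0 6 1 1 616 (.bis 6 8 4 1 474 (.leaf 3) (.leaf
  8)) (.leaf 3)) (.bis 0 1 4 1 383 (.bis 1 4 1 2 592 (.leaf 3) (.leaf 3)) (.leaf 3))) (.bis 4 8 8
  1 368 (.bis 0 1 4 1 383 (.bis 1 6 1 2 592 (.leaf 3) (.leaf 3)) (.leaf 3)) (.bis 1 4 1 8 304
  (.leaf 7) (.bis 0 1 4 1 383 (.bis 1 6 1 2 592 (.leaf 3) (.leaf 3)) (.leaf 3))))) (.bis 3 8 8 1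
  366 (.bis 4 8 8 1 368 (.bis 0 1 4 1 383 (.leaf 3) (.leaf 3)) (.bis 1 4 1 8 304 (.leaf 7) (.bis
  0 1 4 1 383 (.leaf 3) (.leaf 3)))) (.bis 1 4 1 8 304 (.leaf 7) (.bis 0 1 4 1 383 (.bis 1 3 1 8
  300 (.leaf 7) (.leaf 3)) (.leaf 7)))))) (.bis 2 5 1 1 377 (.bis 1 5 1 8 378 (.bis 3 5 1 1 379
  (.bis 5 7 4 1 443 (.bis 4 8 8 1 368 (.leaf 3) (.leaf 7)) (.bis 5 6 4 1 586 (.bis 4 8 8 1 368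
  (.leaf 3) (.leaf 7)) (.bis 4 8 8 1 368 (.leaf 15) (.leaf 56)))) (.bis 3 8 8 1 366 (.bis 4 8 8 1
  368 (.leaf 3) (.leaf 7)) (.leaf 7))) (.bis 3 8 8 1 366 (.bis 4 8 8 1 368 (.bis 1 2 1 4 382
  (.leaf 3) (.leaf 3)) (.bis 1 4 1 8 304 (.leaf 7) (.bis 1 2 1 4 382 (.leaf 3) (.leaf 3)))) (.bis
  1 4 1 8 304 (.leaf 7) (.bis 1 2 1 4 382 (.leaf 7) (.leaf 13))))) (.bis 2 8 8 1 365 (.bis 3 8 8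
  1 366 (.bis 4 8 8 1 368 (.bis 1 5 1 4 382 (.leaf 3) (.leaf 3)) (.bis 1 4 1 8 304 (.leaf 7)
  (.bis 1 5 1 4 382 (.leaf 3) (.leaf 3)))) (.bis 1 4 1 8 304 (.leaf 7) (.bis 1 5 1 4 382 (.leaf
  6) (.leaf 13)))) (.bis 1 4 1 8 304 (.leaf 7) (.bis 1 2 1 8 296 (.leaf 6) (.bis 1 5 1 4 382
  (.leaf 6) (.leaf 13)))))))) (.bis 0 7 2 1 422 (.bis 2 7 2 1 424 (.bis 3 7 2 1 428 (.bis 4 7 2 1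
  433 (.bis 1 6 1 4 588 (.bis 5 7 1 1 440 (.bis 6 8 4 1 474 (.bis 7 8 4 1 438 (.leaf 3) (.leaf
  8)) (.leaf 8)) (.bis 5 6 1 1 616 (.bis 6 8 4 1 474 (.bis 0 8 2 1 437 (.leaf 3) (.leaf 3))
  (.leaf 8)) (.bis 0 8 2 1 437 (.leaf 3) (.leaf 3)))) (.bis 5 7 1 1 440 (.bis 1 7 1 4 402 (.bis 7
  8 4 1 438 (.leaf 3) (.leaf 8)) (.bis 0 8 2 1 437 (.bis 1 5 1 2 442 (.leaf 3) (.leaf 3)) (.bis 0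
  1 2 1 432 (.bis 1 5 1 2 442 (.leaf 3) (.leaf 3)) (.leaf 3)))) (.bis 1 5 1 4 383 (.leaf 3) (.bis
  0 8 2 1 437 (.bis 1 7 1 2 442 (.leaf 3) (.leaf 3)) (.bis 0 1 2 1 432 (.bis 1 7 1 2 442 (.leaf
  3) (.leaf 3)) (.leaf 3)))))) (.bis 4 6 2 1 492 (.bis 1 6 1 4 588 (.bis 5 6 1 1 616 (.bis 6 8 4
  1 474 (.bis 0 8 2 1 437 (.leaf 3) (.leaf 3)) (.leaf 8)) (.bis 0 8 2 1 437 (.leaf 3) (.leaf 3)))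
  (.bis 1 5 1 4 383 (.leaf 3) (.bis 1 4 1 2 592 (.leaf 3) (.leaf 3)))) (.bis 0 4 1 4 434 (.bis 4
  8 8 1 368 (.bis 1 5 1 4 383 (.leaf 3) (.bis 1 6 1 2 592 (.leaf 3) (.leaf 3))) (.bis 1 4 1 8 304
  (.leaf 7) (.bis 1 5 1 4 383 (.leaf 3) (.bis 1 6 1 2 592 (.leaf 3) (.leaf 3))))) (.bis 1 5 1 4
  383 (.bis 0 8 2 1 437 (.leaf 3) (.leaf 3)) (.bis 1 6 1 2 592 (.bis 0 8 2 1 437 (.leaf 3) (.leaf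
  3)) (.bis 0 8 2 1 437 (.leaf 3) (.bis 0 1 2 1 432 (.leaf 3) (.leaf 3)))))))) (.bis 3 6 2 1 484
  (.bis 4 6 2 1 492 (.bis 1 6 1 4 588 (.bis 5 6 1 1 616 (.bis 6 8 4 1 474 (.bis 0 8 2 1 437
  (.leaf 3) (.leaf 3)) (.leaf 8)) (.bis 0 8 2 1 437 (.leaf 3) (.leaf 3))) (.bis 1 5 1 4 383 (.bis
  0 8 2 1 437 (.leaf 3) (.leaf 3)) (.bis 1 4 1 2 592 (.bis 0 8 2 1 437 (.leaf 3) (.leaf 3))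
  (.leaf 3)))) (.bis 0 4 1 4 434 (.bis 4 8 8 1 368 (.bis 1 5 1 4 383 (.leaf 3) (.bis 1 6 1 2 592
  (.leaf 3) (.leaf 3))) (.bis 1 4 1 8 304 (.leaf 7) (.bis 1 5 1 4 383 (.leaf 3) (.bis 1 6 1 2 592
  (.leaf 3) (.leaf 3))))) (.bis 1 5 1 4 383 (.bis 0 8 2 1 437 (.leaf 3) (.leaf 3)) (.bis 1 6 1 2
  592 (.bis 0 8 2 1 437 (.leaf 3) (.leaf 3)) (.bis 0 8 2 1 437 (.leaf 3) (.bis 0 1 2 1 432 (.leaf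
  3) (.leaf 3))))))) (.bis 3 8 8 1 366 (.bis 0 4 1 4 434 (.bis 4 8 8 1 368 (.bis 1 5 1 4 383
  (.leaf 3) (.leaf 3)) (.bis 1 4 1 8 304 (.leaf 7) (.bis 1 5 1 4 383 (.leaf 3) (.leaf 3)))) (.bis
  1 5 1 4 383 (.bis 0 8 2 1 437 (.leaf 3) (.leaf 3)) (.bis 0 8 2 1 437 (.leaf 3) (.bis 0 1 2 1
  432 (.leaf 3) (.leaf 3))))) (.bis 0 4 1 4 434 (.bis 1 4 1 8 304 (.leaf 7) (.bis 1 5 1 4 383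
  (.leaf 6) (.leaf 13))) (.bis 0 3 1 4 429 (.bis 1 5 1 4 383 (.leaf 6) (.bis 1 3 1 8 300 (.leaf
  6) (.leaf 3))) (.bis 1 5 1 4 383 (.leaf 3) (.bis 0 1 2 1 432 (.leaf 3) (.leaf 3)))))))) (.bis 2
  6 2 1 568 (.bis 3 6 2 1 484 (.bis 4 6 2 1 492 (.bis 1 6 1 4 588 (.bis 5 6 1 1 616 (.bis 6 8 4 1
  474 (.bis 0 8 2 1 437 (.bis 2 8 2 1 580 (.leaf 3) (.leaf 3)) (.leaf 3)) (.leaf 8)) (.bis 0 8 2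
  1 437 (.bis 2 8 2 1 580 (.leaf 3) (.leaf 3)) (.leaf 3))) (.bis 1 5 1 4 383 (.bis 0 8 2 1 437
  (.leaf 3) (.leaf 3)) (.bis 1 4 1 2 592 (.bis 0 8 2 1 437 (.leaf 3) (.leaf 3)) (.leaf 3))))
  (.bis 0 4 1 4 434 (.bis 4 8 8 1 368 (.bis 1 5 1 4 383 (.bis 2 8 2 1 580 (.leaf 3) (.leaf 3))
  (.bis 1 6 1 2 592 (.leaf 3) (.leaf 3))) (.bis 1 4 1 8 304 (.leaf 7) (.bis 1 5 1 4 383 (.leaf 3)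
  (.bis 1 6 1 2 592 (.leaf 3) (.leaf 3))))) (.bis 1 5 1 4 383 (.bis 0 8 2 1 437 (.bis 2 8 2 1 580
  (.leaf 3) (.leaf 3)) (.leaf 3)) (.bis 1 6 1 2 592 (.bis 0 8 2 1 437 (.leaf 3) (.leaf 3)) (.bis
  0 8 2 1 437 (.leaf 3) (.bis 0 1 2 1 432 (.leaf 3) (.leaf 3))))))) (.bis 3 8 8 1 366 (.bis 0 4 1
  4 434 (.bis 4 8 8 1 368 (.bis 1 5 1 4 383 (.leaf 3) (.bis 2 8 2 1 580 (.leaf 3) (.bis 1 2 1 2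
  596 (.leaf 3) (.leaf 3)))) (.bis 1 4 1 8 304 (.leaf 7) (.bis 1 5 1 4 383 (.leaf 3) (.leaf 3))))
  (.bis 1 5 1 4 383 (.bis 0 8 2 1 437 (.leaf 3) (.leaf 3)) (.bis 0 8 2 1 437 (.bis 2 8 2 1 580
  (.leaf 3) (.bis 1 2 1 2 596 (.leaf 3) (.leaf 3))) (.bis 0 1 2 1 432 (.leaf 3) (.leaf 3)))))
  (.bis 0 4 1 4 434 (.bis 1 4 1 8 304 (.leaf 7) (.bis 1 5 1 4 383 (.leaf 6) (.leaf 13))) (.bis 0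
  3 1 4 429 (.bis 1 5 1 4 383 (.leaf 6) (.bis 1 3 1 8 300 (.leaf 6) (.leaf 3))) (.bis 1 5 1 4 383
  (.leaf 3) (.bis 0 1 2 1 432 (.bis 1 2 1 2 596 (.leaf 3) (.leaf 3)) (.leaf 3))))))) (.bis 2 8 8
  1 365 (.bis 3 8 8 1 366 (.bis 0 4 1 4 434 (.bis 4 8 8 1 368 (.bis 1 5 1 4 383 (.leaf 3) (.leaf
  3)) (.bis 1 4 1 8 304 (.leaf 7) (.bis 1 5 1 4 383 (.leaf 3) (.leaf 3)))) (.bis 1 5 1 4 383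
  (.leaf 3) (.leaf 3))) (.bis 0 4 1 4 434 (.bis 1 4 1 8 304 (.leaf 7) (.bis 1 5 1 4 383 (.leaf 6)
  (.leaf 13))) (.bis 0 3 1 4 429 (.bis 1 5 1 4 383 (.leaf 6) (.bis 1 3 1 8 300 (.leaf 6) (.leaf
  3))) (.bis 1 5 1 4 383 (.leaf 3) (.bis 0 1 2 1 432 (.leaf 3) (.leaf 3)))))) (.bis 0 4 1 4 434
  (.bis 1 4 1 8 304 (.leaf 7) (.bis 1 2 1 8 296 (.leaf 6) (.bis 1 5 1 4 383 (.leaf 6) (.leaf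
  13)))) (.bis 1 2 1 8 296 (.leaf 6) (.bis 0 3 1 4 429 (.bis 1 5 1 4 383 (.leaf 6) (.leaf 13))
  (.bis 1 5 1 4 383 (.leaf 3) (.bis 0 1 2 1 432 (.leaf 3) (.leaf 3))))))))) (.bis 0 6 2 1 609
  (.bis 2 6 2 1 568 (.bis 3 6 2 1 484 (.bis 4 6 2 1 492 (.bis 1 6 1 4 588 (.bis 5 6 1 1 616 (.bis
  6 8 4 1 474 (.bis 0 8 2 1 611 (.bis 7 8 2 1 437 (.leaf 3) (.leaf 3)) (.leaf 3)) (.leaf 8))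
  (.bis 0 8 2 1 611 (.bis 7 8 2 1 437 (.leaf 3) (.leaf 3)) (.leaf 3))) (.bis 0 8 2 1 611 (.bis 1
  5 1 4 383 (.leaf 3) (.bis 1 4 1 2 592 (.leaf 3) (.leaf 3))) (.bis 1 5 1 4 383 (.leaf 3) (.bis 0
  1 2 1 613 (.bis 1 4 1 2 592 (.leaf 3) (.leaf 3)) (.leaf 3))))) (.bis 4 7 4 1 434 (.bis 0 8 2 1
  611 (.bis 1 5 1 4 383 (.bis 7 8 2 1 437 (.leaf 3) (.leaf 3)) (.bis 1 6 1 2 592 (.bis 7 8 2 1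
  437 (.leaf 3) (.leaf 3)) (.bis 7 8 2 1 437 (.leaf 3) (.bis 1 7 1 2 432 (.leaf 3) (.leaf 3)))))
  (.bis 1 5 1 4 383 (.leaf 3) (.bis 0 1 2 1 613 (.bis 1 6 1 2 592 (.leaf 3) (.bis 1 7 1 2 432
  (.leaf 3) (.leaf 3))) (.leaf 3)))) (.bis 4 8 8 1 368 (.bis 0 8 2 1 611 (.bis 1 5 1 4 383 (.leaf
  3) (.bis 1 6 1 2 592 (.leaf 3) (.leaf 3))) (.bis 1 5 1 4 383 (.leaf 3) (.bis 0 1 2 1 613 (.bis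
  1 6 1 2 592 (.leaf 3) (.leaf 3)) (.leaf 3)))) (.bis 1 4 1 8 304 (.bis 0 4 1 4 615 (.leaf 7)
  (.leaf 3)) (.bis 1 5 1 4 383 (.leaf 3) (.bis 0 1 2 1 613 (.bis 1 6 1 2 592 (.leaf 3) (.leaf 3))
  (.leaf 3))))))) (.bis 3 8 8 1 366 (.bis 4 7 4 1 434 (.bis 0 8 2 1 611 (.bis 1 5 1 4 383 (.leaf
  3) (.bis 7 8 2 1 437 (.leaf 3) (.bis 1 7 1 2 432 (.leaf 3) (.leaf 3)))) (.bis 1 5 1 4 383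
  (.leaf 3) (.bis 0 1 2 1 613 (.bis 1 7 1 2 432 (.leaf 3) (.leaf 3)) (.leaf 3)))) (.bis 4 8 8 1
  368 (.bis 0 8 2 1 611 (.bis 1 5 1 4 383 (.leaf 3) (.leaf 3)) (.bis 1 5 1 4 383 (.leaf 3) (.bis
  0 1 2 1 613 (.leaf 3) (.leaf 3)))) (.bis 1 4 1 8 304 (.leaf 7) (.bis 1 5 1 4 383 (.leaf 3)
  (.bis 0 1 2 1 613 (.leaf 3) (.leaf 3)))))) (.bis 4 7 4 1 434 (.bis 3 7 4 1 429 (.bis 1 5 1 4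
  383 (.leaf 3) (.bis 0 1 2 1 613 (.bis 1 7 1 2 432 (.leaf 3) (.leaf 3)) (.leaf 3))) (.bis 0 3 1
  4 614 (.bis 1 5 1 4 383 (.leaf 6) (.bis 1 3 1 8 300 (.leaf 6) (.leaf 3))) (.bis 1 5 1 4 383
  (.leaf 3) (.bis 0 1 2 1 613 (.bis 1 2 1 2 596 (.leaf 3) (.leaf 3)) (.leaf 3))))) (.bis 1 4 1 8
  304 (.leaf 7) (.bis 0 3 1 4 614 (.bis 1 5 1 4 383 (.leaf 6) (.bis 1 3 1 8 300 (.leaf 6) (.leaf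
  3))) (.bis 1 5 1 4 383 (.leaf 3) (.bis 0 1 2 1 613 (.leaf 3) (.leaf 3)))))))) (.bis 2 8 8 1 365
  (.bis 3 8 8 1 366 (.bis 4 7 4 1 434 (.bis 0 8 2 1 611 (.bis 1 5 1 4 383 (.leaf 3) (.leaf 3))
  (.bis 1 5 1 4 383 (.leaf 3) (.bis 0 1 2 1 613 (.leaf 3) (.leaf 3)))) (.bis 4 8 8 1 368 (.bis 0
  8 2 1 611 (.bis 1 5 1 4 383 (.leaf 3) (.leaf 3)) (.bis 1 5 1 4 383 (.leaf 3) (.bis 0 1 2 1 613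
  (.leaf 3) (.leaf 3)))) (.bis 1 4 1 8 304 (.leaf 7) (.bis 1 5 1 4 383 (.leaf 3) (.leaf 3)))))
  (.bis 4 7 4 1 434 (.bis 3 7 4 1 429 (.bis 1 5 1 4 383 (.leaf 3) (.bis 0 1 2 1 613 (.leaf 3)
  (.leaf 3))) (.bis 0 3 1 4 614 (.bis 1 5 1 4 383 (.leaf 6) (.bis 1 3 1 8 300 (.leaf 6) (.leaf
  3))) (.bis 1 5 1 4 383 (.leaf 3) (.bis 0 1 2 1 613 (.leaf 3) (.leaf 3))))) (.bis 1 4 1 8 304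
  (.leaf 7) (.bis 0 3 1 4 614 (.bis 1 5 1 4 383 (.leaf 6) (.leaf 13)) (.bis 1 5 1 4 383 (.leaf 3)
  (.leaf 3)))))) (.bis 4 7 4 1 434 (.bis 1 2 1 8 296 (.bis 3 7 4 1 429 (.bis 2 7 4 1 425 (.leaf
  3) (.leaf 7)) (.leaf 7)) (.bis 3 7 4 1 429 (.bis 1 5 1 4 383 (.leaf 3) (.bis 0 1 2 1 613 (.leaf
  3) (.leaf 3))) (.bis 0 3 1 4 614 (.bis 1 5 1 4 383 (.leaf 6) (.bis 1 3 1 8 300 (.leaf 6) (.leaf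
  3))) (.bis 1 5 1 4 383 (.leaf 3) (.bis 0 1 2 1 613 (.leaf 3) (.leaf 3)))))) (.bis 1 4 1 8 304
  (.leaf 7) (.bis 1 2 1 8 296 (.leaf 7) (.bis 0 3 1 4 614 (.bis 1 5 1 4 383 (.leaf 6) (.leaf 13))
  (.bis 1 5 1 4 383 (.leaf 3) (.leaf 3)))))))) (.bis 0 8 8 1 364 (.bis 2 8 8 1 365 (.bis 3 8 8 1
  366 (.bis 4 7 4 1 434 (.bis 6 8 2 1 611 (.bis 1 5 1 4 383 (.leaf 3) (.leaf 3)) (.bis 1 5 1 4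
  383 (.leaf 3) (.bis 1 6 1 2 613 (.leaf 3) (.leaf 3)))) (.bis 4 8 8 1 368 (.bis 6 8 2 1 611
  (.bis 1 5 1 4 383 (.leaf 3) (.leaf 3)) (.bis 1 5 1 4 383 (.leaf 3) (.leaf 3))) (.bis 1 4 1 8
  304 (.leaf 7) (.bis 1 5 1 4 383 (.leaf 3) (.leaf 3))))) (.bis 4 7 4 1 434 (.bis 3 7 4 1 429
  (.bis 1 5 1 4 383 (.leaf 3) (.bis 1 6 1 2 613 (.leaf 3) (.leaf 3))) (.bis 3 6 4 1 614 (.bis 1 5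
  1 4 383 (.leaf 3) (.bis 1 6 1 2 613 (.leaf 3) (.leaf 3))) (.bis 1 5 1 4 383 (.leaf 6) (.leaf
  13)))) (.bis 1 4 1 8 304 (.leaf 7) (.bis 3 6 4 1 614 (.bis 1 5 1 4 383 (.leaf 3) (.leaf 3))
  (.bis 1 5 1 4 383 (.leaf 6) (.leaf 13)))))) (.bis 4 7 4 1 434 (.bis 1 2 1 8 296 (.bis 3 7 4 1
  429 (.bis 2 7 4 1 425 (.leaf 3) (.leaf 7)) (.leaf 7)) (.bis 3 7 4 1 429 (.bis 1 5 1 4 383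
  (.leaf 3) (.leaf 3)) (.bis 3 6 4 1 614 (.bis 1 5 1 4 383 (.leaf 3) (.leaf 3)) (.bis 1 5 1 4 383
  (.leaf 6) (.leaf 13))))) (.bis 1 4 1 8 304 (.leaf 7) (.bis 1 2 1 8 296 (.leaf 7) (.bis 3 6 4 1
  614 (.bis 1 5 1 4 383 (.leaf 3) (.leaf 3)) (.leaf 13)))))) (.bis 0 4 1 1 280 (.bis 4 7 4 1 434
  (.bis 1 2 1 8 296 (.leaf 25) (.bis 3 7 4 1 429 (.bis 1 5 1 4 383 (.leaf 25) (.bis 1 6 1 2 613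
  (.leaf 19) (.leaf 5))) (.bis 3 6 4 1 614 (.bis 1 5 1 4 383 (.leaf 7) (.bis 1 6 1 2 613 (.leaf
  7) (.leaf 5))) (.bis 1 5 1 4 383 (.leaf 6) (.bis 1 3 1 8 300 (.leaf 6) (.leaf 5)))))) (.bis 1 4
  1 8 304 (.leaf 7) (.bis 1 2 1 8 296 (.leaf 7) (.bis 3 6 4 1 614 (.bis 1 5 1 4 383 (.leaf 7)
  (.leaf 25)) (.bis 1 5 1 4 383 (.leaf 6) (.leaf 13)))))) (.bis 0 1 8 1 293 (.bis 1 2 1 8 296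
  (.bis 3 7 4 1 429 (.leaf 25) (.leaf 7)) (.bis 3 7 4 1 429 (.bis 1 5 1 4 383 (.leaf 25) (.bis 1
  6 1 2 613 (.leaf 19) (.leaf 5))) (.bis 3 6 4 1 614 (.bis 1 5 1 4 383 (.leaf 7) (.leaf 25))
  (.bis 1 5 1 4 383 (.leaf 6) (.leaf 13))))) (.bis 0 3 1 1 213 (.bis 3 7 4 1 429 (.leaf 25)
  (.leaf 7)) (.bis 2 7 4 1 425 (.leaf 34) (.leaf 34)))))))))

def lc41 : List Vr := [⟨[24,0,0,0,0,0,0,0,0], 6912, 0⟩, ⟨[0,112,0,0,0,0,85,0,155], 406901, 0⟩,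
  ⟨[0,0,17,0,0,0,0,0,0], 6936, 0⟩, ⟨[0,0,0,13,0,0,0,0,0], 6760, 0⟩, ⟨[0,0,0,0,19,0,0,0,0], 7581,
  0⟩, ⟨[0,0,0,0,0,30,0,0,0], 7200, 0⟩, ⟨[24,0,0,0,0,0,85,0,0], 38617, 0⟩, ⟨[0,0,0,0,0,0,85,42,0],
  42841, 0⟩, ⟨[0,0,0,0,0,120,85,0,155], 405525, 0⟩]

theorem lk41 : chkTr lowT (leafLow 2 lowB) lt41 lc41 = true := by decide +kernel

def lt42 : Tr ℕ := (.bis 1 7 2 1 451 (.bis 0 5 1 1 376 (.bis 2 7 2 1 424 (.bis 3 7 2 1 428 (.bis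
  4 7 2 1 433 (.bis 5 7 2 1 439 (.bis 6 8 4 1 588 (.bis 0 7 1 1 440 (.bis 7 8 4 1 402 (.bis 5 8 2
  1 441 (.bis 0 8 2 1 442 (.leaf 3) (.leaf 3)) (.leaf 3)) (.leaf 8)) (.bis 5 8 2 1 441 (.bis 0 8
  4 1 383 (.bis 7 8 2 1 442 (.leaf 3) (.leaf 3)) (.leaf 3)) (.bis 0 6 8 1 617 (.leaf 3) (.leaf
  3)))) (.bis 0 7 1 1 440 (.leaf 8) (.bis 0 6 1 1 616 (.leaf 8) (.leaf 3)))) (.bis 5 8 8 1 378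
  (.bis 6 8 4 1 588 (.bis 7 8 2 1 441 (.bis 0 8 4 1 383 (.leaf 3) (.leaf 3)) (.leaf 3)) (.bis 0 6
  1 1 616 (.leaf 8) (.leaf 3))) (.bis 5 6 2 1 502 (.bis 0 6 1 1 616 (.leaf 8) (.leaf 3)) (.bis 2
  5 1 4 443 (.bis 1 5 1 4 456 (.bis 3 5 1 4 444 (.bis 4 5 1 4 445 (.leaf 15) (.leaf 3)) (.leaf
  3)) (.leaf 3)) (.leaf 3))))) (.bis 5 8 8 1 378 (.bis 4 6 2 1 492 (.bis 6 8 4 1 588 (.bis 0 8 4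
  1 383 (.bis 4 8 2 1 592 (.leaf 3) (.leaf 3)) (.leaf 3)) (.bis 0 6 1 1 616 (.leaf 8) (.leaf 3)))
  (.bis 4 8 8 1 304 (.bis 0 8 4 1 383 (.leaf 3) (.leaf 3)) (.bis 2 4 1 4 447 (.leaf 7) (.leaf
  3)))) (.bis 4 6 2 1 492 (.bis 5 6 2 1 502 (.leaf 51) (.bis 2 5 1 4 443 (.bis 1 5 1 4 456 (.bis
  3 5 1 4 444 (.bis 5 7 4 1 445 (.leaf 3) (.leaf 15)) (.leaf 3)) (.leaf 3)) (.leaf 3))) (.bis 2 5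
  1 4 443 (.bis 1 5 1 4 456 (.bis 3 5 1 4 444 (.bis 4 5 1 1 393 (.leaf 15) (.leaf 7)) (.bis 3 4 1
  4 446 (.bis 0 4 1 2 618 (.leaf 7) (.leaf 3)) (.leaf 3))) (.bis 1 4 1 4 458 (.bis 3 4 1 4 446
  (.leaf 7) (.leaf 3)) (.leaf 3))) (.bis 2 4 1 4 447 (.bis 1 4 1 4 458 (.leaf 7) (.leaf 3))
  (.leaf 3)))))) (.bis 5 8 8 1 378 (.bis 3 6 2 1 484 (.bis 4 6 2 1 492 (.bis 6 8 4 1 588 (.bis 0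
  8 4 1 383 (.bis 4 8 2 1 592 (.leaf 3) (.leaf 3)) (.leaf 3)) (.bis 0 6 1 1 616 (.leaf 8) (.leaf
  3))) (.bis 4 8 8 1 304 (.bis 0 8 4 1 383 (.leaf 3) (.leaf 3)) (.bis 2 4 1 4 447 (.leaf 7)
  (.leaf 3)))) (.bis 4 8 8 1 304 (.bis 0 8 4 1 383 (.bis 3 8 8 1 300 (.leaf 3) (.leaf 7)) (.bis 2
  3 1 4 578 (.leaf 7) (.leaf 3))) (.bis 2 4 1 4 447 (.leaf 7) (.bis 2 3 1 4 578 (.leaf 7) (.leaf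
  3))))) (.bis 3 6 2 1 484 (.bis 4 6 2 1 492 (.bis 5 6 2 1 502 (.leaf 51) (.bis 2 5 1 4 443 (.bis
  1 5 1 4 456 (.bis 5 7 4 1 444 (.leaf 3) (.bis 3 5 1 4 514 (.leaf 15) (.leaf 3))) (.leaf 3))
  (.leaf 3))) (.bis 2 5 1 4 443 (.bis 1 5 1 4 456 (.bis 5 7 4 1 444 (.bis 4 7 4 1 446 (.leaf 3)
  (.bis 3 4 1 4 557 (.leaf 7) (.leaf 3))) (.bis 3 5 1 4 514 (.bis 4 5 1 1 393 (.leaf 15) (.bis 0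
  4 1 2 618 (.leaf 7) (.leaf 7))) (.bis 3 4 1 4 557 (.bis 0 4 1 2 618 (.leaf 7) (.leaf 3)) (.leaf
  3)))) (.bis 1 4 1 4 458 (.bis 4 7 4 1 446 (.leaf 3) (.leaf 7)) (.leaf 3))) (.bis 2 4 1 4 447
  (.bis 1 4 1 4 458 (.leaf 7) (.leaf 3)) (.leaf 3)))) (.bis 3 5 1 1 379 (.bis 2 5 1 4 443 (.bis 1
  5 1 4 456 (.bis 5 7 4 1 444 (.bis 4 7 4 1 446 (.leaf 3) (.leaf 7)) (.bis 5 6 4 1 514 (.bis 4 6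
  4 1 557 (.leaf 3) (.leaf 7)) (.bis 4 5 1 1 393 (.leaf 15) (.leaf 7)))) (.bis 1 4 1 4 458 (.bis
  4 7 4 1 446 (.leaf 3) (.leaf 7)) (.leaf 3))) (.bis 2 4 1 4 447 (.bis 1 4 1 4 458 (.leaf 7)
  (.leaf 3)) (.leaf 3))) (.bis 2 4 1 4 447 (.leaf 7) (.bis 2 3 1 4 578 (.leaf 7) (.leaf 3)))))))
  (.bis 2 6 2 1 568 (.bis 5 8 8 1 378 (.bis 3 6 2 1 484 (.bis 4 6 2 1 492 (.bis 6 8 4 1 588 (.bis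
  0 8 4 1 383 (.bis 4 8 2 1 592 (.leaf 3) (.leaf 3)) (.leaf 3)) (.bis 0 6 1 1 616 (.leaf 8)
  (.leaf 3))) (.bis 4 8 8 1 304 (.bis 0 8 4 1 383 (.leaf 3) (.leaf 3)) (.bis 4 7 4 1 447 (.leaf
  3) (.leaf 7)))) (.bis 4 8 8 1 304 (.bis 0 8 4 1 383 (.bis 3 8 8 1 300 (.leaf 3) (.leaf 7))
  (.bis 3 7 4 1 578 (.leaf 3) (.leaf 7))) (.bis 4 7 4 1 447 (.bis 3 7 4 1 578 (.leaf 3) (.leaf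
  7)) (.leaf 7)))) (.bis 3 6 2 1 484 (.bis 4 6 2 1 492 (.bis 5 6 2 1 502 (.leaf 51) (.bis 5 7 4 1
  443 (.leaf 3) (.bis 1 5 1 4 456 (.bis 2 5 1 4 586 (.bis 3 5 1 4 514 (.leaf 15) (.leaf 3))
  (.leaf 3)) (.leaf 3)))) (.bis 5 7 4 1 443 (.bis 4 7 4 1 447 (.leaf 3) (.bis 1 4 1 4 458 (.leaf
  7) (.leaf 3))) (.bis 1 5 1 4 456 (.bis 2 5 1 4 586 (.bis 3 5 1 4 514 (.bis 4 5 1 1 393 (.leaf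
  15) (.bis 0 4 1 2 618 (.leaf 7) (.leaf 7))) (.bis 3 4 1 4 557 (.bis 0 4 1 2 618 (.leaf 7)
  (.leaf 3)) (.leaf 3))) (.bis 2 4 1 4 579 (.bis 3 4 1 4 557 (.leaf 7) (.leaf 3)) (.leaf 3)))
  (.bis 1 4 1 4 458 (.bis 2 4 1 4 579 (.leaf 7) (.leaf 3)) (.leaf 3))))) (.bis 3 5 1 1 379 (.bis
  5 7 4 1 443 (.bis 4 7 4 1 447 (.leaf 3) (.bis 1 4 1 4 458 (.leaf 7) (.leaf 3))) (.bis 1 5 1 4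
  456 (.bis 2 5 1 4 586 (.bis 5 6 4 1 514 (.bis 4 6 4 1 557 (.leaf 3) (.leaf 7)) (.bis 4 5 1 1
  393 (.leaf 15) (.leaf 7))) (.bis 2 4 1 4 579 (.leaf 7) (.leaf 3))) (.bis 1 4 1 4 458 (.bis 2 4
  1 4 579 (.leaf 7) (.leaf 3)) (.leaf 3)))) (.bis 4 7 4 1 447 (.bis 3 7 4 1 578 (.leaf 3) (.leaf
  7)) (.leaf 7))))) (.bis 2 5 1 1 377 (.bis 5 8 8 1 378 (.bis 4 8 8 1 304 (.bis 2 8 4 1 382 (.bis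
  0 8 4 1 383 (.bis 3 8 8 1 300 (.leaf 3) (.leaf 7)) (.bis 3 7 4 1 578 (.leaf 3) (.leaf 7)))
  (.leaf 7)) (.leaf 7)) (.bis 3 5 1 1 379 (.bis 5 7 4 1 443 (.bis 4 7 4 1 447 (.leaf 3) (.leaf
  7)) (.bis 1 5 1 4 456 (.bis 5 6 4 1 586 (.bis 4 6 4 1 579 (.leaf 3) (.leaf 7)) (.bis 4 5 1 1
  393 (.leaf 15) (.leaf 7))) (.bis 1 4 1 4 458 (.leaf 7) (.leaf 3)))) (.leaf 7))) (.bis 4 8 8 1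
  304 (.bis 2 8 8 1 296 (.bis 5 8 4 1 382 (.leaf 13) (.leaf 6)) (.leaf 6)) (.leaf 7))))) (.bis 0
  7 2 1 422 (.bis 2 7 2 1 424 (.bis 3 7 2 1 428 (.bis 4 7 2 1 433 (.bis 6 8 4 1 588 (.bis 5 7 1 1
  440 (.bis 7 8 4 1 402 (.bis 0 8 2 1 432 (.bis 5 8 2 1 442 (.leaf 3) (.leaf 3)) (.leaf 3))
  (.leaf 8)) (.bis 5 8 4 1 383 (.bis 0 8 2 1 432 (.bis 7 8 2 1 442 (.leaf 3) (.leaf 3)) (.leaf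
  3)) (.leaf 3))) (.bis 5 7 1 1 440 (.leaf 8) (.bis 5 6 1 1 616 (.leaf 8) (.leaf 3)))) (.bis 4 6
  2 1 492 (.bis 6 8 4 1 588 (.bis 5 8 4 1 383 (.bis 4 8 2 1 592 (.leaf 3) (.leaf 3)) (.leaf 3))
  (.bis 5 6 1 1 616 (.leaf 8) (.leaf 3))) (.bis 0 4 1 4 434 (.bis 4 8 8 1 304 (.bis 5 8 4 1 383
  (.bis 6 8 2 1 592 (.leaf 3) (.leaf 3)) (.leaf 3)) (.bis 2 4 1 4 447 (.leaf 7) (.leaf 3))) (.bis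
  5 8 4 1 383 (.bis 6 8 2 1 592 (.bis 0 8 2 1 432 (.leaf 3) (.leaf 3)) (.leaf 3)) (.leaf 3)))))
  (.bis 3 6 2 1 484 (.bis 4 6 2 1 492 (.bis 6 8 4 1 588 (.bis 5 8 4 1 383 (.bis 4 8 2 1 592
  (.leaf 3) (.leaf 3)) (.leaf 3)) (.bis 5 6 1 1 616 (.leaf 8) (.leaf 3))) (.bis 0 4 1 4 434 (.bis
  4 8 8 1 304 (.bis 5 8 4 1 383 (.bis 6 8 2 1 592 (.leaf 3) (.leaf 3)) (.leaf 3)) (.bis 2 4 1 4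
  447 (.leaf 7) (.leaf 3))) (.bis 5 8 4 1 383 (.bis 6 8 2 1 592 (.bis 0 8 2 1 432 (.leaf 3)
  (.leaf 3)) (.leaf 3)) (.leaf 3)))) (.bis 0 4 1 4 434 (.bis 4 8 8 1 304 (.bis 5 8 4 1 383 (.bis
  3 8 8 1 300 (.leaf 3) (.leaf 6)) (.bis 2 3 1 4 578 (.leaf 6) (.leaf 3))) (.bis 2 4 1 4 447
  (.leaf 7) (.bis 2 3 1 4 578 (.leaf 6) (.leaf 3)))) (.bis 0 3 1 4 429 (.bis 5 8 4 1 383 (.bis 3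
  8 8 1 300 (.leaf 3) (.leaf 6)) (.bis 2 3 1 4 578 (.leaf 6) (.leaf 3))) (.bis 5 8 4 1 383 (.bis
  0 8 2 1 432 (.leaf 3) (.leaf 3)) (.leaf 3)))))) (.bis 2 6 2 1 568 (.bis 3 6 2 1 484 (.bis 4 6 2
  1 492 (.bis 6 8 4 1 588 (.bis 5 8 4 1 383 (.bis 4 8 2 1 592 (.bis 0 8 2 1 432 (.leaf 3) (.leaf
  3)) (.leaf 3)) (.leaf 3)) (.bis 5 6 1 1 616 (.leaf 8) (.leaf 3))) (.bis 0 4 1 4 434 (.bis 4 8 8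
  1 304 (.bis 5 8 4 1 383 (.bis 6 8 2 1 592 (.leaf 3) (.leaf 3)) (.leaf 3)) (.bis 4 7 4 1 447
  (.leaf 3) (.leaf 7))) (.bis 5 8 4 1 383 (.bis 6 8 2 1 592 (.bis 0 8 2 1 432 (.leaf 3) (.leaf
  3)) (.leaf 3)) (.leaf 3)))) (.bis 0 4 1 4 434 (.bis 4 8 8 1 304 (.bis 5 8 4 1 383 (.bis 3 8 8 1
  300 (.leaf 3) (.leaf 6)) (.bis 3 7 4 1 578 (.leaf 3) (.leaf 6))) (.bis 4 7 4 1 447 (.bis 3 7 4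
  1 578 (.leaf 3) (.leaf 6)) (.leaf 7))) (.bis 0 3 1 4 429 (.bis 5 8 4 1 383 (.bis 3 8 8 1 300
  (.leaf 3) (.leaf 6)) (.bis 3 7 4 1 578 (.leaf 3) (.leaf 6))) (.bis 5 8 4 1 383 (.bis 0 8 2 1
  432 (.bis 2 8 2 1 596 (.leaf 3) (.leaf 3)) (.leaf 3)) (.leaf 3))))) (.bis 0 4 1 4 434 (.bis 4 8
  8 1 304 (.bis 2 8 8 1 296 (.leaf 13) (.leaf 6)) (.bis 4 7 4 1 447 (.bis 1 2 1 4 453 (.leaf 6)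
  (.leaf 6)) (.bis 1 2 1 4 453 (.leaf 7) (.leaf 7)))) (.bis 2 8 8 1 296 (.bis 0 3 1 4 429 (.bis 5
  8 4 1 383 (.bis 3 8 8 1 300 (.leaf 3) (.leaf 6)) (.leaf 6)) (.bis 5 8 4 1 383 (.leaf 3) (.leaf
  3))) (.bis 0 3 1 4 429 (.leaf 6) (.bis 1 2 1 4 453 (.leaf 6) (.leaf 3))))))) (.bis 0 6 2 1 609
  (.bis 2 6 2 1 568 (.bis 3 6 2 1 484 (.bis 4 6 2 1 492 (.bis 6 8 4 1 588 (.bis 5 8 4 1 383 (.bis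
  0 8 2 1 613 (.bis 4 8 2 1 592 (.leaf 3) (.leaf 3)) (.leaf 3)) (.leaf 3)) (.bis 5 6 1 1 616
  (.leaf 8) (.leaf 3))) (.bis 4 7 4 1 434 (.bis 5 8 4 1 383 (.bis 0 8 2 1 613 (.bis 6 8 2 1 592
  (.leaf 3) (.leaf 3)) (.leaf 3)) (.leaf 3)) (.bis 4 8 8 1 304 (.bis 5 8 4 1 383 (.bis 0 8 2 1
  613 (.leaf 3) (.leaf 3)) (.leaf 3)) (.bis 0 4 1 4 615 (.leaf 7) (.leaf 3))))) (.bis 4 7 4 1 434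
  (.bis 3 7 4 1 429 (.bis 5 8 4 1 383 (.bis 0 8 2 1 613 (.bis 7 8 2 1 432 (.leaf 3) (.leaf 3))
  (.leaf 3)) (.leaf 3)) (.bis 0 3 1 4 614 (.bis 5 8 4 1 383 (.bis 3 8 8 1 300 (.leaf 3) (.leaf
  6)) (.leaf 6)) (.bis 5 8 4 1 383 (.bis 0 8 2 1 613 (.bis 2 8 2 1 596 (.leaf 3) (.leaf 3))
  (.leaf 3)) (.leaf 3)))) (.bis 4 8 8 1 304 (.bis 0 3 1 4 614 (.bis 5 8 4 1 383 (.bis 3 8 8 1 300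
  (.leaf 3) (.leaf 6)) (.leaf 6)) (.bis 5 8 4 1 383 (.bis 0 8 2 1 613 (.leaf 3) (.leaf 3)) (.leaf
  3))) (.bis 0 4 1 4 615 (.leaf 7) (.bis 0 3 1 4 614 (.leaf 6) (.leaf 3)))))) (.bis 4 7 4 1 434
  (.bis 2 8 8 1 296 (.bis 3 7 4 1 429 (.bis 5 8 4 1 383 (.bis 0 8 2 1 613 (.leaf 3) (.leaf 3))
  (.leaf 3)) (.bis 0 3 1 4 614 (.bis 5 8 4 1 383 (.leaf 13) (.leaf 6)) (.bis 5 8 4 1 383 (.bis 0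
  8 2 1 613 (.leaf 3) (.leaf 3)) (.leaf 3)))) (.bis 3 7 4 1 429 (.bis 1 2 1 4 453 (.leaf 25)
  (.leaf 3)) (.leaf 7))) (.bis 4 8 8 1 304 (.bis 2 8 8 1 296 (.bis 0 3 1 4 614 (.bis 5 8 4 1 383
  (.leaf 13) (.leaf 6)) (.bis 5 8 4 1 383 (.leaf 3) (.leaf 3))) (.leaf 7)) (.bis 0 4 1 4 615
  (.bis 1 2 1 4 453 (.leaf 7) (.leaf 7)) (.bis 0 3 1 4 614 (.leaf 6) (.bis 1 2 1 4 453 (.bis 0 2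
  1 4 610 (.leaf 6) (.leaf 7)) (.leaf 3))))))) (.bis 0 4 1 1 280 (.bis 4 7 4 1 434 (.bis 2 8 8 1
  296 (.bis 3 7 4 1 429 (.bis 5 8 4 1 383 (.bis 6 8 2 1 613 (.leaf 13) (.leaf 19)) (.leaf 25))
  (.bis 3 6 4 1 614 (.bis 5 8 4 1 383 (.bis 6 8 2 1 613 (.leaf 13) (.leaf 7)) (.leaf 7)) (.bis 5
  8 4 1 383 (.leaf 13) (.leaf 6)))) (.leaf 25)) (.bis 4 8 8 1 304 (.bis 2 8 8 1 296 (.bis 3 6 4 1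
  614 (.bis 5 8 4 1 383 (.leaf 25) (.leaf 7)) (.bis 5 8 4 1 383 (.leaf 13) (.leaf 6))) (.leaf 7))
  (.leaf 7))) (.bis 0 8 8 1 293 (.bis 2 8 8 1 296 (.bis 3 7 4 1 429 (.bis 5 8 4 1 383 (.leaf 25)
  (.leaf 25)) (.bis 3 6 4 1 614 (.bis 5 8 4 1 383 (.leaf 25) (.leaf 7)) (.bis 5 8 4 1 383 (.leaf
  13) (.leaf 6)))) (.leaf 25)) (.bis 0 1 4 1 454 (.bis 3 7 4 1 429 (.bis 1 2 1 4 453 (.leaf 25)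
  (.leaf 25)) (.leaf 7)) (.bis 0 3 1 1 213 (.leaf 25) (.leaf 34)))))))) (.bis 0 5 1 1 376 (.bis 1
  6 2 1 600 (.bis 2 6 2 1 568 (.bis 5 8 8 1 378 (.bis 3 6 2 1 484 (.bis 4 6 2 1 492 (.bis 6 8 4 1
  588 (.bis 0 8 4 1 383 (.bis 4 8 2 1 592 (.leaf 3) (.leaf 3)) (.leaf 3)) (.bis 0 6 1 1 616
  (.leaf 8) (.leaf 3))) (.bis 4 8 8 1 304 (.bis 0 8 4 1 383 (.leaf 3) (.leaf 3)) (.bis 4 7 4 1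
  458 (.leaf 3) (.leaf 7)))) (.bis 4 8 8 1 304 (.bis 0 8 4 1 383 (.bis 3 8 8 1 300 (.leaf 3)
  (.leaf 7)) (.bis 3 5 16 1 598 (.leaf 3) (.leaf 7))) (.bis 4 7 4 1 458 (.leaf 7) (.leaf 7))))
  (.bis 3 6 2 1 484 (.bis 4 6 2 1 492 (.bis 5 6 2 1 502 (.leaf 51) (.bis 5 7 4 1 456 (.leaf 3)
  (.bis 2 5 1 4 586 (.bis 1 5 1 4 601 (.bis 3 5 1 4 514 (.leaf 15) (.leaf 3)) (.leaf 3)) (.leaf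
  3)))) (.bis 5 7 4 1 456 (.bis 4 7 4 1 458 (.leaf 3) (.bis 2 4 1 4 579 (.leaf 7) (.leaf 3)))
  (.bis 2 5 1 4 586 (.bis 1 5 1 4 601 (.bis 3 5 1 4 514 (.bis 4 5 1 1 393 (.leaf 15) (.bis 0 4 1
  2 618 (.leaf 7) (.leaf 7))) (.bis 3 4 1 4 557 (.bis 0 4 1 2 618 (.leaf 7) (.leaf 3)) (.leaf
  3))) (.bis 1 4 1 4 602 (.bis 3 4 1 4 557 (.leaf 7) (.leaf 3)) (.leaf 3))) (.bis 2 4 1 4 579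
  (.bis 1 4 1 4 602 (.leaf 7) (.leaf 3)) (.leaf 3))))) (.bis 3 5 1 1 379 (.bis 5 7 4 1 456 (.bis
  4 7 4 1 458 (.leaf 3) (.bis 2 4 1 4 579 (.leaf 7) (.leaf 3))) (.bis 2 5 1 4 586 (.bis 1 5 1 4
  601 (.bis 5 6 4 1 514 (.bis 4 6 4 1 557 (.leaf 3) (.leaf 7)) (.bis 4 5 1 1 393 (.leaf 15)
  (.leaf 7))) (.bis 1 4 1 4 602 (.leaf 7) (.leaf 3))) (.bis 2 4 1 4 579 (.leaf 7) (.leaf 3))))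
  (.bis 4 7 4 1 458 (.leaf 7) (.leaf 7))))) (.bis 2 5 1 1 377 (.bis 5 8 8 1 378 (.bis 4 8 8 1 304
  (.bis 2 8 4 1 382 (.bis 0 8 4 1 383 (.bis 3 8 8 1 300 (.leaf 3) (.leaf 7)) (.leaf 7)) (.leaf
  7)) (.leaf 7)) (.bis 3 5 1 1 379 (.bis 5 7 4 1 456 (.bis 4 7 4 1 458 (.leaf 3) (.leaf 7)) (.bis
  5 6 4 1 586 (.bis 4 6 4 1 579 (.leaf 3) (.leaf 7)) (.bis 1 5 1 4 601 (.bis 4 5 1 1 393 (.leaf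
  15) (.leaf 7)) (.bis 1 4 1 4 602 (.leaf 7) (.leaf 3))))) (.leaf 7))) (.bis 4 8 8 1 304 (.bis 2
  8 8 1 296 (.leaf 13) (.leaf 7)) (.bis 2 7 4 1 453 (.leaf 7) (.leaf 7))))) (.bis 1 5 1 1 392
  (.bis 2 5 1 1 377 (.bis 5 8 8 1 378 (.bis 4 8 8 1 304 (.bis 2 8 4 1 382 (.leaf 58) (.leaf 7))
  (.leaf 7)) (.bis 3 5 1 1 379 (.bis 5 7 4 1 456 (.bis 4 7 4 1 458 (.leaf 7) (.leaf 7)) (.bis 5 6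
  4 1 601 (.leaf 7) (.bis 4 5 1 1 393 (.leaf 15) (.leaf 7)))) (.leaf 7))) (.bis 4 8 8 1 304 (.bis
  2 8 8 1 296 (.leaf 58) (.leaf 7)) (.bis 1 2 1 2 394 (.leaf 7) (.leaf 7)))) (.bis 0 1 1 2 395
  (.bis 4 8 8 1 304 (.bis 1 2 1 1 337 (.bis 2 8 8 1 296 (.leaf 31) (.leaf 7)) (.bis 3 8 8 1 300
  (.leaf 31) (.leaf 31))) (.bis 1 4 1 1 338 (.bis 2 5 2 1 394 (.leaf 7) (.bis 2 7 4 1 453 (.leaf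
  7) (.leaf 7))) (.bis 1 2 1 1 337 (.bis 2 5 2 1 394 (.leaf 7) (.leaf 7)) (.leaf 31)))) (.bis 4 8
  8 1 304 (.bis 2 8 8 1 296 (.leaf 58) (.bis 2 5 2 1 394 (.leaf 7) (.leaf 7))) (.bis 2 5 2 1 394
  (.leaf 7) (.leaf 7)))))) (.bis 1 6 2 1 600 (.bis 0 6 2 1 609 (.bis 2 6 2 1 568 (.bis 3 6 2 1
  484 (.bis 4 6 2 1 492 (.bis 6 8 4 1 588 (.bis 5 8 4 1 383 (.bis 0 8 2 1 613 (.bis 4 8 2 1 592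
  (.leaf 3) (.leaf 3)) (.leaf 3)) (.leaf 3)) (.bis 5 6 1 1 616 (.leaf 8) (.leaf 3))) (.bis 4 8 8
  1 304 (.bis 5 8 4 1 383 (.bis 0 8 2 1 613 (.leaf 3) (.leaf 3)) (.leaf 3)) (.bis 0 4 1 4 615
  (.bis 4 7 4 1 458 (.leaf 3) (.leaf 7)) (.leaf 3)))) (.bis 4 8 8 1 304 (.bis 0 3 1 4 614 (.bis 5
  8 4 1 383 (.leaf 13) (.leaf 7)) (.bis 5 8 4 1 383 (.bis 0 8 2 1 613 (.leaf 3) (.leaf 3)) (.leaf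
  3))) (.bis 0 4 1 4 615 (.leaf 7) (.bis 0 3 1 4 614 (.leaf 7) (.leaf 3))))) (.bis 4 8 8 1 304
  (.bis 2 8 8 1 296 (.bis 0 3 1 4 614 (.leaf 13) (.leaf 3)) (.bis 0 3 1 4 614 (.leaf 7) (.bis 2 7
  4 1 453 (.leaf 3) (.leaf 7)))) (.bis 0 4 1 4 615 (.bis 2 7 4 1 453 (.leaf 7) (.leaf 7)) (.bis 0
  3 1 4 614 (.bis 2 7 4 1 453 (.leaf 7) (.leaf 7)) (.bis 2 7 4 1 453 (.leaf 3) (.bis 1 2 1 4 619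
  (.leaf 7) (.leaf 3))))))) (.bis 0 4 1 1 280 (.bis 4 8 8 1 304 (.bis 2 8 8 1 296 (.leaf 25)
  (.leaf 7)) (.bis 4 6 4 1 615 (.bis 3 6 4 1 614 (.bis 2 7 4 1 453 (.leaf 7) (.leaf 7)) (.leaf
  7)) (.bis 2 7 4 1 453 (.leaf 7) (.leaf 7)))) (.bis 0 8 8 1 293 (.bis 2 8 8 1 296 (.leaf 25)
  (.leaf 7)) (.bis 0 7 4 1 454 (.leaf 7) (.bis 0 1 4 1 620 (.leaf 7) (.bis 0 3 1 1 213 (.leaf 7)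
  (.leaf 34))))))) (.bis 0 1 1 1 333 (.bis 1 5 2 1 395 (.bis 4 8 8 1 304 (.bis 2 8 8 1 296 (.leaf
  13) (.leaf 25)) (.leaf 40)) (.bis 4 8 8 1 304 (.bis 1 2 1 1 337 (.bis 2 8 8 1 296 (.leaf 13)
  (.leaf 25)) (.leaf 31)) (.bis 1 4 1 1 338 (.bis 2 7 4 1 453 (.leaf 40) (.leaf 40)) (.bis 1 2 1
  1 337 (.leaf 40) (.leaf 31))))) (.bis 0 4 1 1 280 (.bis 4 8 8 1 304 (.bis 2 8 8 1 296 (.leaf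
  13) (.leaf 25)) (.leaf 40)) (.bis 0 8 8 1 293 (.bis 2 8 8 1 296 (.leaf 13) (.leaf 25)) (.bis 0
  7 4 1 454 (.leaf 25) (.bis 0 6 4 1 620 (.leaf 25) (.leaf 67)))))))))

def lc42 : List Vr := [⟨[24,0,0,0,0,0,0,0,0], 6912, 0⟩, ⟨[0,28,0,0,0,0,0,0,0], 7056, 0⟩, ⟨[0,0,17,
  0,0,0,0,0,0], 6936, 0⟩, ⟨[0,0,0,13,0,0,0,0,0], 6760, 0⟩, ⟨[0,0,0,0,19,0,0,0,0], 7581, 0⟩, ⟨[0,0,
  0,0,0,30,0,0,0], 7200, 0⟩, ⟨[24,0,0,0,0,0,85,0,0], 38617, 0⟩, ⟨[0,0,0,0,0,0,85,42,0], 42841, 0⟩,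
   ⟨[0,112,0,0,0,0,85,0,155], 406901, 0⟩]

theorem lk42 : chkTr lowT (leafLow 2 lowB) lt42 lc42 = true := by decide +kernel

end Pool.Agent.Helper10.Fam.E7
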