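import Pool.Agent.Helper10.FamD.E7LowC0
import Pool.Agent.Helper10.FamD.E7LowC1
import Pool.Agent.Helper10.FamD.E7LowC2
import Pool.Agent.Helper10.FamD.E7LowC3
import Pool.Agent.Helper10.FamD.E7LowC4
import Pool.Agent.Helper10.FamD.E7LowC5
import Pool.Agent.Helper10.FamD.E7LowB

set_option autoImplicit false
set_option maxRecDepth 1000000

/-!
# Certificate data for `U ⊕ E7` (lower bound, certificate)
-/

namespace Pool.Agent.Helper10.Fam.E7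

open Pool.Agent.Helper10.Fam

def lS : ℕ → Tr ℕ
  | 0 => lt0
  | 1 => lt1
  | 2 => lt2
  | 3 => lt3
  | 4 => lt4
  | 5 => lt5
  | 6 => lt6
  | 7 => lt7
  | 8 => lt8
  | 9 => lt9
  | 10 => lt10
  | 11 => lt11
  | 12 => lt12
  | 13 => lt13
  | 14 => lt14
  | 15 => lt15
  | 16 => lt16
  | 17 => lt17
  | 18 => lt18
  | 19 => lt19
  | 20 => lt20
  | 21 => lt21
  | 22 => lt22
  | 23 => lt23
  | 24 => lt24
  | 25 => lt25
  | 26 => lt26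
  | 27 => lt27
  | 28 => lt28
  | 29 => lt29
  | 30 => lt30
  | 31 => lt31
  | 32 => lt32
  | 33 => lt33
  | 34 => lt34
  | 35 => lt35
  | 36 => lt36
  | 37 => lt37
  | 38 => lt38
  | 39 => lt39
  | 40 => lt40
  | 41 => lt41
  | 42 => lt42
  | _ => .leaf 0

def lC : ℕ → List Vr
  | 0 => lc0
  | 1 => lc1
  | 2 => lc2
  | 3 => lc3
  | 4 => lc4
  | 5 => lc5
  | 6 => lc6
  | 7 => lc7
  | 8 => lc8
  | 9 => lc9
  | 10 => lc10
  | 11 => lc11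
  | 12 => lc12
  | 13 => lc13
  | 14 => lc14
  | 15 => lc15
  | 16 => lc16
  | 17 => lc17
  | 18 => lc18
  | 19 => lc19
  | 20 => lc20
  | 21 => lc21
  | 22 => lc22
  | 23 => lc23
  | 24 => lc24
  | 25 => lc25
  | 26 => lc26
  | 27 => lc27
  | 28 => lc28
  | 29 => lc29
  | 30 => lc30
  | 31 => lc31
  | 32 => lc32
  | 33 => lc33
  | 34 => lc34
  | 35 => lc35
  | 36 => lc36
  | 37 => lc37
  | 38 => lc38
  | 39 => lc39
  | 40 => lc40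
  | 41 => lc41
  | 42 => lc42
  | _ => []

def lowTT : TT := (.bis 6 8 1 155 10 (.bis 5 8 1 94 11 (.bis 1 8 1 84 12 (.bis 4 8 1 85 13 (.bis
  3 8 1 75 14 (.bis 2 8 1 72 15 (.ch 0) (.bis 2 6 4 1 110 (.ch 1) (.ch 2))) (.bis 3 6 4 1 159
  (.bis 2 6 4 1 110 (.ch 3) (.ch 4)) (.bis 3 7 1 1 187 (.ch 5) (.ch 6)))) (.bis 4 6 2 1 214 (.bis
  3 6 4 1 159 (.bis 2 6 4 1 110 (.ch 7) (.ch 8)) (.bis 3 7 1 1 187 (.ch 9) (.ch 10))) (.bis 4 7 1
  1 247 (.bis 3 7 1 1 187 (.ch 11) (.ch 12)) (.ch 13)))) (.bis 1 6 4 1 284 (.bis 4 6 2 1 214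
  (.bis 3 6 4 1 159 (.bis 2 6 4 1 110 (.ch 14) (.ch 15)) (.ch 16)) (.bis 4 7 1 1 247 (.ch 17)
  (.ch 18))) (.bis 1 7 1 1 306 (.ch 19) (.ch 20)))) (.bis 1 6 4 1 284 (.bis 5 7 1 1 340 (.bis 4 6
  2 1 214 (.bis 3 6 4 1 159 (.ch 21) (.ch 22)) (.ch 23)) (.bis 5 6 4 1 359 (.ch 24) (.ch 25)))
  (.bis 5 7 1 1 340 (.ch 26) (.ch 27)))) (.bis 6 7 1 1 397 (.bis 1 8 4 1 284 (.bis 5 7 1 1 340
  (.bis 4 8 2 1 214 (.ch 28) (.ch 29)) (.ch 30)) (.ch 31)) (.bis 0 6 1 1 460 (.bis 1 6 1 1 461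
  (.bis 2 6 1 1 462 (.bis 6 8 4 1 463 (.ch 32) (.ch 33)) (.bis 5 8 4 1 359 (.ch 34) (.bis 1 2 1 2
  567 (.ch 35) (.ch 36)))) (.bis 1 8 4 1 284 (.bis 5 8 4 1 359 (.ch 37) (.ch 38)) (.ch 39)))
  (.bis 1 8 4 1 284 (.bis 5 8 4 1 359 (.ch 40) (.ch 41)) (.ch 42)))))

/-- certificate -/
def low : LowCert := ⟨5400000, lowT, lowB, lowL, lowTT.plug lS⟩

theorem lk : ∀ k, k < 43 → chkTr lowT (leafLow 2 lowB) (lS k) (lC k) = true
  | 0, _ => lk0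
  | 1, _ => lk1
  | 2, _ => lk2
  | 3, _ => lk3
  | 4, _ => lk4
  | 5, _ => lk5
  | 6, _ => lk6
  | 7, _ => lk7
  | 8, _ => lk8
  | 9, _ => lk9
  | 10, _ => lk10
  | 11, _ => lk11
  | 12, _ => lk12
  | 13, _ => lk13
  | 14, _ => lk14
  | 15, _ => lk15
  | 16, _ => lk16
  | 17, _ => lk17
  | 18, _ => lk18
  | 19, _ => lk19
  | 20, _ => lk20
  | 21, _ => lk21
  | 22, _ => lk22
  | 23, _ => lk23
  | 24, _ => lk24
  | 25, _ => lk25
  | 26, _ => lk26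
  | 27, _ => lk27
  | 28, _ => lk28
  | 29, _ => lk29
  | 30, _ => lk30
  | 31, _ => lk31
  | 32, _ => lk32
  | 33, _ => lk33
  | 34, _ => lk34
  | 35, _ => lk35
  | 36, _ => lk36
  | 37, _ => lk37
  | 38, _ => lk38
  | 39, _ => lk39
  | 40, _ => lk40
  | 41, _ => lk41
  | 42, _ => lk42
  | k + 43, h => absurd h (by omega)

theorem ltop : chkTT lowT 43 lC lowTT lowL = true := by decide +kernel

theorem low3_ok : lowTree dat low = true := plug_ok lk lowTT lowL ltop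

theorem low2_ok : lowBalls dat low = true := balls_ok

theorem low1_ok : lowTab dat low = true := by decide +kernel

end Pool.Agent.Helper10.Fam.E7
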