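import Pool.Agent.Helper10.Fam.Fast

set_option autoImplicit false
set_option maxRecDepth 1000000

/-!
# Certificate data for `U ⊕ A3` (lattice data and cusps)
-/

namespace Pool.Agent.Helper10.Fam.A3

open Pool.Agent.Helper10.Fam

/-- lattice data -/
def dat : Dat := ⟨3, [[0,1,0,1,0], [1,0,1,0,0], [0,1,0,1,0], [1,0,1,0,1], [0,
  0,0,1,0]], [[5,6,7,8,4], [6,4,6,8,4], [7,6,5,8,4], [8,8,8,8,4], [4,4,4,4,0]], 4, [1,1,1,1,0],
  1550, [[1,1,1,1,0], [1,1,1,1,1], [1,1,1,2,1], [2,1,1,2,1], [2,2,1,2,1], [1,1,2,2,1], [2,1,2,2,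
  1], [1,2,2,2,1], [3,2,2,2,1], [2,3,2,2,1], [3,3,2,2,1], [2,2,3,2,1], [2,3,3,2,1], [3,3,3,2,1],
  [2,1,2,3,1], [2,1,2,3,2]]⟩

/-- exclusion vectors -/
def ex : List (List ℕ) := [[200000,200000,200000,249999,100000]]

/-- table of cusps -/
def cT : BT (List ℕ) := (.node [1,1,1,1,0] (.node [1,1,1,1,1] (.node [2,1,1,
  2,1] (.node [1,2,2,2,1] (.node [2,1,2,3,2] .nil .nil) .nil) (.node [2,2,3,2,1] .nil .nil))
  (.node [1,1,2,2,1] (.node [2,3,2,2,1] .nil .nil) (.node [3,3,3,2,1] .nil .nil))) (.node [1,1,1,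
  2,1] (.node [2,2,1,2,1] (.node [3,2,2,2,1] .nil .nil) (.node [2,3,3,2,1] .nil .nil)) (.node [2,
  1,2,2,1] (.node [3,3,2,2,1] .nil .nil) (.node [2,1,2,3,1] .nil .nil))))

/-- indices of reflected cusps -/
def cK : List (List ℕ) := [[0,0,0,0,2], [0,0,0,3,1], [4,0,6,2,
  0], [3,5,7,0,0], [0,4,12,0,0], [7,8,3,0,0], [6,10,4,15,0], [9,6,0,0,0], [8,11,0,0,0], [11,7,13,
  0,0], [10,9,14,0,0], [0,13,5,0,0], [14,12,10,0,0], [13,0,11,0,0], [0,0,0,7,16], [0,0,0,0,15]]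

theorem cusps_fast : fastCusps dat ex cT 16 cK = true := by decide +kernel

end Pool.Agent.Helper10.Fam.A3
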