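import Pool.Agent.Helper10.FamD.A3LowC0
import Pool.Agent.Helper10.FamD.A3LowB

set_option autoImplicit false
set_option maxRecDepth 1000000

/-!
# Certificate data for `U ⊕ A3` (lower bound, certificate)
-/

namespace Pool.Agent.Helper10.Fam.A3

open Pool.Agent.Helper10.Fam

def lS : ℕ → Tr ℕ
  | 0 => lt0
  | _ => .leaf 0

def lC : ℕ → List Vr
  | 0 => lc0
  | _ => []

def lowTT : TT := (.ch 0)

/-- certificate -/
def low : LowCert := ⟨2360000, lowT, lowB, lowL, lowTT.plug lS⟩

theorem lk : ∀ k, k < 1 → chkTr lowT (leafLow 4 lowB) (lS k) (lC k) = true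
  | 0, _ => lk0
  | k + 1, h => absurd h (by omega)

theorem ltop : chkTT lowT 1 lC lowTT lowL = true := by decide +kernel

theorem low3_ok : lowTree dat low = true := plug_ok lk lowTT lowL ltop

theorem low2_ok : lowBalls dat low = true := balls_ok

theorem low1_ok : lowTab dat low = true := by decide +kernel

end Pool.Agent.Helper10.Fam.A3
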