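import Pool.Agent.Helper10.FamD.A3LowT

set_option autoImplicit false
set_option maxRecDepth 1000000

/-!
# Certificate data for `U ⊕ A3` (lower bound, subtrees)
-/

namespace Pool.Agent.Helper10.Fam.A3

open Pool.Agent.Helper10.Fam

def lt0 : Tr ℕ := (.bis 1 4 1 51 6 (.bis 0 4 1 39 7 (.bis 2 4 1 39 8 (.bis 3 4 1 15 9 (.leaf 1)
  (.bis 1 3 1 2 10 (.bis 0 2 1 1 11 (.bis 2 3 1 2 12 (.leaf 8) (.leaf 8)) (.bis 0 3 1 2 13 (.leaf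
  8) (.leaf 24))) (.leaf 24))) (.bis 0 2 1 2 14 (.bis 1 2 1 2 15 (.bis 2 3 1 1 16 (.bis 3 4 2 1
  12 (.leaf 29) (.bis 1 3 1 4 17 (.leaf 8) (.leaf 4))) (.bis 2 4 2 1 18 (.leaf 16) (.bis 2 3 2 1
  19 (.leaf 5) (.leaf 16)))) (.bis 1 3 1 2 10 (.bis 3 4 2 1 12 (.leaf 20) (.bis 2 3 1 4 17 (.bis
  0 3 1 4 20 (.leaf 8) (.leaf 3)) (.leaf 4))) (.leaf 20))) (.bis 1 3 1 2 10 (.bis 0 4 1 1 11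
  (.bis 3 4 2 1 12 (.leaf 8) (.bis 2 3 1 4 20 (.leaf 8) (.leaf 3))) (.bis 0 3 1 2 13 (.bis 2 3 1
  4 20 (.leaf 8) (.leaf 3)) (.bis 0 2 2 1 21 (.leaf 3) (.leaf 3)))) (.bis 0 4 1 1 11 (.bis 1 4 1
  1 22 (.bis 3 4 1 2 23 (.bis 1 2 1 1 24 (.leaf 8) (.leaf 8)) (.bis 2 3 1 1 25 (.leaf 4) (.leaf
  4))) (.bis 1 2 2 1 26 (.bis 2 3 1 1 25 (.leaf 4) (.leaf 4)) (.leaf 9))) (.bis 0 1 1 1 27 (.bis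
  1 2 2 1 26 (.bis 0 2 1 1 28 (.leaf 3) (.leaf 3)) (.leaf 9)) (.bis 0 2 2 1 21 (.bis 1 2 1 1 28
  (.leaf 3) (.leaf 3)) (.leaf 3))))))) (.bis 0 2 1 1 29 (.bis 2 4 2 1 14 (.bis 1 3 1 2 10 (.bis 3
  4 2 1 13 (.bis 2 4 1 2 21 (.bis 0 4 1 2 30 (.leaf 3) (.bis 0 1 2 1 31 (.leaf 3) (.bis 0 3 2 1
  32 (.leaf 3) (.leaf 3)))) (.bis 0 1 2 1 31 (.leaf 3) (.bis 0 3 2 1 32 (.leaf 3) (.leaf 3))))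
  (.bis 0 3 1 2 33 (.bis 2 3 1 4 20 (.leaf 8) (.leaf 3)) (.bis 0 1 2 1 31 (.leaf 3) (.bis 0 4 2 1
  32 (.leaf 3) (.leaf 3))))) (.bis 0 1 1 1 34 (.bis 1 4 1 1 27 (.bis 2 4 1 2 21 (.leaf 3) (.leaf
  3)) (.bis 1 2 2 1 26 (.leaf 3) (.leaf 9))) (.bis 2 4 1 2 21 (.bis 0 4 1 2 30 (.leaf 3) (.bis 0
  3 2 1 31 (.leaf 3) (.leaf 3))) (.bis 0 3 2 1 31 (.leaf 3) (.leaf 3))))) (.bis 1 2 1 2 15 (.bis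
  2 3 1 1 16 (.bis 1 3 1 4 17 (.bis 0 3 1 2 33 (.leaf 8) (.bis 0 1 4 1 35 (.leaf 4) (.leaf 5)))
  (.bis 0 3 4 1 35 (.leaf 4) (.leaf 5))) (.bis 0 2 1 2 36 (.bis 2 3 2 1 19 (.leaf 5) (.leaf 16))
  (.leaf 5))) (.bis 1 3 1 2 10 (.bis 2 3 1 4 17 (.bis 0 3 1 2 33 (.bis 3 4 4 1 20 (.leaf 3)
  (.leaf 8)) (.bis 0 1 2 1 31 (.leaf 3) (.leaf 3))) (.bis 0 1 2 1 31 (.leaf 4) (.leaf 5))) (.bis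
  0 1 1 1 34 (.leaf 20) (.bis 0 3 2 1 31 (.leaf 4) (.leaf 5)))))) (.bis 0 1 2 1 37 (.bis 1 3 1 2
  10 (.bis 3 4 2 1 13 (.bis 2 4 1 2 30 (.leaf 3) (.bis 1 2 1 2 31 (.bis 2 3 2 1 32 (.leaf 3)
  (.leaf 3)) (.leaf 3))) (.bis 0 3 1 4 38 (.bis 2 3 1 2 33 (.leaf 8) (.bis 1 2 1 2 31 (.bis 2 4 2
  1 32 (.leaf 3) (.leaf 3)) (.leaf 3))) (.bis 1 2 1 2 31 (.bis 2 4 2 1 32 (.leaf 3) (.leaf 3))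
  (.leaf 3)))) (.bis 1 2 1 1 34 (.bis 2 4 1 2 30 (.leaf 3) (.bis 2 3 2 1 31 (.leaf 3) (.leaf 3)))
  (.leaf 30))) (.bis 0 3 1 1 39 (.bis 3 4 2 1 13 (.bis 2 4 1 2 30 (.leaf 3) (.bis 2 3 2 1 32
  (.leaf 3) (.leaf 3))) (.bis 1 3 1 4 38 (.bis 2 3 1 2 33 (.leaf 25) (.bis 2 4 2 1 32 (.leaf 3)
  (.bis 1 2 1 4 40 (.leaf 3) (.leaf 3)))) (.bis 2 4 2 1 32 (.leaf 3) (.bis 2 3 4 1 40 (.leaf 3)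
  (.leaf 3))))) (.bis 2 4 1 2 30 (.bis 0 4 2 1 41 (.leaf 11) (.bis 0 3 2 1 42 (.leaf 11) (.leaf
  19))) (.bis 0 2 2 1 43 (.leaf 11) (.bis 0 3 2 1 42 (.leaf 11) (.leaf 19)))))))) (.bis 1 3 1 1
  44 (.bis 0 2 1 1 29 (.bis 2 4 2 1 15 (.bis 3 4 2 1 10 (.bis 0 4 1 1 34 (.bis 2 4 1 2 45 (.bis 1
  4 1 1 46 (.leaf 9) (.bis 2 3 1 2 47 (.bis 0 3 1 1 48 (.bis 1 3 2 1 49 (.leaf 4) (.leaf 2))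
  (.leaf 2)) (.bis 1 2 4 1 50 (.leaf 2) (.leaf 2)))) (.bis 2 3 1 1 51 (.bis 3 4 2 1 47 (.bis 1 4
  4 1 50 (.leaf 2) (.leaf 2)) (.bis 0 3 1 1 48 (.bis 1 3 2 1 49 (.leaf 4) (.leaf 2)) (.bis 0 1 1
  2 52 (.leaf 2) (.leaf 2)))) (.bis 1 2 2 1 53 (.leaf 4) (.bis 1 4 4 1 50 (.leaf 2) (.leaf 2)))))
  (.bis 0 3 2 1 31 (.bis 2 3 1 1 51 (.leaf 4) (.bis 1 2 2 1 53 (.leaf 4) (.leaf 2))) (.bis 0 1 1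
  1 54 (.leaf 4) (.leaf 5)))) (.bis 2 3 1 4 17 (.bis 0 3 1 2 33 (.bis 1 3 1 2 55 (.leaf 8) (.leaf
  4)) (.bis 0 4 2 1 31 (.leaf 4) (.bis 0 1 1 1 54 (.leaf 4) (.leaf 3)))) (.bis 0 4 2 1 31 (.leaf
  4) (.bis 0 1 1 1 54 (.leaf 4) (.leaf 5))))) (.bis 2 3 1 1 16 (.bis 3 4 4 1 17 (.bis 0 1 1 1 54
  (.leaf 4) (.bis 0 3 4 1 35 (.leaf 4) (.leaf 5))) (.bis 0 3 1 2 33 (.bis 1 3 1 2 55 (.leaf 8)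
  (.leaf 4)) (.bis 0 1 1 1 54 (.leaf 4) (.bis 0 4 4 1 35 (.leaf 4) (.leaf 5))))) (.bis 1 2 1 2 56
  (.bis 0 2 1 2 36 (.bis 2 3 2 1 19 (.leaf 5) (.leaf 16)) (.leaf 5)) (.bis 0 1 1 1 54 (.leaf 4)
  (.leaf 5))))) (.bis 0 4 2 1 37 (.bis 3 4 2 1 10 (.bis 2 4 1 1 34 (.bis 0 4 1 2 57 (.bis 1 4 1 1
  46 (.leaf 9) (.bis 0 3 1 2 58 (.bis 2 3 1 1 48 (.bis 1 3 2 1 49 (.leaf 4) (.leaf 2)) (.leaf 2))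
  (.bis 0 1 1 4 59 (.leaf 2) (.leaf 2)))) (.bis 0 3 1 1 60 (.bis 3 4 2 1 58 (.bis 1 4 4 1 59
  (.leaf 2) (.leaf 2)) (.bis 2 3 1 1 48 (.bis 1 3 2 1 49 (.leaf 4) (.leaf 2)) (.bis 1 2 2 1 52
  (.leaf 2) (.leaf 2)))) (.bis 0 1 1 2 61 (.bis 1 4 4 1 59 (.leaf 2) (.leaf 2)) (.leaf 9))))
  (.bis 2 3 2 1 31 (.bis 0 3 1 1 60 (.leaf 4) (.bis 0 1 1 2 61 (.leaf 2) (.leaf 3))) (.bis 1 2 1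
  1 54 (.leaf 3) (.leaf 12)))) (.bis 0 3 1 4 38 (.bis 2 3 1 2 33 (.bis 1 3 1 2 55 (.leaf 8)
  (.leaf 4)) (.bis 2 4 2 1 31 (.leaf 4) (.bis 1 2 1 1 54 (.leaf 3) (.leaf 4)))) (.bis 2 4 2 1 31
  (.leaf 12) (.bis 1 2 1 1 54 (.leaf 3) (.leaf 12))))) (.bis 0 3 1 1 39 (.bis 3 4 4 1 38 (.bis 1
  2 1 1 54 (.bis 2 3 4 1 40 (.leaf 3) (.leaf 3)) (.leaf 12)) (.bis 2 3 1 2 33 (.bis 1 3 1 2 55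
  (.leaf 25) (.leaf 12)) (.bis 1 2 1 1 54 (.bis 2 4 4 1 40 (.leaf 3) (.leaf 3)) (.leaf 12))))
  (.bis 0 1 2 1 62 (.bis 1 2 1 1 54 (.leaf 11) (.leaf 12)) (.bis 0 2 2 1 43 (.leaf 11) (.bis 0 3
  2 1 42 (.leaf 11) (.leaf 19))))))) (.bis 0 2 1 1 29 (.bis 1 2 1 1 63 (.bis 2 4 2 1 15 (.bis 0 4
  1 1 34 (.bis 1 4 1 1 64 (.bis 2 4 1 2 45 (.bis 3 4 1 1 46 (.leaf 9) (.bis 2 3 1 4 50 (.leaf 2)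
  (.leaf 2))) (.bis 2 3 1 2 53 (.leaf 2) (.leaf 20))) (.bis 2 3 1 2 53 (.bis 1 3 1 1 65 (.leaf 2)
  (.bis 0 1 1 2 66 (.leaf 7) (.leaf 2))) (.bis 0 1 1 2 66 (.bis 1 2 2 1 67 (.leaf 7) (.leaf 7))
  (.leaf 7)))) (.bis 0 3 1 1 54 (.bis 2 3 1 2 53 (.bis 1 3 1 1 65 (.leaf 2) (.bis 1 4 2 1 66
  (.leaf 2) (.bis 0 1 1 2 68 (.leaf 7) (.leaf 2)))) (.bis 1 4 2 1 66 (.leaf 5) (.bis 0 1 1 2 68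
  (.leaf 7) (.leaf 5)))) (.bis 0 1 1 1 69 (.bis 1 4 2 1 66 (.leaf 5) (.leaf 7)) (.leaf 5))))
  (.bis 2 3 2 1 56 (.bis 0 3 1 1 54 (.bis 3 4 2 1 53 (.bis 0 1 1 2 68 (.leaf 7) (.leaf 5)) (.bis
  1 3 1 1 65 (.leaf 31) (.bis 0 1 1 2 68 (.leaf 7) (.leaf 7)))) (.bis 0 1 1 1 69 (.leaf 7) (.leaf
  5))) (.bis 0 2 1 2 36 (.bis 1 2 1 2 70 (.leaf 16) (.leaf 32)) (.bis 0 1 1 1 69 (.bis 1 2 2 1 71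
  (.leaf 5) (.leaf 7)) (.leaf 5))))) (.bis 0 1 1 2 72 (.bis 1 4 2 1 73 (.bis 2 4 1 1 64 (.bis 0 4
  1 2 74 (.bis 3 4 1 1 46 (.bis 1 4 1 2 75 (.leaf 9) (.bis 1 3 1 1 76 (.leaf 9) (.leaf 14)))
  (.bis 1 3 1 2 77 (.leaf 2) (.bis 1 4 1 1 76 (.leaf 2) (.leaf 14)))) (.bis 1 3 1 2 77 (.bis 2 3
  1 2 78 (.bis 0 3 1 2 79 (.leaf 2) (.leaf 2)) (.bis 0 1 2 1 80 (.leaf 2) (.leaf 2))) (.bis 0 1 1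
  1 81 (.leaf 14) (.leaf 2)))) (.bis 1 2 1 2 82 (.bis 2 3 1 1 65 (.leaf 10) (.leaf 7)) (.bis 1 3
  1 2 77 (.bis 2 3 1 4 83 (.bis 3 4 2 1 78 (.bis 0 1 2 1 80 (.leaf 2) (.leaf 2)) (.bis 0 3 1 2 79
  (.leaf 2) (.leaf 2))) (.leaf 10)) (.bis 0 1 1 1 81 (.leaf 14) (.leaf 10))))) (.bis 1 3 2 1 84
  (.bis 2 4 2 1 82 (.bis 3 4 2 1 77 (.bis 0 4 1 1 81 (.leaf 15) (.leaf 10)) (.leaf 10)) (.bis 2 3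
  1 1 65 (.leaf 10) (.bis 1 2 1 2 85 (.leaf 7) (.leaf 10)))) (.bis 1 2 2 1 86 (.bis 2 4 2 1 82
  (.bis 0 4 1 1 81 (.bis 1 4 1 1 87 (.leaf 15) (.leaf 17)) (.leaf 17)) (.bis 2 3 2 1 85 (.leaf
  17) (.leaf 33))) (.bis 0 1 1 4 88 (.bis 1 3 4 1 89 (.bis 2 4 1 1 87 (.leaf 26) (.leaf 22))
  (.bis 1 4 4 1 90 (.bis 2 4 1 1 87 (.leaf 27) (.bis 1 2 1 2 91 (.leaf 22) (.leaf 13))) (.bis 1 2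
  4 1 92 (.bis 2 4 2 1 91 (.leaf 13) (.leaf 22)) (.bis 0 1 1 8 93 (.bis 1 3 8 1 94 (.leaf 13)
  (.leaf 28)) (.leaf 13))))) (.bis 0 4 1 1 81 (.bis 2 4 1 1 87 (.leaf 15) (.leaf 17)) (.leaf
  17)))))) (.bis 0 4 1 1 34 (.bis 2 4 1 1 64 (.bis 1 4 1 2 74 (.bis 3 4 1 1 46 (.leaf 9) (.leaf
  2)) (.bis 0 3 1 2 52 (.bis 2 3 1 2 78 (.bis 1 3 1 2 79 (.leaf 2) (.leaf 2)) (.bis 1 2 1 1 95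
  (.leaf 2) (.leaf 2))) (.bis 0 1 1 1 96 (.leaf 2) (.leaf 2)))) (.bis 2 3 1 1 65 (.bis 0 3 1 2 52
  (.bis 3 4 2 1 78 (.bis 1 4 1 1 95 (.leaf 2) (.leaf 2)) (.bis 1 3 1 2 79 (.leaf 2) (.leaf 2)))
  (.bis 0 2 1 1 97 (.leaf 2) (.bis 0 1 1 1 96 (.leaf 2) (.leaf 2)))) (.bis 0 2 1 2 66 (.leaf 7)
  (.leaf 2)))) (.bis 0 3 1 1 54 (.bis 2 3 1 1 65 (.leaf 2) (.bis 2 4 2 1 66 (.leaf 2) (.leaf 7)))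
  (.bis 0 2 1 1 69 (.bis 2 4 2 1 66 (.leaf 7) (.leaf 7)) (.bis 0 1 2 1 98 (.leaf 21) (.leaf
  21))))))) (.bis 0 1 1 1 99 (.bis 1 2 2 1 72 (.bis 2 4 1 1 34 (.bis 0 4 1 1 100 (.bis 1 4 1 2 74
  (.bis 3 4 1 1 46 (.leaf 9) (.leaf 2)) (.bis 2 3 1 2 52 (.bis 0 3 1 2 101 (.bis 1 3 1 2 79
  (.leaf 2) (.leaf 2)) (.bis 0 1 1 1 102 (.leaf 2) (.leaf 2))) (.bis 1 2 1 1 96 (.leaf 2) (.leaf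
  2)))) (.bis 0 3 1 1 103 (.bis 2 3 1 2 52 (.bis 3 4 2 1 101 (.bis 1 4 1 1 102 (.leaf 2) (.leaf
  2)) (.bis 1 3 1 2 79 (.leaf 2) (.leaf 2))) (.bis 0 2 1 1 104 (.bis 1 2 1 1 96 (.leaf 2) (.leaf
  2)) (.leaf 2))) (.bis 0 2 2 1 105 (.leaf 2) (.leaf 6)))) (.bis 2 3 1 1 54 (.bis 0 3 1 1 103
  (.leaf 2) (.bis 0 4 2 1 105 (.leaf 2) (.leaf 6))) (.bis 0 2 1 1 106 (.bis 1 2 1 2 98 (.leaf 21)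
  (.leaf 21)) (.bis 0 4 2 1 105 (.leaf 6) (.leaf 6))))) (.bis 1 4 2 1 73 (.bis 0 4 1 1 100 (.bis
  2 4 1 2 74 (.bis 3 4 1 1 46 (.bis 1 4 1 2 75 (.leaf 9) (.bis 1 3 1 1 76 (.leaf 9) (.leaf 14)))
  (.bis 1 3 1 2 77 (.leaf 2) (.bis 1 4 1 1 76 (.leaf 2) (.leaf 14)))) (.bis 1 3 1 2 77 (.bis 0 3
  1 2 101 (.bis 2 3 1 2 79 (.leaf 2) (.leaf 2)) (.bis 1 2 1 2 80 (.leaf 2) (.leaf 2))) (.bis 1 2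
  1 1 81 (.leaf 2) (.leaf 14)))) (.bis 0 1 2 1 107 (.bis 1 3 1 2 77 (.bis 0 3 1 4 108 (.bis 3 4 2
  1 101 (.bis 1 2 1 2 80 (.leaf 2) (.leaf 2)) (.bis 2 3 1 2 79 (.leaf 2) (.leaf 2))) (.leaf 10))
  (.bis 1 2 1 1 81 (.leaf 10) (.leaf 34))) (.bis 0 3 1 1 103 (.leaf 10) (.leaf 6)))) (.bis 1 3 2
  1 84 (.bis 0 4 2 1 107 (.bis 3 4 2 1 77 (.bis 2 4 1 1 81 (.leaf 15) (.leaf 10)) (.leaf 10))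
  (.bis 0 3 1 1 103 (.leaf 10) (.bis 0 1 2 1 109 (.leaf 10) (.leaf 6)))) (.bis 0 1 1 2 110 (.bis
  1 2 4 1 88 (.bis 2 4 1 1 81 (.bis 0 4 1 1 111 (.leaf 15) (.leaf 18)) (.leaf 18)) (.bis 1 3 4 1
  89 (.bis 0 4 1 1 111 (.leaf 26) (.leaf 23)) (.bis 1 4 4 1 90 (.bis 0 4 1 1 111 (.leaf 27) (.bis
  0 1 2 1 112 (.leaf 13) (.leaf 23))) (.bis 0 1 1 4 113 (.bis 1 2 8 1 93 (.leaf 13) (.bis 1 3 8 1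
  94 (.leaf 13) (.leaf 28))) (.bis 0 4 2 1 112 (.leaf 13) (.leaf 23)))))) (.bis 0 4 2 1 107 (.bis
  2 4 1 1 81 (.bis 1 4 1 1 111 (.leaf 15) (.leaf 18)) (.leaf 18)) (.bis 0 3 2 1 109 (.leaf 18)
  (.leaf 35))))))) (.bis 0 4 2 1 37 (.bis 2 4 1 1 34 (.bis 1 4 1 1 100 (.bis 0 4 1 2 57 (.bis 3 4
  1 1 46 (.leaf 9) (.bis 0 3 1 4 59 (.leaf 2) (.leaf 2))) (.bis 0 3 1 2 61 (.leaf 2) (.leaf 9)))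
  (.bis 0 3 1 2 61 (.bis 1 3 1 1 103 (.leaf 2) (.bis 1 2 2 1 105 (.leaf 2) (.leaf 6))) (.bis 1 2
  2 1 105 (.leaf 6) (.bis 0 1 1 2 114 (.leaf 6) (.leaf 6))))) (.bis 2 3 1 1 54 (.bis 0 3 1 2 61
  (.bis 1 3 1 1 103 (.leaf 2) (.bis 1 4 2 1 105 (.leaf 2) (.bis 1 2 2 1 115 (.leaf 2) (.leaf
  6)))) (.bis 1 4 2 1 105 (.leaf 6) (.bis 1 2 2 1 115 (.leaf 6) (.leaf 6)))) (.bis 1 2 1 1 106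
  (.leaf 11) (.bis 1 4 2 1 105 (.leaf 6) (.leaf 6))))) (.bis 0 3 2 1 62 (.bis 2 3 1 1 54 (.bis 3
  4 2 1 61 (.bis 1 2 2 1 115 (.leaf 6) (.leaf 6)) (.bis 1 3 1 1 103 (.leaf 12) (.bis 1 2 2 1 115
  (.leaf 6) (.leaf 6)))) (.bis 1 2 1 1 106 (.leaf 11) (.leaf 6))) (.bis 0 2 2 1 43 (.bis 1 2 1 1
  106 (.leaf 11) (.bis 0 1 1 2 116 (.leaf 6) (.leaf 11))) (.bis 0 1 2 1 117 (.leaf 36) (.leaf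
  19)))))))))

def lc0 : List Vr := [⟨[54,0,0,0,0], 14580, 0⟩, ⟨[0,60,0,0,0], 14400, 0⟩, ⟨[0,0,54,0,0], 14580,
  0⟩, ⟨[0,0,0,42,0], 14112, 0⟩, ⟨[0,0,0,0,1], 0, 0⟩]

theorem lk0 : chkTr lowT (leafLow 4 lowB) lt0 lc0 = true := by decide +kernel

end Pool.Agent.Helper10.Fam.A3
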