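import Pool.Agent.Helper10.FamD.A3Dat
import Pool.Agent.Helper10.Fam.Plug

set_option autoImplicit false
set_option maxRecDepth 1000000

/-!
# Certificate data for `U ⊕ A3` (upper bound, tables)
-/

namespace Pool.Agent.Helper10.Fam.A3

open Pool.Agent.Helper10.Fam

def uV0 : BT Vr := (.node ⟨[53666,0,0,0,0], 14400197780, 62576⟩ (.node ⟨[0,60000,0,0,0],
  14400000000, 60425⟩ (.node ⟨[0,0,0,42426,0], 14399723808, 64891⟩ (.node ⟨[0,0,53666,0,225359],
  111153126532, 214706⟩ (.node ⟨[268330,0,107332,0,225359], 1498081774724, 657317⟩ (.node ⟨[53666,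
  180000,0,0,0], 259918757780, 259124⟩ .nil .nil) .nil) (.node ⟨[0,60000,107332,42426,0],
  277267193840, 276262⟩ .nil .nil)) (.node ⟨[0,0,160998,0,225359], 419860566276, 365232⟩ (.node
  ⟨[0,300000,0,0,259457], 982696800000, 524728⟩ .nil .nil) (.node ⟨[0,780000,0,0,259457],
  4052611680000, 1027767⟩ .nil .nil))) (.node ⟨[0,60000,0,0,259457], 138939360000, 238566⟩ (.node
  ⟨[53666,0,107332,0,225359], 442900882724, 375207⟩ (.node ⟨[214664,60000,429328,0,259457],
  4381593002240, 1109386⟩ .nil .nil) (.node ⟨[0,60000,53666,0,0], 67439717780, 134310⟩ .nil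
  .nil)) (.node ⟨[214664,60000,0,0,259457], 969469224064, 537863⟩ (.node ⟨[429328,300000,0,0,
  259457], 4341027497088, 1095749⟩ .nil .nil) (.node ⟨[0,180000,53666,0,0], 259918757780, 259124⟩
  .nil .nil)))) (.node ⟨[0,0,53666,0,0], 14400197780, 62576⟩ (.node ⟨[0,0,0,0,1], 0, 0⟩ (.node
  ⟨[0,0,0,42426,162249], 69468332400, 170385⟩ (.node ⟨[53666,0,0,42426,0], 65229261044, 135534⟩
  .nil .nil) (.node ⟨[107332,60000,0,42426,0], 277267193840, 276262⟩ .nil .nil)) (.node ⟨[0,0,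
  53666,42426,0], 65229261044, 135534⟩ (.node ⟨[0,300000,429328,0,259457], 4341027497088,
  1095749⟩ .nil .nil) (.node ⟨[0,180000,0,42426,0], 266186603808, 262752⟩ .nil .nil))) (.node
  ⟨[53666,0,0,0,225359], 111153126532, 214706⟩ (.node ⟨[0,60000,214664,0,259457], 969469224064,
  537863⟩ (.node ⟨[53666,0,53666,0,0], 69120949344, 138065⟩ .nil .nil) (.node ⟨[53666,120000,
  53666,0,0], 281279029344, 273354⟩ .nil .nil)) (.node ⟨[160998,0,0,0,225359], 419860566276,
  365232⟩ (.node ⟨[0,60000,0,42426,0], 69528683808, 137877⟩ .nil .nil) (.node ⟨[53666,60000,0,0,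
  0], 67439717780, 134310⟩ .nil .nil)))))

/-- vertices -/
def upT : BT Vr := uV0

/-- initial cone -/
def upL : List Vr := [⟨[53666,0,0,0,0], 14400197780, 62576⟩, ⟨[0,60000,0,0,0],
   14400000000, 60425⟩, ⟨[0,0,53666,0,0], 14400197780, 62576⟩, ⟨[0,0,0,42426,0], 14399723808,
  64891⟩, ⟨[0,0,0,0,1], 0, 0⟩]

end Pool.Agent.Helper10.Fam.A3
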