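import Pool.Agent.Helper10.Fam.Fast

set_option autoImplicit false
set_option maxRecDepth 1000000

/-!
# Certificate data for `U ⊕ A4` (lattice data and cusps)
-/

namespace Pool.Agent.Helper10.Fam.A4

open Pool.Agent.Helper10.Fam

/-- lattice data -/
def dat : Dat := ⟨4, [[0,1,0,0,1,0], [1,0,1,0,0,0], [0,1,0,1,0,0], [0,0,1,0,1,
  0], [1,0,0,1,0,1], [0,0,0,0,1,0]], [[6,7,8,9,10,5], [7,4,6,8,10,5], [8,6,4,7,10,5], [9,8,7,6,10,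
  5], [10,10,10,10,10,5], [5,5,5,5,5,0]], 5, [1,1,1,1,1,0], 1500, [[1,1,1,1,1,0], [1,1,1,1,1,1],
  [1,1,1,1,2,1], [2,1,1,1,2,1], [2,2,1,1,2,1], [2,2,2,1,2,1], [1,1,1,2,2,1], [2,1,1,2,2,1], [2,2,
  1,2,2,1], [1,1,2,2,2,1], [2,1,2,2,2,1], [1,2,2,2,2,1], [3,2,2,2,2,1], [2,3,2,2,2,1], [3,3,2,2,2,
  1], [2,2,3,2,2,1], [2,3,3,2,2,1], [3,3,3,2,2,1], [2,2,2,3,2,1], [2,2,3,3,2,1], [2,3,3,3,2,1],
  [3,3,3,3,2,1], [2,1,1,2,3,1], [2,2,1,2,3,1], [3,2,1,2,3,1], [2,1,2,2,3,1], [2,1,2,3,3,1], [2,1,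
  1,2,3,2], [2,2,1,2,3,2], [3,2,1,2,3,2], [2,1,2,2,3,2], [2,1,2,3,3,2], [3,2,1,2,4,2], [3,2,1,3,4,
  2], [2,1,2,3,4,2], [3,1,2,3,4,2]]⟩

/-- exclusion vectors -/
def ex : List (List ℕ) := [[200000,200000,200000,200000,249999,100000]]

/-- table of cusps -/
def cT : BT (List ℕ) := (.node [1,1,1,1,1,0] (.node [1,1,1,1,1,1] (.node [2,
  1,1,1,2,1] (.node [2,1,1,2,2,1] (.node [2,2,3,2,2,1] (.node [2,1,2,3,3,2] .nil .nil) .nil)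
  (.node [2,2,1,2,3,1] .nil .nil)) (.node [1,2,2,2,2,1] (.node [2,2,3,3,2,1] (.node [3,1,2,3,4,2]
  .nil .nil) .nil) (.node [2,1,1,2,3,2] .nil .nil))) (.node [2,2,2,1,2,1] (.node [1,1,2,2,2,1]
  (.node [3,3,3,2,2,1] (.node [3,2,1,3,4,2] .nil .nil) .nil) (.node [2,1,2,2,3,1] .nil .nil))
  (.node [2,3,2,2,2,1] (.node [3,3,3,3,2,1] .nil .nil) (.node [3,2,1,2,3,2] .nil .nil)))) (.node
  [1,1,1,1,2,1] (.node [2,2,1,1,2,1] (.node [2,2,1,2,2,1] (.node [2,3,3,2,2,1] (.node [3,2,1,2,4,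
  2] .nil .nil) .nil) (.node [3,2,1,2,3,1] .nil .nil)) (.node [3,2,2,2,2,1] (.node [2,3,3,3,2,1]
  .nil .nil) (.node [2,2,1,2,3,2] .nil .nil))) (.node [1,1,1,2,2,1] (.node [2,1,2,2,2,1] (.node
  [2,2,2,3,2,1] (.node [2,1,2,3,4,2] .nil .nil) .nil) (.node [2,1,2,3,3,1] .nil .nil)) (.node [3,
  3,2,2,2,1] (.node [2,1,1,2,3,1] .nil .nil) (.node [2,1,2,2,3,2] .nil .nil)))))

/-- indices of reflected cusps -/
def cK : List (List ℕ) := [[0,0,0,0,0,2], [0,0,0,0,3,1], [4,0,0,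
  7,2,0], [3,5,0,8,0,0], [0,4,6,9,0,0], [0,0,5,19,0,0], [8,0,10,3,0,0], [7,9,11,4,23,0], [0,8,16,
  5,24,0], [11,12,7,0,0,0], [10,14,8,0,26,0], [13,10,0,0,0,0], [12,15,0,0,0,0], [15,11,17,0,0,0],
  [14,13,18,0,0,0], [0,17,9,20,0,0], [18,16,14,21,0,0], [17,0,15,22,0,0], [0,0,20,6,0,0], [0,21,
  19,16,0,0], [22,20,0,17,0,0], [21,0,0,18,0,0], [0,24,26,0,8,28], [25,23,0,0,9,29], [24,0,0,0,0,
  30], [0,0,23,27,11,31], [0,0,0,26,0,32], [0,29,31,0,0,23], [30,28,0,0,0,24], [29,0,0,0,33,25],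
  [0,0,28,32,0,26], [0,0,0,31,35,27], [0,0,0,34,30,0], [0,0,0,33,0,0], [36,0,0,0,32,0], [35,0,0,0,
  0,0]]

theorem cusps_fast : fastCusps dat ex cT 36 cK = true := by decide +kernel

end Pool.Agent.Helper10.Fam.A4
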