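import Pool.Agent.Helper10.FamD.A4LowT

set_option autoImplicit false
set_option maxRecDepth 1000000

/-!
# Certificate data for `U ⊕ A4` (lower bound, subtrees)
-/

namespace Pool.Agent.Helper10.Fam.A4

open Pool.Agent.Helper10.Fam

def lt0 : Tr ℕ := (.bis 2 5 1 55 8 (.bis 0 5 1 35 9 (.bis 3 5 1 35 10 (.bis 4 5 1 10 11 (.leaf 1)
  (.bis 1 4 1 2 12 (.bis 2 4 1 2 13 (.leaf 31) (.leaf 25)) (.leaf 25))) (.bis 0 3 1 2 14 (.bis 1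
  3 1 2 15 (.bis 2 3 1 2 16 (.bis 3 4 1 1 17 (.bis 2 4 1 4 18 (.bis 4 5 2 1 19 (.leaf 11) (.leaf
  22)) (.leaf 11)) (.leaf 38)) (.bis 2 4 1 2 13 (.bis 3 4 1 4 18 (.leaf 31) (.leaf 11)) (.leaf
  63))) (.bis 1 4 1 2 12 (.bis 2 4 1 2 13 (.leaf 31) (.leaf 25)) (.leaf 25))) (.bis 1 4 1 2 12
  (.bis 2 4 1 2 13 (.leaf 31) (.leaf 25)) (.bis 0 2 1 1 20 (.bis 1 5 1 1 21 (.leaf 25) (.bis 1 3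
  2 1 22 (.bis 2 3 2 1 23 (.leaf 7) (.leaf 7)) (.leaf 17))) (.bis 1 5 1 1 21 (.leaf 25) (.bis 1 3
  2 1 22 (.leaf 12) (.leaf 25))))))) (.bis 0 3 1 1 24 (.bis 3 5 2 1 14 (.bis 1 4 1 2 12 (.bis 2 4
  1 2 13 (.bis 4 5 2 1 25 (.bis 2 5 1 2 26 (.bis 3 5 1 2 27 (.bis 0 5 1 2 28 (.leaf 12) (.bis 0 1
  2 1 29 (.leaf 5) (.leaf 5))) (.bis 0 1 2 1 29 (.leaf 5) (.leaf 5))) (.bis 0 1 2 1 29 (.leaf 5)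
  (.leaf 5))) (.bis 0 4 1 2 30 (.leaf 12) (.leaf 5))) (.bis 2 5 1 1 20 (.bis 4 5 1 2 26 (.bis 3 5
  1 2 27 (.bis 0 5 1 2 28 (.leaf 12) (.bis 0 1 2 1 29 (.leaf 5) (.leaf 5))) (.bis 0 1 2 1 29
  (.leaf 5) (.leaf 5))) (.bis 0 1 2 1 29 (.leaf 5) (.bis 0 4 2 1 31 (.leaf 5) (.leaf 5)))) (.bis
  0 2 1 1 32 (.leaf 7) (.bis 0 1 2 1 29 (.leaf 5) (.leaf 5))))) (.bis 2 5 1 1 20 (.bis 0 1 1 1 33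
  (.bis 1 3 2 1 22 (.leaf 12) (.leaf 25)) (.bis 3 5 1 2 27 (.bis 0 5 1 2 28 (.leaf 12) (.bis 0 4
  2 1 29 (.leaf 5) (.leaf 5))) (.leaf 5))) (.bis 0 1 1 1 33 (.bis 1 3 2 1 22 (.leaf 7) (.leaf
  17)) (.bis 0 2 1 1 32 (.leaf 7) (.leaf 5))))) (.bis 1 3 1 2 15 (.bis 2 3 1 2 16 (.bis 3 4 1 1
  17 (.bis 2 4 1 4 18 (.leaf 31) (.leaf 11)) (.leaf 38)) (.bis 2 4 1 2 13 (.bis 3 4 1 4 18 (.leaf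
  31) (.leaf 11)) (.bis 0 2 1 1 32 (.leaf 7) (.leaf 11)))) (.bis 1 4 1 2 12 (.bis 2 4 1 2 13
  (.bis 3 4 1 4 34 (.bis 0 4 1 2 30 (.leaf 12) (.leaf 2)) (.leaf 2)) (.bis 0 2 1 1 32 (.leaf 7)
  (.leaf 2))) (.bis 0 1 1 1 33 (.leaf 25) (.bis 0 2 1 1 32 (.bis 2 5 2 1 23 (.leaf 2) (.leaf 7))
  (.leaf 2)))))) (.bis 0 2 2 1 35 (.bis 1 4 1 2 12 (.bis 2 4 1 2 13 (.bis 4 5 2 1 25 (.bis 2 5 1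
  2 26 (.bis 3 5 1 2 28 (.leaf 12) (.bis 1 3 1 2 29 (.leaf 5) (.leaf 5))) (.bis 1 3 1 2 29 (.bis
  2 3 1 2 31 (.leaf 5) (.leaf 5)) (.leaf 5))) (.bis 0 4 1 4 36 (.bis 3 4 1 2 30 (.leaf 12) (.bis
  1 3 1 2 29 (.leaf 5) (.leaf 5))) (.bis 1 3 1 2 29 (.leaf 5) (.leaf 5)))) (.bis 2 5 1 1 20 (.bis
  4 5 1 2 26 (.bis 3 5 1 2 28 (.leaf 12) (.bis 1 3 1 2 29 (.leaf 5) (.leaf 5))) (.bis 1 3 1 2 29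
  (.bis 3 4 2 1 31 (.leaf 5) (.leaf 5)) (.leaf 5))) (.bis 2 3 1 1 32 (.bis 1 3 1 2 29 (.bis 3 4 2
  1 31 (.leaf 5) (.leaf 5)) (.leaf 5)) (.leaf 7)))) (.bis 2 5 1 1 20 (.bis 1 3 1 1 33 (.bis 3 5 1
  2 28 (.leaf 12) (.bis 3 4 2 1 29 (.leaf 5) (.leaf 5))) (.leaf 25)) (.bis 1 3 1 1 33 (.bis 2 3 1
  1 32 (.bis 3 4 2 1 29 (.leaf 5) (.leaf 5)) (.leaf 7)) (.leaf 17)))) (.bis 0 1 2 1 37 (.bis 1 4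
  1 2 12 (.bis 0 4 1 4 38 (.bis 4 5 2 1 25 (.bis 3 5 1 2 28 (.leaf 12) (.bis 1 3 1 2 29 (.leaf 5)
  (.leaf 5))) (.bis 2 4 1 4 36 (.bis 3 4 1 2 30 (.leaf 12) (.bis 1 3 1 2 29 (.leaf 5) (.leaf 5)))
  (.bis 1 3 1 2 29 (.leaf 5) (.leaf 5)))) (.bis 3 5 1 2 28 (.leaf 12) (.leaf 5))) (.bis 1 3 1 1
  33 (.bis 3 5 1 2 28 (.leaf 12) (.leaf 5)) (.leaf 52))) (.bis 0 4 1 1 39 (.bis 1 4 1 4 38 (.bis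
  4 5 2 1 25 (.bis 3 5 1 2 28 (.leaf 12) (.leaf 5)) (.leaf 12)) (.leaf 12)) (.leaf 39)))))) (.bis
  0 2 1 1 40 (.bis 2 4 1 1 41 (.bis 1 3 1 2 15 (.bis 3 5 2 1 16 (.bis 4 5 2 1 13 (.bis 0 1 2 1 42
  (.leaf 7) (.bis 0 3 2 1 43 (.leaf 7) (.bis 0 5 1 1 44 (.leaf 7) (.bis 0 4 2 1 45 (.leaf 7)
  (.leaf 3))))) (.bis 0 4 1 2 46 (.leaf 53) (.bis 0 1 2 1 42 (.leaf 7) (.bis 0 3 2 1 43 (.leaf 7)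
  (.bis 0 5 2 1 45 (.leaf 7) (.leaf 28)))))) (.bis 3 4 1 1 17 (.bis 0 4 1 2 46 (.leaf 53) (.bis 0
  3 1 1 47 (.leaf 11) (.bis 0 1 2 1 42 (.leaf 7) (.bis 0 5 2 1 43 (.leaf 7) (.leaf 28))))) (.bis
  0 3 1 2 48 (.bis 2 3 1 2 49 (.leaf 29) (.bis 2 4 1 1 50 (.leaf 11) (.leaf 11))) (.bis 0 4 1 1
  47 (.leaf 11) (.bis 0 1 2 1 42 (.leaf 11) (.bis 0 5 2 1 43 (.leaf 11) (.leaf 3))))))) (.bis 1 4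
  1 2 12 (.bis 4 5 2 1 13 (.bis 0 1 2 1 51 (.bis 1 5 1 2 52 (.bis 3 5 1 2 53 (.bis 0 5 1 4 54
  (.bis 4 5 1 2 55 (.bis 2 5 1 1 56 (.leaf 7) (.bis 2 3 4 1 57 (.leaf 3) (.leaf 3))) (.bis 2 3 4
  1 57 (.leaf 7) (.leaf 7))) (.leaf 7)) (.bis 2 3 2 1 58 (.leaf 2) (.leaf 7))) (.bis 1 2 1 2 59
  (.leaf 7) (.leaf 2))) (.bis 0 3 2 1 42 (.leaf 7) (.bis 0 5 1 1 44 (.leaf 7) (.bis 0 4 2 1 45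
  (.leaf 7) (.leaf 3))))) (.bis 0 4 1 2 46 (.leaf 22) (.bis 0 1 2 1 51 (.leaf 7) (.bis 0 3 2 1 42
  (.leaf 7) (.bis 0 5 2 1 45 (.leaf 7) (.leaf 28)))))) (.bis 1 2 1 1 60 (.bis 0 4 2 1 51 (.bis 4
  5 1 2 52 (.bis 3 5 1 2 53 (.bis 0 5 1 4 54 (.bis 2 5 1 1 56 (.leaf 7) (.leaf 3)) (.leaf 3))
  (.leaf 7)) (.bis 2 4 2 1 59 (.leaf 2) (.leaf 7))) (.bis 0 3 2 1 42 (.leaf 7) (.bis 0 5 1 1 44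
  (.leaf 7) (.leaf 3)))) (.bis 0 1 1 1 61 (.leaf 17) (.bis 0 4 2 1 51 (.leaf 7) (.bis 0 3 2 1 42
  (.leaf 7) (.bis 0 5 1 1 44 (.leaf 7) (.leaf 3)))))))) (.bis 1 2 1 2 62 (.bis 2 3 1 1 63 (.bis 3
  5 2 1 16 (.bis 0 3 2 1 43 (.bis 2 5 1 1 64 (.bis 1 3 1 1 65 (.leaf 7) (.leaf 33)) (.bis 1 3 1 1
  65 (.leaf 44) (.bis 1 2 1 2 66 (.leaf 15) (.leaf 3)))) (.bis 0 5 1 1 44 (.bis 2 5 1 1 64 (.leaf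
  33) (.bis 1 2 1 2 66 (.bis 0 2 1 2 67 (.leaf 15) (.leaf 3)) (.leaf 3))) (.bis 0 2 1 1 68 (.bis
  1 2 1 2 66 (.bis 2 5 2 1 67 (.leaf 3) (.leaf 15)) (.leaf 3)) (.bis 0 1 2 1 69 (.leaf 3) (.leaf
  3))))) (.bis 1 3 1 4 70 (.bis 0 3 1 2 48 (.bis 3 4 2 1 49 (.bis 4 5 2 1 71 (.leaf 29) (.leaf
  15)) (.leaf 29)) (.bis 0 5 2 1 43 (.leaf 44) (.bis 0 2 1 1 68 (.leaf 15) (.bis 0 1 4 1 72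
  (.leaf 3) (.leaf 3))))) (.bis 0 5 2 1 43 (.bis 1 5 1 1 65 (.leaf 44) (.bis 1 2 1 2 66 (.leaf
  15) (.bis 1 3 2 1 73 (.leaf 3) (.leaf 3)))) (.bis 0 2 1 1 68 (.bis 1 2 1 2 66 (.leaf 15) (.bis
  1 3 2 1 73 (.leaf 3) (.leaf 3))) (.bis 0 3 4 1 72 (.bis 1 3 2 1 73 (.leaf 3) (.bis 1 4 1 2 74
  (.leaf 3) (.leaf 3))) (.bis 0 1 2 1 69 (.bis 1 4 1 2 74 (.leaf 3) (.leaf 3)) (.leaf 3)))))))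
  (.bis 2 5 2 1 75 (.bis 0 5 1 1 44 (.bis 3 5 1 1 64 (.bis 4 5 1 1 56 (.bis 1 5 1 2 76 (.bis 2 5
  1 2 77 (.leaf 33) (.bis 0 2 1 1 78 (.bis 2 4 1 1 79 (.leaf 21) (.leaf 21)) (.leaf 21))) (.bis 0
  2 1 1 78 (.bis 1 3 1 1 80 (.bis 2 4 1 1 79 (.leaf 21) (.bis 2 3 1 1 81 (.leaf 21) (.leaf 21)))
  (.bis 2 4 1 1 79 (.leaf 21) (.bis 1 2 1 1 82 (.leaf 21) (.leaf 21)))) (.leaf 3))) (.bis 2 4 1 2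
  83 (.leaf 3) (.bis 0 2 1 1 78 (.bis 1 3 1 1 80 (.bis 2 5 1 1 79 (.leaf 6) (.leaf 10)) (.bis 2 5
  1 1 79 (.leaf 6) (.leaf 21))) (.leaf 3)))) (.bis 1 3 1 2 66 (.bis 0 3 1 2 67 (.bis 2 3 1 2 84
  (.leaf 15) (.bis 2 4 1 2 83 (.leaf 6) (.bis 0 2 1 2 85 (.bis 1 2 1 2 86 (.leaf 10) (.leaf 6))
  (.leaf 6)))) (.bis 2 4 1 2 83 (.leaf 3) (.bis 0 2 1 1 78 (.bis 2 3 2 1 85 (.leaf 6) (.leaf 10))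
  (.leaf 3)))) (.bis 2 4 1 2 83 (.leaf 3) (.bis 0 2 1 1 78 (.bis 1 5 1 1 80 (.bis 2 3 2 1 86
  (.leaf 6) (.leaf 10)) (.bis 1 2 1 1 82 (.leaf 10) (.leaf 6))) (.leaf 3))))) (.bis 0 3 1 1 68
  (.bis 1 3 1 2 66 (.bis 3 5 2 1 67 (.bis 2 4 1 2 83 (.leaf 3) (.bis 0 2 1 1 87 (.bis 2 5 1 1 78
  (.leaf 3) (.bis 2 3 2 1 85 (.leaf 6) (.leaf 10))) (.leaf 3))) (.bis 2 3 1 2 84 (.leaf 15) (.bis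
  2 4 1 2 83 (.leaf 6) (.bis 0 2 1 1 87 (.bis 2 5 2 1 85 (.leaf 6) (.leaf 10)) (.leaf 6)))))
  (.bis 2 4 1 2 83 (.leaf 3) (.bis 0 2 1 1 87 (.bis 2 5 1 1 78 (.leaf 3) (.leaf 21)) (.leaf 3))))
  (.bis 0 2 2 1 88 (.bis 2 4 1 2 83 (.leaf 3) (.bis 2 3 1 1 87 (.leaf 3) (.bis 2 5 1 1 78 (.leaf
  3) (.leaf 21)))) (.leaf 3)))) (.bis 0 2 1 2 89 (.bis 2 4 2 1 90 (.bis 1 3 1 2 66 (.bis 3 5 2 1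
  84 (.bis 4 5 2 1 83 (.bis 1 5 1 2 86 (.bis 0 3 2 1 91 (.leaf 10) (.bis 0 5 1 1 92 (.leaf 10)
  (.leaf 6))) (.bis 0 1 2 1 93 (.leaf 6) (.bis 0 3 2 1 91 (.leaf 6) (.leaf 6)))) (.bis 0 4 1 2 94
  (.leaf 6) (.bis 0 1 2 1 93 (.leaf 6) (.leaf 6)))) (.bis 0 3 1 2 95 (.leaf 55) (.bis 0 4 1 2 94
  (.leaf 6) (.bis 0 1 2 1 93 (.leaf 6) (.leaf 6))))) (.bis 4 5 2 1 83 (.bis 1 2 1 1 96 (.bis 3 5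
  1 2 86 (.bis 0 5 1 1 92 (.leaf 10) (.leaf 6)) (.bis 0 3 2 1 93 (.leaf 6) (.leaf 6))) (.bis 0 1
  1 1 97 (.bis 1 5 1 1 82 (.leaf 10) (.leaf 6)) (.bis 3 5 1 2 86 (.bis 0 5 1 1 92 (.leaf 10)
  (.leaf 6)) (.bis 0 3 2 1 93 (.leaf 6) (.leaf 6))))) (.bis 0 4 1 2 94 (.leaf 6) (.bis 1 2 1 1 96
  (.bis 0 3 2 1 93 (.leaf 6) (.leaf 6)) (.bis 0 1 1 1 97 (.leaf 6) (.leaf 6)))))) (.bis 2 3 2 1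
  98 (.bis 1 3 1 2 66 (.bis 3 5 2 1 84 (.bis 1 5 1 2 86 (.bis 0 3 2 1 91 (.leaf 10) (.bis 0 5 1 1
  92 (.bis 2 5 1 1 99 (.leaf 10) (.leaf 10)) (.bis 0 2 1 1 100 (.leaf 10) (.leaf 16)))) (.bis 0 1
  2 1 93 (.leaf 10) (.bis 0 3 2 1 91 (.leaf 10) (.bis 0 2 1 1 100 (.leaf 10) (.leaf 16))))) (.bis
  0 3 1 2 95 (.bis 3 4 2 1 101 (.leaf 10) (.leaf 40)) (.bis 0 1 2 1 93 (.leaf 10) (.leaf 16))))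
  (.bis 1 2 1 1 102 (.bis 3 5 1 2 86 (.bis 0 5 1 1 92 (.bis 2 5 1 1 99 (.leaf 10) (.leaf 10))
  (.bis 0 2 1 1 100 (.leaf 10) (.leaf 16))) (.bis 0 3 2 1 93 (.bis 3 4 1 2 103 (.bis 0 2 1 4 104
  (.leaf 10) (.leaf 6)) (.bis 2 3 2 1 105 (.leaf 6) (.leaf 10))) (.bis 0 2 1 1 100 (.leaf 10)
  (.leaf 16)))) (.bis 1 4 1 1 96 (.bis 3 5 1 2 86 (.bis 0 5 1 1 92 (.leaf 10) (.leaf 6)) (.bis 0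
  3 2 1 93 (.leaf 6) (.leaf 6))) (.bis 0 1 1 1 97 (.bis 1 5 1 1 82 (.leaf 10) (.leaf 6)) (.bis 3
  5 1 2 86 (.bis 0 5 1 1 92 (.leaf 10) (.leaf 6)) (.bis 0 3 2 1 93 (.leaf 6) (.leaf 6)))))))
  (.bis 1 2 1 4 106 (.bis 0 2 1 4 107 (.bis 2 4 4 1 108 (.bis 3 5 1 1 99 (.bis 0 5 1 2 109 (.leaf
  46) (.leaf 16)) (.leaf 16)) (.bis 2 5 4 1 110 (.bis 3 5 1 1 99 (.leaf 64) (.leaf 45)) (.bis 2 3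
  4 1 111 (.leaf 45) (.bis 1 2 1 8 112 (.bis 0 2 1 8 113 (.bis 2 4 8 1 114 (.leaf 19) (.leaf 41))
  (.leaf 19)) (.leaf 19))))) (.bis 0 5 1 1 92 (.bis 3 5 1 1 99 (.bis 2 5 1 2 109 (.leaf 10)
  (.leaf 16)) (.leaf 16)) (.bis 0 3 1 1 100 (.bis 1 3 1 2 115 (.leaf 16) (.leaf 16)) (.leaf
  16)))) (.bis 1 3 1 1 102 (.bis 0 5 1 1 92 (.bis 3 5 1 1 99 (.leaf 10) (.leaf 10)) (.bis 0 3 1 1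
  100 (.leaf 10) (.leaf 16))) (.bis 1 4 1 1 96 (.leaf 46) (.bis 0 1 1 1 97 (.leaf 21) (.leaf
  46))))))) (.bis 0 3 1 1 68 (.bis 1 3 1 2 66 (.bis 3 5 2 1 84 (.bis 4 5 2 1 83 (.bis 0 5 1 1 87
  (.bis 1 5 1 2 86 (.bis 2 3 2 1 91 (.leaf 10) (.bis 2 5 1 1 92 (.leaf 10) (.leaf 6))) (.bis 1 2
  1 2 93 (.bis 2 3 2 1 91 (.leaf 6) (.leaf 6)) (.leaf 6))) (.bis 1 2 1 2 93 (.leaf 6) (.leaf 6)))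
  (.bis 2 4 1 2 94 (.leaf 6) (.bis 1 2 1 2 93 (.leaf 6) (.leaf 6)))) (.bis 2 3 1 2 95 (.leaf 15)
  (.bis 2 4 1 2 94 (.leaf 6) (.bis 1 2 1 2 93 (.leaf 6) (.leaf 6))))) (.bis 4 5 2 1 83 (.bis 0 5
  1 1 87 (.bis 1 2 1 1 97 (.bis 3 5 1 2 86 (.bis 2 5 1 1 92 (.leaf 10) (.leaf 6)) (.bis 2 3 2 1
  93 (.leaf 6) (.leaf 6))) (.bis 1 5 1 1 82 (.leaf 10) (.leaf 6))) (.bis 0 1 1 1 116 (.bis 1 2 1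
  1 97 (.bis 2 3 2 1 93 (.leaf 3) (.leaf 6)) (.leaf 3)) (.bis 2 3 2 1 93 (.leaf 3) (.leaf 6))))
  (.bis 2 4 1 2 94 (.leaf 3) (.bis 0 1 1 1 116 (.bis 1 2 1 1 97 (.leaf 6) (.leaf 3)) (.bis 2 3 2
  1 93 (.leaf 3) (.leaf 6)))))) (.bis 0 5 2 1 88 (.bis 4 5 2 1 83 (.bis 3 5 1 1 87 (.bis 1 2 1 1
  97 (.bis 2 5 1 1 92 (.leaf 21) (.leaf 6)) (.bis 1 5 1 1 82 (.leaf 21) (.leaf 6))) (.leaf 6))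
  (.bis 2 4 1 2 94 (.leaf 3) (.leaf 6))) (.bis 0 1 2 1 69 (.bis 2 4 1 2 94 (.leaf 3) (.leaf 6))
  (.leaf 54))))))) (.bis 1 3 1 2 15 (.bis 3 5 2 1 16 (.bis 0 1 2 1 42 (.bis 1 5 1 2 53 (.bis 2 3
  1 1 65 (.leaf 7) (.leaf 33)) (.bis 1 2 1 1 117 (.bis 2 3 1 1 65 (.leaf 7) (.leaf 3)) (.bis 1 4
  1 2 58 (.leaf 7) (.leaf 7)))) (.bis 0 3 2 1 43 (.bis 2 3 1 1 65 (.leaf 7) (.leaf 33)) (.bis 0 5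
  1 1 44 (.leaf 33) (.bis 0 2 2 1 69 (.leaf 3) (.leaf 3))))) (.bis 2 3 1 4 70 (.bis 0 3 1 2 48
  (.bis 3 4 2 1 49 (.bis 1 4 1 2 58 (.leaf 11) (.leaf 11)) (.leaf 29)) (.bis 0 1 2 1 42 (.bis 1 4
  1 2 58 (.leaf 11) (.leaf 11)) (.bis 0 5 2 1 43 (.leaf 11) (.bis 0 2 4 1 72 (.leaf 3) (.leaf
  3))))) (.bis 0 1 2 1 42 (.bis 1 2 1 1 117 (.bis 2 5 1 1 65 (.leaf 7) (.bis 2 3 2 1 73 (.leaf 3)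
  (.leaf 3))) (.bis 1 4 1 2 58 (.leaf 7) (.leaf 7))) (.bis 0 5 2 1 43 (.bis 2 5 1 1 65 (.leaf 7)
  (.bis 2 3 2 1 73 (.leaf 3) (.leaf 3))) (.bis 0 3 4 1 72 (.bis 2 3 2 1 73 (.leaf 3) (.bis 2 4 1
  2 74 (.leaf 3) (.leaf 3))) (.bis 0 2 2 1 69 (.bis 2 4 1 2 74 (.leaf 3) (.leaf 3)) (.leaf
  3))))))) (.bis 1 4 1 1 60 (.bis 0 3 2 1 42 (.bis 3 5 1 2 53 (.bis 0 5 1 4 118 (.bis 4 5 1 1 56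
  (.bis 1 5 1 2 119 (.bis 2 5 1 2 76 (.leaf 7) (.leaf 3)) (.bis 2 3 2 1 120 (.leaf 3) (.leaf 3)))
  (.bis 2 4 1 2 74 (.leaf 3) (.leaf 3))) (.bis 2 4 1 2 74 (.leaf 3) (.leaf 3))) (.bis 2 3 1 1 117
  (.leaf 7) (.leaf 3))) (.bis 0 5 1 1 44 (.leaf 33) (.leaf 3))) (.bis 0 1 1 1 61 (.bis 1 5 1 1
  121 (.bis 3 5 1 2 53 (.bis 0 5 1 2 122 (.bis 4 5 1 2 119 (.bis 2 5 1 2 76 (.leaf 7) (.bis 2 3 2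
  1 120 (.leaf 7) (.leaf 17))) (.bis 2 3 2 1 120 (.leaf 7) (.bis 1 2 1 1 123 (.leaf 3) (.leaf
  7)))) (.bis 0 3 2 1 124 (.bis 2 3 2 1 120 (.leaf 7) (.leaf 17)) (.bis 1 2 1 1 123 (.leaf 3)
  (.leaf 7)))) (.bis 2 3 1 1 117 (.leaf 7) (.bis 0 5 2 1 124 (.bis 2 5 2 1 120 (.leaf 7) (.leaf
  17)) (.leaf 17)))) (.bis 1 2 2 1 125 (.bis 2 3 1 1 117 (.leaf 7) (.leaf 17)) (.leaf 17))) (.bis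
  0 3 2 1 42 (.bis 3 5 1 2 53 (.leaf 17) (.bis 2 3 1 1 117 (.leaf 2) (.leaf 3))) (.bis 0 5 1 1 44
  (.leaf 17) (.leaf 3)))))))) (.bis 0 3 1 1 24 (.bis 1 3 1 2 15 (.bis 3 5 2 1 16 (.bis 4 5 2 1 13
  (.bis 0 5 1 1 32 (.bis 1 2 1 2 42 (.bis 2 3 2 1 43 (.leaf 7) (.bis 2 5 1 1 44 (.leaf 7) (.bis 2
  4 2 1 45 (.leaf 5) (.leaf 3)))) (.leaf 7)) (.bis 1 2 1 2 42 (.bis 2 3 2 1 43 (.leaf 11) (.bis 2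
  4 2 1 45 (.leaf 2) (.leaf 5))) (.leaf 11))) (.bis 2 4 1 2 46 (.leaf 51) (.bis 1 2 1 2 42 (.bis
  2 3 2 1 43 (.leaf 11) (.bis 2 5 2 1 45 (.leaf 2) (.leaf 5))) (.leaf 11)))) (.bis 3 4 1 1 17
  (.bis 2 4 1 2 46 (.leaf 51) (.bis 2 3 1 1 47 (.leaf 11) (.bis 1 2 1 2 42 (.bis 2 5 2 1 43
  (.leaf 11) (.leaf 5)) (.leaf 11)))) (.bis 2 3 1 2 48 (.leaf 38) (.bis 2 4 1 1 47 (.leaf 11)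
  (.bis 1 2 1 2 42 (.bis 2 5 2 1 43 (.leaf 11) (.bis 0 2 1 1 126 (.leaf 3) (.leaf 2))) (.leaf
  11)))))) (.bis 1 4 1 2 12 (.bis 4 5 2 1 13 (.bis 0 5 1 1 32 (.bis 1 2 1 2 51 (.bis 2 3 2 1 42
  (.leaf 7) (.bis 2 5 1 1 44 (.leaf 7) (.bis 2 4 2 1 45 (.leaf 5) (.leaf 3)))) (.leaf 7)) (.bis 1
  2 1 2 51 (.bis 2 3 2 1 42 (.leaf 2) (.bis 2 4 2 1 45 (.leaf 2) (.leaf 5))) (.bis 0 1 2 1 29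
  (.leaf 2) (.leaf 2)))) (.bis 2 4 1 2 46 (.bis 3 4 1 4 34 (.bis 0 4 1 2 30 (.leaf 12) (.bis 0 1
  2 1 29 (.leaf 2) (.leaf 2))) (.bis 0 1 2 1 29 (.leaf 2) (.leaf 2))) (.bis 1 2 1 2 51 (.bis 2 3
  2 1 42 (.leaf 2) (.bis 2 5 2 1 45 (.leaf 2) (.leaf 5))) (.leaf 2)))) (.bis 0 1 1 1 33 (.bis 1 2
  1 1 61 (.bis 2 4 2 1 51 (.leaf 7) (.bis 0 5 1 2 127 (.bis 2 3 2 1 42 (.leaf 7) (.bis 2 5 1 1 44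
  (.leaf 7) (.leaf 3))) (.bis 2 3 2 1 42 (.leaf 2) (.bis 0 2 1 2 128 (.leaf 3) (.leaf 2)))))
  (.leaf 17)) (.bis 0 5 1 1 32 (.bis 2 4 2 1 51 (.leaf 7) (.bis 1 5 1 2 127 (.bis 2 3 2 1 42
  (.leaf 7) (.bis 2 5 1 1 44 (.leaf 7) (.bis 1 2 1 4 129 (.leaf 3) (.leaf 3)))) (.bis 2 3 2 1 42
  (.leaf 2) (.bis 1 2 1 2 128 (.bis 2 5 4 1 129 (.leaf 2) (.leaf 3)) (.leaf 2))))) (.bis 2 4 2 1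
  51 (.leaf 2) (.bis 2 3 2 1 42 (.leaf 2) (.bis 0 2 1 1 126 (.leaf 3) (.leaf 2)))))))) (.bis 0 5
  2 1 35 (.bis 1 4 1 2 12 (.bis 4 5 2 1 13 (.bis 3 5 1 1 32 (.bis 1 2 1 2 51 (.bis 2 5 1 1 44
  (.leaf 7) (.bis 2 4 2 1 45 (.leaf 5) (.leaf 3))) (.leaf 7)) (.bis 1 2 1 2 51 (.bis 2 4 2 1 45
  (.leaf 5) (.leaf 5)) (.bis 1 3 1 2 29 (.leaf 5) (.leaf 5)))) (.bis 2 4 1 2 46 (.bis 0 4 1 4 36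
  (.bis 3 4 1 2 30 (.leaf 12) (.bis 1 3 1 2 29 (.leaf 2) (.leaf 2))) (.bis 1 3 1 2 29 (.leaf 5)
  (.leaf 5))) (.bis 1 2 1 2 51 (.bis 2 5 2 1 45 (.leaf 5) (.leaf 5)) (.bis 1 3 1 2 29 (.leaf 5)
  (.leaf 5))))) (.bis 1 3 1 1 33 (.bis 3 5 1 1 32 (.bis 2 4 2 1 51 (.leaf 7) (.bis 1 5 1 2 127
  (.bis 2 5 1 1 44 (.leaf 7) (.bis 1 2 1 4 129 (.leaf 3) (.leaf 3))) (.bis 1 2 1 2 128 (.bis 2 5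
  4 1 129 (.leaf 3) (.leaf 3)) (.leaf 3)))) (.bis 2 4 2 1 51 (.leaf 5) (.bis 2 3 1 1 126 (.leaf
  5) (.leaf 3)))) (.bis 1 2 1 1 61 (.bis 2 4 2 1 51 (.leaf 7) (.bis 3 5 1 2 127 (.bis 2 5 1 1 44
  (.leaf 7) (.leaf 3)) (.bis 2 3 2 1 128 (.leaf 3) (.leaf 3)))) (.leaf 17)))) (.bis 0 1 2 1 37
  (.bis 1 4 1 2 12 (.bis 2 4 1 2 46 (.leaf 12) (.bis 1 2 1 2 51 (.bis 0 2 1 2 130 (.leaf 5)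
  (.leaf 5)) (.leaf 5))) (.bis 1 3 1 1 33 (.bis 2 4 2 1 51 (.leaf 5) (.bis 0 2 1 2 130 (.leaf 5)
  (.leaf 5))) (.bis 1 2 1 1 61 (.bis 2 4 2 1 51 (.leaf 5) (.bis 0 2 1 2 130 (.leaf 3) (.leaf 5)))
  (.leaf 52)))) (.bis 0 4 1 1 39 (.bis 2 4 1 2 46 (.bis 1 4 1 4 38 (.leaf 12) (.leaf 5)) (.bis 0
  2 1 1 131 (.bis 1 2 1 2 130 (.leaf 5) (.leaf 5)) (.leaf 5))) (.bis 0 2 2 1 132 (.bis 2 4 1 1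
  131 (.leaf 5) (.leaf 5)) (.leaf 39))))))))

def lc0 : List Vr := [⟨[55,0,0,0,0,0], 18150, 0⟩, ⟨[0,67,0,0,0,55], 54806, 0⟩, ⟨[0,0,67,0,0,0],
  17956, 0⟩, ⟨[0,0,0,55,0,0], 18150, 0⟩, ⟨[0,0,0,0,42,0], 17640, 0⟩, ⟨[0,0,0,0,0,1], 0, 0⟩]

theorem lk0 : chkTr lowT (leafLow 5 lowB) lt0 lc0 = true := by decide +kernel

def lt1 : Tr ℕ := (.bis 1 3 1 1 133 (.bis 2 4 1 1 41 (.bis 3 5 2 1 15 (.bis 4 5 2 1 12 (.bis 2 5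
  1 1 60 (.bis 0 5 1 1 61 (.bis 1 5 1 1 134 (.leaf 17) (.bis 1 4 2 1 135 (.leaf 2) (.bis 0 3 1 1
  136 (.leaf 2) (.bis 0 1 1 2 137 (.leaf 2) (.leaf 2))))) (.bis 0 4 2 1 51 (.bis 1 4 2 1 135
  (.leaf 2) (.bis 0 1 1 4 138 (.leaf 2) (.leaf 2))) (.bis 0 3 2 1 42 (.bis 1 4 4 1 138 (.leaf 2)
  (.leaf 2)) (.bis 0 1 1 1 139 (.bis 1 4 4 1 138 (.leaf 2) (.leaf 2)) (.leaf 3))))) (.bis 0 4 2 1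
  51 (.bis 1 4 2 1 135 (.leaf 7) (.bis 1 2 1 1 140 (.leaf 7) (.leaf 2))) (.bis 0 3 2 1 42 (.bis 1
  2 1 1 140 (.leaf 7) (.bis 1 4 4 1 138 (.leaf 2) (.leaf 2))) (.bis 1 2 1 1 140 (.bis 0 5 2 1 141
  (.leaf 3) (.leaf 3)) (.bis 0 1 1 1 139 (.leaf 2) (.leaf 3)))))) (.bis 0 4 1 2 46 (.bis 1 4 1 2
  142 (.leaf 22) (.bis 1 5 2 1 135 (.leaf 7) (.bis 1 2 1 1 140 (.leaf 7) (.bis 0 1 1 2 143 (.leaf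
  2) (.leaf 2))))) (.bis 0 5 2 1 51 (.bis 1 5 2 1 135 (.leaf 7) (.bis 1 2 1 1 140 (.leaf 7) (.bis
  1 4 2 1 143 (.leaf 2) (.leaf 2)))) (.bis 0 3 2 1 42 (.bis 1 2 1 1 140 (.leaf 7) (.bis 1 4 2 1
  143 (.leaf 2) (.leaf 2))) (.bis 1 2 1 1 140 (.leaf 28) (.bis 0 1 1 1 139 (.bis 1 4 2 1 143
  (.leaf 2) (.leaf 2)) (.leaf 28))))))) (.bis 3 4 1 1 17 (.bis 0 4 1 2 46 (.bis 1 4 1 2 142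
  (.leaf 22) (.bis 1 3 1 1 144 (.leaf 11) (.bis 1 2 1 1 140 (.leaf 11) (.leaf 2)))) (.bis 0 3 1 1
  47 (.bis 1 3 1 1 144 (.leaf 11) (.bis 1 2 1 1 140 (.leaf 11) (.leaf 2))) (.bis 0 5 2 1 42 (.bis
  1 2 1 1 140 (.leaf 7) (.bis 1 4 2 1 143 (.leaf 2) (.leaf 2))) (.bis 1 2 1 1 140 (.bis 0 2 1 1
  145 (.leaf 7) (.leaf 28)) (.bis 0 1 1 1 139 (.bis 1 4 2 1 143 (.leaf 2) (.leaf 2)) (.leaf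
  28)))))) (.bis 0 3 1 2 48 (.bis 2 3 1 2 49 (.bis 1 3 1 2 146 (.leaf 29) (.bis 1 4 1 1 144
  (.leaf 11) (.leaf 2))) (.bis 1 4 1 1 144 (.bis 2 4 1 1 50 (.leaf 11) (.leaf 11)) (.bis 1 2 1 1
  140 (.leaf 11) (.leaf 2)))) (.bis 0 4 1 1 47 (.bis 1 4 1 1 144 (.leaf 11) (.bis 1 2 1 1 140
  (.leaf 11) (.leaf 2))) (.bis 0 5 2 1 42 (.bis 1 2 1 1 140 (.leaf 11) (.leaf 2)) (.bis 1 2 1 1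
  140 (.bis 0 3 2 1 147 (.leaf 3) (.leaf 3)) (.bis 0 1 1 1 139 (.leaf 2) (.leaf 3)))))))) (.bis 2
  5 2 1 62 (.bis 3 5 2 1 15 (.bis 4 5 1 1 60 (.bis 0 5 1 1 61 (.bis 1 5 1 1 134 (.bis 2 5 1 2 125
  (.leaf 17) (.bis 2 3 1 1 117 (.leaf 17) (.leaf 17))) (.bis 2 3 1 1 117 (.bis 0 3 1 1 136 (.leaf
  2) (.bis 0 1 1 2 137 (.leaf 2) (.leaf 2))) (.bis 1 2 2 1 148 (.leaf 32) (.leaf 2)))) (.bis 0 3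
  2 1 42 (.bis 2 3 1 1 117 (.bis 3 5 1 1 136 (.bis 1 5 2 1 137 (.leaf 2) (.leaf 2)) (.leaf 2))
  (.bis 1 2 2 1 148 (.leaf 3) (.bis 1 5 2 1 137 (.leaf 2) (.leaf 2)))) (.bis 0 1 1 1 139 (.bis 1
  2 2 1 148 (.leaf 3) (.leaf 2)) (.bis 0 4 2 1 141 (.leaf 3) (.bis 0 2 2 1 69 (.leaf 3) (.leaf
  3)))))) (.bis 0 3 2 1 42 (.bis 1 4 1 1 140 (.bis 2 3 1 1 117 (.leaf 7) (.leaf 3)) (.bis 2 3 1 1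
  117 (.leaf 2) (.bis 1 2 2 1 148 (.leaf 3) (.leaf 2)))) (.bis 1 4 1 1 140 (.bis 0 5 2 1 141
  (.bis 2 4 1 2 74 (.leaf 3) (.leaf 3)) (.bis 0 2 2 1 69 (.leaf 3) (.leaf 3))) (.bis 0 1 1 1 139
  (.bis 1 2 2 1 148 (.leaf 3) (.leaf 2)) (.bis 0 5 2 1 141 (.bis 2 3 2 1 149 (.leaf 2) (.leaf 3))
  (.bis 0 2 2 1 69 (.leaf 3) (.leaf 3))))))) (.bis 2 3 1 4 70 (.bis 0 3 1 2 48 (.bis 3 4 2 1 49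
  (.bis 1 4 1 1 140 (.leaf 11) (.leaf 2)) (.bis 1 3 1 2 146 (.leaf 29) (.leaf 2))) (.bis 0 5 2 1
  42 (.bis 1 4 1 1 140 (.leaf 11) (.leaf 2)) (.bis 1 4 1 1 140 (.bis 0 2 4 1 72 (.leaf 3) (.leaf
  3)) (.bis 0 1 1 1 139 (.leaf 2) (.bis 0 2 4 1 72 (.leaf 2) (.leaf 3)))))) (.bis 0 5 2 1 42
  (.bis 1 4 1 1 140 (.bis 2 5 1 1 117 (.leaf 7) (.bis 2 3 2 1 73 (.leaf 3) (.leaf 3))) (.bis 2 5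
  1 1 117 (.leaf 2) (.bis 1 2 2 1 148 (.bis 2 3 2 1 73 (.leaf 2) (.leaf 3)) (.leaf 2)))) (.bis 1
  4 1 1 140 (.bis 0 3 4 1 72 (.bis 2 3 2 1 73 (.leaf 3) (.bis 2 4 1 2 74 (.leaf 3) (.leaf 3)))
  (.bis 0 2 2 1 69 (.bis 2 4 1 2 74 (.leaf 3) (.leaf 3)) (.leaf 3))) (.bis 0 1 1 1 139 (.bis 1 2
  2 1 148 (.bis 2 3 2 1 73 (.leaf 2) (.leaf 3)) (.leaf 2)) (.bis 0 3 4 1 72 (.bis 2 3 2 1 73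
  (.leaf 2) (.bis 2 5 2 1 149 (.leaf 2) (.leaf 3))) (.bis 0 2 2 1 69 (.bis 2 5 2 1 149 (.leaf 3)
  (.leaf 3)) (.leaf 3)))))))) (.bis 2 3 1 1 63 (.bis 3 5 4 1 70 (.bis 1 4 1 1 140 (.bis 0 2 1 1
  68 (.bis 2 5 2 1 66 (.bis 3 5 1 2 73 (.leaf 3) (.leaf 3)) (.leaf 15)) (.bis 0 3 4 1 72 (.bis 3
  5 1 2 73 (.bis 4 5 2 1 74 (.leaf 3) (.leaf 3)) (.leaf 3)) (.bis 0 5 2 1 69 (.bis 4 5 2 1 74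
  (.leaf 3) (.leaf 3)) (.leaf 3)))) (.bis 0 1 1 1 139 (.bis 1 2 1 1 150 (.bis 2 5 2 1 66 (.bis 3
  5 1 2 73 (.bis 1 5 1 1 151 (.leaf 3) (.leaf 15)) (.leaf 15)) (.leaf 15)) (.bis 1 5 2 1 148
  (.bis 3 5 1 2 73 (.bis 2 5 1 1 151 (.leaf 3) (.leaf 2)) (.leaf 2)) (.leaf 2))) (.bis 0 2 1 1 68
  (.bis 2 5 2 1 66 (.bis 3 5 1 2 73 (.leaf 3) (.leaf 3)) (.leaf 15)) (.bis 0 3 4 1 72 (.bis 3 5 1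
  2 73 (.bis 1 5 1 1 152 (.leaf 3) (.leaf 3)) (.leaf 3)) (.bis 0 5 2 1 69 (.bis 1 5 1 1 152
  (.leaf 3) (.leaf 3)) (.leaf 3)))))) (.bis 0 3 1 2 48 (.bis 3 4 2 1 49 (.bis 1 4 1 1 140 (.leaf
  15) (.leaf 29)) (.bis 1 3 1 2 146 (.leaf 29) (.leaf 29))) (.bis 1 4 1 1 140 (.bis 0 2 1 1 68
  (.leaf 15) (.bis 0 5 4 1 72 (.leaf 3) (.leaf 3))) (.bis 0 1 1 1 139 (.bis 1 2 1 1 150 (.leaf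
  15) (.leaf 2)) (.bis 0 2 1 1 68 (.leaf 15) (.bis 0 5 4 1 72 (.leaf 3) (.leaf 3))))))) (.bis 1 2
  1 2 153 (.bis 0 2 1 2 89 (.bis 2 4 2 1 90 (.bis 3 5 2 1 66 (.bis 0 4 1 2 94 (.leaf 6) (.bis 2 5
  1 1 96 (.bis 0 5 1 1 97 (.leaf 6) (.leaf 6)) (.leaf 6))) (.bis 0 3 1 2 95 (.leaf 55) (.bis 0 4
  1 2 94 (.leaf 6) (.leaf 6)))) (.bis 2 3 2 1 98 (.bis 3 5 2 1 66 (.bis 2 5 1 1 102 (.bis 4 5 1 1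
  96 (.bis 0 5 1 1 97 (.leaf 6) (.bis 0 3 2 1 93 (.leaf 6) (.leaf 6))) (.bis 0 3 2 1 93 (.leaf 6)
  (.leaf 6))) (.bis 0 3 2 1 93 (.bis 1 4 1 1 154 (.bis 3 4 1 2 103 (.leaf 10) (.bis 2 3 2 1 105
  (.leaf 6) (.leaf 10))) (.bis 1 2 1 1 155 (.leaf 10) (.leaf 34))) (.bis 1 4 1 1 154 (.bis 0 2 1
  1 100 (.leaf 10) (.leaf 16)) (.bis 0 1 1 1 156 (.bis 1 2 1 1 155 (.leaf 10) (.leaf 23)) (.bis 0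
  2 1 1 100 (.leaf 10) (.leaf 16)))))) (.bis 0 3 1 2 95 (.bis 3 4 2 1 101 (.leaf 40) (.leaf 40))
  (.bis 0 5 2 1 93 (.leaf 40) (.bis 1 4 1 1 154 (.leaf 16) (.bis 0 1 1 1 156 (.bis 1 2 1 1 155
  (.leaf 10) (.leaf 34)) (.bis 0 2 1 1 100 (.leaf 10) (.leaf 16))))))) (.bis 2 5 4 1 106 (.bis 3
  5 1 1 102 (.leaf 34) (.bis 1 4 1 1 154 (.bis 0 3 1 1 100 (.leaf 10) (.leaf 16)) (.bis 0 1 1 1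
  156 (.bis 1 3 1 1 155 (.leaf 10) (.bis 1 2 2 1 157 (.leaf 10) (.leaf 23))) (.bis 0 3 1 1 100
  (.leaf 10) (.leaf 16))))) (.bis 1 2 1 4 158 (.bis 0 2 1 4 107 (.bis 2 4 4 1 108 (.leaf 16)
  (.bis 2 3 4 1 111 (.leaf 45) (.bis 2 5 8 1 112 (.leaf 19) (.bis 1 2 1 8 159 (.bis 0 2 1 8 113
  (.leaf 41) (.leaf 19)) (.leaf 19))))) (.bis 0 3 1 1 100 (.leaf 16) (.leaf 16))) (.leaf 66)))))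
  (.bis 0 3 1 1 68 (.bis 3 5 2 1 66 (.bis 2 4 1 2 94 (.leaf 6) (.bis 0 5 1 1 116 (.bis 2 5 1 1 97
  (.leaf 6) (.leaf 6)) (.bis 2 3 2 1 93 (.leaf 6) (.leaf 6)))) (.bis 2 3 1 2 95 (.leaf 15) (.bis
  2 4 1 2 94 (.leaf 6) (.bis 2 5 2 1 93 (.leaf 6) (.leaf 6))))) (.bis 0 1 2 1 160 (.bis 2 4 1 2
  94 (.leaf 6) (.leaf 6)) (.bis 0 5 2 1 69 (.bis 2 4 1 2 94 (.leaf 3) (.leaf 6)) (.bis 0 4 1 1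
  145 (.bis 2 4 1 2 94 (.leaf 3) (.leaf 6)) (.leaf 54)))))) (.bis 1 4 1 1 140 (.bis 0 3 1 1 68
  (.bis 3 5 2 1 66 (.leaf 26) (.leaf 15)) (.bis 0 2 2 1 160 (.bis 4 5 2 1 74 (.leaf 26) (.leaf
  15)) (.bis 0 5 2 1 69 (.leaf 3) (.leaf 3)))) (.bis 0 1 1 1 139 (.bis 1 3 1 1 150 (.bis 3 5 2 1
  66 (.bis 1 5 1 1 151 (.leaf 26) (.leaf 15)) (.leaf 15)) (.bis 1 5 2 1 148 (.bis 3 5 1 1 151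
  (.leaf 26) (.leaf 15)) (.leaf 47))) (.bis 0 3 1 1 68 (.bis 3 5 2 1 66 (.leaf 26) (.leaf 15))
  (.bis 0 2 2 1 160 (.bis 1 5 1 1 152 (.leaf 26) (.leaf 15)) (.bis 0 5 2 1 69 (.bis 1 5 1 1 152
  (.leaf 3) (.leaf 3)) (.leaf 3)))))))))) (.bis 1 4 1 1 161 (.bis 2 4 1 1 41 (.bis 4 5 2 1 12
  (.bis 2 5 1 1 60 (.bis 0 5 1 1 61 (.bis 3 5 1 1 134 (.leaf 20) (.bis 3 4 2 1 135 (.leaf 2)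
  (.bis 0 3 1 2 137 (.leaf 2) (.leaf 2)))) (.bis 0 4 2 1 51 (.bis 3 4 2 1 135 (.leaf 2) (.bis 0 3
  1 4 138 (.bis 3 5 2 1 137 (.leaf 2) (.leaf 2)) (.leaf 2))) (.bis 0 1 1 1 162 (.bis 3 4 4 1 138
  (.leaf 2) (.bis 3 5 2 1 137 (.leaf 2) (.leaf 2))) (.bis 0 3 1 1 139 (.bis 3 4 4 1 138 (.leaf 2)
  (.bis 3 5 2 1 137 (.leaf 2) (.leaf 2))) (.leaf 3))))) (.bis 0 4 2 1 51 (.bis 3 4 2 1 135 (.leaf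
  22) (.bis 2 3 1 1 140 (.bis 0 3 1 4 138 (.leaf 2) (.leaf 2)) (.leaf 22))) (.bis 0 1 1 1 162
  (.bis 2 3 1 1 140 (.bis 3 4 4 1 138 (.leaf 2) (.leaf 2)) (.leaf 22)) (.bis 2 3 1 1 140 (.bis 0
  3 1 1 139 (.bis 3 4 4 1 138 (.leaf 2) (.leaf 2)) (.leaf 3)) (.bis 0 5 2 1 141 (.leaf 3) (.leaf
  3)))))) (.bis 0 4 1 2 46 (.bis 3 4 1 2 142 (.leaf 22) (.bis 3 5 2 1 135 (.leaf 22) (.bis 2 3 1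
  1 140 (.bis 0 3 1 2 143 (.leaf 2) (.leaf 2)) (.leaf 22)))) (.bis 0 5 2 1 51 (.bis 3 5 2 1 135
  (.leaf 22) (.bis 2 3 1 1 140 (.bis 3 4 2 1 143 (.leaf 2) (.leaf 2)) (.leaf 22))) (.bis 0 1 1 1
  162 (.bis 2 3 1 1 140 (.bis 3 4 2 1 143 (.leaf 2) (.bis 3 5 4 1 138 (.leaf 2) (.leaf 2)))
  (.leaf 22)) (.bis 2 3 1 1 140 (.bis 0 3 1 1 139 (.bis 3 4 2 1 143 (.leaf 2) (.leaf 2)) (.leaf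
  28)) (.leaf 28)))))) (.bis 2 5 2 1 62 (.bis 4 5 1 1 60 (.bis 0 5 1 1 61 (.bis 3 5 1 1 134 (.bis
  2 5 1 2 125 (.leaf 20) (.bis 1 2 2 1 163 (.leaf 17) (.leaf 20))) (.bis 1 2 2 1 163 (.bis 2 3 1
  2 148 (.bis 0 3 1 2 137 (.leaf 2) (.leaf 2)) (.leaf 32)) (.bis 0 3 1 2 137 (.leaf 2) (.leaf
  2)))) (.bis 0 1 1 1 162 (.bis 1 2 2 1 163 (.bis 2 3 1 2 148 (.bis 3 5 2 1 137 (.leaf 2) (.leaf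
  2)) (.leaf 3)) (.bis 3 5 2 1 137 (.leaf 2) (.bis 3 4 2 1 164 (.leaf 2) (.leaf 2)))) (.bis 0 3 1
  1 139 (.bis 2 3 1 2 148 (.leaf 2) (.leaf 3)) (.bis 0 4 2 1 141 (.bis 1 2 1 1 165 (.leaf 3)
  (.leaf 2)) (.bis 0 2 2 1 69 (.leaf 3) (.leaf 3)))))) (.bis 0 1 1 1 162 (.bis 3 4 1 1 140 (.bis
  1 2 2 1 163 (.bis 2 4 1 2 74 (.leaf 3) (.leaf 3)) (.leaf 22)) (.bis 1 2 2 1 163 (.bis 2 3 1 2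
  148 (.leaf 2) (.leaf 3)) (.bis 3 5 2 1 164 (.leaf 2) (.leaf 2)))) (.bis 3 4 1 1 140 (.bis 0 5 2
  1 141 (.bis 2 4 1 2 74 (.leaf 3) (.leaf 3)) (.bis 0 2 2 1 69 (.leaf 3) (.leaf 3))) (.bis 0 3 1
  1 139 (.bis 2 3 1 2 148 (.leaf 2) (.bis 1 2 1 1 165 (.leaf 3) (.leaf 2))) (.bis 0 5 2 1 141
  (.bis 1 2 1 1 165 (.leaf 3) (.leaf 2)) (.bis 0 2 2 1 69 (.bis 1 2 1 1 165 (.leaf 3) (.leaf 3))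
  (.leaf 3))))))) (.bis 1 2 1 2 166 (.bis 2 3 2 1 153 (.bis 3 4 1 1 140 (.bis 0 2 2 1 160 (.leaf
  26) (.leaf 3)) (.bis 0 3 1 1 139 (.bis 3 5 2 1 148 (.leaf 26) (.leaf 47)) (.leaf 26))) (.bis 0
  2 1 2 89 (.bis 2 4 2 1 90 (.bis 0 4 1 2 94 (.leaf 6) (.bis 2 5 1 1 96 (.bis 0 5 1 1 97 (.leaf
  6) (.leaf 6)) (.leaf 6))) (.bis 1 2 1 4 167 (.bis 2 5 4 1 106 (.leaf 34) (.bis 2 3 4 1 158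
  (.leaf 34) (.bis 0 2 1 4 107 (.bis 2 4 4 1 108 (.leaf 16) (.bis 1 2 1 8 168 (.bis 2 5 8 1 112
  (.leaf 19) (.bis 2 3 8 1 159 (.leaf 19) (.bis 0 2 1 8 113 (.bis 2 4 8 1 114 (.leaf 19) (.leaf
  41)) (.leaf 19)))) (.leaf 19))) (.leaf 16)))) (.leaf 34))) (.bis 0 3 2 1 160 (.bis 2 4 1 2 94
  (.leaf 6) (.bis 2 5 1 1 97 (.leaf 6) (.leaf 6))) (.bis 0 5 2 1 69 (.bis 2 4 1 2 94 (.leaf 3)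
  (.leaf 6)) (.bis 0 4 1 1 145 (.bis 2 4 1 2 94 (.leaf 3) (.leaf 6)) (.bis 0 1 2 1 169 (.bis 1 2
  1 1 170 (.leaf 6) (.leaf 3)) (.bis 0 2 2 1 171 (.leaf 6) (.leaf 26)))))))) (.bis 0 1 1 1 162
  (.bis 3 4 1 1 140 (.bis 1 5 2 1 163 (.bis 4 5 2 1 74 (.leaf 3) (.leaf 3)) (.leaf 68)) (.bis 1 5
  2 1 163 (.bis 3 5 2 1 148 (.leaf 3) (.leaf 30)) (.leaf 30))) (.bis 3 4 1 1 140 (.bis 0 5 2 1 69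
  (.leaf 3) (.leaf 3)) (.bis 0 3 1 1 139 (.bis 3 5 2 1 148 (.leaf 3) (.leaf 30)) (.bis 0 5 2 1 69
  (.leaf 3) (.leaf 3)))))))) (.bis 1 2 1 1 172 (.bis 2 5 2 1 62 (.bis 0 5 1 1 61 (.bis 1 5 1 1
  173 (.bis 3 5 1 1 134 (.bis 2 5 1 2 125 (.bis 4 5 1 1 174 (.leaf 20) (.leaf 20)) (.bis 2 4 1 2
  163 (.leaf 20) (.leaf 32))) (.bis 2 4 1 2 163 (.bis 0 3 1 2 137 (.leaf 4) (.leaf 4)) (.bis 2 3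
  1 2 148 (.leaf 4) (.leaf 32)))) (.bis 1 4 1 1 175 (.bis 2 4 1 2 163 (.bis 0 3 1 2 137 (.leaf 4)
  (.leaf 4)) (.bis 2 3 1 2 148 (.bis 0 3 1 2 137 (.leaf 4) (.leaf 4)) (.leaf 9))) (.bis 2 3 1 2
  148 (.bis 1 3 1 1 176 (.leaf 4) (.bis 0 1 1 2 177 (.bis 1 2 4 1 178 (.leaf 9) (.leaf 9)) (.leaf
  4))) (.bis 0 1 1 2 177 (.bis 2 4 1 1 179 (.bis 1 3 4 1 178 (.leaf 9) (.leaf 9)) (.bis 1 3 4 1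
  178 (.leaf 9) (.leaf 9))) (.leaf 9))))) (.bis 1 4 1 1 175 (.bis 0 4 1 1 162 (.bis 2 4 1 2 163
  (.bis 3 5 2 1 137 (.leaf 4) (.leaf 4)) (.bis 2 3 1 2 148 (.leaf 4) (.leaf 9))) (.bis 0 3 1 1
  139 (.bis 2 3 1 2 148 (.leaf 4) (.leaf 9)) (.bis 0 1 2 1 180 (.bis 2 4 1 1 165 (.leaf 4) (.leaf
  9)) (.bis 0 2 2 1 69 (.leaf 3) (.leaf 3))))) (.bis 0 3 1 1 139 (.bis 2 3 1 2 148 (.bis 1 3 1 1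
  176 (.leaf 4) (.bis 1 5 2 1 177 (.leaf 4) (.bis 0 1 1 2 181 (.bis 1 2 4 1 178 (.leaf 9) (.leaf
  9)) (.leaf 9)))) (.bis 1 5 2 1 177 (.leaf 9) (.bis 0 1 1 2 181 (.bis 2 4 1 1 179 (.bis 1 3 4 1
  178 (.leaf 9) (.leaf 9)) (.bis 1 3 4 1 178 (.leaf 9) (.leaf 9))) (.leaf 9)))) (.bis 0 1 1 1 182
  (.bis 1 5 2 1 177 (.leaf 9) (.bis 1 3 2 1 181 (.leaf 9) (.leaf 9))) (.leaf 56))))) (.bis 2 4 2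
  1 166 (.bis 1 4 1 1 175 (.bis 0 4 1 1 162 (.bis 4 5 2 1 163 (.bis 3 5 2 1 148 (.leaf 9) (.leaf
  30)) (.bis 2 4 1 2 183 (.bis 3 4 1 1 184 (.leaf 4) (.leaf 4)) (.bis 2 3 1 2 185 (.leaf 4)
  (.leaf 9)))) (.bis 0 3 1 1 139 (.bis 3 5 2 1 148 (.leaf 9) (.leaf 30)) (.bis 0 1 2 1 180 (.bis
  4 5 1 1 165 (.leaf 9) (.leaf 9)) (.bis 0 5 2 1 69 (.leaf 3) (.leaf 3))))) (.bis 0 3 1 1 139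
  (.bis 3 5 2 1 148 (.bis 0 1 1 2 181 (.bis 4 5 1 1 179 (.bis 1 3 4 1 178 (.leaf 9) (.leaf 9))
  (.bis 1 3 4 1 178 (.leaf 9) (.leaf 9))) (.leaf 9)) (.bis 1 3 1 1 176 (.leaf 30) (.bis 0 1 1 2
  181 (.bis 1 5 4 1 178 (.leaf 9) (.leaf 9)) (.leaf 9)))) (.bis 0 1 1 1 182 (.bis 1 3 2 1 181
  (.leaf 9) (.leaf 9)) (.leaf 56)))) (.bis 2 3 2 1 153 (.bis 0 3 1 1 139 (.bis 3 5 2 1 148 (.bis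
  0 1 1 2 181 (.bis 1 3 4 1 178 (.leaf 9) (.leaf 9)) (.leaf 9)) (.bis 1 3 1 1 176 (.leaf 47)
  (.bis 0 1 1 2 181 (.bis 1 5 4 1 178 (.leaf 9) (.leaf 9)) (.leaf 9)))) (.bis 0 1 1 1 182 (.bis 1
  3 2 1 181 (.leaf 9) (.leaf 9)) (.leaf 26))) (.bis 0 2 1 2 89 (.bis 1 2 1 2 186 (.bis 2 4 4 1
  167 (.bis 0 5 1 1 97 (.bis 1 5 1 1 187 (.leaf 34) (.bis 1 4 1 1 188 (.leaf 23) (.leaf 23)))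
  (.bis 1 4 1 1 188 (.leaf 23) (.leaf 23))) (.bis 2 5 4 1 106 (.bis 0 5 1 1 97 (.leaf 57) (.leaf
  23)) (.bis 2 3 4 1 158 (.leaf 23) (.bis 0 2 1 4 107 (.bis 1 2 1 4 189 (.bis 2 4 8 1 168 (.leaf
  19) (.bis 2 5 8 1 112 (.leaf 19) (.bis 2 3 8 1 159 (.leaf 19) (.bis 0 2 1 8 113 (.bis 1 2 1 8
  190 (.leaf 41) (.leaf 19)) (.leaf 19))))) (.leaf 69)) (.leaf 70))))) (.bis 0 1 1 2 191 (.bis 1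
  3 2 1 192 (.bis 2 5 1 1 187 (.leaf 9) (.bis 2 4 1 1 188 (.leaf 9) (.leaf 23))) (.bis 1 5 2 1
  193 (.bis 2 5 1 1 187 (.leaf 9) (.leaf 57)) (.bis 2 4 1 1 188 (.leaf 9) (.leaf 71)))) (.bis 0 5
  1 1 97 (.bis 2 5 1 1 187 (.leaf 9) (.bis 2 4 1 1 188 (.leaf 9) (.leaf 23))) (.bis 2 4 1 1 188
  (.leaf 23) (.leaf 23))))) (.bis 0 1 1 1 182 (.bis 1 2 2 1 191 (.bis 2 5 1 1 97 (.leaf 9) (.leaf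
  23)) (.leaf 9)) (.leaf 67)))))) (.bis 0 1 1 2 194 (.bis 2 5 1 1 173 (.bis 1 5 2 1 195 (.bis 3 5
  1 1 134 (.bis 0 5 1 2 196 (.bis 4 5 1 1 174 (.bis 2 5 1 2 197 (.bis 1 5 1 2 198 (.leaf 20)
  (.bis 1 3 1 1 199 (.leaf 14) (.bis 1 4 1 1 200 (.leaf 14) (.leaf 14)))) (.bis 1 3 1 1 199
  (.leaf 4) (.bis 1 4 1 1 200 (.leaf 4) (.bis 1 2 1 1 201 (.leaf 14) (.leaf 14))))) (.bis 1 4 1 2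
  202 (.leaf 4) (.bis 1 3 1 1 199 (.leaf 4) (.bis 1 5 1 1 200 (.leaf 4) (.leaf 14))))) (.bis 1 4
  1 2 202 (.bis 2 4 1 2 203 (.bis 0 4 1 2 204 (.leaf 4) (.bis 0 3 1 1 205 (.leaf 4) (.leaf 4)))
  (.bis 0 3 1 1 205 (.leaf 4) (.leaf 4))) (.bis 0 1 1 1 206 (.bis 1 3 1 1 199 (.leaf 4) (.leaf
  14)) (.bis 0 3 1 1 205 (.leaf 4) (.leaf 4))))) (.bis 1 3 1 2 207 (.bis 0 3 1 2 208 (.leaf 4)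
  (.bis 2 4 1 2 203 (.bis 0 4 1 2 204 (.leaf 4) (.leaf 4)) (.bis 0 5 1 1 205 (.leaf 4) (.leaf
  4)))) (.bis 1 4 1 2 202 (.bis 2 4 1 2 203 (.bis 0 4 1 2 204 (.leaf 4) (.bis 0 5 1 1 205 (.leaf
  4) (.leaf 4))) (.bis 0 5 1 1 205 (.leaf 4) (.leaf 4))) (.bis 0 1 1 1 206 (.bis 1 5 1 1 199
  (.leaf 4) (.leaf 14)) (.bis 0 5 1 1 205 (.leaf 4) (.leaf 4)))))) (.bis 1 3 2 1 209 (.bis 3 5 2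
  1 207 (.bis 4 5 2 1 202 (.bis 0 5 1 1 206 (.bis 1 2 1 1 210 (.bis 2 5 1 1 201 (.leaf 14) (.leaf
  8)) (.bis 1 5 1 1 211 (.leaf 14) (.leaf 8))) (.bis 1 2 1 1 210 (.leaf 4) (.leaf 8))) (.bis 1 4
  1 2 212 (.bis 2 4 1 2 203 (.bis 0 4 1 2 204 (.leaf 4) (.bis 0 5 2 1 213 (.leaf 4) (.leaf 4)))
  (.bis 0 5 2 1 213 (.leaf 4) (.leaf 4))) (.leaf 8))) (.bis 0 3 1 2 208 (.bis 2 3 1 2 214 (.leaf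
  43) (.bis 1 4 1 2 212 (.leaf 4) (.leaf 8))) (.bis 1 4 1 2 212 (.leaf 4) (.leaf 8)))) (.bis 1 4
  2 1 215 (.bis 4 5 2 1 202 (.bis 0 5 1 1 206 (.bis 1 2 1 1 216 (.bis 2 3 1 1 210 (.bis 3 5 1 1
  211 (.leaf 14) (.leaf 8)) (.leaf 14)) (.bis 3 5 1 1 211 (.leaf 14) (.leaf 8))) (.bis 1 2 1 1
  216 (.bis 2 3 1 1 210 (.leaf 8) (.leaf 4)) (.bis 0 4 2 1 213 (.bis 3 4 2 1 217 (.leaf 8) (.leaf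
  8)) (.leaf 8)))) (.bis 3 4 1 2 212 (.bis 2 4 1 2 203 (.bis 0 4 1 2 204 (.leaf 37) (.bis 0 5 2 1
  213 (.leaf 8) (.leaf 8))) (.bis 1 2 1 1 216 (.leaf 4) (.bis 0 5 2 1 213 (.leaf 8) (.leaf 8))))
  (.bis 1 2 1 1 216 (.bis 2 3 1 1 210 (.leaf 8) (.leaf 4)) (.bis 0 5 2 1 213 (.bis 3 5 2 1 217
  (.leaf 8) (.leaf 8)) (.leaf 8))))) (.bis 1 2 4 1 218 (.bis 0 5 1 1 206 (.bis 2 4 1 1 216 (.leaf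
  36) (.bis 2 3 1 1 210 (.leaf 36) (.leaf 14))) (.leaf 73)) (.bis 0 1 1 4 219 (.bis 1 3 4 1 220
  (.bis 3 5 1 1 211 (.leaf 24) (.leaf 36)) (.bis 1 4 4 1 221 (.leaf 24) (.bis 1 5 4 1 222 (.leaf
  59) (.bis 1 2 8 1 223 (.leaf 27) (.bis 0 1 1 8 224 (.bis 1 3 8 1 225 (.leaf 27) (.bis 1 4 8 1
  226 (.leaf 27) (.leaf 48))) (.leaf 27)))))) (.bis 0 5 1 1 206 (.leaf 36) (.leaf 49))))))) (.bis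
  1 3 2 1 209 (.bis 2 4 1 1 175 (.bis 0 3 1 2 208 (.bis 3 5 2 1 214 (.bis 1 4 1 2 212 (.leaf 4)
  (.leaf 8)) (.bis 3 4 1 1 184 (.bis 1 4 1 2 212 (.leaf 4) (.leaf 8)) (.bis 2 3 1 2 227 (.bis 1 3
  1 2 228 (.leaf 4) (.leaf 43)) (.bis 1 2 1 1 229 (.leaf 4) (.leaf 8))))) (.bis 1 4 1 2 212
  (.leaf 4) (.bis 1 5 1 1 210 (.leaf 4) (.leaf 8)))) (.bis 2 3 1 1 176 (.leaf 72) (.bis 1 2 1 2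
  230 (.leaf 42) (.bis 1 5 1 1 210 (.leaf 18) (.leaf 18))))) (.bis 1 4 2 1 215 (.bis 2 4 1 1 175
  (.bis 3 4 1 2 212 (.leaf 37) (.bis 1 5 1 1 216 (.bis 3 5 1 1 210 (.leaf 4) (.leaf 8)) (.leaf
  8))) (.bis 1 2 1 2 231 (.bis 2 3 2 1 230 (.bis 3 5 1 1 210 (.leaf 18) (.leaf 18)) (.leaf 42))
  (.bis 1 5 1 1 216 (.bis 3 5 1 1 210 (.leaf 8) (.leaf 8)) (.leaf 8)))) (.bis 1 2 2 1 232 (.bis 2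
  4 2 1 231 (.bis 4 5 1 1 216 (.bis 3 5 1 1 210 (.bis 1 5 1 1 233 (.leaf 8) (.bis 0 1 1 1 234
  (.leaf 18) (.leaf 8))) (.bis 0 3 1 1 235 (.bis 1 3 1 1 236 (.leaf 18) (.leaf 18)) (.bis 0 1 1 1
  234 (.leaf 18) (.leaf 8)))) (.bis 1 4 1 1 237 (.leaf 8) (.leaf 18))) (.bis 2 3 2 1 230 (.bis 3
  5 1 1 210 (.bis 1 5 1 1 233 (.leaf 18) (.leaf 18)) (.leaf 18)) (.leaf 74))) (.bis 1 5 4 1 218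
  (.bis 4 5 1 1 216 (.bis 3 5 1 1 210 (.bis 2 5 1 1 233 (.leaf 18) (.leaf 18)) (.bis 0 3 1 1 235
  (.bis 2 3 1 1 236 (.leaf 18) (.leaf 18)) (.bis 0 1 2 1 238 (.bis 2 4 2 1 239 (.leaf 14) (.leaf
  18)) (.bis 0 2 1 1 234 (.leaf 18) (.leaf 8))))) (.bis 2 4 1 1 237 (.leaf 49) (.leaf 18))) (.bis
  0 1 1 4 219 (.bis 1 3 4 1 220 (.bis 2 4 1 1 237 (.leaf 36) (.leaf 75)) (.bis 1 4 4 1 221 (.bis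
  2 4 1 1 237 (.leaf 24) (.leaf 60)) (.bis 1 2 4 1 240 (.leaf 60) (.bis 1 5 8 1 223 (.leaf 27)
  (.bis 0 1 1 8 224 (.bis 1 3 8 1 225 (.leaf 27) (.bis 1 4 8 1 226 (.leaf 27) (.leaf 48))) (.leaf
  27)))))) (.leaf 49))))))) (.bis 0 5 1 1 61 (.bis 2 5 1 1 173 (.bis 3 5 1 1 134 (.bis 1 5 1 2
  196 (.leaf 20) (.bis 2 4 1 2 203 (.bis 1 4 1 2 204 (.leaf 4) (.bis 1 3 1 1 205 (.leaf 4) (.leaf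
  4))) (.bis 1 3 1 1 205 (.leaf 4) (.leaf 4)))) (.bis 0 3 1 2 137 (.bis 1 3 1 2 208 (.leaf 4)
  (.bis 2 4 1 2 203 (.bis 1 4 1 2 204 (.leaf 4) (.leaf 4)) (.bis 1 5 1 1 205 (.leaf 4) (.leaf
  4)))) (.bis 2 4 1 2 203 (.bis 1 4 1 2 204 (.leaf 4) (.bis 1 5 1 1 205 (.leaf 4) (.leaf 4)))
  (.bis 1 5 1 1 205 (.leaf 4) (.leaf 4))))) (.bis 2 4 1 1 175 (.bis 0 3 1 2 137 (.bis 1 3 1 2 208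
  (.leaf 4) (.leaf 4)) (.leaf 4)) (.bis 2 3 1 1 176 (.leaf 4) (.bis 0 2 1 2 177 (.bis 1 2 1 2 241
  (.leaf 9) (.leaf 32)) (.leaf 4))))) (.bis 2 4 1 1 175 (.bis 0 4 1 1 162 (.bis 3 5 2 1 137
  (.leaf 4) (.bis 1 3 1 2 208 (.leaf 4) (.leaf 4))) (.bis 0 3 1 1 139 (.bis 3 5 2 1 137 (.leaf 4)
  (.leaf 4)) (.leaf 50))) (.bis 0 3 1 1 139 (.bis 2 3 1 1 176 (.leaf 4) (.bis 2 5 2 1 177 (.leaf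
  4) (.bis 0 2 1 2 181 (.leaf 42) (.leaf 32)))) (.bis 0 2 1 1 182 (.bis 2 5 2 1 177 (.leaf 32)
  (.bis 2 3 2 1 181 (.leaf 32) (.leaf 42))) (.leaf 50)))))))))

def lc1 : List Vr := [⟨[55,0,67,0,0,0], 95066, 0⟩, ⟨[0,67,0,0,0,0], 17956, 0⟩, ⟨[0,0,67,0,0,0],
  17956, 0⟩, ⟨[0,0,0,55,0,0], 18150, 0⟩, ⟨[0,0,0,0,42,0], 17640, 0⟩, ⟨[0,67,0,0,0,55], 54806, 0⟩]

theorem lk1 : chkTr lowT (leafLow 5 lowB) lt1 lc1 = true := by decide +kernel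

def lt2 : Tr ℕ := (.bis 1 3 1 1 133 (.bis 0 3 1 1 24 (.bis 3 5 2 1 15 (.bis 4 5 2 1 12 (.bis 0 5
  1 1 33 (.bis 2 5 1 1 61 (.bis 1 5 1 1 134 (.leaf 17) (.bis 1 4 2 1 135 (.leaf 2) (.leaf 2)))
  (.bis 2 4 2 1 51 (.bis 1 4 2 1 135 (.leaf 2) (.bis 1 2 4 1 138 (.leaf 2) (.leaf 2))) (.bis 2 3
  2 1 42 (.bis 1 4 4 1 138 (.leaf 2) (.leaf 2)) (.bis 1 2 1 1 139 (.leaf 3) (.bis 1 4 4 1 138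
  (.leaf 2) (.leaf 2)))))) (.bis 2 4 2 1 51 (.bis 1 4 2 1 135 (.leaf 2) (.bis 0 1 1 1 242 (.leaf
  2) (.leaf 2))) (.bis 2 3 2 1 42 (.bis 0 1 1 1 242 (.leaf 2) (.leaf 2)) (.bis 1 2 1 1 139 (.leaf
  5) (.bis 0 1 1 1 242 (.leaf 2) (.leaf 2)))))) (.bis 1 4 1 2 142 (.bis 2 4 1 2 46 (.leaf 31)
  (.bis 2 5 2 1 51 (.leaf 2) (.bis 2 3 2 1 42 (.leaf 2) (.bis 1 2 1 2 243 (.leaf 5) (.leaf 2)))))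
  (.bis 2 5 2 1 51 (.bis 1 5 2 1 135 (.leaf 2) (.bis 0 1 1 1 242 (.leaf 2) (.leaf 2))) (.bis 2 3
  2 1 42 (.bis 0 1 1 1 242 (.leaf 2) (.leaf 2)) (.bis 1 2 1 1 139 (.bis 2 4 2 1 243 (.leaf 2)
  (.leaf 5)) (.bis 0 1 1 1 242 (.leaf 2) (.leaf 2))))))) (.bis 3 4 1 1 17 (.bis 1 4 1 2 142 (.bis
  2 4 1 2 46 (.leaf 31) (.bis 2 3 1 1 47 (.leaf 11) (.bis 2 5 2 1 42 (.leaf 2) (.bis 1 2 1 2 243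
  (.leaf 5) (.leaf 2))))) (.bis 2 3 1 1 47 (.bis 1 3 1 1 144 (.leaf 11) (.bis 0 1 1 1 242 (.leaf
  2) (.leaf 2))) (.bis 2 5 2 1 42 (.bis 0 1 1 1 242 (.leaf 2) (.leaf 2)) (.bis 1 2 1 1 139 (.bis
  2 4 2 1 243 (.leaf 2) (.leaf 5)) (.leaf 2))))) (.bis 2 3 1 2 48 (.bis 1 3 1 2 146 (.leaf 38)
  (.bis 1 4 1 1 144 (.leaf 11) (.leaf 2))) (.bis 2 4 1 1 47 (.bis 1 4 1 1 144 (.leaf 11) (.leaf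
  2)) (.bis 2 5 2 1 42 (.bis 0 1 1 1 242 (.leaf 2) (.leaf 2)) (.bis 1 2 1 1 139 (.leaf 28) (.leaf
  2))))))) (.bis 0 5 2 1 37 (.bis 4 5 2 1 12 (.bis 3 5 1 1 33 (.bis 2 5 1 1 61 (.bis 0 1 1 2 244
  (.bis 1 5 1 1 134 (.leaf 20) (.bis 1 4 2 1 135 (.leaf 2) (.leaf 2))) (.leaf 20)) (.bis 2 4 2 1
  51 (.bis 0 1 1 2 244 (.bis 1 4 2 1 135 (.leaf 2) (.bis 1 2 4 1 138 (.leaf 2) (.leaf 2))) (.leaf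
  5)) (.bis 0 1 1 2 244 (.bis 1 2 1 1 139 (.leaf 5) (.bis 1 4 4 1 138 (.leaf 2) (.leaf 2))) (.bis
  0 2 1 2 130 (.leaf 5) (.leaf 5))))) (.bis 2 4 2 1 51 (.bis 0 1 1 2 244 (.bis 1 4 2 1 135 (.leaf
  2) (.bis 1 3 1 1 242 (.leaf 2) (.leaf 2))) (.leaf 5)) (.bis 0 1 1 2 244 (.bis 1 2 1 1 139 (.bis
  2 3 1 1 126 (.leaf 2) (.leaf 5)) (.bis 1 3 1 1 242 (.leaf 2) (.leaf 2))) (.bis 0 2 1 2 130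
  (.leaf 5) (.leaf 5))))) (.bis 1 4 1 2 142 (.bis 2 4 1 2 46 (.bis 0 4 1 4 38 (.bis 3 4 1 2 30
  (.leaf 12) (.leaf 5)) (.leaf 5)) (.bis 2 5 2 1 51 (.leaf 5) (.bis 1 2 1 2 243 (.bis 0 2 1 2 130
  (.leaf 5) (.leaf 5)) (.leaf 5)))) (.bis 2 5 2 1 51 (.bis 0 1 1 2 244 (.bis 1 5 2 1 135 (.leaf
  2) (.bis 1 3 1 1 242 (.leaf 2) (.leaf 2))) (.leaf 5)) (.bis 0 1 1 2 244 (.bis 1 2 1 1 139 (.bis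
  2 4 2 1 243 (.leaf 2) (.leaf 5)) (.leaf 2)) (.bis 2 4 2 1 243 (.leaf 5) (.leaf 5)))))) (.bis 0
  4 1 1 39 (.bis 1 4 1 2 142 (.bis 2 4 1 2 46 (.bis 4 5 4 1 38 (.leaf 5) (.leaf 12)) (.bis 0 2 1
  1 131 (.bis 1 2 1 2 243 (.leaf 5) (.leaf 5)) (.leaf 5))) (.bis 0 1 1 1 245 (.bis 1 5 2 1 244
  (.bis 2 4 2 1 243 (.leaf 5) (.bis 2 5 2 1 130 (.leaf 5) (.leaf 5))) (.bis 1 2 1 1 139 (.bis 2 4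
  2 1 243 (.leaf 2) (.leaf 5)) (.leaf 2))) (.bis 0 2 1 1 131 (.bis 2 4 2 1 243 (.leaf 5) (.leaf
  5)) (.leaf 5)))) (.bis 0 1 2 1 246 (.bis 1 4 1 1 245 (.bis 2 4 1 1 131 (.leaf 5) (.bis 2 5 2 1
  130 (.leaf 5) (.leaf 5))) (.bis 1 5 2 1 244 (.bis 2 5 2 1 130 (.leaf 5) (.leaf 5)) (.bis 1 2 1
  1 139 (.bis 2 3 1 1 126 (.leaf 5) (.leaf 5)) (.leaf 65)))) (.bis 0 2 2 1 132 (.bis 2 4 1 1 131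
  (.leaf 5) (.leaf 5)) (.leaf 39)))))) (.bis 1 4 1 1 161 (.bis 0 5 2 1 37 (.bis 4 5 2 1 12 (.bis
  2 5 1 1 61 (.bis 0 3 1 2 244 (.bis 3 5 1 1 134 (.leaf 20) (.bis 3 4 2 1 135 (.leaf 2) (.leaf
  2))) (.leaf 20)) (.bis 2 4 2 1 51 (.bis 0 3 1 2 244 (.bis 3 4 2 1 135 (.leaf 2) (.bis 2 3 1 4
  138 (.leaf 2) (.leaf 2))) (.leaf 12)) (.bis 0 3 1 2 244 (.bis 1 2 1 1 162 (.bis 2 3 1 1 139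
  (.bis 3 4 4 1 138 (.leaf 2) (.leaf 2)) (.leaf 5)) (.bis 3 4 4 1 138 (.leaf 2) (.leaf 2))) (.bis
  1 2 1 1 162 (.leaf 5) (.leaf 12))))) (.bis 2 4 1 2 46 (.bis 3 4 1 2 142 (.bis 0 4 1 4 38 (.leaf
  12) (.leaf 12)) (.bis 0 3 1 2 244 (.bis 3 5 2 1 135 (.leaf 2) (.bis 2 3 1 2 143 (.leaf 2)
  (.leaf 2))) (.leaf 12))) (.bis 2 5 2 1 51 (.bis 0 3 1 2 244 (.bis 3 5 2 1 135 (.leaf 2) (.bis 3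
  4 2 1 143 (.leaf 2) (.leaf 2))) (.leaf 12)) (.bis 0 3 1 2 244 (.bis 1 2 1 1 162 (.bis 2 3 1 1
  139 (.bis 3 4 2 1 143 (.leaf 2) (.leaf 2)) (.leaf 5)) (.bis 3 4 2 1 143 (.leaf 2) (.bis 3 5 4 1
  138 (.leaf 2) (.leaf 2)))) (.bis 1 2 1 1 162 (.leaf 5) (.leaf 12)))))) (.bis 0 4 1 1 39 (.bis 2
  4 1 2 46 (.bis 3 4 1 2 142 (.bis 4 5 4 1 38 (.leaf 12) (.leaf 12)) (.bis 0 3 1 1 245 (.bis 3 5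
  2 1 244 (.leaf 12) (.bis 2 3 1 2 143 (.leaf 2) (.leaf 2))) (.leaf 12))) (.bis 0 3 1 1 245 (.bis
  3 5 2 1 244 (.bis 1 2 1 1 162 (.bis 2 5 2 1 130 (.leaf 5) (.leaf 5)) (.leaf 12)) (.bis 1 2 1 1
  162 (.bis 2 3 1 1 139 (.bis 3 4 2 1 143 (.leaf 2) (.leaf 2)) (.leaf 5)) (.bis 3 4 2 1 143
  (.leaf 2) (.leaf 2)))) (.bis 0 2 1 1 131 (.bis 1 2 1 1 162 (.leaf 5) (.leaf 12)) (.leaf 12))))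
  (.bis 0 3 2 1 246 (.bis 3 4 1 1 245 (.bis 2 4 1 1 131 (.leaf 12) (.bis 1 2 1 1 162 (.leaf 5)
  (.leaf 12))) (.bis 3 5 2 1 244 (.bis 1 2 1 1 162 (.bis 2 5 2 1 130 (.leaf 5) (.leaf 5)) (.leaf
  12)) (.bis 1 2 1 1 162 (.bis 2 3 1 1 139 (.leaf 30) (.leaf 5)) (.bis 0 3 1 2 247 (.leaf 2)
  (.leaf 13))))) (.bis 0 1 2 1 248 (.bis 2 4 1 1 131 (.bis 1 4 1 1 249 (.leaf 5) (.leaf 12))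
  (.bis 1 2 1 1 162 (.leaf 5) (.leaf 12))) (.bis 0 2 2 1 132 (.bis 2 4 1 1 131 (.leaf 5) (.bis 2
  5 2 1 130 (.leaf 5) (.leaf 5))) (.leaf 39)))))) (.bis 0 1 1 1 250 (.bis 1 2 2 1 194 (.bis 2 5 1
  1 61 (.bis 3 5 1 1 134 (.bis 0 5 1 1 251 (.bis 1 5 1 2 196 (.leaf 20) (.bis 1 4 1 2 204 (.leaf
  4) (.bis 1 3 1 1 205 (.leaf 4) (.leaf 4)))) (.bis 0 3 2 1 252 (.bis 1 4 1 2 204 (.leaf 4) (.bis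
  1 3 1 1 205 (.leaf 4) (.leaf 4))) (.leaf 13))) (.bis 0 3 1 1 253 (.bis 2 3 1 2 137 (.bis 1 3 1
  2 208 (.leaf 4) (.bis 1 4 1 2 204 (.leaf 4) (.leaf 4))) (.bis 1 4 1 2 204 (.leaf 4) (.leaf 4)))
  (.bis 0 5 2 1 252 (.bis 1 4 1 2 204 (.leaf 4) (.leaf 4)) (.leaf 13)))) (.bis 2 4 1 1 162 (.bis
  0 3 1 1 253 (.bis 3 5 2 1 137 (.leaf 4) (.bis 1 3 1 2 208 (.leaf 4) (.leaf 4))) (.leaf 13))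
  (.bis 2 3 1 1 139 (.bis 0 3 1 1 253 (.leaf 4) (.bis 0 2 2 1 254 (.leaf 4) (.leaf 13))) (.bis 0
  2 1 1 255 (.leaf 50) (.leaf 13))))) (.bis 1 5 2 1 195 (.bis 3 5 1 1 134 (.bis 0 5 1 1 251 (.bis
  2 5 1 2 196 (.bis 4 5 1 1 174 (.bis 1 5 1 2 198 (.leaf 20) (.bis 1 3 1 1 199 (.leaf 14) (.bis 1
  4 1 1 200 (.leaf 14) (.leaf 14)))) (.bis 1 4 1 2 202 (.leaf 4) (.bis 1 3 1 1 199 (.leaf 4)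
  (.bis 1 5 1 1 200 (.leaf 4) (.leaf 14))))) (.bis 1 4 1 2 202 (.bis 2 4 1 2 204 (.leaf 4) (.bis
  2 3 1 1 205 (.leaf 4) (.leaf 4))) (.bis 1 2 1 1 206 (.bis 2 3 1 1 205 (.leaf 4) (.leaf 4))
  (.bis 1 3 1 1 199 (.leaf 4) (.leaf 14))))) (.bis 0 3 2 1 252 (.bis 1 4 1 2 202 (.bis 2 4 1 2
  204 (.leaf 4) (.bis 2 3 1 1 205 (.leaf 4) (.leaf 4))) (.bis 1 2 1 1 206 (.bis 2 3 1 1 205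
  (.leaf 4) (.leaf 4)) (.bis 1 3 1 1 199 (.leaf 4) (.leaf 14)))) (.bis 0 1 2 1 256 (.bis 1 4 1 2
  202 (.bis 2 4 1 2 204 (.leaf 13) (.leaf 13)) (.bis 1 2 1 1 206 (.leaf 37) (.bis 1 3 2 1 257
  (.leaf 14) (.leaf 14)))) (.bis 0 4 1 1 258 (.bis 2 4 1 2 204 (.leaf 13) (.leaf 13)) (.leaf
  13))))) (.bis 0 3 1 1 253 (.bis 1 3 1 2 207 (.bis 2 3 1 2 208 (.leaf 4) (.bis 2 4 1 2 204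
  (.leaf 4) (.leaf 4))) (.bis 1 4 1 2 202 (.bis 2 4 1 2 204 (.leaf 4) (.bis 2 5 1 1 205 (.leaf 4)
  (.leaf 4))) (.bis 0 1 1 1 259 (.bis 1 2 1 1 206 (.bis 2 5 1 1 205 (.leaf 4) (.leaf 4)) (.bis 1
  5 1 1 199 (.leaf 4) (.leaf 14))) (.bis 2 5 1 1 205 (.leaf 4) (.leaf 4))))) (.bis 0 5 2 1 252
  (.bis 1 4 1 2 202 (.bis 2 4 1 2 204 (.leaf 4) (.leaf 4)) (.bis 1 3 1 1 259 (.bis 2 5 1 1 205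
  (.leaf 4) (.leaf 4)) (.bis 1 2 1 1 206 (.leaf 4) (.bis 1 5 1 1 199 (.leaf 4) (.leaf 14)))))
  (.bis 0 1 2 1 256 (.bis 1 4 1 2 202 (.leaf 13) (.bis 1 3 1 1 259 (.leaf 8) (.bis 1 2 1 1 206
  (.leaf 8) (.bis 1 5 2 1 257 (.leaf 8) (.leaf 14))))) (.leaf 13))))) (.bis 1 3 2 1 209 (.bis 0 3
  1 1 253 (.bis 3 5 2 1 207 (.bis 4 5 2 1 202 (.bis 0 5 1 1 259 (.bis 2 5 1 1 206 (.bis 1 5 1 1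
  211 (.leaf 14) (.leaf 8)) (.leaf 8)) (.leaf 8)) (.bis 1 4 1 2 212 (.bis 2 4 1 2 204 (.leaf 4)
  (.leaf 4)) (.leaf 8))) (.bis 2 3 1 2 208 (.leaf 43) (.leaf 43))) (.bis 0 5 2 1 256 (.bis 4 5 2
  1 202 (.bis 3 5 1 1 259 (.bis 2 5 1 1 206 (.bis 0 1 1 2 260 (.leaf 58) (.leaf 14)) (.bis 2 4 2
  1 213 (.bis 0 1 1 2 260 (.leaf 8) (.leaf 8)) (.bis 0 1 1 2 260 (.leaf 8) (.leaf 8)))) (.bis 2 4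
  2 1 213 (.bis 0 1 1 2 260 (.leaf 8) (.leaf 8)) (.bis 0 1 1 2 260 (.leaf 8) (.leaf 8)))) (.bis 1
  4 1 2 212 (.bis 2 4 1 2 204 (.leaf 13) (.leaf 8)) (.bis 2 5 2 1 213 (.bis 0 1 1 2 260 (.leaf 8)
  (.leaf 8)) (.bis 0 1 1 2 260 (.leaf 8) (.leaf 8))))) (.bis 0 1 2 1 261 (.bis 1 4 1 2 212 (.leaf
  13) (.leaf 8)) (.leaf 13)))) (.bis 1 4 2 1 215 (.bis 0 5 2 1 256 (.bis 4 5 2 1 202 (.bis 2 5 1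
  1 206 (.bis 0 3 1 2 260 (.leaf 58) (.leaf 14)) (.bis 2 4 2 1 213 (.bis 0 3 1 2 260 (.leaf 8)
  (.leaf 8)) (.bis 0 3 1 2 260 (.leaf 8) (.leaf 8)))) (.bis 3 4 1 2 212 (.bis 2 4 1 2 204 (.leaf
  37) (.leaf 8)) (.bis 2 5 2 1 213 (.bis 0 3 1 2 260 (.leaf 8) (.leaf 8)) (.leaf 8)))) (.bis 0 3
  2 1 261 (.bis 3 4 1 2 212 (.leaf 37) (.leaf 8)) (.leaf 76))) (.bis 0 1 1 2 262 (.bis 1 2 4 1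
  219 (.bis 2 5 1 1 206 (.bis 3 5 1 1 211 (.leaf 24) (.leaf 35)) (.leaf 35)) (.bis 1 3 4 1 220
  (.bis 3 5 1 1 211 (.leaf 24) (.bis 0 3 1 1 263 (.leaf 36) (.leaf 24))) (.bis 1 4 4 1 221 (.bis
  0 5 1 1 264 (.leaf 24) (.leaf 24)) (.bis 1 5 4 1 222 (.bis 0 5 1 1 264 (.leaf 59) (.leaf 61))
  (.bis 0 1 1 4 265 (.bis 1 2 8 1 224 (.leaf 27) (.bis 1 3 8 1 225 (.leaf 27) (.bis 1 4 8 1 226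
  (.leaf 27) (.leaf 48)))) (.leaf 61)))))) (.bis 0 5 2 1 256 (.bis 2 5 1 1 206 (.bis 0 3 1 2 260
  (.bis 3 5 1 1 211 (.bis 1 5 1 1 264 (.leaf 14) (.leaf 24)) (.bis 1 3 1 1 263 (.leaf 8) (.leaf
  24))) (.leaf 24)) (.bis 0 3 1 2 260 (.bis 2 4 1 1 266 (.leaf 35) (.bis 2 3 1 1 235 (.bis 1 3 1
  1 263 (.leaf 8) (.leaf 24)) (.bis 1 2 1 1 267 (.leaf 8) (.leaf 24)))) (.leaf 35))) (.bis 0 3 2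
  1 261 (.bis 3 5 2 1 260 (.leaf 35) (.leaf 35)) (.bis 0 4 2 1 268 (.leaf 35) (.leaf 77)))))))))
  (.bis 0 5 2 1 37 (.bis 2 5 1 1 61 (.bis 0 3 1 2 244 (.bis 3 5 1 1 134 (.bis 1 5 1 1 251 (.leaf
  20) (.bis 1 3 2 1 252 (.leaf 4) (.bis 1 4 1 1 258 (.leaf 4) (.leaf 13)))) (.bis 1 3 1 1 253
  (.leaf 4) (.bis 1 5 2 1 252 (.leaf 4) (.leaf 13)))) (.bis 1 5 1 1 251 (.leaf 20) (.bis 0 4 1 2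
  269 (.bis 1 4 1 1 258 (.leaf 4) (.leaf 13)) (.bis 1 2 2 1 270 (.leaf 13) (.leaf 13))))) (.bis 0
  3 1 2 244 (.bis 2 4 1 1 162 (.bis 1 3 1 1 253 (.leaf 4) (.bis 1 4 1 1 258 (.leaf 4) (.leaf
  13))) (.bis 2 3 1 1 139 (.bis 1 3 1 1 253 (.leaf 4) (.bis 1 2 2 1 254 (.leaf 4) (.leaf 13)))
  (.bis 1 2 1 1 255 (.leaf 5) (.bis 1 3 2 1 254 (.leaf 13) (.leaf 13))))) (.bis 2 4 1 1 162 (.bis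
  0 4 1 2 269 (.bis 1 4 1 1 258 (.leaf 4) (.leaf 13)) (.bis 1 5 2 1 270 (.leaf 13) (.leaf 13)))
  (.bis 1 2 1 1 255 (.leaf 5) (.leaf 13))))) (.bis 0 3 2 1 246 (.bis 3 5 2 1 244 (.bis 2 4 1 1
  162 (.leaf 13) (.bis 1 2 1 1 255 (.leaf 5) (.leaf 13))) (.bis 2 4 1 1 162 (.bis 1 3 1 1 253
  (.leaf 30) (.leaf 13)) (.bis 2 3 1 1 139 (.bis 1 3 1 1 253 (.leaf 30) (.leaf 13)) (.bis 1 2 1 1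
  255 (.leaf 5) (.leaf 13))))) (.bis 0 4 2 1 248 (.bis 2 4 1 1 162 (.leaf 13) (.bis 1 2 1 1 255
  (.leaf 5) (.leaf 13))) (.bis 0 2 2 1 132 (.bis 1 2 1 1 255 (.leaf 5) (.leaf 62)) (.leaf
  62))))))))

def lc2 : List Vr := [⟨[55,0,0,0,0,0], 18150, 0⟩, ⟨[0,67,0,0,0,0], 17956, 0⟩, ⟨[55,0,67,0,0,0],
  95066, 0⟩, ⟨[0,0,0,55,0,0], 18150, 0⟩, ⟨[0,0,0,0,42,0], 17640, 0⟩, ⟨[0,67,0,0,0,55], 54806, 0⟩]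

theorem lk2 : chkTr lowT (leafLow 5 lowB) lt2 lc2 = true := by decide +kernel

end Pool.Agent.Helper10.Fam.A4
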