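import Pool.Agent.Helper10.FamD.A4UpT

set_option autoImplicit false
set_option maxRecDepth 1000000

/-!
# Certificate data for `U ⊕ A4` (upper bound, check of the vertices)
-/

namespace Pool.Agent.Helper10.Fam.A4

open Pool.Agent.Helper10.Fam

theorem vert_uV0 : uV0.all (upV dat 2420) = true := by decide +kernel

theorem verts_ok : upT.all (upV dat 2420) = true := vert_uV0

end Pool.Agent.Helper10.Fam.A4
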