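import Pool.Agent.Helper10.Fam.Fast

set_option autoImplicit false
set_option maxRecDepth 1000000

/-!
# Certificate data for `U ⊕ A5` (lattice data and cusps)
-/

namespace Pool.Agent.Helper10.Fam.A5

open Pool.Agent.Helper10.Fam

/-- lattice data -/
def dat : Dat := ⟨5, [[0,1,0,0,0,1,0], [1,0,1,0,0,0,0], [0,1,0,1,0,0,0], [0,0,
  1,0,1,0,0], [0,0,0,1,0,1,0], [1,0,0,0,1,0,1], [0,0,0,0,0,1,0]], [[7,8,9,10,11,12,6], [8,4,6,8,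
  10,12,6], [9,6,3,6,9,12,6], [10,8,6,4,8,12,6], [11,10,9,8,7,12,6], [12,12,12,12,12,12,6], [6,6,
  6,6,6,6,0]], 6, [1,1,1,1,1,1,0], 1800, [[1,1,1,1,1,1,0], [1,1,1,1,1,1,1], [1,1,1,1,1,2,1], [2,1,
  1,1,1,2,1], [2,2,1,1,1,2,1], [2,2,2,1,1,2,1], [2,2,2,2,1,2,1], [1,1,1,1,2,2,1], [2,1,1,1,2,2,1],
   [2,2,1,1,2,2,1], [2,2,2,1,2,2,1], [1,1,1,2,2,2,1], [2,1,1,2,2,2,1], [2,2,1,2,2,2,1], [1,1,2,2,
  2,2,1], [2,1,2,2,2,2,1], [1,2,2,2,2,2,1], [3,2,2,2,2,2,1], [2,3,2,2,2,2,1], [3,3,2,2,2,2,1], [2,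
  2,3,2,2,2,1], [2,3,3,2,2,2,1], [3,3,3,2,2,2,1], [2,2,2,3,2,2,1], [2,2,3,3,2,2,1], [2,3,3,3,2,2,
  1], [3,3,3,3,2,2,1], [2,2,2,2,3,2,1], [2,2,2,3,3,2,1], [2,2,3,3,3,2,1], [2,3,3,3,3,2,1], [3,3,3,
  3,3,2,1], [2,1,1,1,2,3,1], [2,2,1,1,2,3,1], [3,2,1,1,2,3,1], [2,2,2,1,2,3,1], [3,2,2,1,2,3,1],
  [3,3,2,1,2,3,1], [2,1,1,2,2,3,1], [2,2,1,2,2,3,1], [3,2,1,2,2,3,1], [2,1,2,2,2,3,1], [2,3,2,2,2,
  3,1], [4,3,2,2,2,3,1], [2,2,3,2,2,3,1], [3,2,3,2,2,3,1], [2,3,3,2,2,3,1], [4,3,3,2,2,3,1], [3,4,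
  3,2,2,3,1], [4,4,3,2,2,3,1], [2,2,2,3,2,3,1], [3,2,2,3,2,3,1], [3,3,2,3,2,3,1], [2,2,3,3,2,3,1],
   [3,2,3,3,2,3,1], [2,3,3,3,2,3,1], [4,3,3,3,2,3,1], [3,4,3,3,2,3,1], [4,4,3,3,2,3,1], [3,3,4,3,
  2,3,1], [3,4,4,3,2,3,1], [4,4,4,3,2,3,1], [2,1,1,2,3,3,1], [2,2,1,2,3,3,1], [3,2,1,2,3,3,1], [2,
  1,2,2,3,3,1], [2,3,2,2,3,3,1], [4,3,2,2,3,3,1], [2,2,3,2,3,3,1], [3,2,3,2,3,3,1], [2,3,3,2,3,3,
  1], [2,1,2,3,3,3,1], [2,3,2,3,3,3,1], [2,3,4,3,3,3,1], [2,2,3,4,3,3,1], [2,3,3,4,3,3,1], [2,3,4,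
  4,3,3,1], [2,2,2,3,4,3,1], [3,2,2,3,4,3,1], [2,2,3,3,4,3,1], [2,3,3,3,4,3,1], [2,2,3,4,4,3,1],
  [2,3,3,4,4,3,1], [2,3,4,4,4,3,1], [3,2,2,2,2,4,1], [3,3,2,2,2,4,1], [4,3,2,2,2,4,1], [3,3,3,2,2,
  4,1], [4,3,3,2,2,4,1], [4,4,3,2,2,4,1], [3,3,3,3,2,4,1], [4,3,3,3,2,4,1], [4,4,3,3,2,4,1], [4,4,
  4,3,2,4,1], [3,2,1,2,3,4,1], [2,2,2,2,3,4,1], [4,2,2,2,3,4,1], [4,4,2,2,3,4,1], [3,2,3,2,3,4,1],
   [2,2,2,3,3,4,1], [4,2,2,3,3,4,1], [2,2,3,3,3,4,1], [2,3,3,3,3,4,1], [3,2,2,2,4,4,1], [3,3,2,2,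
  4,4,1], [4,3,2,2,4,4,1], [2,2,2,3,4,4,1], [4,2,2,3,4,4,1], [2,2,3,3,4,4,1], [2,3,3,3,4,4,1], [3,
  2,2,4,4,4,1], [2,2,3,4,4,4,1], [2,3,3,4,4,4,1], [2,3,4,4,4,4,1], [4,3,2,2,3,5,1], [4,3,2,2,4,5,
  1], [3,2,2,3,4,5,1], [4,2,2,3,4,5,1], [2,1,1,1,2,3,2], [2,2,1,1,2,3,2], [3,2,1,1,2,3,2], [2,2,2,
  1,2,3,2], [3,2,2,1,2,3,2], [3,3,2,1,2,3,2], [2,1,1,2,2,3,2], [2,2,1,2,2,3,2], [3,2,1,2,2,3,2],
  [2,1,2,2,2,3,2], [2,3,2,2,2,3,2], [4,3,2,2,2,3,2], [2,2,3,2,2,3,2], [3,2,3,2,2,3,2], [2,3,3,2,2,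
  3,2], [2,2,2,3,2,3,2], [3,2,2,3,2,3,2], [3,3,2,3,2,3,2], [2,2,3,3,2,3,2], [3,2,3,3,2,3,2], [2,3,
  3,3,2,3,2], [2,1,1,2,3,3,2], [2,2,1,2,3,3,2], [3,2,1,2,3,3,2], [2,1,2,2,3,3,2], [2,3,2,2,3,3,2],
   [2,2,3,2,3,3,2], [2,3,3,2,3,3,2], [2,1,2,3,3,3,2], [2,3,2,3,3,3,2], [2,2,2,3,4,3,2], [3,2,1,1,
  2,4,2], [3,2,2,1,2,4,2], [3,3,2,1,2,4,2], [4,3,2,1,2,4,2], [3,2,1,2,2,4,2], [3,2,3,2,2,4,2], [3,
  2,2,3,2,4,2], [3,3,2,3,2,4,2], [4,3,2,3,2,4,2], [3,2,3,3,2,4,2], [3,2,1,1,3,4,2], [3,2,2,1,3,4,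
  2], [3,3,2,1,3,4,2], [4,3,2,1,3,4,2], [2,1,1,2,3,4,2], [3,1,1,2,3,4,2], [2,2,1,2,3,4,2], [4,2,1,
  2,3,4,2], [3,3,1,2,3,4,2], [4,3,1,2,3,4,2], [2,1,2,2,3,4,2], [3,1,2,2,3,4,2], [2,3,2,2,3,4,2],
  [2,2,3,2,3,4,2], [2,3,3,2,3,4,2], [3,2,1,3,3,4,2], [2,1,2,3,3,4,2], [3,1,2,3,3,4,2], [2,3,2,3,3,
  4,2], [3,2,1,2,4,4,2], [3,2,1,3,4,4,2], [2,1,2,3,4,4,2], [3,1,2,3,4,4,2], [2,3,2,3,4,4,2], [4,3,
  2,2,2,5,2], [4,3,2,1,3,5,2], [3,2,1,2,3,5,2], [4,2,1,2,3,5,2], [4,3,1,2,3,5,2], [3,2,1,2,4,5,2],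
   [4,2,1,2,4,5,2], [4,3,1,2,4,5,2], [3,2,1,3,4,5,2], [4,2,1,3,4,5,2], [4,3,1,3,4,5,2], [3,1,2,3,
  4,5,2], [2,2,2,3,4,5,2], [3,2,2,2,2,4,3], [3,3,2,2,2,4,3], [4,3,2,2,2,4,3], [3,2,1,2,3,4,3], [2,
  2,2,2,3,4,3], [2,2,2,3,3,4,3], [2,2,2,3,4,4,3], [4,3,2,2,2,5,3], [4,3,2,1,3,5,3], [3,2,1,2,3,5,
  3], [4,2,1,2,3,5,3], [4,3,1,2,3,5,3], [3,2,1,2,4,5,3], [4,2,1,2,4,5,3], [4,3,1,2,4,5,3], [3,2,1,
  3,4,5,3], [4,2,1,3,4,5,3], [4,3,1,3,4,5,3], [3,1,2,3,4,5,3], [2,2,2,3,4,5,3], [4,2,1,2,4,6,3],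
  [4,3,1,2,4,6,3], [5,3,1,2,4,6,3], [4,2,1,3,4,6,3], [4,3,1,3,4,6,3], [5,3,1,3,4,6,3], [4,2,1,3,5,
  6,3], [4,3,1,3,5,6,3], [5,3,1,3,5,6,3], [5,3,1,3,5,7,3], [5,3,1,3,5,7,4]]⟩

/-- exclusion vectors -/
def ex : List (List ℕ) := [[249999,200000,200000,200000,249999,300000,
  149999], [249999,200000,224999,249999,274999,300000,100000], [200000,200000,224999,249999,
  274999,300000,149999], [274999,249999,224999,200000,200000,300000,149999], [266666,233333,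
  200000,233333,266666,300000,100000], [274999,249999,224999,200000,249999,300000,100000]]

/-- table of cusps -/
def cT : BT (List ℕ) := (.node [1,1,1,1,1,1,0] (.node [1,1,1,1,1,1,1]
  (.node [2,1,1,1,1,2,1] (.node [1,1,1,1,2,2,1] (.node [2,1,2,2,2,2,1] (.node [3,3,3,3,3,2,1]
  (.node [2,2,1,2,3,3,1] (.node [2,1,2,2,2,3,2] .nil .nil) (.node [3,2,1,3,4,5,2] .nil .nil))
  (.node [2,2,2,2,3,4,1] (.node [3,2,1,1,3,4,2] .nil .nil) (.node [4,3,1,3,5,6,3] .nil .nil)))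
  (.node [4,3,3,2,2,3,1] (.node [2,2,3,3,4,3,1] (.node [2,3,2,2,3,3,2] .nil .nil) (.node [4,3,1,2,
  3,5,3] .nil .nil)) (.node [2,2,3,4,4,4,1] (.node [2,1,2,3,3,4,2] .nil .nil) .nil))) (.node [2,2,
  2,3,2,2,1] (.node [2,2,1,2,2,3,1] (.node [2,1,2,3,3,3,1] (.node [3,3,2,3,2,3,2] .nil .nil)
  (.node [3,2,1,2,3,4,3] .nil .nil)) (.node [3,2,2,2,4,4,1] (.node [3,3,1,2,3,4,2] .nil .nil)
  .nil)) (.node [2,3,3,3,2,3,1] (.node [3,3,3,2,2,4,1] (.node [3,3,2,1,2,4,2] .nil .nil) (.node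
  [2,2,2,3,4,5,3] .nil .nil)) (.node [2,2,1,1,2,3,2] (.node [4,3,2,2,2,5,2] .nil .nil) .nil))))
  (.node [1,1,1,2,2,2,1] (.node [3,3,2,2,2,2,1] (.node [2,2,2,1,2,3,1] (.node [4,3,2,2,3,3,1]
  (.node [3,2,3,2,2,3,2] .nil .nil) (.node [2,2,2,3,4,5,2] .nil .nil)) (.node [2,2,2,3,3,4,1]
  (.node [2,1,1,2,3,4,2] .nil .nil) .nil)) (.node [3,2,2,3,2,3,1] (.node [2,3,4,4,4,3,1] (.node
  [2,3,2,3,3,3,2] .nil .nil) (.node [3,2,1,3,4,5,3] .nil .nil)) (.node [4,3,2,2,4,5,1] (.node [3,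
  2,1,3,4,4,2] .nil .nil) .nil))) (.node [2,2,2,2,3,2,1] (.node [4,3,2,2,2,3,1] (.node [2,3,3,4,3,
  3,1] (.node [2,1,1,2,3,3,2] .nil .nil) (.node [4,3,2,2,2,5,3] .nil .nil)) (.node [4,2,2,3,4,4,
  1] (.node [2,3,2,2,3,4,2] .nil .nil) .nil)) (.node [3,3,4,3,2,3,1] (.node [4,3,3,3,2,4,1]
  (.node [3,2,2,3,2,4,2] .nil .nil) (.node [4,2,1,3,4,6,3] .nil .nil)) (.node [3,3,2,1,2,3,2]
  (.node [4,3,1,2,3,5,2] .nil .nil) .nil))))) (.node [2,2,2,1,1,2,1] (.node [2,2,1,1,2,2,1]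
  (.node [3,2,2,2,2,2,1] (.node [2,2,1,1,2,3,1] (.node [2,1,2,2,3,3,1] (.node [4,3,2,2,2,3,2]
  .nil .nil) (.node [4,3,1,3,4,5,2] .nil .nil)) (.node [4,4,2,2,3,4,1] (.node [3,3,2,1,3,4,2]
  .nil .nil) (.node [5,3,1,3,5,7,3] .nil .nil))) (.node [4,4,3,2,2,3,1] (.node [2,2,3,4,4,3,1]
  (.node [2,3,3,2,3,3,2] .nil .nil) (.node [4,2,1,2,4,5,3] .nil .nil)) (.node [2,3,4,4,4,4,1]
  (.node [2,3,2,3,3,4,2] .nil .nil) .nil))) (.node [2,3,3,3,2,2,1] (.node [2,1,2,2,2,3,1] (.node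
  [2,3,4,3,3,3,1] (.node [3,2,3,3,2,3,2] .nil .nil) (.node [2,2,2,3,3,4,3] .nil .nil)) (.node [4,
  3,2,2,4,4,1] (.node [2,1,2,2,3,4,2] .nil .nil) .nil)) (.node [3,4,3,3,2,3,1] (.node [4,4,3,2,2,
  4,1] (.node [3,2,1,2,2,4,2] .nil .nil) (.node [4,3,1,2,4,6,3] .nil .nil)) (.node [2,2,2,1,2,3,
  2] (.node [3,2,1,2,3,5,2] .nil .nil) .nil)))) (.node [2,2,1,2,2,2,1] (.node [2,3,3,2,2,2,1]
  (.node [3,3,2,1,2,3,1] (.node [3,2,3,2,3,3,1] (.node [2,2,2,3,2,3,2] .nil .nil) (.node [3,3,2,2,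
  2,4,3] .nil .nil)) (.node [2,2,3,3,3,4,1] (.node [2,2,1,2,3,4,2] .nil .nil) .nil)) (.node [2,2,
  3,3,2,3,1] (.node [3,3,2,2,2,4,1] (.node [3,2,1,1,2,4,2] .nil .nil) (.node [4,3,1,3,4,5,3] .nil
  .nil)) (.node [4,2,2,3,4,5,1] (.node [3,1,2,3,4,4,2] .nil .nil) .nil))) (.node [2,2,3,3,3,2,1]
  (.node [3,2,3,2,2,3,1] (.node [2,2,2,3,4,3,1] (.node [3,2,1,2,3,3,2] .nil .nil) (.node [3,2,1,2,
  3,5,3] .nil .nil)) (.node [2,3,3,3,4,4,1] (.node [2,3,3,2,3,4,2] .nil .nil) .nil)) (.node [4,4,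
  4,3,2,3,1] (.node [4,4,4,3,2,4,1] (.node [4,3,2,3,2,4,2] .nil .nil) (.node [5,3,1,3,4,6,3] .nil
  .nil)) (.node [2,2,1,2,2,3,2] (.node [4,2,1,2,4,5,2] .nil .nil) .nil)))))) (.node [1,1,1,1,1,2,
  1] (.node [2,2,1,1,1,2,1] (.node [2,1,1,1,2,2,1] (.node [1,2,2,2,2,2,1] (.node [2,1,1,1,2,3,1]
  (.node [3,2,1,2,3,3,1] (.node [2,3,2,2,2,3,2] .nil .nil) (.node [4,2,1,3,4,5,2] .nil .nil))
  (.node [4,2,2,2,3,4,1] (.node [3,2,2,1,3,4,2] .nil .nil) (.node [5,3,1,3,5,6,3] .nil .nil)))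
  (.node [3,4,3,2,2,3,1] (.node [2,3,3,3,4,3,1] (.node [2,2,3,2,3,3,2] .nil .nil) (.node [3,2,1,2,
  4,5,3] .nil .nil)) (.node [2,3,3,4,4,4,1] (.node [3,1,2,3,3,4,2] .nil .nil) .nil))) (.node [2,2,
  3,3,2,2,1] (.node [3,2,1,2,2,3,1] (.node [2,3,2,3,3,3,1] (.node [2,2,3,3,2,3,2] .nil .nil)
  (.node [2,2,2,2,3,4,3] .nil .nil)) (.node [3,3,2,2,4,4,1] (.node [4,3,1,2,3,4,2] .nil .nil)
  .nil)) (.node [4,3,3,3,2,3,1] (.node [4,3,3,2,2,4,1] (.node [4,3,2,1,2,4,2] .nil .nil) (.node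
  [4,2,1,2,4,6,3] .nil .nil)) (.node [3,2,1,1,2,3,2] (.node [4,3,2,1,3,5,2] .nil .nil) .nil))))
  (.node [2,1,1,2,2,2,1] (.node [2,2,3,2,2,2,1] (.node [3,2,2,1,2,3,1] (.node [2,2,3,2,3,3,1]
  (.node [2,3,3,2,2,3,2] .nil .nil) (.node [3,2,2,2,2,4,3] .nil .nil)) (.node [4,2,2,3,3,4,1]
  (.node [3,1,1,2,3,4,2] .nil .nil) .nil)) (.node [3,3,2,3,2,3,1] (.node [3,2,2,2,2,4,1] (.node
  [2,2,2,3,4,3,2] .nil .nil) (.node [4,2,1,3,4,5,3] .nil .nil)) (.node [3,2,2,3,4,5,1] (.node [2,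
  1,2,3,4,4,2] .nil .nil) .nil))) (.node [2,2,2,3,3,2,1] (.node [2,2,3,2,2,3,1] (.node [2,3,4,4,3,
  3,1] (.node [2,2,1,2,3,3,2] .nil .nil) (.node [4,3,2,1,3,5,3] .nil .nil)) (.node [2,2,3,3,4,4,
  1] (.node [2,2,3,2,3,4,2] .nil .nil) .nil)) (.node [3,4,4,3,2,3,1] (.node [4,4,3,3,2,4,1]
  (.node [3,3,2,3,2,4,2] .nil .nil) (.node [4,3,1,3,4,6,3] .nil .nil)) (.node [2,1,1,2,2,3,2]
  (.node [3,2,1,2,4,5,2] .nil .nil) .nil))))) (.node [2,2,2,2,1,2,1] (.node [2,2,2,1,2,2,1]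
  (.node [2,3,2,2,2,2,1] (.node [3,2,1,1,2,3,1] (.node [2,3,2,2,3,3,1] (.node [2,2,3,2,2,3,2]
  .nil .nil) (.node [3,1,2,3,4,5,2] .nil .nil)) (.node [3,2,3,2,3,4,1] (.node [4,3,2,1,3,4,2]
  .nil .nil) (.node [5,3,1,3,5,7,4] .nil .nil))) (.node [2,2,2,3,2,3,1] (.node [2,3,3,4,4,3,1]
  (.node [2,1,2,3,3,3,2] .nil .nil) (.node [4,3,1,2,4,5,3] .nil .nil)) (.node [4,3,2,2,3,5,1]
  (.node [3,2,1,2,4,4,2] .nil .nil) .nil))) (.node [3,3,3,3,2,2,1] (.node [2,3,2,2,2,3,1] (.node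
  [2,2,3,4,3,3,1] (.node [2,3,3,3,2,3,2] .nil .nil) (.node [2,2,2,3,4,4,3] .nil .nil)) (.node [2,
  2,2,3,4,4,1] (.node [3,1,2,2,3,4,2] .nil .nil) .nil)) (.node [4,4,3,3,2,3,1] (.node [3,3,3,3,2,
  4,1] (.node [3,2,3,2,2,4,2] .nil .nil) (.node [5,3,1,2,4,6,3] .nil .nil)) (.node [3,2,2,1,2,3,
  2] (.node [4,2,1,2,3,5,2] .nil .nil) .nil)))) (.node [1,1,2,2,2,2,1] (.node [3,3,3,2,2,2,1]
  (.node [2,1,1,2,2,3,1] (.node [2,3,3,2,3,3,1] (.node [3,2,2,3,2,3,2] .nil .nil) (.node [4,3,2,2,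
  2,4,3] .nil .nil)) (.node [2,3,3,3,3,4,1] (.node [4,2,1,2,3,4,2] .nil .nil) .nil)) (.node [3,2,
  3,3,2,3,1] (.node [4,3,2,2,2,4,1] (.node [3,2,2,1,2,4,2] .nil .nil) (.node [3,1,2,3,4,5,3] .nil
  .nil)) (.node [2,1,1,1,2,3,2] (.node [2,3,2,3,4,4,2] .nil .nil) .nil))) (.node [2,3,3,3,3,2,1]
  (.node [2,3,3,2,2,3,1] (.node [3,2,2,3,4,3,1] (.node [2,1,2,2,3,3,2] .nil .nil) (.node [4,2,1,2,
  3,5,3] .nil .nil)) (.node [3,2,2,4,4,4,1] (.node [3,2,1,3,3,4,2] .nil .nil) .nil)) (.node [2,1,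
  1,2,3,3,1] (.node [3,2,1,2,3,4,1] (.node [3,2,3,3,2,4,2] .nil .nil) (.node [4,2,1,3,5,6,3] .nil
  .nil)) (.node [3,2,1,2,2,3,2] (.node [4,3,1,2,4,5,2] .nil .nil) .nil)))))))

/-- indices of reflected cusps -/
def cK : List (List ℕ) := [[0,0,0,0,0,0,2], [0,0,0,0,0,3,1], [4,
  0,0,0,8,2,0], [3,5,0,0,9,0,0], [0,4,6,0,10,0,0], [0,0,5,7,11,0,0], [0,0,0,6,28,0,0], [9,0,0,12,
  3,0,0], [8,10,0,13,4,33,0], [0,9,11,14,5,34,0], [0,0,10,24,6,36,0], [13,0,15,8,0,0,0], [12,14,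
  16,9,0,39,0], [0,13,21,10,0,40,0], [16,17,12,0,0,0,0], [15,19,13,0,0,42,0], [18,15,0,0,0,0,0],
  [17,20,0,0,0,85,0], [20,16,22,0,0,43,0], [19,18,23,0,0,86,0], [0,22,14,25,0,45,0], [23,21,19,26,
  0,47,0], [22,0,20,27,0,88,0], [0,0,25,11,29,51,0], [0,26,24,21,30,54,0], [27,25,0,22,31,56,0],
  [26,0,0,23,32,91,0], [0,0,0,29,7,96,0], [0,0,30,28,24,100,0], [0,31,29,0,25,102,0], [32,30,0,0,
  26,103,0], [31,0,0,0,27,0,0], [0,34,0,39,0,9,119], [35,33,36,40,0,10,120], [34,0,37,41,0,0,121],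
   [37,0,34,51,0,11,122], [36,38,35,52,0,0,123], [0,37,0,53,0,0,124], [0,40,42,33,63,13,125], [41,
  39,45,34,64,14,126], [40,0,46,35,65,0,127], [0,43,39,0,66,16,128], [44,42,47,0,67,19,129], [43,
  0,48,0,68,87,130], [46,47,40,54,69,21,131], [45,49,41,55,70,0,132], [48,45,43,56,71,22,133],
  [47,50,44,57,0,89,0], [50,46,0,58,0,0,0], [49,48,0,59,0,90,0], [52,0,54,36,78,24,134], [51,53,
  55,37,79,0,135], [0,52,60,38,0,0,136], [55,56,51,45,80,25,137], [54,58,52,46,0,0,138], [57,54,0,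
  47,81,26,139], [56,59,0,48,0,92,0], [59,55,61,49,0,0,0], [58,57,62,50,0,93,0], [0,61,53,0,0,0,
  0], [62,60,58,0,0,0,0], [61,0,59,0,0,94,0], [0,64,66,0,39,0,140], [65,63,69,0,40,0,141], [64,0,
  70,0,41,95,142], [0,67,63,72,42,0,143], [68,66,71,73,43,0,144], [67,0,0,0,44,115,0], [70,71,64,
  75,45,0,145], [69,0,65,0,46,99,0], [0,69,67,76,47,0,146], [0,73,0,66,0,0,147], [0,72,74,67,0,0,
  148], [0,0,73,77,0,0,0], [0,76,0,69,82,0,0], [0,75,77,71,83,0,0], [0,0,76,74,84,0,0], [79,0,80,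
  0,51,107,149], [78,0,0,0,52,117,0], [0,81,78,82,54,109,0], [0,80,0,83,56,110,0], [0,83,0,80,75,
  112,0], [0,82,84,81,76,113,0], [0,0,83,0,77,114,0], [0,86,0,0,104,18,197], [87,85,88,0,105,20,
  198], [86,0,89,0,106,44,199], [89,0,86,91,0,23,0], [88,90,87,92,0,48,0], [0,89,0,93,0,50,0],
  [92,0,0,88,0,27,0], [91,93,0,89,0,57,0], [0,92,94,90,0,59,0], [0,0,93,0,0,62,0], [0,0,99,0,0,65,
  200], [97,0,0,100,0,28,201], [96,98,0,101,0,0,0], [0,97,0,0,0,0,0], [0,0,95,0,0,70,0], [101,0,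
  102,96,107,29,202], [100,0,0,97,108,0,0], [0,103,100,0,109,30,0], [0,102,0,0,110,31,0], [0,105,
  0,111,85,0,0], [106,104,0,0,86,0,0], [105,0,0,0,87,116,0], [108,0,109,0,100,78,203], [107,0,0,0,
  101,118,0], [0,110,107,112,102,80,0], [0,109,0,113,103,81,0], [0,0,0,104,0,0,0], [0,113,0,109,0,
  82,0], [0,112,114,110,0,83,0], [0,0,113,0,0,84,0], [0,0,0,0,116,68,0], [0,0,0,0,115,106,0],
  [118,0,0,0,0,79,0], [117,0,0,0,0,108,0], [0,120,0,125,0,0,33], [121,119,122,126,0,0,34], [120,0,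
  123,127,0,150,35], [123,0,120,134,0,0,36], [122,124,121,135,0,151,37], [0,123,0,136,0,152,38],
  [0,126,128,119,140,0,39], [127,125,131,120,141,0,40], [126,0,132,121,142,154,41], [0,129,125,0,
  143,0,42], [130,128,133,0,144,0,43], [129,0,0,0,0,184,44], [132,133,126,137,145,0,45], [131,0,
  127,138,0,155,46], [0,131,129,139,146,0,47], [135,0,137,122,149,0,51], [134,136,138,123,0,156,
  52], [0,135,0,124,0,157,53], [138,139,134,131,0,0,54], [137,0,135,132,0,159,55], [0,137,0,133,0,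
  0,56], [0,141,143,0,125,164,63], [142,140,145,0,126,166,64], [141,0,0,0,127,186,65], [0,144,140,
  147,128,170,66], [0,143,146,148,129,172,67], [0,146,141,0,131,173,69], [0,145,144,0,133,174,71],
   [0,148,0,143,0,176,72], [0,147,0,144,0,178,73], [0,0,0,0,134,196,78], [0,0,151,154,160,121,0],
  [0,152,150,156,161,123,0], [153,151,0,157,162,124,0], [152,0,0,158,163,0,0], [0,0,155,150,179,
  127,0], [0,0,154,159,0,132,0], [0,157,159,151,0,135,0], [158,156,0,152,0,136,0], [157,0,0,153,0,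
  0,0], [0,0,156,155,0,138,0], [0,0,161,175,150,0,0], [0,162,160,0,151,0,0], [163,161,0,0,152,0,
  0], [162,0,0,0,153,185,0], [165,166,170,0,0,140,0], [164,168,171,0,0,0,0], [167,164,173,0,0,141,
  0], [166,169,0,0,0,187,0], [169,165,0,0,0,0,0], [168,167,0,0,0,188,0], [171,172,164,176,0,143,
  0], [170,0,165,177,0,0,0], [0,170,174,178,0,144,0], [0,174,166,0,0,145,0], [0,173,172,0,0,146,
  0], [0,0,0,160,180,0,0], [177,178,0,170,181,147,0], [176,0,0,171,182,0,0], [0,176,0,172,183,148,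
  0], [0,0,0,180,154,189,0], [0,0,0,179,175,192,0], [182,183,0,0,176,0,0], [181,0,0,0,177,195,0],
  [0,181,0,0,178,0,0], [0,0,0,0,0,130,204], [0,0,0,0,0,163,205], [187,0,0,0,189,142,206], [186,
  188,0,0,190,167,207], [0,187,0,0,191,169,208], [190,0,0,192,186,179,209], [189,191,0,193,187,0,
  210], [0,190,0,194,188,0,211], [193,0,0,189,0,180,212], [192,194,0,190,0,0,213], [0,193,0,191,0,
  0,214], [0,0,0,0,0,182,215], [0,0,0,0,0,149,216], [0,198,0,0,0,0,85], [199,197,0,0,0,0,86],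
  [198,0,0,0,0,204,87], [0,0,0,0,0,206,95], [0,0,0,202,0,0,96], [0,0,0,201,203,0,100], [0,0,0,0,
  202,216,107], [0,0,0,0,0,199,184], [0,0,0,0,0,0,185], [207,0,0,0,209,200,186], [206,208,0,0,210,
  0,187], [0,207,0,0,211,0,188], [210,0,0,212,206,0,189], [209,211,0,213,207,217,190], [0,210,0,
  214,208,218,191], [213,0,0,209,0,0,192], [212,214,0,210,0,220,193], [0,213,0,211,0,221,194], [0,
  0,0,0,0,0,195], [0,0,0,0,0,203,196], [0,218,0,220,0,210,0], [219,217,0,221,0,211,0], [218,0,0,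
  222,0,0,0], [0,221,0,217,223,213,0], [222,220,0,218,224,214,0], [221,0,0,219,225,0,0], [0,224,0,
  0,220,0,0], [225,223,0,0,221,0,0], [224,0,0,0,222,226,0], [0,0,0,0,0,225,227], [0,0,0,0,0,0,
  226]]

theorem cusps_fast : fastCusps dat ex cT 227 cK = true := by decide +kernel

end Pool.Agent.Helper10.Fam.A5
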