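import Pool.Agent.Helper10.FamD.A5LowT

set_option autoImplicit false
set_option maxRecDepth 1000000

/-!
# Certificate data for `U ⊕ A5` (lower bound, subtrees)
-/

namespace Pool.Agent.Helper10.Fam.A5

open Pool.Agent.Helper10.Fam

def lt0 : Tr ℕ := (.bis 0 6 1 60 11 (.bis 4 6 1 60 12 (.bis 5 6 1 28 13 (.leaf 1) (.bis 2 5 1 2
  14 (.bis 1 5 1 2 15 (.bis 3 5 1 2 16 (.bis 0 4 1 1 17 (.bis 4 5 1 2 18 (.bis 0 5 1 4 19 (.leaf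
  112) (.leaf 41)) (.leaf 41)) (.bis 0 5 1 2 20 (.bis 4 5 1 4 19 (.leaf 112) (.leaf 41)) (.leaf
  41))) (.leaf 41)) (.leaf 41)) (.leaf 41))) (.bis 1 4 1 2 21 (.bis 0 4 1 2 22 (.bis 2 4 1 2 23
  (.bis 3 4 1 2 24 (.bis 4 5 1 1 25 (.bis 3 5 1 4 26 (.bis 5 6 2 1 18 (.leaf 95) (.bis 2 5 1 4 27
  (.leaf 71) (.leaf 24))) (.leaf 95)) (.bis 2 4 1 4 28 (.bis 4 6 2 1 29 (.leaf 95) (.bis 1 4 1 4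
  30 (.bis 0 4 1 4 31 (.leaf 32) (.leaf 32)) (.leaf 95))) (.leaf 95))) (.bis 3 5 1 2 16 (.bis 4 5
  1 4 26 (.bis 5 6 2 1 18 (.leaf 33) (.bis 2 5 1 4 27 (.leaf 71) (.leaf 24))) (.leaf 95)) (.leaf
  113))) (.bis 2 5 1 2 14 (.bis 3 5 1 2 16 (.bis 5 6 2 1 18 (.leaf 33) (.bis 4 5 1 4 27 (.bis 1 5
  1 4 32 (.leaf 20) (.leaf 33)) (.leaf 33))) (.leaf 33)) (.bis 0 2 1 2 33 (.leaf 41) (.leaf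
  33)))) (.bis 2 5 1 2 14 (.bis 3 5 1 2 16 (.bis 0 6 1 1 17 (.bis 5 6 2 1 18 (.leaf 33) (.bis 1 5
  1 4 32 (.bis 0 5 1 4 19 (.leaf 20) (.leaf 20)) (.leaf 33))) (.bis 0 5 1 2 20 (.bis 1 5 1 4 32
  (.bis 5 6 4 1 19 (.leaf 20) (.leaf 20)) (.leaf 33)) (.leaf 33))) (.leaf 33)) (.bis 0 3 1 1 34
  (.bis 2 4 2 1 33 (.bis 3 4 2 1 35 (.leaf 33) (.leaf 33)) (.leaf 41)) (.bis 2 4 2 1 33 (.leaf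
  33) (.leaf 41))))) (.bis 2 5 1 2 14 (.bis 1 5 1 2 15 (.bis 3 5 1 2 16 (.bis 0 6 1 1 17 (.bis 5
  6 2 1 18 (.leaf 33) (.bis 4 5 1 4 32 (.leaf 20) (.leaf 33))) (.bis 0 5 1 2 20 (.bis 4 5 1 4 32
  (.leaf 20) (.leaf 33)) (.leaf 33))) (.leaf 33)) (.leaf 41)) (.bis 0 3 1 1 34 (.bis 1 6 1 1 36
  (.leaf 41) (.bis 1 3 1 1 37 (.bis 2 4 2 1 38 (.leaf 11) (.leaf 41)) (.bis 2 4 2 1 38 (.leaf 19)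
  (.leaf 19)))) (.bis 1 6 1 1 36 (.leaf 41) (.bis 0 2 2 1 39 (.bis 2 4 2 1 38 (.leaf 19) (.leaf
  19)) (.bis 0 4 2 1 40 (.leaf 19) (.leaf 41)))))))) (.bis 0 4 1 1 41 (.bis 1 4 1 2 21 (.bis 4 6
  2 1 22 (.bis 2 5 1 2 14 (.bis 3 5 1 2 16 (.bis 5 6 2 1 20 (.bis 0 6 1 1 42 (.leaf 33) (.bis 0 2
  2 1 43 (.leaf 33) (.bis 0 3 2 1 44 (.leaf 33) (.leaf 69)))) (.bis 1 5 1 4 32 (.bis 0 5 1 2 45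
  (.leaf 20) (.bis 0 2 2 1 43 (.leaf 20) (.bis 0 3 2 1 44 (.leaf 20) (.leaf 69)))) (.bis 0 2 2 1
  43 (.leaf 33) (.bis 0 3 2 1 44 (.leaf 33) (.leaf 69))))) (.bis 0 3 1 1 46 (.leaf 33) (.bis 0 6
  1 1 42 (.leaf 33) (.bis 0 2 2 1 43 (.leaf 2) (.leaf 2))))) (.bis 0 2 1 1 47 (.bis 3 6 1 1 34
  (.bis 2 4 2 1 33 (.leaf 33) (.leaf 41)) (.bis 2 4 2 1 33 (.bis 3 4 2 1 35 (.leaf 33) (.leaf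
  11)) (.leaf 41))) (.bis 0 3 1 1 46 (.leaf 33) (.bis 0 6 1 1 42 (.leaf 33) (.bis 0 5 2 1 43
  (.leaf 2) (.leaf 2)))))) (.bis 2 4 1 2 23 (.bis 3 4 1 2 24 (.bis 4 5 1 1 25 (.bis 3 5 1 4 26
  (.bis 2 5 1 4 27 (.bis 1 5 1 4 32 (.bis 0 5 1 2 45 (.leaf 71) (.leaf 10)) (.bis 0 2 4 1 48
  (.leaf 10) (.leaf 10))) (.bis 0 2 2 1 49 (.leaf 10) (.leaf 10))) (.bis 0 3 2 1 50 (.leaf 24)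
  (.leaf 10))) (.bis 2 4 1 4 28 (.bis 0 4 1 2 51 (.bis 1 4 1 4 30 (.bis 4 6 4 1 31 (.leaf 32)
  (.leaf 32)) (.leaf 64)) (.leaf 64)) (.bis 0 3 2 1 50 (.leaf 64) (.leaf 10)))) (.bis 3 5 1 2 16
  (.bis 4 5 1 4 26 (.bis 2 5 1 4 27 (.bis 1 5 1 4 32 (.bis 0 5 1 2 45 (.leaf 20) (.bis 0 3 2 1 44
  (.leaf 2) (.leaf 2))) (.bis 0 3 2 1 44 (.leaf 2) (.bis 0 2 4 1 48 (.leaf 2) (.leaf 2)))) (.bis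
  0 3 2 1 44 (.leaf 2) (.bis 0 2 2 1 49 (.leaf 2) (.leaf 2)))) (.bis 0 3 2 1 44 (.leaf 24) (.bis
  0 4 2 1 50 (.leaf 24) (.leaf 2)))) (.bis 0 3 1 1 46 (.leaf 113) (.bis 0 5 2 1 44 (.leaf 24)
  (.bis 0 4 2 1 50 (.leaf 24) (.leaf 2)))))) (.bis 2 5 1 2 14 (.bis 3 5 1 2 16 (.bis 4 5 1 4 27
  (.bis 1 5 1 4 32 (.bis 0 5 1 2 45 (.leaf 20) (.bis 0 2 2 1 43 (.leaf 2) (.bis 0 3 2 1 44 (.leaf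
  2) (.leaf 2)))) (.bis 0 2 2 1 43 (.leaf 2) (.bis 0 3 2 1 44 (.leaf 2) (.leaf 2)))) (.bis 0 2 2
  1 43 (.leaf 2) (.bis 0 3 2 1 44 (.leaf 2) (.bis 0 4 2 1 49 (.leaf 2) (.leaf 2))))) (.bis 0 3 1
  1 46 (.leaf 33) (.bis 0 2 2 1 43 (.leaf 2) (.bis 0 5 2 1 44 (.leaf 2) (.leaf 2))))) (.bis 0 2 1
  1 47 (.bis 2 6 2 1 33 (.leaf 33) (.leaf 41)) (.bis 0 3 1 1 46 (.leaf 33) (.bis 0 5 2 1 43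
  (.leaf 2) (.bis 0 4 2 1 49 (.leaf 2) (.leaf 2)))))))) (.bis 2 5 1 2 14 (.bis 1 5 1 2 15 (.bis 3
  5 1 2 16 (.bis 5 6 2 1 20 (.bis 0 6 1 1 42 (.leaf 33) (.bis 0 2 2 1 43 (.leaf 33) (.bis 0 1 2 1
  52 (.leaf 33) (.bis 0 3 2 1 44 (.leaf 33) (.leaf 69))))) (.bis 4 5 1 4 32 (.bis 0 5 1 2 45
  (.leaf 20) (.bis 0 2 2 1 43 (.leaf 20) (.bis 0 1 2 1 52 (.leaf 20) (.bis 0 3 2 1 44 (.leaf 20)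
  (.leaf 69))))) (.bis 0 2 2 1 43 (.leaf 33) (.bis 0 1 2 1 52 (.leaf 33) (.bis 0 3 2 1 44 (.leaf
  33) (.bis 4 6 1 1 53 (.bis 0 6 2 1 54 (.leaf 20) (.leaf 2)) (.leaf 2))))))) (.bis 0 3 1 1 46
  (.leaf 33) (.bis 0 6 1 1 42 (.leaf 33) (.bis 0 2 2 1 43 (.leaf 2) (.bis 0 1 2 1 52 (.leaf 2)
  (.bis 0 5 2 1 44 (.leaf 2) (.leaf 2))))))) (.bis 0 1 1 1 55 (.bis 3 6 1 1 34 (.leaf 41) (.leaf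
  41)) (.bis 0 3 1 1 46 (.leaf 33) (.bis 0 6 1 1 42 (.leaf 33) (.bis 0 2 2 1 43 (.leaf 2) (.bis 0
  5 2 1 52 (.leaf 2) (.leaf 2))))))) (.bis 0 2 1 1 47 (.bis 3 6 1 1 34 (.bis 2 6 1 2 39 (.bis 4 6
  1 2 40 (.leaf 41) (.leaf 19)) (.bis 2 4 2 1 38 (.leaf 19) (.leaf 19))) (.bis 1 3 1 1 37 (.bis 2
  4 2 1 38 (.leaf 11) (.leaf 41)) (.leaf 19))) (.bis 0 1 1 1 55 (.leaf 41) (.bis 0 3 1 1 46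
  (.leaf 33) (.bis 0 6 1 1 42 (.leaf 33) (.bis 0 5 2 1 43 (.leaf 2) (.leaf 2)))))))) (.bis 0 3 2
  1 56 (.bis 2 5 1 2 14 (.bis 1 5 1 2 15 (.bis 3 5 1 2 16 (.bis 5 6 2 1 20 (.bis 4 6 1 1 42
  (.leaf 33) (.bis 2 4 1 2 43 (.bis 1 4 1 2 52 (.bis 3 4 1 2 44 (.leaf 69) (.leaf 20)) (.leaf
  20)) (.leaf 20))) (.bis 0 5 1 4 57 (.bis 4 5 1 2 45 (.leaf 20) (.bis 2 4 1 2 43 (.bis 1 4 1 2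
  52 (.bis 3 4 1 2 44 (.leaf 69) (.leaf 20)) (.leaf 20)) (.leaf 20))) (.bis 2 4 1 2 43 (.bis 1 4
  1 2 52 (.bis 3 4 1 2 44 (.bis 4 6 2 1 54 (.leaf 20) (.leaf 2)) (.leaf 20)) (.leaf 20)) (.leaf
  20)))) (.bis 3 4 1 1 46 (.bis 4 6 1 1 42 (.leaf 33) (.bis 2 4 1 2 43 (.bis 1 4 1 2 52 (.bis 4 5
  2 1 44 (.leaf 2) (.leaf 2)) (.leaf 2)) (.leaf 2))) (.leaf 33))) (.bis 1 4 1 1 55 (.bis 3 4 1 1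
  46 (.bis 4 6 1 1 42 (.leaf 33) (.bis 2 4 1 2 43 (.bis 4 5 2 1 52 (.leaf 2) (.leaf 2)) (.leaf
  2))) (.leaf 33)) (.bis 3 6 1 1 34 (.leaf 41) (.leaf 41)))) (.bis 2 4 1 1 47 (.bis 1 4 1 1 55
  (.bis 3 4 1 1 46 (.bis 4 6 1 1 42 (.leaf 33) (.bis 4 5 2 1 43 (.leaf 2) (.bis 2 4 1 2 58 (.leaf
  2) (.leaf 2)))) (.leaf 33)) (.leaf 41)) (.leaf 41))) (.bis 0 2 2 1 59 (.bis 2 5 1 2 14 (.bis 1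
  5 1 2 15 (.bis 5 6 2 1 20 (.bis 4 6 1 1 42 (.leaf 33) (.bis 2 4 1 2 43 (.bis 1 4 1 2 52 (.bis 0
  4 1 2 60 (.leaf 69) (.leaf 26)) (.leaf 26)) (.leaf 33))) (.bis 0 5 1 4 61 (.bis 3 5 1 4 57
  (.bis 4 5 1 2 45 (.leaf 20) (.bis 2 4 1 2 43 (.bis 1 4 1 2 52 (.bis 4 6 2 1 54 (.leaf 20)
  (.leaf 2)) (.leaf 20)) (.leaf 20))) (.bis 2 4 1 2 43 (.bis 1 4 1 2 52 (.bis 4 6 2 1 54 (.leaf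
  20) (.leaf 2)) (.leaf 20)) (.leaf 20))) (.bis 2 4 1 2 43 (.bis 1 4 1 2 52 (.bis 0 4 1 2 60
  (.bis 4 6 2 1 54 (.leaf 20) (.leaf 2)) (.leaf 26)) (.leaf 26)) (.leaf 33)))) (.bis 1 4 1 1 55
  (.bis 4 6 1 1 42 (.leaf 33) (.bis 2 4 1 2 43 (.bis 4 5 2 1 52 (.leaf 2) (.leaf 2)) (.leaf 2)))
  (.leaf 41))) (.bis 2 4 1 1 47 (.bis 1 4 1 1 55 (.bis 4 6 1 1 42 (.leaf 33) (.bis 4 5 2 1 43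
  (.leaf 2) (.bis 0 4 1 2 60 (.leaf 2) (.leaf 2)))) (.leaf 41)) (.leaf 41))) (.bis 0 1 2 1 62
  (.bis 1 5 1 2 15 (.bis 0 5 1 4 63 (.bis 5 6 2 1 20 (.bis 4 6 1 1 42 (.leaf 33) (.bis 1 4 1 2 52
  (.bis 2 4 1 2 60 (.leaf 69) (.leaf 26)) (.leaf 26))) (.bis 2 5 1 4 61 (.bis 3 5 1 4 57 (.bis 4
  5 1 2 45 (.leaf 20) (.bis 1 4 1 2 52 (.bis 4 6 2 1 54 (.leaf 20) (.leaf 2)) (.leaf 20))) (.bis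
  1 4 1 2 52 (.bis 4 6 2 1 54 (.leaf 20) (.bis 2 4 1 4 64 (.leaf 2) (.leaf 2))) (.leaf 20)))
  (.bis 1 4 1 2 52 (.bis 2 4 1 2 60 (.bis 4 6 2 1 54 (.leaf 20) (.leaf 2)) (.leaf 26)) (.leaf
  26)))) (.bis 4 6 1 1 42 (.leaf 69) (.bis 1 4 1 2 52 (.bis 0 4 1 2 65 (.leaf 2) (.leaf 12))
  (.leaf 26)))) (.bis 1 4 1 1 55 (.bis 4 6 1 1 42 (.leaf 69) (.bis 4 5 2 1 52 (.leaf 26) (.bis 0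
  4 1 2 65 (.leaf 2) (.leaf 12)))) (.leaf 114))) (.bis 0 5 1 1 66 (.bis 1 5 1 4 63 (.bis 5 6 2 1
  20 (.bis 4 6 1 1 42 (.leaf 69) (.bis 2 4 1 2 60 (.leaf 69) (.leaf 26))) (.bis 2 5 1 4 61 (.bis
  3 5 1 4 57 (.bis 4 5 1 2 45 (.leaf 20) (.bis 4 6 2 1 54 (.leaf 20) (.bis 2 4 1 4 64 (.leaf 12)
  (.leaf 12)))) (.bis 4 6 2 1 54 (.leaf 20) (.bis 2 4 1 4 64 (.leaf 12) (.leaf 12)))) (.bis 2 4 1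
  2 60 (.bis 4 6 2 1 54 (.leaf 20) (.leaf 12)) (.leaf 26)))) (.bis 4 6 1 1 42 (.leaf 69) (.bis 1
  4 1 2 65 (.leaf 12) (.leaf 12)))) (.bis 4 6 1 1 42 (.bis 0 2 4 1 67 (.leaf 69) (.bis 0 6 2 1 68
  (.leaf 128) (.bis 0 3 4 1 69 (.leaf 45) (.bis 0 4 4 1 70 (.leaf 45) (.leaf 45))))) (.bis 0 2 4
  1 67 (.bis 1 4 1 2 65 (.leaf 12) (.leaf 12)) (.bis 0 4 2 1 71 (.leaf 12) (.bis 0 3 4 1 69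
  (.leaf 12) (.bis 0 6 4 1 70 (.leaf 12) (.leaf 45))))))))))))

def lc0 : List Vr := [⟨[56,0,0,0,0,0,0], 21952, 0⟩, ⟨[0,73,0,0,0,0,96], 105412, 0⟩, ⟨[0,0,85,0,0,
  0,119], 143055, 0⟩, ⟨[0,0,0,73,0,0,96], 105412, 0⟩, ⟨[0,0,0,0,56,0,0], 21952, 0⟩, ⟨[0,0,0,0,0,
  42,0], 21168, 0⟩, ⟨[0,0,0,0,0,0,1], 0, 0⟩]

theorem lk0 : chkTr lowT (leafLow 6 lowB) lt0 lc0 = true := by decide +kernel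

def lt1 : Tr ℕ := (.bis 1 3 1 2 73 (.bis 3 5 1 1 74 (.bis 2 4 1 2 23 (.bis 4 6 2 1 24 (.bis 5 6 2
  1 16 (.bis 0 6 1 1 75 (.bis 3 6 1 1 76 (.leaf 11) (.leaf 67)) (.bis 0 2 2 1 77 (.leaf 67) (.bis
  0 5 2 1 78 (.leaf 67) (.leaf 129)))) (.bis 1 5 1 4 79 (.bis 0 5 1 2 80 (.bis 4 5 1 4 26 (.bis 2
  5 1 4 27 (.bis 3 5 1 2 81 (.leaf 20) (.leaf 24)) (.bis 2 3 1 2 82 (.leaf 24) (.leaf 2))) (.bis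
  2 3 1 2 82 (.leaf 24) (.leaf 11))) (.bis 0 2 2 1 77 (.leaf 24) (.bis 0 6 2 1 78 (.leaf 24)
  (.bis 0 4 2 1 83 (.leaf 24) (.leaf 52))))) (.bis 0 2 2 1 77 (.leaf 67) (.bis 0 6 2 1 78 (.leaf
  67) (.bis 0 4 2 1 83 (.leaf 16) (.leaf 52)))))) (.bis 4 5 1 1 25 (.bis 1 5 1 4 79 (.bis 0 5 1 2
  80 (.bis 5 6 4 1 26 (.leaf 24) (.bis 2 5 1 4 27 (.bis 3 5 1 2 81 (.leaf 71) (.leaf 24)) (.bis 2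
  3 1 2 82 (.leaf 24) (.leaf 10)))) (.bis 0 4 1 1 84 (.leaf 24) (.bis 0 2 2 1 77 (.leaf 24) (.bis
  0 6 2 1 83 (.leaf 24) (.leaf 52))))) (.bis 1 4 1 2 85 (.bis 0 4 1 1 84 (.leaf 24) (.bis 0 2 2 1
  77 (.leaf 16) (.bis 0 6 2 1 83 (.leaf 16) (.leaf 52)))) (.bis 0 2 2 1 77 (.leaf 16) (.bis 0 6 2
  1 83 (.leaf 16) (.leaf 52))))) (.bis 1 4 1 4 86 (.bis 0 4 1 2 87 (.bis 3 4 1 2 88 (.bis 2 4 1 4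
  28 (.bis 4 6 4 1 89 (.leaf 32) (.bis 1 4 1 8 90 (.leaf 32) (.leaf 32))) (.leaf 64)) (.leaf 24))
  (.bis 0 5 1 1 84 (.leaf 24) (.bis 0 2 2 1 77 (.leaf 16) (.bis 0 6 2 1 83 (.leaf 16) (.leaf
  4))))) (.bis 1 5 1 2 85 (.bis 0 5 1 1 84 (.leaf 24) (.bis 0 2 2 1 77 (.leaf 16) (.bis 0 6 2 1
  83 (.leaf 16) (.leaf 4)))) (.bis 0 2 2 1 77 (.leaf 16) (.bis 0 6 2 1 83 (.leaf 16) (.leaf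
  4))))))) (.bis 2 5 1 2 14 (.bis 5 6 2 1 16 (.bis 0 6 1 1 75 (.bis 2 3 1 2 91 (.bis 3 6 1 1 76
  (.leaf 11) (.leaf 67)) (.leaf 11)) (.bis 0 2 2 1 92 (.bis 2 3 1 2 91 (.leaf 67) (.leaf 11))
  (.bis 0 4 2 1 77 (.leaf 67) (.bis 0 5 2 1 78 (.leaf 67) (.leaf 4))))) (.bis 1 5 1 4 79 (.bis 0
  5 1 2 80 (.bis 4 5 1 4 27 (.bis 3 5 1 2 81 (.leaf 20) (.bis 2 3 1 2 91 (.leaf 24) (.leaf 11)))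
  (.bis 2 3 1 2 91 (.bis 3 4 2 1 82 (.leaf 2) (.leaf 24)) (.leaf 2))) (.bis 0 2 2 1 92 (.bis 2 3
  1 2 91 (.leaf 24) (.leaf 2)) (.bis 0 4 2 1 77 (.leaf 24) (.bis 0 6 2 1 78 (.leaf 24) (.leaf
  52))))) (.bis 0 2 2 1 92 (.bis 2 3 1 2 91 (.leaf 67) (.bis 1 2 1 1 93 (.leaf 2) (.leaf 11)))
  (.bis 0 4 2 1 77 (.leaf 67) (.bis 0 6 2 1 78 (.leaf 67) (.leaf 52)))))) (.bis 0 2 1 1 94 (.bis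
  2 3 1 1 95 (.bis 3 5 2 1 91 (.leaf 11) (.bis 3 6 1 1 76 (.leaf 11) (.bis 3 4 2 1 82 (.leaf 11)
  (.leaf 16)))) (.bis 1 2 1 2 96 (.leaf 41) (.leaf 11))) (.bis 0 6 1 1 75 (.bis 3 5 2 1 91 (.leaf
  11) (.bis 3 6 1 1 76 (.leaf 11) (.leaf 16))) (.bis 0 5 2 1 92 (.bis 3 5 2 1 91 (.leaf 11)
  (.leaf 16)) (.bis 0 4 2 1 77 (.bis 3 4 2 1 82 (.leaf 11) (.leaf 4)) (.leaf 4))))))) (.bis 2 3 1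
  2 97 (.bis 3 4 1 1 98 (.bis 4 6 2 1 24 (.bis 3 6 1 1 99 (.bis 0 6 1 1 75 (.leaf 67) (.bis 0 4 2
  1 83 (.leaf 16) (.bis 0 3 2 1 100 (.leaf 16) (.leaf 4)))) (.bis 0 4 2 1 83 (.bis 2 3 1 2 101
  (.leaf 79) (.leaf 16)) (.bis 2 3 1 2 101 (.bis 0 3 1 1 102 (.leaf 48) (.leaf 52)) (.bis 0 6 2 1
  100 (.leaf 16) (.leaf 4))))) (.bis 2 4 1 4 103 (.bis 1 4 1 4 86 (.bis 0 4 1 2 87 (.bis 4 5 2 1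
  88 (.leaf 79) (.bis 3 4 1 2 104 (.bis 2 4 1 8 105 (.bis 4 6 4 1 89 (.leaf 32) (.bis 1 4 1 8 90
  (.leaf 32) (.leaf 32))) (.leaf 32)) (.leaf 133))) (.bis 0 6 2 1 83 (.leaf 79) (.bis 0 3 1 1 102
  (.leaf 39) (.leaf 4)))) (.bis 0 6 2 1 83 (.leaf 79) (.bis 0 3 1 1 102 (.leaf 79) (.leaf 4))))
  (.bis 0 6 2 1 83 (.bis 2 3 1 2 101 (.leaf 79) (.leaf 16)) (.bis 2 3 1 2 101 (.bis 0 3 1 1 102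
  (.leaf 79) (.leaf 4)) (.bis 0 4 4 1 106 (.leaf 4) (.leaf 4)))))) (.bis 3 6 2 1 107 (.bis 4 6 1
  1 99 (.bis 0 6 1 1 75 (.leaf 131) (.bis 0 3 2 1 108 (.leaf 76) (.bis 0 4 2 1 100 (.leaf 52)
  (.leaf 4)))) (.bis 2 4 1 2 101 (.bis 0 4 1 1 102 (.leaf 48) (.bis 0 3 2 1 108 (.leaf 48) (.leaf
  52))) (.bis 0 3 2 1 108 (.leaf 76) (.bis 0 6 2 1 100 (.leaf 52) (.leaf 4))))) (.bis 0 3 1 2 109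
  (.bis 1 3 1 4 110 (.bis 2 3 1 4 111 (.bis 3 5 2 1 112 (.leaf 48) (.bis 3 4 2 1 113 (.leaf 48)
  (.leaf 93))) (.bis 2 4 1 2 101 (.leaf 48) (.leaf 76))) (.bis 2 4 1 2 101 (.leaf 48) (.leaf
  76))) (.bis 2 4 1 2 101 (.bis 0 4 1 1 102 (.leaf 48) (.leaf 132)) (.bis 0 6 2 1 108 (.leaf 76)
  (.leaf 31)))))) (.bis 2 4 1 2 23 (.bis 4 6 2 1 24 (.bis 0 6 1 1 75 (.bis 5 6 1 1 76 (.leaf 67)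
  (.leaf 16)) (.bis 0 2 2 1 77 (.leaf 16) (.bis 0 4 2 1 83 (.leaf 16) (.leaf 4)))) (.bis 3 4 1 4
  103 (.bis 1 4 1 4 86 (.bis 0 4 1 2 87 (.bis 4 5 2 1 88 (.leaf 24) (.bis 2 4 1 4 28 (.bis 3 4 1
  8 105 (.bis 4 6 4 1 89 (.leaf 32) (.bis 1 4 1 8 90 (.leaf 32) (.leaf 32))) (.leaf 32)) (.leaf
  64))) (.bis 0 2 2 1 77 (.leaf 16) (.bis 0 6 2 1 83 (.leaf 16) (.leaf 4)))) (.bis 0 2 2 1 77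
  (.leaf 16) (.bis 0 6 2 1 83 (.leaf 16) (.leaf 4)))) (.bis 0 2 2 1 77 (.leaf 16) (.bis 0 6 2 1
  83 (.leaf 16) (.leaf 4))))) (.bis 0 2 1 1 94 (.bis 2 5 1 1 95 (.bis 5 6 1 1 76 (.leaf 67) (.bis
  4 5 1 2 82 (.leaf 16) (.leaf 16))) (.leaf 96)) (.bis 0 6 1 1 75 (.bis 5 6 1 1 76 (.leaf 67)
  (.leaf 16)) (.bis 0 4 2 1 77 (.bis 4 5 1 2 82 (.leaf 4) (.leaf 16)) (.bis 0 3 2 1 114 (.leaf 4)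
  (.leaf 4)))))))) (.bis 1 4 1 2 21 (.bis 2 4 1 2 23 (.bis 4 6 2 1 24 (.bis 5 6 2 1 16 (.bis 0 6
  1 1 75 (.leaf 11) (.bis 0 2 2 1 77 (.leaf 11) (.bis 0 1 2 1 115 (.leaf 11) (.bis 0 5 2 1 78
  (.leaf 11) (.bis 0 4 2 1 83 (.leaf 11) (.leaf 4)))))) (.bis 3 5 1 4 79 (.bis 0 5 1 2 80 (.bis 4
  5 1 4 26 (.bis 2 5 1 4 27 (.leaf 71) (.leaf 2)) (.leaf 11)) (.bis 0 2 2 1 77 (.leaf 11) (.bis 0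
  1 2 1 115 (.leaf 11) (.bis 0 6 2 1 78 (.leaf 11) (.bis 0 4 2 1 83 (.leaf 11) (.leaf 15))))))
  (.bis 0 2 2 1 77 (.leaf 11) (.bis 0 1 2 1 115 (.leaf 11) (.bis 0 6 2 1 78 (.leaf 11) (.bis 0 4
  2 1 83 (.leaf 11) (.leaf 52))))))) (.bis 4 5 1 1 25 (.bis 3 5 1 4 79 (.bis 0 5 1 2 80 (.bis 5 6
  4 1 26 (.leaf 24) (.bis 2 5 1 4 27 (.leaf 71) (.leaf 10))) (.bis 0 4 1 1 84 (.leaf 24) (.bis 0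
  2 2 1 77 (.leaf 24) (.bis 0 1 2 1 115 (.leaf 24) (.bis 0 6 2 1 83 (.leaf 24) (.leaf 15))))))
  (.bis 3 4 1 2 85 (.bis 0 4 1 1 84 (.leaf 24) (.bis 0 2 2 1 77 (.leaf 24) (.bis 0 1 2 1 115
  (.leaf 24) (.bis 0 6 2 1 83 (.leaf 16) (.leaf 15))))) (.bis 0 2 2 1 77 (.leaf 11) (.bis 0 1 2 1
  115 (.leaf 11) (.bis 0 6 2 1 83 (.leaf 11) (.leaf 52)))))) (.bis 3 4 1 4 86 (.bis 0 4 1 2 87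
  (.bis 2 4 1 4 28 (.bis 1 4 1 4 30 (.bis 4 6 4 1 89 (.leaf 32) (.bis 3 4 1 8 90 (.leaf 32)
  (.leaf 32))) (.leaf 64)) (.leaf 64)) (.bis 0 5 1 1 84 (.leaf 24) (.bis 0 2 2 1 77 (.leaf 24)
  (.bis 0 1 2 1 115 (.leaf 24) (.bis 0 6 2 1 83 (.leaf 16) (.leaf 4)))))) (.bis 3 5 1 2 85 (.bis
  0 5 1 1 84 (.leaf 24) (.bis 0 2 2 1 77 (.leaf 24) (.bis 0 1 2 1 115 (.leaf 24) (.bis 0 6 2 1 83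
  (.leaf 16) (.leaf 4))))) (.bis 0 2 2 1 77 (.leaf 67) (.bis 0 1 2 1 115 (.leaf 67) (.bis 0 6 2 1
  83 (.leaf 16) (.leaf 4)))))))) (.bis 2 5 1 2 14 (.bis 5 6 2 1 16 (.bis 0 6 1 1 75 (.bis 1 6 1 2
  116 (.bis 2 3 1 1 93 (.leaf 11) (.leaf 11)) (.bis 2 3 1 1 93 (.leaf 11) (.leaf 11))) (.bis 0 2
  2 1 92 (.leaf 11) (.bis 0 4 2 1 77 (.leaf 11) (.bis 0 1 2 1 115 (.leaf 11) (.bis 0 5 2 1 78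
  (.leaf 11) (.leaf 4)))))) (.bis 3 5 1 4 79 (.bis 0 5 1 2 80 (.bis 4 5 1 4 27 (.bis 1 5 1 4 32
  (.leaf 20) (.leaf 2)) (.leaf 2)) (.bis 0 2 2 1 92 (.leaf 2) (.bis 0 4 2 1 77 (.leaf 2) (.bis 0
  1 2 1 115 (.leaf 2) (.bis 0 6 2 1 78 (.leaf 2) (.leaf 15)))))) (.bis 0 2 2 1 92 (.bis 2 3 1 1
  93 (.leaf 11) (.leaf 2)) (.bis 0 4 2 1 77 (.leaf 11) (.bis 0 1 2 1 115 (.leaf 11) (.bis 0 6 2 1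
  78 (.leaf 11) (.leaf 52))))))) (.bis 0 2 1 1 94 (.bis 1 2 1 2 38 (.bis 2 3 2 1 96 (.bis 3 5 1 1
  93 (.leaf 11) (.leaf 11)) (.leaf 41)) (.bis 1 6 1 2 116 (.bis 3 5 1 1 93 (.leaf 11) (.leaf 11))
  (.bis 3 5 1 1 93 (.leaf 2) (.leaf 11)))) (.bis 0 6 1 1 75 (.leaf 11) (.bis 0 5 2 1 92 (.leaf
  11) (.bis 0 4 2 1 77 (.leaf 11) (.bis 0 1 2 1 115 (.leaf 11) (.leaf 4)))))))) (.bis 2 5 1 2 14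
  (.bis 0 1 1 1 117 (.bis 1 5 1 2 15 (.bis 5 6 2 1 16 (.bis 1 6 1 2 118 (.bis 4 6 1 2 116 (.bis 2
  3 1 1 93 (.leaf 11) (.leaf 11)) (.bis 2 3 1 1 93 (.leaf 11) (.leaf 2))) (.bis 1 3 1 1 119 (.bis
  2 3 1 1 93 (.leaf 11) (.leaf 2)) (.leaf 2))) (.bis 3 5 1 4 79 (.bis 0 5 1 4 120 (.bis 4 5 1 4
  32 (.leaf 20) (.leaf 2)) (.leaf 2)) (.bis 1 3 1 1 119 (.leaf 11) (.leaf 2)))) (.bis 1 6 1 1 37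
  (.bis 5 6 1 2 118 (.bis 4 6 1 2 116 (.bis 2 3 1 1 93 (.leaf 11) (.leaf 11)) (.bis 2 3 1 1 93
  (.leaf 11) (.leaf 11))) (.bis 3 5 1 1 119 (.leaf 11) (.bis 2 3 1 1 93 (.leaf 11) (.leaf 11))))
  (.bis 1 3 2 1 121 (.bis 3 5 1 1 119 (.leaf 11) (.leaf 11)) (.leaf 19)))) (.bis 5 6 2 1 16 (.bis
  0 6 1 1 75 (.leaf 11) (.bis 0 2 2 1 92 (.leaf 11) (.bis 0 4 2 1 115 (.leaf 11) (.bis 0 5 2 1 78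
  (.leaf 11) (.leaf 52))))) (.bis 3 5 1 4 79 (.bis 0 5 1 2 80 (.bis 1 5 1 4 120 (.bis 4 5 1 4 32
  (.leaf 20) (.leaf 2)) (.leaf 2)) (.bis 0 2 2 1 92 (.leaf 2) (.bis 0 4 2 1 115 (.leaf 2) (.bis 0
  6 2 1 78 (.leaf 2) (.leaf 15))))) (.bis 0 2 2 1 92 (.leaf 11) (.bis 0 4 2 1 115 (.leaf 11)
  (.bis 0 6 2 1 78 (.leaf 11) (.bis 0 5 4 1 122 (.leaf 11) (.leaf 52)))))))) (.bis 0 1 1 1 117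
  (.bis 1 6 1 1 37 (.bis 2 4 2 1 38 (.bis 4 6 1 2 116 (.bis 3 5 1 1 93 (.leaf 11) (.leaf 11))
  (.bis 3 5 1 1 93 (.leaf 11) (.leaf 11))) (.bis 2 3 2 1 96 (.bis 3 5 1 1 93 (.leaf 11) (.leaf
  11)) (.bis 0 2 1 2 123 (.leaf 41) (.leaf 11)))) (.bis 1 3 2 1 121 (.bis 2 4 2 1 38 (.bis 3 5 1
  1 93 (.leaf 11) (.leaf 11)) (.bis 2 3 2 1 96 (.bis 3 5 1 1 93 (.leaf 11) (.leaf 11)) (.leaf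
  19))) (.leaf 19))) (.bis 0 2 1 1 94 (.bis 2 4 2 1 38 (.leaf 11) (.bis 2 3 2 1 96 (.leaf 11)
  (.leaf 41))) (.bis 0 6 1 1 75 (.leaf 11) (.bis 0 5 2 1 92 (.leaf 11) (.bis 0 4 2 1 115 (.leaf
  11) (.bis 0 2 2 1 124 (.leaf 11) (.leaf 52))))))))))

def lc1 : List Vr := [⟨[56,0,0,73,0,0,0], 125028, 0⟩, ⟨[0,73,0,0,0,0,96], 105412, 0⟩, ⟨[0,0,85,0,
  0,0,119], 143055, 0⟩, ⟨[0,0,0,73,0,0,0], 21316, 0⟩, ⟨[0,0,0,0,56,0,0], 21952, 0⟩, ⟨[0,0,0,0,0,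
  42,0], 21168, 0⟩, ⟨[0,0,0,73,0,0,96], 105412, 0⟩]

theorem lk1 : chkTr lowT (leafLow 6 lowB) lt1 lc1 = true := by decide +kernel

def lt2 : Tr ℕ := (.bis 0 4 1 1 41 (.bis 1 4 1 2 21 (.bis 2 4 1 2 23 (.bis 4 6 2 1 24 (.bis 5 6 2
  1 16 (.bis 0 6 1 1 46 (.bis 3 6 1 1 75 (.leaf 11) (.bis 2 3 1 2 77 (.bis 1 3 1 2 115 (.bis 3 5
  2 1 78 (.leaf 11) (.bis 3 4 2 1 83 (.leaf 11) (.leaf 4))) (.leaf 11)) (.leaf 11))) (.bis 2 3 1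
  2 77 (.bis 1 3 1 2 115 (.bis 3 5 2 1 78 (.bis 0 5 2 1 44 (.leaf 11) (.bis 0 4 2 1 50 (.leaf 24)
  (.leaf 2))) (.bis 3 4 2 1 83 (.bis 0 4 2 1 50 (.leaf 16) (.leaf 2)) (.bis 0 3 1 1 125 (.leaf 4)
  (.leaf 2)))) (.bis 0 5 2 1 44 (.leaf 11) (.bis 0 4 2 1 50 (.leaf 24) (.leaf 2)))) (.bis 0 5 2 1
  44 (.leaf 11) (.bis 0 4 2 1 50 (.leaf 24) (.leaf 2))))) (.bis 3 5 1 2 80 (.bis 4 5 1 4 26 (.bis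
  2 5 1 4 27 (.bis 1 5 1 4 32 (.bis 0 5 1 2 45 (.leaf 20) (.bis 0 6 2 1 44 (.leaf 2) (.bis 0 2 4
  1 48 (.leaf 2) (.leaf 2)))) (.bis 0 6 2 1 44 (.leaf 2) (.bis 1 3 1 1 126 (.bis 0 2 4 1 48
  (.leaf 2) (.leaf 2)) (.bis 0 2 4 1 48 (.leaf 2) (.leaf 2))))) (.bis 0 6 2 1 44 (.leaf 2) (.bis
  0 2 2 1 49 (.leaf 2) (.leaf 2)))) (.bis 0 6 2 1 44 (.leaf 11) (.bis 0 4 2 1 50 (.leaf 24)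
  (.leaf 2)))) (.bis 2 3 1 2 77 (.bis 1 3 1 2 115 (.bis 3 6 2 1 78 (.bis 0 6 2 1 44 (.leaf 11)
  (.leaf 64)) (.bis 3 4 2 1 83 (.bis 0 4 2 1 50 (.leaf 24) (.leaf 2)) (.bis 0 3 1 1 125 (.leaf
  15) (.leaf 2)))) (.bis 0 6 2 1 44 (.leaf 11) (.leaf 64))) (.bis 0 6 2 1 44 (.leaf 11) (.bis 0 4
  2 1 50 (.leaf 24) (.leaf 2)))))) (.bis 4 5 1 1 25 (.bis 3 5 1 2 80 (.bis 5 6 4 1 26 (.bis 0 6 2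
  1 50 (.leaf 24) (.leaf 10)) (.bis 2 5 1 4 27 (.bis 1 5 1 4 32 (.bis 0 5 1 2 45 (.leaf 71) (.bis
  0 2 4 1 48 (.leaf 10) (.leaf 10))) (.bis 1 3 1 1 126 (.bis 0 2 4 1 48 (.leaf 10) (.leaf 10))
  (.bis 0 2 4 1 48 (.leaf 10) (.leaf 10)))) (.bis 0 2 2 1 49 (.leaf 10) (.leaf 10)))) (.bis 3 4 1
  1 84 (.leaf 64) (.bis 2 3 1 2 77 (.bis 1 3 1 2 115 (.bis 3 6 2 1 83 (.leaf 64) (.leaf 15))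
  (.leaf 64)) (.bis 0 6 2 1 50 (.leaf 24) (.leaf 2))))) (.bis 3 4 1 2 87 (.bis 2 4 1 4 28 (.bis 0
  4 1 2 51 (.bis 1 4 1 4 30 (.bis 4 6 4 1 89 (.leaf 32) (.leaf 32)) (.leaf 64)) (.leaf 64)) (.bis
  0 6 2 1 50 (.leaf 64) (.leaf 10))) (.bis 3 5 1 1 84 (.leaf 64) (.bis 2 3 1 2 77 (.bis 1 3 1 2
  115 (.bis 3 6 2 1 83 (.leaf 64) (.leaf 15)) (.leaf 64)) (.leaf 64)))))) (.bis 2 5 1 2 14 (.bis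
  5 6 2 1 16 (.bis 0 6 1 1 46 (.bis 3 6 1 1 75 (.leaf 11) (.bis 2 3 1 2 92 (.bis 3 4 2 1 77
  (.leaf 11) (.bis 1 3 1 2 115 (.bis 3 5 2 1 78 (.leaf 11) (.leaf 4)) (.leaf 11))) (.leaf 11)))
  (.bis 2 3 1 2 92 (.bis 3 4 2 1 77 (.bis 0 5 2 1 44 (.leaf 2) (.bis 0 4 2 1 49 (.leaf 2) (.leaf
  2))) (.bis 1 3 1 2 115 (.bis 3 5 2 1 78 (.bis 0 5 2 1 44 (.leaf 2) (.bis 0 3 4 1 127 (.leaf 2)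
  (.leaf 2))) (.bis 0 3 1 1 125 (.leaf 4) (.leaf 2))) (.bis 0 5 2 1 44 (.leaf 2) (.leaf 2))))
  (.bis 0 2 2 1 43 (.leaf 2) (.bis 0 5 2 1 44 (.leaf 2) (.bis 0 4 2 1 49 (.leaf 2) (.leaf 2))))))
  (.bis 3 5 1 2 80 (.bis 4 5 1 4 27 (.bis 1 5 1 4 32 (.bis 0 5 1 2 45 (.leaf 20) (.bis 0 2 2 1 43
  (.leaf 2) (.bis 0 6 2 1 44 (.leaf 2) (.leaf 2)))) (.bis 0 2 2 1 43 (.leaf 2) (.bis 0 6 2 1 44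
  (.leaf 2) (.leaf 2)))) (.bis 0 2 2 1 43 (.leaf 2) (.bis 0 6 2 1 44 (.leaf 2) (.bis 0 4 2 1 49
  (.leaf 2) (.leaf 2))))) (.bis 2 3 1 2 92 (.bis 3 4 2 1 77 (.bis 0 6 2 1 44 (.leaf 2) (.leaf 2))
  (.bis 1 3 1 2 115 (.bis 3 6 2 1 78 (.bis 0 6 2 1 44 (.leaf 2) (.leaf 2)) (.bis 0 3 1 1 125
  (.leaf 15) (.leaf 2))) (.bis 0 6 2 1 44 (.leaf 2) (.leaf 2)))) (.bis 0 2 2 1 43 (.leaf 2) (.bis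
  0 6 2 1 44 (.leaf 2) (.leaf 2)))))) (.bis 0 2 1 1 47 (.bis 2 3 1 1 94 (.bis 3 6 1 1 75 (.leaf
  11) (.bis 3 5 2 1 92 (.leaf 11) (.bis 3 4 2 1 77 (.leaf 11) (.bis 1 3 1 2 115 (.bis 0 3 1 2 128
  (.leaf 4) (.leaf 11)) (.leaf 11))))) (.leaf 41)) (.bis 0 6 1 1 46 (.bis 3 6 1 1 75 (.leaf 11)
  (.bis 3 5 2 1 92 (.leaf 11) (.bis 3 4 2 1 77 (.leaf 11) (.bis 1 3 1 2 115 (.bis 2 3 1 2 128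
  (.leaf 4) (.leaf 11)) (.leaf 11))))) (.bis 3 5 2 1 92 (.bis 0 5 2 1 43 (.leaf 2) (.bis 0 4 2 1
  49 (.leaf 2) (.bis 0 2 2 1 58 (.leaf 2) (.leaf 2)))) (.bis 3 4 2 1 77 (.bis 0 4 2 1 49 (.leaf
  2) (.bis 0 2 2 1 58 (.leaf 2) (.leaf 2))) (.bis 1 3 1 2 115 (.bis 2 3 1 2 128 (.bis 0 3 1 1 125
  (.leaf 4) (.leaf 2)) (.bis 0 2 2 1 58 (.leaf 2) (.leaf 2))) (.bis 0 2 2 1 58 (.leaf 2) (.leaf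
  2))))))))) (.bis 2 5 1 2 14 (.bis 1 3 1 1 117 (.bis 5 6 2 1 16 (.bis 0 6 1 1 46 (.bis 3 6 1 1
  75 (.leaf 11) (.bis 2 3 1 2 92 (.bis 3 4 2 1 115 (.leaf 11) (.bis 3 5 2 1 78 (.leaf 11) (.leaf
  15))) (.leaf 11))) (.bis 2 3 1 2 92 (.bis 3 4 2 1 115 (.bis 0 5 2 1 44 (.leaf 2) (.bis 0 1 2 1
  129 (.leaf 2) (.leaf 2))) (.bis 3 5 2 1 78 (.bis 0 5 2 1 44 (.leaf 2) (.bis 0 1 2 1 129 (.leaf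
  2) (.leaf 2))) (.bis 0 1 2 1 129 (.bis 3 6 2 1 130 (.leaf 2) (.leaf 15)) (.leaf 15)))) (.bis 0
  2 2 1 43 (.leaf 2) (.bis 0 5 2 1 44 (.leaf 2) (.bis 0 1 2 1 129 (.leaf 2) (.leaf 2)))))) (.bis
  3 5 1 2 80 (.bis 1 5 1 4 120 (.bis 4 5 1 4 32 (.bis 0 5 1 2 45 (.leaf 20) (.bis 0 2 2 1 43
  (.leaf 2) (.bis 0 6 2 1 44 (.leaf 2) (.leaf 2)))) (.bis 0 2 2 1 43 (.leaf 2) (.bis 0 6 2 1 44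
  (.leaf 2) (.leaf 2)))) (.bis 0 2 2 1 43 (.leaf 2) (.bis 0 6 2 1 44 (.leaf 2) (.leaf 2)))) (.bis
  2 3 1 2 92 (.bis 3 4 2 1 115 (.bis 0 6 2 1 44 (.leaf 2) (.leaf 2)) (.bis 3 6 2 1 78 (.bis 0 6 2
  1 44 (.leaf 2) (.bis 0 1 2 1 129 (.leaf 2) (.leaf 2))) (.bis 0 1 2 1 129 (.leaf 15) (.leaf
  15)))) (.bis 0 2 2 1 43 (.leaf 2) (.bis 0 6 2 1 44 (.leaf 2) (.leaf 2)))))) (.bis 1 5 1 2 15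
  (.bis 5 6 2 1 16 (.bis 0 6 1 1 46 (.leaf 11) (.bis 0 2 2 1 43 (.leaf 2) (.bis 0 1 2 1 52 (.leaf
  2) (.bis 0 5 2 1 44 (.leaf 2) (.leaf 2))))) (.bis 3 5 1 4 120 (.bis 4 5 1 4 32 (.bis 0 5 1 2 45
  (.leaf 20) (.bis 0 2 2 1 43 (.leaf 2) (.bis 0 1 2 1 52 (.leaf 2) (.bis 0 6 2 1 44 (.leaf 2)
  (.leaf 2))))) (.bis 0 2 2 1 43 (.leaf 2) (.bis 0 1 2 1 52 (.leaf 2) (.bis 0 6 2 1 44 (.leaf 2)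
  (.leaf 2))))) (.bis 0 2 2 1 43 (.leaf 2) (.bis 0 1 2 1 52 (.leaf 2) (.bis 0 6 2 1 44 (.leaf 2)
  (.leaf 2)))))) (.bis 0 1 1 1 55 (.bis 1 6 1 1 37 (.leaf 11) (.leaf 19)) (.bis 0 6 1 1 46 (.leaf
  11) (.bis 0 2 2 1 43 (.leaf 2) (.bis 0 5 2 1 52 (.leaf 2) (.bis 0 3 2 1 129 (.leaf 2) (.leaf
  2)))))))) (.bis 1 3 1 1 117 (.bis 0 2 1 1 47 (.bis 2 3 1 1 94 (.bis 3 6 1 1 75 (.leaf 11) (.bis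
  3 5 2 1 92 (.leaf 11) (.bis 3 4 2 1 115 (.leaf 11) (.bis 0 3 1 2 128 (.leaf 15) (.leaf 11)))))
  (.leaf 41)) (.bis 0 6 1 1 46 (.bis 3 6 1 1 75 (.leaf 11) (.bis 3 5 2 1 92 (.leaf 11) (.bis 3 4
  2 1 115 (.leaf 11) (.bis 2 3 1 2 128 (.leaf 15) (.leaf 11))))) (.bis 3 5 2 1 92 (.bis 0 5 2 1
  43 (.leaf 2) (.bis 0 1 2 1 129 (.leaf 2) (.bis 0 2 2 1 58 (.leaf 2) (.leaf 2)))) (.bis 3 4 2 1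
  115 (.bis 0 1 2 1 129 (.leaf 2) (.leaf 2)) (.bis 2 3 1 2 128 (.bis 0 1 2 1 129 (.bis 3 6 2 1
  130 (.leaf 2) (.leaf 15)) (.leaf 15)) (.bis 0 1 2 1 129 (.leaf 2) (.leaf 2))))))) (.bis 0 2 1 1
  47 (.leaf 41) (.bis 0 1 1 1 55 (.leaf 41) (.bis 0 6 1 1 46 (.leaf 11) (.bis 0 5 2 1 43 (.leaf
  2) (.bis 0 3 2 1 129 (.leaf 2) (.bis 0 2 2 1 58 (.leaf 2) (.leaf 2)))))))))) (.bis 0 6 2 1 56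
  (.bis 2 5 1 2 14 (.bis 1 3 1 1 117 (.bis 5 6 2 1 16 (.bis 4 6 1 1 46 (.bis 3 6 1 1 75 (.leaf
  11) (.bis 2 3 1 2 92 (.bis 3 5 2 1 78 (.leaf 11) (.bis 3 4 2 1 130 (.leaf 11) (.leaf 15)))
  (.leaf 11))) (.bis 2 3 1 2 92 (.bis 3 5 2 1 78 (.bis 4 5 2 1 44 (.leaf 2) (.bis 1 4 1 2 129
  (.leaf 2) (.leaf 2))) (.bis 1 4 1 2 129 (.bis 3 4 1 1 125 (.leaf 2) (.leaf 15)) (.bis 3 6 2 1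
  130 (.leaf 2) (.leaf 15)))) (.bis 2 4 1 2 43 (.bis 4 5 2 1 44 (.leaf 2) (.bis 1 4 1 2 129
  (.leaf 2) (.leaf 2))) (.leaf 2)))) (.bis 3 5 1 2 80 (.bis 1 5 1 4 120 (.bis 0 5 1 4 57 (.bis 4
  5 1 2 45 (.leaf 20) (.bis 2 4 1 2 43 (.bis 4 6 2 1 44 (.leaf 2) (.leaf 2)) (.leaf 2))) (.bis 2
  4 1 2 43 (.bis 4 6 2 1 44 (.leaf 2) (.leaf 2)) (.leaf 2))) (.bis 2 4 1 2 43 (.bis 4 6 2 1 44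
  (.leaf 2) (.leaf 2)) (.leaf 2))) (.bis 2 3 1 2 92 (.bis 3 6 2 1 78 (.bis 4 6 2 1 44 (.leaf 2)
  (.bis 1 4 1 2 129 (.leaf 2) (.leaf 2))) (.bis 1 4 1 2 129 (.leaf 15) (.leaf 15))) (.bis 2 4 1 2
  43 (.bis 4 6 2 1 44 (.leaf 2) (.leaf 2)) (.leaf 2))))) (.bis 1 5 1 2 15 (.bis 5 6 2 1 16 (.bis
  4 6 1 1 46 (.leaf 11) (.bis 2 4 1 2 43 (.bis 1 4 1 2 52 (.bis 4 5 2 1 44 (.leaf 2) (.leaf 2))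
  (.leaf 2)) (.leaf 2))) (.bis 3 5 1 4 120 (.bis 0 5 1 4 57 (.bis 4 5 1 2 45 (.leaf 20) (.bis 2 4
  1 2 43 (.bis 1 4 1 2 52 (.bis 4 6 2 1 44 (.leaf 2) (.leaf 2)) (.leaf 2)) (.leaf 2))) (.bis 2 4
  1 2 43 (.bis 1 4 1 2 52 (.bis 4 6 2 1 44 (.leaf 2) (.leaf 2)) (.leaf 2)) (.leaf 2))) (.bis 2 4
  1 2 43 (.bis 1 4 1 2 52 (.bis 4 6 2 1 44 (.leaf 2) (.leaf 2)) (.leaf 2)) (.leaf 2)))) (.bis 1 4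
  1 1 55 (.bis 4 6 1 1 46 (.leaf 11) (.bis 2 4 1 2 43 (.bis 4 5 2 1 52 (.leaf 2) (.bis 3 4 1 2
  129 (.leaf 2) (.leaf 2))) (.leaf 2))) (.leaf 41)))) (.bis 1 3 1 1 117 (.bis 2 4 1 1 47 (.bis 4
  6 1 1 46 (.bis 3 6 1 1 75 (.leaf 11) (.bis 3 5 2 1 92 (.leaf 11) (.bis 2 3 1 2 128 (.bis 3 4 2
  1 130 (.leaf 11) (.leaf 15)) (.leaf 11)))) (.bis 3 5 2 1 92 (.bis 4 5 2 1 43 (.leaf 2) (.bis 1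
  4 1 2 129 (.bis 2 4 1 2 58 (.leaf 2) (.leaf 2)) (.leaf 2))) (.bis 2 3 1 2 128 (.bis 1 4 1 2 129
  (.bis 3 4 1 1 125 (.leaf 2) (.leaf 15)) (.bis 3 6 2 1 130 (.leaf 2) (.leaf 15))) (.bis 1 4 1 2
  129 (.bis 2 4 1 2 58 (.leaf 2) (.leaf 2)) (.leaf 2))))) (.bis 2 3 1 1 94 (.bis 3 6 1 1 75
  (.leaf 11) (.bis 3 5 2 1 92 (.leaf 11) (.bis 3 4 2 1 128 (.leaf 11) (.bis 2 3 1 2 124 (.leaf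
  15) (.leaf 11))))) (.leaf 41))) (.bis 2 4 1 1 47 (.bis 1 4 1 1 55 (.bis 4 6 1 1 46 (.leaf 11)
  (.bis 4 5 2 1 43 (.leaf 2) (.bis 3 4 1 2 129 (.bis 2 4 1 2 58 (.leaf 2) (.leaf 2)) (.leaf 2))))
  (.leaf 41)) (.leaf 41)))) (.bis 0 2 2 1 59 (.bis 2 5 1 2 14 (.bis 1 3 1 1 117 (.bis 3 5 1 2 80
  (.bis 1 5 1 4 120 (.bis 0 5 1 4 61 (.bis 5 6 4 1 57 (.bis 2 4 1 2 43 (.bis 0 4 1 4 64 (.leaf 2)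
  (.leaf 2)) (.leaf 2)) (.bis 4 5 1 2 45 (.leaf 20) (.bis 2 4 1 2 43 (.bis 0 4 1 4 64 (.leaf 2)
  (.leaf 2)) (.leaf 2)))) (.bis 2 4 1 2 43 (.bis 0 4 1 2 60 (.leaf 2) (.leaf 2)) (.leaf 2)))
  (.bis 2 4 1 2 43 (.bis 0 4 1 2 60 (.leaf 2) (.leaf 2)) (.leaf 2))) (.bis 2 3 1 2 92 (.bis 0 3 1
  2 131 (.bis 1 4 1 2 129 (.leaf 15) (.leaf 15)) (.bis 0 4 1 2 60 (.bis 1 4 1 2 129 (.leaf 2)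
  (.leaf 2)) (.leaf 2))) (.bis 2 4 1 2 43 (.bis 0 4 1 2 60 (.leaf 2) (.leaf 2)) (.leaf 2))))
  (.bis 1 5 1 2 15 (.bis 3 5 1 4 120 (.bis 0 5 1 4 61 (.bis 5 6 4 1 57 (.bis 2 4 1 2 43 (.bis 1 4
  1 2 52 (.bis 0 4 1 4 64 (.leaf 2) (.leaf 2)) (.leaf 2)) (.leaf 2)) (.bis 4 5 1 2 45 (.leaf 20)
  (.bis 2 4 1 2 43 (.bis 1 4 1 2 52 (.bis 0 4 1 4 64 (.leaf 2) (.leaf 2)) (.leaf 2)) (.leaf 2))))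
  (.bis 2 4 1 2 43 (.bis 1 4 1 2 52 (.bis 0 4 1 2 60 (.leaf 2) (.leaf 2)) (.leaf 2)) (.leaf 2)))
  (.bis 2 4 1 2 43 (.bis 1 4 1 2 52 (.bis 0 4 1 2 60 (.leaf 2) (.leaf 2)) (.leaf 2)) (.leaf 2)))
  (.bis 1 4 1 1 55 (.bis 2 4 1 2 43 (.bis 4 5 2 1 52 (.leaf 2) (.bis 0 4 1 2 60 (.leaf 2) (.leaf
  2))) (.leaf 2)) (.leaf 19)))) (.bis 1 3 1 1 117 (.bis 2 4 1 1 47 (.bis 3 5 2 1 92 (.bis 4 5 2 1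
  43 (.leaf 2) (.bis 0 4 1 2 60 (.bis 1 4 1 2 129 (.leaf 2) (.leaf 2)) (.leaf 2))) (.bis 0 3 1 2
  131 (.bis 2 3 1 2 128 (.bis 1 4 1 2 129 (.bis 3 4 1 1 125 (.leaf 2) (.leaf 15)) (.leaf 15))
  (.bis 1 4 1 2 129 (.bis 2 4 1 2 58 (.leaf 2) (.leaf 2)) (.leaf 2))) (.bis 0 4 1 2 60 (.bis 1 4
  1 2 129 (.leaf 2) (.leaf 2)) (.leaf 2)))) (.bis 2 3 1 1 94 (.bis 3 5 2 1 92 (.leaf 2) (.bis 0 3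
  1 2 131 (.bis 3 4 2 1 128 (.leaf 2) (.bis 2 3 1 2 124 (.leaf 15) (.leaf 2))) (.leaf 2))) (.leaf
  19))) (.bis 2 4 1 1 47 (.bis 1 4 1 1 55 (.bis 4 5 2 1 43 (.leaf 2) (.bis 0 4 1 2 60 (.bis 3 4 1
  2 129 (.leaf 2) (.leaf 2)) (.leaf 2))) (.leaf 19)) (.leaf 19)))) (.bis 0 1 2 1 62 (.bis 1 3 1 1
  117 (.bis 3 5 1 2 80 (.bis 0 5 1 4 63 (.bis 1 5 1 4 120 (.bis 2 5 1 4 61 (.bis 5 6 4 1 57 (.bis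
  2 4 1 4 64 (.bis 0 4 1 4 132 (.leaf 2) (.leaf 2)) (.leaf 2)) (.bis 4 5 1 2 45 (.leaf 20) (.bis
  2 4 1 4 64 (.leaf 2) (.leaf 2)))) (.bis 2 4 1 2 60 (.bis 4 5 4 1 64 (.leaf 2) (.leaf 2)) (.leaf
  2))) (.bis 2 4 1 2 60 (.bis 1 4 1 2 129 (.leaf 2) (.leaf 2)) (.leaf 2))) (.bis 0 4 1 2 65 (.bis
  2 4 1 2 60 (.leaf 2) (.leaf 2)) (.leaf 12))) (.bis 0 3 1 2 133 (.bis 2 3 1 2 131 (.bis 1 4 1 2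
  129 (.leaf 15) (.leaf 15)) (.bis 2 4 1 2 60 (.bis 1 4 1 2 129 (.leaf 2) (.leaf 2)) (.leaf 2)))
  (.bis 0 4 1 2 65 (.bis 2 4 1 2 60 (.leaf 2) (.leaf 2)) (.leaf 12)))) (.bis 1 5 1 2 15 (.bis 0 5
  1 4 63 (.bis 3 5 1 4 120 (.bis 2 5 1 4 61 (.bis 5 6 4 1 57 (.bis 1 4 1 2 52 (.bis 2 4 1 4 64
  (.bis 0 4 1 4 132 (.leaf 2) (.leaf 2)) (.leaf 2)) (.leaf 2)) (.bis 4 5 1 2 45 (.leaf 20) (.bis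
  1 4 1 2 52 (.bis 2 4 1 4 64 (.leaf 2) (.leaf 2)) (.leaf 2)))) (.bis 1 4 1 2 52 (.bis 2 4 1 2 60
  (.bis 4 5 4 1 64 (.leaf 2) (.leaf 2)) (.leaf 2)) (.leaf 2))) (.bis 1 4 1 2 52 (.bis 2 4 1 2 60
  (.bis 3 4 1 2 129 (.leaf 2) (.leaf 2)) (.leaf 2)) (.leaf 2))) (.bis 1 4 1 2 52 (.bis 0 4 1 2 65
  (.bis 2 4 1 2 60 (.leaf 2) (.leaf 2)) (.leaf 12)) (.leaf 26))) (.bis 1 4 1 1 55 (.bis 4 5 2 1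
  52 (.leaf 26) (.bis 0 4 1 2 65 (.bis 2 4 1 2 60 (.leaf 2) (.leaf 2)) (.leaf 12))) (.leaf
  114)))) (.bis 0 5 1 1 66 (.bis 3 5 1 2 80 (.bis 1 5 1 4 63 (.bis 2 5 1 4 61 (.bis 5 6 4 1 57
  (.bis 2 4 1 4 64 (.leaf 12) (.leaf 12)) (.bis 4 5 1 2 45 (.leaf 20) (.bis 2 4 1 4 64 (.leaf 12)
  (.leaf 12)))) (.bis 2 4 1 2 60 (.leaf 12) (.leaf 12))) (.bis 1 4 1 2 65 (.leaf 12) (.leaf 12)))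
  (.bis 1 3 1 2 133 (.bis 0 3 1 1 134 (.leaf 134) (.leaf 12)) (.bis 1 4 1 2 65 (.leaf 12) (.leaf
  12)))) (.bis 0 3 2 1 135 (.bis 1 3 1 2 133 (.bis 3 5 1 1 134 (.leaf 12) (.bis 2 3 1 2 131
  (.leaf 15) (.bis 2 4 1 2 60 (.leaf 12) (.leaf 12)))) (.bis 1 4 1 2 65 (.leaf 12) (.leaf 12)))
  (.bis 0 2 4 1 67 (.bis 1 4 1 2 65 (.leaf 12) (.leaf 12)) (.bis 0 4 2 1 71 (.leaf 12) (.bis 0 6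
  4 1 69 (.leaf 12) (.bis 0 1 4 1 136 (.leaf 12) (.leaf 45)))))))))))

def lc2 : List Vr := [⟨[56,0,0,0,0,0,0], 21952, 0⟩, ⟨[0,73,0,0,0,0,96], 105412, 0⟩, ⟨[0,0,85,0,0,
  0,119], 143055, 0⟩, ⟨[56,0,0,73,0,0,0], 125028, 0⟩, ⟨[0,0,0,0,56,0,0], 21952, 0⟩, ⟨[0,0,0,0,0,
  42,0], 21168, 0⟩, ⟨[0,0,0,73,0,0,96], 105412, 0⟩]

theorem lk2 : chkTr lowT (leafLow 6 lowB) lt2 lc2 = true := by decide +kernel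

def lt3 : Tr ℕ := (.bis 3 6 2 1 73 (.bis 4 6 2 1 21 (.bis 1 5 1 2 138 (.bis 2 5 1 2 14 (.bis 0 6
  1 1 117 (.bis 5 6 2 1 15 (.bis 1 6 1 2 139 (.bis 3 6 1 2 121 (.leaf 19) (.bis 3 5 1 1 119
  (.leaf 11) (.leaf 11))) (.bis 3 5 1 1 119 (.leaf 2) (.leaf 11))) (.bis 3 5 1 4 79 (.bis 0 5 1 4
  120 (.bis 4 5 1 4 32 (.leaf 20) (.leaf 2)) (.leaf 2)) (.bis 3 6 1 1 119 (.leaf 2) (.leaf 11))))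
  (.bis 3 5 1 4 79 (.bis 0 5 1 2 80 (.bis 5 6 4 1 120 (.leaf 2) (.bis 4 5 1 4 32 (.leaf 20)
  (.leaf 2))) (.bis 0 2 2 1 92 (.leaf 2) (.bis 0 4 2 1 115 (.leaf 2) (.bis 0 3 4 1 122 (.leaf 2)
  (.leaf 15))))) (.bis 0 2 2 1 92 (.leaf 11) (.bis 0 4 2 1 115 (.leaf 11) (.bis 0 5 4 1 122
  (.leaf 11) (.leaf 52)))))) (.bis 0 6 1 1 117 (.bis 1 2 1 2 140 (.bis 3 6 1 2 121 (.leaf 19)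
  (.bis 2 4 2 1 38 (.leaf 11) (.bis 2 3 2 1 96 (.leaf 11) (.leaf 19)))) (.bis 1 6 1 2 139 (.bis 3
  6 1 2 121 (.leaf 19) (.leaf 11)) (.leaf 11))) (.bis 0 2 1 1 94 (.bis 1 2 1 2 140 (.bis 2 4 2 1
  38 (.leaf 11) (.bis 2 3 2 1 96 (.leaf 11) (.leaf 19))) (.leaf 11)) (.bis 0 5 2 1 92 (.leaf 11)
  (.bis 0 4 2 1 115 (.leaf 11) (.bis 0 2 2 1 124 (.leaf 11) (.leaf 52))))))) (.bis 1 2 1 1 141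
  (.bis 0 6 1 1 117 (.bis 2 5 2 1 140 (.bis 5 6 1 2 139 (.leaf 116) (.leaf 11)) (.bis 3 6 1 2 121
  (.leaf 19) (.leaf 96))) (.bis 0 2 1 1 94 (.bis 2 5 2 1 140 (.leaf 11) (.leaf 96)) (.bis 0 4 2 1
  115 (.leaf 11) (.bis 0 1 2 1 142 (.leaf 11) (.leaf 52))))) (.bis 0 6 1 1 117 (.bis 1 6 1 1 143
  (.bis 5 6 1 2 139 (.leaf 116) (.leaf 34)) (.bis 1 4 2 1 144 (.leaf 34) (.bis 0 1 1 2 145 (.bis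
  1 2 2 1 146 (.leaf 34) (.leaf 98)) (.leaf 34)))) (.bis 1 4 2 1 144 (.bis 0 4 2 1 115 (.leaf 34)
  (.bis 0 2 2 1 142 (.leaf 34) (.leaf 21))) (.bis 0 2 2 1 142 (.bis 1 6 2 1 145 (.leaf 34) (.bis
  1 2 2 1 146 (.leaf 4) (.leaf 21))) (.bis 1 6 2 1 145 (.leaf 21) (.bis 0 1 1 1 147 (.leaf 21)
  (.leaf 4)))))))) (.bis 2 4 1 2 23 (.bis 1 5 1 2 138 (.bis 4 5 1 1 25 (.bis 3 5 1 4 79 (.bis 0 5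
  1 2 80 (.bis 2 5 1 4 27 (.leaf 71) (.leaf 10)) (.bis 0 4 1 1 84 (.leaf 10) (.bis 0 2 2 1 77
  (.leaf 2) (.bis 0 6 2 1 115 (.leaf 2) (.leaf 15))))) (.bis 3 4 1 2 85 (.bis 0 4 1 1 84 (.leaf
  10) (.bis 0 2 2 1 77 (.leaf 2) (.bis 0 6 2 1 115 (.leaf 2) (.leaf 15)))) (.bis 0 2 2 1 77
  (.leaf 11) (.bis 0 6 2 1 115 (.leaf 11) (.bis 0 5 4 1 122 (.leaf 11) (.leaf 4)))))) (.bis 3 4 1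
  4 86 (.bis 0 4 1 2 87 (.bis 1 4 1 4 148 (.bis 2 4 1 4 28 (.bis 4 6 4 1 30 (.leaf 10) (.bis 3 4
  1 8 90 (.bis 0 4 1 4 149 (.leaf 32) (.leaf 10)) (.leaf 10))) (.leaf 10)) (.leaf 10)) (.bis 0 5
  1 1 84 (.leaf 10) (.bis 0 2 2 1 77 (.leaf 10) (.bis 0 6 2 1 115 (.leaf 10) (.leaf 4))))) (.bis
  3 5 1 2 85 (.bis 0 5 1 1 84 (.leaf 10) (.bis 0 2 2 1 77 (.leaf 2) (.bis 0 6 2 1 115 (.leaf 2)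
  (.leaf 4)))) (.bis 0 2 2 1 77 (.leaf 34) (.bis 0 6 2 1 115 (.leaf 34) (.bis 0 4 4 1 150 (.leaf
  4) (.leaf 4))))))) (.bis 1 4 1 2 151 (.bis 3 4 1 4 86 (.bis 0 4 1 2 87 (.bis 4 5 4 1 148 (.leaf
  10) (.bis 2 4 1 4 28 (.bis 4 6 4 1 30 (.leaf 10) (.bis 1 4 1 4 152 (.bis 3 4 1 8 90 (.leaf 32)
  (.leaf 10)) (.leaf 10))) (.leaf 10))) (.bis 0 2 2 1 77 (.leaf 10) (.bis 0 6 2 1 115 (.leaf 10)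
  (.leaf 4)))) (.bis 0 2 2 1 77 (.leaf 34) (.bis 0 6 2 1 115 (.leaf 34) (.leaf 4)))) (.bis 1 2 2
  1 153 (.bis 0 2 2 1 77 (.leaf 34) (.bis 0 6 2 1 115 (.leaf 34) (.leaf 4))) (.bis 1 6 2 1 144
  (.bis 0 6 2 1 115 (.leaf 34) (.bis 0 4 2 1 154 (.leaf 4) (.leaf 4))) (.bis 0 1 1 1 147 (.leaf
  49) (.leaf 4)))))) (.bis 1 5 1 2 138 (.bis 2 5 1 2 14 (.bis 3 5 1 4 79 (.bis 0 5 1 2 80 (.bis 4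
  5 1 4 27 (.bis 5 6 4 1 32 (.leaf 2) (.leaf 20)) (.leaf 2)) (.bis 0 2 2 1 92 (.leaf 2) (.bis 0 4
  2 1 77 (.leaf 2) (.bis 0 6 2 1 115 (.leaf 2) (.leaf 15))))) (.bis 0 2 2 1 92 (.leaf 11) (.bis 0
  4 2 1 77 (.leaf 11) (.bis 0 6 2 1 115 (.leaf 11) (.leaf 52))))) (.bis 0 2 1 1 94 (.bis 1 2 1 2
  140 (.bis 2 6 2 1 38 (.bis 3 5 1 1 93 (.leaf 2) (.leaf 11)) (.bis 2 3 2 1 96 (.bis 3 5 1 1 93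
  (.leaf 11) (.leaf 11)) (.leaf 19))) (.bis 3 5 1 1 93 (.bis 1 4 1 1 155 (.leaf 2) (.leaf 2))
  (.leaf 11))) (.bis 0 5 2 1 92 (.leaf 11) (.bis 0 4 2 1 77 (.leaf 11) (.bis 0 6 2 1 115 (.leaf
  11) (.leaf 4)))))) (.bis 1 2 1 1 141 (.bis 0 2 1 1 94 (.bis 2 5 2 1 140 (.leaf 11) (.leaf 96))
  (.bis 0 4 2 1 77 (.leaf 11) (.bis 0 6 2 1 115 (.leaf 11) (.bis 0 1 2 1 142 (.leaf 4) (.leaf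
  4))))) (.bis 1 4 2 1 153 (.bis 0 4 2 1 77 (.leaf 11) (.bis 0 6 2 1 115 (.leaf 11) (.bis 0 2 2 1
  142 (.leaf 4) (.leaf 4)))) (.bis 1 6 2 1 144 (.bis 0 6 2 1 115 (.leaf 34) (.bis 0 2 2 1 142
  (.leaf 4) (.leaf 4))) (.bis 0 2 2 1 142 (.bis 1 2 2 1 146 (.leaf 4) (.leaf 21)) (.bis 0 1 1 1
  147 (.leaf 21) (.leaf 4))))))))) (.bis 3 5 1 1 74 (.bis 2 4 1 2 23 (.bis 1 5 1 2 138 (.bis 4 5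
  1 1 25 (.bis 5 6 4 1 79 (.bis 4 6 2 1 85 (.bis 0 2 2 1 77 (.leaf 16) (.bis 0 5 4 1 122 (.leaf
  16) (.leaf 4))) (.bis 0 4 1 1 84 (.bis 2 3 1 2 82 (.bis 3 4 1 1 156 (.leaf 10) (.leaf 16))
  (.leaf 10)) (.bis 0 2 2 1 77 (.leaf 16) (.leaf 52)))) (.bis 0 5 1 2 80 (.bis 2 5 1 4 27 (.bis 3
  5 1 2 81 (.leaf 71) (.leaf 24)) (.leaf 24)) (.bis 0 4 1 1 84 (.bis 2 3 1 2 82 (.bis 3 4 1 1 156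
  (.leaf 10) (.leaf 24)) (.leaf 10)) (.bis 0 2 2 1 77 (.bis 2 3 1 2 82 (.leaf 24) (.leaf 2))
  (.leaf 52))))) (.bis 4 6 4 1 86 (.bis 5 6 2 1 85 (.bis 0 2 2 1 77 (.leaf 16) (.leaf 4)) (.bis 0
  5 1 1 84 (.leaf 24) (.bis 0 2 2 1 77 (.leaf 16) (.leaf 4)))) (.bis 0 4 1 2 87 (.bis 1 4 1 4 148
  (.bis 3 4 1 2 88 (.bis 2 4 1 4 28 (.bis 4 6 8 1 90 (.leaf 10) (.bis 0 4 1 4 149 (.leaf 32)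
  (.leaf 10))) (.leaf 10)) (.leaf 24)) (.leaf 24)) (.bis 0 5 1 1 84 (.leaf 24) (.bis 0 2 2 1 77
  (.leaf 16) (.leaf 4)))))) (.bis 1 4 1 2 151 (.bis 4 6 4 1 86 (.bis 0 2 2 1 77 (.leaf 16) (.leaf
  4)) (.bis 0 4 1 2 87 (.bis 4 5 4 1 148 (.bis 2 3 1 2 82 (.leaf 16) (.leaf 10)) (.bis 3 4 1 2 88
  (.bis 2 4 1 4 28 (.bis 1 4 1 4 152 (.bis 4 6 8 1 90 (.leaf 10) (.bis 0 4 1 4 149 (.leaf 32)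
  (.leaf 10))) (.leaf 10)) (.leaf 10)) (.bis 2 3 1 2 82 (.leaf 39) (.leaf 10)))) (.bis 0 2 2 1 77
  (.leaf 16) (.leaf 4)))) (.bis 1 2 2 1 153 (.bis 0 2 2 1 77 (.leaf 16) (.leaf 4)) (.bis 1 3 1 1
  157 (.leaf 4) (.bis 0 1 1 1 147 (.leaf 49) (.leaf 4)))))) (.bis 1 5 1 2 138 (.bis 2 5 1 2 14
  (.bis 5 6 4 1 79 (.bis 0 2 2 1 92 (.bis 2 3 1 2 91 (.leaf 16) (.leaf 11)) (.bis 0 4 2 1 77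
  (.leaf 16) (.leaf 52))) (.bis 0 5 1 2 80 (.bis 4 5 1 4 27 (.bis 3 5 1 2 81 (.leaf 20) (.leaf
  130)) (.bis 2 3 1 2 91 (.leaf 24) (.leaf 2))) (.bis 0 2 2 1 92 (.bis 2 3 1 2 91 (.bis 3 4 2 1
  82 (.leaf 2) (.leaf 24)) (.leaf 2)) (.bis 0 4 2 1 77 (.leaf 24) (.leaf 52))))) (.bis 0 2 1 1 94
  (.bis 2 3 1 1 95 (.bis 3 5 2 1 91 (.bis 5 6 1 1 93 (.leaf 11) (.bis 1 4 1 1 155 (.leaf 2)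
  (.leaf 2))) (.bis 3 4 2 1 82 (.leaf 11) (.leaf 4))) (.bis 1 2 1 2 140 (.bis 2 6 2 1 96 (.leaf
  11) (.leaf 19)) (.bis 5 6 1 1 93 (.bis 1 4 1 1 155 (.leaf 11) (.leaf 11)) (.bis 1 4 1 1 155
  (.leaf 2) (.bis 1 5 1 1 158 (.leaf 2) (.leaf 2)))))) (.bis 0 5 2 1 92 (.bis 3 5 2 1 91 (.leaf
  11) (.leaf 16)) (.bis 0 4 2 1 77 (.leaf 16) (.leaf 4))))) (.bis 1 2 1 1 141 (.bis 0 2 1 1 94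
  (.bis 2 3 1 1 95 (.bis 3 4 2 1 82 (.leaf 11) (.bis 1 3 1 2 159 (.leaf 4) (.leaf 4))) (.bis 2 5
  2 1 140 (.bis 4 5 1 1 155 (.leaf 11) (.leaf 11)) (.leaf 96))) (.bis 0 4 2 1 77 (.bis 3 4 2 1 82
  (.leaf 11) (.leaf 4)) (.bis 1 3 1 2 159 (.leaf 4) (.bis 0 1 2 1 142 (.leaf 4) (.leaf 4)))))
  (.bis 1 4 2 1 153 (.bis 0 4 2 1 77 (.bis 3 4 2 1 82 (.leaf 11) (.leaf 4)) (.bis 2 3 1 2 159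
  (.leaf 4) (.bis 0 2 2 1 142 (.leaf 4) (.leaf 4)))) (.bis 1 3 1 1 157 (.leaf 4) (.bis 0 2 2 1
  142 (.bis 1 2 2 1 146 (.leaf 4) (.leaf 21)) (.bis 0 1 1 1 147 (.leaf 21) (.leaf 4)))))))) (.bis
  2 3 1 2 97 (.bis 3 4 1 1 98 (.bis 1 4 1 2 151 (.bis 2 4 1 4 103 (.bis 4 6 4 1 86 (.bis 0 3 1 1
  102 (.leaf 79) (.leaf 4)) (.bis 0 4 1 2 87 (.bis 4 5 2 1 88 (.leaf 39) (.bis 3 4 1 2 104 (.bis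
  1 4 1 4 152 (.bis 2 4 1 8 105 (.bis 4 6 8 1 90 (.leaf 32) (.leaf 32)) (.leaf 32)) (.leaf 32))
  (.leaf 39))) (.bis 0 3 1 1 102 (.leaf 39) (.bis 0 2 4 1 106 (.leaf 4) (.leaf 4))))) (.bis 2 3 1
  2 101 (.bis 0 3 1 1 102 (.leaf 79) (.leaf 4)) (.bis 1 2 1 1 160 (.bis 0 4 4 1 106 (.leaf 4)
  (.leaf 4)) (.bis 0 4 4 1 106 (.leaf 4) (.leaf 4))))) (.bis 1 3 1 1 161 (.bis 2 3 1 2 101 (.bis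
  0 3 1 1 102 (.leaf 79) (.leaf 4)) (.bis 2 4 1 1 160 (.leaf 4) (.bis 0 2 2 1 114 (.leaf 4)
  (.leaf 4)))) (.bis 1 5 1 1 157 (.leaf 4) (.bis 1 2 2 1 162 (.leaf 4) (.leaf 49))))) (.bis 1 3 1
  2 163 (.bis 0 3 1 2 109 (.bis 3 6 4 1 110 (.bis 2 4 1 2 101 (.leaf 48) (.leaf 31)) (.bis 2 3 1
  4 111 (.bis 3 5 2 1 112 (.leaf 48) (.bis 3 4 2 1 113 (.leaf 48) (.leaf 93))) (.bis 2 4 1 2 101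
  (.leaf 48) (.leaf 31)))) (.bis 2 4 1 2 101 (.bis 0 4 1 1 102 (.leaf 48) (.leaf 31)) (.leaf
  31))) (.bis 1 4 1 1 161 (.bis 2 4 1 2 101 (.bis 0 4 1 1 102 (.leaf 48) (.leaf 31)) (.bis 0 2 2
  1 114 (.leaf 31) (.leaf 31))) (.bis 1 5 1 1 157 (.leaf 31) (.bis 1 2 2 1 162 (.bis 0 2 2 1 114
  (.leaf 31) (.leaf 31)) (.bis 0 1 1 1 147 (.leaf 85) (.leaf 31))))))) (.bis 2 4 1 2 23 (.bis 1 4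
  1 2 151 (.bis 3 4 1 4 103 (.bis 4 6 4 1 86 (.bis 0 2 2 1 77 (.leaf 16) (.bis 0 3 4 1 106 (.leaf
  4) (.leaf 4))) (.bis 0 4 1 2 87 (.bis 4 5 2 1 88 (.leaf 115) (.bis 2 4 1 4 28 (.bis 1 4 1 4 152
  (.bis 3 4 1 8 105 (.bis 4 6 8 1 90 (.leaf 10) (.leaf 32)) (.leaf 10)) (.leaf 10)) (.leaf 10)))
  (.bis 0 2 2 1 77 (.leaf 16) (.bis 0 3 4 1 106 (.leaf 4) (.leaf 4))))) (.bis 0 2 2 1 77 (.leaf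
  16) (.bis 1 3 1 1 160 (.bis 0 4 4 1 106 (.leaf 4) (.leaf 4)) (.leaf 4)))) (.bis 1 2 2 1 153
  (.bis 0 2 2 1 77 (.leaf 16) (.leaf 4)) (.bis 1 5 1 1 157 (.leaf 4) (.bis 1 3 2 1 162 (.bis 3 4
  1 1 160 (.bis 0 4 2 1 154 (.leaf 4) (.leaf 4)) (.bis 0 3 2 1 114 (.leaf 4) (.leaf 4))) (.bis 0
  1 1 1 147 (.leaf 49) (.leaf 4)))))) (.bis 1 2 1 1 141 (.bis 0 2 1 1 94 (.bis 2 5 1 1 95 (.bis 4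
  5 1 2 82 (.bis 1 5 1 2 159 (.leaf 4) (.leaf 4)) (.leaf 16)) (.leaf 96)) (.bis 0 4 2 1 77 (.bis
  4 5 1 2 82 (.bis 1 5 1 2 159 (.leaf 4) (.leaf 4)) (.leaf 16)) (.bis 1 5 1 2 159 (.bis 0 3 2 1
  114 (.leaf 4) (.leaf 4)) (.bis 0 1 2 1 142 (.leaf 4) (.bis 0 3 2 1 114 (.leaf 4) (.leaf 4))))))
  (.bis 1 4 2 1 153 (.bis 0 4 2 1 77 (.bis 4 5 1 2 82 (.leaf 4) (.leaf 16)) (.bis 2 5 1 2 159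
  (.bis 0 3 2 1 114 (.leaf 4) (.leaf 4)) (.bis 0 2 2 1 142 (.leaf 4) (.bis 0 3 2 1 114 (.leaf 4)
  (.leaf 4))))) (.bis 1 5 1 1 157 (.bis 2 5 1 2 159 (.leaf 4) (.bis 0 2 2 1 142 (.leaf 4) (.leaf
  4))) (.bis 1 3 2 1 162 (.bis 0 2 2 1 142 (.leaf 4) (.leaf 4)) (.bis 0 2 2 1 142 (.bis 1 2 2 1
  146 (.leaf 4) (.leaf 21)) (.leaf 21))))))))))

def lc3 : List Vr := [⟨[56,0,0,73,0,0,0], 125028, 0⟩, ⟨[0,73,0,73,0,0,0], 127896, 0⟩, ⟨[0,0,85,0,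
  0,0,119], 143055, 0⟩, ⟨[0,0,0,73,0,0,0], 21316, 0⟩, ⟨[0,0,0,0,56,0,0], 21952, 0⟩, ⟨[0,0,0,0,0,
  42,0], 21168, 0⟩, ⟨[0,73,0,0,0,0,96], 105412, 0⟩]

theorem lk3 : chkTr lowT (leafLow 6 lowB) lt3 lc3 = true := by decide +kernel

def lt4 : Tr ℕ := (.bis 0 4 1 1 41 (.bis 4 6 2 1 21 (.bis 1 5 1 2 138 (.bis 2 5 1 2 14 (.bis 3 6
  1 1 117 (.bis 5 6 2 1 15 (.bis 0 6 1 1 55 (.bis 1 6 1 2 139 (.leaf 19) (.bis 1 2 1 1 158 (.leaf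
  2) (.leaf 2))) (.bis 0 2 2 1 43 (.leaf 2) (.bis 0 5 2 1 52 (.leaf 2) (.bis 0 3 2 1 129 (.leaf
  2) (.leaf 2))))) (.bis 3 5 1 4 120 (.bis 4 5 1 4 32 (.bis 0 5 1 2 45 (.bis 1 5 1 4 164 (.leaf
  20) (.leaf 2)) (.bis 0 2 2 1 43 (.leaf 2) (.bis 0 6 2 1 52 (.leaf 2) (.leaf 2)))) (.bis 0 2 2 1
  43 (.leaf 2) (.bis 0 6 2 1 52 (.leaf 2) (.leaf 2)))) (.bis 0 2 2 1 43 (.leaf 2) (.bis 0 6 2 1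
  52 (.leaf 2) (.bis 0 3 2 1 129 (.leaf 2) (.leaf 2)))))) (.bis 3 5 1 2 80 (.bis 5 6 4 1 120
  (.bis 0 2 2 1 43 (.leaf 2) (.bis 0 6 2 1 129 (.leaf 2) (.leaf 2))) (.bis 4 5 1 4 32 (.bis 0 5 1
  2 45 (.leaf 20) (.bis 0 2 2 1 43 (.leaf 2) (.leaf 2))) (.bis 0 2 2 1 43 (.leaf 2) (.leaf 2))))
  (.bis 2 3 1 2 92 (.bis 3 4 2 1 115 (.bis 0 6 2 1 129 (.leaf 2) (.leaf 2)) (.bis 0 6 2 1 129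
  (.leaf 15) (.leaf 15))) (.bis 0 2 2 1 43 (.leaf 2) (.bis 0 6 2 1 129 (.leaf 2) (.leaf 2))))))
  (.bis 3 6 1 1 117 (.bis 0 2 1 1 47 (.bis 1 2 1 2 140 (.leaf 19) (.bis 1 6 1 2 139 (.leaf 19)
  (.leaf 2))) (.bis 0 6 1 1 55 (.bis 1 6 1 2 139 (.leaf 19) (.leaf 2)) (.bis 0 5 2 1 43 (.bis 1 5
  1 1 158 (.leaf 2) (.leaf 2)) (.bis 0 3 2 1 129 (.leaf 2) (.leaf 2))))) (.bis 0 2 1 1 47 (.bis 2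
  3 1 1 94 (.bis 3 5 2 1 92 (.leaf 2) (.bis 3 4 2 1 115 (.leaf 2) (.bis 0 3 1 2 128 (.leaf 15)
  (.leaf 2)))) (.bis 1 2 1 2 140 (.leaf 19) (.bis 1 5 1 1 158 (.leaf 2) (.leaf 2)))) (.bis 3 5 2
  1 92 (.bis 0 5 2 1 43 (.leaf 2) (.bis 0 6 2 1 129 (.leaf 2) (.leaf 2))) (.bis 3 4 2 1 115 (.bis
  0 6 2 1 129 (.leaf 2) (.leaf 2)) (.bis 2 3 1 2 128 (.bis 0 6 2 1 129 (.leaf 15) (.leaf 15))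
  (.bis 0 6 2 1 129 (.leaf 2) (.leaf 2)))))))) (.bis 1 2 1 1 141 (.bis 3 6 1 1 117 (.bis 0 2 1 1
  47 (.bis 2 5 2 1 140 (.bis 5 6 1 2 139 (.leaf 19) (.leaf 11)) (.leaf 19)) (.bis 0 6 1 1 55
  (.bis 5 6 1 2 139 (.leaf 19) (.leaf 11)) (.bis 0 1 2 1 165 (.leaf 11) (.bis 0 3 2 1 129 (.leaf
  2) (.leaf 2))))) (.bis 0 2 1 1 47 (.bis 2 3 1 1 94 (.bis 3 4 2 1 115 (.leaf 11) (.bis 0 3 1 2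
  128 (.bis 1 3 1 2 142 (.leaf 15) (.leaf 3)) (.leaf 3))) (.bis 2 5 2 1 140 (.leaf 11) (.leaf
  19))) (.bis 0 1 2 1 165 (.bis 3 4 2 1 115 (.leaf 11) (.bis 2 3 1 2 128 (.bis 1 3 1 2 142 (.leaf
  15) (.leaf 3)) (.leaf 3))) (.bis 3 4 2 1 115 (.bis 0 6 2 1 129 (.leaf 2) (.leaf 2)) (.bis 2 3 1
  2 128 (.bis 0 6 2 1 129 (.leaf 15) (.leaf 15)) (.bis 0 6 2 1 129 (.leaf 2) (.leaf 2)))))))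
  (.bis 3 6 1 1 117 (.bis 1 6 1 1 143 (.bis 0 6 1 1 55 (.bis 5 6 1 2 139 (.leaf 19) (.leaf 14))
  (.bis 0 2 2 1 165 (.leaf 14) (.bis 0 1 2 1 166 (.leaf 14) (.bis 0 3 2 1 129 (.leaf 2) (.leaf
  2))))) (.bis 0 1 1 1 167 (.bis 1 4 2 1 144 (.leaf 14) (.bis 1 3 2 1 145 (.leaf 5) (.leaf 30)))
  (.bis 0 2 2 1 165 (.leaf 14) (.bis 0 6 2 1 166 (.leaf 14) (.bis 0 3 2 1 129 (.leaf 14) (.leaf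
  10)))))) (.bis 0 1 1 1 167 (.bis 1 4 2 1 144 (.bis 3 4 2 1 115 (.leaf 14) (.bis 2 3 1 2 142
  (.leaf 15) (.leaf 3))) (.bis 2 3 1 2 142 (.bis 1 6 2 1 145 (.leaf 21) (.leaf 21)) (.bis 1 6 2 1
  145 (.leaf 5) (.bis 1 2 2 1 146 (.leaf 4) (.leaf 21))))) (.bis 0 2 2 1 165 (.bis 3 4 2 1 115
  (.leaf 14) (.leaf 37)) (.bis 3 4 2 1 115 (.leaf 62) (.bis 0 6 2 1 129 (.leaf 15) (.leaf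
  15)))))))) (.bis 2 4 1 2 23 (.bis 1 5 1 2 138 (.bis 4 5 1 1 25 (.bis 3 5 1 2 80 (.bis 2 5 1 4
  27 (.bis 5 6 4 1 32 (.leaf 10) (.bis 0 5 1 2 45 (.leaf 71) (.leaf 10))) (.bis 0 2 2 1 49 (.leaf
  10) (.leaf 10))) (.bis 3 4 1 1 84 (.leaf 10) (.bis 2 3 1 2 77 (.bis 3 6 2 1 115 (.leaf 2)
  (.leaf 15)) (.leaf 2)))) (.bis 3 4 1 2 87 (.bis 1 4 1 4 148 (.bis 2 4 1 4 28 (.bis 0 4 1 2 51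
  (.bis 4 6 4 1 30 (.leaf 10) (.bis 3 4 1 4 149 (.leaf 32) (.leaf 10))) (.leaf 10)) (.leaf 10))
  (.leaf 10)) (.bis 3 5 1 1 84 (.leaf 10) (.bis 2 3 1 2 77 (.bis 3 6 2 1 115 (.leaf 10) (.leaf
  15)) (.leaf 10))))) (.bis 1 4 1 2 151 (.bis 3 4 1 2 87 (.bis 4 5 4 1 148 (.leaf 10) (.bis 2 4 1
  4 28 (.bis 0 4 1 2 51 (.bis 4 6 4 1 30 (.leaf 10) (.bis 1 4 1 4 152 (.leaf 32) (.leaf 10)))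
  (.leaf 10)) (.leaf 10))) (.bis 2 3 1 2 77 (.bis 3 6 2 1 115 (.leaf 10) (.leaf 82)) (.leaf 10)))
  (.bis 0 1 1 1 167 (.bis 1 2 2 1 153 (.bis 2 3 1 2 77 (.bis 3 6 2 1 115 (.leaf 10) (.leaf 4))
  (.leaf 10)) (.bis 1 6 2 1 144 (.bis 3 6 2 1 115 (.leaf 14) (.leaf 4)) (.bis 1 3 1 1 147 (.leaf
  4) (.leaf 49)))) (.bis 2 3 1 2 77 (.bis 3 6 2 1 115 (.leaf 10) (.bis 0 3 1 1 125 (.leaf 4)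
  (.leaf 10))) (.bis 0 2 2 1 49 (.leaf 10) (.leaf 10)))))) (.bis 1 5 1 2 138 (.bis 2 5 1 2 14
  (.bis 3 5 1 2 80 (.bis 4 5 1 4 27 (.bis 5 6 4 1 32 (.bis 0 2 2 1 43 (.leaf 2) (.bis 0 1 2 1 168
  (.leaf 2) (.leaf 2))) (.bis 0 5 1 2 45 (.leaf 20) (.bis 0 2 2 1 43 (.leaf 2) (.leaf 2)))) (.bis
  0 2 2 1 43 (.leaf 2) (.bis 0 4 2 1 49 (.leaf 2) (.leaf 2)))) (.bis 2 3 1 2 92 (.bis 3 4 2 1 77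
  (.bis 0 4 2 1 49 (.leaf 2) (.leaf 2)) (.bis 3 6 2 1 115 (.leaf 2) (.bis 0 3 1 1 125 (.leaf 15)
  (.leaf 2)))) (.bis 0 2 2 1 43 (.leaf 2) (.bis 0 4 2 1 49 (.leaf 2) (.leaf 2))))) (.bis 0 2 1 1
  47 (.bis 2 3 1 1 94 (.bis 3 5 2 1 92 (.bis 1 4 1 1 155 (.leaf 2) (.leaf 2)) (.bis 3 4 2 1 77
  (.leaf 2) (.bis 3 6 2 1 115 (.leaf 2) (.bis 0 3 1 2 128 (.leaf 4) (.leaf 2))))) (.bis 1 2 1 2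
  140 (.leaf 19) (.bis 1 4 1 1 155 (.leaf 2) (.bis 1 5 1 1 158 (.leaf 2) (.leaf 2))))) (.bis 3 5
  2 1 92 (.bis 0 5 2 1 43 (.bis 1 4 1 1 155 (.leaf 2) (.leaf 2)) (.bis 0 4 2 1 49 (.leaf 2)
  (.leaf 2))) (.bis 3 4 2 1 77 (.bis 0 4 2 1 49 (.leaf 2) (.bis 0 1 2 1 168 (.leaf 2) (.leaf 2)))
  (.bis 3 6 2 1 115 (.bis 0 1 2 1 168 (.leaf 2) (.leaf 2)) (.bis 2 3 1 2 128 (.bis 0 3 1 1 125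
  (.leaf 4) (.leaf 2)) (.bis 0 1 2 1 168 (.leaf 2) (.leaf 2)))))))) (.bis 1 2 1 1 141 (.bis 0 2 1
  1 47 (.bis 2 3 1 1 94 (.bis 3 4 2 1 77 (.bis 4 5 1 1 155 (.leaf 11) (.leaf 11)) (.bis 3 6 2 1
  115 (.leaf 11) (.bis 0 3 1 2 128 (.bis 1 3 1 2 142 (.leaf 4) (.leaf 3)) (.leaf 3)))) (.bis 2 5
  2 1 140 (.bis 4 5 1 1 155 (.leaf 11) (.leaf 11)) (.leaf 19))) (.bis 0 1 2 1 165 (.bis 3 4 2 1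
  77 (.leaf 11) (.bis 3 6 2 1 115 (.leaf 11) (.bis 2 3 1 2 128 (.leaf 4) (.leaf 3)))) (.bis 3 4 2
  1 77 (.bis 0 4 2 1 49 (.leaf 2) (.leaf 2)) (.bis 3 6 2 1 115 (.bis 0 5 2 1 168 (.leaf 2) (.leaf
  2)) (.bis 2 3 1 2 128 (.leaf 15) (.bis 0 5 2 1 168 (.leaf 2) (.leaf 2))))))) (.bis 0 1 1 1 167
  (.bis 1 4 2 1 153 (.bis 3 4 2 1 77 (.leaf 34) (.bis 3 6 2 1 115 (.leaf 14) (.leaf 4))) (.bis 1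
  6 2 1 144 (.bis 3 6 2 1 115 (.leaf 14) (.bis 2 3 1 2 142 (.leaf 4) (.leaf 3))) (.bis 2 3 1 2
  142 (.bis 1 3 1 1 147 (.leaf 4) (.leaf 21)) (.bis 1 2 2 1 146 (.leaf 4) (.leaf 21))))) (.bis 0
  2 2 1 165 (.bis 3 4 2 1 77 (.leaf 34) (.bis 3 6 2 1 115 (.leaf 14) (.leaf 4))) (.bis 3 4 2 1 77
  (.bis 0 4 2 1 49 (.leaf 10) (.leaf 10)) (.bis 3 6 2 1 115 (.leaf 10) (.leaf 15))))))))) (.bis 0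
  2 2 1 59 (.bis 1 5 1 2 138 (.bis 2 5 1 2 14 (.bis 3 6 1 1 117 (.bis 5 6 2 1 15 (.bis 4 6 1 1 55
  (.bis 1 6 1 2 139 (.leaf 19) (.bis 0 1 1 1 169 (.leaf 2) (.leaf 2))) (.bis 2 4 1 2 43 (.bis 4 5
  2 1 52 (.leaf 2) (.bis 0 4 1 2 60 (.leaf 2) (.leaf 2))) (.bis 0 1 1 1 169 (.leaf 2) (.leaf
  2)))) (.bis 3 5 1 4 120 (.bis 0 5 1 4 61 (.bis 4 5 1 2 45 (.bis 1 5 1 4 164 (.leaf 20) (.leaf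
  2)) (.bis 2 4 1 2 43 (.bis 4 6 2 1 52 (.leaf 2) (.leaf 2)) (.leaf 2))) (.bis 2 4 1 2 43 (.bis 4
  6 2 1 52 (.leaf 2) (.bis 0 4 1 2 60 (.leaf 2) (.leaf 2))) (.bis 0 1 1 1 169 (.leaf 2) (.leaf
  2)))) (.bis 2 4 1 2 43 (.bis 4 6 2 1 52 (.leaf 2) (.bis 0 4 1 2 60 (.leaf 2) (.leaf 2))) (.leaf
  2)))) (.bis 3 5 1 2 80 (.bis 5 6 4 1 120 (.bis 2 4 1 2 43 (.bis 0 4 1 2 60 (.leaf 2) (.leaf 2))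
  (.leaf 2)) (.bis 0 5 1 4 61 (.bis 4 5 1 2 45 (.leaf 20) (.bis 2 4 1 2 43 (.leaf 2) (.leaf 2)))
  (.bis 2 4 1 2 43 (.bis 0 4 1 2 60 (.leaf 2) (.leaf 2)) (.leaf 2)))) (.bis 2 3 1 2 92 (.bis 0 3
  1 2 131 (.bis 4 6 2 1 129 (.leaf 15) (.leaf 15)) (.bis 0 4 1 2 60 (.bis 4 6 2 1 129 (.leaf 2)
  (.leaf 2)) (.leaf 2))) (.bis 2 4 1 2 43 (.bis 0 4 1 2 60 (.leaf 2) (.leaf 2)) (.leaf 2)))))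
  (.bis 3 6 1 1 117 (.bis 2 4 1 1 47 (.bis 4 6 1 1 55 (.bis 1 6 1 2 139 (.leaf 19) (.bis 0 1 1 1
  169 (.leaf 2) (.leaf 2))) (.bis 4 5 2 1 43 (.bis 0 1 1 1 169 (.leaf 2) (.leaf 2)) (.bis 0 4 1 2
  60 (.bis 3 4 1 2 129 (.leaf 2) (.leaf 2)) (.bis 0 1 1 1 169 (.leaf 2) (.leaf 2))))) (.bis 1 2 1
  2 140 (.leaf 19) (.bis 1 6 1 2 139 (.leaf 19) (.bis 0 1 1 1 169 (.leaf 2) (.leaf 2))))) (.bis 2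
  4 1 1 47 (.bis 3 5 2 1 92 (.bis 4 5 2 1 43 (.leaf 2) (.bis 0 4 1 2 60 (.bis 4 6 2 1 129 (.leaf
  2) (.leaf 2)) (.leaf 2))) (.bis 0 3 1 2 131 (.bis 2 3 1 2 128 (.bis 4 6 2 1 129 (.leaf 15)
  (.bis 3 4 1 1 125 (.leaf 2) (.leaf 4))) (.bis 4 6 2 1 129 (.leaf 2) (.bis 1 4 1 2 168 (.leaf 2)
  (.leaf 2)))) (.bis 0 4 1 2 60 (.bis 4 6 2 1 129 (.leaf 2) (.leaf 2)) (.leaf 2)))) (.bis 2 3 1 1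
  94 (.bis 3 5 2 1 92 (.bis 0 1 1 1 169 (.leaf 2) (.leaf 2)) (.bis 0 3 1 2 131 (.bis 3 4 2 1 128
  (.leaf 2) (.leaf 15)) (.leaf 2))) (.bis 1 2 1 2 140 (.leaf 19) (.bis 0 1 1 1 169 (.leaf 2)
  (.leaf 2))))))) (.bis 1 2 1 1 141 (.bis 3 6 1 1 117 (.bis 2 4 1 1 47 (.bis 4 6 1 1 55 (.bis 5 6
  1 2 139 (.leaf 19) (.leaf 5)) (.bis 1 4 1 2 165 (.bis 0 4 1 2 60 (.bis 3 4 1 2 129 (.leaf 2)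
  (.leaf 2)) (.leaf 2)) (.leaf 5))) (.bis 2 5 2 1 140 (.bis 5 6 1 2 139 (.leaf 19) (.leaf 5))
  (.leaf 19))) (.bis 2 4 1 1 47 (.bis 1 4 1 2 165 (.bis 0 3 1 2 131 (.bis 2 3 1 2 128 (.bis 4 6 2
  1 129 (.leaf 15) (.leaf 15)) (.bis 4 6 2 1 129 (.leaf 2) (.leaf 2))) (.bis 0 4 1 2 60 (.bis 4 6
  2 1 129 (.leaf 2) (.leaf 2)) (.leaf 2))) (.bis 0 3 1 2 131 (.bis 2 3 1 2 128 (.bis 1 3 1 2 142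
  (.leaf 15) (.leaf 3)) (.leaf 3)) (.leaf 5))) (.bis 2 3 1 1 94 (.bis 0 3 1 2 131 (.bis 3 4 2 1
  128 (.leaf 3) (.bis 1 3 1 2 142 (.leaf 15) (.leaf 3))) (.leaf 5)) (.bis 2 5 2 1 140 (.bis 0 5 1
  1 169 (.leaf 3) (.leaf 5)) (.leaf 19))))) (.bis 3 6 1 1 117 (.bis 1 6 1 1 143 (.bis 4 6 1 1 55
  (.bis 5 6 1 2 139 (.leaf 19) (.leaf 5)) (.bis 2 4 1 2 165 (.bis 1 4 1 2 166 (.bis 0 4 1 2 60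
  (.leaf 2) (.leaf 2)) (.leaf 5)) (.leaf 5))) (.bis 1 4 1 1 167 (.bis 2 4 1 2 165 (.bis 4 6 2 1
  166 (.leaf 5) (.bis 0 4 1 2 60 (.leaf 15) (.leaf 5))) (.leaf 5)) (.bis 0 1 1 2 170 (.bis 1 3 2
  1 145 (.leaf 5) (.bis 1 2 2 1 146 (.leaf 14) (.leaf 30))) (.leaf 5)))) (.bis 1 4 1 1 167 (.bis
  2 4 1 2 165 (.bis 0 3 1 2 131 (.bis 4 6 2 1 129 (.leaf 15) (.leaf 15)) (.bis 0 4 1 2 60 (.leaf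
  15) (.leaf 5))) (.bis 0 3 1 2 131 (.leaf 37) (.leaf 5))) (.bis 0 1 1 2 170 (.bis 2 3 1 2 142
  (.bis 1 6 2 1 145 (.leaf 21) (.bis 1 3 1 1 147 (.leaf 4) (.leaf 21))) (.bis 1 6 2 1 145 (.leaf
  5) (.bis 1 2 2 1 146 (.leaf 4) (.leaf 21)))) (.bis 0 3 1 2 131 (.leaf 37) (.leaf 5))))))) (.bis
  1 5 1 2 138 (.bis 0 6 2 1 62 (.bis 3 6 1 1 117 (.bis 5 6 2 1 15 (.bis 4 6 1 1 55 (.bis 1 6 1 2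
  139 (.leaf 84) (.bis 0 1 1 1 171 (.leaf 2) (.leaf 26))) (.bis 4 5 2 1 52 (.bis 0 1 1 1 171
  (.leaf 2) (.leaf 26)) (.bis 0 4 1 2 65 (.bis 2 4 1 2 60 (.leaf 2) (.leaf 2)) (.bis 0 1 1 1 171
  (.leaf 2) (.leaf 12))))) (.bis 0 5 1 4 63 (.bis 3 5 1 4 120 (.bis 2 5 1 4 61 (.bis 4 5 1 2 45
  (.bis 1 5 1 4 164 (.leaf 20) (.leaf 2)) (.bis 4 6 2 1 52 (.leaf 2) (.bis 1 4 1 2 168 (.leaf 2)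
  (.leaf 2)))) (.bis 4 6 2 1 52 (.leaf 2) (.bis 2 4 1 2 60 (.bis 1 4 1 2 168 (.leaf 2) (.leaf 2))
  (.leaf 2)))) (.bis 4 6 2 1 52 (.leaf 2) (.bis 2 4 1 2 60 (.bis 3 4 1 2 129 (.leaf 2) (.leaf 2))
  (.leaf 2)))) (.bis 4 6 2 1 52 (.bis 0 1 1 1 171 (.leaf 2) (.leaf 26)) (.bis 0 4 1 2 65 (.bis 2
  4 1 2 60 (.leaf 2) (.leaf 2)) (.leaf 12))))) (.bis 3 5 1 2 80 (.bis 0 5 1 4 63 (.bis 5 6 4 1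
  120 (.bis 2 4 1 2 60 (.bis 4 6 2 1 129 (.leaf 2) (.leaf 2)) (.leaf 2)) (.bis 2 5 1 4 61 (.bis 4
  5 1 2 45 (.leaf 20) (.bis 1 4 1 2 168 (.leaf 2) (.leaf 2))) (.bis 2 4 1 2 60 (.bis 1 4 1 2 168
  (.leaf 2) (.leaf 2)) (.leaf 2)))) (.bis 0 4 1 2 65 (.bis 2 4 1 2 60 (.leaf 2) (.leaf 2)) (.leaf
  12))) (.bis 0 3 1 2 133 (.bis 2 3 1 2 131 (.bis 4 6 2 1 129 (.leaf 15) (.leaf 15)) (.bis 2 4 1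
  2 60 (.leaf 2) (.leaf 2))) (.bis 0 4 1 2 65 (.bis 2 4 1 2 60 (.leaf 2) (.leaf 2)) (.leaf
  12))))) (.bis 0 5 1 1 66 (.bis 3 5 1 2 80 (.bis 5 6 4 1 63 (.bis 4 6 2 1 65 (.leaf 12) (.leaf
  12)) (.bis 2 5 1 4 61 (.bis 4 5 1 2 45 (.leaf 20) (.leaf 12)) (.bis 2 4 1 2 60 (.leaf 12)
  (.leaf 12)))) (.bis 3 6 2 1 133 (.bis 4 6 2 1 65 (.leaf 12) (.leaf 12)) (.bis 0 3 1 1 134 (.bis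
  2 3 1 2 131 (.leaf 15) (.leaf 2)) (.leaf 12)))) (.bis 0 1 4 1 172 (.bis 3 6 2 1 133 (.bis 4 6 2
  1 65 (.leaf 12) (.leaf 12)) (.bis 3 5 1 1 134 (.leaf 12) (.bis 2 3 1 2 131 (.leaf 15) (.leaf
  12)))) (.bis 0 3 2 1 135 (.bis 3 6 2 1 133 (.bis 4 6 2 1 65 (.leaf 12) (.leaf 12)) (.bis 3 5 1
  1 134 (.leaf 12) (.bis 2 3 1 2 131 (.leaf 15) (.leaf 12)))) (.bis 0 2 4 1 67 (.bis 4 6 2 1 65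
  (.leaf 12) (.leaf 12)) (.bis 0 4 2 1 71 (.leaf 12) (.bis 0 6 4 1 136 (.leaf 12) (.leaf
  45)))))))) (.bis 0 1 2 1 173 (.bis 3 6 1 1 117 (.bis 1 6 1 1 143 (.bis 4 6 1 1 55 (.bis 0 6 1 2
  174 (.bis 5 6 1 2 139 (.leaf 19) (.leaf 5)) (.leaf 5)) (.bis 1 4 1 2 166 (.bis 2 4 1 2 60
  (.leaf 12) (.leaf 5)) (.leaf 5))) (.bis 1 4 1 1 167 (.bis 4 6 2 1 166 (.leaf 5) (.bis 2 4 1 2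
  60 (.leaf 15) (.leaf 5))) (.bis 1 2 2 1 170 (.leaf 5) (.bis 1 3 2 1 145 (.leaf 5) (.bis 1 5 2 1
  175 (.leaf 9) (.leaf 80)))))) (.bis 1 4 1 1 167 (.bis 2 3 1 2 131 (.bis 4 6 2 1 129 (.leaf 15)
  (.leaf 15)) (.bis 2 4 1 2 60 (.leaf 15) (.leaf 5))) (.bis 1 2 2 1 170 (.bis 2 3 1 2 131 (.leaf
  15) (.leaf 5)) (.bis 1 6 2 1 145 (.leaf 21) (.bis 1 3 1 1 147 (.leaf 21) (.leaf 21)))))) (.bis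
  0 6 2 1 62 (.bis 3 6 1 1 117 (.bis 4 6 1 1 55 (.bis 1 6 1 2 174 (.bis 5 6 1 2 139 (.leaf 84)
  (.bis 0 5 1 1 171 (.leaf 5) (.leaf 5))) (.bis 0 5 1 1 171 (.leaf 5) (.bis 1 2 1 1 176 (.leaf 5)
  (.leaf 5)))) (.bis 0 4 1 2 65 (.bis 2 4 1 2 60 (.leaf 12) (.leaf 5)) (.leaf 5))) (.bis 0 3 1 2
  133 (.bis 2 3 1 2 131 (.bis 4 6 2 1 129 (.leaf 15) (.leaf 15)) (.bis 2 4 1 2 60 (.bis 4 6 2 1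
  129 (.leaf 5) (.leaf 12)) (.leaf 5))) (.bis 0 4 1 2 65 (.bis 2 4 1 2 60 (.leaf 12) (.leaf 5))
  (.leaf 5)))) (.bis 0 5 4 1 172 (.bis 3 6 2 1 133 (.bis 4 6 2 1 65 (.leaf 5) (.leaf 12)) (.bis 2
  3 1 2 131 (.bis 3 4 1 1 125 (.leaf 12) (.leaf 15)) (.bis 2 4 1 2 60 (.leaf 12) (.leaf 5))))
  (.bis 0 3 2 1 135 (.bis 3 6 2 1 133 (.bis 4 6 2 1 65 (.leaf 12) (.leaf 12)) (.bis 2 3 1 2 131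
  (.bis 3 4 1 1 125 (.leaf 12) (.leaf 15)) (.bis 2 4 1 2 60 (.leaf 12) (.leaf 12)))) (.bis 0 2 4
  1 67 (.bis 4 6 2 1 65 (.leaf 12) (.leaf 12)) (.bis 0 4 2 1 71 (.leaf 12) (.bis 0 1 4 1 177
  (.leaf 12) (.leaf 45)))))))))))

def lc4 : List Vr := [⟨[56,0,0,0,0,0,0], 21952, 0⟩, ⟨[0,73,0,73,0,0,0], 127896, 0⟩, ⟨[0,0,85,0,0,
  0,119], 143055, 0⟩, ⟨[56,0,0,73,0,0,0], 125028, 0⟩, ⟨[0,0,0,0,56,0,0], 21952, 0⟩, ⟨[0,0,0,0,0,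
  42,0], 21168, 0⟩, ⟨[0,73,0,0,0,0,96], 105412, 0⟩]

theorem lk4 : chkTr lowT (leafLow 6 lowB) lt4 lc4 = true := by decide +kernel

def lt5 : Tr ℕ := (.bis 0 4 1 1 41 (.bis 4 6 2 1 21 (.bis 3 5 1 2 138 (.bis 2 5 1 2 14 (.bis 5 6
  2 1 15 (.bis 0 6 1 1 55 (.bis 1 6 1 1 179 (.bis 3 6 1 2 139 (.leaf 19) (.bis 1 2 1 1 180 (.bis
  2 3 1 1 158 (.leaf 2) (.leaf 2)) (.bis 3 5 1 1 181 (.leaf 19) (.leaf 14)))) (.bis 1 2 2 1 182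
  (.leaf 51) (.bis 1 5 2 1 183 (.leaf 51) (.leaf 14)))) (.bis 1 2 2 1 182 (.bis 0 2 2 1 43 (.leaf
  2) (.bis 0 5 2 1 52 (.leaf 2) (.leaf 2))) (.bis 1 5 2 1 183 (.bis 0 5 2 1 52 (.leaf 2) (.bis 0
  3 2 1 168 (.leaf 2) (.leaf 2))) (.bis 0 1 1 1 184 (.leaf 14) (.leaf 2))))) (.bis 1 5 1 2 185
  (.bis 4 5 1 4 32 (.bis 0 5 1 2 45 (.leaf 20) (.bis 0 2 2 1 43 (.leaf 2) (.bis 0 6 2 1 52 (.leaf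
  2) (.leaf 2)))) (.bis 0 2 2 1 43 (.leaf 2) (.bis 0 6 2 1 52 (.leaf 2) (.leaf 2)))) (.bis 1 2 2
  1 182 (.bis 0 2 2 1 43 (.leaf 2) (.bis 0 6 2 1 52 (.leaf 2) (.leaf 2))) (.bis 1 6 2 1 183 (.bis
  0 6 2 1 52 (.leaf 2) (.bis 0 3 2 1 168 (.leaf 2) (.leaf 2))) (.bis 0 1 1 1 184 (.leaf 14)
  (.leaf 2)))))) (.bis 0 2 1 1 47 (.bis 1 2 1 1 186 (.bis 2 3 2 1 140 (.bis 3 6 1 2 139 (.leaf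
  19) (.bis 3 5 1 1 158 (.leaf 2) (.leaf 2))) (.leaf 19)) (.bis 1 6 1 1 179 (.bis 3 6 1 2 139
  (.leaf 19) (.bis 1 5 1 1 180 (.bis 3 5 1 1 158 (.leaf 2) (.leaf 2)) (.leaf 14))) (.bis 1 5 2 1
  182 (.bis 5 6 1 1 180 (.leaf 14) (.bis 3 5 1 1 158 (.leaf 2) (.leaf 2))) (.bis 0 1 1 2 187
  (.leaf 14) (.leaf 14))))) (.bis 0 6 1 1 55 (.bis 1 6 1 1 179 (.bis 3 6 1 2 139 (.leaf 19) (.bis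
  1 5 1 1 180 (.bis 3 5 1 1 158 (.leaf 2) (.leaf 2)) (.leaf 14))) (.bis 1 5 2 1 182 (.leaf 51)
  (.bis 1 2 2 1 187 (.leaf 14) (.leaf 14)))) (.bis 1 5 2 1 182 (.bis 0 5 2 1 43 (.bis 3 5 1 1 158
  (.leaf 2) (.leaf 2)) (.bis 0 3 2 1 168 (.leaf 2) (.leaf 2))) (.bis 1 2 2 1 187 (.bis 0 3 2 1
  168 (.leaf 2) (.bis 0 2 2 1 58 (.leaf 2) (.leaf 2))) (.bis 0 1 1 1 184 (.leaf 14) (.leaf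
  2))))))) (.bis 2 3 1 1 141 (.bis 3 6 1 1 143 (.bis 0 6 1 1 55 (.bis 1 6 1 1 179 (.bis 5 6 1 2
  139 (.leaf 19) (.leaf 14)) (.bis 1 2 2 1 188 (.leaf 14) (.leaf 14))) (.bis 0 2 2 1 165 (.bis 1
  2 2 1 188 (.leaf 14) (.leaf 14)) (.bis 0 3 2 1 166 (.leaf 14) (.bis 0 1 1 1 184 (.leaf 14)
  (.leaf 2))))) (.bis 0 3 1 1 167 (.bis 3 4 2 1 144 (.leaf 14) (.bis 1 2 2 1 188 (.bis 2 3 1 2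
  146 (.leaf 30) (.leaf 14)) (.bis 1 3 1 1 189 (.leaf 30) (.leaf 9)))) (.bis 0 2 2 1 165 (.leaf
  14) (.bis 0 6 2 1 166 (.leaf 14) (.leaf 66))))) (.bis 0 2 1 1 47 (.bis 1 2 1 1 186 (.bis 2 5 2
  1 140 (.bis 5 6 1 2 139 (.leaf 19) (.leaf 11)) (.leaf 19)) (.bis 1 6 1 1 179 (.bis 5 6 1 2 139
  (.leaf 19) (.leaf 14)) (.bis 0 1 1 2 187 (.bis 1 3 2 1 188 (.leaf 14) (.leaf 14)) (.leaf 14))))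
  (.bis 0 6 1 1 55 (.bis 1 6 1 1 179 (.bis 5 6 1 2 139 (.leaf 19) (.leaf 14)) (.bis 1 2 2 1 187
  (.leaf 14) (.bis 1 3 2 1 188 (.leaf 14) (.leaf 14)))) (.bis 0 3 2 1 165 (.bis 1 2 2 1 187
  (.leaf 11) (.bis 1 3 2 1 188 (.leaf 14) (.leaf 14))) (.bis 1 2 2 1 187 (.bis 0 5 2 1 168 (.leaf
  2) (.leaf 2)) (.bis 0 1 1 1 184 (.leaf 14) (.leaf 2)))))))) (.bis 2 4 1 2 23 (.bis 3 5 1 2 138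
  (.bis 4 5 1 1 25 (.bis 1 5 1 2 185 (.bis 2 5 1 4 27 (.bis 5 6 4 1 32 (.bis 3 4 1 2 190 (.bis 0
  2 4 1 48 (.leaf 10) (.leaf 10)) (.bis 0 3 2 1 168 (.leaf 2) (.leaf 2))) (.bis 0 5 1 2 45 (.leaf
  71) (.leaf 10))) (.bis 0 2 2 1 49 (.leaf 10) (.leaf 10))) (.bis 1 4 1 1 191 (.leaf 10) (.bis 1
  2 2 1 192 (.bis 0 2 2 1 49 (.leaf 2) (.leaf 2)) (.leaf 66)))) (.bis 3 4 1 4 148 (.bis 1 4 1 2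
  193 (.bis 2 4 1 4 28 (.bis 0 4 1 2 51 (.bis 4 6 4 1 30 (.leaf 10) (.leaf 32)) (.leaf 10))
  (.leaf 10)) (.bis 1 5 1 1 191 (.leaf 10) (.leaf 135))) (.bis 1 5 1 1 191 (.leaf 10) (.bis 1 2 2
  1 192 (.bis 0 2 2 1 49 (.leaf 2) (.leaf 2)) (.leaf 66))))) (.bis 3 4 1 2 151 (.bis 4 5 4 1 148
  (.bis 1 2 2 1 192 (.bis 0 2 2 1 49 (.leaf 10) (.leaf 10)) (.bis 0 1 1 1 184 (.leaf 14) (.leaf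
  10))) (.bis 1 4 1 2 193 (.bis 2 4 1 4 28 (.bis 0 4 1 2 51 (.bis 4 6 4 1 30 (.leaf 10) (.bis 3 4
  1 4 152 (.leaf 32) (.leaf 10))) (.leaf 10)) (.bis 0 2 2 1 49 (.leaf 10) (.leaf 10))) (.bis 1 2
  2 1 192 (.bis 0 2 2 1 49 (.leaf 10) (.leaf 10)) (.bis 0 1 1 1 184 (.leaf 66) (.leaf 10)))))
  (.bis 0 3 1 1 167 (.bis 2 3 1 2 153 (.bis 3 6 2 1 144 (.leaf 14) (.bis 1 3 1 1 189 (.leaf 49)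
  (.leaf 14))) (.bis 1 2 2 1 192 (.leaf 10) (.leaf 14))) (.bis 1 2 2 1 192 (.bis 0 2 2 1 49
  (.leaf 10) (.leaf 10)) (.bis 0 1 1 1 184 (.leaf 14) (.leaf 10)))))) (.bis 3 5 1 2 138 (.bis 2 5
  1 2 14 (.bis 1 5 1 2 185 (.bis 4 5 1 4 27 (.bis 5 6 4 1 32 (.bis 0 2 2 1 43 (.leaf 2) (.bis 0 3
  2 1 168 (.leaf 2) (.leaf 2))) (.bis 0 5 1 2 45 (.leaf 20) (.bis 0 2 2 1 43 (.leaf 2) (.leaf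
  2)))) (.bis 0 2 2 1 43 (.leaf 2) (.bis 0 4 2 1 49 (.leaf 2) (.leaf 2)))) (.bis 1 2 2 1 182
  (.bis 0 2 2 1 43 (.leaf 2) (.bis 0 4 2 1 49 (.leaf 2) (.leaf 2))) (.bis 1 4 2 1 192 (.bis 0 4 2
  1 49 (.leaf 2) (.leaf 2)) (.bis 0 1 1 1 184 (.leaf 14) (.leaf 2))))) (.bis 0 2 1 1 47 (.bis 1 2
  1 1 186 (.bis 2 3 2 1 140 (.bis 3 4 1 1 155 (.leaf 2) (.bis 3 5 1 1 158 (.leaf 2) (.leaf 2)))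
  (.leaf 19)) (.bis 1 5 2 1 182 (.bis 3 4 1 1 155 (.leaf 2) (.leaf 2)) (.bis 1 4 2 1 192 (.bis 3
  4 1 1 155 (.leaf 2) (.leaf 2)) (.bis 0 1 1 2 187 (.leaf 14) (.leaf 2))))) (.bis 1 5 2 1 182
  (.bis 0 5 2 1 43 (.bis 3 4 1 1 155 (.leaf 2) (.leaf 2)) (.bis 0 4 2 1 49 (.bis 3 4 1 1 155
  (.leaf 2) (.leaf 2)) (.bis 0 3 2 1 168 (.leaf 2) (.leaf 2)))) (.bis 1 4 2 1 192 (.bis 0 4 2 1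
  49 (.leaf 2) (.bis 0 3 2 1 168 (.leaf 2) (.leaf 2))) (.bis 1 2 2 1 187 (.bis 0 3 2 1 168 (.leaf
  2) (.bis 0 2 2 1 58 (.leaf 2) (.leaf 2))) (.bis 0 1 1 1 184 (.leaf 14) (.leaf 2))))))) (.bis 2
  3 1 1 141 (.bis 0 3 1 1 167 (.bis 3 4 2 1 153 (.bis 1 4 2 1 192 (.leaf 34) (.leaf 14)) (.bis 3
  6 2 1 144 (.leaf 14) (.bis 1 2 2 1 188 (.bis 2 3 1 2 146 (.leaf 21) (.leaf 4)) (.bis 1 3 1 1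
  189 (.leaf 21) (.leaf 9))))) (.bis 0 2 2 1 165 (.bis 1 4 2 1 192 (.leaf 34) (.leaf 14)) (.bis 1
  4 2 1 192 (.bis 0 4 2 1 49 (.leaf 10) (.leaf 10)) (.leaf 66)))) (.bis 0 2 1 1 47 (.bis 1 2 1 1
  186 (.bis 2 5 2 1 140 (.bis 4 5 1 1 155 (.leaf 11) (.leaf 11)) (.leaf 19)) (.bis 1 4 2 1 192
  (.bis 4 5 1 1 155 (.leaf 14) (.leaf 34)) (.bis 0 1 1 2 187 (.bis 1 3 2 1 188 (.leaf 14) (.leaf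
  14)) (.leaf 14)))) (.bis 0 3 2 1 165 (.bis 1 4 2 1 192 (.leaf 34) (.bis 1 2 2 1 187 (.leaf 14)
  (.leaf 14))) (.bis 1 4 2 1 192 (.bis 0 4 2 1 49 (.leaf 2) (.leaf 2)) (.bis 1 2 2 1 187 (.bis 0
  5 2 1 168 (.leaf 2) (.leaf 2)) (.bis 0 1 1 1 184 (.leaf 14) (.leaf 2)))))))))) (.bis 0 2 2 1 59
  (.bis 3 5 1 2 138 (.bis 2 5 1 2 14 (.bis 5 6 2 1 15 (.bis 4 6 1 1 55 (.bis 1 6 1 1 179 (.bis 3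
  6 1 2 139 (.leaf 19) (.bis 1 2 1 1 180 (.bis 0 3 1 1 169 (.bis 2 3 1 1 158 (.leaf 2) (.leaf 2))
  (.leaf 2)) (.bis 0 3 1 1 169 (.leaf 51) (.leaf 19)))) (.bis 1 2 2 1 182 (.bis 2 6 1 1 180 (.bis
  0 3 1 1 169 (.leaf 51) (.leaf 19)) (.bis 0 3 1 1 169 (.leaf 2) (.leaf 2))) (.bis 0 1 1 2 194
  (.bis 1 5 2 1 183 (.leaf 51) (.leaf 14)) (.leaf 51)))) (.bis 1 2 2 1 182 (.bis 2 4 1 2 43 (.bis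
  4 5 2 1 52 (.leaf 2) (.bis 0 4 1 2 60 (.leaf 2) (.leaf 2))) (.bis 0 3 1 1 169 (.leaf 2) (.leaf
  2))) (.bis 0 1 1 2 194 (.bis 1 5 2 1 183 (.bis 4 5 2 1 52 (.leaf 2) (.bis 3 4 1 2 168 (.leaf 2)
  (.leaf 2))) (.bis 1 4 1 1 184 (.leaf 2) (.leaf 14))) (.bis 4 5 2 1 52 (.leaf 2) (.bis 0 4 1 2
  60 (.leaf 2) (.leaf 2)))))) (.bis 1 5 1 2 185 (.bis 0 5 1 4 61 (.bis 4 5 1 2 45 (.leaf 20)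
  (.bis 2 4 1 2 43 (.bis 4 6 2 1 52 (.leaf 2) (.leaf 2)) (.leaf 2))) (.bis 2 4 1 2 43 (.bis 4 6 2
  1 52 (.leaf 2) (.leaf 2)) (.leaf 2))) (.bis 1 2 2 1 182 (.bis 2 4 1 2 43 (.bis 4 6 2 1 52
  (.leaf 2) (.leaf 2)) (.leaf 2)) (.bis 0 1 1 2 194 (.bis 1 6 2 1 183 (.bis 4 6 2 1 52 (.leaf 2)
  (.bis 3 4 1 2 168 (.leaf 2) (.leaf 2))) (.bis 1 4 1 1 184 (.leaf 2) (.leaf 14))) (.bis 4 6 2 1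
  52 (.leaf 2) (.bis 0 4 1 2 60 (.leaf 2) (.leaf 2))))))) (.bis 2 4 1 1 47 (.bis 4 6 1 1 55 (.bis
  1 6 1 1 179 (.bis 3 6 1 2 139 (.leaf 19) (.bis 1 5 1 1 180 (.bis 0 3 1 1 169 (.leaf 2) (.leaf
  2)) (.bis 0 3 1 1 169 (.leaf 5) (.leaf 5)))) (.bis 1 5 2 1 182 (.bis 5 6 1 1 180 (.bis 0 3 1 1
  169 (.leaf 5) (.leaf 5)) (.bis 0 3 1 1 169 (.leaf 2) (.leaf 2))) (.bis 0 1 1 2 194 (.bis 1 2 2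
  1 187 (.leaf 5) (.leaf 14)) (.leaf 5)))) (.bis 1 5 2 1 182 (.bis 4 5 2 1 43 (.bis 0 3 1 1 169
  (.leaf 2) (.leaf 2)) (.bis 0 4 1 2 60 (.leaf 2) (.bis 0 3 1 1 169 (.leaf 2) (.leaf 2)))) (.bis
  0 1 1 2 194 (.bis 1 2 2 1 187 (.bis 3 4 1 2 168 (.leaf 2) (.leaf 2)) (.bis 1 4 1 1 184 (.leaf
  2) (.leaf 14))) (.bis 0 4 1 2 60 (.bis 3 4 1 2 168 (.leaf 2) (.leaf 2)) (.leaf 2))))) (.bis 1 2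
  1 1 186 (.bis 2 3 2 1 140 (.bis 3 6 1 2 139 (.leaf 19) (.bis 0 3 1 1 169 (.bis 3 5 1 1 158
  (.leaf 2) (.leaf 2)) (.leaf 2))) (.leaf 19)) (.bis 1 6 1 1 179 (.bis 3 6 1 2 139 (.leaf 19)
  (.bis 1 5 1 1 180 (.bis 0 3 1 1 169 (.leaf 2) (.leaf 2)) (.bis 0 3 1 1 169 (.leaf 5) (.leaf
  5)))) (.bis 1 5 2 1 182 (.bis 5 6 1 1 180 (.bis 0 3 1 1 169 (.leaf 5) (.leaf 5)) (.bis 0 3 1 1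
  169 (.leaf 2) (.leaf 2))) (.bis 0 1 1 2 194 (.bis 1 4 2 1 187 (.leaf 5) (.leaf 9)) (.leaf
  5))))))) (.bis 2 3 1 1 141 (.bis 3 6 1 1 143 (.bis 4 6 1 1 55 (.bis 1 6 1 1 179 (.bis 5 6 1 2
  139 (.leaf 19) (.leaf 5)) (.bis 0 1 1 2 194 (.bis 1 2 2 1 188 (.leaf 5) (.leaf 14)) (.leaf 5)))
  (.bis 2 4 1 2 165 (.bis 3 4 1 2 166 (.bis 0 1 1 2 194 (.leaf 36) (.bis 0 4 1 2 60 (.leaf 2)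
  (.leaf 2))) (.bis 0 1 1 2 194 (.leaf 14) (.leaf 5))) (.bis 0 1 1 2 194 (.bis 1 2 2 1 188 (.leaf
  5) (.leaf 14)) (.leaf 5)))) (.bis 3 4 1 1 167 (.bis 2 4 1 2 165 (.bis 4 6 2 1 166 (.bis 0 1 1 2
  194 (.leaf 9) (.leaf 5)) (.bis 0 1 1 2 194 (.leaf 36) (.leaf 62))) (.bis 0 1 1 2 194 (.leaf 14)
  (.leaf 5))) (.bis 0 3 1 2 170 (.bis 1 2 2 1 188 (.bis 2 3 1 2 146 (.leaf 30) (.leaf 14)) (.bis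
  1 3 1 1 189 (.leaf 30) (.leaf 9))) (.bis 0 1 1 2 194 (.leaf 14) (.leaf 5))))) (.bis 2 4 1 1 47
  (.bis 4 6 1 1 55 (.bis 1 6 1 1 179 (.bis 5 6 1 2 139 (.leaf 19) (.leaf 5)) (.bis 0 1 1 2 194
  (.bis 1 2 2 1 187 (.leaf 5) (.leaf 14)) (.leaf 5))) (.bis 3 4 1 2 165 (.bis 0 1 1 2 194 (.bis 1
  2 2 1 187 (.bis 4 5 2 1 168 (.leaf 2) (.leaf 2)) (.bis 1 4 1 1 184 (.leaf 2) (.leaf 14))) (.bis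
  0 4 1 2 60 (.leaf 2) (.leaf 2))) (.bis 0 1 1 2 194 (.bis 1 2 2 1 187 (.leaf 5) (.bis 1 3 2 1
  188 (.leaf 5) (.leaf 14))) (.leaf 5)))) (.bis 1 2 1 1 186 (.bis 2 5 2 1 140 (.bis 5 6 1 2 139
  (.leaf 19) (.bis 0 5 1 1 169 (.leaf 5) (.leaf 5))) (.leaf 19)) (.bis 1 6 1 1 179 (.bis 5 6 1 2
  139 (.leaf 19) (.bis 0 5 1 1 169 (.leaf 5) (.leaf 5))) (.bis 0 1 1 2 194 (.bis 1 4 2 1 187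
  (.leaf 5) (.bis 1 3 2 1 188 (.leaf 5) (.leaf 9))) (.bis 0 5 1 1 169 (.leaf 5) (.leaf 5))))))))
  (.bis 3 5 1 2 138 (.bis 0 6 2 1 62 (.bis 5 6 2 1 15 (.bis 4 6 1 1 55 (.bis 1 6 1 1 179 (.bis 3
  6 1 2 139 (.leaf 84) (.bis 0 3 1 1 171 (.leaf 51) (.leaf 51))) (.bis 1 2 2 1 194 (.bis 0 3 1 1
  171 (.leaf 51) (.leaf 51)) (.bis 1 5 2 1 183 (.leaf 51) (.bis 0 1 1 2 195 (.leaf 14) (.leaf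
  5))))) (.bis 1 2 2 1 194 (.bis 4 5 2 1 52 (.bis 0 3 1 1 171 (.leaf 2) (.leaf 26)) (.bis 0 4 1 2
  65 (.leaf 2) (.bis 0 3 1 1 171 (.leaf 2) (.leaf 12)))) (.bis 1 5 2 1 183 (.bis 4 5 2 1 52
  (.leaf 26) (.bis 0 4 1 2 65 (.leaf 2) (.leaf 12))) (.bis 0 1 1 2 195 (.bis 1 4 1 1 184 (.leaf
  2) (.leaf 14)) (.bis 0 4 1 2 65 (.leaf 2) (.leaf 5)))))) (.bis 1 5 1 2 185 (.bis 0 5 1 4 63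
  (.bis 2 5 1 4 61 (.bis 4 5 1 2 45 (.leaf 20) (.bis 4 6 2 1 52 (.leaf 2) (.leaf 2))) (.bis 4 6 2
  1 52 (.leaf 2) (.bis 2 4 1 2 60 (.leaf 2) (.leaf 2)))) (.bis 4 6 2 1 52 (.leaf 26) (.bis 0 4 1
  2 65 (.leaf 2) (.leaf 12)))) (.bis 1 2 2 1 194 (.bis 4 6 2 1 52 (.leaf 26) (.bis 0 4 1 2 65
  (.leaf 2) (.leaf 12))) (.bis 1 6 2 1 183 (.bis 4 6 2 1 52 (.leaf 26) (.bis 0 4 1 2 65 (.leaf 2)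
  (.leaf 12))) (.bis 0 1 1 2 195 (.bis 1 4 1 1 184 (.leaf 2) (.leaf 14)) (.bis 0 4 1 2 65 (.leaf
  2) (.leaf 12))))))) (.bis 0 5 1 1 66 (.bis 1 5 1 2 185 (.bis 5 6 4 1 63 (.bis 4 6 2 1 65 (.leaf
  12) (.leaf 12)) (.bis 2 5 1 4 61 (.bis 4 5 1 2 45 (.leaf 20) (.leaf 12)) (.bis 2 4 1 2 60
  (.leaf 12) (.leaf 12)))) (.bis 0 1 1 1 196 (.bis 1 2 2 1 194 (.bis 4 6 2 1 65 (.leaf 12) (.leaf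
  2)) (.bis 1 6 2 1 195 (.leaf 12) (.leaf 36))) (.leaf 12))) (.bis 0 1 2 1 197 (.bis 1 5 1 1 196
  (.leaf 12) (.bis 1 2 2 1 194 (.leaf 12) (.bis 1 6 2 1 195 (.leaf 12) (.leaf 36)))) (.bis 0 3 4
  1 172 (.leaf 12) (.bis 0 2 4 1 67 (.bis 4 6 2 1 65 (.leaf 12) (.leaf 12)) (.bis 0 4 2 1 71
  (.leaf 12) (.bis 0 6 4 1 136 (.leaf 12) (.leaf 45)))))))) (.bis 0 3 2 1 173 (.bis 3 6 1 1 143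
  (.bis 4 6 1 1 55 (.bis 0 6 1 2 174 (.bis 1 6 1 1 179 (.bis 5 6 1 2 139 (.leaf 19) (.leaf 5))
  (.bis 1 2 2 1 194 (.leaf 5) (.bis 0 1 1 4 198 (.leaf 14) (.leaf 5)))) (.bis 1 2 2 1 194 (.leaf
  5) (.bis 1 6 4 1 198 (.leaf 5) (.leaf 109)))) (.bis 3 4 1 2 166 (.bis 1 2 2 1 194 (.bis 2 4 1 2
  60 (.leaf 12) (.leaf 5)) (.leaf 36)) (.bis 1 2 2 1 194 (.leaf 5) (.leaf 109)))) (.bis 3 4 1 1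
  167 (.bis 4 6 2 1 166 (.bis 1 2 2 1 194 (.bis 2 3 1 1 199 (.leaf 5) (.leaf 5)) (.leaf 9)) (.bis
  1 2 2 1 194 (.bis 2 4 1 2 60 (.leaf 15) (.leaf 5)) (.bis 1 4 1 1 184 (.leaf 15) (.leaf 36))))
  (.bis 2 3 1 2 170 (.bis 1 3 1 1 189 (.leaf 98) (.leaf 9)) (.bis 1 2 2 1 194 (.leaf 5) (.leaf
  9))))) (.bis 0 6 2 1 62 (.bis 4 6 1 1 55 (.bis 3 6 1 2 174 (.bis 1 6 1 1 179 (.bis 5 6 1 2 139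
  (.leaf 84) (.bis 0 5 1 1 171 (.leaf 5) (.leaf 5))) (.bis 1 2 2 1 194 (.bis 0 5 1 1 171 (.leaf
  5) (.leaf 5)) (.bis 0 1 1 2 195 (.leaf 36) (.leaf 5)))) (.bis 1 2 2 1 194 (.leaf 5) (.bis 0 1 1
  2 195 (.leaf 36) (.leaf 5)))) (.bis 1 2 2 1 194 (.bis 0 4 1 2 65 (.leaf 12) (.leaf 5)) (.bis 0
  1 1 2 195 (.bis 1 4 1 1 184 (.leaf 12) (.leaf 36)) (.bis 0 4 1 2 65 (.leaf 12) (.leaf 5)))))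
  (.bis 0 1 2 1 197 (.bis 1 2 2 1 194 (.bis 4 6 2 1 65 (.leaf 5) (.leaf 12)) (.bis 1 6 2 1 195
  (.bis 4 6 2 1 65 (.leaf 5) (.leaf 12)) (.bis 1 4 1 1 184 (.leaf 12) (.leaf 36)))) (.bis 0 5 4 1
  172 (.bis 4 6 2 1 65 (.leaf 5) (.leaf 12)) (.bis 0 2 4 1 67 (.bis 4 6 2 1 65 (.leaf 12) (.leaf
  12)) (.bis 0 4 2 1 71 (.leaf 12) (.bis 0 3 4 1 177 (.leaf 12) (.bis 0 6 4 1 136 (.leaf 12)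
  (.leaf 45))))))))))))

def lc5 : List Vr := [⟨[56,0,0,0,0,0,0], 21952, 0⟩, ⟨[0,73,0,0,56,0,0], 125028, 0⟩, ⟨[0,0,85,0,0,
  0,119], 143055, 0⟩, ⟨[0,73,0,73,0,0,0], 127896, 0⟩, ⟨[0,0,0,0,56,0,0], 21952, 0⟩, ⟨[0,0,0,0,0,
  42,0], 21168, 0⟩, ⟨[0,73,0,0,0,0,96], 105412, 0⟩]

theorem lk5 : chkTr lowT (leafLow 6 lowB) lt5 lc5 = true := by decide +kernel

def lt6 : Tr ℕ := (.bis 1 5 1 1 200 (.bis 0 2 2 1 59 (.bis 3 5 1 2 138 (.bis 2 5 1 2 14 (.bis 5 6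
  2 1 15 (.bis 4 6 1 1 179 (.bis 3 6 1 2 139 (.bis 1 2 2 1 201 (.leaf 19) (.bis 1 6 1 1 202
  (.leaf 19) (.leaf 51))) (.bis 1 2 2 1 201 (.bis 2 4 1 1 180 (.leaf 51) (.bis 0 3 1 1 169 (.leaf
  2) (.leaf 2))) (.leaf 51))) (.bis 2 4 1 2 182 (.bis 0 4 1 2 194 (.bis 4 5 2 1 183 (.leaf 51)
  (.leaf 9)) (.leaf 51)) (.bis 1 2 2 1 201 (.leaf 51) (.leaf 51)))) (.bis 4 5 1 2 185 (.bis 0 5 1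
  4 61 (.bis 1 5 1 2 203 (.leaf 20) (.bis 1 2 2 1 201 (.leaf 20) (.leaf 26))) (.bis 1 2 2 1 201
  (.leaf 2) (.leaf 26))) (.bis 2 4 1 2 182 (.bis 0 4 1 2 194 (.bis 4 6 2 1 183 (.leaf 26) (.leaf
  36)) (.leaf 26)) (.bis 1 2 2 1 201 (.leaf 2) (.leaf 26))))) (.bis 2 4 1 1 186 (.bis 4 6 1 1 179
  (.bis 3 6 1 2 139 (.bis 1 5 2 1 201 (.leaf 19) (.bis 1 6 1 1 202 (.leaf 19) (.leaf 5))) (.bis 1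
  5 2 1 201 (.leaf 51) (.leaf 5))) (.bis 4 5 2 1 182 (.bis 1 5 2 1 201 (.leaf 51) (.leaf 5))
  (.bis 0 4 1 2 194 (.leaf 9) (.leaf 5)))) (.bis 1 2 1 1 204 (.bis 2 3 2 1 140 (.bis 3 6 1 2 139
  (.leaf 19) (.bis 0 3 1 1 169 (.leaf 2) (.leaf 2))) (.leaf 19)) (.bis 3 6 1 2 139 (.bis 1 5 2 1
  201 (.leaf 19) (.bis 1 6 1 1 202 (.leaf 19) (.bis 0 1 1 2 205 (.leaf 5) (.leaf 5)))) (.bis 1 5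
  2 1 201 (.bis 0 3 1 1 169 (.leaf 2) (.leaf 2)) (.bis 0 1 1 2 205 (.leaf 5) (.leaf 2)))))))
  (.bis 2 3 1 1 141 (.bis 3 6 1 1 143 (.bis 4 6 1 1 179 (.bis 5 6 1 2 139 (.bis 1 6 1 1 202
  (.leaf 19) (.bis 0 1 1 2 205 (.leaf 5) (.leaf 5))) (.leaf 5)) (.bis 0 4 1 2 194 (.leaf 74)
  (.leaf 5))) (.bis 0 3 1 2 170 (.bis 1 3 1 1 206 (.bis 2 4 1 2 188 (.bis 3 4 1 1 189 (.leaf 9)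
  (.leaf 30)) (.bis 2 3 1 2 146 (.leaf 30) (.leaf 14))) (.leaf 74)) (.bis 0 4 1 2 194 (.bis 1 2 2
  1 207 (.bis 2 4 1 2 188 (.leaf 9) (.leaf 5)) (.leaf 9)) (.bis 0 1 1 2 205 (.leaf 5) (.leaf
  5))))) (.bis 2 4 1 1 186 (.bis 4 6 1 1 179 (.bis 5 6 1 2 139 (.bis 1 6 1 1 202 (.leaf 19) (.bis
  0 1 1 2 205 (.leaf 5) (.leaf 5))) (.bis 0 1 1 2 205 (.leaf 5) (.leaf 5))) (.bis 0 4 1 2 194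
  (.leaf 74) (.bis 0 1 1 2 205 (.leaf 5) (.leaf 5)))) (.bis 1 2 1 1 204 (.bis 2 5 2 1 140 (.bis 5
  6 1 2 139 (.leaf 19) (.bis 0 5 1 1 169 (.leaf 5) (.leaf 5))) (.leaf 19)) (.bis 5 6 1 2 139
  (.bis 1 6 1 1 202 (.leaf 19) (.bis 0 1 1 2 205 (.bis 1 3 2 1 207 (.leaf 5) (.leaf 5)) (.leaf
  5))) (.bis 0 1 1 2 205 (.bis 1 3 2 1 207 (.leaf 5) (.leaf 5)) (.leaf 5))))))) (.bis 3 5 1 2 138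
  (.bis 0 6 2 1 62 (.bis 5 6 2 1 15 (.bis 4 6 1 1 179 (.bis 3 6 1 2 139 (.bis 1 6 1 1 202 (.leaf
  84) (.bis 1 2 2 1 205 (.leaf 51) (.leaf 51))) (.leaf 51)) (.bis 2 4 1 2 194 (.bis 4 5 2 1 183
  (.leaf 51) (.bis 0 4 1 2 195 (.leaf 9) (.leaf 5))) (.leaf 51))) (.bis 4 5 1 2 185 (.bis 0 5 1 4
  63 (.bis 2 5 1 4 61 (.bis 1 5 1 2 203 (.leaf 20) (.leaf 26)) (.bis 1 2 2 1 205 (.leaf 2) (.leaf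
  26))) (.leaf 26)) (.bis 2 4 1 2 194 (.bis 4 6 2 1 183 (.leaf 26) (.bis 0 4 1 2 195 (.leaf 36)
  (.leaf 26))) (.leaf 26)))) (.bis 0 5 1 1 66 (.bis 4 5 1 2 185 (.bis 5 6 4 1 63 (.leaf 26) (.bis
  2 5 1 4 61 (.bis 1 5 1 2 203 (.leaf 20) (.leaf 26)) (.bis 1 2 2 1 205 (.leaf 12) (.leaf 26))))
  (.bis 0 4 1 1 196 (.bis 2 4 1 2 194 (.bis 4 6 2 1 195 (.leaf 26) (.leaf 36)) (.leaf 26)) (.leaf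
  26))) (.bis 0 4 2 1 197 (.bis 4 5 1 1 196 (.leaf 26) (.bis 2 4 1 2 194 (.bis 4 6 2 1 195 (.leaf
  5) (.leaf 36)) (.leaf 5))) (.bis 0 3 4 1 172 (.leaf 26) (.bis 0 1 2 1 208 (.leaf 26) (.bis 0 2
  4 1 67 (.leaf 12) (.bis 0 6 4 1 136 (.leaf 12) (.bis 0 4 4 1 209 (.leaf 12) (.leaf 45)))))))))
  (.bis 0 3 2 1 173 (.bis 3 6 1 1 143 (.bis 0 6 1 2 174 (.bis 4 6 1 1 179 (.bis 5 6 1 2 139 (.bis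
  1 6 1 1 202 (.leaf 19) (.leaf 5)) (.leaf 5)) (.bis 2 4 1 2 194 (.leaf 9) (.leaf 5))) (.bis 2 4
  1 2 194 (.leaf 9) (.leaf 5))) (.bis 2 3 1 2 170 (.bis 1 3 1 1 206 (.bis 3 4 1 1 189 (.leaf 9)
  (.leaf 98)) (.leaf 9)) (.bis 2 4 1 2 194 (.leaf 9) (.leaf 5)))) (.bis 0 6 2 1 62 (.bis 3 6 1 2
  174 (.bis 4 6 1 1 179 (.bis 5 6 1 2 139 (.bis 1 6 1 1 202 (.leaf 84) (.leaf 5)) (.leaf 5))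
  (.bis 2 4 1 2 194 (.bis 0 4 1 2 195 (.leaf 9) (.leaf 5)) (.leaf 5))) (.bis 2 4 1 2 194 (.bis 0
  4 1 2 195 (.leaf 9) (.leaf 5)) (.leaf 5))) (.bis 0 4 2 1 197 (.bis 2 4 1 2 194 (.bis 4 6 2 1
  195 (.leaf 5) (.leaf 36)) (.leaf 5)) (.bis 0 5 4 1 172 (.leaf 5) (.bis 0 1 2 1 208 (.leaf 108)
  (.bis 0 2 4 1 67 (.leaf 12) (.bis 0 3 4 1 177 (.leaf 12) (.bis 0 6 4 1 136 (.leaf 12) (.bis 0 4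
  4 1 209 (.leaf 12) (.leaf 45)))))))))))) (.bis 1 2 2 1 210 (.bis 0 2 2 1 59 (.bis 2 3 1 1 141
  (.bis 3 6 1 1 143 (.bis 4 6 1 1 179 (.bis 5 6 1 1 202 (.leaf 19) (.bis 0 5 1 2 205 (.leaf 5)
  (.leaf 5))) (.bis 0 4 1 2 194 (.bis 2 5 1 2 207 (.leaf 9) (.bis 2 4 1 2 188 (.leaf 9) (.leaf
  5))) (.bis 0 5 1 2 205 (.leaf 5) (.leaf 5)))) (.bis 0 3 1 2 170 (.bis 3 5 1 1 206 (.bis 2 5 1 2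
  207 (.leaf 9) (.bis 2 4 1 2 188 (.leaf 9) (.leaf 5))) (.bis 1 3 1 2 211 (.bis 2 4 1 2 188
  (.leaf 30) (.bis 2 3 1 2 146 (.leaf 30) (.leaf 30))) (.bis 2 4 1 2 188 (.leaf 9) (.leaf 5))))
  (.bis 0 4 1 2 194 (.bis 2 5 1 2 207 (.bis 1 4 1 2 212 (.leaf 9) (.leaf 5)) (.bis 2 4 1 2 188
  (.bis 1 4 1 2 212 (.leaf 9) (.leaf 5)) (.leaf 5))) (.bis 0 5 1 2 205 (.leaf 5) (.leaf 5)))))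
  (.bis 2 4 1 1 186 (.bis 4 6 1 1 179 (.bis 5 6 1 1 202 (.leaf 19) (.bis 0 5 1 2 205 (.leaf 5)
  (.leaf 5))) (.bis 0 4 1 2 194 (.bis 3 5 1 2 207 (.leaf 9) (.bis 3 4 1 2 188 (.bis 1 4 1 2 212
  (.leaf 9) (.leaf 5)) (.leaf 5))) (.bis 0 5 1 2 205 (.leaf 5) (.leaf 5)))) (.bis 2 5 1 1 204
  (.bis 5 6 1 1 202 (.leaf 19) (.bis 0 5 1 2 205 (.bis 3 5 1 2 207 (.leaf 5) (.leaf 5)) (.leaf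
  5))) (.leaf 19)))) (.bis 0 3 2 1 173 (.bis 3 6 1 1 143 (.bis 0 6 1 2 174 (.bis 4 6 1 1 179
  (.bis 5 6 1 1 202 (.leaf 19) (.leaf 5)) (.bis 2 4 1 2 194 (.bis 1 4 1 2 212 (.leaf 9) (.leaf
  5)) (.leaf 5))) (.bis 2 4 1 2 194 (.bis 0 1 1 1 213 (.bis 1 4 1 2 212 (.leaf 9) (.leaf 5))
  (.leaf 9)) (.leaf 5))) (.bis 2 3 1 2 170 (.bis 3 5 1 1 206 (.leaf 9) (.bis 1 3 1 2 211 (.bis 3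
  4 1 1 189 (.leaf 9) (.leaf 80)) (.bis 0 1 1 1 213 (.bis 1 4 1 2 212 (.leaf 9) (.leaf 5)) (.bis
  0 4 1 2 214 (.leaf 9) (.leaf 5))))) (.bis 2 4 1 2 194 (.leaf 9) (.leaf 5)))) (.bis 0 6 2 1 62
  (.bis 3 6 1 2 174 (.bis 4 6 1 1 179 (.bis 5 6 1 1 202 (.leaf 84) (.leaf 5)) (.bis 2 4 1 2 194
  (.bis 0 4 1 2 195 (.leaf 9) (.leaf 5)) (.leaf 5))) (.bis 2 4 1 2 194 (.bis 0 4 1 2 195 (.leaf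
  9) (.leaf 5)) (.bis 2 5 1 2 205 (.leaf 5) (.bis 1 3 1 1 213 (.leaf 5) (.leaf 5))))) (.bis 0 1 4
  1 215 (.bis 2 4 1 2 194 (.bis 4 6 2 1 195 (.leaf 5) (.leaf 109)) (.leaf 5)) (.bis 0 4 2 1 197
  (.bis 2 4 1 2 194 (.bis 4 6 2 1 195 (.leaf 5) (.leaf 36)) (.leaf 5)) (.bis 0 5 2 1 208 (.leaf
  108) (.bis 0 2 4 1 67 (.leaf 12) (.bis 0 3 4 1 177 (.leaf 12) (.bis 0 1 8 1 216 (.leaf 12)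
  (.bis 0 6 4 1 136 (.leaf 12) (.leaf 45))))))))))) (.bis 0 1 1 1 217 (.bis 1 6 2 1 218 (.bis 3 6
  1 1 143 (.bis 0 6 1 1 219 (.bis 4 6 1 1 179 (.leaf 136) (.bis 1 4 1 2 220 (.bis 0 4 1 2 221
  (.leaf 9) (.leaf 28)) (.leaf 28))) (.bis 0 2 2 1 222 (.bis 1 4 1 2 220 (.bis 4 6 2 1 221 (.leaf
  28) (.leaf 9)) (.leaf 28)) (.bis 0 4 1 1 223 (.bis 1 4 1 2 220 (.leaf 28) (.leaf 28)) (.leaf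
  68)))) (.bis 0 3 1 1 224 (.bis 1 3 1 2 225 (.bis 3 5 1 1 206 (.leaf 9) (.bis 2 3 1 2 211 (.bis
  3 4 1 1 189 (.leaf 9) (.leaf 30)) (.bis 2 4 1 2 212 (.leaf 9) (.leaf 9)))) (.bis 1 4 1 2 220
  (.leaf 9) (.leaf 28))) (.bis 0 2 2 1 222 (.bis 1 4 1 2 220 (.leaf 9) (.leaf 28)) (.bis 0 4 1 1
  223 (.leaf 28) (.leaf 68))))) (.bis 1 3 2 1 226 (.bis 0 3 1 1 224 (.bis 3 6 2 1 225 (.bis 4 6 2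
  1 220 (.leaf 28) (.leaf 28)) (.bis 3 5 1 1 206 (.bis 2 4 1 2 212 (.leaf 28) (.leaf 28)) (.bis 2
  3 1 2 211 (.bis 3 4 1 1 189 (.leaf 28) (.leaf 80)) (.bis 2 4 1 2 212 (.leaf 28) (.leaf 28)))))
  (.bis 0 2 2 1 222 (.bis 4 6 2 1 220 (.leaf 28) (.leaf 28)) (.bis 0 4 1 1 223 (.bis 4 6 2 1 220
  (.leaf 28) (.leaf 28)) (.leaf 68)))) (.bis 1 4 2 1 227 (.bis 0 2 2 1 222 (.bis 4 6 2 1 220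
  (.leaf 28) (.leaf 28)) (.bis 0 4 1 1 223 (.bis 4 6 2 1 220 (.leaf 28) (.leaf 28)) (.leaf 68)))
  (.bis 1 2 4 1 228 (.bis 0 2 2 1 222 (.leaf 28) (.leaf 68)) (.bis 1 5 2 1 229 (.leaf 68) (.bis 0
  1 1 2 230 (.leaf 137) (.leaf 68))))))) (.bis 0 3 2 1 173 (.bis 3 6 1 1 143 (.bis 1 6 1 1 219
  (.bis 0 6 1 2 174 (.bis 4 6 1 1 179 (.leaf 84) (.bis 1 4 1 2 221 (.leaf 9) (.leaf 5))) (.bis 0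
  2 1 1 213 (.bis 1 4 1 2 221 (.bis 2 4 1 2 212 (.leaf 9) (.leaf 5)) (.leaf 5)) (.bis 1 4 1 2 221
  (.leaf 9) (.leaf 5)))) (.bis 1 2 2 1 222 (.bis 0 2 1 1 213 (.bis 4 6 2 1 221 (.leaf 5) (.bis 2
  4 1 2 212 (.leaf 9) (.leaf 5))) (.bis 4 6 2 1 221 (.leaf 5) (.leaf 9))) (.bis 1 4 1 1 223
  (.leaf 83) (.leaf 83)))) (.bis 1 3 1 1 224 (.bis 3 5 1 1 206 (.leaf 9) (.bis 2 3 1 2 211 (.leaf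
  80) (.leaf 9))) (.bis 1 2 2 1 222 (.bis 0 2 1 1 213 (.bis 2 4 1 2 212 (.leaf 9) (.leaf 9))
  (.leaf 9)) (.bis 1 4 1 1 223 (.leaf 9) (.leaf 83))))) (.bis 0 6 2 1 62 (.bis 1 6 1 1 219 (.bis
  3 6 1 2 174 (.bis 4 6 1 1 179 (.leaf 84) (.bis 0 4 1 2 195 (.bis 1 4 1 2 221 (.leaf 9) (.leaf
  5)) (.leaf 5))) (.bis 0 4 1 2 195 (.bis 2 3 1 1 213 (.bis 1 4 1 2 221 (.leaf 9) (.leaf 5))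
  (.bis 1 4 1 2 221 (.leaf 9) (.leaf 5))) (.bis 2 3 1 1 213 (.leaf 5) (.leaf 5)))) (.bis 0 4 1 2
  195 (.bis 1 2 2 1 222 (.bis 2 3 1 1 213 (.bis 4 6 2 1 221 (.leaf 5) (.leaf 9)) (.bis 4 6 2 1
  221 (.leaf 5) (.leaf 9))) (.bis 1 4 1 1 223 (.leaf 83) (.leaf 50))) (.leaf 138))) (.bis 0 2 4 1
  215 (.bis 4 6 2 1 195 (.bis 1 2 2 1 222 (.leaf 5) (.leaf 50)) (.bis 1 2 2 1 222 (.bis 2 3 1 1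
  213 (.bis 0 4 1 4 231 (.leaf 9) (.leaf 5)) (.bis 0 4 1 4 231 (.leaf 9) (.leaf 5))) (.bis 1 4 1
  1 223 (.leaf 73) (.leaf 50)))) (.bis 0 4 2 1 197 (.bis 4 6 2 1 195 (.leaf 50) (.bis 1 4 1 1 223
  (.leaf 36) (.leaf 50))) (.bis 0 5 2 1 208 (.leaf 50) (.bis 0 1 2 1 232 (.leaf 50) (.bis 0 3 4 1
  177 (.leaf 45) (.bis 0 2 8 1 216 (.leaf 45) (.bis 0 6 4 1 136 (.leaf 45) (.leaf 45)))))))))))))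

def lc6 : List Vr := [⟨[56,0,0,0,0,0,0], 21952, 0⟩, ⟨[0,73,0,0,0,0,0], 21316, 0⟩, ⟨[0,0,85,0,0,0,
  119], 143055, 0⟩, ⟨[0,73,0,73,0,0,0], 127896, 0⟩, ⟨[0,73,0,0,56,0,0], 125028, 0⟩, ⟨[0,0,0,0,0,
  42,0], 21168, 0⟩, ⟨[0,73,0,0,0,0,96], 105412, 0⟩]

theorem lk6 : chkTr lowT (leafLow 6 lowB) lt6 lc6 = true := by decide +kernel

def lt7 : Tr ℕ := (.bis 3 5 1 1 74 (.bis 4 6 2 1 23 (.bis 1 5 1 2 138 (.bis 5 6 2 1 14 (.bis 0 6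
  1 1 94 (.bis 3 6 1 1 95 (.bis 1 6 1 2 140 (.bis 2 6 1 1 234 (.leaf 19) (.bis 2 4 2 1 235 (.leaf
  8) (.bis 2 5 2 1 236 (.leaf 8) (.bis 2 3 2 1 237 (.leaf 8) (.leaf 8))))) (.bis 2 4 2 1 235
  (.bis 1 4 1 1 155 (.leaf 2) (.bis 1 5 1 1 158 (.leaf 2) (.leaf 2))) (.bis 2 5 2 1 236 (.bis 1 5
  1 1 158 (.leaf 2) (.leaf 2)) (.bis 1 2 1 2 238 (.leaf 8) (.leaf 8))))) (.bis 3 5 2 1 91 (.bis 2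
  4 2 1 235 (.bis 1 4 1 1 155 (.leaf 2) (.leaf 2)) (.bis 2 5 2 1 236 (.bis 1 5 1 1 158 (.leaf 2)
  (.leaf 2)) (.bis 1 2 1 2 238 (.leaf 8) (.leaf 8)))) (.bis 2 3 1 1 239 (.leaf 16) (.bis 2 4 2 1
  235 (.leaf 8) (.bis 1 2 1 2 238 (.leaf 8) (.leaf 4)))))) (.bis 0 5 2 1 92 (.bis 3 5 2 1 91
  (.bis 2 4 2 1 235 (.leaf 2) (.bis 2 5 2 1 236 (.leaf 2) (.bis 1 2 1 2 238 (.leaf 8) (.leaf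
  8)))) (.bis 2 3 1 1 239 (.leaf 16) (.bis 2 4 2 1 235 (.leaf 8) (.bis 1 2 1 2 238 (.leaf 8)
  (.leaf 4))))) (.bis 0 4 2 1 77 (.bis 2 3 1 1 239 (.leaf 16) (.bis 2 4 2 1 235 (.leaf 8) (.bis 0
  2 1 4 240 (.leaf 3) (.leaf 3)))) (.bis 0 2 1 1 241 (.bis 2 3 1 1 239 (.leaf 4) (.bis 2 4 4 1
  240 (.leaf 3) (.leaf 3))) (.leaf 4))))) (.bis 0 5 1 2 80 (.bis 2 5 1 2 242 (.bis 4 5 1 4 27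
  (.bis 3 5 1 2 81 (.leaf 20) (.bis 3 6 2 1 91 (.leaf 20) (.leaf 24))) (.bis 3 6 2 1 91 (.leaf 8)
  (.leaf 24))) (.bis 3 6 2 1 91 (.bis 0 2 1 2 243 (.bis 2 4 2 1 235 (.leaf 8) (.leaf 8)) (.leaf
  8)) (.bis 2 3 1 1 239 (.bis 3 4 2 1 82 (.leaf 8) (.leaf 24)) (.bis 0 2 1 2 243 (.bis 2 4 2 1
  235 (.leaf 8) (.leaf 8)) (.bis 0 4 1 1 244 (.leaf 8) (.leaf 8)))))) (.bis 0 6 2 1 92 (.bis 3 6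
  2 1 91 (.bis 2 5 2 1 243 (.leaf 2) (.bis 2 4 2 1 235 (.leaf 2) (.bis 2 6 2 1 236 (.leaf 2)
  (.leaf 8)))) (.bis 2 3 1 1 239 (.bis 3 4 2 1 82 (.leaf 8) (.leaf 24)) (.bis 2 5 2 1 243 (.bis 4
  5 1 1 244 (.leaf 8) (.leaf 8)) (.bis 2 4 2 1 235 (.leaf 8) (.leaf 8))))) (.bis 0 4 2 1 77 (.bis
  2 3 1 1 239 (.bis 3 4 2 1 82 (.leaf 8) (.leaf 24)) (.bis 2 5 2 1 243 (.leaf 8) (.bis 2 4 2 1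
  235 (.leaf 8) (.leaf 3)))) (.bis 0 2 1 1 241 (.bis 2 3 1 1 239 (.leaf 52) (.bis 2 5 2 1 243
  (.leaf 8) (.leaf 3))) (.leaf 52)))))) (.bis 1 6 1 1 141 (.bis 0 6 1 1 94 (.bis 3 6 1 1 95 (.bis
  5 6 1 2 140 (.bis 2 6 1 1 234 (.leaf 19) (.bis 2 4 2 1 235 (.leaf 8) (.bis 2 3 2 1 237 (.leaf
  8) (.bis 0 2 1 2 245 (.leaf 8) (.leaf 8))))) (.bis 2 4 2 1 235 (.bis 4 5 1 1 155 (.leaf 8)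
  (.leaf 8)) (.bis 2 5 2 1 238 (.leaf 8) (.bis 2 3 2 1 237 (.leaf 8) (.leaf 3))))) (.bis 2 3 1 1
  239 (.bis 3 4 2 1 82 (.leaf 8) (.leaf 4)) (.bis 2 4 2 1 235 (.leaf 8) (.bis 2 5 2 1 238 (.leaf
  4) (.leaf 8))))) (.bis 0 4 2 1 77 (.bis 2 3 1 1 239 (.bis 3 4 2 1 82 (.leaf 8) (.leaf 4)) (.bis
  2 4 2 1 235 (.leaf 8) (.bis 0 2 1 4 240 (.leaf 3) (.leaf 3)))) (.bis 0 2 1 1 241 (.bis 2 3 1 1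
  239 (.leaf 4) (.bis 2 4 4 1 240 (.leaf 3) (.leaf 3))) (.leaf 4)))) (.bis 1 4 2 1 153 (.bis 0 4
  2 1 77 (.bis 2 3 1 1 239 (.leaf 16) (.bis 2 4 2 1 235 (.leaf 8) (.bis 0 2 1 4 240 (.leaf 3)
  (.leaf 3)))) (.bis 0 2 1 1 241 (.bis 2 3 1 1 239 (.leaf 4) (.bis 2 4 4 1 240 (.leaf 3) (.leaf
  3))) (.leaf 4))) (.bis 1 2 1 1 246 (.bis 0 2 1 1 241 (.bis 2 3 1 1 239 (.leaf 4) (.leaf 3))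
  (.leaf 4)) (.bis 1 3 1 1 157 (.leaf 4) (.bis 0 6 2 1 142 (.bis 1 6 2 1 146 (.leaf 4) (.leaf
  21)) (.leaf 21))))))) (.bis 1 5 1 2 138 (.bis 2 4 1 2 247 (.bis 4 5 1 1 25 (.bis 0 5 1 2 80
  (.bis 5 6 4 1 27 (.leaf 24) (.bis 2 5 1 4 248 (.bis 3 5 1 2 81 (.leaf 71) (.leaf 24)) (.leaf
  24))) (.bis 0 4 1 1 84 (.bis 3 6 2 1 82 (.leaf 10) (.leaf 24)) (.bis 0 6 2 1 77 (.leaf 24)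
  (.leaf 97)))) (.bis 0 4 1 2 87 (.bis 1 4 1 4 148 (.bis 3 4 1 2 88 (.bis 4 6 4 1 28 (.leaf 10)
  (.bis 2 4 1 4 249 (.bis 0 4 1 4 149 (.leaf 32) (.leaf 10)) (.leaf 10))) (.leaf 24)) (.leaf 24))
  (.bis 0 5 1 1 84 (.leaf 24) (.bis 0 6 2 1 77 (.leaf 16) (.leaf 97))))) (.bis 0 5 1 2 80 (.bis 2
  5 1 2 242 (.bis 5 6 4 1 27 (.leaf 24) (.bis 4 5 1 4 248 (.bis 3 5 1 2 81 (.leaf 20) (.leaf 24))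
  (.leaf 24))) (.bis 2 3 1 1 239 (.bis 3 6 2 1 82 (.leaf 8) (.leaf 24)) (.bis 0 2 1 2 243 (.bis 2
  6 2 1 235 (.leaf 8) (.leaf 8)) (.bis 0 6 1 1 244 (.leaf 8) (.leaf 8))))) (.bis 0 6 2 1 77 (.bis
  2 3 1 1 239 (.leaf 24) (.bis 2 5 2 1 243 (.leaf 8) (.bis 2 6 2 1 235 (.leaf 8) (.leaf 8))))
  (.bis 0 2 1 1 241 (.bis 2 3 1 1 239 (.leaf 97) (.bis 2 5 2 1 243 (.leaf 8) (.leaf 8))) (.bis 0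
  4 2 1 250 (.leaf 97) (.leaf 52)))))) (.bis 1 4 1 2 151 (.bis 2 4 1 2 247 (.bis 0 4 1 2 87 (.bis
  4 5 4 1 148 (.bis 3 6 2 1 82 (.leaf 10) (.leaf 16)) (.bis 3 4 1 2 88 (.bis 4 6 4 1 28 (.leaf
  10) (.bis 1 4 1 4 152 (.bis 2 4 1 4 249 (.bis 0 4 1 4 149 (.leaf 32) (.leaf 10)) (.leaf 10))
  (.leaf 10))) (.bis 3 6 2 1 82 (.leaf 10) (.leaf 39)))) (.bis 0 6 2 1 77 (.leaf 16) (.leaf 97)))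
  (.bis 0 6 2 1 77 (.bis 1 2 1 2 251 (.bis 2 3 1 1 239 (.leaf 16) (.bis 2 6 2 1 235 (.leaf 8)
  (.leaf 8))) (.leaf 16)) (.bis 0 2 1 1 241 (.bis 1 2 1 2 251 (.bis 2 3 1 1 239 (.leaf 16) (.leaf
  8)) (.leaf 16)) (.leaf 97)))) (.bis 1 6 2 1 153 (.bis 0 6 2 1 77 (.bis 2 4 2 1 251 (.leaf 16)
  (.bis 2 3 1 1 239 (.leaf 16) (.bis 2 6 2 1 235 (.leaf 8) (.leaf 3)))) (.bis 0 2 1 1 241 (.bis 2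
  4 2 1 251 (.leaf 4) (.bis 2 3 1 1 239 (.leaf 4) (.bis 2 6 4 1 240 (.leaf 3) (.leaf 3)))) (.leaf
  4))) (.bis 1 2 1 1 246 (.bis 0 2 1 1 241 (.bis 2 4 2 1 251 (.leaf 4) (.bis 2 3 1 1 239 (.leaf
  4) (.leaf 3))) (.leaf 4)) (.bis 1 3 1 1 157 (.leaf 4) (.bis 0 1 1 1 147 (.leaf 49) (.leaf
  4)))))))) (.bis 3 6 2 1 97 (.bis 4 6 2 1 23 (.bis 1 6 1 1 141 (.bis 0 6 1 1 94 (.bis 5 6 1 1 95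
  (.bis 2 6 1 1 234 (.leaf 56) (.bis 2 4 2 1 235 (.leaf 56) (.bis 2 3 2 1 252 (.leaf 56) (.bis 2
  5 2 1 237 (.leaf 8) (.leaf 8))))) (.bis 2 5 1 1 239 (.bis 4 5 1 2 82 (.bis 1 5 1 2 159 (.leaf
  4) (.leaf 4)) (.leaf 16)) (.bis 2 4 2 1 235 (.leaf 16) (.bis 2 3 2 1 252 (.leaf 4) (.leaf
  8))))) (.bis 0 4 2 1 77 (.bis 2 5 1 1 239 (.bis 4 5 1 2 82 (.leaf 4) (.leaf 16)) (.bis 2 4 2 1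
  235 (.leaf 16) (.bis 2 3 2 1 252 (.leaf 4) (.leaf 3)))) (.bis 0 2 1 1 241 (.bis 2 5 1 1 239
  (.leaf 4) (.bis 2 3 2 1 252 (.leaf 4) (.leaf 3))) (.bis 1 5 1 2 159 (.leaf 4) (.bis 0 1 2 1 142
  (.leaf 4) (.leaf 4)))))) (.bis 1 4 2 1 153 (.bis 0 4 2 1 77 (.bis 2 5 1 1 239 (.bis 4 5 1 2 82
  (.leaf 4) (.leaf 16)) (.bis 2 4 2 1 235 (.leaf 16) (.bis 2 3 2 1 252 (.leaf 4) (.leaf 3))))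
  (.bis 0 2 1 1 241 (.bis 2 5 1 1 239 (.leaf 4) (.bis 2 3 2 1 252 (.leaf 4) (.leaf 3))) (.leaf
  4))) (.bis 1 2 1 1 246 (.bis 0 2 1 1 241 (.bis 2 5 1 1 239 (.bis 5 6 2 1 159 (.leaf 4) (.leaf
  4)) (.bis 2 3 2 1 252 (.leaf 4) (.leaf 3))) (.bis 5 6 2 1 159 (.bis 0 6 2 1 142 (.leaf 4)
  (.leaf 4)) (.leaf 4))) (.bis 1 5 1 1 157 (.bis 5 6 2 1 159 (.bis 0 6 2 1 142 (.leaf 4) (.leaf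
  4)) (.leaf 4)) (.bis 1 3 2 1 162 (.bis 0 6 2 1 142 (.leaf 4) (.leaf 4)) (.bis 0 6 2 1 142
  (.leaf 98) (.leaf 21))))))) (.bis 1 4 1 2 151 (.bis 2 4 1 2 247 (.bis 3 4 1 4 103 (.bis 0 4 1 2
  87 (.bis 4 5 2 1 88 (.leaf 115) (.bis 4 6 4 1 28 (.leaf 10) (.bis 1 4 1 4 152 (.bis 2 4 1 4 249
  (.bis 3 4 1 8 105 (.leaf 32) (.leaf 10)) (.leaf 10)) (.leaf 10)))) (.bis 0 6 2 1 77 (.leaf 16)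
  (.bis 0 2 2 1 250 (.leaf 16) (.leaf 4)))) (.bis 0 6 2 1 77 (.bis 5 6 2 1 82 (.bis 2 3 1 1 253
  (.leaf 16) (.leaf 10)) (.bis 2 3 1 1 253 (.leaf 4) (.leaf 16))) (.bis 0 2 2 1 250 (.bis 2 3 1 1
  253 (.leaf 4) (.leaf 16)) (.bis 1 3 1 1 160 (.leaf 4) (.leaf 4))))) (.bis 0 6 2 1 77 (.bis 1 2
  1 2 251 (.bis 2 5 1 1 239 (.leaf 16) (.bis 3 4 1 1 253 (.bis 2 6 2 1 235 (.leaf 8) (.leaf 8))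
  (.bis 2 6 2 1 235 (.leaf 16) (.bis 2 3 2 1 252 (.leaf 4) (.leaf 3))))) (.bis 5 6 2 1 82 (.bis 3
  4 1 1 253 (.leaf 10) (.leaf 16)) (.bis 3 4 1 1 253 (.leaf 16) (.leaf 4)))) (.bis 0 2 1 1 241
  (.bis 1 2 1 2 251 (.bis 2 5 1 1 239 (.bis 3 4 1 1 253 (.leaf 16) (.leaf 4)) (.bis 3 4 1 1 253
  (.leaf 8) (.bis 2 3 2 1 252 (.leaf 4) (.leaf 3)))) (.bis 3 4 1 1 253 (.leaf 16) (.leaf 4)))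
  (.bis 0 4 2 1 250 (.bis 3 4 1 1 253 (.leaf 16) (.leaf 4)) (.bis 1 3 1 1 160 (.leaf 4) (.leaf
  4)))))) (.bis 1 6 2 1 153 (.bis 0 6 2 1 77 (.bis 2 4 2 1 251 (.leaf 16) (.bis 2 5 1 1 239
  (.leaf 16) (.bis 2 6 2 1 235 (.leaf 16) (.bis 2 3 2 1 252 (.leaf 4) (.leaf 3))))) (.bis 0 2 1 1
  241 (.bis 2 4 2 1 251 (.leaf 4) (.bis 2 5 1 1 239 (.leaf 4) (.bis 2 3 2 1 252 (.leaf 4) (.leaf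
  3)))) (.leaf 4))) (.bis 1 2 1 1 246 (.bis 0 2 1 1 241 (.bis 2 4 2 1 251 (.bis 3 4 1 1 160
  (.leaf 4) (.leaf 4)) (.bis 2 5 1 1 239 (.leaf 4) (.bis 2 3 2 1 252 (.leaf 4) (.leaf 3)))) (.bis
  3 4 1 1 160 (.leaf 4) (.leaf 4))) (.bis 1 5 1 1 157 (.bis 3 4 1 1 160 (.leaf 4) (.leaf 4))
  (.bis 1 3 2 1 162 (.bis 3 4 1 1 160 (.bis 0 4 2 1 154 (.leaf 4) (.leaf 4)) (.bis 0 3 2 1 114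
  (.leaf 4) (.leaf 4))) (.bis 0 1 1 1 147 (.leaf 49) (.leaf 4)))))))) (.bis 3 4 1 1 98 (.bis 1 4
  1 2 151 (.bis 2 4 1 2 247 (.bis 4 6 4 1 103 (.bis 0 2 2 1 250 (.bis 3 6 2 1 101 (.bis 2 6 1 1
  253 (.leaf 4) (.leaf 16)) (.leaf 39)) (.bis 3 6 2 1 101 (.bis 1 6 1 1 160 (.bis 0 4 4 1 106
  (.leaf 4) (.leaf 4)) (.bis 0 4 4 1 106 (.leaf 4) (.leaf 4))) (.bis 0 3 1 1 102 (.leaf 39)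
  (.leaf 4)))) (.bis 0 4 1 2 87 (.bis 4 5 2 1 88 (.leaf 39) (.bis 3 4 1 2 104 (.bis 1 4 1 4 152
  (.bis 2 4 1 4 249 (.bis 4 6 8 1 105 (.leaf 32) (.leaf 32)) (.leaf 32)) (.leaf 32)) (.leaf 39)))
  (.bis 0 2 2 1 250 (.leaf 39) (.bis 0 3 1 1 102 (.leaf 39) (.leaf 4))))) (.bis 2 3 1 1 254 (.bis
  0 4 2 1 250 (.bis 3 6 2 1 101 (.bis 4 6 1 1 253 (.leaf 4) (.leaf 16)) (.leaf 39)) (.bis 3 6 2 1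
  101 (.leaf 4) (.bis 0 3 1 1 102 (.leaf 39) (.leaf 4)))) (.bis 0 2 1 1 241 (.bis 1 2 1 2 251
  (.bis 2 5 1 1 239 (.bis 4 6 1 1 253 (.leaf 4) (.leaf 16)) (.bis 4 6 1 1 253 (.bis 2 6 2 1 252
  (.leaf 4) (.leaf 3)) (.leaf 58))) (.bis 4 6 1 1 253 (.leaf 4) (.leaf 16))) (.bis 0 4 2 1 250
  (.bis 4 6 1 1 253 (.leaf 4) (.leaf 16)) (.bis 1 6 1 1 160 (.leaf 4) (.leaf 4)))))) (.bis 2 3 1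
  1 254 (.bis 1 3 1 1 161 (.bis 3 6 2 1 101 (.bis 4 6 1 1 160 (.bis 0 6 2 1 114 (.leaf 4) (.leaf
  4)) (.bis 0 4 2 1 154 (.leaf 4) (.leaf 4))) (.bis 0 3 1 1 102 (.leaf 39) (.leaf 4))) (.bis 1 5
  1 1 157 (.bis 4 6 1 1 160 (.leaf 4) (.leaf 4)) (.bis 1 6 2 1 162 (.bis 4 6 1 1 160 (.leaf 4)
  (.leaf 4)) (.leaf 49)))) (.bis 1 2 1 1 246 (.bis 0 2 1 1 241 (.bis 2 4 2 1 251 (.bis 4 6 1 1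
  160 (.leaf 4) (.leaf 4)) (.bis 2 5 1 1 239 (.bis 1 5 1 2 255 (.leaf 4) (.bis 1 6 1 1 256 (.leaf
  4) (.leaf 3))) (.bis 2 6 2 1 252 (.leaf 4) (.leaf 3)))) (.bis 4 6 1 1 160 (.leaf 4) (.leaf 4)))
  (.bis 1 5 1 1 157 (.bis 4 6 1 1 160 (.leaf 4) (.leaf 4)) (.bis 1 6 2 1 162 (.leaf 4) (.leaf
  49)))))) (.bis 2 3 1 2 257 (.bis 1 3 1 2 163 (.bis 0 3 1 2 109 (.bis 3 6 4 1 111 (.bis 4 6 2 1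
  101 (.leaf 31) (.leaf 48)) (.bis 3 5 2 1 112 (.leaf 48) (.bis 3 4 2 1 113 (.leaf 48) (.leaf
  93)))) (.bis 4 6 2 1 101 (.bis 0 6 2 1 114 (.leaf 31) (.leaf 31)) (.bis 0 4 1 1 102 (.leaf 48)
  (.leaf 31)))) (.bis 1 4 1 1 161 (.bis 4 6 2 1 101 (.bis 0 6 2 1 114 (.leaf 31) (.leaf 31))
  (.bis 0 4 1 1 102 (.leaf 48) (.leaf 31))) (.bis 1 5 1 1 157 (.bis 0 6 2 1 114 (.leaf 31) (.leaf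
  31)) (.bis 1 6 2 1 162 (.bis 0 6 2 1 114 (.leaf 31) (.leaf 31)) (.bis 0 1 1 1 147 (.leaf 85)
  (.leaf 31)))))) (.bis 2 4 1 1 254 (.bis 1 4 1 1 161 (.bis 4 6 2 1 101 (.bis 0 6 2 1 114 (.leaf
  4) (.leaf 4)) (.bis 0 4 1 1 102 (.leaf 48) (.leaf 4))) (.bis 1 5 1 1 157 (.leaf 4) (.bis 1 6 2
  1 162 (.leaf 4) (.bis 1 2 2 1 258 (.leaf 4) (.leaf 49))))) (.bis 1 2 1 1 246 (.bis 0 2 1 1 241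
  (.bis 2 5 1 1 239 (.leaf 4) (.bis 2 6 2 1 252 (.leaf 4) (.leaf 86))) (.leaf 4)) (.bis 1 5 1 1
  157 (.leaf 4) (.bis 1 6 2 1 162 (.bis 0 6 2 1 114 (.leaf 4) (.leaf 4)) (.leaf 49)))))))))

def lc7 : List Vr := [⟨[56,0,0,73,0,0,0], 125028, 0⟩, ⟨[0,73,0,73,0,0,0], 127896, 0⟩, ⟨[0,0,85,0,
  0,42,0], 128523, 0⟩, ⟨[0,0,0,73,0,0,0], 21316, 0⟩, ⟨[0,0,0,0,56,0,0], 21952, 0⟩, ⟨[0,0,0,0,0,42,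
  0], 21168, 0⟩, ⟨[0,0,85,0,0,0,119], 143055, 0⟩]

theorem lk7 : chkTr lowT (leafLow 6 lowB) lt7 lc7 = true := by decide +kernel

end Pool.Agent.Helper10.Fam.A5
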