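import Pool.Agent.Helper10.FamD.A5UpT

set_option autoImplicit false
set_option maxRecDepth 1000000

/-!
# Certificate data for `U ⊕ A5` (upper bound, check of the vertices)
-/

namespace Pool.Agent.Helper10.Fam.A5

open Pool.Agent.Helper10.Fam

theorem vert_uV0 : uV0.all (upV dat 11150) = true := by decide +kernel

theorem vert_uV1 : uV1.all (upV dat 11150) = true := by decide +kernel

theorem vert_uV2 : uV2.all (upV dat 11150) = true := by decide +kernel

theorem vert_uV3 : uV3.all (upV dat 11150) = true := by decide +kernel

theorem verts_ok : upT.all (upV dat 11150) = true := (all_node (by decide +kernel) (all_node (by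
  decide +kernel) vert_uV0 vert_uV1) (all_node (by decide +kernel) vert_uV2 vert_uV3))

end Pool.Agent.Helper10.Fam.A5
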