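import Pool.Agent.Helper10.Fam.Fast

set_option autoImplicit false
set_option maxRecDepth 1000000

/-!
# Certificate data for `U ⊕ D5` (lattice data and cusps)
-/

namespace Pool.Agent.Helper10.Fam.D5

open Pool.Agent.Helper10.Fam

/-- lattice data -/
def dat : Dat := ⟨5, [[0,1,0,0,0,0,0], [1,0,1,0,0,1,0], [0,1,0,1,1,0,0], [0,0,
  1,0,0,0,0], [0,0,1,0,0,0,0], [0,1,0,0,0,0,1], [0,0,0,0,0,1,0]], [[4,12,12,6,6,8,4], [12,24,24,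
  12,12,16,8], [12,24,20,10,10,16,8], [6,12,10,3,5,8,4], [6,12,10,5,3,8,4], [8,16,16,8,8,8,4], [4,
  8,8,4,4,4,0]], 4, [1,2,2,1,1,1,0], 1500, [[1,2,2,1,1,1,0], [1,2,2,1,1,1,1], [1,2,2,1,1,2,1], [1,
  3,2,1,1,2,1], [2,3,2,1,1,2,1], [1,3,3,1,1,2,1], [2,3,3,1,1,2,1], [2,4,3,1,1,2,1], [1,3,3,2,1,2,
  1], [2,3,3,2,1,2,1], [2,4,3,2,1,2,1], [2,4,4,2,1,2,1], [1,3,3,1,2,2,1], [2,3,3,1,2,2,1], [2,4,3,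
  1,2,2,1], [2,4,4,1,2,2,1], [1,3,3,2,2,2,1], [2,3,3,2,2,2,1], [2,4,3,2,2,2,1], [1,3,4,2,2,2,1],
  [2,3,4,2,2,2,1], [1,4,4,2,2,2,1], [3,4,4,2,2,2,1], [2,5,4,2,2,2,1], [3,5,4,2,2,2,1], [2,4,5,2,2,
  2,1], [2,5,5,2,2,2,1], [3,5,5,2,2,2,1], [2,4,4,3,2,2,1], [2,4,5,3,2,2,1], [2,5,5,3,2,2,1], [3,5,
  5,3,2,2,1], [2,4,4,2,3,2,1], [2,4,5,2,3,2,1], [2,5,5,2,3,2,1], [3,5,5,2,3,2,1], [2,4,5,3,3,2,1],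
   [2,5,5,3,3,2,1], [3,5,5,3,3,2,1], [2,5,6,3,3,2,1], [3,5,6,3,3,2,1], [3,6,6,3,3,2,1], [2,4,3,1,
  1,3,1], [2,4,3,2,1,3,1], [2,4,4,2,1,3,1], [2,5,4,2,1,3,1], [3,5,4,2,1,3,1], [2,4,3,1,2,3,1], [2,
  4,4,1,2,3,1], [2,5,4,1,2,3,1], [3,5,4,1,2,3,1], [2,4,3,2,2,3,1], [1,4,4,2,2,3,1], [2,4,3,1,1,3,
  2], [2,4,3,2,1,3,2], [2,4,4,2,1,3,2], [2,5,4,2,1,3,2], [3,5,4,2,1,3,2], [2,4,3,1,2,3,2], [2,4,4,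
  1,2,3,2], [2,5,4,1,2,3,2], [3,5,4,1,2,3,2], [2,4,3,2,2,3,2], [1,4,4,2,2,3,2], [2,5,4,2,1,4,2],
  [3,5,4,2,1,4,2], [3,6,4,2,1,4,2], [3,6,5,2,1,4,2], [3,6,5,3,1,4,2], [2,5,4,1,2,4,2], [3,5,4,1,2,
  4,2], [3,6,4,1,2,4,2], [3,6,5,1,2,4,2], [3,6,5,1,3,4,2]]⟩

/-- exclusion vectors -/
def ex : List (List ℕ) := [[200000,400000,400000,200000,200000,249999,
  100000]]

/-- table of cusps -/
def cT : BT (List ℕ) := (.node [1,2,2,1,1,1,0] (.node [1,2,2,1,1,1,1]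
  (.node [1,3,2,1,1,2,1] (.node [2,4,3,1,1,2,1] (.node [2,4,4,1,2,2,1] (.node [3,5,5,3,2,2,1]
  (.node [1,4,4,2,2,3,2] .nil .nil) .nil) (.node [2,4,3,1,2,3,1] .nil .nil)) (.node [2,5,4,2,2,2,
  1] (.node [2,5,6,3,3,2,1] (.node [3,6,4,1,2,4,2] .nil .nil) .nil) (.node [2,4,4,2,1,3,2] .nil
  .nil))) (.node [2,4,4,2,1,2,1] (.node [1,3,4,2,2,2,1] (.node [3,5,5,2,3,2,1] (.node [3,6,5,2,1,
  4,2] .nil .nil) .nil) (.node [2,4,3,2,2,3,1] .nil .nil)) (.node [3,5,5,2,2,2,1] (.node [2,4,3,2,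
  1,3,1] .nil .nil) (.node [2,4,4,1,2,3,2] .nil .nil)))) (.node [1,3,3,1,1,2,1] (.node [2,3,3,2,1,
  2,1] (.node [2,3,3,2,2,2,1] (.node [2,4,5,2,3,2,1] (.node [3,5,4,2,1,4,2] .nil .nil) .nil)
  (.node [2,5,4,1,2,3,1] .nil .nil)) (.node [2,4,5,2,2,2,1] (.node [3,6,6,3,3,2,1] (.node [3,6,5,
  1,3,4,2] .nil .nil) .nil) (.node [3,5,4,2,1,3,2] .nil .nil))) (.node [2,3,3,1,2,2,1] (.node [1,
  4,4,2,2,2,1] (.node [2,5,5,3,3,2,1] (.node [2,5,4,1,2,4,2] .nil .nil) .nil) (.node [2,4,3,1,1,3,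
  2] .nil .nil)) (.node [2,4,5,3,2,2,1] (.node [2,5,4,2,1,3,1] .nil .nil) (.node [3,5,4,1,2,3,2]
  .nil .nil))))) (.node [1,2,2,1,1,2,1] (.node [2,3,2,1,1,2,1] (.node [1,3,3,2,1,2,1] (.node [1,3,
  3,2,2,2,1] (.node [2,4,4,2,3,2,1] (.node [2,5,4,2,1,4,2] .nil .nil) .nil) (.node [2,4,4,1,2,3,
  1] .nil .nil)) (.node [3,5,4,2,2,2,1] (.node [3,5,6,3,3,2,1] (.node [3,6,5,1,2,4,2] .nil .nil)
  .nil) (.node [2,5,4,2,1,3,2] .nil .nil))) (.node [1,3,3,1,2,2,1] (.node [2,3,4,2,2,2,1] (.node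
  [2,4,5,3,3,2,1] (.node [3,6,5,3,1,4,2] .nil .nil) .nil) (.node [1,4,4,2,2,3,1] .nil .nil))
  (.node [2,4,4,3,2,2,1] (.node [2,4,4,2,1,3,1] .nil .nil) (.node [2,5,4,1,2,3,2] .nil .nil))))
  (.node [2,3,3,1,1,2,1] (.node [2,4,3,2,1,2,1] (.node [2,4,3,2,2,2,1] (.node [2,5,5,2,3,2,1]
  (.node [3,6,4,2,1,4,2] .nil .nil) .nil) (.node [3,5,4,1,2,3,1] .nil .nil)) (.node [2,5,5,2,2,2,
  1] (.node [2,4,3,1,1,3,1] .nil .nil) (.node [2,4,3,1,2,3,2] .nil .nil))) (.node [2,4,3,1,2,2,1]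
  (.node [3,4,4,2,2,2,1] (.node [3,5,5,3,3,2,1] (.node [3,5,4,1,2,4,2] .nil .nil) .nil) (.node [2,
  4,3,2,1,3,2] .nil .nil)) (.node [2,5,5,3,2,2,1] (.node [3,5,4,2,1,3,1] .nil .nil) (.node [2,4,3,
  2,2,3,2] .nil .nil))))))

/-- indices of reflected cusps -/
def cK : List (List ℕ) := [[0,0,0,0,0,0,2], [0,0,0,0,0,3,1], [0,
  4,0,0,0,2,0], [5,3,6,0,0,0,0], [4,0,7,0,0,0,0], [7,0,4,9,13,0,0], [6,8,5,10,14,0,0], [0,7,0,11,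
  15,43,0], [10,0,0,6,17,0,0], [9,11,0,7,18,0,0], [0,10,12,8,19,44,0], [0,0,11,0,33,45,0], [14,0,
  0,17,6,0,0], [13,15,0,18,7,0,0], [0,14,16,19,8,48,0], [0,0,15,29,0,49,0], [18,0,20,13,9,0,0],
  [17,19,21,14,10,0,0], [0,18,26,15,11,52,0], [21,22,17,0,0,0,0], [20,24,18,0,0,0,0], [23,20,0,0,
  0,53,0], [22,25,0,0,0,0,0], [25,21,27,0,0,0,0], [24,23,28,0,0,0,0], [0,27,19,30,34,0,0], [28,26,
  24,31,35,0,0], [27,0,25,32,36,0,0], [0,0,30,16,0,0,0], [0,31,29,26,37,0,0], [32,30,0,27,38,0,0],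
   [31,0,0,28,39,0,0], [0,0,34,0,12,0,0], [0,35,33,37,26,0,0], [36,34,0,38,27,0,0], [35,0,0,39,28,
  0,0], [0,38,0,34,30,0,0], [39,37,40,35,31,0,0], [38,0,41,36,32,0,0], [41,0,38,0,0,0,0], [40,42,
  39,0,0,0,0], [0,41,0,0,0,0,0], [0,0,0,44,48,8,54], [0,0,45,43,52,11,55], [0,46,44,0,0,12,56],
  [47,45,0,0,0,0,57], [46,0,0,0,0,0,58], [0,0,49,52,43,15,59], [0,50,48,0,0,16,60], [51,49,0,0,0,
  0,61], [50,0,0,0,0,0,62], [0,0,0,48,44,19,63], [0,0,0,0,0,22,64], [0,0,0,55,59,0,43], [0,0,56,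
  54,63,0,44], [0,57,55,0,0,0,45], [58,56,0,0,0,65,46], [57,0,0,0,0,66,47], [0,0,60,63,54,0,48],
  [0,61,59,0,0,0,49], [62,60,0,0,0,70,50], [61,0,0,0,0,71,51], [0,0,0,59,55,0,52], [0,0,0,0,0,0,
  53], [66,0,0,0,0,57,0], [65,67,0,0,0,58,0], [0,66,68,0,0,0,0], [0,0,67,69,0,0,0], [0,0,0,68,0,0,
  0], [71,0,0,0,0,61,0], [70,72,0,0,0,62,0], [0,71,73,0,0,0,0], [0,0,72,0,74,0,0], [0,0,0,0,73,0,
  0]]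

theorem cusps_fast : fastCusps dat ex cT 74 cK = true := by decide +kernel

end Pool.Agent.Helper10.Fam.D5
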