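import Pool.Agent.Helper10.FamD.D5LowT

set_option autoImplicit false
set_option maxRecDepth 1000000

/-!
# Certificate data for `U ⊕ D5` (lower bound, subtrees)
-/

namespace Pool.Agent.Helper10.Fam.D5

open Pool.Agent.Helper10.Fam

def lt0 : Tr ℕ := (.bis 0 6 1 53 10 (.bis 2 6 1 41 11 (.bis 1 6 1 31 12 (.bis 5 6 1 16 13 (.leaf
  1) (.bis 3 5 1 2 14 (.bis 4 5 1 2 15 (.bis 0 5 1 2 16 (.bis 2 5 1 2 17 (.bis 1 5 1 1 18 (.bis 3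
  5 1 4 19 (.leaf 32) (.leaf 32)) (.leaf 32)) (.leaf 66)) (.leaf 66)) (.leaf 66)) (.leaf 66)))
  (.bis 3 5 1 2 14 (.bis 4 5 1 2 15 (.bis 0 5 1 2 16 (.bis 2 5 1 2 17 (.bis 1 5 1 1 20 (.bis 5 6
  1 1 18 (.leaf 3) (.bis 3 5 1 4 19 (.leaf 32) (.leaf 19))) (.bis 1 3 4 1 21 (.leaf 3) (.bis 1 4
  4 1 22 (.leaf 3) (.bis 0 1 1 4 23 (.leaf 59) (.leaf 3))))) (.bis 1 3 4 1 21 (.leaf 3) (.bis 1 4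
  4 1 22 (.leaf 3) (.bis 1 2 2 1 24 (.leaf 3) (.bis 0 1 1 4 23 (.leaf 59) (.leaf 3)))))) (.bis 0
  1 1 2 25 (.bis 1 3 4 1 21 (.leaf 3) (.bis 1 4 4 1 22 (.leaf 3) (.bis 1 2 2 1 24 (.leaf 3) (.bis
  1 5 4 1 23 (.leaf 3) (.leaf 10))))) (.leaf 35))) (.bis 1 4 2 1 26 (.bis 0 4 1 1 27 (.leaf 22)
  (.leaf 35)) (.bis 0 1 1 2 25 (.bis 1 3 4 1 21 (.leaf 3) (.bis 1 5 4 1 22 (.leaf 3) (.bis 1 2 2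
  1 24 (.leaf 3) (.leaf 10)))) (.leaf 35)))) (.bis 1 3 2 1 28 (.bis 0 3 1 1 29 (.bis 3 4 1 1 30
  (.leaf 22) (.leaf 22)) (.bis 0 4 1 1 27 (.leaf 22) (.leaf 35))) (.bis 1 4 2 1 26 (.bis 0 4 1 1
  27 (.leaf 22) (.leaf 35)) (.bis 0 1 1 2 25 (.bis 1 5 4 1 21 (.leaf 3) (.bis 1 2 2 1 24 (.leaf
  3) (.leaf 10))) (.leaf 35)))))) (.bis 0 2 1 2 31 (.bis 3 5 1 2 14 (.bis 4 5 1 2 15 (.bis 2 5 1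
  1 32 (.bis 5 6 2 1 17 (.bis 1 3 4 1 21 (.leaf 3) (.bis 1 4 4 1 22 (.leaf 3) (.bis 1 6 2 1 24
  (.leaf 3) (.leaf 59)))) (.bis 0 5 1 4 33 (.bis 1 5 1 1 20 (.leaf 32) (.bis 1 3 4 1 21 (.leaf 3)
  (.bis 1 4 4 1 22 (.leaf 3) (.bis 1 6 4 1 34 (.leaf 3) (.leaf 10))))) (.bis 1 3 4 1 21 (.leaf 3)
  (.bis 1 4 4 1 22 (.leaf 3) (.bis 1 6 4 1 34 (.leaf 3) (.leaf 10)))))) (.bis 2 3 4 1 35 (.bis 1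
  3 4 1 21 (.leaf 3) (.bis 1 4 4 1 22 (.leaf 3) (.bis 1 6 2 1 24 (.leaf 3) (.leaf 2)))) (.bis 2 4
  4 1 36 (.bis 1 4 4 1 22 (.leaf 3) (.bis 1 6 2 1 24 (.leaf 3) (.bis 1 2 8 1 37 (.leaf 2) (.leaf
  2)))) (.bis 1 6 2 1 24 (.bis 2 6 2 1 38 (.leaf 62) (.bis 2 5 2 1 39 (.leaf 26) (.bis 1 2 1 4 40
  (.leaf 26) (.leaf 26)))) (.bis 1 2 1 1 41 (.bis 2 5 2 1 39 (.leaf 2) (.bis 2 6 4 1 40 (.leaf 2)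
  (.leaf 26))) (.leaf 2)))))) (.bis 1 4 2 1 26 (.bis 2 4 2 1 42 (.bis 3 4 1 2 43 (.bis 0 4 1 2 44
  (.leaf 22) (.leaf 7)) (.bis 2 3 1 1 45 (.bis 0 3 1 1 46 (.leaf 3) (.leaf 3)) (.leaf 7))) (.bis
  2 3 4 1 35 (.leaf 7) (.bis 2 5 4 1 36 (.leaf 7) (.bis 1 2 1 4 47 (.bis 2 6 2 1 38 (.leaf 7)
  (.bis 0 2 1 4 48 (.leaf 4) (.leaf 62))) (.leaf 7))))) (.bis 2 3 4 1 35 (.bis 1 3 4 1 21 (.leaf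
  3) (.bis 1 5 4 1 22 (.leaf 3) (.bis 1 6 2 1 24 (.leaf 3) (.leaf 2)))) (.bis 2 5 4 1 36 (.bis 1
  5 4 1 22 (.leaf 3) (.bis 1 6 2 1 24 (.leaf 3) (.bis 1 2 8 1 37 (.leaf 2) (.leaf 2)))) (.bis 1 6
  2 1 24 (.bis 2 4 4 1 47 (.leaf 7) (.bis 2 6 2 1 38 (.leaf 7) (.bis 1 2 1 4 40 (.bis 0 2 1 4 48
  (.leaf 4) (.leaf 26)) (.leaf 26)))) (.bis 1 2 1 1 41 (.bis 2 4 4 1 47 (.leaf 2) (.bis 2 6 4 1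
  40 (.leaf 2) (.bis 0 2 1 4 48 (.leaf 4) (.leaf 2)))) (.leaf 2))))))) (.bis 1 3 2 1 28 (.bis 2 3
  2 1 49 (.bis 3 4 1 1 30 (.bis 4 5 2 1 43 (.bis 0 3 1 1 50 (.leaf 7) (.leaf 7)) (.bis 0 4 1 2 44
  (.bis 1 4 1 2 51 (.bis 2 4 1 2 52 (.leaf 22) (.bis 2 5 2 1 53 (.leaf 7) (.leaf 7))) (.leaf 7))
  (.leaf 7))) (.bis 0 3 1 2 54 (.leaf 22) (.bis 0 4 1 1 50 (.leaf 7) (.leaf 7)))) (.bis 2 4 2 1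
  42 (.bis 4 5 2 1 43 (.leaf 7) (.leaf 22)) (.bis 2 5 4 1 35 (.leaf 7) (.bis 1 2 1 4 55 (.bis 2 6
  2 1 38 (.leaf 7) (.bis 0 2 1 4 48 (.leaf 4) (.leaf 62))) (.leaf 7))))) (.bis 1 4 2 1 26 (.bis 2
  4 2 1 42 (.leaf 22) (.bis 2 5 4 1 35 (.leaf 7) (.bis 1 2 1 4 47 (.bis 2 3 4 1 55 (.leaf 7)
  (.bis 2 6 2 1 38 (.leaf 7) (.bis 0 2 1 4 48 (.leaf 4) (.leaf 62)))) (.leaf 7)))) (.bis 2 5 4 1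
  35 (.bis 1 5 4 1 21 (.leaf 3) (.bis 1 6 2 1 24 (.leaf 3) (.bis 1 2 8 1 56 (.leaf 2) (.leaf
  2)))) (.bis 1 6 2 1 24 (.bis 2 3 4 1 55 (.leaf 7) (.bis 2 4 4 1 47 (.leaf 7) (.bis 2 6 2 1 38
  (.leaf 7) (.bis 1 2 1 4 40 (.leaf 26) (.leaf 26))))) (.bis 1 2 1 1 41 (.bis 2 3 4 1 55 (.leaf
  2) (.bis 2 4 4 1 47 (.leaf 2) (.bis 2 6 4 1 40 (.leaf 2) (.leaf 26)))) (.leaf 2))))))) (.bis 3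
  5 1 2 14 (.bis 4 5 1 2 15 (.bis 0 5 1 2 16 (.bis 5 6 2 1 17 (.bis 1 3 4 1 21 (.bis 0 6 1 2 57
  (.bis 2 3 1 1 46 (.leaf 3) (.leaf 3)) (.bis 2 3 1 1 46 (.leaf 3) (.leaf 3))) (.bis 1 4 4 1 22
  (.leaf 3) (.bis 1 6 2 1 24 (.leaf 3) (.bis 0 1 1 4 23 (.leaf 59) (.leaf 3))))) (.bis 2 5 1 4 33
  (.bis 1 5 1 1 20 (.bis 3 5 1 4 19 (.leaf 32) (.leaf 19)) (.bis 1 3 4 1 21 (.leaf 3) (.bis 1 4 4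
  1 22 (.leaf 3) (.bis 0 1 1 4 23 (.bis 1 6 4 1 34 (.leaf 3) (.leaf 10)) (.leaf 3))))) (.bis 1 3
  4 1 21 (.bis 2 3 1 1 46 (.leaf 3) (.leaf 3)) (.bis 1 4 4 1 22 (.leaf 3) (.bis 0 1 1 4 23 (.bis
  1 6 4 1 34 (.leaf 3) (.leaf 10)) (.leaf 3)))))) (.bis 0 1 1 2 25 (.bis 1 3 4 1 21 (.leaf 3)
  (.bis 1 4 4 1 22 (.leaf 3) (.bis 1 6 2 1 24 (.leaf 3) (.leaf 10)))) (.leaf 35))) (.bis 1 4 2 1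
  26 (.bis 0 4 1 1 27 (.bis 3 4 1 2 43 (.bis 2 4 1 2 44 (.leaf 22) (.bis 2 5 1 1 58 (.leaf 3)
  (.leaf 3))) (.bis 0 3 1 1 59 (.bis 2 3 1 1 46 (.leaf 3) (.bis 2 5 1 1 58 (.leaf 3) (.leaf 3)))
  (.bis 2 5 1 1 58 (.leaf 3) (.bis 2 4 2 1 60 (.leaf 3) (.leaf 3))))) (.bis 0 3 2 1 61 (.bis 3 4
  1 1 59 (.bis 2 5 1 1 58 (.leaf 3) (.leaf 3)) (.bis 2 3 1 1 46 (.leaf 3) (.leaf 3))) (.bis 0 5 2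
  1 62 (.bis 2 5 1 1 58 (.leaf 3) (.leaf 3)) (.bis 0 6 1 1 63 (.leaf 3) (.bis 0 1 2 1 64 (.leaf
  3) (.bis 0 2 2 1 65 (.leaf 3) (.leaf 35))))))) (.bis 0 1 1 2 25 (.bis 1 3 4 1 21 (.leaf 3)
  (.bis 1 5 4 1 22 (.leaf 3) (.bis 1 6 2 1 24 (.leaf 3) (.leaf 10)))) (.leaf 35)))) (.bis 1 3 2 1
  28 (.bis 0 3 1 1 29 (.bis 3 4 1 1 30 (.bis 4 5 2 1 43 (.bis 2 3 1 1 50 (.leaf 7) (.bis 2 5 1 1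
  46 (.leaf 7) (.leaf 7))) (.bis 2 4 1 2 44 (.leaf 22) (.bis 2 3 1 1 50 (.leaf 7) (.leaf 7))))
  (.bis 2 3 1 2 54 (.leaf 22) (.bis 2 4 1 1 50 (.leaf 7) (.leaf 7)))) (.bis 0 4 1 1 27 (.bis 4 5
  2 1 43 (.bis 0 5 1 1 59 (.bis 2 5 1 1 46 (.leaf 7) (.bis 2 4 2 1 60 (.leaf 7) (.leaf 7))) (.bis
  0 1 1 1 66 (.bis 2 4 2 1 60 (.leaf 7) (.leaf 7)) (.bis 2 4 2 1 60 (.leaf 7) (.bis 0 2 1 1 67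
  (.leaf 7) (.leaf 7))))) (.bis 2 4 1 2 44 (.bis 1 4 1 2 51 (.leaf 22) (.leaf 7)) (.bis 0 1 1 1
  66 (.leaf 7) (.bis 2 5 2 1 60 (.leaf 7) (.leaf 7))))) (.bis 0 5 2 1 61 (.bis 4 5 1 1 59 (.bis 2
  5 1 1 46 (.leaf 7) (.leaf 7)) (.bis 1 4 1 1 66 (.bis 2 3 1 1 68 (.leaf 7) (.bis 2 4 1 1 67
  (.leaf 3) (.leaf 3))) (.bis 2 3 1 1 68 (.leaf 7) (.leaf 3)))) (.bis 0 6 1 1 63 (.bis 1 4 1 1 66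
  (.bis 2 3 1 1 68 (.leaf 7) (.leaf 3)) (.leaf 7)) (.bis 0 1 2 1 69 (.leaf 7) (.bis 0 2 2 1 65
  (.bis 2 3 1 1 68 (.leaf 7) (.leaf 3)) (.leaf 35))))))) (.bis 1 4 2 1 26 (.bis 0 4 1 1 27 (.bis
  4 5 2 1 43 (.bis 0 5 1 1 59 (.bis 2 5 1 1 46 (.leaf 3) (.leaf 3)) (.bis 0 3 1 1 66 (.leaf 3)
  (.bis 2 4 2 1 60 (.leaf 3) (.leaf 3)))) (.bis 2 4 1 2 44 (.bis 3 4 1 2 51 (.leaf 22) (.leaf 3))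
  (.leaf 3))) (.leaf 35)) (.bis 0 1 1 2 25 (.bis 1 5 4 1 21 (.leaf 3) (.bis 1 6 2 1 24 (.leaf 3)
  (.leaf 10))) (.leaf 35))))))) (.bis 0 3 2 1 70 (.bis 2 6 2 1 31 (.bis 3 5 1 2 14 (.bis 4 5 1 2
  15 (.bis 5 6 2 1 16 (.bis 1 6 2 1 25 (.leaf 35) (.bis 0 4 1 1 71 (.bis 1 3 4 1 21 (.leaf 3)
  (.bis 1 4 4 1 22 (.leaf 3) (.bis 1 5 4 1 23 (.leaf 3) (.leaf 10)))) (.bis 1 3 4 1 21 (.leaf 3)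
  (.bis 1 5 4 1 23 (.leaf 3) (.bis 0 1 1 4 72 (.leaf 10) (.leaf 3)))))) (.bis 0 5 1 4 73 (.bis 2
  5 1 4 33 (.bis 1 5 1 1 20 (.bis 3 5 1 4 19 (.leaf 32) (.leaf 19)) (.bis 1 3 4 1 21 (.leaf 3)
  (.bis 1 4 4 1 22 (.leaf 3) (.bis 1 6 4 1 23 (.leaf 3) (.leaf 10))))) (.bis 1 3 4 1 21 (.leaf 3)
  (.bis 1 4 4 1 22 (.leaf 3) (.bis 1 6 4 1 23 (.leaf 3) (.leaf 10))))) (.bis 0 4 1 1 71 (.bis 1 3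
  4 1 21 (.leaf 3) (.bis 1 4 4 1 22 (.leaf 3) (.bis 1 6 4 1 23 (.leaf 3) (.bis 0 1 1 8 74 (.leaf
  10) (.leaf 3))))) (.bis 1 3 4 1 21 (.leaf 3) (.bis 1 6 4 1 23 (.leaf 3) (.bis 0 1 1 4 72 (.bis
  1 4 8 1 74 (.leaf 3) (.leaf 10)) (.leaf 3))))))) (.bis 1 4 2 1 26 (.bis 4 6 1 1 27 (.bis 3 6 1
  2 61 (.leaf 35) (.bis 0 5 1 1 71 (.bis 3 4 1 1 59 (.bis 2 5 1 1 58 (.leaf 3) (.leaf 3)) (.bis 2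
  3 1 1 46 (.leaf 3) (.leaf 3))) (.leaf 3))) (.bis 0 4 1 2 75 (.bis 3 4 1 2 43 (.bis 2 4 1 2 44
  (.leaf 22) (.bis 2 5 1 1 58 (.leaf 3) (.leaf 3))) (.bis 3 6 1 1 59 (.bis 2 5 1 1 58 (.leaf 3)
  (.bis 2 4 2 1 60 (.leaf 3) (.leaf 3))) (.bis 2 3 1 1 46 (.leaf 3) (.bis 2 5 1 1 58 (.leaf 3)
  (.leaf 3))))) (.bis 0 5 1 1 71 (.leaf 3) (.leaf 3)))) (.bis 1 6 2 1 25 (.leaf 35) (.bis 0 5 1 1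
  71 (.bis 1 3 4 1 21 (.leaf 3) (.bis 1 5 4 1 22 (.leaf 3) (.bis 0 1 1 8 74 (.leaf 10) (.leaf
  3)))) (.bis 1 3 4 1 21 (.leaf 3) (.bis 0 1 1 4 72 (.leaf 10) (.leaf 3))))))) (.bis 1 3 2 1 28
  (.bis 3 6 1 1 29 (.bis 4 6 1 1 27 (.leaf 35) (.bis 0 4 1 2 75 (.bis 4 5 2 1 43 (.bis 5 6 1 1 59
  (.bis 1 6 1 1 66 (.bis 2 4 2 1 60 (.leaf 7) (.bis 2 3 1 1 68 (.leaf 7) (.leaf 3))) (.bis 2 4 2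
  1 60 (.leaf 7) (.leaf 7))) (.bis 2 5 1 1 46 (.leaf 7) (.leaf 7))) (.bis 2 4 1 2 44 (.bis 1 4 1
  2 51 (.leaf 22) (.leaf 7)) (.bis 1 6 1 1 66 (.bis 2 5 2 1 60 (.leaf 7) (.leaf 7)) (.leaf 7))))
  (.leaf 35))) (.bis 0 4 1 2 75 (.bis 3 4 1 1 30 (.bis 4 5 2 1 43 (.bis 2 3 1 1 50 (.leaf 7)
  (.bis 2 5 1 1 46 (.leaf 7) (.leaf 7))) (.bis 2 4 1 2 44 (.leaf 22) (.bis 2 3 1 1 50 (.leaf 7)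
  (.leaf 7)))) (.bis 2 3 1 2 54 (.leaf 22) (.bis 2 4 1 1 50 (.leaf 7) (.leaf 7)))) (.bis 2 3 1 2
  54 (.bis 0 3 1 2 76 (.leaf 22) (.leaf 33)) (.leaf 33)))) (.bis 1 4 2 1 26 (.bis 4 6 1 1 27
  (.leaf 35) (.bis 0 4 1 2 75 (.bis 4 5 2 1 43 (.leaf 3) (.bis 2 4 1 2 44 (.bis 3 4 1 2 51 (.leaf
  22) (.leaf 3)) (.leaf 3))) (.leaf 3))) (.bis 1 6 2 1 25 (.leaf 35) (.bis 1 5 4 1 21 (.leaf 3)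
  (.bis 0 1 1 4 72 (.leaf 10) (.leaf 3))))))) (.bis 3 5 1 2 14 (.bis 4 5 1 2 15 (.bis 2 5 1 1 32
  (.bis 0 5 1 4 73 (.bis 5 6 4 1 33 (.bis 1 3 4 1 21 (.leaf 3) (.bis 1 4 4 1 22 (.leaf 3) (.bis 0
  1 1 8 77 (.leaf 10) (.leaf 3)))) (.bis 1 5 1 1 20 (.bis 3 5 1 4 19 (.leaf 32) (.leaf 19)) (.bis
  1 3 4 1 21 (.leaf 3) (.bis 1 4 4 1 22 (.leaf 3) (.bis 0 1 1 8 77 (.leaf 10) (.leaf 3))))))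
  (.bis 0 4 1 1 71 (.bis 1 3 4 1 21 (.leaf 3) (.bis 1 4 4 1 22 (.leaf 3) (.bis 0 1 1 8 74 (.leaf
  10) (.leaf 3)))) (.bis 1 3 4 1 21 (.leaf 3) (.bis 0 2 1 2 78 (.bis 1 4 8 1 74 (.leaf 3) (.leaf
  10)) (.bis 0 1 1 4 72 (.bis 1 4 8 1 74 (.leaf 3) (.leaf 10)) (.leaf 3)))))) (.bis 2 3 4 1 35
  (.bis 0 4 1 1 71 (.bis 1 3 4 1 21 (.leaf 3) (.bis 1 4 4 1 22 (.leaf 3) (.bis 0 1 1 8 74 (.leaf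
  2) (.leaf 2)))) (.bis 1 3 4 1 21 (.bis 0 5 1 2 78 (.leaf 3) (.leaf 3)) (.bis 0 5 1 2 78 (.bis 1
  4 8 1 74 (.leaf 2) (.leaf 2)) (.bis 0 1 1 4 72 (.bis 1 4 8 1 74 (.leaf 2) (.leaf 2)) (.leaf
  3))))) (.bis 2 4 4 1 36 (.bis 0 4 1 1 71 (.bis 1 4 4 1 22 (.leaf 3) (.bis 0 1 1 8 74 (.leaf 2)
  (.leaf 2))) (.bis 0 5 1 2 78 (.bis 1 4 8 1 74 (.leaf 2) (.bis 1 2 8 1 37 (.leaf 2) (.leaf 2)))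
  (.bis 0 1 1 4 72 (.bis 1 4 8 1 74 (.leaf 2) (.leaf 2)) (.leaf 3)))) (.bis 0 2 1 4 79 (.bis 1 2
  1 1 41 (.bis 2 5 2 1 39 (.leaf 2) (.bis 2 6 4 1 48 (.leaf 2) (.leaf 4))) (.bis 1 3 8 1 56
  (.leaf 2) (.leaf 2))) (.bis 0 5 1 2 78 (.bis 1 3 8 1 56 (.leaf 2) (.bis 1 4 8 1 37 (.leaf 2)
  (.leaf 2))) (.bis 0 1 1 4 72 (.bis 1 3 8 1 56 (.leaf 2) (.leaf 2)) (.leaf 3))))))) (.bis 1 4 2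
  1 26 (.bis 2 4 2 1 42 (.bis 0 4 1 2 75 (.bis 3 4 1 2 43 (.bis 4 6 2 1 44 (.leaf 7) (.leaf 22))
  (.bis 2 3 1 1 45 (.bis 3 6 1 1 46 (.leaf 3) (.leaf 3)) (.leaf 7))) (.bis 0 5 1 1 71 (.leaf 7)
  (.leaf 77))) (.bis 2 3 4 1 35 (.bis 0 5 1 1 71 (.leaf 7) (.bis 0 4 1 1 80 (.leaf 7) (.leaf 3)))
  (.bis 2 5 4 1 36 (.bis 0 5 1 1 71 (.leaf 7) (.bis 0 4 1 1 80 (.leaf 7) (.leaf 3))) (.bis 0 2 1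
  4 79 (.bis 1 2 1 4 47 (.bis 2 6 4 1 48 (.leaf 20) (.bis 2 4 4 1 81 (.leaf 4) (.leaf 4))) (.leaf
  7)) (.bis 0 4 1 1 80 (.leaf 7) (.leaf 3)))))) (.bis 2 3 4 1 35 (.bis 0 5 1 1 71 (.bis 1 3 4 1
  21 (.leaf 3) (.bis 1 5 4 1 22 (.leaf 3) (.bis 0 1 1 8 74 (.leaf 2) (.leaf 2)))) (.bis 1 3 4 1
  21 (.leaf 3) (.bis 0 1 1 4 72 (.bis 1 5 8 1 74 (.leaf 2) (.leaf 2)) (.leaf 3)))) (.bis 2 5 4 1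
  36 (.bis 0 5 1 1 71 (.bis 1 5 4 1 22 (.leaf 3) (.bis 0 1 1 8 74 (.bis 1 2 8 1 37 (.leaf 2)
  (.leaf 2)) (.leaf 2))) (.bis 0 1 1 4 72 (.bis 1 5 8 1 74 (.leaf 2) (.leaf 2)) (.leaf 3))) (.bis
  0 2 1 4 79 (.bis 1 2 1 1 41 (.bis 2 4 4 1 47 (.leaf 2) (.bis 2 6 4 1 48 (.leaf 2) (.leaf 4)))
  (.bis 1 3 8 1 56 (.leaf 2) (.leaf 2))) (.bis 0 1 1 4 72 (.bis 1 3 8 1 56 (.leaf 2) (.leaf 2))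
  (.leaf 3))))))) (.bis 1 3 2 1 28 (.bis 2 3 2 1 49 (.bis 0 4 1 2 75 (.bis 3 4 1 1 30 (.bis 4 5 2
  1 43 (.bis 3 6 1 1 50 (.leaf 7) (.leaf 7)) (.bis 4 6 2 1 44 (.leaf 7) (.bis 1 4 1 2 51 (.bis 2
  4 1 2 52 (.leaf 22) (.bis 2 5 2 1 53 (.leaf 7) (.leaf 7))) (.bis 2 5 2 1 53 (.leaf 7) (.leaf
  7))))) (.bis 3 6 2 1 54 (.leaf 7) (.leaf 22))) (.bis 3 6 2 1 54 (.leaf 33) (.bis 0 3 1 2 76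
  (.leaf 22) (.leaf 33)))) (.bis 2 4 2 1 42 (.bis 0 4 1 2 75 (.bis 4 5 2 1 43 (.leaf 7) (.leaf
  22)) (.leaf 77)) (.bis 2 5 4 1 35 (.bis 0 4 1 1 80 (.leaf 7) (.leaf 33)) (.bis 0 2 1 4 79 (.bis
  1 2 1 4 55 (.bis 2 6 4 1 48 (.leaf 62) (.bis 2 3 4 1 82 (.leaf 4) (.leaf 4))) (.leaf 7)) (.bis
  0 4 1 1 80 (.leaf 7) (.leaf 33)))))) (.bis 1 4 2 1 26 (.bis 2 4 2 1 42 (.bis 0 4 1 2 75 (.leaf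
  22) (.bis 0 2 1 1 80 (.leaf 7) (.leaf 3))) (.bis 2 5 4 1 35 (.bis 0 4 1 1 80 (.leaf 7) (.leaf
  3)) (.bis 0 2 1 4 79 (.bis 1 2 1 4 47 (.bis 2 3 4 1 55 (.leaf 7) (.bis 2 6 4 1 48 (.leaf 20)
  (.leaf 4))) (.leaf 7)) (.bis 0 4 1 1 80 (.leaf 7) (.leaf 3))))) (.bis 2 5 4 1 35 (.bis 1 5 4 1
  21 (.bis 0 5 1 1 83 (.leaf 3) (.leaf 3)) (.bis 0 1 1 4 72 (.leaf 2) (.leaf 3))) (.bis 0 2 1 4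
  79 (.bis 1 2 1 1 41 (.bis 2 3 4 1 55 (.leaf 2) (.bis 2 4 4 1 47 (.leaf 2) (.bis 2 6 4 1 48
  (.leaf 2) (.leaf 4)))) (.leaf 2)) (.bis 0 1 1 4 72 (.bis 1 5 8 1 56 (.leaf 2) (.leaf 2)) (.leaf
  3)))))))) (.bis 0 4 2 1 84 (.bis 2 6 2 1 31 (.bis 4 5 1 2 15 (.bis 5 6 2 1 16 (.bis 1 6 2 1 25
  (.bis 4 6 1 2 62 (.leaf 35) (.leaf 3)) (.bis 3 4 1 1 71 (.bis 1 4 4 1 22 (.leaf 3) (.bis 1 5 4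
  1 23 (.leaf 3) (.bis 0 1 1 4 85 (.leaf 10) (.leaf 3)))) (.bis 1 5 4 1 23 (.leaf 3) (.bis 0 1 1
  4 85 (.bis 1 3 4 1 72 (.leaf 3) (.leaf 10)) (.leaf 3))))) (.bis 0 5 1 4 86 (.bis 3 5 1 4 73
  (.bis 2 5 1 4 33 (.bis 1 5 1 1 20 (.bis 4 5 1 4 87 (.leaf 32) (.leaf 19)) (.bis 1 4 4 1 22
  (.leaf 3) (.bis 1 6 4 1 23 (.leaf 3) (.bis 0 1 1 8 88 (.leaf 10) (.leaf 3))))) (.bis 1 4 4 1 22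
  (.leaf 3) (.bis 1 6 4 1 23 (.leaf 3) (.bis 0 1 1 8 88 (.leaf 10) (.leaf 3))))) (.bis 3 4 1 1 71
  (.bis 1 4 4 1 22 (.leaf 3) (.bis 1 6 4 1 23 (.leaf 3) (.bis 1 3 8 1 74 (.leaf 3) (.leaf 10))))
  (.bis 1 6 4 1 23 (.leaf 3) (.bis 1 3 4 1 72 (.leaf 3) (.bis 1 4 8 1 74 (.leaf 3) (.leaf
  10)))))) (.bis 3 4 1 1 71 (.bis 1 4 4 1 22 (.leaf 3) (.bis 1 6 4 1 23 (.leaf 3) (.bis 0 1 1 4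
  85 (.bis 1 3 8 1 74 (.leaf 3) (.leaf 10)) (.leaf 3)))) (.bis 1 6 4 1 23 (.leaf 3) (.bis 0 1 1 4
  85 (.bis 1 3 4 1 72 (.leaf 3) (.leaf 10)) (.leaf 3)))))) (.bis 1 4 2 1 26 (.bis 4 6 1 1 27
  (.leaf 35) (.bis 3 4 1 2 75 (.bis 2 4 1 2 44 (.bis 0 4 1 2 89 (.leaf 22) (.leaf 35)) (.leaf 3))
  (.leaf 3))) (.bis 1 6 2 1 25 (.bis 5 6 1 2 62 (.bis 4 6 1 2 64 (.leaf 35) (.leaf 3)) (.leaf 3))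
  (.bis 3 5 1 1 71 (.bis 1 5 4 1 22 (.leaf 3) (.bis 0 1 1 4 85 (.leaf 10) (.leaf 3))) (.bis 0 1 1
  4 85 (.bis 1 3 4 1 72 (.leaf 3) (.leaf 10)) (.leaf 3)))))) (.bis 4 5 1 2 15 (.bis 2 5 1 1 32
  (.bis 0 5 1 4 86 (.bis 3 5 1 4 73 (.bis 5 6 4 1 33 (.bis 1 4 4 1 22 (.leaf 3) (.bis 0 1 1 8 88
  (.bis 1 3 8 1 77 (.leaf 3) (.leaf 10)) (.leaf 3))) (.bis 1 5 1 1 20 (.leaf 32) (.bis 1 4 4 1 22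
  (.leaf 3) (.bis 0 1 1 8 88 (.leaf 10) (.leaf 3))))) (.bis 3 4 1 1 71 (.bis 1 4 4 1 22 (.leaf 3)
  (.bis 1 3 8 1 74 (.leaf 3) (.bis 0 1 1 8 88 (.leaf 10) (.leaf 3)))) (.bis 2 3 2 1 78 (.bis 1 3
  4 1 72 (.leaf 3) (.bis 1 4 8 1 74 (.leaf 3) (.bis 0 1 1 8 88 (.leaf 10) (.leaf 3)))) (.bis 1 4
  8 1 74 (.leaf 3) (.bis 0 1 1 8 88 (.leaf 10) (.leaf 3)))))) (.bis 3 4 1 1 71 (.bis 1 4 4 1 22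
  (.leaf 3) (.bis 0 2 1 2 90 (.bis 1 3 8 1 74 (.leaf 3) (.leaf 10)) (.bis 0 1 1 4 85 (.bis 1 3 8
  1 74 (.leaf 3) (.leaf 10)) (.leaf 3)))) (.bis 0 2 1 2 90 (.bis 2 3 2 1 78 (.bis 1 3 4 1 72
  (.leaf 3) (.bis 1 4 8 1 74 (.leaf 3) (.bis 1 5 8 1 88 (.leaf 3) (.leaf 2)))) (.bis 1 4 8 1 74
  (.leaf 3) (.bis 1 5 8 1 88 (.leaf 3) (.leaf 2)))) (.bis 0 1 1 4 85 (.bis 1 3 4 1 72 (.leaf 3)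
  (.bis 1 4 8 1 74 (.leaf 3) (.leaf 10))) (.leaf 3))))) (.bis 2 4 4 1 36 (.bis 3 4 1 1 71 (.bis 1
  4 4 1 22 (.bis 0 5 1 2 90 (.leaf 3) (.leaf 3)) (.bis 0 5 1 2 90 (.bis 1 3 8 1 74 (.leaf 2)
  (.leaf 2)) (.bis 0 1 1 4 85 (.bis 1 3 8 1 74 (.leaf 2) (.leaf 2)) (.leaf 3)))) (.bis 0 5 1 2 90
  (.bis 3 5 1 2 78 (.bis 1 4 8 1 74 (.leaf 2) (.bis 1 2 8 1 37 (.leaf 2) (.leaf 2))) (.bis 1 3 4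
  1 72 (.leaf 3) (.bis 1 4 8 1 74 (.leaf 2) (.leaf 2)))) (.bis 0 1 1 4 85 (.bis 1 3 4 1 72 (.leaf
  3) (.bis 1 4 8 1 74 (.leaf 2) (.leaf 2))) (.leaf 3)))) (.bis 0 2 1 4 91 (.bis 2 3 4 1 79 (.bis
  3 5 1 2 78 (.bis 1 4 8 1 37 (.leaf 2) (.leaf 2)) (.bis 1 3 4 1 72 (.leaf 3) (.bis 1 4 8 1 37
  (.leaf 2) (.leaf 2)))) (.bis 1 2 1 1 41 (.bis 2 5 2 1 39 (.leaf 2) (.bis 2 6 4 1 48 (.leaf 2)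
  (.leaf 4))) (.bis 1 4 8 1 37 (.leaf 2) (.leaf 2)))) (.bis 0 5 1 2 90 (.bis 3 5 1 2 78 (.bis 1 4
  8 1 37 (.leaf 2) (.leaf 2)) (.bis 1 3 4 1 72 (.leaf 3) (.bis 1 4 8 1 37 (.leaf 2) (.leaf 2))))
  (.bis 0 1 1 4 85 (.bis 1 3 4 1 72 (.leaf 3) (.leaf 2)) (.leaf 3)))))) (.bis 1 4 2 1 26 (.bis 2
  4 2 1 42 (.bis 3 4 1 2 75 (.bis 4 6 2 1 44 (.leaf 54) (.bis 0 4 1 2 89 (.leaf 22) (.leaf 54)))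
  (.bis 3 5 1 1 71 (.leaf 54) (.bis 2 3 1 1 80 (.leaf 3) (.leaf 20)))) (.bis 2 5 4 1 36 (.bis 3 5
  1 1 71 (.leaf 54) (.leaf 54)) (.bis 0 2 1 4 91 (.bis 2 3 4 1 79 (.bis 3 4 1 1 80 (.leaf 7)
  (.leaf 3)) (.bis 1 2 1 4 47 (.bis 2 6 4 1 48 (.leaf 20) (.bis 2 4 4 1 81 (.leaf 4) (.leaf 4)))
  (.leaf 7))) (.bis 3 4 1 1 80 (.leaf 20) (.leaf 3))))) (.bis 2 5 4 1 36 (.bis 3 5 1 1 71 (.bis 1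
  5 4 1 22 (.leaf 3) (.bis 0 1 1 4 85 (.bis 1 3 8 1 74 (.leaf 2) (.leaf 2)) (.leaf 3))) (.bis 0 1
  1 4 85 (.bis 1 3 4 1 72 (.leaf 3) (.bis 1 5 8 1 74 (.leaf 2) (.leaf 2))) (.leaf 3))) (.bis 0 2
  1 4 91 (.bis 2 3 4 1 79 (.bis 1 3 4 1 72 (.leaf 3) (.bis 1 5 8 1 37 (.leaf 2) (.leaf 2))) (.bis
  1 2 1 1 41 (.bis 2 4 4 1 47 (.leaf 2) (.bis 2 6 4 1 48 (.leaf 2) (.leaf 4))) (.bis 1 5 8 1 37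
  (.leaf 2) (.leaf 2)))) (.bis 0 1 1 4 85 (.bis 1 3 4 1 72 (.leaf 3) (.leaf 2)) (.leaf 3)))))))
  (.bis 0 5 1 1 92 (.bis 2 6 2 1 31 (.bis 5 6 2 1 16 (.bis 1 6 2 1 25 (.leaf 35) (.bis 1 5 4 1 23
  (.leaf 10) (.bis 1 3 4 1 72 (.leaf 10) (.bis 1 4 4 1 85 (.leaf 10) (.leaf 10))))) (.bis 3 5 1 4
  73 (.bis 4 5 1 4 86 (.bis 2 5 1 4 33 (.bis 1 5 1 1 20 (.bis 0 5 1 2 93 (.leaf 32) (.leaf 32))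
  (.bis 1 6 4 1 23 (.leaf 10) (.bis 0 1 1 2 94 (.leaf 10) (.leaf 10)))) (.bis 1 6 4 1 23 (.leaf
  10) (.bis 0 1 1 2 94 (.bis 1 3 8 1 77 (.leaf 3) (.leaf 10)) (.leaf 10)))) (.bis 1 6 4 1 23
  (.leaf 10) (.bis 1 4 4 1 85 (.leaf 10) (.bis 0 1 1 2 94 (.leaf 10) (.leaf 10))))) (.bis 1 6 4 1
  23 (.leaf 10) (.bis 1 3 4 1 72 (.leaf 10) (.bis 1 4 4 1 85 (.leaf 10) (.leaf 10)))))) (.bis 2 5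
  1 1 32 (.bis 3 5 1 4 73 (.bis 4 5 1 4 86 (.bis 5 6 4 1 33 (.bis 0 1 1 2 94 (.bis 1 3 8 1 77
  (.leaf 3) (.leaf 10)) (.leaf 10)) (.bis 1 5 1 1 20 (.bis 0 5 1 2 93 (.leaf 32) (.leaf 32))
  (.bis 0 1 1 2 94 (.bis 1 3 8 1 77 (.leaf 3) (.leaf 10)) (.leaf 10)))) (.bis 2 4 2 1 90 (.bis 1
  4 4 1 85 (.leaf 10) (.bis 0 1 1 2 94 (.bis 1 3 8 1 77 (.leaf 3) (.leaf 10)) (.leaf 10))) (.bis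
  0 1 1 2 94 (.bis 1 3 8 1 77 (.leaf 3) (.leaf 10)) (.leaf 10)))) (.bis 2 3 2 1 78 (.bis 1 3 4 1
  72 (.leaf 10) (.bis 1 4 4 1 85 (.leaf 10) (.bis 0 1 1 2 94 (.leaf 10) (.leaf 10)))) (.bis 2 4 2
  1 90 (.bis 1 4 4 1 85 (.leaf 10) (.bis 0 1 1 2 94 (.leaf 10) (.leaf 10))) (.bis 0 1 1 2 94
  (.bis 1 5 8 1 77 (.leaf 3) (.leaf 2)) (.leaf 10))))) (.bis 0 2 1 2 95 (.bis 2 3 4 1 79 (.bis 3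
  5 1 2 78 (.bis 4 5 1 2 90 (.bis 1 2 8 1 96 (.leaf 2) (.leaf 2)) (.bis 1 4 4 1 85 (.leaf 3)
  (.bis 1 2 8 1 96 (.leaf 2) (.leaf 2)))) (.bis 1 3 4 1 72 (.leaf 3) (.bis 1 4 4 1 85 (.leaf 3)
  (.leaf 2)))) (.bis 2 4 4 1 91 (.bis 4 5 1 2 90 (.bis 1 2 8 1 97 (.leaf 2) (.leaf 2)) (.bis 1 4
  4 1 85 (.leaf 3) (.bis 1 2 8 1 97 (.leaf 2) (.leaf 2)))) (.bis 1 2 1 1 41 (.bis 2 5 2 1 39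
  (.leaf 2) (.bis 2 6 4 1 48 (.leaf 2) (.leaf 26))) (.leaf 2)))) (.bis 3 5 1 2 78 (.bis 4 5 1 2
  90 (.bis 0 1 1 2 94 (.leaf 2) (.leaf 10)) (.bis 1 4 4 1 85 (.leaf 10) (.bis 0 1 1 2 94 (.leaf
  2) (.leaf 10)))) (.bis 1 3 4 1 72 (.leaf 10) (.bis 1 4 4 1 85 (.leaf 10) (.leaf 10))))))) (.bis
  0 2 1 1 98 (.bis 2 6 2 1 31 (.bis 1 6 2 1 25 (.bis 0 6 1 1 99 (.leaf 35) (.leaf 29)) (.bis 1 3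
  4 1 72 (.leaf 29) (.bis 1 4 4 1 85 (.leaf 29) (.leaf 50)))) (.bis 2 5 2 1 95 (.bis 1 3 4 1 72
  (.leaf 29) (.bis 1 4 4 1 85 (.leaf 29) (.leaf 50))) (.bis 2 3 4 1 79 (.bis 1 3 4 1 72 (.leaf 8)
  (.bis 1 4 4 1 85 (.leaf 8) (.leaf 50))) (.bis 2 4 4 1 91 (.bis 1 4 4 1 85 (.leaf 8) (.bis 0 1 1
  2 100 (.leaf 2) (.leaf 8))) (.bis 1 2 1 1 41 (.bis 0 2 1 2 101 (.bis 2 6 4 1 48 (.leaf 26)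
  (.leaf 26)) (.leaf 37)) (.bis 0 1 1 2 100 (.leaf 2) (.leaf 37))))))) (.bis 0 1 1 1 102 (.bis 1
  6 2 1 25 (.leaf 78) (.bis 1 3 4 1 72 (.leaf 29) (.bis 1 4 4 1 85 (.leaf 29) (.bis 1 5 2 1 94
  (.leaf 29) (.leaf 50))))) (.bis 0 6 2 1 103 (.leaf 78) (.leaf 73))))))))

def lc0 : List Vr := [⟨[60,0,0,0,0,0,0], 14400, 0⟩, ⟨[0,24,0,0,0,0,0], 13824, 0⟩, ⟨[0,0,27,0,0,0,
  0], 14580, 0⟩, ⟨[0,0,0,69,0,0,70], 52923, 0⟩, ⟨[0,0,0,0,69,0,70], 52923, 0⟩, ⟨[0,0,0,0,0,42,0],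
  14112, 0⟩, ⟨[0,0,0,0,0,0,1], 0, 0⟩]

theorem lk0 : chkTr lowT (leafLow 4 lowB) lt0 lc0 = true := by decide +kernel

def lt1 : Tr ℕ := (.bis 0 3 1 1 106 (.bis 3 5 1 2 14 (.bis 5 6 2 1 15 (.bis 1 6 2 1 26 (.bis 2 6
  2 1 42 (.bis 3 6 1 2 43 (.bis 0 6 1 2 107 (.bis 4 6 1 1 108 (.leaf 39) (.bis 3 4 1 4 109 (.bis
  2 5 1 1 110 (.bis 0 4 1 4 111 (.leaf 14) (.leaf 14)) (.bis 0 4 1 4 111 (.leaf 13) (.leaf 13)))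
  (.leaf 14))) (.bis 0 5 1 1 112 (.bis 3 4 1 4 109 (.bis 2 5 1 1 110 (.bis 4 6 4 1 111 (.leaf 7)
  (.bis 4 5 2 1 113 (.leaf 7) (.leaf 14))) (.bis 4 6 4 1 111 (.leaf 7) (.leaf 13))) (.leaf 7))
  (.bis 0 4 1 2 114 (.bis 3 4 1 4 109 (.bis 4 6 4 1 111 (.leaf 7) (.leaf 6)) (.leaf 7)) (.leaf
  7)))) (.bis 3 4 1 2 115 (.bis 0 5 1 1 112 (.bis 4 6 4 1 109 (.leaf 7) (.bis 2 5 1 1 110 (.bis 4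
  5 2 1 113 (.leaf 7) (.leaf 14)) (.leaf 14))) (.bis 0 4 1 2 114 (.bis 4 6 4 1 109 (.leaf 7)
  (.leaf 14)) (.leaf 7))) (.leaf 7))) (.bis 2 3 4 1 35 (.bis 3 4 1 2 115 (.bis 0 5 1 1 112 (.bis
  2 4 1 4 116 (.leaf 14) (.leaf 7)) (.bis 2 4 1 4 116 (.leaf 14) (.leaf 7))) (.leaf 7)) (.bis 2 5
  4 1 36 (.bis 0 5 1 1 112 (.bis 3 4 1 4 116 (.bis 5 6 1 1 110 (.bis 4 6 2 1 117 (.leaf 7) (.leaf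
  14)) (.bis 4 5 2 1 113 (.leaf 7) (.leaf 14))) (.leaf 7)) (.bis 3 4 1 4 116 (.bis 0 4 1 2 114
  (.leaf 6) (.leaf 6)) (.leaf 7))) (.bis 2 4 2 1 118 (.bis 3 4 1 4 116 (.leaf 6) (.leaf 14))
  (.bis 1 2 1 4 47 (.bis 0 2 1 4 119 (.bis 2 6 4 1 81 (.leaf 4) (.leaf 4)) (.leaf 4)) (.leaf
  14)))))) (.bis 2 3 4 1 35 (.bis 1 4 2 1 120 (.bis 3 4 1 2 115 (.bis 0 5 1 1 112 (.bis 2 4 1 4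
  116 (.leaf 14) (.leaf 14)) (.bis 2 4 1 4 116 (.leaf 14) (.leaf 2))) (.leaf 19)) (.bis 1 3 4 1
  21 (.leaf 19) (.bis 1 5 4 1 22 (.leaf 14) (.leaf 2)))) (.bis 2 5 4 1 36 (.bis 1 4 2 1 120 (.bis
  0 5 1 1 112 (.bis 3 4 1 4 116 (.leaf 14) (.leaf 14)) (.bis 3 4 1 4 116 (.leaf 6) (.leaf 2)))
  (.bis 1 5 4 1 22 (.leaf 14) (.bis 0 1 1 4 121 (.leaf 2) (.leaf 2)))) (.bis 1 4 2 1 120 (.bis 2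
  4 2 1 118 (.leaf 14) (.bis 2 6 4 1 47 (.leaf 2) (.bis 0 2 1 4 119 (.bis 1 2 1 4 122 (.leaf 4)
  (.leaf 2)) (.leaf 2)))) (.bis 1 2 1 1 41 (.bis 2 6 4 1 47 (.leaf 2) (.bis 0 2 1 4 119 (.bis 2 4
  4 1 122 (.leaf 2) (.leaf 4)) (.leaf 2))) (.bis 0 1 1 4 121 (.leaf 2) (.leaf 2))))))) (.bis 2 5
  1 1 32 (.bis 0 5 1 4 123 (.bis 1 5 1 1 20 (.bis 4 5 1 2 124 (.leaf 32) (.bis 3 4 1 2 115 (.bis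
  1 4 1 1 125 (.leaf 14) (.leaf 19)) (.leaf 19))) (.bis 1 4 2 1 120 (.bis 3 4 1 2 115 (.bis 4 5 1
  1 125 (.leaf 19) (.leaf 14)) (.leaf 19)) (.bis 1 3 4 1 21 (.leaf 19) (.bis 1 6 4 1 22 (.leaf
  19) (.leaf 10))))) (.bis 1 4 2 1 120 (.bis 3 4 1 2 115 (.bis 0 6 1 1 112 (.leaf 14) (.leaf 14))
  (.leaf 19)) (.bis 1 3 4 1 21 (.bis 3 4 1 1 126 (.bis 0 6 1 1 112 (.leaf 14) (.leaf 2)) (.bis 0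
  3 1 1 127 (.leaf 3) (.leaf 3))) (.bis 1 6 4 1 22 (.bis 0 6 1 1 112 (.leaf 14) (.leaf 2)) (.bis
  0 1 1 4 121 (.leaf 2) (.leaf 2)))))) (.bis 2 3 4 1 35 (.bis 1 4 2 1 120 (.bis 3 4 1 2 115 (.bis
  0 6 1 1 112 (.leaf 14) (.bis 0 5 1 2 128 (.bis 2 4 1 4 116 (.leaf 14) (.leaf 2)) (.bis 2 4 1 4
  116 (.leaf 14) (.leaf 2)))) (.leaf 19)) (.bis 1 3 4 1 21 (.leaf 19) (.bis 1 6 4 1 22 (.bis 0 6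
  1 1 112 (.leaf 14) (.leaf 2)) (.bis 0 1 1 4 121 (.leaf 2) (.leaf 2))))) (.bis 2 6 4 1 36 (.bis
  1 4 2 1 120 (.bis 0 6 1 1 112 (.bis 3 4 1 4 116 (.leaf 14) (.leaf 14)) (.bis 0 5 1 2 128 (.bis
  3 4 1 4 116 (.leaf 14) (.leaf 2)) (.bis 3 4 1 4 116 (.leaf 6) (.leaf 2)))) (.bis 1 6 4 1 22
  (.leaf 14) (.bis 0 1 1 4 121 (.leaf 2) (.leaf 2)))) (.bis 1 4 2 1 120 (.bis 2 4 2 1 118 (.bis 0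
  5 1 2 128 (.bis 3 4 1 4 116 (.leaf 14) (.leaf 2)) (.bis 3 4 1 4 116 (.leaf 6) (.leaf 2))) (.bis
  0 2 1 4 119 (.bis 1 2 1 4 122 (.bis 2 5 2 1 39 (.leaf 2) (.leaf 4)) (.leaf 2)) (.leaf 2)))
  (.bis 1 2 1 1 41 (.bis 0 2 1 4 119 (.bis 2 4 4 1 122 (.leaf 2) (.bis 2 5 2 1 39 (.leaf 2)
  (.leaf 4))) (.leaf 2)) (.bis 0 1 1 4 121 (.leaf 2) (.leaf 2)))))))) (.bis 3 4 1 1 129 (.bis 1 6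
  2 1 26 (.bis 2 6 2 1 42 (.bis 5 6 1 2 43 (.bis 0 6 1 2 107 (.bis 4 6 1 1 108 (.leaf 39) (.bis 4
  5 4 1 109 (.leaf 14) (.bis 0 4 1 4 111 (.leaf 13) (.leaf 13)))) (.bis 0 4 1 2 114 (.bis 4 5 4 1
  109 (.leaf 7) (.bis 4 6 4 1 111 (.leaf 7) (.leaf 13))) (.leaf 7))) (.bis 4 5 2 1 115 (.leaf 7)
  (.bis 0 4 1 2 114 (.bis 4 6 4 1 109 (.leaf 7) (.leaf 14)) (.leaf 7)))) (.bis 2 5 4 1 35 (.bis 4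
  5 2 1 115 (.leaf 7) (.bis 2 4 1 4 116 (.bis 0 4 1 2 114 (.leaf 14) (.leaf 7)) (.leaf 7))) (.bis
  2 4 2 1 118 (.bis 4 5 4 1 116 (.leaf 14) (.leaf 13)) (.bis 2 3 4 1 130 (.leaf 14) (.bis 1 2 1 4
  47 (.bis 0 2 1 4 119 (.leaf 4) (.leaf 4)) (.leaf 14)))))) (.bis 2 5 4 1 35 (.bis 1 4 2 1 120
  (.bis 4 5 2 1 115 (.leaf 19) (.bis 2 4 1 4 116 (.leaf 14) (.leaf 14))) (.bis 1 5 4 1 21 (.leaf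
  19) (.bis 1 3 4 1 131 (.leaf 5) (.bis 0 1 1 4 121 (.leaf 2) (.leaf 2))))) (.bis 1 4 2 1 120
  (.bis 2 4 2 1 118 (.leaf 14) (.bis 2 3 4 1 130 (.leaf 5) (.bis 2 6 4 1 47 (.leaf 2) (.bis 0 2 1
  4 119 (.bis 1 2 1 4 122 (.leaf 4) (.leaf 2)) (.leaf 2))))) (.bis 1 3 4 1 131 (.bis 2 3 4 1 130
  (.leaf 5) (.bis 2 6 4 1 47 (.leaf 2) (.bis 0 2 1 4 119 (.bis 2 4 4 1 122 (.leaf 2) (.bis 1 2 1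
  8 132 (.leaf 4) (.leaf 2))) (.leaf 2)))) (.bis 1 2 1 1 41 (.bis 2 6 4 1 47 (.leaf 2) (.bis 0 2
  1 4 119 (.bis 2 4 4 1 122 (.leaf 2) (.leaf 4)) (.leaf 2))) (.leaf 2)))))) (.bis 1 3 2 1 28
  (.bis 2 3 2 1 49 (.bis 3 6 1 1 30 (.leaf 22) (.leaf 22)) (.bis 2 6 2 1 42 (.bis 5 6 1 2 43
  (.leaf 22) (.leaf 7)) (.bis 2 5 4 1 35 (.leaf 7) (.bis 2 4 4 1 130 (.leaf 7) (.bis 1 2 1 4 55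
  (.bis 0 2 1 4 119 (.bis 2 3 4 1 82 (.leaf 4) (.leaf 4)) (.leaf 4)) (.leaf 7)))))) (.bis 1 6 2 1
  26 (.bis 2 6 2 1 42 (.leaf 22) (.bis 2 5 4 1 35 (.leaf 7) (.bis 2 4 4 1 130 (.leaf 7) (.bis 1 2
  1 4 47 (.bis 2 3 4 1 55 (.leaf 7) (.bis 0 2 1 4 119 (.bis 2 6 4 1 81 (.leaf 4) (.leaf 4))
  (.leaf 4))) (.leaf 7))))) (.bis 2 5 4 1 35 (.bis 1 5 4 1 21 (.leaf 7) (.bis 1 4 4 1 131 (.leaf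
  5) (.bis 0 1 1 4 121 (.leaf 2) (.leaf 2)))) (.bis 1 4 4 1 131 (.bis 2 4 4 1 130 (.leaf 5) (.bis
  2 3 4 1 55 (.leaf 2) (.bis 2 6 4 1 47 (.leaf 2) (.bis 0 2 1 4 119 (.bis 1 2 1 8 132 (.leaf 4)
  (.leaf 2)) (.leaf 2))))) (.bis 1 2 1 1 41 (.bis 2 3 4 1 55 (.leaf 2) (.bis 2 6 4 1 47 (.leaf 2)
  (.bis 0 2 1 4 119 (.bis 2 4 8 1 132 (.leaf 2) (.leaf 4)) (.leaf 2)))) (.bis 0 1 1 4 121 (.leaf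
  2) (.leaf 2))))))))) (.bis 0 5 1 2 133 (.bis 5 6 2 1 15 (.bis 1 6 2 1 26 (.bis 2 6 2 1 42 (.bis
  0 6 1 2 134 (.bis 3 6 1 2 107 (.bis 4 6 1 1 108 (.leaf 39) (.bis 2 5 1 1 110 (.bis 3 4 1 4 111
  (.leaf 14) (.leaf 14)) (.bis 3 4 1 4 111 (.leaf 13) (.leaf 13)))) (.bis 3 5 1 1 112 (.bis 2 5 1
  1 110 (.bis 4 6 4 1 111 (.leaf 7) (.bis 4 5 2 1 113 (.leaf 7) (.leaf 14))) (.bis 4 6 4 1 111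
  (.leaf 7) (.bis 2 4 1 2 117 (.leaf 13) (.leaf 7)))) (.bis 3 4 1 2 114 (.bis 4 6 4 1 111 (.leaf
  7) (.leaf 6)) (.leaf 7)))) (.bis 3 5 1 1 112 (.bis 0 2 1 1 135 (.bis 2 5 1 1 110 (.bis 4 5 2 1
  113 (.leaf 7) (.leaf 14)) (.bis 2 4 1 2 117 (.leaf 13) (.leaf 7))) (.leaf 14)) (.bis 3 4 1 2
  114 (.leaf 6) (.leaf 6)))) (.bis 2 5 4 1 36 (.bis 3 5 1 1 112 (.leaf 14) (.bis 3 4 1 2 114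
  (.leaf 6) (.leaf 6))) (.bis 2 4 2 1 118 (.leaf 6) (.bis 0 2 1 4 136 (.bis 1 2 1 4 47 (.bis 2 3
  4 1 119 (.leaf 4) (.bis 2 6 4 1 81 (.leaf 4) (.leaf 4))) (.leaf 6)) (.leaf 6))))) (.bis 2 5 4 1
  36 (.bis 1 4 2 1 120 (.leaf 14) (.bis 1 5 4 1 22 (.leaf 14) (.bis 1 3 4 1 121 (.leaf 2) (.leaf
  2)))) (.bis 1 4 2 1 120 (.bis 2 4 2 1 118 (.leaf 6) (.bis 0 2 1 4 136 (.bis 2 6 4 1 47 (.leaf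
  2) (.bis 2 3 4 1 119 (.leaf 2) (.bis 1 2 1 4 122 (.leaf 4) (.leaf 2)))) (.leaf 2))) (.bis 0 2 1
  4 136 (.bis 1 2 1 1 41 (.bis 2 6 4 1 47 (.leaf 2) (.bis 2 3 4 1 119 (.leaf 2) (.bis 2 4 4 1 122
  (.leaf 2) (.leaf 4)))) (.leaf 2)) (.bis 1 3 4 1 121 (.leaf 2) (.leaf 2)))))) (.bis 2 5 1 1 32
  (.bis 3 5 1 4 123 (.bis 1 5 1 1 20 (.bis 4 5 1 2 124 (.bis 0 5 1 4 137 (.leaf 32) (.leaf 19))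
  (.bis 1 4 1 1 125 (.leaf 14) (.leaf 19))) (.bis 1 4 2 1 120 (.bis 4 5 1 1 125 (.leaf 19) (.leaf
  14)) (.bis 1 6 4 1 22 (.leaf 19) (.leaf 10)))) (.bis 1 4 2 1 120 (.bis 3 6 1 1 112 (.leaf 14)
  (.leaf 14)) (.bis 1 6 4 1 22 (.bis 3 6 1 1 112 (.leaf 14) (.leaf 2)) (.bis 1 3 4 1 121 (.leaf
  2) (.leaf 2))))) (.bis 2 6 4 1 36 (.bis 1 4 2 1 120 (.bis 3 6 1 1 112 (.leaf 14) (.leaf 14))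
  (.bis 1 6 4 1 22 (.bis 3 6 1 1 112 (.leaf 14) (.leaf 2)) (.bis 1 3 4 1 121 (.leaf 2) (.leaf
  2)))) (.bis 1 4 2 1 120 (.bis 2 4 2 1 118 (.bis 3 5 1 2 128 (.leaf 14) (.leaf 6)) (.bis 0 2 1 4
  136 (.bis 2 3 4 1 119 (.leaf 2) (.bis 1 2 1 4 122 (.bis 2 5 2 1 39 (.leaf 2) (.leaf 4)) (.leaf
  2))) (.bis 3 5 1 2 128 (.leaf 2) (.leaf 2)))) (.bis 0 2 1 4 136 (.bis 1 2 1 1 41 (.bis 2 3 4 1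
  119 (.leaf 2) (.bis 2 4 4 1 122 (.leaf 2) (.leaf 26))) (.bis 1 3 4 1 121 (.leaf 2) (.leaf 2)))
  (.bis 1 3 4 1 121 (.leaf 2) (.leaf 2))))))) (.bis 1 6 2 1 26 (.bis 2 6 2 1 42 (.bis 0 6 1 1 138
  (.bis 5 6 1 2 134 (.bis 3 6 1 2 107 (.bis 4 6 1 1 108 (.leaf 39) (.bis 3 4 1 4 111 (.leaf 13)
  (.leaf 13))) (.bis 3 4 1 2 114 (.bis 4 6 4 1 111 (.leaf 13) (.leaf 6)) (.leaf 13))) (.leaf 6))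
  (.bis 0 2 2 1 139 (.leaf 6) (.bis 0 1 2 1 140 (.bis 3 4 1 2 114 (.leaf 6) (.leaf 6)) (.bis 0 4
  1 1 141 (.leaf 6) (.bis 0 3 2 1 142 (.leaf 6) (.leaf 51)))))) (.bis 0 2 1 2 143 (.bis 2 4 2 1
  118 (.bis 3 4 1 2 114 (.bis 5 6 1 1 135 (.bis 0 4 1 2 144 (.leaf 6) (.leaf 6)) (.bis 0 4 1 2
  144 (.leaf 6) (.leaf 6))) (.bis 5 6 1 1 135 (.bis 0 1 1 1 145 (.leaf 6) (.leaf 4)) (.bis 0 1 1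
  1 145 (.leaf 2) (.leaf 6)))) (.bis 2 5 4 1 136 (.leaf 6) (.bis 1 2 1 4 47 (.bis 2 3 4 1 119
  (.leaf 4) (.leaf 4)) (.leaf 6)))) (.bis 0 6 2 1 139 (.bis 3 4 1 2 114 (.bis 5 6 1 1 135 (.bis 2
  4 1 2 144 (.leaf 6) (.leaf 6)) (.bis 2 4 1 2 144 (.leaf 6) (.leaf 6))) (.bis 5 6 1 1 135 (.bis
  1 2 1 1 145 (.leaf 6) (.leaf 6)) (.bis 1 2 1 1 145 (.leaf 6) (.leaf 6)))) (.bis 0 1 2 1 140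
  (.bis 3 4 1 2 114 (.leaf 6) (.leaf 6)) (.bis 0 4 1 1 141 (.leaf 6) (.leaf 16)))))) (.bis 0 1 1
  2 146 (.bis 1 4 2 1 120 (.bis 2 4 2 1 118 (.leaf 6) (.bis 2 5 4 1 136 (.leaf 2) (.bis 2 6 4 1
  47 (.leaf 2) (.bis 2 3 4 1 119 (.leaf 2) (.bis 0 2 1 4 147 (.leaf 26) (.leaf 2)))))) (.bis 2 5
  4 1 136 (.bis 1 3 4 1 121 (.leaf 2) (.leaf 2)) (.bis 1 2 1 1 41 (.bis 2 6 4 1 47 (.leaf 2)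
  (.bis 2 3 4 1 119 (.leaf 2) (.bis 0 2 1 4 147 (.leaf 26) (.leaf 2)))) (.bis 1 3 4 1 121 (.leaf
  2) (.leaf 2))))) (.bis 0 2 1 2 143 (.bis 2 4 2 1 118 (.leaf 6) (.bis 2 5 4 1 136 (.leaf 6)
  (.bis 2 6 4 1 47 (.leaf 6) (.bis 2 3 4 1 119 (.leaf 6) (.leaf 46))))) (.bis 0 6 2 1 140 (.bis 3
  4 1 2 114 (.leaf 6) (.leaf 6)) (.bis 0 4 1 1 141 (.bis 3 4 1 2 114 (.leaf 6) (.leaf 6)) (.leaf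
  16))))))))

def lc1 : List Vr := [⟨[60,0,0,0,69,0,0], 78363, 0⟩, ⟨[0,24,0,0,0,0,0], 13824, 0⟩, ⟨[0,0,27,0,0,0,
  0], 14580, 0⟩, ⟨[0,0,0,69,0,0,70], 52923, 0⟩, ⟨[0,0,0,0,69,42,0], 74763, 0⟩, ⟨[0,0,0,0,0,42,0],
  14112, 0⟩, ⟨[0,0,0,0,69,0,70], 52923, 0⟩]

theorem lk1 : chkTr lowT (leafLow 4 lowB) lt1 lc1 = true := by decide +kernel

def lt2 : Tr ℕ := (.bis 3 4 1 2 148 (.bis 1 4 1 1 149 (.bis 2 4 1 1 150 (.bis 4 6 2 1 151 (.bis 0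
  6 1 1 138 (.bis 2 6 1 1 152 (.bis 1 6 1 1 153 (.bis 5 6 1 1 108 (.bis 3 6 1 2 154 (.bis 4 6 1 2
  155 (.leaf 39) (.leaf 44)) (.bis 0 4 1 1 156 (.leaf 44) (.leaf 39))) (.bis 4 5 1 2 157 (.leaf
  39) (.leaf 44))) (.bis 4 5 1 2 157 (.bis 3 5 1 2 158 (.leaf 63) (.bis 1 3 2 1 159 (.leaf 15)
  (.leaf 15))) (.bis 1 4 2 1 160 (.leaf 44) (.bis 1 3 2 1 159 (.leaf 15) (.leaf 15))))) (.bis 4 5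
  1 2 157 (.bis 0 2 1 2 161 (.bis 2 5 1 1 162 (.leaf 40) (.leaf 15)) (.leaf 63)) (.bis 0 2 1 2
  161 (.bis 1 4 2 1 160 (.bis 2 4 2 1 163 (.leaf 44) (.bis 2 3 2 1 164 (.leaf 15) (.leaf 15)))
  (.bis 1 3 2 1 159 (.bis 2 3 2 1 164 (.leaf 15) (.leaf 15)) (.leaf 15))) (.bis 1 4 2 1 160
  (.leaf 44) (.leaf 15))))) (.bis 0 4 2 1 165 (.bis 4 5 1 2 157 (.bis 2 6 2 1 161 (.leaf 63)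
  (.bis 2 5 1 1 162 (.bis 3 5 1 2 158 (.leaf 40) (.leaf 15)) (.bis 1 3 2 1 159 (.bis 2 3 2 1 164
  (.leaf 15) (.leaf 15)) (.leaf 15)))) (.bis 2 6 2 1 161 (.bis 1 4 2 1 160 (.leaf 44) (.leaf 15))
  (.bis 1 4 2 1 160 (.bis 2 4 2 1 163 (.leaf 44) (.bis 2 3 2 1 164 (.leaf 15) (.leaf 15))) (.bis
  1 3 2 1 159 (.bis 2 3 2 1 164 (.leaf 15) (.leaf 15)) (.leaf 15))))) (.bis 0 3 2 1 166 (.bis 2 6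
  2 1 161 (.bis 3 5 1 2 158 (.leaf 63) (.leaf 15)) (.bis 2 5 1 1 162 (.leaf 40) (.bis 1 3 2 1 159
  (.leaf 15) (.leaf 15)))) (.bis 0 5 1 1 141 (.bis 2 6 2 1 161 (.leaf 63) (.bis 2 5 1 1 162
  (.leaf 40) (.leaf 15))) (.bis 0 2 1 1 167 (.bis 2 6 2 1 161 (.leaf 15) (.bis 2 5 2 1 168 (.leaf
  15) (.leaf 15))) (.leaf 41)))))) (.bis 0 4 1 2 169 (.bis 4 5 2 1 170 (.bis 0 3 1 1 171 (.bis 5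
  6 2 1 157 (.bis 3 4 1 1 172 (.bis 1 6 2 1 160 (.bis 2 6 2 1 163 (.leaf 60) (.leaf 52)) (.leaf
  52)) (.bis 1 6 2 1 160 (.bis 2 6 2 1 163 (.leaf 44) (.bis 2 3 2 1 164 (.leaf 15) (.leaf 15)))
  (.bis 1 3 2 1 159 (.bis 2 3 2 1 164 (.leaf 15) (.leaf 15)) (.leaf 15)))) (.bis 2 5 1 1 162
  (.bis 3 5 1 2 158 (.leaf 40) (.leaf 40)) (.bis 3 4 1 1 172 (.leaf 52) (.leaf 15)))) (.bis 0 5 1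
  2 173 (.bis 5 6 2 1 157 (.bis 1 6 2 1 160 (.bis 2 6 2 1 163 (.leaf 60) (.leaf 52)) (.leaf 52))
  (.bis 2 5 1 1 162 (.leaf 40) (.leaf 52))) (.bis 1 6 2 1 160 (.bis 2 6 2 1 163 (.leaf 60) (.leaf
  24)) (.leaf 24)))) (.bis 3 4 1 4 174 (.bis 1 4 1 2 175 (.bis 2 4 1 2 176 (.bis 4 6 4 1 177
  (.bis 0 6 1 1 178 (.leaf 80) (.leaf 42)) (.bis 0 4 1 4 179 (.bis 4 5 4 1 180 (.leaf 42) (.bis 3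
  4 1 8 181 (.bis 1 4 1 4 182 (.leaf 74) (.leaf 42)) (.leaf 42))) (.leaf 42))) (.bis 2 6 2 1 163
  (.bis 0 6 1 1 178 (.leaf 80) (.leaf 42)) (.leaf 81))) (.bis 1 6 2 1 160 (.bis 2 6 2 1 163 (.bis
  0 6 1 1 178 (.leaf 60) (.leaf 24)) (.leaf 24)) (.leaf 24))) (.bis 0 3 1 1 171 (.bis 3 5 1 1 172
  (.bis 1 6 2 1 160 (.bis 2 6 2 1 163 (.leaf 60) (.leaf 24)) (.leaf 24)) (.bis 1 6 2 1 160 (.bis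
  2 6 2 1 163 (.leaf 44) (.leaf 52)) (.leaf 52))) (.bis 1 6 2 1 160 (.bis 2 6 2 1 163 (.bis 0 6 1
  1 178 (.leaf 60) (.leaf 24)) (.leaf 24)) (.leaf 24))))) (.bis 0 6 2 1 165 (.bis 3 4 1 1 171
  (.bis 4 5 1 2 173 (.bis 5 6 2 1 157 (.bis 1 6 2 1 160 (.bis 2 6 2 1 163 (.leaf 44) (.leaf 15))
  (.bis 2 5 4 1 183 (.leaf 15) (.leaf 15))) (.bis 2 5 1 1 162 (.leaf 40) (.leaf 15))) (.bis 1 6 2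
  1 160 (.bis 2 6 2 1 163 (.bis 4 6 1 1 178 (.leaf 44) (.leaf 24)) (.leaf 24)) (.leaf 24))) (.bis
  5 6 2 1 157 (.bis 1 6 2 1 160 (.bis 2 6 2 1 163 (.leaf 44) (.bis 2 3 2 1 164 (.leaf 15) (.leaf
  15))) (.bis 1 3 2 1 159 (.bis 2 3 2 1 164 (.leaf 15) (.leaf 15)) (.leaf 15))) (.bis 2 5 1 1 162
  (.leaf 40) (.leaf 15)))) (.bis 0 3 2 1 166 (.bis 3 4 1 1 171 (.bis 4 5 1 2 173 (.bis 2 5 1 1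
  162 (.leaf 40) (.leaf 15)) (.bis 0 2 1 4 184 (.leaf 24) (.leaf 24))) (.bis 2 5 1 1 162 (.leaf
  40) (.leaf 15))) (.bis 0 5 1 1 141 (.bis 4 5 1 2 173 (.bis 2 5 1 1 162 (.leaf 40) (.bis 0 2 1 2
  168 (.leaf 15) (.leaf 15))) (.bis 0 2 1 2 168 (.leaf 24) (.leaf 61))) (.bis 0 2 1 1 167 (.bis 2
  5 2 1 168 (.leaf 61) (.leaf 24)) (.leaf 61))))))) (.bis 2 6 2 1 42 (.bis 0 6 1 1 138 (.bis 4 6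
  1 1 152 (.bis 1 6 1 1 153 (.bis 5 6 1 1 108 (.leaf 39) (.leaf 13)) (.bis 3 5 1 2 158 (.bis 2 5
  1 2 117 (.leaf 13) (.bis 1 2 2 1 185 (.leaf 13) (.leaf 13))) (.bis 1 2 2 1 185 (.leaf 13) (.bis
  1 3 2 1 159 (.leaf 13) (.leaf 13))))) (.bis 0 4 1 2 161 (.bis 4 5 1 1 162 (.leaf 13) (.leaf
  55)) (.bis 3 5 1 2 158 (.leaf 13) (.bis 1 2 2 1 185 (.leaf 13) (.leaf 13))))) (.bis 0 3 2 1 166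
  (.bis 4 6 2 1 161 (.leaf 13) (.bis 4 5 1 1 162 (.leaf 13) (.leaf 55))) (.bis 0 2 2 1 139 (.bis
  4 6 2 1 161 (.leaf 6) (.bis 4 5 1 1 162 (.leaf 6) (.leaf 28))) (.bis 0 5 1 1 141 (.bis 4 6 2 1
  161 (.leaf 6) (.bis 4 5 1 1 162 (.leaf 6) (.leaf 15))) (.bis 0 4 1 1 167 (.bis 4 6 2 1 161
  (.leaf 6) (.bis 4 5 2 1 168 (.leaf 6) (.leaf 15))) (.leaf 41)))))) (.bis 0 2 1 2 143 (.bis 2 5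
  2 1 118 (.bis 0 3 1 1 186 (.bis 4 5 1 1 162 (.leaf 13) (.leaf 55)) (.bis 0 5 1 2 144 (.bis 4 5
  1 1 162 (.leaf 6) (.leaf 28)) (.leaf 28))) (.bis 2 3 4 1 187 (.leaf 93) (.bis 1 2 1 2 188 (.bis
  2 4 2 1 189 (.leaf 28) (.leaf 4)) (.leaf 28)))) (.bis 0 3 2 1 166 (.bis 2 3 1 1 186 (.bis 4 5 1
  1 162 (.leaf 13) (.leaf 55)) (.bis 2 5 1 2 144 (.bis 4 5 1 1 162 (.leaf 6) (.leaf 28)) (.bis 4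
  6 2 1 190 (.leaf 6) (.leaf 28)))) (.bis 0 6 2 1 139 (.bis 2 5 1 2 144 (.bis 4 5 1 1 162 (.leaf
  6) (.bis 4 6 2 1 190 (.leaf 6) (.leaf 15))) (.bis 4 6 2 1 190 (.leaf 6) (.leaf 28))) (.bis 0 5
  1 1 141 (.bis 2 5 1 2 144 (.bis 4 5 1 1 162 (.leaf 6) (.bis 0 4 1 2 168 (.leaf 15) (.leaf 6)))
  (.bis 0 4 1 2 168 (.leaf 28) (.leaf 6))) (.bis 0 4 1 1 167 (.bis 4 5 2 1 168 (.leaf 6) (.leaf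
  28)) (.leaf 41)))))))) (.bis 1 6 2 1 26 (.bis 2 6 2 1 42 (.bis 0 6 1 1 138 (.bis 4 6 1 1 153
  (.bis 5 6 1 1 108 (.leaf 39) (.leaf 13)) (.bis 1 3 1 1 191 (.bis 3 5 1 2 158 (.bis 2 5 1 2 117
  (.bis 0 5 1 2 192 (.leaf 13) (.bis 0 4 1 2 193 (.leaf 13) (.leaf 13))) (.bis 2 4 1 2 185 (.leaf
  13) (.leaf 13))) (.bis 2 4 1 2 185 (.bis 3 4 1 2 159 (.leaf 13) (.leaf 13)) (.leaf 13))) (.bis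
  1 4 1 2 194 (.leaf 13) (.leaf 13)))) (.bis 0 3 2 1 166 (.bis 1 3 1 1 191 (.bis 3 5 1 2 158
  (.leaf 6) (.bis 2 4 1 2 185 (.leaf 13) (.leaf 13))) (.bis 1 4 1 2 194 (.leaf 6) (.leaf 6)))
  (.bis 0 2 2 1 139 (.leaf 6) (.bis 0 1 2 1 140 (.leaf 6) (.bis 0 5 1 1 141 (.leaf 6) (.leaf
  41)))))) (.bis 0 2 1 2 143 (.bis 2 5 2 1 118 (.bis 0 3 1 1 186 (.leaf 13) (.leaf 6)) (.bis 2 3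
  4 1 187 (.leaf 82) (.bis 1 2 1 4 47 (.bis 2 4 2 1 188 (.leaf 6) (.leaf 4)) (.bis 0 1 1 1 145
  (.bis 1 4 1 2 194 (.leaf 6) (.leaf 6)) (.leaf 6))))) (.bis 0 3 2 1 166 (.bis 2 3 1 1 186 (.leaf
  13) (.leaf 6)) (.bis 0 6 2 1 139 (.leaf 6) (.bis 0 1 2 1 140 (.leaf 6) (.bis 0 5 1 1 141 (.leaf
  6) (.leaf 41))))))) (.bis 1 3 4 1 195 (.bis 0 2 1 2 143 (.bis 2 5 2 1 118 (.bis 0 3 1 1 186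
  (.leaf 13) (.leaf 6)) (.bis 2 3 4 1 187 (.bis 0 3 1 1 186 (.leaf 13) (.leaf 6)) (.bis 2 6 4 1
  47 (.leaf 6) (.bis 2 4 2 1 188 (.leaf 6) (.leaf 4))))) (.bis 0 3 2 1 166 (.bis 2 3 1 1 186
  (.leaf 13) (.leaf 6)) (.bis 0 6 2 1 140 (.leaf 6) (.bis 0 5 1 1 141 (.leaf 6) (.leaf 41)))))
  (.bis 0 1 1 2 146 (.bis 1 5 2 1 120 (.bis 2 5 2 1 118 (.leaf 6) (.bis 2 6 4 1 47 (.leaf 6)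
  (.bis 2 4 2 1 188 (.leaf 6) (.bis 0 2 1 4 147 (.bis 1 2 1 4 122 (.leaf 4) (.leaf 6)) (.leaf
  6))))) (.bis 1 4 2 1 196 (.bis 2 6 4 1 47 (.bis 4 6 2 1 194 (.leaf 2) (.leaf 6)) (.bis 2 4 2 1
  188 (.leaf 6) (.bis 0 2 1 4 147 (.bis 2 5 4 1 122 (.leaf 6) (.leaf 26)) (.leaf 6)))) (.bis 1 2
  1 1 41 (.bis 2 6 4 1 47 (.leaf 2) (.bis 0 2 1 4 147 (.bis 2 5 4 1 122 (.leaf 2) (.bis 2 4 4 1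
  197 (.leaf 2) (.leaf 4))) (.leaf 2))) (.leaf 2)))) (.bis 0 2 1 2 143 (.bis 2 5 2 1 118 (.leaf
  6) (.bis 2 6 4 1 47 (.leaf 6) (.bis 2 4 2 1 188 (.leaf 6) (.bis 1 2 1 4 147 (.leaf 4) (.leaf
  6))))) (.bis 0 6 2 1 140 (.bis 1 5 1 2 198 (.leaf 6) (.leaf 6)) (.bis 0 5 1 1 141 (.leaf 6)
  (.leaf 41)))))))) (.bis 0 3 1 1 106 (.bis 3 5 1 1 129 (.bis 1 6 2 1 26 (.bis 2 6 2 1 42 (.bis 0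
  6 1 2 107 (.bis 5 6 1 1 108 (.leaf 39) (.bis 1 4 1 1 191 (.bis 0 5 1 4 111 (.leaf 13) (.leaf
  13)) (.bis 0 5 1 4 111 (.leaf 13) (.leaf 13)))) (.bis 0 5 1 2 114 (.bis 1 4 1 1 191 (.bis 5 6 4
  1 111 (.leaf 13) (.leaf 13)) (.bis 5 6 4 1 111 (.leaf 7) (.leaf 13))) (.leaf 13))) (.bis 2 5 2
  1 118 (.bis 0 5 1 2 114 (.leaf 13) (.leaf 13)) (.bis 2 4 4 1 187 (.leaf 13) (.bis 2 3 4 1 130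
  (.leaf 13) (.bis 1 2 1 4 47 (.bis 0 2 1 4 119 (.leaf 4) (.leaf 4)) (.leaf 6)))))) (.bis 1 4 4 1
  195 (.bis 2 5 2 1 118 (.bis 0 5 1 2 114 (.leaf 13) (.leaf 13)) (.bis 2 4 4 1 187 (.leaf 13)
  (.bis 2 3 4 1 130 (.leaf 5) (.bis 2 6 4 1 47 (.leaf 5) (.bis 0 2 1 4 119 (.leaf 4) (.leaf
  4)))))) (.bis 1 5 2 1 120 (.bis 2 5 2 1 118 (.leaf 13) (.bis 2 3 4 1 130 (.leaf 5) (.bis 2 6 4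
  1 47 (.leaf 2) (.bis 0 2 1 4 119 (.bis 1 2 1 4 122 (.leaf 4) (.leaf 2)) (.leaf 2))))) (.bis 1 3
  4 1 131 (.bis 2 3 4 1 130 (.leaf 5) (.bis 2 6 4 1 47 (.leaf 2) (.bis 0 2 1 4 119 (.bis 2 5 4 1
  122 (.leaf 2) (.bis 1 2 1 8 132 (.leaf 4) (.leaf 2))) (.leaf 2)))) (.bis 1 2 1 1 41 (.bis 2 6 4
  1 47 (.leaf 2) (.bis 0 2 1 4 119 (.bis 2 5 4 1 122 (.leaf 2) (.bis 2 3 8 1 132 (.leaf 2) (.leaf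
  4))) (.leaf 2))) (.leaf 2)))))) (.bis 1 3 2 1 28 (.bis 2 3 2 1 49 (.bis 3 6 1 1 30 (.bis 1 6 1
  2 51 (.bis 2 6 1 2 52 (.bis 0 6 1 2 107 (.bis 5 6 1 2 199 (.bis 4 6 1 2 154 (.leaf 39) (.bis 3
  4 1 1 200 (.leaf 39) (.leaf 39))) (.bis 3 4 1 1 200 (.bis 1 4 1 2 201 (.leaf 31) (.leaf 7))
  (.leaf 7))) (.bis 3 4 1 1 200 (.leaf 31) (.leaf 7))) (.bis 2 4 1 1 202 (.bis 3 4 1 1 200 (.leaf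
  31) (.leaf 7)) (.leaf 7))) (.bis 1 4 1 1 203 (.bis 2 4 1 1 202 (.leaf 31) (.leaf 7)) (.leaf
  7))) (.bis 3 4 2 1 204 (.bis 1 4 1 1 203 (.bis 2 4 1 1 202 (.leaf 31) (.leaf 7)) (.leaf 7))
  (.leaf 22))) (.bis 2 6 2 1 42 (.bis 1 6 1 2 51 (.bis 3 6 1 2 52 (.leaf 39) (.bis 3 4 1 1 202
  (.leaf 31) (.leaf 7))) (.bis 1 4 1 1 203 (.leaf 31) (.leaf 7))) (.bis 2 4 4 1 187 (.bis 1 4 1 1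
  203 (.leaf 31) (.leaf 31)) (.bis 2 5 4 1 130 (.leaf 31) (.bis 1 2 1 4 55 (.bis 0 2 1 4 119
  (.bis 2 3 4 1 82 (.leaf 4) (.leaf 4)) (.leaf 4)) (.leaf 31)))))) (.bis 1 6 2 1 26 (.bis 2 6 2 1
  42 (.bis 3 6 1 2 51 (.bis 0 6 1 2 107 (.bis 5 6 1 2 199 (.bis 4 6 1 2 154 (.leaf 39) (.leaf
  39)) (.bis 1 4 1 1 191 (.leaf 31) (.leaf 7))) (.leaf 31)) (.bis 3 4 1 1 203 (.leaf 31) (.leaf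
  7))) (.bis 2 4 4 1 187 (.leaf 31) (.bis 2 5 4 1 130 (.leaf 31) (.bis 1 2 1 4 47 (.bis 2 3 4 1
  55 (.leaf 31) (.bis 0 2 1 4 119 (.leaf 4) (.leaf 4))) (.leaf 31))))) (.bis 1 4 4 1 195 (.bis 2
  4 4 1 187 (.leaf 31) (.bis 2 5 4 1 130 (.leaf 5) (.bis 2 3 4 1 55 (.leaf 5) (.bis 2 6 4 1 47
  (.leaf 5) (.bis 0 2 1 4 119 (.leaf 4) (.leaf 4)))))) (.bis 1 5 4 1 131 (.bis 2 5 4 1 130 (.leaf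
  5) (.bis 2 3 4 1 55 (.leaf 2) (.bis 2 6 4 1 47 (.leaf 2) (.bis 0 2 1 4 119 (.bis 1 2 1 8 132
  (.leaf 4) (.leaf 2)) (.leaf 2))))) (.bis 1 2 1 1 41 (.bis 2 3 4 1 55 (.leaf 2) (.bis 2 6 4 1 47
  (.leaf 2) (.bis 0 2 1 4 119 (.bis 2 5 8 1 132 (.leaf 2) (.leaf 4)) (.leaf 2)))) (.leaf 2)))))))
  (.bis 1 6 2 1 26 (.bis 2 6 2 1 42 (.bis 0 6 1 1 138 (.bis 3 6 1 2 107 (.bis 5 6 1 1 108 (.leaf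
  39) (.bis 1 4 1 1 191 (.bis 3 5 1 4 111 (.leaf 13) (.leaf 13)) (.bis 3 5 1 4 111 (.leaf 13)
  (.leaf 13)))) (.bis 3 5 1 2 114 (.bis 1 4 1 1 191 (.bis 5 6 4 1 111 (.leaf 13) (.leaf 13))
  (.bis 5 6 4 1 111 (.leaf 13) (.leaf 6))) (.leaf 13))) (.bis 0 4 2 1 166 (.bis 3 5 1 2 114
  (.leaf 13) (.leaf 13)) (.bis 0 2 2 1 139 (.bis 3 5 1 2 114 (.leaf 6) (.leaf 6)) (.bis 0 1 2 1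
  140 (.bis 3 5 1 2 114 (.leaf 6) (.leaf 6)) (.bis 0 5 1 1 141 (.bis 3 5 1 2 114 (.leaf 6) (.leaf
  6)) (.leaf 51)))))) (.bis 0 2 1 2 143 (.bis 2 5 2 1 118 (.bis 3 5 1 2 114 (.bis 0 4 1 1 186
  (.leaf 13) (.leaf 6)) (.bis 0 4 1 1 186 (.leaf 13) (.leaf 6))) (.bis 2 4 4 1 187 (.bis 0 4 1 1
  186 (.leaf 13) (.leaf 6)) (.bis 1 2 1 4 47 (.bis 2 3 4 1 119 (.leaf 4) (.leaf 4)) (.leaf 6))))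
  (.bis 0 4 2 1 166 (.bis 3 5 1 2 114 (.bis 2 4 1 1 186 (.leaf 13) (.leaf 6)) (.bis 2 4 1 1 186
  (.leaf 13) (.leaf 6))) (.bis 0 6 2 1 139 (.bis 3 5 1 2 114 (.leaf 6) (.leaf 6)) (.bis 0 1 2 1
  140 (.bis 3 5 1 2 114 (.leaf 6) (.leaf 6)) (.bis 0 5 1 1 141 (.bis 3 5 1 2 114 (.leaf 6) (.leaf
  6)) (.leaf 51))))))) (.bis 1 4 4 1 195 (.bis 0 2 1 2 143 (.bis 2 5 2 1 118 (.bis 3 5 1 2 114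
  (.bis 0 4 1 1 186 (.leaf 13) (.leaf 6)) (.bis 0 4 1 1 186 (.leaf 13) (.leaf 6))) (.bis 2 4 4 1
  187 (.leaf 82) (.bis 2 6 4 1 47 (.leaf 6) (.bis 2 3 4 1 119 (.leaf 4) (.leaf 4))))) (.bis 0 4 2
  1 166 (.bis 3 5 1 2 114 (.bis 2 4 1 1 186 (.leaf 13) (.leaf 6)) (.bis 2 4 1 1 186 (.leaf 13)
  (.leaf 6))) (.bis 0 6 2 1 140 (.bis 3 5 1 2 114 (.leaf 6) (.leaf 6)) (.bis 0 5 1 1 141 (.bis 3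
  5 1 2 114 (.leaf 6) (.leaf 6)) (.leaf 51))))) (.bis 0 1 1 2 146 (.bis 1 5 2 1 120 (.bis 2 5 2 1
  118 (.leaf 6) (.bis 2 6 4 1 47 (.leaf 2) (.bis 2 3 4 1 119 (.leaf 2) (.bis 0 2 1 4 147 (.bis 1
  2 1 4 122 (.leaf 4) (.leaf 2)) (.leaf 2))))) (.bis 1 2 1 1 41 (.bis 2 6 4 1 47 (.leaf 2) (.bis
  2 3 4 1 119 (.leaf 2) (.bis 0 2 1 4 147 (.bis 2 5 4 1 122 (.leaf 2) (.leaf 4)) (.leaf 2))))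
  (.leaf 2))) (.bis 0 2 1 2 143 (.bis 2 5 2 1 118 (.bis 3 5 1 2 114 (.leaf 6) (.leaf 6)) (.bis 2
  6 4 1 47 (.leaf 6) (.bis 2 3 4 1 119 (.leaf 6) (.bis 1 2 1 4 147 (.leaf 4) (.leaf 6))))) (.bis
  0 6 2 1 140 (.bis 3 5 1 2 114 (.bis 1 5 1 2 198 (.bis 2 5 1 2 144 (.leaf 6) (.leaf 6)) (.leaf
  6)) (.leaf 6)) (.bis 0 5 1 1 141 (.bis 3 5 1 2 114 (.leaf 6) (.leaf 6)) (.leaf 51)))))))))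

def lc2 : List Vr := [⟨[60,0,0,0,69,0,0], 78363, 0⟩, ⟨[0,24,0,0,0,0,0], 13824, 0⟩, ⟨[0,0,27,0,0,0,
  0], 14580, 0⟩, ⟨[0,0,0,69,0,0,70], 52923, 0⟩, ⟨[0,0,0,0,69,0,0], 14283, 0⟩, ⟨[0,0,0,0,69,42,0],
  74763, 0⟩, ⟨[0,0,0,0,69,0,70], 52923, 0⟩]

theorem lk2 : chkTr lowT (leafLow 4 lowB) lt2 lc2 = true := by decide +kernel

def lt3 : Tr ℕ := (.bis 0 3 2 1 70 (.bis 3 4 1 1 106 (.bis 4 5 1 2 133 (.bis 5 6 2 1 15 (.bis 1 6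
  2 1 26 (.bis 2 6 2 1 42 (.bis 0 6 1 2 75 (.bis 4 6 1 2 134 (.leaf 22) (.bis 3 5 1 1 112 (.bis 2
  4 1 1 135 (.leaf 3) (.leaf 7)) (.bis 2 4 1 1 135 (.leaf 3) (.leaf 7)))) (.bis 0 5 1 1 71 (.leaf
  14) (.bis 0 2 1 1 80 (.leaf 14) (.leaf 3)))) (.bis 2 5 4 1 36 (.bis 0 5 1 1 71 (.leaf 14) (.bis
  0 6 1 1 80 (.leaf 14) (.leaf 3))) (.bis 0 2 1 4 79 (.bis 2 4 4 1 136 (.leaf 20) (.bis 1 2 1 4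
  47 (.bis 2 3 4 1 119 (.leaf 4) (.bis 2 6 4 1 81 (.leaf 4) (.leaf 4))) (.leaf 7))) (.bis 0 6 1 1
  80 (.leaf 20) (.leaf 3))))) (.bis 2 5 4 1 36 (.bis 0 5 1 1 71 (.bis 1 5 4 1 22 (.leaf 3) (.bis
  1 3 4 1 121 (.leaf 2) (.bis 0 1 1 8 74 (.leaf 2) (.leaf 2)))) (.bis 0 1 1 4 72 (.bis 1 3 4 1
  121 (.leaf 2) (.bis 1 5 8 1 74 (.leaf 2) (.leaf 2))) (.leaf 3))) (.bis 0 2 1 4 79 (.bis 2 4 4 1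
  136 (.bis 1 3 4 1 121 (.leaf 2) (.bis 1 5 8 1 37 (.leaf 2) (.leaf 2))) (.bis 1 2 1 1 41 (.bis 2
  6 4 1 47 (.leaf 2) (.bis 2 3 4 1 119 (.leaf 2) (.leaf 4))) (.bis 1 3 4 1 121 (.leaf 2) (.leaf
  2)))) (.bis 0 1 1 4 72 (.bis 1 3 4 1 121 (.leaf 2) (.leaf 2)) (.leaf 3))))) (.bis 2 5 1 1 32
  (.bis 0 5 1 4 73 (.bis 3 5 1 4 123 (.bis 1 5 1 1 20 (.bis 4 5 1 4 137 (.leaf 32) (.leaf 3))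
  (.bis 1 6 4 1 22 (.leaf 3) (.bis 0 1 1 8 77 (.leaf 10) (.leaf 3)))) (.bis 1 6 4 1 22 (.bis 3 6
  1 1 112 (.leaf 3) (.leaf 3)) (.bis 1 3 4 1 121 (.leaf 3) (.bis 0 1 1 8 77 (.leaf 2) (.leaf
  3))))) (.bis 0 6 1 1 71 (.bis 1 6 4 1 22 (.leaf 3) (.bis 1 3 4 1 121 (.leaf 3) (.bis 0 1 1 8 74
  (.leaf 10) (.leaf 3)))) (.bis 0 2 1 2 78 (.bis 1 3 4 1 121 (.leaf 3) (.bis 1 6 8 1 74 (.leaf 3)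
  (.leaf 10))) (.bis 0 1 1 4 72 (.bis 1 3 4 1 121 (.leaf 3) (.bis 1 6 8 1 74 (.leaf 3) (.leaf
  10))) (.leaf 3))))) (.bis 2 6 4 1 36 (.bis 0 6 1 1 71 (.bis 1 6 4 1 22 (.leaf 3) (.bis 1 3 4 1
  121 (.leaf 2) (.bis 0 1 1 8 74 (.leaf 2) (.leaf 2)))) (.bis 0 5 1 2 78 (.bis 1 3 4 1 121 (.leaf
  2) (.bis 1 6 8 1 74 (.leaf 2) (.leaf 2))) (.bis 0 1 1 4 72 (.bis 1 3 4 1 121 (.leaf 2) (.bis 1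
  6 8 1 74 (.leaf 2) (.leaf 2))) (.leaf 3)))) (.bis 0 2 1 4 79 (.bis 2 4 4 1 136 (.bis 1 3 4 1
  121 (.leaf 2) (.bis 1 6 8 1 37 (.leaf 2) (.leaf 2))) (.bis 1 2 1 1 41 (.bis 2 3 4 1 119 (.leaf
  2) (.bis 2 5 2 1 39 (.leaf 2) (.leaf 4))) (.bis 1 3 4 1 121 (.leaf 2) (.leaf 2)))) (.bis 0 5 1
  2 78 (.bis 1 3 4 1 121 (.leaf 2) (.bis 1 6 8 1 37 (.leaf 2) (.leaf 2))) (.bis 0 1 1 4 72 (.bis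
  1 3 4 1 121 (.leaf 2) (.leaf 2)) (.leaf 3))))))) (.bis 1 6 2 1 26 (.bis 2 6 2 1 42 (.bis 0 6 1
  2 75 (.bis 4 6 1 1 138 (.bis 5 6 1 2 134 (.leaf 39) (.bis 2 5 1 1 135 (.leaf 14) (.leaf 14)))
  (.bis 2 4 1 2 139 (.bis 1 4 1 2 140 (.bis 0 4 1 4 205 (.bis 3 4 1 2 142 (.leaf 51) (.leaf 6))
  (.leaf 14)) (.leaf 14)) (.bis 2 5 1 1 135 (.leaf 14) (.leaf 14)))) (.bis 0 2 1 1 80 (.bis 2 4 1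
  2 139 (.bis 1 4 1 2 140 (.bis 4 6 4 1 205 (.leaf 14) (.bis 0 4 1 4 206 (.leaf 16) (.leaf 6)))
  (.leaf 14)) (.leaf 14)) (.bis 0 4 1 2 207 (.bis 1 4 1 2 140 (.bis 4 6 4 1 205 (.leaf 20) (.bis
  2 4 1 4 206 (.leaf 16) (.leaf 8))) (.leaf 20)) (.leaf 37)))) (.bis 0 2 1 4 79 (.bis 2 4 2 1 143
  (.bis 4 6 2 1 139 (.leaf 20) (.bis 1 4 1 2 140 (.bis 0 4 1 4 208 (.leaf 16) (.leaf 16)) (.leaf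
  20))) (.bis 2 5 4 1 136 (.leaf 20) (.bis 1 2 1 4 47 (.bis 2 3 4 1 119 (.leaf 4) (.leaf 4))
  (.leaf 20)))) (.bis 0 6 1 1 80 (.bis 4 6 2 1 139 (.leaf 20) (.bis 1 4 1 2 140 (.bis 2 4 1 4 208
  (.bis 0 4 1 4 206 (.leaf 16) (.leaf 6)) (.leaf 16)) (.leaf 20))) (.bis 0 4 1 2 207 (.bis 1 4 1
  2 140 (.bis 2 4 1 4 208 (.bis 4 6 4 1 206 (.leaf 8) (.leaf 16)) (.leaf 8)) (.leaf 20)) (.leaf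
  37))))) (.bis 0 2 1 4 79 (.bis 1 4 2 1 146 (.bis 2 4 2 1 143 (.bis 4 6 2 1 140 (.leaf 20) (.bis
  0 4 1 4 208 (.leaf 16) (.leaf 8))) (.bis 2 5 4 1 136 (.leaf 20) (.bis 2 6 4 1 47 (.leaf 20)
  (.bis 2 3 4 1 119 (.leaf 18) (.bis 1 2 1 4 147 (.leaf 4) (.leaf 18)))))) (.bis 2 5 4 1 136
  (.bis 1 3 4 1 121 (.leaf 2) (.leaf 2)) (.bis 1 2 1 1 41 (.bis 2 6 4 1 47 (.leaf 2) (.bis 2 3 4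
  1 119 (.leaf 2) (.leaf 46))) (.leaf 2)))) (.bis 1 4 2 1 146 (.bis 0 4 1 2 207 (.bis 4 6 2 1 140
  (.leaf 20) (.bis 2 4 1 4 208 (.leaf 16) (.leaf 8))) (.leaf 37)) (.bis 0 1 1 4 72 (.leaf 2)
  (.leaf 37)))))) (.bis 3 5 1 2 14 (.bis 5 6 2 1 15 (.bis 1 6 2 1 26 (.bis 2 6 2 1 42 (.bis 0 6 1
  2 75 (.leaf 22) (.bis 0 5 1 1 71 (.leaf 7) (.bis 0 2 1 1 80 (.leaf 7) (.leaf 3)))) (.bis 2 3 4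
  1 35 (.bis 0 5 1 1 71 (.leaf 7) (.bis 0 6 1 1 80 (.leaf 7) (.leaf 3))) (.bis 2 5 4 1 36 (.bis 0
  5 1 1 71 (.leaf 7) (.bis 0 6 1 1 80 (.leaf 7) (.leaf 3))) (.bis 0 2 1 4 79 (.bis 1 2 1 4 47
  (.bis 2 4 4 1 119 (.leaf 4) (.bis 2 6 4 1 81 (.leaf 4) (.leaf 4))) (.leaf 7)) (.bis 0 6 1 1 80
  (.leaf 7) (.leaf 3)))))) (.bis 2 3 4 1 35 (.bis 0 5 1 1 71 (.bis 1 3 4 1 21 (.leaf 3) (.bis 1 5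
  4 1 22 (.leaf 3) (.bis 1 4 4 1 121 (.leaf 2) (.bis 0 1 1 8 74 (.leaf 2) (.leaf 2))))) (.bis 1 3
  4 1 21 (.leaf 3) (.bis 0 1 1 4 72 (.bis 1 4 4 1 121 (.leaf 2) (.leaf 2)) (.leaf 3)))) (.bis 2 5
  4 1 36 (.bis 0 5 1 1 71 (.bis 1 5 4 1 22 (.leaf 3) (.bis 1 4 4 1 121 (.leaf 2) (.bis 0 1 1 8 74
  (.leaf 2) (.leaf 2)))) (.bis 0 1 1 4 72 (.bis 1 4 4 1 121 (.leaf 2) (.bis 1 5 8 1 74 (.leaf 2)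
  (.leaf 2))) (.leaf 3))) (.bis 0 2 1 4 79 (.bis 1 2 1 1 41 (.bis 2 6 4 1 47 (.leaf 2) (.bis 2 4
  4 1 119 (.leaf 2) (.leaf 4))) (.bis 1 4 4 1 121 (.leaf 2) (.leaf 2))) (.bis 0 1 1 4 72 (.bis 1
  4 4 1 121 (.leaf 2) (.leaf 2)) (.leaf 3)))))) (.bis 2 5 1 1 32 (.bis 0 5 1 4 73 (.bis 4 5 1 4
  123 (.bis 1 5 1 1 20 (.bis 3 5 1 4 19 (.leaf 32) (.leaf 19)) (.bis 1 3 4 1 21 (.leaf 3) (.bis 1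
  6 4 1 22 (.leaf 3) (.bis 0 1 1 8 77 (.leaf 10) (.leaf 3))))) (.bis 1 3 4 1 21 (.bis 3 4 1 1 127
  (.leaf 3) (.leaf 3)) (.bis 1 6 4 1 22 (.bis 4 6 1 1 112 (.leaf 3) (.leaf 3)) (.bis 1 4 4 1 121
  (.leaf 3) (.leaf 10))))) (.bis 0 6 1 1 71 (.bis 1 3 4 1 21 (.bis 3 4 1 1 127 (.leaf 3) (.leaf
  3)) (.bis 1 6 4 1 22 (.leaf 3) (.bis 1 4 4 1 121 (.leaf 3) (.bis 0 1 1 8 74 (.leaf 10) (.leaf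
  3))))) (.bis 1 3 4 1 21 (.leaf 3) (.bis 0 2 1 2 78 (.bis 1 4 4 1 121 (.leaf 3) (.bis 1 6 8 1 74
  (.leaf 3) (.leaf 10))) (.bis 0 1 1 4 72 (.bis 1 4 4 1 121 (.leaf 3) (.bis 1 6 8 1 74 (.leaf 3)
  (.leaf 10))) (.leaf 3)))))) (.bis 2 3 4 1 35 (.bis 0 6 1 1 71 (.bis 1 3 4 1 21 (.leaf 3) (.bis
  1 6 4 1 22 (.leaf 3) (.bis 1 4 4 1 121 (.leaf 2) (.leaf 2)))) (.bis 1 3 4 1 21 (.bis 0 5 1 2 78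
  (.leaf 3) (.leaf 3)) (.bis 0 5 1 2 78 (.bis 1 4 4 1 121 (.leaf 2) (.bis 1 6 8 1 74 (.leaf 2)
  (.leaf 2))) (.bis 0 1 1 4 72 (.bis 1 4 4 1 121 (.leaf 2) (.leaf 2)) (.leaf 3))))) (.bis 2 6 4 1
  36 (.bis 0 6 1 1 71 (.bis 1 6 4 1 22 (.leaf 3) (.bis 1 4 4 1 121 (.leaf 2) (.bis 0 1 1 8 74
  (.leaf 2) (.leaf 2)))) (.bis 0 5 1 2 78 (.bis 1 4 4 1 121 (.leaf 2) (.bis 1 6 8 1 74 (.leaf 2)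
  (.leaf 2))) (.bis 0 1 1 4 72 (.bis 1 4 4 1 121 (.leaf 2) (.bis 1 6 8 1 74 (.leaf 2) (.leaf 2)))
  (.leaf 3)))) (.bis 0 2 1 4 79 (.bis 1 2 1 1 41 (.bis 2 4 4 1 119 (.leaf 2) (.bis 2 5 2 1 39
  (.leaf 2) (.leaf 4))) (.bis 1 4 4 1 121 (.leaf 2) (.leaf 2))) (.bis 0 5 1 2 78 (.bis 1 4 4 1
  121 (.leaf 2) (.bis 1 3 8 1 56 (.leaf 2) (.leaf 2))) (.bis 0 1 1 4 72 (.bis 1 4 4 1 121 (.leaf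
  2) (.leaf 2)) (.leaf 3)))))))) (.bis 1 3 2 1 28 (.bis 2 3 2 1 49 (.bis 0 6 1 2 75 (.bis 3 6 1 1
  30 (.leaf 22) (.leaf 22)) (.bis 0 3 1 2 76 (.leaf 22) (.leaf 33))) (.bis 2 6 2 1 42 (.bis 0 6 1
  2 75 (.leaf 22) (.bis 0 2 1 1 80 (.leaf 7) (.leaf 33))) (.bis 2 5 4 1 35 (.bis 0 6 1 1 80
  (.leaf 7) (.leaf 33)) (.bis 0 2 1 4 79 (.bis 1 2 1 4 55 (.bis 2 4 4 1 119 (.leaf 4) (.bis 2 3 4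
  1 82 (.leaf 4) (.leaf 4))) (.leaf 7)) (.bis 0 6 1 1 80 (.leaf 7) (.leaf 33)))))) (.bis 1 6 2 1
  26 (.bis 2 6 2 1 42 (.bis 0 6 1 2 75 (.leaf 22) (.bis 0 2 1 1 80 (.leaf 7) (.leaf 3))) (.bis 2
  5 4 1 35 (.bis 0 6 1 1 80 (.leaf 7) (.leaf 3)) (.bis 0 2 1 4 79 (.bis 1 2 1 4 47 (.bis 2 3 4 1
  55 (.leaf 7) (.bis 2 4 4 1 119 (.leaf 4) (.bis 2 6 4 1 81 (.leaf 4) (.leaf 4)))) (.leaf 7))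
  (.bis 0 6 1 1 80 (.leaf 7) (.leaf 3))))) (.bis 2 5 4 1 35 (.bis 1 5 4 1 21 (.bis 0 5 1 1 83
  (.leaf 3) (.leaf 3)) (.bis 0 1 1 4 72 (.bis 1 4 4 1 121 (.leaf 2) (.leaf 2)) (.leaf 3))) (.bis
  0 2 1 4 79 (.bis 1 2 1 1 41 (.bis 2 3 4 1 55 (.leaf 2) (.bis 2 6 4 1 47 (.leaf 2) (.bis 2 4 4 1
  119 (.leaf 2) (.leaf 4)))) (.bis 1 4 4 1 121 (.leaf 2) (.leaf 2))) (.bis 0 1 1 4 72 (.bis 1 4 4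
  1 121 (.leaf 2) (.leaf 2)) (.leaf 3)))))))) (.bis 0 6 2 1 84 (.bis 4 5 1 2 133 (.bis 5 6 2 1 15
  (.bis 1 6 2 1 26 (.bis 2 6 2 1 42 (.bis 3 6 1 2 75 (.bis 4 6 1 2 134 (.bis 0 6 1 2 89 (.leaf
  22) (.leaf 54)) (.leaf 54)) (.bis 3 5 1 1 71 (.leaf 54) (.bis 2 3 1 1 80 (.leaf 3) (.leaf
  20)))) (.bis 2 5 4 1 36 (.bis 3 5 1 1 71 (.leaf 54) (.bis 3 6 1 1 80 (.leaf 20) (.leaf 3)))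
  (.bis 0 2 1 4 91 (.bis 2 3 4 1 79 (.bis 3 6 1 1 80 (.leaf 20) (.leaf 3)) (.bis 2 4 4 1 136
  (.leaf 20) (.bis 1 2 1 4 47 (.bis 2 6 4 1 81 (.leaf 4) (.leaf 4)) (.leaf 7)))) (.bis 3 6 1 1 80
  (.leaf 20) (.leaf 3))))) (.bis 2 5 4 1 36 (.bis 3 5 1 1 71 (.bis 1 5 4 1 22 (.leaf 3) (.bis 0 1
  1 4 85 (.bis 1 3 8 1 74 (.leaf 2) (.leaf 2)) (.leaf 3))) (.bis 0 1 1 4 85 (.bis 1 3 4 1 72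
  (.leaf 3) (.leaf 2)) (.leaf 3))) (.bis 0 2 1 4 91 (.bis 2 3 4 1 79 (.bis 1 3 4 1 72 (.leaf 3)
  (.leaf 2)) (.bis 2 4 4 1 136 (.bis 1 5 8 1 37 (.leaf 2) (.leaf 2)) (.bis 1 2 1 1 41 (.bis 2 6 4
  1 47 (.leaf 2) (.leaf 4)) (.leaf 2)))) (.bis 0 1 1 4 85 (.bis 1 3 4 1 72 (.leaf 3) (.leaf 2))
  (.leaf 3))))) (.bis 2 5 1 1 32 (.bis 0 5 1 4 86 (.bis 3 5 1 4 73 (.bis 1 5 1 1 20 (.bis 4 5 1 4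
  137 (.leaf 32) (.leaf 3)) (.bis 1 6 4 1 22 (.leaf 3) (.bis 0 1 1 8 88 (.leaf 10) (.leaf 3))))
  (.bis 3 6 1 1 71 (.bis 1 6 4 1 22 (.leaf 3) (.bis 1 3 8 1 74 (.leaf 3) (.bis 0 1 1 8 88 (.leaf
  10) (.leaf 3)))) (.bis 2 3 2 1 78 (.bis 1 3 4 1 72 (.leaf 3) (.bis 1 6 8 1 74 (.leaf 3) (.bis 0
  1 1 8 88 (.leaf 10) (.leaf 3)))) (.bis 1 6 8 1 74 (.leaf 3) (.bis 0 1 1 8 88 (.leaf 10) (.leaf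
  3)))))) (.bis 3 6 1 1 71 (.bis 1 6 4 1 22 (.leaf 3) (.bis 0 2 1 2 90 (.bis 1 3 8 1 74 (.leaf 3)
  (.bis 1 5 8 1 88 (.leaf 3) (.leaf 2))) (.bis 0 1 1 4 85 (.bis 1 3 8 1 74 (.leaf 3) (.leaf 10))
  (.leaf 3)))) (.bis 0 2 1 2 90 (.bis 2 3 2 1 78 (.bis 1 3 4 1 72 (.leaf 3) (.bis 1 6 8 1 74
  (.leaf 3) (.leaf 10))) (.bis 1 6 8 1 74 (.leaf 3) (.bis 1 5 8 1 88 (.leaf 3) (.leaf 2)))) (.bis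
  0 1 1 4 85 (.bis 1 3 4 1 72 (.leaf 3) (.bis 1 6 8 1 74 (.leaf 3) (.leaf 10))) (.leaf 3)))))
  (.bis 2 6 4 1 36 (.bis 3 6 1 1 71 (.bis 1 6 4 1 22 (.bis 0 5 1 2 90 (.leaf 3) (.leaf 3)) (.bis
  0 5 1 2 90 (.bis 1 3 8 1 74 (.leaf 2) (.leaf 2)) (.bis 0 1 1 4 85 (.bis 1 3 8 1 74 (.leaf 2)
  (.leaf 2)) (.leaf 3)))) (.bis 0 5 1 2 90 (.bis 3 5 1 2 78 (.bis 1 6 8 1 74 (.leaf 2) (.bis 1 2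
  8 1 37 (.leaf 2) (.leaf 2))) (.bis 1 3 4 1 72 (.leaf 3) (.bis 1 6 8 1 74 (.leaf 2) (.leaf 2))))
  (.bis 0 1 1 4 85 (.bis 1 3 4 1 72 (.leaf 3) (.bis 1 6 8 1 74 (.leaf 2) (.leaf 2))) (.leaf 3))))
  (.bis 0 2 1 4 91 (.bis 2 3 4 1 79 (.bis 3 5 1 2 78 (.bis 1 6 8 1 37 (.leaf 2) (.leaf 2)) (.bis
  1 3 4 1 72 (.leaf 3) (.bis 1 6 8 1 37 (.leaf 2) (.leaf 2)))) (.bis 2 4 4 1 136 (.bis 1 6 8 1 37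
  (.leaf 2) (.leaf 2)) (.bis 1 2 1 1 41 (.bis 2 5 2 1 39 (.leaf 2) (.leaf 4)) (.bis 1 6 8 1 37
  (.leaf 2) (.leaf 2))))) (.bis 0 5 1 2 90 (.bis 3 5 1 2 78 (.bis 1 6 8 1 37 (.leaf 2) (.leaf 2))
  (.bis 1 3 4 1 72 (.leaf 3) (.bis 1 6 8 1 37 (.leaf 2) (.leaf 2)))) (.bis 0 1 1 4 85 (.bis 1 3 4
  1 72 (.leaf 3) (.leaf 2)) (.leaf 3))))))) (.bis 1 6 2 1 26 (.bis 2 6 2 1 42 (.bis 3 6 1 2 75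
  (.bis 4 6 1 1 138 (.bis 5 6 1 2 134 (.bis 0 6 1 2 89 (.leaf 39) (.leaf 20)) (.leaf 20)) (.bis 2
  4 1 2 139 (.bis 1 4 1 2 140 (.bis 3 4 1 4 205 (.leaf 51) (.leaf 20)) (.leaf 20)) (.leaf 20)))
  (.bis 2 3 1 1 80 (.bis 3 4 1 2 207 (.bis 1 4 1 2 140 (.bis 4 6 4 1 205 (.leaf 20) (.bis 2 4 1 4
  206 (.leaf 16) (.leaf 8))) (.leaf 20)) (.leaf 37)) (.bis 2 4 1 2 139 (.bis 1 4 1 2 140 (.bis 4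
  6 4 1 205 (.leaf 20) (.bis 3 4 1 4 206 (.leaf 16) (.leaf 16))) (.leaf 20)) (.leaf 20)))) (.bis
  0 2 1 4 91 (.bis 2 3 4 1 79 (.bis 3 6 1 1 80 (.bis 4 6 2 1 139 (.leaf 20) (.bis 1 4 1 2 140
  (.bis 2 4 1 4 208 (.bis 3 4 1 4 206 (.leaf 16) (.leaf 6)) (.leaf 16)) (.leaf 20))) (.bis 3 4 1
  2 207 (.bis 1 4 1 2 140 (.bis 2 4 1 4 208 (.bis 4 6 4 1 206 (.leaf 8) (.leaf 16)) (.leaf 8))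
  (.leaf 20)) (.leaf 37))) (.bis 2 4 2 1 143 (.bis 4 6 2 1 139 (.leaf 20) (.bis 1 4 1 2 140 (.bis
  3 4 1 4 208 (.leaf 16) (.leaf 16)) (.leaf 20))) (.bis 2 5 4 1 136 (.leaf 20) (.bis 1 2 1 4 47
  (.leaf 4) (.leaf 20))))) (.bis 3 6 1 1 80 (.bis 4 6 2 1 139 (.leaf 20) (.bis 1 4 1 2 140 (.bis
  3 4 1 4 206 (.leaf 16) (.leaf 16)) (.leaf 20))) (.bis 3 4 1 2 207 (.bis 1 4 1 2 140 (.bis 4 6 4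
  1 206 (.leaf 8) (.leaf 16)) (.leaf 20)) (.leaf 37))))) (.bis 0 2 1 4 91 (.bis 2 3 4 1 79 (.bis
  1 4 2 1 146 (.bis 3 4 1 2 207 (.bis 4 6 2 1 140 (.leaf 20) (.bis 2 4 1 4 208 (.leaf 16) (.leaf
  8))) (.leaf 37)) (.bis 1 3 4 1 72 (.leaf 10) (.leaf 2))) (.bis 1 4 2 1 146 (.bis 2 4 2 1 143
  (.bis 4 6 2 1 140 (.leaf 20) (.bis 3 4 1 4 208 (.leaf 16) (.leaf 8))) (.bis 2 5 4 1 136 (.leaf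
  20) (.bis 2 6 4 1 47 (.leaf 20) (.bis 1 2 1 4 147 (.leaf 4) (.leaf 18))))) (.bis 2 5 4 1 136
  (.leaf 2) (.bis 1 2 1 1 41 (.bis 2 6 4 1 47 (.leaf 2) (.bis 2 4 4 1 147 (.leaf 2) (.leaf 4)))
  (.leaf 2))))) (.bis 1 4 2 1 146 (.bis 3 4 1 2 207 (.bis 4 6 2 1 140 (.leaf 20) (.leaf 16))
  (.leaf 37)) (.bis 0 1 1 4 85 (.bis 1 3 4 1 72 (.leaf 10) (.leaf 2)) (.leaf 10)))))) (.bis 0 5 1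
  1 92 (.bis 4 5 1 2 133 (.bis 2 5 1 1 32 (.bis 3 5 1 4 73 (.bis 5 6 4 1 86 (.bis 2 6 2 1 90
  (.bis 1 6 4 1 85 (.leaf 10) (.bis 0 1 1 2 94 (.bis 1 3 8 1 77 (.leaf 3) (.leaf 10)) (.leaf
  10))) (.bis 0 1 1 2 94 (.bis 1 3 8 1 77 (.leaf 3) (.leaf 10)) (.leaf 10))) (.bis 1 5 1 1 20
  (.bis 0 5 1 2 93 (.leaf 32) (.leaf 32)) (.bis 0 1 1 2 94 (.bis 1 3 8 1 77 (.leaf 3) (.leaf 10))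
  (.leaf 10)))) (.bis 2 3 2 1 78 (.bis 1 3 4 1 72 (.leaf 10) (.bis 1 6 4 1 85 (.leaf 10) (.bis 0
  1 1 2 94 (.leaf 10) (.leaf 10)))) (.bis 2 6 2 1 90 (.bis 1 6 4 1 85 (.leaf 10) (.bis 0 1 1 2 94
  (.leaf 10) (.leaf 10))) (.bis 0 1 1 2 94 (.bis 1 5 8 1 77 (.leaf 3) (.leaf 2)) (.leaf 10)))))
  (.bis 0 2 1 2 95 (.bis 2 3 4 1 79 (.bis 3 5 1 2 78 (.bis 5 6 2 1 90 (.bis 1 6 4 1 85 (.leaf 3)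
  (.leaf 2)) (.bis 1 4 4 1 209 (.leaf 2) (.leaf 2))) (.bis 1 3 4 1 72 (.leaf 3) (.bis 1 6 4 1 85
  (.leaf 3) (.leaf 2)))) (.bis 2 6 4 1 91 (.bis 5 6 2 1 90 (.bis 1 6 4 1 85 (.leaf 3) (.leaf 2))
  (.bis 1 4 4 1 209 (.leaf 2) (.leaf 2))) (.bis 2 4 4 1 136 (.bis 1 4 4 1 209 (.leaf 2) (.leaf
  2)) (.bis 1 2 1 1 41 (.bis 2 5 2 1 39 (.leaf 2) (.leaf 26)) (.leaf 2))))) (.bis 3 5 1 2 78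
  (.bis 5 6 2 1 90 (.bis 1 6 4 1 85 (.leaf 10) (.bis 0 1 1 2 94 (.leaf 2) (.leaf 10))) (.bis 0 1
  1 2 94 (.leaf 2) (.leaf 10))) (.bis 1 3 4 1 72 (.leaf 10) (.bis 1 6 4 1 85 (.leaf 10) (.leaf
  10)))))) (.bis 0 2 1 2 95 (.bis 2 3 4 1 79 (.bis 1 4 2 1 146 (.bis 3 4 1 2 207 (.bis 2 4 1 4
  208 (.bis 0 4 1 2 210 (.leaf 16) (.leaf 8)) (.leaf 8)) (.leaf 8)) (.bis 1 3 4 1 72 (.leaf 8)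
  (.leaf 10))) (.bis 2 6 4 1 91 (.bis 1 4 2 1 146 (.bis 3 4 1 4 208 (.bis 0 4 1 2 210 (.leaf 16)
  (.leaf 8)) (.leaf 8)) (.bis 1 6 4 1 85 (.leaf 8) (.leaf 2))) (.bis 1 4 2 1 146 (.bis 2 4 2 1
  143 (.bis 3 4 1 4 208 (.bis 0 4 1 2 210 (.leaf 16) (.leaf 8)) (.leaf 8)) (.bis 2 5 4 1 136
  (.leaf 8) (.bis 1 2 1 4 147 (.bis 0 2 1 4 211 (.leaf 4) (.leaf 8)) (.leaf 8)))) (.bis 2 5 4 1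
  136 (.leaf 2) (.bis 1 2 1 1 41 (.bis 2 4 4 1 147 (.leaf 2) (.leaf 26)) (.leaf 2)))))) (.bis 1 4
  2 1 146 (.bis 0 4 1 1 212 (.bis 3 4 1 2 207 (.bis 2 4 1 2 210 (.leaf 16) (.leaf 8)) (.leaf 8))
  (.leaf 10)) (.bis 1 3 4 1 72 (.leaf 10) (.bis 1 6 4 1 85 (.leaf 10) (.leaf 10)))))) (.bis 0 2 1
  1 98 (.bis 2 5 2 1 95 (.bis 1 4 2 1 146 (.bis 4 5 1 1 212 (.leaf 29) (.bis 3 4 1 2 207 (.bis 2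
  4 1 2 210 (.leaf 16) (.leaf 8)) (.leaf 8))) (.bis 1 3 4 1 72 (.leaf 29) (.bis 1 6 4 1 85 (.leaf
  29) (.leaf 50)))) (.bis 2 3 4 1 79 (.bis 1 4 2 1 146 (.bis 3 4 1 2 207 (.bis 2 4 1 4 208 (.bis
  4 5 2 1 210 (.leaf 8) (.leaf 16)) (.leaf 8)) (.leaf 8)) (.bis 1 3 4 1 72 (.leaf 8) (.bis 1 6 4
  1 85 (.leaf 8) (.leaf 50)))) (.bis 2 6 4 1 91 (.bis 1 4 2 1 146 (.bis 3 4 1 4 208 (.bis 4 5 2 1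
  210 (.leaf 8) (.leaf 16)) (.leaf 8)) (.bis 1 6 4 1 85 (.leaf 8) (.leaf 50))) (.bis 1 4 2 1 146
  (.bis 2 4 2 1 143 (.bis 3 4 1 4 208 (.bis 4 5 2 1 210 (.leaf 8) (.leaf 16)) (.leaf 8)) (.bis 0
  2 1 2 101 (.bis 1 2 1 4 147 (.leaf 26) (.leaf 8)) (.leaf 8))) (.bis 1 2 1 1 41 (.bis 0 2 1 2
  101 (.bis 2 4 4 1 147 (.leaf 37) (.leaf 26)) (.leaf 37)) (.leaf 72)))))) (.bis 0 1 1 1 102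
  (.bis 1 4 2 1 146 (.bis 4 5 1 1 212 (.leaf 29) (.bis 3 4 1 2 207 (.bis 0 4 1 1 213 (.leaf 16)
  (.leaf 8)) (.leaf 8))) (.bis 1 3 4 1 72 (.leaf 29) (.bis 1 6 4 1 85 (.leaf 29) (.leaf 50))))
  (.bis 0 4 2 1 214 (.bis 4 5 1 1 212 (.leaf 29) (.bis 3 4 1 2 207 (.bis 1 4 1 1 213 (.bis 2 4 1
  1 215 (.leaf 83) (.leaf 29)) (.leaf 29)) (.leaf 29))) (.leaf 73)))))))

def lc3 : List Vr := [⟨[60,0,0,0,0,0,0], 14400, 0⟩, ⟨[0,24,0,0,0,0,0], 13824, 0⟩, ⟨[0,0,27,0,0,0,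
  0], 14580, 0⟩, ⟨[0,0,0,69,0,0,70], 52923, 0⟩, ⟨[60,0,0,0,69,0,0], 78363, 0⟩, ⟨[0,0,0,0,0,42,0],
  14112, 0⟩, ⟨[0,0,0,0,69,0,70], 52923, 0⟩]

theorem lk3 : chkTr lowT (leafLow 4 lowB) lt3 lc3 = true := by decide +kernel

def lt4 : Tr ℕ := (.bis 3 5 1 2 218 (.bis 0 5 1 2 219 (.bis 5 6 2 1 14 (.bis 4 6 1 1 129 (.bis 1
  6 2 1 28 (.bis 2 6 2 1 49 (.bis 0 6 1 2 220 (.bis 3 6 1 2 221 (.leaf 22) (.bis 2 5 1 1 222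
  (.bis 3 5 1 1 223 (.leaf 7) (.leaf 19)) (.bis 2 3 1 1 224 (.leaf 19) (.leaf 7)))) (.leaf 47))
  (.bis 2 5 4 1 35 (.leaf 47) (.bis 0 2 1 4 225 (.bis 2 4 4 1 130 (.leaf 5) (.bis 1 2 1 4 55
  (.bis 2 3 4 1 226 (.leaf 5) (.bis 2 6 4 1 82 (.leaf 4) (.leaf 4))) (.leaf 5))) (.leaf 5))))
  (.bis 2 5 4 1 35 (.bis 1 5 4 1 21 (.leaf 19) (.bis 1 4 4 1 131 (.leaf 5) (.bis 1 3 4 1 227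
  (.leaf 2) (.leaf 2)))) (.bis 0 2 1 4 225 (.bis 1 4 4 1 131 (.bis 2 4 4 1 130 (.leaf 5) (.bis 2
  6 4 1 55 (.leaf 2) (.bis 2 3 4 1 226 (.leaf 2) (.bis 1 2 1 8 132 (.leaf 4) (.leaf 2))))) (.bis
  1 2 1 1 41 (.bis 2 6 4 1 55 (.leaf 2) (.bis 2 3 4 1 226 (.leaf 2) (.bis 2 4 8 1 132 (.leaf 2)
  (.leaf 4)))) (.leaf 2))) (.bis 1 4 4 1 131 (.leaf 5) (.bis 1 3 4 1 227 (.leaf 2) (.leaf 2))))))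
  (.bis 2 5 4 1 35 (.bis 1 4 2 1 120 (.bis 4 5 2 1 115 (.leaf 19) (.bis 0 4 1 2 228 (.leaf 14)
  (.leaf 19))) (.bis 1 5 4 1 21 (.leaf 19) (.bis 1 6 4 1 131 (.leaf 5) (.leaf 2)))) (.bis 1 4 2 1
  120 (.bis 2 4 2 1 118 (.leaf 65) (.bis 0 2 1 4 225 (.bis 2 6 4 1 130 (.leaf 5) (.bis 2 3 4 1
  226 (.leaf 2) (.bis 1 2 1 4 122 (.leaf 4) (.leaf 2)))) (.leaf 5))) (.bis 0 2 1 4 225 (.bis 1 6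
  4 1 131 (.bis 2 6 4 1 130 (.leaf 5) (.bis 2 3 4 1 226 (.leaf 2) (.bis 2 4 4 1 122 (.leaf 2)
  (.bis 1 2 1 8 132 (.leaf 4) (.leaf 2))))) (.bis 1 2 1 1 41 (.bis 2 3 4 1 226 (.leaf 2) (.bis 2
  4 4 1 122 (.leaf 2) (.bis 2 6 8 1 132 (.leaf 2) (.leaf 4)))) (.leaf 2))) (.bis 1 6 4 1 131
  (.leaf 5) (.bis 1 3 4 1 227 (.leaf 2) (.leaf 2))))))) (.bis 2 5 1 1 32 (.bis 1 5 1 1 20 (.bis 4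
  5 1 2 124 (.bis 3 5 1 4 229 (.leaf 32) (.leaf 19)) (.bis 4 6 2 1 115 (.leaf 19) (.bis 0 4 1 2
  228 (.leaf 65) (.leaf 19)))) (.bis 1 4 2 1 120 (.bis 4 6 2 1 115 (.leaf 19) (.bis 0 4 1 2 228
  (.leaf 65) (.leaf 19))) (.bis 1 6 4 1 21 (.leaf 19) (.leaf 59)))) (.bis 2 6 4 1 35 (.bis 1 4 2
  1 120 (.bis 4 6 2 1 115 (.leaf 19) (.bis 0 4 1 2 228 (.leaf 14) (.leaf 2))) (.bis 1 6 4 1 21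
  (.leaf 19) (.bis 1 3 4 1 227 (.leaf 2) (.leaf 2)))) (.bis 1 4 2 1 120 (.bis 2 4 2 1 118 (.bis 0
  4 1 2 228 (.leaf 14) (.leaf 2)) (.bis 0 2 1 4 225 (.bis 2 3 4 1 226 (.leaf 2) (.bis 1 2 1 4 122
  (.bis 2 5 2 1 39 (.leaf 2) (.leaf 4)) (.leaf 2))) (.leaf 2))) (.bis 0 2 1 4 225 (.bis 1 2 1 1
  41 (.bis 2 3 4 1 226 (.leaf 2) (.bis 2 4 4 1 122 (.leaf 2) (.leaf 26))) (.leaf 2)) (.bis 1 3 4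
  1 227 (.leaf 2) (.leaf 2))))))) (.bis 4 6 1 1 129 (.bis 1 6 2 1 28 (.bis 2 6 2 1 49 (.bis 0 6 1
  1 230 (.bis 5 6 1 2 220 (.bis 3 6 1 2 221 (.leaf 48) (.bis 0 3 1 1 231 (.leaf 47) (.leaf 21)))
  (.leaf 47)) (.bis 0 4 2 1 232 (.leaf 47) (.bis 0 3 2 1 233 (.leaf 11) (.bis 0 2 2 1 234 (.leaf
  11) (.bis 0 1 2 1 235 (.leaf 11) (.leaf 67)))))) (.bis 0 2 1 2 236 (.bis 2 5 4 1 225 (.bis 0 4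
  1 1 237 (.leaf 5) (.leaf 5)) (.bis 2 4 4 1 130 (.bis 0 4 1 1 237 (.leaf 5) (.leaf 5)) (.bis 1 2
  1 4 55 (.bis 2 3 4 1 226 (.leaf 5) (.leaf 4)) (.bis 0 3 1 1 238 (.leaf 5) (.leaf 5))))) (.bis 0
  4 2 1 232 (.bis 2 4 1 1 237 (.leaf 5) (.bis 5 6 1 1 239 (.bis 2 3 1 1 238 (.leaf 5) (.leaf 5))
  (.bis 2 3 1 1 238 (.leaf 2) (.leaf 5)))) (.bis 0 3 2 1 233 (.leaf 5) (.bis 0 6 2 1 234 (.leaf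
  5) (.bis 0 1 2 1 235 (.leaf 5) (.leaf 17))))))) (.bis 0 1 1 2 240 (.bis 2 5 4 1 225 (.bis 1 4 4
  1 131 (.bis 0 4 1 1 241 (.leaf 5) (.leaf 2)) (.leaf 2)) (.bis 1 4 4 1 131 (.bis 2 4 4 1 130
  (.bis 0 4 1 1 241 (.leaf 5) (.leaf 2)) (.bis 2 6 4 1 55 (.leaf 2) (.bis 2 3 4 1 226 (.bis 0 3 1
  1 242 (.leaf 2) (.leaf 2)) (.bis 0 2 1 4 243 (.leaf 4) (.leaf 2))))) (.bis 1 2 1 1 41 (.bis 2 6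
  4 1 55 (.leaf 2) (.bis 2 3 4 1 226 (.leaf 2) (.bis 0 2 1 4 243 (.leaf 4) (.leaf 2)))) (.bis 1 3
  4 1 227 (.leaf 2) (.leaf 2))))) (.bis 0 2 1 2 236 (.bis 2 5 4 1 225 (.bis 1 4 1 1 241 (.bis 0 4
  1 1 237 (.leaf 5) (.leaf 5)) (.leaf 5)) (.bis 2 4 4 1 130 (.bis 1 4 1 1 241 (.bis 0 4 1 1 237
  (.leaf 5) (.leaf 5)) (.leaf 5)) (.bis 2 6 4 1 55 (.leaf 5) (.bis 2 3 4 1 226 (.leaf 5) (.leaf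
  46))))) (.bis 0 4 2 1 232 (.bis 1 4 1 1 241 (.bis 2 4 1 1 237 (.leaf 5) (.bis 2 3 1 1 238
  (.leaf 2) (.leaf 5))) (.leaf 5)) (.bis 0 3 2 1 233 (.leaf 5) (.bis 0 6 2 1 235 (.leaf 5) (.leaf
  17))))))) (.bis 0 4 1 1 244 (.bis 1 4 2 1 120 (.bis 2 4 2 1 118 (.leaf 65) (.bis 2 5 4 1 225
  (.leaf 5) (.bis 2 6 4 1 130 (.leaf 5) (.bis 2 3 4 1 226 (.leaf 2) (.bis 1 2 1 4 122 (.leaf 4)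
  (.leaf 2)))))) (.bis 2 5 4 1 225 (.bis 1 6 4 1 131 (.leaf 5) (.bis 1 3 4 1 227 (.leaf 2) (.leaf
  2))) (.bis 1 6 4 1 131 (.bis 2 6 4 1 130 (.leaf 5) (.bis 2 3 4 1 226 (.leaf 2) (.bis 2 4 4 1
  122 (.leaf 2) (.bis 1 2 1 8 132 (.leaf 4) (.leaf 2))))) (.bis 1 2 1 1 41 (.bis 2 3 4 1 226
  (.leaf 2) (.bis 2 4 4 1 122 (.leaf 2) (.bis 2 6 8 1 132 (.leaf 2) (.leaf 4)))) (.leaf 2)))))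
  (.bis 0 1 1 2 240 (.bis 2 5 4 1 225 (.bis 1 6 4 1 131 (.leaf 5) (.bis 1 3 4 1 227 (.leaf 2)
  (.leaf 2))) (.bis 1 6 4 1 131 (.bis 2 6 4 1 130 (.bis 0 6 1 1 241 (.leaf 5) (.leaf 2)) (.bis 2
  3 4 1 226 (.leaf 2) (.bis 0 2 1 4 243 (.bis 1 2 1 8 132 (.leaf 4) (.leaf 2)) (.leaf 2)))) (.bis
  1 2 1 1 41 (.bis 2 3 4 1 226 (.leaf 2) (.bis 0 2 1 4 243 (.bis 2 6 8 1 132 (.leaf 2) (.leaf 4))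
  (.leaf 2))) (.leaf 2)))) (.bis 0 2 1 2 236 (.bis 2 5 4 1 225 (.leaf 5) (.bis 2 6 4 1 130 (.leaf
  5) (.bis 2 3 4 1 226 (.leaf 5) (.bis 1 2 1 4 243 (.leaf 4) (.leaf 5))))) (.bis 0 6 2 1 232
  (.leaf 5) (.bis 0 3 2 1 233 (.leaf 5) (.leaf 17)))))))) (.bis 4 6 1 1 129 (.bis 1 6 2 1 28
  (.bis 2 6 2 1 49 (.bis 3 6 1 1 245 (.bis 0 6 1 1 230 (.bis 5 6 1 2 221 (.leaf 48) (.bis 0 5 1 1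
  231 (.leaf 31) (.leaf 21))) (.bis 0 4 2 1 232 (.leaf 53) (.bis 0 5 2 1 233 (.leaf 53) (.bis 0 3
  2 1 246 (.leaf 21) (.bis 0 2 2 1 234 (.leaf 11) (.bis 0 1 2 1 235 (.leaf 11) (.leaf 27)))))))
  (.bis 1 3 1 2 247 (.bis 0 3 1 1 248 (.bis 2 3 1 2 249 (.bis 3 4 2 1 250 (.bis 0 4 1 1 251
  (.leaf 12) (.leaf 12)) (.bis 3 5 2 1 252 (.leaf 12) (.bis 3 6 2 1 253 (.leaf 56) (.leaf 34))))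
  (.bis 0 4 1 1 251 (.leaf 12) (.bis 0 2 1 1 254 (.leaf 12) (.bis 0 5 1 1 255 (.leaf 12) (.leaf
  9))))) (.bis 0 4 2 1 232 (.bis 3 4 1 1 251 (.leaf 12) (.bis 2 3 1 1 254 (.leaf 12) (.leaf 12)))
  (.bis 0 5 2 1 233 (.leaf 12) (.bis 0 6 2 1 246 (.leaf 9) (.bis 0 2 2 1 234 (.leaf 9) (.leaf
  27)))))) (.bis 0 4 2 1 232 (.leaf 31) (.bis 0 5 2 1 233 (.leaf 53) (.bis 0 6 2 1 246 (.leaf 21)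
  (.bis 0 2 2 1 234 (.leaf 11) (.bis 0 1 2 1 235 (.leaf 11) (.leaf 27)))))))) (.bis 1 3 1 2 247
  (.bis 0 3 1 1 248 (.bis 2 3 2 1 256 (.bis 3 6 2 1 249 (.bis 0 4 1 1 251 (.bis 2 4 1 1 257
  (.leaf 12) (.leaf 12)) (.leaf 12)) (.bis 3 4 2 1 250 (.bis 0 4 1 1 251 (.leaf 12) (.leaf 12))
  (.bis 3 5 2 1 252 (.leaf 12) (.leaf 34)))) (.bis 2 4 4 1 130 (.bis 0 4 1 1 251 (.bis 3 4 1 1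
  257 (.leaf 5) (.leaf 12)) (.bis 0 6 1 1 254 (.leaf 12) (.leaf 12))) (.bis 0 2 1 4 258 (.bis 2 5
  4 1 226 (.leaf 12) (.leaf 4)) (.bis 0 6 1 1 254 (.leaf 12) (.leaf 12))))) (.bis 0 2 1 2 236
  (.bis 2 4 4 1 130 (.bis 0 4 1 1 237 (.bis 3 4 1 1 251 (.leaf 5) (.bis 3 6 1 1 254 (.leaf 5)
  (.bis 3 5 1 1 255 (.leaf 5) (.leaf 12)))) (.bis 3 6 1 1 254 (.leaf 5) (.leaf 12))) (.bis 2 3 4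
  1 258 (.bis 3 6 1 1 254 (.leaf 5) (.leaf 12)) (.bis 2 5 4 1 226 (.leaf 5) (.leaf 4)))) (.bis 0
  4 2 1 232 (.bis 2 4 1 1 237 (.bis 3 4 1 1 251 (.leaf 5) (.bis 3 6 1 1 254 (.leaf 5) (.leaf
  12))) (.leaf 12)) (.bis 0 5 2 1 233 (.leaf 12) (.bis 0 6 2 1 234 (.leaf 12) (.leaf 27))))))
  (.bis 0 2 1 2 236 (.bis 2 4 4 1 130 (.bis 0 4 1 1 237 (.leaf 5) (.bis 0 5 1 1 238 (.leaf 5)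
  (.leaf 5))) (.bis 1 2 1 4 55 (.bis 2 5 4 1 226 (.leaf 5) (.leaf 4)) (.bis 0 5 1 1 238 (.leaf 5)
  (.leaf 5)))) (.bis 0 4 2 1 232 (.bis 2 4 1 1 237 (.leaf 5) (.bis 2 5 1 1 238 (.leaf 5) (.leaf
  5))) (.bis 0 5 2 1 233 (.leaf 5) (.bis 0 6 2 1 234 (.leaf 5) (.bis 0 1 2 1 235 (.leaf 5) (.leaf
  27)))))))) (.bis 1 3 2 1 259 (.bis 3 6 2 1 247 (.bis 0 2 1 2 236 (.bis 2 4 4 1 130 (.bis 0 4 1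
  1 237 (.leaf 5) (.leaf 5)) (.bis 2 6 4 1 55 (.leaf 5) (.bis 2 5 4 1 226 (.leaf 5) (.leaf 4))))
  (.bis 0 4 2 1 232 (.bis 2 4 1 1 237 (.leaf 5) (.leaf 5)) (.bis 0 5 2 1 233 (.leaf 5) (.bis 0 6
  2 1 235 (.leaf 5) (.bis 0 1 2 1 260 (.leaf 5) (.leaf 27)))))) (.bis 0 3 1 1 248 (.bis 2 3 2 1
  256 (.bis 3 4 2 1 250 (.bis 0 4 1 1 251 (.bis 2 4 1 1 257 (.leaf 12) (.leaf 12)) (.leaf 12))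
  (.bis 3 5 2 1 252 (.leaf 12) (.bis 1 3 1 2 261 (.leaf 34) (.leaf 12)))) (.bis 2 4 4 1 130 (.bis
  0 4 1 1 251 (.bis 3 4 1 1 257 (.leaf 5) (.leaf 12)) (.leaf 12)) (.bis 0 2 1 4 258 (.bis 2 5 4 1
  226 (.leaf 12) (.leaf 4)) (.leaf 12)))) (.bis 0 2 1 2 236 (.bis 2 4 4 1 130 (.bis 0 4 1 1 237
  (.bis 3 4 1 1 251 (.leaf 5) (.bis 3 5 1 1 255 (.leaf 5) (.leaf 12))) (.leaf 12)) (.bis 2 3 4 1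
  258 (.leaf 12) (.bis 2 5 4 1 226 (.leaf 5) (.leaf 4)))) (.bis 0 4 2 1 232 (.leaf 12) (.bis 0 5
  2 1 233 (.leaf 12) (.bis 0 1 2 1 260 (.leaf 12) (.leaf 27))))))) (.bis 0 1 1 2 240 (.bis 1 4 4
  1 131 (.bis 2 4 4 1 130 (.bis 0 4 1 1 241 (.leaf 5) (.leaf 2)) (.bis 2 6 4 1 55 (.leaf 2) (.bis
  2 5 4 1 226 (.bis 0 5 1 1 242 (.leaf 2) (.leaf 2)) (.bis 0 2 1 4 243 (.leaf 4) (.leaf 2)))))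
  (.bis 1 2 1 1 41 (.bis 2 6 4 1 55 (.leaf 2) (.bis 2 5 4 1 226 (.leaf 2) (.bis 0 2 1 4 243
  (.leaf 4) (.leaf 2)))) (.leaf 2))) (.bis 0 2 1 2 236 (.bis 2 4 4 1 130 (.bis 1 4 1 1 241 (.bis
  0 4 1 1 237 (.leaf 5) (.leaf 5)) (.leaf 5)) (.bis 2 6 4 1 55 (.leaf 5) (.bis 2 5 4 1 226 (.leaf
  5) (.leaf 46)))) (.bis 0 4 2 1 232 (.leaf 5) (.bis 0 5 2 1 233 (.leaf 5) (.bis 0 6 2 1 235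
  (.leaf 5) (.leaf 68)))))))) (.bis 1 3 2 1 259 (.bis 0 4 1 1 244 (.bis 3 4 1 1 262 (.bis 2 4 2 1
  118 (.leaf 13) (.bis 2 6 4 1 130 (.leaf 13) (.bis 2 3 4 1 263 (.leaf 6) (.bis 2 5 4 1 226
  (.leaf 6) (.bis 0 2 1 4 264 (.leaf 4) (.leaf 4)))))) (.bis 2 3 2 1 256 (.bis 3 6 2 1 250 (.bis
  2 6 1 1 257 (.leaf 13) (.leaf 25)) (.bis 3 5 2 1 252 (.leaf 25) (.bis 0 3 1 2 265 (.leaf 34)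
  (.leaf 25)))) (.bis 2 6 4 1 130 (.bis 3 6 1 1 257 (.leaf 13) (.leaf 25)) (.bis 2 4 4 1 263
  (.leaf 25) (.bis 2 5 4 1 226 (.leaf 12) (.leaf 4)))))) (.bis 0 3 1 1 248 (.bis 2 3 2 1 256
  (.bis 3 6 2 1 250 (.bis 0 6 1 1 251 (.bis 2 6 1 1 257 (.leaf 12) (.leaf 12)) (.leaf 12)) (.bis
  3 5 2 1 252 (.leaf 12) (.bis 3 4 2 1 265 (.leaf 12) (.leaf 34)))) (.bis 2 6 4 1 130 (.bis 0 6 1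
  1 251 (.bis 3 6 1 1 257 (.leaf 5) (.leaf 12)) (.leaf 12)) (.bis 0 2 1 4 258 (.bis 2 5 4 1 226
  (.leaf 12) (.leaf 4)) (.leaf 12)))) (.bis 0 2 1 2 236 (.bis 2 6 4 1 130 (.bis 0 6 1 1 237 (.bis
  3 6 1 1 251 (.leaf 5) (.bis 3 5 1 1 255 (.leaf 5) (.leaf 12))) (.bis 0 5 1 1 238 (.bis 3 5 1 1
  255 (.leaf 5) (.leaf 12)) (.leaf 12))) (.bis 2 3 4 1 258 (.leaf 12) (.bis 2 5 4 1 226 (.leaf 5)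
  (.leaf 4)))) (.bis 0 6 2 1 232 (.leaf 12) (.bis 0 5 2 1 233 (.leaf 12) (.bis 0 1 2 1 260 (.leaf
  12) (.leaf 27))))))) (.bis 0 4 1 1 244 (.bis 1 4 2 1 120 (.bis 2 4 2 1 118 (.leaf 13) (.bis 2 6
  4 1 130 (.leaf 5) (.bis 2 5 4 1 226 (.leaf 2) (.bis 1 2 1 4 122 (.leaf 4) (.leaf 2))))) (.bis 1
  6 4 1 131 (.bis 2 6 4 1 130 (.leaf 5) (.bis 2 5 4 1 226 (.leaf 2) (.bis 2 4 4 1 122 (.leaf 2)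
  (.bis 1 2 1 8 132 (.leaf 4) (.leaf 2))))) (.bis 1 2 1 1 41 (.bis 2 5 4 1 226 (.leaf 2) (.bis 2
  4 4 1 122 (.leaf 2) (.bis 2 6 8 1 132 (.leaf 2) (.leaf 4)))) (.leaf 2)))) (.bis 0 1 1 2 240
  (.bis 1 6 4 1 131 (.bis 2 6 4 1 130 (.bis 0 6 1 1 241 (.leaf 5) (.leaf 2)) (.bis 2 5 4 1 226
  (.bis 0 5 1 1 242 (.leaf 2) (.leaf 2)) (.bis 0 2 1 4 243 (.bis 1 2 1 8 132 (.leaf 4) (.leaf 2))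
  (.leaf 2)))) (.bis 1 2 1 1 41 (.bis 2 5 4 1 226 (.leaf 2) (.bis 0 2 1 4 243 (.bis 2 6 8 1 132
  (.leaf 2) (.leaf 4)) (.leaf 2))) (.leaf 2))) (.bis 0 2 1 2 236 (.bis 2 6 4 1 130 (.leaf 5)
  (.bis 2 5 4 1 226 (.leaf 5) (.bis 1 2 1 4 243 (.leaf 4) (.leaf 5)))) (.bis 0 6 2 1 232 (.leaf
  5) (.bis 0 5 2 1 233 (.leaf 5) (.bis 0 3 2 1 260 (.leaf 5) (.leaf 17))))))))))

def lc4 : List Vr := [⟨[60,0,0,69,0,0,0], 78363, 0⟩, ⟨[0,24,0,0,0,0,0], 13824, 0⟩, ⟨[0,0,27,0,0,0,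
  0], 14580, 0⟩, ⟨[0,0,0,69,69,0,0], 76176, 0⟩, ⟨[0,0,0,0,69,42,0], 74763, 0⟩, ⟨[0,0,0,0,0,42,0],
  14112, 0⟩, ⟨[0,0,0,69,0,0,70], 52923, 0⟩]

theorem lk4 : chkTr lowT (leafLow 4 lowB) lt4 lc4 = true := by decide +kernel

def lt5 : Tr ℕ := (.bis 4 6 2 1 148 (.bis 5 6 1 1 129 (.bis 1 6 2 1 28 (.bis 2 6 2 1 49 (.bis 3 6
  1 1 245 (.bis 0 6 1 1 230 (.bis 4 6 1 2 204 (.leaf 48) (.bis 0 4 1 1 266 (.bis 1 4 1 1 203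
  (.leaf 31) (.leaf 21)) (.leaf 21))) (.bis 0 4 2 1 267 (.bis 4 6 1 1 266 (.leaf 21) (.bis 1 4 1
  1 203 (.leaf 31) (.leaf 21))) (.bis 0 5 2 1 232 (.leaf 21) (.bis 0 3 2 1 246 (.leaf 21) (.bis 0
  2 2 1 234 (.leaf 11) (.bis 0 1 2 1 235 (.leaf 11) (.leaf 27))))))) (.bis 0 4 2 1 267 (.bis 1 3
  1 2 247 (.bis 2 3 1 2 249 (.bis 3 5 2 1 250 (.leaf 31) (.bis 0 3 1 4 268 (.bis 3 4 2 1 269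
  (.leaf 69) (.leaf 56)) (.leaf 69))) (.leaf 31)) (.bis 1 4 1 1 203 (.leaf 31) (.leaf 21))) (.bis
  1 3 1 2 247 (.bis 0 3 1 1 248 (.bis 2 3 1 2 249 (.bis 3 5 2 1 250 (.leaf 12) (.bis 3 4 4 1 268
  (.leaf 12) (.bis 3 6 2 1 253 (.leaf 56) (.leaf 34)))) (.bis 0 5 1 1 251 (.leaf 12) (.leaf 9)))
  (.bis 0 5 2 1 232 (.bis 3 5 1 1 251 (.leaf 12) (.leaf 9)) (.bis 0 6 2 1 246 (.leaf 9) (.bis 0 2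
  2 1 234 (.leaf 9) (.bis 0 1 4 1 270 (.leaf 9) (.leaf 27)))))) (.bis 0 5 2 1 232 (.leaf 21)
  (.bis 0 6 2 1 246 (.leaf 21) (.bis 0 2 2 1 234 (.leaf 11) (.bis 0 1 2 1 235 (.leaf 11) (.bis 0
  3 4 1 270 (.leaf 9) (.leaf 27))))))))) (.bis 0 4 2 1 267 (.bis 1 3 1 2 247 (.bis 2 3 2 1 256
  (.bis 3 6 2 1 249 (.leaf 84) (.bis 3 5 2 1 250 (.leaf 25) (.bis 0 3 1 4 268 (.leaf 34) (.leaf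
  25)))) (.bis 2 4 4 1 187 (.leaf 84) (.bis 2 5 4 1 130 (.leaf 12) (.bis 0 2 1 8 271 (.leaf 4)
  (.leaf 4))))) (.bis 2 4 4 1 187 (.bis 1 4 1 1 203 (.leaf 31) (.leaf 5)) (.bis 2 5 4 1 130
  (.leaf 5) (.bis 1 2 1 4 55 (.bis 0 2 1 8 271 (.bis 2 3 8 1 272 (.leaf 4) (.leaf 4)) (.leaf 4))
  (.leaf 5))))) (.bis 1 3 1 2 247 (.bis 0 3 1 1 248 (.bis 2 3 2 1 256 (.bis 3 6 2 1 249 (.leaf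
  12) (.bis 3 5 2 1 250 (.leaf 12) (.bis 3 4 4 1 268 (.leaf 12) (.leaf 34)))) (.bis 2 5 4 1 130
  (.bis 0 5 1 1 251 (.bis 3 5 1 1 257 (.leaf 5) (.leaf 4)) (.leaf 12)) (.bis 0 2 1 4 258 (.bis 2
  4 8 1 271 (.leaf 4) (.leaf 4)) (.leaf 12)))) (.bis 0 2 1 2 236 (.bis 2 5 4 1 130 (.bis 0 5 1 1
  237 (.bis 3 5 1 1 251 (.leaf 5) (.bis 3 6 1 1 254 (.leaf 4) (.leaf 12))) (.leaf 12)) (.bis 2 3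
  4 1 258 (.leaf 12) (.bis 2 4 8 1 271 (.leaf 4) (.leaf 4)))) (.bis 0 5 2 1 232 (.leaf 12) (.bis
  0 6 2 1 234 (.leaf 12) (.bis 0 1 4 1 270 (.leaf 12) (.leaf 27)))))) (.bis 0 2 1 2 236 (.bis 2 5
  4 1 130 (.bis 0 5 1 1 237 (.leaf 5) (.leaf 5)) (.bis 1 2 1 4 55 (.bis 2 4 8 1 271 (.leaf 4)
  (.leaf 4)) (.leaf 5))) (.bis 0 5 2 1 232 (.bis 2 5 1 1 237 (.leaf 5) (.leaf 5)) (.bis 0 6 2 1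
  234 (.leaf 5) (.bis 0 1 2 1 235 (.leaf 5) (.leaf 27)))))))) (.bis 1 3 2 1 259 (.bis 0 4 2 1 267
  (.bis 3 6 2 1 247 (.bis 2 4 4 1 187 (.leaf 85) (.bis 2 5 4 1 130 (.leaf 5) (.bis 2 6 4 1 55
  (.leaf 5) (.bis 0 2 1 8 271 (.leaf 4) (.leaf 4))))) (.bis 2 3 2 1 256 (.bis 3 5 2 1 250 (.leaf
  25) (.bis 0 3 1 4 268 (.bis 1 3 1 2 261 (.leaf 34) (.leaf 25)) (.leaf 25))) (.bis 2 4 4 1 187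
  (.leaf 25) (.bis 2 5 4 1 130 (.leaf 12) (.bis 0 2 1 8 271 (.leaf 4) (.leaf 4)))))) (.bis 3 6 2
  1 247 (.bis 0 2 1 2 236 (.bis 2 5 4 1 130 (.bis 0 5 1 1 237 (.leaf 5) (.leaf 5)) (.bis 2 6 4 1
  55 (.leaf 5) (.bis 2 4 8 1 271 (.leaf 4) (.leaf 4)))) (.bis 0 5 2 1 232 (.bis 2 5 1 1 237
  (.leaf 5) (.leaf 5)) (.bis 0 6 2 1 235 (.leaf 5) (.bis 0 1 2 1 260 (.leaf 5) (.leaf 27)))))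
  (.bis 0 3 1 1 248 (.bis 2 3 2 1 256 (.bis 3 5 2 1 250 (.leaf 12) (.bis 3 4 4 1 268 (.leaf 12)
  (.leaf 34))) (.bis 2 5 4 1 130 (.leaf 12) (.bis 0 2 1 4 258 (.bis 2 4 8 1 271 (.leaf 4) (.leaf
  4)) (.leaf 12)))) (.bis 0 2 1 2 236 (.bis 2 5 4 1 130 (.leaf 12) (.bis 2 3 4 1 258 (.leaf 12)
  (.bis 2 4 8 1 271 (.leaf 4) (.leaf 4)))) (.bis 0 5 2 1 232 (.bis 2 5 1 1 237 (.leaf 12) (.leaf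
  12)) (.bis 0 1 2 1 260 (.leaf 12) (.leaf 27))))))) (.bis 1 4 4 1 195 (.bis 0 4 2 1 267 (.bis 2
  4 4 1 187 (.leaf 85) (.bis 2 5 4 1 130 (.leaf 5) (.bis 2 6 4 1 55 (.leaf 5) (.bis 0 2 1 8 271
  (.leaf 4) (.leaf 4))))) (.bis 0 2 1 2 236 (.bis 2 5 4 1 130 (.bis 0 5 1 1 237 (.leaf 5) (.leaf
  5)) (.bis 2 6 4 1 55 (.leaf 5) (.bis 2 4 8 1 271 (.leaf 4) (.leaf 4)))) (.bis 0 5 2 1 232 (.bis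
  2 5 1 1 237 (.leaf 5) (.leaf 5)) (.bis 0 1 4 1 273 (.leaf 5) (.bis 0 6 2 1 235 (.leaf 5) (.leaf
  68)))))) (.bis 0 1 1 2 240 (.bis 1 5 4 1 131 (.bis 2 5 4 1 130 (.bis 0 5 1 1 241 (.leaf 5)
  (.leaf 2)) (.bis 2 6 4 1 55 (.leaf 2) (.bis 0 2 1 4 243 (.bis 1 2 1 8 132 (.leaf 4) (.leaf 2))
  (.leaf 2)))) (.bis 1 2 1 1 41 (.bis 2 6 4 1 55 (.leaf 2) (.bis 0 2 1 4 243 (.bis 2 5 8 1 132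
  (.leaf 2) (.leaf 4)) (.leaf 2))) (.leaf 2))) (.bis 0 2 1 2 236 (.bis 2 5 4 1 130 (.leaf 5)
  (.bis 2 6 4 1 55 (.leaf 5) (.bis 1 2 1 4 243 (.leaf 4) (.leaf 5)))) (.bis 0 5 2 1 232 (.leaf 5)
  (.bis 0 4 4 1 273 (.leaf 5) (.bis 0 6 2 1 235 (.leaf 5) (.leaf 68))))))))) (.bis 1 3 2 1 259
  (.bis 0 5 1 1 244 (.bis 3 5 1 1 262 (.bis 2 5 2 1 118 (.leaf 13) (.bis 2 4 4 1 187 (.leaf 13)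
  (.bis 2 6 4 1 130 (.leaf 13) (.bis 2 3 4 1 263 (.leaf 6) (.bis 0 2 1 4 264 (.leaf 4) (.leaf
  4)))))) (.bis 2 3 2 1 256 (.bis 3 6 2 1 250 (.leaf 25) (.bis 0 3 1 2 265 (.bis 1 3 1 2 261
  (.leaf 34) (.leaf 25)) (.leaf 25))) (.bis 2 4 4 1 187 (.leaf 25) (.bis 2 6 4 1 130 (.leaf 25)
  (.bis 2 5 4 1 263 (.leaf 25) (.leaf 4)))))) (.bis 0 4 2 1 267 (.bis 2 3 2 1 256 (.bis 3 6 2 1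
  250 (.leaf 25) (.bis 3 5 2 1 265 (.leaf 25) (.bis 0 3 1 4 268 (.leaf 34) (.leaf 25)))) (.bis 2
  4 4 1 187 (.leaf 25) (.bis 2 6 4 1 130 (.leaf 12) (.bis 0 2 1 8 271 (.leaf 4) (.leaf 4)))))
  (.bis 0 3 1 1 248 (.bis 2 3 2 1 256 (.bis 3 6 2 1 250 (.leaf 12) (.bis 3 5 2 1 265 (.leaf 12)
  (.bis 3 4 4 1 268 (.leaf 12) (.leaf 34)))) (.bis 2 6 4 1 130 (.leaf 12) (.bis 0 2 1 4 258 (.bis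
  2 4 8 1 271 (.leaf 4) (.leaf 4)) (.leaf 12)))) (.bis 0 2 1 2 236 (.bis 2 6 4 1 130 (.leaf 12)
  (.bis 2 3 4 1 258 (.leaf 12) (.bis 2 4 8 1 271 (.leaf 4) (.leaf 4)))) (.bis 0 6 2 1 232 (.bis 2
  6 1 1 237 (.leaf 12) (.leaf 12)) (.bis 0 1 2 1 260 (.leaf 12) (.leaf 27))))))) (.bis 0 5 1 1
  244 (.bis 1 4 4 1 195 (.bis 2 5 2 1 118 (.leaf 13) (.bis 2 4 4 1 187 (.leaf 13) (.bis 2 6 4 1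
  130 (.leaf 5) (.bis 0 2 1 4 264 (.leaf 4) (.leaf 4))))) (.bis 1 5 2 1 120 (.bis 2 5 2 1 118
  (.leaf 13) (.bis 2 6 4 1 130 (.leaf 5) (.bis 1 2 1 4 122 (.bis 0 2 1 4 264 (.leaf 4) (.leaf 2))
  (.leaf 2)))) (.bis 1 6 4 1 131 (.bis 2 6 4 1 130 (.leaf 5) (.bis 2 5 4 1 122 (.leaf 2) (.bis 1
  2 1 8 132 (.bis 0 2 1 4 264 (.leaf 4) (.leaf 2)) (.leaf 2)))) (.bis 1 2 1 1 41 (.bis 2 5 4 1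
  122 (.leaf 2) (.bis 2 6 8 1 132 (.leaf 2) (.bis 0 2 1 4 264 (.leaf 4) (.leaf 2)))) (.leaf
  2))))) (.bis 1 4 4 1 195 (.bis 0 4 2 1 267 (.bis 2 4 4 1 187 (.leaf 25) (.bis 2 6 4 1 130
  (.leaf 5) (.bis 0 2 1 8 271 (.bis 2 5 4 1 264 (.leaf 4) (.leaf 4)) (.leaf 4)))) (.bis 0 2 1 2
  236 (.bis 2 6 4 1 130 (.leaf 5) (.bis 2 4 8 1 271 (.leaf 4) (.bis 2 5 4 1 264 (.leaf 4) (.leaf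
  4)))) (.bis 0 6 2 1 232 (.leaf 5) (.bis 0 1 4 1 273 (.leaf 5) (.bis 0 3 2 1 260 (.leaf 5)
  (.leaf 17)))))) (.bis 0 1 1 2 240 (.bis 1 6 4 1 131 (.bis 2 6 4 1 130 (.bis 0 6 1 1 241 (.leaf
  5) (.leaf 2)) (.bis 0 2 1 4 243 (.bis 1 2 1 8 132 (.bis 2 5 4 1 264 (.leaf 2) (.leaf 4)) (.leaf
  2)) (.leaf 2))) (.bis 1 2 1 1 41 (.bis 0 2 1 4 243 (.bis 2 6 8 1 132 (.leaf 2) (.bis 2 5 4 1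
  264 (.leaf 2) (.leaf 4))) (.leaf 2)) (.leaf 2))) (.bis 0 2 1 2 236 (.bis 2 6 4 1 130 (.leaf 5)
  (.bis 1 2 1 4 243 (.bis 2 5 4 1 264 (.leaf 4) (.leaf 4)) (.leaf 5))) (.bis 0 6 2 1 232 (.leaf
  5) (.bis 0 4 4 1 273 (.leaf 5) (.leaf 68))))))))) (.bis 0 4 1 2 274 (.bis 1 4 1 1 149 (.bis 2 4
  1 1 150 (.bis 3 4 1 2 275 (.bis 4 5 2 1 170 (.bis 3 5 1 2 276 (.bis 0 5 1 2 277 (.bis 2 5 1 1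
  162 (.bis 5 6 2 1 158 (.leaf 40) (.leaf 40)) (.bis 4 6 1 1 172 (.leaf 15) (.leaf 24))) (.bis 0
  4 1 1 278 (.bis 4 6 1 1 172 (.leaf 15) (.leaf 24)) (.bis 1 6 2 1 159 (.leaf 15) (.leaf 15))))
  (.bis 0 4 1 1 278 (.bis 4 6 1 1 172 (.bis 1 3 2 1 279 (.bis 2 6 2 1 164 (.bis 3 6 1 1 280
  (.leaf 15) (.leaf 36)) (.bis 2 3 2 1 281 (.leaf 36) (.leaf 24))) (.leaf 15)) (.bis 1 3 2 1 279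
  (.bis 3 4 1 1 282 (.leaf 24) (.leaf 36)) (.leaf 24))) (.bis 1 3 2 1 279 (.bis 2 6 2 1 164 (.bis
  3 6 1 1 280 (.leaf 15) (.leaf 36)) (.bis 0 3 1 1 283 (.leaf 36) (.leaf 24))) (.bis 1 6 2 1 159
  (.leaf 15) (.leaf 15))))) (.bis 4 6 4 1 174 (.bis 0 5 1 1 278 (.bis 5 6 1 1 172 (.bis 1 3 2 1
  279 (.leaf 36) (.leaf 52)) (.bis 1 3 2 1 279 (.leaf 64) (.leaf 24))) (.bis 1 3 2 1 279 (.bis 0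
  4 2 1 284 (.bis 2 6 2 1 164 (.leaf 36) (.leaf 36)) (.bis 2 6 2 1 164 (.bis 3 6 1 1 280 (.leaf
  15) (.leaf 36)) (.bis 0 3 1 1 283 (.leaf 36) (.leaf 24)))) (.bis 1 6 2 1 159 (.leaf 36) (.bis 0
  4 2 1 284 (.leaf 24) (.leaf 15))))) (.bis 0 4 1 4 285 (.bis 1 4 1 2 175 (.bis 2 4 1 2 176 (.bis
  3 4 1 4 286 (.bis 4 5 4 1 180 (.leaf 42) (.bis 0 4 1 8 287 (.bis 4 6 8 1 181 (.leaf 42) (.bis 1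
  4 1 4 182 (.leaf 74) (.leaf 42))) (.leaf 42))) (.leaf 64)) (.leaf 64)) (.bis 1 3 2 1 279 (.leaf
  64) (.leaf 24))) (.bis 0 5 1 1 278 (.bis 1 3 2 1 279 (.leaf 64) (.leaf 24)) (.bis 1 3 2 1 279
  (.leaf 36) (.leaf 24)))))) (.bis 3 5 1 1 262 (.bis 4 5 1 2 276 (.bis 0 5 1 2 277 (.bis 2 5 1 1
  162 (.leaf 13) (.leaf 15)) (.leaf 15)) (.bis 1 4 2 1 279 (.bis 2 6 2 1 164 (.bis 4 6 1 1 280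
  (.leaf 15) (.bis 0 4 1 1 283 (.leaf 36) (.leaf 36))) (.bis 0 4 1 1 283 (.leaf 36) (.leaf 36)))
  (.leaf 15))) (.bis 1 3 1 1 288 (.bis 2 3 1 1 289 (.bis 4 6 1 1 280 (.leaf 94) (.leaf 96)) (.bis
  2 6 2 1 164 (.bis 4 6 1 1 280 (.leaf 36) (.leaf 36)) (.bis 0 4 1 1 283 (.leaf 36) (.leaf 36))))
  (.bis 1 4 2 1 279 (.bis 2 6 2 1 164 (.bis 4 6 1 1 280 (.leaf 15) (.leaf 36)) (.bis 0 4 1 1 283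
  (.leaf 36) (.leaf 36))) (.leaf 15))))) (.bis 3 5 1 1 262 (.bis 2 5 2 1 118 (.leaf 97) (.bis 2 6
  4 1 187 (.leaf 15) (.bis 1 2 1 2 188 (.bis 0 2 1 4 290 (.bis 2 3 4 1 263 (.leaf 15) (.leaf 98))
  (.leaf 15)) (.leaf 15)))) (.bis 2 3 2 1 256 (.bis 1 3 1 1 288 (.bis 3 4 1 1 289 (.leaf 55)
  (.leaf 34)) (.leaf 55)) (.bis 2 6 4 1 187 (.leaf 55) (.bis 1 2 1 2 188 (.bis 0 2 1 4 290 (.bis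
  2 5 4 1 263 (.leaf 28) (.bis 2 4 2 1 189 (.leaf 28) (.leaf 4))) (.leaf 28)) (.leaf 28))))))
  (.bis 1 3 2 1 259 (.bis 3 5 1 1 262 (.bis 2 5 2 1 118 (.leaf 13) (.bis 2 6 4 1 187 (.leaf 13)
  (.bis 2 4 2 1 188 (.leaf 28) (.bis 0 2 1 4 290 (.bis 2 3 4 1 263 (.leaf 6) (.leaf 4)) (.leaf
  25))))) (.bis 2 3 2 1 256 (.bis 3 4 1 1 288 (.leaf 55) (.bis 1 3 1 2 261 (.leaf 34) (.leaf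
  25))) (.bis 2 6 4 1 187 (.leaf 55) (.bis 2 4 2 1 188 (.leaf 28) (.bis 0 2 1 4 290 (.bis 2 5 4 1
  263 (.leaf 25) (.leaf 4)) (.leaf 25)))))) (.bis 1 6 4 1 195 (.bis 2 5 2 1 118 (.leaf 13) (.bis
  2 6 4 1 187 (.leaf 13) (.bis 2 4 2 1 188 (.leaf 28) (.bis 0 2 1 4 290 (.leaf 4) (.leaf 18)))))
  (.bis 0 1 1 4 291 (.bis 1 5 2 1 120 (.bis 2 5 2 1 118 (.leaf 6) (.bis 2 4 2 1 188 (.leaf 6)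
  (.bis 1 2 1 4 122 (.bis 2 6 8 1 292 (.leaf 4) (.leaf 4)) (.leaf 6)))) (.bis 1 4 2 1 196 (.bis 2
  4 2 1 188 (.leaf 6) (.bis 2 5 4 1 122 (.leaf 6) (.bis 1 2 1 4 197 (.bis 2 6 8 1 292 (.leaf 4)
  (.leaf 4)) (.leaf 18)))) (.bis 1 2 1 1 41 (.bis 2 5 4 1 122 (.leaf 2) (.bis 2 4 4 1 197 (.leaf
  2) (.bis 2 6 8 1 292 (.leaf 2) (.leaf 4)))) (.leaf 2)))) (.bis 2 5 2 1 118 (.bis 0 5 1 2 277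
  (.leaf 6) (.leaf 13)) (.bis 2 4 2 1 188 (.leaf 28) (.bis 0 2 1 4 290 (.bis 2 6 8 1 292 (.leaf
  4) (.leaf 4)) (.leaf 18)))))))) (.bis 1 3 2 1 259 (.bis 0 5 1 1 244 (.bis 3 5 1 1 262 (.bis 2 5
  2 1 118 (.leaf 13) (.bis 2 6 4 1 187 (.leaf 13) (.bis 2 4 4 1 290 (.leaf 13) (.bis 2 3 4 1 263
  (.leaf 6) (.leaf 4))))) (.bis 2 3 2 1 256 (.bis 0 3 1 2 265 (.bis 1 3 1 2 261 (.leaf 34) (.leaf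
  25)) (.leaf 25)) (.bis 2 6 4 1 187 (.leaf 25) (.bis 2 4 4 1 290 (.leaf 25) (.bis 2 5 4 1 263
  (.leaf 25) (.leaf 4)))))) (.bis 0 6 2 1 267 (.bis 2 3 2 1 256 (.bis 3 5 2 1 265 (.bis 5 6 1 1
  293 (.leaf 25) (.leaf 25)) (.bis 0 3 1 4 268 (.leaf 34) (.leaf 25))) (.bis 2 6 4 1 187 (.leaf
  25) (.bis 2 4 4 1 290 (.leaf 25) (.bis 0 2 1 8 271 (.leaf 4) (.leaf 4))))) (.bis 0 3 1 1 248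
  (.bis 2 3 2 1 256 (.bis 3 5 2 1 265 (.leaf 69) (.bis 3 6 4 1 268 (.leaf 34) (.leaf 34))) (.bis
  0 2 1 4 258 (.bis 2 4 4 1 290 (.leaf 25) (.bis 2 6 8 1 271 (.leaf 4) (.leaf 4))) (.leaf 69)))
  (.bis 0 2 1 2 236 (.bis 2 3 4 1 258 (.leaf 86) (.bis 2 4 4 1 290 (.leaf 18) (.bis 2 6 8 1 271
  (.leaf 4) (.leaf 4)))) (.bis 0 4 2 1 294 (.leaf 86) (.bis 0 1 2 1 260 (.leaf 12) (.leaf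
  27))))))) (.bis 0 5 1 1 244 (.bis 1 6 4 1 195 (.bis 2 5 2 1 118 (.bis 4 5 1 2 277 (.bis 3 5 1 2
  295 (.bis 0 6 1 1 293 (.leaf 13) (.leaf 6)) (.bis 0 6 1 1 293 (.leaf 13) (.leaf 6))) (.bis 0 6
  1 1 293 (.leaf 13) (.leaf 13))) (.bis 2 6 4 1 187 (.leaf 13) (.bis 2 4 4 1 290 (.leaf 13) (.bis
  0 2 1 4 264 (.leaf 4) (.leaf 4))))) (.bis 1 4 4 1 291 (.bis 2 5 2 1 118 (.bis 4 5 1 2 277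
  (.leaf 6) (.leaf 13)) (.bis 2 4 4 1 290 (.leaf 13) (.bis 0 2 1 4 264 (.bis 2 6 8 1 292 (.leaf
  4) (.leaf 4)) (.leaf 4)))) (.bis 1 5 2 1 120 (.bis 2 5 2 1 118 (.leaf 6) (.bis 1 2 1 4 122
  (.bis 0 2 1 4 264 (.bis 2 6 8 1 292 (.leaf 2) (.leaf 4)) (.leaf 2)) (.leaf 2))) (.bis 1 2 1 1
  41 (.bis 2 5 4 1 122 (.leaf 2) (.bis 0 2 1 4 264 (.bis 2 6 8 1 292 (.leaf 2) (.leaf 4)) (.leaf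
  2))) (.leaf 2))))) (.bis 1 6 4 1 195 (.bis 0 6 2 1 267 (.bis 2 6 4 1 187 (.leaf 25) (.bis 2 4 4
  1 290 (.leaf 18) (.bis 0 2 1 8 271 (.bis 2 5 4 1 264 (.leaf 4) (.leaf 4)) (.leaf 4)))) (.bis 0
  2 1 2 236 (.bis 2 4 4 1 290 (.leaf 18) (.bis 2 6 8 1 271 (.leaf 4) (.bis 2 5 4 1 264 (.leaf 4)
  (.leaf 4)))) (.bis 0 1 4 1 273 (.leaf 18) (.bis 0 4 2 1 294 (.leaf 18) (.bis 0 3 2 1 260 (.leaf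
  12) (.leaf 17)))))) (.bis 1 4 4 1 291 (.bis 0 2 1 2 236 (.bis 2 4 4 1 290 (.leaf 18) (.bis 2 5
  4 1 264 (.leaf 4) (.bis 2 6 8 1 292 (.leaf 4) (.leaf 4)))) (.bis 0 6 4 1 273 (.leaf 18) (.bis 0
  4 2 1 294 (.leaf 18) (.bis 0 3 2 1 260 (.leaf 12) (.leaf 17))))) (.bis 0 1 1 2 240 (.bis 1 2 1
  1 41 (.bis 0 2 1 4 243 (.bis 2 5 4 1 264 (.leaf 2) (.bis 2 6 8 1 292 (.leaf 2) (.leaf 4)))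
  (.leaf 2)) (.leaf 2)) (.bis 0 2 1 2 236 (.bis 1 2 1 4 243 (.bis 2 5 4 1 264 (.leaf 4) (.bis 2 6
  8 1 292 (.leaf 4) (.leaf 4))) (.leaf 5)) (.bis 0 6 4 1 273 (.leaf 5) (.bis 0 3 2 1 260 (.leaf
  5) (.leaf 17)))))))))))

def lc5 : List Vr := [⟨[60,0,0,69,0,0,0], 78363, 0⟩, ⟨[0,24,0,0,0,0,0], 13824, 0⟩, ⟨[0,0,27,0,0,0,
  0], 14580, 0⟩, ⟨[0,0,0,69,69,0,0], 76176, 0⟩, ⟨[0,0,0,0,69,0,0], 14283, 0⟩, ⟨[0,0,0,0,69,42,0],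
  74763, 0⟩, ⟨[0,0,0,69,0,0,70], 52923, 0⟩]

theorem lk5 : chkTr lowT (leafLow 4 lowB) lt5 lc5 = true := by decide +kernel

def lt6 : Tr ℕ := (.bis 3 5 1 1 296 (.bis 4 5 1 2 218 (.bis 0 5 1 2 219 (.bis 5 6 2 1 14 (.bis 1
  6 2 1 28 (.bis 2 6 2 1 49 (.bis 0 6 1 2 220 (.bis 4 6 1 2 221 (.bis 3 6 1 1 297 (.leaf 48)
  (.bis 2 5 1 1 222 (.bis 3 5 2 1 298 (.leaf 33) (.leaf 11)) (.bis 2 3 1 2 299 (.leaf 11) (.leaf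
  11)))) (.leaf 47)) (.leaf 47)) (.bis 2 5 4 1 35 (.leaf 47) (.bis 2 3 2 1 300 (.leaf 11) (.bis 0
  2 1 4 225 (.bis 1 2 1 4 55 (.bis 2 4 4 1 226 (.leaf 5) (.bis 2 6 4 1 82 (.leaf 4) (.leaf 4)))
  (.leaf 5)) (.leaf 5))))) (.bis 2 5 4 1 35 (.bis 1 3 2 1 301 (.leaf 47) (.bis 1 5 4 1 21 (.leaf
  19) (.bis 1 4 4 1 227 (.leaf 2) (.leaf 2)))) (.bis 1 3 2 1 301 (.bis 2 3 2 1 300 (.leaf 11)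
  (.bis 0 2 1 4 225 (.bis 2 6 4 1 55 (.leaf 5) (.bis 2 4 4 1 226 (.leaf 5) (.bis 1 2 1 4 302
  (.leaf 4) (.leaf 5)))) (.leaf 5))) (.bis 0 2 1 4 225 (.bis 1 2 1 1 41 (.bis 2 6 4 1 55 (.leaf
  2) (.bis 2 4 4 1 226 (.leaf 2) (.bis 2 3 4 1 302 (.leaf 2) (.leaf 4)))) (.leaf 2)) (.bis 1 4 4
  1 227 (.leaf 2) (.leaf 2)))))) (.bis 2 5 1 1 32 (.bis 1 5 1 1 20 (.bis 3 5 1 2 303 (.bis 4 5 1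
  4 229 (.leaf 32) (.leaf 19)) (.leaf 87)) (.bis 1 3 2 1 301 (.leaf 87) (.bis 1 6 4 1 21 (.leaf
  19) (.leaf 59)))) (.bis 2 6 4 1 35 (.bis 1 3 2 1 301 (.leaf 47) (.bis 1 6 4 1 21 (.leaf 19)
  (.bis 1 4 4 1 227 (.leaf 2) (.leaf 2)))) (.bis 1 3 2 1 301 (.bis 2 3 2 1 300 (.leaf 47) (.bis 0
  2 1 4 225 (.bis 2 4 4 1 226 (.leaf 47) (.bis 1 2 1 4 302 (.bis 2 5 2 1 39 (.leaf 26) (.leaf 4))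
  (.leaf 26))) (.leaf 47))) (.bis 0 2 1 4 225 (.bis 1 2 1 1 41 (.bis 2 4 4 1 226 (.leaf 2) (.bis
  2 3 4 1 302 (.leaf 2) (.bis 2 5 2 1 39 (.leaf 2) (.leaf 4)))) (.bis 1 4 4 1 227 (.leaf 2)
  (.leaf 2))) (.bis 1 4 4 1 227 (.leaf 2) (.leaf 2))))))) (.bis 1 6 2 1 28 (.bis 2 6 2 1 49 (.bis
  0 6 1 1 230 (.bis 5 6 1 2 220 (.bis 4 6 1 2 221 (.bis 3 6 1 1 297 (.leaf 48) (.leaf 11)) (.bis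
  0 4 1 1 231 (.leaf 11) (.leaf 11))) (.leaf 11)) (.bis 0 4 2 1 233 (.leaf 11) (.bis 0 2 2 1 234
  (.leaf 11) (.bis 0 1 2 1 235 (.leaf 11) (.bis 0 3 1 1 304 (.leaf 11) (.leaf 67)))))) (.bis 0 2
  1 2 236 (.bis 2 3 2 1 300 (.bis 5 6 1 1 239 (.bis 0 3 1 2 305 (.leaf 11) (.leaf 5)) (.bis 0 3 1
  2 305 (.leaf 11) (.leaf 5))) (.bis 2 5 4 1 225 (.leaf 5) (.bis 1 2 1 4 55 (.bis 2 4 4 1 226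
  (.leaf 5) (.leaf 4)) (.leaf 5)))) (.bis 0 4 2 1 233 (.bis 5 6 1 1 239 (.bis 2 3 1 2 305 (.leaf
  11) (.leaf 5)) (.bis 2 3 1 2 305 (.leaf 11) (.leaf 5))) (.bis 0 6 2 1 234 (.leaf 11) (.bis 0 1
  2 1 235 (.leaf 11) (.bis 0 3 1 1 304 (.leaf 11) (.leaf 17))))))) (.bis 0 1 1 2 240 (.bis 1 3 2
  1 301 (.bis 2 3 2 1 300 (.leaf 11) (.bis 2 5 4 1 225 (.leaf 5) (.bis 2 6 4 1 55 (.leaf 5) (.bis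
  2 4 4 1 226 (.leaf 5) (.bis 0 2 1 4 243 (.leaf 26) (.leaf 5)))))) (.bis 2 5 4 1 225 (.leaf 2)
  (.bis 1 2 1 1 41 (.bis 2 6 4 1 55 (.leaf 2) (.bis 2 4 4 1 226 (.leaf 2) (.bis 0 2 1 4 243
  (.leaf 26) (.leaf 2)))) (.bis 1 4 4 1 227 (.leaf 2) (.leaf 2))))) (.bis 0 2 1 2 236 (.bis 2 3 2
  1 300 (.leaf 11) (.bis 2 5 4 1 225 (.leaf 5) (.bis 2 6 4 1 55 (.leaf 5) (.bis 2 4 4 1 226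
  (.leaf 5) (.leaf 46))))) (.bis 0 4 2 1 233 (.leaf 11) (.bis 0 6 2 1 235 (.leaf 11) (.bis 0 3 1
  1 304 (.leaf 11) (.leaf 17)))))))) (.bis 1 6 2 1 28 (.bis 2 6 2 1 49 (.bis 4 6 1 1 245 (.bis 0
  6 1 1 230 (.bis 5 6 1 2 221 (.bis 3 6 1 1 297 (.leaf 48) (.leaf 21)) (.bis 0 5 1 1 231 (.leaf
  53) (.leaf 21))) (.bis 0 5 2 1 233 (.leaf 53) (.bis 0 4 2 1 246 (.leaf 21) (.bis 0 2 2 1 234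
  (.leaf 11) (.bis 0 1 2 1 235 (.leaf 11) (.bis 0 3 1 1 304 (.leaf 11) (.leaf 27))))))) (.bis 1 4
  1 2 247 (.bis 0 4 1 1 248 (.bis 3 4 1 1 306 (.bis 2 4 1 2 249 (.bis 4 5 2 1 252 (.leaf 12)
  (.bis 4 6 2 1 253 (.leaf 56) (.leaf 34))) (.bis 0 2 1 1 254 (.leaf 12) (.bis 0 5 1 1 255 (.leaf
  12) (.leaf 9)))) (.bis 0 3 1 2 307 (.leaf 53) (.leaf 12))) (.bis 0 5 2 1 233 (.bis 3 4 2 1 307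
  (.leaf 12) (.leaf 53)) (.bis 0 6 2 1 246 (.bis 3 4 2 1 307 (.leaf 9) (.leaf 21)) (.bis 0 2 2 1
  234 (.bis 3 4 2 1 307 (.leaf 9) (.leaf 11)) (.bis 0 3 1 1 304 (.leaf 57) (.leaf 27)))))) (.bis
  0 5 2 1 233 (.leaf 53) (.bis 0 6 2 1 246 (.leaf 21) (.bis 0 2 2 1 234 (.leaf 11) (.bis 0 1 2 1
  235 (.leaf 11) (.bis 0 3 1 1 304 (.leaf 11) (.leaf 27)))))))) (.bis 1 4 1 2 247 (.bis 0 4 1 1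
  248 (.bis 3 4 1 1 306 (.bis 2 4 2 1 256 (.bis 4 6 2 1 249 (.leaf 12) (.bis 4 5 2 1 252 (.leaf
  12) (.leaf 34))) (.bis 0 2 1 4 258 (.bis 2 3 4 1 308 (.leaf 12) (.bis 2 5 4 1 226 (.leaf 12)
  (.leaf 4))) (.leaf 12))) (.bis 2 3 2 1 300 (.bis 0 3 1 2 307 (.leaf 11) (.bis 0 6 1 1 254
  (.leaf 11) (.leaf 12))) (.bis 0 2 1 4 258 (.bis 2 4 4 1 308 (.leaf 12) (.bis 2 5 4 1 226 (.leaf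
  5) (.leaf 4))) (.leaf 12)))) (.bis 0 2 1 2 236 (.bis 2 3 2 1 300 (.bis 3 4 2 1 307 (.leaf 12)
  (.leaf 11)) (.bis 2 4 4 1 258 (.leaf 12) (.bis 2 5 4 1 226 (.leaf 5) (.leaf 4)))) (.bis 0 5 2 1
  233 (.bis 3 4 2 1 307 (.leaf 12) (.leaf 11)) (.bis 0 6 2 1 234 (.bis 3 4 2 1 307 (.leaf 12)
  (.leaf 11)) (.bis 0 3 1 1 304 (.bis 3 4 2 1 307 (.leaf 27) (.leaf 11)) (.leaf 27)))))) (.bis 0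
  2 1 2 236 (.bis 2 3 2 1 300 (.bis 0 3 1 2 305 (.leaf 11) (.leaf 5)) (.bis 1 2 1 4 55 (.bis 2 5
  4 1 226 (.leaf 5) (.leaf 4)) (.leaf 5))) (.bis 0 5 2 1 233 (.bis 2 3 1 2 305 (.leaf 11) (.leaf
  5)) (.bis 0 6 2 1 234 (.leaf 11) (.bis 0 1 2 1 235 (.leaf 11) (.bis 0 3 1 1 304 (.leaf 11)
  (.bis 0 4 4 1 270 (.leaf 11) (.leaf 17))))))))) (.bis 1 4 2 1 259 (.bis 4 6 2 1 247 (.bis 0 2 1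
  2 236 (.bis 2 3 2 1 300 (.bis 1 3 1 2 309 (.bis 0 3 1 2 305 (.leaf 11) (.leaf 5)) (.leaf 5))
  (.bis 2 6 4 1 55 (.leaf 5) (.bis 2 5 4 1 226 (.leaf 5) (.leaf 4)))) (.bis 0 5 2 1 233 (.leaf
  11) (.bis 0 6 2 1 235 (.bis 1 3 1 2 309 (.leaf 11) (.leaf 5)) (.bis 0 3 1 1 304 (.leaf 11)
  (.bis 0 1 2 1 260 (.leaf 11) (.bis 0 4 4 1 270 (.leaf 11) (.leaf 17))))))) (.bis 0 4 1 1 248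
  (.bis 3 4 1 1 306 (.bis 2 4 2 1 256 (.bis 4 5 2 1 252 (.leaf 12) (.bis 1 4 1 2 261 (.leaf 34)
  (.leaf 12))) (.bis 0 2 1 4 258 (.bis 2 3 4 1 308 (.leaf 12) (.bis 2 5 4 1 226 (.leaf 12) (.leaf
  4))) (.leaf 12))) (.bis 2 3 2 1 300 (.bis 0 3 1 2 307 (.leaf 11) (.leaf 12)) (.bis 0 2 1 4 258
  (.bis 2 4 4 1 308 (.leaf 12) (.bis 2 5 4 1 226 (.leaf 5) (.leaf 4))) (.leaf 12)))) (.bis 0 2 1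
  2 236 (.bis 2 3 2 1 300 (.bis 3 4 2 1 307 (.leaf 12) (.leaf 11)) (.bis 2 4 4 1 258 (.leaf 12)
  (.bis 2 5 4 1 226 (.leaf 5) (.leaf 4)))) (.bis 0 5 2 1 233 (.bis 3 4 2 1 307 (.leaf 12) (.leaf
  11)) (.bis 0 3 1 1 304 (.bis 3 4 2 1 307 (.leaf 57) (.leaf 11)) (.bis 0 1 2 1 260 (.leaf 57)
  (.leaf 27))))))) (.bis 0 1 1 2 240 (.bis 1 3 2 1 301 (.bis 2 3 2 1 300 (.leaf 11) (.bis 2 6 4 1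
  55 (.leaf 5) (.bis 2 5 4 1 226 (.leaf 5) (.bis 0 2 1 4 243 (.leaf 26) (.leaf 5))))) (.bis 1 2 1
  1 41 (.bis 2 6 4 1 55 (.leaf 2) (.bis 2 5 4 1 226 (.leaf 2) (.bis 0 2 1 4 243 (.leaf 26) (.leaf
  2)))) (.leaf 2))) (.bis 0 2 1 2 236 (.bis 2 3 2 1 300 (.leaf 11) (.bis 2 6 4 1 55 (.leaf 5)
  (.bis 2 5 4 1 226 (.leaf 5) (.leaf 46)))) (.bis 0 5 2 1 233 (.leaf 11) (.bis 0 6 2 1 235 (.bis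
  1 3 1 2 310 (.leaf 11) (.leaf 5)) (.bis 0 3 1 1 304 (.bis 1 3 1 2 310 (.leaf 11) (.leaf 11))
  (.bis 0 4 2 1 260 (.leaf 11) (.leaf 17)))))))))) (.bis 1 3 1 1 311 (.bis 2 3 1 1 312 (.bis 3 6
  2 1 313 (.bis 4 6 1 1 245 (.bis 0 6 1 1 230 (.bis 2 6 1 1 314 (.bis 1 6 1 1 315 (.bis 5 6 1 1
  297 (.bis 4 6 1 2 316 (.bis 3 6 1 2 317 (.leaf 48) (.leaf 38)) (.bis 0 3 1 1 318 (.leaf 38)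
  (.leaf 21))) (.bis 3 5 1 2 319 (.leaf 21) (.leaf 38))) (.bis 3 5 1 2 319 (.bis 4 5 1 2 320
  (.leaf 21) (.bis 1 4 2 1 321 (.leaf 9) (.leaf 9))) (.bis 1 3 2 1 322 (.leaf 38) (.bis 1 4 2 1
  321 (.leaf 9) (.leaf 9))))) (.bis 3 5 1 2 319 (.bis 0 2 1 2 323 (.bis 2 5 1 1 324 (.leaf 21)
  (.leaf 9)) (.leaf 21)) (.bis 0 2 1 2 323 (.bis 1 3 2 1 322 (.bis 2 3 2 1 325 (.leaf 38) (.bis 2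
  4 2 1 326 (.leaf 9) (.leaf 9))) (.bis 1 4 2 1 321 (.bis 2 4 2 1 326 (.leaf 9) (.leaf 9)) (.leaf
  9))) (.bis 1 3 2 1 322 (.leaf 38) (.leaf 9))))) (.bis 0 3 2 1 327 (.bis 3 5 1 2 319 (.bis 2 6 2
  1 323 (.leaf 21) (.bis 2 5 1 1 324 (.bis 4 5 1 2 320 (.leaf 21) (.leaf 9)) (.bis 1 4 2 1 321
  (.bis 2 4 2 1 326 (.leaf 9) (.leaf 9)) (.leaf 9)))) (.bis 2 6 2 1 323 (.bis 1 3 2 1 322 (.leaf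
  38) (.leaf 9)) (.bis 1 3 2 1 322 (.bis 2 3 2 1 325 (.leaf 38) (.bis 2 4 2 1 326 (.leaf 9)
  (.leaf 9))) (.bis 1 4 2 1 321 (.bis 2 4 2 1 326 (.leaf 9) (.leaf 9)) (.leaf 9))))) (.bis 0 4 2
  1 246 (.bis 2 6 2 1 323 (.bis 4 5 1 2 320 (.leaf 21) (.leaf 9)) (.bis 2 5 1 1 324 (.leaf 21)
  (.bis 1 4 2 1 321 (.leaf 9) (.leaf 9)))) (.bis 0 5 1 1 304 (.bis 2 6 2 1 323 (.leaf 21) (.bis 2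
  5 1 1 324 (.leaf 21) (.leaf 9))) (.bis 0 2 1 1 328 (.bis 2 6 2 1 323 (.leaf 9) (.bis 2 5 2 1
  329 (.leaf 9) (.leaf 9))) (.leaf 27)))))) (.bis 0 4 1 1 248 (.bis 3 4 1 2 330 (.bis 4 5 1 1 306
  (.bis 0 5 1 2 307 (.bis 3 5 1 4 331 (.bis 2 5 1 1 324 (.leaf 70) (.leaf 9)) (.leaf 9)) (.leaf
  9)) (.bis 1 4 1 1 332 (.bis 2 4 1 1 333 (.leaf 56) (.leaf 75)) (.leaf 9))) (.bis 0 3 1 1 334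
  (.bis 3 5 1 2 319 (.bis 4 5 1 4 331 (.bis 2 5 1 1 324 (.leaf 21) (.leaf 9)) (.bis 1 6 2 1 321
  (.bis 2 6 2 1 326 (.leaf 9) (.leaf 9)) (.leaf 9))) (.bis 1 3 2 1 322 (.bis 2 3 2 1 325 (.leaf
  38) (.leaf 9)) (.leaf 9))) (.bis 0 5 1 2 307 (.bis 4 5 1 4 331 (.bis 2 5 1 1 324 (.leaf 21)
  (.leaf 9)) (.leaf 9)) (.leaf 9)))) (.bis 0 3 2 1 327 (.bis 3 4 1 1 334 (.bis 4 5 1 2 307 (.bis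
  2 5 1 1 324 (.leaf 21) (.leaf 9)) (.leaf 9)) (.bis 3 5 1 2 319 (.bis 2 5 1 1 324 (.leaf 21)
  (.leaf 9)) (.bis 1 3 2 1 322 (.bis 2 3 2 1 325 (.leaf 38) (.bis 2 6 2 1 326 (.leaf 9) (.leaf
  9))) (.bis 1 6 2 1 321 (.bis 2 6 2 1 326 (.leaf 9) (.leaf 9)) (.leaf 9))))) (.bis 0 6 2 1 246
  (.bis 4 5 1 2 307 (.bis 2 5 1 1 324 (.bis 5 6 2 1 320 (.leaf 9) (.leaf 21)) (.bis 1 6 2 1 321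
  (.bis 2 6 2 1 326 (.leaf 9) (.leaf 9)) (.leaf 9))) (.bis 1 6 2 1 321 (.bis 2 6 2 1 326 (.leaf
  9) (.leaf 9)) (.leaf 9))) (.bis 0 5 1 1 304 (.bis 4 5 1 2 307 (.bis 2 5 1 1 324 (.leaf 21)
  (.bis 0 2 1 2 329 (.leaf 9) (.leaf 9))) (.bis 0 2 1 2 329 (.leaf 9) (.leaf 9))) (.bis 0 2 1 1
  328 (.bis 2 5 2 1 329 (.leaf 9) (.leaf 9)) (.leaf 27))))))) (.bis 0 3 1 2 335 (.bis 3 4 2 1 336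
  (.bis 4 6 2 1 330 (.bis 3 5 1 2 337 (.bis 0 5 1 2 338 (.bis 5 6 2 1 319 (.bis 1 6 2 1 322 (.bis
  2 6 2 1 325 (.leaf 38) (.leaf 9)) (.leaf 9)) (.bis 4 5 1 4 331 (.bis 2 5 1 1 324 (.leaf 70)
  (.leaf 9)) (.leaf 9))) (.bis 1 6 2 1 322 (.bis 2 6 2 1 325 (.bis 0 4 2 1 339 (.leaf 38) (.bis 0
  6 1 1 340 (.leaf 38) (.leaf 23))) (.bis 0 4 2 1 339 (.leaf 9) (.leaf 23))) (.bis 0 4 2 1 339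
  (.leaf 9) (.leaf 23)))) (.bis 1 6 2 1 322 (.bis 3 6 1 1 341 (.bis 2 6 2 1 325 (.bis 0 4 2 1 339
  (.leaf 38) (.bis 0 6 1 1 340 (.leaf 38) (.leaf 23))) (.bis 0 4 2 1 339 (.leaf 23) (.leaf 23)))
  (.bis 0 4 2 1 339 (.leaf 43) (.bis 1 3 1 2 342 (.bis 0 3 1 1 343 (.leaf 43) (.leaf 23)) (.leaf
  23)))) (.bis 1 3 2 1 344 (.bis 0 4 2 1 339 (.leaf 43) (.bis 3 6 2 1 342 (.leaf 23) (.bis 0 3 1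
  1 343 (.leaf 43) (.leaf 23)))) (.bis 0 4 2 1 339 (.leaf 9) (.leaf 23))))) (.bis 4 5 1 1 306
  (.bis 3 5 1 2 337 (.bis 0 5 1 2 338 (.bis 5 6 4 1 331 (.leaf 9) (.bis 2 5 1 1 324 (.leaf 57)
  (.leaf 9))) (.bis 0 4 1 1 345 (.leaf 9) (.leaf 23))) (.bis 0 4 1 1 345 (.bis 1 3 2 1 344 (.leaf
  43) (.leaf 9)) (.bis 1 3 2 1 344 (.bis 0 6 2 1 339 (.leaf 43) (.bis 0 3 1 1 343 (.leaf 43)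
  (.leaf 23))) (.bis 0 6 2 1 339 (.leaf 9) (.leaf 23))))) (.bis 0 4 1 2 346 (.bis 1 4 1 1 332
  (.bis 2 4 1 1 333 (.leaf 102) (.leaf 43)) (.leaf 103)) (.bis 0 5 1 1 345 (.bis 1 3 2 1 344
  (.leaf 43) (.leaf 49)) (.bis 1 3 2 1 344 (.bis 0 6 2 1 339 (.leaf 43) (.leaf 104)) (.bis 0 6 2
  1 339 (.leaf 23) (.leaf 23))))))) (.bis 3 5 2 1 347 (.bis 4 5 1 2 337 (.bis 0 5 1 2 338 (.bis 5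
  6 2 1 319 (.bis 1 6 2 1 322 (.bis 2 6 2 1 325 (.leaf 71) (.leaf 23)) (.leaf 23)) (.bis 2 5 1 1
  324 (.leaf 100) (.leaf 23))) (.bis 1 6 2 1 322 (.bis 2 6 2 1 325 (.bis 0 6 1 1 340 (.leaf 71)
  (.leaf 23)) (.leaf 23)) (.leaf 23))) (.bis 1 6 2 1 322 (.bis 4 6 1 1 341 (.bis 2 6 2 1 325
  (.bis 0 6 1 1 340 (.leaf 71) (.leaf 23)) (.bis 0 2 1 2 348 (.leaf 23) (.leaf 23))) (.bis 1 4 1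
  2 342 (.bis 0 4 1 1 343 (.leaf 43) (.leaf 23)) (.bis 0 2 1 2 348 (.leaf 23) (.leaf 23)))) (.bis
  1 4 2 1 344 (.bis 4 6 2 1 342 (.bis 0 2 1 2 348 (.leaf 23) (.leaf 23)) (.bis 0 4 1 1 343 (.leaf
  43) (.leaf 23))) (.leaf 23)))) (.bis 1 3 1 2 349 (.bis 2 3 1 2 350 (.bis 3 6 4 1 351 (.bis 4 6
  1 1 341 (.bis 0 6 1 1 340 (.leaf 89) (.leaf 58)) (.bis 0 4 1 1 343 (.leaf 76) (.leaf 58)))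
  (.bis 0 3 1 4 352 (.bis 3 4 4 1 353 (.bis 4 6 2 1 354 (.leaf 58) (.leaf 76)) (.bis 3 5 4 1 355
  (.leaf 58) (.bis 1 3 1 4 356 (.leaf 105) (.leaf 58)))) (.bis 0 4 1 1 343 (.bis 4 6 2 1 354
  (.leaf 58) (.leaf 76)) (.leaf 58)))) (.bis 4 6 1 1 341 (.bis 2 6 2 1 325 (.bis 0 6 1 1 340
  (.leaf 89) (.leaf 58)) (.leaf 88)) (.bis 0 4 1 1 343 (.leaf 101) (.leaf 88)))) (.bis 1 6 2 1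
  322 (.bis 4 6 1 1 341 (.bis 2 6 2 1 325 (.bis 0 6 1 1 340 (.leaf 71) (.leaf 23)) (.leaf 23))
  (.bis 1 4 1 2 342 (.bis 0 4 1 1 343 (.leaf 43) (.leaf 23)) (.leaf 23))) (.bis 1 4 2 1 344 (.bis
  4 6 2 1 342 (.leaf 23) (.bis 0 4 1 1 343 (.leaf 43) (.leaf 23))) (.leaf 23)))))) (.bis 0 4 1 1
  248 (.bis 4 6 2 1 330 (.bis 0 6 1 1 334 (.bis 3 5 1 2 338 (.bis 5 6 2 1 319 (.bis 1 6 2 1 322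
  (.bis 2 6 2 1 325 (.leaf 38) (.leaf 9)) (.leaf 9)) (.bis 4 5 1 4 331 (.bis 2 5 1 1 324 (.leaf
  21) (.leaf 9)) (.leaf 9))) (.bis 1 6 2 1 322 (.bis 2 6 2 1 325 (.bis 3 4 2 1 339 (.leaf 38)
  (.bis 3 6 1 1 340 (.leaf 38) (.leaf 23))) (.leaf 23)) (.leaf 23))) (.bis 3 5 1 2 338 (.bis 0 5
  1 2 307 (.bis 4 5 1 4 331 (.bis 2 5 1 1 324 (.leaf 21) (.leaf 9)) (.leaf 9)) (.leaf 9)) (.leaf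
  49))) (.bis 4 5 1 1 306 (.bis 3 5 1 2 338 (.bis 0 5 1 2 307 (.bis 5 6 4 1 331 (.leaf 9) (.bis 2
  5 1 1 324 (.leaf 11) (.leaf 9))) (.leaf 9)) (.bis 3 4 1 1 345 (.leaf 9) (.bis 3 6 2 1 339
  (.leaf 9) (.leaf 49)))) (.bis 3 4 1 2 346 (.bis 1 4 1 1 332 (.bis 2 4 1 1 333 (.leaf 56) (.leaf
  75)) (.leaf 49)) (.bis 3 5 1 1 345 (.leaf 49) (.bis 3 6 2 1 339 (.leaf 49) (.leaf 49))))))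
  (.bis 0 6 2 1 327 (.bis 4 6 1 1 334 (.bis 3 5 1 2 338 (.bis 5 6 2 1 319 (.bis 1 6 2 1 322 (.bis
  2 6 2 1 325 (.leaf 38) (.leaf 9)) (.bis 2 5 4 1 357 (.leaf 9) (.leaf 9))) (.bis 2 5 1 1 324
  (.leaf 21) (.leaf 9))) (.bis 1 6 2 1 322 (.bis 2 6 2 1 325 (.bis 3 6 1 1 340 (.leaf 38) (.leaf
  23)) (.leaf 23)) (.leaf 23))) (.bis 3 5 1 2 338 (.bis 4 5 1 2 307 (.bis 2 5 1 1 324 (.leaf 21)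
  (.leaf 9)) (.leaf 9)) (.leaf 49))) (.bis 0 5 1 1 304 (.bis 3 5 1 2 338 (.bis 4 5 1 2 307 (.bis
  2 5 1 1 324 (.leaf 21) (.bis 0 2 1 2 329 (.leaf 9) (.leaf 9))) (.bis 0 2 1 2 329 (.leaf 9)
  (.leaf 9))) (.bis 0 2 1 2 329 (.leaf 49) (.leaf 49))) (.bis 0 2 1 1 328 (.bis 2 5 2 1 329
  (.leaf 49) (.leaf 49)) (.leaf 99))))))) (.bis 2 6 2 1 49 (.bis 4 6 1 1 245 (.bis 0 6 1 1 230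
  (.bis 3 6 1 1 314 (.bis 1 6 1 1 315 (.bis 5 6 1 1 297 (.leaf 48) (.leaf 21)) (.bis 4 5 1 2 320
  (.bis 2 5 1 2 299 (.leaf 21) (.bis 1 2 2 1 358 (.leaf 9) (.leaf 9))) (.bis 1 2 2 1 358 (.leaf
  9) (.bis 1 4 2 1 321 (.leaf 9) (.leaf 9))))) (.bis 0 3 1 2 323 (.bis 3 5 1 1 324 (.leaf 21)
  (.leaf 9)) (.bis 4 5 1 2 320 (.leaf 21) (.bis 1 2 2 1 358 (.leaf 9) (.leaf 9))))) (.bis 0 4 2 1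
  246 (.bis 3 6 2 1 323 (.leaf 21) (.bis 3 5 1 1 324 (.leaf 21) (.leaf 9))) (.bis 0 2 2 1 234
  (.bis 3 6 2 1 323 (.leaf 11) (.bis 3 5 1 1 324 (.leaf 11) (.leaf 9))) (.bis 0 5 1 1 304 (.bis 3
  6 2 1 323 (.leaf 11) (.bis 3 5 1 1 324 (.leaf 11) (.leaf 9))) (.bis 0 3 1 1 328 (.bis 3 6 2 1
  323 (.leaf 9) (.bis 3 5 2 1 329 (.leaf 9) (.leaf 9))) (.leaf 27)))))) (.bis 0 4 1 1 248 (.bis 4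
  5 1 1 306 (.bis 0 5 1 2 307 (.bis 3 5 1 1 324 (.leaf 70) (.leaf 9)) (.leaf 9)) (.bis 2 4 1 2
  249 (.bis 1 4 1 1 332 (.bis 3 4 1 1 333 (.leaf 56) (.leaf 75)) (.leaf 9)) (.leaf 9))) (.bis 0 6
  2 1 246 (.bis 4 5 1 2 307 (.bis 3 5 1 1 324 (.leaf 21) (.leaf 9)) (.bis 2 4 1 1 254 (.bis 1 6 2
  1 321 (.bis 3 6 2 1 326 (.leaf 9) (.leaf 9)) (.leaf 9)) (.bis 2 3 1 2 359 (.leaf 9) (.leaf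
  9)))) (.bis 0 2 2 1 234 (.bis 4 5 1 2 307 (.bis 3 5 1 1 324 (.leaf 11) (.leaf 9)) (.bis 2 4 1 1
  254 (.bis 0 3 1 4 360 (.leaf 9) (.leaf 9)) (.bis 2 3 1 2 359 (.leaf 9) (.leaf 9)))) (.bis 0 5 1
  1 304 (.bis 4 5 1 2 307 (.bis 3 5 1 1 324 (.leaf 11) (.bis 0 3 1 2 329 (.leaf 9) (.leaf 9)))
  (.bis 0 3 1 2 329 (.leaf 9) (.leaf 9))) (.bis 0 3 1 1 328 (.bis 3 5 2 1 329 (.leaf 9) (.leaf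
  9)) (.leaf 27))))))) (.bis 0 4 1 1 248 (.bis 4 5 1 1 306 (.bis 2 5 2 1 300 (.bis 0 5 1 2 307
  (.bis 3 5 1 1 324 (.leaf 11) (.leaf 9)) (.leaf 9)) (.bis 1 2 1 2 361 (.bis 0 2 1 4 258 (.bis 2
  4 4 1 308 (.leaf 9) (.bis 2 3 2 1 362 (.leaf 30) (.leaf 4))) (.leaf 9)) (.leaf 9))) (.bis 2 4 2
  1 256 (.bis 4 6 2 1 249 (.bis 0 6 1 1 254 (.leaf 30) (.leaf 30)) (.bis 1 4 1 1 332 (.bis 3 4 1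
  1 333 (.leaf 34) (.leaf 30)) (.leaf 30))) (.bis 1 2 1 2 361 (.bis 0 2 1 4 258 (.bis 2 5 4 1 308
  (.leaf 30) (.bis 2 3 2 1 362 (.leaf 30) (.leaf 4))) (.bis 0 6 1 1 254 (.leaf 30) (.leaf 30)))
  (.bis 0 6 1 1 254 (.leaf 30) (.leaf 30))))) (.bis 0 2 1 2 236 (.bis 2 5 2 1 300 (.bis 4 5 1 2
  307 (.bis 0 5 1 2 305 (.bis 3 5 1 1 324 (.leaf 11) (.leaf 9)) (.leaf 30)) (.leaf 30)) (.bis 1 2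
  1 2 361 (.bis 2 4 4 1 258 (.leaf 30) (.bis 2 3 2 1 362 (.leaf 30) (.leaf 4))) (.leaf 30)))
  (.bis 0 6 2 1 234 (.bis 4 5 1 2 307 (.bis 2 5 1 2 305 (.bis 3 5 1 1 324 (.leaf 11) (.leaf 9))
  (.bis 3 6 2 1 359 (.leaf 11) (.leaf 30))) (.leaf 30)) (.bis 0 5 1 1 304 (.bis 4 5 1 2 307 (.bis
  2 5 1 2 305 (.bis 3 5 1 1 324 (.leaf 11) (.bis 0 3 1 2 329 (.leaf 9) (.leaf 9))) (.bis 0 3 1 2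
  329 (.leaf 30) (.leaf 11))) (.bis 0 3 1 2 329 (.leaf 30) (.leaf 27))) (.bis 0 3 1 1 328 (.bis 3
  5 2 1 329 (.leaf 27) (.leaf 30)) (.leaf 27)))))))) (.bis 1 6 2 1 28 (.bis 2 6 2 1 49 (.bis 4 6
  1 1 245 (.bis 0 6 1 1 230 (.bis 3 6 1 1 315 (.bis 5 6 1 1 297 (.leaf 48) (.leaf 21)) (.bis 1 4
  1 1 363 (.bis 4 5 1 2 320 (.bis 2 5 1 2 299 (.bis 0 5 1 2 364 (.leaf 11) (.bis 0 3 1 2 365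
  (.leaf 9) (.leaf 9))) (.bis 2 3 1 2 358 (.leaf 9) (.leaf 9))) (.bis 2 3 1 2 358 (.bis 3 4 2 1
  321 (.leaf 9) (.leaf 9)) (.leaf 9))) (.bis 1 3 1 2 366 (.leaf 11) (.leaf 11)))) (.bis 0 4 2 1
  246 (.bis 1 4 1 1 363 (.bis 4 5 1 2 320 (.leaf 11) (.bis 2 3 1 2 358 (.leaf 9) (.leaf 9)))
  (.bis 1 3 1 2 366 (.leaf 11) (.leaf 11))) (.bis 0 2 2 1 234 (.leaf 11) (.bis 0 1 2 1 235 (.leaf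
  11) (.bis 0 5 1 1 304 (.leaf 11) (.leaf 27)))))) (.bis 1 4 1 2 247 (.bis 0 4 1 1 248 (.bis 4 5
  1 1 306 (.bis 0 5 1 2 307 (.leaf 70) (.leaf 9)) (.bis 2 4 1 2 249 (.bis 3 4 1 1 332 (.bis 4 6 2
  1 253 (.leaf 56) (.leaf 34)) (.leaf 9)) (.leaf 9))) (.bis 0 6 2 1 246 (.bis 4 5 1 2 307 (.leaf
  21) (.leaf 9)) (.bis 0 2 2 1 234 (.bis 4 5 1 2 307 (.leaf 11) (.leaf 9)) (.bis 0 5 1 1 304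
  (.leaf 57) (.leaf 27))))) (.bis 0 6 2 1 246 (.leaf 21) (.bis 0 2 2 1 234 (.leaf 11) (.bis 0 1 2
  1 235 (.leaf 11) (.bis 0 5 1 1 304 (.leaf 11) (.leaf 27))))))) (.bis 1 4 1 2 247 (.bis 0 4 1 1
  248 (.bis 4 5 1 1 306 (.bis 2 5 2 1 300 (.bis 0 5 1 2 307 (.leaf 11) (.leaf 9)) (.bis 2 3 2 1
  361 (.leaf 9) (.bis 0 2 1 4 258 (.bis 2 4 4 1 308 (.leaf 9) (.leaf 4)) (.leaf 9)))) (.bis 2 4 2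
  1 256 (.bis 4 6 2 1 249 (.leaf 30) (.bis 3 4 1 1 332 (.leaf 34) (.leaf 30))) (.bis 2 3 2 1 361
  (.leaf 30) (.bis 0 2 1 4 258 (.bis 2 5 4 1 308 (.leaf 12) (.leaf 4)) (.leaf 12))))) (.bis 0 2 1
  2 236 (.bis 2 5 2 1 300 (.bis 4 5 1 2 307 (.leaf 11) (.leaf 30)) (.bis 2 3 2 1 361 (.leaf 30)
  (.bis 2 4 4 1 258 (.leaf 12) (.leaf 4)))) (.bis 0 6 2 1 234 (.bis 4 5 1 2 307 (.leaf 11) (.leaf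
  30)) (.bis 0 5 1 1 304 (.bis 4 5 1 2 307 (.leaf 11) (.leaf 27)) (.leaf 27))))) (.bis 0 2 1 2
  236 (.bis 2 5 2 1 300 (.leaf 11) (.bis 1 2 1 4 55 (.bis 2 3 2 1 361 (.leaf 11) (.leaf 4))
  (.leaf 11))) (.bis 0 6 2 1 234 (.leaf 11) (.bis 0 1 2 1 235 (.leaf 11) (.bis 0 5 1 1 304 (.leaf
  11) (.bis 0 4 4 1 270 (.leaf 11) (.leaf 27)))))))) (.bis 1 4 2 1 259 (.bis 4 6 2 1 247 (.bis 0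
  2 1 2 236 (.bis 2 5 2 1 300 (.leaf 11) (.bis 2 6 4 1 55 (.leaf 11) (.bis 2 3 2 1 361 (.leaf 11)
  (.leaf 4)))) (.bis 0 6 2 1 235 (.bis 1 5 1 2 309 (.leaf 11) (.leaf 11)) (.bis 0 5 1 1 304
  (.leaf 11) (.bis 0 1 2 1 260 (.leaf 11) (.bis 0 4 4 1 270 (.leaf 11) (.leaf 27)))))) (.bis 0 4
  1 1 248 (.bis 4 5 1 1 306 (.bis 2 5 2 1 300 (.leaf 57) (.bis 2 3 2 1 361 (.leaf 30) (.bis 0 2 1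
  4 258 (.bis 2 4 4 1 308 (.leaf 12) (.leaf 4)) (.leaf 12)))) (.bis 2 4 2 1 256 (.bis 3 4 1 1 332
  (.bis 1 4 1 2 261 (.leaf 34) (.leaf 12)) (.leaf 30)) (.bis 2 3 2 1 361 (.leaf 30) (.bis 0 2 1 4
  258 (.bis 2 5 4 1 308 (.leaf 12) (.leaf 4)) (.leaf 12))))) (.bis 0 2 1 2 236 (.bis 2 5 2 1 300
  (.bis 4 5 1 2 307 (.leaf 11) (.leaf 30)) (.bis 2 3 2 1 361 (.leaf 30) (.bis 2 4 4 1 258 (.leaf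
  12) (.leaf 4)))) (.bis 0 5 1 1 304 (.bis 4 5 1 2 307 (.leaf 11) (.leaf 57)) (.bis 0 1 2 1 260
  (.leaf 57) (.leaf 27)))))) (.bis 0 1 1 2 240 (.bis 1 5 2 1 301 (.bis 2 5 2 1 300 (.leaf 11)
  (.bis 2 6 4 1 55 (.leaf 11) (.bis 2 3 2 1 361 (.leaf 11) (.bis 0 2 1 4 243 (.leaf 26) (.leaf
  11))))) (.bis 1 3 2 1 367 (.bis 2 6 4 1 55 (.leaf 11) (.bis 2 3 2 1 361 (.leaf 11) (.bis 0 2 1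
  4 243 (.bis 2 5 4 1 302 (.leaf 11) (.leaf 46)) (.leaf 11)))) (.bis 1 2 1 1 41 (.bis 2 6 4 1 55
  (.leaf 2) (.bis 0 2 1 4 243 (.bis 2 5 4 1 302 (.leaf 2) (.leaf 46)) (.leaf 2))) (.leaf 2))))
  (.bis 0 2 1 2 236 (.bis 2 5 2 1 300 (.leaf 11) (.bis 2 6 4 1 55 (.leaf 11) (.bis 2 3 2 1 361
  (.leaf 11) (.leaf 46)))) (.bis 0 6 2 1 235 (.bis 1 5 1 2 310 (.leaf 11) (.leaf 11)) (.bis 0 5 1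
  1 304 (.bis 1 5 1 2 310 (.leaf 11) (.leaf 11)) (.bis 0 4 2 1 260 (.leaf 11) (.leaf 27))))))))))

def lc6 : List Vr := [⟨[60,0,0,69,0,0,0], 78363, 0⟩, ⟨[0,24,0,0,0,0,0], 13824, 0⟩, ⟨[0,0,27,0,0,0,
  0], 14580, 0⟩, ⟨[0,0,0,69,0,0,0], 14283, 0⟩, ⟨[0,0,0,69,69,0,0], 76176, 0⟩, ⟨[0,0,0,0,0,42,0],
  14112, 0⟩, ⟨[0,0,0,69,0,0,70], 52923, 0⟩]

theorem lk6 : chkTr lowT (leafLow 4 lowB) lt6 lc6 = true := by decide +kernel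

def lt7 : Tr ℕ := (.bis 4 5 1 1 105 (.bis 0 6 1 1 106 (.bis 3 5 1 2 219 (.bis 5 6 2 1 14 (.bis 4
  6 1 1 129 (.bis 1 6 2 1 28 (.bis 2 6 2 1 49 (.bis 3 6 1 2 220 (.leaf 22) (.leaf 33)) (.bis 2 5
  4 1 35 (.leaf 33) (.bis 2 3 4 1 225 (.leaf 5) (.bis 2 4 4 1 130 (.leaf 5) (.bis 1 2 1 4 55
  (.bis 0 2 1 4 119 (.bis 2 6 4 1 82 (.leaf 4) (.leaf 4)) (.leaf 4)) (.leaf 5)))))) (.bis 2 5 4 1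
  35 (.bis 1 5 4 1 21 (.leaf 19) (.bis 1 4 4 1 131 (.leaf 5) (.bis 0 1 1 4 121 (.leaf 2) (.leaf
  2)))) (.bis 2 3 4 1 225 (.bis 1 4 4 1 131 (.leaf 5) (.bis 0 1 1 4 121 (.leaf 2) (.leaf 2)))
  (.bis 1 4 4 1 131 (.bis 2 4 4 1 130 (.leaf 5) (.bis 2 6 4 1 55 (.leaf 2) (.bis 0 2 1 4 119
  (.bis 1 2 1 8 132 (.leaf 4) (.leaf 2)) (.leaf 2)))) (.bis 1 2 1 1 41 (.bis 2 6 4 1 55 (.leaf 2)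
  (.bis 0 2 1 4 119 (.bis 2 4 8 1 132 (.leaf 2) (.leaf 4)) (.leaf 2))) (.bis 0 1 1 4 121 (.leaf
  2) (.leaf 2))))))) (.bis 2 5 4 1 35 (.bis 1 4 2 1 120 (.bis 4 5 2 1 115 (.leaf 19) (.bis 3 4 1
  2 228 (.leaf 14) (.leaf 19))) (.bis 1 5 4 1 21 (.leaf 19) (.bis 1 6 4 1 131 (.leaf 5) (.leaf
  2)))) (.bis 1 4 2 1 120 (.bis 2 4 2 1 118 (.bis 3 4 1 2 228 (.leaf 14) (.leaf 5)) (.bis 2 3 4 1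
  225 (.leaf 5) (.bis 2 6 4 1 130 (.leaf 5) (.bis 0 2 1 4 119 (.bis 1 2 1 4 122 (.leaf 4) (.leaf
  2)) (.leaf 2))))) (.bis 2 3 4 1 225 (.bis 1 6 4 1 131 (.leaf 5) (.bis 0 1 1 4 121 (.leaf 2)
  (.leaf 2))) (.bis 1 6 4 1 131 (.bis 2 6 4 1 130 (.leaf 5) (.bis 0 2 1 4 119 (.bis 2 4 4 1 122
  (.leaf 2) (.bis 1 2 1 8 132 (.leaf 4) (.leaf 2))) (.leaf 2))) (.bis 1 2 1 1 41 (.bis 0 2 1 4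
  119 (.bis 2 4 4 1 122 (.leaf 2) (.bis 2 6 8 1 132 (.leaf 2) (.leaf 4))) (.leaf 2)) (.bis 0 1 1
  4 121 (.leaf 2) (.leaf 2)))))))) (.bis 2 5 1 1 32 (.bis 0 5 1 4 123 (.bis 1 5 1 1 20 (.bis 4 5
  1 2 124 (.bis 3 5 1 4 368 (.leaf 32) (.leaf 19)) (.bis 4 6 2 1 115 (.leaf 19) (.bis 3 4 1 2 228
  (.bis 1 4 1 1 125 (.leaf 14) (.leaf 19)) (.leaf 19)))) (.bis 1 4 2 1 120 (.bis 4 6 2 1 115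
  (.leaf 19) (.bis 3 4 1 2 228 (.leaf 65) (.leaf 19))) (.bis 1 6 4 1 21 (.leaf 19) (.leaf 10))))
  (.bis 1 4 2 1 120 (.bis 4 6 2 1 115 (.leaf 19) (.bis 3 4 1 2 228 (.bis 0 2 1 2 128 (.leaf 14)
  (.leaf 14)) (.leaf 2))) (.bis 1 6 4 1 21 (.leaf 19) (.bis 0 1 1 4 121 (.leaf 2) (.leaf 2)))))
  (.bis 2 6 4 1 35 (.bis 1 4 2 1 120 (.bis 4 6 2 1 115 (.leaf 19) (.bis 3 4 1 2 228 (.leaf 14)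
  (.leaf 2))) (.bis 1 6 4 1 21 (.leaf 19) (.bis 0 1 1 4 121 (.leaf 2) (.leaf 2)))) (.bis 1 4 2 1
  120 (.bis 2 4 2 1 118 (.bis 3 4 1 2 228 (.bis 0 5 1 2 128 (.leaf 14) (.leaf 14)) (.leaf 2))
  (.bis 2 3 4 1 225 (.leaf 2) (.bis 0 2 1 4 119 (.bis 1 2 1 4 122 (.leaf 26) (.leaf 2)) (.leaf
  2)))) (.bis 2 3 4 1 225 (.bis 0 1 1 4 121 (.leaf 2) (.leaf 2)) (.bis 1 2 1 1 41 (.bis 0 2 1 4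
  119 (.bis 2 4 4 1 122 (.leaf 2) (.leaf 26)) (.leaf 2)) (.bis 0 1 1 4 121 (.leaf 2) (.leaf
  2)))))))) (.bis 4 6 1 1 129 (.bis 1 6 2 1 28 (.bis 2 6 2 1 49 (.bis 3 6 1 1 230 (.bis 5 6 1 2
  220 (.leaf 48) (.bis 2 5 1 1 239 (.leaf 33) (.leaf 33))) (.bis 3 4 2 1 232 (.leaf 33) (.bis 2 3
  1 2 234 (.bis 1 3 1 2 235 (.bis 0 3 1 2 369 (.leaf 67) (.leaf 11)) (.leaf 11)) (.leaf 11))))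
  (.bis 2 3 2 1 236 (.bis 3 4 2 1 232 (.bis 2 4 1 1 237 (.leaf 5) (.bis 5 6 1 1 239 (.bis 1 2 1 1
  370 (.leaf 5) (.leaf 5)) (.bis 1 2 1 1 370 (.leaf 5) (.leaf 2)))) (.bis 3 6 2 1 234 (.leaf 5)
  (.bis 1 3 1 2 235 (.leaf 17) (.leaf 5)))) (.bis 2 5 4 1 225 (.bis 3 4 1 1 237 (.leaf 5) (.leaf
  5)) (.bis 2 4 4 1 130 (.bis 3 4 1 1 237 (.leaf 5) (.leaf 5)) (.bis 1 2 1 4 55 (.bis 0 2 1 4 119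
  (.leaf 4) (.leaf 4)) (.leaf 5)))))) (.bis 1 3 2 1 240 (.bis 2 3 2 1 236 (.bis 3 4 2 1 232 (.bis
  1 4 1 1 241 (.bis 2 4 1 1 237 (.leaf 5) (.bis 2 6 1 1 370 (.leaf 2) (.leaf 5))) (.leaf 5))
  (.bis 3 6 2 1 235 (.leaf 5) (.leaf 17))) (.bis 2 5 4 1 225 (.leaf 5) (.bis 2 4 4 1 130 (.leaf
  5) (.bis 2 6 4 1 55 (.leaf 5) (.bis 0 2 1 4 119 (.leaf 46) (.leaf 5)))))) (.bis 2 5 4 1 225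
  (.bis 1 4 4 1 131 (.leaf 5) (.bis 0 1 1 4 121 (.leaf 2) (.leaf 2))) (.bis 1 4 4 1 131 (.bis 2 4
  4 1 130 (.bis 3 4 1 1 241 (.leaf 5) (.leaf 2)) (.bis 2 6 4 1 55 (.leaf 2) (.bis 0 2 1 4 119
  (.bis 2 3 4 1 243 (.leaf 2) (.leaf 4)) (.leaf 2)))) (.bis 1 2 1 1 41 (.bis 2 6 4 1 55 (.leaf 2)
  (.bis 0 2 1 4 119 (.bis 2 3 4 1 243 (.leaf 2) (.leaf 4)) (.leaf 2))) (.leaf 2)))))) (.bis 3 4 1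
  1 244 (.bis 1 4 2 1 120 (.bis 2 4 2 1 118 (.leaf 79) (.bis 2 5 4 1 225 (.leaf 5) (.bis 2 6 4 1
  130 (.leaf 5) (.bis 0 2 1 4 119 (.bis 1 2 1 4 122 (.leaf 4) (.leaf 2)) (.leaf 2))))) (.bis 2 5
  4 1 225 (.bis 1 6 4 1 131 (.leaf 5) (.bis 0 1 1 4 121 (.leaf 2) (.leaf 2))) (.bis 1 6 4 1 131
  (.bis 2 6 4 1 130 (.leaf 5) (.bis 0 2 1 4 119 (.bis 2 4 4 1 122 (.leaf 2) (.bis 1 2 1 8 132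
  (.leaf 4) (.leaf 2))) (.leaf 2))) (.bis 1 2 1 1 41 (.bis 0 2 1 4 119 (.bis 2 4 4 1 122 (.leaf
  2) (.bis 2 6 8 1 132 (.leaf 2) (.leaf 4))) (.leaf 2)) (.leaf 2))))) (.bis 1 3 2 1 240 (.bis 2 3
  2 1 236 (.bis 3 6 2 1 232 (.leaf 5) (.bis 0 3 1 2 369 (.leaf 17) (.leaf 5))) (.bis 2 5 4 1 225
  (.leaf 5) (.bis 2 6 4 1 130 (.leaf 5) (.bis 0 2 1 4 119 (.bis 1 2 1 4 243 (.leaf 4) (.leaf 5))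
  (.leaf 5))))) (.bis 2 5 4 1 225 (.bis 1 6 4 1 131 (.leaf 5) (.bis 0 1 1 4 121 (.leaf 2) (.leaf
  2))) (.bis 1 6 4 1 131 (.bis 2 6 4 1 130 (.bis 3 6 1 1 241 (.leaf 5) (.leaf 2)) (.bis 0 2 1 4
  119 (.bis 2 3 4 1 243 (.leaf 2) (.bis 1 2 1 8 132 (.leaf 4) (.leaf 2))) (.leaf 2))) (.bis 1 2 1
  1 41 (.bis 0 2 1 4 119 (.bis 2 3 4 1 243 (.leaf 2) (.bis 2 6 8 1 132 (.leaf 2) (.leaf 4)))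
  (.leaf 2)) (.leaf 2)))))))) (.bis 0 5 1 2 133 (.bis 3 5 1 2 219 (.bis 2 5 1 1 32 (.bis 5 6 4 1
  123 (.bis 1 4 2 1 120 (.bis 3 4 1 2 228 (.bis 2 6 2 1 128 (.leaf 14) (.leaf 14)) (.bis 2 6 2 1
  128 (.leaf 2) (.leaf 2))) (.bis 1 6 4 1 121 (.leaf 2) (.leaf 2))) (.bis 1 5 1 1 20 (.bis 4 5 1
  2 124 (.bis 0 5 1 4 137 (.leaf 32) (.leaf 19)) (.bis 3 4 1 2 228 (.bis 1 4 1 1 125 (.leaf 14)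
  (.leaf 19)) (.leaf 19))) (.bis 1 4 2 1 120 (.bis 3 4 1 2 228 (.bis 4 5 1 1 125 (.leaf 19)
  (.leaf 14)) (.leaf 10)) (.bis 1 6 8 1 371 (.leaf 10) (.leaf 10))))) (.bis 1 4 2 1 120 (.bis 2 4
  2 1 118 (.bis 3 4 1 2 228 (.bis 5 6 2 1 128 (.leaf 6) (.leaf 14)) (.bis 5 6 2 1 128 (.leaf 2)
  (.leaf 2))) (.bis 0 2 1 4 136 (.bis 2 3 4 1 225 (.bis 5 6 2 1 128 (.leaf 2) (.leaf 2)) (.bis 2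
  6 4 1 119 (.leaf 2) (.bis 1 2 1 4 122 (.leaf 26) (.leaf 2)))) (.bis 5 6 2 1 128 (.leaf 2)
  (.leaf 2)))) (.bis 0 2 1 4 136 (.bis 2 3 4 1 225 (.bis 1 6 4 1 121 (.leaf 2) (.leaf 2)) (.bis 1
  2 1 1 41 (.bis 2 6 4 1 119 (.leaf 2) (.bis 2 4 4 1 122 (.leaf 2) (.leaf 26))) (.bis 1 6 4 1 121
  (.leaf 2) (.leaf 2)))) (.bis 1 6 4 1 121 (.leaf 2) (.leaf 2))))) (.bis 3 4 1 1 244 (.bis 1 4 2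
  1 120 (.bis 2 4 2 1 118 (.leaf 79) (.bis 0 2 1 4 136 (.bis 2 5 4 1 225 (.leaf 2) (.bis 2 6 4 1
  119 (.leaf 2) (.bis 1 2 1 4 122 (.leaf 4) (.leaf 2)))) (.leaf 2))) (.bis 0 2 1 4 136 (.bis 2 5
  4 1 225 (.bis 1 6 4 1 121 (.leaf 2) (.leaf 2)) (.bis 1 2 1 1 41 (.bis 2 6 4 1 119 (.leaf 2)
  (.bis 2 4 4 1 122 (.leaf 2) (.leaf 4))) (.leaf 2))) (.bis 1 6 4 1 121 (.leaf 2) (.leaf 2))))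
  (.bis 1 3 2 1 240 (.bis 2 3 2 1 236 (.bis 0 3 1 2 372 (.bis 3 6 2 1 369 (.leaf 5) (.leaf 17))
  (.leaf 45)) (.bis 0 2 1 4 136 (.bis 2 5 4 1 225 (.leaf 5) (.bis 2 6 4 1 119 (.leaf 5) (.bis 1 2
  1 4 243 (.leaf 4) (.leaf 5)))) (.leaf 45))) (.bis 0 2 1 4 136 (.bis 2 5 4 1 225 (.bis 1 6 4 1
  121 (.leaf 2) (.leaf 2)) (.bis 1 2 1 1 41 (.bis 2 6 4 1 119 (.leaf 2) (.bis 2 3 4 1 243 (.leaf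
  2) (.leaf 4))) (.leaf 2))) (.bis 1 6 4 1 121 (.leaf 2) (.leaf 2)))))) (.bis 3 4 1 1 244 (.bis 0
  1 1 2 146 (.bis 1 4 2 1 120 (.bis 2 4 2 1 118 (.leaf 6) (.bis 2 5 4 1 136 (.leaf 2) (.bis 2 6 4
  1 119 (.leaf 2) (.bis 0 2 1 4 147 (.bis 1 2 1 4 122 (.leaf 4) (.leaf 2)) (.leaf 2))))) (.bis 2
  5 4 1 136 (.bis 1 6 4 1 121 (.leaf 2) (.leaf 2)) (.bis 1 2 1 1 41 (.bis 2 6 4 1 119 (.leaf 2)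
  (.bis 0 2 1 4 147 (.bis 2 4 4 1 122 (.leaf 2) (.leaf 4)) (.leaf 2))) (.bis 1 6 4 1 121 (.leaf
  2) (.leaf 2))))) (.bis 0 2 1 2 143 (.bis 2 4 2 1 118 (.bis 4 6 2 1 114 (.leaf 6) (.leaf 6))
  (.bis 2 5 4 1 136 (.leaf 6) (.bis 2 6 4 1 119 (.leaf 6) (.bis 1 2 1 4 147 (.leaf 4) (.leaf
  6))))) (.bis 0 4 1 1 141 (.bis 4 6 2 1 114 (.leaf 6) (.leaf 6)) (.leaf 16)))) (.bis 0 1 1 2 146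
  (.bis 1 3 2 1 240 (.bis 2 3 2 1 236 (.bis 3 5 2 1 372 (.leaf 8) (.bis 0 3 1 2 373 (.leaf 17)
  (.leaf 8))) (.bis 2 5 4 1 136 (.leaf 8) (.bis 2 6 4 1 119 (.leaf 8) (.bis 0 2 1 4 147 (.bis 1 2
  1 4 243 (.leaf 4) (.leaf 5)) (.leaf 8))))) (.bis 2 5 4 1 136 (.bis 1 6 4 1 121 (.leaf 2) (.leaf
  2)) (.bis 1 2 1 1 41 (.bis 2 6 4 1 119 (.leaf 2) (.bis 0 2 1 4 147 (.bis 2 3 4 1 243 (.leaf 2)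
  (.leaf 4)) (.leaf 2))) (.leaf 2)))) (.bis 0 2 1 2 143 (.bis 2 3 2 1 236 (.bis 3 5 2 1 372
  (.leaf 8) (.bis 1 3 1 2 373 (.bis 0 3 1 2 374 (.leaf 17) (.leaf 8)) (.leaf 8))) (.bis 2 5 4 1
  136 (.leaf 8) (.bis 2 6 4 1 119 (.leaf 8) (.bis 1 2 1 4 147 (.leaf 4) (.leaf 8))))) (.bis 3 5 2
  1 372 (.bis 0 6 2 1 142 (.leaf 8) (.leaf 16)) (.bis 0 3 1 1 375 (.bis 1 3 1 2 373 (.bis 2 3 1 2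
  374 (.leaf 17) (.leaf 8)) (.leaf 8)) (.bis 0 6 2 1 142 (.leaf 8) (.leaf 16))))))))) (.bis 4 6 2
  1 148 (.bis 0 6 1 1 106 (.bis 5 6 1 1 129 (.bis 1 6 2 1 28 (.bis 2 6 2 1 49 (.bis 3 6 1 1 230
  (.bis 4 6 1 2 204 (.leaf 48) (.bis 3 4 1 1 266 (.bis 1 4 1 1 203 (.leaf 31) (.leaf 7)) (.leaf
  33))) (.bis 3 4 2 1 267 (.bis 4 6 1 1 266 (.leaf 53) (.bis 1 4 1 1 203 (.leaf 31) (.leaf 5)))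
  (.bis 3 5 2 1 232 (.leaf 53) (.bis 2 3 1 2 234 (.bis 1 3 1 2 235 (.bis 0 3 1 2 369 (.leaf 27)
  (.leaf 11)) (.leaf 11)) (.leaf 11))))) (.bis 3 4 2 1 267 (.bis 2 4 4 1 187 (.bis 1 4 1 1 203
  (.leaf 31) (.leaf 5)) (.bis 2 5 4 1 130 (.leaf 5) (.bis 1 2 1 4 55 (.bis 0 2 1 4 119 (.bis 2 3
  8 1 271 (.leaf 4) (.leaf 4)) (.leaf 4)) (.leaf 5)))) (.bis 2 3 2 1 236 (.bis 3 5 2 1 232 (.bis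
  2 5 1 1 237 (.leaf 5) (.leaf 5)) (.bis 3 6 2 1 234 (.leaf 5) (.bis 1 3 1 2 235 (.leaf 17)
  (.leaf 5)))) (.bis 2 5 4 1 130 (.bis 3 5 1 1 237 (.leaf 5) (.leaf 5)) (.bis 1 2 1 4 55 (.bis 0
  2 1 4 119 (.bis 2 4 8 1 271 (.leaf 4) (.leaf 4)) (.leaf 4)) (.leaf 5)))))) (.bis 1 4 4 1 195
  (.bis 3 4 2 1 267 (.bis 2 4 4 1 187 (.leaf 31) (.bis 2 5 4 1 130 (.leaf 5) (.bis 2 6 4 1 55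
  (.leaf 5) (.bis 0 2 1 4 119 (.bis 2 3 8 1 271 (.leaf 4) (.leaf 4)) (.leaf 4))))) (.bis 2 3 2 1
  236 (.bis 3 5 2 1 232 (.bis 2 5 1 1 237 (.leaf 5) (.leaf 5)) (.bis 1 3 1 4 273 (.bis 3 6 2 1
  235 (.leaf 5) (.leaf 17)) (.leaf 5))) (.bis 2 5 4 1 130 (.bis 3 5 1 1 237 (.leaf 5) (.leaf 5))
  (.bis 2 6 4 1 55 (.leaf 5) (.bis 0 2 1 4 119 (.bis 2 4 8 1 271 (.leaf 4) (.leaf 4)) (.leaf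
  4)))))) (.bis 1 3 2 1 240 (.bis 2 3 2 1 236 (.bis 3 5 2 1 232 (.bis 1 5 1 1 241 (.bis 2 5 1 1
  237 (.leaf 5) (.bis 2 6 1 1 370 (.leaf 2) (.leaf 5))) (.leaf 5)) (.bis 3 4 4 1 273 (.leaf 5)
  (.bis 3 6 2 1 235 (.leaf 5) (.leaf 17)))) (.bis 2 5 4 1 130 (.bis 1 5 1 1 241 (.bis 3 5 1 1 237
  (.leaf 5) (.bis 3 6 1 1 370 (.leaf 2) (.leaf 4))) (.leaf 5)) (.bis 2 6 4 1 55 (.leaf 5) (.bis 0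
  2 1 4 119 (.bis 1 2 1 4 243 (.leaf 4) (.leaf 5)) (.leaf 5))))) (.bis 1 5 4 1 131 (.bis 2 5 4 1
  130 (.bis 3 5 1 1 241 (.leaf 5) (.leaf 2)) (.bis 2 6 4 1 55 (.bis 3 5 2 1 376 (.leaf 2) (.leaf
  2)) (.bis 0 2 1 4 119 (.bis 2 3 4 1 243 (.leaf 2) (.bis 1 2 1 8 132 (.leaf 4) (.leaf 2))) (.bis
  3 5 2 1 376 (.leaf 2) (.leaf 2))))) (.bis 1 2 1 1 41 (.bis 2 6 4 1 55 (.leaf 2) (.bis 0 2 1 4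
  119 (.bis 2 3 4 1 243 (.leaf 2) (.bis 2 5 8 1 132 (.leaf 2) (.leaf 4))) (.leaf 2))) (.leaf
  2)))))) (.bis 3 5 1 1 244 (.bis 1 4 4 1 195 (.bis 2 5 2 1 118 (.leaf 13) (.bis 2 4 4 1 187
  (.leaf 13) (.bis 2 6 4 1 130 (.leaf 5) (.bis 0 2 1 4 119 (.bis 2 3 4 1 264 (.leaf 4) (.leaf 4))
  (.leaf 4))))) (.bis 1 5 2 1 120 (.bis 2 5 2 1 118 (.leaf 13) (.bis 2 6 4 1 130 (.leaf 5) (.bis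
  0 2 1 4 119 (.bis 1 2 1 4 122 (.bis 2 3 4 1 264 (.leaf 2) (.leaf 4)) (.leaf 2)) (.leaf 2))))
  (.bis 1 6 4 1 131 (.bis 2 6 4 1 130 (.leaf 5) (.bis 0 2 1 4 119 (.bis 2 5 4 1 122 (.leaf 2)
  (.bis 1 2 1 8 132 (.bis 2 3 4 1 264 (.leaf 2) (.leaf 4)) (.leaf 2))) (.leaf 2))) (.bis 1 2 1 1
  41 (.bis 0 2 1 4 119 (.bis 2 5 4 1 122 (.leaf 2) (.bis 2 6 8 1 132 (.leaf 2) (.leaf 4))) (.leaf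
  2)) (.leaf 2))))) (.bis 1 4 4 1 195 (.bis 3 4 2 1 267 (.bis 2 4 4 1 187 (.leaf 25) (.bis 2 6 4
  1 130 (.leaf 5) (.bis 0 2 1 4 119 (.bis 2 3 8 1 271 (.leaf 4) (.bis 2 5 4 1 264 (.leaf 4)
  (.leaf 4))) (.leaf 4)))) (.bis 2 3 2 1 236 (.bis 3 6 2 1 232 (.bis 2 6 1 1 237 (.leaf 5) (.leaf
  5)) (.bis 1 3 1 4 273 (.bis 0 3 1 2 369 (.leaf 17) (.leaf 5)) (.leaf 5))) (.bis 2 6 4 1 130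
  (.bis 3 6 1 1 237 (.leaf 5) (.leaf 4)) (.bis 0 2 1 4 119 (.bis 2 4 8 1 271 (.leaf 4) (.bis 2 5
  4 1 264 (.leaf 4) (.leaf 4))) (.leaf 4))))) (.bis 1 3 2 1 240 (.bis 2 3 2 1 236 (.bis 3 6 2 1
  232 (.leaf 5) (.bis 3 4 4 1 273 (.leaf 5) (.leaf 17))) (.bis 2 6 4 1 130 (.leaf 5) (.bis 0 2 1
  4 119 (.bis 1 2 1 4 243 (.bis 2 5 4 1 264 (.leaf 4) (.leaf 4)) (.leaf 5)) (.leaf 5)))) (.bis 1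
  6 4 1 131 (.bis 2 6 4 1 130 (.bis 3 6 1 1 241 (.leaf 5) (.leaf 2)) (.bis 0 2 1 4 119 (.bis 2 3
  4 1 243 (.leaf 2) (.bis 1 2 1 8 132 (.bis 2 5 4 1 264 (.leaf 2) (.leaf 4)) (.leaf 2))) (.leaf
  2))) (.bis 1 2 1 1 41 (.bis 0 2 1 4 119 (.bis 2 3 4 1 243 (.leaf 2) (.bis 2 6 8 1 132 (.leaf 2)
  (.leaf 4))) (.leaf 2)) (.leaf 2))))))) (.bis 3 5 1 1 244 (.bis 1 4 4 1 195 (.bis 0 2 1 2 143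
  (.bis 2 5 2 1 118 (.bis 5 6 2 1 114 (.bis 0 4 1 1 186 (.leaf 13) (.leaf 4)) (.bis 0 4 1 1 186
  (.leaf 13) (.leaf 6))) (.bis 2 4 4 1 187 (.bis 0 4 1 1 186 (.leaf 13) (.leaf 4)) (.bis 2 6 4 1
  119 (.leaf 4) (.bis 2 3 4 1 264 (.leaf 4) (.leaf 4))))) (.bis 0 4 2 1 166 (.bis 5 6 2 1 114
  (.leaf 25) (.leaf 91)) (.bis 0 5 1 1 141 (.bis 5 6 2 1 114 (.leaf 6) (.leaf 6)) (.bis 0 1 4 1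
  377 (.leaf 6) (.leaf 51))))) (.bis 0 1 1 2 146 (.bis 1 5 2 1 120 (.bis 2 5 2 1 118 (.leaf 6)
  (.bis 2 6 4 1 119 (.leaf 2) (.bis 0 2 1 4 147 (.bis 1 2 1 4 122 (.bis 2 3 4 1 264 (.leaf 2)
  (.leaf 4)) (.leaf 2)) (.leaf 2)))) (.bis 1 2 1 1 41 (.bis 2 6 4 1 119 (.leaf 2) (.bis 0 2 1 4
  147 (.bis 2 5 4 1 122 (.leaf 2) (.leaf 4)) (.leaf 2))) (.leaf 2))) (.bis 0 2 1 2 143 (.bis 2 5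
  2 1 118 (.bis 5 6 2 1 114 (.leaf 6) (.leaf 6)) (.bis 2 6 4 1 119 (.leaf 6) (.bis 1 2 1 4 147
  (.bis 2 3 4 1 264 (.leaf 4) (.leaf 4)) (.leaf 6)))) (.bis 0 5 1 1 141 (.bis 5 6 2 1 114 (.leaf
  6) (.leaf 6)) (.bis 0 4 4 1 377 (.leaf 6) (.leaf 16)))))) (.bis 1 4 4 1 195 (.bis 3 4 2 1 267
  (.bis 0 2 1 2 143 (.bis 2 4 4 1 187 (.leaf 25) (.bis 2 6 4 1 119 (.leaf 4) (.bis 2 3 8 1 271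
  (.leaf 4) (.bis 2 5 4 1 264 (.leaf 4) (.leaf 4))))) (.bis 0 4 2 1 166 (.leaf 25) (.bis 0 3 4 1
  378 (.leaf 18) (.bis 0 1 4 1 377 (.leaf 6) (.leaf 51))))) (.bis 0 2 1 2 143 (.bis 2 3 2 1 236
  (.bis 1 3 1 4 273 (.bis 0 3 1 2 374 (.leaf 17) (.leaf 18)) (.leaf 4)) (.bis 2 6 4 1 119 (.leaf
  4) (.bis 2 4 8 1 271 (.leaf 4) (.bis 2 5 4 1 264 (.leaf 4) (.leaf 4))))) (.bis 0 3 1 1 375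
  (.bis 1 3 1 4 273 (.bis 2 3 1 2 374 (.leaf 17) (.leaf 18)) (.leaf 18)) (.bis 0 4 4 1 378 (.leaf
  18) (.bis 0 1 4 1 377 (.leaf 18) (.leaf 16)))))) (.bis 0 1 1 2 146 (.bis 1 3 2 1 240 (.bis 2 3
  2 1 236 (.bis 3 4 4 1 273 (.leaf 18) (.bis 0 3 1 2 373 (.leaf 17) (.leaf 8))) (.bis 2 6 4 1 119
  (.leaf 18) (.bis 0 2 1 4 147 (.bis 1 2 1 4 243 (.leaf 4) (.leaf 5)) (.leaf 18)))) (.bis 1 2 1 1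
  41 (.bis 2 6 4 1 119 (.leaf 2) (.bis 0 2 1 4 147 (.bis 2 3 4 1 243 (.leaf 2) (.leaf 4)) (.leaf
  2))) (.leaf 2))) (.bis 0 2 1 2 143 (.bis 2 3 2 1 236 (.bis 3 4 4 1 273 (.leaf 18) (.bis 1 3 1 2
  373 (.bis 0 3 1 2 374 (.leaf 17) (.leaf 8)) (.leaf 8))) (.bis 2 6 4 1 119 (.leaf 18) (.bis 1 2
  1 4 147 (.bis 2 5 4 1 264 (.leaf 4) (.leaf 4)) (.leaf 18)))) (.bis 0 3 1 1 375 (.bis 3 4 4 1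
  273 (.leaf 18) (.bis 1 3 1 2 373 (.bis 2 3 1 2 374 (.leaf 17) (.leaf 8)) (.leaf 8))) (.bis 0 4
  4 1 377 (.leaf 18) (.leaf 16)))))))) (.bis 3 4 1 2 274 (.bis 1 4 1 1 149 (.bis 2 4 1 1 150
  (.bis 0 4 1 2 169 (.bis 4 5 2 1 170 (.bis 0 6 1 1 171 (.bis 3 5 1 2 277 (.bis 2 5 1 1 162 (.bis
  5 6 2 1 158 (.bis 4 6 1 1 172 (.leaf 13) (.leaf 40)) (.leaf 40)) (.bis 4 6 1 1 172 (.leaf 15)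
  (.leaf 24))) (.bis 3 4 1 1 278 (.bis 4 6 1 1 172 (.leaf 15) (.leaf 24)) (.leaf 15))) (.bis 0 5
  1 2 173 (.bis 3 5 1 2 277 (.bis 2 5 1 1 162 (.leaf 40) (.leaf 24)) (.leaf 24)) (.leaf 24)))
  (.bis 4 6 4 1 174 (.bis 0 6 1 1 171 (.bis 3 5 1 1 278 (.bis 5 6 1 1 172 (.leaf 52) (.leaf 24))
  (.leaf 95)) (.bis 3 5 1 1 278 (.leaf 24) (.bis 3 4 2 1 284 (.leaf 24) (.leaf 24)))) (.bis 3 4 1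
  4 285 (.bis 1 4 1 2 175 (.bis 2 4 1 2 176 (.bis 0 4 1 4 179 (.bis 4 5 4 1 180 (.leaf 42) (.bis
  3 4 1 8 287 (.bis 4 6 8 1 181 (.leaf 42) (.bis 1 4 1 4 182 (.leaf 74) (.leaf 42))) (.leaf 42)))
  (.leaf 42)) (.leaf 81)) (.leaf 24)) (.bis 3 5 1 1 278 (.leaf 24) (.bis 3 6 2 1 284 (.leaf 24)
  (.leaf 24)))))) (.bis 0 6 2 1 166 (.bis 4 6 1 1 171 (.bis 3 5 1 2 277 (.bis 2 5 1 1 162 (.leaf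
  13) (.leaf 15)) (.bis 1 6 2 1 159 (.bis 2 6 2 1 164 (.leaf 13) (.leaf 15)) (.leaf 15))) (.bis 4
  5 1 2 173 (.bis 3 5 1 2 277 (.bis 2 5 1 1 162 (.leaf 13) (.leaf 15)) (.leaf 15)) (.leaf 24)))
  (.bis 0 5 1 1 141 (.bis 4 5 1 2 173 (.bis 3 5 1 2 277 (.bis 2 5 1 1 162 (.leaf 6) (.bis 0 2 1 2
  168 (.leaf 15) (.leaf 6))) (.bis 0 2 1 2 168 (.leaf 15) (.leaf 13))) (.bis 0 2 1 2 168 (.leaf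
  24) (.leaf 61))) (.bis 0 2 1 1 167 (.bis 2 5 2 1 168 (.leaf 61) (.leaf 24)) (.leaf 61)))))
  (.bis 0 2 1 2 143 (.bis 2 5 2 1 118 (.bis 0 6 1 1 186 (.bis 3 5 1 2 277 (.bis 4 5 1 1 162 (.bis
  5 6 2 1 158 (.leaf 13) (.leaf 6)) (.leaf 15)) (.leaf 15)) (.bis 3 5 1 2 277 (.leaf 92) (.leaf
  28))) (.bis 2 6 4 1 187 (.bis 0 6 1 1 186 (.leaf 15) (.leaf 28)) (.bis 1 2 1 2 188 (.bis 2 3 4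
  1 290 (.leaf 28) (.bis 2 4 2 1 189 (.leaf 28) (.leaf 4))) (.leaf 28)))) (.bis 0 6 2 1 166 (.bis
  2 6 1 1 186 (.bis 3 5 1 2 277 (.bis 4 5 1 1 162 (.leaf 13) (.leaf 15)) (.bis 1 6 2 1 159 (.bis
  4 6 2 1 164 (.leaf 13) (.leaf 15)) (.leaf 15))) (.bis 3 5 1 2 277 (.bis 2 5 1 2 144 (.bis 4 5 1
  1 162 (.leaf 6) (.leaf 15)) (.leaf 28)) (.leaf 28))) (.bis 0 5 1 1 141 (.bis 3 5 1 2 277 (.bis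
  2 5 1 2 144 (.bis 4 5 1 1 162 (.leaf 6) (.bis 0 4 1 2 168 (.leaf 15) (.leaf 6))) (.bis 0 4 1 2
  168 (.leaf 28) (.leaf 6))) (.bis 0 4 1 2 168 (.leaf 28) (.leaf 28))) (.bis 0 4 1 1 167 (.leaf
  28) (.leaf 41)))))) (.bis 1 6 4 1 195 (.bis 0 2 1 2 143 (.bis 2 5 2 1 118 (.bis 0 6 1 1 186
  (.leaf 13) (.bis 3 5 1 2 277 (.leaf 6) (.leaf 28))) (.bis 2 6 4 1 187 (.bis 0 6 1 1 186 (.leaf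
  13) (.leaf 28)) (.bis 2 4 2 1 188 (.leaf 28) (.bis 2 3 4 1 290 (.leaf 18) (.leaf 4))))) (.bis 0
  6 2 1 166 (.bis 2 6 1 1 186 (.bis 3 5 1 2 277 (.leaf 13) (.leaf 13)) (.bis 3 5 1 2 277 (.leaf
  6) (.leaf 28))) (.bis 0 5 1 1 141 (.leaf 91) (.leaf 41)))) (.bis 1 3 4 1 291 (.bis 0 2 1 2 143
  (.bis 2 5 2 1 118 (.bis 3 5 1 2 277 (.leaf 6) (.leaf 28)) (.bis 2 4 2 1 188 (.leaf 28) (.bis 2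
  3 4 1 290 (.leaf 18) (.leaf 4)))) (.bis 0 5 1 1 141 (.bis 3 5 1 2 277 (.leaf 6) (.leaf 28))
  (.leaf 41))) (.bis 0 1 1 2 146 (.bis 1 5 2 1 120 (.bis 2 5 2 1 118 (.leaf 6) (.bis 2 4 2 1 188
  (.leaf 6) (.bis 0 2 1 4 147 (.bis 1 2 1 4 122 (.leaf 4) (.leaf 6)) (.leaf 6)))) (.bis 1 4 2 1
  196 (.bis 2 4 2 1 188 (.leaf 6) (.bis 0 2 1 4 147 (.bis 2 5 4 1 122 (.leaf 6) (.bis 1 2 1 4 197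
  (.leaf 4) (.leaf 18))) (.leaf 6))) (.bis 1 2 1 1 41 (.bis 0 2 1 4 147 (.bis 2 5 4 1 122 (.leaf
  2) (.bis 2 4 4 1 197 (.leaf 2) (.leaf 4))) (.leaf 2)) (.leaf 2)))) (.bis 0 2 1 2 143 (.bis 2 5
  2 1 118 (.bis 1 5 1 2 198 (.leaf 6) (.leaf 6)) (.bis 2 4 2 1 188 (.leaf 6) (.bis 1 2 1 4 147
  (.leaf 4) (.leaf 6)))) (.bis 0 5 1 1 141 (.bis 1 5 1 2 198 (.leaf 6) (.leaf 6)) (.leaf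
  41))))))) (.bis 3 5 1 1 244 (.bis 1 6 4 1 195 (.bis 0 2 1 2 143 (.bis 2 5 2 1 118 (.bis 0 6 1 1
  186 (.leaf 13) (.bis 4 5 1 2 277 (.leaf 6) (.leaf 18))) (.bis 2 6 4 1 187 (.bis 0 6 1 1 186
  (.leaf 13) (.leaf 18)) (.bis 2 4 4 1 290 (.leaf 18) (.bis 2 3 4 1 264 (.leaf 4) (.leaf 4)))))
  (.bis 0 6 2 1 166 (.bis 2 6 1 1 186 (.bis 4 5 1 2 277 (.leaf 13) (.leaf 13)) (.bis 4 5 1 2 277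
  (.leaf 6) (.leaf 18))) (.bis 0 5 1 1 141 (.bis 4 5 1 2 277 (.leaf 6) (.leaf 41)) (.leaf 41))))
  (.bis 1 4 4 1 291 (.bis 0 2 1 2 143 (.bis 2 5 2 1 118 (.bis 4 5 1 2 277 (.leaf 6) (.leaf 18))
  (.bis 2 4 4 1 290 (.leaf 18) (.bis 2 3 4 1 264 (.leaf 4) (.leaf 4)))) (.bis 0 5 1 1 141 (.bis 4
  5 1 2 277 (.leaf 6) (.leaf 41)) (.leaf 41))) (.bis 0 1 1 2 146 (.bis 1 5 2 1 120 (.bis 2 5 2 1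
  118 (.leaf 6) (.bis 0 2 1 4 147 (.bis 1 2 1 4 122 (.bis 2 3 4 1 264 (.leaf 2) (.leaf 4)) (.leaf
  2)) (.leaf 2))) (.bis 1 2 1 1 41 (.bis 0 2 1 4 147 (.bis 2 5 4 1 122 (.leaf 2) (.bis 2 3 4 1
  264 (.leaf 2) (.leaf 4))) (.leaf 2)) (.leaf 2))) (.bis 0 2 1 2 143 (.bis 2 5 2 1 118 (.bis 1 5
  1 2 198 (.leaf 6) (.leaf 6)) (.bis 1 2 1 4 147 (.bis 2 3 4 1 264 (.leaf 4) (.leaf 4)) (.leaf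
  6))) (.bis 0 5 1 1 141 (.bis 1 5 1 2 198 (.leaf 6) (.leaf 6)) (.leaf 41)))))) (.bis 1 6 4 1 195
  (.bis 3 6 2 1 267 (.bis 0 2 1 2 143 (.bis 2 6 4 1 187 (.bis 0 6 1 1 186 (.leaf 25) (.leaf 18))
  (.bis 2 4 4 1 290 (.leaf 18) (.bis 2 3 8 1 271 (.leaf 4) (.bis 2 5 4 1 264 (.leaf 4) (.leaf
  4))))) (.bis 0 6 2 1 166 (.bis 2 6 1 1 186 (.leaf 25) (.leaf 18)) (.bis 0 3 4 1 378 (.leaf 18)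
  (.leaf 41)))) (.bis 0 2 1 2 143 (.bis 2 3 2 1 236 (.bis 1 3 1 4 273 (.bis 3 4 2 1 294 (.leaf
  18) (.bis 0 3 1 2 374 (.leaf 17) (.leaf 18))) (.leaf 18)) (.bis 2 4 4 1 290 (.leaf 18) (.bis 2
  6 8 1 271 (.leaf 4) (.bis 2 5 4 1 264 (.leaf 4) (.leaf 4))))) (.bis 0 3 1 1 375 (.bis 1 3 1 4
  273 (.bis 3 4 2 1 294 (.leaf 18) (.bis 2 3 1 2 374 (.leaf 17) (.leaf 18))) (.leaf 18)) (.bis 0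
  6 4 1 378 (.leaf 18) (.leaf 90))))) (.bis 1 4 4 1 291 (.bis 0 2 1 2 143 (.bis 2 3 2 1 236 (.bis
  3 6 4 1 273 (.leaf 18) (.bis 3 4 2 1 294 (.leaf 18) (.bis 0 3 1 2 374 (.leaf 17) (.leaf 18))))
  (.bis 2 4 4 1 290 (.leaf 18) (.bis 2 5 4 1 264 (.leaf 4) (.leaf 4)))) (.bis 0 3 1 1 375 (.bis 3
  6 4 1 273 (.leaf 18) (.bis 3 4 2 1 294 (.leaf 18) (.bis 2 3 1 2 374 (.leaf 17) (.leaf 18))))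
  (.leaf 90))) (.bis 0 1 1 2 146 (.bis 1 3 2 1 240 (.bis 2 3 2 1 236 (.bis 3 6 4 1 273 (.leaf 18)
  (.bis 0 3 1 2 373 (.leaf 17) (.leaf 8))) (.bis 0 2 1 4 147 (.bis 1 2 1 4 243 (.bis 2 5 4 1 264
  (.leaf 4) (.leaf 4)) (.leaf 5)) (.leaf 18))) (.bis 1 2 1 1 41 (.bis 0 2 1 4 147 (.bis 2 3 4 1
  243 (.leaf 2) (.bis 2 5 4 1 264 (.leaf 2) (.leaf 4))) (.leaf 2)) (.leaf 2))) (.bis 0 2 1 2 143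
  (.bis 2 3 2 1 236 (.bis 3 6 4 1 273 (.leaf 18) (.bis 1 3 1 2 373 (.bis 0 3 1 2 374 (.leaf 17)
  (.leaf 8)) (.leaf 8))) (.bis 1 2 1 4 147 (.bis 2 5 4 1 264 (.leaf 4) (.leaf 4)) (.leaf 18)))
  (.bis 0 3 1 1 375 (.bis 3 6 4 1 273 (.leaf 18) (.bis 1 3 1 2 373 (.bis 2 3 1 2 374 (.leaf 17)
  (.leaf 8)) (.leaf 8))) (.leaf 51))))))))))

def lc7 : List Vr := [⟨[60,0,0,0,69,0,0], 78363, 0⟩, ⟨[0,24,0,0,0,0,0], 13824, 0⟩, ⟨[0,0,27,0,0,0,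
  0], 14580, 0⟩, ⟨[60,0,0,69,0,0,0], 78363, 0⟩, ⟨[0,0,0,0,69,0,0], 14283, 0⟩, ⟨[0,0,0,0,0,42,0],
  14112, 0⟩, ⟨[0,0,0,69,0,0,70], 52923, 0⟩]

theorem lk7 : chkTr lowT (leafLow 4 lowB) lt7 lc7 = true := by decide +kernel

end Pool.Agent.Helper10.Fam.D5
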