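import Pool.Agent.Helper10.Fam.Fast

set_option autoImplicit false
set_option maxRecDepth 1000000

/-!
# Certificate data for `U ⊕ D6` (lattice data and cusps)
-/

namespace Pool.Agent.Helper10.Fam.D6

open Pool.Agent.Helper10.Fam

/-- lattice data -/
def dat : Dat := ⟨6, [[0,1,0,0,0,0,0,0], [1,0,1,0,0,0,1,0], [0,1,0,1,0,0,0,0],
   [0,0,1,0,1,1,0,0], [0,0,0,1,0,0,0,0], [0,0,0,1,0,0,0,0], [0,1,0,0,0,0,0,1], [0,0,0,0,0,0,1,0]],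
   [[4,12,12,12,6,6,8,4], [12,24,24,24,12,12,16,8], [12,24,20,20,10,10,16,8], [12,24,20,16,8,8,16,
  8], [6,12,10,8,2,4,8,4], [6,12,10,8,4,2,8,4], [8,16,16,16,8,8,8,4], [4,8,8,8,4,4,4,0]], 4, [1,2,
  2,2,1,1,1,0], 1680, [[1,2,2,2,1,1,1,0], [1,2,2,2,1,1,1,1], [1,2,2,2,1,1,2,1], [1,3,2,2,1,1,2,1],
   [2,3,2,2,1,1,2,1], [1,3,3,2,1,1,2,1], [2,3,3,2,1,1,2,1], [2,4,3,2,1,1,2,1], [1,3,3,3,1,1,2,1],
  [2,3,3,3,1,1,2,1], [2,4,3,3,1,1,2,1], [2,4,4,3,1,1,2,1], [1,3,3,3,2,1,2,1], [2,3,3,3,2,1,2,1],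
  [2,4,3,3,2,1,2,1], [2,4,4,3,2,1,2,1], [2,4,4,4,2,1,2,1], [1,3,3,3,1,2,2,1], [2,3,3,3,1,2,2,1],
  [2,4,3,3,1,2,2,1], [2,4,4,3,1,2,2,1], [2,4,4,4,1,2,2,1], [1,3,3,3,2,2,2,1], [2,3,3,3,2,2,2,1],
  [2,4,3,3,2,2,2,1], [2,4,4,3,2,2,2,1], [1,3,3,4,2,2,2,1], [2,3,3,4,2,2,2,1], [2,4,3,4,2,2,2,1],
  [1,3,4,4,2,2,2,1], [2,3,4,4,2,2,2,1], [1,4,4,4,2,2,2,1], [3,4,4,4,2,2,2,1], [2,5,4,4,2,2,2,1],
  [3,5,4,4,2,2,2,1], [2,4,5,4,2,2,2,1], [2,5,5,4,2,2,2,1], [3,5,5,4,2,2,2,1], [2,4,4,5,2,2,2,1],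
  [2,4,5,5,2,2,2,1], [2,5,5,5,2,2,2,1], [3,5,5,5,2,2,2,1], [2,4,4,4,3,2,2,1], [2,4,4,5,3,2,2,1],
  [2,4,5,5,3,2,2,1], [2,5,5,5,3,2,2,1], [3,5,5,5,3,2,2,1], [2,4,4,4,2,3,2,1], [2,4,4,5,2,3,2,1],
  [2,4,5,5,2,3,2,1], [2,5,5,5,2,3,2,1], [3,5,5,5,2,3,2,1], [2,4,4,5,3,3,2,1], [2,4,5,5,3,3,2,1],
  [2,5,5,5,3,3,2,1], [3,5,5,5,3,3,2,1], [2,4,5,6,3,3,2,1], [2,5,5,6,3,3,2,1], [3,5,5,6,3,3,2,1],
  [2,5,6,6,3,3,2,1], [3,5,6,6,3,3,2,1], [3,6,6,6,3,3,2,1], [2,4,3,2,1,1,3,1], [2,4,3,3,1,1,3,1],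
  [2,4,4,3,1,1,3,1], [2,5,4,3,1,1,3,1], [3,5,4,3,1,1,3,1], [2,4,3,3,2,1,3,1], [2,4,4,3,2,1,3,1],
  [2,5,4,3,2,1,3,1], [3,5,4,3,2,1,3,1], [2,4,4,4,2,1,3,1], [2,5,4,4,2,1,3,1], [3,5,4,4,2,1,3,1],
  [2,5,5,4,2,1,3,1], [3,5,5,4,2,1,3,1], [3,6,5,4,2,1,3,1], [2,4,3,3,1,2,3,1], [2,4,4,3,1,2,3,1],
  [2,5,4,3,1,2,3,1], [3,5,4,3,1,2,3,1], [2,4,4,4,1,2,3,1], [2,5,4,4,1,2,3,1], [3,5,4,4,1,2,3,1],
  [2,5,5,4,1,2,3,1], [3,5,5,4,1,2,3,1], [3,6,5,4,1,2,3,1], [2,4,3,3,2,2,3,1], [2,4,4,3,2,2,3,1],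
  [2,5,4,3,2,2,3,1], [3,5,4,3,2,2,3,1], [2,4,3,4,2,2,3,1], [1,4,4,4,2,2,3,1], [3,4,4,4,2,2,3,1],
  [3,6,4,4,2,2,3,1], [2,4,5,4,2,2,3,1], [2,6,5,4,2,2,3,1], [2,4,4,5,2,2,3,1], [2,5,4,5,2,2,3,1],
  [3,5,4,5,2,2,3,1], [2,4,5,5,2,2,3,1], [2,6,5,5,2,2,3,1], [2,5,6,5,2,2,3,1], [2,6,6,5,2,2,3,1],
  [2,4,4,4,3,2,3,1], [2,5,4,4,3,2,3,1], [3,5,4,4,3,2,3,1], [2,5,5,4,3,2,3,1], [2,4,4,5,3,2,3,1],
  [2,5,4,5,3,2,3,1], [3,5,4,5,3,2,3,1], [2,4,5,5,3,2,3,1], [2,4,4,4,2,3,3,1], [2,5,4,4,2,3,3,1],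
  [3,5,4,4,2,3,3,1], [2,5,5,4,2,3,3,1], [2,4,4,5,2,3,3,1], [2,5,4,5,2,3,3,1], [3,5,4,5,2,3,3,1],
  [2,4,5,5,2,3,3,1], [2,4,4,5,3,3,3,1], [2,5,4,5,3,3,3,1], [3,5,4,5,3,3,3,1], [2,4,5,5,3,3,3,1],
  [2,4,5,6,3,3,3,1], [3,6,5,4,2,1,4,1], [3,6,5,4,1,2,4,1], [2,5,4,4,2,2,4,1], [3,5,4,4,2,2,4,1],
  [3,6,4,4,2,2,4,1], [2,5,5,4,2,2,4,1], [2,6,5,4,2,2,4,1], [2,5,5,5,2,2,4,1], [2,6,5,5,2,2,4,1],
  [2,6,6,5,2,2,4,1], [2,4,3,2,1,1,3,2], [2,4,3,3,1,1,3,2], [2,4,4,3,1,1,3,2], [2,5,4,3,1,1,3,2],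
  [3,5,4,3,1,1,3,2], [2,4,3,3,2,1,3,2], [2,4,4,3,2,1,3,2], [2,5,4,3,2,1,3,2], [3,5,4,3,2,1,3,2],
  [2,4,4,4,2,1,3,2], [2,5,4,4,2,1,3,2], [3,5,4,4,2,1,3,2], [2,5,5,4,2,1,3,2], [3,5,5,4,2,1,3,2],
  [3,6,5,4,2,1,3,2], [2,4,3,3,1,2,3,2], [2,4,4,3,1,2,3,2], [2,5,4,3,1,2,3,2], [3,5,4,3,1,2,3,2],
  [2,4,4,4,1,2,3,2], [2,5,4,4,1,2,3,2], [3,5,4,4,1,2,3,2], [2,5,5,4,1,2,3,2], [3,5,5,4,1,2,3,2],
  [3,6,5,4,1,2,3,2], [2,4,3,3,2,2,3,2], [2,4,4,3,2,2,3,2], [2,5,4,3,2,2,3,2], [3,5,4,3,2,2,3,2],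
  [2,4,3,4,2,2,3,2], [1,4,4,4,2,2,3,2], [3,4,4,4,2,2,3,2], [2,4,5,4,2,2,3,2], [2,4,4,5,2,2,3,2],
  [2,4,5,5,2,2,3,2], [2,4,4,4,3,2,3,2], [2,4,4,5,3,2,3,2], [2,4,5,5,3,2,3,2], [2,4,4,4,2,3,3,2],
  [2,4,4,5,2,3,3,2], [2,4,5,5,2,3,3,2], [2,4,4,5,3,3,3,2], [2,4,5,5,3,3,3,2], [2,4,5,6,3,3,3,2],
  [2,5,4,3,1,1,4,2], [3,5,4,3,1,1,4,2], [3,6,4,3,1,1,4,2], [3,6,5,3,1,1,4,2], [3,6,5,4,1,1,4,2],
  [2,5,4,3,2,1,4,2], [3,5,4,3,2,1,4,2], [3,6,4,3,2,1,4,2], [3,6,5,3,2,1,4,2], [2,5,4,4,2,1,4,2],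
  [3,5,4,4,2,1,4,2], [3,6,4,4,2,1,4,2], [2,5,5,4,2,1,4,2], [3,5,5,4,2,1,4,2], [2,6,5,4,2,1,4,2],
  [4,6,5,4,2,1,4,2], [3,7,5,4,2,1,4,2], [4,7,5,4,2,1,4,2], [3,6,6,4,2,1,4,2], [3,7,6,4,2,1,4,2],
  [4,7,6,4,2,1,4,2], [3,6,5,5,2,1,4,2], [3,6,6,5,2,1,4,2], [3,7,6,5,2,1,4,2], [4,7,6,5,2,1,4,2],
  [3,6,5,4,3,1,4,2], [3,6,5,5,3,1,4,2], [3,6,6,5,3,1,4,2], [3,7,6,5,3,1,4,2], [4,7,6,5,3,1,4,2],
  [2,5,4,3,1,2,4,2], [3,5,4,3,1,2,4,2], [3,6,4,3,1,2,4,2], [3,6,5,3,1,2,4,2], [2,5,4,4,1,2,4,2],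
  [3,5,4,4,1,2,4,2], [3,6,4,4,1,2,4,2], [2,5,5,4,1,2,4,2], [3,5,5,4,1,2,4,2], [2,6,5,4,1,2,4,2],
  [4,6,5,4,1,2,4,2], [3,7,5,4,1,2,4,2], [4,7,5,4,1,2,4,2], [3,6,6,4,1,2,4,2], [3,7,6,4,1,2,4,2],
  [4,7,6,4,1,2,4,2], [3,6,5,5,1,2,4,2], [3,6,6,5,1,2,4,2], [3,7,6,5,1,2,4,2], [4,7,6,5,1,2,4,2],
  [2,5,4,3,2,2,4,2], [3,5,4,3,2,2,4,2], [3,6,4,3,2,2,4,2], [3,6,5,3,2,2,4,2], [3,6,5,4,1,3,4,2],
  [3,6,5,5,1,3,4,2], [3,6,6,5,1,3,4,2], [3,7,6,5,1,3,4,2], [4,7,6,5,1,3,4,2], [3,6,5,4,2,1,5,2],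
  [3,7,5,4,2,1,5,2], [4,7,5,4,2,1,5,2], [3,7,6,4,2,1,5,2], [4,7,6,4,2,1,5,2], [4,8,6,4,2,1,5,2],
  [3,7,6,5,2,1,5,2], [4,7,6,5,2,1,5,2], [4,8,6,5,2,1,5,2], [4,8,7,5,2,1,5,2], [3,7,6,5,3,1,5,2],
  [4,7,6,5,3,1,5,2], [4,8,6,5,3,1,5,2], [4,8,7,5,3,1,5,2], [4,8,7,6,3,1,5,2], [3,6,5,4,1,2,5,2],
  [3,7,5,4,1,2,5,2], [4,7,5,4,1,2,5,2], [3,7,6,4,1,2,5,2], [4,7,6,4,1,2,5,2], [4,8,6,4,1,2,5,2],
  [3,7,6,5,1,2,5,2], [4,7,6,5,1,2,5,2], [4,8,6,5,1,2,5,2], [4,8,7,5,1,2,5,2], [3,7,6,5,1,3,5,2],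
  [4,7,6,5,1,3,5,2], [4,8,6,5,1,3,5,2], [4,8,7,5,1,3,5,2], [4,8,7,6,1,3,5,2], [3,6,5,4,2,1,4,3],
  [3,6,5,4,1,2,4,3], [3,6,5,4,2,1,5,3], [3,7,5,4,2,1,5,3], [4,7,5,4,2,1,5,3], [3,7,6,4,2,1,5,3],
  [4,7,6,4,2,1,5,3], [4,8,6,4,2,1,5,3], [3,7,6,5,2,1,5,3], [4,7,6,5,2,1,5,3], [4,8,6,5,2,1,5,3],
  [4,8,7,5,2,1,5,3], [3,7,6,5,3,1,5,3], [4,7,6,5,3,1,5,3], [4,8,6,5,3,1,5,3], [4,8,7,5,3,1,5,3],
  [4,8,7,6,3,1,5,3], [3,6,5,4,1,2,5,3], [3,7,5,4,1,2,5,3], [4,7,5,4,1,2,5,3], [3,7,6,4,1,2,5,3],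
  [4,7,6,4,1,2,5,3], [4,8,6,4,1,2,5,3], [3,7,6,5,1,2,5,3], [4,7,6,5,1,2,5,3], [4,8,6,5,1,2,5,3],
  [4,8,7,5,1,2,5,3], [3,7,6,5,1,3,5,3], [4,7,6,5,1,3,5,3], [4,8,6,5,1,3,5,3], [4,8,7,5,1,3,5,3],
  [4,8,7,6,1,3,5,3], [4,8,6,4,2,1,6,3], [4,8,6,5,2,1,6,3], [4,8,7,5,2,1,6,3], [4,9,7,5,2,1,6,3],
  [5,9,7,5,2,1,6,3], [4,8,6,5,3,1,6,3], [4,8,7,5,3,1,6,3], [4,9,7,5,3,1,6,3], [5,9,7,5,3,1,6,3],
  [4,8,7,6,3,1,6,3], [4,9,7,6,3,1,6,3], [5,9,7,6,3,1,6,3], [4,9,8,6,3,1,6,3], [5,9,8,6,3,1,6,3],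
  [5,10,8,6,3,1,6,3], [4,8,6,4,1,2,6,3], [4,8,6,5,1,2,6,3], [4,8,7,5,1,2,6,3], [4,9,7,5,1,2,6,3],
  [5,9,7,5,1,2,6,3], [4,8,6,5,1,3,6,3], [4,8,7,5,1,3,6,3], [4,9,7,5,1,3,6,3], [5,9,7,5,1,3,6,3],
  [4,8,7,6,1,3,6,3], [4,9,7,6,1,3,6,3], [5,9,7,6,1,3,6,3], [4,9,8,6,1,3,6,3], [5,9,8,6,1,3,6,3],
  [5,10,8,6,1,3,6,3], [5,10,8,6,3,1,7,3], [5,10,8,6,1,3,7,3], [5,10,8,6,3,1,7,4], [5,10,8,6,1,3,7,
  4]]⟩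

/-- exclusion vectors -/
def ex : List (List ℕ) := [[200000,449999,400000,400000,200000,200000,
  300000,149999], [249999,500000,449999,400000,200000,200000,300000,100000], [200000,466666,
  449999,433333,200000,216666,283333,100000], [200000,466666,449999,433333,216666,200000,283333,
  100000]]

/-- table of cusps -/
def cT : BT (List ℕ) := (.node [1,2,2,2,1,1,1,0] (.node [1,2,2,2,1,1,1,1]
  (.node [1,3,2,2,1,1,2,1] (.node [2,4,3,2,1,1,2,1] (.node [2,4,4,3,2,1,2,1] (.node [1,4,4,4,2,2,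
  2,1] (.node [2,4,3,3,1,1,3,1] (.node [2,5,4,4,2,2,4,1] (.node [4,7,5,4,1,2,5,2] .nil .nil)
  .nil) (.node [2,5,5,4,2,1,4,2] (.node [5,9,7,5,1,2,6,3] .nil .nil) .nil)) (.node [2,4,5,4,2,2,3,
  1] (.node [3,6,5,4,1,2,3,2] (.node [4,7,5,4,1,2,5,3] .nil .nil) .nil) (.node [3,7,6,4,1,2,4,2]
  .nil .nil))) (.node [2,4,4,4,2,3,2,1] (.node [2,5,4,3,1,2,3,1] (.node [3,5,4,3,2,1,3,2] (.node
  [3,7,5,4,2,1,5,3] .nil .nil) .nil) (.node [3,7,6,5,3,1,4,2] .nil .nil)) (.node [2,4,5,5,3,2,3,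
  1] (.node [2,4,5,5,2,3,3,2] (.node [4,9,7,5,2,1,6,3] .nil .nil) .nil) (.node [3,7,5,4,2,1,5,2]
  .nil .nil)))) (.node [2,3,3,3,2,2,2,1] (.node [2,4,5,5,2,2,2,1] (.node [2,4,4,4,2,1,3,1] (.node
  [2,4,3,2,1,1,3,2] (.node [3,7,6,5,1,3,5,2] .nil .nil) .nil) (.node [4,7,6,4,2,1,4,2] (.node [4,
  9,8,6,1,3,6,3] .nil .nil) .nil)) (.node [2,6,6,5,2,2,3,1] (.node [2,4,5,4,2,2,3,2] (.node [3,7,
  6,5,1,3,5,3] .nil .nil) .nil) (.node [3,6,4,3,2,2,4,2] .nil .nil))) (.node [3,5,5,5,3,3,2,1]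
  (.node [2,4,3,3,2,2,3,1] (.node [2,4,4,3,1,2,3,2] (.node [4,8,7,5,2,1,5,3] .nil .nil) .nil)
  (.node [3,6,4,4,1,2,4,2] .nil .nil)) (.node [2,4,5,5,2,3,3,1] (.node [3,6,5,4,1,1,4,2] (.node
  [5,9,7,6,3,1,6,3] .nil .nil) .nil) (.node [4,8,7,5,2,1,5,2] .nil .nil))))) (.node [2,4,4,3,1,1,
  2,1] (.node [2,4,3,3,1,2,2,1] (.node [2,4,5,4,2,2,2,1] (.node [2,4,3,3,2,1,3,1] (.node [2,6,5,4,
  2,2,4,1] (.node [3,7,6,5,1,2,5,2] .nil .nil) .nil) (.node [3,7,5,4,2,1,4,2] (.node [5,9,7,5,1,3,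
  6,3] .nil .nil) .nil)) (.node [3,5,4,5,2,2,3,1] (.node [3,5,4,3,2,2,3,2] (.node [3,7,6,5,1,2,5,
  3] .nil .nil) .nil) (.node [3,7,6,5,1,2,4,2] .nil .nil))) (.node [3,5,5,5,2,3,2,1] (.node [3,5,
  4,4,1,2,3,1] (.node [2,5,5,4,2,1,3,2] (.node [4,8,6,4,2,1,5,3] .nil .nil) .nil) (.node [3,6,4,3,
  1,2,4,2] .nil .nil)) (.node [2,5,5,4,2,3,3,1] (.node [2,5,4,3,1,1,4,2] (.node [4,9,7,5,3,1,6,3]
  .nil .nil) .nil) (.node [4,8,6,4,2,1,5,2] .nil .nil)))) (.node [2,3,3,4,2,2,2,1] (.node [2,4,4,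
  5,3,2,2,1] (.node [3,5,5,4,2,1,3,1] (.node [3,5,4,3,1,1,3,2] (.node [4,8,7,6,1,3,5,2] .nil
  .nil) .nil) (.node [4,7,6,5,2,1,4,2] (.node [5,10,8,6,1,3,7,3] .nil .nil) .nil)) (.node [2,5,5,
  4,3,2,3,1] (.node [2,4,4,5,3,2,3,2] (.node [4,8,7,6,1,3,5,3] .nil .nil) .nil) (.node [3,6,6,5,1,
  3,4,2] .nil .nil))) (.node [2,5,6,6,3,3,2,1] (.node [2,4,3,4,2,2,3,1] (.node [2,5,4,4,1,2,3,2]
  (.node [4,8,7,5,3,1,5,3] .nil .nil) .nil) (.node [4,6,5,4,1,2,4,2] .nil .nil)) (.node [2,4,5,5,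
  3,3,3,1] (.node [3,6,5,3,2,1,4,2] (.node [4,8,6,4,1,2,6,3] .nil .nil) .nil) (.node [4,8,7,5,3,1,
  5,2] .nil .nil)))))) (.node [1,3,3,2,1,1,2,1] (.node [2,3,3,3,1,1,2,1] (.node [1,3,3,3,1,2,2,1]
  (.node [2,5,4,4,2,2,2,1] (.node [2,5,4,3,1,1,3,1] (.node [3,6,4,4,2,2,4,1] (.node [4,7,6,4,1,2,
  5,2] .nil .nil) .nil) (.node [2,6,5,4,2,1,4,2] (.node [4,8,7,5,1,3,6,3] .nil .nil) .nil))
  (.node [2,4,4,5,2,2,3,1] (.node [2,4,4,3,2,2,3,2] (.node [4,7,6,4,1,2,5,3] .nil .nil) .nil)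
  (.node [3,6,5,5,1,2,4,2] .nil .nil))) (.node [2,4,5,5,2,3,2,1] (.node [2,4,4,4,1,2,3,1] (.node
  [2,5,4,4,2,1,3,2] (.node [3,7,6,4,2,1,5,3] .nil .nil) .nil) (.node [2,5,4,3,1,2,4,2] .nil
  .nil)) (.node [2,5,4,4,2,3,3,1] (.node [2,4,5,5,3,3,3,2] (.node [4,8,6,5,3,1,6,3] .nil .nil)
  .nil) (.node [3,7,6,4,2,1,5,2] .nil .nil)))) (.node [2,4,4,3,2,2,2,1] (.node [3,5,5,5,2,2,2,1]
  (.node [3,5,4,4,2,1,3,1] (.node [2,4,4,3,1,1,3,2] (.node [4,8,6,5,1,3,5,2] .nil .nil) .nil)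
  (.node [3,6,6,5,2,1,4,2] (.node [5,10,8,6,1,3,6,3] .nil .nil) .nil)) (.node [2,5,4,4,3,2,3,1]
  (.node [2,4,5,5,2,2,3,2] (.node [4,8,6,5,1,3,5,3] .nil .nil) .nil) (.node [3,6,5,4,1,3,4,2]
  .nil .nil))) (.node [2,5,5,6,3,3,2,1] (.node [2,5,4,3,2,2,3,1] (.node [3,5,4,3,1,2,3,2] (.node
  [4,7,6,5,3,1,5,3] .nil .nil) .nil) (.node [3,5,5,4,1,2,4,2] .nil .nil)) (.node [2,5,4,5,3,3,3,
  1] (.node [3,5,4,3,2,1,4,2] (.node [5,9,8,6,3,1,6,3] .nil .nil) .nil) (.node [4,7,6,5,3,1,5,2]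
  .nil .nil))))) (.node [2,3,3,3,2,1,2,1] (.node [2,4,4,4,1,2,2,1] (.node [3,5,5,4,2,2,2,1]
  (.node [2,5,4,3,2,1,3,1] (.node [2,6,5,5,2,2,4,1] (.node [4,8,6,5,1,2,5,2] .nil .nil) .nil)
  (.node [3,6,6,4,2,1,4,2] (.node [4,9,7,6,1,3,6,3] .nil .nil) .nil)) (.node [2,6,5,5,2,2,3,1]
  (.node [1,4,4,4,2,2,3,2] (.node [4,8,6,5,1,2,5,3] .nil .nil) .nil) (.node [2,5,4,3,2,2,4,2]
  .nil .nil))) (.node [2,4,5,5,3,3,2,1] (.node [3,5,5,4,1,2,3,1] (.node [3,6,5,4,2,1,3,2] (.node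
  [4,7,6,5,2,1,5,3] .nil .nil) .nil) (.node [2,5,4,4,1,2,4,2] .nil .nil)) (.node [2,5,4,5,2,3,3,
  1] (.node [3,6,4,3,1,1,4,2] (.node [4,8,7,6,3,1,6,3] .nil .nil) .nil) (.node [4,7,6,5,2,1,5,2]
  .nil .nil)))) (.node [1,3,4,4,2,2,2,1] (.node [2,5,5,5,3,2,2,1] (.node [2,4,3,3,1,2,3,1] (.node
  [2,4,4,3,2,1,3,2] (.node [3,6,5,4,1,2,4,3] .nil .nil) .nil) (.node [3,6,5,5,3,1,4,2] (.node [5,
  10,8,6,1,3,7,4] .nil .nil) .nil)) (.node [2,5,4,5,3,2,3,1] (.node [2,4,4,4,2,3,3,2] (.node [4,8,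
  6,5,2,1,6,3] .nil .nil) .nil) (.node [4,7,6,5,1,3,4,2] .nil .nil))) (.node [3,6,6,6,3,3,2,1]
  (.node [3,4,4,4,2,2,3,1] (.node [2,5,5,4,1,2,3,2] (.node [3,6,5,4,1,2,5,3] .nil .nil) .nil)
  (.node [4,7,5,4,1,2,4,2] .nil .nil)) (.node [3,6,5,4,2,1,4,1] (.node [3,5,4,4,2,1,4,2] (.node
  [4,8,7,5,1,2,6,3] .nil .nil) .nil) (.node [3,6,5,4,1,2,5,2] .nil .nil))))))) (.node [1,2,2,2,1,
  1,2,1] (.node [2,3,2,2,1,1,2,1] (.node [1,3,3,3,1,1,2,1] (.node [2,4,4,4,2,1,2,1] (.node [3,4,4,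
  4,2,2,2,1] (.node [2,4,4,3,1,1,3,1] (.node [3,5,4,4,2,2,4,1] (.node [3,7,6,4,1,2,5,2] .nil
  .nil) .nil) (.node [3,5,5,4,2,1,4,2] (.node [4,8,6,5,1,3,6,3] .nil .nil) .nil)) (.node [2,6,5,4,
  2,2,3,1] (.node [2,4,3,3,2,2,3,2] (.node [3,7,6,4,1,2,5,3] .nil .nil) .nil) (.node [4,7,6,4,1,2,
  4,2] .nil .nil))) (.node [2,4,4,5,2,3,2,1] (.node [3,5,4,3,1,2,3,1] (.node [2,4,4,4,2,1,3,2]
  (.node [4,7,5,4,2,1,5,3] .nil .nil) .nil) (.node [4,7,6,5,3,1,4,2] .nil .nil)) (.node [2,4,4,4,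
  2,3,3,1] (.node [2,4,4,5,3,3,3,2] (.node [5,9,7,5,2,1,6,3] .nil .nil) .nil) (.node [4,7,5,4,2,1,
  5,2] .nil .nil)))) (.node [2,4,3,3,2,2,2,1] (.node [2,5,5,5,2,2,2,1] (.node [2,5,4,4,2,1,3,1]
  (.node [2,4,3,3,1,1,3,2] (.node [4,7,6,5,1,3,5,2] .nil .nil) .nil) (.node [3,6,5,5,2,1,4,2]
  (.node [5,9,8,6,1,3,6,3] .nil .nil) .nil)) (.node [2,4,4,4,3,2,3,1] (.node [2,4,4,5,2,2,3,2]
  (.node [4,7,6,5,1,3,5,3] .nil .nil) .nil) (.node [3,6,5,3,2,2,4,2] .nil .nil))) (.node [2,4,5,6,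
  3,3,2,1] (.node [2,4,4,3,2,2,3,1] (.node [2,5,4,3,1,2,3,2] (.node [3,7,6,5,3,1,5,3] .nil .nil)
  .nil) (.node [2,5,5,4,1,2,4,2] .nil .nil)) (.node [2,4,4,5,3,3,3,1] (.node [2,5,4,3,2,1,4,2]
  (.node [4,9,8,6,3,1,6,3] .nil .nil) .nil) (.node [3,7,6,5,3,1,5,2] .nil .nil))))) (.node [1,3,3,
  3,2,1,2,1] (.node [2,4,4,3,1,2,2,1] (.node [2,5,5,4,2,2,2,1] (.node [2,4,4,3,2,1,3,1] (.node [2,
  5,5,5,2,2,4,1] (.node [4,7,6,5,1,2,5,2] .nil .nil) .nil) (.node [4,7,5,4,2,1,4,2] (.node [4,8,7,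
  6,1,3,6,3] .nil .nil) .nil)) (.node [2,4,5,5,2,2,3,1] (.node [2,4,3,4,2,2,3,2] (.node [4,7,6,5,
  1,2,5,3] .nil .nil) .nil) (.node [4,7,6,5,1,2,4,2] .nil .nil))) (.node [2,4,4,5,3,3,2,1] (.node
  [2,5,5,4,1,2,3,1] (.node [3,5,5,4,2,1,3,2] (.node [3,7,6,5,2,1,5,3] .nil .nil) .nil) (.node [3,
  6,5,3,1,2,4,2] .nil .nil)) (.node [2,4,4,5,2,3,3,1] (.node [3,5,4,3,1,1,4,2] (.node [5,9,7,5,3,
  1,6,3] .nil .nil) .nil) (.node [3,7,6,5,2,1,5,2] .nil .nil)))) (.node [2,4,3,4,2,2,2,1] (.node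
  [2,4,5,5,3,2,2,1] (.node [3,6,5,4,2,1,3,1] (.node [2,4,3,3,2,1,3,2] (.node [3,6,5,4,2,1,4,3]
  .nil .nil) .nil) (.node [3,6,5,4,3,1,4,2] (.node [5,10,8,6,3,1,7,4] .nil .nil) .nil)) (.node [2,
  4,4,5,3,2,3,1] (.node [2,4,5,5,3,2,3,2] (.node [4,8,6,4,2,1,6,3] .nil .nil) .nil) (.node [3,7,6,
  5,1,3,4,2] .nil .nil))) (.node [3,5,6,6,3,3,2,1] (.node [1,4,4,4,2,2,3,1] (.node [3,5,4,4,1,2,3,
  2] (.node [4,8,7,6,3,1,5,3] .nil .nil) .nil) (.node [3,7,5,4,1,2,4,2] .nil .nil)) (.node [2,4,5,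
  6,3,3,3,1] (.node [2,5,4,4,2,1,4,2] (.node [4,8,6,5,1,2,6,3] .nil .nil) .nil) (.node [4,8,7,6,3,
  1,5,2] .nil .nil)))))) (.node [2,3,3,2,1,1,2,1] (.node [2,4,3,3,1,1,2,1] (.node [2,3,3,3,1,2,2,
  1] (.node [3,5,4,4,2,2,2,1] (.node [3,5,4,3,1,1,3,1] (.node [2,5,5,4,2,2,4,1] (.node [4,8,6,4,1,
  2,5,2] .nil .nil) .nil) (.node [4,6,5,4,2,1,4,2] (.node [4,9,7,5,1,3,6,3] .nil .nil) .nil))
  (.node [2,5,4,5,2,2,3,1] (.node [2,5,4,3,2,2,3,2] (.node [4,8,6,4,1,2,5,3] .nil .nil) .nil)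
  (.node [3,6,6,5,1,2,4,2] .nil .nil))) (.node [2,5,5,5,2,3,2,1] (.node [2,5,4,4,1,2,3,1] (.node
  [3,5,4,4,2,1,3,2] (.node [4,7,6,4,2,1,5,3] .nil .nil) .nil) (.node [3,5,4,3,1,2,4,2] .nil
  .nil)) (.node [3,5,4,4,2,3,3,1] (.node [2,4,5,6,3,3,3,2] (.node [4,8,7,5,3,1,6,3] .nil .nil)
  .nil) (.node [4,7,6,4,2,1,5,2] .nil .nil)))) (.node [1,3,3,4,2,2,2,1] (.node [2,4,4,4,3,2,2,1]
  (.node [2,5,5,4,2,1,3,1] (.node [2,5,4,3,1,1,3,2] (.node [4,8,7,5,1,3,5,2] .nil .nil) .nil)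
  (.node [3,7,6,5,2,1,4,2] (.node [5,10,8,6,3,1,7,3] .nil .nil) .nil)) (.node [3,5,4,4,3,2,3,1]
  (.node [2,4,4,4,3,2,3,2] (.node [4,8,7,5,1,3,5,3] .nil .nil) .nil) (.node [3,6,5,5,1,3,4,2]
  .nil .nil))) (.node [3,5,5,6,3,3,2,1] (.node [3,5,4,3,2,2,3,1] (.node [2,4,4,4,1,2,3,2] (.node
  [4,8,6,5,3,1,5,3] .nil .nil) .nil) (.node [2,6,5,4,1,2,4,2] .nil .nil)) (.node [3,5,4,5,3,3,3,
  1] (.node [3,6,4,3,2,1,4,2] (.node [5,10,8,6,3,1,6,3] .nil .nil) .nil) (.node [4,8,6,5,3,1,5,2]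
  .nil .nil))))) (.node [2,4,3,3,2,1,2,1] (.node [1,3,3,3,2,2,2,1] (.node [2,4,4,5,2,2,2,1]
  (.node [3,5,4,3,2,1,3,1] (.node [2,6,6,5,2,2,4,1] (.node [4,8,7,5,1,2,5,2] .nil .nil) .nil)
  (.node [3,7,6,4,2,1,4,2] (.node [5,9,7,6,1,3,6,3] .nil .nil) .nil)) (.node [2,5,6,5,2,2,3,1]
  (.node [3,4,4,4,2,2,3,2] (.node [4,8,7,5,1,2,5,3] .nil .nil) .nil) (.node [3,5,4,3,2,2,4,2]
  .nil .nil))) (.node [2,5,5,5,3,3,2,1] (.node [3,6,5,4,1,2,3,1] (.node [2,4,3,3,1,2,3,2] (.node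
  [4,8,6,5,2,1,5,3] .nil .nil) .nil) (.node [3,5,4,4,1,2,4,2] .nil .nil)) (.node [3,5,4,5,2,3,3,
  1] (.node [3,6,5,3,1,1,4,2] (.node [4,9,7,6,3,1,6,3] .nil .nil) .nil) (.node [4,8,6,5,2,1,5,2]
  .nil .nil)))) (.node [2,3,4,4,2,2,2,1] (.node [3,5,5,5,3,2,2,1] (.node [2,4,4,3,1,2,3,1] (.node
  [2,5,4,3,2,1,3,2] (.node [3,6,5,4,2,1,5,3] .nil .nil) .nil) (.node [3,6,6,5,3,1,4,2] .nil
  .nil)) (.node [3,5,4,5,3,2,3,1] (.node [2,4,4,5,2,3,3,2] (.node [4,8,7,5,2,1,6,3] .nil .nil)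
  .nil) (.node [3,6,5,4,2,1,5,2] .nil .nil))) (.node [2,4,3,2,1,1,3,1] (.node [3,6,4,4,2,2,3,1]
  (.node [3,5,5,4,1,2,3,2] (.node [3,7,5,4,1,2,5,3] .nil .nil) .nil) (.node [3,6,6,4,1,2,4,2]
  .nil .nil)) (.node [3,6,5,4,1,2,4,1] (.node [3,6,4,4,2,1,4,2] (.node [4,9,7,5,1,2,6,3] .nil
  .nil) .nil) (.node [3,7,5,4,1,2,5,2] .nil .nil))))))))

/-- indices of reflected cusps -/
def cK : List (List ℕ) := [[0,0,0,0,0,0,0,2], [0,0,0,0,0,0,3,1],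
   [0,4,0,0,0,0,2,0], [5,3,6,0,0,0,0,0], [4,0,7,0,0,0,0,0], [7,0,4,9,0,0,0,0], [6,8,5,10,0,0,0,0],
   [0,7,0,11,0,0,63,0], [10,0,0,6,13,18,0,0], [9,11,0,7,14,19,0,0], [0,10,12,8,15,20,64,0], [0,0,
  11,0,16,21,65,0], [14,0,0,0,9,23,0,0], [13,15,0,0,10,24,0,0], [0,14,16,0,11,25,68,0], [0,0,15,
  17,12,26,69,0], [0,0,0,16,0,48,72,0], [19,0,0,0,23,9,0,0], [18,20,0,0,24,10,0,0], [0,19,21,0,25,
  11,78,0], [0,0,20,22,26,12,79,0], [0,0,0,21,43,0,82,0], [24,0,0,27,18,13,0,0], [23,25,0,28,19,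
  14,0,0], [0,24,26,29,20,15,88,0], [0,0,25,39,21,16,89,0], [28,0,30,23,0,0,0,0], [27,29,31,24,0,
  0,0,0], [0,28,36,25,0,0,92,0], [31,32,27,0,0,0,0,0], [30,34,28,0,0,0,0,0], [33,30,0,0,0,0,93,0],
   [32,35,0,0,0,0,94,0], [35,31,37,0,0,0,128,0], [34,33,38,0,0,0,129,0], [0,37,29,40,0,0,96,0],
  [38,36,34,41,0,0,131,0], [37,0,35,42,0,0,0,0], [0,0,40,26,44,49,98,0], [0,41,39,36,45,50,101,0],
   [42,40,0,37,46,51,133,0], [41,0,0,38,47,52,0,0], [0,0,0,44,22,0,105,0], [0,0,45,43,39,53,109,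
  0], [0,46,44,0,40,54,112,0], [47,45,0,0,41,55,0,0], [46,0,0,0,42,56,0,0], [0,0,0,49,0,17,113,0],
   [0,0,50,48,53,39,117,0], [0,51,49,0,54,40,120,0], [52,50,0,0,55,41,0,0], [51,0,0,0,56,42,0,0],
  [0,0,54,0,49,44,121,0], [0,55,53,57,50,45,124,0], [56,54,0,58,51,46,0,0], [55,0,0,59,52,47,0,0],
   [0,58,0,54,0,0,125,0], [59,57,60,55,0,0,0,0], [58,0,61,56,0,0,0,0], [61,0,58,0,0,0,0,0], [60,
  62,59,0,0,0,0,0], [0,61,0,0,0,0,0,0], [0,0,0,64,0,0,8,136], [0,0,65,63,68,78,11,137], [0,66,64,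
  0,69,79,12,138], [67,65,0,0,70,80,0,139], [66,0,0,0,71,81,0,140], [0,0,69,0,64,88,15,141], [0,
  70,68,72,65,89,16,142], [71,69,0,73,66,90,0,143], [70,0,0,74,67,91,0,144], [0,73,0,69,0,113,17,
  145], [74,72,75,70,0,114,0,146], [73,0,76,71,0,115,0,147], [76,0,73,0,0,116,0,148], [75,77,74,0,
  0,0,0,149], [0,76,0,0,0,0,126,150], [0,0,79,0,88,64,20,151], [0,80,78,82,89,65,21,152], [81,79,
  0,83,90,66,0,153], [80,0,0,84,91,67,0,154], [0,83,0,79,105,0,22,155], [84,82,85,80,106,0,0,156],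
   [83,0,86,81,107,0,0,157], [86,0,83,0,108,0,0,158], [85,87,84,0,0,0,0,159], [0,86,0,0,0,0,127,
  160], [0,0,89,92,78,68,25,161], [0,90,88,98,79,69,26,162], [91,89,0,99,80,70,0,163], [90,0,0,
  100,81,71,0,164], [0,0,96,88,0,0,29,165], [94,0,0,0,0,0,32,166], [93,95,0,0,0,0,33,167], [0,94,
  0,0,0,0,130,0], [0,97,92,101,0,0,36,168], [0,96,0,102,0,0,132,0], [0,99,101,89,109,117,39,169],
  [100,98,103,90,110,118,0,0], [99,0,0,91,111,119,0,0], [0,102,98,96,112,120,40,170], [0,101,104,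
  97,0,0,134,0], [0,104,99,0,0,0,0,0], [0,103,102,0,0,0,135,0], [0,106,0,109,82,0,43,171], [107,
  105,108,110,83,0,0,0], [106,0,0,111,84,0,0,0], [0,0,106,0,85,0,0,0], [0,110,112,105,98,121,44,
  172], [111,109,0,106,99,122,0,0], [110,0,0,107,100,123,0,0], [0,0,109,0,101,124,45,173], [0,114,
  0,117,0,72,48,174], [115,113,116,118,0,73,0,0], [114,0,0,119,0,74,0,0], [0,0,114,0,0,75,0,0],
  [0,118,120,113,121,98,49,175], [119,117,0,114,122,99,0,0], [118,0,0,115,123,100,0,0], [0,0,117,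
  0,124,101,50,176], [0,122,124,0,117,109,53,177], [123,121,0,0,118,110,0,0], [122,0,0,0,119,111,
  0,0], [0,0,121,125,120,112,54,178], [0,0,0,124,0,0,57,179], [0,0,0,0,0,0,77,269], [0,0,0,0,0,0,
  87,270], [129,0,131,0,0,0,34,0], [128,130,0,0,0,0,35,0], [0,129,0,0,0,0,95,0], [0,132,128,133,0,
  0,37,0], [0,131,0,134,0,0,97,0], [0,134,0,131,0,0,41,0], [0,133,135,132,0,0,102,0], [0,0,134,0,
  0,0,104,0], [0,0,0,137,0,0,0,63], [0,0,138,136,141,151,0,64], [0,139,137,0,142,152,0,65], [140,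
  138,0,0,143,153,180,66], [139,0,0,0,144,154,181,67], [0,0,142,0,137,161,0,68], [0,143,141,145,
  138,162,0,69], [144,142,0,146,139,163,185,70], [143,0,0,147,140,164,186,71], [0,146,0,142,0,174,
  0,72], [147,145,148,143,0,0,189,73], [146,0,149,144,0,0,190,74], [149,0,146,0,0,0,192,75], [148,
  150,147,0,0,0,193,76], [0,149,0,0,0,0,239,77], [0,0,152,0,161,137,0,78], [0,153,151,155,162,138,
  0,79], [154,152,0,156,163,139,210,80], [153,0,0,157,164,140,211,81], [0,156,0,152,171,0,0,82],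
  [157,155,158,153,0,0,214,83], [156,0,159,154,0,0,215,84], [159,0,156,0,0,0,217,85], [158,160,
  157,0,0,0,218,86], [0,159,0,0,0,0,254,87], [0,0,162,165,151,141,0,88], [0,163,161,169,152,142,0,
  89], [164,162,0,0,153,143,230,90], [163,0,0,0,154,144,231,91], [0,0,168,161,0,0,0,92], [167,0,0,
  0,0,0,0,93], [166,0,0,0,0,0,0,94], [0,0,165,170,0,0,0,96], [0,0,170,162,172,175,0,98], [0,0,169,
  168,173,176,0,101], [0,0,0,172,155,0,0,105], [0,0,173,171,169,177,0,109], [0,0,172,0,170,178,0,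
  112], [0,0,0,175,0,145,0,113], [0,0,176,174,177,169,0,117], [0,0,175,0,178,170,0,120], [0,0,178,
  0,175,172,0,121], [0,0,177,179,176,173,0,124], [0,0,0,178,0,0,0,125], [181,0,0,0,185,210,139,0],
   [180,182,0,0,186,211,140,0], [0,181,183,0,187,212,0,0], [0,0,182,184,188,213,0,0], [0,0,0,183,
  205,234,0,0], [186,0,0,189,180,230,143,0], [185,187,0,190,181,231,144,0], [0,186,188,191,182,
  232,0,0], [0,0,187,201,183,233,0,0], [190,0,192,185,0,0,146,0], [189,191,193,186,0,0,147,0], [0,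
  190,198,187,0,0,0,0], [193,194,189,0,0,0,148,0], [192,196,190,0,0,0,149,0], [195,192,0,0,0,0,0,
  0], [194,197,0,0,0,0,0,0], [197,193,199,0,0,0,240,0], [196,195,200,0,0,0,241,0], [0,199,191,202,
  0,0,0,0], [200,198,196,203,0,0,242,0], [199,0,197,204,0,0,243,0], [0,0,202,188,206,0,0,0], [0,
  203,201,198,207,0,0,0], [204,202,0,199,208,0,245,0], [203,0,0,200,209,0,246,0], [0,0,0,206,184,
  0,0,0], [0,0,207,205,201,0,0,0], [0,208,206,0,202,0,0,0], [209,207,0,0,203,0,249,0], [208,0,0,0,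
  204,0,250,0], [211,0,0,214,230,180,153,0], [210,212,0,215,231,181,154,0], [0,211,213,216,232,
  182,0,0], [0,0,212,226,233,183,0,0], [215,0,217,210,0,0,156,0], [214,216,218,211,0,0,157,0], [0,
  215,223,212,0,0,0,0], [218,219,214,0,0,0,158,0], [217,221,215,0,0,0,159,0], [220,217,0,0,0,0,0,
  0], [219,222,0,0,0,0,0,0], [222,218,224,0,0,0,255,0], [221,220,225,0,0,0,256,0], [0,224,216,227,
  0,0,0,0], [225,223,221,228,0,0,257,0], [224,0,222,229,0,0,258,0], [0,0,227,213,0,235,0,0], [0,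
  228,226,223,0,236,0,0], [229,227,0,224,0,237,260,0], [228,0,0,225,0,238,261,0], [231,0,0,0,210,
  185,163,0], [230,232,0,0,211,186,164,0], [0,231,233,0,212,187,0,0], [0,0,232,0,213,188,0,0], [0,
  0,0,235,0,184,0,0], [0,0,236,234,0,226,0,0], [0,237,235,0,0,227,0,0], [238,236,0,0,0,228,264,0],
   [237,0,0,0,0,229,265,0], [0,240,0,0,0,0,150,271], [241,239,242,0,0,0,196,272], [240,0,243,0,0,
  0,197,273], [243,0,240,245,0,0,199,274], [242,244,241,246,0,0,200,275], [0,243,0,247,0,0,0,276],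
   [246,0,0,242,249,0,203,277], [245,247,0,243,250,0,204,278], [0,246,248,244,251,0,0,279], [0,0,
  247,0,252,0,0,280], [250,0,0,0,245,0,208,281], [249,251,0,0,246,0,209,282], [0,250,252,0,247,0,
  0,283], [0,0,251,253,248,0,0,284], [0,0,0,252,0,0,0,285], [0,255,0,0,0,0,160,286], [256,254,257,
  0,0,0,221,287], [255,0,258,0,0,0,222,288], [258,0,255,260,0,0,224,289], [257,259,256,261,0,0,
  225,290], [0,258,0,262,0,0,0,291], [261,0,0,257,0,264,228,292], [260,262,0,258,0,265,229,293],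
  [0,261,263,259,0,266,0,294], [0,0,262,0,0,267,0,295], [265,0,0,0,0,260,237,296], [264,266,0,0,0,
  261,238,297], [0,265,267,0,0,262,0,298], [0,0,266,268,0,263,0,299], [0,0,0,267,0,0,0,300], [0,0,
  0,0,0,0,271,126], [0,0,0,0,0,0,286,127], [0,272,0,0,0,0,269,239], [273,271,274,0,0,0,0,240],
  [272,0,275,0,0,0,0,241], [275,0,272,277,0,0,0,242], [274,276,273,278,0,0,0,243], [0,275,0,279,0,
  0,301,244], [278,0,0,274,281,0,0,245], [277,279,0,275,282,0,0,246], [0,278,280,276,283,0,302,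
  247], [0,0,279,0,284,0,303,248], [282,0,0,0,277,0,0,249], [281,283,0,0,278,0,0,250], [0,282,284,
  0,279,0,306,251], [0,0,283,285,280,0,307,252], [0,0,0,284,0,0,310,253], [0,287,0,0,0,0,270,254],
   [288,286,289,0,0,0,0,255], [287,0,290,0,0,0,0,256], [290,0,287,292,0,0,0,257], [289,291,288,
  293,0,0,0,258], [0,290,0,294,0,0,316,259], [293,0,0,289,0,296,0,260], [292,294,0,290,0,297,0,
  261], [0,293,295,291,0,298,317,262], [0,0,294,0,0,299,318,263], [297,0,0,0,0,292,0,264], [296,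
  298,0,0,0,293,0,265], [0,297,299,0,0,294,321,266], [0,0,298,300,0,295,322,267], [0,0,0,299,0,0,
  325,268], [0,0,0,302,0,0,276,0], [0,0,303,301,306,0,279,0], [0,304,302,0,307,0,280,0], [305,303,
  0,0,308,0,0,0], [304,0,0,0,309,0,0,0], [0,0,307,0,302,0,283,0], [0,308,306,310,303,0,284,0],
  [309,307,0,311,304,0,0,0], [308,0,0,312,305,0,0,0], [0,311,0,307,0,0,285,0], [312,310,313,308,0,
  0,0,0], [311,0,314,309,0,0,0,0], [314,0,311,0,0,0,0,0], [313,315,312,0,0,0,0,0], [0,314,0,0,0,0,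
  331,0], [0,0,0,317,0,0,291,0], [0,0,318,316,0,321,294,0], [0,319,317,0,0,322,295,0], [320,318,0,
  0,0,323,0,0], [319,0,0,0,0,324,0,0], [0,0,322,0,0,317,298,0], [0,323,321,325,0,318,299,0], [324,
  322,0,326,0,319,0,0], [323,0,0,327,0,320,0,0], [0,326,0,322,0,0,300,0], [327,325,328,323,0,0,0,
  0], [326,0,329,324,0,0,0,0], [329,0,326,0,0,0,0,0], [328,330,327,0,0,0,0,0], [0,329,0,0,0,0,332,
  0], [0,0,0,0,0,0,315,333], [0,0,0,0,0,0,330,334], [0,0,0,0,0,0,0,331], [0,0,0,0,0,0,0,332]]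

theorem cusps_fast : fastCusps dat ex cT 334 cK = true := by decide +kernel

end Pool.Agent.Helper10.Fam.D6
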