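import Pool.Agent.Helper10.FamD.D6LowT

set_option autoImplicit false
set_option maxRecDepth 1000000

/-!
# Certificate data for `U ⊕ D6` (lower bound, subtrees)
-/

namespace Pool.Agent.Helper10.Fam.D6

open Pool.Agent.Helper10.Fam

def lt0 : Tr ℕ := (.bis 3 7 1 71 12 (.bis 2 7 1 57 13 (.bis 1 7 1 45 14 (.bis 6 7 1 29 15 (.leaf
  1) (.bis 4 6 1 2 16 (.bis 5 6 1 2 17 (.bis 0 6 1 2 18 (.bis 3 6 1 2 19 (.bis 2 6 1 2 20 (.bis 1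
  6 1 2 21 (.leaf 39) (.leaf 98)) (.leaf 69)) (.leaf 69)) (.leaf 69)) (.leaf 69)) (.bis 0 4 1 1
  22 (.bis 4 7 1 2 23 (.bis 5 7 1 2 24 (.leaf 69) (.leaf 12)) (.leaf 108)) (.bis 0 5 1 1 25
  (.leaf 69) (.leaf 69))))) (.bis 4 6 1 2 16 (.bis 5 6 1 2 17 (.bis 0 6 1 2 18 (.bis 3 6 1 2 19
  (.bis 2 6 1 2 20 (.bis 1 6 1 1 26 (.leaf 98) (.bis 1 4 4 1 27 (.leaf 3) (.bis 1 5 4 1 28 (.leaf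
  3) (.bis 0 1 1 4 29 (.bis 1 3 4 1 30 (.leaf 3) (.leaf 9)) (.leaf 3))))) (.bis 1 4 4 1 27 (.leaf
  3) (.bis 1 5 4 1 28 (.leaf 3) (.bis 1 2 2 1 31 (.leaf 3) (.bis 0 1 1 4 29 (.bis 1 3 4 1 30
  (.leaf 3) (.leaf 9)) (.leaf 3)))))) (.bis 1 3 2 1 32 (.leaf 30) (.bis 1 4 4 1 27 (.leaf 3)
  (.bis 1 5 4 1 28 (.leaf 3) (.bis 1 2 2 1 31 (.leaf 3) (.bis 0 1 1 4 29 (.leaf 9) (.leaf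
  3))))))) (.bis 0 1 1 2 33 (.bis 1 3 2 1 32 (.leaf 30) (.bis 1 4 4 1 27 (.leaf 3) (.bis 1 5 4 1
  28 (.leaf 3) (.bis 1 2 2 1 31 (.leaf 3) (.leaf 47))))) (.leaf 30))) (.bis 1 5 2 1 34 (.bis 0 5
  1 1 25 (.leaf 12) (.leaf 30)) (.bis 0 1 1 2 33 (.bis 1 3 2 1 32 (.leaf 30) (.bis 1 4 4 1 27
  (.leaf 3) (.bis 1 6 4 1 28 (.leaf 3) (.bis 1 2 2 1 31 (.leaf 3) (.leaf 9))))) (.leaf 30))))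
  (.bis 1 4 2 1 35 (.bis 0 4 1 1 22 (.bis 4 5 1 1 36 (.leaf 12) (.leaf 19)) (.bis 0 5 1 1 25
  (.leaf 12) (.leaf 30))) (.bis 1 5 2 1 34 (.bis 0 5 1 1 25 (.leaf 12) (.leaf 30)) (.bis 0 1 1 2
  33 (.bis 1 3 2 1 32 (.leaf 30) (.bis 1 6 4 1 27 (.leaf 3) (.bis 1 2 2 1 31 (.leaf 3) (.bis 1 4
  4 1 37 (.leaf 3) (.leaf 9))))) (.leaf 30)))))) (.bis 4 6 1 2 16 (.bis 5 6 1 2 17 (.bis 0 2 1 2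
  38 (.bis 2 6 1 1 39 (.bis 3 6 1 2 19 (.bis 6 7 2 1 20 (.bis 1 4 4 1 27 (.leaf 3) (.bis 1 5 4 1
  28 (.leaf 3) (.bis 1 7 2 1 31 (.leaf 3) (.bis 1 3 4 1 30 (.leaf 3) (.leaf 9))))) (.bis 0 6 1 4
  40 (.bis 1 6 1 1 26 (.leaf 39) (.bis 1 4 4 1 27 (.leaf 3) (.bis 1 5 4 1 28 (.leaf 3) (.bis 1 3
  4 1 30 (.leaf 3) (.leaf 9))))) (.bis 1 4 4 1 27 (.leaf 3) (.bis 1 5 4 1 28 (.leaf 3) (.bis 1 3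
  4 1 30 (.leaf 3) (.leaf 9)))))) (.bis 1 3 2 1 32 (.bis 2 3 1 1 41 (.leaf 12) (.leaf 3)) (.bis 1
  4 4 1 27 (.leaf 3) (.bis 1 5 4 1 28 (.leaf 3) (.bis 1 7 2 1 31 (.leaf 3) (.leaf 9)))))) (.bis 2
  4 4 1 42 (.bis 1 3 2 1 32 (.bis 3 6 1 1 41 (.leaf 3) (.leaf 12)) (.bis 1 4 4 1 27 (.leaf 3)
  (.bis 1 5 4 1 28 (.leaf 3) (.bis 1 7 2 1 31 (.leaf 3) (.leaf 6))))) (.bis 2 5 4 1 43 (.bis 1 3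
  2 1 32 (.leaf 38) (.bis 1 5 4 1 28 (.leaf 3) (.bis 1 7 2 1 31 (.leaf 3) (.leaf 6)))) (.bis 1 3
  2 1 32 (.bis 2 3 2 1 44 (.leaf 38) (.bis 2 7 2 1 45 (.leaf 38) (.leaf 6))) (.bis 1 7 2 1 31
  (.bis 2 7 2 1 45 (.leaf 38) (.bis 2 3 4 1 46 (.leaf 6) (.leaf 6))) (.bis 1 2 1 1 47 (.leaf 6)
  (.leaf 6))))))) (.bis 0 6 1 2 18 (.bis 3 6 1 2 19 (.bis 6 7 2 1 20 (.bis 1 4 4 1 27 (.leaf 3)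
  (.bis 1 5 4 1 28 (.leaf 3) (.bis 1 7 2 1 31 (.leaf 3) (.bis 0 1 1 4 29 (.leaf 9) (.leaf 3)))))
  (.bis 2 6 1 4 40 (.bis 1 6 1 1 26 (.leaf 39) (.bis 1 4 4 1 27 (.leaf 3) (.bis 1 5 4 1 28 (.leaf
  3) (.bis 0 1 1 4 29 (.bis 1 3 4 1 30 (.leaf 3) (.leaf 9)) (.leaf 3))))) (.bis 1 4 4 1 27 (.leaf
  3) (.bis 1 5 4 1 28 (.leaf 3) (.bis 0 1 1 4 29 (.bis 1 3 4 1 30 (.leaf 3) (.leaf 9)) (.leaf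
  3)))))) (.bis 1 3 2 1 32 (.leaf 30) (.bis 1 4 4 1 27 (.leaf 3) (.bis 1 5 4 1 28 (.leaf 3) (.bis
  1 7 2 1 31 (.leaf 3) (.bis 0 1 1 4 29 (.leaf 9) (.leaf 3))))))) (.bis 0 1 1 2 33 (.bis 1 3 2 1
  32 (.leaf 30) (.bis 1 4 4 1 27 (.leaf 3) (.bis 1 5 4 1 28 (.leaf 3) (.bis 1 7 2 1 31 (.leaf 3)
  (.leaf 47))))) (.leaf 30)))) (.bis 0 2 1 2 38 (.bis 2 5 2 1 48 (.bis 1 5 2 1 34 (.bis 0 5 1 2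
  49 (.leaf 12) (.leaf 12)) (.bis 1 3 2 1 32 (.leaf 12) (.bis 1 4 4 1 27 (.leaf 3) (.bis 1 6 4 1
  28 (.leaf 3) (.bis 1 7 2 1 31 (.leaf 3) (.bis 1 2 4 1 50 (.leaf 3) (.leaf 9))))))) (.bis 2 4 4
  1 42 (.bis 1 3 2 1 32 (.leaf 12) (.bis 1 4 4 1 27 (.leaf 3) (.bis 1 6 4 1 28 (.leaf 3) (.bis 1
  7 2 1 31 (.leaf 3) (.leaf 9))))) (.bis 2 6 4 1 43 (.bis 1 3 2 1 32 (.leaf 12) (.bis 1 6 4 1 28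
  (.leaf 3) (.bis 1 7 2 1 31 (.leaf 3) (.bis 1 5 4 1 50 (.leaf 3) (.leaf 6))))) (.bis 1 3 2 1 32
  (.bis 2 3 2 1 44 (.leaf 12) (.bis 2 7 2 1 45 (.leaf 38) (.bis 2 5 4 1 51 (.leaf 5) (.leaf 6))))
  (.bis 1 7 2 1 31 (.bis 2 7 2 1 45 (.leaf 38) (.bis 2 5 4 1 51 (.leaf 5) (.leaf 6))) (.bis 1 5 4
  1 50 (.bis 2 5 4 1 51 (.leaf 5) (.bis 2 3 4 1 46 (.leaf 5) (.leaf 6))) (.bis 1 2 1 1 47 (.bis 2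
  3 4 1 46 (.leaf 6) (.leaf 6)) (.leaf 6)))))))) (.bis 1 5 2 1 34 (.bis 0 5 1 1 25 (.bis 2 5 1 2
  49 (.leaf 12) (.bis 2 4 1 1 52 (.leaf 12) (.leaf 12))) (.leaf 30)) (.bis 0 1 1 2 33 (.bis 1 3 2
  1 32 (.leaf 30) (.bis 1 4 4 1 27 (.leaf 3) (.bis 1 6 4 1 28 (.leaf 3) (.bis 1 7 2 1 31 (.leaf
  3) (.leaf 9))))) (.leaf 30))))) (.bis 0 2 1 2 38 (.bis 2 4 2 1 53 (.bis 1 4 2 1 35 (.bis 0 4 1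
  2 54 (.bis 4 5 1 1 36 (.leaf 12) (.leaf 19)) (.bis 0 5 1 2 49 (.leaf 12) (.leaf 12))) (.bis 1 5
  2 1 34 (.bis 0 5 1 2 49 (.leaf 12) (.leaf 12)) (.bis 1 3 2 1 32 (.leaf 12) (.bis 1 6 4 1 27
  (.leaf 3) (.bis 1 7 2 1 31 (.leaf 3) (.bis 1 2 4 1 55 (.leaf 3) (.leaf 9))))))) (.bis 2 5 2 1
  48 (.bis 1 5 2 1 34 (.leaf 12) (.bis 1 3 2 1 32 (.leaf 12) (.bis 1 6 4 1 27 (.leaf 3) (.bis 1 7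
  2 1 31 (.leaf 3) (.bis 1 2 4 1 50 (.leaf 3) (.bis 1 4 4 1 55 (.leaf 3) (.leaf 9))))))) (.bis 2
  6 4 1 42 (.bis 1 3 2 1 32 (.leaf 12) (.bis 1 6 4 1 27 (.leaf 3) (.bis 1 7 2 1 31 (.leaf 3)
  (.bis 1 4 4 1 55 (.leaf 3) (.leaf 9))))) (.bis 1 3 2 1 32 (.bis 2 3 2 1 44 (.leaf 12) (.bis 2 7
  2 1 45 (.leaf 38) (.bis 2 4 4 1 56 (.leaf 5) (.leaf 109)))) (.bis 1 7 2 1 31 (.bis 2 7 2 1 45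
  (.leaf 38) (.bis 2 4 4 1 56 (.leaf 5) (.bis 2 5 4 1 51 (.leaf 5) (.leaf 6)))) (.bis 1 4 4 1 55
  (.bis 2 4 4 1 56 (.leaf 5) (.bis 2 5 4 1 51 (.leaf 5) (.leaf 6))) (.bis 1 5 4 1 50 (.bis 2 5 4
  1 51 (.leaf 5) (.bis 2 3 4 1 46 (.leaf 5) (.leaf 6))) (.bis 1 2 1 1 47 (.bis 2 3 4 1 46 (.leaf
  6) (.leaf 6)) (.leaf 6))))))))) (.bis 1 4 2 1 35 (.bis 0 4 1 1 22 (.bis 2 4 1 2 54 (.bis 4 5 1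
  1 36 (.leaf 12) (.leaf 19)) (.bis 2 5 1 2 49 (.leaf 12) (.leaf 12))) (.bis 0 5 1 1 25 (.bis 2 5
  1 2 49 (.leaf 12) (.bis 2 6 1 1 52 (.leaf 12) (.leaf 12))) (.bis 0 3 1 1 57 (.bis 2 6 1 1 52
  (.leaf 12) (.leaf 12)) (.leaf 30)))) (.bis 1 5 2 1 34 (.bis 0 5 1 1 25 (.bis 2 5 1 2 49 (.leaf
  12) (.leaf 12)) (.bis 0 3 1 1 57 (.leaf 12) (.leaf 30))) (.bis 0 1 1 2 33 (.bis 1 3 2 1 32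
  (.leaf 30) (.bis 1 6 4 1 27 (.leaf 3) (.bis 1 7 2 1 31 (.leaf 3) (.leaf 9)))) (.bis 0 3 1 1 57
  (.leaf 30) (.leaf 30)))))))) (.bis 0 3 1 2 58 (.bis 3 6 1 1 59 (.bis 4 6 1 2 16 (.bis 5 6 1 2
  17 (.bis 2 6 1 1 39 (.bis 6 7 2 1 19 (.bis 1 7 2 1 32 (.leaf 38) (.bis 1 4 4 1 27 (.leaf 3)
  (.bis 1 5 4 1 28 (.leaf 3) (.bis 1 6 4 1 30 (.leaf 3) (.leaf 6))))) (.bis 0 6 1 4 60 (.bis 1 6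
  1 1 26 (.leaf 39) (.bis 1 4 4 1 27 (.leaf 3) (.bis 1 5 4 1 28 (.leaf 3) (.bis 1 7 4 1 30 (.leaf
  3) (.leaf 9))))) (.bis 1 4 4 1 27 (.leaf 3) (.bis 1 5 4 1 28 (.leaf 3) (.bis 1 7 4 1 30 (.leaf
  3) (.leaf 6)))))) (.bis 2 4 4 1 42 (.bis 1 7 2 1 32 (.leaf 38) (.bis 1 4 4 1 27 (.leaf 3) (.bis
  1 5 4 1 28 (.leaf 3) (.leaf 6)))) (.bis 2 5 4 1 43 (.bis 1 7 2 1 32 (.leaf 38) (.bis 1 5 4 1 28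
  (.leaf 3) (.bis 0 1 1 4 61 (.leaf 6) (.leaf 3)))) (.bis 1 7 2 1 32 (.bis 2 7 2 1 44 (.leaf 38)
  (.bis 0 2 1 4 62 (.leaf 6) (.leaf 6))) (.bis 1 2 1 1 47 (.bis 0 2 1 4 62 (.leaf 6) (.leaf 6))
  (.leaf 6)))))) (.bis 2 5 2 1 48 (.bis 1 5 2 1 34 (.bis 3 5 1 1 63 (.bis 0 5 1 2 64 (.leaf 12)
  (.leaf 12)) (.bis 3 7 1 1 65 (.leaf 12) (.leaf 3))) (.bis 1 7 2 1 32 (.bis 3 7 1 1 65 (.leaf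
  12) (.leaf 3)) (.bis 1 4 4 1 27 (.leaf 3) (.bis 1 6 4 1 28 (.leaf 3) (.bis 1 2 4 1 50 (.leaf 3)
  (.leaf 9)))))) (.bis 2 4 4 1 42 (.bis 1 7 2 1 32 (.leaf 38) (.bis 1 4 4 1 27 (.leaf 3) (.bis 1
  6 4 1 28 (.leaf 3) (.bis 1 5 4 1 50 (.leaf 2) (.leaf 6))))) (.bis 2 6 4 1 43 (.bis 1 7 2 1 32
  (.leaf 38) (.bis 1 6 4 1 28 (.leaf 3) (.bis 1 5 4 1 50 (.leaf 2) (.bis 0 1 1 4 61 (.leaf 6)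
  (.leaf 2))))) (.bis 1 7 2 1 32 (.bis 2 7 2 1 44 (.leaf 38) (.bis 2 5 4 1 51 (.leaf 2) (.bis 0 2
  1 4 62 (.leaf 2) (.leaf 2)))) (.bis 1 5 4 1 50 (.bis 2 5 4 1 51 (.leaf 2) (.bis 0 2 1 4 62
  (.leaf 2) (.leaf 2))) (.bis 1 2 1 1 47 (.bis 0 2 1 4 62 (.leaf 2) (.leaf 2)) (.leaf 6))))))))
  (.bis 2 4 2 1 53 (.bis 1 4 2 1 35 (.bis 3 4 1 1 66 (.bis 0 4 1 2 67 (.bis 4 5 1 1 36 (.bis 5 6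
  2 1 68 (.leaf 12) (.leaf 12)) (.leaf 19)) (.bis 0 5 1 2 64 (.bis 5 6 2 1 68 (.leaf 12) (.leaf
  12)) (.leaf 12))) (.bis 3 5 1 1 63 (.bis 0 5 1 2 64 (.leaf 12) (.leaf 12)) (.bis 3 7 1 1 65
  (.leaf 12) (.leaf 3)))) (.bis 1 5 2 1 34 (.bis 3 5 1 1 63 (.leaf 12) (.bis 3 7 1 1 65 (.leaf
  12) (.leaf 3))) (.bis 1 7 2 1 32 (.bis 3 7 1 1 65 (.leaf 12) (.leaf 3)) (.bis 1 6 4 1 27 (.leaf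
  3) (.bis 1 2 4 1 55 (.leaf 3) (.bis 1 4 4 1 37 (.leaf 3) (.leaf 9))))))) (.bis 2 5 2 1 48 (.bis
  1 5 2 1 34 (.bis 3 5 1 1 63 (.leaf 12) (.bis 3 7 1 1 65 (.leaf 12) (.leaf 3))) (.bis 1 7 2 1 32
  (.bis 3 7 1 1 65 (.leaf 12) (.leaf 3)) (.bis 1 6 4 1 27 (.leaf 3) (.bis 1 2 4 1 50 (.leaf 3)
  (.bis 1 4 4 1 55 (.leaf 3) (.leaf 9)))))) (.bis 2 6 4 1 42 (.bis 1 7 2 1 32 (.leaf 38) (.bis 1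
  6 4 1 27 (.leaf 3) (.bis 1 4 4 1 55 (.leaf 2) (.bis 1 5 4 1 50 (.leaf 2) (.leaf 6))))) (.bis 1
  7 2 1 32 (.bis 2 7 2 1 44 (.leaf 38) (.bis 2 4 4 1 56 (.leaf 2) (.bis 2 5 4 1 51 (.leaf 2)
  (.leaf 2)))) (.bis 1 4 4 1 55 (.bis 2 4 4 1 56 (.leaf 2) (.bis 2 5 4 1 51 (.leaf 2) (.leaf 2)))
  (.bis 1 5 4 1 50 (.bis 2 5 4 1 51 (.leaf 2) (.bis 0 2 1 4 62 (.leaf 2) (.leaf 2))) (.bis 1 2 1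
  1 47 (.bis 0 2 1 4 62 (.leaf 2) (.leaf 2)) (.leaf 6))))))))) (.bis 3 4 2 1 69 (.bis 2 4 2 1 53
  (.bis 1 4 2 1 35 (.bis 4 6 1 1 66 (.bis 5 6 1 1 63 (.bis 6 7 1 1 65 (.leaf 19) (.leaf 5)) (.bis
  0 5 1 2 64 (.leaf 33) (.leaf 19))) (.bis 0 4 1 2 67 (.bis 4 5 1 1 36 (.bis 3 5 1 2 70 (.leaf
  12) (.leaf 19)) (.leaf 19)) (.bis 0 5 1 2 64 (.bis 3 5 1 2 70 (.leaf 12) (.leaf 19)) (.leaf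
  19)))) (.bis 1 5 2 1 34 (.bis 5 6 1 1 63 (.bis 6 7 1 1 65 (.leaf 19) (.leaf 5)) (.bis 0 5 1 2
  64 (.leaf 33) (.leaf 19))) (.bis 1 7 2 1 32 (.bis 6 7 1 1 65 (.leaf 19) (.leaf 5)) (.bis 1 3 4
  1 71 (.leaf 5) (.bis 1 2 4 1 55 (.leaf 3) (.bis 1 4 4 1 37 (.leaf 3) (.leaf 9))))))) (.bis 2 5
  2 1 48 (.bis 1 5 2 1 34 (.bis 5 6 1 1 63 (.bis 6 7 1 1 65 (.leaf 19) (.leaf 5)) (.leaf 33))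
  (.bis 1 7 2 1 32 (.bis 6 7 1 1 65 (.leaf 19) (.leaf 5)) (.bis 1 3 4 1 71 (.leaf 5) (.bis 1 2 4
  1 50 (.leaf 3) (.bis 1 4 4 1 55 (.leaf 3) (.leaf 9)))))) (.bis 1 7 2 1 32 (.bis 2 7 2 1 44
  (.leaf 50) (.bis 2 3 4 1 72 (.leaf 5) (.bis 2 4 4 1 56 (.leaf 2) (.bis 2 5 4 1 51 (.leaf 2)
  (.leaf 2))))) (.bis 1 3 4 1 71 (.bis 2 3 4 1 72 (.leaf 5) (.bis 2 4 4 1 56 (.leaf 2) (.bis 2 5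
  4 1 51 (.leaf 2) (.leaf 2)))) (.bis 1 4 4 1 55 (.bis 2 4 4 1 56 (.leaf 2) (.bis 2 5 4 1 51
  (.leaf 2) (.bis 0 2 1 4 62 (.leaf 2) (.leaf 2)))) (.bis 1 5 4 1 50 (.bis 2 5 4 1 51 (.leaf 2)
  (.bis 0 2 1 4 62 (.leaf 2) (.leaf 2))) (.bis 1 2 1 1 47 (.bis 0 2 1 4 62 (.leaf 2) (.leaf 2))
  (.leaf 6)))))))) (.bis 3 5 2 1 73 (.bis 2 5 2 1 48 (.bis 1 5 2 1 34 (.bis 5 6 1 1 63 (.bis 6 7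
  1 1 65 (.leaf 33) (.leaf 5)) (.leaf 33)) (.bis 1 7 2 1 32 (.bis 6 7 1 1 65 (.leaf 33) (.leaf
  5)) (.bis 1 3 4 1 74 (.leaf 5) (.bis 1 4 4 1 71 (.leaf 5) (.bis 1 2 4 1 50 (.leaf 3) (.bis 1 5
  4 1 75 (.leaf 3) (.leaf 6))))))) (.bis 1 7 2 1 32 (.bis 2 7 2 1 44 (.leaf 50) (.bis 2 3 4 1 76
  (.leaf 5) (.bis 2 4 4 1 72 (.leaf 5) (.bis 2 5 4 1 51 (.leaf 2) (.leaf 2))))) (.bis 1 3 4 1 74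
  (.bis 2 3 4 1 76 (.leaf 5) (.bis 2 4 4 1 72 (.leaf 5) (.bis 2 5 4 1 51 (.leaf 2) (.bis 0 2 1 4
  62 (.leaf 2) (.leaf 2))))) (.bis 1 4 4 1 71 (.bis 2 4 4 1 72 (.leaf 5) (.bis 2 5 4 1 51 (.leaf
  2) (.bis 0 2 1 4 62 (.leaf 2) (.leaf 2)))) (.bis 1 5 4 1 50 (.bis 2 5 4 1 51 (.leaf 2) (.bis 0
  2 1 4 62 (.bis 2 7 4 1 46 (.leaf 2) (.leaf 2)) (.leaf 2))) (.bis 1 2 1 1 47 (.bis 0 2 1 4 62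
  (.leaf 2) (.leaf 2)) (.leaf 6))))))) (.bis 1 3 1 1 77 (.bis 3 7 2 1 78 (.bis 2 7 2 1 44 (.leaf
  99) (.bis 2 4 4 1 72 (.leaf 4) (.bis 2 5 4 1 76 (.leaf 4) (.bis 2 3 4 1 79 (.leaf 4) (.leaf
  2))))) (.bis 2 4 4 1 72 (.bis 0 3 1 4 80 (.bis 3 4 4 1 81 (.leaf 4) (.bis 3 5 4 1 82 (.leaf 4)
  (.leaf 36))) (.leaf 4)) (.bis 2 5 4 1 76 (.bis 0 3 1 4 80 (.bis 3 5 4 1 82 (.leaf 4) (.bis 3 6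
  2 1 83 (.leaf 4) (.leaf 7))) (.leaf 4)) (.bis 2 3 1 1 84 (.bis 0 3 1 4 80 (.bis 3 6 2 1 83
  (.leaf 4) (.leaf 7)) (.leaf 4)) (.leaf 45))))) (.bis 1 7 2 1 32 (.bis 2 7 2 1 44 (.leaf 99)
  (.bis 2 4 4 1 72 (.leaf 5) (.bis 2 5 4 1 76 (.leaf 5) (.leaf 2)))) (.bis 1 4 4 1 71 (.bis 2 4 4
  1 72 (.leaf 5) (.bis 2 5 4 1 76 (.leaf 5) (.bis 0 2 1 4 62 (.leaf 2) (.leaf 2)))) (.bis 1 5 4 1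
  74 (.bis 2 5 4 1 76 (.leaf 5) (.bis 0 2 1 4 62 (.leaf 2) (.leaf 2))) (.bis 1 2 1 1 47 (.bis 0 2
  1 4 62 (.leaf 2) (.leaf 2)) (.leaf 6))))))))) (.bis 4 6 1 2 16 (.bis 5 6 1 2 17 (.bis 0 2 1 2
  38 (.bis 2 6 1 1 39 (.bis 6 7 2 1 19 (.bis 1 7 2 1 32 (.leaf 38) (.bis 1 4 4 1 27 (.leaf 3)
  (.bis 1 5 4 1 28 (.leaf 3) (.leaf 9)))) (.bis 3 6 1 4 60 (.bis 0 6 1 4 40 (.bis 1 6 1 1 26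
  (.leaf 39) (.bis 1 4 4 1 27 (.leaf 3) (.bis 1 5 4 1 28 (.leaf 3) (.bis 1 7 4 1 30 (.leaf 3)
  (.leaf 9))))) (.bis 1 4 4 1 27 (.leaf 3) (.bis 1 5 4 1 28 (.leaf 3) (.bis 1 7 4 1 30 (.leaf 3)
  (.leaf 9))))) (.bis 1 4 4 1 27 (.leaf 3) (.bis 1 5 4 1 28 (.leaf 3) (.bis 1 7 4 1 30 (.leaf 3)
  (.leaf 6)))))) (.bis 2 4 4 1 42 (.bis 1 7 2 1 32 (.leaf 38) (.bis 1 4 4 1 27 (.leaf 3) (.bis 1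
  5 4 1 28 (.leaf 3) (.leaf 6)))) (.bis 2 5 4 1 43 (.bis 1 7 2 1 32 (.leaf 38) (.bis 1 5 4 1 28
  (.leaf 3) (.leaf 6))) (.bis 1 7 2 1 32 (.bis 2 7 2 1 44 (.leaf 38) (.bis 2 3 4 1 62 (.leaf 6)
  (.leaf 6))) (.bis 1 2 1 1 47 (.leaf 6) (.leaf 6)))))) (.bis 0 6 1 2 18 (.bis 6 7 2 1 19 (.bis 1
  7 2 1 32 (.leaf 30) (.bis 1 4 4 1 27 (.leaf 3) (.bis 1 5 4 1 28 (.leaf 3) (.bis 0 1 1 4 29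
  (.leaf 9) (.leaf 3))))) (.bis 3 6 1 4 60 (.bis 2 6 1 4 40 (.bis 1 6 1 1 26 (.leaf 39) (.bis 1 4
  4 1 27 (.leaf 3) (.bis 1 5 4 1 28 (.leaf 3) (.bis 0 1 1 4 29 (.leaf 9) (.leaf 3))))) (.bis 1 4
  4 1 27 (.leaf 3) (.bis 1 5 4 1 28 (.leaf 3) (.bis 0 1 1 4 29 (.bis 1 7 4 1 30 (.leaf 3) (.leaf
  9)) (.leaf 3))))) (.bis 1 4 4 1 27 (.leaf 3) (.bis 1 5 4 1 28 (.leaf 3) (.bis 0 1 1 4 29 (.bis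
  1 7 4 1 30 (.leaf 3) (.leaf 6)) (.leaf 3)))))) (.bis 0 1 1 2 33 (.bis 1 7 2 1 32 (.leaf 30)
  (.bis 1 4 4 1 27 (.leaf 3) (.bis 1 5 4 1 28 (.leaf 3) (.leaf 47)))) (.leaf 30)))) (.bis 0 2 1 2
  38 (.bis 2 5 2 1 48 (.bis 1 5 2 1 34 (.bis 0 5 1 2 49 (.bis 3 5 1 2 64 (.leaf 12) (.leaf 12))
  (.leaf 12)) (.bis 1 7 2 1 32 (.leaf 12) (.bis 1 4 4 1 27 (.leaf 3) (.bis 1 6 4 1 28 (.leaf 3)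
  (.bis 1 2 4 1 50 (.leaf 3) (.leaf 9)))))) (.bis 2 4 4 1 42 (.bis 1 7 2 1 32 (.leaf 12) (.bis 1
  4 4 1 27 (.leaf 3) (.bis 1 6 4 1 28 (.leaf 3) (.bis 1 5 4 1 50 (.leaf 3) (.leaf 6))))) (.bis 2
  6 4 1 43 (.bis 1 7 2 1 32 (.leaf 12) (.bis 1 6 4 1 28 (.leaf 3) (.bis 1 5 4 1 50 (.leaf 3)
  (.bis 1 3 4 1 61 (.leaf 3) (.leaf 6))))) (.bis 1 7 2 1 32 (.bis 2 7 2 1 44 (.leaf 12) (.bis 2 5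
  4 1 51 (.leaf 5) (.bis 2 3 4 1 62 (.leaf 5) (.leaf 6)))) (.bis 1 5 4 1 50 (.bis 2 5 4 1 51
  (.leaf 5) (.bis 2 3 4 1 62 (.leaf 5) (.leaf 6))) (.bis 1 2 1 1 47 (.bis 2 3 4 1 62 (.leaf 6)
  (.leaf 6)) (.leaf 6))))))) (.bis 1 5 2 1 34 (.bis 0 5 1 1 25 (.bis 2 5 1 2 49 (.bis 3 5 1 2 64
  (.leaf 12) (.bis 3 4 1 1 85 (.leaf 12) (.leaf 12))) (.leaf 12)) (.bis 0 7 1 1 57 (.leaf 12)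
  (.leaf 30))) (.bis 0 1 1 2 33 (.bis 1 7 2 1 32 (.leaf 30) (.bis 1 4 4 1 27 (.leaf 3) (.bis 1 6
  4 1 28 (.leaf 3) (.leaf 9)))) (.bis 0 7 1 1 57 (.leaf 30) (.leaf 30)))))) (.bis 0 2 1 2 38
  (.bis 2 4 2 1 53 (.bis 1 4 2 1 35 (.bis 0 4 1 2 54 (.bis 3 4 1 2 67 (.bis 4 5 1 1 36 (.bis 5 6
  2 1 68 (.leaf 12) (.leaf 12)) (.leaf 19)) (.bis 3 5 1 2 64 (.bis 5 6 2 1 68 (.leaf 12) (.leaf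
  12)) (.leaf 12))) (.bis 0 5 1 2 49 (.bis 3 5 1 2 64 (.leaf 12) (.leaf 12)) (.leaf 12))) (.bis 1
  5 2 1 34 (.bis 0 5 1 2 49 (.leaf 12) (.leaf 12)) (.bis 1 7 2 1 32 (.leaf 12) (.bis 1 6 4 1 27
  (.leaf 3) (.bis 1 2 4 1 55 (.leaf 3) (.bis 1 4 4 1 37 (.leaf 3) (.leaf 9))))))) (.bis 2 5 2 1
  48 (.bis 1 5 2 1 34 (.bis 0 5 1 2 49 (.leaf 12) (.leaf 12)) (.bis 1 7 2 1 32 (.leaf 12) (.bis 1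
  6 4 1 27 (.leaf 3) (.bis 1 2 4 1 50 (.leaf 3) (.bis 1 4 4 1 55 (.leaf 3) (.leaf 9)))))) (.bis 2
  6 4 1 42 (.bis 1 7 2 1 32 (.leaf 12) (.bis 1 6 4 1 27 (.leaf 3) (.bis 1 4 4 1 55 (.leaf 3)
  (.bis 1 5 4 1 50 (.leaf 3) (.leaf 6))))) (.bis 1 7 2 1 32 (.bis 2 7 2 1 44 (.leaf 12) (.bis 2 4
  4 1 56 (.leaf 5) (.bis 2 5 4 1 51 (.leaf 5) (.leaf 6)))) (.bis 1 4 4 1 55 (.bis 2 4 4 1 56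
  (.leaf 5) (.bis 2 5 4 1 51 (.leaf 5) (.leaf 6))) (.bis 1 5 4 1 50 (.bis 2 5 4 1 51 (.leaf 5)
  (.bis 2 3 4 1 62 (.leaf 5) (.leaf 6))) (.bis 1 2 1 1 47 (.bis 2 3 4 1 62 (.leaf 6) (.leaf 6))
  (.leaf 6)))))))) (.bis 1 4 2 1 35 (.bis 0 4 1 1 22 (.bis 2 4 1 2 54 (.bis 3 4 1 2 67 (.bis 4 5
  1 1 36 (.leaf 12) (.leaf 19)) (.bis 3 5 1 2 64 (.leaf 12) (.leaf 12))) (.bis 2 5 1 2 49 (.bis 3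
  5 1 2 64 (.leaf 12) (.leaf 12)) (.leaf 12))) (.bis 0 5 1 1 25 (.bis 2 5 1 2 49 (.bis 3 5 1 2 64
  (.leaf 12) (.bis 3 6 1 1 85 (.leaf 12) (.leaf 12))) (.leaf 12)) (.leaf 30))) (.bis 1 5 2 1 34
  (.bis 0 5 1 1 25 (.leaf 12) (.bis 0 7 1 1 57 (.leaf 12) (.leaf 30))) (.bis 0 1 1 2 33 (.bis 1 7
  2 1 32 (.leaf 30) (.bis 1 6 4 1 27 (.leaf 3) (.bis 1 4 4 1 37 (.leaf 3) (.leaf 9)))) (.bis 0 7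
  1 1 57 (.leaf 30) (.leaf 30)))))))))

def lc0 : List Vr := [⟨[60,0,0,0,0,0,0,71], 48480, 0⟩, ⟨[0,24,0,0,0,0,0,0], 13824, 0⟩, ⟨[0,0,27,0,
  0,0,0,0], 14580, 0⟩, ⟨[0,0,0,30,0,0,0,0], 14400, 0⟩, ⟨[0,0,0,0,85,0,0,121], 96730, 0⟩, ⟨[0,0,0,
  0,0,85,0,121], 96730, 0⟩, ⟨[0,0,0,0,0,0,42,0], 14112, 0⟩, ⟨[0,0,0,0,0,0,0,1], 0, 0⟩]

theorem lk0 : chkTr lowT (leafLow 4 lowB) lt0 lc0 = true := by decide +kernel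

def lt1 : Tr ℕ := (.bis 3 7 2 1 58 (.bis 4 6 1 2 16 (.bis 5 6 1 2 17 (.bis 2 7 2 1 38 (.bis 6 7 2
  1 18 (.bis 1 7 2 1 33 (.leaf 30) (.bis 1 4 4 1 27 (.leaf 3) (.bis 1 5 4 1 28 (.leaf 3) (.bis 0
  1 1 4 87 (.leaf 47) (.leaf 3))))) (.bis 0 6 1 4 88 (.bis 3 6 1 4 60 (.bis 2 6 1 4 40 (.bis 1 6
  1 1 26 (.leaf 39) (.bis 1 4 4 1 27 (.leaf 3) (.bis 1 5 4 1 28 (.leaf 3) (.bis 1 7 4 1 29 (.leaf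
  3) (.leaf 9))))) (.bis 1 4 4 1 27 (.leaf 3) (.bis 1 5 4 1 28 (.leaf 3) (.bis 1 7 4 1 29 (.leaf
  3) (.leaf 9))))) (.bis 1 4 4 1 27 (.leaf 3) (.bis 1 5 4 1 28 (.leaf 3) (.bis 1 7 4 1 29 (.leaf
  3) (.leaf 9))))) (.bis 1 4 4 1 27 (.leaf 3) (.bis 1 5 4 1 28 (.leaf 3) (.bis 0 1 1 4 87 (.bis 1
  7 4 1 29 (.leaf 3) (.leaf 9)) (.leaf 3)))))) (.bis 2 6 1 1 39 (.bis 0 6 1 4 88 (.bis 3 6 1 4 60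
  (.bis 6 7 4 1 40 (.bis 1 4 4 1 27 (.leaf 3) (.bis 1 5 4 1 28 (.leaf 3) (.leaf 9))) (.bis 1 6 1
  1 26 (.leaf 39) (.bis 1 4 4 1 27 (.leaf 3) (.bis 1 5 4 1 28 (.leaf 3) (.leaf 9))))) (.bis 1 4 4
  1 27 (.leaf 3) (.bis 1 5 4 1 28 (.leaf 3) (.leaf 9)))) (.bis 1 4 4 1 27 (.leaf 3) (.bis 1 5 4 1
  28 (.leaf 3) (.bis 0 1 1 4 87 (.leaf 9) (.leaf 3))))) (.bis 2 4 4 1 42 (.bis 1 4 4 1 27 (.leaf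
  3) (.bis 1 5 4 1 28 (.leaf 3) (.bis 0 1 1 4 87 (.leaf 6) (.leaf 3)))) (.bis 2 5 4 1 43 (.bis 1
  5 4 1 28 (.leaf 3) (.bis 0 1 1 4 87 (.leaf 6) (.leaf 3))) (.bis 0 2 1 4 89 (.bis 1 2 1 1 47
  (.leaf 6) (.leaf 6)) (.bis 0 1 1 4 87 (.bis 1 3 4 1 61 (.leaf 3) (.leaf 6)) (.leaf 3)))))))
  (.bis 2 7 2 1 38 (.bis 1 5 2 1 34 (.bis 5 7 1 1 25 (.leaf 30) (.bis 0 5 1 2 90 (.bis 2 5 1 2 49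
  (.bis 3 5 1 2 64 (.leaf 12) (.bis 3 4 1 1 85 (.leaf 12) (.leaf 12))) (.leaf 12)) (.leaf 19)))
  (.bis 1 7 2 1 33 (.leaf 30) (.bis 1 4 4 1 27 (.leaf 3) (.bis 1 6 4 1 28 (.leaf 3) (.bis 0 1 1 4
  87 (.leaf 9) (.leaf 3)))))) (.bis 2 5 2 1 48 (.bis 1 5 2 1 34 (.bis 0 5 1 2 90 (.leaf 12)
  (.leaf 3)) (.bis 1 4 4 1 27 (.leaf 3) (.bis 1 6 4 1 28 (.leaf 3) (.bis 1 2 4 1 50 (.leaf 3)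
  (.bis 0 1 1 4 87 (.leaf 9) (.leaf 3)))))) (.bis 2 4 4 1 42 (.bis 1 4 4 1 27 (.leaf 3) (.bis 1 6
  4 1 28 (.leaf 3) (.bis 1 5 4 1 50 (.leaf 3) (.bis 0 1 1 4 87 (.leaf 6) (.leaf 3))))) (.bis 2 6
  4 1 43 (.bis 1 6 4 1 28 (.leaf 3) (.bis 1 5 4 1 50 (.leaf 3) (.bis 0 1 1 4 87 (.leaf 6) (.leaf
  3)))) (.bis 0 2 1 4 89 (.bis 1 5 4 1 50 (.bis 2 5 4 1 51 (.leaf 5) (.leaf 6)) (.bis 1 2 1 1 47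
  (.leaf 6) (.leaf 6))) (.bis 1 5 4 1 50 (.leaf 3) (.bis 0 1 1 4 87 (.bis 1 3 4 1 61 (.leaf 3)
  (.leaf 6)) (.leaf 3))))))))) (.bis 2 7 2 1 38 (.bis 1 4 2 1 35 (.bis 4 7 1 1 22 (.bis 5 7 1 1
  25 (.leaf 30) (.bis 0 5 1 2 90 (.bis 2 5 1 2 49 (.bis 3 5 1 2 64 (.leaf 12) (.leaf 12)) (.leaf
  12)) (.leaf 19))) (.bis 0 5 1 2 90 (.bis 2 4 1 2 54 (.bis 3 4 1 2 67 (.bis 4 5 1 1 36 (.leaf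
  12) (.leaf 19)) (.bis 3 5 1 2 64 (.leaf 12) (.leaf 12))) (.bis 2 5 1 2 49 (.bis 3 5 1 2 64
  (.leaf 12) (.leaf 12)) (.leaf 12))) (.leaf 19))) (.bis 1 5 2 1 34 (.bis 5 7 1 1 25 (.leaf 30)
  (.bis 0 5 1 2 90 (.leaf 12) (.leaf 19))) (.bis 1 7 2 1 33 (.bis 6 7 1 2 91 (.leaf 30) (.leaf
  3)) (.bis 1 6 4 1 27 (.leaf 3) (.bis 0 1 1 4 87 (.bis 1 4 4 1 37 (.leaf 3) (.leaf 9)) (.leaf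
  3)))))) (.bis 2 4 2 1 53 (.bis 1 4 2 1 35 (.bis 0 5 1 2 90 (.bis 4 7 2 1 54 (.bis 5 7 2 1 49
  (.leaf 3) (.bis 3 5 1 2 64 (.leaf 12) (.leaf 3))) (.bis 3 4 1 2 67 (.bis 4 5 1 1 36 (.bis 5 6 2
  1 68 (.leaf 12) (.leaf 12)) (.leaf 19)) (.bis 3 5 1 2 64 (.leaf 12) (.leaf 3)))) (.leaf 19))
  (.bis 1 5 2 1 34 (.bis 0 5 1 2 90 (.bis 5 7 2 1 49 (.leaf 3) (.leaf 12)) (.leaf 3)) (.bis 1 6 4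
  1 27 (.leaf 3) (.bis 1 2 4 1 55 (.leaf 3) (.bis 0 1 1 4 87 (.bis 1 4 4 1 37 (.leaf 3) (.leaf
  9)) (.leaf 3)))))) (.bis 2 5 2 1 48 (.bis 1 5 2 1 34 (.bis 0 5 1 2 90 (.bis 5 7 2 1 49 (.leaf
  3) (.leaf 12)) (.leaf 3)) (.bis 1 6 4 1 27 (.leaf 3) (.bis 1 2 4 1 50 (.leaf 3) (.bis 1 4 4 1
  55 (.leaf 3) (.bis 0 1 1 4 87 (.leaf 9) (.leaf 3)))))) (.bis 2 6 4 1 42 (.bis 1 6 4 1 27 (.leaf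
  3) (.bis 1 4 4 1 55 (.leaf 3) (.bis 1 5 4 1 50 (.leaf 3) (.bis 0 1 1 4 87 (.leaf 6) (.leaf
  3))))) (.bis 0 2 1 4 89 (.bis 1 4 4 1 55 (.bis 2 4 4 1 56 (.leaf 5) (.bis 2 5 4 1 51 (.leaf 5)
  (.leaf 6))) (.bis 1 5 4 1 50 (.bis 2 5 4 1 51 (.leaf 5) (.leaf 6)) (.bis 1 2 1 1 47 (.leaf 6)
  (.leaf 6)))) (.bis 1 4 4 1 55 (.leaf 3) (.bis 1 5 4 1 50 (.leaf 3) (.bis 0 1 1 4 87 (.leaf 6)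
  (.leaf 3)))))))))) (.bis 3 6 1 1 59 (.bis 4 6 1 2 16 (.bis 5 6 1 2 17 (.bis 2 6 1 1 39 (.bis 0
  6 1 4 88 (.bis 6 7 4 1 60 (.bis 1 4 4 1 27 (.leaf 3) (.bis 1 5 4 1 28 (.leaf 3) (.bis 1 7 4 1
  61 (.leaf 3) (.leaf 9)))) (.bis 1 6 1 1 26 (.leaf 39) (.bis 1 4 4 1 27 (.leaf 3) (.bis 1 5 4 1
  28 (.leaf 3) (.leaf 9))))) (.bis 1 4 4 1 27 (.leaf 3) (.bis 1 5 4 1 28 (.leaf 3) (.bis 0 1 1 4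
  87 (.leaf 9) (.leaf 3))))) (.bis 2 4 4 1 42 (.bis 1 4 4 1 27 (.leaf 3) (.bis 1 5 4 1 28 (.leaf
  3) (.bis 0 1 1 4 87 (.leaf 6) (.leaf 3)))) (.bis 2 5 4 1 43 (.bis 1 5 4 1 28 (.bis 0 6 1 2 92
  (.leaf 3) (.leaf 3)) (.bis 0 1 1 4 87 (.leaf 6) (.leaf 3))) (.bis 0 2 1 4 89 (.bis 1 2 1 1 47
  (.leaf 6) (.leaf 6)) (.bis 0 1 1 4 87 (.bis 1 7 4 1 61 (.leaf 3) (.leaf 6)) (.leaf 3))))))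
  (.bis 2 5 2 1 48 (.bis 1 5 2 1 34 (.bis 3 5 1 1 63 (.bis 0 5 1 2 90 (.bis 5 7 2 1 64 (.leaf 3)
  (.leaf 12)) (.leaf 3)) (.bis 0 3 1 2 93 (.leaf 3) (.leaf 3))) (.bis 1 4 4 1 27 (.leaf 3) (.bis
  1 6 4 1 28 (.leaf 3) (.bis 1 2 4 1 50 (.leaf 3) (.bis 0 1 1 4 87 (.leaf 9) (.leaf 3)))))) (.bis
  2 4 4 1 42 (.bis 1 4 4 1 27 (.leaf 3) (.bis 1 6 4 1 28 (.leaf 3) (.bis 1 5 4 1 50 (.leaf 3)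
  (.bis 0 1 1 4 87 (.leaf 6) (.leaf 3))))) (.bis 2 6 4 1 43 (.bis 1 6 4 1 28 (.leaf 3) (.bis 1 5
  4 1 50 (.leaf 3) (.bis 0 1 1 4 87 (.leaf 6) (.leaf 3)))) (.bis 0 2 1 4 89 (.bis 1 5 4 1 50
  (.bis 2 5 4 1 51 (.leaf 2) (.leaf 2)) (.bis 1 2 1 1 47 (.leaf 2) (.leaf 6))) (.bis 1 5 4 1 50
  (.leaf 3) (.bis 0 1 1 4 87 (.bis 1 7 4 1 61 (.leaf 3) (.leaf 6)) (.leaf 3)))))))) (.bis 2 4 2 1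
  53 (.bis 1 4 2 1 35 (.bis 3 4 1 1 66 (.bis 0 5 1 2 90 (.bis 4 7 2 1 67 (.bis 5 7 2 1 64 (.leaf
  3) (.bis 5 6 2 1 68 (.leaf 3) (.leaf 12))) (.bis 4 5 1 1 36 (.bis 5 6 2 1 68 (.leaf 12) (.leaf
  12)) (.leaf 19))) (.leaf 19)) (.bis 3 5 1 1 63 (.bis 0 5 1 2 90 (.bis 5 7 2 1 64 (.leaf 3)
  (.leaf 12)) (.leaf 3)) (.bis 0 3 1 2 93 (.leaf 3) (.leaf 3)))) (.bis 1 5 2 1 34 (.bis 3 5 1 1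
  63 (.bis 0 5 1 2 90 (.leaf 12) (.leaf 3)) (.bis 0 3 1 2 93 (.leaf 3) (.leaf 3))) (.bis 1 6 4 1
  27 (.bis 0 3 1 2 93 (.leaf 3) (.leaf 3)) (.bis 1 2 4 1 55 (.leaf 3) (.bis 0 1 1 4 87 (.bis 1 4
  4 1 37 (.leaf 3) (.leaf 9)) (.leaf 3)))))) (.bis 2 5 2 1 48 (.bis 1 5 2 1 34 (.bis 3 5 1 1 63
  (.bis 0 5 1 2 90 (.leaf 12) (.leaf 3)) (.bis 0 3 1 2 93 (.leaf 3) (.leaf 3))) (.bis 1 6 4 1 27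
  (.leaf 3) (.bis 1 2 4 1 50 (.leaf 3) (.bis 1 4 4 1 55 (.leaf 3) (.bis 0 1 1 4 87 (.leaf 9)
  (.leaf 3)))))) (.bis 2 6 4 1 42 (.bis 1 6 4 1 27 (.leaf 3) (.bis 1 4 4 1 55 (.leaf 3) (.bis 1 5
  4 1 50 (.leaf 3) (.bis 0 1 1 4 87 (.leaf 6) (.leaf 3))))) (.bis 0 2 1 4 89 (.bis 1 4 4 1 55
  (.bis 2 4 4 1 56 (.leaf 2) (.bis 2 5 4 1 51 (.leaf 2) (.leaf 2))) (.bis 1 5 4 1 50 (.bis 2 5 4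
  1 51 (.leaf 2) (.leaf 2)) (.bis 1 2 1 1 47 (.leaf 2) (.leaf 6)))) (.bis 1 4 4 1 55 (.leaf 3)
  (.bis 1 5 4 1 50 (.leaf 3) (.bis 0 1 1 4 87 (.leaf 6) (.leaf 3))))))))) (.bis 3 4 2 1 69 (.bis
  2 4 2 1 53 (.bis 1 4 2 1 35 (.bis 4 6 1 1 66 (.bis 5 6 1 1 63 (.bis 0 6 1 2 93 (.leaf 5) (.leaf
  19)) (.bis 0 5 1 2 90 (.bis 5 7 2 1 64 (.leaf 19) (.leaf 33)) (.leaf 19))) (.bis 0 5 1 2 90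
  (.bis 4 7 2 1 67 (.bis 5 7 2 1 64 (.leaf 19) (.bis 3 5 1 2 70 (.leaf 12) (.leaf 19))) (.bis 4 5
  1 1 36 (.bis 3 5 1 2 70 (.leaf 12) (.leaf 19)) (.leaf 19))) (.leaf 19))) (.bis 1 5 2 1 34 (.bis
  5 6 1 1 63 (.bis 0 6 1 2 93 (.leaf 5) (.leaf 19)) (.bis 0 5 1 2 90 (.bis 5 7 2 1 64 (.leaf 19)
  (.leaf 33)) (.leaf 19))) (.bis 1 3 4 1 71 (.bis 0 6 1 2 93 (.leaf 5) (.leaf 19)) (.bis 1 2 4 1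
  55 (.leaf 3) (.bis 0 1 1 4 87 (.bis 1 4 4 1 37 (.leaf 3) (.leaf 9)) (.leaf 3)))))) (.bis 2 5 2
  1 48 (.bis 1 5 2 1 34 (.bis 5 6 1 1 63 (.bis 0 6 1 2 93 (.leaf 5) (.leaf 19)) (.bis 0 5 1 2 90
  (.leaf 33) (.leaf 19))) (.bis 1 3 4 1 71 (.leaf 50) (.bis 1 2 4 1 50 (.leaf 3) (.bis 1 4 4 1 55
  (.leaf 3) (.bis 0 1 1 4 87 (.leaf 9) (.leaf 3)))))) (.bis 1 3 4 1 71 (.bis 0 2 1 4 89 (.bis 2 3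
  4 1 72 (.leaf 5) (.bis 2 4 4 1 56 (.leaf 2) (.bis 2 5 4 1 51 (.leaf 2) (.leaf 2)))) (.leaf 22))
  (.bis 0 2 1 4 89 (.bis 1 4 4 1 55 (.bis 2 4 4 1 56 (.leaf 2) (.bis 2 5 4 1 51 (.leaf 2) (.leaf
  2))) (.bis 1 5 4 1 50 (.bis 2 5 4 1 51 (.leaf 2) (.bis 2 7 4 1 62 (.leaf 2) (.leaf 2))) (.bis 1
  2 1 1 47 (.leaf 2) (.leaf 6)))) (.bis 1 4 4 1 55 (.leaf 3) (.bis 1 5 4 1 50 (.leaf 3) (.bis 0 1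
  1 4 87 (.leaf 6) (.leaf 3)))))))) (.bis 3 5 2 1 73 (.bis 2 5 2 1 48 (.bis 1 5 2 1 34 (.bis 5 6
  1 1 63 (.bis 0 3 1 1 94 (.bis 1 4 1 1 95 (.bis 3 6 1 2 96 (.leaf 5) (.leaf 5)) (.bis 3 6 1 2 96
  (.leaf 3) (.leaf 5))) (.bis 0 6 1 2 93 (.leaf 5) (.leaf 19))) (.bis 0 5 1 2 90 (.leaf 33) (.bis
  0 3 1 1 94 (.leaf 5) (.leaf 19)))) (.bis 1 3 4 1 74 (.bis 0 3 1 1 94 (.leaf 5) (.leaf 50))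
  (.bis 1 4 4 1 71 (.leaf 50) (.bis 1 2 4 1 50 (.leaf 3) (.bis 0 1 1 4 87 (.leaf 9) (.leaf
  3)))))) (.bis 1 3 4 1 74 (.bis 0 2 1 4 89 (.bis 2 3 4 1 76 (.leaf 5) (.bis 2 4 4 1 72 (.leaf 5)
  (.bis 2 5 4 1 51 (.leaf 2) (.leaf 2)))) (.leaf 50)) (.bis 1 4 4 1 71 (.bis 0 2 1 4 89 (.bis 2 4
  4 1 72 (.leaf 5) (.bis 2 5 4 1 51 (.leaf 2) (.bis 2 7 4 1 62 (.leaf 2) (.leaf 2)))) (.leaf 22))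
  (.bis 0 2 1 4 89 (.bis 1 5 4 1 50 (.bis 2 5 4 1 51 (.leaf 2) (.bis 2 7 4 1 62 (.leaf 2) (.leaf
  2))) (.bis 1 2 1 1 47 (.bis 2 7 4 1 62 (.leaf 2) (.leaf 2)) (.leaf 6))) (.bis 1 5 4 1 50 (.leaf
  3) (.bis 0 1 1 4 87 (.leaf 6) (.leaf 3))))))) (.bis 0 3 1 4 97 (.bis 1 3 1 1 77 (.bis 2 4 4 1
  72 (.bis 3 7 4 1 80 (.leaf 4) (.bis 3 4 4 1 81 (.leaf 4) (.bis 3 5 4 1 82 (.leaf 4) (.leaf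
  36)))) (.bis 2 5 4 1 76 (.bis 3 7 4 1 80 (.leaf 4) (.bis 3 5 4 1 82 (.leaf 4) (.bis 3 6 2 1 83
  (.leaf 4) (.leaf 7)))) (.bis 2 3 1 1 84 (.bis 3 7 4 1 80 (.leaf 2) (.bis 3 6 2 1 83 (.leaf 2)
  (.leaf 7))) (.leaf 2)))) (.bis 1 4 4 1 71 (.bis 2 4 4 1 72 (.leaf 4) (.bis 2 5 4 1 76 (.leaf 4)
  (.bis 2 7 4 1 62 (.leaf 2) (.leaf 2)))) (.bis 1 5 4 1 74 (.bis 2 5 4 1 76 (.leaf 4) (.bis 2 7 4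
  1 62 (.leaf 2) (.leaf 2))) (.bis 0 1 1 8 98 (.bis 1 2 1 1 47 (.bis 2 7 4 1 62 (.leaf 2) (.leaf
  2)) (.leaf 6)) (.bis 2 7 4 1 62 (.leaf 2) (.bis 2 6 2 1 99 (.leaf 2) (.leaf 2))))))) (.bis 1 4
  4 1 71 (.bis 0 2 1 4 89 (.bis 2 4 4 1 72 (.leaf 4) (.bis 2 5 4 1 76 (.leaf 4) (.bis 2 7 4 1 62
  (.leaf 2) (.leaf 2)))) (.leaf 50)) (.bis 1 5 4 1 74 (.bis 0 2 1 4 89 (.bis 2 5 4 1 76 (.leaf 4)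
  (.bis 2 7 4 1 62 (.leaf 2) (.leaf 2))) (.leaf 38)) (.bis 0 2 1 4 89 (.bis 1 3 8 1 98 (.bis 2 7
  4 1 62 (.leaf 2) (.bis 2 6 2 1 99 (.leaf 2) (.leaf 2))) (.bis 1 2 1 1 47 (.bis 2 7 4 1 62
  (.leaf 2) (.leaf 2)) (.leaf 6))) (.bis 0 1 1 4 87 (.bis 1 3 8 1 98 (.leaf 3) (.leaf 6)) (.leaf
  3))))))))))

def lc1 : List Vr := [⟨[120,0,0,0,85,0,0,121], 392890, 0⟩, ⟨[0,24,0,0,0,0,0,0], 13824, 0⟩, ⟨[0,0,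
  27,0,0,0,0,0], 14580, 0⟩, ⟨[0,0,0,30,0,0,0,0], 14400, 0⟩, ⟨[0,0,0,0,85,0,0,121], 96730, 0⟩, ⟨[0,
  0,0,0,0,85,0,121], 96730, 0⟩, ⟨[0,0,0,0,0,0,42,0], 14112, 0⟩, ⟨[60,0,0,0,0,0,0,71], 48480, 0⟩]

theorem lk1 : chkTr lowT (leafLow 4 lowB) lt1 lc1 = true := by decide +kernel

def lt2 : Tr ℕ := (.bis 0 5 2 1 100 (.bis 3 7 2 1 58 (.bis 5 6 1 2 17 (.bis 2 7 2 1 38 (.bis 6 7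
  2 1 18 (.bis 1 7 2 1 33 (.leaf 30) (.bis 1 5 4 1 28 (.leaf 3) (.bis 0 1 1 4 101 (.bis 1 4 4 1
  87 (.leaf 3) (.leaf 47)) (.leaf 3)))) (.bis 0 6 1 4 102 (.bis 4 6 1 4 88 (.bis 3 6 1 4 60 (.bis
  2 6 1 4 40 (.bis 1 6 1 1 26 (.leaf 39) (.bis 1 5 4 1 28 (.leaf 3) (.bis 1 7 4 1 29 (.leaf 3)
  (.bis 0 1 1 8 103 (.leaf 9) (.leaf 3))))) (.bis 1 5 4 1 28 (.leaf 3) (.bis 1 7 4 1 29 (.leaf 3)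
  (.bis 0 1 1 8 103 (.leaf 9) (.leaf 3))))) (.bis 1 5 4 1 28 (.leaf 3) (.bis 1 7 4 1 29 (.leaf 3)
  (.bis 1 3 4 1 61 (.leaf 3) (.leaf 9))))) (.bis 1 5 4 1 28 (.leaf 3) (.bis 1 4 4 1 87 (.leaf 3)
  (.bis 1 7 4 1 29 (.leaf 3) (.leaf 9))))) (.bis 1 5 4 1 28 (.leaf 3) (.bis 0 1 1 4 101 (.bis 1 4
  4 1 87 (.leaf 3) (.leaf 47)) (.leaf 3))))) (.bis 2 6 1 1 39 (.bis 0 6 1 4 102 (.bis 4 6 1 4 88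
  (.bis 3 6 1 4 60 (.bis 6 7 4 1 40 (.bis 1 5 4 1 28 (.leaf 3) (.bis 0 1 1 8 103 (.leaf 9) (.leaf
  3))) (.bis 1 6 1 1 26 (.leaf 39) (.bis 1 5 4 1 28 (.leaf 3) (.bis 0 1 1 8 103 (.leaf 9) (.leaf
  3))))) (.bis 1 5 4 1 28 (.leaf 3) (.bis 1 3 4 1 61 (.leaf 3) (.leaf 9)))) (.bis 1 5 4 1 28
  (.leaf 3) (.bis 1 4 4 1 87 (.leaf 3) (.leaf 9)))) (.bis 1 5 4 1 28 (.leaf 3) (.bis 0 1 1 4 101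
  (.leaf 9) (.leaf 3)))) (.bis 2 5 4 1 43 (.bis 1 5 4 1 28 (.leaf 3) (.bis 0 1 1 4 101 (.leaf 9)
  (.leaf 3))) (.bis 0 2 1 4 104 (.bis 2 4 4 1 89 (.bis 1 4 4 1 87 (.leaf 3) (.leaf 6)) (.bis 1 2
  1 1 47 (.leaf 6) (.leaf 6))) (.bis 0 1 1 4 101 (.bis 1 4 4 1 87 (.leaf 3) (.leaf 6)) (.leaf
  3)))))) (.bis 2 7 2 1 38 (.bis 1 5 2 1 34 (.bis 5 7 1 1 25 (.leaf 30) (.bis 4 5 1 2 90 (.leaf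
  12) (.leaf 30))) (.bis 1 7 2 1 33 (.leaf 30) (.bis 1 6 4 1 28 (.leaf 3) (.bis 0 1 1 4 101 (.bis
  1 4 4 1 87 (.leaf 3) (.leaf 9)) (.leaf 3))))) (.bis 2 5 2 1 48 (.bis 1 5 2 1 34 (.bis 4 5 1 2
  90 (.leaf 12) (.leaf 3)) (.bis 1 6 4 1 28 (.leaf 3) (.bis 1 2 4 1 50 (.leaf 3) (.bis 0 1 1 4
  101 (.bis 1 4 4 1 87 (.leaf 3) (.leaf 9)) (.leaf 3))))) (.bis 2 6 4 1 43 (.bis 1 6 4 1 28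
  (.leaf 3) (.bis 1 5 4 1 50 (.leaf 3) (.bis 0 1 1 4 101 (.bis 1 4 4 1 87 (.leaf 3) (.leaf 6))
  (.leaf 3)))) (.bis 0 2 1 4 104 (.bis 2 4 4 1 89 (.bis 1 5 4 1 50 (.leaf 3) (.bis 1 4 4 1 87
  (.leaf 3) (.bis 1 3 4 1 61 (.leaf 3) (.leaf 6)))) (.bis 1 5 4 1 50 (.bis 2 5 4 1 51 (.leaf 5)
  (.leaf 6)) (.bis 1 2 1 1 47 (.leaf 6) (.leaf 6)))) (.bis 1 5 4 1 50 (.leaf 3) (.bis 0 1 1 4 101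
  (.bis 1 4 4 1 87 (.leaf 3) (.leaf 6)) (.leaf 3)))))))) (.bis 3 6 1 1 59 (.bis 5 6 1 2 17 (.bis
  2 6 1 1 39 (.bis 0 6 1 4 102 (.bis 4 6 1 4 88 (.bis 6 7 4 1 60 (.bis 1 5 4 1 28 (.leaf 3) (.bis
  1 7 4 1 61 (.leaf 3) (.leaf 9))) (.bis 1 6 1 1 26 (.leaf 39) (.bis 1 5 4 1 28 (.leaf 3) (.bis 1
  3 2 1 105 (.leaf 3) (.leaf 9))))) (.bis 1 5 4 1 28 (.leaf 3) (.bis 1 4 4 1 87 (.leaf 3) (.leaf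
  9)))) (.bis 1 5 4 1 28 (.leaf 3) (.bis 0 1 1 4 101 (.leaf 9) (.leaf 3)))) (.bis 2 5 4 1 43
  (.bis 1 5 4 1 28 (.leaf 3) (.bis 0 1 1 4 101 (.bis 1 4 4 1 87 (.leaf 3) (.leaf 6)) (.leaf 3)))
  (.bis 0 2 1 4 104 (.bis 2 4 4 1 89 (.bis 1 4 4 1 87 (.leaf 3) (.leaf 6)) (.bis 1 2 1 1 47
  (.leaf 6) (.leaf 6))) (.bis 0 1 1 4 101 (.bis 1 4 4 1 87 (.leaf 3) (.leaf 6)) (.leaf 3)))))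
  (.bis 2 5 2 1 48 (.bis 1 5 2 1 34 (.bis 3 5 1 1 63 (.bis 4 5 1 2 90 (.bis 5 7 2 1 64 (.leaf 3)
  (.leaf 12)) (.leaf 3)) (.bis 0 3 1 2 106 (.leaf 3) (.leaf 3))) (.bis 1 6 4 1 28 (.bis 0 3 1 2
  106 (.leaf 3) (.leaf 3)) (.bis 1 2 4 1 50 (.bis 0 3 1 2 106 (.leaf 3) (.leaf 3)) (.bis 0 1 1 4
  101 (.bis 1 4 4 1 87 (.leaf 3) (.leaf 9)) (.bis 0 3 1 2 106 (.leaf 3) (.leaf 3)))))) (.bis 2 6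
  4 1 43 (.bis 1 6 4 1 28 (.leaf 3) (.bis 1 5 4 1 50 (.leaf 3) (.bis 0 1 1 4 101 (.leaf 9) (.leaf
  3)))) (.bis 0 2 1 4 104 (.bis 2 4 4 1 89 (.bis 1 5 4 1 50 (.leaf 3) (.bis 1 4 4 1 87 (.leaf 3)
  (.leaf 6))) (.bis 1 5 4 1 50 (.bis 2 5 4 1 51 (.leaf 2) (.leaf 2)) (.bis 1 2 1 1 47 (.leaf 2)
  (.leaf 6)))) (.bis 1 5 4 1 50 (.leaf 3) (.bis 0 1 1 4 101 (.bis 1 4 4 1 87 (.leaf 3) (.leaf 6))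
  (.leaf 3))))))) (.bis 3 5 2 1 73 (.bis 2 5 2 1 48 (.bis 1 5 2 1 34 (.bis 5 6 1 1 63 (.bis 3 4 1
  1 94 (.bis 0 6 1 2 106 (.leaf 3) (.leaf 3)) (.bis 0 6 1 2 106 (.leaf 5) (.leaf 12))) (.bis 4 5
  1 2 90 (.leaf 12) (.leaf 38))) (.bis 1 3 4 1 74 (.bis 3 4 1 1 94 (.bis 0 6 1 2 106 (.leaf 3)
  (.leaf 3)) (.bis 0 6 1 2 106 (.leaf 5) (.leaf 12))) (.bis 1 2 4 1 50 (.bis 0 6 1 2 106 (.leaf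
  3) (.leaf 3)) (.bis 0 1 1 4 101 (.bis 1 4 4 1 87 (.leaf 3) (.leaf 9)) (.bis 0 6 1 2 106 (.leaf
  3) (.leaf 3)))))) (.bis 1 3 4 1 74 (.bis 0 2 1 4 104 (.bis 2 4 4 1 89 (.leaf 38) (.bis 2 3 4 1
  76 (.leaf 5) (.bis 2 5 4 1 51 (.leaf 2) (.leaf 2)))) (.leaf 38)) (.bis 0 2 1 4 104 (.bis 2 4 4
  1 89 (.bis 1 5 4 1 50 (.leaf 3) (.bis 1 4 4 1 87 (.leaf 3) (.leaf 6))) (.bis 1 5 4 1 50 (.bis 2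
  5 4 1 51 (.leaf 2) (.bis 2 7 4 1 62 (.leaf 2) (.leaf 2))) (.bis 1 2 1 1 47 (.leaf 2) (.leaf
  6)))) (.bis 1 5 4 1 50 (.leaf 3) (.bis 0 1 1 4 101 (.bis 1 4 4 1 87 (.leaf 3) (.leaf 6)) (.leaf
  3)))))) (.bis 0 3 1 4 107 (.bis 3 4 4 1 97 (.bis 1 5 4 1 74 (.bis 2 4 4 1 89 (.leaf 38) (.bis 2
  5 4 1 76 (.leaf 4) (.bis 2 7 4 1 62 (.leaf 2) (.bis 2 6 2 1 99 (.leaf 2) (.leaf 2))))) (.bis 2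
  4 4 1 89 (.bis 1 4 4 1 87 (.leaf 3) (.bis 0 1 1 8 108 (.bis 1 3 8 1 98 (.leaf 3) (.leaf 6))
  (.leaf 3))) (.bis 0 1 1 8 108 (.bis 1 3 8 1 98 (.bis 2 7 4 1 62 (.leaf 2) (.bis 2 6 2 1 99
  (.leaf 2) (.leaf 2))) (.bis 1 2 1 1 47 (.bis 2 7 4 1 62 (.leaf 2) (.leaf 2)) (.leaf 6))) (.bis
  2 7 4 1 62 (.leaf 2) (.bis 2 6 2 1 99 (.leaf 2) (.leaf 2)))))) (.bis 1 3 1 1 77 (.bis 2 5 4 1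
  76 (.bis 3 7 4 1 80 (.leaf 4) (.bis 3 5 4 1 82 (.leaf 4) (.bis 3 6 2 1 83 (.leaf 4) (.leaf
  7)))) (.bis 2 3 1 1 84 (.bis 3 7 4 1 80 (.leaf 2) (.bis 3 6 2 1 83 (.leaf 2) (.leaf 7))) (.bis
  2 7 4 1 62 (.leaf 2) (.leaf 2)))) (.bis 1 5 4 1 74 (.bis 2 5 4 1 76 (.leaf 4) (.bis 2 7 4 1 62
  (.leaf 2) (.bis 2 6 2 1 99 (.leaf 2) (.leaf 2)))) (.bis 0 1 1 8 108 (.bis 1 4 8 1 98 (.bis 2 7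
  4 1 62 (.leaf 2) (.bis 2 6 2 1 99 (.leaf 2) (.leaf 2))) (.bis 1 2 1 1 47 (.leaf 2) (.leaf 6)))
  (.bis 2 7 4 1 62 (.leaf 2) (.bis 2 6 2 1 99 (.leaf 2) (.leaf 2))))))) (.bis 1 5 4 1 74 (.bis 0
  2 1 4 104 (.bis 2 4 4 1 89 (.leaf 38) (.bis 2 5 4 1 76 (.leaf 4) (.bis 2 7 4 1 62 (.leaf 2)
  (.leaf 2)))) (.leaf 38)) (.bis 0 2 1 4 104 (.bis 2 4 4 1 89 (.bis 1 4 4 1 87 (.leaf 3) (.bis 1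
  3 8 1 108 (.leaf 3) (.leaf 6))) (.bis 1 3 8 1 108 (.bis 2 7 4 1 62 (.leaf 2) (.leaf 2)) (.bis 1
  2 1 1 47 (.leaf 2) (.leaf 6)))) (.bis 0 1 1 4 101 (.bis 1 4 4 1 87 (.leaf 3) (.bis 1 3 8 1 108
  (.leaf 3) (.leaf 6))) (.leaf 3)))))))) (.bis 0 3 1 1 109 (.bis 3 7 2 1 58 (.bis 2 7 2 1 38
  (.bis 0 6 1 2 110 (.bis 6 7 2 1 18 (.bis 1 7 2 1 33 (.leaf 71) (.bis 1 4 4 1 87 (.leaf 3) (.bis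
  1 5 4 1 101 (.leaf 3) (.leaf 47)))) (.bis 4 6 1 4 88 (.bis 5 6 1 4 102 (.bis 3 6 1 4 60 (.bis 2
  6 1 4 40 (.bis 1 6 1 1 26 (.leaf 39) (.bis 1 7 4 1 29 (.leaf 3) (.bis 1 4 8 1 111 (.leaf 3)
  (.leaf 9)))) (.bis 1 7 4 1 29 (.leaf 3) (.bis 1 4 8 1 111 (.leaf 3) (.leaf 9)))) (.bis 1 7 4 1
  29 (.leaf 3) (.bis 1 3 4 1 61 (.leaf 3) (.leaf 9)))) (.bis 1 5 4 1 101 (.leaf 3) (.bis 1 7 4 1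
  29 (.leaf 3) (.leaf 9)))) (.bis 1 4 4 1 87 (.leaf 3) (.bis 1 5 4 1 101 (.leaf 3) (.leaf 47)))))
  (.bis 1 7 2 1 33 (.bis 0 7 1 1 112 (.leaf 71) (.leaf 18)) (.bis 1 4 4 1 87 (.leaf 18) (.leaf
  18)))) (.bis 0 6 1 2 110 (.bis 2 6 1 1 39 (.bis 4 6 1 4 88 (.bis 5 6 1 4 102 (.bis 3 6 1 4 60
  (.bis 6 7 4 1 40 (.bis 1 4 8 1 111 (.leaf 3) (.leaf 9)) (.bis 1 6 1 1 26 (.leaf 39) (.bis 1 4 8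
  1 111 (.leaf 3) (.leaf 9)))) (.bis 1 3 4 1 61 (.leaf 3) (.leaf 9))) (.bis 1 5 4 1 101 (.leaf 3)
  (.leaf 9))) (.bis 1 4 4 1 87 (.leaf 3) (.leaf 9))) (.bis 2 4 4 1 89 (.bis 1 4 4 1 87 (.leaf 3)
  (.leaf 9)) (.bis 2 5 4 1 104 (.bis 1 5 4 1 101 (.leaf 3) (.leaf 6)) (.bis 0 2 1 4 113 (.leaf 6)
  (.leaf 6))))) (.bis 2 4 4 1 89 (.bis 1 4 4 1 87 (.leaf 11) (.bis 1 5 4 1 101 (.leaf 11) (.leaf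
  6))) (.bis 2 5 4 1 104 (.bis 1 5 4 1 101 (.leaf 11) (.leaf 6)) (.bis 2 6 4 1 113 (.bis 0 1 1 2
  114 (.leaf 6) (.leaf 6)) (.bis 0 2 1 2 115 (.bis 1 2 1 1 47 (.leaf 6) (.leaf 6)) (.bis 0 1 1 2
  114 (.leaf 6) (.leaf 6)))))))) (.bis 3 6 1 1 59 (.bis 0 6 1 2 110 (.bis 2 6 1 1 39 (.bis 4 6 1
  4 88 (.bis 5 6 1 4 102 (.bis 6 7 4 1 60 (.bis 1 7 4 1 61 (.leaf 3) (.leaf 9)) (.bis 1 6 1 1 26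
  (.leaf 39) (.bis 1 3 2 1 105 (.leaf 3) (.leaf 9)))) (.bis 1 5 4 1 101 (.leaf 3) (.leaf 9)))
  (.bis 1 4 4 1 87 (.leaf 3) (.bis 1 5 4 1 101 (.leaf 3) (.leaf 9)))) (.bis 2 4 4 1 89 (.bis 1 4
  4 1 87 (.leaf 3) (.leaf 9)) (.bis 2 5 4 1 104 (.bis 1 5 4 1 101 (.leaf 3) (.leaf 6)) (.bis 0 2
  1 4 113 (.bis 1 2 1 1 47 (.leaf 6) (.leaf 6)) (.leaf 6))))) (.bis 2 4 4 1 89 (.bis 1 4 4 1 87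
  (.leaf 11) (.bis 1 5 4 1 101 (.leaf 11) (.leaf 6))) (.bis 2 5 4 1 104 (.bis 1 5 4 1 101 (.leaf
  11) (.leaf 6)) (.bis 2 6 4 1 113 (.bis 0 1 1 2 114 (.leaf 6) (.leaf 6)) (.bis 0 2 1 2 115 (.bis
  1 2 1 1 47 (.leaf 2) (.leaf 6)) (.bis 0 1 1 2 114 (.leaf 6) (.leaf 6))))))) (.bis 3 4 4 1 97
  (.bis 2 4 4 1 89 (.bis 1 4 4 1 87 (.bis 4 6 1 2 93 (.leaf 11) (.leaf 11)) (.bis 1 5 4 1 101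
  (.leaf 11) (.bis 1 3 8 1 98 (.leaf 6) (.leaf 6)))) (.bis 2 5 4 1 104 (.bis 1 5 4 1 101 (.leaf
  11) (.bis 1 3 8 1 98 (.leaf 6) (.leaf 6))) (.bis 1 3 8 1 98 (.bis 0 2 1 2 115 (.bis 2 7 4 1 62
  (.leaf 2) (.leaf 2)) (.leaf 6)) (.bis 0 2 1 2 115 (.bis 1 2 1 1 47 (.leaf 2) (.leaf 6)) (.bis 0
  1 1 2 114 (.leaf 6) (.leaf 6)))))) (.bis 3 5 4 1 107 (.bis 2 5 4 1 104 (.bis 1 5 4 1 101 (.leaf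
  11) (.bis 1 3 8 1 108 (.leaf 6) (.bis 1 4 8 1 98 (.leaf 6) (.leaf 6)))) (.bis 1 3 8 1 108 (.bis
  0 2 1 2 115 (.bis 2 7 4 1 62 (.leaf 2) (.leaf 2)) (.leaf 6)) (.bis 1 4 8 1 98 (.bis 0 2 1 2 115
  (.bis 2 7 4 1 62 (.leaf 2) (.leaf 2)) (.leaf 6)) (.bis 0 2 1 2 115 (.leaf 6) (.leaf 6)))))
  (.bis 1 3 1 1 77 (.bis 0 3 1 2 116 (.bis 2 3 1 1 84 (.bis 3 7 4 1 80 (.leaf 4) (.leaf 36))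
  (.bis 2 7 4 1 62 (.leaf 4) (.leaf 45))) (.bis 0 2 1 2 115 (.bis 2 7 4 1 62 (.leaf 11) (.leaf
  45)) (.leaf 11))) (.bis 1 4 8 1 98 (.bis 0 2 1 2 115 (.bis 2 7 4 1 62 (.leaf 2) (.leaf 2))
  (.leaf 6)) (.bis 1 5 8 1 108 (.bis 0 2 1 2 115 (.bis 2 7 4 1 62 (.leaf 2) (.leaf 2)) (.leaf 6))
  (.bis 0 2 1 2 115 (.leaf 6) (.leaf 6))))))))) (.bis 0 6 1 1 117 (.bis 2 7 2 1 38 (.bis 3 6 1 2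
  110 (.bis 6 7 2 1 18 (.bis 1 7 2 1 33 (.leaf 71) (.bis 1 4 4 1 87 (.leaf 47) (.bis 1 5 4 1 101
  (.leaf 47) (.leaf 47)))) (.bis 4 6 1 4 88 (.bis 5 6 1 4 102 (.bis 2 6 1 4 40 (.bis 1 6 1 1 26
  (.leaf 83) (.bis 1 7 4 1 29 (.leaf 47) (.leaf 18))) (.bis 1 7 4 1 29 (.leaf 47) (.bis 0 1 1 2
  118 (.leaf 9) (.leaf 18)))) (.bis 1 5 4 1 101 (.leaf 47) (.bis 1 7 4 1 29 (.leaf 47) (.leaf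
  18)))) (.bis 1 4 4 1 87 (.leaf 47) (.bis 1 5 4 1 101 (.leaf 47) (.leaf 47))))) (.bis 1 7 2 1 33
  (.bis 3 7 1 1 112 (.leaf 71) (.leaf 18)) (.bis 1 4 4 1 87 (.leaf 18) (.leaf 18)))) (.bis 2 6 1
  1 39 (.bis 3 6 1 2 110 (.bis 4 6 1 4 88 (.bis 5 6 1 4 102 (.bis 6 7 4 1 40 (.bis 0 1 1 2 118
  (.leaf 9) (.leaf 18)) (.bis 1 6 1 1 26 (.leaf 83) (.bis 0 1 1 2 118 (.leaf 9) (.leaf 18))))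
  (.bis 1 5 4 1 101 (.leaf 18) (.leaf 18))) (.bis 1 4 4 1 87 (.leaf 18) (.leaf 18))) (.bis 1 4 4
  1 87 (.leaf 18) (.leaf 18))) (.bis 0 2 1 2 119 (.bis 2 4 4 1 89 (.bis 1 4 4 1 87 (.leaf 18)
  (.leaf 18)) (.bis 2 5 4 1 104 (.leaf 18) (.bis 3 6 1 1 120 (.leaf 6) (.leaf 6)))) (.leaf 18))))
  (.bis 0 2 1 1 121 (.bis 2 7 2 1 38 (.bis 1 7 2 1 33 (.bis 3 7 1 1 112 (.leaf 71) (.leaf 18))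
  (.bis 1 4 4 1 87 (.leaf 18) (.leaf 18))) (.bis 2 6 2 1 119 (.bis 1 4 4 1 87 (.leaf 18) (.leaf
  18)) (.bis 2 4 4 1 89 (.bis 1 4 4 1 87 (.leaf 18) (.leaf 18)) (.bis 2 5 4 1 104 (.bis 1 5 4 1
  101 (.leaf 18) (.leaf 6)) (.bis 2 3 2 1 115 (.bis 1 3 2 1 114 (.leaf 6) (.leaf 6)) (.leaf
  6)))))) (.bis 0 1 1 1 122 (.bis 1 7 2 1 33 (.bis 3 7 1 1 112 (.leaf 71) (.leaf 18)) (.bis 1 4 4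
  1 87 (.leaf 18) (.leaf 18))) (.bis 0 7 2 1 123 (.bis 3 7 1 1 112 (.leaf 71) (.leaf 37)) (.bis 0
  4 4 1 124 (.leaf 37) (.bis 0 5 4 1 125 (.leaf 37) (.leaf 90)))))))))

def lc2 : List Vr := [⟨[60,0,0,0,0,0,0,0], 14400, 0⟩, ⟨[0,24,0,0,0,0,0,0], 13824, 0⟩, ⟨[0,0,27,0,
  0,0,0,0], 14580, 0⟩, ⟨[0,0,0,30,0,0,0,0], 14400, 0⟩, ⟨[120,0,0,0,85,0,0,121], 392890, 0⟩, ⟨[0,0,
  0,0,0,85,0,121], 96730, 0⟩, ⟨[0,0,0,0,0,0,42,0], 14112, 0⟩, ⟨[60,0,0,0,0,0,0,71], 48480, 0⟩]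

theorem lk2 : chkTr lowT (leafLow 4 lowB) lt2 lc2 = true := by decide +kernel

def lt3 : Tr ℕ := (.bis 3 6 1 1 59 (.bis 0 4 1 1 128 (.bis 4 6 1 2 16 (.bis 6 7 2 1 17 (.bis 2 7
  2 1 48 (.bis 1 7 2 1 34 (.bis 3 7 1 1 63 (.bis 4 5 1 2 129 (.bis 5 7 1 1 130 (.leaf 12) (.bis 5
  6 2 1 131 (.leaf 12) (.bis 0 5 1 2 132 (.leaf 10) (.leaf 10)))) (.leaf 12)) (.bis 4 5 1 2 129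
  (.bis 5 6 2 1 131 (.bis 0 3 1 2 133 (.leaf 3) (.leaf 3)) (.bis 0 5 1 2 132 (.bis 3 5 1 1 134
  (.leaf 10) (.leaf 14)) (.bis 0 3 1 2 133 (.leaf 3) (.leaf 3)))) (.bis 2 4 1 1 135 (.bis 0 3 1 2
  133 (.leaf 3) (.leaf 3)) (.bis 0 3 1 2 133 (.bis 3 6 2 1 136 (.leaf 3) (.leaf 3)) (.leaf 3)))))
  (.bis 4 5 1 2 129 (.bis 1 5 2 1 137 (.bis 5 6 2 1 131 (.leaf 3) (.leaf 14)) (.bis 1 6 4 1 28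
  (.leaf 3) (.bis 0 1 1 8 138 (.bis 1 2 4 1 50 (.leaf 3) (.leaf 9)) (.leaf 3)))) (.bis 1 4 4 1 27
  (.leaf 3) (.bis 1 6 4 1 28 (.leaf 3) (.bis 0 1 1 8 138 (.bis 1 2 4 1 50 (.leaf 3) (.leaf 9))
  (.leaf 3)))))) (.bis 2 4 4 1 42 (.bis 4 5 1 2 129 (.bis 1 5 2 1 137 (.bis 2 5 1 4 139 (.leaf
  79) (.leaf 3)) (.bis 1 6 4 1 28 (.leaf 3) (.bis 0 1 1 8 138 (.bis 1 7 4 1 50 (.leaf 2) (.leaf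
  9)) (.leaf 2)))) (.bis 1 4 4 1 27 (.leaf 3) (.bis 1 6 4 1 28 (.leaf 3) (.bis 0 1 1 8 138 (.bis
  1 7 4 1 50 (.leaf 2) (.leaf 9)) (.leaf 2))))) (.bis 2 6 4 1 43 (.bis 1 5 2 1 137 (.bis 4 5 1 4
  139 (.bis 5 6 2 1 131 (.leaf 3) (.leaf 14)) (.leaf 3)) (.bis 1 6 4 1 28 (.leaf 3) (.bis 0 1 1 8
  138 (.bis 1 7 4 1 50 (.leaf 2) (.leaf 6)) (.leaf 2)))) (.bis 1 5 2 1 137 (.bis 2 5 2 1 140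
  (.bis 4 5 1 4 139 (.leaf 14) (.leaf 2)) (.bis 0 2 1 4 141 (.bis 2 7 4 1 51 (.leaf 2) (.leaf 2))
  (.leaf 2))) (.bis 0 1 1 8 138 (.bis 1 7 4 1 50 (.bis 2 7 4 1 51 (.leaf 2) (.bis 2 5 4 1 142
  (.leaf 2) (.leaf 2))) (.bis 1 2 1 1 47 (.leaf 2) (.leaf 6))) (.bis 0 2 1 4 141 (.bis 2 7 4 1 51
  (.leaf 2) (.leaf 2)) (.leaf 2))))))) (.bis 2 6 1 1 39 (.bis 0 6 1 4 143 (.bis 5 6 1 2 144 (.bis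
  1 6 1 1 26 (.leaf 39) (.bis 1 4 4 1 27 (.leaf 3) (.bis 1 7 4 1 28 (.leaf 3) (.leaf 24)))) (.bis
  4 5 1 2 129 (.bis 1 5 2 1 137 (.bis 2 5 1 1 145 (.bis 5 7 2 1 131 (.leaf 3) (.leaf 14)) (.leaf
  3)) (.bis 1 7 4 1 28 (.leaf 3) (.bis 1 4 8 1 146 (.leaf 3) (.leaf 24)))) (.bis 1 4 4 1 27
  (.leaf 3) (.bis 1 7 4 1 28 (.leaf 3) (.bis 1 5 8 1 146 (.leaf 3) (.bis 1 6 4 1 147 (.leaf 3)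
  (.leaf 9))))))) (.bis 4 5 1 2 129 (.bis 1 5 2 1 137 (.bis 2 5 1 1 145 (.bis 5 7 2 1 131 (.leaf
  3) (.leaf 14)) (.leaf 3)) (.bis 1 7 4 1 28 (.leaf 3) (.bis 0 1 1 8 138 (.leaf 9) (.leaf 3))))
  (.bis 1 4 4 1 27 (.leaf 3) (.bis 1 7 4 1 28 (.leaf 3) (.bis 0 1 1 8 138 (.leaf 9) (.leaf
  3)))))) (.bis 2 4 4 1 42 (.bis 4 5 1 2 129 (.bis 1 5 2 1 137 (.bis 5 6 1 1 145 (.leaf 3) (.bis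
  2 5 1 4 139 (.leaf 79) (.leaf 3))) (.bis 1 7 4 1 28 (.leaf 3) (.bis 0 1 1 8 138 (.leaf 9)
  (.leaf 3)))) (.bis 1 4 4 1 27 (.leaf 3) (.bis 1 7 4 1 28 (.leaf 3) (.bis 0 1 1 8 138 (.leaf 9)
  (.leaf 3))))) (.bis 2 7 4 1 43 (.bis 1 5 2 1 137 (.bis 5 6 1 1 145 (.leaf 3) (.bis 4 5 1 4 139
  (.leaf 79) (.leaf 3))) (.bis 1 7 4 1 28 (.leaf 3) (.bis 0 1 1 8 138 (.leaf 6) (.leaf 3))))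
  (.bis 1 5 2 1 137 (.bis 2 5 2 1 140 (.bis 5 6 1 1 145 (.bis 0 6 1 2 148 (.leaf 6) (.leaf 2))
  (.bis 4 5 1 4 139 (.leaf 14) (.leaf 2))) (.bis 0 2 1 4 141 (.leaf 6) (.leaf 42))) (.bis 0 1 1 8
  138 (.bis 1 2 1 1 47 (.leaf 6) (.leaf 6)) (.bis 0 2 1 4 141 (.bis 2 5 4 1 142 (.leaf 6) (.leaf
  6)) (.leaf 3)))))))) (.bis 2 4 2 1 53 (.bis 4 5 1 1 149 (.bis 1 7 2 1 34 (.bis 3 7 1 1 63 (.bis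
  5 6 2 1 129 (.leaf 12) (.bis 2 5 1 2 150 (.bis 5 7 1 1 130 (.leaf 12) (.bis 0 5 1 2 132 (.leaf
  10) (.leaf 10))) (.leaf 12))) (.bis 5 6 2 1 129 (.bis 0 3 1 2 133 (.leaf 3) (.leaf 3)) (.bis 2
  5 1 2 150 (.bis 0 5 1 2 132 (.bis 3 5 1 1 134 (.leaf 10) (.leaf 5)) (.bis 0 3 1 2 133 (.leaf 3)
  (.leaf 3))) (.bis 0 3 1 2 133 (.leaf 3) (.leaf 3))))) (.bis 5 6 2 1 129 (.bis 1 4 4 1 151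
  (.leaf 3) (.bis 1 6 4 1 27 (.leaf 3) (.bis 0 1 1 8 138 (.bis 1 2 4 1 55 (.leaf 3) (.leaf 9))
  (.leaf 3)))) (.bis 1 5 2 1 137 (.bis 2 5 1 2 150 (.bis 0 5 1 2 132 (.leaf 14) (.leaf 3)) (.leaf
  3)) (.bis 1 4 4 1 151 (.leaf 3) (.bis 0 1 1 8 138 (.bis 1 2 4 1 55 (.leaf 3) (.leaf 9)) (.leaf
  3)))))) (.bis 1 4 2 1 35 (.bis 3 4 1 1 66 (.bis 4 7 1 1 36 (.bis 6 7 1 2 68 (.leaf 12) (.leaf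
  12)) (.leaf 19)) (.bis 3 7 1 1 63 (.bis 6 7 1 2 68 (.leaf 12) (.leaf 3)) (.bis 0 3 1 2 133
  (.bis 3 6 2 1 152 (.leaf 3) (.leaf 3)) (.leaf 3)))) (.bis 1 7 2 1 34 (.bis 3 7 1 1 63 (.leaf
  12) (.bis 0 3 1 2 133 (.bis 3 6 2 1 152 (.leaf 3) (.leaf 3)) (.leaf 3))) (.bis 1 5 4 1 151
  (.bis 0 3 1 2 133 (.leaf 3) (.leaf 3)) (.bis 1 6 4 1 27 (.bis 0 3 1 2 133 (.leaf 3) (.leaf 3))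
  (.bis 0 1 1 8 138 (.bis 1 2 4 1 55 (.leaf 3) (.leaf 9)) (.leaf 3))))))) (.bis 2 7 2 1 48 (.bis
  1 7 2 1 34 (.bis 3 7 1 1 63 (.bis 5 6 2 1 129 (.leaf 12) (.bis 4 5 1 2 150 (.bis 5 7 1 1 130
  (.leaf 12) (.bis 0 5 1 2 132 (.leaf 10) (.leaf 10))) (.leaf 12))) (.bis 5 6 2 1 129 (.bis 2 6 1
  1 135 (.bis 0 3 1 2 133 (.leaf 3) (.leaf 3)) (.bis 0 3 1 2 133 (.leaf 3) (.leaf 3))) (.bis 4 5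
  1 2 150 (.bis 0 5 1 2 132 (.leaf 14) (.bis 0 3 1 2 133 (.leaf 3) (.leaf 3))) (.bis 0 3 1 2 133
  (.leaf 3) (.leaf 3))))) (.bis 5 6 2 1 129 (.bis 1 6 4 1 27 (.leaf 3) (.bis 0 1 1 8 138 (.bis 1
  2 4 1 50 (.leaf 3) (.bis 1 4 4 1 55 (.leaf 3) (.leaf 9))) (.leaf 3))) (.bis 1 5 2 1 137 (.bis 4
  5 1 2 150 (.bis 0 5 1 2 132 (.leaf 14) (.leaf 3)) (.leaf 3)) (.bis 0 1 1 8 138 (.bis 1 2 4 1 50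
  (.leaf 3) (.bis 1 4 4 1 55 (.leaf 3) (.leaf 9))) (.leaf 3))))) (.bis 2 6 4 1 42 (.bis 5 6 2 1
  129 (.bis 1 6 4 1 27 (.leaf 3) (.bis 0 1 1 8 138 (.bis 1 4 4 1 55 (.leaf 2) (.bis 1 7 4 1 50
  (.leaf 2) (.leaf 9))) (.leaf 2))) (.bis 1 5 2 1 137 (.bis 4 5 1 2 150 (.bis 2 5 1 4 139 (.leaf
  14) (.leaf 2)) (.leaf 2)) (.bis 0 1 1 8 138 (.bis 1 4 4 1 55 (.leaf 2) (.bis 1 7 4 1 50 (.leaf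
  2) (.leaf 9))) (.leaf 2)))) (.bis 1 5 2 1 137 (.bis 2 5 2 1 140 (.bis 4 5 1 2 150 (.bis 5 6 4 1
  139 (.leaf 2) (.leaf 14)) (.leaf 2)) (.bis 0 2 1 4 141 (.bis 1 4 1 1 153 (.bis 2 4 4 1 56
  (.leaf 2) (.leaf 2)) (.bis 2 7 4 1 51 (.leaf 2) (.leaf 2))) (.leaf 2))) (.bis 0 1 1 8 138 (.bis
  1 4 4 1 55 (.bis 4 5 1 1 153 (.bis 2 7 4 1 51 (.leaf 2) (.bis 2 5 4 1 142 (.leaf 2) (.leaf 2)))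
  (.bis 2 4 4 1 56 (.leaf 2) (.bis 2 7 4 1 51 (.leaf 2) (.leaf 2)))) (.bis 1 7 4 1 50 (.bis 2 7 4
  1 51 (.leaf 2) (.bis 2 5 4 1 142 (.leaf 2) (.leaf 2))) (.bis 1 2 1 1 47 (.leaf 2) (.leaf 6))))
  (.bis 0 2 1 4 141 (.bis 4 5 1 1 153 (.bis 2 7 4 1 51 (.leaf 2) (.leaf 2)) (.bis 2 4 4 1 56
  (.leaf 2) (.bis 2 7 4 1 51 (.leaf 2) (.leaf 2)))) (.leaf 2)))))))) (.bis 0 6 1 2 154 (.bis 6 7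
  2 1 17 (.bis 2 7 2 1 48 (.bis 1 7 2 1 34 (.bis 3 7 1 1 63 (.bis 0 7 1 2 155 (.bis 5 7 1 1 130
  (.leaf 12) (.bis 5 6 2 1 131 (.leaf 12) (.bis 4 5 1 2 132 (.bis 1 5 1 2 156 (.leaf 10) (.leaf
  10)) (.leaf 10)))) (.bis 5 6 2 1 131 (.leaf 3) (.bis 4 5 1 2 132 (.leaf 14) (.leaf 3)))) (.bis
  5 6 2 1 131 (.bis 3 4 2 1 133 (.leaf 3) (.leaf 3)) (.bis 4 5 1 2 132 (.leaf 14) (.leaf 3))))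
  (.bis 1 5 2 1 137 (.bis 5 6 2 1 131 (.leaf 3) (.leaf 14)) (.bis 1 6 4 1 28 (.leaf 3) (.bis 1 4
  8 1 138 (.leaf 3) (.bis 1 2 4 1 50 (.leaf 3) (.leaf 9)))))) (.bis 2 6 4 1 43 (.bis 1 5 2 1 137
  (.bis 5 6 2 1 131 (.leaf 3) (.leaf 14)) (.bis 1 6 4 1 28 (.leaf 3) (.bis 1 4 8 1 138 (.leaf 3)
  (.bis 1 7 4 1 50 (.leaf 3) (.leaf 6))))) (.bis 1 5 2 1 137 (.bis 2 5 2 1 140 (.leaf 14) (.bis 2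
  4 4 1 141 (.leaf 5) (.bis 0 2 1 4 157 (.leaf 2) (.leaf 5)))) (.bis 1 4 8 1 138 (.bis 2 4 4 1
  141 (.leaf 3) (.bis 0 2 1 4 157 (.bis 2 7 4 1 51 (.leaf 2) (.leaf 2)) (.leaf 3))) (.bis 1 7 4 1
  50 (.bis 0 2 1 4 157 (.bis 2 7 4 1 51 (.leaf 2) (.leaf 2)) (.leaf 3)) (.bis 0 2 1 4 157 (.bis 1
  2 1 1 47 (.leaf 2) (.leaf 6)) (.leaf 6))))))) (.bis 2 6 1 1 39 (.bis 4 6 1 4 143 (.bis 5 6 1 2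
  144 (.bis 1 6 1 1 26 (.leaf 39) (.bis 1 7 4 1 28 (.leaf 3) (.bis 1 5 4 1 147 (.leaf 3) (.leaf
  9)))) (.bis 1 5 2 1 137 (.bis 2 5 1 1 145 (.bis 5 7 2 1 131 (.leaf 3) (.leaf 14)) (.leaf 3))
  (.bis 1 7 4 1 28 (.leaf 3) (.bis 1 6 4 1 147 (.leaf 3) (.leaf 9))))) (.bis 1 5 2 1 137 (.bis 2
  5 1 1 145 (.bis 5 7 2 1 131 (.leaf 3) (.leaf 14)) (.leaf 3)) (.bis 1 7 4 1 28 (.leaf 3) (.bis 1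
  4 8 1 138 (.leaf 3) (.leaf 9))))) (.bis 2 7 4 1 43 (.bis 1 5 2 1 137 (.bis 5 6 1 1 145 (.bis 4
  6 1 2 148 (.leaf 3) (.leaf 3)) (.leaf 79)) (.bis 1 7 4 1 28 (.leaf 3) (.bis 1 4 8 1 138 (.leaf
  3) (.leaf 6)))) (.bis 1 5 2 1 137 (.bis 2 5 2 1 140 (.bis 5 6 1 1 145 (.bis 4 6 1 2 148 (.leaf
  6) (.leaf 5)) (.bis 4 5 1 2 132 (.leaf 14) (.leaf 5))) (.bis 2 4 4 1 141 (.leaf 42) (.bis 0 2 1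
  4 157 (.leaf 6) (.leaf 6)))) (.bis 1 4 8 1 138 (.bis 2 4 4 1 141 (.leaf 3) (.bis 0 2 1 4 157
  (.leaf 6) (.leaf 3))) (.bis 0 2 1 4 157 (.bis 1 2 1 1 47 (.leaf 6) (.leaf 6)) (.leaf 6)))))))
  (.bis 2 7 2 1 48 (.bis 1 7 2 1 34 (.bis 0 7 1 1 158 (.bis 3 7 1 1 63 (.bis 6 7 1 2 155 (.bis 5
  7 1 1 130 (.leaf 12) (.bis 4 5 1 2 132 (.bis 1 5 1 2 156 (.leaf 10) (.leaf 10)) (.leaf 10)))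
  (.bis 4 5 1 2 132 (.leaf 14) (.leaf 14))) (.bis 0 3 1 2 159 (.bis 4 5 1 2 132 (.leaf 14) (.leaf
  3)) (.bis 4 5 1 2 132 (.leaf 14) (.leaf 14)))) (.bis 0 3 1 1 160 (.bis 3 7 2 1 159 (.leaf 14)
  (.leaf 14)) (.bis 0 1 2 1 161 (.leaf 14) (.bis 0 2 2 1 162 (.leaf 14) (.leaf 41))))) (.bis 0 1
  1 2 163 (.bis 1 5 2 1 137 (.leaf 14) (.bis 1 4 8 1 138 (.leaf 5) (.bis 1 2 4 1 50 (.leaf 5)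
  (.leaf 9)))) (.bis 0 3 1 1 160 (.leaf 14) (.bis 0 7 2 1 161 (.leaf 14) (.leaf 41))))) (.bis 0 1
  1 2 163 (.bis 1 5 2 1 137 (.bis 2 5 2 1 140 (.leaf 14) (.bis 2 4 4 1 141 (.leaf 5) (.bis 2 6 4
  1 157 (.leaf 5) (.bis 2 7 4 1 51 (.leaf 2) (.leaf 2))))) (.bis 1 4 8 1 138 (.bis 2 4 4 1 141
  (.leaf 5) (.bis 2 6 4 1 157 (.leaf 5) (.bis 2 7 4 1 51 (.leaf 2) (.leaf 2)))) (.bis 1 7 4 1 50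
  (.bis 2 6 4 1 157 (.leaf 5) (.bis 2 7 4 1 51 (.leaf 2) (.leaf 2))) (.bis 2 6 4 1 157 (.leaf 6)
  (.bis 1 2 1 1 47 (.leaf 2) (.leaf 6)))))) (.bis 0 2 1 2 164 (.bis 2 5 2 1 140 (.leaf 14) (.bis
  2 4 4 1 141 (.leaf 14) (.bis 2 6 4 1 157 (.leaf 14) (.leaf 2)))) (.bis 0 3 1 1 160 (.leaf 14)
  (.bis 0 7 2 1 162 (.leaf 14) (.bis 0 4 2 1 165 (.leaf 14) (.leaf 41))))))))) (.bis 0 4 1 1 128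
  (.bis 3 4 2 1 69 (.bis 2 4 2 1 53 (.bis 4 5 1 1 149 (.bis 1 7 2 1 34 (.bis 6 7 1 1 63 (.bis 2 5
  1 2 150 (.bis 3 5 1 2 166 (.bis 5 7 1 1 130 (.leaf 33) (.bis 0 5 1 2 132 (.leaf 10) (.leaf
  10))) (.leaf 33)) (.leaf 33)) (.bis 2 5 1 2 150 (.bis 3 5 1 2 166 (.bis 0 5 1 2 132 (.leaf 14)
  (.bis 0 6 1 2 133 (.leaf 3) (.leaf 3))) (.bis 0 6 1 2 133 (.leaf 5) (.leaf 5))) (.bis 0 6 1 2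
  133 (.leaf 5) (.leaf 5)))) (.bis 1 5 2 1 137 (.bis 2 5 1 2 150 (.bis 3 5 1 2 166 (.leaf 14)
  (.leaf 5)) (.leaf 5)) (.bis 1 3 4 1 71 (.leaf 5) (.bis 1 4 4 1 151 (.leaf 3) (.bis 0 1 1 8 138
  (.bis 1 2 4 1 55 (.leaf 3) (.leaf 9)) (.leaf 3)))))) (.bis 1 4 2 1 35 (.bis 4 6 1 1 66 (.bis 6
  7 1 1 63 (.bis 3 7 1 2 70 (.leaf 12) (.leaf 19)) (.bis 0 6 1 2 133 (.bis 3 6 1 2 167 (.leaf 3)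
  (.leaf 5)) (.leaf 5))) (.bis 4 7 1 1 36 (.bis 3 7 1 2 70 (.leaf 12) (.leaf 19)) (.leaf 19)))
  (.bis 1 7 2 1 34 (.bis 6 7 1 1 63 (.leaf 33) (.bis 0 6 1 2 133 (.bis 1 3 1 1 95 (.bis 3 6 1 2
  167 (.leaf 3) (.leaf 5)) (.bis 1 6 1 2 168 (.leaf 3) (.leaf 3))) (.leaf 5))) (.bis 1 3 4 1 71
  (.bis 0 6 1 2 133 (.leaf 5) (.leaf 5)) (.bis 1 5 4 1 151 (.bis 0 6 1 2 133 (.leaf 3) (.leaf 3))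
  (.bis 0 1 1 8 138 (.bis 1 2 4 1 55 (.leaf 3) (.leaf 9)) (.leaf 3))))))) (.bis 2 7 2 1 48 (.bis
  1 7 2 1 34 (.bis 6 7 1 1 63 (.bis 4 5 1 2 150 (.bis 3 5 1 2 166 (.bis 5 7 1 1 130 (.leaf 33)
  (.bis 0 5 1 2 132 (.leaf 10) (.leaf 10))) (.leaf 33)) (.leaf 33)) (.bis 4 5 1 2 150 (.bis 3 5 1
  2 166 (.bis 0 5 1 2 132 (.bis 5 6 1 1 134 (.leaf 5) (.leaf 10)) (.bis 0 6 1 2 133 (.leaf 3)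
  (.leaf 3))) (.bis 0 6 1 2 133 (.leaf 5) (.leaf 5))) (.bis 0 6 1 2 133 (.leaf 5) (.leaf 5))))
  (.bis 1 5 2 1 137 (.bis 4 5 1 2 150 (.bis 3 5 1 2 166 (.leaf 14) (.leaf 5)) (.leaf 5)) (.bis 1
  3 4 1 71 (.leaf 5) (.bis 0 1 1 8 138 (.bis 1 2 4 1 50 (.leaf 3) (.leaf 89)) (.leaf 3))))) (.bis
  1 5 2 1 137 (.bis 2 5 2 1 140 (.bis 4 5 1 2 150 (.bis 3 5 1 2 166 (.leaf 14) (.leaf 5)) (.leaf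
  5)) (.bis 2 3 4 1 72 (.leaf 5) (.bis 0 2 1 4 141 (.bis 1 4 1 1 153 (.bis 2 4 4 1 56 (.leaf 2)
  (.leaf 2)) (.bis 2 7 4 1 51 (.leaf 2) (.leaf 2))) (.leaf 2)))) (.bis 1 3 4 1 71 (.bis 2 3 4 1
  72 (.bis 3 5 1 1 169 (.leaf 2) (.leaf 5)) (.bis 0 2 1 4 141 (.bis 4 5 1 1 153 (.bis 2 7 4 1 51
  (.leaf 2) (.leaf 2)) (.bis 2 4 4 1 56 (.leaf 2) (.leaf 2))) (.leaf 2))) (.bis 0 1 1 8 138 (.bis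
  1 4 4 1 55 (.bis 4 5 1 1 153 (.bis 2 7 4 1 51 (.leaf 2) (.bis 2 5 4 1 142 (.leaf 2) (.leaf 2)))
  (.bis 2 4 4 1 56 (.leaf 2) (.bis 2 7 4 1 51 (.leaf 2) (.leaf 2)))) (.bis 1 7 4 1 50 (.bis 2 7 4
  1 51 (.leaf 2) (.bis 2 5 4 1 142 (.leaf 2) (.leaf 2))) (.bis 1 2 1 1 47 (.bis 2 5 4 1 142
  (.leaf 2) (.leaf 2)) (.leaf 6)))) (.bis 0 2 1 4 141 (.bis 4 5 1 1 153 (.bis 2 7 4 1 51 (.leaf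
  2) (.bis 2 5 4 1 142 (.leaf 2) (.leaf 2))) (.bis 2 4 4 1 56 (.leaf 2) (.bis 2 7 4 1 51 (.leaf
  2) (.leaf 2)))) (.leaf 2))))))) (.bis 3 7 2 1 73 (.bis 2 7 2 1 48 (.bis 1 7 2 1 34 (.bis 6 7 1
  1 63 (.bis 4 5 1 2 166 (.bis 5 7 1 1 130 (.leaf 33) (.bis 0 5 1 2 132 (.bis 1 5 1 2 156 (.leaf
  10) (.leaf 10)) (.leaf 10))) (.leaf 33)) (.bis 4 5 1 2 166 (.bis 0 5 1 2 132 (.bis 5 6 1 1 134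
  (.leaf 5) (.leaf 10)) (.bis 0 6 1 2 133 (.bis 3 6 1 2 96 (.leaf 3) (.leaf 5)) (.leaf 5))) (.bis
  0 6 1 2 133 (.leaf 5) (.leaf 5)))) (.bis 1 5 2 1 137 (.bis 4 5 1 2 166 (.bis 0 5 1 2 132 (.leaf
  14) (.bis 0 6 1 2 133 (.leaf 5) (.leaf 5))) (.leaf 5)) (.bis 1 3 4 1 74 (.leaf 5) (.bis 1 4 4 1
  71 (.leaf 5) (.bis 0 1 1 8 138 (.bis 1 2 4 1 50 (.leaf 3) (.leaf 9)) (.leaf 3)))))) (.bis 1 5 2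
  1 137 (.bis 2 5 2 1 140 (.bis 4 5 1 2 166 (.leaf 14) (.leaf 5)) (.bis 2 3 4 1 76 (.leaf 5)
  (.bis 2 4 4 1 72 (.leaf 5) (.bis 0 2 1 4 141 (.leaf 2) (.leaf 2))))) (.bis 1 3 4 1 74 (.bis 2 3
  4 1 76 (.leaf 5) (.bis 2 4 4 1 72 (.leaf 5) (.bis 0 2 1 4 141 (.bis 2 7 4 1 51 (.leaf 2) (.leaf
  2)) (.leaf 2)))) (.bis 1 4 4 1 71 (.bis 2 4 4 1 72 (.leaf 5) (.bis 0 2 1 4 141 (.bis 2 7 4 1 51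
  (.leaf 2) (.leaf 2)) (.leaf 2))) (.bis 0 1 1 8 138 (.bis 1 7 4 1 50 (.bis 2 7 4 1 51 (.leaf 2)
  (.bis 2 5 4 1 142 (.leaf 2) (.leaf 2))) (.bis 1 2 1 1 47 (.bis 2 5 4 1 142 (.leaf 2) (.leaf 2))
  (.leaf 6))) (.bis 0 2 1 4 141 (.bis 2 7 4 1 51 (.leaf 2) (.bis 2 5 4 1 142 (.leaf 2) (.leaf
  2))) (.leaf 2))))))) (.bis 1 3 1 1 77 (.bis 2 5 2 1 140 (.bis 3 5 2 1 170 (.bis 4 5 1 2 166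
  (.leaf 32) (.leaf 4)) (.bis 0 3 1 4 171 (.bis 2 4 1 1 172 (.bis 3 4 4 1 81 (.leaf 4) (.bis 3 7
  4 1 82 (.leaf 4) (.leaf 36))) (.bis 3 7 4 1 82 (.leaf 4) (.bis 3 6 2 1 83 (.leaf 4) (.leaf
  7)))) (.leaf 4))) (.bis 0 3 1 4 171 (.bis 2 4 4 1 72 (.bis 4 5 1 1 172 (.bis 3 7 4 1 82 (.leaf
  4) (.bis 3 6 2 1 83 (.leaf 4) (.bis 3 5 4 1 173 (.leaf 4) (.leaf 7)))) (.bis 3 4 4 1 81 (.leaf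
  4) (.bis 3 7 4 1 82 (.leaf 4) (.bis 3 6 2 1 83 (.leaf 4) (.leaf 7))))) (.bis 2 7 4 1 76 (.bis 3
  7 4 1 82 (.leaf 4) (.bis 3 6 2 1 83 (.leaf 4) (.bis 3 5 4 1 173 (.leaf 4) (.leaf 7)))) (.bis 2
  3 1 1 84 (.bis 3 6 2 1 83 (.leaf 2) (.bis 3 5 4 1 173 (.leaf 2) (.leaf 7))) (.leaf 2)))) (.bis
  2 4 4 1 72 (.leaf 4) (.bis 2 7 4 1 76 (.leaf 4) (.bis 0 2 1 4 141 (.leaf 2) (.leaf 2))))))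
  (.bis 1 5 2 1 137 (.bis 2 5 2 1 140 (.bis 4 5 1 2 166 (.leaf 32) (.leaf 4)) (.bis 2 4 4 1 72
  (.leaf 4) (.bis 2 7 4 1 76 (.leaf 4) (.bis 0 2 1 4 141 (.leaf 2) (.leaf 2))))) (.bis 1 4 4 1 71
  (.bis 2 4 4 1 72 (.leaf 4) (.bis 2 7 4 1 76 (.leaf 4) (.bis 0 2 1 4 141 (.leaf 2) (.leaf 2))))
  (.bis 1 7 4 1 74 (.bis 2 7 4 1 76 (.leaf 4) (.bis 0 2 1 4 141 (.bis 2 5 4 1 142 (.leaf 2)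
  (.leaf 2)) (.leaf 2))) (.bis 0 1 1 8 138 (.bis 1 2 1 1 47 (.bis 2 5 4 1 142 (.leaf 2) (.leaf
  2)) (.leaf 6)) (.bis 0 2 1 4 141 (.bis 2 5 4 1 142 (.leaf 2) (.leaf 2)) (.leaf 2))))))))) (.bis
  3 7 2 1 73 (.bis 2 7 2 1 48 (.bis 1 7 2 1 34 (.bis 0 7 1 1 158 (.bis 6 7 1 1 63 (.bis 5 7 1 1
  130 (.leaf 12) (.bis 4 5 1 2 132 (.bis 1 5 1 2 156 (.leaf 10) (.leaf 10)) (.leaf 10))) (.bis 0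
  6 1 2 159 (.bis 4 5 1 2 132 (.bis 5 6 1 1 134 (.leaf 5) (.leaf 10)) (.bis 4 6 1 2 133 (.bis 3 6
  1 2 96 (.leaf 3) (.leaf 5)) (.leaf 5))) (.bis 4 5 1 2 132 (.bis 1 5 1 2 156 (.leaf 10) (.leaf
  10)) (.leaf 10)))) (.bis 0 6 1 1 160 (.bis 6 7 2 1 159 (.leaf 10) (.bis 4 5 1 2 132 (.leaf 14)
  (.bis 4 6 1 2 133 (.leaf 5) (.leaf 5)))) (.bis 0 1 2 1 161 (.leaf 10) (.bis 0 2 2 1 162 (.leaf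
  10) (.leaf 41))))) (.bis 0 1 1 2 163 (.bis 1 5 2 1 137 (.bis 0 3 1 1 174 (.bis 4 5 1 2 132
  (.bis 5 6 1 1 134 (.leaf 5) (.leaf 10)) (.bis 4 6 1 2 133 (.leaf 5) (.leaf 5))) (.leaf 14))
  (.bis 1 3 4 1 74 (.leaf 5) (.bis 1 4 8 1 138 (.leaf 5) (.bis 1 2 4 1 50 (.leaf 5) (.leaf 9)))))
  (.bis 0 6 1 1 160 (.bis 1 3 1 1 174 (.bis 4 5 1 2 132 (.bis 5 6 1 1 134 (.leaf 5) (.leaf 10))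
  (.bis 4 6 1 2 133 (.leaf 5) (.leaf 5))) (.leaf 14)) (.bis 0 7 2 1 161 (.leaf 10) (.bis 0 2 2 1
  162 (.leaf 10) (.leaf 41)))))) (.bis 0 1 1 2 163 (.bis 1 5 2 1 137 (.bis 2 5 2 1 140 (.leaf 14)
  (.bis 2 3 4 1 76 (.leaf 5) (.bis 2 4 4 1 141 (.leaf 2) (.bis 2 7 4 1 51 (.leaf 2) (.leaf 2)))))
  (.bis 1 3 4 1 74 (.bis 2 3 4 1 76 (.leaf 5) (.bis 2 4 4 1 141 (.leaf 2) (.bis 2 7 4 1 51 (.leaf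
  2) (.leaf 2)))) (.bis 1 4 8 1 138 (.bis 2 4 4 1 141 (.leaf 2) (.bis 2 7 4 1 51 (.leaf 2) (.bis
  0 2 1 4 175 (.leaf 2) (.leaf 2)))) (.bis 1 7 4 1 50 (.bis 2 7 4 1 51 (.leaf 2) (.bis 0 2 1 4
  175 (.leaf 2) (.leaf 2))) (.bis 1 2 1 1 47 (.bis 0 2 1 4 175 (.leaf 2) (.leaf 2)) (.leaf
  6)))))) (.bis 0 2 1 2 164 (.bis 2 5 2 1 140 (.leaf 14) (.bis 2 3 4 1 76 (.leaf 14) (.bis 2 4 4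
  1 141 (.leaf 2) (.leaf 2)))) (.bis 0 6 1 1 160 (.leaf 14) (.leaf 41))))) (.bis 1 3 1 1 77 (.bis
  0 2 1 2 164 (.bis 2 5 2 1 140 (.bis 3 5 2 1 170 (.leaf 32) (.bis 3 4 4 1 171 (.leaf 4) (.bis 0
  3 1 4 176 (.bis 3 7 4 1 82 (.leaf 4) (.leaf 36)) (.leaf 4)))) (.bis 3 4 4 1 171 (.bis 2 7 4 1
  76 (.leaf 4) (.bis 2 4 4 1 141 (.leaf 2) (.leaf 2))) (.bis 2 7 4 1 76 (.bis 0 3 1 4 176 (.bis 3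
  7 4 1 82 (.leaf 4) (.bis 3 6 2 1 83 (.leaf 4) (.leaf 7))) (.leaf 4)) (.bis 2 3 1 1 84 (.bis 0 3
  1 4 176 (.bis 3 6 2 1 83 (.leaf 2) (.leaf 7)) (.leaf 2)) (.leaf 2))))) (.bis 0 3 1 2 177 (.bis
  3 5 2 1 170 (.leaf 32) (.bis 3 4 4 1 171 (.leaf 4) (.bis 2 3 1 4 176 (.leaf 36) (.leaf 4))))
  (.bis 0 6 1 1 160 (.leaf 32) (.bis 0 7 2 1 178 (.leaf 32) (.bis 0 1 1 1 179 (.bis 1 5 1 1 180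
  (.bis 4 5 1 2 132 (.leaf 10) (.leaf 4)) (.leaf 4)) (.bis 0 4 2 1 165 (.leaf 10) (.leaf
  16))))))) (.bis 0 1 1 2 163 (.bis 1 5 2 1 137 (.bis 2 5 2 1 140 (.leaf 32) (.bis 2 7 4 1 76
  (.leaf 5) (.bis 2 4 4 1 141 (.leaf 2) (.leaf 2)))) (.bis 1 7 4 1 74 (.bis 2 7 4 1 76 (.leaf 5)
  (.bis 2 4 4 1 141 (.leaf 2) (.bis 0 2 1 4 175 (.leaf 2) (.leaf 2)))) (.bis 1 4 8 1 138 (.bis 2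
  4 4 1 141 (.leaf 2) (.bis 0 2 1 4 175 (.leaf 2) (.leaf 2))) (.bis 1 2 1 1 47 (.bis 0 2 1 4 175
  (.leaf 2) (.leaf 2)) (.leaf 6))))) (.bis 0 2 1 2 164 (.bis 2 5 2 1 140 (.leaf 32) (.bis 2 7 4 1
  76 (.leaf 32) (.bis 2 4 4 1 141 (.leaf 2) (.leaf 2)))) (.bis 0 6 1 1 160 (.bis 3 5 1 1 180
  (.leaf 14) (.leaf 32)) (.bis 0 7 2 1 178 (.leaf 32) (.bis 0 3 1 1 179 (.bis 3 5 1 1 180 (.leaf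
  10) (.leaf 11)) (.bis 0 4 2 1 165 (.leaf 10) (.leaf 16)))))))))))

def lc3 : List Vr := [⟨[60,0,0,0,0,85,0,0], 90050, 0⟩, ⟨[0,24,0,0,0,0,0,0], 13824, 0⟩, ⟨[0,0,27,0,
  0,0,0,0], 14580, 0⟩, ⟨[0,0,0,30,0,0,0,0], 14400, 0⟩, ⟨[0,0,0,0,85,0,0,121], 96730, 0⟩, ⟨[0,0,0,
  0,0,85,42,0], 85682, 0⟩, ⟨[0,0,0,0,0,0,42,0], 14112, 0⟩, ⟨[0,0,0,0,0,85,0,121], 96730, 0⟩]

theorem lk3 : chkTr lowT (leafLow 4 lowB) lt3 lc3 = true := by decide +kernel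

def lt4 : Tr ℕ := (.bis 1 5 1 1 182 (.bis 2 5 1 1 183 (.bis 5 7 2 1 184 (.bis 3 7 2 1 73 (.bis 0
  7 1 1 158 (.bis 2 7 1 1 185 (.bis 1 7 1 1 186 (.bis 6 7 1 1 130 (.leaf 111) (.leaf 48)) (.bis 1
  3 2 1 187 (.leaf 48) (.leaf 48))) (.bis 2 3 2 1 188 (.leaf 48) (.bis 0 2 1 2 189 (.leaf 48)
  (.leaf 48)))) (.bis 0 3 2 1 178 (.bis 2 3 2 1 188 (.leaf 48) (.leaf 48)) (.bis 0 5 2 1 190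
  (.leaf 48) (.leaf 16)))) (.bis 3 5 4 1 191 (.bis 0 7 2 1 178 (.leaf 48) (.bis 0 5 2 1 190
  (.leaf 48) (.bis 0 4 2 1 192 (.leaf 16) (.leaf 16)))) (.bis 0 3 1 2 177 (.bis 3 6 2 1 170
  (.leaf 16) (.bis 3 4 4 1 193 (.leaf 16) (.bis 1 3 1 2 194 (.bis 2 3 1 2 195 (.leaf 92) (.leaf
  16)) (.leaf 16)))) (.bis 0 7 2 1 178 (.leaf 16) (.bis 0 4 2 1 192 (.leaf 16) (.leaf 16))))))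
  (.bis 3 5 1 1 196 (.bis 0 5 1 2 197 (.bis 4 5 1 4 198 (.bis 5 6 2 1 199 (.bis 3 6 1 1 200 (.bis
  0 6 1 2 201 (.bis 2 7 2 1 202 (.leaf 59) (.leaf 25)) (.bis 2 7 2 1 202 (.leaf 59) (.leaf 25)))
  (.bis 3 7 2 1 203 (.bis 2 7 2 1 202 (.bis 0 7 1 1 204 (.leaf 59) (.leaf 25)) (.leaf 25)) (.leaf
  25))) (.bis 1 5 1 2 205 (.bis 5 7 4 1 206 (.bis 3 7 2 1 203 (.leaf 112) (.bis 2 5 4 1 207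
  (.leaf 113) (.leaf 25))) (.bis 2 5 1 2 208 (.bis 3 5 1 2 209 (.bis 4 5 1 8 210 (.bis 0 5 1 4
  211 (.bis 5 6 4 1 212 (.leaf 85) (.bis 1 5 1 4 213 (.bis 5 7 8 1 214 (.leaf 100) (.bis 2 5 1 4
  215 (.bis 3 5 1 4 216 (.bis 4 5 1 16 217 (.bis 0 5 1 8 218 (.bis 5 6 8 1 219 (.leaf 46) (.bis 5
  7 16 1 220 (.leaf 46) (.bis 1 5 1 8 221 (.bis 2 5 1 8 222 (.bis 3 5 1 8 223 (.bis 4 5 1 32 224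
  (.bis 0 5 1 16 225 (.leaf 84) (.leaf 46)) (.leaf 46)) (.leaf 46)) (.leaf 46)) (.leaf 46))))
  (.leaf 67)) (.leaf 67)) (.leaf 67)) (.leaf 100))) (.leaf 85))) (.bis 0 7 2 1 226 (.bis 3 6 1 1
  227 (.leaf 29) (.leaf 29)) (.bis 0 4 4 1 228 (.leaf 29) (.bis 0 3 1 1 229 (.leaf 29) (.leaf
  29))))) (.bis 0 7 2 1 226 (.bis 3 4 2 1 230 (.leaf 29) (.bis 3 6 1 1 227 (.leaf 29) (.leaf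
  29))) (.bis 0 4 2 1 231 (.bis 3 4 2 1 230 (.leaf 29) (.bis 3 6 1 1 227 (.leaf 29) (.leaf 29)))
  (.bis 0 5 4 1 228 (.bis 3 6 1 1 227 (.leaf 29) (.leaf 29)) (.bis 0 3 1 1 229 (.bis 3 6 1 1 227
  (.leaf 29) (.leaf 29)) (.leaf 29)))))) (.bis 3 7 4 1 232 (.bis 0 7 2 1 226 (.bis 4 5 1 2 230
  (.bis 5 6 1 1 227 (.leaf 29) (.leaf 29)) (.leaf 29)) (.bis 0 4 2 1 231 (.bis 4 5 1 2 230 (.bis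
  5 6 1 1 227 (.leaf 29) (.leaf 29)) (.leaf 29)) (.bis 0 5 1 1 229 (.bis 5 6 1 1 227 (.leaf 29)
  (.leaf 29)) (.leaf 29)))) (.bis 0 3 1 2 233 (.leaf 65) (.bis 0 4 2 1 231 (.bis 4 5 1 2 230
  (.leaf 29) (.leaf 29)) (.bis 0 5 1 1 229 (.leaf 29) (.leaf 29)))))) (.bis 2 7 4 1 207 (.bis 3 7
  4 1 232 (.leaf 29) (.leaf 65)) (.leaf 65)))) (.bis 3 7 2 1 203 (.bis 2 7 2 1 202 (.leaf 59)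
  (.leaf 25)) (.leaf 25)))) (.bis 0 4 1 1 234 (.bis 3 4 2 1 235 (.leaf 114) (.bis 3 6 1 1 200
  (.leaf 59) (.bis 3 7 2 1 203 (.leaf 59) (.leaf 25)))) (.bis 3 6 1 1 200 (.bis 0 6 1 2 201 (.bis
  2 7 2 1 202 (.leaf 59) (.leaf 25)) (.bis 2 7 2 1 202 (.leaf 59) (.leaf 25))) (.bis 3 7 2 1 203
  (.bis 2 7 2 1 202 (.bis 0 7 1 1 204 (.leaf 59) (.leaf 25)) (.leaf 25)) (.leaf 25))))) (.bis 0 7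
  2 1 190 (.bis 4 5 1 1 234 (.bis 3 6 1 1 200 (.bis 5 6 1 2 201 (.bis 2 7 2 1 202 (.leaf 48)
  (.leaf 16)) (.bis 2 7 2 1 202 (.leaf 59) (.leaf 25))) (.bis 3 7 2 1 203 (.leaf 59) (.leaf 25)))
  (.bis 3 4 2 1 235 (.leaf 48) (.bis 3 6 1 1 200 (.leaf 48) (.bis 3 7 2 1 203 (.leaf 48) (.leaf
  25))))) (.bis 0 4 2 1 192 (.bis 4 5 1 1 234 (.bis 3 6 1 1 200 (.leaf 25) (.leaf 25)) (.bis 3 4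
  2 1 235 (.leaf 16) (.bis 3 6 1 1 200 (.leaf 16) (.leaf 25)))) (.bis 0 3 1 1 236 (.bis 3 6 1 1
  200 (.leaf 25) (.leaf 25)) (.leaf 101))))) (.bis 3 7 4 1 191 (.bis 0 7 2 1 190 (.bis 4 5 1 2
  235 (.bis 5 6 1 1 200 (.leaf 48) (.bis 5 7 2 1 203 (.leaf 48) (.leaf 25))) (.leaf 48)) (.bis 0
  4 2 1 192 (.bis 4 5 1 2 235 (.bis 5 6 1 1 200 (.leaf 16) (.leaf 25)) (.leaf 16)) (.bis 0 5 1 1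
  236 (.bis 5 6 1 1 200 (.leaf 16) (.leaf 25)) (.leaf 16)))) (.bis 0 3 1 2 177 (.bis 3 6 2 1 170
  (.bis 4 5 1 2 235 (.leaf 72) (.leaf 16)) (.bis 3 4 4 1 193 (.bis 4 5 1 2 235 (.leaf 44) (.leaf
  16)) (.bis 1 3 1 2 194 (.bis 2 3 1 2 195 (.leaf 86) (.leaf 44)) (.leaf 44)))) (.bis 0 4 2 1 192
  (.bis 4 5 1 2 235 (.leaf 72) (.leaf 16)) (.bis 0 5 1 1 236 (.leaf 72) (.leaf 16))))))) (.bis 3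
  7 2 1 73 (.bis 2 7 2 1 48 (.bis 0 7 1 1 158 (.bis 5 7 1 1 185 (.bis 1 7 1 1 186 (.bis 6 7 1 1
  130 (.leaf 33) (.leaf 10)) (.bis 1 2 2 1 237 (.leaf 10) (.leaf 10))) (.bis 2 5 1 2 238 (.bis 3
  5 1 2 188 (.leaf 16) (.leaf 10)) (.bis 1 2 2 1 237 (.leaf 10) (.leaf 10)))) (.bis 0 2 2 1 162
  (.bis 2 5 1 2 238 (.leaf 16) (.leaf 10)) (.bis 0 3 2 1 178 (.bis 3 5 1 2 188 (.leaf 16) (.leaf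
  10)) (.leaf 16)))) (.bis 2 4 4 1 239 (.bis 0 7 2 1 162 (.bis 5 7 2 1 238 (.leaf 10) (.leaf 16))
  (.bis 0 3 2 1 178 (.leaf 16) (.leaf 16))) (.bis 0 2 1 2 164 (.bis 2 6 2 1 140 (.leaf 21) (.bis
  1 2 1 2 240 (.bis 2 3 4 1 76 (.bis 5 7 2 1 238 (.leaf 10) (.leaf 16)) (.bis 2 5 2 1 241 (.bis 5
  7 2 1 238 (.leaf 2) (.leaf 16)) (.leaf 2))) (.leaf 21))) (.bis 0 7 2 1 162 (.leaf 21) (.bis 0 3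
  2 1 178 (.leaf 16) (.leaf 16)))))) (.bis 2 4 4 1 239 (.bis 0 3 1 2 177 (.bis 3 6 2 1 170 (.leaf
  16) (.bis 3 4 4 1 193 (.leaf 16) (.bis 1 3 1 2 194 (.bis 3 5 2 1 195 (.leaf 16) (.leaf 36))
  (.leaf 16)))) (.bis 0 7 2 1 178 (.leaf 16) (.bis 0 4 2 1 192 (.leaf 16) (.leaf 16)))) (.bis 0 2
  1 2 164 (.bis 2 6 2 1 140 (.bis 3 6 2 1 170 (.bis 5 7 2 1 188 (.leaf 10) (.leaf 16)) (.bis 1 3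
  1 2 194 (.bis 3 5 2 1 195 (.bis 5 7 2 1 188 (.leaf 16) (.leaf 16)) (.bis 0 3 1 4 176 (.bis 3 7
  4 1 82 (.leaf 21) (.leaf 7)) (.leaf 16))) (.bis 5 7 2 1 188 (.leaf 10) (.leaf 16)))) (.bis 1 2
  1 2 240 (.bis 2 7 4 1 76 (.bis 3 5 2 1 195 (.leaf 16) (.bis 0 3 1 4 176 (.bis 3 7 4 1 82 (.leaf
  21) (.bis 3 6 4 1 173 (.leaf 7) (.leaf 7))) (.leaf 16))) (.bis 2 5 2 1 241 (.bis 3 5 2 1 195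
  (.leaf 16) (.bis 0 3 1 4 176 (.bis 3 6 4 1 173 (.leaf 7) (.bis 1 3 1 4 242 (.leaf 7) (.leaf
  7))) (.leaf 7))) (.bis 2 3 1 1 84 (.bis 0 3 1 4 176 (.bis 3 6 4 1 173 (.leaf 2) (.bis 1 3 1 4
  242 (.leaf 7) (.leaf 2))) (.leaf 2)) (.leaf 2)))) (.bis 1 3 1 2 194 (.bis 3 5 2 1 195 (.bis 5 7
  2 1 188 (.leaf 16) (.leaf 16)) (.bis 0 3 1 4 176 (.bis 3 7 4 1 82 (.leaf 21) (.bis 3 6 4 1 173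
  (.leaf 7) (.leaf 7))) (.bis 0 7 1 1 243 (.leaf 16) (.leaf 7)))) (.bis 5 7 2 1 188 (.leaf 10)
  (.leaf 16))))) (.bis 0 3 1 2 177 (.bis 3 6 2 1 170 (.bis 5 7 2 1 188 (.leaf 10) (.leaf 16))
  (.bis 1 3 1 2 194 (.bis 3 5 2 1 195 (.bis 5 7 2 1 188 (.leaf 16) (.leaf 16)) (.bis 2 3 1 4 176
  (.bis 3 7 4 1 82 (.leaf 21) (.leaf 7)) (.bis 2 7 1 1 243 (.leaf 16) (.leaf 7)))) (.bis 5 7 2 1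
  188 (.leaf 10) (.leaf 16)))) (.bis 0 7 2 1 178 (.leaf 16) (.leaf 16))))))) (.bis 3 7 2 1 73
  (.bis 2 7 2 1 48 (.bis 1 7 2 1 34 (.bis 0 7 1 1 158 (.bis 5 7 1 1 186 (.bis 6 7 1 1 130 (.leaf
  33) (.bis 1 6 1 2 156 (.leaf 10) (.leaf 10))) (.bis 1 5 1 2 244 (.bis 2 5 1 2 237 (.leaf 10)
  (.leaf 10)) (.leaf 10))) (.bis 0 1 2 1 161 (.bis 1 5 1 2 244 (.leaf 10) (.leaf 10)) (.bis 0 2 2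
  1 162 (.leaf 10) (.bis 0 3 2 1 178 (.leaf 10) (.leaf 16))))) (.bis 1 4 4 1 245 (.bis 0 7 2 1
  161 (.bis 5 7 2 1 244 (.leaf 10) (.leaf 10)) (.bis 0 2 2 1 162 (.leaf 10) (.bis 0 3 2 1 178
  (.leaf 10) (.leaf 16)))) (.bis 0 1 1 2 163 (.bis 1 6 2 1 137 (.leaf 10) (.bis 1 3 4 1 74 (.bis
  5 7 2 1 244 (.leaf 5) (.bis 0 3 1 1 174 (.bis 2 5 1 2 237 (.leaf 10) (.leaf 5)) (.leaf 10)))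
  (.bis 1 5 2 1 246 (.bis 5 7 2 1 244 (.leaf 5) (.leaf 10)) (.bis 1 2 4 1 50 (.leaf 5) (.leaf
  24))))) (.bis 0 7 2 1 161 (.leaf 10) (.bis 0 2 2 1 162 (.leaf 10) (.bis 0 3 2 1 178 (.leaf 10)
  (.leaf 16))))))) (.bis 1 4 4 1 245 (.bis 2 4 4 1 239 (.bis 0 7 2 1 162 (.leaf 10) (.bis 0 3 2 1
  178 (.leaf 10) (.bis 0 4 2 1 192 (.leaf 10) (.leaf 16)))) (.bis 0 2 1 2 164 (.bis 2 6 2 1 140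
  (.leaf 10) (.bis 2 5 2 1 240 (.leaf 10) (.bis 2 3 4 1 76 (.leaf 10) (.leaf 2)))) (.bis 0 7 2 1
  162 (.leaf 10) (.leaf 16)))) (.bis 0 1 1 2 163 (.bis 1 6 2 1 137 (.bis 2 6 2 1 140 (.leaf 10)
  (.bis 2 5 2 1 240 (.leaf 10) (.bis 2 3 4 1 76 (.leaf 10) (.bis 2 7 4 1 51 (.leaf 2) (.leaf
  2))))) (.bis 1 3 4 1 74 (.bis 2 5 2 1 240 (.leaf 10) (.bis 2 3 4 1 76 (.leaf 10) (.bis 2 7 4 1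
  51 (.leaf 2) (.bis 0 2 1 4 175 (.leaf 2) (.leaf 2))))) (.bis 1 5 2 1 246 (.bis 2 5 2 1 240
  (.leaf 10) (.bis 2 7 4 1 51 (.leaf 2) (.bis 0 2 1 4 175 (.leaf 2) (.leaf 2)))) (.bis 1 7 4 1 50
  (.bis 2 7 4 1 51 (.leaf 2) (.bis 0 2 1 4 175 (.bis 2 4 8 1 247 (.leaf 2) (.leaf 2)) (.leaf 2)))
  (.bis 1 2 1 1 47 (.bis 0 2 1 4 175 (.leaf 2) (.leaf 2)) (.leaf 24)))))) (.bis 0 2 1 2 164 (.bis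
  2 6 2 1 140 (.leaf 10) (.bis 2 5 2 1 240 (.leaf 10) (.bis 2 3 4 1 76 (.leaf 10) (.bis 2 7 4 1
  51 (.leaf 2) (.leaf 2))))) (.leaf 41))))) (.bis 1 4 4 1 245 (.bis 2 4 4 1 239 (.bis 0 3 1 2 177
  (.bis 3 6 2 1 170 (.leaf 10) (.bis 3 4 4 1 193 (.leaf 10) (.bis 3 5 2 1 194 (.leaf 10) (.bis 1
  3 1 8 248 (.bis 3 7 4 1 82 (.leaf 4) (.leaf 7)) (.leaf 4))))) (.bis 0 7 2 1 178 (.leaf 10)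
  (.leaf 16))) (.bis 0 2 1 2 164 (.bis 2 6 2 1 140 (.bis 3 6 2 1 170 (.leaf 10) (.bis 3 5 2 1 194
  (.leaf 10) (.bis 1 3 1 8 248 (.bis 0 3 1 4 176 (.bis 3 7 4 1 82 (.leaf 4) (.leaf 7)) (.leaf 4))
  (.leaf 4)))) (.bis 2 5 2 1 240 (.bis 3 5 2 1 194 (.leaf 10) (.bis 1 3 1 8 248 (.bis 0 3 1 4 176
  (.bis 3 7 4 1 82 (.leaf 4) (.bis 3 6 4 1 173 (.leaf 4) (.leaf 7))) (.leaf 4)) (.leaf 4))) (.bis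
  2 7 4 1 76 (.bis 1 3 1 8 248 (.bis 0 3 1 4 176 (.bis 3 7 4 1 82 (.leaf 4) (.bis 3 6 4 1 173
  (.leaf 4) (.leaf 7))) (.leaf 4)) (.leaf 4)) (.bis 2 3 1 1 84 (.bis 1 3 1 8 248 (.bis 0 3 1 4
  176 (.bis 3 6 4 1 173 (.leaf 2) (.leaf 7)) (.leaf 2)) (.leaf 2)) (.leaf 2))))) (.bis 0 3 1 2
  177 (.bis 3 6 2 1 170 (.leaf 10) (.bis 3 5 2 1 194 (.leaf 10) (.bis 1 3 1 8 248 (.bis 2 3 1 4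
  176 (.leaf 36) (.leaf 4)) (.leaf 4)))) (.leaf 16)))) (.bis 1 3 1 1 77 (.bis 0 2 1 2 164 (.bis 2
  6 2 1 140 (.bis 3 6 2 1 170 (.leaf 21) (.bis 3 5 2 1 194 (.leaf 21) (.bis 3 4 8 1 248 (.leaf 4)
  (.bis 0 3 1 4 176 (.leaf 36) (.leaf 4))))) (.bis 2 5 2 1 240 (.bis 3 5 2 1 194 (.bis 1 5 1 1
  249 (.bis 5 7 2 1 187 (.leaf 4) (.leaf 10)) (.bis 0 7 1 1 243 (.leaf 4) (.leaf 4))) (.bis 3 4 8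
  1 248 (.leaf 4) (.bis 0 3 1 4 176 (.bis 3 7 4 1 82 (.leaf 4) (.leaf 7)) (.bis 0 7 1 1 243
  (.leaf 4) (.leaf 4))))) (.bis 2 7 4 1 76 (.bis 3 4 8 1 248 (.leaf 4) (.bis 0 3 1 4 176 (.bis 3
  7 4 1 82 (.leaf 4) (.bis 3 6 4 1 173 (.leaf 4) (.leaf 7))) (.leaf 4))) (.bis 2 3 1 1 84 (.bis 3
  4 8 1 248 (.leaf 2) (.bis 0 3 1 4 176 (.bis 3 6 4 1 173 (.leaf 2) (.leaf 7)) (.leaf 2))) (.leaf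
  2))))) (.bis 0 3 1 2 177 (.bis 3 6 2 1 170 (.leaf 21) (.bis 3 5 2 1 194 (.leaf 21) (.bis 3 4 8
  1 248 (.leaf 4) (.bis 2 3 1 4 176 (.bis 3 7 4 1 82 (.leaf 4) (.leaf 7)) (.bis 2 7 1 1 243
  (.leaf 4) (.leaf 4)))))) (.bis 0 7 2 1 178 (.bis 1 6 1 1 180 (.leaf 10) (.leaf 21)) (.bis 0 1 1
  1 179 (.leaf 21) (.leaf 16))))) (.bis 0 1 1 2 163 (.bis 1 6 2 1 137 (.bis 2 6 2 1 140 (.bis 3 6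
  1 1 180 (.bis 0 7 1 1 174 (.leaf 10) (.leaf 10)) (.bis 0 7 1 1 174 (.leaf 21) (.leaf 21)))
  (.bis 2 5 2 1 240 (.bis 0 7 1 1 174 (.leaf 21) (.leaf 21)) (.bis 2 7 4 1 76 (.leaf 21) (.leaf
  2)))) (.bis 1 7 4 1 74 (.bis 2 5 2 1 240 (.leaf 21) (.bis 2 7 4 1 76 (.leaf 21) (.bis 0 2 1 4
  175 (.leaf 2) (.leaf 2)))) (.bis 1 5 2 1 246 (.bis 2 5 2 1 240 (.leaf 21) (.bis 0 2 1 4 175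
  (.bis 2 4 8 1 247 (.leaf 2) (.leaf 2)) (.leaf 2))) (.bis 1 2 1 1 47 (.bis 0 2 1 4 175 (.leaf 2)
  (.leaf 2)) (.leaf 24))))) (.bis 0 2 1 2 164 (.bis 2 6 2 1 140 (.bis 3 6 1 1 180 (.bis 1 7 1 1
  174 (.leaf 10) (.leaf 10)) (.bis 1 7 1 1 174 (.leaf 21) (.leaf 21))) (.bis 2 5 2 1 240 (.bis 1
  7 1 1 174 (.leaf 21) (.leaf 21)) (.bis 2 7 4 1 76 (.leaf 21) (.leaf 2)))) (.bis 0 7 2 1 178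
  (.leaf 21) (.bis 0 3 1 1 179 (.leaf 21) (.leaf 16)))))))))

def lc4 : List Vr := [⟨[60,0,0,0,0,85,0,0], 90050, 0⟩, ⟨[0,24,0,0,0,0,0,0], 13824, 0⟩, ⟨[0,0,27,0,
  0,0,0,0], 14580, 0⟩, ⟨[0,0,0,30,0,0,0,0], 14400, 0⟩, ⟨[0,0,0,0,85,170,0,121], 434690, 0⟩, ⟨[0,0,
  0,0,0,85,0,0], 14450, 0⟩, ⟨[0,0,0,0,0,85,42,0], 85682, 0⟩, ⟨[0,0,0,0,0,85,0,121], 96730, 0⟩]

theorem lk4 : chkTr lowT (leafLow 4 lowB) lt4 lc4 = true := by decide +kernel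

def lt5 : Tr ℕ := (.bis 0 4 1 1 128 (.bis 3 4 2 1 69 (.bis 2 4 2 1 53 (.bis 4 6 1 1 149 (.bis 1 7
  2 1 34 (.bis 2 6 1 2 150 (.bis 3 6 1 2 166 (.bis 6 7 1 1 130 (.leaf 33) (.leaf 10)) (.leaf 33))
  (.bis 3 7 1 2 70 (.leaf 33) (.leaf 23))) (.bis 1 5 4 1 245 (.bis 2 6 1 2 150 (.bis 3 6 1 2 166
  (.bis 0 6 1 2 132 (.leaf 10) (.leaf 10)) (.leaf 23)) (.leaf 23)) (.bis 1 6 2 1 137 (.bis 2 6 1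
  2 150 (.bis 3 6 1 2 166 (.leaf 10) (.leaf 5)) (.bis 1 3 1 1 169 (.leaf 5) (.leaf 3))) (.bis 1 3
  4 1 71 (.bis 3 6 1 1 169 (.leaf 3) (.leaf 5)) (.bis 1 4 4 1 151 (.leaf 3) (.bis 0 1 1 8 138
  (.bis 1 2 4 1 55 (.leaf 3) (.leaf 9)) (.leaf 3))))))) (.bis 1 4 2 1 35 (.bis 4 5 2 1 250 (.bis
  3 7 1 2 70 (.leaf 33) (.leaf 33)) (.bis 4 7 1 1 36 (.bis 3 7 1 2 70 (.leaf 12) (.leaf 19))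
  (.leaf 19))) (.bis 1 7 2 1 34 (.bis 3 7 1 2 70 (.leaf 33) (.bis 4 5 1 1 251 (.leaf 23) (.leaf
  19))) (.bis 1 5 4 1 245 (.leaf 33) (.bis 1 3 4 1 71 (.leaf 5) (.bis 1 6 4 1 151 (.leaf 3) (.bis
  0 1 1 8 138 (.bis 1 2 4 1 55 (.leaf 3) (.bis 1 4 4 1 37 (.leaf 3) (.leaf 9))) (.leaf 3))))))))
  (.bis 2 7 2 1 48 (.bis 1 7 2 1 34 (.bis 4 6 1 2 150 (.bis 3 6 1 2 166 (.bis 6 7 1 1 130 (.leaf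
  33) (.leaf 10)) (.leaf 33)) (.leaf 33)) (.bis 1 5 4 1 245 (.bis 4 6 1 2 150 (.bis 3 6 1 2 166
  (.bis 0 6 1 2 132 (.leaf 10) (.leaf 10)) (.leaf 23)) (.leaf 23)) (.bis 1 6 2 1 137 (.bis 4 6 1
  2 150 (.bis 3 6 1 2 166 (.leaf 10) (.leaf 5)) (.leaf 5)) (.bis 1 3 4 1 71 (.leaf 5) (.bis 0 1 1
  8 138 (.bis 1 2 4 1 50 (.leaf 3) (.bis 1 4 4 1 55 (.leaf 3) (.leaf 9))) (.leaf 3)))))) (.bis 1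
  5 4 1 245 (.bis 2 5 4 1 239 (.bis 4 6 1 2 150 (.bis 3 6 1 2 166 (.leaf 10) (.leaf 23)) (.leaf
  23)) (.bis 2 6 2 1 140 (.bis 4 6 1 2 150 (.bis 3 6 1 2 166 (.leaf 10) (.leaf 5)) (.leaf 5))
  (.bis 2 3 4 1 72 (.leaf 5) (.bis 0 2 1 4 141 (.bis 2 4 4 1 56 (.leaf 2) (.leaf 2)) (.leaf
  2))))) (.bis 1 6 2 1 137 (.bis 2 6 2 1 140 (.bis 4 6 1 2 150 (.bis 3 6 1 2 166 (.leaf 10)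
  (.leaf 5)) (.leaf 5)) (.bis 2 3 4 1 72 (.leaf 5) (.bis 0 2 1 4 141 (.bis 1 4 1 1 153 (.bis 2 4
  4 1 56 (.leaf 2) (.leaf 2)) (.bis 2 7 4 1 51 (.leaf 2) (.leaf 2))) (.leaf 2)))) (.bis 1 3 4 1
  71 (.bis 2 3 4 1 72 (.bis 3 6 1 1 169 (.leaf 2) (.leaf 5)) (.bis 0 2 1 4 141 (.bis 4 6 1 1 153
  (.bis 2 7 4 1 51 (.leaf 2) (.bis 2 5 8 1 247 (.leaf 2) (.leaf 2))) (.bis 2 4 4 1 56 (.leaf 2)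
  (.bis 2 7 4 1 51 (.leaf 2) (.leaf 2)))) (.leaf 2))) (.bis 0 1 1 8 138 (.bis 1 4 4 1 55 (.bis 4
  6 1 1 153 (.bis 2 7 4 1 51 (.leaf 2) (.bis 2 5 8 1 247 (.leaf 2) (.leaf 2))) (.bis 2 4 4 1 56
  (.leaf 2) (.bis 2 7 4 1 51 (.leaf 2) (.bis 2 5 8 1 247 (.leaf 2) (.leaf 2))))) (.bis 1 7 4 1 50
  (.bis 2 7 4 1 51 (.leaf 2) (.bis 2 5 8 1 247 (.leaf 2) (.leaf 2))) (.bis 1 2 1 1 47 (.bis 2 5 8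
  1 247 (.leaf 2) (.leaf 2)) (.leaf 9)))) (.bis 0 2 1 4 141 (.bis 4 6 1 1 153 (.bis 2 7 4 1 51
  (.leaf 2) (.bis 2 5 8 1 247 (.leaf 2) (.leaf 2))) (.bis 2 4 4 1 56 (.leaf 2) (.bis 2 7 4 1 51
  (.leaf 2) (.leaf 2)))) (.leaf 2)))))))) (.bis 3 7 2 1 73 (.bis 2 7 2 1 48 (.bis 1 7 2 1 34
  (.bis 4 6 1 2 166 (.bis 6 7 1 1 130 (.leaf 33) (.bis 0 6 1 2 132 (.leaf 10) (.leaf 10))) (.leaf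
  33)) (.bis 1 5 4 1 245 (.bis 4 6 1 2 166 (.bis 0 6 1 2 132 (.leaf 10) (.leaf 10)) (.leaf 23))
  (.bis 1 6 2 1 137 (.bis 4 6 1 2 166 (.bis 0 6 1 2 132 (.leaf 10) (.leaf 5)) (.leaf 5)) (.bis 1
  3 4 1 74 (.leaf 5) (.bis 1 4 4 1 71 (.leaf 5) (.bis 0 1 1 8 138 (.bis 1 2 4 1 50 (.leaf 3)
  (.leaf 9)) (.leaf 3))))))) (.bis 1 5 4 1 245 (.bis 2 5 4 1 239 (.bis 4 6 1 2 166 (.bis 0 6 1 2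
  132 (.leaf 10) (.leaf 10)) (.leaf 23)) (.bis 2 6 2 1 140 (.bis 4 6 1 2 166 (.leaf 10) (.leaf
  5)) (.bis 2 3 4 1 76 (.leaf 5) (.bis 2 4 4 1 72 (.leaf 5) (.bis 0 2 1 4 141 (.bis 2 7 4 1 51
  (.leaf 2) (.leaf 2)) (.leaf 2)))))) (.bis 1 6 2 1 137 (.bis 2 6 2 1 140 (.bis 4 6 1 2 166
  (.leaf 10) (.leaf 5)) (.bis 2 3 4 1 76 (.leaf 5) (.bis 2 4 4 1 72 (.leaf 5) (.bis 0 2 1 4 141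
  (.bis 2 7 4 1 51 (.leaf 2) (.leaf 2)) (.leaf 2))))) (.bis 1 3 4 1 74 (.bis 2 3 4 1 76 (.leaf 5)
  (.bis 2 4 4 1 72 (.leaf 5) (.bis 0 2 1 4 141 (.bis 2 7 4 1 51 (.leaf 2) (.leaf 2)) (.leaf 2))))
  (.bis 1 4 4 1 71 (.bis 2 4 4 1 72 (.leaf 5) (.bis 0 2 1 4 141 (.bis 2 7 4 1 51 (.leaf 2) (.bis
  2 5 8 1 247 (.leaf 2) (.leaf 2))) (.leaf 2))) (.bis 0 1 1 8 138 (.bis 1 7 4 1 50 (.bis 2 7 4 1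
  51 (.leaf 2) (.bis 2 5 8 1 247 (.leaf 2) (.bis 2 6 4 1 142 (.leaf 2) (.leaf 2)))) (.bis 1 2 1 1
  47 (.bis 2 5 8 1 247 (.leaf 2) (.leaf 2)) (.leaf 9))) (.bis 0 2 1 4 141 (.bis 2 7 4 1 51 (.leaf
  2) (.bis 2 5 8 1 247 (.leaf 2) (.leaf 2))) (.leaf 2)))))))) (.bis 1 5 4 1 245 (.bis 2 5 4 1 239
  (.bis 3 6 2 1 170 (.bis 4 6 1 2 166 (.leaf 10) (.leaf 23)) (.bis 0 3 1 4 171 (.bis 3 5 4 1 193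
  (.leaf 23) (.bis 1 3 1 8 248 (.bis 3 4 4 1 81 (.leaf 4) (.bis 3 7 4 1 82 (.leaf 4) (.leaf 7)))
  (.leaf 4))) (.leaf 23))) (.bis 2 6 2 1 140 (.bis 3 6 2 1 170 (.bis 4 6 1 2 166 (.leaf 10)
  (.leaf 4)) (.bis 0 3 1 4 171 (.bis 1 3 1 8 248 (.bis 2 4 1 1 172 (.bis 3 4 4 1 81 (.leaf 4)
  (.bis 3 7 4 1 82 (.leaf 4) (.leaf 7))) (.bis 3 7 4 1 82 (.leaf 4) (.bis 2 3 1 4 173 (.leaf 7)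
  (.leaf 4)))) (.leaf 4)) (.leaf 4))) (.bis 0 3 1 4 171 (.bis 2 4 4 1 72 (.bis 1 3 1 8 248 (.bis
  4 6 1 1 172 (.bis 3 7 4 1 82 (.leaf 4) (.bis 3 6 4 1 173 (.leaf 4) (.bis 3 5 8 1 252 (.leaf 4)
  (.leaf 7)))) (.bis 3 4 4 1 81 (.leaf 4) (.bis 3 7 4 1 82 (.leaf 4) (.bis 3 5 8 1 252 (.leaf 4)
  (.leaf 7))))) (.leaf 4)) (.bis 2 7 4 1 76 (.bis 1 3 1 8 248 (.bis 3 7 4 1 82 (.leaf 4) (.bis 3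
  6 4 1 173 (.leaf 4) (.bis 3 5 8 1 252 (.leaf 4) (.leaf 7)))) (.leaf 4)) (.bis 2 3 1 1 84 (.bis
  1 3 1 8 248 (.bis 3 6 4 1 173 (.leaf 2) (.leaf 7)) (.leaf 2)) (.leaf 2)))) (.bis 2 4 4 1 72
  (.leaf 4) (.bis 2 7 4 1 76 (.leaf 4) (.bis 0 2 1 4 141 (.bis 2 3 8 1 253 (.leaf 2) (.leaf 2))
  (.leaf 2))))))) (.bis 1 3 1 1 77 (.bis 2 6 2 1 140 (.bis 3 6 2 1 170 (.bis 4 6 1 2 166 (.bis 1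
  6 1 1 180 (.leaf 10) (.leaf 4)) (.leaf 4)) (.bis 0 3 1 4 171 (.bis 3 5 8 1 248 (.leaf 4) (.bis
  2 4 1 1 172 (.bis 3 4 4 1 81 (.leaf 4) (.leaf 36)) (.bis 3 7 4 1 82 (.leaf 4) (.leaf 7))))
  (.leaf 4))) (.bis 0 3 1 4 171 (.bis 2 4 4 1 72 (.bis 3 5 8 1 248 (.leaf 4) (.bis 4 6 1 1 172
  (.bis 3 7 4 1 82 (.leaf 4) (.bis 3 6 4 1 173 (.leaf 4) (.leaf 7))) (.bis 3 4 4 1 81 (.leaf 4)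
  (.bis 3 7 4 1 82 (.leaf 4) (.leaf 7))))) (.bis 2 7 4 1 76 (.bis 3 5 8 1 248 (.leaf 4) (.bis 3 7
  4 1 82 (.leaf 4) (.bis 3 6 4 1 173 (.leaf 4) (.leaf 7)))) (.bis 2 3 1 1 84 (.bis 3 5 8 1 248
  (.leaf 2) (.bis 3 6 4 1 173 (.leaf 2) (.leaf 7))) (.leaf 2)))) (.bis 2 4 4 1 72 (.leaf 4) (.bis
  2 7 4 1 76 (.leaf 4) (.bis 0 2 1 4 141 (.leaf 2) (.leaf 2)))))) (.bis 1 6 2 1 137 (.bis 2 6 2 1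
  140 (.bis 4 6 1 2 166 (.leaf 32) (.leaf 4)) (.bis 2 4 4 1 72 (.leaf 4) (.bis 2 7 4 1 76 (.leaf
  4) (.bis 0 2 1 4 141 (.leaf 2) (.leaf 2))))) (.bis 1 4 4 1 71 (.bis 2 4 4 1 72 (.leaf 4) (.bis
  2 7 4 1 76 (.leaf 4) (.bis 0 2 1 4 141 (.leaf 2) (.leaf 2)))) (.bis 1 7 4 1 74 (.bis 2 7 4 1 76
  (.leaf 4) (.bis 0 2 1 4 141 (.bis 2 5 8 1 247 (.leaf 2) (.leaf 2)) (.leaf 2))) (.bis 0 1 1 8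
  138 (.bis 1 2 1 1 47 (.bis 2 5 8 1 247 (.leaf 2) (.leaf 2)) (.leaf 9)) (.bis 0 2 1 4 141 (.bis
  2 5 8 1 247 (.leaf 2) (.bis 2 6 4 1 142 (.leaf 2) (.leaf 2))) (.leaf 2)))))))))) (.bis 3 7 2 1
  73 (.bis 2 7 2 1 48 (.bis 1 7 2 1 34 (.bis 0 7 1 1 158 (.bis 6 7 1 1 130 (.leaf 33) (.bis 4 6 1
  2 132 (.leaf 10) (.leaf 10))) (.bis 0 1 2 1 161 (.bis 4 6 1 2 132 (.leaf 10) (.leaf 10)) (.bis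
  0 2 2 1 162 (.leaf 10) (.bis 0 3 2 1 178 (.leaf 10) (.leaf 115))))) (.bis 1 5 4 1 245 (.bis 0 7
  2 1 161 (.bis 4 6 1 2 132 (.leaf 10) (.leaf 10)) (.bis 0 2 2 1 162 (.leaf 10) (.bis 0 3 2 1 178
  (.leaf 10) (.bis 0 5 2 1 192 (.leaf 10) (.leaf 41))))) (.bis 0 1 1 2 163 (.bis 1 6 2 1 137
  (.bis 0 3 1 1 174 (.bis 4 6 1 2 132 (.leaf 10) (.leaf 5)) (.leaf 10)) (.bis 1 3 4 1 74 (.leaf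
  5) (.bis 1 4 8 1 138 (.leaf 5) (.bis 1 2 4 1 50 (.leaf 5) (.leaf 9))))) (.bis 0 7 2 1 161 (.bis
  1 3 1 1 174 (.bis 4 6 1 2 132 (.leaf 10) (.leaf 5)) (.bis 4 6 1 2 132 (.leaf 10) (.leaf 5)))
  (.bis 0 2 2 1 162 (.leaf 10) (.leaf 41)))))) (.bis 1 5 4 1 245 (.bis 2 5 4 1 239 (.bis 0 7 2 1
  162 (.bis 4 6 1 2 132 (.leaf 10) (.leaf 10)) (.bis 0 3 2 1 178 (.leaf 10) (.bis 0 5 2 1 192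
  (.leaf 10) (.leaf 41)))) (.bis 0 2 1 2 164 (.bis 2 6 2 1 140 (.leaf 10) (.bis 2 3 4 1 76 (.leaf
  10) (.bis 2 4 4 1 141 (.leaf 2) (.bis 2 7 4 1 51 (.leaf 2) (.leaf 2))))) (.bis 0 7 2 1 162
  (.leaf 10) (.bis 0 3 2 1 178 (.leaf 10) (.leaf 41))))) (.bis 0 1 1 2 163 (.bis 1 6 2 1 137
  (.bis 2 6 2 1 140 (.leaf 10) (.bis 2 3 4 1 76 (.leaf 5) (.bis 2 4 4 1 141 (.leaf 2) (.bis 2 7 4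
  1 51 (.leaf 2) (.leaf 2))))) (.bis 1 3 4 1 74 (.bis 2 3 4 1 76 (.leaf 5) (.bis 2 4 4 1 141
  (.leaf 2) (.bis 2 7 4 1 51 (.leaf 2) (.bis 0 2 1 4 175 (.leaf 2) (.leaf 2))))) (.bis 1 4 8 1
  138 (.bis 2 4 4 1 141 (.leaf 2) (.bis 2 7 4 1 51 (.leaf 2) (.bis 0 2 1 4 175 (.leaf 2) (.leaf
  2)))) (.bis 1 7 4 1 50 (.bis 2 7 4 1 51 (.leaf 2) (.bis 0 2 1 4 175 (.bis 2 5 8 1 247 (.leaf 2)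
  (.leaf 2)) (.leaf 2))) (.bis 1 2 1 1 47 (.bis 0 2 1 4 175 (.leaf 2) (.leaf 2)) (.leaf 9))))))
  (.bis 0 2 1 2 164 (.bis 2 6 2 1 140 (.leaf 10) (.bis 2 3 4 1 76 (.leaf 10) (.bis 2 4 4 1 141
  (.leaf 2) (.bis 2 7 4 1 51 (.leaf 2) (.leaf 2))))) (.bis 0 7 2 1 162 (.leaf 10) (.leaf 41))))))
  (.bis 1 5 4 1 245 (.bis 2 5 4 1 239 (.bis 0 3 1 2 177 (.bis 3 6 2 1 170 (.leaf 10) (.bis 3 4 4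
  1 171 (.leaf 10) (.bis 3 5 4 1 193 (.leaf 10) (.bis 1 3 1 8 248 (.bis 3 7 4 1 82 (.leaf 4)
  (.leaf 7)) (.leaf 4))))) (.bis 0 7 2 1 178 (.leaf 10) (.bis 0 5 2 1 192 (.leaf 10) (.leaf
  41)))) (.bis 0 2 1 2 164 (.bis 2 6 2 1 140 (.bis 3 6 2 1 170 (.leaf 10) (.bis 3 4 4 1 171
  (.leaf 4) (.bis 1 3 1 8 248 (.bis 0 3 1 4 176 (.bis 3 7 4 1 82 (.leaf 4) (.leaf 7)) (.leaf 4))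
  (.leaf 4)))) (.bis 3 4 4 1 171 (.bis 2 7 4 1 76 (.leaf 4) (.bis 2 4 4 1 141 (.leaf 2) (.bis 2 3
  8 1 253 (.leaf 2) (.leaf 2)))) (.bis 2 7 4 1 76 (.bis 1 3 1 8 248 (.bis 0 3 1 4 176 (.bis 3 7 4
  1 82 (.leaf 4) (.bis 3 6 4 1 173 (.leaf 4) (.leaf 7))) (.leaf 4)) (.leaf 4)) (.bis 2 3 1 1 84
  (.bis 1 3 1 8 248 (.bis 0 3 1 4 176 (.bis 3 6 4 1 173 (.leaf 2) (.leaf 7)) (.leaf 2)) (.leaf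
  2)) (.leaf 2))))) (.bis 0 3 1 2 177 (.bis 3 6 2 1 170 (.leaf 10) (.bis 3 4 4 1 171 (.leaf 4)
  (.bis 1 3 1 8 248 (.bis 2 3 1 4 176 (.bis 3 7 4 1 82 (.leaf 4) (.leaf 7)) (.leaf 4)) (.leaf
  4)))) (.bis 0 7 2 1 178 (.leaf 10) (.leaf 41))))) (.bis 1 3 1 1 77 (.bis 0 2 1 2 164 (.bis 2 6
  2 1 140 (.bis 3 6 2 1 170 (.leaf 32) (.bis 3 4 4 1 171 (.leaf 4) (.bis 3 5 8 1 248 (.leaf 4)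
  (.bis 0 3 1 4 176 (.leaf 36) (.leaf 4))))) (.bis 3 4 4 1 171 (.bis 2 7 4 1 76 (.leaf 4) (.bis 2
  4 4 1 141 (.leaf 2) (.leaf 2))) (.bis 2 7 4 1 76 (.bis 3 5 8 1 248 (.leaf 4) (.bis 0 3 1 4 176
  (.bis 3 7 4 1 82 (.leaf 4) (.leaf 7)) (.leaf 4))) (.bis 2 3 1 1 84 (.bis 3 5 8 1 248 (.leaf 2)
  (.bis 0 3 1 4 176 (.leaf 7) (.leaf 2))) (.leaf 2))))) (.bis 0 3 1 2 177 (.bis 3 6 2 1 170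
  (.leaf 32) (.bis 3 4 4 1 171 (.leaf 4) (.bis 3 5 8 1 248 (.leaf 4) (.bis 2 3 1 4 176 (.leaf 36)
  (.leaf 4))))) (.bis 0 7 2 1 178 (.leaf 32) (.bis 0 1 1 1 179 (.bis 1 6 1 1 180 (.leaf 10)
  (.leaf 4)) (.leaf 41))))) (.bis 0 1 1 2 163 (.bis 1 6 2 1 137 (.bis 2 6 2 1 140 (.leaf 32)
  (.bis 2 7 4 1 76 (.leaf 5) (.bis 2 4 4 1 141 (.leaf 2) (.bis 0 2 1 4 175 (.leaf 2) (.leaf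
  2))))) (.bis 1 7 4 1 74 (.bis 2 7 4 1 76 (.leaf 5) (.bis 2 4 4 1 141 (.leaf 2) (.bis 0 2 1 4
  175 (.leaf 2) (.leaf 2)))) (.bis 1 4 8 1 138 (.bis 2 4 4 1 141 (.leaf 2) (.bis 0 2 1 4 175
  (.bis 2 5 8 1 247 (.leaf 2) (.leaf 2)) (.leaf 2))) (.bis 1 2 1 1 47 (.bis 0 2 1 4 175 (.leaf 2)
  (.leaf 2)) (.leaf 9))))) (.bis 0 2 1 2 164 (.bis 2 6 2 1 140 (.leaf 32) (.bis 2 7 4 1 76 (.leaf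
  32) (.bis 2 4 4 1 141 (.leaf 2) (.leaf 2)))) (.bis 0 7 2 1 178 (.bis 3 6 1 1 180 (.leaf 10)
  (.leaf 32)) (.bis 0 3 1 1 179 (.bis 3 6 1 1 180 (.leaf 10) (.leaf 11)) (.leaf 41)))))))))

def lc5 : List Vr := [⟨[60,0,0,0,0,85,0,0], 90050, 0⟩, ⟨[0,24,0,0,0,0,0,0], 13824, 0⟩, ⟨[0,0,27,0,
  0,0,0,0], 14580, 0⟩, ⟨[0,0,0,30,0,0,0,0], 14400, 0⟩, ⟨[0,0,0,0,85,0,0,121], 96730, 0⟩, ⟨[0,0,0,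
  0,85,170,0,121], 434690, 0⟩, ⟨[0,0,0,0,0,85,42,0], 85682, 0⟩, ⟨[0,0,0,0,0,85,0,121], 96730, 0⟩]

theorem lk5 : chkTr lowT (leafLow 4 lowB) lt5 lc5 = true := by decide +kernel

def lt6 : Tr ℕ := (.bis 3 6 1 1 59 (.bis 4 5 1 1 128 (.bis 5 6 1 2 154 (.bis 6 7 2 1 17 (.bis 2 7
  2 1 48 (.bis 1 7 2 1 34 (.bis 3 7 1 1 63 (.bis 0 7 1 2 90 (.bis 5 7 1 2 155 (.leaf 12) (.bis 0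
  5 1 2 254 (.leaf 3) (.leaf 3))) (.bis 0 6 1 1 255 (.bis 5 7 2 1 254 (.leaf 3) (.leaf 3)) (.bis
  0 2 1 1 256 (.bis 5 7 2 1 254 (.leaf 3) (.leaf 3)) (.bis 0 3 1 1 257 (.bis 5 7 2 1 254 (.leaf
  3) (.leaf 3)) (.bis 0 5 1 1 258 (.leaf 3) (.leaf 3)))))) (.bis 0 3 1 2 93 (.leaf 3) (.leaf 3)))
  (.bis 1 6 4 1 28 (.leaf 3) (.bis 1 4 8 1 138 (.leaf 3) (.bis 1 2 4 1 50 (.bis 0 3 1 2 93 (.leaf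
  3) (.leaf 3)) (.bis 0 1 1 4 87 (.leaf 9) (.leaf 3)))))) (.bis 2 6 4 1 43 (.bis 1 6 4 1 28 (.bis
  0 3 1 2 93 (.leaf 3) (.leaf 3)) (.bis 1 4 8 1 138 (.leaf 3) (.bis 1 7 4 1 50 (.bis 0 3 1 2 93
  (.leaf 3) (.leaf 3)) (.bis 0 1 1 4 87 (.leaf 6) (.leaf 3))))) (.bis 0 2 1 4 89 (.bis 1 4 8 1
  138 (.bis 2 4 4 1 141 (.leaf 3) (.bis 2 5 4 1 157 (.leaf 3) (.leaf 2))) (.bis 1 7 4 1 50 (.bis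
  2 5 4 1 157 (.leaf 3) (.bis 2 7 4 1 51 (.leaf 2) (.leaf 2))) (.bis 2 5 4 1 157 (.leaf 6) (.leaf
  6)))) (.bis 1 4 8 1 138 (.leaf 3) (.bis 1 7 4 1 50 (.leaf 3) (.bis 0 1 1 4 87 (.leaf 6) (.leaf
  3))))))) (.bis 2 6 1 1 39 (.bis 4 6 1 4 143 (.bis 0 6 1 4 88 (.bis 1 6 1 1 26 (.leaf 39) (.bis
  1 7 4 1 28 (.leaf 3) (.leaf 9))) (.bis 1 7 4 1 28 (.bis 0 2 1 2 92 (.leaf 3) (.leaf 3)) (.bis 0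
  1 1 4 87 (.leaf 9) (.leaf 3)))) (.bis 1 7 4 1 28 (.bis 2 4 2 1 148 (.leaf 3) (.bis 0 2 1 2 92
  (.leaf 3) (.leaf 3))) (.bis 1 4 8 1 138 (.leaf 3) (.bis 0 1 1 4 87 (.leaf 9) (.leaf 3)))))
  (.bis 2 7 4 1 43 (.bis 1 7 4 1 28 (.bis 4 6 1 2 148 (.bis 0 6 1 2 92 (.leaf 3) (.leaf 3))
  (.leaf 3)) (.bis 1 4 8 1 138 (.leaf 3) (.bis 0 1 1 4 87 (.leaf 6) (.bis 0 6 1 2 92 (.leaf 3)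
  (.leaf 3))))) (.bis 0 2 1 4 89 (.bis 1 4 8 1 138 (.bis 2 4 4 1 141 (.leaf 3) (.bis 2 5 4 1 157
  (.leaf 3) (.leaf 6))) (.bis 2 5 4 1 157 (.leaf 6) (.leaf 6))) (.bis 1 4 8 1 138 (.leaf 3) (.bis
  0 1 1 4 87 (.leaf 6) (.leaf 3))))))) (.bis 2 7 2 1 48 (.bis 1 7 2 1 34 (.bis 5 7 1 1 158 (.bis
  3 7 1 1 63 (.bis 0 7 1 2 90 (.bis 6 7 1 2 155 (.leaf 12) (.bis 0 6 1 2 254 (.leaf 14) (.leaf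
  12))) (.bis 0 5 1 1 259 (.bis 6 7 2 1 254 (.leaf 12) (.leaf 14)) (.bis 0 2 1 1 256 (.bis 6 7 2
  1 254 (.leaf 3) (.leaf 3)) (.bis 0 3 1 1 257 (.bis 6 7 2 1 254 (.leaf 3) (.leaf 3)) (.bis 0 6 1
  1 258 (.leaf 3) (.leaf 3)))))) (.bis 3 5 2 1 159 (.bis 0 5 1 1 259 (.leaf 14) (.leaf 3)) (.bis
  0 3 1 2 93 (.leaf 3) (.leaf 3)))) (.bis 0 5 1 2 260 (.bis 3 5 1 1 160 (.bis 1 5 1 2 161 (.leaf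
  41) (.leaf 14)) (.bis 3 7 2 1 159 (.leaf 14) (.leaf 5))) (.bis 3 7 2 1 159 (.leaf 50) (.leaf
  9)))) (.bis 1 5 2 1 163 (.bis 0 5 1 2 260 (.bis 3 5 1 1 160 (.bis 5 7 2 1 161 (.leaf 5) (.leaf
  41)) (.leaf 5)) (.bis 0 3 1 2 93 (.leaf 5) (.leaf 9))) (.bis 1 4 8 1 138 (.leaf 9) (.bis 1 2 4
  1 50 (.bis 0 3 1 2 93 (.leaf 5) (.leaf 9)) (.bis 0 1 1 4 87 (.leaf 9) (.leaf 9)))))) (.bis 1 5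
  2 1 163 (.bis 2 5 2 1 164 (.bis 0 5 1 2 260 (.bis 3 5 1 1 160 (.bis 5 7 2 1 162 (.leaf 14)
  (.leaf 26)) (.leaf 14)) (.bis 0 2 1 1 261 (.leaf 14) (.bis 0 3 1 2 93 (.leaf 5) (.leaf 9))))
  (.bis 0 2 1 4 89 (.bis 2 4 4 1 141 (.leaf 14) (.bis 2 6 4 1 157 (.leaf 14) (.leaf 2))) (.leaf
  66))) (.bis 0 2 1 4 89 (.bis 1 4 8 1 138 (.bis 2 4 4 1 141 (.leaf 5) (.bis 2 6 4 1 157 (.leaf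
  5) (.leaf 2))) (.bis 1 7 4 1 50 (.bis 2 6 4 1 157 (.leaf 5) (.bis 2 7 4 1 51 (.leaf 2) (.leaf
  2))) (.bis 2 6 4 1 157 (.leaf 6) (.bis 1 2 1 1 47 (.leaf 2) (.leaf 6))))) (.bis 1 4 8 1 138
  (.leaf 9) (.bis 1 7 4 1 50 (.leaf 9) (.bis 0 1 1 4 87 (.leaf 6) (.leaf 9)))))))) (.bis 4 6 1 2
  16 (.bis 6 7 2 1 17 (.bis 2 7 2 1 48 (.bis 1 7 2 1 34 (.bis 3 7 1 1 63 (.bis 0 7 1 2 90 (.leaf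
  12) (.leaf 3)) (.bis 0 3 1 2 93 (.bis 2 4 1 1 135 (.bis 3 5 2 1 133 (.leaf 3) (.leaf 3)) (.bis
  3 5 2 1 133 (.leaf 3) (.leaf 3))) (.leaf 3))) (.bis 1 4 4 1 27 (.bis 0 3 1 2 93 (.leaf 3)
  (.leaf 3)) (.bis 1 6 4 1 28 (.bis 0 3 1 2 93 (.leaf 3) (.leaf 3)) (.bis 1 5 8 1 138 (.leaf 3)
  (.bis 1 2 4 1 50 (.leaf 3) (.bis 0 1 1 4 87 (.leaf 9) (.leaf 3))))))) (.bis 2 4 4 1 42 (.bis 1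
  4 4 1 27 (.leaf 3) (.bis 1 6 4 1 28 (.leaf 3) (.bis 1 5 8 1 138 (.leaf 3) (.bis 1 7 4 1 50
  (.leaf 3) (.bis 0 1 1 4 87 (.leaf 6) (.leaf 3)))))) (.bis 2 6 4 1 43 (.bis 1 6 4 1 28 (.leaf 3)
  (.bis 1 5 8 1 138 (.leaf 3) (.bis 1 7 4 1 50 (.bis 0 3 1 2 93 (.leaf 2) (.leaf 3)) (.bis 0 1 1
  4 87 (.leaf 6) (.leaf 3))))) (.bis 0 2 1 4 89 (.bis 1 5 8 1 138 (.bis 2 5 4 1 141 (.leaf 2)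
  (.bis 2 7 4 1 51 (.leaf 2) (.leaf 2))) (.bis 1 7 4 1 50 (.bis 2 7 4 1 51 (.leaf 2) (.leaf 2))
  (.bis 1 2 1 1 47 (.leaf 2) (.leaf 6)))) (.bis 1 5 8 1 138 (.leaf 3) (.bis 1 7 4 1 50 (.leaf 3)
  (.leaf 9))))))) (.bis 2 6 1 1 39 (.bis 5 6 1 4 143 (.bis 0 6 1 4 88 (.bis 1 6 1 1 26 (.leaf 39)
  (.bis 1 4 4 1 27 (.leaf 3) (.bis 1 7 4 1 28 (.leaf 3) (.leaf 9)))) (.bis 1 4 4 1 27 (.leaf 3)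
  (.bis 1 7 4 1 28 (.bis 0 2 1 2 92 (.leaf 3) (.leaf 3)) (.bis 0 1 1 4 87 (.leaf 9) (.leaf 3)))))
  (.bis 1 4 4 1 27 (.leaf 3) (.bis 1 7 4 1 28 (.leaf 3) (.bis 1 5 8 1 138 (.leaf 3) (.bis 0 1 1 4
  87 (.leaf 9) (.leaf 3)))))) (.bis 2 4 4 1 42 (.bis 1 4 4 1 27 (.leaf 3) (.bis 1 7 4 1 28 (.leaf
  3) (.bis 1 5 8 1 138 (.leaf 3) (.bis 0 1 1 4 87 (.leaf 6) (.leaf 3))))) (.bis 2 7 4 1 43 (.bis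
  1 7 4 1 28 (.bis 5 6 1 2 148 (.bis 0 6 1 2 92 (.leaf 3) (.leaf 3)) (.leaf 3)) (.bis 1 5 8 1 138
  (.leaf 3) (.bis 0 1 1 4 87 (.leaf 6) (.leaf 3)))) (.bis 0 2 1 4 89 (.bis 1 5 8 1 138 (.bis 2 5
  4 1 141 (.leaf 3) (.leaf 6)) (.bis 1 2 1 1 47 (.leaf 6) (.leaf 6))) (.bis 1 5 8 1 138 (.leaf 3)
  (.bis 0 1 1 4 87 (.leaf 6) (.leaf 3)))))))) (.bis 2 4 2 1 53 (.bis 1 4 2 1 35 (.bis 3 4 1 1 66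
  (.bis 0 7 1 2 90 (.bis 4 7 1 1 36 (.leaf 12) (.leaf 19)) (.leaf 19)) (.bis 3 7 1 1 63 (.bis 0 7
  1 2 90 (.bis 6 7 1 2 68 (.leaf 12) (.leaf 3)) (.leaf 3)) (.bis 0 3 1 2 93 (.bis 3 5 2 1 133
  (.leaf 3) (.leaf 3)) (.leaf 3)))) (.bis 1 7 2 1 34 (.bis 3 7 1 1 63 (.bis 0 7 1 2 90 (.leaf 12)
  (.leaf 3)) (.bis 0 3 1 2 93 (.bis 3 5 2 1 133 (.leaf 3) (.leaf 3)) (.leaf 3))) (.bis 1 6 4 1 27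
  (.bis 0 3 1 2 93 (.leaf 3) (.leaf 3)) (.bis 1 5 8 1 138 (.bis 0 3 1 2 93 (.leaf 3) (.leaf 3))
  (.bis 1 2 4 1 55 (.leaf 3) (.bis 0 1 1 4 87 (.leaf 9) (.leaf 3))))))) (.bis 2 7 2 1 48 (.bis 1
  7 2 1 34 (.bis 3 7 1 1 63 (.bis 0 7 1 2 90 (.leaf 12) (.leaf 3)) (.bis 0 3 1 2 93 (.bis 2 6 1 1
  135 (.bis 3 5 2 1 133 (.leaf 3) (.leaf 3)) (.bis 3 5 2 1 133 (.leaf 3) (.leaf 3))) (.leaf 3)))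
  (.bis 1 6 4 1 27 (.bis 0 3 1 2 93 (.leaf 3) (.leaf 3)) (.bis 1 5 8 1 138 (.bis 0 3 1 2 93
  (.leaf 3) (.leaf 3)) (.bis 1 2 4 1 50 (.leaf 3) (.bis 1 4 4 1 55 (.leaf 3) (.leaf 9)))))) (.bis
  2 6 4 1 42 (.bis 1 6 4 1 27 (.leaf 3) (.bis 1 5 8 1 138 (.leaf 3) (.bis 1 4 4 1 55 (.leaf 3)
  (.bis 1 7 4 1 50 (.leaf 3) (.leaf 9))))) (.bis 0 2 1 4 89 (.bis 1 5 8 1 138 (.bis 2 5 4 1 141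
  (.leaf 2) (.bis 2 4 4 1 56 (.leaf 2) (.leaf 2))) (.bis 1 4 4 1 55 (.bis 2 4 4 1 56 (.leaf 2)
  (.bis 2 7 4 1 51 (.leaf 2) (.leaf 2))) (.bis 1 7 4 1 50 (.bis 2 7 4 1 51 (.leaf 2) (.leaf 2))
  (.bis 1 2 1 1 47 (.leaf 2) (.leaf 6))))) (.bis 1 5 8 1 138 (.leaf 3) (.bis 1 4 4 1 55 (.leaf 3)
  (.bis 1 7 4 1 50 (.leaf 3) (.leaf 9)))))))))) (.bis 4 5 1 1 128 (.bis 3 7 2 1 73 (.bis 2 7 2 1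
  48 (.bis 1 7 2 1 34 (.bis 5 7 1 1 158 (.bis 6 7 1 1 63 (.bis 0 7 1 2 90 (.leaf 12) (.bis 0 3 1
  1 94 (.leaf 12) (.leaf 50))) (.bis 0 3 1 1 94 (.bis 5 6 1 2 159 (.bis 4 6 1 2 133 (.bis 3 6 1 2
  96 (.leaf 3) (.leaf 5)) (.leaf 5)) (.leaf 10)) (.bis 5 6 1 2 159 (.bis 0 6 1 2 93 (.leaf 3)
  (.leaf 3)) (.bis 0 5 1 1 259 (.leaf 10) (.leaf 3))))) (.bis 0 5 1 2 260 (.bis 5 6 1 1 160 (.bis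
  6 7 2 1 159 (.leaf 10) (.bis 0 6 1 4 262 (.leaf 5) (.leaf 5))) (.bis 1 5 1 2 161 (.bis 2 5 1 2
  162 (.leaf 41) (.leaf 10)) (.leaf 10))) (.bis 0 3 1 1 94 (.bis 6 7 2 1 159 (.leaf 10) (.bis 5 6
  1 4 262 (.leaf 5) (.leaf 5))) (.bis 6 7 2 1 159 (.leaf 50) (.bis 0 6 1 2 93 (.leaf 5) (.leaf
  9)))))) (.bis 1 5 2 1 163 (.bis 0 5 1 2 260 (.bis 5 6 1 1 160 (.bis 1 3 1 1 174 (.bis 0 6 1 4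
  262 (.leaf 5) (.leaf 5)) (.bis 0 6 1 4 262 (.leaf 5) (.leaf 5))) (.bis 5 7 2 1 161 (.leaf 5)
  (.bis 2 5 1 2 162 (.bis 3 5 1 2 178 (.leaf 26) (.leaf 5)) (.leaf 5)))) (.bis 0 3 1 1 94 (.bis 1
  3 1 1 174 (.bis 5 6 1 4 262 (.bis 4 6 1 2 133 (.leaf 5) (.leaf 5)) (.leaf 5)) (.bis 5 6 1 4 262
  (.leaf 5) (.leaf 5))) (.bis 0 6 1 2 93 (.leaf 5) (.bis 0 1 1 1 263 (.leaf 5) (.leaf 9)))))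
  (.bis 1 3 4 1 74 (.bis 0 3 1 1 94 (.bis 3 5 1 1 174 (.leaf 5) (.bis 4 6 1 2 133 (.leaf 5)
  (.leaf 5))) (.bis 0 6 1 2 93 (.bis 2 5 1 1 264 (.leaf 5) (.leaf 3)) (.bis 0 5 1 1 263 (.leaf 5)
  (.leaf 3)))) (.bis 1 4 8 1 138 (.leaf 9) (.bis 1 2 4 1 50 (.bis 0 6 1 2 93 (.leaf 5) (.leaf 9))
  (.bis 0 1 1 4 87 (.leaf 9) (.leaf 9))))))) (.bis 1 5 2 1 163 (.bis 2 5 2 1 164 (.bis 0 5 1 2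
  260 (.bis 5 6 1 1 160 (.bis 1 3 1 1 174 (.bis 0 6 1 4 262 (.leaf 14) (.leaf 10)) (.bis 0 6 1 4
  262 (.leaf 2) (.leaf 10))) (.leaf 41)) (.bis 0 2 1 1 261 (.bis 1 3 1 1 174 (.bis 5 6 1 4 262
  (.leaf 14) (.leaf 10)) (.bis 5 6 1 4 262 (.leaf 2) (.leaf 10))) (.bis 0 3 1 1 94 (.bis 1 3 1 1
  174 (.bis 5 6 1 4 262 (.leaf 5) (.leaf 5)) (.bis 5 6 1 4 262 (.leaf 2) (.leaf 5))) (.bis 0 6 1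
  2 93 (.leaf 5) (.leaf 9))))) (.bis 0 2 1 4 89 (.bis 2 3 4 1 76 (.leaf 14) (.bis 2 4 4 1 141
  (.leaf 2) (.leaf 2))) (.bis 0 5 1 1 261 (.leaf 14) (.bis 0 3 1 1 94 (.bis 1 3 1 1 174 (.bis 2 3
  1 2 265 (.bis 4 6 1 2 133 (.leaf 5) (.leaf 5)) (.leaf 2)) (.leaf 2)) (.bis 0 6 1 2 93 (.leaf 2)
  (.bis 0 1 1 1 263 (.leaf 2) (.leaf 3))))))) (.bis 1 3 4 1 74 (.bis 0 2 1 4 89 (.bis 2 3 4 1 76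
  (.bis 3 5 1 1 174 (.leaf 2) (.leaf 5)) (.bis 2 4 4 1 141 (.leaf 2) (.bis 2 7 4 1 51 (.leaf 2)
  (.leaf 2)))) (.bis 0 3 1 1 94 (.bis 3 5 1 1 174 (.leaf 2) (.leaf 5)) (.leaf 9))) (.bis 0 2 1 4
  89 (.bis 1 4 8 1 138 (.bis 2 4 4 1 141 (.leaf 2) (.bis 2 7 4 1 51 (.leaf 2) (.leaf 2))) (.bis 1
  7 4 1 50 (.bis 2 7 4 1 51 (.leaf 2) (.bis 2 5 4 1 175 (.leaf 2) (.leaf 2))) (.bis 1 2 1 1 47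
  (.leaf 2) (.leaf 6)))) (.bis 1 4 8 1 138 (.leaf 9) (.bis 1 7 4 1 50 (.leaf 9) (.bis 0 1 1 4 87
  (.leaf 6) (.leaf 9)))))))) (.bis 0 3 1 4 97 (.bis 1 3 1 1 77 (.bis 2 5 2 1 164 (.bis 3 5 2 1
  177 (.bis 5 6 1 1 160 (.leaf 4) (.bis 5 7 2 1 178 (.leaf 4) (.leaf 26))) (.bis 3 4 4 1 171
  (.leaf 4) (.bis 2 3 1 4 176 (.bis 3 7 4 1 82 (.leaf 4) (.leaf 36)) (.leaf 4)))) (.bis 3 4 4 1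
  171 (.bis 2 7 4 1 76 (.leaf 4) (.bis 2 4 4 1 141 (.leaf 2) (.leaf 2))) (.bis 2 7 4 1 76 (.bis 3
  5 4 1 176 (.leaf 4) (.bis 3 7 4 1 82 (.leaf 4) (.leaf 36))) (.bis 2 3 1 1 84 (.bis 3 5 4 1 176
  (.leaf 2) (.leaf 36)) (.leaf 2))))) (.bis 1 5 2 1 163 (.bis 2 5 2 1 164 (.bis 5 6 1 1 160
  (.leaf 32) (.bis 5 7 2 1 178 (.leaf 32) (.leaf 26))) (.bis 2 7 4 1 76 (.leaf 32) (.bis 2 4 4 1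
  141 (.leaf 2) (.leaf 2)))) (.bis 1 7 4 1 74 (.bis 2 7 4 1 76 (.leaf 5) (.bis 2 4 4 1 141 (.leaf
  2) (.bis 2 5 4 1 175 (.leaf 2) (.leaf 2)))) (.bis 1 4 8 1 138 (.bis 2 4 4 1 141 (.leaf 2) (.bis
  2 5 4 1 175 (.leaf 2) (.leaf 2))) (.bis 0 1 1 8 98 (.bis 1 2 1 1 47 (.leaf 2) (.leaf 6)) (.bis
  2 5 4 1 175 (.leaf 2) (.bis 2 6 2 1 99 (.leaf 2) (.leaf 2)))))))) (.bis 1 5 2 1 163 (.bis 2 5 2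
  1 164 (.bis 0 5 1 2 260 (.bis 5 6 1 1 160 (.leaf 14) (.bis 5 7 2 1 178 (.leaf 10) (.leaf 26)))
  (.bis 0 2 1 1 261 (.bis 1 7 1 1 174 (.bis 5 6 1 4 262 (.leaf 4) (.leaf 10)) (.bis 5 6 1 4 262
  (.leaf 2) (.leaf 10))) (.bis 0 7 1 1 94 (.bis 1 7 1 1 174 (.bis 5 6 1 4 262 (.leaf 4) (.leaf
  5)) (.bis 5 6 1 4 262 (.leaf 2) (.leaf 5))) (.bis 0 6 1 2 93 (.leaf 5) (.leaf 9))))) (.bis 0 2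
  1 4 89 (.bis 2 7 4 1 76 (.leaf 14) (.bis 2 4 4 1 141 (.leaf 2) (.leaf 2))) (.leaf 66))) (.bis 1
  7 4 1 74 (.bis 0 2 1 4 89 (.bis 2 7 4 1 76 (.leaf 5) (.bis 2 4 4 1 141 (.leaf 2) (.bis 2 5 4 1
  175 (.leaf 2) (.leaf 2)))) (.leaf 66)) (.bis 0 2 1 4 89 (.bis 1 4 8 1 138 (.bis 2 4 4 1 141
  (.leaf 2) (.bis 2 5 4 1 175 (.leaf 2) (.leaf 2))) (.bis 1 3 8 1 98 (.bis 2 5 4 1 175 (.leaf 2)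
  (.bis 2 6 2 1 99 (.leaf 2) (.leaf 2))) (.bis 1 2 1 1 47 (.leaf 2) (.leaf 6)))) (.bis 1 4 8 1
  138 (.leaf 9) (.leaf 9))))))) (.bis 3 4 2 1 69 (.bis 2 4 2 1 53 (.bis 1 4 2 1 35 (.bis 4 6 1 1
  66 (.bis 6 7 1 1 63 (.bis 0 7 1 2 90 (.bis 3 7 1 2 70 (.leaf 12) (.leaf 19)) (.leaf 19)) (.bis
  0 6 1 2 93 (.bis 5 6 1 2 133 (.leaf 5) (.leaf 5)) (.leaf 19))) (.bis 0 7 1 2 90 (.bis 4 7 1 1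
  36 (.bis 3 7 1 2 70 (.leaf 12) (.leaf 19)) (.leaf 19)) (.leaf 19))) (.bis 1 7 2 1 34 (.bis 6 7
  1 1 63 (.bis 0 7 1 2 90 (.leaf 33) (.leaf 19)) (.bis 0 6 1 2 93 (.bis 5 6 1 2 133 (.leaf 5)
  (.leaf 5)) (.leaf 19))) (.bis 1 3 4 1 71 (.bis 0 6 1 2 93 (.leaf 5) (.leaf 19)) (.bis 1 5 8 1
  138 (.bis 0 6 1 2 93 (.leaf 3) (.leaf 3)) (.bis 1 2 4 1 55 (.leaf 3) (.bis 0 1 1 4 87 (.leaf 9)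
  (.leaf 3))))))) (.bis 2 7 2 1 48 (.bis 1 7 2 1 34 (.bis 6 7 1 1 63 (.bis 0 7 1 2 90 (.leaf 33)
  (.leaf 19)) (.bis 0 6 1 2 93 (.bis 5 6 1 2 133 (.leaf 5) (.leaf 5)) (.leaf 19))) (.bis 1 3 4 1
  71 (.bis 0 6 1 2 93 (.leaf 5) (.leaf 19)) (.bis 1 5 8 1 138 (.bis 0 6 1 2 93 (.leaf 3) (.leaf
  3)) (.bis 1 2 4 1 50 (.leaf 3) (.bis 1 4 4 1 55 (.leaf 3) (.leaf 9)))))) (.bis 1 3 4 1 71 (.bis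
  0 2 1 4 89 (.bis 2 3 4 1 72 (.leaf 5) (.bis 2 5 4 1 141 (.leaf 2) (.bis 2 4 4 1 56 (.leaf 2)
  (.leaf 2)))) (.bis 0 6 1 2 93 (.leaf 5) (.leaf 19))) (.bis 0 2 1 4 89 (.bis 1 5 8 1 138 (.bis 2
  5 4 1 141 (.leaf 2) (.bis 2 4 4 1 56 (.leaf 2) (.leaf 2))) (.bis 1 4 4 1 55 (.bis 2 4 4 1 56
  (.leaf 2) (.bis 2 7 4 1 51 (.leaf 2) (.leaf 2))) (.bis 1 7 4 1 50 (.bis 2 7 4 1 51 (.leaf 2)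
  (.bis 2 6 2 1 99 (.leaf 2) (.leaf 2))) (.bis 1 2 1 1 47 (.leaf 2) (.leaf 6))))) (.bis 1 5 8 1
  138 (.leaf 3) (.bis 1 4 4 1 55 (.leaf 3) (.bis 1 7 4 1 50 (.leaf 3) (.leaf 9)))))))) (.bis 3 7
  2 1 73 (.bis 2 7 2 1 48 (.bis 1 7 2 1 34 (.bis 6 7 1 1 63 (.bis 0 7 1 2 90 (.leaf 33) (.bis 0 3
  1 1 94 (.leaf 5) (.leaf 19))) (.bis 0 3 1 1 94 (.bis 5 6 1 2 133 (.bis 1 4 1 1 95 (.bis 3 6 1 2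
  96 (.leaf 5) (.leaf 5)) (.bis 3 6 1 2 96 (.leaf 3) (.leaf 5))) (.leaf 5)) (.bis 0 6 1 2 93
  (.bis 5 6 1 2 133 (.leaf 5) (.leaf 5)) (.leaf 19)))) (.bis 1 3 4 1 74 (.bis 0 3 1 1 94 (.bis 5
  6 1 2 133 (.leaf 5) (.leaf 5)) (.bis 0 6 1 2 93 (.leaf 5) (.leaf 19))) (.bis 1 4 4 1 71 (.leaf
  50) (.bis 1 5 8 1 138 (.leaf 3) (.bis 1 2 4 1 50 (.bis 0 6 1 2 93 (.leaf 3) (.leaf 3)) (.bis 0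
  1 1 4 87 (.leaf 9) (.leaf 3))))))) (.bis 1 3 4 1 74 (.bis 0 2 1 4 89 (.bis 2 3 4 1 76 (.leaf 5)
  (.bis 2 4 4 1 72 (.leaf 5) (.bis 2 5 4 1 141 (.leaf 2) (.leaf 2)))) (.leaf 50)) (.bis 1 4 4 1
  71 (.bis 0 2 1 4 89 (.bis 2 4 4 1 72 (.leaf 5) (.bis 2 5 4 1 141 (.leaf 2) (.bis 2 7 4 1 51
  (.leaf 2) (.leaf 2)))) (.leaf 22)) (.bis 0 2 1 4 89 (.bis 1 5 8 1 138 (.bis 2 5 4 1 141 (.leaf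
  2) (.bis 2 7 4 1 51 (.leaf 2) (.leaf 2))) (.bis 1 7 4 1 50 (.bis 2 7 4 1 51 (.leaf 2) (.bis 2 6
  2 1 99 (.leaf 2) (.leaf 2))) (.bis 1 2 1 1 47 (.leaf 2) (.leaf 6)))) (.bis 1 5 8 1 138 (.leaf
  3) (.bis 1 7 4 1 50 (.leaf 3) (.leaf 9))))))) (.bis 0 3 1 4 97 (.bis 1 3 1 1 77 (.bis 3 5 4 1
  171 (.bis 2 4 4 1 72 (.leaf 4) (.bis 2 7 4 1 76 (.leaf 4) (.bis 2 5 4 1 141 (.leaf 2) (.leaf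
  2)))) (.bis 2 4 4 1 72 (.bis 3 4 4 1 81 (.leaf 4) (.bis 3 7 4 1 82 (.leaf 4) (.bis 3 6 2 1 83
  (.leaf 4) (.leaf 7)))) (.bis 2 7 4 1 76 (.bis 3 7 4 1 82 (.leaf 4) (.bis 3 6 2 1 83 (.leaf 4)
  (.leaf 7))) (.bis 2 3 1 1 84 (.bis 3 6 2 1 83 (.leaf 2) (.leaf 7)) (.leaf 2))))) (.bis 1 4 4 1
  71 (.bis 2 4 4 1 72 (.leaf 4) (.bis 2 7 4 1 76 (.leaf 4) (.bis 2 5 4 1 141 (.leaf 2) (.leaf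
  2)))) (.bis 1 7 4 1 74 (.bis 2 7 4 1 76 (.leaf 4) (.bis 2 5 4 1 141 (.leaf 2) (.bis 2 6 2 1 99
  (.leaf 2) (.leaf 2)))) (.bis 1 5 8 1 138 (.bis 2 5 4 1 141 (.leaf 2) (.bis 2 6 2 1 99 (.leaf 2)
  (.leaf 2))) (.bis 0 1 1 8 98 (.bis 1 2 1 1 47 (.bis 2 6 2 1 99 (.leaf 2) (.leaf 2)) (.leaf 6))
  (.bis 2 6 2 1 99 (.leaf 2) (.bis 0 2 1 8 266 (.leaf 2) (.leaf 2)))))))) (.bis 1 4 4 1 71 (.bis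
  0 2 1 4 89 (.bis 2 4 4 1 72 (.leaf 4) (.bis 2 7 4 1 76 (.leaf 4) (.bis 2 5 4 1 141 (.leaf 2)
  (.leaf 2)))) (.leaf 50)) (.bis 1 7 4 1 74 (.bis 0 2 1 4 89 (.bis 2 7 4 1 76 (.leaf 4) (.bis 2 5
  4 1 141 (.leaf 2) (.bis 2 6 2 1 99 (.leaf 2) (.leaf 2)))) (.leaf 38)) (.bis 0 2 1 4 89 (.bis 1
  5 8 1 138 (.bis 2 5 4 1 141 (.leaf 2) (.bis 2 6 2 1 99 (.leaf 2) (.bis 2 3 8 1 266 (.leaf 2)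
  (.leaf 2)))) (.bis 1 3 8 1 98 (.bis 2 6 2 1 99 (.leaf 2) (.bis 2 3 8 1 266 (.leaf 2) (.leaf
  2))) (.bis 1 2 1 1 47 (.bis 2 6 2 1 99 (.leaf 2) (.leaf 2)) (.leaf 6)))) (.bis 1 5 8 1 138
  (.leaf 3) (.bis 0 1 1 4 87 (.leaf 6) (.leaf 3)))))))))))

def lc6 : List Vr := [⟨[120,0,0,0,85,0,0,121], 392890, 0⟩, ⟨[0,24,0,0,0,0,0,0], 13824, 0⟩, ⟨[0,0,
  27,0,0,0,0,0], 14580, 0⟩, ⟨[0,0,0,30,0,0,0,0], 14400, 0⟩, ⟨[0,0,0,0,85,0,0,121], 96730, 0⟩,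
  ⟨[60,0,0,0,0,85,0,0], 90050, 0⟩, ⟨[0,0,0,0,0,0,42,0], 14112, 0⟩, ⟨[0,0,0,0,0,85,0,121], 96730,
  0⟩]

theorem lk6 : chkTr lowT (leafLow 4 lowB) lt6 lc6 = true := by decide +kernel

def lt7 : Tr ℕ := (.bis 0 7 2 1 100 (.bis 3 6 1 1 59 (.bis 5 6 1 2 154 (.bis 6 7 2 1 17 (.bis 2 7
  2 1 48 (.bis 1 7 2 1 34 (.bis 3 7 1 1 63 (.bis 4 7 1 2 90 (.bis 5 7 1 2 155 (.leaf 12) (.bis 4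
  5 1 2 254 (.leaf 3) (.leaf 3))) (.bis 4 6 1 1 255 (.bis 5 7 2 1 254 (.leaf 3) (.leaf 3)) (.bis
  2 4 1 1 256 (.bis 3 4 1 1 257 (.bis 4 5 1 1 258 (.leaf 3) (.leaf 3)) (.bis 5 7 2 1 254 (.leaf
  3) (.leaf 3))) (.bis 5 7 2 1 254 (.leaf 3) (.leaf 3))))) (.bis 0 3 1 2 106 (.bis 3 4 2 1 93
  (.leaf 3) (.leaf 3)) (.leaf 3))) (.bis 1 6 4 1 28 (.bis 0 3 1 2 106 (.bis 3 4 2 1 93 (.leaf 3)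
  (.leaf 3)) (.leaf 3)) (.bis 1 2 4 1 50 (.leaf 3) (.bis 0 1 1 4 101 (.bis 1 4 4 1 87 (.leaf 3)
  (.leaf 9)) (.leaf 3))))) (.bis 2 6 4 1 43 (.bis 1 6 4 1 28 (.leaf 3) (.bis 1 7 4 1 50 (.leaf 3)
  (.bis 0 1 1 4 101 (.bis 1 4 4 1 87 (.leaf 3) (.leaf 6)) (.leaf 3)))) (.bis 0 2 1 4 104 (.bis 2
  4 4 1 89 (.bis 1 7 4 1 50 (.leaf 3) (.bis 1 4 4 1 87 (.leaf 3) (.leaf 6))) (.bis 1 7 4 1 50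
  (.bis 2 5 4 1 157 (.leaf 3) (.leaf 2)) (.bis 2 5 4 1 157 (.leaf 6) (.leaf 6)))) (.bis 1 7 4 1
  50 (.leaf 3) (.bis 0 1 1 4 101 (.bis 1 4 4 1 87 (.leaf 3) (.leaf 6)) (.leaf 3)))))) (.bis 2 6 1
  1 39 (.bis 0 6 1 4 102 (.bis 4 6 1 4 88 (.bis 1 6 1 1 26 (.leaf 39) (.bis 1 7 4 1 28 (.leaf 3)
  (.leaf 9))) (.bis 1 7 4 1 28 (.bis 2 4 2 1 92 (.leaf 3) (.leaf 3)) (.bis 1 4 4 1 87 (.leaf 3)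
  (.leaf 9)))) (.bis 1 7 4 1 28 (.bis 0 2 1 2 267 (.bis 2 4 2 1 92 (.leaf 3) (.leaf 3)) (.leaf
  3)) (.bis 0 1 1 4 101 (.bis 1 4 4 1 87 (.leaf 3) (.leaf 9)) (.leaf 3)))) (.bis 2 7 4 1 43 (.bis
  1 7 4 1 28 (.bis 0 6 1 2 267 (.bis 4 6 1 2 92 (.leaf 3) (.leaf 3)) (.leaf 3)) (.bis 0 1 1 4 101
  (.bis 1 4 4 1 87 (.leaf 3) (.leaf 6)) (.leaf 3))) (.bis 0 2 1 4 104 (.bis 2 4 4 1 89 (.bis 1 4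
  4 1 87 (.leaf 3) (.leaf 6)) (.bis 2 5 4 1 157 (.bis 1 3 2 1 105 (.leaf 3) (.leaf 6)) (.bis 1 2
  1 1 47 (.leaf 6) (.leaf 6)))) (.bis 0 1 1 4 101 (.bis 1 4 4 1 87 (.leaf 3) (.leaf 6)) (.leaf
  3)))))) (.bis 2 7 2 1 48 (.bis 1 7 2 1 34 (.bis 5 7 1 1 158 (.bis 3 7 1 1 63 (.bis 4 7 1 2 90
  (.bis 6 7 1 2 155 (.leaf 12) (.bis 4 6 1 2 254 (.leaf 14) (.leaf 12))) (.bis 4 5 1 1 259 (.bis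
  6 7 2 1 254 (.leaf 12) (.leaf 14)) (.bis 2 4 1 1 256 (.bis 3 4 1 1 257 (.bis 4 6 1 1 258 (.leaf
  3) (.leaf 3)) (.leaf 3)) (.bis 6 7 2 1 254 (.leaf 3) (.leaf 3))))) (.bis 3 5 2 1 159 (.bis 4 5
  1 1 259 (.leaf 14) (.leaf 3)) (.bis 0 3 1 2 106 (.bis 3 4 2 1 93 (.leaf 3) (.leaf 3)) (.leaf
  3)))) (.bis 4 5 1 2 260 (.bis 3 5 1 1 160 (.bis 1 5 1 2 161 (.leaf 93) (.leaf 14)) (.bis 3 7 2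
  1 159 (.leaf 14) (.leaf 9))) (.bis 3 7 2 1 159 (.leaf 50) (.bis 0 3 1 2 106 (.leaf 9) (.leaf
  9))))) (.bis 1 5 2 1 163 (.bis 4 5 1 2 260 (.bis 3 5 1 1 160 (.bis 5 7 2 1 161 (.leaf 9) (.bis
  2 5 1 2 162 (.leaf 62) (.leaf 14))) (.leaf 9)) (.bis 0 3 1 2 106 (.leaf 9) (.leaf 9))) (.bis 1
  2 4 1 50 (.leaf 9) (.bis 0 1 1 4 101 (.bis 1 4 4 1 87 (.leaf 9) (.leaf 9)) (.bis 0 3 1 2 106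
  (.leaf 9) (.leaf 9)))))) (.bis 1 5 2 1 163 (.bis 2 5 2 1 164 (.bis 4 5 1 2 260 (.bis 3 5 1 1
  160 (.bis 5 7 2 1 162 (.leaf 14) (.leaf 62)) (.bis 0 3 1 2 106 (.leaf 14) (.leaf 14))) (.bis 2
  4 1 1 261 (.bis 0 3 1 2 106 (.leaf 9) (.leaf 9)) (.bis 0 3 1 2 106 (.leaf 14) (.leaf 14))))
  (.bis 0 2 1 4 104 (.bis 2 4 4 1 89 (.bis 4 5 1 1 261 (.leaf 14) (.leaf 9)) (.bis 2 6 4 1 157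
  (.leaf 14) (.leaf 2))) (.bis 4 5 1 1 261 (.leaf 14) (.bis 0 3 1 2 106 (.leaf 9) (.leaf 9)))))
  (.bis 0 2 1 4 104 (.bis 2 4 4 1 89 (.bis 1 7 4 1 50 (.leaf 9) (.bis 1 4 4 1 87 (.leaf 9) (.leaf
  6))) (.bis 1 7 4 1 50 (.bis 2 6 4 1 157 (.leaf 5) (.leaf 2)) (.bis 2 6 4 1 157 (.leaf 6) (.leaf
  6)))) (.bis 1 7 4 1 50 (.leaf 9) (.bis 0 1 1 4 101 (.bis 1 4 4 1 87 (.leaf 9) (.leaf 6)) (.leaf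
  9))))))) (.bis 3 7 2 1 73 (.bis 2 7 2 1 48 (.bis 1 7 2 1 34 (.bis 5 7 1 1 158 (.bis 6 7 1 1 63
  (.bis 4 7 1 2 90 (.leaf 12) (.bis 3 4 1 1 94 (.leaf 50) (.leaf 12))) (.bis 3 4 1 1 94 (.bis 5 6
  1 2 159 (.bis 0 6 1 2 106 (.leaf 3) (.leaf 3)) (.bis 4 5 1 1 259 (.leaf 12) (.leaf 3))) (.bis 5
  6 1 2 159 (.bis 0 6 1 2 106 (.bis 3 6 1 2 96 (.leaf 3) (.leaf 5)) (.leaf 12)) (.leaf 12))))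
  (.bis 4 5 1 2 260 (.bis 5 6 1 1 160 (.bis 6 7 2 1 159 (.leaf 14) (.bis 0 6 1 2 106 (.leaf 5)
  (.leaf 14))) (.bis 1 5 1 2 161 (.bis 2 5 1 2 162 (.leaf 93) (.leaf 14)) (.leaf 14))) (.bis 3 4
  1 1 94 (.bis 6 7 2 1 159 (.leaf 50) (.bis 0 6 1 2 106 (.leaf 9) (.leaf 9))) (.bis 6 7 2 1 159
  (.leaf 14) (.bis 0 6 1 2 106 (.leaf 5) (.leaf 14)))))) (.bis 1 5 2 1 163 (.bis 4 5 1 2 260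
  (.bis 5 6 1 1 160 (.bis 0 6 1 2 106 (.leaf 5) (.leaf 14)) (.bis 5 7 2 1 161 (.leaf 14) (.leaf
  93))) (.bis 3 4 1 1 94 (.bis 0 6 1 2 106 (.bis 4 6 1 2 93 (.leaf 5) (.leaf 9)) (.leaf 9)) (.bis
  0 6 1 2 106 (.leaf 5) (.leaf 14)))) (.bis 1 3 4 1 74 (.bis 3 4 1 1 94 (.bis 0 6 1 2 106 (.leaf
  9) (.bis 4 5 1 1 263 (.leaf 9) (.leaf 3))) (.bis 0 6 1 2 106 (.bis 3 5 1 1 174 (.leaf 5) (.leaf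
  5)) (.bis 3 5 1 1 174 (.leaf 9) (.leaf 12)))) (.bis 1 2 4 1 50 (.bis 0 6 1 2 106 (.bis 4 6 1 2
  93 (.leaf 5) (.leaf 9)) (.leaf 9)) (.bis 0 1 1 4 101 (.bis 1 4 4 1 87 (.leaf 9) (.leaf 9))
  (.bis 0 6 1 2 106 (.leaf 9) (.leaf 9))))))) (.bis 1 5 2 1 163 (.bis 2 5 2 1 164 (.bis 4 5 1 2
  260 (.bis 5 6 1 1 160 (.bis 0 6 1 2 106 (.leaf 14) (.leaf 14)) (.bis 5 7 2 1 162 (.leaf 14)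
  (.bis 3 5 1 2 178 (.leaf 62) (.bis 1 3 1 1 174 (.leaf 14) (.leaf 11))))) (.bis 2 4 1 1 261
  (.bis 3 4 1 1 94 (.bis 0 6 1 2 106 (.bis 4 6 1 2 93 (.leaf 5) (.leaf 9)) (.leaf 9)) (.bis 0 6 1
  2 106 (.leaf 5) (.leaf 14))) (.bis 0 6 1 2 106 (.leaf 14) (.leaf 14)))) (.bis 0 2 1 4 104 (.bis
  2 4 4 1 89 (.bis 4 5 1 1 261 (.leaf 14) (.leaf 66)) (.bis 2 3 4 1 76 (.leaf 14) (.leaf 2)))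
  (.bis 4 5 1 1 261 (.bis 0 6 1 2 106 (.leaf 14) (.leaf 14)) (.bis 3 4 1 1 94 (.bis 0 6 1 2 106
  (.leaf 9) (.leaf 9)) (.bis 0 6 1 2 106 (.leaf 5) (.leaf 14)))))) (.bis 1 3 4 1 74 (.bis 0 2 1 4
  104 (.bis 2 4 4 1 89 (.bis 3 4 1 1 94 (.leaf 9) (.leaf 5)) (.bis 2 3 4 1 76 (.leaf 5) (.bis 2 7
  4 1 51 (.leaf 2) (.leaf 2)))) (.leaf 66)) (.bis 0 2 1 4 104 (.bis 2 4 4 1 89 (.bis 1 7 4 1 50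
  (.leaf 9) (.bis 1 4 4 1 87 (.leaf 9) (.leaf 6))) (.bis 1 7 4 1 50 (.bis 2 7 4 1 51 (.leaf 2)
  (.leaf 2)) (.bis 1 2 1 1 47 (.leaf 2) (.leaf 6)))) (.bis 1 7 4 1 50 (.leaf 9) (.bis 0 1 1 4 101
  (.bis 1 4 4 1 87 (.leaf 9) (.leaf 6)) (.bis 0 6 1 2 106 (.leaf 9) (.leaf 9)))))))) (.bis 0 3 1
  4 107 (.bis 3 4 4 1 97 (.bis 1 5 2 1 163 (.bis 2 5 2 1 164 (.bis 4 5 1 2 260 (.bis 5 6 1 1 160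
  (.leaf 14) (.bis 5 7 2 1 178 (.leaf 10) (.leaf 26))) (.bis 2 4 1 1 261 (.bis 4 7 1 1 94 (.leaf
  5) (.bis 4 6 1 2 93 (.leaf 5) (.leaf 9))) (.leaf 14))) (.bis 2 4 4 1 89 (.bis 4 5 1 1 261 (.bis
  1 7 1 1 174 (.leaf 4) (.leaf 2)) (.bis 4 7 1 1 94 (.leaf 5) (.leaf 9))) (.bis 2 7 4 1 76 (.leaf
  14) (.bis 1 2 1 4 175 (.leaf 2) (.leaf 2))))) (.bis 1 7 4 1 74 (.bis 2 4 4 1 89 (.leaf 66)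
  (.bis 2 7 4 1 76 (.leaf 5) (.bis 2 5 4 1 175 (.leaf 2) (.leaf 2)))) (.bis 2 4 4 1 89 (.bis 1 4
  4 1 87 (.leaf 9) (.bis 0 1 1 8 108 (.leaf 6) (.leaf 5))) (.bis 0 1 1 8 108 (.bis 1 3 8 1 98
  (.bis 2 5 4 1 175 (.leaf 2) (.bis 2 6 2 1 99 (.leaf 2) (.leaf 2))) (.bis 1 2 1 1 47 (.leaf 2)
  (.leaf 6))) (.bis 2 5 4 1 175 (.leaf 2) (.bis 2 6 2 1 99 (.leaf 2) (.leaf 2))))))) (.bis 1 3 1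
  1 77 (.bis 2 5 2 1 164 (.bis 3 5 2 1 177 (.bis 5 6 1 1 160 (.leaf 4) (.bis 5 7 2 1 178 (.leaf
  4) (.leaf 26))) (.bis 2 3 1 4 176 (.bis 3 7 4 1 82 (.leaf 4) (.leaf 36)) (.leaf 4))) (.bis 2 7
  4 1 76 (.bis 3 5 4 1 176 (.leaf 4) (.bis 3 7 4 1 82 (.leaf 4) (.bis 3 6 2 1 83 (.leaf 4) (.leaf
  7)))) (.bis 2 3 1 1 84 (.bis 3 5 4 1 176 (.leaf 2) (.bis 3 6 2 1 83 (.leaf 2) (.leaf 7)))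
  (.leaf 2)))) (.bis 1 5 2 1 163 (.bis 2 5 2 1 164 (.bis 5 6 1 1 160 (.leaf 32) (.bis 5 7 2 1 178
  (.leaf 32) (.leaf 26))) (.bis 2 7 4 1 76 (.leaf 32) (.bis 1 2 1 4 175 (.leaf 2) (.leaf 2))))
  (.bis 1 7 4 1 74 (.bis 2 7 4 1 76 (.leaf 5) (.bis 2 5 4 1 175 (.leaf 2) (.leaf 2))) (.bis 0 1 1
  8 108 (.bis 1 4 8 1 98 (.bis 2 5 4 1 175 (.leaf 2) (.bis 2 6 2 1 99 (.leaf 2) (.leaf 2))) (.bis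
  1 2 1 1 47 (.leaf 2) (.leaf 6))) (.bis 2 5 4 1 175 (.leaf 2) (.bis 2 6 2 1 99 (.leaf 2) (.leaf
  2)))))))) (.bis 1 5 2 1 163 (.bis 2 5 2 1 164 (.bis 4 5 1 2 260 (.bis 5 6 1 1 160 (.bis 0 6 1 2
  106 (.leaf 14) (.bis 1 7 1 1 174 (.leaf 14) (.leaf 11))) (.bis 5 7 2 1 178 (.leaf 14) (.leaf
  62))) (.bis 2 4 1 1 261 (.bis 4 7 1 1 94 (.bis 0 6 1 2 106 (.leaf 5) (.leaf 14)) (.bis 0 6 1 2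
  106 (.bis 4 6 1 2 93 (.leaf 5) (.leaf 9)) (.leaf 9))) (.bis 0 6 1 2 106 (.leaf 14) (.bis 1 7 1
  1 174 (.leaf 14) (.leaf 11))))) (.bis 0 2 1 4 104 (.bis 2 4 4 1 89 (.bis 4 5 1 1 261 (.bis 1 7
  1 1 174 (.leaf 4) (.leaf 2)) (.bis 4 7 1 1 94 (.leaf 5) (.leaf 9))) (.bis 2 7 4 1 76 (.leaf 14)
  (.leaf 2))) (.bis 4 5 1 1 261 (.bis 0 6 1 2 106 (.leaf 14) (.bis 1 7 1 1 174 (.leaf 14) (.leaf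
  11))) (.bis 4 7 1 1 94 (.leaf 14) (.bis 0 6 1 2 106 (.leaf 9) (.leaf 9)))))) (.bis 1 7 4 1 74
  (.bis 0 2 1 4 104 (.bis 2 4 4 1 89 (.leaf 66) (.bis 2 7 4 1 76 (.leaf 5) (.bis 2 5 4 1 175
  (.leaf 2) (.leaf 2)))) (.leaf 66)) (.bis 0 2 1 4 104 (.bis 2 4 4 1 89 (.bis 1 4 4 1 87 (.leaf
  9) (.leaf 6)) (.bis 1 3 8 1 108 (.bis 2 5 4 1 175 (.leaf 2) (.leaf 2)) (.bis 1 2 1 1 47 (.leaf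
  2) (.leaf 6)))) (.bis 0 1 1 4 101 (.bis 1 4 4 1 87 (.leaf 9) (.leaf 6)) (.bis 0 6 1 2 106
  (.leaf 9) (.leaf 9))))))))) (.bis 0 3 1 1 109 (.bis 3 6 1 1 59 (.bis 5 6 1 2 154 (.bis 0 6 1 2
  110 (.bis 2 6 1 1 39 (.bis 4 6 1 4 88 (.bis 6 7 4 1 102 (.bis 1 7 4 1 101 (.leaf 3) (.leaf 9))
  (.bis 1 6 1 1 26 (.leaf 39) (.bis 1 3 2 1 105 (.leaf 3) (.leaf 9)))) (.bis 1 4 4 1 87 (.leaf 3)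
  (.bis 1 7 4 1 101 (.leaf 3) (.leaf 9)))) (.bis 2 4 4 1 89 (.bis 1 4 4 1 87 (.leaf 3) (.leaf 9))
  (.bis 2 7 4 1 104 (.bis 1 7 4 1 101 (.leaf 3) (.leaf 6)) (.bis 2 5 4 1 157 (.leaf 6) (.leaf
  6))))) (.bis 2 4 4 1 89 (.bis 1 4 4 1 87 (.leaf 11) (.leaf 70)) (.bis 2 7 4 1 104 (.bis 1 7 4 1
  101 (.leaf 11) (.leaf 6)) (.bis 2 5 4 1 157 (.leaf 6) (.bis 2 6 4 1 113 (.leaf 6) (.leaf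
  6)))))) (.bis 1 5 2 1 163 (.bis 2 5 2 1 164 (.bis 4 5 1 2 260 (.bis 3 5 1 1 160 (.leaf 62)
  (.bis 3 7 2 1 106 (.leaf 11) (.leaf 6))) (.bis 2 4 1 1 261 (.bis 3 4 2 1 93 (.leaf 11) (.bis 3
  7 2 1 106 (.leaf 11) (.leaf 6))) (.bis 3 7 2 1 106 (.leaf 11) (.leaf 6)))) (.bis 2 4 4 1 89
  (.bis 4 5 1 1 261 (.bis 3 7 2 1 106 (.leaf 11) (.leaf 6)) (.bis 3 4 2 1 93 (.leaf 11) (.leaf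
  11))) (.bis 2 7 4 1 104 (.leaf 11) (.bis 2 6 4 1 157 (.leaf 6) (.leaf 6))))) (.bis 2 4 4 1 89
  (.bis 1 4 4 1 87 (.bis 3 4 2 1 93 (.leaf 11) (.leaf 11)) (.leaf 70)) (.bis 2 7 4 1 104 (.bis 1
  7 4 1 101 (.leaf 11) (.leaf 6)) (.bis 2 6 4 1 157 (.leaf 6) (.leaf 6)))))) (.bis 3 4 4 1 97
  (.bis 1 5 2 1 163 (.bis 2 5 2 1 164 (.bis 4 5 1 2 260 (.bis 5 6 1 1 160 (.bis 6 7 2 1 106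
  (.leaf 11) (.leaf 6)) (.leaf 103)) (.bis 2 4 1 1 261 (.bis 4 6 1 2 93 (.bis 6 7 2 1 106 (.leaf
  11) (.leaf 6)) (.leaf 11)) (.bis 6 7 2 1 106 (.leaf 11) (.leaf 6)))) (.bis 2 4 4 1 89 (.bis 4 5
  1 1 261 (.bis 6 7 2 1 106 (.leaf 11) (.leaf 6)) (.bis 4 6 1 2 93 (.leaf 11) (.leaf 11))) (.bis
  2 7 4 1 104 (.bis 6 7 2 1 106 (.leaf 11) (.leaf 6)) (.bis 0 2 1 2 115 (.leaf 2) (.leaf 6)))))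
  (.bis 2 4 4 1 89 (.bis 1 4 4 1 87 (.bis 4 6 1 2 93 (.leaf 11) (.leaf 11)) (.bis 1 7 4 1 101
  (.bis 6 7 2 1 106 (.leaf 11) (.leaf 6)) (.leaf 6))) (.bis 2 7 4 1 104 (.bis 1 7 4 1 101 (.leaf
  11) (.leaf 6)) (.bis 1 3 8 1 98 (.bis 0 2 1 2 115 (.leaf 2) (.leaf 6)) (.bis 0 2 1 2 115 (.leaf
  6) (.leaf 6)))))) (.bis 3 7 4 1 107 (.bis 1 5 2 1 163 (.bis 2 5 2 1 164 (.bis 5 6 1 1 160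
  (.leaf 11) (.leaf 103)) (.bis 2 7 4 1 104 (.bis 6 7 2 1 106 (.leaf 11) (.leaf 6)) (.bis 0 2 1 2
  115 (.leaf 2) (.leaf 6)))) (.bis 2 7 4 1 104 (.bis 1 7 4 1 101 (.leaf 11) (.bis 1 3 8 1 108
  (.leaf 6) (.leaf 6))) (.bis 1 3 8 1 108 (.bis 0 2 1 2 115 (.bis 2 5 4 1 175 (.leaf 2) (.leaf
  2)) (.leaf 6)) (.bis 1 4 8 1 98 (.bis 0 2 1 2 115 (.bis 2 5 4 1 175 (.leaf 2) (.leaf 2)) (.leaf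
  6)) (.bis 0 2 1 2 115 (.leaf 6) (.leaf 6)))))) (.bis 1 3 1 1 77 (.bis 2 5 2 1 164 (.bis 3 5 2 1
  177 (.bis 5 6 1 1 160 (.leaf 61) (.bis 1 5 1 1 179 (.leaf 26) (.leaf 15))) (.bis 0 3 1 2 116
  (.bis 2 3 1 4 176 (.bis 3 6 2 1 83 (.leaf 4) (.leaf 7)) (.leaf 4)) (.leaf 61))) (.bis 0 3 1 2
  116 (.bis 2 3 1 1 84 (.bis 3 5 4 1 176 (.leaf 4) (.leaf 36)) (.leaf 45)) (.bis 0 2 1 2 115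
  (.leaf 45) (.leaf 11)))) (.bis 1 5 2 1 163 (.bis 2 5 2 1 164 (.bis 5 6 1 1 160 (.leaf 6) (.bis
  3 5 1 1 179 (.leaf 26) (.leaf 6))) (.bis 0 2 1 2 115 (.leaf 2) (.leaf 6))) (.bis 1 4 8 1 98
  (.bis 0 2 1 2 115 (.bis 2 5 4 1 175 (.leaf 2) (.leaf 2)) (.leaf 6)) (.bis 1 7 8 1 108 (.bis 0 2
  1 2 115 (.bis 2 5 4 1 175 (.leaf 2) (.leaf 2)) (.leaf 6)) (.bis 0 2 1 2 115 (.leaf 6) (.leaf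
  6))))))))) (.bis 0 6 1 1 117 (.bis 5 6 1 2 154 (.bis 2 6 1 1 39 (.bis 3 6 1 2 110 (.bis 4 6 1 4
  88 (.bis 6 7 4 1 102 (.bis 1 7 4 1 101 (.leaf 18) (.leaf 18)) (.bis 1 6 1 1 26 (.leaf 83)
  (.leaf 18))) (.bis 1 4 4 1 87 (.leaf 18) (.leaf 18))) (.bis 1 4 4 1 87 (.leaf 18) (.bis 1 7 4 1
  101 (.leaf 18) (.bis 2 3 1 1 120 (.leaf 18) (.leaf 18))))) (.bis 0 2 1 2 119 (.bis 2 4 4 1 89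
  (.bis 1 4 4 1 87 (.leaf 18) (.leaf 18)) (.bis 2 7 4 1 104 (.leaf 18) (.bis 2 5 4 1 157 (.leaf
  6) (.bis 3 6 1 1 120 (.leaf 6) (.leaf 6))))) (.leaf 18))) (.bis 0 5 1 1 268 (.bis 1 5 2 1 163
  (.bis 2 5 2 1 164 (.bis 4 5 1 2 260 (.leaf 62) (.bis 2 4 1 1 261 (.leaf 11) (.leaf 11))) (.bis
  2 4 4 1 89 (.leaf 11) (.bis 2 7 4 1 104 (.leaf 11) (.bis 0 2 1 4 269 (.bis 2 6 4 1 157 (.leaf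
  6) (.leaf 6)) (.leaf 6))))) (.bis 2 4 4 1 89 (.bis 1 4 4 1 87 (.leaf 11) (.bis 1 7 4 1 101
  (.leaf 11) (.leaf 6))) (.bis 2 7 4 1 104 (.bis 1 7 4 1 101 (.leaf 11) (.leaf 6)) (.bis 0 2 1 4
  269 (.bis 2 6 4 1 157 (.leaf 6) (.leaf 6)) (.bis 1 3 2 1 114 (.leaf 6) (.leaf 6)))))) (.bis 0 2
  1 2 119 (.bis 2 4 4 1 89 (.bis 1 4 4 1 87 (.leaf 11) (.bis 1 7 4 1 101 (.leaf 11) (.leaf 6)))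
  (.bis 2 7 4 1 104 (.bis 1 7 4 1 101 (.leaf 11) (.leaf 6)) (.bis 2 5 4 1 269 (.bis 1 3 2 1 114
  (.leaf 6) (.leaf 6)) (.bis 2 6 4 1 157 (.leaf 6) (.leaf 6))))) (.bis 1 4 4 1 87 (.leaf 18)
  (.leaf 18))))) (.bis 0 2 1 1 121 (.bis 5 6 1 1 268 (.bis 2 6 2 1 119 (.bis 1 4 4 1 87 (.leaf
  18) (.leaf 18)) (.bis 2 4 4 1 89 (.bis 1 4 4 1 87 (.leaf 18) (.leaf 18)) (.bis 2 7 4 1 104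
  (.bis 1 7 4 1 101 (.leaf 18) (.leaf 6)) (.bis 2 5 4 1 269 (.bis 1 3 2 1 114 (.leaf 6) (.leaf
  6)) (.leaf 6))))) (.bis 1 5 2 1 163 (.bis 2 5 2 1 164 (.bis 4 5 1 2 260 (.leaf 62) (.bis 2 4 1
  1 261 (.leaf 18) (.leaf 62))) (.bis 2 4 4 1 89 (.leaf 77) (.bis 2 7 4 1 104 (.leaf 62) (.bis 2
  6 4 1 269 (.leaf 6) (.leaf 6))))) (.bis 2 4 4 1 89 (.bis 1 4 4 1 87 (.leaf 18) (.bis 1 7 4 1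
  101 (.leaf 18) (.leaf 6))) (.bis 2 7 4 1 104 (.bis 1 7 4 1 101 (.leaf 18) (.leaf 6)) (.bis 2 6
  4 1 269 (.bis 1 3 2 1 114 (.leaf 6) (.leaf 6)) (.bis 2 3 2 1 115 (.bis 1 3 2 1 114 (.leaf 6)
  (.leaf 6)) (.leaf 6))))))) (.bis 0 5 2 1 270 (.bis 5 6 1 1 268 (.bis 0 1 1 4 271 (.bis 1 4 4 1
  87 (.leaf 18) (.bis 1 7 4 1 101 (.leaf 18) (.leaf 18))) (.leaf 37)) (.bis 1 5 2 1 163 (.bis 4 5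
  1 2 260 (.leaf 62) (.leaf 37)) (.bis 0 1 1 4 271 (.bis 1 4 4 1 87 (.leaf 18) (.leaf 18)) (.bis
  0 4 1 1 272 (.leaf 18) (.leaf 37))))) (.bis 0 1 1 1 122 (.bis 1 5 4 1 271 (.leaf 37) (.bis 1 4
  4 1 87 (.leaf 18) (.leaf 18))) (.bis 0 4 4 1 124 (.leaf 37) (.bis 0 7 4 1 125 (.leaf 37) (.leaf
  90)))))))))

def lc7 : List Vr := [⟨[60,0,0,0,0,0,0,0], 14400, 0⟩, ⟨[0,24,0,0,0,0,0,0], 13824, 0⟩, ⟨[0,0,27,0,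
  0,0,0,0], 14580, 0⟩, ⟨[0,0,0,30,0,0,0,0], 14400, 0⟩, ⟨[120,0,0,0,85,0,0,121], 392890, 0⟩, ⟨[60,
  0,0,0,0,85,0,0], 90050, 0⟩, ⟨[0,0,0,0,0,0,42,0], 14112, 0⟩, ⟨[0,0,0,0,0,85,0,121], 96730, 0⟩]

theorem lk7 : chkTr lowT (leafLow 4 lowB) lt7 lc7 = true := by decide +kernel

end Pool.Agent.Helper10.Fam.D6
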