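import Pool.Agent.Helper10.FamD.D6UpT

set_option autoImplicit false
set_option maxRecDepth 1000000

/-!
# Certificate data for `U ⊕ D6` (upper bound, check of the vertices)
-/

namespace Pool.Agent.Helper10.Fam.D6

open Pool.Agent.Helper10.Fam

theorem vert_uV0 : uV0.all (upV dat 9300) = true := by decide +kernel

theorem vert_uV1 : uV1.all (upV dat 9300) = true := by decide +kernel

theorem vert_uV2 : uV2.all (upV dat 9300) = true := by decide +kernel

theorem vert_uV3 : uV3.all (upV dat 9300) = true := by decide +kernel

theorem vert_uV4 : uV4.all (upV dat 9300) = true := by decide +kernel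

theorem vert_uV5 : uV5.all (upV dat 9300) = true := by decide +kernel

theorem vert_uV6 : uV6.all (upV dat 9300) = true := by decide +kernel

theorem vert_uV7 : uV7.all (upV dat 9300) = true := by decide +kernel

theorem vert_uV8 : uV8.all (upV dat 9300) = true := by decide +kernel

theorem vert_uV9 : uV9.all (upV dat 9300) = true := by decide +kernel

theorem vert_uV10 : uV10.all (upV dat 9300) = true := by decide +kernel

theorem vert_uV11 : uV11.all (upV dat 9300) = true := by decide +kernel

theorem vert_uV12 : uV12.all (upV dat 9300) = true := by decide +kernel

theorem vert_uV13 : uV13.all (upV dat 9300) = true := by decide +kernel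

theorem vert_uV14 : uV14.all (upV dat 9300) = true := by decide +kernel

theorem vert_uV15 : uV15.all (upV dat 9300) = true := by decide +kernel

theorem verts_ok : upT.all (upV dat 9300) = true := (all_node (by decide +kernel) (all_node (by
  decide +kernel) (all_node (by decide +kernel) (all_node (by decide +kernel) vert_uV0 vert_uV1)
  (all_node (by decide +kernel) vert_uV2 vert_uV3)) (all_node (by decide +kernel) (all_node (by
  decide +kernel) vert_uV4 vert_uV5) (all_node (by decide +kernel) vert_uV6 vert_uV7))) (all_node
  (by decide +kernel) (all_node (by decide +kernel) (all_node (by decide +kernel) vert_uV8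
  vert_uV9) (all_node (by decide +kernel) vert_uV10 vert_uV11)) (all_node (by decide +kernel)
  (all_node (by decide +kernel) vert_uV12 vert_uV13) (all_node (by decide +kernel) vert_uV14
  vert_uV15))))

end Pool.Agent.Helper10.Fam.D6
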