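import Pool.Agent.Helper10.Fam.Fast

set_option autoImplicit false
set_option maxRecDepth 1000000

/-!
# Certificate data for `U ⊕ E6` (lattice data and cusps)
-/

namespace Pool.Agent.Helper10.Fam.E6

open Pool.Agent.Helper10.Fam

/-- lattice data -/
def dat : Dat := ⟨6, [[0,0,1,0,0,0,0,0], [0,0,0,1,0,0,1,0], [1,0,0,1,0,0,0,0],
   [0,1,1,0,1,0,0,0], [0,0,0,1,0,1,0,0], [0,0,0,0,1,0,0,0], [0,1,0,0,0,0,0,1], [0,0,0,0,0,0,1,0]],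
   [[2,9,7,12,8,4,6,3], [9,18,18,27,18,9,12,6], [7,18,14,24,16,8,12,6], [12,27,24,36,24,12,18,9],
  [8,18,16,24,14,7,12,6], [4,9,8,12,7,2,6,3], [6,12,12,18,12,6,6,3], [3,6,6,9,6,3,3,0]], 3, [1,2,
  2,3,2,1,1,0], 1470, [[1,2,2,3,2,1,1,0], [1,2,2,3,2,1,1,1], [1,2,2,3,2,1,2,1], [1,3,2,3,2,1,2,1],
   [1,3,2,4,2,1,2,1], [1,3,3,4,2,1,2,1], [2,3,3,4,2,1,2,1], [1,3,2,4,3,1,2,1], [1,3,3,4,3,1,2,1],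
  [2,3,3,4,3,1,2,1], [1,3,3,5,3,1,2,1], [2,3,3,5,3,1,2,1], [1,4,3,5,3,1,2,1], [2,4,3,5,3,1,2,1],
  [2,3,4,5,3,1,2,1], [2,4,4,5,3,1,2,1], [2,4,4,6,3,1,2,1], [2,4,4,6,4,1,2,1], [1,3,2,4,3,2,2,1],
  [1,3,3,4,3,2,2,1], [2,3,3,4,3,2,2,1], [1,3,3,5,3,2,2,1], [2,3,3,5,3,2,2,1], [1,4,3,5,3,2,2,1],
  [2,4,3,5,3,2,2,1], [2,3,4,5,3,2,2,1], [2,4,4,5,3,2,2,1], [2,4,4,6,3,2,2,1], [1,3,3,5,4,2,2,1],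
  [2,3,3,5,4,2,2,1], [1,4,3,5,4,2,2,1], [2,4,3,5,4,2,2,1], [2,3,4,5,4,2,2,1], [2,4,4,5,4,2,2,1],
  [1,4,3,6,4,2,2,1], [2,4,3,6,4,2,2,1], [2,3,4,6,4,2,2,1], [1,4,4,6,4,2,2,1], [3,4,4,6,4,2,2,1],
  [2,5,4,6,4,2,2,1], [2,4,5,6,4,2,2,1], [3,4,5,6,4,2,2,1], [2,4,4,7,4,2,2,1], [2,5,4,7,4,2,2,1],
  [2,4,5,7,4,2,2,1], [3,4,5,7,4,2,2,1], [2,5,5,7,4,2,2,1], [3,5,5,7,4,2,2,1], [2,4,4,6,5,2,2,1],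
  [2,4,4,7,5,2,2,1], [2,5,4,7,5,2,2,1], [2,4,5,7,5,2,2,1], [3,4,5,7,5,2,2,1], [2,5,5,7,5,2,2,1],
  [3,5,5,7,5,2,2,1], [2,5,5,8,5,2,2,1], [3,5,5,8,5,2,2,1], [3,5,6,8,5,2,2,1], [2,4,4,6,4,3,2,1],
  [2,4,4,6,5,3,2,1], [2,4,4,7,5,3,2,1], [2,5,4,7,5,3,2,1], [2,4,5,7,5,3,2,1], [3,4,5,7,5,3,2,1],
  [2,5,5,7,5,3,2,1], [3,5,5,7,5,3,2,1], [2,5,5,8,5,3,2,1], [3,5,5,8,5,3,2,1], [3,5,6,8,5,3,2,1],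
  [2,5,5,8,6,3,2,1], [3,5,5,8,6,3,2,1], [3,5,6,8,6,3,2,1], [3,5,6,9,6,3,2,1], [3,6,6,9,6,3,2,1],
  [1,4,3,5,3,1,3,1], [2,4,3,5,3,1,3,1], [2,4,4,5,3,1,3,1], [2,4,4,6,3,1,3,1], [2,5,4,6,3,1,3,1],
  [2,4,4,6,4,1,3,1], [2,5,4,6,4,1,3,1], [2,5,4,7,4,1,3,1], [2,5,5,7,4,1,3,1], [3,5,5,7,4,1,3,1],
  [1,4,3,5,3,2,3,1], [2,4,3,5,3,2,3,1], [2,4,4,5,3,2,3,1], [2,4,4,6,3,2,3,1], [2,5,4,6,3,2,3,1],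
  [1,4,3,5,4,2,3,1], [2,4,3,5,4,2,3,1], [2,4,4,5,4,2,3,1], [1,4,3,6,4,2,3,1], [2,4,3,6,4,2,3,1],
  [1,5,3,6,4,2,3,1], [2,5,3,6,4,2,3,1], [1,4,4,6,4,2,3,1], [1,5,4,6,4,2,3,1], [1,5,4,7,4,2,3,1],
  [1,5,4,7,5,2,3,1], [1,5,4,7,5,3,3,1], [1,4,3,5,3,1,3,2], [2,4,3,5,3,1,3,2], [2,4,4,5,3,1,3,2],
  [2,4,4,6,3,1,3,2], [2,5,4,6,3,1,3,2], [2,4,4,6,4,1,3,2], [2,5,4,6,4,1,3,2], [2,5,4,7,4,1,3,2],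
  [2,5,5,7,4,1,3,2], [3,5,5,7,4,1,3,2], [1,4,3,5,3,2,3,2], [2,4,3,5,3,2,3,2], [2,4,4,5,3,2,3,2],
  [2,4,4,6,3,2,3,2], [2,5,4,6,3,2,3,2], [1,4,3,5,4,2,3,2], [2,4,3,5,4,2,3,2], [2,4,4,5,4,2,3,2],
  [1,4,3,6,4,2,3,2], [2,4,3,6,4,2,3,2], [1,5,3,6,4,2,3,2], [2,5,3,6,4,2,3,2], [1,4,4,6,4,2,3,2],
  [1,5,4,6,4,2,3,2], [1,5,4,7,4,2,3,2], [1,5,4,7,5,2,3,2], [1,5,4,7,5,3,3,2], [2,5,4,6,3,1,4,2],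
  [2,5,4,6,4,1,4,2], [2,5,4,7,4,1,4,2], [2,6,4,7,4,1,4,2], [2,5,5,7,4,1,4,2], [3,5,5,7,4,1,4,2],
  [2,6,5,7,4,1,4,2], [3,6,5,7,4,1,4,2], [2,6,5,8,4,1,4,2], [3,6,5,8,4,1,4,2], [3,6,6,8,4,1,4,2],
  [2,6,5,8,5,1,4,2], [3,6,5,8,5,1,4,2], [3,6,6,8,5,1,4,2], [3,6,6,9,5,1,4,2], [3,7,6,9,5,1,4,2],
  [2,5,4,6,3,2,4,2], [1,5,3,6,4,2,4,2], [2,5,3,6,4,2,4,2], [1,5,4,6,4,2,4,2], [1,5,4,7,4,2,4,2],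
  [1,6,4,7,4,2,4,2], [1,5,4,7,5,2,4,2], [1,6,4,7,5,2,4,2], [1,6,4,8,5,2,4,2], [1,6,5,8,5,2,4,2],
  [1,5,4,7,5,3,4,2], [1,6,4,7,5,3,4,2], [1,6,4,8,5,3,4,2], [1,6,5,8,5,3,4,2], [1,6,4,8,6,3,4,2],
  [1,6,5,8,6,3,4,2], [1,6,5,9,6,3,4,2], [1,7,5,9,6,3,4,2], [3,7,6,9,5,1,5,2], [1,7,5,9,6,3,5,2],
  [3,7,6,9,5,1,5,3], [1,7,5,9,6,3,5,3]]⟩

/-- exclusion vectors -/
def ex : List (List ℕ) := [[200000,400000,400000,600000,400000,200000,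
  249999,100000]]

/-- table of cusps -/
def cT : BT (List ℕ) := (.node [1,2,2,3,2,1,1,0] (.node [1,2,2,3,2,1,1,1]
  (.node [1,3,2,3,2,1,2,1] (.node [1,3,2,4,3,1,2,1] (.node [2,4,4,5,3,1,2,1] (.node [2,4,3,5,4,2,
  2,1] (.node [3,4,5,7,5,3,2,1] (.node [1,5,4,7,5,3,3,2] .nil .nil) .nil) (.node [2,5,3,6,4,2,3,
  1] (.node [1,6,5,8,6,3,4,2] .nil .nil) .nil)) (.node [3,5,5,7,4,2,2,1] (.node [2,4,4,6,4,1,3,1]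
  (.node [3,7,6,9,5,1,4,2] .nil .nil) .nil) (.node [1,4,3,5,3,2,3,2] .nil .nil))) (.node [1,4,3,5,
  3,2,2,1] (.node [2,5,4,6,4,2,2,1] (.node [3,5,6,8,6,3,2,1] (.node [3,6,5,7,4,1,4,2] .nil .nil)
  .nil) (.node [2,4,4,5,3,1,3,2] .nil .nil)) (.node [2,5,5,8,5,2,2,1] (.node [2,4,4,6,3,2,3,1]
  (.node [1,6,4,7,5,2,4,2] .nil .nil) .nil) (.node [1,4,3,6,4,2,3,2] .nil .nil)))) (.node [2,3,3,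
  5,3,1,2,1] (.node [1,3,3,4,3,2,2,1] (.node [2,4,3,6,4,2,2,1] (.node [3,5,5,8,5,3,2,1] (.node [2,
  6,4,7,4,1,4,2] .nil .nil) .nil) (.node [1,5,4,7,5,2,3,1] (.node [1,7,5,9,6,3,5,2] .nil .nil)
  .nil)) (.node [2,4,5,7,5,2,2,1] (.node [3,5,5,7,4,1,3,1] (.node [1,5,4,6,4,2,4,2] .nil .nil)
  .nil) (.node [2,5,4,6,3,2,3,2] .nil .nil))) (.node [2,4,4,6,3,2,2,1] (.node [2,5,4,7,4,2,2,1]
  (.node [2,4,3,5,3,1,3,1] (.node [2,6,5,8,5,1,4,2] .nil .nil) .nil) (.node [2,5,4,6,4,1,3,2]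
  .nil .nil)) (.node [2,4,4,6,5,3,2,1] (.node [2,4,4,5,4,2,3,1] (.node [1,6,4,7,5,3,4,2] .nil
  .nil) .nil) (.node [1,4,4,6,4,2,3,2] .nil .nil))))) (.node [1,3,3,4,2,1,2,1] (.node [2,3,3,4,3,
  1,2,1] (.node [2,4,4,6,4,1,2,1] (.node [2,4,4,5,4,2,2,1] (.node [3,5,5,7,5,3,2,1] (.node [2,5,4,
  6,4,1,4,2] .nil .nil) .nil) (.node [1,5,4,6,4,2,3,1] (.node [1,7,5,9,6,3,4,2] .nil .nil) .nil))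
  (.node [2,4,4,7,5,2,2,1] (.node [2,5,4,7,4,1,3,1] (.node [1,5,3,6,4,2,4,2] .nil .nil) .nil)
  (.node [2,4,4,5,3,2,3,2] .nil .nil))) (.node [2,3,4,5,3,2,2,1] (.node [3,4,5,6,4,2,2,1] (.node
  [3,6,6,9,6,3,2,1] (.node [3,6,5,8,4,1,4,2] .nil .nil) .nil) (.node [2,5,4,6,3,1,3,2] .nil
  .nil)) (.node [3,5,6,8,5,2,2,1] (.node [1,4,3,5,4,2,3,1] (.node [1,6,5,8,5,2,4,2] .nil .nil)
  .nil) (.node [1,5,3,6,4,2,3,2] .nil .nil)))) (.node [2,4,3,5,3,1,2,1] (.node [1,3,3,5,3,2,2,1]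
  (.node [1,4,4,6,4,2,2,1] (.node [2,5,5,8,6,3,2,1] (.node [3,5,5,7,4,1,4,2] .nil .nil) .nil)
  (.node [1,4,3,5,3,1,3,2] (.node [1,7,5,9,6,3,5,3] .nil .nil) .nil)) (.node [2,5,5,7,5,2,2,1]
  (.node [2,4,3,5,3,2,3,1] (.node [1,6,4,7,4,2,4,2] .nil .nil) .nil) (.node [2,4,3,5,4,2,3,2]
  .nil .nil))) (.node [2,3,3,5,4,2,2,1] (.node [3,4,5,7,4,2,2,1] (.node [2,4,4,6,3,1,3,1] (.node
  [3,6,6,8,5,1,4,2] .nil .nil) .nil) (.node [2,5,5,7,4,1,3,2] .nil .nil)) (.node [2,5,4,7,5,3,2,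
  1] (.node [2,4,3,6,4,2,3,1] (.node [1,6,5,8,5,3,4,2] .nil .nil) .nil) (.node [1,5,4,7,4,2,3,2]
  .nil .nil)))))) (.node [1,2,2,3,2,1,2,1] (.node [1,3,2,4,2,1,2,1] (.node [1,3,3,4,3,1,2,1]
  (.node [2,4,4,6,3,1,2,1] (.node [2,3,4,5,4,2,2,1] (.node [2,5,5,7,5,3,2,1] (.node [2,5,4,6,3,1,
  4,2] .nil .nil) .nil) (.node [1,4,4,6,4,2,3,1] (.node [1,6,5,9,6,3,4,2] .nil .nil) .nil))
  (.node [2,4,4,6,5,2,2,1] (.node [2,5,4,6,4,1,3,1] (.node [2,5,4,6,3,2,4,2] .nil .nil) .nil)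
  (.node [2,4,3,5,3,2,3,2] .nil .nil))) (.node [2,4,3,5,3,2,2,1] (.node [2,4,5,6,4,2,2,1] (.node
  [3,5,6,9,6,3,2,1] (.node [2,6,5,8,4,1,4,2] .nil .nil) .nil) (.node [2,4,4,6,3,1,3,2] .nil
  .nil)) (.node [3,5,5,8,5,2,2,1] (.node [2,5,4,6,3,2,3,1] (.node [1,6,4,8,5,2,4,2] .nil .nil)
  .nil) (.node [2,4,3,6,4,2,3,2] .nil .nil)))) (.node [1,4,3,5,3,1,2,1] (.node [2,3,3,4,3,2,2,1]
  (.node [2,3,4,6,4,2,2,1] (.node [3,5,6,8,5,3,2,1] (.node [2,5,5,7,4,1,4,2] .nil .nil) .nil)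
  (.node [1,5,4,7,5,3,3,1] (.node [3,7,6,9,5,1,5,3] .nil .nil) .nil)) (.node [3,4,5,7,5,2,2,1]
  (.node [1,4,3,5,3,2,3,1] (.node [1,5,4,7,4,2,4,2] .nil .nil) .nil) (.node [1,4,3,5,4,2,3,2]
  .nil .nil))) (.node [1,3,3,5,4,2,2,1] (.node [2,4,5,7,4,2,2,1] (.node [2,4,4,5,3,1,3,1] (.node
  [3,6,5,8,5,1,4,2] .nil .nil) .nil) (.node [2,5,4,7,4,1,3,2] .nil .nil)) (.node [2,4,4,7,5,3,2,
  1] (.node [1,4,3,6,4,2,3,1] (.node [1,6,4,8,5,3,4,2] .nil .nil) .nil) (.node [1,5,4,6,4,2,3,2]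
  .nil .nil))))) (.node [2,3,3,4,2,1,2,1] (.node [1,3,3,5,3,1,2,1] (.node [1,3,2,4,3,2,2,1]
  (.node [1,4,3,6,4,2,2,1] (.node [2,5,5,8,5,3,2,1] (.node [2,5,4,7,4,1,4,2] .nil .nil) .nil)
  (.node [1,5,4,7,4,2,3,1] (.node [3,7,6,9,5,1,5,2] .nil .nil) .nil)) (.node [2,5,4,7,5,2,2,1]
  (.node [2,5,5,7,4,1,3,1] (.node [2,5,3,6,4,2,4,2] .nil .nil) .nil) (.node [2,4,4,6,3,2,3,2]
  .nil .nil))) (.node [2,4,4,5,3,2,2,1] (.node [2,4,4,7,4,2,2,1] (.node [1,4,3,5,3,1,3,1] (.node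
  [3,6,6,8,4,1,4,2] .nil .nil) .nil) (.node [2,4,4,6,4,1,3,2] .nil .nil)) (.node [2,4,4,6,4,3,2,
  1] (.node [2,4,3,5,4,2,3,1] (.node [1,5,4,7,5,3,4,2] .nil .nil) .nil) (.node [2,5,3,6,4,2,3,2]
  .nil .nil)))) (.node [2,3,4,5,3,1,2,1] (.node [2,3,3,5,3,2,2,1] (.node [3,4,4,6,4,2,2,1] (.node
  [3,5,5,8,6,3,2,1] (.node [2,6,5,7,4,1,4,2] .nil .nil) .nil) (.node [2,4,3,5,3,1,3,2] .nil
  .nil)) (.node [3,5,5,7,5,2,2,1] (.node [2,4,4,5,3,2,3,1] (.node [1,5,4,7,5,2,4,2] .nil .nil)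
  .nil) (.node [2,4,4,5,4,2,3,2] .nil .nil))) (.node [1,4,3,5,4,2,2,1] (.node [2,5,5,7,4,2,2,1]
  (.node [2,5,4,6,3,1,3,1] (.node [3,6,6,9,5,1,4,2] .nil .nil) .nil) (.node [3,5,5,7,4,1,3,2]
  .nil .nil)) (.node [2,4,5,7,5,3,2,1] (.node [1,5,3,6,4,2,3,1] (.node [1,6,4,8,6,3,4,2] .nil
  .nil) .nil) (.node [1,5,4,7,5,2,3,2] .nil .nil)))))))

/-- indices of reflected cusps -/
def cK : List (List ℕ) := [[0,0,0,0,0,0,0,2], [0,0,0,0,0,0,3,1],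
   [0,4,0,0,0,0,2,0], [0,3,0,5,0,0,0,0], [0,0,6,4,8,0,0,0], [7,0,5,0,9,0,0,0], [6,0,0,0,10,0,0,0],
   [0,0,9,0,5,19,0,0], [10,0,8,11,6,20,0,0], [9,0,0,12,7,21,0,0], [12,13,0,9,0,22,0,0], [11,14,15,
  10,0,23,0,0], [14,11,0,0,0,24,75,0], [13,12,16,0,0,25,76,0], [0,16,12,0,0,26,0,0], [0,15,14,17,
  0,27,77,0], [0,0,0,16,18,28,78,0], [0,0,0,0,17,59,80,0], [0,0,20,0,0,8,0,0], [21,0,19,22,0,9,0,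
  0], [20,0,0,23,0,10,0,0], [23,24,0,20,29,11,0,0], [22,25,26,21,30,12,0,0], [25,22,0,0,31,13,85,
  0], [24,23,27,0,32,14,86,0], [0,27,23,0,33,15,0,0], [0,26,25,28,34,16,87,0], [0,0,0,27,49,17,88,
  0], [30,31,0,0,22,0,0,0], [29,32,33,0,23,0,0,0], [32,29,0,35,24,0,90,0], [31,30,34,36,25,0,91,
  0], [0,34,30,37,26,0,0,0], [0,33,32,43,27,0,92,0], [36,0,38,31,0,0,93,0], [35,0,41,32,0,0,94,0],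
   [0,40,0,33,0,0,0,0], [39,0,35,0,0,0,97,0], [38,0,42,0,0,0,0,0], [0,37,0,44,0,0,0,0], [42,0,36,
  45,0,0,0,0], [41,0,39,46,0,0,0,0], [0,44,45,34,50,0,0,0], [0,43,47,40,51,0,0,0], [46,47,43,41,
  52,0,0,0], [45,48,0,42,53,0,0,0], [48,45,44,0,54,0,0,0], [47,46,0,0,55,0,0,0], [0,0,0,50,28,60,
  0,0], [0,51,52,49,43,61,0,0], [0,50,54,0,44,62,0,0], [53,54,50,0,45,63,0,0], [52,55,0,0,46,64,0,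
  0], [55,52,51,56,47,65,0,0], [54,53,0,57,48,66,0,0], [57,0,0,54,0,67,0,0], [56,0,58,55,0,68,0,
  0], [0,0,57,0,0,69,0,0], [0,0,0,0,60,18,0,0], [0,0,0,61,59,49,0,0], [0,62,63,60,0,50,0,0], [0,
  61,65,0,0,51,0,0], [64,65,61,0,0,52,0,0], [63,66,0,0,0,53,0,0], [66,63,62,67,0,54,0,0], [65,64,
  0,68,0,55,0,0], [68,0,0,65,70,56,0,0], [67,0,69,66,71,57,0,0], [0,0,68,0,72,58,0,0], [71,0,0,0,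
  67,0,0,0], [70,0,72,0,68,0,0,0], [0,0,71,73,69,0,0,0], [0,74,0,72,0,0,0,0], [0,73,0,0,0,0,0,0],
  [76,0,0,0,0,85,13,102], [75,0,77,0,0,86,14,103], [0,0,76,78,0,87,16,104], [0,79,0,77,80,88,17,
  105], [0,78,0,0,81,89,0,106], [0,81,0,0,78,0,18,107], [0,80,0,82,79,0,0,108], [0,0,83,81,0,0,0,
  109], [84,0,82,0,0,0,0,110], [83,0,0,0,0,0,0,111], [86,0,0,0,90,75,24,112], [85,0,87,0,91,76,25,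
  113], [0,0,86,88,92,77,27,114], [0,89,0,87,0,78,28,115], [0,88,0,0,0,79,0,116], [91,0,0,93,85,0,
  31,117], [90,0,92,94,86,0,32,118], [0,0,91,0,87,0,34,119], [94,95,97,90,0,0,35,120], [93,96,0,
  91,0,0,36,121], [96,93,98,0,0,0,0,122], [95,94,0,0,0,0,0,123], [0,98,93,0,0,0,38,124], [0,97,95,
  99,0,0,0,125], [0,0,0,98,100,0,0,126], [0,0,0,0,99,101,0,127], [0,0,0,0,0,100,0,128], [103,0,0,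
  0,0,112,0,75], [102,0,104,0,0,113,0,76], [0,0,103,105,0,114,0,77], [0,106,0,104,107,115,0,78],
  [0,105,0,0,108,116,129,79], [0,108,0,0,105,0,0,80], [0,107,0,109,106,0,130,81], [0,0,110,108,0,
  0,131,82], [111,0,109,0,0,0,133,83], [110,0,0,0,0,0,134,84], [113,0,0,0,117,102,0,85], [112,0,
  114,0,118,103,0,86], [0,0,113,115,119,104,0,87], [0,116,0,114,0,105,0,88], [0,115,0,0,0,106,145,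
  89], [118,0,0,120,112,0,0,90], [117,0,119,121,113,0,0,91], [0,0,118,0,114,0,0,92], [121,122,124,
  117,0,0,0,93], [120,123,0,118,0,0,0,94], [123,120,125,0,0,0,146,95], [122,121,0,0,0,0,147,96],
  [0,125,120,0,0,0,0,97], [0,124,122,126,0,0,148,98], [0,0,0,125,127,0,149,99], [0,0,0,0,126,128,
  151,100], [0,0,0,0,0,127,155,101], [0,0,0,0,130,145,106,0], [0,0,0,131,129,0,108,0], [0,132,133,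
  130,0,0,109,0], [0,131,135,0,0,0,0,0], [134,135,131,0,0,0,110,0], [133,136,0,0,0,0,111,0], [136,
  133,132,137,0,0,0,0], [135,134,0,138,0,0,0,0], [138,0,0,135,140,0,0,0], [137,0,139,136,141,0,0,
  0], [0,0,138,0,142,0,0,0], [141,0,0,0,137,0,0,0], [140,0,142,0,138,0,0,0], [0,0,141,143,139,0,0,
  0], [0,144,0,142,0,0,0,0], [0,143,0,0,0,0,163,0], [0,0,0,0,0,129,116,0], [147,0,148,0,0,0,122,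
  0], [146,0,0,0,0,0,123,0], [0,0,146,149,0,0,125,0], [0,150,0,148,151,0,126,0], [0,149,0,0,152,0,
  0,0], [0,152,0,0,149,155,127,0], [0,151,0,153,150,156,0,0], [0,0,154,152,0,157,0,0], [0,0,153,0,
  0,158,0,0], [0,156,0,0,0,151,128,0], [0,155,0,157,0,152,0,0], [0,0,158,156,159,153,0,0], [0,0,
  157,0,160,154,0,0], [0,0,160,0,157,0,0,0], [0,0,159,161,158,0,0,0], [0,162,0,160,0,0,0,0], [0,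
  161,0,0,0,0,164,0], [0,0,0,0,0,0,144,165], [0,0,0,0,0,0,162,166], [0,0,0,0,0,0,0,163], [0,0,0,0,
  0,0,0,164]]

theorem cusps_fast : fastCusps dat ex cT 166 cK = true := by decide +kernel

end Pool.Agent.Helper10.Fam.E6
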