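import Pool.Agent.Helper10.FamD.E6LowT

set_option autoImplicit false
set_option maxRecDepth 1000000

/-!
# Certificate data for `U ⊕ E6` (lower bound, subtrees)
-/

namespace Pool.Agent.Helper10.Fam.E6

open Pool.Agent.Helper10.Fam

def lt0 : Tr ℕ := (.bis 4 7 1 47 12 (.bis 3 7 1 38 13 (.bis 1 7 1 32 14 (.bis 6 7 1 18 15 (.leaf
  1) (.bis 0 6 1 2 16 (.bis 5 6 1 2 17 (.bis 2 6 1 2 18 (.bis 4 6 1 2 19 (.bis 3 6 1 2 20 (.bis 1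
  6 1 1 21 (.bis 0 6 1 4 22 (.bis 5 6 1 4 23 (.bis 1 6 1 2 24 (.bis 2 6 1 4 25 (.bis 4 6 1 4 26
  (.leaf 25) (.leaf 25)) (.leaf 25)) (.leaf 25)) (.leaf 25)) (.leaf 25)) (.leaf 53)) (.leaf 53))
  (.leaf 53)) (.leaf 53)) (.bis 5 7 1 2 27 (.leaf 53) (.leaf 24))) (.bis 0 5 1 1 28 (.bis 5 7 1 2
  27 (.leaf 53) (.leaf 24)) (.bis 0 7 1 2 29 (.leaf 53) (.leaf 64))))) (.bis 0 6 1 2 16 (.bis 5 6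
  1 2 17 (.bis 2 6 1 2 18 (.bis 4 6 1 2 19 (.bis 3 6 1 2 20 (.bis 1 6 1 1 30 (.bis 6 7 1 1 21
  (.bis 0 1 1 2 31 (.leaf 11) (.leaf 3)) (.bis 0 6 1 4 22 (.bis 5 6 1 4 23 (.bis 6 7 2 1 24
  (.leaf 11) (.bis 1 6 1 2 32 (.bis 2 6 1 4 25 (.leaf 25) (.leaf 25)) (.leaf 25))) (.leaf 11))
  (.bis 0 1 1 2 31 (.leaf 11) (.leaf 11)))) (.bis 0 1 1 4 33 (.bis 1 5 4 1 34 (.leaf 11) (.bis 1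
  2 4 1 35 (.leaf 11) (.bis 1 4 4 1 36 (.leaf 11) (.leaf 22)))) (.leaf 11))) (.bis 0 1 1 4 33
  (.bis 1 5 4 1 34 (.leaf 3) (.bis 1 2 4 1 35 (.leaf 3) (.bis 1 4 4 1 36 (.leaf 3) (.bis 1 3 2 1
  37 (.leaf 3) (.leaf 22))))) (.leaf 3))) (.bis 1 4 2 1 38 (.leaf 3) (.bis 0 1 1 4 33 (.bis 1 5 4
  1 34 (.leaf 3) (.bis 1 2 4 1 35 (.leaf 3) (.bis 1 6 4 1 36 (.leaf 3) (.leaf 22)))) (.leaf 3))))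
  (.bis 1 2 2 1 39 (.leaf 3) (.bis 1 4 2 1 38 (.leaf 3) (.bis 0 1 1 4 33 (.bis 1 5 4 1 34 (.leaf
  3) (.bis 1 6 4 1 35 (.leaf 3) (.leaf 22))) (.leaf 3))))) (.bis 1 5 2 1 40 (.leaf 24) (.bis 1 2
  2 1 39 (.leaf 3) (.bis 1 4 2 1 38 (.leaf 3) (.bis 0 1 1 4 33 (.bis 1 6 4 1 34 (.leaf 3) (.bis 1
  3 2 1 37 (.leaf 3) (.leaf 22))) (.leaf 3)))))) (.bis 0 1 1 2 41 (.bis 1 5 2 1 40 (.bis 5 6 2 1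
  42 (.leaf 3) (.leaf 24)) (.bis 1 2 2 1 39 (.leaf 3) (.bis 1 4 2 1 38 (.leaf 3) (.bis 1 6 4 1 33
  (.leaf 3) (.bis 1 3 2 1 37 (.leaf 3) (.leaf 22)))))) (.bis 0 5 1 1 28 (.bis 5 6 2 1 42 (.leaf
  24) (.leaf 24)) (.leaf 64))))) (.bis 0 6 1 2 16 (.bis 5 6 1 2 17 (.bis 3 6 1 1 43 (.bis 2 6 1 2
  18 (.bis 4 6 1 2 19 (.bis 6 7 2 1 20 (.bis 0 1 1 4 33 (.bis 1 5 4 1 34 (.leaf 3) (.bis 1 2 4 1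
  35 (.leaf 3) (.bis 1 4 4 1 36 (.leaf 3) (.leaf 22)))) (.leaf 3)) (.bis 1 6 1 1 30 (.bis 0 6 1 4
  22 (.bis 5 6 1 4 23 (.bis 3 6 1 2 44 (.bis 1 6 1 2 32 (.bis 2 6 1 4 25 (.leaf 25) (.leaf 25))
  (.leaf 25)) (.leaf 11)) (.leaf 11)) (.leaf 11)) (.bis 0 1 1 4 33 (.bis 1 5 4 1 34 (.leaf 11)
  (.bis 1 2 4 1 35 (.leaf 11) (.leaf 22))) (.leaf 11)))) (.bis 1 4 2 1 38 (.bis 3 4 1 1 45 (.leaf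
  3) (.leaf 3)) (.bis 0 1 1 4 33 (.bis 1 5 4 1 34 (.leaf 3) (.bis 1 2 4 1 35 (.leaf 3) (.bis 1 6
  4 1 36 (.leaf 3) (.leaf 22)))) (.leaf 3)))) (.bis 1 2 2 1 39 (.bis 2 3 1 1 46 (.bis 3 4 1 1 45
  (.leaf 3) (.leaf 3)) (.leaf 3)) (.bis 1 4 2 1 38 (.bis 3 4 1 1 45 (.leaf 3) (.leaf 3)) (.bis 0
  1 1 4 33 (.bis 1 5 4 1 34 (.leaf 3) (.bis 1 6 4 1 35 (.leaf 3) (.leaf 22))) (.leaf 3))))) (.bis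
  0 3 1 4 47 (.bis 3 5 4 1 48 (.bis 1 2 2 1 39 (.bis 2 6 1 1 46 (.leaf 3) (.leaf 3)) (.bis 1 4 2
  1 38 (.leaf 3) (.bis 1 5 4 1 34 (.leaf 3) (.leaf 22)))) (.bis 1 2 2 1 39 (.bis 2 3 1 2 49 (.bis
  3 4 2 1 50 (.leaf 3) (.bis 3 7 2 1 51 (.leaf 3) (.leaf 7))) (.leaf 3)) (.bis 1 4 2 1 38 (.bis 3
  4 2 1 50 (.leaf 3) (.bis 3 7 2 1 51 (.leaf 3) (.leaf 7))) (.bis 1 7 2 1 37 (.bis 3 7 2 1 51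
  (.leaf 3) (.bis 3 6 2 1 52 (.leaf 3) (.leaf 2))) (.bis 1 3 1 1 53 (.leaf 7) (.leaf 7))))))
  (.bis 1 2 2 1 39 (.bis 2 6 1 1 46 (.leaf 3) (.leaf 3)) (.bis 1 4 2 1 38 (.leaf 3) (.bis 0 1 1 4
  33 (.bis 1 5 4 1 34 (.leaf 3) (.leaf 22)) (.leaf 3)))))) (.bis 1 5 2 1 40 (.bis 3 5 2 1 54
  (.leaf 24) (.bis 0 3 1 4 47 (.bis 3 6 4 1 48 (.leaf 3) (.bis 2 3 1 2 49 (.bis 3 4 2 1 50 (.leaf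
  3) (.bis 1 3 1 4 55 (.bis 3 7 2 1 51 (.leaf 3) (.leaf 2)) (.leaf 3))) (.leaf 3))) (.leaf 3)))
  (.bis 0 3 1 4 47 (.bis 3 6 4 1 48 (.bis 1 2 2 1 39 (.leaf 3) (.bis 1 4 2 1 38 (.leaf 3) (.bis 1
  6 4 1 34 (.leaf 3) (.bis 1 7 2 1 37 (.leaf 3) (.leaf 7))))) (.bis 1 2 2 1 39 (.bis 2 3 1 2 49
  (.bis 3 4 2 1 50 (.leaf 3) (.bis 3 5 4 1 55 (.leaf 3) (.bis 3 7 2 1 51 (.leaf 3) (.leaf 2))))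
  (.leaf 3)) (.bis 1 4 2 1 38 (.bis 3 4 2 1 50 (.leaf 3) (.bis 3 5 4 1 55 (.leaf 3) (.bis 3 7 2 1
  51 (.leaf 3) (.leaf 2)))) (.bis 1 7 2 1 37 (.bis 3 5 4 1 55 (.leaf 3) (.bis 3 7 2 1 51 (.leaf
  3) (.leaf 2))) (.bis 3 5 4 1 55 (.leaf 7) (.bis 1 3 1 1 53 (.leaf 2) (.leaf 7))))))) (.bis 1 2
  2 1 39 (.leaf 3) (.bis 1 4 2 1 38 (.leaf 3) (.bis 0 1 1 4 33 (.bis 1 6 4 1 34 (.leaf 3) (.leaf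
  22)) (.leaf 3))))))) (.bis 0 1 1 2 41 (.bis 1 5 2 1 40 (.bis 3 5 2 1 54 (.leaf 24) (.bis 3 6 4
  1 47 (.leaf 3) (.bis 2 3 1 2 49 (.bis 3 4 2 1 50 (.leaf 3) (.bis 0 3 1 4 56 (.bis 1 3 1 4 55
  (.leaf 65) (.leaf 3)) (.leaf 3))) (.leaf 3)))) (.bis 3 6 4 1 47 (.bis 1 2 2 1 39 (.leaf 3)
  (.bis 1 4 2 1 38 (.leaf 3) (.bis 1 6 4 1 33 (.leaf 3) (.bis 1 7 2 1 37 (.leaf 3) (.leaf 7)))))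
  (.bis 1 2 2 1 39 (.bis 2 3 1 2 49 (.bis 3 4 2 1 50 (.leaf 3) (.bis 0 3 1 4 56 (.bis 3 5 4 1 55
  (.leaf 3) (.leaf 65)) (.leaf 3))) (.leaf 3)) (.bis 1 4 2 1 38 (.bis 3 4 2 1 50 (.leaf 3) (.bis
  0 3 1 4 56 (.bis 3 5 4 1 55 (.leaf 3) (.bis 3 7 2 1 51 (.leaf 3) (.leaf 2))) (.leaf 3))) (.bis
  1 7 2 1 37 (.bis 0 3 1 4 56 (.bis 3 5 4 1 55 (.leaf 3) (.bis 3 7 2 1 51 (.leaf 3) (.leaf 2)))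
  (.leaf 3)) (.bis 0 3 1 4 56 (.bis 3 5 4 1 55 (.leaf 7) (.leaf 7)) (.leaf 7))))))) (.bis 0 3 1 2
  57 (.bis 3 5 2 1 54 (.bis 5 6 2 1 42 (.leaf 3) (.bis 1 5 1 2 58 (.bis 0 5 1 2 59 (.leaf 24)
  (.leaf 3)) (.leaf 3))) (.bis 3 6 4 1 47 (.leaf 3) (.bis 2 3 1 2 49 (.bis 3 4 2 1 50 (.leaf 3)
  (.bis 1 3 1 4 56 (.bis 3 7 2 1 51 (.leaf 3) (.leaf 2)) (.leaf 3))) (.leaf 3)))) (.bis 0 5 1 1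
  28 (.bis 5 6 2 1 42 (.leaf 24) (.bis 1 5 1 2 58 (.bis 3 5 1 2 59 (.leaf 24) (.leaf 24)) (.leaf
  24))) (.leaf 64)))))) (.bis 0 4 1 2 60 (.bis 4 6 1 1 61 (.bis 5 6 1 2 17 (.bis 3 6 1 1 43 (.bis
  0 6 1 4 62 (.bis 2 6 1 2 18 (.bis 6 7 2 1 19 (.bis 1 7 2 1 38 (.leaf 3) (.bis 1 5 4 1 34 (.leaf
  3) (.bis 1 2 4 1 35 (.leaf 3) (.bis 1 6 4 1 36 (.leaf 3) (.leaf 7))))) (.bis 1 6 1 1 30 (.bis 4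
  6 1 2 63 (.bis 5 6 1 4 23 (.bis 0 6 1 8 64 (.bis 3 6 1 2 44 (.bis 1 6 1 2 32 (.leaf 25) (.leaf
  25)) (.leaf 11)) (.leaf 11)) (.leaf 11)) (.leaf 11)) (.bis 1 5 4 1 34 (.leaf 11) (.bis 1 2 4 1
  35 (.leaf 11) (.bis 1 7 4 1 36 (.leaf 11) (.leaf 22)))))) (.bis 1 2 2 1 39 (.leaf 3) (.bis 1 7
  2 1 38 (.leaf 3) (.bis 1 5 4 1 34 (.leaf 3) (.bis 1 6 4 1 35 (.leaf 3) (.leaf 7)))))) (.bis 1 2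
  2 1 39 (.leaf 3) (.bis 1 7 2 1 38 (.leaf 3) (.bis 1 5 4 1 34 (.bis 0 5 1 1 65 (.leaf 3) (.leaf
  3)) (.bis 0 1 1 4 66 (.leaf 7) (.leaf 3)))))) (.bis 3 5 4 1 48 (.bis 1 2 2 1 39 (.leaf 3) (.bis
  1 7 2 1 38 (.leaf 3) (.bis 1 5 4 1 34 (.bis 0 5 1 1 65 (.leaf 3) (.leaf 3)) (.bis 0 1 1 4 66
  (.leaf 7) (.leaf 3))))) (.bis 1 2 2 1 39 (.bis 2 3 1 2 49 (.bis 3 7 2 1 50 (.leaf 3) (.leaf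
  38)) (.leaf 3)) (.bis 1 7 2 1 38 (.bis 3 7 2 1 50 (.leaf 3) (.bis 0 6 1 2 67 (.bis 3 4 2 1 68
  (.leaf 3) (.leaf 7)) (.bis 0 3 1 4 69 (.leaf 2) (.leaf 2)))) (.bis 0 1 1 4 66 (.bis 3 4 2 1 68
  (.leaf 7) (.leaf 7)) (.bis 0 6 1 2 67 (.bis 3 4 2 1 68 (.leaf 3) (.leaf 7)) (.bis 0 3 1 4 69
  (.bis 3 4 2 1 68 (.leaf 2) (.leaf 2)) (.leaf 2)))))))) (.bis 1 5 2 1 40 (.bis 3 5 2 1 54 (.bis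
  4 5 1 1 70 (.bis 2 5 1 1 71 (.bis 0 5 1 2 72 (.leaf 24) (.bis 0 6 1 1 65 (.leaf 3) (.leaf 3)))
  (.bis 0 6 1 1 65 (.leaf 3) (.leaf 3))) (.bis 2 4 1 1 73 (.bis 0 6 1 1 65 (.bis 4 7 1 1 74
  (.leaf 3) (.leaf 3)) (.bis 4 7 1 1 74 (.leaf 3) (.leaf 3))) (.leaf 3))) (.bis 3 6 4 1 48 (.bis
  2 4 1 1 73 (.leaf 3) (.leaf 3)) (.bis 2 3 1 2 49 (.bis 3 7 2 1 50 (.leaf 3) (.bis 1 3 1 4 55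
  (.leaf 2) (.leaf 3))) (.bis 2 4 1 1 73 (.leaf 3) (.leaf 3))))) (.bis 3 6 4 1 48 (.bis 1 2 2 1
  39 (.bis 2 4 1 1 73 (.leaf 3) (.leaf 3)) (.bis 1 7 2 1 38 (.leaf 3) (.bis 1 6 4 1 34 (.bis 0 6
  1 1 65 (.leaf 3) (.leaf 3)) (.bis 0 1 1 4 66 (.leaf 7) (.leaf 3))))) (.bis 1 2 2 1 39 (.bis 2 3
  1 2 49 (.bis 3 7 2 1 50 (.leaf 3) (.bis 3 5 4 1 55 (.leaf 3) (.leaf 2))) (.bis 2 4 1 1 73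
  (.leaf 3) (.leaf 3))) (.bis 1 7 2 1 38 (.bis 3 7 2 1 50 (.leaf 3) (.bis 3 5 4 1 55 (.leaf 3)
  (.bis 0 3 1 4 69 (.leaf 2) (.leaf 2)))) (.bis 0 1 1 4 66 (.bis 3 5 4 1 55 (.leaf 7) (.bis 3 4 2
  1 68 (.leaf 7) (.leaf 7))) (.bis 3 5 4 1 55 (.leaf 3) (.bis 0 3 1 4 69 (.leaf 2) (.leaf
  2))))))))) (.bis 1 5 2 1 40 (.bis 3 5 2 1 54 (.bis 4 5 2 1 75 (.bis 5 6 1 1 70 (.bis 2 6 1 1 73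
  (.bis 6 7 1 1 74 (.leaf 13) (.leaf 8)) (.leaf 50)) (.bis 2 5 1 1 71 (.bis 0 5 1 2 72 (.leaf 68)
  (.bis 0 2 1 1 76 (.leaf 13) (.leaf 13))) (.leaf 50))) (.bis 2 4 1 2 77 (.bis 1 4 1 4 78 (.bis 4
  7 2 1 79 (.bis 6 7 1 1 74 (.leaf 50) (.leaf 8)) (.bis 3 4 1 4 80 (.bis 0 4 1 4 81 (.bis 4 6 2 1
  82 (.leaf 8) (.leaf 54)) (.bis 5 6 1 2 83 (.leaf 8) (.leaf 8))) (.bis 5 6 1 2 83 (.leaf 8)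
  (.leaf 8)))) (.bis 6 7 1 1 74 (.leaf 13) (.leaf 8))) (.bis 2 6 1 1 73 (.bis 6 7 1 1 74 (.leaf
  13) (.leaf 8)) (.leaf 50)))) (.bis 2 4 1 2 77 (.bis 1 4 1 4 78 (.bis 3 7 2 1 50 (.bis 4 7 2 1
  79 (.leaf 50) (.bis 4 5 4 1 80 (.leaf 8) (.bis 0 4 1 4 81 (.bis 4 6 2 1 82 (.leaf 8) (.leaf 6))
  (.leaf 8)))) (.bis 4 5 4 1 80 (.bis 0 3 1 4 69 (.leaf 2) (.leaf 2)) (.bis 0 4 1 4 81 (.bis 4 6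
  2 1 82 (.bis 3 6 2 1 68 (.leaf 2) (.leaf 2)) (.bis 3 4 1 1 84 (.leaf 6) (.leaf 2))) (.bis 0 3 1
  4 69 (.leaf 2) (.leaf 2))))) (.bis 3 7 2 1 50 (.bis 6 7 1 1 74 (.leaf 3) (.leaf 3)) (.bis 1 3 1
  4 55 (.bis 0 3 1 4 69 (.leaf 2) (.leaf 2)) (.leaf 3)))) (.bis 2 3 1 2 49 (.bis 3 7 2 1 50 (.bis
  6 7 1 1 74 (.leaf 3) (.leaf 3)) (.bis 1 3 1 4 55 (.leaf 2) (.leaf 3))) (.bis 2 6 1 1 73 (.leaf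
  3) (.leaf 3))))) (.bis 2 4 1 2 77 (.bis 1 4 1 1 85 (.bis 4 5 4 1 78 (.bis 3 7 2 1 50 (.leaf 71)
  (.bis 3 5 4 1 55 (.leaf 8) (.leaf 2))) (.bis 3 7 2 1 50 (.bis 4 7 2 1 79 (.leaf 71) (.bis 0 4 1
  4 81 (.bis 4 6 2 1 82 (.leaf 8) (.leaf 6)) (.leaf 8))) (.bis 0 4 1 4 81 (.bis 4 6 2 1 82 (.leaf
  2) (.leaf 6)) (.leaf 2)))) (.bis 1 7 2 1 38 (.bis 3 7 2 1 50 (.leaf 71) (.bis 3 5 4 1 55 (.leaf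
  8) (.leaf 2))) (.bis 0 1 1 4 66 (.bis 3 5 4 1 55 (.leaf 7) (.leaf 7)) (.bis 3 5 4 1 55 (.leaf
  8) (.leaf 2))))) (.bis 1 2 2 1 39 (.bis 2 3 1 2 49 (.bis 3 7 2 1 50 (.leaf 3) (.bis 3 5 4 1 55
  (.leaf 3) (.leaf 2))) (.bis 2 6 1 1 73 (.leaf 3) (.leaf 3))) (.bis 1 7 2 1 38 (.bis 3 7 2 1 50
  (.leaf 3) (.bis 3 5 4 1 55 (.leaf 3) (.bis 0 3 1 4 69 (.leaf 2) (.leaf 2)))) (.bis 0 1 1 4 66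
  (.bis 3 5 4 1 55 (.leaf 7) (.leaf 7)) (.bis 3 5 4 1 55 (.leaf 3) (.bis 0 3 1 4 69 (.leaf 2)
  (.leaf 2))))))))) (.bis 0 6 1 2 16 (.bis 5 6 1 2 17 (.bis 3 6 1 1 43 (.bis 4 6 1 4 62 (.bis 2 6
  1 2 18 (.bis 6 7 2 1 19 (.bis 1 7 2 1 38 (.bis 3 7 1 1 45 (.leaf 3) (.leaf 3)) (.bis 0 1 1 4 33
  (.bis 1 5 4 1 34 (.leaf 3) (.bis 1 2 4 1 35 (.leaf 3) (.leaf 22))) (.leaf 3))) (.bis 1 6 1 1 30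
  (.bis 0 6 1 4 22 (.bis 5 6 1 4 23 (.bis 4 6 1 8 64 (.bis 3 6 1 2 44 (.bis 1 6 1 2 32 (.leaf 25)
  (.leaf 25)) (.leaf 11)) (.leaf 11)) (.leaf 11)) (.leaf 11)) (.bis 0 1 1 4 33 (.bis 1 5 4 1 34
  (.leaf 11) (.bis 1 2 4 1 35 (.leaf 11) (.leaf 22))) (.leaf 11)))) (.bis 1 2 2 1 39 (.bis 2 3 1
  1 46 (.leaf 3) (.leaf 3)) (.bis 1 7 2 1 38 (.leaf 3) (.bis 0 1 1 4 33 (.bis 1 5 4 1 34 (.leaf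
  3) (.leaf 90)) (.leaf 3))))) (.bis 1 2 2 1 39 (.bis 4 5 1 1 65 (.bis 2 3 1 1 46 (.leaf 3)
  (.leaf 3)) (.bis 2 3 1 1 46 (.leaf 3) (.leaf 3))) (.bis 1 7 2 1 38 (.leaf 3) (.bis 0 1 1 4 33
  (.bis 1 5 4 1 34 (.bis 4 5 1 1 65 (.leaf 3) (.leaf 3)) (.bis 1 4 4 1 66 (.leaf 3) (.leaf 7)))
  (.leaf 3))))) (.bis 0 3 1 4 47 (.bis 3 5 4 1 48 (.bis 1 2 2 1 39 (.bis 4 5 1 1 65 (.bis 2 6 1 1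
  46 (.leaf 3) (.leaf 3)) (.bis 2 6 1 1 46 (.leaf 3) (.leaf 3))) (.bis 1 7 2 1 38 (.leaf 3) (.bis
  1 5 4 1 34 (.leaf 3) (.bis 1 4 4 1 66 (.leaf 3) (.leaf 7))))) (.bis 1 2 2 1 39 (.bis 2 3 1 2 49
  (.bis 3 7 2 1 50 (.leaf 3) (.leaf 38)) (.leaf 3)) (.bis 1 7 2 1 38 (.bis 3 7 2 1 50 (.leaf 3)
  (.bis 4 6 1 2 67 (.bis 3 6 2 1 52 (.leaf 3) (.leaf 2)) (.bis 3 4 4 1 69 (.leaf 2) (.leaf 2))))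
  (.bis 1 4 4 1 66 (.bis 4 6 1 2 67 (.bis 3 6 2 1 52 (.leaf 3) (.leaf 2)) (.bis 3 4 4 1 69 (.leaf
  2) (.bis 2 3 1 4 86 (.leaf 2) (.leaf 2)))) (.bis 1 3 1 1 53 (.leaf 7) (.leaf 7)))))) (.bis 1 2
  2 1 39 (.bis 4 5 1 1 65 (.bis 2 6 1 1 46 (.leaf 3) (.leaf 3)) (.bis 2 6 1 1 46 (.leaf 3) (.leaf
  3))) (.bis 1 7 2 1 38 (.leaf 3) (.bis 0 1 1 4 33 (.bis 1 5 4 1 34 (.bis 4 5 1 1 65 (.leaf 3)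
  (.leaf 3)) (.bis 1 4 4 1 66 (.leaf 3) (.leaf 7))) (.leaf 3)))))) (.bis 1 5 2 1 40 (.bis 3 5 2 1
  54 (.bis 0 5 1 2 42 (.bis 2 5 1 1 71 (.bis 4 5 1 2 72 (.leaf 24) (.bis 4 6 1 1 65 (.leaf 3)
  (.leaf 3))) (.bis 4 6 1 1 65 (.leaf 3) (.leaf 3))) (.bis 0 3 1 1 87 (.bis 4 6 1 1 65 (.leaf 3)
  (.leaf 3)) (.bis 4 6 1 1 65 (.leaf 3) (.leaf 3)))) (.bis 0 3 1 4 47 (.bis 3 6 4 1 48 (.leaf 3)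
  (.bis 2 3 1 2 49 (.bis 3 7 2 1 50 (.leaf 3) (.bis 1 3 1 4 55 (.leaf 2) (.leaf 3))) (.leaf 3)))
  (.leaf 3))) (.bis 0 3 1 4 47 (.bis 3 6 4 1 48 (.bis 1 2 2 1 39 (.leaf 3) (.bis 1 7 2 1 38
  (.leaf 3) (.bis 1 6 4 1 34 (.leaf 3) (.bis 1 4 4 1 66 (.leaf 3) (.leaf 7))))) (.bis 1 2 2 1 39
  (.bis 2 3 1 2 49 (.bis 3 7 2 1 50 (.leaf 3) (.bis 3 5 4 1 55 (.leaf 3) (.leaf 2))) (.leaf 3))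
  (.bis 1 7 2 1 38 (.bis 3 7 2 1 50 (.leaf 3) (.bis 3 5 4 1 55 (.leaf 3) (.bis 3 4 4 1 69 (.leaf
  2) (.leaf 2)))) (.bis 1 4 4 1 66 (.bis 3 5 4 1 55 (.leaf 3) (.bis 3 4 4 1 69 (.leaf 2) (.leaf
  2))) (.bis 3 5 4 1 55 (.leaf 7) (.bis 1 3 1 1 53 (.leaf 2) (.leaf 7))))))) (.bis 1 2 2 1 39
  (.leaf 3) (.bis 1 7 2 1 38 (.leaf 3) (.bis 0 1 1 4 33 (.bis 1 6 4 1 34 (.leaf 3) (.bis 1 4 4 1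
  66 (.leaf 3) (.leaf 7))) (.leaf 3))))))) (.bis 0 1 1 2 41 (.bis 1 5 2 1 40 (.bis 3 5 2 1 54
  (.bis 5 6 2 1 42 (.leaf 3) (.leaf 24)) (.bis 3 6 4 1 47 (.leaf 3) (.bis 2 3 1 2 49 (.bis 3 7 2
  1 50 (.leaf 3) (.bis 0 3 1 4 56 (.bis 1 3 1 4 55 (.leaf 2) (.leaf 3)) (.leaf 3))) (.leaf 3))))
  (.bis 3 6 4 1 47 (.bis 1 2 2 1 39 (.leaf 3) (.bis 1 7 2 1 38 (.leaf 3) (.bis 1 6 4 1 33 (.leaf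
  3) (.bis 1 4 4 1 66 (.leaf 3) (.leaf 7))))) (.bis 1 2 2 1 39 (.bis 2 3 1 2 49 (.bis 3 7 2 1 50
  (.leaf 3) (.bis 0 3 1 4 56 (.bis 3 5 4 1 55 (.leaf 3) (.leaf 2)) (.leaf 3))) (.leaf 3)) (.bis 1
  7 2 1 38 (.bis 3 7 2 1 50 (.leaf 3) (.bis 0 3 1 4 56 (.bis 3 5 4 1 55 (.leaf 3) (.leaf 2))
  (.leaf 3))) (.bis 1 4 4 1 66 (.bis 0 3 1 4 56 (.bis 3 5 4 1 55 (.leaf 3) (.bis 3 4 4 1 69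
  (.leaf 2) (.leaf 2))) (.leaf 3)) (.bis 0 3 1 4 56 (.bis 3 5 4 1 55 (.leaf 7) (.leaf 7)) (.leaf
  7))))))) (.bis 0 3 1 2 57 (.bis 3 5 2 1 54 (.bis 5 6 2 1 42 (.leaf 3) (.bis 1 5 1 2 58 (.leaf
  24) (.leaf 3))) (.bis 3 6 4 1 47 (.leaf 3) (.bis 2 3 1 2 49 (.bis 3 7 2 1 50 (.leaf 3) (.bis 1
  3 1 4 56 (.bis 3 4 4 1 69 (.leaf 2) (.leaf 2)) (.leaf 3))) (.leaf 3)))) (.bis 0 5 1 1 28 (.bis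
  5 6 2 1 42 (.leaf 24) (.bis 1 5 1 2 58 (.bis 3 5 1 2 59 (.bis 2 5 1 1 71 (.bis 4 5 1 2 72
  (.leaf 24) (.bis 2 4 1 1 76 (.leaf 13) (.leaf 13))) (.bis 4 5 1 1 76 (.leaf 24) (.leaf 24)))
  (.leaf 24)) (.leaf 24))) (.leaf 64)))))))

def lc0 : List Vr := [⟨[73,0,0,0,0,0,0,79], 45260, 0⟩, ⟨[0,24,0,0,0,0,0,0], 10368, 0⟩, ⟨[0,0,28,0,
  0,0,0,47], 26768, 0⟩, ⟨[0,0,0,17,0,0,0,0], 10404, 0⟩, ⟨[0,0,0,0,28,0,0,0], 10976, 0⟩, ⟨[0,0,0,0,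
  0,73,0,79], 45260, 0⟩, ⟨[0,0,0,0,0,0,42,0], 10584, 0⟩, ⟨[0,0,0,0,0,0,0,1], 0, 0⟩]

theorem lk0 : chkTr lowT (leafLow 3 lowB) lt0 lc0 = true := by decide +kernel

def lt1 : Tr ℕ := (.bis 0 4 1 2 60 (.bis 2 5 2 1 88 (.bis 4 6 1 1 61 (.bis 5 6 1 2 17 (.bis 3 6 1
  1 43 (.bis 0 6 1 4 62 (.bis 2 6 1 4 89 (.bis 6 7 2 1 18 (.bis 1 7 2 1 39 (.leaf 3) (.bis 1 5 4
  1 34 (.leaf 3) (.bis 1 6 4 1 35 (.leaf 3) (.leaf 7)))) (.bis 1 6 1 1 30 (.bis 4 6 1 2 63 (.bis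
  5 6 1 4 23 (.bis 0 6 1 8 64 (.bis 2 6 1 8 90 (.bis 3 6 1 2 44 (.leaf 25) (.leaf 11)) (.leaf
  11)) (.leaf 11)) (.leaf 11)) (.leaf 11)) (.bis 1 5 4 1 34 (.leaf 11) (.bis 1 7 4 1 35 (.leaf
  11) (.leaf 22))))) (.bis 1 7 2 1 39 (.leaf 3) (.bis 1 5 4 1 34 (.leaf 3) (.bis 1 2 4 1 91
  (.leaf 3) (.leaf 7))))) (.bis 1 7 2 1 39 (.leaf 3) (.bis 1 5 4 1 34 (.leaf 3) (.bis 0 1 1 4 66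
  (.bis 1 2 4 1 91 (.leaf 3) (.leaf 7)) (.leaf 3))))) (.bis 3 5 4 1 48 (.bis 1 7 2 1 39 (.leaf 3)
  (.bis 1 5 4 1 34 (.bis 0 5 1 1 65 (.leaf 3) (.leaf 3)) (.bis 0 1 1 4 66 (.bis 1 2 4 1 91 (.leaf
  3) (.leaf 7)) (.leaf 3)))) (.bis 1 7 2 1 39 (.bis 3 7 2 1 49 (.leaf 3) (.bis 0 6 1 2 67 (.bis 2
  6 1 2 92 (.bis 3 4 2 1 68 (.leaf 3) (.leaf 7)) (.bis 2 4 1 2 93 (.bis 3 4 2 1 68 (.leaf 2)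
  (.leaf 2)) (.bis 2 3 1 4 94 (.leaf 2) (.leaf 2)))) (.bis 2 4 1 2 93 (.bis 0 3 1 4 69 (.leaf 2)
  (.leaf 2)) (.bis 0 3 1 4 69 (.bis 2 3 1 4 94 (.leaf 2) (.leaf 2)) (.leaf 2))))) (.bis 0 1 1 4
  66 (.bis 1 2 4 1 91 (.bis 2 6 1 2 92 (.bis 3 4 2 1 68 (.leaf 3) (.leaf 7)) (.bis 2 4 1 2 93
  (.bis 3 4 2 1 68 (.leaf 2) (.leaf 2)) (.bis 2 3 1 4 94 (.bis 3 7 4 1 86 (.leaf 2) (.leaf 2))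
  (.leaf 2)))) (.bis 3 4 2 1 68 (.leaf 7) (.leaf 7))) (.bis 0 6 1 2 67 (.bis 2 6 1 2 92 (.bis 3 4
  2 1 68 (.leaf 3) (.leaf 7)) (.bis 2 4 1 2 93 (.bis 3 4 2 1 68 (.leaf 2) (.leaf 2)) (.bis 2 3 1
  4 94 (.bis 3 7 4 1 86 (.leaf 2) (.leaf 2)) (.leaf 2)))) (.bis 2 4 1 2 93 (.bis 0 3 1 4 69 (.bis
  3 4 2 1 68 (.leaf 2) (.leaf 2)) (.leaf 2)) (.bis 0 3 1 4 69 (.bis 2 3 1 4 94 (.leaf 2) (.leaf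
  2)) (.leaf 2)))))))) (.bis 1 5 2 1 40 (.bis 3 5 2 1 54 (.bis 4 5 1 1 70 (.bis 5 7 1 1 71 (.bis
  0 6 1 1 65 (.leaf 3) (.leaf 3)) (.bis 0 5 1 2 72 (.leaf 24) (.bis 0 6 1 1 65 (.leaf 3) (.leaf
  3)))) (.bis 4 7 1 1 73 (.leaf 3) (.bis 0 6 1 1 65 (.bis 2 4 1 2 93 (.leaf 3) (.leaf 3)) (.bis 2
  4 1 2 93 (.leaf 3) (.leaf 3))))) (.bis 3 6 4 1 48 (.bis 4 7 1 1 73 (.leaf 3) (.leaf 3)) (.bis 3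
  7 2 1 49 (.bis 4 7 1 1 73 (.leaf 3) (.leaf 3)) (.bis 1 3 1 4 55 (.bis 2 4 1 2 93 (.bis 0 3 1 4
  69 (.leaf 2) (.leaf 2)) (.bis 0 3 1 4 69 (.bis 2 3 1 4 94 (.leaf 2) (.leaf 2)) (.leaf 2)))
  (.bis 2 4 1 2 93 (.leaf 3) (.leaf 3)))))) (.bis 3 6 4 1 48 (.bis 1 7 2 1 39 (.bis 4 7 1 1 73
  (.leaf 3) (.leaf 3)) (.bis 1 6 4 1 34 (.leaf 3) (.bis 0 1 1 4 66 (.bis 1 2 4 1 91 (.leaf 3)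
  (.leaf 7)) (.leaf 3)))) (.bis 1 7 2 1 39 (.bis 3 7 2 1 49 (.bis 4 7 1 1 73 (.leaf 3) (.leaf 3))
  (.bis 3 5 4 1 55 (.leaf 3) (.bis 2 4 1 2 93 (.bis 0 3 1 4 69 (.leaf 2) (.leaf 2)) (.bis 0 3 1 4
  69 (.leaf 2) (.leaf 2))))) (.bis 0 1 1 4 66 (.bis 1 2 4 1 91 (.bis 3 5 4 1 55 (.leaf 3) (.bis 2
  4 1 2 93 (.bis 3 4 2 1 68 (.leaf 2) (.leaf 2)) (.bis 2 3 1 4 94 (.leaf 2) (.leaf 2)))) (.bis 3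
  5 4 1 55 (.leaf 7) (.leaf 7))) (.bis 3 5 4 1 55 (.leaf 3) (.bis 2 4 1 2 93 (.bis 0 3 1 4 69
  (.leaf 2) (.leaf 2)) (.bis 0 3 1 4 69 (.leaf 2) (.leaf 2))))))))) (.bis 1 5 2 1 40 (.bis 3 5 2
  1 54 (.bis 4 5 2 1 75 (.bis 5 6 1 1 70 (.bis 6 7 1 1 73 (.leaf 50) (.bis 2 6 1 2 93 (.leaf 8)
  (.leaf 8))) (.bis 5 7 1 1 71 (.leaf 50) (.bis 0 5 1 2 72 (.leaf 30) (.bis 0 7 1 1 76 (.leaf 13)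
  (.leaf 8))))) (.bis 4 7 2 1 77 (.bis 6 7 1 1 73 (.leaf 50) (.bis 2 6 1 2 93 (.leaf 8) (.leaf
  8))) (.bis 1 4 1 4 78 (.bis 2 4 1 4 95 (.bis 3 4 1 4 80 (.bis 0 4 1 4 81 (.bis 4 6 2 1 82
  (.leaf 8) (.leaf 54)) (.bis 5 6 1 2 83 (.leaf 2) (.leaf 8))) (.bis 5 6 1 2 83 (.leaf 2) (.leaf
  8))) (.bis 2 6 1 2 93 (.leaf 8) (.leaf 8))) (.bis 2 6 1 2 93 (.leaf 8) (.leaf 8))))) (.bis 4 7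
  2 1 77 (.bis 3 7 2 1 49 (.bis 6 7 1 1 73 (.leaf 3) (.bis 2 6 1 2 93 (.leaf 3) (.leaf 3))) (.bis
  1 3 1 4 55 (.bis 2 6 1 2 93 (.bis 0 3 1 4 69 (.leaf 2) (.leaf 2)) (.bis 0 3 1 4 69 (.leaf 2)
  (.leaf 2))) (.bis 2 6 1 2 93 (.leaf 3) (.leaf 3)))) (.bis 1 4 1 4 78 (.bis 2 4 1 4 95 (.bis 4 5
  4 1 80 (.bis 0 3 1 4 69 (.bis 3 6 2 1 68 (.leaf 2) (.leaf 2)) (.bis 0 6 1 2 96 (.leaf 2) (.leaf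
  2))) (.bis 0 4 1 4 81 (.bis 4 6 2 1 82 (.bis 3 6 2 1 68 (.leaf 2) (.leaf 2)) (.bis 3 4 1 1 84
  (.leaf 6) (.leaf 2))) (.bis 0 3 1 4 69 (.leaf 2) (.bis 0 6 1 2 96 (.leaf 2) (.leaf 2))))) (.bis
  2 6 1 2 93 (.bis 0 3 1 4 69 (.bis 3 6 2 1 68 (.leaf 2) (.leaf 2)) (.leaf 2)) (.bis 0 3 1 4 69
  (.bis 2 3 1 4 94 (.leaf 2) (.leaf 2)) (.leaf 2)))) (.bis 1 3 1 4 55 (.bis 2 6 1 2 93 (.bis 0 3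
  1 4 69 (.leaf 2) (.leaf 2)) (.bis 0 3 1 4 69 (.bis 2 3 1 4 94 (.leaf 2) (.leaf 2)) (.leaf 2)))
  (.bis 2 6 1 2 93 (.leaf 3) (.leaf 3)))))) (.bis 4 7 2 1 77 (.bis 1 7 2 1 39 (.bis 3 7 2 1 49
  (.bis 6 7 1 1 73 (.leaf 3) (.leaf 3)) (.bis 3 5 4 1 55 (.bis 2 6 1 2 93 (.leaf 3) (.leaf 3))
  (.bis 2 6 1 2 93 (.leaf 2) (.bis 0 3 1 4 69 (.leaf 2) (.leaf 2))))) (.bis 0 1 1 4 66 (.bis 1 2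
  4 1 91 (.bis 3 5 4 1 55 (.leaf 3) (.bis 2 6 1 2 93 (.leaf 2) (.bis 2 3 1 4 94 (.leaf 2) (.leaf
  2)))) (.bis 3 5 4 1 55 (.leaf 7) (.leaf 7))) (.bis 3 5 4 1 55 (.leaf 3) (.bis 2 6 1 2 93 (.bis
  0 3 1 4 69 (.leaf 2) (.leaf 2)) (.bis 0 3 1 4 69 (.leaf 2) (.leaf 2)))))) (.bis 1 4 1 1 85
  (.bis 4 5 4 1 78 (.bis 3 5 4 1 55 (.leaf 8) (.bis 2 6 1 2 93 (.leaf 2) (.bis 0 3 1 4 69 (.leaf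
  2) (.leaf 2)))) (.bis 2 4 1 4 95 (.bis 0 4 1 4 81 (.bis 4 6 2 1 82 (.bis 3 6 2 1 68 (.leaf 2)
  (.leaf 2)) (.bis 3 4 1 1 84 (.leaf 6) (.leaf 2))) (.bis 0 3 1 4 69 (.leaf 2) (.leaf 2))) (.bis
  2 6 1 2 93 (.bis 0 3 1 4 69 (.leaf 2) (.leaf 2)) (.bis 0 3 1 4 69 (.leaf 2) (.leaf 2))))) (.bis
  0 1 1 4 66 (.bis 1 2 4 1 91 (.bis 3 5 4 1 55 (.leaf 8) (.leaf 2)) (.leaf 7)) (.bis 3 5 4 1 55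
  (.leaf 8) (.leaf 2))))))) (.bis 2 6 1 1 97 (.bis 4 6 1 1 61 (.bis 3 6 1 1 43 (.bis 0 6 1 4 62
  (.bis 5 6 1 4 89 (.bis 6 7 2 1 18 (.bis 1 7 2 1 39 (.leaf 3) (.bis 1 6 4 1 35 (.leaf 3) (.bis 0
  1 1 8 98 (.leaf 7) (.leaf 3)))) (.bis 1 6 1 1 30 (.bis 2 6 1 2 99 (.bis 4 6 1 2 63 (.bis 0 6 1
  8 64 (.bis 5 6 1 8 90 (.bis 3 6 1 2 44 (.leaf 25) (.leaf 11)) (.leaf 11)) (.leaf 11)) (.leaf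
  11)) (.leaf 11)) (.bis 1 7 4 1 35 (.leaf 11) (.bis 0 1 1 8 98 (.leaf 22) (.leaf 11))))) (.bis 1
  7 2 1 39 (.leaf 3) (.bis 1 5 4 1 91 (.leaf 3) (.bis 0 1 1 8 98 (.leaf 7) (.leaf 3))))) (.bis 1
  7 2 1 39 (.leaf 3) (.bis 0 1 1 4 66 (.bis 1 5 4 1 91 (.leaf 3) (.leaf 7)) (.leaf 3)))) (.bis 1
  7 2 1 39 (.bis 3 7 2 1 49 (.leaf 3) (.bis 0 6 1 2 67 (.bis 5 6 1 2 92 (.bis 2 3 1 2 100 (.leaf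
  7) (.leaf 3)) (.bis 4 5 2 1 93 (.bis 3 5 4 1 94 (.leaf 2) (.leaf 2)) (.bis 2 3 1 2 100 (.leaf
  2) (.leaf 2)))) (.bis 0 2 1 2 101 (.bis 4 5 2 1 93 (.bis 3 5 4 1 94 (.leaf 2) (.leaf 2)) (.bis
  2 3 1 2 100 (.leaf 2) (.leaf 2))) (.bis 4 5 2 1 93 (.bis 0 3 1 4 69 (.bis 3 5 4 1 94 (.leaf 2)
  (.leaf 2)) (.leaf 2)) (.bis 0 3 1 4 69 (.leaf 2) (.leaf 2)))))) (.bis 0 1 1 4 66 (.bis 1 5 4 1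
  91 (.bis 5 6 1 2 92 (.bis 2 3 1 2 100 (.leaf 7) (.leaf 3)) (.bis 4 5 2 1 93 (.bis 3 5 4 1 94
  (.leaf 2) (.bis 2 3 1 2 100 (.leaf 2) (.leaf 2))) (.bis 2 3 1 2 100 (.leaf 2) (.leaf 2))))
  (.bis 2 3 1 2 100 (.leaf 7) (.leaf 7))) (.bis 0 6 1 2 67 (.bis 5 6 1 2 92 (.bis 2 3 1 2 100
  (.leaf 7) (.leaf 3)) (.bis 4 5 2 1 93 (.bis 3 5 4 1 94 (.leaf 2) (.bis 2 3 1 2 100 (.leaf 2)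
  (.leaf 2))) (.bis 2 3 1 2 100 (.bis 3 4 2 1 68 (.leaf 2) (.leaf 2)) (.leaf 2)))) (.bis 0 2 1 2
  101 (.bis 4 5 2 1 93 (.bis 3 5 4 1 94 (.leaf 2) (.bis 2 3 1 2 100 (.leaf 2) (.leaf 2))) (.bis 2
  3 1 2 100 (.bis 3 4 2 1 68 (.leaf 2) (.leaf 2)) (.leaf 2))) (.bis 4 5 2 1 93 (.bis 0 3 1 4 69
  (.bis 3 5 4 1 94 (.leaf 2) (.leaf 2)) (.leaf 2)) (.bis 0 3 1 4 69 (.bis 3 4 2 1 68 (.leaf 2)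
  (.leaf 2)) (.leaf 2)))))))) (.bis 4 7 2 1 77 (.bis 1 7 2 1 39 (.bis 3 7 2 1 49 (.bis 6 7 1 1 73
  (.leaf 3) (.leaf 2)) (.bis 0 2 1 2 101 (.bis 5 6 1 2 93 (.bis 2 3 1 2 100 (.leaf 2) (.leaf 2))
  (.bis 3 5 4 1 94 (.leaf 2) (.leaf 2))) (.bis 5 6 1 2 93 (.bis 0 3 1 4 69 (.leaf 2) (.leaf 2))
  (.bis 0 3 1 4 69 (.bis 3 5 4 1 94 (.leaf 2) (.leaf 2)) (.leaf 2))))) (.bis 0 1 1 4 66 (.bis 1 5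
  4 1 91 (.bis 5 6 1 2 93 (.bis 2 3 1 2 100 (.leaf 2) (.leaf 2)) (.bis 3 5 4 1 94 (.leaf 2)
  (.leaf 2))) (.bis 1 4 4 1 102 (.leaf 2) (.bis 2 3 1 2 100 (.leaf 7) (.leaf 7)))) (.bis 0 2 1 2
  101 (.bis 5 6 1 2 93 (.bis 2 3 1 2 100 (.leaf 2) (.leaf 2)) (.bis 3 5 4 1 94 (.leaf 2) (.leaf
  2))) (.bis 5 6 1 2 93 (.bis 0 3 1 4 69 (.bis 3 6 2 1 68 (.leaf 2) (.leaf 2)) (.leaf 2)) (.bis 0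
  3 1 4 69 (.bis 3 5 4 1 94 (.leaf 2) (.leaf 2)) (.leaf 2)))))) (.bis 2 4 1 2 103 (.bis 1 4 1 1
  85 (.bis 4 5 4 1 95 (.bis 5 6 1 2 93 (.bis 0 3 1 4 69 (.leaf 2) (.leaf 2)) (.bis 0 3 1 4 69
  (.leaf 2) (.leaf 2))) (.bis 0 4 1 4 81 (.bis 4 6 2 1 82 (.leaf 2) (.leaf 6)) (.leaf 2))) (.bis
  0 1 1 4 66 (.bis 1 5 4 1 91 (.leaf 2) (.leaf 7)) (.leaf 2))) (.bis 0 1 1 4 66 (.bis 1 5 4 1 91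
  (.bis 5 6 1 2 93 (.bis 2 3 1 2 100 (.leaf 2) (.leaf 2)) (.bis 3 5 4 1 94 (.leaf 2) (.leaf 2)))
  (.leaf 7)) (.bis 0 2 1 2 101 (.bis 5 6 1 2 93 (.bis 2 3 1 2 100 (.leaf 2) (.leaf 2)) (.bis 3 5
  4 1 94 (.leaf 2) (.leaf 2))) (.bis 5 6 1 2 93 (.bis 0 3 1 4 69 (.leaf 2) (.leaf 2)) (.bis 0 3 1
  4 69 (.leaf 2) (.leaf 2)))))))) (.bis 4 7 2 1 77 (.bis 1 2 1 1 104 (.bis 3 7 2 1 49 (.bis 0 2 1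
  4 105 (.bis 2 7 2 1 106 (.leaf 46) (.bis 2 5 4 1 107 (.leaf 16) (.bis 2 4 4 1 108 (.leaf 16)
  (.leaf 79)))) (.leaf 46)) (.bis 0 2 1 4 105 (.bis 2 5 4 1 107 (.leaf 2) (.bis 2 4 4 1 108
  (.leaf 2) (.bis 2 6 2 1 109 (.leaf 2) (.leaf 9)))) (.leaf 2))) (.bis 1 7 2 1 39 (.bis 3 7 2 1
  49 (.leaf 46) (.leaf 2)) (.bis 0 1 1 4 66 (.bis 1 5 4 1 91 (.leaf 2) (.leaf 7)) (.bis 0 6 1 2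
  101 (.bis 3 5 4 1 94 (.leaf 2) (.leaf 2)) (.bis 0 3 1 4 69 (.leaf 2) (.leaf 2)))))) (.bis 2 4 1
  1 110 (.bis 4 6 2 1 103 (.bis 0 1 1 4 66 (.bis 1 5 4 1 91 (.leaf 2) (.bis 1 2 2 1 111 (.leaf 2)
  (.leaf 7))) (.bis 0 6 1 2 101 (.leaf 2) (.bis 0 3 1 4 69 (.leaf 2) (.leaf 2)))) (.bis 1 4 1 1
  85 (.bis 4 5 4 1 95 (.leaf 2) (.bis 0 4 1 4 81 (.leaf 6) (.leaf 2))) (.bis 0 1 1 4 66 (.bis 1 5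
  4 1 91 (.leaf 2) (.bis 1 2 2 1 111 (.leaf 2) (.leaf 7))) (.leaf 2)))) (.bis 1 2 1 1 104 (.bis 0
  2 1 4 105 (.bis 2 5 4 1 107 (.bis 3 5 4 1 94 (.bis 4 6 1 1 112 (.leaf 2) (.leaf 2)) (.bis 4 6 1
  1 112 (.leaf 2) (.leaf 2))) (.bis 2 7 4 1 108 (.bis 4 6 1 1 112 (.leaf 2) (.leaf 2)) (.bis 2 6
  2 1 109 (.leaf 2) (.leaf 9)))) (.bis 0 6 1 2 101 (.leaf 2) (.leaf 2))) (.bis 0 1 1 4 66 (.bis 1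
  5 4 1 91 (.leaf 2) (.leaf 82)) (.bis 0 6 1 2 101 (.leaf 2) (.leaf 2)))))))) (.bis 2 5 2 1 88
  (.bis 0 6 1 2 16 (.bis 5 6 1 2 17 (.bis 3 6 1 1 43 (.bis 2 6 1 4 89 (.bis 4 6 1 4 62 (.bis 6 7
  2 1 18 (.bis 1 7 2 1 39 (.leaf 3) (.bis 0 1 1 4 33 (.bis 1 5 4 1 34 (.leaf 3) (.bis 1 6 4 1 35
  (.leaf 3) (.leaf 7))) (.leaf 3))) (.bis 1 6 1 1 30 (.bis 0 6 1 4 22 (.bis 5 6 1 4 23 (.bis 2 6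
  1 8 90 (.bis 4 6 1 8 64 (.bis 3 6 1 2 44 (.leaf 25) (.leaf 11)) (.leaf 11)) (.leaf 11)) (.leaf
  11)) (.leaf 11)) (.bis 0 1 1 4 33 (.bis 1 5 4 1 34 (.leaf 11) (.bis 1 7 4 1 35 (.leaf 11)
  (.leaf 22))) (.leaf 11)))) (.bis 1 7 2 1 39 (.leaf 3) (.bis 0 1 1 4 33 (.bis 1 5 4 1 34 (.bis 4
  5 1 1 65 (.leaf 3) (.leaf 3)) (.bis 1 4 4 1 66 (.leaf 3) (.leaf 7))) (.leaf 3)))) (.bis 1 7 2 1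
  39 (.bis 0 2 1 1 113 (.bis 4 5 1 1 65 (.bis 3 7 1 1 46 (.leaf 3) (.leaf 3)) (.bis 3 7 1 1 46
  (.leaf 3) (.leaf 3))) (.bis 4 5 1 1 65 (.bis 3 7 1 1 46 (.leaf 3) (.leaf 3)) (.bis 3 7 1 1 46
  (.leaf 3) (.leaf 3)))) (.bis 0 1 1 4 33 (.bis 1 5 4 1 34 (.bis 4 5 1 1 65 (.leaf 3) (.leaf 3))
  (.bis 1 2 4 1 91 (.leaf 3) (.bis 1 4 4 1 66 (.bis 3 4 2 1 67 (.leaf 3) (.leaf 3)) (.leaf 7))))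
  (.leaf 3)))) (.bis 0 3 1 4 47 (.bis 3 5 4 1 48 (.bis 1 7 2 1 39 (.leaf 3) (.bis 1 5 4 1 34
  (.leaf 3) (.bis 1 2 4 1 91 (.leaf 3) (.bis 1 4 4 1 66 (.leaf 3) (.leaf 7))))) (.bis 1 7 2 1 39
  (.bis 3 7 2 1 49 (.leaf 3) (.bis 2 6 1 2 92 (.bis 4 6 1 2 67 (.bis 3 6 2 1 52 (.leaf 3) (.leaf
  2)) (.bis 3 4 4 1 69 (.leaf 2) (.leaf 2))) (.bis 2 3 1 4 94 (.leaf 2) (.leaf 2)))) (.bis 1 2 4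
  1 91 (.bis 2 6 1 2 92 (.bis 4 6 1 2 67 (.bis 3 6 2 1 52 (.leaf 3) (.leaf 2)) (.bis 3 4 4 1 69
  (.leaf 2) (.leaf 2))) (.bis 2 3 1 4 94 (.bis 3 4 4 1 69 (.leaf 2) (.leaf 2)) (.leaf 2))) (.bis
  1 4 4 1 66 (.bis 4 6 1 2 67 (.bis 3 6 2 1 52 (.leaf 3) (.leaf 2)) (.bis 3 4 4 1 69 (.leaf 2)
  (.leaf 2))) (.bis 1 3 1 1 53 (.leaf 7) (.leaf 7)))))) (.bis 1 7 2 1 39 (.bis 0 2 1 1 113 (.bis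
  4 5 1 1 65 (.bis 6 7 1 1 46 (.leaf 3) (.leaf 3)) (.bis 6 7 1 1 46 (.leaf 3) (.leaf 3))) (.bis 4
  5 1 1 65 (.bis 6 7 1 1 46 (.leaf 3) (.leaf 3)) (.bis 6 7 1 1 46 (.leaf 3) (.leaf 3)))) (.bis 0
  1 1 4 33 (.bis 1 5 4 1 34 (.leaf 3) (.bis 1 2 4 1 91 (.leaf 3) (.bis 1 4 4 1 66 (.leaf 3)
  (.leaf 7)))) (.leaf 3))))) (.bis 1 5 2 1 40 (.bis 3 5 2 1 54 (.bis 0 5 1 2 42 (.bis 5 7 1 1 71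
  (.bis 4 6 1 1 65 (.leaf 3) (.leaf 3)) (.bis 4 5 1 2 72 (.leaf 24) (.bis 4 6 1 1 65 (.leaf 3)
  (.leaf 3)))) (.leaf 3)) (.bis 0 3 1 4 47 (.bis 3 6 4 1 48 (.leaf 3) (.bis 3 7 2 1 49 (.leaf 3)
  (.bis 1 3 1 4 55 (.bis 2 3 1 4 94 (.leaf 2) (.leaf 2)) (.leaf 3)))) (.leaf 3))) (.bis 0 3 1 4
  47 (.bis 3 6 4 1 48 (.bis 1 7 2 1 39 (.leaf 3) (.bis 1 6 4 1 34 (.leaf 3) (.bis 1 2 4 1 91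
  (.leaf 3) (.bis 1 4 4 1 66 (.leaf 3) (.leaf 7))))) (.bis 1 7 2 1 39 (.bis 3 7 2 1 49 (.leaf 3)
  (.bis 3 5 4 1 55 (.leaf 3) (.bis 2 3 1 4 94 (.leaf 2) (.leaf 2)))) (.bis 1 2 4 1 91 (.bis 3 5 4
  1 55 (.leaf 3) (.bis 2 3 1 4 94 (.leaf 2) (.leaf 2))) (.bis 1 4 4 1 66 (.bis 3 5 4 1 55 (.leaf
  3) (.bis 3 4 4 1 69 (.leaf 2) (.leaf 2))) (.bis 3 5 4 1 55 (.leaf 7) (.leaf 7)))))) (.bis 1 7 2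
  1 39 (.leaf 3) (.bis 0 1 1 4 33 (.bis 1 6 4 1 34 (.leaf 3) (.bis 1 2 4 1 91 (.leaf 3) (.bis 1 4
  4 1 66 (.leaf 3) (.leaf 7)))) (.leaf 3)))))) (.bis 0 1 1 2 41 (.bis 1 5 2 1 40 (.bis 3 5 2 1 54
  (.bis 5 6 2 1 42 (.leaf 3) (.leaf 24)) (.bis 3 6 4 1 47 (.leaf 3) (.bis 3 7 2 1 49 (.leaf 3)
  (.bis 0 3 1 4 56 (.bis 1 3 1 4 55 (.bis 2 3 1 4 94 (.leaf 2) (.leaf 2)) (.leaf 3)) (.leaf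
  3))))) (.bis 3 6 4 1 47 (.bis 1 7 2 1 39 (.leaf 3) (.bis 1 6 4 1 33 (.leaf 3) (.bis 1 2 4 1 91
  (.leaf 3) (.bis 1 4 4 1 66 (.leaf 3) (.leaf 7))))) (.bis 1 7 2 1 39 (.bis 3 7 2 1 49 (.leaf 3)
  (.bis 0 3 1 4 56 (.bis 3 5 4 1 55 (.leaf 3) (.bis 2 3 1 4 94 (.leaf 2) (.leaf 2))) (.leaf 3)))
  (.bis 1 2 4 1 91 (.bis 0 3 1 4 56 (.bis 3 5 4 1 55 (.leaf 3) (.bis 2 3 1 4 94 (.leaf 2) (.leaf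
  2))) (.leaf 3)) (.bis 1 4 4 1 66 (.bis 0 3 1 4 56 (.bis 3 5 4 1 55 (.leaf 3) (.leaf 2)) (.leaf
  3)) (.bis 0 3 1 4 56 (.bis 3 5 4 1 55 (.leaf 7) (.leaf 7)) (.leaf 7))))))) (.bis 0 3 1 2 57
  (.bis 3 5 2 1 54 (.bis 5 6 2 1 42 (.leaf 3) (.bis 1 5 1 2 58 (.leaf 24) (.leaf 3))) (.bis 3 6 4
  1 47 (.leaf 3) (.bis 3 7 2 1 49 (.leaf 3) (.bis 1 3 1 4 56 (.bis 2 3 1 4 94 (.bis 3 4 4 1 69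
  (.leaf 2) (.leaf 2)) (.leaf 2)) (.leaf 3))))) (.bis 0 5 1 1 28 (.bis 5 6 2 1 42 (.leaf 24)
  (.bis 1 5 1 2 58 (.leaf 24) (.leaf 24))) (.bis 0 2 2 1 114 (.leaf 24) (.leaf 31)))))) (.bis 2 6
  1 1 97 (.bis 0 6 1 2 16 (.bis 3 6 1 1 43 (.bis 4 6 1 4 62 (.bis 5 6 1 4 89 (.bis 6 7 2 1 18
  (.bis 1 7 2 1 39 (.leaf 3) (.bis 0 1 1 4 33 (.bis 1 6 4 1 35 (.leaf 3) (.leaf 7)) (.leaf 3)))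
  (.bis 1 6 1 1 30 (.bis 2 6 1 2 99 (.bis 0 6 1 4 22 (.bis 4 6 1 8 64 (.bis 5 6 1 8 90 (.bis 3 6
  1 2 44 (.leaf 25) (.leaf 11)) (.leaf 11)) (.leaf 11)) (.leaf 11)) (.leaf 11)) (.bis 0 1 1 4 33
  (.bis 1 7 4 1 35 (.leaf 11) (.leaf 22)) (.leaf 11)))) (.bis 1 7 2 1 39 (.leaf 3) (.bis 0 1 1 4
  33 (.bis 1 5 4 1 91 (.leaf 3) (.leaf 7)) (.bis 0 5 1 1 113 (.leaf 3) (.leaf 3))))) (.bis 1 7 2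
  1 39 (.leaf 3) (.bis 0 1 1 4 33 (.bis 1 4 4 1 66 (.leaf 3) (.bis 1 5 4 1 91 (.bis 3 5 2 1 92
  (.leaf 3) (.leaf 3)) (.leaf 7))) (.bis 0 5 1 1 113 (.leaf 3) (.leaf 3))))) (.bis 0 3 1 4 47
  (.bis 1 7 2 1 39 (.bis 3 7 2 1 49 (.leaf 3) (.bis 4 6 1 2 67 (.bis 5 6 1 2 92 (.bis 2 3 1 2 100
  (.leaf 7) (.leaf 3)) (.bis 3 5 4 1 94 (.leaf 2) (.leaf 2))) (.bis 2 4 2 1 101 (.bis 3 4 4 1 69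
  (.leaf 2) (.bis 3 5 4 1 94 (.leaf 2) (.leaf 2))) (.bis 3 5 4 1 94 (.leaf 2) (.leaf 2))))) (.bis
  1 4 4 1 66 (.bis 4 6 1 2 67 (.bis 5 6 1 2 92 (.bis 2 3 1 2 100 (.leaf 7) (.leaf 3)) (.bis 3 5 4
  1 94 (.leaf 2) (.bis 2 3 1 2 100 (.leaf 2) (.leaf 2)))) (.bis 2 4 2 1 101 (.bis 3 4 4 1 69
  (.leaf 2) (.bis 3 5 4 1 94 (.leaf 2) (.leaf 2))) (.bis 3 5 4 1 94 (.leaf 2) (.bis 2 3 1 2 100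
  (.leaf 2) (.leaf 2))))) (.bis 1 5 4 1 91 (.bis 5 6 1 2 92 (.bis 2 3 1 2 100 (.leaf 7) (.leaf
  3)) (.bis 3 5 4 1 94 (.leaf 2) (.leaf 2))) (.bis 2 3 1 2 100 (.leaf 7) (.leaf 7))))) (.bis 1 7
  2 1 39 (.leaf 3) (.bis 0 1 1 4 33 (.bis 1 4 4 1 66 (.leaf 3) (.bis 1 5 4 1 91 (.leaf 3) (.leaf
  7))) (.bis 0 5 1 1 113 (.leaf 3) (.leaf 3)))))) (.bis 0 1 1 2 41 (.bis 3 6 4 1 47 (.bis 1 7 2 1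
  39 (.leaf 3) (.bis 1 6 4 1 33 (.leaf 3) (.bis 1 4 4 1 66 (.leaf 3) (.bis 1 5 4 1 91 (.leaf 3)
  (.leaf 7))))) (.bis 1 7 2 1 39 (.bis 3 7 2 1 49 (.leaf 3) (.bis 0 3 1 4 56 (.bis 2 4 2 1 101
  (.bis 3 4 4 1 69 (.leaf 2) (.leaf 2)) (.bis 3 5 4 1 94 (.leaf 2) (.leaf 2))) (.leaf 3))) (.bis
  1 4 4 1 66 (.bis 0 3 1 4 56 (.bis 2 4 2 1 101 (.bis 3 4 4 1 69 (.leaf 2) (.leaf 2)) (.bis 3 5 4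
  1 94 (.leaf 2) (.leaf 2))) (.leaf 3)) (.bis 1 5 4 1 91 (.bis 0 3 1 4 56 (.bis 3 5 4 1 94 (.leaf
  2) (.leaf 2)) (.leaf 3)) (.bis 0 3 1 4 56 (.leaf 7) (.leaf 7)))))) (.bis 0 3 1 2 57 (.bis 3 6 4
  1 47 (.bis 5 6 1 1 113 (.bis 2 4 2 1 101 (.leaf 3) (.bis 2 7 1 1 115 (.leaf 3) (.leaf 3)))
  (.bis 2 4 2 1 101 (.leaf 3) (.leaf 3))) (.bis 3 7 2 1 49 (.bis 2 4 2 1 101 (.leaf 3) (.leaf 3))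
  (.bis 1 3 1 4 56 (.bis 2 4 2 1 101 (.bis 3 4 4 1 69 (.leaf 2) (.bis 3 5 4 1 94 (.leaf 2) (.leaf
  2))) (.bis 3 5 4 1 94 (.leaf 2) (.leaf 2))) (.bis 2 4 2 1 101 (.leaf 3) (.leaf 3))))) (.bis 0 2
  1 1 116 (.bis 5 6 1 1 113 (.bis 2 4 2 1 101 (.leaf 3) (.bis 2 7 1 1 115 (.leaf 3) (.leaf 3)))
  (.bis 2 4 2 1 101 (.leaf 3) (.bis 2 7 1 1 115 (.leaf 3) (.leaf 3)))) (.bis 0 5 2 1 114 (.bis 5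
  6 1 1 113 (.leaf 3) (.leaf 3)) (.leaf 31)))))) (.bis 0 1 1 2 41 (.bis 1 2 1 1 104 (.bis 0 2 1 4
  117 (.bis 3 7 2 1 49 (.bis 2 4 4 1 105 (.leaf 46) (.bis 2 7 2 1 106 (.leaf 46) (.bis 2 5 4 1
  107 (.leaf 16) (.leaf 79)))) (.bis 2 4 4 1 105 (.bis 4 6 1 2 101 (.leaf 2) (.bis 3 4 4 1 69
  (.leaf 2) (.leaf 2))) (.bis 2 5 4 1 107 (.leaf 2) (.bis 2 6 2 1 109 (.leaf 2) (.leaf 9)))))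
  (.bis 3 7 2 1 49 (.leaf 46) (.bis 0 3 1 4 56 (.leaf 2) (.leaf 16)))) (.bis 1 7 2 1 39 (.bis 3 7
  2 1 49 (.bis 2 7 1 1 118 (.leaf 3) (.leaf 16)) (.bis 0 3 1 4 56 (.leaf 2) (.leaf 16))) (.bis 1
  4 4 1 66 (.bis 0 3 1 4 56 (.bis 4 6 1 2 101 (.leaf 2) (.bis 3 4 4 1 69 (.leaf 2) (.leaf 2)))
  (.leaf 16)) (.bis 1 5 4 1 91 (.bis 0 3 1 4 56 (.leaf 2) (.leaf 16)) (.bis 0 3 1 4 56 (.leaf 7)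
  (.leaf 7)))))) (.bis 0 3 1 2 57 (.bis 1 2 1 4 117 (.bis 3 7 2 1 49 (.bis 2 4 4 1 105 (.bis 4 6
  1 2 101 (.leaf 46) (.leaf 31)) (.bis 2 7 2 1 106 (.leaf 46) (.bis 0 2 1 4 119 (.bis 2 5 4 1 107
  (.leaf 16) (.bis 2 6 2 1 109 (.leaf 16) (.leaf 9))) (.leaf 16)))) (.bis 2 4 4 1 105 (.bis 4 6 1
  2 101 (.bis 3 5 4 1 94 (.leaf 2) (.leaf 2)) (.bis 3 4 4 1 69 (.leaf 2) (.bis 3 5 4 1 94 (.leaf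
  2) (.leaf 2)))) (.bis 0 2 1 4 119 (.bis 2 5 4 1 107 (.bis 3 5 4 1 94 (.leaf 2) (.leaf 2)) (.bis
  2 6 2 1 109 (.bis 3 6 2 1 100 (.leaf 2) (.leaf 2)) (.bis 2 3 1 1 120 (.leaf 2) (.leaf 9))))
  (.bis 3 5 4 1 94 (.leaf 2) (.leaf 2))))) (.bis 3 7 2 1 49 (.bis 4 6 1 2 101 (.leaf 28) (.leaf
  28)) (.bis 1 3 1 4 56 (.bis 4 6 1 2 101 (.bis 3 5 4 1 94 (.leaf 2) (.leaf 2)) (.bis 3 4 4 1 69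
  (.leaf 2) (.leaf 2))) (.bis 4 6 1 2 101 (.leaf 16) (.leaf 5))))) (.bis 0 2 1 2 121 (.bis 1 2 1
  4 117 (.bis 2 4 4 1 105 (.bis 4 6 1 2 101 (.bis 6 7 1 1 115 (.leaf 31) (.leaf 16)) (.leaf 31))
  (.bis 2 7 2 1 106 (.bis 6 7 1 1 115 (.leaf 46) (.leaf 16)) (.bis 2 3 4 1 119 (.bis 0 6 1 2 122
  (.leaf 16) (.leaf 16)) (.bis 2 5 4 1 107 (.bis 0 6 1 2 122 (.leaf 16) (.leaf 16)) (.bis 2 6 2 1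
  109 (.leaf 16) (.leaf 55)))))) (.bis 4 6 1 2 101 (.bis 6 7 1 1 115 (.leaf 31) (.leaf 16))
  (.leaf 31))) (.bis 0 6 1 1 116 (.bis 4 6 1 2 101 (.bis 6 7 1 1 115 (.leaf 31) (.leaf 16))
  (.leaf 31)) (.bis 0 5 2 1 114 (.leaf 31) (.leaf 31)))))))))

def lc1 : List Vr := [⟨[73,0,0,0,0,0,0,79], 45260, 0⟩, ⟨[0,24,0,0,0,0,0,0], 10368, 0⟩, ⟨[0,0,28,0,
  0,0,0,0], 10976, 0⟩, ⟨[0,0,0,17,0,0,0,0], 10404, 0⟩, ⟨[0,0,0,0,28,0,0,0], 10976, 0⟩, ⟨[0,0,0,0,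
  0,73,0,79], 45260, 0⟩, ⟨[0,0,0,0,0,0,42,0], 10584, 0⟩, ⟨[0,0,28,0,0,0,0,47], 26768, 0⟩]

theorem lk1 : chkTr lowT (leafLow 3 lowB) lt1 lc1 = true := by decide +kernel

def lt2 : Tr ℕ := (.bis 2 7 2 1 88 (.bis 4 6 1 1 61 (.bis 6 7 2 1 17 (.bis 1 7 2 1 40 (.bis 3 7 2
  1 54 (.bis 4 7 1 1 70 (.bis 5 7 1 1 125 (.bis 0 6 1 1 126 (.leaf 30) (.leaf 30)) (.bis 0 6 1 1
  126 (.bis 2 5 1 2 127 (.leaf 20) (.leaf 20)) (.leaf 14))) (.bis 0 4 1 2 128 (.bis 2 4 1 2 93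
  (.bis 4 5 1 1 129 (.leaf 20) (.leaf 20)) (.bis 2 5 1 2 127 (.leaf 20) (.leaf 3))) (.leaf 30)))
  (.bis 3 6 4 1 48 (.bis 0 4 1 2 128 (.bis 2 4 1 2 93 (.leaf 20) (.bis 2 5 1 2 127 (.leaf 20)
  (.leaf 3))) (.leaf 30)) (.bis 0 3 1 4 130 (.bis 3 5 2 1 131 (.bis 2 4 1 2 93 (.leaf 20) (.bis 2
  5 1 2 127 (.leaf 20) (.leaf 8))) (.bis 1 3 1 4 55 (.bis 2 4 1 2 93 (.bis 3 4 2 1 68 (.leaf 2)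
  (.leaf 2)) (.bis 2 3 1 4 94 (.leaf 2) (.leaf 2))) (.bis 2 4 1 2 93 (.leaf 8) (.leaf 8)))) (.bis
  0 4 1 2 128 (.bis 2 4 1 2 93 (.leaf 20) (.bis 2 5 1 2 127 (.leaf 20) (.leaf 8))) (.bis 0 6 2 1
  132 (.bis 2 5 1 2 127 (.leaf 20) (.leaf 8)) (.bis 2 5 1 2 127 (.leaf 14) (.leaf 13))))))) (.bis
  0 1 1 4 133 (.bis 3 6 4 1 48 (.bis 1 5 2 1 134 (.leaf 20) (.bis 1 6 4 1 34 (.leaf 3) (.bis 1 2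
  4 1 91 (.leaf 3) (.leaf 7)))) (.bis 1 5 2 1 134 (.bis 3 5 2 1 131 (.leaf 20) (.bis 3 7 4 1 55
  (.leaf 8) (.bis 2 4 1 2 93 (.bis 3 4 2 1 68 (.leaf 2) (.leaf 2)) (.bis 2 3 1 4 94 (.leaf 2)
  (.leaf 2))))) (.bis 1 2 4 1 91 (.bis 3 7 4 1 55 (.leaf 3) (.bis 2 4 1 2 93 (.bis 3 4 2 1 68
  (.leaf 2) (.leaf 2)) (.bis 2 3 1 4 94 (.bis 3 5 4 1 135 (.leaf 2) (.leaf 2)) (.leaf 2)))) (.bis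
  3 7 4 1 55 (.bis 1 4 2 1 136 (.leaf 3) (.leaf 7)) (.bis 3 4 2 1 68 (.leaf 7) (.leaf 7))))))
  (.bis 3 6 4 1 48 (.bis 0 4 1 2 128 (.leaf 20) (.leaf 30)) (.bis 0 3 1 4 130 (.bis 3 5 2 1 131
  (.bis 2 4 1 2 93 (.leaf 20) (.leaf 20)) (.bis 3 7 4 1 55 (.bis 2 4 1 2 93 (.leaf 7) (.leaf 8))
  (.bis 2 4 1 2 93 (.bis 3 4 2 1 68 (.leaf 2) (.leaf 2)) (.bis 2 3 1 4 94 (.leaf 2) (.leaf 2)))))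
  (.bis 0 4 1 2 128 (.bis 2 4 1 2 93 (.leaf 20) (.bis 2 5 1 2 127 (.leaf 20) (.leaf 8))) (.leaf
  30)))))) (.bis 0 6 1 4 137 (.bis 3 6 1 1 43 (.bis 2 6 1 4 89 (.bis 5 6 1 2 138 (.bis 1 6 1 1 30
  (.bis 0 6 1 8 139 (.bis 4 6 1 2 63 (.bis 6 7 4 1 23 (.leaf 11) (.bis 2 6 1 8 90 (.bis 3 6 1 2
  44 (.leaf 25) (.leaf 11)) (.leaf 11))) (.leaf 11)) (.leaf 11)) (.bis 1 7 4 1 34 (.leaf 11)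
  (.bis 1 5 4 1 140 (.leaf 11) (.bis 0 1 1 8 141 (.leaf 22) (.leaf 11))))) (.bis 1 5 2 1 134
  (.leaf 58) (.bis 1 7 4 1 34 (.leaf 11) (.bis 1 6 4 1 140 (.leaf 11) (.bis 0 1 1 8 141 (.leaf 7)
  (.leaf 3)))))) (.bis 1 5 2 1 134 (.leaf 58) (.bis 1 7 4 1 34 (.leaf 3) (.bis 1 2 4 1 91 (.leaf
  3) (.bis 0 1 1 8 141 (.leaf 7) (.leaf 3)))))) (.bis 3 7 4 1 48 (.bis 1 5 2 1 134 (.leaf 58)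
  (.bis 1 7 4 1 34 (.leaf 3) (.bis 1 2 4 1 91 (.leaf 3) (.bis 0 1 1 8 141 (.leaf 7) (.leaf 3)))))
  (.bis 1 5 2 1 134 (.bis 3 5 2 1 131 (.leaf 58) (.bis 0 3 1 8 142 (.bis 2 6 1 2 92 (.bis 3 4 2 1
  68 (.leaf 7) (.leaf 7)) (.bis 2 4 1 2 93 (.bis 3 4 2 1 68 (.leaf 2) (.leaf 2)) (.bis 2 3 1 4 94
  (.leaf 2) (.leaf 2)))) (.leaf 38))) (.bis 1 2 4 1 91 (.bis 0 3 1 8 142 (.bis 2 6 1 2 92 (.bis 3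
  4 2 1 68 (.leaf 3) (.leaf 7)) (.bis 2 4 1 2 93 (.bis 3 4 2 1 68 (.leaf 2) (.leaf 2)) (.bis 2 3
  1 4 94 (.bis 3 5 4 1 135 (.leaf 2) (.leaf 2)) (.leaf 2)))) (.leaf 3)) (.bis 0 3 1 8 142 (.bis 3
  4 2 1 68 (.leaf 7) (.leaf 7)) (.bis 0 1 1 8 141 (.leaf 7) (.leaf 3))))))) (.bis 0 1 1 4 133
  (.bis 3 7 4 1 48 (.bis 1 5 2 1 134 (.leaf 20) (.bis 1 7 4 1 34 (.leaf 3) (.bis 1 2 4 1 91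
  (.leaf 3) (.bis 1 6 8 1 141 (.leaf 3) (.leaf 7))))) (.bis 1 5 2 1 134 (.bis 3 5 2 1 131 (.leaf
  20) (.bis 3 6 8 1 142 (.leaf 8) (.bis 2 4 1 2 93 (.bis 3 4 2 1 68 (.leaf 2) (.leaf 2)) (.bis 2
  3 1 4 94 (.bis 1 3 1 4 135 (.leaf 2) (.leaf 2)) (.leaf 2))))) (.bis 1 2 4 1 91 (.bis 3 6 8 1
  142 (.leaf 3) (.bis 2 4 1 2 93 (.bis 3 4 2 1 68 (.leaf 2) (.leaf 2)) (.bis 2 3 1 4 94 (.bis 3 5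
  4 1 135 (.leaf 2) (.leaf 2)) (.leaf 2)))) (.bis 3 6 8 1 142 (.bis 1 6 8 1 141 (.leaf 3) (.leaf
  7)) (.bis 3 4 2 1 68 (.leaf 7) (.leaf 7)))))) (.bis 3 7 4 1 48 (.bis 0 4 1 2 128 (.leaf 20)
  (.leaf 30)) (.bis 0 3 1 4 130 (.bis 3 5 2 1 131 (.leaf 20) (.bis 3 6 8 1 142 (.leaf 8) (.bis 2
  4 1 2 93 (.bis 3 4 2 1 68 (.leaf 2) (.leaf 2)) (.bis 2 3 1 4 94 (.leaf 2) (.leaf 2))))) (.bis 0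
  4 1 2 128 (.leaf 20) (.leaf 30))))))) (.bis 1 7 2 1 40 (.bis 3 7 2 1 54 (.bis 4 7 2 1 75 (.bis
  6 7 1 1 70 (.bis 5 7 1 1 125 (.leaf 30) (.bis 2 5 1 2 127 (.leaf 14) (.leaf 14))) (.bis 0 6 1 2
  128 (.bis 2 6 1 2 93 (.bis 5 6 1 1 129 (.leaf 8) (.leaf 20)) (.bis 2 5 1 2 127 (.leaf 14)
  (.leaf 8))) (.bis 2 5 1 2 127 (.leaf 14) (.leaf 13)))) (.bis 0 4 1 4 143 (.bis 4 5 2 1 144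
  (.bis 2 6 1 2 93 (.bis 5 6 1 1 129 (.leaf 8) (.leaf 20)) (.leaf 14)) (.bis 1 4 1 4 78 (.bis 2 4
  1 4 95 (.bis 3 4 1 4 80 (.bis 4 6 2 1 82 (.bis 0 6 1 4 145 (.leaf 8) (.leaf 8)) (.leaf 54))
  (.bis 0 6 1 4 145 (.bis 6 7 2 1 83 (.leaf 4) (.leaf 8)) (.leaf 4))) (.bis 2 6 1 2 93 (.bis 0 6
  1 4 145 (.leaf 8) (.leaf 4)) (.leaf 4))) (.bis 2 6 1 2 93 (.bis 0 6 1 4 145 (.leaf 8) (.leaf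
  8)) (.leaf 8)))) (.bis 0 6 1 2 128 (.bis 2 6 1 2 93 (.bis 5 6 1 1 129 (.leaf 8) (.leaf 20))
  (.bis 2 5 1 2 127 (.leaf 14) (.leaf 8))) (.bis 2 5 1 2 127 (.leaf 14) (.leaf 13))))) (.bis 0 3
  1 4 130 (.bis 3 5 2 1 131 (.bis 4 5 2 1 144 (.bis 2 6 1 2 93 (.leaf 20) (.leaf 14)) (.bis 1 4 1
  4 78 (.bis 2 4 1 4 95 (.bis 4 7 4 1 80 (.bis 0 6 1 4 146 (.leaf 8) (.leaf 4)) (.bis 4 6 2 1 82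
  (.leaf 8) (.bis 0 4 1 8 147 (.leaf 6) (.leaf 6)))) (.bis 2 6 1 2 93 (.leaf 8) (.leaf 4))) (.bis
  2 6 1 2 93 (.leaf 8) (.leaf 8)))) (.bis 1 4 1 4 78 (.bis 2 4 1 4 95 (.bis 4 7 4 1 80 (.bis 3 6
  2 1 68 (.leaf 2) (.leaf 2)) (.bis 4 6 2 1 82 (.bis 3 6 2 1 68 (.leaf 2) (.leaf 2)) (.bis 3 4 1
  1 84 (.leaf 6) (.leaf 2)))) (.bis 2 6 1 2 93 (.bis 3 6 2 1 68 (.leaf 2) (.leaf 2)) (.bis 2 3 1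
  4 94 (.bis 3 7 4 1 148 (.leaf 2) (.leaf 2)) (.leaf 2)))) (.bis 1 3 1 4 55 (.bis 2 6 1 2 93
  (.bis 3 6 2 1 68 (.leaf 2) (.leaf 2)) (.bis 2 3 1 4 94 (.leaf 2) (.leaf 2))) (.bis 2 6 1 2 93
  (.leaf 8) (.leaf 8))))) (.bis 0 4 1 4 143 (.bis 4 5 2 1 144 (.bis 2 6 1 2 93 (.bis 5 6 1 1 129
  (.leaf 8) (.leaf 20)) (.leaf 14)) (.bis 1 4 1 4 78 (.bis 2 4 1 4 95 (.bis 4 7 4 1 80 (.bis 0 6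
  1 4 145 (.leaf 8) (.leaf 4)) (.bis 4 6 2 1 82 (.bis 0 6 1 4 145 (.leaf 8) (.leaf 6)) (.leaf
  6))) (.bis 2 6 1 2 93 (.bis 0 6 1 4 145 (.leaf 8) (.leaf 4)) (.leaf 4))) (.bis 2 6 1 2 93 (.bis
  0 6 1 4 145 (.leaf 8) (.leaf 8)) (.leaf 8)))) (.bis 0 6 1 2 128 (.bis 2 6 1 2 93 (.bis 5 6 1 1
  129 (.leaf 8) (.leaf 20)) (.bis 2 5 1 2 127 (.leaf 14) (.leaf 8))) (.bis 2 5 1 2 127 (.leaf 14)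
  (.leaf 13)))))) (.bis 0 1 1 4 133 (.bis 1 5 2 1 134 (.bis 3 5 2 1 131 (.bis 4 5 2 1 144 (.leaf
  20) (.bis 4 7 4 1 78 (.leaf 8) (.bis 2 4 1 4 95 (.bis 1 4 1 4 149 (.bis 0 4 1 8 150 (.bis 4 6 2
  1 82 (.leaf 8) (.leaf 6)) (.leaf 8)) (.leaf 8)) (.leaf 8)))) (.bis 4 7 4 1 78 (.bis 3 7 4 1 55
  (.leaf 8) (.bis 2 6 1 2 93 (.bis 3 6 2 1 68 (.leaf 2) (.leaf 2)) (.bis 2 3 1 4 94 (.leaf 2)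
  (.leaf 2)))) (.bis 2 4 1 4 95 (.bis 1 4 1 4 149 (.bis 0 4 1 8 150 (.bis 4 6 2 1 82 (.bis 3 6 2
  1 68 (.leaf 2) (.leaf 2)) (.bis 3 4 1 1 84 (.leaf 6) (.leaf 2))) (.bis 3 6 2 1 68 (.leaf 2)
  (.leaf 2))) (.bis 3 6 2 1 68 (.leaf 2) (.leaf 2))) (.bis 2 6 1 2 93 (.bis 3 6 2 1 68 (.leaf 2)
  (.bis 1 3 1 4 135 (.leaf 2) (.leaf 2))) (.bis 2 3 1 4 94 (.bis 1 3 1 4 135 (.leaf 2) (.leaf 2))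
  (.leaf 2)))))) (.bis 1 4 1 1 85 (.bis 4 7 4 1 78 (.bis 3 7 4 1 55 (.leaf 8) (.bis 2 6 1 2 93
  (.bis 3 6 2 1 68 (.leaf 2) (.leaf 2)) (.bis 2 3 1 4 94 (.leaf 2) (.leaf 2)))) (.bis 2 4 1 4 95
  (.bis 4 5 4 1 149 (.bis 3 6 2 1 68 (.leaf 2) (.leaf 2)) (.bis 0 4 1 8 150 (.bis 4 6 2 1 82
  (.bis 3 6 2 1 68 (.leaf 2) (.leaf 2)) (.bis 3 4 1 1 84 (.leaf 6) (.leaf 2))) (.bis 3 6 2 1 68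
  (.leaf 2) (.leaf 2)))) (.bis 2 6 1 2 93 (.bis 3 6 2 1 68 (.leaf 2) (.leaf 2)) (.bis 2 3 1 4 94
  (.leaf 2) (.leaf 2))))) (.bis 1 2 4 1 91 (.bis 3 7 4 1 55 (.leaf 8) (.bis 2 6 1 2 93 (.bis 3 6
  2 1 68 (.leaf 2) (.leaf 2)) (.bis 2 3 1 4 94 (.leaf 2) (.leaf 2)))) (.bis 3 7 4 1 55 (.leaf 7)
  (.leaf 7))))) (.bis 0 3 1 4 130 (.bis 3 5 2 1 131 (.bis 4 5 2 1 144 (.bis 2 6 1 2 93 (.leaf 20)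
  (.leaf 14)) (.bis 4 7 4 1 78 (.bis 2 6 1 2 93 (.leaf 8) (.leaf 8)) (.bis 2 4 1 4 95 (.bis 1 4 1
  8 150 (.bis 4 6 2 1 82 (.leaf 8) (.bis 0 4 1 8 147 (.leaf 6) (.leaf 6))) (.leaf 8)) (.bis 2 6 1
  2 93 (.leaf 8) (.leaf 4))))) (.bis 4 7 4 1 78 (.bis 3 7 4 1 55 (.bis 2 6 1 2 93 (.leaf 7)
  (.leaf 8)) (.bis 2 6 1 2 93 (.bis 3 6 2 1 68 (.leaf 2) (.leaf 2)) (.bis 2 3 1 4 94 (.leaf 2)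
  (.leaf 2)))) (.bis 2 4 1 4 95 (.bis 1 4 1 8 150 (.bis 4 6 2 1 82 (.leaf 2) (.bis 3 4 1 1 84
  (.leaf 6) (.leaf 2))) (.bis 3 6 2 1 68 (.leaf 2) (.leaf 2))) (.bis 2 6 1 2 93 (.bis 3 6 2 1 68
  (.leaf 2) (.leaf 2)) (.bis 2 3 1 4 94 (.leaf 2) (.leaf 2)))))) (.bis 0 4 1 4 143 (.bis 4 5 2 1
  144 (.bis 2 6 1 2 93 (.bis 5 6 1 1 129 (.leaf 8) (.leaf 20)) (.leaf 14)) (.bis 4 7 4 1 78 (.bis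
  2 6 1 2 93 (.leaf 8) (.leaf 8)) (.bis 2 4 1 4 95 (.bis 1 4 1 8 150 (.bis 4 6 2 1 82 (.leaf 8)
  (.leaf 6)) (.bis 0 6 1 4 145 (.leaf 8) (.leaf 4))) (.bis 2 6 1 2 93 (.bis 0 6 1 4 145 (.leaf 8)
  (.leaf 4)) (.leaf 4))))) (.bis 0 6 1 2 128 (.bis 2 6 1 2 93 (.bis 5 6 1 1 129 (.leaf 8) (.leaf
  20)) (.bis 2 5 1 2 127 (.leaf 14) (.leaf 8))) (.bis 2 5 1 2 127 (.leaf 14) (.leaf 13))))))))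
  (.bis 2 6 1 1 97 (.bis 4 6 1 1 61 (.bis 0 6 1 4 137 (.bis 3 6 1 1 43 (.bis 6 7 4 1 89 (.bis 1 5
  2 1 134 (.bis 2 5 1 1 151 (.leaf 58) (.leaf 3)) (.bis 1 7 4 1 91 (.leaf 3) (.bis 0 1 1 8 141
  (.leaf 7) (.leaf 3)))) (.bis 5 6 1 2 138 (.bis 1 6 1 1 30 (.bis 0 6 1 8 139 (.bis 2 6 1 2 99
  (.bis 4 6 1 2 63 (.bis 6 7 8 1 90 (.leaf 11) (.bis 3 6 1 2 44 (.leaf 25) (.leaf 11))) (.leaf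
  11)) (.leaf 11)) (.leaf 11)) (.bis 1 5 4 1 140 (.leaf 11) (.bis 0 1 1 8 141 (.leaf 22) (.leaf
  11)))) (.bis 1 5 2 1 134 (.bis 2 5 1 1 151 (.leaf 58) (.leaf 11)) (.bis 1 6 4 1 140 (.leaf 11)
  (.bis 0 1 1 8 141 (.leaf 7) (.leaf 3)))))) (.bis 1 5 2 1 134 (.bis 3 5 2 1 131 (.leaf 72) (.bis
  0 3 1 8 142 (.bis 6 7 2 1 92 (.bis 4 7 2 1 93 (.bis 3 7 4 1 94 (.leaf 2) (.leaf 2)) (.bis 2 3 1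
  2 100 (.leaf 2) (.leaf 2))) (.bis 2 3 1 2 100 (.leaf 7) (.leaf 7))) (.leaf 38))) (.bis 1 7 4 1
  91 (.bis 0 3 1 8 142 (.bis 6 7 2 1 92 (.bis 4 7 2 1 93 (.bis 3 7 4 1 94 (.leaf 2) (.leaf 2))
  (.bis 2 3 1 2 100 (.leaf 2) (.leaf 2))) (.bis 2 3 1 2 100 (.leaf 7) (.leaf 3))) (.leaf 3))
  (.bis 0 3 1 8 142 (.bis 2 3 1 2 100 (.leaf 7) (.leaf 7)) (.bis 0 1 1 8 141 (.leaf 7) (.leaf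
  3)))))) (.bis 0 1 1 4 133 (.bis 1 5 2 1 134 (.bis 3 5 2 1 131 (.bis 2 5 1 1 151 (.leaf 20)
  (.leaf 38)) (.bis 3 6 8 1 142 (.leaf 38) (.bis 4 7 2 1 93 (.bis 3 7 4 1 94 (.bis 2 7 2 1 152
  (.leaf 2) (.leaf 2)) (.leaf 2)) (.bis 2 3 1 2 100 (.leaf 2) (.leaf 2))))) (.bis 1 7 4 1 91
  (.bis 3 6 8 1 142 (.leaf 3) (.bis 4 7 2 1 93 (.bis 3 7 4 1 94 (.leaf 2) (.leaf 2)) (.bis 2 3 1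
  2 100 (.leaf 2) (.leaf 2)))) (.bis 3 6 8 1 142 (.bis 1 6 8 1 141 (.leaf 3) (.leaf 7)) (.bis 2 3
  1 2 100 (.leaf 7) (.leaf 7))))) (.bis 0 2 1 2 153 (.bis 3 5 2 1 131 (.bis 2 5 1 1 151 (.leaf
  20) (.leaf 38)) (.bis 3 6 8 1 142 (.leaf 38) (.bis 4 7 2 1 93 (.bis 3 7 4 1 94 (.bis 2 7 2 1
  152 (.leaf 2) (.leaf 2)) (.bis 2 3 1 2 100 (.leaf 2) (.leaf 2))) (.bis 2 3 1 2 100 (.bis 3 4 2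
  1 68 (.leaf 2) (.leaf 2)) (.leaf 2))))) (.bis 0 3 1 4 130 (.bis 3 5 2 1 131 (.bis 4 7 2 1 93
  (.leaf 20) (.leaf 20)) (.bis 3 6 8 1 142 (.leaf 8) (.bis 4 7 2 1 93 (.bis 3 7 4 1 94 (.leaf 2)
  (.bis 2 3 1 8 154 (.leaf 2) (.leaf 2))) (.bis 3 4 2 1 68 (.leaf 2) (.leaf 2))))) (.bis 0 4 1 2
  128 (.bis 4 7 2 1 93 (.leaf 20) (.leaf 20)) (.leaf 30)))))) (.bis 0 1 1 4 133 (.bis 2 4 1 2 103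
  (.bis 1 5 2 1 134 (.bis 3 5 2 1 131 (.bis 4 5 2 1 144 (.leaf 20) (.bis 4 7 4 1 95 (.leaf 8)
  (.bis 1 4 1 4 149 (.bis 0 4 1 8 150 (.bis 4 6 2 1 82 (.leaf 8) (.leaf 6)) (.leaf 8)) (.leaf
  8)))) (.bis 4 7 4 1 95 (.bis 6 7 2 1 93 (.bis 3 7 4 1 94 (.leaf 2) (.leaf 2)) (.bis 3 6 2 1 68
  (.leaf 2) (.leaf 2))) (.bis 1 4 1 4 149 (.bis 0 4 1 8 150 (.bis 4 6 2 1 82 (.leaf 2) (.leaf 6))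
  (.leaf 2)) (.bis 3 6 2 1 68 (.leaf 2) (.leaf 2))))) (.bis 1 4 1 1 85 (.bis 4 7 4 1 95 (.bis 6 7
  2 1 93 (.bis 3 7 4 1 94 (.leaf 2) (.leaf 2)) (.bis 3 6 2 1 68 (.leaf 2) (.leaf 2))) (.bis 4 5 4
  1 149 (.leaf 2) (.bis 0 4 1 8 150 (.bis 4 6 2 1 82 (.leaf 2) (.leaf 6)) (.leaf 2)))) (.bis 1 7
  4 1 91 (.bis 6 7 2 1 93 (.bis 3 7 4 1 94 (.leaf 2) (.leaf 2)) (.bis 3 6 2 1 68 (.leaf 2) (.leaf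
  2))) (.leaf 7)))) (.bis 1 5 2 1 134 (.bis 3 5 2 1 131 (.bis 2 5 1 1 151 (.leaf 20) (.leaf 2))
  (.bis 6 7 2 1 93 (.bis 3 7 4 1 94 (.leaf 2) (.leaf 2)) (.bis 2 3 1 2 100 (.leaf 2) (.leaf 2))))
  (.bis 1 7 4 1 91 (.bis 6 7 2 1 93 (.bis 3 7 4 1 94 (.leaf 2) (.leaf 2)) (.bis 2 3 1 2 100
  (.leaf 2) (.leaf 2))) (.bis 2 3 1 2 100 (.leaf 7) (.leaf 7))))) (.bis 0 2 1 2 153 (.bis 2 4 1 2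
  103 (.bis 3 5 2 1 131 (.bis 4 5 2 1 144 (.leaf 20) (.bis 4 7 4 1 95 (.leaf 8) (.bis 0 4 1 8 155
  (.bis 1 4 1 8 150 (.bis 4 6 2 1 82 (.leaf 8) (.leaf 6)) (.leaf 8)) (.leaf 8)))) (.bis 4 7 4 1
  95 (.bis 6 7 2 1 93 (.bis 3 7 4 1 94 (.leaf 2) (.leaf 2)) (.bis 3 6 2 1 68 (.leaf 2) (.leaf
  2))) (.bis 0 4 1 8 155 (.bis 1 4 1 8 150 (.bis 4 6 2 1 82 (.leaf 2) (.bis 3 4 1 1 84 (.leaf 6)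
  (.leaf 2))) (.leaf 2)) (.bis 3 6 2 1 68 (.leaf 2) (.leaf 2))))) (.bis 3 5 2 1 131 (.bis 2 5 1 1
  151 (.leaf 20) (.leaf 2)) (.bis 6 7 2 1 93 (.bis 3 7 4 1 94 (.leaf 2) (.leaf 2)) (.bis 2 3 1 2
  100 (.leaf 2) (.leaf 2))))) (.bis 0 3 1 4 130 (.bis 3 5 2 1 131 (.bis 4 5 2 1 144 (.bis 6 7 2 1
  93 (.leaf 4) (.leaf 20)) (.bis 4 7 4 1 95 (.bis 6 7 2 1 93 (.leaf 4) (.leaf 8)) (.bis 2 4 1 8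
  155 (.bis 1 4 1 8 150 (.bis 4 6 2 1 82 (.leaf 8) (.bis 0 4 1 8 147 (.leaf 6) (.leaf 6))) (.leaf
  8)) (.leaf 8)))) (.bis 4 7 4 1 95 (.bis 6 7 2 1 93 (.bis 3 7 4 1 94 (.leaf 2) (.bis 2 3 1 8 154
  (.leaf 2) (.leaf 2))) (.bis 3 6 2 1 68 (.leaf 2) (.leaf 2))) (.bis 2 4 1 8 155 (.bis 1 4 1 8
  150 (.bis 4 6 2 1 82 (.leaf 2) (.bis 3 4 1 1 84 (.leaf 6) (.leaf 2))) (.bis 3 6 2 1 68 (.leaf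
  2) (.leaf 2))) (.bis 3 6 2 1 68 (.leaf 2) (.leaf 2))))) (.bis 0 4 1 4 143 (.bis 4 5 2 1 144
  (.bis 6 7 2 1 93 (.leaf 4) (.bis 5 6 1 1 129 (.leaf 8) (.leaf 4))) (.bis 4 7 4 1 95 (.bis 6 7 2
  1 93 (.leaf 4) (.bis 0 6 1 4 145 (.leaf 8) (.leaf 4))) (.bis 2 4 1 8 155 (.bis 1 4 1 8 150
  (.bis 4 6 2 1 82 (.leaf 8) (.leaf 6)) (.bis 0 6 1 4 145 (.leaf 8) (.leaf 4))) (.bis 0 6 1 4 145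
  (.leaf 8) (.leaf 4))))) (.bis 0 6 1 2 128 (.bis 6 7 2 1 93 (.bis 5 7 2 1 127 (.leaf 4) (.leaf
  4)) (.bis 5 6 1 1 129 (.leaf 8) (.leaf 4))) (.bis 5 7 2 1 127 (.leaf 4) (.leaf 4)))))))) (.bis
  2 5 2 1 156 (.bis 0 1 1 4 133 (.bis 4 6 2 1 103 (.bis 1 5 2 1 134 (.bis 3 5 2 1 131 (.bis 5 6 1
  1 151 (.leaf 2) (.leaf 20)) (.bis 3 7 4 1 94 (.bis 6 7 2 1 152 (.leaf 2) (.leaf 2)) (.leaf 2)))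
  (.bis 1 7 4 1 91 (.bis 3 7 4 1 94 (.leaf 2) (.leaf 2)) (.leaf 7))) (.bis 1 5 2 1 134 (.bis 3 5
  2 1 131 (.bis 4 5 2 1 144 (.leaf 20) (.bis 4 7 4 1 95 (.leaf 8) (.bis 1 4 1 4 149 (.bis 0 4 1 8
  150 (.bis 2 4 1 4 157 (.leaf 6) (.leaf 6)) (.leaf 6)) (.leaf 8)))) (.bis 4 7 4 1 95 (.bis 3 7 4
  1 94 (.leaf 2) (.leaf 2)) (.bis 1 4 1 4 149 (.bis 0 4 1 8 150 (.bis 2 4 1 4 157 (.bis 3 4 1 1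
  84 (.leaf 6) (.leaf 2)) (.leaf 2)) (.leaf 2)) (.bis 1 3 1 4 135 (.leaf 2) (.leaf 2))))) (.bis 1
  4 1 1 85 (.bis 4 7 4 1 95 (.bis 3 7 4 1 94 (.leaf 2) (.leaf 2)) (.bis 4 5 4 1 149 (.leaf 2)
  (.bis 0 4 1 8 150 (.bis 2 4 1 4 157 (.leaf 6) (.leaf 2)) (.leaf 2)))) (.bis 1 7 4 1 91 (.leaf
  2) (.leaf 7))))) (.bis 0 6 1 2 153 (.bis 4 6 2 1 103 (.bis 3 5 2 1 131 (.bis 5 6 1 1 151 (.leaf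
  2) (.leaf 20)) (.bis 3 7 4 1 94 (.bis 6 7 2 1 152 (.leaf 2) (.leaf 2)) (.leaf 2))) (.bis 3 5 2
  1 131 (.bis 4 5 2 1 144 (.leaf 20) (.bis 4 7 4 1 95 (.leaf 8) (.bis 0 4 1 8 155 (.bis 1 4 1 8
  150 (.bis 2 4 1 4 157 (.leaf 6) (.leaf 6)) (.leaf 6)) (.leaf 8)))) (.bis 4 7 4 1 95 (.bis 3 7 4
  1 94 (.leaf 2) (.leaf 2)) (.bis 0 4 1 8 155 (.bis 1 4 1 8 150 (.bis 2 4 1 4 157 (.bis 3 4 1 1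
  84 (.leaf 6) (.leaf 2)) (.leaf 2)) (.leaf 2)) (.bis 0 3 1 8 154 (.leaf 2) (.leaf 2)))))) (.bis
  0 3 1 4 130 (.bis 3 5 2 1 131 (.bis 4 5 2 1 144 (.leaf 4) (.bis 4 7 4 1 95 (.leaf 4) (.bis 4 6
  8 1 155 (.leaf 4) (.bis 1 4 1 8 150 (.bis 2 4 1 4 157 (.bis 0 4 1 8 147 (.leaf 6) (.leaf 4))
  (.leaf 4)) (.leaf 4))))) (.bis 4 7 4 1 95 (.bis 3 7 4 1 94 (.leaf 2) (.bis 3 6 8 1 154 (.leaf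
  2) (.leaf 2))) (.bis 4 6 8 1 155 (.bis 3 6 8 1 154 (.leaf 2) (.leaf 2)) (.bis 1 4 1 8 150 (.bis
  2 4 1 4 157 (.bis 3 4 1 1 84 (.bis 0 4 1 8 147 (.leaf 6) (.leaf 2)) (.leaf 2)) (.leaf 2)) (.bis
  1 3 1 8 158 (.leaf 2) (.leaf 2)))))) (.bis 0 4 1 4 143 (.bis 4 5 2 1 144 (.leaf 4) (.bis 4 7 4
  1 95 (.leaf 4) (.bis 4 6 8 1 155 (.leaf 4) (.bis 1 4 1 8 150 (.bis 2 4 1 4 157 (.bis 3 4 1 8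
  147 (.leaf 6) (.leaf 4)) (.leaf 4)) (.leaf 4))))) (.bis 5 7 2 1 127 (.leaf 4) (.leaf 4))))))
  (.bis 0 1 1 4 133 (.bis 2 4 1 1 110 (.bis 4 6 2 1 103 (.bis 1 7 4 1 91 (.leaf 2) (.bis 1 2 2 1
  111 (.leaf 2) (.leaf 7))) (.bis 1 4 1 1 85 (.bis 4 7 4 1 95 (.leaf 2) (.bis 0 4 1 8 150 (.bis 4
  5 4 1 157 (.leaf 2) (.leaf 6)) (.leaf 2))) (.bis 1 7 4 1 91 (.leaf 2) (.bis 1 2 2 1 111 (.leaf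
  2) (.leaf 7))))) (.bis 1 2 1 1 104 (.bis 0 2 1 8 159 (.bis 2 7 4 1 107 (.leaf 2) (.bis 2 6 2 1
  109 (.leaf 2) (.leaf 9))) (.bis 3 7 4 1 94 (.bis 4 6 1 1 112 (.leaf 2) (.leaf 2)) (.bis 4 6 1 1
  112 (.leaf 2) (.leaf 2)))) (.bis 1 7 4 1 91 (.leaf 2) (.bis 1 4 2 1 111 (.leaf 2) (.leaf 7)))))
  (.bis 0 2 1 4 160 (.bis 2 4 1 1 110 (.bis 4 6 2 1 103 (.bis 3 7 4 1 94 (.bis 2 6 1 1 112 (.leaf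
  2) (.leaf 2)) (.bis 2 6 1 1 112 (.leaf 2) (.leaf 2))) (.bis 4 7 4 1 95 (.bis 3 7 4 1 94 (.leaf
  2) (.leaf 2)) (.bis 0 4 1 8 161 (.bis 1 4 1 8 150 (.bis 4 5 4 1 157 (.leaf 2) (.leaf 6)) (.leaf
  2)) (.leaf 2)))) (.bis 1 2 1 8 159 (.bis 2 7 4 1 107 (.bis 3 7 4 1 94 (.bis 4 6 1 1 112 (.leaf
  2) (.leaf 2)) (.bis 4 6 1 1 112 (.leaf 2) (.leaf 2))) (.bis 2 6 2 1 109 (.leaf 2) (.bis 2 3 1 1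
  120 (.leaf 2) (.leaf 9)))) (.bis 3 7 4 1 94 (.bis 4 6 1 1 112 (.bis 0 6 1 4 162 (.leaf 2)
  (.leaf 2)) (.leaf 2)) (.bis 4 6 1 1 112 (.leaf 2) (.leaf 2))))) (.bis 0 6 1 2 153 (.bis 4 6 2 1
  103 (.bis 3 7 4 1 94 (.bis 2 6 1 4 162 (.leaf 2) (.leaf 2)) (.bis 3 6 2 1 100 (.leaf 2) (.leaf
  2))) (.bis 4 7 4 1 95 (.bis 3 7 4 1 94 (.leaf 2) (.bis 0 3 1 8 154 (.leaf 2) (.leaf 2))) (.bis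
  0 4 1 8 155 (.bis 2 4 1 8 161 (.bis 1 4 1 8 150 (.bis 4 5 4 1 157 (.leaf 2) (.bis 3 4 1 1 84
  (.leaf 6) (.leaf 2))) (.leaf 2)) (.bis 2 3 1 8 163 (.leaf 2) (.leaf 2))) (.bis 0 3 1 8 154
  (.leaf 2) (.leaf 2))))) (.bis 0 3 1 4 130 (.bis 4 7 4 1 95 (.bis 3 7 4 1 94 (.leaf 2) (.bis 3 6
  8 1 154 (.leaf 2) (.leaf 2))) (.bis 4 6 8 1 155 (.bis 3 6 8 1 154 (.leaf 2) (.bis 2 3 1 8 163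
  (.leaf 2) (.leaf 2))) (.bis 2 4 1 8 161 (.bis 1 4 1 8 150 (.bis 4 5 4 1 157 (.bis 3 5 4 1 164
  (.leaf 2) (.leaf 2)) (.bis 3 4 1 1 84 (.leaf 6) (.leaf 2))) (.bis 1 3 1 8 158 (.leaf 2) (.leaf
  2))) (.bis 2 3 1 8 163 (.leaf 2) (.leaf 2))))) (.bis 0 4 1 4 143 (.bis 4 7 4 1 95 (.leaf 4)
  (.bis 4 6 8 1 155 (.leaf 4) (.bis 2 4 1 8 161 (.bis 1 4 1 8 150 (.bis 4 5 4 1 157 (.leaf 4)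
  (.bis 3 4 1 8 147 (.leaf 6) (.leaf 4))) (.leaf 4)) (.leaf 4)))) (.leaf 4)))))))))

def lc2 : List Vr := [⟨[73,0,0,0,0,146,0,79], 242360, 0⟩, ⟨[0,24,0,0,0,0,0,0], 10368, 0⟩, ⟨[0,0,
  28,0,0,0,0,0], 10976, 0⟩, ⟨[0,0,0,17,0,0,0,0], 10404, 0⟩, ⟨[0,0,0,0,28,0,0,0], 10976, 0⟩, ⟨[0,0,
  0,0,0,73,42,0], 58034, 0⟩, ⟨[0,0,0,0,0,0,42,0], 10584, 0⟩, ⟨[0,0,0,0,0,73,0,79], 45260, 0⟩]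

theorem lk2 : chkTr lowT (leafLow 3 lowB) lt2 lc2 = true := by decide +kernel

def lt3 : Tr ℕ := (.bis 1 5 1 1 166 (.bis 3 5 1 1 167 (.bis 4 5 1 1 168 (.bis 5 7 2 1 169 (.bis 4
  7 1 1 170 (.bis 2 7 1 1 171 (.bis 3 7 1 1 172 (.bis 1 7 1 1 173 (.bis 6 7 1 1 125 (.leaf 93)
  (.bis 5 6 1 2 174 (.leaf 14) (.leaf 66))) (.bis 5 6 1 2 174 (.bis 0 6 1 2 175 (.leaf 14) (.bis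
  0 1 1 2 176 (.leaf 14) (.leaf 14))) (.bis 1 5 2 1 177 (.leaf 66) (.bis 0 1 1 2 176 (.leaf 14)
  (.leaf 14))))) (.bis 5 6 1 2 174 (.bis 0 6 1 2 175 (.bis 3 6 1 1 178 (.leaf 14) (.leaf 14))
  (.bis 0 3 1 2 179 (.leaf 14) (.bis 0 1 1 2 176 (.leaf 14) (.leaf 14)))) (.bis 1 5 2 1 177 (.bis
  0 5 1 1 180 (.bis 3 5 2 1 181 (.leaf 36) (.bis 0 3 1 4 182 (.leaf 14) (.leaf 14))) (.bis 0 3 1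
  2 179 (.bis 3 5 4 1 182 (.leaf 14) (.leaf 14)) (.leaf 14))) (.bis 0 3 1 2 179 (.leaf 14) (.leaf
  14))))) (.bis 2 5 2 1 183 (.bis 5 6 1 2 174 (.leaf 14) (.bis 1 5 2 1 177 (.bis 0 5 1 1 180
  (.bis 3 5 2 1 181 (.leaf 36) (.bis 0 3 1 4 182 (.leaf 14) (.leaf 14))) (.bis 0 3 1 2 179 (.leaf
  14) (.leaf 14))) (.leaf 14))) (.leaf 62))) (.bis 2 5 2 1 183 (.bis 0 4 1 2 184 (.bis 4 6 1 1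
  185 (.bis 5 6 1 2 174 (.leaf 14) (.bis 1 5 2 1 177 (.leaf 36) (.leaf 14))) (.bis 1 5 2 1 177
  (.bis 4 5 2 1 186 (.leaf 36) (.leaf 94)) (.leaf 33))) (.bis 5 6 1 2 174 (.leaf 14) (.bis 1 5 2
  1 177 (.bis 0 5 1 1 180 (.bis 3 5 2 1 181 (.leaf 36) (.leaf 14)) (.bis 0 3 1 2 179 (.leaf 14)
  (.leaf 14))) (.leaf 14)))) (.bis 0 4 1 2 184 (.bis 4 6 1 1 185 (.leaf 33) (.leaf 33)) (.bis 2 6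
  1 1 187 (.leaf 14) (.leaf 62))))) (.bis 0 5 1 4 188 (.bis 5 6 2 1 189 (.bis 2 7 2 1 183 (.bis 4
  6 1 1 185 (.bis 6 7 2 1 174 (.bis 1 7 2 1 177 (.leaf 36) (.leaf 36)) (.bis 0 6 1 4 190 (.leaf
  74) (.leaf 36))) (.bis 1 7 2 1 177 (.bis 4 7 2 1 186 (.leaf 36) (.leaf 17)) (.leaf 17))) (.bis
  4 6 1 1 185 (.bis 0 6 1 4 190 (.leaf 74) (.leaf 17)) (.bis 2 5 2 1 191 (.leaf 17) (.bis 0 2 1 4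
  192 (.leaf 17) (.leaf 17))))) (.bis 2 5 1 2 193 (.bis 1 5 1 2 194 (.bis 3 5 1 2 195 (.bis 4 5 1
  2 196 (.bis 5 7 4 1 197 (.bis 4 7 1 1 198 (.bis 2 7 1 1 199 (.bis 3 7 1 1 200 (.bis 1 7 1 1 201
  (.bis 6 7 1 1 202 (.bis 0 5 1 1 203 (.leaf 67) (.leaf 67)) (.bis 5 6 1 2 204 (.leaf 23) (.leaf
  23))) (.bis 5 6 1 2 204 (.leaf 23) (.leaf 23))) (.bis 5 6 1 2 204 (.leaf 23) (.leaf 23))) (.bis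
  2 5 2 1 205 (.bis 5 6 1 2 204 (.leaf 23) (.leaf 23)) (.leaf 23))) (.bis 0 4 1 2 206 (.bis 2 5 2
  1 205 (.bis 4 6 1 1 207 (.bis 5 6 1 2 204 (.leaf 23) (.leaf 23)) (.bis 1 5 2 1 208 (.leaf 23)
  (.leaf 23))) (.leaf 23)) (.bis 2 5 2 1 205 (.bis 5 6 1 2 204 (.leaf 23) (.leaf 23)) (.leaf
  23)))) (.bis 0 5 1 8 209 (.bis 5 6 4 1 210 (.bis 2 7 2 1 205 (.bis 4 6 1 1 207 (.bis 6 7 2 1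
  204 (.leaf 23) (.leaf 23)) (.bis 1 7 2 1 208 (.leaf 23) (.leaf 23))) (.leaf 23)) (.bis 2 5 1 4
  211 (.bis 1 5 1 4 212 (.bis 3 5 1 4 213 (.bis 4 5 1 4 214 (.bis 5 7 8 1 215 (.leaf 42) (.bis 0
  5 1 16 216 (.bis 5 6 8 1 217 (.leaf 42) (.bis 2 5 1 8 218 (.bis 1 5 1 8 219 (.bis 3 5 1 8 220
  (.leaf 83) (.leaf 42)) (.leaf 42)) (.leaf 42))) (.leaf 42))) (.bis 4 7 2 1 221 (.leaf 42)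
  (.leaf 45))) (.bis 4 7 2 1 221 (.leaf 75) (.leaf 45))) (.bis 1 7 2 1 208 (.leaf 75) (.leaf
  45))) (.bis 2 7 2 1 205 (.bis 1 7 2 1 208 (.leaf 75) (.leaf 45)) (.leaf 45)))) (.bis 0 4 1 2
  206 (.bis 2 7 2 1 205 (.bis 4 6 1 1 207 (.bis 6 7 2 1 204 (.leaf 23) (.leaf 23)) (.bis 1 7 2 1
  208 (.leaf 23) (.leaf 23))) (.leaf 23)) (.bis 2 7 2 1 205 (.bis 6 7 2 1 204 (.leaf 23) (.leaf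
  23)) (.leaf 23))))) (.bis 4 7 2 1 186 (.bis 5 7 1 1 198 (.bis 2 7 1 1 199 (.bis 3 7 1 1 200
  (.leaf 67) (.leaf 23)) (.leaf 23)) (.leaf 23)) (.leaf 52))) (.bis 4 7 2 1 186 (.bis 3 7 2 1 181
  (.bis 2 7 1 1 199 (.bis 5 7 1 1 200 (.bis 1 7 1 1 201 (.leaf 36) (.leaf 23)) (.leaf 23)) (.leaf
  23)) (.leaf 52)) (.leaf 52))) (.bis 1 7 2 1 177 (.bis 4 7 2 1 186 (.bis 3 7 2 1 181 (.bis 2 7 1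
  1 199 (.bis 5 7 1 1 201 (.leaf 36) (.leaf 67)) (.bis 1 2 1 2 222 (.leaf 17) (.leaf 17))) (.bis
  0 3 1 4 223 (.bis 3 6 2 1 224 (.bis 1 2 1 2 222 (.leaf 17) (.leaf 17)) (.bis 1 2 1 2 222 (.leaf
  17) (.leaf 17))) (.bis 1 2 1 2 222 (.leaf 17) (.leaf 17)))) (.leaf 17)) (.bis 1 2 2 1 225
  (.leaf 17) (.leaf 17)))) (.bis 2 7 2 1 183 (.bis 1 7 2 1 177 (.bis 4 7 2 1 186 (.bis 3 7 2 1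
  181 (.bis 5 7 1 1 199 (.leaf 36) (.bis 1 5 1 2 222 (.leaf 17) (.leaf 17))) (.bis 0 3 1 4 223
  (.bis 3 6 2 1 224 (.bis 1 5 1 2 222 (.leaf 17) (.leaf 17)) (.bis 1 5 1 2 222 (.leaf 17) (.leaf
  17))) (.bis 1 5 1 2 222 (.leaf 17) (.leaf 17)))) (.bis 0 4 1 4 226 (.bis 4 6 2 1 227 (.bis 3 6
  2 1 224 (.bis 1 5 1 2 222 (.leaf 17) (.leaf 17)) (.bis 1 5 1 2 222 (.leaf 17) (.leaf 17)))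
  (.bis 1 4 1 4 228 (.bis 2 4 1 4 229 (.bis 3 5 2 1 230 (.leaf 17) (.leaf 17)) (.bis 3 5 2 1 230
  (.leaf 17) (.leaf 17))) (.bis 1 5 1 2 222 (.leaf 17) (.leaf 17)))) (.bis 0 3 1 4 223 (.bis 3 6
  2 1 224 (.bis 1 5 1 2 222 (.leaf 17) (.leaf 17)) (.bis 1 5 1 2 222 (.leaf 17) (.leaf 17)))
  (.bis 1 5 1 2 222 (.leaf 17) (.leaf 17))))) (.bis 1 5 2 1 225 (.leaf 17) (.leaf 17))) (.bis 2 6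
  2 1 191 (.leaf 17) (.leaf 17))))) (.bis 2 7 2 1 183 (.bis 0 4 1 2 184 (.bis 4 6 1 1 185 (.bis 6
  7 2 1 174 (.bis 1 7 2 1 177 (.leaf 36) (.leaf 36)) (.bis 5 6 1 4 190 (.leaf 14) (.leaf 36)))
  (.bis 1 7 2 1 177 (.bis 4 7 2 1 186 (.bis 3 7 2 1 181 (.leaf 36) (.leaf 17)) (.leaf 17)) (.leaf
  17))) (.bis 6 7 2 1 174 (.bis 1 7 2 1 177 (.leaf 66) (.leaf 66)) (.leaf 95))) (.bis 0 4 1 2 184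
  (.bis 4 6 1 1 185 (.bis 5 6 1 4 190 (.leaf 33) (.leaf 17)) (.bis 2 5 4 1 192 (.leaf 17) (.leaf
  17))) (.bis 5 6 1 4 190 (.leaf 62) (.leaf 27)))))) (.bis 4 7 2 1 75 (.bis 5 7 1 1 170 (.bis 2 7
  1 1 171 (.bis 3 7 1 1 172 (.bis 1 7 1 1 173 (.bis 6 7 1 1 125 (.leaf 30) (.leaf 14)) (.bis 0 6
  1 2 175 (.bis 1 4 2 1 231 (.leaf 14) (.leaf 14)) (.bis 1 4 2 1 231 (.leaf 14) (.bis 0 1 1 2 176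
  (.leaf 14) (.leaf 14))))) (.bis 3 4 2 1 232 (.leaf 14) (.leaf 14))) (.bis 2 4 2 1 233 (.leaf
  14) (.leaf 62))) (.bis 0 5 1 2 184 (.bis 2 4 2 1 233 (.bis 5 6 1 1 185 (.leaf 14) (.leaf 33))
  (.bis 5 6 1 1 185 (.leaf 33) (.leaf 33))) (.bis 2 4 2 1 233 (.leaf 14) (.leaf 62)))) (.bis 0 4
  1 4 143 (.bis 4 6 2 1 144 (.leaf 33) (.bis 2 4 1 2 234 (.bis 1 4 1 2 235 (.bis 3 4 1 2 236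
  (.bis 4 5 2 1 237 (.leaf 33) (.leaf 54)) (.leaf 33)) (.leaf 33)) (.leaf 33))) (.bis 0 5 1 2 184
  (.bis 2 7 2 1 233 (.bis 5 6 1 1 185 (.leaf 4) (.leaf 33)) (.bis 5 6 1 1 185 (.leaf 4) (.leaf
  33))) (.bis 2 7 2 1 233 (.leaf 4) (.bis 2 6 1 1 187 (.leaf 4) (.leaf 4))))))) (.bis 3 7 2 1 54
  (.bis 4 7 2 1 75 (.bis 2 7 1 1 171 (.bis 5 7 1 1 172 (.bis 1 7 1 1 173 (.bis 6 7 1 1 125 (.leaf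
  30) (.leaf 14)) (.bis 1 3 2 1 238 (.leaf 4) (.leaf 4))) (.bis 3 5 1 2 239 (.leaf 4) (.bis 1 3 2
  1 238 (.leaf 4) (.leaf 4)))) (.bis 2 3 2 1 240 (.leaf 4) (.leaf 4))) (.bis 0 4 1 4 143 (.bis 4
  6 2 1 144 (.bis 2 3 2 1 240 (.leaf 4) (.leaf 4)) (.bis 2 4 1 2 234 (.bis 1 4 1 2 235 (.bis 3 4
  1 4 80 (.bis 4 5 2 1 236 (.leaf 4) (.leaf 54)) (.leaf 4)) (.leaf 4)) (.leaf 4))) (.bis 2 3 2 1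
  240 (.leaf 4) (.leaf 4)))) (.bis 0 3 1 4 130 (.bis 3 6 2 1 131 (.bis 4 6 2 1 144 (.leaf 4)
  (.bis 2 4 1 2 234 (.bis 1 4 1 2 235 (.bis 4 7 4 1 80 (.leaf 4) (.bis 4 5 2 1 236 (.leaf 4)
  (.bis 0 4 1 8 147 (.leaf 6) (.leaf 4)))) (.leaf 4)) (.leaf 4))) (.bis 1 3 1 2 241 (.bis 2 3 1 2
  242 (.bis 3 5 2 1 243 (.bis 4 7 4 1 80 (.leaf 4) (.bis 4 5 2 1 236 (.leaf 4) (.bis 0 4 1 8 147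
  (.bis 4 6 4 1 244 (.leaf 4) (.bis 2 4 1 4 245 (.leaf 6) (.leaf 6))) (.leaf 4)))) (.bis 4 7 4 1
  80 (.leaf 65) (.bis 3 4 1 1 84 (.bis 0 4 1 8 147 (.bis 4 6 4 1 244 (.leaf 6) (.bis 2 4 1 4 245
  (.leaf 6) (.leaf 6))) (.leaf 6)) (.leaf 6)))) (.bis 2 4 1 2 234 (.bis 4 7 4 1 80 (.leaf 4)
  (.bis 4 5 2 1 236 (.leaf 4) (.bis 0 4 1 8 147 (.bis 4 6 4 1 244 (.leaf 4) (.leaf 6)) (.leaf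
  4)))) (.leaf 4))) (.bis 2 4 1 2 234 (.bis 1 4 1 2 235 (.bis 4 7 4 1 80 (.leaf 4) (.bis 4 5 2 1
  236 (.leaf 4) (.bis 0 4 1 8 147 (.leaf 6) (.leaf 4)))) (.leaf 4)) (.leaf 4)))) (.bis 0 4 1 4
  143 (.bis 4 6 2 1 144 (.leaf 4) (.bis 2 4 1 2 234 (.bis 1 4 1 2 235 (.bis 4 7 4 1 80 (.leaf 4)
  (.bis 4 5 2 1 236 (.leaf 4) (.leaf 6))) (.leaf 4)) (.leaf 4))) (.leaf 4))))) (.bis 1 7 2 1 40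
  (.bis 3 7 2 1 54 (.bis 4 7 2 1 75 (.bis 2 7 1 1 171 (.bis 5 7 1 1 173 (.bis 6 7 1 1 125 (.leaf
  30) (.leaf 14)) (.bis 1 5 1 2 246 (.leaf 4) (.leaf 14))) (.bis 1 2 1 2 247 (.bis 2 3 2 1 240
  (.leaf 4) (.leaf 4)) (.bis 1 5 1 2 246 (.leaf 4) (.leaf 14)))) (.bis 0 4 1 4 143 (.bis 4 6 2 1
  144 (.bis 1 2 1 2 247 (.bis 2 3 2 1 240 (.leaf 4) (.leaf 4)) (.leaf 14)) (.bis 1 4 1 4 78 (.bis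
  2 4 1 2 234 (.bis 4 5 2 1 235 (.leaf 4) (.bis 3 4 1 4 80 (.leaf 54) (.leaf 4))) (.bis 2 3 2 1
  240 (.leaf 4) (.leaf 4))) (.bis 1 2 1 2 247 (.bis 2 3 2 1 240 (.leaf 4) (.leaf 4)) (.leaf
  14)))) (.bis 1 2 1 2 247 (.bis 2 3 2 1 240 (.leaf 4) (.leaf 4)) (.leaf 14)))) (.bis 0 3 1 4 130
  (.bis 3 6 2 1 131 (.bis 4 6 2 1 144 (.bis 1 2 1 2 247 (.bis 2 7 2 1 240 (.leaf 4) (.leaf 4))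
  (.leaf 14)) (.bis 1 4 1 4 78 (.bis 2 4 1 2 234 (.bis 4 5 2 1 235 (.leaf 4) (.bis 4 7 4 1 80
  (.leaf 4) (.bis 0 4 1 8 147 (.leaf 6) (.leaf 4)))) (.leaf 4)) (.bis 1 2 1 2 247 (.bis 2 7 2 1
  240 (.leaf 4) (.leaf 4)) (.leaf 14)))) (.bis 1 4 1 4 78 (.bis 3 5 2 1 241 (.bis 2 4 1 2 234
  (.bis 4 5 2 1 235 (.leaf 4) (.bis 4 7 4 1 80 (.leaf 4) (.bis 0 4 1 8 147 (.leaf 6) (.leaf 4))))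
  (.leaf 4)) (.bis 2 3 1 2 242 (.bis 4 7 4 1 80 (.leaf 2) (.bis 3 4 1 1 84 (.bis 0 4 1 8 147
  (.bis 4 6 4 1 244 (.leaf 2) (.leaf 6)) (.leaf 2)) (.leaf 2))) (.bis 2 4 1 2 234 (.bis 4 7 4 1
  80 (.leaf 4) (.bis 0 4 1 8 147 (.bis 4 6 4 1 244 (.leaf 4) (.leaf 6)) (.leaf 4))) (.leaf 4))))
  (.bis 3 5 2 1 241 (.bis 1 2 1 2 247 (.bis 2 7 2 1 240 (.leaf 4) (.leaf 4)) (.leaf 14)) (.bis 2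
  3 1 2 242 (.bis 1 3 1 4 55 (.leaf 2) (.leaf 8)) (.bis 1 2 1 2 247 (.bis 2 7 2 1 240 (.leaf 4)
  (.leaf 4)) (.leaf 8)))))) (.bis 0 4 1 4 143 (.bis 4 6 2 1 144 (.bis 1 2 1 2 247 (.leaf 4)
  (.leaf 14)) (.bis 1 4 1 4 78 (.bis 2 4 1 2 234 (.bis 4 5 2 1 235 (.leaf 4) (.bis 4 7 4 1 80
  (.leaf 4) (.leaf 6))) (.leaf 4)) (.bis 1 2 1 2 247 (.bis 2 7 2 1 240 (.leaf 4) (.leaf 4))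
  (.leaf 14)))) (.bis 1 2 1 2 247 (.leaf 4) (.leaf 14))))) (.bis 1 2 2 1 248 (.bis 0 3 1 4 130
  (.bis 3 6 2 1 131 (.bis 4 6 2 1 144 (.bis 2 7 2 1 247 (.leaf 14) (.leaf 4)) (.bis 4 7 4 1 78
  (.bis 2 7 2 1 247 (.leaf 14) (.leaf 4)) (.bis 2 4 1 2 234 (.bis 4 5 2 1 235 (.leaf 4) (.bis 1 4
  1 4 249 (.bis 0 4 1 8 147 (.leaf 6) (.leaf 4)) (.leaf 4))) (.leaf 4)))) (.bis 4 7 4 1 78 (.bis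
  3 5 2 1 241 (.bis 2 7 2 1 247 (.leaf 14) (.leaf 4)) (.bis 2 3 1 2 242 (.leaf 65) (.bis 2 7 2 1
  247 (.leaf 8) (.leaf 4)))) (.bis 3 5 2 1 241 (.bis 2 4 1 2 234 (.bis 4 5 2 1 235 (.leaf 4)
  (.bis 1 4 1 4 249 (.bis 0 4 1 8 147 (.leaf 6) (.leaf 4)) (.leaf 4))) (.leaf 4)) (.bis 2 3 1 2
  242 (.bis 1 4 1 4 249 (.bis 3 4 1 1 84 (.bis 0 4 1 8 147 (.bis 4 6 4 1 244 (.leaf 2) (.leaf 6))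
  (.leaf 2)) (.leaf 2)) (.leaf 2)) (.bis 2 4 1 2 234 (.bis 1 4 1 4 249 (.bis 0 4 1 8 147 (.bis 4
  6 4 1 244 (.leaf 4) (.leaf 6)) (.leaf 4)) (.leaf 4)) (.leaf 4)))))) (.bis 0 4 1 4 143 (.bis 4 6
  2 1 144 (.bis 2 7 2 1 247 (.leaf 14) (.leaf 4)) (.bis 4 7 4 1 78 (.bis 2 7 2 1 247 (.leaf 14)
  (.leaf 4)) (.bis 2 4 1 2 234 (.bis 4 5 2 1 235 (.leaf 4) (.bis 1 4 1 4 249 (.leaf 6) (.leaf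
  4))) (.leaf 4)))) (.bis 2 7 2 1 247 (.leaf 14) (.leaf 4)))) (.bis 0 1 1 4 133 (.bis 1 6 2 1 134
  (.bis 3 6 2 1 131 (.bis 4 6 2 1 144 (.leaf 51) (.bis 4 7 4 1 78 (.leaf 51) (.bis 4 5 2 1 235
  (.leaf 4) (.bis 1 4 1 4 149 (.bis 0 4 1 8 150 (.bis 2 4 1 4 249 (.leaf 6) (.leaf 4)) (.leaf 4))
  (.leaf 4))))) (.bis 4 7 4 1 78 (.bis 3 5 2 1 241 (.leaf 51) (.bis 3 7 4 1 55 (.leaf 8) (.leaf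
  2))) (.bis 3 5 2 1 241 (.bis 4 5 2 1 235 (.leaf 4) (.bis 1 4 1 4 149 (.bis 0 4 1 8 150 (.bis 2
  4 1 4 249 (.bis 4 6 4 1 244 (.leaf 4) (.leaf 6)) (.leaf 4)) (.leaf 4)) (.leaf 4))) (.bis 1 4 1
  4 149 (.bis 0 4 1 8 150 (.bis 2 4 1 4 249 (.bis 3 4 1 1 84 (.leaf 6) (.leaf 2)) (.leaf 2))
  (.leaf 2)) (.bis 1 3 1 4 135 (.leaf 2) (.leaf 2)))))) (.bis 1 4 1 1 85 (.bis 4 7 4 1 78 (.bis 3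
  5 2 1 241 (.leaf 51) (.bis 3 7 4 1 55 (.leaf 8) (.leaf 2))) (.bis 3 5 2 1 241 (.bis 4 5 2 1 235
  (.leaf 51) (.bis 4 6 4 1 149 (.leaf 8) (.bis 0 4 1 8 150 (.bis 2 4 1 4 249 (.leaf 6) (.leaf 6))
  (.leaf 6)))) (.bis 4 6 4 1 149 (.leaf 2) (.bis 0 4 1 8 150 (.bis 2 4 1 4 249 (.leaf 6) (.leaf
  2)) (.leaf 2))))) (.bis 1 5 2 1 250 (.bis 3 5 2 1 241 (.leaf 51) (.bis 3 7 4 1 55 (.leaf 8)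
  (.leaf 73))) (.bis 3 7 4 1 55 (.leaf 7) (.leaf 7))))) (.bis 0 3 1 4 130 (.bis 3 6 2 1 131 (.bis
  4 6 2 1 144 (.leaf 14) (.bis 4 7 4 1 78 (.leaf 14) (.bis 4 5 2 1 235 (.leaf 4) (.bis 1 4 1 8
  150 (.bis 2 4 1 4 249 (.bis 0 4 1 8 147 (.leaf 6) (.leaf 4)) (.leaf 4)) (.leaf 4))))) (.bis 4 7
  4 1 78 (.bis 3 5 2 1 241 (.leaf 14) (.bis 3 7 4 1 55 (.leaf 8) (.leaf 2))) (.bis 3 5 2 1 241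
  (.bis 4 5 2 1 235 (.leaf 4) (.bis 1 4 1 8 150 (.bis 2 4 1 4 249 (.bis 0 4 1 8 147 (.bis 4 6 4 1
  244 (.leaf 4) (.leaf 6)) (.leaf 4)) (.leaf 4)) (.leaf 4))) (.bis 1 4 1 8 150 (.bis 2 4 1 4 249
  (.bis 3 4 1 1 84 (.bis 0 4 1 8 147 (.leaf 6) (.leaf 2)) (.leaf 2)) (.leaf 2)) (.leaf 2)))))
  (.bis 0 4 1 4 143 (.bis 4 6 2 1 144 (.leaf 14) (.bis 4 7 4 1 78 (.leaf 14) (.bis 4 5 2 1 235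
  (.leaf 4) (.bis 1 4 1 8 150 (.bis 2 4 1 4 249 (.leaf 6) (.leaf 4)) (.leaf 4))))) (.leaf
  14)))))))

def lc3 : List Vr := [⟨[73,0,0,0,0,146,0,79], 242360, 0⟩, ⟨[0,24,0,0,0,0,0,0], 10368, 0⟩, ⟨[0,0,
  28,0,0,73,0,0], 54338, 0⟩, ⟨[0,0,0,17,0,0,0,0], 10404, 0⟩, ⟨[0,0,0,0,28,0,0,0], 10976, 0⟩, ⟨[0,
  0,0,0,0,73,0,0], 10658, 0⟩, ⟨[0,0,0,0,0,73,42,0], 58034, 0⟩, ⟨[0,0,0,0,0,73,0,79], 45260, 0⟩]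

theorem lk3 : chkTr lowT (leafLow 3 lowB) lt3 lc3 = true := by decide +kernel

def lt4 : Tr ℕ := (.bis 2 7 2 1 88 (.bis 1 7 2 1 40 (.bis 3 7 2 1 54 (.bis 4 7 2 1 75 (.bis 5 7 1
  1 171 (.bis 6 7 1 1 125 (.leaf 30) (.bis 2 6 1 2 127 (.leaf 14) (.leaf 14))) (.bis 1 5 1 2 247
  (.bis 3 5 1 2 240 (.bis 4 5 1 2 233 (.bis 2 6 1 2 127 (.leaf 4) (.leaf 4)) (.bis 2 6 1 2 127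
  (.leaf 4) (.leaf 4))) (.bis 2 6 1 2 127 (.leaf 4) (.leaf 4))) (.bis 2 6 1 2 127 (.leaf 14)
  (.leaf 14)))) (.bis 0 4 1 4 143 (.bis 4 6 2 1 144 (.bis 1 5 1 2 247 (.bis 3 5 1 2 240 (.bis 5 7
  2 1 233 (.leaf 4) (.leaf 4)) (.leaf 4)) (.leaf 14)) (.bis 1 4 1 4 78 (.bis 2 4 1 4 95 (.bis 4 5
  2 1 234 (.bis 3 5 1 2 240 (.bis 5 7 2 1 233 (.leaf 4) (.leaf 4)) (.leaf 4)) (.bis 3 4 1 4 80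
  (.bis 4 7 4 1 251 (.leaf 14) (.leaf 6)) (.leaf 4))) (.bis 3 5 1 2 240 (.bis 5 7 2 1 233 (.leaf
  4) (.leaf 4)) (.leaf 4))) (.bis 1 5 1 2 247 (.bis 3 5 1 2 240 (.bis 5 7 2 1 233 (.leaf 4)
  (.leaf 4)) (.leaf 4)) (.leaf 8)))) (.bis 1 5 1 2 247 (.bis 3 5 1 2 240 (.bis 5 7 2 1 233 (.bis
  2 6 1 2 127 (.leaf 4) (.leaf 4)) (.bis 2 6 1 2 127 (.leaf 4) (.leaf 4))) (.bis 2 6 1 2 127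
  (.leaf 4) (.leaf 4))) (.bis 2 6 1 2 127 (.leaf 14) (.leaf 13))))) (.bis 0 3 1 4 130 (.bis 3 6 2
  1 131 (.bis 4 6 2 1 144 (.bis 1 5 1 2 247 (.bis 5 7 2 1 240 (.leaf 4) (.leaf 4)) (.leaf 14))
  (.bis 1 4 1 4 78 (.bis 2 4 1 4 95 (.bis 4 5 2 1 234 (.bis 5 7 2 1 240 (.leaf 4) (.leaf 4))
  (.bis 4 7 4 1 80 (.leaf 4) (.bis 0 4 1 8 147 (.leaf 6) (.leaf 4)))) (.bis 5 7 2 1 240 (.leaf 4)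
  (.bis 1 5 1 4 252 (.leaf 4) (.leaf 4)))) (.bis 1 5 1 2 247 (.bis 5 7 2 1 240 (.leaf 4) (.leaf
  4)) (.leaf 8)))) (.bis 1 4 1 4 78 (.bis 3 5 2 1 242 (.bis 2 4 1 4 95 (.bis 4 5 2 1 234 (.bis 5
  7 2 1 240 (.leaf 4) (.leaf 4)) (.bis 4 7 4 1 80 (.leaf 4) (.bis 0 4 1 8 147 (.bis 4 6 4 1 244
  (.leaf 4) (.leaf 6)) (.leaf 4)))) (.bis 5 7 2 1 240 (.leaf 4) (.leaf 4))) (.bis 2 4 1 4 95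
  (.bis 4 7 4 1 80 (.leaf 2) (.bis 3 4 1 1 84 (.bis 0 4 1 8 147 (.leaf 6) (.leaf 2)) (.leaf 2)))
  (.bis 2 3 1 4 94 (.leaf 2) (.leaf 2)))) (.bis 3 5 2 1 242 (.bis 1 5 1 2 247 (.bis 5 7 2 1 240
  (.leaf 4) (.leaf 4)) (.leaf 8)) (.bis 1 3 1 4 55 (.leaf 2) (.leaf 8))))) (.bis 0 4 1 4 143
  (.bis 4 6 2 1 144 (.bis 1 5 1 2 247 (.bis 5 7 2 1 240 (.leaf 4) (.leaf 4)) (.leaf 14)) (.bis 1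
  4 1 4 78 (.bis 2 4 1 4 95 (.bis 4 5 2 1 234 (.bis 5 7 2 1 240 (.leaf 4) (.leaf 4)) (.bis 4 7 4
  1 80 (.leaf 4) (.bis 3 4 1 8 147 (.leaf 6) (.leaf 4)))) (.bis 5 7 2 1 240 (.leaf 4) (.bis 1 5 1
  4 252 (.leaf 4) (.leaf 4)))) (.bis 1 5 1 2 247 (.bis 5 7 2 1 240 (.leaf 4) (.leaf 4)) (.leaf
  8)))) (.bis 1 5 1 2 247 (.bis 5 7 2 1 240 (.bis 2 6 1 2 127 (.leaf 4) (.leaf 4)) (.bis 2 6 1 2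
  127 (.leaf 4) (.leaf 4))) (.bis 2 6 1 2 127 (.leaf 14) (.leaf 13)))))) (.bis 1 5 2 1 248 (.bis
  0 3 1 4 130 (.bis 3 6 2 1 131 (.bis 4 6 2 1 144 (.bis 5 7 2 1 247 (.leaf 14) (.leaf 4)) (.bis 4
  7 4 1 78 (.bis 5 7 2 1 247 (.leaf 8) (.bis 4 5 1 4 252 (.leaf 4) (.leaf 4))) (.bis 2 4 1 4 95
  (.bis 4 5 2 1 234 (.leaf 4) (.bis 1 4 1 4 249 (.bis 0 4 1 8 147 (.leaf 6) (.leaf 4)) (.leaf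
  4))) (.bis 5 7 4 1 252 (.leaf 4) (.leaf 4))))) (.bis 4 7 4 1 78 (.bis 3 5 2 1 242 (.bis 5 7 2 1
  247 (.leaf 8) (.leaf 4)) (.bis 3 7 4 1 55 (.leaf 8) (.leaf 2))) (.bis 3 5 2 1 242 (.bis 2 4 1 4
  95 (.bis 4 5 2 1 234 (.leaf 4) (.bis 1 4 1 4 249 (.bis 0 4 1 8 147 (.leaf 6) (.leaf 4)) (.leaf
  4))) (.leaf 4)) (.bis 2 4 1 4 95 (.bis 1 4 1 4 249 (.bis 3 4 1 1 84 (.bis 0 4 1 8 147 (.leaf 6)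
  (.leaf 2)) (.leaf 2)) (.leaf 2)) (.leaf 2))))) (.bis 0 4 1 4 143 (.bis 4 6 2 1 144 (.bis 5 7 2
  1 247 (.leaf 14) (.leaf 4)) (.bis 4 7 4 1 78 (.bis 5 7 2 1 247 (.leaf 8) (.leaf 4)) (.bis 2 4 1
  4 95 (.bis 4 5 2 1 234 (.leaf 4) (.bis 1 4 1 4 249 (.leaf 6) (.leaf 4))) (.bis 5 7 4 1 252
  (.leaf 4) (.leaf 4))))) (.bis 5 7 2 1 247 (.bis 2 6 1 2 127 (.leaf 14) (.leaf 14)) (.bis 2 6 1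
  2 127 (.leaf 4) (.leaf 4))))) (.bis 0 1 1 4 133 (.bis 1 6 2 1 134 (.bis 3 6 2 1 131 (.bis 4 6 2
  1 144 (.leaf 20) (.bis 4 7 4 1 78 (.leaf 8) (.bis 2 4 1 4 95 (.bis 1 4 1 4 149 (.bis 0 4 1 8
  150 (.bis 4 5 4 1 249 (.leaf 4) (.leaf 6)) (.leaf 4)) (.leaf 4)) (.leaf 4)))) (.bis 4 7 4 1 78
  (.bis 3 7 4 1 55 (.leaf 8) (.bis 2 3 1 4 94 (.leaf 2) (.leaf 2))) (.bis 2 4 1 4 95 (.bis 1 4 1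
  4 149 (.bis 0 4 1 8 150 (.bis 4 5 4 1 249 (.leaf 2) (.bis 3 4 1 1 84 (.leaf 6) (.leaf 2)))
  (.bis 0 3 1 8 158 (.leaf 2) (.leaf 2))) (.bis 1 3 1 4 135 (.leaf 2) (.leaf 2))) (.bis 2 3 1 4
  94 (.leaf 2) (.leaf 2))))) (.bis 1 4 1 1 85 (.bis 4 7 4 1 78 (.bis 3 7 4 1 55 (.leaf 8) (.bis 2
  3 1 4 94 (.leaf 2) (.leaf 2))) (.bis 2 4 1 4 95 (.bis 4 6 4 1 149 (.bis 3 6 4 1 135 (.leaf 2)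
  (.leaf 2)) (.bis 0 4 1 8 150 (.bis 4 5 4 1 249 (.leaf 2) (.bis 3 4 1 1 84 (.leaf 6) (.leaf 2)))
  (.bis 0 3 1 8 158 (.leaf 2) (.leaf 2)))) (.bis 2 3 1 4 94 (.leaf 2) (.leaf 2)))) (.bis 1 2 4 1
  91 (.bis 3 7 4 1 55 (.leaf 8) (.leaf 2)) (.bis 3 7 4 1 55 (.leaf 7) (.leaf 7))))) (.bis 0 3 1 4
  130 (.bis 3 6 2 1 131 (.bis 4 6 2 1 144 (.leaf 14) (.bis 4 7 4 1 78 (.leaf 8) (.bis 2 4 1 4 95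
  (.bis 1 4 1 8 150 (.bis 4 5 4 1 249 (.leaf 4) (.bis 0 4 1 8 147 (.leaf 6) (.leaf 4))) (.leaf
  4)) (.leaf 4)))) (.bis 4 7 4 1 78 (.bis 3 7 4 1 55 (.leaf 8) (.bis 2 3 1 4 94 (.leaf 2) (.leaf
  2))) (.bis 2 4 1 4 95 (.bis 1 4 1 8 150 (.bis 4 5 4 1 249 (.leaf 2) (.bis 3 4 1 1 84 (.bis 0 4
  1 8 147 (.leaf 6) (.leaf 2)) (.leaf 2))) (.bis 1 3 1 8 158 (.leaf 2) (.leaf 2))) (.bis 2 3 1 4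
  94 (.leaf 2) (.leaf 2))))) (.bis 0 4 1 4 143 (.bis 4 6 2 1 144 (.leaf 14) (.bis 4 7 4 1 78
  (.leaf 8) (.bis 2 4 1 4 95 (.bis 1 4 1 8 150 (.bis 4 5 4 1 249 (.leaf 4) (.bis 3 4 1 8 147
  (.leaf 6) (.leaf 4))) (.leaf 4)) (.leaf 4)))) (.bis 2 6 1 2 127 (.leaf 14) (.leaf 14)))))))
  (.bis 2 6 2 1 156 (.bis 1 5 2 1 248 (.bis 0 3 1 4 130 (.bis 3 6 2 1 131 (.bis 4 6 2 1 144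
  (.leaf 4) (.bis 4 7 4 1 95 (.leaf 4) (.bis 4 5 2 1 234 (.leaf 4) (.bis 2 4 1 4 157 (.bis 1 4 1
  4 249 (.bis 0 4 1 8 147 (.leaf 6) (.leaf 4)) (.leaf 4)) (.leaf 4))))) (.bis 3 5 2 1 242 (.bis 4
  7 4 1 95 (.leaf 4) (.bis 4 5 2 1 234 (.leaf 4) (.bis 2 4 1 4 157 (.bis 1 4 1 4 249 (.bis 0 4 1
  8 147 (.leaf 6) (.leaf 4)) (.leaf 4)) (.leaf 4)))) (.bis 4 7 4 1 95 (.leaf 2) (.bis 2 4 1 4 157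
  (.bis 1 4 1 4 249 (.bis 3 4 1 1 84 (.bis 0 4 1 8 147 (.leaf 6) (.leaf 2)) (.leaf 2)) (.leaf 2))
  (.leaf 2))))) (.bis 0 4 1 4 143 (.bis 4 6 2 1 144 (.leaf 4) (.bis 4 7 4 1 95 (.leaf 4) (.bis 4
  5 2 1 234 (.leaf 4) (.bis 2 4 1 4 157 (.bis 1 4 1 4 249 (.leaf 6) (.leaf 4)) (.leaf 4)))))
  (.bis 6 7 2 1 127 (.leaf 4) (.leaf 4)))) (.bis 0 1 1 4 133 (.bis 1 6 2 1 134 (.bis 3 6 2 1 131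
  (.bis 4 6 2 1 144 (.leaf 4) (.bis 4 7 4 1 95 (.leaf 4) (.bis 1 4 1 4 149 (.bis 0 4 1 8 150
  (.bis 2 4 1 4 157 (.bis 4 5 4 1 249 (.leaf 4) (.leaf 6)) (.leaf 4)) (.leaf 4)) (.leaf 4))))
  (.bis 4 7 4 1 95 (.bis 3 7 4 1 94 (.leaf 2) (.leaf 2)) (.bis 1 4 1 4 149 (.bis 0 4 1 8 150
  (.bis 2 4 1 4 157 (.bis 4 5 4 1 249 (.leaf 2) (.leaf 6)) (.leaf 2)) (.bis 0 3 1 8 158 (.leaf 2)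
  (.leaf 2))) (.bis 1 3 1 4 135 (.leaf 2) (.leaf 2))))) (.bis 1 4 1 1 85 (.bis 4 7 4 1 95 (.bis 3
  7 4 1 94 (.leaf 2) (.leaf 2)) (.bis 4 6 4 1 149 (.leaf 2) (.bis 0 4 1 8 150 (.bis 2 4 1 4 157
  (.bis 4 5 4 1 249 (.leaf 2) (.leaf 6)) (.leaf 2)) (.leaf 2)))) (.bis 1 7 4 1 91 (.bis 3 7 4 1
  94 (.leaf 2) (.leaf 2)) (.leaf 7)))) (.bis 0 3 1 4 130 (.bis 3 6 2 1 131 (.bis 4 6 2 1 144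
  (.leaf 4) (.bis 4 7 4 1 95 (.leaf 4) (.bis 1 4 1 8 150 (.bis 2 4 1 4 157 (.bis 4 5 4 1 249
  (.leaf 4) (.bis 0 4 1 8 147 (.leaf 6) (.leaf 4))) (.leaf 4)) (.leaf 4)))) (.bis 4 7 4 1 95
  (.bis 3 7 4 1 94 (.leaf 2) (.leaf 2)) (.bis 1 4 1 8 150 (.bis 2 4 1 4 157 (.bis 4 5 4 1 249
  (.leaf 2) (.bis 3 4 1 1 84 (.leaf 6) (.leaf 2))) (.leaf 2)) (.leaf 2)))) (.bis 0 4 1 4 143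
  (.bis 4 6 2 1 144 (.leaf 4) (.bis 4 7 4 1 95 (.leaf 4) (.bis 1 4 1 8 150 (.bis 2 4 1 4 157
  (.bis 4 5 4 1 249 (.leaf 4) (.leaf 6)) (.leaf 4)) (.leaf 4)))) (.bis 6 7 2 1 127 (.leaf 4)
  (.leaf 4)))))) (.bis 1 5 2 1 248 (.bis 0 2 1 4 160 (.bis 2 4 1 1 110 (.bis 3 5 2 1 242 (.bis 4
  7 4 1 95 (.leaf 43) (.bis 4 5 2 1 234 (.leaf 43) (.bis 0 4 1 8 161 (.bis 4 6 4 1 157 (.leaf 6)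
  (.bis 1 4 1 4 249 (.leaf 6) (.leaf 6))) (.leaf 6)))) (.bis 4 7 4 1 95 (.leaf 2) (.bis 0 4 1 8
  161 (.bis 4 6 4 1 157 (.leaf 2) (.bis 1 4 1 4 249 (.leaf 6) (.leaf 2))) (.leaf 2)))) (.bis 2 5
  2 1 253 (.bis 3 5 2 1 242 (.leaf 43) (.bis 3 7 4 1 94 (.leaf 32) (.leaf 9))) (.bis 2 7 4 1 107
  (.bis 3 7 4 1 94 (.leaf 32) (.leaf 9)) (.bis 1 2 1 4 254 (.bis 2 3 1 1 120 (.leaf 9) (.leaf 9))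
  (.bis 0 3 1 8 163 (.leaf 9) (.leaf 9)))))) (.bis 0 3 1 4 130 (.bis 3 5 2 1 242 (.bis 4 7 4 1 95
  (.leaf 4) (.bis 4 5 2 1 234 (.leaf 4) (.bis 2 4 1 8 161 (.bis 4 6 4 1 157 (.leaf 4) (.bis 1 4 1
  4 249 (.bis 0 4 1 8 147 (.leaf 6) (.leaf 4)) (.leaf 4))) (.leaf 4)))) (.bis 4 7 4 1 95 (.bis 3
  7 4 1 94 (.leaf 2) (.leaf 2)) (.bis 2 4 1 8 161 (.bis 4 6 4 1 157 (.leaf 2) (.bis 1 4 1 4 249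
  (.bis 3 4 1 1 84 (.leaf 6) (.leaf 2)) (.leaf 2))) (.leaf 2)))) (.bis 0 4 1 4 143 (.bis 4 7 4 1
  95 (.leaf 4) (.bis 4 5 2 1 234 (.leaf 4) (.bis 2 4 1 8 161 (.bis 4 6 4 1 157 (.leaf 4) (.bis 1
  4 1 4 249 (.leaf 6) (.leaf 4))) (.leaf 4)))) (.leaf 4)))) (.bis 0 1 1 4 133 (.bis 2 4 1 1 110
  (.bis 1 4 1 1 85 (.bis 4 7 4 1 95 (.leaf 2) (.bis 0 4 1 8 150 (.bis 4 6 4 1 157 (.leaf 2)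
  (.leaf 6)) (.leaf 2))) (.bis 1 7 4 1 91 (.leaf 2) (.bis 1 2 2 1 111 (.leaf 2) (.leaf 7))))
  (.bis 1 2 1 1 104 (.bis 0 2 1 8 159 (.bis 2 7 4 1 107 (.leaf 2) (.bis 2 5 4 1 254 (.leaf 2)
  (.leaf 9))) (.leaf 2)) (.bis 1 7 4 1 91 (.leaf 2) (.bis 1 4 2 1 111 (.leaf 2) (.leaf 7)))))
  (.bis 0 2 1 4 160 (.bis 2 4 1 1 110 (.bis 4 7 4 1 95 (.bis 3 7 4 1 94 (.leaf 2) (.leaf 2))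
  (.bis 0 4 1 8 161 (.bis 1 4 1 8 150 (.bis 4 6 4 1 157 (.leaf 2) (.bis 4 5 4 1 249 (.leaf 2)
  (.leaf 6))) (.leaf 2)) (.leaf 2))) (.bis 1 2 1 8 159 (.bis 2 7 4 1 107 (.bis 3 7 4 1 94 (.leaf
  2) (.leaf 2)) (.bis 2 5 4 1 254 (.leaf 2) (.bis 2 3 1 1 120 (.leaf 2) (.leaf 9)))) (.bis 3 7 4
  1 94 (.leaf 2) (.leaf 2)))) (.bis 0 3 1 4 130 (.bis 4 7 4 1 95 (.bis 3 7 4 1 94 (.leaf 2)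
  (.leaf 2)) (.bis 2 4 1 8 161 (.bis 1 4 1 8 150 (.bis 4 6 4 1 157 (.leaf 2) (.bis 4 5 4 1 249
  (.leaf 2) (.bis 3 4 1 1 84 (.leaf 6) (.leaf 2)))) (.bis 1 3 1 8 158 (.leaf 2) (.leaf 2))) (.bis
  2 3 1 8 163 (.leaf 2) (.leaf 2)))) (.bis 0 4 1 4 143 (.bis 4 7 4 1 95 (.leaf 4) (.bis 2 4 1 8
  161 (.bis 1 4 1 8 150 (.bis 4 6 4 1 157 (.leaf 4) (.bis 4 5 4 1 249 (.leaf 4) (.leaf 6)))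
  (.leaf 4)) (.leaf 4))) (.leaf 4))))))))

def lc4 : List Vr := [⟨[73,0,0,0,0,146,0,79], 242360, 0⟩, ⟨[0,24,0,0,0,0,0,0], 10368, 0⟩, ⟨[0,0,
  28,0,0,0,0,0], 10976, 0⟩, ⟨[0,0,0,17,0,0,0,0], 10404, 0⟩, ⟨[0,0,0,0,28,0,0,0], 10976, 0⟩, ⟨[0,0,
  28,0,0,73,0,0], 54338, 0⟩, ⟨[0,0,0,0,0,73,42,0], 58034, 0⟩, ⟨[0,0,0,0,0,73,0,79], 45260, 0⟩]

theorem lk4 : chkTr lowT (leafLow 3 lowB) lt4 lc4 = true := by decide +kernel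

def lt5 : Tr ℕ := (.bis 2 7 2 1 88 (.bis 4 6 1 1 61 (.bis 6 7 2 1 17 (.bis 1 7 2 1 40 (.bis 3 7 2
  1 54 (.bis 4 7 1 1 70 (.bis 0 7 1 2 72 (.bis 5 6 1 1 126 (.leaf 24) (.leaf 30)) (.bis 0 6 1 1
  65 (.bis 5 6 1 1 126 (.leaf 3) (.leaf 13)) (.leaf 13))) (.bis 4 5 2 1 128 (.bis 0 6 1 1 65
  (.leaf 30) (.leaf 13)) (.bis 0 6 1 1 65 (.bis 2 4 1 2 93 (.bis 3 4 1 2 255 (.leaf 3) (.leaf 3))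
  (.leaf 3)) (.bis 2 4 1 2 93 (.leaf 3) (.leaf 3))))) (.bis 3 6 4 1 48 (.bis 4 5 2 1 128 (.leaf
  68) (.bis 0 6 1 1 65 (.bis 2 4 1 2 93 (.leaf 3) (.leaf 3)) (.bis 2 4 1 2 93 (.leaf 3) (.leaf
  3)))) (.bis 3 5 4 1 130 (.bis 4 5 2 1 128 (.leaf 13) (.bis 2 4 1 2 93 (.leaf 8) (.leaf 8)))
  (.bis 1 3 1 4 55 (.bis 2 4 1 2 93 (.bis 0 3 1 4 69 (.leaf 2) (.leaf 2)) (.bis 0 3 1 4 69 (.bis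
  2 3 1 4 94 (.leaf 2) (.leaf 2)) (.leaf 2))) (.bis 2 4 1 2 93 (.leaf 8) (.leaf 8)))))) (.bis 1 5
  4 1 133 (.bis 3 6 4 1 48 (.bis 4 5 2 1 128 (.leaf 68) (.leaf 3)) (.bis 3 5 4 1 130 (.bis 4 5 2
  1 128 (.leaf 13) (.bis 2 4 1 2 93 (.leaf 8) (.leaf 8))) (.bis 3 7 4 1 55 (.bis 2 4 1 2 93
  (.leaf 8) (.leaf 8)) (.bis 2 4 1 2 93 (.bis 0 3 1 4 69 (.leaf 2) (.leaf 2)) (.bis 0 3 1 4 69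
  (.bis 2 3 1 4 94 (.leaf 2) (.leaf 2)) (.leaf 2)))))) (.bis 3 6 4 1 48 (.bis 1 6 4 1 34 (.leaf
  3) (.bis 0 1 1 4 66 (.bis 1 2 4 1 91 (.leaf 3) (.leaf 7)) (.leaf 3))) (.bis 0 1 1 4 66 (.bis 1
  2 4 1 91 (.bis 3 7 4 1 55 (.leaf 3) (.bis 2 4 1 2 93 (.bis 3 4 2 1 68 (.leaf 2) (.leaf 2))
  (.bis 2 3 1 4 94 (.leaf 2) (.leaf 2)))) (.bis 3 7 4 1 55 (.leaf 7) (.leaf 7))) (.bis 3 7 4 1 55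
  (.leaf 3) (.bis 2 4 1 2 93 (.bis 0 3 1 4 69 (.leaf 2) (.leaf 2)) (.bis 0 3 1 4 69 (.bis 2 3 1 4
  94 (.leaf 2) (.leaf 2)) (.leaf 2)))))))) (.bis 5 6 1 4 137 (.bis 3 6 1 1 43 (.bis 0 6 1 4 62
  (.bis 2 6 1 4 89 (.bis 1 6 1 1 30 (.bis 5 6 1 8 139 (.bis 4 6 1 2 63 (.bis 6 7 4 1 23 (.leaf
  11) (.bis 0 6 1 8 64 (.bis 2 6 1 8 90 (.leaf 25) (.leaf 11)) (.leaf 11))) (.leaf 11)) (.leaf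
  11)) (.bis 1 7 4 1 34 (.leaf 11) (.bis 1 5 8 1 141 (.leaf 11) (.bis 0 1 1 8 98 (.leaf 22)
  (.leaf 11))))) (.bis 1 7 4 1 34 (.leaf 3) (.bis 1 2 4 1 91 (.leaf 3) (.bis 1 5 8 1 141 (.leaf
  3) (.bis 0 1 1 8 98 (.leaf 7) (.leaf 3)))))) (.bis 1 7 4 1 34 (.bis 0 7 1 1 65 (.leaf 3) (.leaf
  3)) (.bis 0 1 1 4 66 (.bis 1 2 4 1 91 (.leaf 3) (.bis 1 5 8 1 141 (.leaf 3) (.leaf 7))) (.leaf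
  3)))) (.bis 3 7 4 1 48 (.bis 1 7 4 1 34 (.bis 0 7 1 1 65 (.leaf 3) (.leaf 3)) (.bis 0 1 1 4 66
  (.bis 1 2 4 1 91 (.leaf 3) (.leaf 22)) (.leaf 3))) (.bis 0 1 1 4 66 (.bis 1 2 4 1 91 (.bis 3 5
  8 1 142 (.leaf 3) (.bis 2 6 1 2 92 (.bis 3 4 2 1 68 (.leaf 3) (.leaf 7)) (.bis 2 4 1 2 93 (.bis
  3 4 2 1 68 (.leaf 2) (.leaf 2)) (.bis 2 3 1 4 94 (.leaf 2) (.leaf 2))))) (.bis 3 5 8 1 142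
  (.bis 1 5 8 1 141 (.leaf 3) (.leaf 7)) (.leaf 7))) (.bis 3 5 8 1 142 (.leaf 3) (.bis 0 6 1 2 67
  (.bis 2 6 1 2 92 (.bis 3 4 2 1 68 (.leaf 3) (.leaf 7)) (.bis 2 4 1 2 93 (.bis 3 4 2 1 68 (.leaf
  2) (.leaf 2)) (.bis 2 3 1 4 94 (.leaf 2) (.leaf 2)))) (.bis 2 4 1 2 93 (.bis 0 3 1 4 69 (.leaf
  2) (.leaf 2)) (.bis 0 3 1 4 69 (.bis 2 3 1 4 94 (.leaf 2) (.leaf 2)) (.leaf 2)))))))) (.bis 1 5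
  4 1 133 (.bis 3 7 4 1 48 (.bis 4 5 2 1 128 (.leaf 68) (.leaf 3)) (.bis 3 5 4 1 130 (.bis 4 5 2
  1 128 (.leaf 13) (.leaf 8)) (.bis 3 6 8 1 142 (.leaf 8) (.bis 2 4 1 2 93 (.bis 0 3 1 4 69
  (.leaf 2) (.leaf 2)) (.bis 0 3 1 4 69 (.bis 2 3 1 4 94 (.leaf 2) (.leaf 2)) (.leaf 2))))))
  (.bis 3 7 4 1 48 (.bis 1 7 4 1 34 (.leaf 3) (.bis 0 1 1 4 66 (.bis 1 2 4 1 91 (.leaf 3) (.leaf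
  22)) (.leaf 3))) (.bis 0 1 1 4 66 (.bis 1 2 4 1 91 (.bis 3 6 8 1 142 (.leaf 3) (.bis 2 4 1 2 93
  (.bis 3 4 2 1 68 (.leaf 2) (.leaf 2)) (.bis 2 3 1 4 94 (.leaf 2) (.leaf 2)))) (.bis 3 6 8 1 142
  (.bis 1 6 8 1 141 (.leaf 3) (.leaf 7)) (.leaf 7))) (.bis 3 6 8 1 142 (.leaf 3) (.bis 2 4 1 2 93
  (.bis 0 3 1 4 69 (.leaf 2) (.leaf 2)) (.bis 0 3 1 4 69 (.bis 2 3 1 4 94 (.leaf 2) (.leaf 2))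
  (.leaf 2))))))))) (.bis 1 7 2 1 40 (.bis 3 7 2 1 54 (.bis 4 7 2 1 75 (.bis 6 7 1 1 70 (.bis 0 7
  1 2 72 (.leaf 30) (.bis 0 5 1 1 256 (.leaf 13) (.leaf 8))) (.bis 5 6 1 2 128 (.bis 2 6 1 2 93
  (.bis 4 6 1 2 83 (.leaf 3) (.leaf 8)) (.leaf 8)) (.bis 0 5 1 1 256 (.leaf 13) (.leaf 8))))
  (.bis 4 5 4 1 143 (.bis 5 6 1 2 128 (.bis 2 6 1 2 93 (.bis 4 6 1 4 145 (.leaf 8) (.leaf 8))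
  (.leaf 8)) (.leaf 13)) (.bis 1 4 1 4 78 (.bis 2 4 1 4 95 (.bis 3 4 1 4 80 (.bis 0 4 1 4 81
  (.bis 4 6 2 1 82 (.bis 5 6 1 4 145 (.leaf 8) (.leaf 8)) (.leaf 54)) (.bis 5 6 1 4 145 (.leaf 8)
  (.leaf 8))) (.bis 5 6 1 4 145 (.bis 6 7 2 1 83 (.leaf 8) (.leaf 2)) (.leaf 8))) (.bis 2 6 1 2
  93 (.bis 5 6 1 4 145 (.leaf 8) (.leaf 8)) (.leaf 8))) (.bis 2 6 1 2 93 (.bis 5 6 1 4 145 (.leaf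
  8) (.leaf 8)) (.leaf 8))))) (.bis 3 5 4 1 130 (.bis 4 5 4 1 143 (.bis 5 6 1 2 128 (.bis 2 6 1 2
  93 (.bis 4 6 1 4 145 (.leaf 8) (.leaf 8)) (.leaf 8)) (.leaf 13)) (.bis 1 4 1 4 78 (.bis 2 4 1 4
  95 (.bis 4 7 4 1 80 (.bis 5 6 1 4 145 (.bis 3 6 1 4 146 (.leaf 2) (.leaf 2)) (.leaf 8)) (.bis 0
  4 1 4 81 (.bis 4 6 2 1 82 (.bis 5 6 1 4 145 (.leaf 2) (.leaf 6)) (.leaf 6)) (.bis 5 6 1 4 145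
  (.leaf 2) (.leaf 8)))) (.bis 2 6 1 2 93 (.bis 5 6 1 4 145 (.leaf 2) (.leaf 8)) (.leaf 8)))
  (.bis 2 6 1 2 93 (.bis 5 6 1 4 145 (.leaf 8) (.leaf 8)) (.leaf 8)))) (.bis 1 4 1 4 78 (.bis 2 4
  1 4 95 (.bis 4 7 4 1 80 (.bis 0 3 1 4 69 (.bis 3 6 2 1 68 (.leaf 2) (.leaf 2)) (.bis 5 6 1 4
  146 (.leaf 2) (.leaf 2))) (.bis 0 4 1 4 81 (.bis 4 6 2 1 82 (.bis 3 6 2 1 68 (.leaf 2) (.leaf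
  2)) (.bis 3 4 1 1 84 (.leaf 6) (.leaf 2))) (.bis 0 3 1 4 69 (.bis 3 6 2 1 68 (.leaf 2) (.leaf
  2)) (.bis 5 6 1 4 146 (.leaf 2) (.leaf 2))))) (.bis 2 6 1 2 93 (.bis 0 3 1 4 69 (.bis 3 6 2 1
  68 (.leaf 2) (.leaf 2)) (.leaf 2)) (.bis 0 3 1 4 69 (.bis 2 3 1 4 94 (.leaf 2) (.leaf 2))
  (.leaf 2)))) (.bis 1 3 1 4 55 (.bis 2 6 1 2 93 (.bis 0 3 1 4 69 (.leaf 2) (.leaf 2)) (.bis 0 3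
  1 4 69 (.bis 2 3 1 4 94 (.leaf 2) (.leaf 2)) (.leaf 2))) (.bis 2 6 1 2 93 (.leaf 8) (.leaf
  8)))))) (.bis 1 5 4 1 133 (.bis 3 5 4 1 130 (.bis 4 5 4 1 143 (.bis 5 6 1 2 128 (.bis 2 6 1 2
  93 (.bis 4 6 1 4 145 (.leaf 8) (.leaf 8)) (.leaf 8)) (.leaf 13)) (.bis 4 7 4 1 78 (.bis 2 6 1 2
  93 (.bis 5 6 1 4 145 (.leaf 8) (.leaf 8)) (.leaf 8)) (.bis 2 4 1 4 95 (.bis 1 4 1 8 150 (.bis 0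
  4 1 4 81 (.bis 4 6 2 1 82 (.bis 5 6 1 4 145 (.leaf 2) (.leaf 6)) (.leaf 6)) (.bis 5 6 1 4 145
  (.leaf 2) (.leaf 8))) (.bis 5 6 1 4 145 (.leaf 2) (.leaf 8))) (.bis 2 6 1 2 93 (.bis 5 6 1 4
  145 (.leaf 2) (.leaf 8)) (.leaf 8))))) (.bis 4 7 4 1 78 (.bis 3 7 4 1 55 (.bis 2 6 1 2 93
  (.leaf 8) (.leaf 8)) (.bis 2 6 1 2 93 (.bis 0 3 1 4 69 (.leaf 2) (.leaf 2)) (.bis 0 3 1 4 69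
  (.bis 2 3 1 4 94 (.leaf 2) (.leaf 2)) (.leaf 2)))) (.bis 2 4 1 4 95 (.bis 1 4 1 8 150 (.bis 0 4
  1 4 81 (.bis 4 6 2 1 82 (.bis 3 6 2 1 68 (.leaf 2) (.leaf 2)) (.bis 3 4 1 1 84 (.leaf 6) (.leaf
  2))) (.bis 0 3 1 4 69 (.bis 3 6 2 1 68 (.leaf 2) (.leaf 2)) (.bis 5 6 1 4 146 (.leaf 2) (.leaf
  2)))) (.bis 0 3 1 4 69 (.bis 3 6 2 1 68 (.leaf 2) (.leaf 2)) (.bis 5 6 1 4 146 (.leaf 2) (.leaf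
  2)))) (.bis 2 6 1 2 93 (.bis 0 3 1 4 69 (.leaf 2) (.leaf 2)) (.bis 0 3 1 4 69 (.bis 2 3 1 4 94
  (.leaf 2) (.leaf 2)) (.leaf 2)))))) (.bis 1 4 1 1 85 (.bis 4 7 4 1 78 (.bis 3 7 4 1 55 (.leaf
  8) (.bis 2 6 1 2 93 (.bis 0 3 1 4 69 (.leaf 2) (.leaf 2)) (.bis 0 3 1 4 69 (.leaf 2) (.leaf
  2)))) (.bis 2 4 1 4 95 (.bis 4 5 8 1 150 (.bis 0 3 1 4 69 (.leaf 2) (.leaf 2)) (.bis 0 4 1 4 81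
  (.bis 4 6 2 1 82 (.bis 3 6 2 1 68 (.leaf 2) (.leaf 2)) (.bis 3 4 1 1 84 (.leaf 6) (.leaf 2)))
  (.bis 0 3 1 4 69 (.leaf 2) (.leaf 2)))) (.bis 2 6 1 2 93 (.bis 0 3 1 4 69 (.leaf 2) (.leaf 2))
  (.bis 0 3 1 4 69 (.leaf 2) (.leaf 2))))) (.bis 0 1 1 4 66 (.bis 1 2 4 1 91 (.bis 3 7 4 1 55
  (.leaf 8) (.leaf 2)) (.bis 3 7 4 1 55 (.leaf 7) (.leaf 7))) (.bis 3 7 4 1 55 (.leaf 8) (.bis 2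
  6 1 2 93 (.leaf 2) (.bis 0 3 1 4 69 (.leaf 2) (.leaf 2))))))))) (.bis 2 6 1 1 97 (.bis 4 6 1 1
  61 (.bis 5 6 1 4 137 (.bis 3 6 1 1 43 (.bis 0 6 1 4 62 (.bis 6 7 4 1 89 (.bis 1 7 4 1 91 (.leaf
  3) (.bis 1 5 8 1 141 (.leaf 3) (.bis 0 1 1 8 98 (.leaf 7) (.leaf 3)))) (.bis 1 6 1 1 30 (.bis 5
  6 1 8 139 (.bis 2 6 1 2 99 (.bis 4 6 1 2 63 (.bis 0 6 1 8 64 (.bis 6 7 8 1 90 (.leaf 11) (.bis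
  3 6 1 2 44 (.leaf 25) (.leaf 11))) (.leaf 11)) (.leaf 11)) (.leaf 11)) (.leaf 11)) (.bis 1 5 8
  1 141 (.leaf 11) (.bis 0 1 1 8 98 (.leaf 22) (.leaf 11))))) (.bis 0 1 1 4 66 (.bis 1 7 4 1 91
  (.leaf 3) (.bis 1 5 8 1 141 (.leaf 3) (.leaf 7))) (.leaf 3))) (.bis 0 1 1 4 66 (.bis 1 7 4 1 91
  (.bis 3 5 8 1 142 (.leaf 3) (.bis 6 7 2 1 92 (.bis 4 7 2 1 93 (.bis 3 7 4 1 94 (.leaf 2) (.leaf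
  2)) (.bis 2 3 1 2 100 (.leaf 2) (.leaf 2))) (.bis 2 3 1 2 100 (.leaf 7) (.leaf 3)))) (.bis 3 5
  8 1 142 (.bis 1 5 8 1 141 (.leaf 3) (.leaf 7)) (.leaf 7))) (.bis 3 5 8 1 142 (.leaf 3) (.bis 0
  6 1 2 67 (.bis 6 7 2 1 92 (.bis 4 7 2 1 93 (.bis 3 7 4 1 94 (.leaf 2) (.leaf 2)) (.bis 2 3 1 2
  100 (.leaf 2) (.leaf 2))) (.bis 2 3 1 2 100 (.leaf 7) (.leaf 3))) (.bis 0 2 1 2 101 (.bis 4 7 2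
  1 93 (.bis 3 7 4 1 94 (.leaf 2) (.leaf 2)) (.bis 2 3 1 2 100 (.leaf 2) (.leaf 2))) (.bis 4 7 2
  1 93 (.bis 0 3 1 4 69 (.bis 3 7 4 1 94 (.leaf 2) (.leaf 2)) (.leaf 2)) (.bis 0 3 1 4 69 (.leaf
  2) (.leaf 2)))))))) (.bis 1 5 4 1 133 (.bis 2 5 2 1 153 (.bis 3 5 4 1 130 (.bis 4 5 2 1 128
  (.leaf 13) (.bis 4 7 2 1 93 (.leaf 8) (.leaf 8))) (.bis 3 6 8 1 142 (.leaf 8) (.bis 4 7 2 1 93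
  (.bis 0 3 1 4 69 (.bis 3 7 4 1 94 (.leaf 2) (.leaf 2)) (.leaf 2)) (.bis 0 3 1 4 69 (.bis 3 4 2
  1 68 (.leaf 2) (.leaf 2)) (.leaf 2))))) (.bis 3 6 8 1 142 (.leaf 3) (.bis 0 2 1 2 101 (.bis 4 7
  2 1 93 (.bis 3 7 4 1 94 (.leaf 2) (.bis 2 3 1 2 100 (.leaf 2) (.leaf 2))) (.bis 2 3 1 2 100
  (.bis 3 4 2 1 68 (.leaf 2) (.leaf 2)) (.leaf 2))) (.bis 4 7 2 1 93 (.bis 0 3 1 4 69 (.bis 3 7 4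
  1 94 (.leaf 2) (.leaf 2)) (.leaf 2)) (.bis 0 3 1 4 69 (.bis 3 4 2 1 68 (.leaf 2) (.leaf 2))
  (.leaf 2)))))) (.bis 0 1 1 4 66 (.bis 1 7 4 1 91 (.bis 3 6 8 1 142 (.leaf 3) (.bis 4 7 2 1 93
  (.bis 3 7 4 1 94 (.leaf 2) (.leaf 2)) (.bis 2 3 1 2 100 (.leaf 2) (.leaf 2)))) (.bis 3 6 8 1
  142 (.bis 1 6 8 1 141 (.leaf 3) (.leaf 7)) (.leaf 7))) (.bis 3 6 8 1 142 (.leaf 3) (.bis 0 2 1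
  2 101 (.bis 4 7 2 1 93 (.bis 3 7 4 1 94 (.leaf 2) (.leaf 2)) (.bis 2 3 1 2 100 (.leaf 2) (.leaf
  2))) (.bis 4 7 2 1 93 (.bis 0 3 1 4 69 (.bis 3 7 4 1 94 (.leaf 2) (.leaf 2)) (.leaf 2)) (.bis 0
  3 1 4 69 (.leaf 2) (.leaf 2)))))))) (.bis 1 5 4 1 133 (.bis 2 5 2 1 153 (.bis 3 5 4 1 130 (.bis
  4 5 4 1 143 (.bis 5 6 1 2 128 (.bis 6 7 2 1 93 (.leaf 8) (.bis 4 6 1 4 145 (.leaf 2) (.leaf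
  8))) (.leaf 13)) (.bis 4 7 4 1 95 (.bis 6 7 2 1 93 (.leaf 8) (.bis 5 6 1 4 145 (.leaf 2) (.leaf
  8))) (.bis 2 4 1 8 155 (.bis 1 4 1 8 150 (.bis 0 4 1 4 81 (.bis 4 6 2 1 82 (.bis 5 6 1 4 145
  (.leaf 2) (.leaf 6)) (.leaf 6)) (.bis 5 6 1 4 145 (.leaf 2) (.leaf 8))) (.bis 5 6 1 4 145
  (.leaf 2) (.leaf 8))) (.bis 5 6 1 4 145 (.leaf 2) (.leaf 8))))) (.bis 4 7 4 1 95 (.bis 6 7 2 1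
  93 (.bis 0 3 1 4 69 (.bis 3 7 4 1 94 (.leaf 2) (.leaf 2)) (.leaf 2)) (.bis 0 3 1 4 69 (.bis 3 6
  2 1 68 (.leaf 2) (.leaf 2)) (.leaf 2))) (.bis 2 4 1 8 155 (.bis 1 4 1 8 150 (.bis 0 4 1 4 81
  (.bis 4 6 2 1 82 (.bis 3 6 2 1 68 (.leaf 2) (.leaf 2)) (.bis 3 4 1 1 84 (.leaf 6) (.leaf 2)))
  (.bis 0 3 1 4 69 (.bis 3 6 2 1 68 (.leaf 2) (.leaf 2)) (.bis 5 6 1 4 146 (.leaf 2) (.leaf 2))))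
  (.bis 0 3 1 4 69 (.bis 3 6 2 1 68 (.leaf 2) (.leaf 2)) (.bis 5 6 1 4 146 (.leaf 2) (.leaf 2))))
  (.bis 0 3 1 4 69 (.bis 3 6 2 1 68 (.leaf 2) (.leaf 2)) (.bis 5 6 1 4 146 (.leaf 2) (.leaf
  2)))))) (.bis 2 4 1 2 103 (.bis 4 7 4 1 95 (.bis 6 7 2 1 93 (.bis 0 3 1 4 69 (.bis 3 7 4 1 94
  (.leaf 2) (.leaf 2)) (.leaf 2)) (.bis 0 3 1 4 69 (.bis 3 6 2 1 68 (.leaf 2) (.leaf 2)) (.leaf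
  2))) (.bis 4 5 8 1 155 (.bis 0 3 1 4 69 (.leaf 2) (.leaf 2)) (.bis 1 4 1 8 150 (.bis 0 4 1 4 81
  (.bis 4 6 2 1 82 (.bis 3 6 2 1 68 (.leaf 2) (.leaf 2)) (.bis 3 4 1 1 84 (.leaf 6) (.leaf 2)))
  (.bis 0 3 1 4 69 (.leaf 2) (.leaf 2))) (.bis 0 3 1 4 69 (.leaf 2) (.leaf 2))))) (.bis 0 2 1 2
  101 (.bis 6 7 2 1 93 (.bis 3 7 4 1 94 (.leaf 2) (.bis 2 3 1 2 100 (.leaf 2) (.leaf 2))) (.bis 2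
  3 1 2 100 (.bis 3 6 2 1 68 (.leaf 2) (.leaf 2)) (.leaf 2))) (.bis 6 7 2 1 93 (.bis 0 3 1 4 69
  (.bis 3 7 4 1 94 (.leaf 2) (.leaf 2)) (.leaf 2)) (.bis 0 3 1 4 69 (.bis 3 6 2 1 68 (.leaf 2)
  (.leaf 2)) (.leaf 2)))))) (.bis 2 4 1 2 103 (.bis 1 4 1 1 85 (.bis 4 7 4 1 95 (.bis 6 7 2 1 93
  (.bis 0 3 1 4 69 (.leaf 2) (.leaf 2)) (.bis 0 3 1 4 69 (.leaf 2) (.leaf 2))) (.bis 4 5 8 1 150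
  (.leaf 2) (.bis 0 4 1 4 81 (.leaf 92) (.leaf 2)))) (.bis 0 1 1 4 66 (.bis 1 7 4 1 91 (.leaf 2)
  (.leaf 7)) (.bis 6 7 2 1 93 (.bis 0 3 1 4 69 (.leaf 2) (.leaf 2)) (.bis 0 3 1 4 69 (.leaf 2)
  (.leaf 2))))) (.bis 0 1 1 4 66 (.bis 1 7 4 1 91 (.bis 6 7 2 1 93 (.bis 3 7 4 1 94 (.leaf 2)
  (.leaf 2)) (.bis 2 3 1 2 100 (.leaf 2) (.leaf 2))) (.leaf 7)) (.bis 0 2 1 2 101 (.bis 6 7 2 1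
  93 (.bis 3 7 4 1 94 (.leaf 2) (.leaf 2)) (.bis 2 3 1 2 100 (.leaf 2) (.leaf 2))) (.bis 6 7 2 1
  93 (.bis 0 3 1 4 69 (.bis 3 7 4 1 94 (.leaf 2) (.leaf 2)) (.leaf 2)) (.bis 0 3 1 4 69 (.leaf 2)
  (.leaf 2)))))))) (.bis 1 5 4 1 133 (.bis 2 5 4 1 160 (.bis 5 6 1 2 153 (.bis 4 6 2 1 103 (.bis
  0 6 1 2 101 (.bis 3 7 4 1 94 (.leaf 2) (.bis 3 6 2 1 100 (.leaf 2) (.leaf 2))) (.bis 0 3 1 4 69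
  (.bis 3 7 4 1 94 (.leaf 2) (.leaf 2)) (.leaf 2))) (.bis 4 7 4 1 95 (.bis 0 3 1 4 69 (.bis 3 7 4
  1 94 (.leaf 2) (.leaf 2)) (.leaf 2)) (.bis 4 5 8 1 155 (.bis 0 3 1 4 69 (.leaf 2) (.leaf 2))
  (.bis 2 4 1 8 161 (.bis 1 4 1 8 150 (.bis 0 4 1 4 81 (.bis 3 4 1 1 84 (.leaf 6) (.leaf 2))
  (.bis 0 3 1 4 69 (.leaf 2) (.leaf 2))) (.bis 0 3 1 4 69 (.leaf 2) (.leaf 2))) (.bis 0 3 1 4 69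
  (.leaf 2) (.leaf 2)))))) (.bis 3 5 4 1 130 (.bis 4 5 4 1 143 (.leaf 13) (.bis 4 7 4 1 95 (.leaf
  8) (.bis 4 6 8 1 155 (.leaf 8) (.bis 2 4 1 8 161 (.bis 1 4 1 8 150 (.bis 0 4 1 4 81 (.bis 3 4 1
  8 147 (.leaf 6) (.leaf 6)) (.leaf 8)) (.leaf 8)) (.leaf 8))))) (.bis 4 7 4 1 95 (.bis 0 3 1 4
  69 (.bis 3 7 4 1 94 (.leaf 2) (.leaf 2)) (.leaf 2)) (.bis 4 6 8 1 155 (.bis 0 3 1 4 69 (.bis 3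
  6 8 1 154 (.leaf 2) (.leaf 2)) (.leaf 2)) (.bis 2 4 1 8 161 (.bis 1 4 1 8 150 (.bis 0 4 1 4 81
  (.bis 3 4 1 1 84 (.leaf 6) (.leaf 2)) (.bis 0 3 1 4 69 (.leaf 2) (.leaf 2))) (.bis 0 3 1 4 69
  (.leaf 2) (.leaf 2))) (.bis 0 3 1 4 69 (.leaf 2) (.leaf 2))))))) (.bis 2 4 1 1 110 (.bis 4 6 2
  1 103 (.bis 0 6 1 2 101 (.leaf 2) (.bis 0 3 1 4 69 (.leaf 2) (.leaf 2))) (.bis 4 7 4 1 95 (.bis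
  0 3 1 4 69 (.leaf 2) (.leaf 2)) (.bis 4 5 8 1 161 (.leaf 2) (.bis 1 4 1 8 150 (.bis 0 4 1 4 81
  (.leaf 6) (.leaf 2)) (.leaf 2))))) (.bis 1 2 1 8 159 (.bis 0 2 1 4 105 (.bis 2 7 4 1 107 (.bis
  3 7 4 1 94 (.bis 4 6 1 1 112 (.bis 5 6 1 4 162 (.leaf 2) (.leaf 2)) (.leaf 2)) (.bis 4 6 1 1
  112 (.leaf 2) (.leaf 2))) (.bis 2 6 2 1 109 (.bis 4 6 1 1 112 (.bis 3 6 2 1 100 (.leaf 2)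
  (.leaf 2)) (.leaf 2)) (.bis 2 3 1 1 120 (.leaf 2) (.leaf 9)))) (.bis 0 6 1 2 101 (.bis 3 7 4 1
  94 (.bis 4 6 1 1 112 (.leaf 2) (.leaf 2)) (.bis 4 6 1 1 112 (.leaf 2) (.leaf 2))) (.bis 0 3 1 4
  69 (.leaf 2) (.leaf 2)))) (.bis 0 6 1 2 101 (.bis 3 7 4 1 94 (.bis 4 6 1 1 112 (.leaf 2) (.leaf
  2)) (.bis 4 6 1 1 112 (.leaf 2) (.leaf 2))) (.bis 0 3 1 4 69 (.leaf 2) (.leaf 2)))))) (.bis 2 4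
  1 1 110 (.bis 4 6 2 1 103 (.bis 0 1 1 4 66 (.bis 1 7 4 1 91 (.leaf 2) (.bis 1 2 2 1 111 (.leaf
  2) (.leaf 7))) (.bis 0 6 1 2 101 (.leaf 2) (.bis 0 3 1 4 69 (.leaf 2) (.leaf 2)))) (.bis 1 4 1
  1 85 (.bis 4 7 4 1 95 (.leaf 2) (.bis 4 5 8 1 150 (.leaf 2) (.bis 0 4 1 4 81 (.leaf 6) (.leaf
  2)))) (.bis 0 1 1 4 66 (.bis 1 7 4 1 91 (.leaf 2) (.leaf 82)) (.leaf 2)))) (.bis 1 2 1 1 104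
  (.bis 2 5 8 1 159 (.bis 0 6 1 2 101 (.leaf 2) (.leaf 2)) (.bis 0 2 1 4 105 (.bis 2 7 4 1 107
  (.bis 3 7 4 1 94 (.bis 4 6 1 1 112 (.leaf 2) (.leaf 2)) (.bis 4 6 1 1 112 (.leaf 2) (.leaf 2)))
  (.bis 2 6 2 1 109 (.leaf 2) (.leaf 9))) (.bis 0 6 1 2 101 (.leaf 2) (.leaf 2)))) (.bis 0 1 1 4
  66 (.bis 1 7 4 1 91 (.leaf 2) (.bis 1 4 2 1 111 (.leaf 2) (.leaf 7))) (.bis 0 6 1 2 101 (.leaf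
  2) (.leaf 2))))))))

def lc5 : List Vr := [⟨[73,0,0,0,56,0,0,79], 207660, 0⟩, ⟨[0,24,0,0,0,0,0,0], 10368, 0⟩, ⟨[0,0,28,
  0,0,0,0,0], 10976, 0⟩, ⟨[0,0,0,17,0,0,0,0], 10404, 0⟩, ⟨[0,0,0,0,28,0,0,0], 10976, 0⟩, ⟨[73,0,0,
  0,0,146,0,79], 242360, 0⟩, ⟨[0,0,0,0,0,0,42,0], 10584, 0⟩, ⟨[0,0,0,0,0,73,0,79], 45260, 0⟩]

theorem lk5 : chkTr lowT (leafLow 3 lowB) lt5 lc5 = true := by decide +kernel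

def lt6 : Tr ℕ := (.bis 2 7 2 1 88 (.bis 0 6 1 2 16 (.bis 6 7 2 1 17 (.bis 1 7 2 1 40 (.bis 3 7 2
  1 54 (.bis 0 7 1 2 42 (.bis 4 7 1 2 72 (.bis 5 6 1 1 126 (.leaf 24) (.leaf 30)) (.bis 4 6 1 1
  65 (.bis 5 6 1 1 126 (.leaf 3) (.leaf 13)) (.leaf 13))) (.bis 0 5 1 1 257 (.bis 4 6 1 1 65
  (.bis 5 6 1 1 126 (.leaf 3) (.leaf 13)) (.leaf 13)) (.leaf 3))) (.bis 0 3 1 4 47 (.bis 3 6 4 1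
  48 (.bis 4 6 1 1 65 (.bis 0 5 1 2 258 (.bis 5 6 1 1 126 (.leaf 3) (.leaf 13)) (.leaf 3)) (.bis
  0 5 1 2 258 (.leaf 13) (.leaf 3))) (.bis 3 5 4 1 130 (.leaf 13) (.bis 1 3 1 4 55 (.bis 2 3 1 4
  94 (.leaf 2) (.leaf 2)) (.leaf 8)))) (.bis 0 5 1 1 257 (.bis 4 6 1 1 65 (.bis 3 5 1 2 258
  (.leaf 30) (.leaf 3)) (.bis 3 5 1 2 258 (.leaf 13) (.leaf 3))) (.leaf 3)))) (.bis 1 5 4 1 133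
  (.bis 0 3 1 4 47 (.bis 3 6 4 1 48 (.bis 4 6 1 1 65 (.bis 0 5 1 2 258 (.leaf 30) (.leaf 3))
  (.bis 0 5 1 2 258 (.leaf 13) (.leaf 3))) (.bis 3 5 4 1 130 (.leaf 13) (.bis 3 7 4 1 55 (.leaf
  8) (.bis 2 3 1 4 94 (.leaf 2) (.leaf 2))))) (.bis 0 5 1 1 257 (.bis 4 6 1 1 65 (.bis 3 5 1 2
  258 (.leaf 30) (.leaf 3)) (.leaf 13)) (.leaf 3))) (.bis 0 3 1 4 47 (.bis 3 6 4 1 48 (.bis 1 6 4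
  1 34 (.leaf 3) (.bis 1 2 4 1 91 (.leaf 3) (.bis 1 4 4 1 66 (.leaf 3) (.leaf 7)))) (.bis 1 2 4 1
  91 (.bis 3 7 4 1 55 (.leaf 3) (.bis 2 3 1 4 94 (.leaf 2) (.leaf 2))) (.bis 1 4 4 1 66 (.bis 3 7
  4 1 55 (.leaf 3) (.bis 3 4 4 1 69 (.leaf 2) (.leaf 2))) (.bis 3 7 4 1 55 (.leaf 7) (.leaf
  7))))) (.bis 0 1 1 4 33 (.bis 1 6 4 1 34 (.leaf 3) (.bis 1 2 4 1 91 (.leaf 3) (.bis 1 4 4 1 66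
  (.leaf 3) (.leaf 7)))) (.leaf 3))))) (.bis 5 6 1 4 137 (.bis 3 6 1 1 43 (.bis 2 6 1 4 89 (.bis
  4 6 1 4 62 (.bis 1 6 1 1 30 (.bis 5 6 1 8 139 (.bis 0 6 1 4 22 (.bis 6 7 4 1 23 (.leaf 11)
  (.bis 2 6 1 8 90 (.bis 4 6 1 8 64 (.leaf 25) (.leaf 11)) (.leaf 11))) (.leaf 11)) (.leaf 11))
  (.bis 0 1 1 4 33 (.bis 1 7 4 1 34 (.leaf 11) (.bis 1 5 8 1 141 (.leaf 11) (.leaf 22))) (.leaf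
  11))) (.bis 0 1 1 4 33 (.bis 1 7 4 1 34 (.bis 4 7 1 1 65 (.leaf 3) (.leaf 3)) (.bis 1 4 4 1 66
  (.leaf 3) (.bis 1 5 8 1 141 (.leaf 3) (.leaf 7)))) (.bis 4 7 1 1 65 (.leaf 3) (.leaf 3))))
  (.bis 0 1 1 4 33 (.bis 1 7 4 1 34 (.bis 4 7 1 1 65 (.leaf 3) (.leaf 3)) (.bis 1 2 4 1 91 (.leaf
  3) (.bis 1 4 4 1 66 (.leaf 3) (.leaf 22)))) (.leaf 3))) (.bis 0 3 1 4 47 (.bis 3 7 4 1 48 (.bis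
  1 7 4 1 34 (.leaf 3) (.bis 1 2 4 1 91 (.leaf 3) (.bis 1 4 4 1 66 (.leaf 3) (.leaf 22)))) (.bis
  1 2 4 1 91 (.bis 3 5 8 1 142 (.leaf 3) (.bis 2 6 1 2 92 (.bis 4 6 1 2 67 (.bis 3 6 2 1 52
  (.leaf 3) (.leaf 2)) (.bis 3 4 4 1 69 (.leaf 2) (.leaf 2))) (.bis 2 3 1 4 94 (.leaf 2) (.leaf
  2)))) (.bis 1 4 4 1 66 (.bis 3 5 8 1 142 (.leaf 3) (.bis 4 6 1 2 67 (.leaf 7) (.bis 3 4 4 1 69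
  (.leaf 2) (.leaf 2)))) (.bis 3 5 8 1 142 (.bis 1 5 8 1 141 (.leaf 3) (.leaf 7)) (.leaf 7)))))
  (.bis 0 1 1 4 33 (.bis 1 7 4 1 34 (.leaf 3) (.bis 1 2 4 1 91 (.leaf 3) (.bis 1 4 4 1 66 (.leaf
  3) (.leaf 22)))) (.leaf 3)))) (.bis 1 5 4 1 133 (.bis 0 3 1 4 47 (.bis 3 7 4 1 48 (.bis 4 7 1 1
  65 (.bis 0 5 1 2 258 (.leaf 30) (.leaf 3)) (.bis 0 5 1 2 258 (.leaf 13) (.leaf 3))) (.bis 3 5 4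
  1 130 (.leaf 13) (.bis 3 6 8 1 142 (.leaf 8) (.bis 2 3 1 4 94 (.leaf 2) (.leaf 2))))) (.bis 0 5
  1 1 257 (.bis 4 7 1 1 65 (.bis 3 5 1 2 258 (.leaf 30) (.leaf 3)) (.bis 3 5 1 2 258 (.leaf 13)
  (.leaf 3))) (.leaf 3))) (.bis 0 3 1 4 47 (.bis 3 7 4 1 48 (.bis 1 7 4 1 34 (.leaf 3) (.bis 1 2
  4 1 91 (.leaf 3) (.bis 1 4 4 1 66 (.leaf 3) (.bis 1 6 8 1 141 (.leaf 3) (.leaf 7))))) (.bis 1 2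
  4 1 91 (.bis 3 6 8 1 142 (.leaf 3) (.bis 2 3 1 4 94 (.leaf 2) (.leaf 2))) (.bis 1 4 4 1 66
  (.bis 3 6 8 1 142 (.leaf 3) (.bis 3 4 4 1 69 (.leaf 2) (.leaf 2))) (.bis 3 6 8 1 142 (.bis 1 6
  8 1 141 (.leaf 3) (.leaf 7)) (.leaf 7))))) (.bis 0 1 1 4 33 (.bis 1 7 4 1 34 (.leaf 3) (.bis 1
  2 4 1 91 (.leaf 3) (.bis 1 4 4 1 66 (.leaf 3) (.leaf 22)))) (.leaf 3)))))) (.bis 0 1 1 2 41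
  (.bis 1 7 2 1 40 (.bis 3 7 2 1 54 (.bis 6 7 1 2 42 (.bis 0 7 1 2 58 (.bis 4 7 1 2 72 (.bis 2 7
  1 2 259 (.bis 5 7 1 2 260 (.leaf 24) (.leaf 13)) (.leaf 13)) (.leaf 13)) (.bis 0 5 1 1 261
  (.leaf 13) (.leaf 3))) (.bis 5 6 1 1 257 (.leaf 3) (.bis 0 5 1 1 261 (.leaf 13) (.leaf 3))))
  (.bis 3 6 4 1 47 (.bis 5 6 1 1 257 (.leaf 3) (.bis 0 5 1 1 261 (.leaf 13) (.leaf 3))) (.bis 3 5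
  4 1 130 (.bis 0 5 1 1 261 (.leaf 13) (.leaf 13)) (.bis 0 3 1 4 56 (.bis 1 3 1 4 55 (.bis 2 3 1
  4 94 (.leaf 2) (.leaf 2)) (.leaf 8)) (.leaf 13))))) (.bis 1 5 4 1 133 (.bis 3 6 4 1 47 (.bis 5
  6 1 1 257 (.leaf 3) (.bis 0 5 1 1 261 (.leaf 13) (.leaf 3))) (.bis 3 5 4 1 130 (.bis 0 5 1 1
  261 (.leaf 13) (.leaf 13)) (.bis 0 3 1 4 56 (.bis 3 7 4 1 55 (.leaf 8) (.bis 2 3 1 4 94 (.leaf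
  2) (.leaf 2))) (.leaf 13)))) (.bis 3 6 4 1 47 (.bis 1 6 4 1 33 (.leaf 3) (.bis 1 2 4 1 91
  (.leaf 3) (.bis 1 4 4 1 66 (.leaf 3) (.leaf 7)))) (.bis 1 2 4 1 91 (.bis 0 3 1 4 56 (.bis 3 7 4
  1 55 (.leaf 3) (.bis 2 3 1 4 94 (.leaf 2) (.leaf 2))) (.leaf 3)) (.bis 1 4 4 1 66 (.bis 0 3 1 4
  56 (.bis 3 7 4 1 55 (.leaf 3) (.leaf 2)) (.leaf 3)) (.bis 0 3 1 4 56 (.bis 3 7 4 1 55 (.leaf 7)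
  (.leaf 7)) (.leaf 7))))))) (.bis 0 3 1 2 57 (.bis 3 7 2 1 54 (.bis 6 7 1 2 42 (.bis 1 7 1 2 58
  (.bis 0 7 1 2 59 (.bis 4 7 1 2 72 (.bis 2 7 1 2 259 (.bis 5 7 1 2 260 (.leaf 24) (.leaf 13))
  (.leaf 13)) (.leaf 13)) (.bis 0 5 1 1 262 (.leaf 13) (.leaf 3))) (.bis 1 5 1 1 261 (.leaf 13)
  (.leaf 3))) (.bis 5 6 1 1 257 (.leaf 3) (.bis 1 5 1 1 261 (.leaf 13) (.leaf 3)))) (.bis 3 6 4 1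
  47 (.bis 5 6 1 1 257 (.leaf 3) (.bis 1 5 1 1 261 (.bis 3 5 1 2 258 (.leaf 13) (.leaf 3)) (.leaf
  3))) (.bis 3 5 4 1 130 (.bis 1 5 1 1 261 (.leaf 13) (.leaf 13)) (.bis 1 3 1 4 56 (.bis 2 3 1 4
  94 (.bis 3 4 4 1 69 (.leaf 2) (.leaf 2)) (.leaf 2)) (.leaf 13))))) (.bis 0 7 1 1 28 (.bis 6 7 1
  2 42 (.bis 1 7 1 2 58 (.bis 3 7 1 2 59 (.bis 4 7 1 2 72 (.bis 2 7 1 2 259 (.bis 5 7 1 2 260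
  (.leaf 24) (.bis 5 6 2 1 263 (.leaf 13) (.leaf 13))) (.bis 5 6 2 1 263 (.leaf 13) (.leaf 13)))
  (.bis 4 5 1 1 256 (.bis 5 6 2 1 263 (.leaf 13) (.leaf 13)) (.leaf 13))) (.bis 3 5 1 1 262 (.bis
  4 5 1 1 256 (.leaf 13) (.leaf 13)) (.leaf 13))) (.bis 1 5 1 1 261 (.bis 3 5 1 1 262 (.leaf 13)
  (.leaf 13)) (.leaf 13))) (.bis 5 6 1 1 257 (.leaf 24) (.bis 1 5 1 1 261 (.bis 3 5 1 1 262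
  (.leaf 13) (.leaf 13)) (.leaf 13)))) (.bis 0 5 2 1 264 (.bis 5 6 1 1 257 (.leaf 24) (.bis 1 5 1
  1 261 (.bis 3 5 1 1 262 (.leaf 13) (.leaf 13)) (.leaf 13))) (.bis 0 2 2 1 114 (.leaf 24) (.leaf
  31))))))) (.bis 2 6 1 1 97 (.bis 0 6 1 2 16 (.bis 5 6 1 4 137 (.bis 3 6 1 1 43 (.bis 4 6 1 4 62
  (.bis 6 7 4 1 89 (.bis 0 1 1 4 33 (.bis 1 7 4 1 91 (.leaf 3) (.bis 1 5 8 1 141 (.leaf 3) (.leaf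
  7))) (.bis 0 7 1 1 113 (.leaf 3) (.leaf 3))) (.bis 1 6 1 1 30 (.bis 5 6 1 8 139 (.bis 2 6 1 2
  99 (.bis 0 6 1 4 22 (.bis 4 6 1 8 64 (.bis 6 7 8 1 90 (.leaf 11) (.leaf 25)) (.leaf 11)) (.leaf
  11)) (.leaf 11)) (.leaf 11)) (.bis 0 1 1 4 33 (.bis 1 5 8 1 141 (.leaf 11) (.bis 1 4 8 1 98
  (.leaf 11) (.leaf 22))) (.leaf 11)))) (.bis 0 1 1 4 33 (.bis 1 4 4 1 66 (.leaf 3) (.bis 1 7 4 1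
  91 (.leaf 3) (.bis 1 5 8 1 141 (.leaf 3) (.leaf 7)))) (.bis 0 7 1 1 113 (.leaf 3) (.leaf 3))))
  (.bis 0 3 1 4 47 (.bis 1 4 4 1 66 (.bis 3 5 8 1 142 (.leaf 3) (.bis 4 6 1 2 67 (.bis 6 7 2 1 92
  (.bis 3 7 4 1 94 (.leaf 2) (.leaf 2)) (.bis 2 3 1 2 100 (.leaf 7) (.leaf 3))) (.bis 2 4 2 1 101
  (.bis 3 4 4 1 69 (.leaf 2) (.bis 3 7 4 1 94 (.leaf 2) (.leaf 2))) (.bis 3 7 4 1 94 (.leaf 2)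
  (.leaf 2))))) (.bis 1 7 4 1 91 (.bis 3 5 8 1 142 (.leaf 3) (.bis 6 7 2 1 92 (.bis 3 7 4 1 94
  (.leaf 2) (.leaf 2)) (.bis 2 3 1 2 100 (.leaf 7) (.leaf 3)))) (.bis 3 5 8 1 142 (.bis 1 5 8 1
  141 (.leaf 3) (.leaf 7)) (.leaf 7)))) (.bis 0 1 1 4 33 (.bis 1 4 4 1 66 (.leaf 3) (.bis 1 7 4 1
  91 (.leaf 3) (.leaf 22))) (.leaf 3)))) (.bis 1 5 4 1 133 (.bis 0 3 1 4 47 (.bis 2 5 2 1 153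
  (.bis 3 5 4 1 130 (.leaf 13) (.bis 3 6 8 1 142 (.leaf 8) (.bis 3 4 4 1 69 (.leaf 2) (.bis 3 7 4
  1 94 (.leaf 2) (.leaf 2))))) (.bis 3 6 8 1 142 (.leaf 3) (.bis 2 4 2 1 101 (.bis 3 4 4 1 69
  (.leaf 2) (.bis 3 7 4 1 94 (.leaf 2) (.leaf 2))) (.bis 3 7 4 1 94 (.leaf 2) (.bis 2 3 1 2 100
  (.leaf 2) (.leaf 2)))))) (.bis 0 5 1 1 257 (.bis 2 5 2 1 153 (.leaf 13) (.bis 2 4 2 1 101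
  (.leaf 3) (.leaf 3))) (.bis 0 7 1 1 113 (.bis 2 4 2 1 101 (.leaf 3) (.leaf 3)) (.bis 0 1 2 1
  265 (.bis 2 4 2 1 101 (.leaf 3) (.leaf 3)) (.bis 2 4 2 1 101 (.leaf 3) (.leaf 3)))))) (.bis 0 3
  1 4 47 (.bis 1 4 4 1 66 (.bis 3 6 8 1 142 (.leaf 3) (.bis 2 4 2 1 101 (.bis 3 4 4 1 69 (.leaf
  2) (.leaf 2)) (.bis 3 7 4 1 94 (.leaf 2) (.leaf 2)))) (.bis 1 7 4 1 91 (.bis 3 6 8 1 142 (.leaf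
  3) (.bis 3 7 4 1 94 (.leaf 2) (.leaf 2))) (.bis 3 6 8 1 142 (.bis 1 6 8 1 141 (.leaf 3) (.leaf
  7)) (.leaf 7)))) (.bis 0 1 1 4 33 (.bis 1 4 4 1 66 (.leaf 3) (.bis 1 7 4 1 91 (.leaf 3) (.leaf
  22))) (.leaf 3))))) (.bis 0 1 1 2 41 (.bis 1 5 4 1 133 (.bis 3 6 4 1 47 (.bis 5 6 1 1 257 (.bis
  6 7 1 1 113 (.bis 2 4 2 1 101 (.leaf 3) (.leaf 3)) (.bis 1 6 1 2 265 (.bis 2 4 2 1 101 (.leaf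
  3) (.leaf 3)) (.bis 2 4 2 1 101 (.leaf 3) (.leaf 3)))) (.bis 2 5 2 1 153 (.bis 0 5 1 1 261
  (.leaf 13) (.leaf 3)) (.bis 2 4 2 1 101 (.leaf 3) (.leaf 3)))) (.bis 2 5 2 1 153 (.bis 3 5 4 1
  130 (.bis 0 5 1 1 261 (.leaf 13) (.leaf 5)) (.bis 0 3 1 4 56 (.bis 3 4 4 1 69 (.leaf 2) (.bis 3
  7 4 1 94 (.leaf 2) (.leaf 2))) (.leaf 5))) (.bis 0 3 1 4 56 (.bis 2 4 2 1 101 (.bis 3 4 4 1 69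
  (.leaf 2) (.bis 3 7 4 1 94 (.leaf 2) (.leaf 2))) (.bis 3 7 4 1 94 (.leaf 2) (.bis 2 3 1 2 100
  (.leaf 2) (.leaf 2)))) (.leaf 3)))) (.bis 3 6 4 1 47 (.bis 1 6 4 1 33 (.leaf 3) (.bis 1 4 4 1
  66 (.leaf 3) (.bis 1 7 4 1 91 (.leaf 3) (.leaf 7)))) (.bis 1 4 4 1 66 (.bis 0 3 1 4 56 (.bis 2
  4 2 1 101 (.bis 3 4 4 1 69 (.leaf 2) (.leaf 2)) (.bis 3 7 4 1 94 (.leaf 2) (.leaf 2))) (.bis 2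
  4 2 1 101 (.leaf 3) (.leaf 3))) (.bis 1 7 4 1 91 (.bis 0 3 1 4 56 (.bis 3 7 4 1 94 (.leaf 2)
  (.leaf 2)) (.leaf 3)) (.bis 0 3 1 4 56 (.leaf 7) (.leaf 7)))))) (.bis 0 3 1 2 57 (.bis 3 6 4 1
  47 (.bis 5 6 1 1 257 (.bis 6 7 1 1 113 (.bis 2 4 2 1 101 (.leaf 3) (.leaf 3)) (.bis 2 4 2 1 101
  (.leaf 3) (.leaf 3))) (.bis 2 5 2 1 153 (.bis 1 5 1 1 261 (.bis 3 5 1 2 258 (.leaf 13) (.leaf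
  3)) (.leaf 3)) (.bis 2 4 2 1 101 (.leaf 3) (.leaf 3)))) (.bis 2 5 2 1 153 (.bis 3 5 4 1 130
  (.bis 1 5 1 1 261 (.bis 5 6 2 1 258 (.leaf 2) (.leaf 13)) (.leaf 5)) (.bis 1 3 1 4 56 (.bis 3 4
  4 1 69 (.leaf 2) (.bis 3 7 4 1 94 (.leaf 2) (.leaf 2))) (.leaf 5))) (.bis 1 3 1 4 56 (.bis 2 4
  2 1 101 (.bis 3 4 4 1 69 (.leaf 2) (.bis 3 7 4 1 94 (.leaf 2) (.leaf 2))) (.bis 3 7 4 1 94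
  (.leaf 2) (.bis 2 3 1 2 100 (.leaf 2) (.leaf 2)))) (.bis 2 4 2 1 101 (.leaf 3) (.leaf 3)))))
  (.bis 0 2 1 1 116 (.bis 5 6 1 1 257 (.bis 6 7 1 1 113 (.bis 2 4 2 1 101 (.leaf 3) (.bis 2 7 2 1
  152 (.leaf 3) (.leaf 3))) (.bis 2 4 2 1 101 (.leaf 3) (.bis 2 5 4 1 266 (.leaf 3) (.leaf 3))))
  (.bis 2 5 2 1 153 (.bis 0 5 1 1 267 (.bis 1 5 1 1 261 (.leaf 13) (.leaf 3)) (.leaf 3)) (.bis 2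
  4 2 1 101 (.leaf 3) (.bis 2 7 2 1 152 (.leaf 3) (.leaf 3))))) (.bis 0 5 2 1 264 (.bis 5 6 1 1
  257 (.leaf 24) (.bis 2 5 1 1 267 (.bis 1 5 1 1 261 (.leaf 13) (.leaf 5)) (.leaf 5))) (.bis 0 7
  2 1 114 (.bis 6 7 1 1 113 (.leaf 5) (.leaf 24)) (.leaf 31))))))) (.bis 0 1 1 2 41 (.bis 1 5 4 1
  133 (.bis 2 5 4 1 160 (.bis 5 6 1 2 153 (.bis 0 3 1 4 56 (.bis 4 6 1 2 101 (.bis 3 7 4 1 94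
  (.leaf 2) (.bis 3 6 2 1 100 (.leaf 2) (.leaf 2))) (.bis 3 4 4 1 69 (.leaf 2) (.bis 3 7 4 1 94
  (.leaf 2) (.leaf 2)))) (.bis 4 6 1 2 101 (.leaf 16) (.leaf 5))) (.bis 3 5 4 1 130 (.bis 0 5 1 1
  261 (.leaf 13) (.leaf 5)) (.bis 0 3 1 4 56 (.bis 3 4 4 1 69 (.leaf 2) (.bis 3 7 4 1 94 (.leaf
  2) (.leaf 2))) (.leaf 5)))) (.bis 0 2 1 4 117 (.bis 1 2 1 8 159 (.bis 2 4 4 1 105 (.bis 4 6 1 2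
  101 (.bis 3 7 4 1 94 (.leaf 2) (.leaf 2)) (.bis 3 4 4 1 69 (.leaf 2) (.bis 3 7 4 1 94 (.leaf 2)
  (.leaf 2)))) (.bis 2 7 4 1 107 (.bis 3 7 4 1 94 (.bis 5 6 1 4 162 (.leaf 2) (.leaf 2)) (.bis 3
  6 2 1 100 (.leaf 2) (.leaf 2))) (.bis 2 6 2 1 109 (.bis 3 6 2 1 100 (.leaf 2) (.leaf 2)) (.bis
  2 3 1 1 120 (.leaf 2) (.leaf 9))))) (.bis 4 6 1 2 101 (.bis 3 7 4 1 94 (.leaf 2) (.leaf 2))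
  (.bis 3 4 4 1 69 (.leaf 2) (.bis 3 7 4 1 94 (.leaf 2) (.leaf 2))))) (.bis 0 3 1 4 56 (.bis 4 6
  1 2 101 (.bis 3 7 4 1 94 (.leaf 2) (.leaf 2)) (.bis 3 4 4 1 69 (.leaf 2) (.bis 3 7 4 1 94
  (.leaf 2) (.leaf 2)))) (.bis 4 6 1 2 101 (.leaf 16) (.leaf 5))))) (.bis 1 2 1 1 104 (.bis 0 2 1
  4 117 (.bis 2 5 8 1 159 (.bis 4 6 1 2 101 (.bis 3 7 4 1 94 (.leaf 2) (.leaf 2)) (.bis 3 4 4 1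
  69 (.leaf 2) (.leaf 2))) (.bis 2 4 4 1 105 (.bis 4 6 1 2 101 (.bis 3 7 4 1 94 (.leaf 2) (.leaf
  2)) (.bis 3 4 4 1 69 (.leaf 2) (.leaf 2))) (.bis 2 7 4 1 107 (.bis 3 7 4 1 94 (.leaf 2) (.leaf
  2)) (.bis 2 6 2 1 109 (.bis 3 6 2 1 100 (.leaf 2) (.leaf 2)) (.bis 2 3 1 1 120 (.leaf 2) (.leaf
  9)))))) (.bis 0 3 1 4 56 (.bis 4 6 1 2 101 (.leaf 2) (.bis 3 4 4 1 69 (.leaf 2) (.leaf 2)))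
  (.leaf 16))) (.bis 1 4 4 1 66 (.bis 0 3 1 4 56 (.leaf 2) (.leaf 16)) (.bis 1 7 4 1 91 (.bis 0 3
  1 4 56 (.leaf 2) (.leaf 16)) (.bis 0 3 1 4 56 (.leaf 7) (.leaf 7)))))) (.bis 0 3 1 2 57 (.bis 2
  5 4 1 160 (.bis 5 6 1 2 153 (.bis 1 3 1 4 56 (.bis 4 6 1 2 101 (.bis 3 7 4 1 94 (.leaf 2) (.bis
  3 6 2 1 100 (.leaf 2) (.leaf 2))) (.bis 3 4 4 1 69 (.leaf 2) (.bis 3 7 4 1 94 (.leaf 2) (.leaf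
  2)))) (.bis 4 6 1 2 101 (.leaf 16) (.leaf 5))) (.bis 3 5 4 1 130 (.bis 1 5 1 1 261 (.leaf 13)
  (.leaf 5)) (.bis 1 3 1 4 56 (.bis 3 4 4 1 69 (.leaf 2) (.bis 3 7 4 1 94 (.leaf 2) (.leaf 2)))
  (.leaf 5)))) (.bis 1 2 1 4 117 (.bis 2 4 4 1 105 (.bis 4 6 1 2 101 (.bis 3 7 4 1 94 (.leaf 2)
  (.bis 3 6 2 1 100 (.leaf 2) (.leaf 2))) (.bis 3 4 4 1 69 (.leaf 2) (.bis 3 7 4 1 94 (.leaf 2)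
  (.leaf 2)))) (.bis 0 2 1 4 119 (.bis 2 7 4 1 107 (.bis 3 7 4 1 94 (.bis 5 6 1 4 162 (.leaf 2)
  (.leaf 2)) (.bis 3 6 2 1 100 (.leaf 2) (.leaf 2))) (.bis 2 6 2 1 109 (.bis 3 6 2 1 100 (.leaf
  2) (.leaf 2)) (.bis 2 3 1 1 120 (.leaf 2) (.leaf 9)))) (.bis 3 7 4 1 94 (.bis 5 6 1 4 162
  (.leaf 2) (.leaf 2)) (.bis 3 6 2 1 100 (.leaf 2) (.leaf 2))))) (.bis 1 3 1 4 56 (.bis 4 6 1 2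
  101 (.bis 3 7 4 1 94 (.leaf 2) (.leaf 2)) (.bis 3 4 4 1 69 (.leaf 2) (.bis 3 7 4 1 94 (.leaf 2)
  (.leaf 2)))) (.bis 4 6 1 2 101 (.leaf 16) (.leaf 5))))) (.bis 0 2 1 2 121 (.bis 2 5 4 1 160
  (.bis 5 6 1 2 153 (.bis 4 6 1 2 101 (.bis 2 6 1 4 162 (.leaf 16) (.leaf 5)) (.leaf 5)) (.bis 0
  5 1 1 268 (.bis 1 5 1 1 261 (.leaf 13) (.leaf 5)) (.leaf 5))) (.bis 1 2 1 4 117 (.bis 2 4 4 1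
  105 (.bis 4 6 1 2 101 (.bis 5 6 1 4 162 (.leaf 16) (.leaf 5)) (.leaf 5)) (.bis 2 3 4 1 119
  (.bis 5 6 1 4 162 (.bis 0 6 1 2 122 (.leaf 2) (.leaf 5)) (.leaf 5)) (.bis 2 7 4 1 107 (.bis 5 6
  1 4 162 (.leaf 16) (.leaf 5)) (.bis 2 6 2 1 109 (.leaf 16) (.leaf 55))))) (.bis 4 6 1 2 101
  (.bis 5 6 1 4 162 (.leaf 16) (.leaf 5)) (.leaf 5)))) (.bis 0 6 1 1 116 (.bis 5 6 1 2 153 (.bis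
  4 6 1 2 101 (.bis 2 6 1 2 122 (.leaf 3) (.leaf 5)) (.leaf 5)) (.bis 0 5 1 1 267 (.bis 2 5 1 1
  268 (.bis 1 5 1 1 261 (.leaf 13) (.leaf 5)) (.leaf 5)) (.leaf 5))) (.bis 0 5 2 1 264 (.bis 5 6
  1 1 267 (.leaf 5) (.bis 2 5 1 1 268 (.bis 1 5 1 1 261 (.leaf 13) (.leaf 5)) (.leaf 5))) (.bis 0
  7 2 1 114 (.leaf 5) (.leaf 31)))))))))

def lc6 : List Vr := [⟨[73,0,0,0,0,0,0,79], 45260, 0⟩, ⟨[0,24,0,0,0,0,0,0], 10368, 0⟩, ⟨[0,0,28,0,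
  0,0,0,0], 10976, 0⟩, ⟨[0,0,0,17,0,0,0,0], 10404, 0⟩, ⟨[73,0,0,0,56,0,0,79], 207660, 0⟩, ⟨[73,0,
  0,0,0,146,0,79], 242360, 0⟩, ⟨[0,0,0,0,0,0,42,0], 10584, 0⟩, ⟨[0,0,0,0,0,73,0,79], 45260, 0⟩]

theorem lk6 : chkTr lowT (leafLow 3 lowB) lt6 lc6 = true := by decide +kernel

def lt7 : Tr ℕ := (.bis 4 7 2 1 60 (.bis 2 6 1 1 97 (.bis 6 7 2 1 16 (.bis 1 7 2 1 41 (.bis 3 7 2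
  1 57 (.bis 2 7 1 1 116 (.bis 5 7 1 2 264 (.bis 0 7 1 2 271 (.leaf 31) (.bis 5 6 1 2 272 (.bis 4
  6 1 1 273 (.bis 0 6 1 1 274 (.leaf 3) (.bis 0 1 1 1 275 (.leaf 3) (.leaf 5))) (.bis 0 1 1 1 275
  (.leaf 3) (.bis 0 3 1 1 276 (.leaf 3) (.leaf 5)))) (.bis 0 1 1 1 275 (.leaf 5) (.bis 0 5 2 1
  277 (.leaf 5) (.leaf 5))))) (.bis 5 6 1 1 257 (.bis 6 7 2 1 272 (.bis 0 1 1 1 275 (.leaf 5)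
  (.leaf 5)) (.bis 4 6 1 1 273 (.bis 0 6 1 1 274 (.leaf 3) (.leaf 5)) (.bis 0 1 1 1 275 (.leaf 3)
  (.leaf 5)))) (.bis 2 5 1 1 267 (.bis 1 5 1 1 261 (.bis 3 5 1 1 262 (.leaf 13) (.leaf 5)) (.leaf
  5)) (.bis 0 1 1 1 275 (.leaf 5) (.leaf 5))))) (.bis 5 6 1 1 257 (.bis 2 4 2 1 101 (.bis 4 6 1 1
  273 (.bis 0 6 1 1 274 (.leaf 3) (.leaf 5)) (.leaf 5)) (.leaf 28)) (.bis 2 5 2 1 153 (.bis 5 7 1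
  1 267 (.leaf 5) (.bis 1 5 1 1 261 (.leaf 13) (.leaf 5))) (.bis 2 4 2 1 101 (.leaf 5) (.leaf
  16))))) (.bis 3 6 4 1 47 (.bis 5 6 1 1 257 (.bis 2 4 2 1 101 (.leaf 28) (.leaf 28)) (.bis 2 5 2
  1 153 (.bis 1 5 1 1 261 (.bis 3 5 1 2 258 (.leaf 13) (.leaf 5)) (.leaf 5)) (.bis 2 4 2 1 101
  (.leaf 5) (.leaf 16)))) (.bis 2 5 2 1 153 (.bis 3 5 4 1 130 (.bis 1 5 1 1 261 (.bis 5 6 2 1 258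
  (.leaf 2) (.leaf 13)) (.leaf 5)) (.bis 1 3 1 4 56 (.bis 0 3 1 4 278 (.bis 3 4 4 1 69 (.leaf 2)
  (.leaf 2)) (.leaf 2)) (.leaf 5))) (.bis 1 3 1 4 56 (.bis 0 3 1 4 278 (.bis 2 4 2 1 101 (.bis 3
  4 4 1 69 (.leaf 2) (.leaf 2)) (.bis 2 3 1 2 100 (.leaf 2) (.leaf 2))) (.leaf 2)) (.leaf 16)))))
  (.bis 1 5 4 1 133 (.bis 3 6 4 1 47 (.bis 5 6 1 1 257 (.leaf 28) (.bis 2 5 2 1 153 (.bis 5 7 1 1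
  261 (.leaf 5) (.leaf 13)) (.leaf 16))) (.bis 2 5 2 1 153 (.bis 3 5 4 1 130 (.bis 5 7 1 1 261
  (.leaf 5) (.leaf 13)) (.bis 3 7 4 1 56 (.leaf 5) (.bis 0 3 1 4 278 (.bis 3 4 4 1 69 (.leaf 2)
  (.leaf 2)) (.leaf 2)))) (.bis 3 7 4 1 56 (.leaf 16) (.bis 0 3 1 4 278 (.bis 2 4 2 1 101 (.bis 3
  4 4 1 69 (.leaf 2) (.leaf 2)) (.bis 2 3 1 2 100 (.leaf 2) (.leaf 2))) (.leaf 2))))) (.bis 3 6 4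
  1 47 (.bis 1 6 4 1 33 (.leaf 28) (.bis 1 4 4 1 66 (.leaf 16) (.bis 0 1 1 4 279 (.leaf 7) (.leaf
  11)))) (.bis 1 4 4 1 66 (.bis 3 7 4 1 56 (.leaf 16) (.bis 0 3 1 4 278 (.leaf 2) (.leaf 2)))
  (.bis 3 7 4 1 56 (.bis 0 1 1 4 279 (.leaf 7) (.leaf 11)) (.bis 0 1 1 4 279 (.leaf 7) (.bis 0 3
  1 4 278 (.leaf 2) (.leaf 2)))))))) (.bis 5 6 1 4 137 (.bis 3 6 1 1 43 (.bis 4 6 1 4 62 (.bis 1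
  6 1 1 30 (.bis 0 6 1 4 280 (.bis 5 6 1 8 139 (.bis 2 6 1 2 99 (.bis 6 7 4 1 22 (.leaf 11) (.bis
  4 6 1 8 64 (.bis 3 6 1 2 44 (.leaf 25) (.leaf 11)) (.leaf 11))) (.leaf 11)) (.leaf 11)) (.leaf
  11)) (.bis 1 7 4 1 33 (.leaf 11) (.bis 1 5 8 1 141 (.leaf 11) (.leaf 22)))) (.bis 1 7 4 1 33
  (.leaf 28) (.bis 1 4 4 1 66 (.leaf 16) (.bis 1 5 8 1 141 (.leaf 11) (.leaf 22))))) (.bis 3 7 4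
  1 47 (.bis 1 7 4 1 33 (.leaf 28) (.bis 1 4 4 1 66 (.leaf 16) (.bis 1 5 8 1 141 (.leaf 11)
  (.leaf 22)))) (.bis 1 4 4 1 66 (.bis 3 5 8 1 142 (.leaf 16) (.bis 0 3 1 4 278 (.leaf 38) (.leaf
  16))) (.bis 3 5 8 1 142 (.bis 1 5 8 1 141 (.leaf 11) (.bis 0 1 1 4 279 (.leaf 7) (.leaf 11)))
  (.bis 0 1 1 4 279 (.leaf 7) (.bis 0 3 1 4 278 (.leaf 7) (.leaf 11))))))) (.bis 1 5 4 1 133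
  (.bis 3 7 4 1 47 (.bis 5 7 1 1 257 (.leaf 28) (.bis 2 5 2 1 153 (.bis 3 5 1 2 258 (.leaf 13)
  (.leaf 8)) (.leaf 16))) (.bis 2 5 2 1 153 (.bis 3 5 4 1 130 (.leaf 13) (.bis 3 6 8 1 142 (.leaf
  8) (.bis 0 3 1 4 278 (.bis 3 4 4 1 69 (.leaf 2) (.leaf 2)) (.leaf 2)))) (.bis 3 6 8 1 142
  (.leaf 16) (.bis 0 3 1 4 278 (.bis 2 4 2 1 101 (.bis 3 4 4 1 69 (.leaf 2) (.leaf 2)) (.bis 2 3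
  1 2 100 (.leaf 2) (.leaf 2))) (.leaf 2))))) (.bis 3 7 4 1 47 (.bis 1 7 4 1 33 (.leaf 28) (.bis
  1 4 4 1 66 (.leaf 16) (.bis 1 6 8 1 141 (.leaf 11) (.leaf 22)))) (.bis 1 4 4 1 66 (.bis 3 6 8 1
  142 (.leaf 16) (.bis 0 3 1 4 278 (.leaf 2) (.leaf 2))) (.bis 3 6 8 1 142 (.bis 1 6 8 1 141
  (.leaf 11) (.bis 0 1 1 4 279 (.leaf 7) (.leaf 2))) (.bis 0 1 1 4 279 (.leaf 7) (.bis 0 3 1 4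
  278 (.leaf 2) (.leaf 2))))))))) (.bis 1 7 2 1 41 (.bis 3 7 2 1 57 (.bis 2 7 2 1 121 (.bis 6 7 1
  1 116 (.bis 5 7 1 2 264 (.bis 0 7 1 2 271 (.leaf 31) (.bis 0 2 1 1 281 (.leaf 5) (.bis 0 1 1 1
  275 (.leaf 5) (.leaf 5)))) (.bis 5 6 1 1 267 (.bis 0 2 1 1 281 (.leaf 5) (.bis 0 1 1 1 275
  (.leaf 5) (.leaf 5))) (.bis 2 5 1 1 268 (.bis 1 5 1 1 261 (.leaf 13) (.leaf 5)) (.bis 0 2 1 1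
  281 (.leaf 5) (.leaf 5))))) (.bis 5 6 1 2 153 (.bis 4 6 1 2 101 (.leaf 16) (.leaf 5)) (.bis 5 7
  1 1 267 (.leaf 5) (.bis 2 5 1 1 268 (.bis 1 5 1 1 261 (.leaf 13) (.leaf 5)) (.leaf 5))))) (.bis
  2 5 4 1 160 (.bis 5 6 1 2 153 (.bis 4 6 1 2 101 (.leaf 16) (.leaf 5)) (.bis 5 7 1 1 268 (.leaf
  5) (.bis 1 5 1 1 261 (.leaf 13) (.leaf 5)))) (.bis 1 2 1 4 117 (.bis 0 2 1 4 282 (.bis 2 4 4 1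
  105 (.bis 4 6 1 2 101 (.leaf 16) (.leaf 5)) (.bis 2 3 4 1 119 (.bis 5 6 1 4 162 (.leaf 16)
  (.leaf 5)) (.bis 2 6 2 1 109 (.leaf 16) (.leaf 55)))) (.bis 4 6 1 2 101 (.leaf 16) (.leaf 5)))
  (.bis 4 6 1 2 101 (.leaf 16) (.bis 0 7 1 1 281 (.leaf 5) (.leaf 5)))))) (.bis 2 5 4 1 160 (.bis
  5 6 1 2 153 (.bis 1 3 1 4 56 (.bis 0 3 1 4 278 (.bis 4 6 1 2 101 (.bis 3 6 2 1 100 (.leaf 2)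
  (.leaf 2)) (.bis 3 4 4 1 69 (.leaf 2) (.leaf 2))) (.leaf 2)) (.bis 4 6 1 2 101 (.leaf 16)
  (.leaf 5))) (.bis 3 5 4 1 130 (.bis 1 5 1 1 261 (.leaf 13) (.leaf 5)) (.bis 1 3 1 4 56 (.bis 0
  3 1 4 278 (.bis 3 4 4 1 69 (.leaf 2) (.leaf 2)) (.leaf 2)) (.leaf 5)))) (.bis 1 2 1 4 117 (.bis
  0 2 1 4 282 (.bis 2 4 4 1 105 (.bis 4 6 1 2 101 (.bis 3 6 2 1 100 (.leaf 2) (.bis 3 7 4 1 283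
  (.leaf 2) (.leaf 2))) (.bis 3 4 4 1 69 (.leaf 2) (.bis 3 7 4 1 283 (.leaf 2) (.leaf 2)))) (.bis
  2 7 4 1 119 (.bis 3 6 2 1 100 (.leaf 2) (.bis 3 7 4 1 283 (.leaf 2) (.leaf 2))) (.bis 2 6 2 1
  109 (.bis 3 6 2 1 100 (.leaf 2) (.leaf 2)) (.bis 2 3 1 1 120 (.leaf 2) (.leaf 9))))) (.bis 0 3
  1 4 278 (.bis 4 6 1 2 101 (.bis 3 6 2 1 100 (.leaf 2) (.leaf 2)) (.bis 3 4 4 1 69 (.leaf 2)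
  (.leaf 2))) (.leaf 2))) (.bis 1 3 1 4 56 (.bis 0 3 1 4 278 (.bis 4 6 1 2 101 (.bis 3 6 2 1 100
  (.leaf 2) (.leaf 2)) (.bis 3 4 4 1 69 (.leaf 2) (.leaf 2))) (.leaf 2)) (.bis 4 6 1 2 101 (.leaf
  16) (.leaf 5)))))) (.bis 1 5 4 1 133 (.bis 2 5 4 1 160 (.bis 5 6 1 2 153 (.bis 3 7 4 1 56 (.bis
  4 6 1 2 101 (.leaf 16) (.leaf 5)) (.bis 0 3 1 4 278 (.bis 4 6 1 2 101 (.bis 3 6 2 1 100 (.leaf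
  2) (.leaf 2)) (.bis 3 4 4 1 69 (.leaf 2) (.leaf 2))) (.leaf 2))) (.bis 3 5 4 1 130 (.bis 5 7 1
  1 261 (.leaf 5) (.leaf 13)) (.bis 3 7 4 1 56 (.leaf 5) (.bis 0 3 1 4 278 (.bis 3 4 4 1 69
  (.leaf 2) (.leaf 2)) (.leaf 2))))) (.bis 2 7 4 1 117 (.bis 3 7 4 1 56 (.leaf 16) (.bis 0 3 1 4
  278 (.bis 4 6 1 2 101 (.leaf 2) (.bis 3 4 4 1 69 (.leaf 2) (.leaf 2))) (.leaf 2))) (.bis 0 2 1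
  4 282 (.bis 1 2 1 8 159 (.bis 2 4 4 1 105 (.bis 4 6 1 2 101 (.bis 3 6 2 1 100 (.leaf 2) (.leaf
  2)) (.bis 3 4 4 1 69 (.leaf 2) (.leaf 2))) (.bis 2 6 2 1 109 (.bis 3 6 2 1 100 (.leaf 2) (.leaf
  2)) (.bis 2 3 1 1 120 (.leaf 2) (.leaf 9)))) (.bis 4 6 1 2 101 (.bis 3 6 2 1 100 (.leaf 2)
  (.leaf 2)) (.bis 3 4 4 1 69 (.leaf 2) (.leaf 2)))) (.bis 0 3 1 4 278 (.bis 4 6 1 2 101 (.bis 3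
  6 2 1 100 (.leaf 2) (.leaf 2)) (.bis 3 4 4 1 69 (.leaf 2) (.leaf 2))) (.leaf 2))))) (.bis 1 2 1
  1 104 (.bis 2 7 4 1 117 (.bis 3 7 4 1 56 (.leaf 16) (.bis 0 3 1 4 278 (.leaf 2) (.leaf 2)))
  (.bis 0 2 1 4 282 (.bis 2 5 8 1 159 (.leaf 2) (.bis 2 4 4 1 105 (.bis 4 6 1 2 101 (.bis 3 6 2 1
  100 (.leaf 2) (.leaf 2)) (.bis 3 4 4 1 69 (.leaf 2) (.leaf 2))) (.bis 2 6 2 1 109 (.bis 3 6 2 1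
  100 (.leaf 2) (.leaf 2)) (.bis 2 3 1 1 120 (.leaf 2) (.leaf 9))))) (.bis 0 3 1 4 278 (.leaf 2)
  (.leaf 2)))) (.bis 1 4 4 1 66 (.bis 3 7 4 1 56 (.leaf 16) (.bis 0 3 1 4 278 (.leaf 2) (.leaf
  2))) (.bis 3 7 4 1 56 (.leaf 26) (.leaf 26))))))) (.bis 2 6 1 1 97 (.bis 4 6 1 1 61 (.bis 5 6 1
  4 137 (.bis 3 6 1 1 43 (.bis 6 7 4 1 62 (.bis 1 7 4 1 66 (.leaf 28) (.bis 1 5 8 1 141 (.leaf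
  11) (.bis 0 1 1 4 279 (.leaf 7) (.leaf 11)))) (.bis 1 6 1 1 30 (.bis 0 6 1 4 280 (.bis 5 6 1 8
  139 (.bis 2 6 1 2 99 (.bis 4 6 1 2 63 (.bis 6 7 8 1 64 (.leaf 11) (.bis 3 6 1 2 44 (.leaf 25)
  (.leaf 11))) (.leaf 11)) (.leaf 11)) (.leaf 11)) (.leaf 11)) (.bis 1 5 8 1 141 (.leaf 11) (.bis
  0 1 1 4 279 (.leaf 22) (.leaf 11))))) (.bis 1 7 4 1 66 (.bis 3 5 8 1 142 (.leaf 28) (.bis 0 3 1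
  4 278 (.bis 6 7 2 1 67 (.bis 2 7 2 1 101 (.bis 3 7 4 1 69 (.leaf 2) (.leaf 2)) (.bis 2 3 1 2
  100 (.leaf 2) (.leaf 2))) (.leaf 7)) (.leaf 28))) (.bis 3 5 8 1 142 (.bis 1 5 8 1 141 (.leaf
  11) (.bis 0 1 1 4 279 (.leaf 7) (.leaf 11))) (.bis 0 1 1 4 279 (.bis 2 3 1 2 100 (.leaf 7)
  (.leaf 7)) (.bis 0 3 1 4 278 (.leaf 7) (.leaf 11)))))) (.bis 1 5 4 1 133 (.bis 2 5 2 1 153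
  (.bis 3 5 4 1 130 (.bis 4 5 2 1 128 (.leaf 13) (.leaf 8)) (.bis 3 6 8 1 142 (.leaf 8) (.bis 0 3
  1 4 278 (.bis 3 7 4 1 69 (.leaf 2) (.leaf 2)) (.leaf 2)))) (.bis 3 6 8 1 142 (.leaf 28) (.bis 0
  3 1 4 278 (.bis 2 7 2 1 101 (.bis 3 7 4 1 69 (.leaf 2) (.leaf 2)) (.bis 2 3 1 2 100 (.leaf 2)
  (.leaf 2))) (.leaf 2)))) (.bis 1 7 4 1 66 (.bis 3 6 8 1 142 (.leaf 28) (.bis 0 3 1 4 278 (.leaf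
  2) (.leaf 2))) (.bis 3 6 8 1 142 (.bis 1 6 8 1 141 (.leaf 11) (.bis 0 1 1 4 279 (.leaf 7)
  (.leaf 2))) (.bis 0 1 1 4 279 (.bis 2 3 1 2 100 (.leaf 7) (.leaf 7)) (.bis 0 3 1 4 278 (.leaf
  2) (.leaf 2))))))) (.bis 1 5 4 1 133 (.bis 2 5 2 1 153 (.bis 3 5 4 1 130 (.bis 4 5 4 1 143
  (.bis 5 6 1 2 128 (.bis 4 6 1 4 145 (.leaf 2) (.leaf 8)) (.leaf 13)) (.bis 0 4 1 4 284 (.bis 2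
  4 1 8 155 (.bis 1 4 1 8 150 (.bis 4 7 4 1 81 (.bis 5 6 1 4 145 (.leaf 2) (.leaf 8)) (.bis 4 6 2
  1 82 (.leaf 8) (.leaf 6))) (.bis 5 6 1 4 145 (.leaf 2) (.leaf 8))) (.bis 5 6 1 4 145 (.leaf 2)
  (.leaf 8))) (.bis 5 6 1 4 145 (.leaf 2) (.leaf 8)))) (.bis 0 4 1 4 284 (.bis 2 4 1 8 155 (.bis
  1 4 1 8 150 (.bis 4 7 4 1 81 (.bis 3 7 4 1 69 (.leaf 2) (.leaf 2)) (.bis 4 6 2 1 82 (.bis 3 6 2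
  1 68 (.leaf 2) (.leaf 2)) (.bis 3 4 1 1 84 (.leaf 6) (.leaf 2)))) (.bis 3 7 4 1 69 (.leaf 2)
  (.leaf 2))) (.bis 3 7 4 1 69 (.leaf 2) (.bis 3 6 2 1 68 (.leaf 2) (.leaf 2)))) (.bis 0 3 1 4
  278 (.bis 3 7 4 1 69 (.leaf 2) (.leaf 2)) (.leaf 2)))) (.bis 2 4 1 2 103 (.bis 0 4 1 4 284
  (.bis 4 5 8 1 155 (.bis 3 7 4 1 69 (.leaf 2) (.bis 3 6 2 1 68 (.leaf 2) (.leaf 2))) (.bis 1 4 1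
  8 150 (.bis 4 7 4 1 81 (.bis 3 7 4 1 69 (.leaf 2) (.leaf 2)) (.bis 4 6 2 1 82 (.bis 3 6 2 1 68
  (.leaf 2) (.leaf 2)) (.bis 3 4 1 1 84 (.leaf 6) (.leaf 2)))) (.bis 3 7 4 1 69 (.leaf 2) (.leaf
  2)))) (.bis 0 3 1 4 278 (.bis 3 7 4 1 69 (.leaf 2) (.leaf 2)) (.leaf 2))) (.bis 0 3 1 4 278
  (.bis 2 7 2 1 101 (.bis 3 7 4 1 69 (.leaf 2) (.leaf 2)) (.bis 2 3 1 2 100 (.leaf 2) (.leaf 2)))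
  (.leaf 2)))) (.bis 2 4 1 2 103 (.bis 1 4 1 1 85 (.bis 0 4 1 4 284 (.bis 4 5 8 1 150 (.leaf 2)
  (.bis 4 7 4 1 81 (.bis 3 7 4 1 69 (.leaf 2) (.leaf 2)) (.bis 4 6 2 1 82 (.bis 3 6 2 1 68 (.leaf
  2) (.leaf 2)) (.leaf 6)))) (.bis 0 3 1 4 278 (.leaf 2) (.leaf 2))) (.bis 1 7 4 1 66 (.bis 0 3 1
  4 278 (.leaf 2) (.leaf 2)) (.leaf 73))) (.bis 1 7 4 1 66 (.bis 0 3 1 4 278 (.leaf 2) (.leaf 2))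
  (.bis 0 1 1 4 279 (.leaf 7) (.bis 0 3 1 4 278 (.leaf 2) (.leaf 2))))))) (.bis 1 5 4 1 133 (.bis
  2 5 4 1 160 (.bis 5 6 1 2 153 (.bis 4 6 2 1 103 (.bis 0 3 1 4 278 (.bis 6 7 2 1 101 (.bis 3 7 4
  1 69 (.leaf 2) (.leaf 2)) (.bis 3 6 2 1 100 (.leaf 2) (.leaf 2))) (.leaf 2)) (.bis 0 4 1 4 284
  (.bis 4 5 8 1 155 (.bis 3 7 4 1 69 (.leaf 2) (.leaf 2)) (.bis 2 4 1 8 161 (.bis 1 4 1 8 150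
  (.bis 4 7 4 1 81 (.bis 3 7 4 1 69 (.leaf 2) (.leaf 2)) (.bis 3 4 1 1 84 (.leaf 6) (.leaf 2)))
  (.bis 3 7 4 1 69 (.leaf 2) (.leaf 2))) (.bis 3 7 4 1 69 (.leaf 2) (.leaf 2)))) (.bis 0 3 1 4
  278 (.bis 3 7 4 1 69 (.leaf 2) (.leaf 2)) (.leaf 2)))) (.bis 3 5 4 1 130 (.bis 4 5 4 1 143
  (.leaf 13) (.bis 0 4 1 4 284 (.bis 4 6 8 1 155 (.leaf 8) (.bis 2 4 1 8 161 (.bis 1 4 1 8 150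
  (.bis 4 7 4 1 81 (.leaf 8) (.bis 3 4 1 8 147 (.leaf 6) (.leaf 6))) (.leaf 8)) (.leaf 8)))
  (.leaf 8))) (.bis 0 4 1 4 284 (.bis 4 6 8 1 155 (.bis 3 7 4 1 69 (.leaf 2) (.bis 3 6 8 1 154
  (.leaf 2) (.leaf 2))) (.bis 2 4 1 8 161 (.bis 1 4 1 8 150 (.bis 4 7 4 1 81 (.bis 3 7 4 1 69
  (.leaf 2) (.leaf 2)) (.bis 3 4 1 1 84 (.leaf 6) (.leaf 2))) (.bis 3 7 4 1 69 (.leaf 2) (.leaf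
  2))) (.bis 3 7 4 1 69 (.leaf 2) (.leaf 2)))) (.bis 0 3 1 4 278 (.bis 3 7 4 1 69 (.leaf 2)
  (.leaf 2)) (.leaf 2))))) (.bis 2 4 1 1 110 (.bis 4 6 2 1 103 (.bis 0 3 1 4 278 (.bis 6 7 2 1
  101 (.leaf 2) (.leaf 2)) (.leaf 2)) (.bis 0 4 1 4 284 (.bis 4 5 8 1 161 (.leaf 2) (.bis 1 4 1 8
  150 (.bis 4 7 4 1 81 (.leaf 2) (.leaf 6)) (.leaf 2))) (.bis 0 3 1 4 278 (.leaf 2) (.leaf 2))))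
  (.bis 0 2 1 4 282 (.bis 1 2 1 8 159 (.bis 2 7 4 1 105 (.bis 6 7 2 1 101 (.bis 3 7 4 1 69 (.leaf
  2) (.leaf 2)) (.leaf 2)) (.bis 2 6 2 1 109 (.leaf 2) (.bis 2 3 1 1 120 (.leaf 2) (.leaf 9))))
  (.bis 6 7 2 1 101 (.bis 3 7 4 1 69 (.leaf 2) (.leaf 2)) (.leaf 2))) (.bis 0 3 1 4 278 (.bis 6 7
  2 1 101 (.leaf 2) (.leaf 2)) (.bis 0 4 1 2 285 (.bis 6 7 2 1 101 (.leaf 2) (.leaf 2)) (.leaf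
  2)))))) (.bis 2 4 1 1 110 (.bis 4 6 2 1 103 (.bis 1 7 4 1 66 (.leaf 2) (.bis 1 2 2 1 111 (.leaf
  2) (.leaf 26))) (.bis 1 4 1 1 85 (.bis 0 4 1 4 284 (.bis 4 5 8 1 150 (.leaf 2) (.bis 4 7 4 1 81
  (.leaf 2) (.leaf 6))) (.leaf 2)) (.bis 1 7 4 1 66 (.leaf 2) (.bis 1 2 2 1 111 (.bis 0 3 1 4 278
  (.leaf 2) (.leaf 2)) (.bis 0 1 1 4 279 (.leaf 7) (.leaf 2)))))) (.bis 1 2 1 1 104 (.bis 0 2 1 4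
  282 (.bis 2 5 8 1 159 (.bis 6 7 2 1 101 (.leaf 2) (.leaf 2)) (.bis 2 7 4 1 105 (.leaf 2) (.bis
  2 6 2 1 109 (.leaf 2) (.leaf 9)))) (.leaf 2)) (.bis 1 7 4 1 66 (.leaf 2) (.bis 1 4 2 1 111
  (.leaf 2) (.bis 0 1 1 4 279 (.leaf 7) (.leaf 2)))))))))

def lc7 : List Vr := [⟨[73,0,0,0,0,73,84,0], 253452, 0⟩, ⟨[0,24,0,0,0,0,0,0], 10368, 0⟩, ⟨[0,0,28,
  0,0,0,0,0], 10976, 0⟩, ⟨[0,0,0,17,0,0,0,0], 10404, 0⟩, ⟨[0,0,0,0,28,0,0,0], 10976, 0⟩, ⟨[73,0,0,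
  0,0,146,0,79], 242360, 0⟩, ⟨[0,0,0,0,0,0,42,0], 10584, 0⟩, ⟨[73,0,0,0,0,0,0,79], 45260, 0⟩]

theorem lk7 : chkTr lowT (leafLow 3 lowB) lt7 lc7 = true := by decide +kernel

end Pool.Agent.Helper10.Fam.E6
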