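import Pool.Agent.Helper10.Fam.Fast

set_option autoImplicit false
set_option maxRecDepth 1000000

/-!
# Certificate data for `U ⊕ E7` (lattice data and cusps)
-/

namespace Pool.Agent.Helper10.Fam.E7

open Pool.Agent.Helper10.Fam

/-- lattice data -/
def dat : Dat := ⟨7, [[0,0,1,0,0,0,0,1,0], [0,0,0,1,0,0,0,0,0], [1,0,0,1,0,0,
  0,0,0], [0,1,1,0,1,0,0,0,0], [0,0,0,1,0,1,0,0,0], [0,0,0,0,1,0,1,0,0], [0,0,0,0,0,1,0,0,0], [1,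
  0,0,0,0,0,0,0,1], [0,0,0,0,0,0,0,1,0]], [[12,12,18,24,18,12,6,8,4], [12,9,16,20,15,10,5,8,4],
  [18,16,24,32,24,16,8,12,6], [24,20,32,40,30,20,10,16,8], [18,15,24,30,21,14,7,12,6], [12,10,16,
  20,14,8,4,8,4], [6,5,8,10,7,4,1,4,2], [8,8,12,16,12,8,4,4,2], [4,4,6,8,6,4,2,2,0]], 2, [2,2,3,4,
  3,2,1,1,0], 1640, [[2,2,3,4,3,2,1,1,0], [2,2,3,4,3,2,1,1,1], [2,2,3,4,3,2,1,2,1], [3,2,3,4,3,2,
  1,2,1], [3,2,4,4,3,2,1,2,1], [3,2,4,5,3,2,1,2,1], [3,3,4,5,3,2,1,2,1], [3,2,4,5,4,2,1,2,1], [3,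
  3,4,5,4,2,1,2,1], [3,3,4,6,4,2,1,2,1], [3,3,5,6,4,2,1,2,1], [4,3,5,6,4,2,1,2,1], [3,2,4,5,4,3,1,
  2,1], [3,3,4,5,4,3,1,2,1], [3,3,4,6,4,3,1,2,1], [3,3,5,6,4,3,1,2,1], [4,3,5,6,4,3,1,2,1], [3,3,
  4,6,5,3,1,2,1], [3,3,5,6,5,3,1,2,1], [4,3,5,6,5,3,1,2,1], [3,3,5,7,5,3,1,2,1], [4,3,5,7,5,3,1,2,
  1], [3,4,5,7,5,3,1,2,1], [4,4,5,7,5,3,1,2,1], [4,3,6,7,5,3,1,2,1], [4,4,6,7,5,3,1,2,1], [4,4,6,
  8,5,3,1,2,1], [4,4,6,8,6,3,1,2,1], [4,4,6,8,6,4,1,2,1], [3,2,4,5,4,3,2,2,1], [3,3,4,5,4,3,2,2,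
  1], [3,3,4,6,4,3,2,2,1], [3,3,5,6,4,3,2,2,1], [4,3,5,6,4,3,2,2,1], [3,3,4,6,5,3,2,2,1], [3,3,5,
  6,5,3,2,2,1], [4,3,5,6,5,3,2,2,1], [3,3,5,7,5,3,2,2,1], [4,3,5,7,5,3,2,2,1], [3,4,5,7,5,3,2,2,
  1], [4,4,5,7,5,3,2,2,1], [4,3,6,7,5,3,2,2,1], [4,4,6,7,5,3,2,2,1], [4,4,6,8,5,3,2,2,1], [4,4,6,
  8,6,3,2,2,1], [3,3,4,6,5,4,2,2,1], [3,3,5,6,5,4,2,2,1], [4,3,5,6,5,4,2,2,1], [3,3,5,7,5,4,2,2,
  1], [4,3,5,7,5,4,2,2,1], [3,4,5,7,5,4,2,2,1], [4,4,5,7,5,4,2,2,1], [4,3,6,7,5,4,2,2,1], [4,4,6,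
  7,5,4,2,2,1], [4,4,6,8,5,4,2,2,1], [3,3,5,7,6,4,2,2,1], [4,3,5,7,6,4,2,2,1], [3,4,5,7,6,4,2,2,
  1], [4,4,5,7,6,4,2,2,1], [4,3,6,7,6,4,2,2,1], [4,4,6,7,6,4,2,2,1], [3,4,5,8,6,4,2,2,1], [4,4,5,
  8,6,4,2,2,1], [4,3,6,8,6,4,2,2,1], [3,4,6,8,6,4,2,2,1], [5,4,6,8,6,4,2,2,1], [4,5,6,8,6,4,2,2,
  1], [4,4,7,8,6,4,2,2,1], [5,4,7,8,6,4,2,2,1], [4,4,6,9,6,4,2,2,1], [4,5,6,9,6,4,2,2,1], [4,4,7,
  9,6,4,2,2,1], [5,4,7,9,6,4,2,2,1], [4,5,7,9,6,4,2,2,1], [5,5,7,9,6,4,2,2,1], [4,4,6,8,7,4,2,2,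
  1], [4,4,6,9,7,4,2,2,1], [4,5,6,9,7,4,2,2,1], [4,4,7,9,7,4,2,2,1], [5,4,7,9,7,4,2,2,1], [4,5,7,
  9,7,4,2,2,1], [5,5,7,9,7,4,2,2,1], [4,5,7,10,7,4,2,2,1], [5,5,7,10,7,4,2,2,1], [5,5,8,10,7,4,2,
  2,1], [4,4,6,8,6,5,2,2,1], [4,4,6,8,7,5,2,2,1], [4,4,6,9,7,5,2,2,1], [4,5,6,9,7,5,2,2,1], [4,4,
  7,9,7,5,2,2,1], [5,4,7,9,7,5,2,2,1], [4,5,7,9,7,5,2,2,1], [5,5,7,9,7,5,2,2,1], [4,5,7,10,7,5,2,
  2,1], [5,5,7,10,7,5,2,2,1], [5,5,8,10,7,5,2,2,1], [4,5,7,10,8,5,2,2,1], [5,5,7,10,8,5,2,2,1],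
  [5,5,8,10,8,5,2,2,1], [5,5,8,11,8,5,2,2,1], [5,6,8,11,8,5,2,2,1], [4,4,6,8,6,4,3,2,1], [4,4,6,8,
  6,5,3,2,1], [4,4,6,8,7,5,3,2,1], [4,4,6,9,7,5,3,2,1], [4,5,6,9,7,5,3,2,1], [4,4,7,9,7,5,3,2,1],
  [5,4,7,9,7,5,3,2,1], [4,5,7,9,7,5,3,2,1], [5,5,7,9,7,5,3,2,1], [4,5,7,10,7,5,3,2,1], [5,5,7,10,
  7,5,3,2,1], [5,5,8,10,7,5,3,2,1], [4,5,7,10,8,5,3,2,1], [5,5,7,10,8,5,3,2,1], [5,5,8,10,8,5,3,2,
  1], [5,5,8,11,8,5,3,2,1], [5,6,8,11,8,5,3,2,1], [4,5,7,10,8,6,3,2,1], [5,5,7,10,8,6,3,2,1], [5,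
  5,8,10,8,6,3,2,1], [5,5,8,11,8,6,3,2,1], [5,6,8,11,8,6,3,2,1], [5,5,8,11,9,6,3,2,1], [5,6,8,11,
  9,6,3,2,1], [5,6,8,12,9,6,3,2,1], [5,6,9,12,9,6,3,2,1], [6,6,9,12,9,6,3,2,1], [4,3,5,6,4,2,1,3,
  1], [4,3,5,6,4,3,1,3,1], [4,3,5,6,5,3,1,3,1], [4,3,5,7,5,3,1,3,1], [4,4,5,7,5,3,1,3,1], [4,3,6,
  7,5,3,1,3,1], [5,3,6,7,5,3,1,3,1], [4,4,6,7,5,3,1,3,1], [5,4,6,7,5,3,1,3,1], [4,4,6,8,5,3,1,3,
  1], [5,4,6,8,5,3,1,3,1], [5,4,7,8,5,3,1,3,1], [4,4,6,8,6,3,1,3,1], [5,4,6,8,6,3,1,3,1], [5,4,7,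
  8,6,3,1,3,1], [5,4,7,9,6,3,1,3,1], [5,5,7,9,6,3,1,3,1], [4,4,6,8,6,4,1,3,1], [5,4,6,8,6,4,1,3,
  1], [5,4,7,8,6,4,1,3,1], [5,4,7,9,6,4,1,3,1], [5,5,7,9,6,4,1,3,1], [5,4,7,9,7,4,1,3,1], [5,5,7,
  9,7,4,1,3,1], [5,5,7,10,7,4,1,3,1], [5,5,8,10,7,4,1,3,1], [6,5,8,10,7,4,1,3,1], [4,3,5,6,4,3,2,
  3,1], [4,3,5,6,5,3,2,3,1], [4,3,5,7,5,3,2,3,1], [4,4,5,7,5,3,2,3,1], [4,3,6,7,5,3,2,3,1], [5,3,
  6,7,5,3,2,3,1], [4,4,6,7,5,3,2,3,1], [5,4,6,7,5,3,2,3,1], [4,4,6,8,5,3,2,3,1], [5,4,6,8,5,3,2,3,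
  1], [5,4,7,8,5,3,2,3,1], [4,4,6,8,6,3,2,3,1], [5,4,6,8,6,3,2,3,1], [5,4,7,8,6,3,2,3,1], [5,4,7,
  9,6,3,2,3,1], [5,5,7,9,6,3,2,3,1], [4,3,5,6,5,4,2,3,1], [4,3,5,7,5,4,2,3,1], [4,4,5,7,5,4,2,3,
  1], [4,3,6,7,5,4,2,3,1], [5,3,6,7,5,4,2,3,1], [4,4,6,7,5,4,2,3,1], [5,4,6,7,5,4,2,3,1], [4,4,6,
  8,5,4,2,3,1], [5,4,6,8,5,4,2,3,1], [5,4,7,8,5,4,2,3,1], [4,3,5,7,6,4,2,3,1], [4,4,5,7,6,4,2,3,
  1], [4,3,6,7,6,4,2,3,1], [5,3,6,7,6,4,2,3,1], [4,4,6,7,6,4,2,3,1], [5,4,6,7,6,4,2,3,1], [4,4,5,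
  8,6,4,2,3,1], [4,3,6,8,6,4,2,3,1], [5,3,6,8,6,4,2,3,1], [4,5,6,8,6,4,2,3,1], [5,5,6,8,6,4,2,3,
  1], [5,3,7,8,6,4,2,3,1], [4,4,7,8,6,4,2,3,1], [4,4,6,9,6,4,2,3,1], [5,4,6,9,6,4,2,3,1], [4,5,6,
  9,6,4,2,3,1], [5,5,6,9,6,4,2,3,1], [4,4,7,9,6,4,2,3,1], [4,5,7,9,6,4,2,3,1], [4,4,6,8,7,4,2,3,
  1], [5,4,6,8,7,4,2,3,1], [4,4,6,9,7,4,2,3,1], [5,4,6,9,7,4,2,3,1], [4,5,6,9,7,4,2,3,1], [5,5,6,
  9,7,4,2,3,1], [4,4,7,9,7,4,2,3,1], [4,5,7,9,7,4,2,3,1], [4,5,7,10,7,4,2,3,1], [4,4,6,8,6,5,2,3,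
  1], [5,4,6,8,6,5,2,3,1], [4,4,6,8,7,5,2,3,1], [5,4,6,8,7,5,2,3,1], [4,4,6,9,7,5,2,3,1], [5,4,6,
  9,7,5,2,3,1], [4,5,6,9,7,5,2,3,1], [5,5,6,9,7,5,2,3,1], [4,4,7,9,7,5,2,3,1], [4,5,7,9,7,5,2,3,
  1], [4,5,7,10,7,5,2,3,1], [4,5,7,10,8,5,2,3,1], [4,4,6,8,6,4,3,3,1], [5,4,6,8,6,4,3,3,1], [4,4,
  6,8,6,5,3,3,1], [5,4,6,8,6,5,3,3,1], [4,4,6,8,7,5,3,3,1], [5,4,6,8,7,5,3,3,1], [4,4,6,9,7,5,3,3,
  1], [5,4,6,9,7,5,3,3,1], [4,5,6,9,7,5,3,3,1], [5,5,6,9,7,5,3,3,1], [4,4,7,9,7,5,3,3,1], [4,5,7,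
  9,7,5,3,3,1], [4,5,7,10,7,5,3,3,1], [4,5,7,10,8,5,3,3,1], [4,5,7,10,8,6,3,3,1], [6,5,8,10,7,4,1,
  4,1], [5,4,6,8,6,4,2,4,1], [4,3,5,6,4,2,1,3,2], [4,3,5,6,4,3,1,3,2], [4,3,5,6,5,3,1,3,2], [4,3,
  5,7,5,3,1,3,2], [4,4,5,7,5,3,1,3,2], [4,3,6,7,5,3,1,3,2], [5,3,6,7,5,3,1,3,2], [4,4,6,7,5,3,1,3,
  2], [5,4,6,7,5,3,1,3,2], [4,4,6,8,5,3,1,3,2], [5,4,6,8,5,3,1,3,2], [5,4,7,8,5,3,1,3,2], [4,4,6,
  8,6,3,1,3,2], [5,4,6,8,6,3,1,3,2], [5,4,7,8,6,3,1,3,2], [5,4,7,9,6,3,1,3,2], [5,5,7,9,6,3,1,3,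
  2], [4,4,6,8,6,4,1,3,2], [5,4,6,8,6,4,1,3,2], [5,4,7,8,6,4,1,3,2], [5,4,7,9,6,4,1,3,2], [5,5,7,
  9,6,4,1,3,2], [5,4,7,9,7,4,1,3,2], [5,5,7,9,7,4,1,3,2], [5,5,7,10,7,4,1,3,2], [5,5,8,10,7,4,1,3,
  2], [6,5,8,10,7,4,1,3,2], [4,3,5,6,4,3,2,3,2], [4,3,5,6,5,3,2,3,2], [4,3,5,7,5,3,2,3,2], [4,4,5,
  7,5,3,2,3,2], [4,3,6,7,5,3,2,3,2], [5,3,6,7,5,3,2,3,2], [4,4,6,7,5,3,2,3,2], [5,4,6,7,5,3,2,3,
  2], [4,4,6,8,5,3,2,3,2], [5,4,6,8,5,3,2,3,2], [5,4,7,8,5,3,2,3,2], [4,4,6,8,6,3,2,3,2], [5,4,6,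
  8,6,3,2,3,2], [5,4,7,8,6,3,2,3,2], [5,4,7,9,6,3,2,3,2], [5,5,7,9,6,3,2,3,2], [4,3,5,6,5,4,2,3,
  2], [4,3,5,7,5,4,2,3,2], [4,4,5,7,5,4,2,3,2], [4,3,6,7,5,4,2,3,2], [5,3,6,7,5,4,2,3,2], [4,4,6,
  7,5,4,2,3,2], [5,4,6,7,5,4,2,3,2], [4,4,6,8,5,4,2,3,2], [5,4,6,8,5,4,2,3,2], [5,4,7,8,5,4,2,3,
  2], [4,3,5,7,6,4,2,3,2], [4,4,5,7,6,4,2,3,2], [4,3,6,7,6,4,2,3,2], [5,3,6,7,6,4,2,3,2], [4,4,6,
  7,6,4,2,3,2], [5,4,6,7,6,4,2,3,2], [4,4,5,8,6,4,2,3,2], [4,3,6,8,6,4,2,3,2], [5,3,6,8,6,4,2,3,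
  2], [4,5,6,8,6,4,2,3,2], [5,3,7,8,6,4,2,3,2], [4,4,7,8,6,4,2,3,2], [4,4,6,9,6,4,2,3,2], [4,5,6,
  9,6,4,2,3,2], [4,4,7,9,6,4,2,3,2], [4,5,7,9,6,4,2,3,2], [4,4,6,8,7,4,2,3,2], [4,4,6,9,7,4,2,3,
  2], [4,5,6,9,7,4,2,3,2], [4,4,7,9,7,4,2,3,2], [4,5,7,9,7,4,2,3,2], [4,5,7,10,7,4,2,3,2], [4,4,6,
  8,6,5,2,3,2], [4,4,6,8,7,5,2,3,2], [4,4,6,9,7,5,2,3,2], [4,5,6,9,7,5,2,3,2], [4,4,7,9,7,5,2,3,
  2], [4,5,7,9,7,5,2,3,2], [4,5,7,10,7,5,2,3,2], [4,5,7,10,8,5,2,3,2], [4,4,6,8,6,4,3,3,2], [4,4,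
  6,8,6,5,3,3,2], [4,4,6,8,7,5,3,3,2], [4,4,6,9,7,5,3,3,2], [4,5,6,9,7,5,3,3,2], [4,4,7,9,7,5,3,3,
  2], [4,5,7,9,7,5,3,3,2], [4,5,7,10,7,5,3,3,2], [4,5,7,10,8,5,3,3,2], [4,5,7,10,8,6,3,3,2], [5,3,
  6,7,5,3,1,4,2], [5,4,6,7,5,3,1,4,2], [5,4,6,8,5,3,1,4,2], [5,4,7,8,5,3,1,4,2], [6,4,7,8,5,3,1,4,
  2], [5,4,6,8,6,3,1,4,2], [5,4,7,8,6,3,1,4,2], [6,4,7,8,6,3,1,4,2], [5,4,7,9,6,3,1,4,2], [6,4,7,
  9,6,3,1,4,2], [5,5,7,9,6,3,1,4,2], [6,5,7,9,6,3,1,4,2], [6,4,8,9,6,3,1,4,2], [6,5,8,9,6,3,1,4,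
  2], [6,5,8,10,6,3,1,4,2], [6,5,8,10,7,3,1,4,2], [5,4,6,8,6,4,1,4,2], [5,4,7,8,6,4,1,4,2], [6,4,
  7,8,6,4,1,4,2], [5,4,7,9,6,4,1,4,2], [6,4,7,9,6,4,1,4,2], [5,5,7,9,6,4,1,4,2], [6,5,7,9,6,4,1,4,
  2], [6,4,8,9,6,4,1,4,2], [6,5,8,9,6,4,1,4,2], [6,5,8,10,6,4,1,4,2], [5,4,7,9,7,4,1,4,2], [6,4,7,
  9,7,4,1,4,2], [5,5,7,9,7,4,1,4,2], [6,5,7,9,7,4,1,4,2], [6,4,8,9,7,4,1,4,2], [6,5,8,9,7,4,1,4,
  2], [5,5,7,10,7,4,1,4,2], [6,5,7,10,7,4,1,4,2], [6,4,8,10,7,4,1,4,2], [5,5,8,10,7,4,1,4,2], [7,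
  5,8,10,7,4,1,4,2], [6,6,8,10,7,4,1,4,2], [6,5,9,10,7,4,1,4,2], [7,5,9,10,7,4,1,4,2], [6,5,8,11,
  7,4,1,4,2], [6,6,8,11,7,4,1,4,2], [6,5,9,11,7,4,1,4,2], [7,5,9,11,7,4,1,4,2], [6,6,9,11,7,4,1,4,
  2], [7,6,9,11,7,4,1,4,2], [6,5,8,10,8,4,1,4,2], [6,5,8,11,8,4,1,4,2], [6,6,8,11,8,4,1,4,2], [6,
  5,9,11,8,4,1,4,2], [7,5,9,11,8,4,1,4,2], [6,6,9,11,8,4,1,4,2], [7,6,9,11,8,4,1,4,2], [6,6,9,12,
  8,4,1,4,2], [7,6,9,12,8,4,1,4,2], [7,6,10,12,8,4,1,4,2], [6,5,8,10,7,5,1,4,2], [6,5,8,10,8,5,1,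
  4,2], [6,5,8,11,8,5,1,4,2], [6,6,8,11,8,5,1,4,2], [6,5,9,11,8,5,1,4,2], [7,5,9,11,8,5,1,4,2],
  [6,6,9,11,8,5,1,4,2], [7,6,9,11,8,5,1,4,2], [6,6,9,12,8,5,1,4,2], [7,6,9,12,8,5,1,4,2], [7,6,10,
  12,8,5,1,4,2], [6,6,9,12,9,5,1,4,2], [7,6,9,12,9,5,1,4,2], [7,6,10,12,9,5,1,4,2], [7,6,10,13,9,
  5,1,4,2], [7,7,10,13,9,5,1,4,2], [5,3,6,7,5,3,2,4,2], [5,4,6,7,5,3,2,4,2], [5,4,6,8,5,3,2,4,2],
  [5,4,7,8,5,3,2,4,2], [6,4,7,8,5,3,2,4,2], [5,4,6,8,6,3,2,4,2], [5,4,7,8,6,3,2,4,2], [6,4,7,8,6,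
  3,2,4,2], [5,4,7,9,6,3,2,4,2], [6,4,7,9,6,3,2,4,2], [5,5,7,9,6,3,2,4,2], [6,5,7,9,6,3,2,4,2],
  [6,4,8,9,6,3,2,4,2], [6,5,8,9,6,3,2,4,2], [6,5,8,10,6,3,2,4,2], [6,5,8,10,7,3,2,4,2], [5,3,6,7,
  5,4,2,4,2], [5,4,6,7,5,4,2,4,2], [5,4,6,8,5,4,2,4,2], [5,4,7,8,5,4,2,4,2], [6,4,7,8,5,4,2,4,2],
  [5,3,6,7,6,4,2,4,2], [5,4,6,7,6,4,2,4,2], [5,3,6,8,6,4,2,4,2], [5,3,7,8,6,4,2,4,2], [6,3,7,8,6,
  4,2,4,2], [6,5,8,10,7,4,1,5,2], [7,5,8,10,7,4,1,5,2], [7,5,9,10,7,4,1,5,2], [7,5,9,11,7,4,1,5,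
  2], [7,6,9,11,7,4,1,5,2], [7,5,9,11,8,4,1,5,2], [7,6,9,11,8,4,1,5,2], [7,6,9,12,8,4,1,5,2], [7,
  6,10,12,8,4,1,5,2], [8,6,10,12,8,4,1,5,2], [7,5,9,11,8,5,1,5,2], [7,6,9,11,8,5,1,5,2], [7,6,9,
  12,8,5,1,5,2], [7,6,10,12,8,5,1,5,2], [8,6,10,12,8,5,1,5,2], [7,6,9,12,9,5,1,5,2], [7,6,10,12,9,
  5,1,5,2], [8,6,10,12,9,5,1,5,2], [7,6,10,13,9,5,1,5,2], [8,6,10,13,9,5,1,5,2], [7,7,10,13,9,5,1,
  5,2], [8,7,10,13,9,5,1,5,2], [8,6,11,13,9,5,1,5,2], [8,7,11,13,9,5,1,5,2], [8,7,11,14,9,5,1,5,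
  2], [8,7,11,14,10,5,1,5,2], [8,7,11,14,10,6,1,5,2], [6,5,8,10,7,4,1,4,3], [6,5,8,10,7,4,1,5,3],
  [7,5,8,10,7,4,1,5,3], [7,5,9,10,7,4,1,5,3], [7,5,9,11,7,4,1,5,3], [7,6,9,11,7,4,1,5,3], [7,5,9,
  11,8,4,1,5,3], [7,6,9,11,8,4,1,5,3], [7,6,9,12,8,4,1,5,3], [7,6,10,12,8,4,1,5,3], [8,6,10,12,8,
  4,1,5,3], [7,5,9,11,8,5,1,5,3], [7,6,9,11,8,5,1,5,3], [7,6,9,12,8,5,1,5,3], [7,6,10,12,8,5,1,5,
  3], [8,6,10,12,8,5,1,5,3], [7,6,9,12,9,5,1,5,3], [7,6,10,12,9,5,1,5,3], [8,6,10,12,9,5,1,5,3],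
  [7,6,10,13,9,5,1,5,3], [8,6,10,13,9,5,1,5,3], [7,7,10,13,9,5,1,5,3], [8,7,10,13,9,5,1,5,3], [8,
  6,11,13,9,5,1,5,3], [8,7,11,13,9,5,1,5,3], [8,7,11,14,9,5,1,5,3], [8,7,11,14,10,5,1,5,3], [8,7,
  11,14,10,6,1,5,3], [8,6,10,12,8,4,1,6,3], [8,6,10,12,8,5,1,6,3], [8,6,10,12,9,5,1,6,3], [8,6,10,
  13,9,5,1,6,3], [8,7,10,13,9,5,1,6,3], [8,6,11,13,9,5,1,6,3], [9,6,11,13,9,5,1,6,3], [8,7,11,13,
  9,5,1,6,3], [9,7,11,13,9,5,1,6,3], [8,7,11,14,9,5,1,6,3], [9,7,11,14,9,5,1,6,3], [9,7,12,14,9,5,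
  1,6,3], [8,7,11,14,10,5,1,6,3], [9,7,11,14,10,5,1,6,3], [9,7,12,14,10,5,1,6,3], [9,7,12,15,10,5,
  1,6,3], [9,8,12,15,10,5,1,6,3], [8,7,11,14,10,6,1,6,3], [9,7,11,14,10,6,1,6,3], [9,7,12,14,10,6,
  1,6,3], [9,7,12,15,10,6,1,6,3], [9,8,12,15,10,6,1,6,3], [9,7,12,15,11,6,1,6,3], [9,8,12,15,11,6,
  1,6,3], [9,8,12,16,11,6,1,6,3], [9,8,13,16,11,6,1,6,3], [10,8,13,16,11,6,1,6,3], [10,8,13,16,11,
  6,1,7,3], [10,8,13,16,11,6,1,7,4]]⟩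

/-- exclusion vectors -/
def ex : List (List ℕ) := [[449999,400000,624999,800000,600000,400000,
  200000,274999,100000], [449999,400000,600000,800000,600000,400000,200000,300000,149999]]

/-- table of cusps -/
def cT : BT (List ℕ) := (.node [2,2,3,4,3,2,1,1,0] (.node [2,2,3,4,3,2,1,1,
  1] (.node [3,2,3,4,3,2,1,2,1] (.node [3,2,4,5,4,2,1,2,1] (.node [3,3,5,6,4,3,1,2,1] (.node [3,3,
  4,6,4,3,2,2,1] (.node [4,3,6,8,6,4,2,2,1] (.node [6,6,9,12,9,6,3,2,1] (.node [4,4,6,8,6,4,1,3,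
  2] (.node [10,8,13,16,11,6,1,7,3] .nil .nil) .nil) (.node [7,6,9,11,8,4,1,4,2] .nil .nil))
  (.node [5,5,6,8,6,4,2,3,1] (.node [4,5,7,10,7,5,2,3,2] .nil .nil) (.node [7,6,10,13,9,5,1,5,2]
  .nil .nil))) (.node [5,5,8,10,7,5,2,2,1] (.node [4,3,6,7,5,3,2,3,1] (.node [5,4,6,7,5,4,2,3,2]
  .nil .nil) (.node [6,4,8,9,6,3,2,4,2] .nil .nil)) (.node [4,4,6,8,6,5,3,3,1] (.node [6,4,7,9,6,
  4,1,4,2] .nil .nil) (.node [8,6,11,13,9,5,1,5,3] .nil .nil)))) (.node [4,3,5,6,5,4,2,2,1]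
  (.node [5,4,7,9,7,4,2,2,1] (.node [5,4,7,9,6,3,1,3,1] (.node [4,4,6,7,5,3,2,3,2] .nil .nil)
  (.node [7,6,9,12,9,5,1,4,2] .nil .nil)) (.node [4,5,7,9,7,4,2,3,1] (.node [6,4,7,8,5,3,1,4,2]
  .nil .nil) (.node [7,6,9,11,8,4,1,5,3] .nil .nil))) (.node [5,5,7,10,7,5,3,2,1] (.node [5,3,6,7,
  5,4,2,3,1] (.node [4,4,6,9,6,4,2,3,2] .nil .nil) (.node [7,5,9,10,7,4,1,5,2] .nil .nil)) (.node
  [4,3,5,6,4,3,1,3,2] (.node [7,5,8,10,7,4,1,4,2] .nil .nil) (.node [9,7,12,14,9,5,1,6,3] .nil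
  .nil))))) (.node [4,4,5,7,5,3,1,2,1] (.node [3,4,5,7,5,3,2,2,1] (.node [4,4,7,9,6,4,2,2,1]
  (.node [4,4,6,7,5,3,1,3,1] (.node [5,5,8,10,7,4,1,3,2] .nil .nil) (.node [6,5,9,11,8,5,1,4,2]
  .nil .nil)) (.node [4,5,7,9,6,4,2,3,1] (.node [4,5,7,9,7,5,3,3,2] .nil .nil) (.node [8,7,11,14,
  10,6,1,5,2] .nil .nil))) (.node [4,4,6,8,7,5,3,2,1] (.node [5,4,6,8,6,3,2,3,1] (.node [4,4,6,7,
  6,4,2,3,2] .nil .nil) (.node [6,4,7,8,5,4,2,4,2] .nil .nil)) (.node [4,4,7,9,7,5,3,3,1] (.node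
  [5,5,7,9,7,4,1,4,2] .nil .nil) (.node [8,6,10,13,9,5,1,6,3] .nil .nil)))) (.node [3,3,5,7,6,4,2,
  2,1] (.node [4,4,6,9,7,5,2,2,1] (.node [5,5,7,9,7,4,1,3,1] (.node [5,4,7,9,6,3,2,3,2] .nil
  .nil) (.node [6,4,7,8,5,3,2,4,2] .nil .nil)) (.node [4,5,6,9,7,5,2,3,1] (.node [6,4,8,9,6,3,1,4,
  2] .nil .nil) (.node [8,6,10,12,8,5,1,5,3] .nil .nil))) (.node [5,5,7,10,8,6,3,2,1] (.node [4,3,
  6,7,6,4,2,3,1] (.node [4,5,7,9,7,4,2,3,2] .nil .nil) (.node [7,5,9,11,8,5,1,5,2] .nil .nil))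
  (.node [4,4,6,8,5,3,1,3,2] (.node [6,6,9,11,7,4,1,4,2] .nil .nil) (.node [9,7,12,14,10,6,1,6,3]
  .nil .nil)))))) (.node [4,3,5,6,4,2,1,2,1] (.node [4,3,5,6,5,3,1,2,1] (.node [3,3,5,6,5,3,2,2,
  1] (.node [4,4,7,8,6,4,2,2,1] (.node [4,3,5,7,5,3,1,3,1] (.node [5,5,7,9,6,4,1,3,2] .nil .nil)
  (.node [6,5,8,10,7,5,1,4,2] .nil .nil)) (.node [5,4,6,9,6,4,2,3,1] (.node [4,4,6,8,7,5,3,3,2]
  .nil .nil) (.node [8,6,11,13,9,5,1,5,2] .nil .nil))) (.node [5,5,8,11,8,5,2,2,1] (.node [4,4,6,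
  8,5,3,2,3,1] (.node [4,3,5,7,6,4,2,3,2] .nil .nil) (.node [5,3,6,7,5,4,2,4,2] .nil .nil))
  (.node [4,4,6,9,7,5,3,3,1] (.node [6,5,8,9,6,4,1,4,2] .nil .nil) (.node [8,7,11,14,10,6,1,5,3]
  .nil .nil)))) (.node [4,4,5,7,5,4,2,2,1] (.node [5,5,7,10,7,4,2,2,1] (.node [5,4,7,8,6,4,1,3,1]
  (.node [5,4,7,8,5,3,2,3,2] .nil .nil) (.node [5,3,6,7,5,3,2,4,2] .nil .nil)) (.node [4,4,6,8,7,
  5,2,3,1] (.node [5,4,7,9,6,3,1,4,2] .nil .nil) (.node [7,5,9,11,8,5,1,5,3] .nil .nil))) (.node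
  [5,5,8,10,8,5,3,2,1] (.node [5,4,6,8,5,4,2,3,1] (.node [4,4,6,8,7,4,2,3,2] .nil .nil) (.node [7,
  6,9,11,8,4,1,5,2] .nil .nil)) (.node [4,3,6,7,5,3,1,3,2] (.node [6,5,8,11,7,4,1,4,2] .nil .nil)
  (.node [9,7,12,15,10,5,1,6,3] .nil .nil))))) (.node [4,4,6,8,6,3,1,2,1] (.node [4,4,6,8,5,3,2,2,
  1] (.node [4,4,6,8,7,4,2,2,1] (.node [5,4,7,8,5,3,1,3,1] (.node [4,3,5,7,5,3,2,3,2] .nil .nil)
  (.node [6,6,9,12,8,5,1,4,2] .nil .nil)) (.node [5,4,6,9,7,4,2,3,1] (.node [5,3,6,7,5,3,1,4,2]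
  .nil .nil) (.node [7,5,9,10,7,4,1,5,3] .nil .nil))) (.node [5,4,7,9,7,5,3,2,1] (.node [4,3,5,6,
  5,4,2,3,1] (.node [5,3,6,8,6,4,2,3,2] .nil .nil) (.node [5,3,7,8,6,4,2,4,2] .nil .nil)) (.node
  [4,5,7,10,8,6,3,3,1] (.node [5,5,7,10,7,4,1,4,2] .nil .nil) (.node [8,7,11,13,9,5,1,6,3] .nil
  .nil)))) (.node [4,3,6,7,6,4,2,2,1] (.node [4,5,7,9,7,5,2,2,1] (.node [4,3,5,6,4,3,2,3,1]
  (.node [4,4,5,7,5,4,2,3,2] .nil .nil) (.node [5,4,7,9,6,3,2,4,2] .nil .nil)) (.node [4,5,7,10,7,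
  5,2,3,1] (.node [5,4,6,8,6,4,1,4,2] .nil .nil) (.node [7,6,10,13,9,5,1,5,3] .nil .nil))) (.node
  [5,5,8,11,9,6,3,2,1] (.node [4,4,5,8,6,4,2,3,1] (.node [4,4,6,9,7,5,2,3,2] .nil .nil) (.node [8,
  6,10,12,8,5,1,5,2] .nil .nil)) (.node [5,4,6,8,6,3,1,3,2] (.node [6,6,8,11,8,4,1,4,2] .nil
  .nil) (.node [9,8,12,15,11,6,1,6,3] .nil .nil))))))) (.node [3,2,4,5,3,2,1,2,1] (.node [3,3,4,6,
  4,2,1,2,1] (.node [3,3,4,6,5,3,1,2,1] (.node [4,3,5,6,4,3,2,2,1] (.node [5,4,6,8,6,4,2,2,1]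
  (.node [4,3,5,6,4,3,1,3,1] (.node [5,4,7,8,6,4,1,3,2] .nil .nil) (.node [7,6,9,12,8,4,1,4,2]
  .nil .nil)) (.node [4,4,7,8,6,4,2,3,1] (.node [4,4,6,8,6,4,3,3,2] .nil .nil) (.node [7,7,10,13,
  9,5,1,5,2] .nil .nil))) (.node [5,5,7,10,8,5,2,2,1] (.node [4,4,6,7,5,3,2,3,1] (.node [5,4,6,8,
  5,4,2,3,2] .nil .nil) (.node [6,5,8,10,6,3,2,4,2] .nil .nil)) (.node [4,4,6,8,7,5,3,3,1] (.node
  [6,5,7,9,6,4,1,4,2] .nil .nil) (.node [8,7,11,14,9,5,1,5,3] .nil .nil)))) (.node [4,3,5,7,5,4,2,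
  2,1] (.node [5,5,7,9,7,4,2,2,1] (.node [4,4,6,8,6,4,1,3,1] (.node [4,4,6,8,5,3,2,3,2] .nil
  .nil) (.node [7,6,10,13,9,5,1,4,2] .nil .nil)) (.node [4,4,6,8,6,5,2,3,1] (.node [5,4,7,8,6,3,1,
  4,2] .nil .nil) (.node [7,6,10,12,8,4,1,5,3] .nil .nil))) (.node [4,5,7,10,8,5,3,2,1] (.node [5,
  4,6,7,5,4,2,3,1] (.node [4,4,7,9,6,4,2,3,2] .nil .nil) (.node [7,6,9,11,7,4,1,5,2] .nil .nil))
  (.node [4,3,5,7,5,3,1,3,2] (.node [6,5,9,10,7,4,1,4,2] .nil .nil) (.node [9,7,11,14,10,5,1,6,3]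
  .nil .nil))))) (.node [4,4,6,7,5,3,1,2,1] (.node [4,3,6,7,5,3,2,2,1] (.node [4,5,7,9,6,4,2,2,1]
  (.node [4,4,6,8,5,3,1,3,1] (.node [4,3,5,6,4,3,2,3,2] .nil .nil) (.node [6,6,9,11,8,5,1,4,2]
  .nil .nil)) (.node [5,4,6,8,7,4,2,3,1] (.node [4,5,7,10,8,5,3,3,2] .nil .nil) (.node [6,5,8,10,
  7,4,1,5,3] .nil .nil))) (.node [4,5,6,9,7,5,3,2,1] (.node [5,4,7,9,6,3,2,3,1] (.node [4,4,5,8,6,
  4,2,3,2] .nil .nil) (.node [5,4,6,7,6,4,2,4,2] .nil .nil)) (.node [4,5,7,10,7,5,3,3,1] (.node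
  [6,4,8,9,7,4,1,4,2] .nil .nil) (.node [8,6,11,13,9,5,1,6,3] .nil .nil)))) (.node [3,4,5,7,6,4,2,
  2,1] (.node [4,4,7,9,7,5,2,2,1] (.node [5,5,8,10,7,4,1,3,1] (.node [4,3,5,6,5,4,2,3,2] .nil
  .nil) (.node [5,4,7,8,6,3,2,4,2] .nil .nil)) (.node [4,4,7,9,7,5,2,3,1] (.node [6,5,8,10,6,3,1,
  4,2] .nil .nil) (.node [7,6,10,12,9,5,1,5,3] .nil .nil))) (.node [5,5,8,11,8,6,3,2,1] (.node [4,
  4,6,7,6,4,2,3,1] (.node [4,4,6,8,6,5,2,3,2] .nil .nil) (.node [7,6,9,12,8,5,1,5,2] .nil .nil))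
  (.node [5,4,7,8,5,3,1,3,2] (.node [6,5,8,10,8,4,1,4,2] .nil .nil) (.node [9,8,12,15,10,6,1,6,3]
  .nil .nil)))))) (.node [3,3,4,5,4,3,1,2,1] (.node [4,3,5,7,5,3,1,2,1] (.node [3,3,5,7,5,3,2,2,
  1] (.node [4,4,6,9,6,4,2,2,1] (.node [4,3,6,7,5,3,1,3,1] (.node [5,5,7,9,7,4,1,3,2] .nil .nil)
  (.node [6,5,8,11,8,5,1,4,2] .nil .nil)) (.node [5,5,6,9,6,4,2,3,1] (.node [4,5,6,9,7,5,3,3,2]
  .nil .nil) (.node [8,7,11,14,9,5,1,5,2] .nil .nil))) (.node [4,4,6,8,6,4,3,2,1] (.node [5,4,7,8,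
  5,3,2,3,1] (.node [4,3,6,7,6,4,2,3,2] .nil .nil) (.node [5,4,6,8,5,4,2,4,2] .nil .nil)) (.node
  [4,5,6,9,7,5,3,3,1] (.node [5,4,7,9,7,4,1,4,2] .nil .nil) (.node [8,6,10,12,8,5,1,6,3] .nil
  .nil)))) (.node [4,4,6,7,5,4,2,2,1] (.node [4,4,6,8,6,5,2,2,1] (.node [5,5,7,9,6,4,1,3,1]
  (.node [5,4,6,8,6,3,2,3,2] .nil .nil) (.node [5,4,6,8,5,3,2,4,2] .nil .nil)) (.node [4,4,6,9,7,
  5,2,3,1] (.node [5,5,7,9,6,3,1,4,2] .nil .nil) (.node [7,6,9,12,8,5,1,5,3] .nil .nil))) (.node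
  [5,6,8,11,8,5,3,2,1] (.node [4,3,5,7,6,4,2,3,1] (.node [4,5,6,9,7,4,2,3,2] .nil .nil) (.node [7,
  6,10,12,8,4,1,5,2] .nil .nil)) (.node [4,4,6,7,5,3,1,3,2] (.node [6,5,9,11,7,4,1,4,2] .nil
  .nil) (.node [8,7,11,14,10,6,1,6,3] .nil .nil))))) (.node [3,2,4,5,4,3,2,2,1] (.node [3,3,4,6,5,
  4,2,2,1] (.node [4,5,6,9,7,4,2,2,1] (.node [5,4,6,8,6,3,1,3,1] (.node [4,3,6,7,5,3,2,3,2] .nil
  .nil) (.node [7,6,10,12,8,5,1,4,2] .nil .nil)) (.node [5,5,6,9,7,4,2,3,1] (.node [5,4,6,8,5,3,1,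
  4,2] .nil .nil) (.node [7,6,9,11,7,4,1,5,3] .nil .nil))) (.node [5,5,7,9,7,5,3,2,1] (.node [4,4,
  5,7,5,4,2,3,1] (.node [5,3,7,8,6,4,2,3,2] .nil .nil) (.node [6,5,8,10,7,4,1,5,2] .nil .nil))
  (.node [5,4,6,8,6,4,2,4,1] (.node [6,4,8,10,7,4,1,4,2] .nil .nil) (.node [8,7,11,14,9,5,1,6,3]
  .nil .nil)))) (.node [3,4,5,8,6,4,2,2,1] (.node [4,5,7,10,7,5,2,2,1] (.node [4,3,5,7,5,3,2,3,1]
  (.node [5,3,6,7,5,4,2,3,2] .nil .nil) (.node [5,5,7,9,6,3,2,4,2] .nil .nil)) (.node [4,4,6,8,6,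
  4,3,3,1] (.node [6,4,7,8,6,4,1,4,2] .nil .nil) (.node [7,7,10,13,9,5,1,5,3] .nil .nil))) (.node
  [5,6,8,12,9,6,3,2,1] (.node [5,3,6,8,6,4,2,3,1] (.node [4,4,7,9,7,5,2,3,2] .nil .nil) (.node [7,
  6,10,12,9,5,1,5,2] .nil .nil)) (.node [5,4,7,9,6,3,1,3,2] (.node [7,5,9,11,8,4,1,4,2] .nil
  .nil) (.node [9,8,13,16,11,6,1,6,3] .nil .nil)))))))) (.node [2,2,3,4,3,2,1,2,1] (.node [3,2,4,
  4,3,2,1,2,1] (.node [3,3,4,5,4,2,1,2,1] (.node [4,3,5,6,4,3,1,2,1] (.node [3,3,5,6,4,3,2,2,1]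
  (.node [3,4,6,8,6,4,2,2,1] (.node [4,3,5,6,4,2,1,3,1] (.node [5,4,6,8,6,4,1,3,2] (.node [10,8,
  13,16,11,6,1,7,4] .nil .nil) .nil) (.node [6,6,9,12,8,4,1,4,2] .nil .nil)) (.node [5,3,7,8,6,4,
  2,3,1] (.node [4,5,7,10,8,5,2,3,2] .nil .nil) (.node [8,6,10,13,9,5,1,5,2] .nil .nil))) (.node
  [4,5,7,10,8,5,2,2,1] (.node [5,3,6,7,5,3,2,3,1] (.node [4,4,6,8,5,4,2,3,2] .nil .nil) (.node [6,
  5,8,9,6,3,2,4,2] .nil .nil)) (.node [5,4,6,8,6,5,3,3,1] (.node [5,5,7,9,6,4,1,4,2] .nil .nil)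
  (.node [8,7,11,13,9,5,1,5,3] .nil .nil)))) (.node [3,3,5,7,5,4,2,2,1] (.node [4,5,7,9,7,4,2,2,
  1] (.node [5,5,7,9,6,3,1,3,1] (.node [5,4,6,7,5,3,2,3,2] .nil .nil) (.node [7,6,10,12,9,5,1,4,
  2] .nil .nil)) (.node [4,5,7,10,7,4,2,3,1] (.node [5,4,6,8,6,3,1,4,2] .nil .nil) (.node [7,6,9,
  12,8,4,1,5,3] .nil .nil))) (.node [5,5,8,10,7,5,3,2,1] (.node [4,4,6,7,5,4,2,3,1] (.node [4,5,6,
  9,6,4,2,3,2] .nil .nil) (.node [7,5,9,11,7,4,1,5,2] .nil .nil)) (.node [4,3,5,6,5,3,1,3,2]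
  (.node [6,6,8,10,7,4,1,4,2] .nil .nil) (.node [8,7,11,14,10,5,1,6,3] .nil .nil))))) (.node [4,3,
  6,7,5,3,1,2,1] (.node [4,4,5,7,5,3,2,2,1] (.node [5,4,7,9,6,4,2,2,1] (.node [5,4,6,7,5,3,1,3,1]
  (.node [6,5,8,10,7,4,1,3,2] .nil .nil) (.node [7,5,9,11,8,5,1,4,2] .nil .nil)) (.node [4,4,6,8,
  7,4,2,3,1] (.node [4,5,7,10,7,5,3,3,2] .nil .nil) (.node [6,5,8,10,7,4,1,4,3] .nil .nil)))
  (.node [4,4,6,9,7,5,3,2,1] (.node [5,4,7,8,6,3,2,3,1] (.node [5,4,6,7,6,4,2,3,2] .nil .nil)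
  (.node [5,3,6,7,6,4,2,4,2] .nil .nil)) (.node [4,5,7,9,7,5,3,3,1] (.node [6,5,7,9,7,4,1,4,2]
  .nil .nil) (.node [8,7,10,13,9,5,1,6,3] .nil .nil)))) (.node [4,3,5,7,6,4,2,2,1] (.node [4,5,6,
  9,7,5,2,2,1] (.node [5,5,7,10,7,4,1,3,1] (.node [5,5,7,9,6,3,2,3,2] .nil .nil) (.node [5,4,6,8,
  6,3,2,4,2] .nil .nil)) (.node [5,5,6,9,7,5,2,3,1] (.node [6,5,8,9,6,3,1,4,2] .nil .nil) (.node
  [7,6,9,12,9,5,1,5,3] .nil .nil))) (.node [5,5,8,10,8,6,3,2,1] (.node [5,3,6,7,6,4,2,3,1] (.node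
  [4,5,7,10,7,4,2,3,2] .nil .nil) (.node [7,6,9,11,8,5,1,5,2] .nil .nil)) (.node [5,4,6,8,5,3,1,3,
  2] (.node [7,6,9,11,7,4,1,4,2] .nil .nil) (.node [9,7,12,15,10,6,1,6,3] .nil .nil)))))) (.node
  [3,2,4,5,4,3,1,2,1] (.node [3,3,5,7,5,3,1,2,1] (.node [4,3,5,6,5,3,2,2,1] (.node [5,4,7,8,6,4,2,
  2,1] (.node [4,4,5,7,5,3,1,3,1] (.node [5,4,7,9,7,4,1,3,2] .nil .nil) (.node [6,5,8,10,8,5,1,4,
  2] .nil .nil)) (.node [4,5,6,9,6,4,2,3,1] (.node [4,4,6,9,7,5,3,3,2] .nil .nil) (.node [8,7,11,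
  13,9,5,1,5,2] .nil .nil))) (.node [5,6,8,11,8,5,2,2,1] (.node [5,4,6,8,5,3,2,3,1] (.node [4,4,5,
  7,6,4,2,3,2] .nil .nil) (.node [5,4,6,7,5,4,2,4,2] .nil .nil)) (.node [5,4,6,9,7,5,3,3,1]
  (.node [6,5,8,10,6,4,1,4,2] .nil .nil) (.node [8,6,10,12,8,4,1,6,3] .nil .nil)))) (.node [4,3,6,
  7,5,4,2,2,1] (.node [5,5,8,10,7,4,2,2,1] (.node [5,4,7,9,6,4,1,3,1] (.node [4,4,6,8,6,3,2,3,2]
  .nil .nil) (.node [5,4,6,7,5,3,2,4,2] .nil .nil)) (.node [5,4,6,8,7,5,2,3,1] (.node [6,4,7,9,6,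
  3,1,4,2] .nil .nil) (.node [7,6,9,11,8,5,1,5,3] .nil .nil))) (.node [5,5,8,11,8,5,3,2,1] (.node
  [5,4,7,8,5,4,2,3,1] (.node [4,4,6,9,7,4,2,3,2] .nil .nil) (.node [7,6,9,12,8,4,1,5,2] .nil
  .nil)) (.node [5,3,6,7,5,3,1,3,2] (.node [6,6,8,11,7,4,1,4,2] .nil .nil) (.node [9,8,12,15,10,5,
  1,6,3] .nil .nil))))) (.node [4,4,6,8,6,4,1,2,1] (.node [4,4,6,8,6,3,2,2,1] (.node [4,4,6,9,7,4,
  2,2,1] (.node [4,4,6,8,6,3,1,3,1] (.node [4,4,5,7,5,3,2,3,2] .nil .nil) (.node [7,6,9,12,8,5,1,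
  4,2] .nil .nil)) (.node [4,5,6,9,7,4,2,3,1] (.node [5,4,6,7,5,3,1,4,2] .nil .nil) (.node [7,5,9,
  11,7,4,1,5,3] .nil .nil))) (.node [4,5,7,9,7,5,3,2,1] (.node [4,3,5,7,5,4,2,3,1] (.node [4,5,6,
  8,6,4,2,3,2] .nil .nil) (.node [6,3,7,8,6,4,2,4,2] .nil .nil)) (.node [6,5,8,10,7,4,1,4,1]
  (.node [6,5,7,10,7,4,1,4,2] .nil .nil) (.node [9,7,11,13,9,5,1,6,3] .nil .nil)))) (.node [4,4,6,
  7,6,4,2,2,1] (.node [5,5,7,9,7,5,2,2,1] (.node [4,3,5,6,5,3,2,3,1] (.node [4,3,6,7,5,4,2,3,2]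
  .nil .nil) (.node [6,4,7,9,6,3,2,4,2] .nil .nil)) (.node [4,5,7,10,8,5,2,3,1] (.node [5,4,7,8,6,
  4,1,4,2] .nil .nil) (.node [8,6,10,13,9,5,1,5,3] .nil .nil))) (.node [5,6,8,11,9,6,3,2,1]
  (.node [4,3,6,8,6,4,2,3,1] (.node [4,5,6,9,7,5,2,3,2] .nil .nil) (.node [7,6,9,12,9,5,1,5,2]
  .nil .nil)) (.node [5,4,7,8,6,3,1,3,2] (.node [6,5,9,11,8,4,1,4,2] .nil .nil) (.node [9,8,12,16,
  11,6,1,6,3] .nil .nil))))))) (.node [3,3,4,5,3,2,1,2,1] (.node [3,3,5,6,4,2,1,2,1] (.node [3,3,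
  5,6,5,3,1,2,1] (.node [3,3,4,6,5,3,2,2,1] (.node [4,5,6,8,6,4,2,2,1] (.node [4,3,5,6,5,3,1,3,1]
  (.node [5,4,7,9,6,4,1,3,2] .nil .nil) (.node [7,6,10,12,8,4,1,4,2] .nil .nil)) (.node [4,4,6,9,
  6,4,2,3,1] (.node [4,4,6,8,6,5,3,3,2] .nil .nil) (.node [8,7,10,13,9,5,1,5,2] .nil .nil)))
  (.node [5,5,8,10,8,5,2,2,1] (.node [5,4,6,7,5,3,2,3,1] (.node [5,4,7,8,5,4,2,3,2] .nil .nil)
  (.node [6,5,8,10,7,3,2,4,2] .nil .nil)) (.node [5,4,6,8,7,5,3,3,1] (.node [6,4,8,9,6,4,1,4,2]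
  .nil .nil) (.node [8,7,11,14,10,5,1,5,3] .nil .nil)))) (.node [3,4,5,7,5,4,2,2,1] (.node [4,5,7,
  10,7,4,2,2,1] (.node [5,4,6,8,6,4,1,3,1] (.node [5,4,6,8,5,3,2,3,2] .nil .nil) (.node [7,7,10,
  13,9,5,1,4,2] .nil .nil)) (.node [5,4,6,8,6,5,2,3,1] (.node [6,4,7,8,6,3,1,4,2] .nil .nil)
  (.node [8,6,10,12,8,4,1,5,3] .nil .nil))) (.node [5,5,7,10,8,5,3,2,1] (.node [4,4,6,8,5,4,2,3,
  1] (.node [4,5,7,9,6,4,2,3,2] .nil .nil) (.node [7,5,9,11,8,4,1,5,2] .nil .nil)) (.node [4,4,5,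
  7,5,3,1,3,2] (.node [7,5,9,10,7,4,1,4,2] .nil .nil) (.node [9,7,12,14,10,5,1,6,3] .nil
  .nil))))) (.node [4,4,6,8,5,3,1,2,1] (.node [4,4,6,7,5,3,2,2,1] (.node [5,5,7,9,6,4,2,2,1]
  (.node [5,4,6,8,5,3,1,3,1] (.node [4,3,5,6,5,3,2,3,2] .nil .nil) (.node [7,6,9,11,8,5,1,4,2]
  .nil .nil)) (.node [4,4,6,9,7,4,2,3,1] (.node [4,5,7,10,8,6,3,3,2] .nil .nil) (.node [7,5,8,10,
  7,4,1,5,3] .nil .nil))) (.node [4,4,7,9,7,5,3,2,1] (.node [5,5,7,9,6,3,2,3,1] (.node [4,3,6,8,6,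
  4,2,3,2] .nil .nil) (.node [5,3,6,8,6,4,2,4,2] .nil .nil)) (.node [4,5,7,10,8,5,3,3,1] (.node
  [6,5,8,9,7,4,1,4,2] .nil .nil) (.node [9,6,11,13,9,5,1,6,3] .nil .nil)))) (.node [4,4,5,7,6,4,2,
  2,1] (.node [5,4,7,9,7,5,2,2,1] (.node [6,5,8,10,7,4,1,3,1] (.node [4,3,5,7,5,4,2,3,2] .nil
  .nil) (.node [6,4,7,8,6,3,2,4,2] .nil .nil)) (.node [4,5,7,9,7,5,2,3,1] (.node [6,5,8,10,7,3,1,
  4,2] .nil .nil) (.node [8,6,10,12,9,5,1,5,3] .nil .nil))) (.node [5,6,8,11,8,6,3,2,1] (.node [5,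
  4,6,7,6,4,2,3,1] (.node [4,4,6,8,7,5,2,3,2] .nil .nil) (.node [7,6,10,12,8,5,1,5,2] .nil .nil))
  (.node [4,4,6,8,6,3,1,3,2] (.node [6,5,8,11,8,4,1,4,2] .nil .nil) (.node [9,7,12,15,11,6,1,6,3]
  .nil .nil)))))) (.node [3,3,4,6,4,3,1,2,1] (.node [3,4,5,7,5,3,1,2,1] (.node [4,3,5,7,5,3,2,2,
  1] (.node [4,5,6,9,6,4,2,2,1] (.node [5,3,6,7,5,3,1,3,1] (.node [5,5,7,10,7,4,1,3,2] .nil .nil)
  (.node [6,6,8,11,8,5,1,4,2] .nil .nil)) (.node [4,4,7,9,6,4,2,3,1] (.node [4,4,7,9,7,5,3,3,2]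
  .nil .nil) (.node [8,7,11,14,10,5,1,5,2] .nil .nil))) (.node [4,4,6,8,6,5,3,2,1] (.node [4,4,6,
  8,6,3,2,3,1] (.node [5,3,6,7,6,4,2,3,2] .nil .nil) (.node [5,4,7,8,5,4,2,4,2] .nil .nil))
  (.node [5,5,6,9,7,5,3,3,1] (.node [6,4,7,9,7,4,1,4,2] .nil .nil) (.node [8,6,10,12,9,5,1,6,3]
  .nil .nil)))) (.node [4,4,6,8,5,4,2,2,1] (.node [4,4,6,8,7,5,2,2,1] (.node [5,4,7,9,7,4,1,3,1]
  (.node [5,4,7,8,6,3,2,3,2] .nil .nil) (.node [5,4,7,8,5,3,2,4,2] .nil .nil)) (.node [5,4,6,9,7,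
  5,2,3,1] (.node [6,5,7,9,6,3,1,4,2] .nil .nil) (.node [7,6,10,12,8,5,1,5,3] .nil .nil))) (.node
  [4,5,7,10,8,6,3,2,1] (.node [4,4,5,7,6,4,2,3,1] (.node [4,4,7,9,7,4,2,3,2] .nil .nil) (.node [8,
  6,10,12,8,4,1,5,2] .nil .nil)) (.node [5,4,6,7,5,3,1,3,2] (.node [7,5,9,11,7,4,1,4,2] .nil
  .nil) (.node [9,7,11,14,10,6,1,6,3] .nil .nil))))) (.node [3,3,4,5,4,3,2,2,1] (.node [3,3,5,6,5,
  4,2,2,1] (.node [4,4,7,9,7,4,2,2,1] (.node [5,4,7,8,6,3,1,3,1] (.node [5,3,6,7,5,3,2,3,2] .nil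
  .nil) (.node [6,6,9,12,9,5,1,4,2] .nil .nil)) (.node [4,4,7,9,7,4,2,3,1] (.node [5,4,7,8,5,3,1,
  4,2] .nil .nil) (.node [7,5,9,11,8,4,1,5,3] .nil .nil))) (.node [4,5,7,10,7,5,3,2,1] (.node [4,
  3,6,7,5,4,2,3,1] (.node [4,4,7,8,6,4,2,3,2] .nil .nil) (.node [7,5,8,10,7,4,1,5,2] .nil .nil))
  (.node [4,3,5,6,4,2,1,3,2] (.node [5,5,8,10,7,4,1,4,2] .nil .nil) (.node [9,7,11,14,9,5,1,6,3]
  .nil .nil)))) (.node [4,4,5,8,6,4,2,2,1] (.node [5,5,7,10,7,5,2,2,1] (.node [4,4,5,7,5,3,2,3,1]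
  (.node [4,4,6,7,5,4,2,3,2] .nil .nil) (.node [6,5,7,9,6,3,2,4,2] .nil .nil)) (.node [5,4,6,8,6,
  4,3,3,1] (.node [5,4,7,9,6,4,1,4,2] .nil .nil) (.node [8,7,10,13,9,5,1,5,3] .nil .nil))) (.node
  [5,6,9,12,9,6,3,2,1] (.node [4,5,6,8,6,4,2,3,1] (.node [4,5,7,9,7,5,2,3,2] .nil .nil) (.node [8,
  6,10,12,9,5,1,5,2] .nil .nil)) (.node [5,5,7,9,6,3,1,3,2] (.node [6,6,9,11,8,4,1,4,2] .nil
  .nil) (.node [10,8,13,16,11,6,1,6,3] .nil .nil)))))))))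

/-- indices of reflected cusps -/
def cK : List (List ℕ) := [[0,0,0,0,0,0,0,0,2], [0,0,0,0,0,0,0,
  3,1], [4,0,0,0,0,0,0,2,0], [3,0,5,0,0,0,0,0,0], [0,0,4,6,0,0,0,0,0], [0,7,0,5,8,0,0,0,0], [0,6,
  0,0,9,0,0,0,0], [0,9,0,0,6,13,0,0,0], [0,8,0,10,7,14,0,0,0], [0,0,11,9,0,15,0,0,0], [12,0,10,0,
  0,16,0,0,0], [11,0,0,0,0,17,0,129,0], [0,14,0,0,0,8,30,0,0], [0,13,0,15,0,9,31,0,0], [0,0,16,14,
  18,10,32,0,0], [17,0,15,0,19,11,33,0,0], [16,0,0,0,20,12,34,130,0], [0,0,19,0,15,0,35,0,0], [20,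
  0,18,21,16,0,36,0,0], [19,0,0,22,17,0,37,131,0], [22,23,0,19,0,0,38,0,0], [21,24,25,20,0,0,39,
  132,0], [24,21,0,0,0,0,40,0,0], [23,22,26,0,0,0,41,133,0], [0,26,22,0,0,0,42,134,0], [0,25,24,
  27,0,0,43,136,0], [0,0,0,26,28,0,44,138,0], [0,0,0,0,27,29,45,141,0], [0,0,0,0,0,28,102,146,0],
  [0,31,0,0,0,0,13,0,0], [0,30,0,32,0,0,14,0,0], [0,0,33,31,35,0,15,0,0], [34,0,32,0,36,0,16,0,0],
   [33,0,0,0,37,0,17,156,0], [0,0,36,0,32,46,18,0,0], [37,0,35,38,33,47,19,0,0], [36,0,0,39,34,48,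
  20,157,0], [39,40,0,36,0,49,21,0,0], [38,41,42,37,0,50,22,158,0], [41,38,0,0,0,51,23,0,0], [40,
  39,43,0,0,52,24,159,0], [0,43,39,0,0,53,25,160,0], [0,42,41,44,0,54,26,162,0], [0,0,0,43,45,55,
  27,164,0], [0,0,0,0,44,86,28,167,0], [0,0,47,0,0,35,0,0,0], [48,0,46,49,0,36,0,0,0], [47,0,0,50,
  0,37,0,172,0], [50,51,0,47,56,38,0,0,0], [49,52,53,48,57,39,0,173,0], [52,49,0,0,58,40,0,0,0],
  [51,50,54,0,59,41,0,174,0], [0,54,50,0,60,42,0,175,0], [0,53,52,55,61,43,0,177,0], [0,0,0,54,76,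
  44,0,179,0], [57,58,0,0,49,0,0,0,0], [56,59,60,0,50,0,0,182,0], [59,56,0,62,51,0,0,0,0], [58,57,
  61,63,52,0,0,183,0], [0,61,57,64,53,0,0,184,0], [0,60,59,70,54,0,0,186,0], [63,0,65,58,0,0,0,0,
  0], [62,0,68,59,0,0,0,188,0], [0,67,0,60,0,0,0,189,0], [66,0,62,0,0,0,0,0,0], [65,0,69,0,0,0,0,
  238,0], [0,64,0,71,0,0,0,191,0], [69,0,63,72,0,0,0,194,0], [68,0,66,73,0,0,0,0,0], [0,71,72,61,
  77,0,0,195,0], [0,70,74,67,78,0,0,197,0], [73,74,70,68,79,0,0,199,0], [72,75,0,69,80,0,0,0,0],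
  [75,72,71,0,81,0,0,200,0], [74,73,0,0,82,0,0,0,0], [0,0,0,77,55,87,0,201,0], [0,78,79,76,70,88,
  0,203,0], [0,77,81,0,71,89,0,205,0], [80,81,77,0,72,90,0,207,0], [79,82,0,0,73,91,0,0,0], [82,
  79,78,83,74,92,0,208,0], [81,80,0,84,75,93,0,0,0], [84,0,0,81,0,94,0,209,0], [83,0,85,82,0,95,0,
  0,0], [0,0,84,0,0,96,0,0,0], [0,0,0,0,87,45,103,210,0], [0,0,0,88,86,76,104,212,0], [0,89,90,87,
  0,77,105,214,0], [0,88,92,0,0,78,106,216,0], [91,92,88,0,0,79,107,218,0], [90,93,0,0,0,80,108,0,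
  0], [93,90,89,94,0,81,109,219,0], [92,91,0,95,0,82,110,0,0], [95,0,0,92,97,83,111,220,0], [94,0,
  96,93,98,84,112,0,0], [0,0,95,0,99,85,113,0,0], [98,0,0,0,94,0,114,221,0], [97,0,99,0,95,0,115,
  0,0], [0,0,98,100,96,0,116,0,0], [0,101,0,99,0,0,117,0,0], [0,100,0,0,0,0,118,0,0], [0,0,0,0,0,
  103,29,222,0], [0,0,0,0,104,102,86,224,0], [0,0,0,105,103,0,87,226,0], [0,106,107,104,0,0,88,
  228,0], [0,105,109,0,0,0,89,230,0], [108,109,105,0,0,0,90,232,0], [107,110,0,0,0,0,91,0,0],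
  [110,107,106,111,0,0,92,233,0], [109,108,0,112,0,0,93,0,0], [112,0,0,109,114,0,94,234,0], [111,
  0,113,110,115,0,95,0,0], [0,0,112,0,116,0,96,0,0], [115,0,0,0,111,119,97,235,0], [114,0,116,0,
  112,120,98,0,0], [0,0,115,117,113,121,99,0,0], [0,118,0,116,0,122,100,0,0], [0,117,0,0,0,123,
  101,0,0], [120,0,0,0,0,114,0,236,0], [119,0,121,0,0,115,0,0,0], [0,0,120,122,0,116,0,0,0], [0,
  123,0,121,124,117,0,0,0], [0,122,0,0,125,118,0,0,0], [0,125,0,0,122,0,0,0,0], [0,124,0,126,123,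
  0,0,0,0], [0,0,127,125,0,0,0,0,0], [128,0,126,0,0,0,0,0,0], [127,0,0,0,0,0,0,0,0], [0,0,0,0,0,
  130,0,12,239], [0,0,0,0,131,129,156,17,240], [0,0,0,132,130,0,157,20,241], [0,133,134,131,0,0,
  158,22,242], [0,132,136,0,0,0,159,24,243], [135,136,132,0,0,0,160,25,244], [134,137,0,0,0,0,161,
  0,245], [137,134,133,138,0,0,162,26,246], [136,135,0,139,0,0,163,0,247], [139,0,0,136,141,0,164,
  27,248], [138,0,140,137,142,0,165,0,249], [0,0,139,0,143,0,166,0,250], [142,0,0,0,138,146,167,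
  28,251], [141,0,143,0,139,147,168,0,252], [0,0,142,144,140,148,169,0,253], [0,145,0,143,0,149,
  170,0,254], [0,144,0,0,0,150,171,0,255], [147,0,0,0,0,141,222,29,256], [146,0,148,0,0,142,223,0,
  257], [0,0,147,149,0,143,0,0,258], [0,150,0,148,151,144,0,0,259], [0,149,0,0,152,145,0,0,260],
  [0,152,0,0,149,0,0,0,261], [0,151,0,153,150,0,0,0,262], [0,0,154,152,0,0,0,0,263], [155,0,153,0,
  0,0,0,0,264], [154,0,0,0,0,0,0,237,265], [0,0,0,0,157,0,130,34,266], [0,0,0,158,156,172,131,37,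
  267], [0,159,160,157,0,173,132,39,268], [0,158,162,0,0,174,133,41,269], [161,162,158,0,0,175,
  134,42,270], [160,163,0,0,0,176,135,0,271], [163,160,159,164,0,177,136,43,272], [162,161,0,165,
  0,178,137,0,273], [165,0,0,162,167,179,138,44,274], [164,0,166,163,168,180,139,0,275], [0,0,165,
  0,169,181,140,0,276], [168,0,0,0,164,210,141,45,277], [167,0,169,0,165,211,142,0,278], [0,0,168,
  170,166,0,143,0,279], [0,171,0,169,0,0,144,0,280], [0,170,0,0,0,0,145,0,281], [0,0,0,173,0,157,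
  0,48,282], [0,174,175,172,182,158,0,50,283], [0,173,177,0,183,159,0,52,284], [176,177,173,0,184,
  160,0,53,285], [175,178,0,0,185,161,0,0,286], [178,175,174,179,186,162,0,54,287], [177,176,0,
  180,187,163,0,0,288], [180,0,0,177,201,164,0,55,289], [179,0,181,178,202,165,0,0,290], [0,0,180,
  0,0,166,0,0,291], [0,183,184,0,173,0,0,57,292], [0,182,186,188,174,0,0,59,293], [185,186,182,
  189,175,0,0,60,294], [184,187,0,190,176,0,0,0,295], [187,184,183,195,177,0,0,61,296], [186,185,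
  0,196,178,0,0,0,297], [0,0,194,183,0,0,0,63,298], [190,191,0,184,0,0,0,64,299], [189,192,193,
  185,0,0,0,0,300], [192,189,0,197,0,0,0,67,301], [191,190,0,198,0,0,0,0,0], [0,0,190,0,0,0,0,0,
  302], [0,0,188,199,0,0,0,68,303], [196,197,199,186,203,0,0,70,304], [195,198,0,187,204,0,0,0,0],
   [198,195,200,191,205,0,0,71,305], [197,196,0,192,206,0,0,0,0], [0,200,195,194,207,0,0,72,306],
  [0,199,197,0,208,0,0,74,307], [202,0,0,203,179,212,0,76,308], [201,0,0,204,180,213,0,0,0], [204,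
  205,207,201,195,214,0,77,309], [203,206,0,202,196,215,0,0,0], [206,203,208,0,197,216,0,78,310],
  [205,204,0,0,198,217,0,0,0], [0,208,203,0,199,218,0,79,311], [0,207,205,209,200,219,0,81,312],
  [0,0,0,208,0,220,0,83,313], [211,0,0,0,212,167,224,86,314], [210,0,0,0,213,168,225,0,0], [213,0,
  0,214,210,201,226,87,315], [212,0,0,215,211,202,227,0,0], [215,216,218,212,0,203,228,88,316],
  [214,217,0,213,0,204,229,0,0], [217,214,219,0,0,205,230,89,317], [216,215,0,0,0,206,231,0,0],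
  [0,219,214,0,0,207,232,90,318], [0,218,216,220,0,208,233,92,319], [0,0,0,219,221,209,234,94,
  320], [0,0,0,0,220,0,235,97,321], [223,0,0,0,0,224,146,102,322], [222,0,0,0,0,225,147,0,0],
  [225,0,0,0,226,222,210,103,323], [224,0,0,0,227,223,211,0,0], [227,0,0,228,224,0,212,104,324],
  [226,0,0,229,225,0,213,0,0], [229,230,232,226,0,0,214,105,325], [228,231,0,227,0,0,215,0,0],
  [231,228,233,0,0,0,216,106,326], [230,229,0,0,0,0,217,0,0], [0,233,228,0,0,0,218,107,327], [0,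
  232,230,234,0,0,219,109,328], [0,0,0,233,235,0,220,111,329], [0,0,0,0,234,236,221,114,330], [0,
  0,0,0,0,235,0,119,331], [0,0,0,0,0,0,0,155,457], [0,0,0,0,0,0,0,66,0], [0,0,0,0,0,240,0,0,129],
  [0,0,0,0,241,239,266,0,130], [0,0,0,242,240,0,267,0,131], [0,243,244,241,0,0,268,0,132], [0,242,
  246,0,0,0,269,0,133], [245,246,242,0,0,0,270,0,134], [244,247,0,0,0,0,271,332,135], [247,244,
  243,248,0,0,272,0,136], [246,245,0,249,0,0,273,333,137], [249,0,0,246,251,0,274,0,138], [248,0,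
  250,247,252,0,275,334,139], [0,0,249,0,253,0,276,335,140], [252,0,0,0,248,256,277,0,141], [251,
  0,253,0,249,257,278,337,142], [0,0,252,254,250,258,279,338,143], [0,255,0,253,0,259,280,340,
  144], [0,254,0,0,0,260,281,342,145], [257,0,0,0,0,251,322,0,146], [256,0,258,0,0,252,0,348,147],
   [0,0,257,259,0,253,0,349,148], [0,260,0,258,261,254,0,351,149], [0,259,0,0,262,255,0,353,150],
  [0,262,0,0,259,0,0,358,151], [0,261,0,263,260,0,0,360,152], [0,0,264,262,0,0,0,364,153], [265,0,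
  263,0,0,0,0,367,154], [264,0,0,0,0,0,0,430,155], [0,0,0,0,267,0,240,0,156], [0,0,0,268,266,282,
  241,0,157], [0,269,270,267,0,283,242,0,158], [0,268,272,0,0,284,243,0,159], [271,272,268,0,0,
  285,244,0,160], [270,273,0,0,0,286,245,404,161], [273,270,269,274,0,287,246,0,162], [272,271,0,
  275,0,288,247,405,163], [275,0,0,272,277,289,248,0,164], [274,0,276,273,278,290,249,406,165],
  [0,0,275,0,279,291,250,407,166], [278,0,0,0,274,314,251,0,167], [277,0,279,0,275,0,252,409,168],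
   [0,0,278,280,276,0,253,410,169], [0,281,0,279,0,0,254,412,170], [0,280,0,0,0,0,255,414,171],
  [0,0,0,283,0,267,0,0,172], [0,284,285,282,292,268,0,0,173], [0,283,287,0,293,269,0,0,174], [286,
  287,283,0,294,270,0,0,175], [285,288,0,0,295,271,0,420,176], [288,285,284,289,296,272,0,0,177],
  [287,286,0,290,297,273,0,421,178], [290,0,0,287,308,274,0,0,179], [289,0,291,288,0,275,0,422,
  180], [0,0,290,0,0,276,0,423,181], [0,293,294,0,283,0,0,0,182], [0,292,296,298,284,0,0,0,183],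
  [295,296,292,299,285,0,0,0,184], [294,297,0,300,286,0,0,425,185], [297,294,293,304,287,0,0,0,
  186], [296,295,0,0,288,0,0,426,187], [0,0,303,293,0,0,0,0,188], [300,301,0,294,0,0,0,0,189],
  [299,0,302,295,0,0,0,427,190], [0,299,0,305,0,0,0,0,191], [0,0,300,0,0,0,0,428,193], [0,0,298,
  306,0,0,0,0,194], [0,305,306,296,309,0,0,0,195], [0,304,307,301,310,0,0,0,197], [0,307,304,303,
  311,0,0,0,199], [0,306,305,0,312,0,0,0,200], [0,0,0,309,289,315,0,0,201], [0,310,311,308,304,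
  316,0,0,203], [0,309,312,0,305,317,0,0,205], [0,312,309,0,306,318,0,0,207], [0,311,310,313,307,
  319,0,0,208], [0,0,0,312,0,320,0,0,209], [0,0,0,0,315,277,323,0,210], [0,0,0,316,314,308,324,0,
  212], [0,317,318,315,0,309,325,0,214], [0,316,319,0,0,310,326,0,216], [0,319,316,0,0,311,327,0,
  218], [0,318,317,320,0,312,328,0,219], [0,0,0,319,321,313,329,0,220], [0,0,0,0,320,0,330,0,221],
   [0,0,0,0,0,323,256,0,222], [0,0,0,0,324,322,314,0,224], [0,0,0,325,323,0,315,0,226], [0,326,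
  327,324,0,0,316,0,228], [0,325,328,0,0,0,317,0,230], [0,328,325,0,0,0,318,0,232], [0,327,326,
  329,0,0,319,0,233], [0,0,0,328,330,0,320,0,234], [0,0,0,0,329,331,321,0,235], [0,0,0,0,0,330,0,
  0,236], [0,333,0,0,0,0,404,245,0], [0,332,0,334,0,0,405,247,0], [0,0,335,333,337,0,406,249,0],
  [336,0,334,0,338,0,407,250,0], [335,0,0,0,339,0,408,0,0], [0,0,338,0,334,348,409,252,0], [339,0,
  337,340,335,349,410,253,0], [338,0,0,341,336,350,411,0,0], [341,342,0,338,0,351,412,254,0],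
  [340,343,344,339,0,352,413,0,0], [343,340,0,0,0,353,414,255,0], [342,341,345,0,0,354,415,0,0],
  [0,345,341,0,0,355,416,0,0], [0,344,343,346,0,356,417,0,0], [0,0,0,345,347,357,418,0,0], [0,0,0,
  0,346,388,419,0,0], [0,0,349,0,0,337,0,257,0], [350,0,348,351,0,338,0,258,0], [349,0,0,352,0,
  339,0,0,0], [352,353,0,349,358,340,0,259,0], [351,354,355,350,359,341,0,0,0], [354,351,0,0,360,
  342,0,260,0], [353,352,356,0,361,343,0,0,0], [0,356,352,0,362,344,0,0,0], [0,355,354,357,363,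
  345,0,0,0], [0,0,0,356,378,346,0,0,0], [359,360,0,0,351,0,0,261,0], [358,361,362,0,352,0,0,0,0],
   [361,358,0,364,353,0,0,262,0], [360,359,363,365,354,0,0,0,0], [0,363,359,366,355,0,0,0,0], [0,
  362,361,372,356,0,0,0,0], [365,0,367,360,0,0,0,263,0], [364,0,370,361,0,0,0,0,0], [0,369,0,362,
  0,0,0,0,0], [368,0,364,0,0,0,0,264,0], [367,0,371,0,0,0,0,431,0], [0,366,0,373,0,0,0,0,0], [371,
  0,365,374,0,0,0,0,0], [370,0,368,375,0,0,0,432,0], [0,373,374,363,379,0,0,0,0], [0,372,376,369,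
  380,0,0,0,0], [375,376,372,370,381,0,0,0,0], [374,377,0,371,382,0,0,433,0], [377,374,373,0,383,
  0,0,0,0], [376,375,0,0,384,0,0,434,0], [0,0,0,379,357,389,0,0,0], [0,380,381,378,372,390,0,0,0],
   [0,379,383,0,373,391,0,0,0], [382,383,379,0,374,392,0,0,0], [381,384,0,0,375,393,0,435,0],
  [384,381,380,385,376,394,0,0,0], [383,382,0,386,377,395,0,436,0], [386,0,0,383,0,396,0,0,0],
  [385,0,387,384,0,397,0,437,0], [0,0,386,0,0,398,0,438,0], [0,0,0,0,389,347,0,0,0], [0,0,0,390,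
  388,378,0,0,0], [0,391,392,389,0,379,0,0,0], [0,390,394,0,0,380,0,0,0], [393,394,390,0,0,381,0,
  0,0], [392,395,0,0,0,382,0,440,0], [395,392,391,396,0,383,0,0,0], [394,393,0,397,0,384,0,441,0],
   [397,0,0,394,399,385,0,0,0], [396,0,398,395,400,386,0,442,0], [0,0,397,0,401,387,0,443,0],
  [400,0,0,0,396,0,0,0,0], [399,0,401,0,397,0,0,445,0], [0,0,400,402,398,0,0,446,0], [0,403,0,401,
  0,0,0,448,0], [0,402,0,0,0,0,0,450,0], [0,405,0,0,0,420,332,271,0], [0,404,0,406,0,421,333,273,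
  0], [0,0,407,405,409,422,334,275,0], [408,0,406,0,410,423,335,276,0], [407,0,0,0,411,424,336,0,
  0], [0,0,410,0,406,0,337,278,0], [411,0,409,412,407,0,338,279,0], [410,0,0,413,408,0,339,0,0],
  [413,414,0,410,0,0,340,280,0], [412,415,416,411,0,0,341,0,0], [415,412,0,0,0,0,342,281,0], [414,
  413,417,0,0,0,343,0,0], [0,417,413,0,0,0,344,0,0], [0,416,415,418,0,0,345,0,0], [0,0,0,417,419,
  0,346,0,0], [0,0,0,0,418,0,347,0,0], [0,421,0,0,425,404,0,286,0], [0,420,0,422,426,405,0,288,0],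
   [0,0,423,421,0,406,0,290,0], [424,0,422,0,0,407,0,291,0], [423,0,0,0,0,408,0,0,0], [0,426,0,
  427,420,0,0,295,0], [0,425,0,0,421,0,0,297,0], [0,0,428,425,0,0,0,300,0], [429,0,427,0,0,0,0,
  302,0], [428,0,0,0,0,0,0,0,0], [431,0,0,0,0,0,0,265,458], [430,0,432,0,0,0,0,368,459], [0,0,431,
  433,0,0,0,371,460], [0,434,0,432,435,0,0,375,461], [0,433,0,0,436,0,0,377,462], [0,436,0,0,433,
  440,0,382,463], [0,435,0,437,434,441,0,384,464], [0,0,438,436,0,442,0,386,465], [439,0,437,0,0,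
  443,0,387,466], [438,0,0,0,0,444,0,0,467], [0,441,0,0,0,435,0,393,468], [0,440,0,442,0,436,0,
  395,469], [0,0,443,441,445,437,0,397,470], [444,0,442,0,446,438,0,398,471], [443,0,0,0,447,439,
  0,0,472], [0,0,446,0,442,0,0,400,473], [447,0,445,448,443,0,0,401,474], [446,0,0,449,444,0,0,0,
  475], [449,450,0,446,0,0,0,402,476], [448,451,452,447,0,0,0,0,477], [451,448,0,0,0,0,0,403,478],
   [450,449,453,0,0,0,0,0,479], [0,453,449,0,0,0,0,0,480], [0,452,451,454,0,0,0,0,481], [0,0,0,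
  453,455,0,0,0,482], [0,0,0,0,454,456,0,0,483], [0,0,0,0,0,455,0,0,484], [0,0,0,0,0,0,0,458,237],
   [459,0,0,0,0,0,0,457,430], [458,0,460,0,0,0,0,0,431], [0,0,459,461,0,0,0,0,432], [0,462,0,460,
  463,0,0,0,433], [0,461,0,0,464,0,0,0,434], [0,464,0,0,461,468,0,0,435], [0,463,0,465,462,469,0,
  0,436], [0,0,466,464,0,470,0,0,437], [467,0,465,0,0,471,0,0,438], [466,0,0,0,0,472,0,485,439],
  [0,469,0,0,0,463,0,0,440], [0,468,0,470,0,464,0,0,441], [0,0,471,469,473,465,0,0,442], [472,0,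
  470,0,474,466,0,0,443], [471,0,0,0,475,467,0,486,444], [0,0,474,0,470,0,0,0,445], [475,0,473,
  476,471,0,0,0,446], [474,0,0,477,472,0,0,487,447], [477,478,0,474,0,0,0,0,448], [476,479,480,
  475,0,0,0,488,449], [479,476,0,0,0,0,0,0,450], [478,477,481,0,0,0,0,489,451], [0,481,477,0,0,0,
  0,490,452], [0,480,479,482,0,0,0,492,453], [0,0,0,481,483,0,0,494,454], [0,0,0,0,482,484,0,497,
  455], [0,0,0,0,0,483,0,502,456], [0,0,0,0,0,486,0,467,0], [0,0,0,0,487,485,0,472,0], [0,0,0,488,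
  486,0,0,475,0], [0,489,490,487,0,0,0,477,0], [0,488,492,0,0,0,0,479,0], [491,492,488,0,0,0,0,
  480,0], [490,493,0,0,0,0,0,0,0], [493,490,489,494,0,0,0,481,0], [492,491,0,495,0,0,0,0,0], [495,
  0,0,492,497,0,0,482,0], [494,0,496,493,498,0,0,0,0], [0,0,495,0,499,0,0,0,0], [498,0,0,0,494,
  502,0,483,0], [497,0,499,0,495,503,0,0,0], [0,0,498,500,496,504,0,0,0], [0,501,0,499,0,505,0,0,
  0], [0,500,0,0,0,506,0,0,0], [503,0,0,0,0,497,0,484,0], [502,0,504,0,0,498,0,0,0], [0,0,503,505,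
  0,499,0,0,0], [0,506,0,504,507,500,0,0,0], [0,505,0,0,508,501,0,0,0], [0,508,0,0,505,0,0,0,0],
  [0,507,0,509,506,0,0,0,0], [0,0,510,508,0,0,0,0,0], [511,0,509,0,0,0,0,0,0], [510,0,0,0,0,0,0,
  512,0], [0,0,0,0,0,0,0,511,513], [0,0,0,0,0,0,0,0,512]]

theorem cusps_fast : fastCusps dat ex cT 513 cK = true := by decide +kernel

end Pool.Agent.Helper10.Fam.E7
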