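import Pool.Agent.Helper10.FamD.E7LowT

set_option autoImplicit false
set_option maxRecDepth 1000000

/-!
# Certificate data for `U ⊕ E7` (lower bound, subtrees)
-/

namespace Pool.Agent.Helper10.Fam.E7

open Pool.Agent.Helper10.Fam

def lt0 : Tr ℕ := (.bis 0 8 1 63 16 (.bis 7 8 1 45 17 (.leaf 1) (.bis 6 7 1 4 18 (.bis 5 7 1 2 19
  (.bis 1 7 1 2 20 (.bis 4 7 1 2 21 (.bis 3 7 1 2 22 (.bis 2 7 1 2 23 (.bis 0 7 1 2 24 (.bis 7 8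
  2 1 25 (.leaf 69) (.bis 5 7 1 4 26 (.bis 6 7 1 8 27 (.leaf 32) (.leaf 32)) (.leaf 32))) (.bis 0
  8 1 1 28 (.leaf 48) (.bis 0 6 4 1 29 (.leaf 12) (.leaf 12)))) (.leaf 48)) (.leaf 48)) (.leaf
  48)) (.bis 1 8 1 1 30 (.leaf 48) (.bis 1 6 4 1 31 (.leaf 12) (.leaf 23)))) (.bis 5 8 1 2 32
  (.bis 1 8 1 1 30 (.bis 4 8 1 1 33 (.bis 3 8 1 1 34 (.bis 2 8 1 1 35 (.bis 0 8 1 1 28 (.leaf 48)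
  (.bis 0 6 4 1 29 (.leaf 12) (.leaf 12))) (.bis 2 6 4 1 36 (.leaf 12) (.leaf 12))) (.bis 3 6 4 1
  37 (.leaf 12) (.leaf 12))) (.bis 4 6 4 1 38 (.bis 3 6 4 1 37 (.leaf 12) (.leaf 12)) (.leaf
  12))) (.bis 1 6 4 1 31 (.bis 4 6 4 1 38 (.leaf 12) (.leaf 12)) (.bis 1 7 2 1 39 (.leaf 12)
  (.leaf 23)))) (.bis 1 6 4 1 31 (.bis 5 6 4 1 40 (.bis 4 6 4 1 38 (.leaf 12) (.leaf 12)) (.leaf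
  23)) (.bis 1 7 2 1 39 (.leaf 23) (.leaf 23))))) (.bis 6 8 1 2 41 (.bis 5 8 1 2 32 (.bis 1 8 1 1
  30 (.bis 4 8 1 1 33 (.bis 3 8 1 1 34 (.bis 2 8 1 1 35 (.bis 0 8 1 1 28 (.bis 6 8 1 4 42 (.bis 1
  7 2 1 43 (.bis 7 8 1 4 44 (.leaf 48) (.leaf 12)) (.leaf 48)) (.bis 1 7 2 1 43 (.bis 4 7 2 1 45
  (.leaf 12) (.leaf 12)) (.leaf 12))) (.bis 0 7 4 1 29 (.bis 1 7 2 1 43 (.leaf 12) (.leaf 12))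
  (.leaf 12))) (.bis 2 7 4 1 36 (.bis 0 7 4 1 29 (.leaf 12) (.leaf 12)) (.leaf 12))) (.bis 3 7 4
  1 37 (.bis 2 7 4 1 36 (.bis 0 7 4 1 29 (.leaf 12) (.leaf 12)) (.leaf 12)) (.leaf 12))) (.bis 4
  7 4 1 38 (.bis 3 7 4 1 37 (.bis 2 7 4 1 36 (.leaf 12) (.leaf 12)) (.leaf 12)) (.leaf 12)))
  (.bis 1 7 4 1 31 (.bis 4 7 4 1 38 (.bis 3 7 4 1 37 (.leaf 12) (.leaf 12)) (.leaf 12)) (.leaf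
  23))) (.bis 1 7 4 1 31 (.bis 5 7 4 1 40 (.bis 4 7 4 1 38 (.bis 3 7 4 1 37 (.leaf 12) (.leaf
  12)) (.leaf 12)) (.leaf 23)) (.leaf 23))) (.bis 0 6 2 1 46 (.bis 1 6 2 1 47 (.bis 6 7 2 1 48
  (.bis 5 7 4 1 40 (.bis 4 7 4 1 38 (.bis 3 7 4 1 37 (.bis 1 7 1 1 49 (.leaf 12) (.leaf 23))
  (.leaf 23)) (.leaf 23)) (.leaf 23)) (.leaf 54)) (.bis 1 7 4 1 31 (.bis 5 7 4 1 40 (.bis 4 7 4 1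
  38 (.bis 3 7 4 1 37 (.bis 6 7 1 1 49 (.leaf 12) (.leaf 23)) (.leaf 23)) (.leaf 23)) (.leaf 23))
  (.leaf 23))) (.bis 1 7 4 1 31 (.bis 5 7 4 1 40 (.bis 4 7 4 1 38 (.bis 3 7 4 1 37 (.leaf 12)
  (.leaf 12)) (.leaf 12)) (.leaf 23)) (.leaf 23)))))) (.bis 0 6 4 1 50 (.bis 6 7 1 4 18 (.bis 5 7
  1 2 19 (.bis 1 7 1 2 20 (.bis 4 7 1 2 21 (.bis 3 7 1 2 22 (.bis 2 7 1 2 23 (.bis 7 8 2 1 24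
  (.bis 6 8 1 4 29 (.bis 0 7 1 2 51 (.bis 7 8 1 2 52 (.leaf 12) (.leaf 12)) (.bis 0 1 1 2 53
  (.leaf 12) (.leaf 12))) (.bis 0 7 1 2 51 (.leaf 12) (.bis 0 1 1 2 53 (.leaf 12) (.leaf 12))))
  (.bis 0 7 1 8 54 (.bis 5 7 1 4 26 (.bis 6 7 1 8 27 (.leaf 32) (.leaf 14)) (.leaf 14)) (.bis 0 8
  1 2 51 (.leaf 14) (.bis 0 1 1 2 53 (.leaf 14) (.bis 0 2 1 2 55 (.leaf 14) (.leaf 14)))))) (.bis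
  2 6 4 1 36 (.bis 6 8 1 4 29 (.bis 0 1 1 2 53 (.leaf 12) (.leaf 12)) (.bis 0 1 1 2 53 (.leaf 12)
  (.bis 0 7 1 2 55 (.leaf 12) (.leaf 12)))) (.bis 0 2 1 4 56 (.leaf 12) (.bis 0 1 1 2 53 (.leaf
  12) (.leaf 12))))) (.bis 3 6 4 1 37 (.bis 2 6 4 1 36 (.bis 6 8 1 4 29 (.bis 0 1 1 2 53 (.leaf
  12) (.leaf 12)) (.bis 0 1 1 2 53 (.leaf 12) (.leaf 12))) (.bis 0 2 1 4 56 (.leaf 12) (.leaf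
  12))) (.bis 0 3 1 4 57 (.leaf 12) (.bis 0 2 1 4 56 (.leaf 12) (.leaf 12))))) (.bis 4 6 4 1 38
  (.bis 3 6 4 1 37 (.bis 2 6 4 1 36 (.bis 6 8 1 4 29 (.bis 0 1 1 2 53 (.leaf 12) (.leaf 12))
  (.bis 0 1 1 2 53 (.leaf 12) (.leaf 12))) (.bis 0 2 1 4 56 (.leaf 12) (.leaf 12))) (.bis 0 3 1 4
  57 (.leaf 12) (.bis 0 2 1 4 56 (.leaf 12) (.leaf 12)))) (.bis 0 4 1 4 58 (.leaf 12) (.bis 0 3 1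
  4 57 (.leaf 12) (.leaf 12))))) (.bis 1 6 4 1 31 (.bis 4 6 4 1 38 (.bis 3 6 4 1 37 (.bis 2 6 4 1
  36 (.bis 6 8 1 4 29 (.bis 0 7 1 2 53 (.leaf 12) (.leaf 12)) (.bis 0 7 1 2 53 (.leaf 12) (.leaf
  12))) (.bis 0 2 1 4 56 (.leaf 12) (.leaf 12))) (.bis 0 3 1 4 57 (.leaf 12) (.bis 0 2 1 4 56
  (.leaf 12) (.leaf 12)))) (.bis 0 4 1 4 58 (.leaf 12) (.bis 0 3 1 4 57 (.leaf 12) (.leaf 12))))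
  (.bis 0 1 1 4 59 (.leaf 23) (.bis 0 4 1 4 58 (.leaf 12) (.bis 0 3 1 4 57 (.leaf 12) (.leaf
  12)))))) (.bis 1 6 4 1 31 (.bis 5 6 4 1 40 (.bis 4 6 4 1 38 (.bis 3 6 4 1 37 (.bis 2 6 4 1 36
  (.bis 6 8 1 4 29 (.bis 0 7 1 2 60 (.leaf 12) (.leaf 12)) (.bis 0 7 1 2 60 (.leaf 12) (.leaf
  12))) (.bis 0 2 1 4 56 (.leaf 12) (.leaf 12))) (.bis 0 3 1 4 57 (.leaf 12) (.bis 0 2 1 4 56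
  (.leaf 12) (.leaf 12)))) (.bis 0 4 1 4 58 (.leaf 12) (.bis 0 3 1 4 57 (.leaf 12) (.leaf 12))))
  (.bis 0 5 1 4 61 (.leaf 23) (.bis 0 4 1 4 58 (.leaf 12) (.bis 0 3 1 4 57 (.leaf 12) (.leaf
  12))))) (.bis 0 1 1 4 59 (.bis 1 7 2 1 39 (.leaf 23) (.leaf 23)) (.bis 0 5 1 4 61 (.leaf 23)
  (.bis 0 4 1 4 58 (.leaf 12) (.bis 0 3 1 4 57 (.leaf 12) (.leaf 12))))))) (.bis 6 8 1 2 46 (.bis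
  1 7 4 1 31 (.bis 5 7 4 1 40 (.bis 4 7 4 1 38 (.bis 3 7 4 1 37 (.bis 2 7 4 1 36 (.bis 7 8 1 4 29
  (.bis 0 8 1 4 62 (.leaf 12) (.leaf 4)) (.bis 6 7 1 1 63 (.bis 0 7 1 1 64 (.leaf 12) (.leaf 4))
  (.bis 0 6 1 1 65 (.leaf 4) (.leaf 4)))) (.bis 0 2 1 4 56 (.leaf 12) (.bis 0 8 1 4 62 (.leaf 12)
  (.leaf 4)))) (.bis 0 3 1 4 57 (.leaf 12) (.bis 0 2 1 4 56 (.leaf 12) (.leaf 12)))) (.bis 0 4 1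
  4 58 (.leaf 12) (.bis 0 3 1 4 57 (.leaf 12) (.bis 0 2 1 4 56 (.leaf 12) (.leaf 12))))) (.bis 0
  5 1 4 61 (.leaf 23) (.bis 0 4 1 4 58 (.leaf 12) (.bis 0 3 1 4 57 (.leaf 12) (.bis 0 2 1 4 56
  (.leaf 12) (.leaf 12)))))) (.bis 0 1 1 4 59 (.leaf 23) (.bis 0 5 1 4 61 (.leaf 23) (.bis 0 4 1
  4 58 (.leaf 12) (.bis 0 3 1 4 57 (.leaf 12) (.leaf 12)))))) (.bis 1 6 2 1 47 (.bis 0 6 1 2 66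
  (.bis 6 7 2 1 48 (.bis 5 7 4 1 40 (.bis 4 7 4 1 38 (.bis 3 7 4 1 37 (.leaf 23) (.leaf 4))
  (.leaf 4)) (.leaf 16)) (.leaf 54)) (.bis 5 7 4 1 40 (.bis 4 7 4 1 38 (.bis 3 7 4 1 37 (.bis 1 7
  1 1 49 (.bis 2 7 4 1 36 (.leaf 12) (.bis 0 2 1 4 56 (.leaf 4) (.leaf 4))) (.bis 0 1 1 1 67
  (.leaf 4) (.bis 0 2 1 4 56 (.leaf 4) (.leaf 4)))) (.bis 0 1 1 1 67 (.leaf 4) (.bis 0 3 1 4 57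
  (.leaf 4) (.leaf 4)))) (.bis 0 4 1 4 58 (.leaf 4) (.bis 0 1 1 1 67 (.leaf 4) (.bis 0 3 1 4 57
  (.leaf 4) (.leaf 4))))) (.bis 0 5 1 4 61 (.leaf 16) (.bis 0 4 1 4 58 (.leaf 4) (.bis 0 1 1 1 67
  (.leaf 4) (.leaf 4)))))) (.bis 1 7 4 1 31 (.bis 5 7 4 1 40 (.bis 4 7 4 1 38 (.bis 3 7 4 1 37
  (.bis 6 7 1 1 49 (.bis 2 7 4 1 36 (.bis 7 8 1 1 63 (.bis 0 8 1 1 65 (.leaf 4) (.leaf 4)) (.bis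
  0 7 1 1 64 (.leaf 12) (.leaf 4))) (.bis 0 2 1 4 56 (.leaf 4) (.bis 0 8 1 1 65 (.leaf 4) (.leaf
  4)))) (.bis 0 6 1 1 67 (.leaf 4) (.bis 0 2 1 4 56 (.leaf 4) (.leaf 4)))) (.bis 0 6 1 1 67
  (.leaf 4) (.bis 0 3 1 4 57 (.leaf 4) (.bis 0 2 1 4 56 (.leaf 4) (.leaf 4))))) (.bis 0 4 1 4 58
  (.leaf 4) (.bis 0 6 1 1 67 (.leaf 4) (.bis 0 3 1 4 57 (.leaf 4) (.leaf 4))))) (.bis 0 5 1 4 61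
  (.leaf 16) (.bis 0 4 1 4 58 (.leaf 4) (.bis 0 6 1 1 67 (.leaf 4) (.bis 0 3 1 4 57 (.leaf 4)
  (.leaf 4)))))) (.bis 0 1 1 4 59 (.leaf 16) (.bis 0 5 1 4 61 (.leaf 16) (.bis 0 4 1 4 58 (.leaf
  4) (.bis 0 6 1 1 67 (.leaf 4) (.leaf 4))))))))) (.bis 5 7 1 2 19 (.bis 1 7 1 2 20 (.bis 4 7 1 2
  21 (.bis 3 7 1 2 22 (.bis 2 7 1 2 23 (.bis 0 7 1 1 68 (.bis 7 8 2 1 24 (.bis 0 8 1 1 69 (.bis 6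
  7 1 2 51 (.bis 7 8 1 2 52 (.leaf 12) (.leaf 12)) (.bis 1 6 2 1 53 (.bis 2 6 2 1 55 (.bis 3 6 2
  1 70 (.bis 4 6 2 1 71 (.bis 5 6 2 1 60 (.bis 6 8 1 4 62 (.leaf 12) (.leaf 12)) (.bis 5 8 1 2 72
  (.leaf 12) (.leaf 12))) (.bis 5 8 1 2 72 (.leaf 12) (.leaf 12))) (.bis 5 8 1 2 72 (.leaf 12)
  (.leaf 12))) (.bis 5 8 1 2 72 (.leaf 12) (.leaf 12))) (.bis 5 8 1 2 72 (.leaf 12) (.leaf 12))))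
  (.bis 0 6 4 1 73 (.bis 6 7 1 2 51 (.leaf 14) (.leaf 14)) (.leaf 14))) (.bis 6 7 1 8 54 (.bis 5
  7 1 4 26 (.bis 1 7 1 4 74 (.leaf 32) (.leaf 14)) (.leaf 14)) (.bis 0 6 4 1 73 (.bis 6 8 1 2 51
  (.leaf 14) (.bis 1 6 2 1 53 (.leaf 14) (.leaf 14))) (.leaf 14)))) (.bis 0 8 2 1 75 (.bis 7 8 1
  1 69 (.bis 0 5 1 1 76 (.bis 1 6 2 1 53 (.bis 2 6 2 1 55 (.bis 3 6 2 1 70 (.bis 4 6 2 1 71 (.bis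
  5 6 2 1 60 (.bis 6 8 1 4 62 (.leaf 12) (.leaf 12)) (.bis 5 8 1 2 72 (.leaf 12) (.leaf 12)))
  (.bis 5 8 1 2 72 (.leaf 12) (.leaf 12))) (.bis 5 8 1 2 72 (.leaf 12) (.leaf 12))) (.bis 5 8 1 2
  72 (.leaf 12) (.leaf 12))) (.bis 5 8 1 2 72 (.leaf 12) (.leaf 12))) (.bis 1 6 2 1 53 (.bis 2 6
  2 1 55 (.bis 3 6 2 1 70 (.bis 0 4 1 1 77 (.bis 4 6 2 1 71 (.bis 6 8 1 4 62 (.leaf 12) (.leaf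
  12)) (.bis 4 8 1 2 78 (.leaf 12) (.leaf 12))) (.bis 6 8 1 4 62 (.leaf 63) (.leaf 28))) (.bis 0
  4 1 1 77 (.bis 3 8 1 2 79 (.leaf 12) (.leaf 12)) (.bis 0 3 1 1 80 (.bis 3 8 1 2 79 (.leaf 12)
  (.leaf 12)) (.bis 0 8 1 2 81 (.leaf 12) (.leaf 28))))) (.bis 0 4 1 1 77 (.bis 3 8 1 2 79 (.leaf
  12) (.leaf 12)) (.bis 0 3 1 1 80 (.bis 3 8 1 2 79 (.leaf 12) (.leaf 12)) (.bis 0 2 1 1 82 (.bis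
  2 8 1 2 83 (.leaf 12) (.leaf 12)) (.bis 0 8 1 2 81 (.leaf 12) (.leaf 28)))))) (.bis 0 1 1 1 84
  (.bis 3 8 1 2 79 (.leaf 12) (.leaf 12)) (.bis 0 4 1 1 77 (.bis 3 8 1 2 79 (.leaf 12) (.leaf
  12)) (.bis 0 3 1 1 80 (.bis 3 8 1 2 79 (.leaf 12) (.leaf 12)) (.bis 0 2 1 1 82 (.bis 2 8 1 2 83
  (.leaf 12) (.leaf 12)) (.bis 0 8 1 2 81 (.leaf 12) (.leaf 28)))))))) (.bis 6 7 1 4 73 (.leaf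
  28) (.leaf 28))) (.bis 0 5 4 1 85 (.bis 6 7 1 4 73 (.leaf 28) (.leaf 28)) (.bis 0 1 4 1 86
  (.leaf 28) (.bis 0 4 4 1 87 (.leaf 28) (.bis 0 3 4 1 88 (.leaf 28) (.bis 0 2 4 1 89 (.leaf 28)
  (.leaf 21)))))))) (.bis 0 2 2 1 90 (.bis 2 6 4 1 56 (.leaf 12) (.leaf 12)) (.bis 0 8 2 1 75
  (.bis 0 5 1 1 76 (.bis 1 6 2 1 53 (.bis 6 7 1 2 55 (.bis 2 5 1 1 91 (.bis 5 8 1 2 72 (.leaf 12)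
  (.leaf 12)) (.bis 3 8 1 2 79 (.leaf 12) (.leaf 12))) (.bis 3 6 2 1 70 (.bis 2 5 1 1 91 (.bis 4
  6 2 1 71 (.bis 5 6 2 1 60 (.bis 6 8 1 4 62 (.leaf 12) (.leaf 4)) (.bis 5 8 1 2 72 (.leaf 12)
  (.leaf 4))) (.bis 5 8 1 2 72 (.leaf 12) (.leaf 4))) (.bis 4 6 2 1 71 (.bis 6 8 1 4 62 (.leaf
  12) (.leaf 10)) (.bis 4 8 1 2 78 (.leaf 12) (.leaf 12)))) (.bis 2 5 1 1 91 (.bis 5 8 1 2 72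
  (.leaf 12) (.leaf 12)) (.bis 3 8 1 2 79 (.leaf 12) (.leaf 12))))) (.bis 2 5 1 1 91 (.bis 5 8 1
  2 72 (.leaf 12) (.leaf 12)) (.bis 3 8 1 2 79 (.leaf 12) (.leaf 12)))) (.bis 1 6 2 1 53 (.bis 6
  7 1 2 55 (.bis 0 4 1 1 77 (.bis 3 8 1 2 79 (.leaf 12) (.leaf 12)) (.bis 0 3 1 1 80 (.bis 3 8 1
  2 79 (.leaf 12) (.leaf 12)) (.bis 0 7 1 1 82 (.bis 7 8 1 2 83 (.leaf 12) (.leaf 12)) (.bis 0 8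
  1 2 81 (.leaf 12) (.leaf 28))))) (.bis 3 6 2 1 70 (.bis 0 4 1 1 77 (.bis 4 6 2 1 71 (.bis 6 8 1
  4 62 (.leaf 12) (.leaf 10)) (.bis 4 8 1 2 78 (.leaf 12) (.leaf 12))) (.bis 6 8 1 4 62 (.leaf
  63) (.leaf 28))) (.bis 0 4 1 1 77 (.bis 3 8 1 2 79 (.leaf 12) (.leaf 12)) (.bis 0 3 1 1 80
  (.bis 3 8 1 2 79 (.leaf 12) (.leaf 12)) (.bis 0 8 1 2 81 (.leaf 12) (.leaf 28)))))) (.bis 0 1 1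
  1 84 (.bis 3 8 1 2 79 (.leaf 12) (.leaf 12)) (.bis 0 4 1 1 77 (.bis 3 8 1 2 79 (.leaf 12)
  (.leaf 12)) (.bis 0 3 1 1 80 (.bis 3 8 1 2 79 (.leaf 12) (.leaf 12)) (.bis 0 7 1 1 82 (.bis 7 8
  1 2 83 (.leaf 12) (.leaf 12)) (.bis 0 8 1 2 81 (.leaf 12) (.leaf 28)))))))) (.bis 0 5 4 1 85
  (.leaf 28) (.bis 0 1 4 1 86 (.leaf 28) (.bis 0 4 4 1 87 (.leaf 28) (.bis 0 3 4 1 88 (.leaf 28)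
  (.bis 0 7 4 1 89 (.leaf 28) (.leaf 21))))))))) (.bis 0 3 2 1 92 (.bis 3 6 4 1 57 (.leaf 12)
  (.leaf 12)) (.bis 0 2 2 1 90 (.leaf 12) (.bis 0 8 2 1 75 (.bis 0 5 1 1 76 (.bis 1 6 2 1 53
  (.bis 6 7 1 2 70 (.bis 2 5 1 1 91 (.bis 5 8 1 2 72 (.leaf 12) (.leaf 12)) (.bis 7 8 1 2 79
  (.leaf 12) (.leaf 12))) (.bis 2 5 1 1 91 (.bis 4 6 2 1 71 (.bis 5 6 2 1 60 (.bis 6 8 1 4 62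
  (.leaf 12) (.leaf 4)) (.bis 5 8 1 2 72 (.leaf 12) (.leaf 4))) (.bis 5 8 1 2 72 (.leaf 12)
  (.leaf 4))) (.bis 4 6 2 1 71 (.bis 6 8 1 4 62 (.leaf 12) (.leaf 10)) (.bis 4 8 1 2 78 (.leaf
  12) (.leaf 12))))) (.bis 2 5 1 1 91 (.bis 5 8 1 2 72 (.leaf 12) (.leaf 12)) (.bis 7 8 1 2 79
  (.leaf 12) (.leaf 12)))) (.bis 1 6 2 1 53 (.bis 6 7 1 2 70 (.bis 0 4 1 1 77 (.bis 7 8 1 2 79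
  (.leaf 12) (.leaf 12)) (.bis 0 7 1 1 80 (.bis 7 8 1 2 79 (.leaf 12) (.leaf 12)) (.bis 0 8 1 2
  81 (.leaf 12) (.leaf 28)))) (.bis 0 4 1 1 77 (.bis 4 6 2 1 71 (.bis 6 8 1 4 62 (.leaf 12)
  (.leaf 10)) (.bis 4 8 1 2 78 (.leaf 12) (.leaf 12))) (.bis 6 8 1 4 62 (.leaf 63) (.leaf 28))))
  (.bis 0 1 1 1 84 (.bis 7 8 1 2 79 (.leaf 12) (.leaf 12)) (.bis 0 4 1 1 77 (.bis 7 8 1 2 79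
  (.leaf 12) (.leaf 12)) (.bis 0 7 1 1 80 (.bis 7 8 1 2 79 (.leaf 12) (.leaf 12)) (.bis 0 8 1 2
  81 (.leaf 12) (.leaf 28))))))) (.bis 0 5 4 1 85 (.leaf 28) (.bis 0 1 4 1 86 (.leaf 28) (.bis 0
  4 4 1 87 (.leaf 28) (.bis 0 7 4 1 88 (.leaf 28) (.leaf 21))))))))) (.bis 0 4 2 1 93 (.bis 4 6 4
  1 58 (.leaf 12) (.leaf 12)) (.bis 0 3 2 1 92 (.leaf 12) (.bis 0 2 2 1 90 (.leaf 12) (.bis 0 8 2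
  1 75 (.bis 0 5 1 1 76 (.bis 1 6 2 1 53 (.bis 2 5 1 1 91 (.bis 6 7 1 2 71 (.bis 5 8 1 2 72
  (.leaf 12) (.leaf 4)) (.bis 5 6 2 1 60 (.bis 6 8 1 4 62 (.leaf 12) (.leaf 4)) (.bis 5 8 1 2 72
  (.leaf 12) (.leaf 4)))) (.bis 6 7 1 2 71 (.bis 7 8 1 2 78 (.leaf 12) (.leaf 12)) (.bis 6 8 1 4
  62 (.leaf 12) (.leaf 10)))) (.bis 2 5 1 1 91 (.leaf 12) (.bis 1 8 1 2 94 (.leaf 12) (.leaf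
  12)))) (.bis 1 6 2 1 53 (.bis 0 7 1 1 77 (.bis 6 7 1 2 71 (.bis 7 8 1 2 78 (.leaf 12) (.leaf
  12)) (.bis 6 8 1 4 62 (.leaf 12) (.leaf 10))) (.bis 6 8 1 4 62 (.bis 0 8 1 2 81 (.leaf 12)
  (.leaf 28)) (.leaf 28))) (.bis 0 1 1 1 84 (.bis 1 8 1 2 94 (.leaf 12) (.leaf 12)) (.bis 0 7 1 1
  77 (.bis 7 8 1 2 78 (.leaf 12) (.leaf 12)) (.bis 0 8 1 2 81 (.leaf 12) (.leaf 28)))))) (.bis 0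
  5 4 1 85 (.leaf 28) (.bis 0 1 4 1 86 (.leaf 28) (.bis 0 7 4 1 87 (.bis 7 8 1 1 77 (.leaf 21)
  (.leaf 2)) (.leaf 21))))))))) (.bis 0 1 2 1 95 (.bis 1 6 4 1 59 (.bis 4 6 4 1 58 (.leaf 12)
  (.leaf 12)) (.bis 1 5 2 1 39 (.bis 4 7 2 1 96 (.leaf 12) (.bis 0 4 1 2 97 (.leaf 12) (.leaf
  12))) (.bis 4 7 2 1 96 (.bis 1 7 2 1 98 (.leaf 12) (.bis 0 1 1 2 99 (.leaf 23) (.leaf 12)))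
  (.bis 0 4 1 2 97 (.leaf 23) (.bis 0 1 1 2 99 (.leaf 23) (.leaf 12)))))) (.bis 0 4 2 1 93 (.leaf
  12) (.bis 0 3 2 1 92 (.leaf 12) (.bis 0 2 2 1 90 (.leaf 12) (.bis 0 8 2 1 75 (.bis 0 5 1 1 76
  (.bis 6 7 1 2 53 (.bis 2 5 1 1 91 (.bis 1 5 1 1 100 (.leaf 12) (.bis 7 8 1 2 94 (.leaf 12)
  (.leaf 4))) (.bis 7 8 1 2 94 (.leaf 12) (.leaf 12))) (.bis 2 5 1 1 91 (.bis 1 5 1 1 100 (.bis 5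
  6 2 1 60 (.bis 6 8 1 4 62 (.leaf 12) (.leaf 4)) (.bis 5 8 1 2 72 (.leaf 12) (.leaf 4))) (.bis 6
  8 1 4 62 (.leaf 12) (.leaf 4))) (.bis 6 8 1 4 62 (.bis 3 8 1 2 101 (.leaf 12) (.leaf 10))
  (.leaf 10)))) (.bis 6 7 1 2 53 (.bis 0 7 1 1 84 (.bis 7 8 1 2 94 (.leaf 12) (.leaf 12)) (.bis 0
  8 1 2 81 (.bis 3 8 1 2 101 (.leaf 12) (.leaf 12)) (.leaf 28))) (.bis 6 8 1 4 62 (.bis 0 8 1 2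
  81 (.leaf 12) (.leaf 28)) (.leaf 28)))) (.bis 0 5 4 1 85 (.bis 5 8 1 1 76 (.bis 6 7 1 2 53
  (.leaf 28) (.leaf 21)) (.leaf 2)) (.bis 0 7 4 1 86 (.bis 6 7 1 2 53 (.leaf 28) (.leaf 21))
  (.leaf 21))))))))) (.bis 0 5 2 1 102 (.bis 1 6 4 1 59 (.bis 5 6 4 1 61 (.leaf 12) (.leaf 23))
  (.bis 1 7 2 1 39 (.bis 5 8 1 1 103 (.bis 4 7 2 1 104 (.leaf 12) (.bis 0 4 1 2 105 (.leaf 12)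
  (.leaf 12))) (.bis 5 7 2 1 106 (.bis 4 7 2 1 104 (.leaf 4) (.bis 0 4 1 2 105 (.leaf 4) (.leaf
  4))) (.bis 0 5 1 2 107 (.leaf 16) (.bis 0 4 1 2 105 (.leaf 4) (.leaf 4))))) (.bis 0 1 1 2 108
  (.leaf 23) (.bis 5 8 1 1 103 (.bis 0 4 1 2 105 (.leaf 12) (.leaf 12)) (.bis 0 5 1 2 107 (.leaf
  16) (.leaf 4)))))) (.bis 0 1 2 1 95 (.bis 1 6 4 1 59 (.leaf 12) (.leaf 70)) (.bis 0 4 2 1 93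
  (.leaf 12) (.bis 0 3 2 1 92 (.leaf 12) (.bis 0 2 2 1 90 (.bis 2 6 4 1 56 (.bis 0 7 1 1 91 (.bis
  1 7 1 1 100 (.leaf 12) (.bis 6 8 1 4 62 (.leaf 12) (.leaf 4))) (.bis 6 8 1 4 62 (.leaf 12)
  (.leaf 10))) (.leaf 12)) (.bis 0 8 2 1 75 (.bis 0 7 1 1 76 (.bis 2 7 1 1 91 (.bis 1 7 1 1 100
  (.bis 6 7 1 2 60 (.bis 7 8 1 2 72 (.leaf 12) (.leaf 4)) (.bis 6 8 1 4 62 (.leaf 12) (.leaf 4)))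
  (.bis 6 8 1 4 62 (.leaf 12) (.leaf 4))) (.bis 6 8 1 4 62 (.bis 3 8 1 2 101 (.leaf 12) (.leaf
  10)) (.leaf 10))) (.bis 6 8 1 4 62 (.bis 0 8 1 2 81 (.leaf 12) (.leaf 28)) (.leaf 28))) (.bis 0
  7 4 1 85 (.bis 7 8 1 1 76 (.leaf 21) (.bis 2 7 1 1 91 (.leaf 2) (.leaf 2))) (.bis 0 5 4 1 109
  (.leaf 21) (.leaf 21))))))))))))

def lc0 : List Vr := [⟨[24,0,0,0,0,0,0,0,0], 6912, 0⟩, ⟨[0,28,0,0,0,0,0,0,84], 25872, 0⟩, ⟨[0,0,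
  17,0,0,0,0,0,72], 21624, 0⟩, ⟨[0,0,0,13,0,0,0,0,75], 22360, 0⟩, ⟨[0,0,0,0,19,0,0,0,85], 26961,
  0⟩, ⟨[0,0,0,0,0,30,0,0,94], 29760, 0⟩, ⟨[0,0,0,0,0,0,85,0,155], 59925, 0⟩, ⟨[0,0,0,0,0,0,0,42,
  0], 7056, 0⟩, ⟨[0,0,0,0,0,0,0,0,1], 0, 0⟩]

theorem lk0 : chkTr lowT (leafLow 2 lowB) lt0 lc0 = true := by decide +kernel

def lt1 : Tr ℕ := (.bis 0 6 4 1 50 (.bis 6 7 1 4 18 (.bis 5 7 1 2 19 (.bis 1 7 1 2 20 (.bis 4 7 1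
  2 21 (.bis 3 7 1 2 22 (.bis 7 8 2 1 23 (.bis 1 2 2 1 111 (.bis 2 7 1 2 112 (.bis 6 8 1 4 36
  (.bis 0 8 1 4 56 (.leaf 12) (.leaf 12)) (.bis 0 7 1 2 55 (.leaf 12) (.leaf 12))) (.bis 2 3 1 2
  113 (.bis 6 8 1 4 36 (.bis 0 8 1 4 56 (.leaf 12) (.leaf 12)) (.leaf 12)) (.bis 6 8 1 4 36 (.bis
  2 4 1 2 114 (.leaf 4) (.bis 2 5 1 2 115 (.bis 0 8 1 4 56 (.leaf 4) (.leaf 4)) (.bis 0 8 1 4 56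
  (.leaf 4) (.leaf 4)))) (.leaf 23)))) (.bis 6 8 1 4 36 (.bis 0 8 1 4 56 (.leaf 12) (.leaf 12))
  (.bis 0 1 1 2 53 (.leaf 12) (.leaf 12)))) (.bis 2 7 1 8 116 (.bis 0 7 1 8 54 (.bis 5 7 1 4 26
  (.bis 6 7 1 8 27 (.bis 1 7 1 4 74 (.leaf 32) (.leaf 14)) (.leaf 14)) (.leaf 14)) (.bis 0 1 1 2
  53 (.leaf 14) (.bis 0 8 1 2 55 (.leaf 14) (.leaf 14)))) (.bis 1 2 2 1 111 (.bis 2 8 1 2 112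
  (.bis 0 8 1 2 55 (.leaf 12) (.leaf 12)) (.bis 2 3 1 2 113 (.leaf 12) (.leaf 26))) (.bis 0 1 1 2
  53 (.leaf 12) (.bis 0 8 1 2 55 (.leaf 12) (.leaf 12)))))) (.bis 1 2 2 1 111 (.bis 3 6 4 1 37
  (.bis 2 7 1 2 113 (.bis 6 8 1 4 36 (.leaf 12) (.leaf 12)) (.bis 6 8 1 4 36 (.leaf 4) (.leaf
  23))) (.bis 2 7 1 2 113 (.leaf 12) (.leaf 4))) (.bis 3 6 4 1 37 (.bis 6 8 1 4 36 (.bis 0 8 1 4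
  56 (.leaf 12) (.leaf 12)) (.bis 0 1 1 2 53 (.leaf 12) (.leaf 12))) (.bis 0 3 1 4 57 (.leaf 12)
  (.leaf 12))))) (.bis 4 6 4 1 38 (.bis 1 2 2 1 111 (.bis 3 6 4 1 37 (.bis 6 8 1 4 36 (.bis 2 7 1
  2 114 (.leaf 4) (.leaf 4)) (.bis 2 7 1 2 114 (.leaf 12) (.leaf 23))) (.bis 2 7 1 2 114 (.leaf
  4) (.leaf 4))) (.bis 3 6 4 1 37 (.bis 6 8 1 4 36 (.bis 0 8 1 4 56 (.leaf 4) (.leaf 4)) (.bis 0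
  1 1 2 53 (.leaf 12) (.leaf 12))) (.bis 0 3 1 4 57 (.leaf 4) (.leaf 4)))) (.bis 1 2 2 1 111
  (.bis 0 4 1 4 58 (.bis 2 7 1 2 114 (.leaf 4) (.bis 2 4 1 4 117 (.leaf 4) (.leaf 4))) (.leaf 4))
  (.bis 0 4 1 4 58 (.leaf 4) (.leaf 4))))) (.bis 1 6 4 1 31 (.bis 4 6 4 1 38 (.bis 2 7 1 2 111
  (.bis 3 6 4 1 37 (.leaf 12) (.bis 0 3 1 4 57 (.leaf 4) (.leaf 4))) (.bis 3 6 4 1 37 (.bis 6 8 1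
  4 36 (.leaf 4) (.bis 2 6 1 1 118 (.leaf 12) (.leaf 4))) (.bis 2 5 1 2 115 (.leaf 4) (.leaf
  4)))) (.bis 2 7 1 2 111 (.bis 0 4 1 4 58 (.leaf 4) (.leaf 4)) (.bis 0 4 1 4 58 (.bis 2 4 1 4
  117 (.leaf 4) (.bis 2 5 1 2 115 (.leaf 4) (.leaf 4))) (.leaf 4)))) (.bis 0 1 1 4 59 (.bis 1 2 4
  1 119 (.bis 2 7 1 2 111 (.leaf 4) (.bis 2 4 1 4 117 (.leaf 4) (.leaf 4))) (.leaf 4)) (.bis 2 7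
  1 2 111 (.bis 0 4 1 4 58 (.leaf 4) (.leaf 4)) (.leaf 4))))) (.bis 1 6 4 1 31 (.bis 5 6 4 1 40
  (.bis 4 6 4 1 38 (.bis 3 6 4 1 37 (.bis 6 8 1 4 36 (.bis 2 7 1 2 115 (.bis 0 8 1 4 56 (.leaf 4)
  (.leaf 4)) (.leaf 4)) (.bis 2 6 1 1 118 (.leaf 12) (.leaf 4))) (.bis 2 7 1 2 115 (.bis 0 3 1 4
  57 (.leaf 4) (.leaf 4)) (.bis 0 3 1 4 57 (.bis 2 3 1 4 120 (.leaf 4) (.leaf 4)) (.leaf 4))))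
  (.bis 0 4 1 4 58 (.bis 2 4 1 4 117 (.leaf 4) (.bis 2 7 1 2 115 (.leaf 4) (.bis 2 3 1 4 120
  (.leaf 4) (.leaf 4)))) (.bis 2 7 1 2 115 (.leaf 4) (.leaf 4)))) (.bis 0 5 1 4 61 (.bis 2 5 1 4
  121 (.leaf 16) (.bis 2 4 1 4 117 (.leaf 4) (.bis 2 7 1 2 115 (.leaf 4) (.leaf 4)))) (.bis 0 4 1
  4 58 (.bis 2 4 1 4 117 (.leaf 4) (.bis 2 7 1 2 115 (.leaf 4) (.leaf 4))) (.bis 2 7 1 2 115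
  (.leaf 4) (.leaf 4))))) (.bis 0 1 1 4 59 (.bis 1 2 4 1 119 (.bis 2 5 1 4 121 (.leaf 16) (.bis 2
  4 1 4 117 (.leaf 4) (.leaf 4))) (.bis 1 7 2 1 39 (.leaf 16) (.leaf 16))) (.bis 0 5 1 4 61 (.bis
  2 5 1 4 121 (.leaf 16) (.bis 2 4 1 4 117 (.leaf 4) (.leaf 4))) (.bis 0 4 1 4 58 (.bis 2 4 1 4
  117 (.leaf 4) (.bis 2 7 1 2 115 (.leaf 4) (.leaf 4))) (.leaf 4)))))) (.bis 2 6 1 2 122 (.bis 1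
  6 2 1 47 (.bis 0 6 1 2 66 (.bis 6 7 2 1 48 (.bis 5 7 4 1 40 (.bis 4 7 4 1 38 (.bis 3 7 4 1 37
  (.leaf 23) (.leaf 4)) (.leaf 4)) (.leaf 16)) (.leaf 54)) (.bis 5 7 4 1 40 (.bis 4 7 4 1 38
  (.bis 3 7 4 1 37 (.leaf 23) (.bis 0 1 1 1 67 (.leaf 4) (.leaf 4))) (.bis 0 4 1 4 58 (.leaf 4)
  (.bis 0 1 1 1 67 (.leaf 4) (.leaf 4)))) (.bis 0 5 1 4 61 (.leaf 16) (.bis 0 4 1 4 58 (.leaf 4)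
  (.leaf 4))))) (.bis 1 7 4 1 31 (.bis 5 7 4 1 40 (.bis 4 7 4 1 38 (.bis 3 7 4 1 37 (.bis 6 7 1 1
  49 (.bis 7 8 1 4 36 (.bis 0 8 1 4 56 (.leaf 4) (.leaf 4)) (.leaf 23)) (.bis 0 6 1 1 67 (.leaf
  4) (.leaf 4))) (.bis 0 6 1 1 67 (.leaf 4) (.bis 0 3 1 4 57 (.leaf 4) (.leaf 4)))) (.bis 0 4 1 4
  58 (.leaf 4) (.bis 0 6 1 1 67 (.leaf 4) (.leaf 4)))) (.bis 0 5 1 4 61 (.leaf 16) (.bis 0 4 1 4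
  58 (.leaf 4) (.bis 0 6 1 1 67 (.leaf 4) (.leaf 4))))) (.bis 0 1 1 4 59 (.leaf 16) (.bis 0 5 1 4
  61 (.leaf 16) (.bis 0 4 1 4 58 (.leaf 4) (.bis 0 6 1 1 67 (.leaf 4) (.leaf 4))))))) (.bis 1 7 4
  1 31 (.bis 5 7 4 1 40 (.bis 4 7 4 1 38 (.leaf 23) (.bis 0 4 1 4 58 (.bis 2 4 1 4 117 (.leaf 4)
  (.bis 2 3 1 4 120 (.leaf 4) (.leaf 4))) (.leaf 4))) (.bis 0 5 1 4 61 (.bis 2 5 1 4 121 (.leaf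
  16) (.bis 2 4 1 4 117 (.leaf 4) (.leaf 4))) (.bis 0 4 1 4 58 (.bis 2 4 1 4 117 (.leaf 4) (.leaf
  4)) (.leaf 4)))) (.bis 0 1 1 4 59 (.bis 1 2 4 1 119 (.bis 2 5 1 4 121 (.leaf 16) (.bis 2 4 1 4
  117 (.leaf 4) (.leaf 4))) (.leaf 16)) (.bis 0 5 1 4 61 (.bis 2 5 1 4 121 (.leaf 16) (.bis 2 4 1
  4 117 (.leaf 4) (.leaf 4))) (.leaf 4)))))) (.bis 5 7 1 2 19 (.bis 1 7 1 2 20 (.bis 4 7 1 2 21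
  (.bis 3 7 1 2 22 (.bis 7 8 2 1 23 (.bis 0 8 2 1 90 (.bis 1 2 2 1 111 (.bis 2 7 1 2 112 (.bis 6
  8 1 4 56 (.leaf 12) (.leaf 12)) (.bis 2 3 1 2 113 (.bis 6 8 1 4 56 (.leaf 12) (.leaf 2)) (.bis
  2 4 1 2 114 (.bis 6 8 1 4 56 (.leaf 12) (.leaf 2)) (.bis 2 5 1 2 115 (.bis 6 8 1 4 56 (.leaf
  12) (.leaf 2)) (.bis 6 8 1 4 56 (.bis 2 8 1 4 123 (.leaf 10) (.leaf 2)) (.leaf 2)))))) (.bis 6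
  8 1 4 56 (.bis 3 8 1 2 124 (.leaf 12) (.leaf 12)) (.leaf 12))) (.bis 0 5 4 1 85 (.bis 1 2 2 1
  111 (.bis 2 7 1 2 112 (.leaf 28) (.leaf 2)) (.leaf 28)) (.bis 0 1 4 1 86 (.bis 1 2 2 1 111
  (.bis 2 7 1 2 112 (.leaf 28) (.leaf 2)) (.leaf 28)) (.bis 0 4 4 1 87 (.bis 2 7 1 2 112 (.leaf
  28) (.leaf 2)) (.bis 0 3 4 1 88 (.bis 2 7 1 2 112 (.leaf 28) (.leaf 2)) (.bis 0 7 4 1 89 (.bis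
  2 7 1 2 112 (.leaf 28) (.leaf 2)) (.bis 0 2 8 1 125 (.leaf 2) (.leaf 21)))))))) (.bis 2 7 1 8
  116 (.bis 0 7 1 1 68 (.bis 6 7 1 8 54 (.bis 5 7 1 4 26 (.bis 1 7 1 4 74 (.leaf 32) (.leaf 14))
  (.leaf 14)) (.bis 0 6 4 1 73 (.bis 1 6 2 1 53 (.leaf 14) (.leaf 14)) (.leaf 14))) (.bis 0 5 4 1
  85 (.bis 6 7 1 4 73 (.leaf 14) (.bis 1 6 2 1 53 (.leaf 14) (.leaf 14))) (.bis 0 1 4 1 86 (.bis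
  6 7 1 4 73 (.leaf 14) (.leaf 14)) (.bis 0 4 4 1 87 (.bis 6 7 1 4 73 (.leaf 14) (.leaf 14))
  (.bis 0 3 4 1 88 (.leaf 14) (.bis 0 8 4 1 89 (.leaf 14) (.leaf 21))))))) (.bis 0 5 4 1 85 (.bis
  1 2 2 1 111 (.bis 2 8 1 2 112 (.leaf 14) (.leaf 2)) (.bis 1 6 2 1 53 (.leaf 14) (.leaf 14)))
  (.bis 0 1 4 1 86 (.bis 1 2 2 1 111 (.bis 2 8 1 2 112 (.leaf 14) (.leaf 2)) (.leaf 14)) (.bis 0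
  4 4 1 87 (.bis 2 8 1 2 112 (.leaf 14) (.bis 2 3 1 2 113 (.leaf 2) (.leaf 2))) (.bis 0 3 4 1 88
  (.bis 2 8 1 2 112 (.leaf 14) (.bis 2 3 1 2 113 (.leaf 2) (.leaf 2))) (.bis 0 8 4 1 89 (.bis 2 8
  1 2 112 (.leaf 14) (.bis 0 2 1 1 126 (.leaf 2) (.leaf 2))) (.bis 0 2 8 1 125 (.bis 2 8 1 1 126
  (.leaf 2) (.leaf 2)) (.leaf 21))))))))) (.bis 0 3 2 1 92 (.bis 1 2 2 1 111 (.leaf 38) (.leaf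
  12)) (.bis 0 8 2 1 90 (.bis 1 2 2 1 111 (.bis 2 7 1 2 113 (.bis 6 8 1 4 56 (.leaf 12) (.leaf
  2)) (.bis 2 4 1 2 114 (.bis 6 8 1 4 56 (.leaf 12) (.leaf 2)) (.bis 2 5 1 2 115 (.bis 6 8 1 4 56
  (.leaf 12) (.leaf 2)) (.bis 6 8 1 4 56 (.bis 2 8 1 4 123 (.leaf 10) (.leaf 2)) (.leaf 2)))))
  (.bis 6 8 1 4 56 (.leaf 12) (.leaf 2))) (.bis 0 5 4 1 85 (.bis 1 2 2 1 111 (.leaf 2) (.leaf 2))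
  (.bis 0 1 4 1 86 (.bis 1 2 2 1 111 (.leaf 2) (.leaf 2)) (.bis 0 4 4 1 87 (.leaf 2) (.bis 0 7 4
  1 88 (.bis 2 7 1 2 113 (.leaf 2) (.leaf 2)) (.bis 0 2 8 1 125 (.leaf 2) (.leaf 21)))))))))
  (.bis 0 4 2 1 93 (.bis 1 2 2 1 111 (.leaf 4) (.leaf 4)) (.bis 0 3 2 1 92 (.leaf 4) (.bis 0 8 2
  1 90 (.bis 1 2 2 1 111 (.bis 2 7 1 2 114 (.bis 6 8 1 4 56 (.leaf 12) (.leaf 2)) (.bis 2 5 1 2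
  115 (.bis 6 8 1 4 56 (.bis 5 8 1 2 127 (.leaf 10) (.leaf 2)) (.leaf 2)) (.bis 6 8 1 4 56 (.bis
  2 8 1 4 123 (.leaf 10) (.leaf 2)) (.leaf 2)))) (.bis 6 8 1 4 56 (.leaf 12) (.leaf 2))) (.bis 0
  5 4 1 85 (.leaf 2) (.bis 0 1 4 1 86 (.leaf 2) (.bis 0 7 4 1 87 (.bis 2 7 1 2 114 (.leaf 2)
  (.leaf 2)) (.bis 0 2 8 1 125 (.leaf 2) (.leaf 21))))))))) (.bis 0 1 2 1 95 (.bis 1 6 4 1 59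
  (.leaf 4) (.bis 1 2 4 1 119 (.bis 2 7 1 2 111 (.leaf 4) (.leaf 4)) (.leaf 4))) (.bis 0 4 2 1 93
  (.leaf 4) (.bis 0 3 2 1 92 (.leaf 4) (.bis 0 8 2 1 90 (.bis 2 7 1 2 111 (.bis 6 8 1 4 56 (.bis
  7 8 1 2 128 (.leaf 12) (.leaf 2)) (.leaf 2)) (.bis 2 5 1 2 115 (.bis 6 8 1 4 56 (.bis 5 8 1 2
  127 (.leaf 10) (.leaf 2)) (.leaf 2)) (.bis 6 8 1 4 56 (.bis 2 8 1 4 123 (.leaf 10) (.leaf 2))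
  (.leaf 2)))) (.bis 0 5 4 1 85 (.bis 2 7 1 2 111 (.leaf 2) (.bis 2 5 1 2 115 (.leaf 2) (.leaf
  2))) (.bis 0 7 4 1 86 (.bis 2 7 1 2 111 (.bis 6 7 1 2 53 (.leaf 2) (.leaf 2)) (.leaf 2)) (.bis
  0 2 8 1 125 (.leaf 2) (.leaf 21))))))))) (.bis 0 5 2 1 102 (.bis 1 6 4 1 59 (.bis 5 6 4 1 61
  (.leaf 4) (.bis 2 5 1 4 121 (.leaf 16) (.bis 2 4 1 4 117 (.leaf 4) (.leaf 4)))) (.bis 1 2 4 1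
  119 (.bis 2 5 1 4 121 (.leaf 16) (.leaf 4)) (.bis 1 7 2 1 39 (.leaf 16) (.bis 0 1 1 2 108
  (.leaf 16) (.leaf 16))))) (.bis 0 1 2 1 95 (.leaf 4) (.bis 0 4 2 1 93 (.leaf 4) (.bis 0 3 2 1
  92 (.bis 2 7 1 2 115 (.bis 3 6 4 1 57 (.bis 6 8 1 4 56 (.leaf 4) (.leaf 2)) (.leaf 4)) (.bis 3
  6 4 1 57 (.bis 6 8 1 4 56 (.bis 2 8 1 4 123 (.leaf 4) (.leaf 2)) (.leaf 2)) (.leaf 4))) (.bis 0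
  8 2 1 90 (.bis 2 7 1 2 115 (.bis 6 8 1 4 56 (.bis 7 8 1 2 127 (.leaf 10) (.leaf 2)) (.bis 0 7 1
  1 91 (.leaf 2) (.leaf 2))) (.bis 6 8 1 4 56 (.bis 2 8 1 4 123 (.bis 3 8 1 2 129 (.leaf 10)
  (.leaf 2)) (.leaf 2)) (.leaf 2))) (.bis 0 7 4 1 85 (.bis 2 7 1 2 115 (.bis 7 8 1 1 91 (.leaf 2)
  (.leaf 2)) (.leaf 2)) (.bis 0 2 8 1 125 (.leaf 2) (.leaf 21))))))))))

def lc1 : List Vr := [⟨[24,0,0,0,0,0,0,0,0], 6912, 0⟩, ⟨[0,28,0,0,0,0,0,0,84], 25872, 0⟩, ⟨[0,0,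
  68,0,0,0,85,0,155], 389861, 0⟩, ⟨[0,0,0,13,0,0,0,0,75], 22360, 0⟩, ⟨[0,0,0,0,19,0,0,0,85],
  26961, 0⟩, ⟨[0,0,0,0,0,30,0,0,94], 29760, 0⟩, ⟨[0,0,0,0,0,0,85,0,155], 59925, 0⟩, ⟨[0,0,0,0,0,0,
  0,42,0], 7056, 0⟩, ⟨[0,0,17,0,0,0,0,0,72], 21624, 0⟩]

theorem lk1 : chkTr lowT (leafLow 2 lowB) lt1 lc1 = true := by decide +kernel

def lt2 : Tr ℕ := (.bis 5 7 1 2 19 (.bis 2 7 1 1 130 (.bis 1 7 1 2 20 (.bis 4 7 1 2 21 (.bis 3 7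
  1 2 22 (.bis 7 8 2 1 23 (.bis 0 8 2 1 90 (.bis 2 8 1 1 131 (.bis 1 6 2 1 111 (.bis 6 7 1 2 112
  (.bis 3 8 1 2 124 (.leaf 12) (.leaf 12)) (.bis 3 6 2 1 113 (.bis 4 6 2 1 114 (.bis 5 6 2 1 115
  (.bis 6 8 1 4 123 (.bis 0 8 1 2 132 (.leaf 4) (.leaf 2)) (.leaf 2)) (.bis 5 8 1 2 127 (.leaf
  10) (.leaf 2))) (.bis 5 8 1 2 127 (.leaf 12) (.leaf 2))) (.bis 3 8 1 2 124 (.leaf 12) (.leaf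
  2)))) (.bis 3 8 1 2 124 (.leaf 12) (.leaf 12))) (.bis 1 6 2 1 111 (.bis 6 7 1 2 112 (.leaf 28)
  (.leaf 2)) (.leaf 28))) (.bis 0 5 4 1 85 (.bis 1 6 2 1 111 (.bis 6 7 1 2 112 (.leaf 28) (.bis 3
  6 2 1 113 (.leaf 2) (.leaf 2))) (.leaf 28)) (.bis 0 1 4 1 86 (.bis 1 6 2 1 111 (.bis 6 7 1 2
  112 (.leaf 28) (.bis 3 6 2 1 113 (.leaf 2) (.leaf 2))) (.leaf 28)) (.bis 0 4 4 1 87 (.bis 6 7 1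
  2 112 (.leaf 28) (.bis 3 6 2 1 113 (.leaf 2) (.leaf 2))) (.bis 0 3 4 1 88 (.bis 6 7 1 2 112
  (.leaf 28) (.bis 3 6 2 1 113 (.leaf 2) (.leaf 2))) (.bis 0 7 4 1 89 (.bis 6 7 1 2 112 (.leaf
  28) (.bis 2 6 4 1 133 (.leaf 2) (.leaf 2))) (.bis 0 6 8 1 125 (.bis 2 6 4 1 133 (.bis 6 7 1 1
  126 (.leaf 2) (.leaf 2)) (.leaf 2)) (.leaf 11)))))))) (.bis 6 7 1 8 116 (.bis 0 7 1 1 68 (.bis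
  5 7 1 4 26 (.bis 2 7 1 2 134 (.leaf 32) (.leaf 14)) (.leaf 14)) (.bis 0 5 4 1 85 (.leaf 14)
  (.bis 0 1 4 1 86 (.leaf 14) (.bis 0 4 4 1 87 (.leaf 14) (.bis 0 3 4 1 88 (.leaf 14) (.bis 0 8 4
  1 89 (.leaf 14) (.leaf 21))))))) (.bis 0 5 4 1 85 (.bis 1 6 2 1 111 (.bis 6 8 1 2 112 (.leaf
  14) (.bis 3 6 2 1 113 (.leaf 2) (.leaf 2))) (.leaf 14)) (.bis 0 1 4 1 86 (.bis 1 6 2 1 111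
  (.bis 6 8 1 2 112 (.leaf 14) (.bis 3 6 2 1 113 (.leaf 2) (.leaf 2))) (.leaf 14)) (.bis 0 4 4 1
  87 (.bis 6 8 1 2 112 (.leaf 14) (.bis 3 6 2 1 113 (.bis 4 6 2 1 114 (.leaf 2) (.leaf 2)) (.leaf
  2))) (.bis 0 3 4 1 88 (.bis 6 8 1 2 112 (.leaf 14) (.bis 3 6 2 1 113 (.bis 2 6 4 1 133 (.leaf
  2) (.leaf 2)) (.leaf 2))) (.bis 0 8 4 1 89 (.bis 6 8 1 2 112 (.leaf 14) (.bis 2 6 4 1 133 (.bis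
  0 6 1 1 126 (.leaf 2) (.leaf 2)) (.leaf 2))) (.bis 0 6 8 1 125 (.bis 2 6 4 1 133 (.bis 6 8 1 1
  126 (.leaf 2) (.leaf 2)) (.leaf 2)) (.leaf 21))))))))) (.bis 0 3 2 1 92 (.bis 2 3 1 1 135 (.bis
  1 6 2 1 111 (.bis 6 7 1 2 113 (.leaf 12) (.leaf 4)) (.leaf 12)) (.bis 2 8 1 1 131 (.bis 1 6 2 1
  111 (.bis 6 7 1 2 113 (.bis 7 8 1 2 124 (.leaf 4) (.leaf 2)) (.bis 4 6 2 1 114 (.bis 5 6 2 1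
  115 (.bis 6 8 1 4 123 (.bis 0 8 1 2 129 (.leaf 4) (.leaf 2)) (.leaf 2)) (.bis 5 8 1 2 127
  (.leaf 4) (.leaf 2))) (.bis 5 8 1 2 127 (.leaf 4) (.leaf 2)))) (.bis 7 8 1 2 124 (.leaf 4)
  (.leaf 2))) (.bis 1 6 2 1 111 (.bis 6 7 1 2 113 (.leaf 2) (.leaf 2)) (.leaf 2)))) (.bis 0 8 2 1
  90 (.bis 2 8 1 1 131 (.bis 1 6 2 1 111 (.bis 6 7 1 2 113 (.bis 7 8 1 2 124 (.leaf 12) (.leaf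
  2)) (.bis 4 6 2 1 114 (.bis 5 6 2 1 115 (.bis 6 8 1 4 123 (.bis 3 8 1 2 129 (.leaf 10) (.leaf
  2)) (.leaf 2)) (.bis 5 8 1 2 127 (.leaf 10) (.leaf 2))) (.bis 5 8 1 2 127 (.leaf 12) (.leaf
  2)))) (.bis 7 8 1 2 124 (.leaf 12) (.leaf 2))) (.bis 1 6 2 1 111 (.leaf 2) (.leaf 2))) (.bis 0
  5 4 1 85 (.bis 1 6 2 1 111 (.bis 6 7 1 2 113 (.leaf 2) (.leaf 2)) (.leaf 2)) (.bis 0 1 4 1 86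
  (.bis 1 6 2 1 111 (.bis 6 7 1 2 113 (.leaf 2) (.leaf 2)) (.leaf 2)) (.bis 0 4 4 1 87 (.bis 6 7
  1 2 113 (.leaf 2) (.bis 4 6 2 1 114 (.leaf 2) (.leaf 2))) (.bis 0 7 4 1 88 (.bis 6 7 1 2 113
  (.leaf 2) (.bis 2 6 4 1 133 (.leaf 2) (.leaf 2))) (.bis 0 6 8 1 125 (.bis 2 6 4 1 133 (.leaf 2)
  (.leaf 2)) (.leaf 11))))))))) (.bis 0 4 2 1 93 (.bis 2 4 1 1 136 (.bis 1 6 2 1 111 (.bis 6 7 1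
  2 114 (.leaf 4) (.leaf 4)) (.leaf 4)) (.bis 2 3 1 1 135 (.bis 1 6 2 1 111 (.leaf 4) (.leaf 4))
  (.bis 2 8 1 1 131 (.bis 1 6 2 1 111 (.bis 6 7 1 2 114 (.bis 5 8 1 2 127 (.leaf 4) (.leaf 2))
  (.bis 5 6 2 1 115 (.bis 6 8 1 4 123 (.leaf 4) (.leaf 2)) (.bis 5 8 1 2 127 (.leaf 4) (.leaf
  2)))) (.bis 1 8 1 2 128 (.leaf 4) (.leaf 2))) (.bis 1 6 2 1 111 (.leaf 2) (.leaf 2))))) (.bis 0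
  3 2 1 92 (.bis 2 3 1 1 135 (.bis 1 6 2 1 111 (.leaf 4) (.leaf 4)) (.bis 2 8 1 1 131 (.bis 1 6 2
  1 111 (.bis 6 7 1 2 114 (.bis 5 8 1 2 127 (.leaf 4) (.leaf 2)) (.bis 5 6 2 1 115 (.bis 6 8 1 4
  123 (.bis 0 8 1 2 129 (.leaf 4) (.leaf 2)) (.leaf 2)) (.bis 5 8 1 2 127 (.leaf 4) (.leaf 2))))
  (.bis 1 8 1 2 128 (.leaf 4) (.leaf 2))) (.bis 1 6 2 1 111 (.leaf 2) (.leaf 2)))) (.bis 0 8 2 1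
  90 (.bis 2 8 1 1 131 (.bis 1 6 2 1 111 (.bis 6 7 1 2 114 (.bis 5 8 1 2 127 (.leaf 12) (.leaf
  2)) (.bis 5 6 2 1 115 (.bis 6 8 1 4 123 (.bis 3 8 1 2 129 (.leaf 10) (.leaf 2)) (.leaf 2))
  (.bis 5 8 1 2 127 (.bis 3 8 1 2 129 (.leaf 10) (.leaf 2)) (.leaf 2)))) (.bis 1 8 1 2 128 (.leaf
  12) (.leaf 2))) (.leaf 2)) (.bis 0 5 4 1 85 (.bis 1 6 2 1 111 (.leaf 2) (.leaf 2)) (.bis 0 1 4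
  1 86 (.bis 1 6 2 1 111 (.leaf 2) (.leaf 2)) (.bis 0 7 4 1 87 (.bis 6 7 1 2 114 (.leaf 2) (.leaf
  2)) (.bis 0 6 8 1 125 (.leaf 2) (.leaf 11))))))))) (.bis 0 1 2 1 95 (.bis 1 2 1 1 137 (.bis 2 4
  1 1 136 (.bis 6 7 1 2 111 (.leaf 4) (.leaf 4)) (.bis 2 3 1 1 135 (.leaf 4) (.bis 2 8 1 1 131
  (.bis 6 7 1 2 111 (.bis 7 8 1 2 128 (.leaf 4) (.leaf 2)) (.bis 5 6 2 1 115 (.bis 6 8 1 4 123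
  (.leaf 4) (.leaf 2)) (.bis 5 8 1 2 127 (.leaf 4) (.leaf 2)))) (.leaf 2)))) (.bis 1 6 4 1 119
  (.bis 6 7 1 2 111 (.leaf 4) (.leaf 4)) (.leaf 4))) (.bis 0 4 2 1 93 (.bis 2 4 1 1 136 (.bis 6 7
  1 2 111 (.leaf 4) (.leaf 4)) (.bis 2 3 1 1 135 (.leaf 4) (.bis 2 8 1 1 131 (.bis 6 7 1 2 111
  (.bis 7 8 1 2 128 (.leaf 4) (.leaf 2)) (.bis 5 6 2 1 115 (.bis 6 8 1 4 123 (.leaf 4) (.leaf 2))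
  (.bis 5 8 1 2 127 (.leaf 4) (.leaf 2)))) (.leaf 2)))) (.bis 0 3 2 1 92 (.bis 2 3 1 1 135 (.leaf
  4) (.bis 2 8 1 1 131 (.bis 6 7 1 2 111 (.bis 7 8 1 2 128 (.leaf 4) (.leaf 2)) (.bis 5 6 2 1 115
  (.bis 6 8 1 4 123 (.bis 0 8 1 2 129 (.leaf 4) (.leaf 2)) (.leaf 2)) (.bis 5 8 1 2 127 (.bis 0 8
  1 2 129 (.leaf 4) (.leaf 2)) (.leaf 2)))) (.leaf 2))) (.bis 0 8 2 1 90 (.bis 2 8 1 1 131 (.bis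
  6 7 1 2 111 (.bis 7 8 1 2 128 (.bis 5 8 1 2 127 (.leaf 10) (.leaf 2)) (.leaf 2)) (.bis 5 6 2 1
  115 (.bis 6 8 1 4 123 (.bis 3 8 1 2 129 (.leaf 10) (.leaf 2)) (.leaf 2)) (.bis 5 8 1 2 127
  (.bis 3 8 1 2 129 (.leaf 10) (.leaf 2)) (.leaf 2)))) (.leaf 2)) (.bis 0 5 4 1 85 (.leaf 2)
  (.bis 0 7 4 1 86 (.bis 6 7 1 2 111 (.leaf 2) (.leaf 2)) (.leaf 11)))))))) (.bis 1 2 1 2 138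
  (.bis 2 4 2 1 139 (.bis 0 4 2 1 93 (.bis 4 7 1 1 136 (.bis 3 7 1 1 135 (.bis 7 8 1 1 131 (.bis
  1 5 1 1 140 (.bis 5 6 2 1 115 (.bis 6 8 1 4 123 (.leaf 4) (.leaf 2)) (.bis 2 5 1 1 141 (.bis 5
  8 1 2 127 (.leaf 4) (.leaf 2)) (.bis 0 8 1 2 142 (.leaf 4) (.leaf 2)))) (.bis 6 8 1 4 123 (.bis
  1 8 1 2 143 (.leaf 4) (.leaf 2)) (.leaf 2))) (.bis 1 5 1 1 140 (.leaf 2) (.leaf 2))) (.bis 1 5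
  1 1 140 (.leaf 4) (.bis 3 6 4 1 120 (.bis 6 8 1 4 123 (.leaf 4) (.leaf 2)) (.leaf 4)))) (.bis 4
  6 4 1 117 (.bis 1 5 1 1 140 (.leaf 4) (.leaf 4)) (.leaf 4))) (.bis 0 3 2 1 92 (.bis 3 7 1 1 135
  (.bis 7 8 1 1 131 (.bis 1 5 1 1 140 (.bis 5 6 2 1 115 (.bis 6 8 1 4 123 (.bis 0 8 1 2 129
  (.leaf 4) (.leaf 2)) (.leaf 2)) (.bis 2 5 1 1 141 (.bis 5 8 1 2 127 (.leaf 4) (.leaf 2)) (.bis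
  0 8 1 2 129 (.leaf 4) (.leaf 2)))) (.bis 6 8 1 4 123 (.bis 0 8 1 2 129 (.leaf 4) (.leaf 2))
  (.leaf 2))) (.bis 1 5 1 1 140 (.bis 5 6 2 1 115 (.leaf 2) (.leaf 2)) (.leaf 2))) (.bis 1 5 1 1
  140 (.leaf 4) (.bis 3 6 4 1 120 (.bis 6 8 1 4 123 (.leaf 4) (.leaf 2)) (.leaf 4)))) (.bis 0 8 2
  1 90 (.bis 7 8 1 1 131 (.bis 1 5 1 1 140 (.bis 5 6 2 1 115 (.bis 6 8 1 4 123 (.bis 3 8 1 2 129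
  (.leaf 10) (.leaf 2)) (.leaf 2)) (.bis 2 5 1 1 141 (.bis 5 8 1 2 127 (.leaf 10) (.leaf 2))
  (.bis 3 8 1 2 129 (.bis 0 8 1 2 132 (.leaf 4) (.leaf 2)) (.leaf 2)))) (.bis 6 8 1 4 123 (.bis 3
  8 1 2 129 (.leaf 10) (.leaf 2)) (.leaf 2))) (.bis 1 5 1 1 140 (.bis 5 6 2 1 115 (.leaf 2)
  (.leaf 2)) (.leaf 2))) (.bis 0 5 4 1 85 (.bis 1 5 1 1 140 (.bis 5 6 2 1 115 (.leaf 2) (.leaf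
  2)) (.leaf 2)) (.bis 0 6 8 1 125 (.leaf 2) (.bis 0 1 4 1 144 (.leaf 2) (.leaf 11))))))) (.bis 2
  3 2 1 145 (.bis 0 3 2 1 92 (.bis 3 7 1 1 135 (.bis 7 8 1 1 131 (.bis 2 5 1 1 146 (.bis 1 5 1 1
  140 (.bis 5 6 2 1 115 (.bis 6 8 1 4 123 (.bis 0 8 1 2 129 (.leaf 4) (.leaf 2)) (.leaf 2)) (.bis
  4 5 1 1 141 (.bis 5 8 1 2 127 (.leaf 4) (.leaf 2)) (.bis 0 8 1 2 129 (.leaf 4) (.leaf 2))))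
  (.bis 6 8 1 4 123 (.bis 0 8 1 2 129 (.leaf 4) (.leaf 2)) (.leaf 2))) (.bis 6 8 1 4 123 (.bis 0
  8 1 2 129 (.leaf 4) (.leaf 2)) (.leaf 2))) (.bis 2 5 1 1 146 (.bis 1 5 1 1 140 (.leaf 2) (.leaf
  2)) (.leaf 2))) (.bis 2 5 1 1 146 (.bis 1 5 1 1 140 (.leaf 4) (.bis 3 6 4 1 120 (.bis 6 8 1 4
  123 (.leaf 4) (.leaf 2)) (.leaf 4))) (.bis 3 6 4 1 120 (.bis 6 8 1 4 123 (.bis 0 8 1 2 129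
  (.leaf 4) (.leaf 2)) (.leaf 2)) (.leaf 4)))) (.bis 0 8 2 1 90 (.bis 7 8 1 1 131 (.bis 2 5 1 1
  146 (.bis 1 5 1 1 140 (.bis 5 6 2 1 115 (.bis 6 8 1 4 123 (.bis 3 8 1 2 129 (.leaf 10) (.leaf
  2)) (.leaf 2)) (.bis 4 5 1 1 141 (.bis 5 8 1 2 127 (.leaf 10) (.leaf 2)) (.bis 3 8 1 2 129
  (.leaf 10) (.leaf 2)))) (.bis 6 8 1 4 123 (.bis 3 8 1 2 129 (.leaf 10) (.leaf 2)) (.leaf 2)))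
  (.bis 6 8 1 4 123 (.bis 3 8 1 2 129 (.bis 2 8 1 2 147 (.leaf 10) (.leaf 2)) (.leaf 2)) (.leaf
  2))) (.bis 2 5 1 1 146 (.bis 1 5 1 1 140 (.bis 5 6 2 1 115 (.leaf 2) (.leaf 2)) (.leaf 2))
  (.leaf 2))) (.bis 0 5 4 1 85 (.bis 2 5 1 1 146 (.bis 1 5 1 1 140 (.bis 5 6 2 1 115 (.leaf 2)
  (.leaf 2)) (.leaf 2)) (.leaf 2)) (.bis 0 6 8 1 125 (.leaf 2) (.bis 0 1 4 1 144 (.leaf 2) (.leaf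
  11)))))) (.bis 0 8 2 1 90 (.bis 2 8 2 1 148 (.bis 7 8 1 1 131 (.bis 2 5 1 1 149 (.bis 3 5 1 1
  146 (.bis 1 5 1 1 140 (.bis 5 6 2 1 115 (.bis 6 8 1 4 123 (.leaf 10) (.leaf 2)) (.bis 4 5 1 1
  141 (.bis 5 8 1 2 127 (.leaf 10) (.leaf 2)) (.bis 0 8 1 2 132 (.leaf 4) (.leaf 2)))) (.bis 6 8
  1 4 123 (.bis 0 8 1 2 132 (.leaf 4) (.leaf 2)) (.leaf 2))) (.bis 6 8 1 4 123 (.bis 3 8 1 2 147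
  (.leaf 10) (.leaf 2)) (.leaf 2))) (.bis 6 8 1 4 123 (.bis 2 8 1 2 150 (.bis 3 8 1 2 147 (.leaf
  10) (.leaf 2)) (.leaf 2)) (.leaf 2))) (.bis 2 5 1 1 149 (.bis 3 5 1 1 146 (.bis 1 5 1 1 140
  (.leaf 2) (.leaf 2)) (.leaf 2)) (.leaf 2))) (.bis 2 5 4 1 151 (.bis 5 8 1 1 149 (.leaf 2) (.bis
  3 5 1 1 146 (.bis 1 5 1 1 140 (.leaf 2) (.leaf 2)) (.leaf 2))) (.leaf 11))) (.bis 2 5 4 1 151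
  (.bis 0 5 4 1 85 (.bis 3 5 1 1 146 (.bis 1 5 1 1 140 (.bis 5 6 2 1 115 (.leaf 2) (.leaf 2))
  (.leaf 2)) (.leaf 2)) (.bis 0 6 8 1 125 (.leaf 2) (.bis 0 1 4 1 144 (.leaf 2) (.leaf 11))))
  (.bis 0 6 8 1 125 (.leaf 11) (.bis 0 1 4 1 144 (.leaf 11) (.bis 0 4 4 1 152 (.leaf 11) (.leaf
  11)))))))) (.bis 0 1 2 1 95 (.bis 1 7 1 1 137 (.bis 4 7 1 1 136 (.bis 3 7 1 1 135 (.bis 7 8 1 1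
  131 (.bis 2 5 1 1 140 (.bis 5 6 2 1 115 (.bis 6 8 1 4 123 (.leaf 4) (.leaf 2)) (.bis 5 8 1 2
  127 (.leaf 4) (.leaf 2))) (.bis 6 8 1 4 123 (.leaf 4) (.leaf 2))) (.leaf 2)) (.leaf 4)) (.leaf
  4)) (.bis 1 6 4 1 119 (.bis 4 6 4 1 117 (.bis 2 5 1 1 140 (.leaf 4) (.leaf 4)) (.leaf 4)) (.bis
  1 5 2 1 39 (.leaf 4) (.leaf 4)))) (.bis 0 4 2 1 93 (.bis 4 7 1 1 136 (.bis 3 7 1 1 135 (.bis 7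
  8 1 1 131 (.bis 2 5 1 1 140 (.bis 5 6 2 1 115 (.bis 6 8 1 4 123 (.leaf 4) (.leaf 2)) (.bis 5 8
  1 2 127 (.leaf 4) (.leaf 2))) (.bis 6 8 1 4 123 (.bis 1 8 1 2 153 (.leaf 4) (.leaf 2)) (.leaf
  2))) (.bis 2 5 1 1 140 (.leaf 2) (.leaf 2))) (.leaf 4)) (.leaf 4)) (.bis 0 3 2 1 92 (.bis 3 7 1
  1 135 (.bis 7 8 1 1 131 (.bis 2 5 1 1 140 (.bis 5 6 2 1 115 (.bis 6 8 1 4 123 (.bis 0 8 1 2 129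
  (.leaf 4) (.leaf 2)) (.leaf 2)) (.bis 5 8 1 2 127 (.leaf 4) (.leaf 2))) (.bis 6 8 1 4 123 (.bis
  0 8 1 2 129 (.leaf 4) (.leaf 2)) (.leaf 2))) (.bis 2 5 1 1 140 (.leaf 2) (.leaf 2))) (.bis 2 5
  1 1 140 (.leaf 4) (.bis 3 6 4 1 120 (.bis 6 8 1 4 123 (.leaf 4) (.leaf 2)) (.leaf 4)))) (.bis 0
  8 2 1 90 (.bis 7 8 1 1 131 (.bis 2 5 1 1 140 (.bis 5 6 2 1 115 (.bis 6 8 1 4 123 (.bis 3 8 1 2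
  129 (.leaf 10) (.leaf 2)) (.leaf 2)) (.bis 5 8 1 2 127 (.bis 3 8 1 2 129 (.leaf 10) (.leaf 2))
  (.leaf 2))) (.bis 6 8 1 4 123 (.bis 3 8 1 2 129 (.leaf 10) (.leaf 2)) (.leaf 2))) (.bis 2 5 1 1
  140 (.bis 5 6 2 1 115 (.leaf 2) (.leaf 2)) (.leaf 2))) (.bis 0 5 4 1 85 (.bis 2 5 1 1 140 (.bis
  5 6 2 1 115 (.leaf 2) (.leaf 2)) (.leaf 2)) (.bis 0 6 8 1 125 (.leaf 2) (.leaf 11)))))))))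
  (.bis 2 5 2 1 154 (.bis 0 5 2 1 102 (.bis 1 6 4 1 119 (.leaf 16) (.bis 1 7 2 1 39 (.leaf 16)
  (.bis 1 2 2 1 155 (.leaf 16) (.bis 0 1 1 2 108 (.leaf 16) (.leaf 16))))) (.bis 0 1 2 1 95
  (.leaf 4) (.bis 0 4 2 1 93 (.leaf 4) (.bis 0 3 2 1 92 (.bis 6 7 1 2 115 (.leaf 4) (.bis 3 6 4 1
  120 (.bis 6 8 1 4 123 (.bis 0 8 1 2 129 (.leaf 4) (.leaf 2)) (.leaf 2)) (.leaf 4))) (.bis 0 8 2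
  1 90 (.bis 6 7 1 2 115 (.bis 7 8 1 2 127 (.bis 3 8 1 2 129 (.leaf 10) (.leaf 2)) (.leaf 2))
  (.bis 6 8 1 4 123 (.bis 3 8 1 2 129 (.bis 0 8 1 2 132 (.leaf 4) (.leaf 2)) (.leaf 2)) (.leaf
  2))) (.bis 0 7 4 1 85 (.bis 6 7 1 2 115 (.bis 2 7 1 1 156 (.leaf 2) (.leaf 2)) (.leaf 2)) (.bis
  0 6 8 1 125 (.leaf 2) (.bis 0 2 4 1 157 (.leaf 2) (.leaf 11))))))))) (.bis 1 2 1 2 138 (.bis 2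
  4 2 1 139 (.bis 0 4 2 1 93 (.bis 4 6 4 1 117 (.bis 1 7 1 1 140 (.bis 6 7 1 2 115 (.leaf 4)
  (.leaf 4)) (.leaf 4)) (.bis 1 7 1 1 140 (.leaf 4) (.leaf 4))) (.bis 0 3 2 1 92 (.bis 1 7 1 1
  140 (.bis 6 7 1 2 115 (.leaf 4) (.bis 3 6 4 1 120 (.bis 6 8 1 4 123 (.leaf 4) (.leaf 2)) (.leaf
  4))) (.bis 3 6 4 1 120 (.bis 6 8 1 4 123 (.bis 0 8 1 2 129 (.leaf 4) (.leaf 2)) (.leaf 2))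
  (.leaf 4))) (.bis 0 8 2 1 90 (.bis 1 7 1 1 140 (.bis 6 7 1 2 115 (.bis 2 7 1 1 141 (.bis 7 8 1
  2 127 (.bis 3 8 1 2 129 (.leaf 10) (.leaf 2)) (.leaf 2)) (.bis 3 8 1 2 129 (.bis 0 8 1 2 132
  (.leaf 4) (.leaf 2)) (.leaf 2))) (.bis 6 8 1 4 123 (.bis 3 8 1 2 129 (.leaf 10) (.leaf 2))
  (.leaf 2))) (.bis 6 8 1 4 123 (.bis 3 8 1 2 129 (.bis 0 8 1 2 132 (.leaf 4) (.leaf 2)) (.leaf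
  2)) (.leaf 2))) (.bis 0 7 4 1 85 (.bis 1 7 1 1 140 (.bis 6 7 1 2 115 (.bis 2 7 1 1 141 (.leaf
  2) (.leaf 2)) (.leaf 2)) (.leaf 2)) (.bis 0 6 8 1 125 (.leaf 2) (.bis 0 5 4 1 157 (.leaf 2)
  (.bis 0 1 4 1 144 (.leaf 2) (.leaf 11)))))))) (.bis 2 3 2 1 145 (.bis 0 3 2 1 92 (.bis 2 7 1 1
  146 (.bis 1 7 1 1 140 (.leaf 4) (.bis 3 6 4 1 120 (.bis 6 8 1 4 123 (.leaf 4) (.leaf 2)) (.leaf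
  4))) (.bis 3 6 4 1 120 (.bis 6 8 1 4 123 (.bis 0 8 1 2 129 (.leaf 4) (.leaf 2)) (.leaf 2))
  (.leaf 4))) (.bis 0 8 2 1 90 (.bis 2 7 1 1 146 (.bis 1 7 1 1 140 (.bis 6 7 1 2 115 (.bis 4 7 1
  1 141 (.bis 7 8 1 2 127 (.leaf 10) (.leaf 2)) (.bis 3 8 1 2 129 (.bis 0 8 1 2 132 (.leaf 4)
  (.leaf 2)) (.leaf 2))) (.bis 6 8 1 4 123 (.bis 3 8 1 2 129 (.leaf 10) (.leaf 2)) (.leaf 2)))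
  (.bis 6 8 1 4 123 (.bis 3 8 1 2 129 (.leaf 10) (.leaf 2)) (.leaf 2))) (.bis 6 8 1 4 123 (.bis 3
  8 1 2 129 (.bis 2 8 1 2 147 (.leaf 10) (.leaf 2)) (.leaf 2)) (.leaf 2))) (.bis 0 7 4 1 85 (.bis
  2 7 1 1 146 (.bis 1 7 1 1 140 (.bis 6 7 1 2 115 (.leaf 2) (.leaf 2)) (.leaf 2)) (.leaf 2))
  (.bis 0 6 8 1 125 (.leaf 2) (.bis 0 5 4 1 157 (.leaf 2) (.bis 0 1 4 1 144 (.leaf 2) (.leaf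
  11))))))) (.bis 0 8 2 1 90 (.bis 2 8 2 1 148 (.bis 2 7 1 1 149 (.bis 3 7 1 1 146 (.bis 1 7 1 1
  140 (.bis 6 7 1 2 115 (.bis 4 7 1 1 141 (.bis 7 8 1 2 127 (.leaf 10) (.leaf 2)) (.bis 0 8 1 2
  132 (.leaf 4) (.leaf 2))) (.bis 6 8 1 4 123 (.bis 0 8 1 2 132 (.leaf 4) (.leaf 2)) (.leaf 2)))
  (.bis 6 8 1 4 123 (.bis 0 8 1 2 132 (.leaf 4) (.leaf 2)) (.leaf 2))) (.bis 6 8 1 4 123 (.bis 3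
  8 1 2 147 (.leaf 10) (.leaf 2)) (.leaf 2))) (.bis 6 8 1 4 123 (.bis 2 8 1 2 150 (.bis 3 8 1 2
  147 (.leaf 10) (.leaf 2)) (.leaf 2)) (.leaf 2))) (.bis 2 7 4 1 151 (.bis 7 8 1 1 149 (.leaf 2)
  (.bis 3 7 1 1 146 (.bis 1 7 1 1 140 (.bis 6 7 1 2 115 (.leaf 2) (.leaf 2)) (.leaf 2)) (.leaf
  2))) (.bis 0 2 1 4 158 (.leaf 6) (.leaf 2)))) (.bis 2 7 4 1 151 (.bis 0 7 4 1 85 (.bis 3 7 1 1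
  146 (.bis 1 7 1 1 140 (.bis 6 7 1 2 115 (.leaf 2) (.leaf 2)) (.leaf 2)) (.leaf 2)) (.bis 0 6 8
  1 125 (.leaf 2) (.bis 0 5 4 1 157 (.leaf 2) (.bis 0 1 4 1 144 (.leaf 2) (.leaf 11))))) (.bis 0
  6 8 1 125 (.bis 2 8 4 1 158 (.leaf 2) (.leaf 6)) (.bis 0 5 4 1 157 (.leaf 11) (.bis 0 1 4 1 144
  (.leaf 11) (.leaf 11)))))))) (.bis 0 1 2 1 95 (.bis 1 6 4 1 119 (.bis 4 6 4 1 117 (.bis 2 7 1 1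
  140 (.leaf 4) (.leaf 4)) (.bis 2 7 1 1 140 (.leaf 4) (.leaf 4))) (.bis 1 7 2 1 39 (.leaf 4)
  (.leaf 4))) (.bis 0 4 2 1 93 (.bis 4 6 4 1 117 (.bis 2 7 1 1 140 (.leaf 4) (.leaf 4)) (.bis 2 7
  1 1 140 (.leaf 4) (.leaf 4))) (.bis 0 3 2 1 92 (.bis 2 7 1 1 140 (.leaf 4) (.bis 3 6 4 1 120
  (.bis 6 8 1 4 123 (.bis 0 8 1 2 129 (.leaf 4) (.leaf 2)) (.leaf 2)) (.leaf 4))) (.bis 0 8 2 1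
  90 (.bis 2 7 1 1 140 (.bis 6 7 1 2 115 (.bis 7 8 1 2 127 (.bis 3 8 1 2 129 (.leaf 10) (.leaf
  2)) (.leaf 2)) (.bis 6 8 1 4 123 (.bis 3 8 1 2 129 (.leaf 10) (.leaf 2)) (.leaf 2))) (.bis 6 8
  1 4 123 (.bis 3 8 1 2 129 (.bis 0 8 1 2 132 (.leaf 4) (.leaf 2)) (.leaf 2)) (.leaf 2))) (.bis 0
  7 4 1 85 (.bis 2 7 1 1 140 (.bis 6 7 1 2 115 (.leaf 2) (.leaf 2)) (.leaf 2)) (.bis 0 6 8 1 125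
  (.leaf 2) (.bis 0 5 4 1 157 (.leaf 2) (.leaf 11)))))))))))

def lc2 : List Vr := [⟨[24,0,0,0,0,0,0,0,0], 6912, 0⟩, ⟨[0,28,0,0,0,0,0,0,84], 25872, 0⟩, ⟨[0,0,
  17,0,0,0,0,0,0], 6936, 0⟩, ⟨[0,0,0,13,0,0,0,0,75], 22360, 0⟩, ⟨[0,0,0,0,19,0,0,0,85], 26961, 0⟩,
   ⟨[0,0,0,0,0,30,0,0,94], 29760, 0⟩, ⟨[0,0,68,0,0,0,85,0,155], 389861, 0⟩, ⟨[0,0,0,0,0,0,0,42,0],
   7056, 0⟩, ⟨[0,0,17,0,0,0,0,0,72], 21624, 0⟩]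

theorem lk2 : chkTr lowT (leafLow 2 lowB) lt2 lc2 = true := by decide +kernel

def lt3 : Tr ℕ := (.bis 0 6 4 1 50 (.bis 6 7 1 4 18 (.bis 5 7 1 2 19 (.bis 1 7 1 2 20 (.bis 4 7 1
  2 21 (.bis 7 8 2 1 22 (.bis 1 3 2 1 160 (.bis 3 7 1 2 161 (.bis 6 8 1 4 37 (.bis 2 7 1 2 113
  (.bis 0 8 1 4 57 (.leaf 12) (.leaf 2)) (.bis 2 4 1 2 114 (.bis 0 8 1 4 57 (.leaf 4) (.leaf 2))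
  (.bis 2 5 1 2 115 (.bis 0 8 1 4 57 (.leaf 4) (.leaf 2)) (.bis 0 8 1 4 57 (.leaf 4) (.leaf
  2))))) (.bis 2 7 1 2 113 (.leaf 12) (.leaf 23))) (.bis 3 6 1 1 162 (.bis 6 8 1 4 37 (.bis 2 4 1
  2 114 (.bis 0 8 1 4 57 (.leaf 4) (.leaf 2)) (.bis 2 5 1 2 115 (.bis 0 8 1 4 57 (.leaf 4) (.leaf
  2)) (.bis 0 8 1 4 57 (.leaf 4) (.leaf 2)))) (.leaf 23)) (.bis 3 4 1 2 163 (.bis 2 4 1 2 114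
  (.bis 0 8 1 4 57 (.bis 5 8 1 2 164 (.leaf 4) (.leaf 2)) (.leaf 2)) (.bis 2 5 1 2 115 (.bis 0 8
  1 4 57 (.bis 5 8 1 2 164 (.leaf 4) (.leaf 2)) (.leaf 2)) (.bis 0 8 1 4 57 (.bis 2 8 1 4 120
  (.leaf 4) (.leaf 2)) (.leaf 2)))) (.bis 3 5 1 2 165 (.bis 2 5 1 2 115 (.bis 0 8 1 4 57 (.bis 5
  8 1 2 164 (.leaf 4) (.leaf 2)) (.leaf 2)) (.bis 0 8 1 4 57 (.bis 2 8 1 4 120 (.leaf 4) (.leaf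
  2)) (.leaf 2))) (.bis 0 8 1 4 57 (.bis 2 8 1 4 120 (.bis 3 8 1 4 166 (.leaf 4) (.leaf 2))
  (.leaf 2)) (.leaf 2)))))) (.bis 1 2 2 1 111 (.bis 6 8 1 4 37 (.bis 2 7 1 2 113 (.bis 0 8 1 4 57
  (.leaf 12) (.leaf 2)) (.bis 2 4 1 2 114 (.bis 0 8 1 4 57 (.leaf 4) (.leaf 2)) (.bis 2 5 1 2 115
  (.bis 0 8 1 4 57 (.leaf 4) (.leaf 2)) (.bis 0 8 1 4 57 (.leaf 4) (.leaf 2))))) (.bis 2 7 1 2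
  113 (.leaf 12) (.leaf 23))) (.bis 6 8 1 4 37 (.bis 0 8 1 4 57 (.leaf 12) (.leaf 2)) (.bis 0 1 1
  2 53 (.leaf 12) (.leaf 12))))) (.bis 3 7 1 8 167 (.bis 2 7 1 8 116 (.bis 0 7 1 8 54 (.bis 5 7 1
  4 26 (.bis 6 7 1 8 27 (.bis 1 7 1 4 74 (.leaf 32) (.leaf 14)) (.leaf 14)) (.leaf 14)) (.bis 0 1
  1 2 53 (.leaf 14) (.bis 0 8 1 2 70 (.leaf 14) (.leaf 14)))) (.bis 1 2 2 1 111 (.bis 2 8 1 2 113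
  (.leaf 12) (.leaf 26)) (.bis 0 1 1 2 53 (.leaf 12) (.leaf 12)))) (.bis 1 3 2 1 160 (.bis 3 8 1
  2 161 (.bis 2 8 1 2 113 (.leaf 12) (.leaf 26)) (.leaf 26)) (.bis 1 2 2 1 111 (.bis 2 8 1 2 113
  (.leaf 12) (.leaf 26)) (.bis 0 1 1 2 53 (.leaf 12) (.leaf 12)))))) (.bis 1 3 2 1 160 (.bis 3 6
  1 1 162 (.bis 4 6 4 1 38 (.bis 6 8 1 4 37 (.leaf 4) (.leaf 23)) (.leaf 4)) (.bis 3 7 1 2 163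
  (.bis 0 4 1 4 58 (.leaf 4) (.bis 2 7 1 2 114 (.bis 0 8 1 4 57 (.leaf 4) (.leaf 2)) (.bis 2 5 1
  2 115 (.bis 0 8 1 4 57 (.leaf 4) (.leaf 2)) (.bis 0 8 1 4 57 (.leaf 4) (.leaf 2))))) (.bis 3 5
  1 2 165 (.bis 0 4 1 4 58 (.leaf 4) (.bis 2 5 1 2 115 (.bis 0 8 1 4 57 (.leaf 4) (.leaf 2))
  (.bis 0 8 1 4 57 (.leaf 4) (.leaf 2)))) (.bis 0 4 1 4 58 (.bis 2 4 1 4 117 (.leaf 4) (.bis 2 8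
  1 4 120 (.leaf 4) (.leaf 2))) (.bis 0 8 1 4 57 (.bis 2 8 1 4 120 (.leaf 4) (.leaf 2)) (.leaf
  2)))))) (.bis 4 6 4 1 38 (.bis 1 2 2 1 111 (.bis 6 8 1 4 37 (.leaf 4) (.leaf 23)) (.bis 6 8 1 4
  37 (.leaf 4) (.leaf 12))) (.bis 1 2 2 1 111 (.leaf 4) (.leaf 4))))) (.bis 1 6 4 1 31 (.bis 3 7
  1 2 160 (.bis 4 6 4 1 38 (.bis 2 7 1 2 111 (.leaf 12) (.leaf 23)) (.bis 2 7 1 2 111 (.leaf 4)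
  (.leaf 4))) (.leaf 38)) (.bis 3 7 1 2 160 (.bis 0 1 1 4 59 (.bis 1 2 4 1 119 (.bis 2 7 1 2 111
  (.leaf 4) (.leaf 4)) (.leaf 4)) (.leaf 4)) (.leaf 4)))) (.bis 1 6 4 1 31 (.bis 5 6 4 1 40 (.bis
  3 6 1 1 162 (.bis 4 6 4 1 38 (.leaf 23) (.bis 0 4 1 4 58 (.bis 2 4 1 4 117 (.leaf 4) (.leaf 4))
  (.leaf 4))) (.leaf 4)) (.bis 0 5 1 4 61 (.bis 2 5 1 4 121 (.bis 3 5 1 4 168 (.leaf 16) (.bis 3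
  7 1 2 165 (.leaf 4) (.bis 3 4 1 4 169 (.leaf 4) (.leaf 4)))) (.bis 3 7 1 2 165 (.bis 2 4 1 4
  117 (.leaf 4) (.leaf 4)) (.leaf 4))) (.leaf 4))) (.bis 0 1 1 4 59 (.bis 1 2 4 1 119 (.bis 2 5 1
  4 121 (.bis 3 5 1 4 168 (.leaf 16) (.bis 3 7 1 2 165 (.leaf 4) (.leaf 4))) (.leaf 4)) (.bis 1 3
  4 1 170 (.bis 3 5 1 4 168 (.leaf 16) (.bis 3 7 1 2 165 (.leaf 4) (.leaf 4))) (.bis 1 7 2 1 39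
  (.leaf 16) (.leaf 16)))) (.leaf 16)))) (.bis 3 6 1 2 171 (.bis 2 6 1 2 122 (.bis 1 6 2 1 47
  (.bis 0 6 1 2 66 (.bis 6 7 2 1 48 (.bis 5 7 4 1 40 (.bis 4 7 4 1 38 (.bis 7 8 1 4 37 (.leaf 4)
  (.leaf 23)) (.leaf 4)) (.leaf 16)) (.leaf 54)) (.bis 5 7 4 1 40 (.bis 4 7 4 1 38 (.bis 7 8 1 4
  37 (.bis 0 1 1 1 67 (.leaf 4) (.leaf 4)) (.leaf 23)) (.bis 0 4 1 4 58 (.leaf 4) (.leaf 4)))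
  (.bis 0 5 1 4 61 (.leaf 16) (.bis 0 4 1 4 58 (.leaf 4) (.leaf 4))))) (.bis 1 7 4 1 31 (.bis 5 7
  4 1 40 (.bis 4 7 4 1 38 (.bis 7 8 1 4 37 (.bis 0 6 1 1 67 (.leaf 4) (.leaf 4)) (.leaf 23))
  (.bis 0 4 1 4 58 (.leaf 4) (.bis 0 6 1 1 67 (.leaf 4) (.leaf 4)))) (.bis 0 5 1 4 61 (.leaf 16)
  (.bis 0 4 1 4 58 (.leaf 4) (.leaf 4)))) (.bis 0 1 1 4 59 (.leaf 16) (.bis 0 5 1 4 61 (.leaf 16)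
  (.bis 0 4 1 4 58 (.leaf 4) (.leaf 4)))))) (.bis 1 7 4 1 31 (.bis 5 7 4 1 40 (.bis 4 7 4 1 38
  (.leaf 23) (.leaf 4)) (.bis 0 5 1 4 61 (.bis 2 5 1 4 121 (.leaf 16) (.leaf 4)) (.leaf 4)))
  (.bis 0 1 1 4 59 (.bis 1 2 4 1 119 (.bis 2 5 1 4 121 (.leaf 16) (.leaf 4)) (.leaf 16)) (.leaf
  16)))) (.bis 1 7 4 1 31 (.bis 5 7 4 1 40 (.bis 3 7 1 1 162 (.leaf 23) (.leaf 4)) (.leaf 16))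
  (.leaf 16)))) (.bis 5 7 1 2 19 (.bis 1 7 1 2 20 (.bis 4 7 1 2 21 (.bis 7 8 2 1 22 (.bis 0 8 2 1
  92 (.bis 1 3 2 1 160 (.bis 3 7 1 2 161 (.bis 2 7 1 2 113 (.bis 6 8 1 4 57 (.bis 7 8 1 2 172
  (.leaf 4) (.leaf 2)) (.leaf 2)) (.bis 2 4 1 2 114 (.bis 6 8 1 4 57 (.bis 5 8 1 2 164 (.leaf 4)
  (.leaf 2)) (.leaf 2)) (.bis 2 5 1 2 115 (.bis 6 8 1 4 57 (.bis 5 8 1 2 164 (.leaf 4) (.leaf 2))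
  (.leaf 2)) (.bis 6 8 1 4 57 (.bis 2 8 1 4 120 (.leaf 4) (.leaf 2)) (.leaf 2))))) (.bis 3 4 1 2
  163 (.bis 2 4 1 2 114 (.bis 6 8 1 4 57 (.bis 5 8 1 2 164 (.leaf 4) (.leaf 2)) (.leaf 2)) (.bis
  2 5 1 2 115 (.bis 6 8 1 4 57 (.bis 5 8 1 2 164 (.leaf 4) (.leaf 2)) (.leaf 2)) (.bis 6 8 1 4 57
  (.bis 2 8 1 4 120 (.leaf 4) (.leaf 2)) (.leaf 2)))) (.bis 3 5 1 2 165 (.bis 2 5 1 2 115 (.bis 6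
  8 1 4 57 (.bis 5 8 1 2 164 (.leaf 4) (.leaf 2)) (.leaf 2)) (.bis 6 8 1 4 57 (.bis 2 8 1 4 120
  (.leaf 4) (.leaf 2)) (.leaf 2))) (.bis 6 8 1 4 57 (.bis 2 8 1 4 120 (.leaf 4) (.leaf 2)) (.leaf
  2))))) (.bis 1 2 2 1 111 (.bis 2 7 1 2 113 (.bis 6 8 1 4 57 (.bis 7 8 1 2 172 (.leaf 4) (.leaf
  2)) (.leaf 2)) (.bis 2 4 1 2 114 (.bis 6 8 1 4 57 (.bis 5 8 1 2 164 (.leaf 4) (.leaf 2)) (.leaf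
  2)) (.bis 2 5 1 2 115 (.bis 6 8 1 4 57 (.bis 5 8 1 2 164 (.leaf 4) (.leaf 2)) (.leaf 2)) (.bis
  6 8 1 4 57 (.bis 2 8 1 4 120 (.leaf 4) (.leaf 2)) (.leaf 2))))) (.bis 6 8 1 4 57 (.bis 7 8 1 2
  172 (.leaf 4) (.leaf 2)) (.leaf 2)))) (.bis 0 5 4 1 85 (.bis 1 3 2 1 160 (.leaf 2) (.bis 1 2 2
  1 111 (.leaf 2) (.leaf 2))) (.bis 0 1 4 1 86 (.bis 1 3 2 1 160 (.leaf 2) (.bis 1 2 2 1 111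
  (.leaf 2) (.leaf 2))) (.bis 0 4 4 1 87 (.bis 3 7 1 2 161 (.leaf 2) (.bis 3 4 1 2 163 (.leaf 2)
  (.leaf 2))) (.bis 0 7 4 1 88 (.bis 3 7 1 2 161 (.leaf 2) (.leaf 2)) (.bis 0 3 8 1 173 (.leaf 2)
  (.leaf 21))))))) (.bis 3 7 1 8 167 (.bis 2 7 1 8 116 (.bis 0 7 1 1 68 (.bis 6 7 1 8 54 (.bis 5
  7 1 4 26 (.bis 1 7 1 4 74 (.leaf 32) (.leaf 14)) (.leaf 14)) (.bis 0 6 4 1 73 (.bis 1 6 2 1 53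
  (.leaf 2) (.leaf 2)) (.leaf 14))) (.bis 0 5 4 1 85 (.bis 6 7 1 4 73 (.leaf 14) (.leaf 2)) (.bis
  0 1 4 1 86 (.bis 6 7 1 4 73 (.leaf 14) (.leaf 2)) (.bis 0 4 4 1 87 (.leaf 14) (.bis 0 8 4 1 88
  (.leaf 14) (.bis 0 3 16 1 174 (.leaf 14) (.leaf 21))))))) (.bis 0 5 4 1 85 (.bis 1 2 2 1 111
  (.bis 2 8 1 2 113 (.leaf 2) (.leaf 2)) (.leaf 2)) (.bis 0 1 4 1 86 (.bis 1 2 2 1 111 (.bis 2 8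
  1 2 113 (.leaf 2) (.leaf 2)) (.leaf 2)) (.bis 0 4 4 1 87 (.bis 2 8 1 2 113 (.leaf 2) (.leaf 2))
  (.bis 0 8 4 1 88 (.bis 2 8 1 2 113 (.leaf 2) (.leaf 2)) (.bis 0 2 8 1 125 (.leaf 2) (.bis 0 3
  16 1 174 (.leaf 2) (.leaf 21)))))))) (.bis 0 5 4 1 85 (.bis 1 3 2 1 160 (.bis 3 8 1 2 161
  (.leaf 2) (.leaf 2)) (.bis 1 2 2 1 111 (.leaf 2) (.leaf 2))) (.bis 0 1 4 1 86 (.bis 1 3 2 1 160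
  (.bis 3 8 1 2 161 (.leaf 2) (.leaf 2)) (.bis 1 2 2 1 111 (.leaf 2) (.leaf 2))) (.bis 0 4 4 1 87
  (.bis 3 8 1 2 161 (.bis 2 8 1 2 113 (.leaf 2) (.leaf 2)) (.leaf 2)) (.bis 0 8 4 1 88 (.bis 3 8
  1 2 161 (.bis 2 8 1 2 113 (.leaf 2) (.leaf 2)) (.leaf 2)) (.bis 0 3 8 1 173 (.leaf 2) (.bis 0 2
  8 1 125 (.leaf 2) (.leaf 21))))))))) (.bis 0 4 2 1 93 (.bis 1 3 2 1 160 (.bis 3 7 1 2 163 (.bis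
  4 6 4 1 58 (.bis 2 7 1 2 114 (.bis 6 8 1 4 57 (.leaf 4) (.leaf 2)) (.bis 2 5 1 2 115 (.bis 6 8
  1 4 57 (.leaf 4) (.leaf 2)) (.bis 6 8 1 4 57 (.leaf 4) (.leaf 2)))) (.leaf 4)) (.bis 3 5 1 2
  165 (.bis 4 6 4 1 58 (.bis 2 5 1 2 115 (.bis 6 8 1 4 57 (.leaf 4) (.leaf 2)) (.bis 6 8 1 4 57
  (.leaf 4) (.leaf 2))) (.leaf 4)) (.bis 4 6 4 1 58 (.bis 6 8 1 4 57 (.bis 2 8 1 4 120 (.leaf 4)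
  (.leaf 2)) (.leaf 2)) (.leaf 4)))) (.bis 1 2 2 1 111 (.bis 4 6 4 1 58 (.bis 2 7 1 2 114 (.bis 6
  8 1 4 57 (.leaf 4) (.leaf 2)) (.bis 2 5 1 2 115 (.bis 6 8 1 4 57 (.leaf 4) (.leaf 2)) (.bis 6 8
  1 4 57 (.leaf 4) (.leaf 2)))) (.leaf 4)) (.bis 4 6 4 1 58 (.bis 6 8 1 4 57 (.leaf 4) (.leaf 2))
  (.leaf 4)))) (.bis 0 8 2 1 92 (.bis 1 3 2 1 160 (.bis 3 7 1 2 163 (.bis 2 7 1 2 114 (.bis 6 8 1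
  4 57 (.bis 5 8 1 2 164 (.leaf 4) (.leaf 2)) (.leaf 2)) (.bis 2 5 1 2 115 (.bis 6 8 1 4 57 (.bis
  5 8 1 2 164 (.leaf 4) (.leaf 2)) (.leaf 2)) (.bis 6 8 1 4 57 (.bis 2 8 1 4 120 (.leaf 4) (.leaf
  2)) (.leaf 2)))) (.bis 3 5 1 2 165 (.bis 2 5 1 2 115 (.bis 6 8 1 4 57 (.bis 5 8 1 2 164 (.leaf
  4) (.leaf 2)) (.leaf 2)) (.bis 6 8 1 4 57 (.bis 2 8 1 4 120 (.leaf 4) (.leaf 2)) (.leaf 2)))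
  (.bis 6 8 1 4 57 (.bis 2 8 1 4 120 (.bis 3 8 1 4 166 (.leaf 4) (.leaf 2)) (.leaf 2)) (.leaf
  2)))) (.bis 1 2 2 1 111 (.bis 2 7 1 2 114 (.bis 6 8 1 4 57 (.bis 5 8 1 2 164 (.leaf 4) (.leaf
  2)) (.leaf 2)) (.bis 2 5 1 2 115 (.bis 6 8 1 4 57 (.bis 5 8 1 2 164 (.leaf 4) (.leaf 2)) (.leaf
  2)) (.bis 6 8 1 4 57 (.bis 2 8 1 4 120 (.leaf 4) (.leaf 2)) (.leaf 2)))) (.bis 6 8 1 4 57 (.bis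
  1 8 1 2 175 (.leaf 4) (.leaf 2)) (.leaf 2)))) (.bis 0 5 4 1 85 (.leaf 2) (.bis 0 1 4 1 86 (.bis
  1 3 2 1 160 (.bis 3 7 1 2 163 (.leaf 2) (.leaf 2)) (.leaf 2)) (.bis 0 7 4 1 87 (.bis 3 7 1 2
  163 (.leaf 2) (.leaf 2)) (.bis 0 3 8 1 173 (.leaf 2) (.leaf 21)))))))) (.bis 0 1 2 1 95 (.bis 3
  7 1 2 160 (.leaf 4) (.bis 1 6 4 1 59 (.bis 3 5 1 2 165 (.leaf 4) (.bis 4 6 4 1 58 (.bis 6 8 1 4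
  57 (.leaf 4) (.leaf 2)) (.leaf 4))) (.bis 1 2 4 1 119 (.bis 3 5 1 2 165 (.leaf 4) (.leaf 4))
  (.bis 1 3 4 1 170 (.bis 3 5 1 2 165 (.leaf 4) (.leaf 4)) (.bis 1 5 2 1 39 (.leaf 4) (.leaf
  4)))))) (.bis 0 4 2 1 93 (.bis 3 7 1 2 160 (.bis 2 7 1 2 111 (.bis 4 6 4 1 58 (.bis 6 8 1 4 57
  (.leaf 4) (.leaf 2)) (.leaf 4)) (.bis 4 6 4 1 58 (.bis 2 5 1 2 115 (.bis 6 8 1 4 57 (.leaf 4)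
  (.leaf 2)) (.bis 6 8 1 4 57 (.leaf 4) (.leaf 2))) (.leaf 4))) (.bis 3 5 1 2 165 (.bis 4 6 4 1
  58 (.bis 2 5 1 2 115 (.bis 6 8 1 4 57 (.leaf 4) (.leaf 2)) (.bis 6 8 1 4 57 (.leaf 4) (.leaf
  2))) (.leaf 4)) (.bis 4 6 4 1 58 (.bis 6 8 1 4 57 (.bis 2 8 1 4 120 (.leaf 4) (.leaf 2)) (.leaf
  2)) (.bis 2 4 1 4 117 (.leaf 4) (.bis 2 8 1 4 120 (.leaf 4) (.leaf 2)))))) (.bis 0 8 2 1 92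
  (.bis 3 7 1 2 160 (.bis 2 7 1 2 111 (.bis 6 8 1 4 57 (.bis 7 8 1 2 175 (.leaf 4) (.leaf 2))
  (.leaf 2)) (.bis 2 5 1 2 115 (.bis 6 8 1 4 57 (.bis 5 8 1 2 164 (.leaf 4) (.leaf 2)) (.leaf 2))
  (.bis 6 8 1 4 57 (.bis 2 8 1 4 120 (.leaf 4) (.leaf 2)) (.leaf 2)))) (.bis 3 5 1 2 165 (.bis 2
  5 1 2 115 (.bis 6 8 1 4 57 (.bis 5 8 1 2 164 (.leaf 4) (.leaf 2)) (.leaf 2)) (.bis 6 8 1 4 57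
  (.bis 2 8 1 4 120 (.leaf 4) (.leaf 2)) (.leaf 2))) (.bis 6 8 1 4 57 (.bis 2 8 1 4 120 (.bis 3 8
  1 4 166 (.leaf 4) (.leaf 2)) (.leaf 2)) (.leaf 2)))) (.bis 0 5 4 1 85 (.bis 3 7 1 2 160 (.leaf
  2) (.bis 3 5 1 2 165 (.leaf 2) (.leaf 2))) (.bis 0 7 4 1 86 (.bis 3 7 1 2 160 (.bis 2 7 1 2 111
  (.leaf 2) (.leaf 2)) (.leaf 2)) (.bis 0 3 8 1 173 (.leaf 2) (.bis 0 2 8 1 125 (.leaf 2) (.leaf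
  21))))))))) (.bis 0 5 2 1 102 (.leaf 16) (.bis 0 1 2 1 95 (.bis 1 6 4 1 59 (.bis 3 7 1 2 165
  (.leaf 4) (.bis 4 6 4 1 58 (.bis 6 8 1 4 57 (.leaf 4) (.leaf 2)) (.leaf 4))) (.bis 1 2 4 1 119
  (.bis 3 7 1 2 165 (.leaf 4) (.leaf 4)) (.bis 1 3 4 1 170 (.bis 3 7 1 2 165 (.leaf 4) (.leaf 4))
  (.bis 1 7 2 1 39 (.leaf 4) (.leaf 4))))) (.bis 0 4 2 1 93 (.bis 3 7 1 2 165 (.bis 4 6 4 1 58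
  (.bis 2 7 1 2 115 (.bis 6 8 1 4 57 (.leaf 4) (.leaf 2)) (.bis 6 8 1 4 57 (.bis 2 8 1 4 120
  (.leaf 4) (.leaf 2)) (.leaf 2))) (.leaf 4)) (.bis 4 6 4 1 58 (.bis 6 8 1 4 57 (.bis 2 8 1 4 120
  (.leaf 4) (.leaf 2)) (.leaf 2)) (.bis 2 4 1 4 117 (.leaf 4) (.bis 2 8 1 4 120 (.leaf 4) (.leaf
  2))))) (.bis 0 8 2 1 92 (.bis 3 7 1 2 165 (.bis 2 7 1 2 115 (.bis 6 8 1 4 57 (.bis 7 8 1 2 164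
  (.leaf 4) (.leaf 2)) (.leaf 2)) (.bis 6 8 1 4 57 (.bis 2 8 1 4 120 (.bis 0 8 1 2 176 (.leaf 4)
  (.leaf 2)) (.leaf 2)) (.leaf 2))) (.bis 6 8 1 4 57 (.bis 2 8 1 4 120 (.bis 3 8 1 4 166 (.leaf
  4) (.leaf 2)) (.leaf 2)) (.leaf 2))) (.bis 0 7 4 1 85 (.bis 3 7 1 2 165 (.bis 2 7 1 2 115
  (.leaf 2) (.leaf 2)) (.leaf 2)) (.bis 0 3 8 1 173 (.leaf 2) (.bis 0 2 8 1 125 (.leaf 2) (.leaf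
  21))))))))))

def lc3 : List Vr := [⟨[24,0,0,0,0,0,0,0,0], 6912, 0⟩, ⟨[0,28,0,0,0,0,0,0,84], 25872, 0⟩, ⟨[0,0,
  68,0,0,0,85,0,155], 389861, 0⟩, ⟨[0,0,0,52,0,0,85,0,155], 385445, 0⟩, ⟨[0,0,0,0,19,0,0,0,85],
  26961, 0⟩, ⟨[0,0,0,0,0,30,0,0,94], 29760, 0⟩, ⟨[0,0,0,0,0,0,85,0,155], 59925, 0⟩, ⟨[0,0,0,0,0,0,
  0,42,0], 7056, 0⟩, ⟨[0,0,0,13,0,0,0,0,75], 22360, 0⟩]

theorem lk3 : chkTr lowT (leafLow 2 lowB) lt3 lc3 = true := by decide +kernel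

def lt4 : Tr ℕ := (.bis 5 7 1 2 19 (.bis 2 7 1 1 130 (.bis 1 7 1 2 20 (.bis 4 7 1 2 21 (.bis 7 8
  2 1 22 (.bis 0 8 2 1 92 (.bis 2 8 1 1 135 (.bis 1 3 2 1 160 (.bis 3 7 1 2 161 (.bis 6 7 1 2 113
  (.bis 7 8 1 2 172 (.bis 5 8 1 2 164 (.leaf 4) (.leaf 2)) (.leaf 2)) (.bis 4 6 2 1 114 (.bis 5 6
  2 1 115 (.bis 6 8 1 4 120 (.bis 0 8 1 2 176 (.leaf 4) (.leaf 2)) (.leaf 2)) (.bis 5 8 1 2 164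
  (.bis 0 8 1 2 176 (.leaf 4) (.leaf 2)) (.leaf 2))) (.bis 5 8 1 2 164 (.bis 4 8 1 2 177 (.leaf
  4) (.leaf 2)) (.leaf 2)))) (.bis 3 4 1 2 163 (.bis 4 6 2 1 114 (.bis 5 6 2 1 115 (.bis 6 8 1 4
  120 (.bis 0 8 1 2 176 (.leaf 4) (.leaf 2)) (.leaf 2)) (.bis 5 8 1 2 164 (.bis 0 8 1 2 176
  (.leaf 4) (.leaf 2)) (.leaf 2))) (.bis 5 8 1 2 164 (.bis 4 8 1 2 177 (.leaf 4) (.leaf 2))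
  (.leaf 2))) (.bis 3 5 1 2 165 (.bis 5 6 2 1 115 (.bis 6 8 1 4 120 (.bis 0 8 1 2 176 (.leaf 4)
  (.leaf 2)) (.leaf 2)) (.bis 5 8 1 2 164 (.bis 0 8 1 2 176 (.leaf 4) (.leaf 2)) (.leaf 2)))
  (.bis 6 8 1 4 120 (.bis 3 8 1 4 166 (.leaf 4) (.leaf 2)) (.leaf 2))))) (.bis 1 6 2 1 111 (.bis
  6 7 1 2 113 (.bis 7 8 1 2 172 (.bis 5 8 1 2 164 (.leaf 4) (.leaf 2)) (.leaf 2)) (.bis 4 6 2 1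
  114 (.bis 5 6 2 1 115 (.bis 6 8 1 4 120 (.bis 0 8 1 2 176 (.leaf 4) (.leaf 2)) (.leaf 2)) (.bis
  5 8 1 2 164 (.bis 0 8 1 2 176 (.leaf 4) (.leaf 2)) (.leaf 2))) (.bis 5 8 1 2 164 (.bis 4 8 1 2
  177 (.leaf 4) (.leaf 2)) (.leaf 2)))) (.bis 7 8 1 2 172 (.bis 1 8 1 2 175 (.leaf 4) (.leaf 2))
  (.leaf 2)))) (.bis 1 3 2 1 160 (.bis 3 7 1 2 161 (.leaf 2) (.leaf 2)) (.bis 1 6 2 1 111 (.leaf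
  2) (.leaf 2)))) (.bis 0 5 4 1 85 (.bis 1 3 2 1 160 (.bis 3 7 1 2 161 (.bis 6 7 1 2 113 (.leaf
  2) (.leaf 2)) (.leaf 2)) (.bis 1 6 2 1 111 (.bis 6 7 1 2 113 (.leaf 2) (.leaf 2)) (.leaf 2)))
  (.bis 0 1 4 1 86 (.bis 1 3 2 1 160 (.bis 3 7 1 2 161 (.bis 6 7 1 2 113 (.leaf 2) (.leaf 2))
  (.leaf 2)) (.bis 1 6 2 1 111 (.bis 6 7 1 2 113 (.leaf 2) (.leaf 2)) (.leaf 2))) (.bis 0 4 4 1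
  87 (.bis 3 7 1 2 161 (.bis 6 7 1 2 113 (.leaf 2) (.leaf 2)) (.bis 2 3 4 1 178 (.bis 3 4 1 2 163
  (.leaf 2) (.leaf 2)) (.leaf 2))) (.bis 0 7 4 1 88 (.bis 3 7 1 2 161 (.bis 6 7 1 2 113 (.leaf 2)
  (.leaf 2)) (.bis 2 3 4 1 178 (.leaf 2) (.leaf 2))) (.bis 0 3 8 1 173 (.bis 2 3 4 1 178 (.leaf
  2) (.leaf 2)) (.bis 0 6 8 1 125 (.leaf 2) (.leaf 11)))))))) (.bis 3 7 1 8 167 (.bis 6 7 1 8 116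
  (.bis 0 7 1 1 68 (.bis 5 7 1 4 26 (.bis 2 7 1 2 134 (.leaf 32) (.leaf 14)) (.leaf 14)) (.bis 0
  5 4 1 85 (.leaf 14) (.bis 0 1 4 1 86 (.leaf 14) (.bis 0 4 4 1 87 (.leaf 14) (.bis 0 8 4 1 88
  (.leaf 14) (.bis 0 3 16 1 174 (.leaf 14) (.leaf 21))))))) (.bis 0 5 4 1 85 (.bis 1 6 2 1 111
  (.bis 6 8 1 2 113 (.leaf 2) (.bis 4 6 2 1 114 (.leaf 2) (.leaf 2))) (.leaf 2)) (.bis 0 1 4 1 86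
  (.bis 1 6 2 1 111 (.bis 6 8 1 2 113 (.leaf 2) (.bis 4 6 2 1 114 (.leaf 2) (.leaf 2))) (.leaf
  2)) (.bis 0 4 4 1 87 (.bis 6 8 1 2 113 (.leaf 2) (.bis 4 6 2 1 114 (.bis 2 6 4 1 133 (.leaf 2)
  (.leaf 2)) (.leaf 2))) (.bis 0 8 4 1 88 (.bis 6 8 1 2 113 (.leaf 2) (.bis 2 6 4 1 133 (.bis 0 6
  1 1 179 (.leaf 2) (.leaf 2)) (.leaf 2))) (.bis 0 6 8 1 125 (.bis 2 6 4 1 133 (.bis 6 8 1 1 179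
  (.leaf 2) (.leaf 2)) (.leaf 2)) (.bis 0 3 16 1 174 (.leaf 2) (.leaf 21)))))))) (.bis 0 5 4 1 85
  (.bis 1 3 2 1 160 (.bis 3 8 1 2 161 (.bis 6 8 1 2 113 (.leaf 2) (.leaf 2)) (.bis 2 3 4 1 178
  (.leaf 2) (.leaf 2))) (.bis 1 6 2 1 111 (.bis 6 8 1 2 113 (.leaf 2) (.leaf 2)) (.leaf 2)))
  (.bis 0 1 4 1 86 (.bis 1 3 2 1 160 (.bis 3 8 1 2 161 (.bis 6 8 1 2 113 (.leaf 2) (.leaf 2))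
  (.bis 2 3 4 1 178 (.leaf 2) (.leaf 2))) (.bis 1 6 2 1 111 (.bis 6 8 1 2 113 (.leaf 2) (.leaf
  2)) (.leaf 2))) (.bis 0 4 4 1 87 (.bis 3 8 1 2 161 (.bis 6 8 1 2 113 (.leaf 2) (.bis 4 6 2 1
  114 (.leaf 2) (.leaf 2))) (.bis 2 3 4 1 178 (.leaf 2) (.bis 4 6 2 1 114 (.leaf 2) (.leaf 2))))
  (.bis 0 8 4 1 88 (.bis 3 8 1 2 161 (.bis 6 8 1 2 113 (.leaf 2) (.bis 2 6 4 1 133 (.leaf 2)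
  (.leaf 2))) (.bis 2 3 4 1 178 (.leaf 2) (.bis 2 6 4 1 133 (.leaf 2) (.leaf 2)))) (.bis 0 3 8 1
  173 (.bis 2 3 4 1 178 (.bis 3 8 1 1 180 (.leaf 2) (.leaf 2)) (.bis 2 6 4 1 133 (.leaf 2) (.leaf
  2))) (.bis 0 6 8 1 125 (.bis 2 6 4 1 133 (.leaf 2) (.leaf 2)) (.leaf 21))))))))) (.bis 0 4 2 1
  93 (.bis 2 4 1 1 136 (.bis 1 3 2 1 160 (.bis 3 7 1 2 163 (.leaf 4) (.bis 3 5 1 2 165 (.leaf 4)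
  (.bis 4 6 4 1 117 (.bis 6 8 1 4 120 (.leaf 4) (.leaf 2)) (.leaf 4)))) (.bis 1 6 2 1 111 (.leaf
  4) (.leaf 4))) (.bis 2 8 1 1 135 (.bis 1 3 2 1 160 (.bis 3 7 1 2 163 (.bis 6 7 1 2 114 (.bis 5
  8 1 2 164 (.leaf 4) (.leaf 2)) (.bis 5 6 2 1 115 (.bis 6 8 1 4 120 (.bis 0 8 1 2 181 (.leaf 4)
  (.leaf 2)) (.leaf 2)) (.bis 5 8 1 2 164 (.bis 0 8 1 2 181 (.leaf 4) (.leaf 2)) (.leaf 2))))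
  (.bis 3 5 1 2 165 (.bis 5 6 2 1 115 (.bis 6 8 1 4 120 (.bis 0 8 1 2 181 (.leaf 4) (.leaf 2))
  (.leaf 2)) (.bis 5 8 1 2 164 (.leaf 4) (.leaf 2))) (.bis 6 8 1 4 120 (.bis 3 8 1 4 166 (.leaf
  4) (.leaf 2)) (.leaf 2)))) (.bis 1 6 2 1 111 (.bis 6 7 1 2 114 (.bis 5 8 1 2 164 (.bis 7 8 1 2
  177 (.leaf 4) (.leaf 2)) (.leaf 2)) (.bis 5 6 2 1 115 (.bis 6 8 1 4 120 (.bis 0 8 1 2 181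
  (.leaf 4) (.leaf 2)) (.leaf 2)) (.bis 5 8 1 2 164 (.bis 0 8 1 2 181 (.leaf 4) (.leaf 2)) (.leaf
  2)))) (.bis 1 8 1 2 175 (.leaf 4) (.leaf 2)))) (.bis 1 3 2 1 160 (.leaf 2) (.bis 1 6 2 1 111
  (.leaf 2) (.leaf 2))))) (.bis 0 8 2 1 92 (.bis 2 8 1 1 135 (.bis 1 3 2 1 160 (.bis 3 7 1 2 163
  (.bis 6 7 1 2 114 (.bis 5 8 1 2 164 (.bis 7 8 1 2 177 (.leaf 4) (.leaf 2)) (.leaf 2)) (.bis 5 6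
  2 1 115 (.bis 6 8 1 4 120 (.bis 0 8 1 2 176 (.leaf 4) (.leaf 2)) (.leaf 2)) (.bis 5 8 1 2 164
  (.bis 0 8 1 2 176 (.leaf 4) (.leaf 2)) (.leaf 2)))) (.bis 3 5 1 2 165 (.bis 5 6 2 1 115 (.bis 6
  8 1 4 120 (.bis 0 8 1 2 176 (.leaf 4) (.leaf 2)) (.leaf 2)) (.bis 5 8 1 2 164 (.bis 0 8 1 2 176
  (.leaf 4) (.leaf 2)) (.leaf 2))) (.bis 6 8 1 4 120 (.bis 3 8 1 4 166 (.leaf 4) (.leaf 2))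
  (.leaf 2)))) (.bis 1 6 2 1 111 (.bis 6 7 1 2 114 (.bis 5 8 1 2 164 (.bis 7 8 1 2 177 (.leaf 4)
  (.leaf 2)) (.leaf 2)) (.bis 5 6 2 1 115 (.bis 6 8 1 4 120 (.bis 0 8 1 2 176 (.leaf 4) (.leaf
  2)) (.leaf 2)) (.bis 5 8 1 2 164 (.bis 0 8 1 2 176 (.leaf 4) (.leaf 2)) (.leaf 2)))) (.bis 1 8
  1 2 175 (.bis 5 8 1 2 164 (.leaf 4) (.leaf 2)) (.leaf 2)))) (.bis 1 3 2 1 160 (.leaf 2) (.leaf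
  2))) (.bis 0 5 4 1 85 (.bis 1 3 2 1 160 (.leaf 2) (.bis 1 6 2 1 111 (.leaf 2) (.leaf 2))) (.bis
  0 1 4 1 86 (.bis 1 3 2 1 160 (.leaf 2) (.bis 1 6 2 1 111 (.leaf 2) (.leaf 2))) (.bis 0 7 4 1 87
  (.bis 2 3 4 1 178 (.bis 3 7 1 2 163 (.leaf 2) (.leaf 2)) (.leaf 2)) (.bis 0 3 8 1 173 (.leaf 2)
  (.bis 0 6 8 1 125 (.leaf 2) (.leaf 11))))))))) (.bis 0 1 2 1 95 (.bis 1 2 1 1 137 (.bis 2 4 1 1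
  136 (.bis 3 7 1 2 160 (.bis 6 7 1 2 111 (.bis 4 7 2 1 96 (.leaf 4) (.leaf 4)) (.bis 4 6 4 1 117
  (.bis 5 6 2 1 115 (.bis 6 8 1 4 120 (.leaf 4) (.leaf 2)) (.leaf 4)) (.leaf 4))) (.bis 3 5 1 2
  165 (.bis 4 6 4 1 117 (.bis 5 6 2 1 115 (.bis 6 8 1 4 120 (.leaf 4) (.leaf 2)) (.leaf 4))
  (.leaf 4)) (.bis 4 6 4 1 117 (.bis 6 8 1 4 120 (.leaf 4) (.leaf 2)) (.leaf 4)))) (.bis 2 8 1 1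
  135 (.bis 3 7 1 2 160 (.bis 6 7 1 2 111 (.bis 7 8 1 2 175 (.leaf 4) (.leaf 2)) (.bis 5 6 2 1
  115 (.bis 6 8 1 4 120 (.bis 0 8 1 2 182 (.leaf 4) (.leaf 2)) (.leaf 2)) (.bis 5 8 1 2 164 (.bis
  0 8 1 2 182 (.leaf 4) (.leaf 2)) (.leaf 2)))) (.bis 3 5 1 2 165 (.bis 5 6 2 1 115 (.bis 6 8 1 4
  120 (.bis 0 8 1 2 182 (.leaf 4) (.leaf 2)) (.leaf 2)) (.bis 5 8 1 2 164 (.leaf 4) (.leaf 2)))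
  (.bis 6 8 1 4 120 (.bis 3 8 1 4 166 (.leaf 4) (.leaf 2)) (.leaf 2)))) (.bis 3 7 1 2 160 (.leaf
  2) (.leaf 2)))) (.bis 3 7 1 2 160 (.bis 1 6 4 1 119 (.leaf 4) (.leaf 4)) (.leaf 4))) (.bis 0 4
  2 1 93 (.bis 2 4 1 1 136 (.bis 3 7 1 2 160 (.bis 6 7 1 2 111 (.bis 4 7 2 1 96 (.leaf 4) (.leaf
  4)) (.bis 4 6 4 1 117 (.bis 5 6 2 1 115 (.bis 6 8 1 4 120 (.leaf 4) (.leaf 2)) (.bis 5 8 1 2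
  164 (.leaf 4) (.leaf 2))) (.leaf 4))) (.bis 3 5 1 2 165 (.bis 4 6 4 1 117 (.bis 5 6 2 1 115
  (.bis 6 8 1 4 120 (.leaf 4) (.leaf 2)) (.leaf 4)) (.leaf 4)) (.bis 4 6 4 1 117 (.bis 6 8 1 4
  120 (.leaf 4) (.leaf 2)) (.leaf 4)))) (.bis 2 8 1 1 135 (.bis 3 7 1 2 160 (.bis 6 7 1 2 111
  (.bis 7 8 1 2 175 (.leaf 4) (.leaf 2)) (.bis 5 6 2 1 115 (.bis 6 8 1 4 120 (.bis 1 8 1 2 182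
  (.leaf 4) (.leaf 2)) (.leaf 2)) (.bis 5 8 1 2 164 (.bis 1 8 1 2 182 (.leaf 4) (.leaf 2)) (.leaf
  2)))) (.bis 3 5 1 2 165 (.bis 5 6 2 1 115 (.bis 6 8 1 4 120 (.bis 1 8 1 2 182 (.leaf 4) (.leaf
  2)) (.leaf 2)) (.bis 5 8 1 2 164 (.bis 1 8 1 2 182 (.leaf 4) (.leaf 2)) (.leaf 2))) (.bis 6 8 1
  4 120 (.bis 3 8 1 4 166 (.leaf 4) (.leaf 2)) (.leaf 2)))) (.leaf 2))) (.bis 0 8 2 1 92 (.bis 2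
  8 1 1 135 (.bis 3 7 1 2 160 (.bis 6 7 1 2 111 (.bis 7 8 1 2 175 (.bis 5 8 1 2 164 (.leaf 4)
  (.leaf 2)) (.leaf 2)) (.bis 5 6 2 1 115 (.bis 6 8 1 4 120 (.bis 0 8 1 2 176 (.leaf 4) (.leaf
  2)) (.leaf 2)) (.bis 5 8 1 2 164 (.bis 0 8 1 2 176 (.leaf 4) (.leaf 2)) (.leaf 2)))) (.bis 3 5
  1 2 165 (.bis 5 6 2 1 115 (.bis 6 8 1 4 120 (.bis 0 8 1 2 176 (.leaf 4) (.leaf 2)) (.leaf 2))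
  (.bis 5 8 1 2 164 (.bis 0 8 1 2 176 (.leaf 4) (.leaf 2)) (.leaf 2))) (.bis 6 8 1 4 120 (.bis 3
  8 1 4 166 (.leaf 4) (.leaf 2)) (.leaf 2)))) (.leaf 2)) (.bis 0 5 4 1 85 (.bis 3 7 1 2 160
  (.leaf 2) (.bis 2 3 4 1 178 (.bis 3 5 1 2 165 (.leaf 2) (.leaf 2)) (.bis 5 6 2 1 115 (.leaf 2)
  (.leaf 2)))) (.bis 0 7 4 1 86 (.bis 3 7 1 2 160 (.leaf 2) (.leaf 2)) (.bis 0 3 8 1 173 (.leaf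
  2) (.leaf 11)))))))) (.bis 1 2 1 2 138 (.bis 2 4 2 1 139 (.bis 0 4 2 1 93 (.bis 4 7 1 1 136
  (.bis 7 8 1 1 135 (.bis 3 5 1 2 165 (.bis 1 5 1 1 140 (.bis 5 6 2 1 115 (.bis 6 8 1 4 120 (.bis
  0 8 1 2 181 (.leaf 4) (.leaf 2)) (.leaf 2)) (.bis 2 5 1 1 141 (.bis 5 8 1 2 164 (.leaf 4)
  (.leaf 2)) (.bis 0 8 1 2 181 (.bis 2 8 1 2 183 (.leaf 4) (.leaf 2)) (.leaf 2)))) (.bis 6 8 1 4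
  120 (.bis 1 8 1 2 184 (.leaf 4) (.leaf 2)) (.leaf 2))) (.bis 6 8 1 4 120 (.bis 3 8 1 4 166
  (.leaf 4) (.leaf 2)) (.leaf 2))) (.bis 3 7 1 4 178 (.bis 1 5 1 1 140 (.bis 5 6 2 1 115 (.leaf
  2) (.leaf 2)) (.leaf 2)) (.bis 3 5 1 2 165 (.bis 1 5 1 1 140 (.leaf 2) (.leaf 2)) (.leaf 2))))
  (.bis 3 5 1 2 165 (.bis 4 6 4 1 117 (.bis 1 5 1 1 140 (.bis 5 6 2 1 115 (.bis 6 8 1 4 120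
  (.leaf 4) (.leaf 2)) (.bis 2 5 1 1 141 (.leaf 4) (.bis 0 8 1 2 181 (.leaf 4) (.leaf 2)))) (.bis
  6 8 1 4 120 (.leaf 4) (.leaf 2))) (.leaf 4)) (.bis 4 6 4 1 117 (.bis 6 8 1 4 120 (.bis 3 8 1 4
  166 (.leaf 4) (.leaf 2)) (.leaf 2)) (.bis 3 4 1 4 169 (.leaf 4) (.bis 3 8 1 4 166 (.leaf 4)
  (.leaf 2)))))) (.bis 0 8 2 1 92 (.bis 7 8 1 1 135 (.bis 3 5 1 2 165 (.bis 1 5 1 1 140 (.bis 5 6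
  2 1 115 (.bis 6 8 1 4 120 (.bis 0 8 1 2 176 (.leaf 4) (.leaf 2)) (.leaf 2)) (.bis 2 5 1 1 141
  (.bis 5 8 1 2 164 (.bis 0 8 1 2 176 (.leaf 4) (.leaf 2)) (.leaf 2)) (.bis 0 8 1 2 176 (.bis 4 8
  1 2 181 (.leaf 4) (.leaf 2)) (.leaf 2)))) (.bis 6 8 1 4 120 (.bis 0 8 1 2 176 (.leaf 4) (.leaf
  2)) (.leaf 2))) (.bis 6 8 1 4 120 (.bis 3 8 1 4 166 (.bis 0 8 1 2 176 (.leaf 4) (.leaf 2))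
  (.leaf 2)) (.leaf 2))) (.bis 3 7 1 4 178 (.bis 1 5 1 1 140 (.bis 5 6 2 1 115 (.leaf 2) (.leaf
  2)) (.leaf 2)) (.bis 3 5 1 2 165 (.bis 1 5 1 1 140 (.bis 5 6 2 1 115 (.leaf 2) (.leaf 2))
  (.leaf 2)) (.leaf 2)))) (.bis 0 5 4 1 85 (.bis 3 7 1 4 178 (.bis 1 5 1 1 140 (.bis 5 6 2 1 115
  (.leaf 2) (.leaf 2)) (.leaf 2)) (.bis 3 5 1 2 165 (.bis 1 5 1 1 140 (.bis 5 6 2 1 115 (.leaf 2)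
  (.leaf 2)) (.leaf 2)) (.leaf 2))) (.bis 0 3 8 1 173 (.leaf 2) (.bis 0 6 8 1 125 (.leaf 2)
  (.leaf 11)))))) (.bis 2 8 2 1 145 (.bis 0 8 2 1 92 (.bis 7 8 1 1 135 (.bis 3 5 1 2 165 (.bis 2
  5 1 1 146 (.bis 1 5 1 1 140 (.bis 5 6 2 1 115 (.bis 6 8 1 4 120 (.bis 0 8 1 2 176 (.leaf 4)
  (.leaf 2)) (.leaf 2)) (.bis 4 5 1 1 141 (.bis 5 8 1 2 164 (.bis 0 8 1 2 176 (.leaf 4) (.leaf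
  2)) (.leaf 2)) (.bis 0 8 1 2 176 (.bis 4 8 1 2 183 (.leaf 4) (.leaf 2)) (.leaf 2)))) (.bis 6 8
  1 4 120 (.bis 0 8 1 2 176 (.leaf 4) (.leaf 2)) (.leaf 2))) (.bis 6 8 1 4 120 (.bis 2 8 1 2 185
  (.leaf 4) (.leaf 2)) (.leaf 2))) (.bis 6 8 1 4 120 (.bis 3 8 1 4 166 (.bis 2 8 1 2 185 (.leaf
  4) (.leaf 2)) (.leaf 2)) (.leaf 2))) (.bis 3 7 1 4 178 (.bis 2 5 1 1 146 (.bis 1 5 1 1 140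
  (.bis 5 6 2 1 115 (.leaf 2) (.leaf 2)) (.leaf 2)) (.leaf 2)) (.bis 3 5 1 2 165 (.bis 2 5 1 1
  146 (.bis 1 5 1 1 140 (.leaf 2) (.leaf 2)) (.leaf 2)) (.leaf 2)))) (.bis 0 5 4 1 85 (.bis 3 7 1
  4 178 (.bis 2 5 1 1 146 (.bis 1 5 1 1 140 (.bis 5 6 2 1 115 (.leaf 2) (.leaf 2)) (.leaf 2))
  (.leaf 2)) (.bis 3 5 1 2 165 (.bis 2 5 1 1 146 (.bis 1 5 1 1 140 (.leaf 2) (.leaf 2)) (.leaf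
  2)) (.leaf 2))) (.bis 0 3 8 1 173 (.leaf 2) (.bis 0 6 8 1 125 (.leaf 2) (.bis 0 1 4 1 144
  (.leaf 2) (.leaf 11)))))) (.bis 2 5 4 1 151 (.bis 0 5 4 1 85 (.bis 3 7 1 4 178 (.bis 5 8 1 1
  146 (.leaf 2) (.bis 1 5 1 1 140 (.bis 5 6 2 1 115 (.leaf 2) (.leaf 2)) (.leaf 2))) (.bis 3 5 1
  2 165 (.bis 5 8 1 1 146 (.leaf 2) (.bis 1 5 1 1 140 (.leaf 2) (.leaf 2))) (.leaf 2))) (.bis 0 3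
  8 1 173 (.leaf 2) (.bis 0 6 8 1 125 (.leaf 2) (.bis 0 1 4 1 144 (.leaf 2) (.leaf 11))))) (.bis
  0 3 8 1 173 (.leaf 18) (.bis 0 6 8 1 125 (.leaf 11) (.bis 0 1 4 1 144 (.leaf 11) (.bis 0 4 4 1
  152 (.leaf 11) (.leaf 11)))))))) (.bis 0 1 2 1 95 (.bis 1 7 1 1 137 (.bis 4 7 1 1 136 (.bis 7 8
  1 1 135 (.bis 3 5 1 2 165 (.bis 2 5 1 1 140 (.bis 5 6 2 1 115 (.bis 6 8 1 4 120 (.bis 0 8 1 2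
  182 (.leaf 4) (.leaf 2)) (.leaf 2)) (.bis 5 8 1 2 164 (.leaf 4) (.leaf 2))) (.bis 6 8 1 4 120
  (.bis 0 8 1 2 182 (.leaf 4) (.leaf 2)) (.leaf 2))) (.bis 6 8 1 4 120 (.bis 3 8 1 4 166 (.leaf
  4) (.leaf 2)) (.leaf 2))) (.bis 3 7 1 4 178 (.bis 2 5 1 1 140 (.leaf 2) (.leaf 2)) (.bis 3 5 1
  2 165 (.leaf 2) (.leaf 2)))) (.bis 3 5 1 2 165 (.bis 4 6 4 1 117 (.bis 2 5 1 1 140 (.bis 5 6 2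
  1 115 (.bis 6 8 1 4 120 (.leaf 4) (.leaf 2)) (.leaf 4)) (.bis 6 8 1 4 120 (.leaf 4) (.leaf 2)))
  (.leaf 4)) (.bis 4 6 4 1 117 (.bis 6 8 1 4 120 (.leaf 4) (.leaf 2)) (.bis 3 4 1 4 169 (.leaf 4)
  (.leaf 4))))) (.bis 1 6 4 1 119 (.bis 3 5 1 2 165 (.leaf 4) (.bis 4 6 4 1 117 (.bis 6 8 1 4 120
  (.leaf 4) (.leaf 2)) (.leaf 4))) (.bis 1 3 4 1 170 (.bis 3 5 1 2 165 (.leaf 4) (.leaf 4)) (.bis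
  1 5 2 1 39 (.leaf 4) (.leaf 4))))) (.bis 0 4 2 1 93 (.bis 4 7 1 1 136 (.bis 7 8 1 1 135 (.bis 3
  5 1 2 165 (.bis 2 5 1 1 140 (.bis 5 6 2 1 115 (.bis 6 8 1 4 120 (.bis 1 8 1 2 182 (.leaf 4)
  (.leaf 2)) (.leaf 2)) (.bis 5 8 1 2 164 (.bis 1 8 1 2 182 (.leaf 4) (.leaf 2)) (.leaf 2)))
  (.bis 6 8 1 4 120 (.bis 1 8 1 2 182 (.leaf 4) (.leaf 2)) (.leaf 2))) (.bis 6 8 1 4 120 (.bis 3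
  8 1 4 166 (.leaf 4) (.leaf 2)) (.leaf 2))) (.bis 3 7 1 4 178 (.bis 2 5 1 1 140 (.leaf 2) (.leaf
  2)) (.bis 3 5 1 2 165 (.bis 2 5 1 1 140 (.leaf 2) (.leaf 2)) (.leaf 2)))) (.bis 3 5 1 2 165
  (.bis 4 6 4 1 117 (.bis 2 5 1 1 140 (.bis 5 6 2 1 115 (.bis 6 8 1 4 120 (.leaf 4) (.leaf 2))
  (.leaf 4)) (.bis 6 8 1 4 120 (.leaf 4) (.leaf 2))) (.leaf 4)) (.bis 4 6 4 1 117 (.bis 6 8 1 4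
  120 (.bis 3 8 1 4 166 (.leaf 4) (.leaf 2)) (.leaf 2)) (.bis 3 4 1 4 169 (.leaf 4) (.bis 3 8 1 4
  166 (.leaf 4) (.leaf 2)))))) (.bis 0 8 2 1 92 (.bis 7 8 1 1 135 (.bis 3 5 1 2 165 (.bis 2 5 1 1
  140 (.bis 5 6 2 1 115 (.bis 6 8 1 4 120 (.bis 0 8 1 2 176 (.leaf 4) (.leaf 2)) (.leaf 2)) (.bis
  5 8 1 2 164 (.bis 0 8 1 2 176 (.leaf 4) (.leaf 2)) (.leaf 2))) (.bis 6 8 1 4 120 (.bis 0 8 1 2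
  176 (.leaf 4) (.leaf 2)) (.leaf 2))) (.bis 6 8 1 4 120 (.bis 3 8 1 4 166 (.bis 0 8 1 2 176
  (.leaf 4) (.leaf 2)) (.leaf 2)) (.leaf 2))) (.bis 3 7 1 4 178 (.bis 2 5 1 1 140 (.bis 5 6 2 1
  115 (.leaf 2) (.leaf 2)) (.leaf 2)) (.bis 3 5 1 2 165 (.bis 2 5 1 1 140 (.leaf 2) (.leaf 2))
  (.leaf 2)))) (.bis 0 5 4 1 85 (.bis 3 7 1 4 178 (.bis 2 5 1 1 140 (.bis 5 6 2 1 115 (.leaf 2)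
  (.leaf 2)) (.leaf 2)) (.bis 3 5 1 2 165 (.bis 2 5 1 1 140 (.leaf 2) (.leaf 2)) (.leaf 2)))
  (.bis 0 3 8 1 173 (.leaf 2) (.bis 0 6 8 1 125 (.leaf 2) (.leaf 11))))))))) (.bis 2 5 2 1 154
  (.bis 0 5 2 1 102 (.bis 1 6 4 1 119 (.bis 5 6 4 1 121 (.bis 3 7 1 2 165 (.leaf 4) (.leaf 4))
  (.bis 3 5 1 4 168 (.leaf 16) (.bis 3 7 1 2 165 (.leaf 4) (.leaf 4)))) (.bis 1 3 4 1 170 (.bis 3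
  5 1 4 168 (.bis 5 7 2 1 106 (.leaf 4) (.leaf 16)) (.bis 3 7 1 2 165 (.leaf 4) (.leaf 4))) (.bis
  1 7 2 1 39 (.leaf 16) (.leaf 16)))) (.bis 0 1 2 1 95 (.bis 1 6 4 1 119 (.bis 3 7 1 2 165 (.leaf
  4) (.bis 4 6 4 1 117 (.bis 6 8 1 4 120 (.leaf 4) (.leaf 2)) (.leaf 4))) (.bis 1 3 4 1 170 (.bis
  3 7 1 2 165 (.leaf 4) (.leaf 4)) (.bis 1 7 2 1 39 (.leaf 4) (.leaf 4)))) (.bis 0 4 2 1 93 (.bis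
  3 7 1 2 165 (.bis 4 6 4 1 117 (.bis 6 7 1 2 115 (.bis 7 8 1 2 164 (.leaf 4) (.leaf 2)) (.bis 6
  8 1 4 120 (.leaf 4) (.leaf 2))) (.leaf 4)) (.bis 4 6 4 1 117 (.bis 6 8 1 4 120 (.bis 3 8 1 4
  166 (.leaf 4) (.leaf 2)) (.leaf 2)) (.bis 3 4 1 4 169 (.leaf 4) (.bis 3 8 1 4 166 (.leaf 4)
  (.leaf 2))))) (.bis 0 8 2 1 92 (.bis 3 7 1 2 165 (.bis 6 7 1 2 115 (.bis 7 8 1 2 164 (.bis 0 8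
  1 2 176 (.leaf 4) (.leaf 2)) (.leaf 2)) (.bis 6 8 1 4 120 (.bis 0 8 1 2 176 (.leaf 4) (.leaf
  2)) (.leaf 2))) (.bis 6 8 1 4 120 (.bis 3 8 1 4 166 (.bis 0 8 1 2 176 (.leaf 4) (.leaf 2))
  (.leaf 2)) (.leaf 2))) (.bis 0 7 4 1 85 (.bis 3 7 1 2 165 (.bis 6 7 1 2 115 (.leaf 2) (.leaf
  2)) (.leaf 2)) (.bis 0 3 8 1 173 (.leaf 2) (.bis 0 6 8 1 125 (.leaf 2) (.bis 0 2 4 1 157 (.leaf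
  2) (.leaf 11))))))))) (.bis 1 2 1 2 138 (.bis 2 4 2 1 139 (.bis 0 4 2 1 93 (.bis 3 7 1 2 165
  (.bis 4 6 4 1 117 (.bis 1 7 1 1 140 (.bis 6 7 1 2 115 (.bis 2 7 1 1 141 (.bis 7 8 1 2 164
  (.leaf 4) (.leaf 2)) (.bis 0 8 1 2 181 (.leaf 4) (.leaf 2))) (.bis 6 8 1 4 120 (.leaf 4) (.leaf
  2))) (.bis 6 8 1 4 120 (.bis 1 8 1 2 184 (.leaf 4) (.leaf 2)) (.leaf 2))) (.bis 1 7 1 1 140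
  (.leaf 4) (.leaf 4))) (.bis 4 6 4 1 117 (.bis 6 8 1 4 120 (.bis 3 8 1 4 166 (.leaf 4) (.leaf
  2)) (.leaf 2)) (.bis 3 4 1 4 169 (.leaf 4) (.bis 3 8 1 4 166 (.leaf 4) (.leaf 2))))) (.bis 0 8
  2 1 92 (.bis 3 7 1 2 165 (.bis 1 7 1 1 140 (.bis 6 7 1 2 115 (.bis 2 7 1 1 141 (.bis 7 8 1 2
  164 (.bis 0 8 1 2 176 (.leaf 4) (.leaf 2)) (.leaf 2)) (.bis 0 8 1 2 176 (.bis 4 8 1 2 181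
  (.leaf 4) (.leaf 2)) (.leaf 2))) (.bis 6 8 1 4 120 (.bis 0 8 1 2 176 (.leaf 4) (.leaf 2))
  (.leaf 2))) (.bis 6 8 1 4 120 (.bis 0 8 1 2 176 (.bis 1 8 1 2 184 (.leaf 4) (.leaf 2)) (.leaf
  2)) (.leaf 2))) (.bis 6 8 1 4 120 (.bis 3 8 1 4 166 (.bis 0 8 1 2 176 (.leaf 4) (.leaf 2))
  (.leaf 2)) (.leaf 2))) (.bis 0 7 4 1 85 (.bis 3 7 1 2 165 (.bis 1 7 1 1 140 (.bis 6 7 1 2 115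
  (.leaf 2) (.leaf 2)) (.leaf 2)) (.leaf 2)) (.bis 0 3 8 1 173 (.leaf 2) (.bis 0 6 8 1 125 (.leaf
  2) (.bis 0 5 4 1 157 (.leaf 2) (.leaf 11))))))) (.bis 2 8 2 1 145 (.bis 0 8 2 1 92 (.bis 3 7 1
  2 165 (.bis 2 7 1 1 146 (.bis 1 7 1 1 140 (.bis 6 7 1 2 115 (.bis 4 7 1 1 141 (.bis 7 8 1 2 164
  (.bis 0 8 1 2 176 (.leaf 4) (.leaf 2)) (.leaf 2)) (.bis 0 8 1 2 176 (.bis 4 8 1 2 183 (.leaf 4)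
  (.leaf 2)) (.leaf 2))) (.bis 6 8 1 4 120 (.bis 0 8 1 2 176 (.leaf 4) (.leaf 2)) (.leaf 2)))
  (.bis 6 8 1 4 120 (.bis 0 8 1 2 176 (.leaf 4) (.leaf 2)) (.leaf 2))) (.bis 6 8 1 4 120 (.bis 2
  8 1 2 185 (.bis 0 8 1 2 176 (.leaf 4) (.leaf 2)) (.leaf 2)) (.leaf 2))) (.bis 6 8 1 4 120 (.bis
  3 8 1 4 166 (.bis 2 8 1 2 185 (.leaf 4) (.leaf 2)) (.leaf 2)) (.leaf 2))) (.bis 0 7 4 1 85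
  (.bis 3 7 1 2 165 (.bis 2 7 1 1 146 (.bis 1 7 1 1 140 (.leaf 2) (.leaf 2)) (.leaf 2)) (.leaf
  2)) (.bis 0 3 8 1 173 (.leaf 2) (.bis 0 6 8 1 125 (.leaf 2) (.bis 0 5 4 1 157 (.leaf 2) (.bis 0
  1 4 1 144 (.leaf 2) (.leaf 11))))))) (.bis 2 7 4 1 151 (.bis 0 7 4 1 85 (.bis 3 7 1 2 165 (.bis
  7 8 1 1 146 (.leaf 2) (.bis 1 7 1 1 140 (.leaf 2) (.leaf 2))) (.leaf 2)) (.bis 0 3 8 1 173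
  (.leaf 2) (.bis 0 6 8 1 125 (.leaf 2) (.bis 0 5 4 1 157 (.leaf 2) (.bis 0 1 4 1 144 (.leaf 2)
  (.leaf 11)))))) (.bis 0 3 8 1 173 (.bis 2 3 8 1 186 (.leaf 2) (.leaf 6)) (.bis 0 6 8 1 125
  (.leaf 6) (.bis 0 5 4 1 157 (.leaf 6) (.bis 0 1 4 1 144 (.leaf 6) (.leaf 11)))))))) (.bis 0 1 2
  1 95 (.bis 1 6 4 1 119 (.bis 3 7 1 2 165 (.bis 4 6 4 1 117 (.bis 2 7 1 1 140 (.leaf 4) (.bis 6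
  8 1 4 120 (.leaf 4) (.leaf 2))) (.leaf 4)) (.bis 4 6 4 1 117 (.bis 6 8 1 4 120 (.leaf 4) (.leaf
  2)) (.leaf 4))) (.bis 1 3 4 1 170 (.bis 3 7 1 2 165 (.bis 2 7 1 1 140 (.leaf 4) (.leaf 4))
  (.bis 3 4 1 4 169 (.leaf 4) (.leaf 4))) (.bis 1 7 2 1 39 (.bis 2 7 1 1 140 (.leaf 4) (.leaf 4))
  (.leaf 4)))) (.bis 0 4 2 1 93 (.bis 3 7 1 2 165 (.bis 4 6 4 1 117 (.bis 2 7 1 1 140 (.bis 6 7 1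
  2 115 (.bis 7 8 1 2 164 (.leaf 4) (.leaf 2)) (.bis 6 8 1 4 120 (.leaf 4) (.leaf 2))) (.bis 6 8
  1 4 120 (.leaf 4) (.leaf 2))) (.leaf 4)) (.bis 4 6 4 1 117 (.bis 6 8 1 4 120 (.bis 3 8 1 4 166
  (.leaf 4) (.leaf 2)) (.leaf 2)) (.bis 3 4 1 4 169 (.leaf 4) (.bis 3 8 1 4 166 (.leaf 4) (.leaf
  2))))) (.bis 0 8 2 1 92 (.bis 3 7 1 2 165 (.bis 2 7 1 1 140 (.bis 6 7 1 2 115 (.bis 7 8 1 2 164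
  (.bis 0 8 1 2 176 (.leaf 4) (.leaf 2)) (.leaf 2)) (.bis 6 8 1 4 120 (.bis 0 8 1 2 176 (.leaf 4)
  (.leaf 2)) (.leaf 2))) (.bis 6 8 1 4 120 (.bis 0 8 1 2 176 (.leaf 4) (.leaf 2)) (.leaf 2)))
  (.bis 6 8 1 4 120 (.bis 3 8 1 4 166 (.bis 0 8 1 2 176 (.leaf 4) (.leaf 2)) (.leaf 2)) (.leaf
  2))) (.bis 0 7 4 1 85 (.bis 3 7 1 2 165 (.bis 2 7 1 1 140 (.leaf 2) (.leaf 2)) (.leaf 2)) (.bis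
  0 3 8 1 173 (.leaf 2) (.bis 0 6 8 1 125 (.leaf 2) (.bis 0 5 4 1 157 (.leaf 2) (.leaf
  11)))))))))))

def lc4 : List Vr := [⟨[24,0,0,0,0,0,0,0,0], 6912, 0⟩, ⟨[0,28,0,0,0,0,0,0,84], 25872, 0⟩, ⟨[0,0,
  17,0,0,0,0,0,0], 6936, 0⟩, ⟨[0,0,0,52,0,0,85,0,155], 385445, 0⟩, ⟨[0,0,0,0,19,0,0,0,85], 26961,
  0⟩, ⟨[0,0,0,0,0,30,0,0,94], 29760, 0⟩, ⟨[0,0,68,0,0,0,85,0,155], 389861, 0⟩, ⟨[0,0,0,0,0,0,0,42,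
  0], 7056, 0⟩, ⟨[0,0,0,13,0,0,0,0,75], 22360, 0⟩]

theorem lk4 : chkTr lowT (leafLow 2 lowB) lt4 lc4 = true := by decide +kernel

def lt5 : Tr ℕ := (.bis 5 7 1 2 19 (.bis 2 7 1 1 130 (.bis 1 7 1 2 20 (.bis 4 7 1 2 21 (.bis 7 8
  2 1 22 (.bis 0 8 2 1 92 (.bis 2 8 1 1 135 (.bis 3 8 1 1 188 (.bis 1 6 2 1 160 (.bis 6 7 1 2 161
  (.bis 7 8 1 2 172 (.bis 5 8 1 2 164 (.leaf 4) (.leaf 2)) (.leaf 2)) (.bis 4 6 2 1 163 (.bis 5 6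
  2 1 165 (.bis 6 8 1 4 166 (.bis 0 8 1 2 176 (.leaf 4) (.leaf 2)) (.leaf 2)) (.bis 5 8 1 2 164
  (.bis 0 8 1 2 176 (.leaf 4) (.leaf 2)) (.leaf 2))) (.bis 5 8 1 2 164 (.bis 4 8 1 2 177 (.leaf
  4) (.leaf 2)) (.leaf 2)))) (.bis 7 8 1 2 172 (.bis 1 8 1 2 175 (.leaf 4) (.leaf 2)) (.leaf 2)))
  (.bis 1 6 2 1 160 (.bis 6 7 1 2 161 (.leaf 2) (.leaf 2)) (.leaf 2))) (.bis 1 6 2 1 160 (.bis 6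
  7 1 2 161 (.leaf 2) (.bis 2 6 4 1 178 (.leaf 2) (.leaf 2))) (.leaf 2))) (.bis 0 5 4 1 85 (.bis
  1 6 2 1 160 (.bis 6 7 1 2 161 (.leaf 2) (.bis 2 6 4 1 178 (.leaf 2) (.leaf 2))) (.leaf 2))
  (.bis 0 1 4 1 86 (.bis 1 6 2 1 160 (.bis 6 7 1 2 161 (.leaf 2) (.bis 2 6 4 1 178 (.bis 4 6 2 1
  163 (.leaf 2) (.leaf 2)) (.leaf 2))) (.leaf 2)) (.bis 0 4 4 1 87 (.bis 6 7 1 2 161 (.leaf 2)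
  (.bis 2 6 4 1 178 (.bis 4 6 2 1 163 (.bis 1 6 1 1 189 (.leaf 2) (.leaf 2)) (.leaf 2)) (.leaf
  2))) (.bis 0 7 4 1 88 (.bis 6 7 1 2 161 (.leaf 2) (.bis 2 6 4 1 178 (.bis 0 6 1 1 180 (.bis 1 6
  1 1 189 (.leaf 2) (.leaf 2)) (.leaf 2)) (.leaf 2))) (.bis 0 6 8 1 173 (.bis 2 6 4 1 178 (.bis 6
  7 1 1 180 (.leaf 2) (.bis 1 6 1 1 189 (.leaf 2) (.leaf 2))) (.leaf 2)) (.leaf 11))))))) (.bis 6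
  7 1 8 167 (.bis 0 7 1 1 68 (.bis 3 7 1 2 190 (.bis 5 7 1 4 26 (.bis 2 7 1 2 134 (.leaf 32)
  (.leaf 14)) (.leaf 14)) (.leaf 14)) (.bis 0 5 4 1 85 (.leaf 14) (.bis 0 1 4 1 86 (.leaf 14)
  (.bis 0 4 4 1 87 (.leaf 14) (.bis 0 8 4 1 88 (.leaf 14) (.bis 0 6 16 1 174 (.leaf 14) (.leaf
  21))))))) (.bis 0 5 4 1 85 (.bis 1 6 2 1 160 (.bis 6 8 1 2 161 (.leaf 2) (.bis 2 6 4 1 178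
  (.bis 4 6 2 1 163 (.leaf 2) (.leaf 2)) (.leaf 2))) (.leaf 2)) (.bis 0 1 4 1 86 (.bis 1 6 2 1
  160 (.bis 6 8 1 2 161 (.leaf 2) (.bis 2 6 4 1 178 (.bis 4 6 2 1 163 (.leaf 2) (.leaf 2)) (.leaf
  2))) (.leaf 2)) (.bis 0 4 4 1 87 (.bis 6 8 1 2 161 (.leaf 2) (.bis 2 6 4 1 178 (.bis 4 6 2 1
  163 (.bis 1 6 1 1 189 (.leaf 2) (.leaf 2)) (.leaf 2)) (.leaf 2))) (.bis 0 8 4 1 88 (.bis 6 8 1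
  2 161 (.leaf 2) (.bis 2 6 4 1 178 (.bis 0 6 1 1 180 (.bis 1 6 1 1 189 (.leaf 2) (.leaf 2))
  (.leaf 2)) (.leaf 2))) (.bis 0 6 8 1 173 (.bis 2 6 4 1 178 (.bis 6 8 1 1 180 (.leaf 2) (.bis 1
  6 1 1 189 (.leaf 2) (.leaf 2))) (.leaf 2)) (.leaf 21)))))))) (.bis 0 4 2 1 93 (.bis 2 4 1 1 136
  (.bis 3 4 1 1 191 (.bis 1 6 2 1 160 (.bis 6 7 1 2 163 (.leaf 4) (.leaf 4)) (.leaf 4)) (.bis 3 8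
  1 1 188 (.bis 1 6 2 1 160 (.bis 6 7 1 2 163 (.bis 5 8 1 2 164 (.leaf 4) (.leaf 2)) (.bis 5 6 2
  1 165 (.bis 6 8 1 4 166 (.bis 0 8 1 2 181 (.leaf 4) (.leaf 2)) (.leaf 2)) (.bis 5 8 1 2 164
  (.leaf 4) (.leaf 2)))) (.bis 1 8 1 2 175 (.leaf 4) (.leaf 2))) (.bis 1 6 2 1 160 (.bis 6 7 1 2
  163 (.leaf 2) (.leaf 2)) (.leaf 2)))) (.bis 2 8 1 1 135 (.bis 3 8 1 1 188 (.bis 1 6 2 1 160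
  (.bis 6 7 1 2 163 (.bis 5 8 1 2 164 (.leaf 4) (.leaf 2)) (.bis 5 6 2 1 165 (.bis 6 8 1 4 166
  (.bis 0 8 1 2 181 (.leaf 4) (.leaf 2)) (.leaf 2)) (.bis 5 8 1 2 164 (.leaf 4) (.leaf 2))))
  (.bis 1 8 1 2 175 (.leaf 4) (.leaf 2))) (.bis 1 6 2 1 160 (.bis 6 7 1 2 163 (.leaf 2) (.leaf
  2)) (.leaf 2))) (.bis 1 6 2 1 160 (.bis 2 6 4 1 178 (.leaf 2) (.leaf 2)) (.leaf 2)))) (.bis 0 8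
  2 1 92 (.bis 2 8 1 1 135 (.bis 3 8 1 1 188 (.bis 1 6 2 1 160 (.bis 6 7 1 2 163 (.bis 5 8 1 2
  164 (.bis 7 8 1 2 177 (.leaf 4) (.leaf 2)) (.leaf 2)) (.bis 5 6 2 1 165 (.bis 6 8 1 4 166 (.bis
  0 8 1 2 176 (.leaf 4) (.leaf 2)) (.leaf 2)) (.bis 5 8 1 2 164 (.bis 0 8 1 2 176 (.leaf 4)
  (.leaf 2)) (.leaf 2)))) (.bis 1 8 1 2 175 (.bis 5 8 1 2 164 (.leaf 4) (.leaf 2)) (.leaf 2)))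
  (.bis 1 6 2 1 160 (.bis 6 7 1 2 163 (.leaf 2) (.leaf 2)) (.leaf 2))) (.bis 1 6 2 1 160 (.bis 2
  6 4 1 178 (.leaf 2) (.leaf 2)) (.leaf 2))) (.bis 0 5 4 1 85 (.bis 1 6 2 1 160 (.bis 2 6 4 1 178
  (.bis 6 7 1 2 163 (.leaf 2) (.bis 5 6 2 1 165 (.leaf 2) (.leaf 2))) (.leaf 2)) (.leaf 2)) (.bis
  0 1 4 1 86 (.bis 1 6 2 1 160 (.bis 2 6 4 1 178 (.bis 6 7 1 2 163 (.leaf 2) (.leaf 2)) (.leaf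
  2)) (.leaf 2)) (.bis 0 7 4 1 87 (.bis 2 6 4 1 178 (.bis 6 7 1 2 163 (.leaf 2) (.bis 1 6 1 1 189
  (.leaf 2) (.leaf 2))) (.leaf 2)) (.bis 0 6 8 1 173 (.bis 2 6 4 1 178 (.bis 1 6 1 1 189 (.leaf
  2) (.leaf 2)) (.leaf 2)) (.leaf 11)))))))) (.bis 0 1 2 1 95 (.bis 1 2 1 1 137 (.bis 2 4 1 1 136
  (.bis 3 4 1 1 191 (.bis 6 7 1 2 160 (.bis 4 7 2 1 96 (.leaf 4) (.leaf 4)) (.bis 5 6 2 1 165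
  (.bis 4 6 4 1 169 (.bis 6 8 1 4 166 (.leaf 4) (.leaf 2)) (.leaf 4)) (.leaf 4))) (.bis 3 8 1 1
  188 (.bis 6 7 1 2 160 (.bis 7 8 1 2 175 (.leaf 4) (.leaf 2)) (.bis 5 6 2 1 165 (.bis 6 8 1 4
  166 (.leaf 4) (.leaf 2)) (.bis 5 8 1 2 164 (.leaf 4) (.leaf 2)))) (.bis 6 7 1 2 160 (.leaf 2)
  (.leaf 2)))) (.bis 2 8 1 1 135 (.bis 3 8 1 1 188 (.bis 6 7 1 2 160 (.bis 7 8 1 2 175 (.leaf 4)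
  (.leaf 2)) (.bis 5 6 2 1 165 (.bis 6 8 1 4 166 (.bis 0 8 1 2 182 (.leaf 4) (.leaf 2)) (.leaf
  2)) (.bis 5 8 1 2 164 (.leaf 4) (.leaf 2)))) (.bis 6 7 1 2 160 (.leaf 2) (.leaf 2))) (.bis 6 7
  1 2 160 (.leaf 2) (.bis 2 6 4 1 178 (.leaf 2) (.leaf 2))))) (.bis 1 3 1 1 192 (.bis 3 4 1 1 191
  (.bis 6 7 1 2 160 (.bis 4 7 2 1 96 (.leaf 4) (.leaf 4)) (.bis 5 6 2 1 165 (.bis 4 6 4 1 169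
  (.bis 6 8 1 4 166 (.leaf 4) (.leaf 2)) (.leaf 4)) (.bis 0 4 1 2 97 (.leaf 4) (.leaf 4)))) (.bis
  3 8 1 1 188 (.bis 6 7 1 2 160 (.bis 7 8 1 2 175 (.leaf 4) (.leaf 2)) (.bis 5 6 2 1 165 (.bis 6
  8 1 4 166 (.leaf 4) (.leaf 2)) (.bis 5 8 1 2 164 (.leaf 4) (.leaf 2)))) (.bis 6 7 1 2 160
  (.leaf 2) (.leaf 2)))) (.bis 6 7 1 2 160 (.leaf 4) (.bis 1 6 4 1 170 (.leaf 4) (.leaf 4)))))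
  (.bis 0 4 2 1 93 (.bis 2 4 1 1 136 (.bis 3 4 1 1 191 (.bis 6 7 1 2 160 (.leaf 4) (.bis 5 6 2 1
  165 (.bis 4 6 4 1 169 (.bis 6 8 1 4 166 (.leaf 4) (.leaf 2)) (.leaf 4)) (.leaf 4))) (.bis 3 8 1
  1 188 (.bis 6 7 1 2 160 (.bis 7 8 1 2 175 (.leaf 4) (.leaf 2)) (.bis 5 6 2 1 165 (.bis 6 8 1 4
  166 (.bis 1 8 1 2 182 (.leaf 4) (.leaf 2)) (.leaf 2)) (.bis 5 8 1 2 164 (.leaf 4) (.leaf 2))))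
  (.bis 6 7 1 2 160 (.leaf 2) (.leaf 2)))) (.bis 2 8 1 1 135 (.bis 3 8 1 1 188 (.bis 6 7 1 2 160
  (.bis 7 8 1 2 175 (.leaf 4) (.leaf 2)) (.bis 5 6 2 1 165 (.bis 6 8 1 4 166 (.bis 1 8 1 2 182
  (.leaf 4) (.leaf 2)) (.leaf 2)) (.bis 5 8 1 2 164 (.bis 1 8 1 2 182 (.leaf 4) (.leaf 2)) (.leaf
  2)))) (.bis 6 7 1 2 160 (.leaf 2) (.leaf 2))) (.bis 6 7 1 2 160 (.leaf 2) (.bis 2 6 4 1 178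
  (.leaf 2) (.leaf 2))))) (.bis 0 8 2 1 92 (.bis 2 8 1 1 135 (.bis 3 8 1 1 188 (.bis 6 7 1 2 160
  (.bis 7 8 1 2 175 (.bis 5 8 1 2 164 (.leaf 4) (.leaf 2)) (.leaf 2)) (.bis 5 6 2 1 165 (.bis 6 8
  1 4 166 (.bis 0 8 1 2 176 (.leaf 4) (.leaf 2)) (.leaf 2)) (.bis 5 8 1 2 164 (.bis 0 8 1 2 176
  (.leaf 4) (.leaf 2)) (.leaf 2)))) (.bis 6 7 1 2 160 (.leaf 2) (.bis 5 6 2 1 165 (.leaf 2)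
  (.leaf 2)))) (.bis 6 7 1 2 160 (.leaf 2) (.bis 2 6 4 1 178 (.bis 5 6 2 1 165 (.leaf 2) (.leaf
  2)) (.bis 2 5 2 1 193 (.leaf 2) (.leaf 2))))) (.bis 0 5 4 1 85 (.bis 6 7 1 2 160 (.leaf 2)
  (.bis 2 6 4 1 178 (.bis 5 6 2 1 165 (.leaf 2) (.leaf 2)) (.bis 2 5 2 1 193 (.leaf 2) (.leaf
  2)))) (.bis 0 7 4 1 86 (.bis 6 7 1 2 160 (.leaf 2) (.bis 2 6 4 1 178 (.leaf 2) (.leaf 2)))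
  (.bis 0 6 8 1 173 (.bis 2 6 4 1 178 (.leaf 2) (.leaf 2)) (.leaf 11)))))))) (.bis 1 2 1 2 138
  (.bis 2 4 2 1 139 (.bis 0 4 2 1 93 (.bis 4 7 1 1 136 (.bis 7 8 1 1 135 (.bis 3 8 1 1 188 (.bis
  5 6 2 1 165 (.bis 6 8 1 4 166 (.bis 1 8 1 2 184 (.leaf 4) (.leaf 2)) (.leaf 2)) (.bis 1 5 1 1
  140 (.bis 2 5 1 1 141 (.bis 5 8 1 2 164 (.leaf 4) (.leaf 2)) (.bis 0 8 1 2 181 (.bis 2 8 1 2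
  183 (.leaf 4) (.leaf 2)) (.leaf 2))) (.bis 1 8 1 2 184 (.bis 0 8 1 2 181 (.leaf 4) (.leaf 2))
  (.leaf 2)))) (.bis 5 6 2 1 165 (.leaf 2) (.leaf 2))) (.bis 6 7 1 4 178 (.bis 1 5 1 1 140 (.leaf
  2) (.leaf 2)) (.bis 5 6 2 1 165 (.leaf 2) (.bis 1 5 1 1 140 (.leaf 2) (.leaf 2))))) (.bis 3 4 1
  1 191 (.bis 5 6 2 1 165 (.bis 4 6 4 1 169 (.bis 6 8 1 4 166 (.leaf 4) (.leaf 2)) (.leaf 4))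
  (.leaf 4)) (.bis 3 8 1 1 188 (.bis 5 6 2 1 165 (.bis 6 8 1 4 166 (.bis 1 8 1 2 184 (.leaf 4)
  (.leaf 2)) (.leaf 2)) (.bis 1 5 1 1 140 (.bis 2 5 1 1 141 (.bis 5 8 1 2 164 (.leaf 4) (.leaf
  2)) (.bis 0 8 1 2 181 (.leaf 4) (.leaf 2))) (.bis 1 8 1 2 184 (.bis 0 8 1 2 181 (.leaf 4)
  (.leaf 2)) (.leaf 2)))) (.bis 5 6 2 1 165 (.leaf 2) (.leaf 2))))) (.bis 0 8 2 1 92 (.bis 7 8 1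
  1 135 (.bis 3 8 1 1 188 (.bis 5 6 2 1 165 (.bis 6 8 1 4 166 (.bis 0 8 1 2 176 (.leaf 4) (.leaf
  2)) (.leaf 2)) (.bis 1 5 1 1 140 (.bis 2 5 1 1 141 (.bis 5 8 1 2 164 (.bis 0 8 1 2 176 (.leaf
  4) (.leaf 2)) (.leaf 2)) (.bis 0 8 1 2 176 (.bis 4 8 1 2 181 (.leaf 4) (.leaf 2)) (.leaf 2)))
  (.bis 0 8 1 2 176 (.bis 1 8 1 2 184 (.leaf 4) (.leaf 2)) (.leaf 2)))) (.bis 5 6 2 1 165 (.leaf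
  2) (.bis 1 5 1 1 140 (.leaf 2) (.leaf 2)))) (.bis 6 7 1 4 178 (.bis 1 5 1 1 140 (.bis 2 5 1 1
  141 (.leaf 2) (.leaf 2)) (.leaf 2)) (.bis 5 6 2 1 165 (.leaf 2) (.bis 1 5 1 1 140 (.leaf 2)
  (.leaf 2))))) (.bis 0 5 4 1 85 (.bis 6 7 1 4 178 (.bis 1 5 1 1 140 (.bis 2 5 1 1 141 (.leaf 2)
  (.leaf 2)) (.leaf 2)) (.bis 5 6 2 1 165 (.leaf 2) (.bis 1 5 1 1 140 (.leaf 2) (.leaf 2))))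
  (.bis 0 6 8 1 173 (.leaf 2) (.bis 0 1 4 1 144 (.leaf 2) (.leaf 11)))))) (.bis 2 8 2 1 145 (.bis
  0 8 2 1 92 (.bis 7 8 1 1 135 (.bis 3 8 1 1 188 (.bis 5 6 2 1 165 (.bis 6 8 1 4 166 (.bis 2 8 1
  2 185 (.leaf 4) (.leaf 2)) (.leaf 2)) (.bis 2 5 1 1 146 (.bis 1 5 1 1 140 (.bis 4 5 1 1 141
  (.bis 5 8 1 2 164 (.leaf 4) (.leaf 2)) (.bis 0 8 1 2 176 (.bis 4 8 1 2 183 (.leaf 4) (.leaf 2))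
  (.leaf 2))) (.bis 0 8 1 2 176 (.bis 1 8 1 2 184 (.leaf 4) (.leaf 2)) (.leaf 2))) (.bis 2 8 1 2
  185 (.bis 0 8 1 2 176 (.leaf 4) (.leaf 2)) (.leaf 2)))) (.bis 5 6 2 1 165 (.leaf 2) (.bis 2 5 1
  1 146 (.leaf 2) (.leaf 2)))) (.bis 6 7 1 4 178 (.bis 2 5 1 1 146 (.bis 1 5 1 1 140 (.leaf 2)
  (.leaf 2)) (.leaf 2)) (.bis 5 6 2 1 165 (.leaf 2) (.bis 2 5 1 1 146 (.bis 1 5 1 1 140 (.leaf 2)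
  (.leaf 2)) (.leaf 2))))) (.bis 0 5 4 1 85 (.bis 6 7 1 4 178 (.bis 2 5 1 1 146 (.bis 1 5 1 1 140
  (.bis 4 5 1 1 141 (.leaf 2) (.leaf 2)) (.leaf 2)) (.leaf 2)) (.bis 5 6 2 1 165 (.leaf 2) (.bis
  2 5 1 1 146 (.bis 1 5 1 1 140 (.leaf 2) (.leaf 2)) (.leaf 2)))) (.bis 0 6 8 1 173 (.leaf 2)
  (.bis 0 1 4 1 144 (.leaf 2) (.leaf 11))))) (.bis 2 5 4 1 151 (.bis 0 5 4 1 85 (.bis 6 7 1 4 178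
  (.bis 5 8 1 1 146 (.leaf 2) (.bis 1 5 1 1 140 (.bis 4 5 1 1 141 (.leaf 2) (.leaf 2)) (.leaf
  2))) (.bis 5 6 2 1 165 (.leaf 2) (.bis 5 8 1 1 146 (.leaf 2) (.bis 1 5 1 1 140 (.leaf 2) (.leaf
  2))))) (.bis 0 6 8 1 173 (.leaf 2) (.bis 0 1 4 1 144 (.leaf 2) (.bis 0 4 4 1 152 (.leaf 2)
  (.leaf 11))))) (.bis 0 6 8 1 173 (.leaf 18) (.bis 0 1 4 1 144 (.leaf 11) (.bis 0 4 4 1 152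
  (.leaf 11) (.leaf 11))))))) (.bis 0 1 2 1 95 (.bis 1 7 1 1 137 (.bis 4 7 1 1 136 (.bis 7 8 1 1
  135 (.bis 3 8 1 1 188 (.bis 5 6 2 1 165 (.bis 6 8 1 4 166 (.bis 0 8 1 2 182 (.leaf 4) (.leaf
  2)) (.leaf 2)) (.bis 2 5 1 1 140 (.bis 5 8 1 2 164 (.leaf 4) (.leaf 2)) (.bis 0 8 1 2 182 (.bis
  2 8 1 2 184 (.leaf 4) (.leaf 2)) (.leaf 2)))) (.bis 5 6 2 1 165 (.leaf 2) (.leaf 2))) (.bis 6 7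
  1 4 178 (.bis 2 5 1 1 140 (.leaf 2) (.leaf 2)) (.bis 5 6 2 1 165 (.leaf 2) (.leaf 2)))) (.bis 3
  4 1 1 191 (.bis 5 6 2 1 165 (.bis 4 6 4 1 169 (.bis 6 8 1 4 166 (.leaf 4) (.leaf 2)) (.leaf 4))
  (.bis 2 5 1 1 140 (.leaf 4) (.bis 2 4 1 2 194 (.leaf 4) (.bis 0 8 1 2 182 (.leaf 4) (.leaf
  2))))) (.bis 3 8 1 1 188 (.bis 5 6 2 1 165 (.bis 6 8 1 4 166 (.bis 0 8 1 2 182 (.leaf 4) (.leaf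
  2)) (.leaf 2)) (.bis 2 5 1 1 140 (.bis 5 8 1 2 164 (.leaf 4) (.leaf 2)) (.bis 0 8 1 2 182
  (.leaf 4) (.leaf 2)))) (.leaf 2)))) (.bis 1 3 1 1 192 (.bis 3 4 1 1 191 (.bis 5 6 2 1 165 (.bis
  4 6 4 1 169 (.bis 6 8 1 4 166 (.leaf 4) (.leaf 2)) (.leaf 4)) (.bis 2 5 1 1 140 (.bis 0 4 1 2
  97 (.leaf 4) (.leaf 4)) (.bis 2 4 1 2 194 (.leaf 4) (.bis 0 8 1 2 182 (.leaf 4) (.leaf 2)))))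
  (.bis 3 8 1 1 188 (.bis 5 6 2 1 165 (.bis 6 8 1 4 166 (.bis 0 8 1 2 182 (.leaf 4) (.leaf 2))
  (.leaf 2)) (.bis 2 5 1 1 140 (.bis 5 8 1 2 164 (.leaf 4) (.leaf 2)) (.bis 0 8 1 2 182 (.leaf 4)
  (.leaf 2)))) (.bis 5 6 2 1 165 (.leaf 2) (.leaf 2)))) (.bis 1 6 4 1 170 (.bis 5 6 2 1 165 (.bis
  4 6 4 1 169 (.leaf 4) (.leaf 4)) (.leaf 4)) (.leaf 4)))) (.bis 0 4 2 1 93 (.bis 4 7 1 1 136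
  (.bis 7 8 1 1 135 (.bis 3 8 1 1 188 (.bis 5 6 2 1 165 (.bis 6 8 1 4 166 (.bis 1 8 1 2 182
  (.leaf 4) (.leaf 2)) (.leaf 2)) (.bis 2 5 1 1 140 (.bis 5 8 1 2 164 (.bis 1 8 1 2 182 (.leaf 4)
  (.leaf 2)) (.leaf 2)) (.bis 1 8 1 2 182 (.bis 2 8 1 2 184 (.leaf 4) (.leaf 2)) (.leaf 2))))
  (.bis 5 6 2 1 165 (.leaf 2) (.leaf 2))) (.bis 6 7 1 4 178 (.bis 2 5 1 1 140 (.leaf 2) (.leaf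
  2)) (.bis 5 6 2 1 165 (.leaf 2) (.leaf 2)))) (.bis 3 4 1 1 191 (.bis 5 6 2 1 165 (.bis 4 6 4 1
  169 (.bis 6 8 1 4 166 (.leaf 4) (.leaf 2)) (.leaf 4)) (.bis 2 5 1 1 140 (.leaf 4) (.bis 2 4 1 2
  194 (.leaf 4) (.bis 1 8 1 2 182 (.leaf 4) (.leaf 2))))) (.bis 3 8 1 1 188 (.bis 5 6 2 1 165
  (.bis 6 8 1 4 166 (.bis 1 8 1 2 182 (.leaf 4) (.leaf 2)) (.leaf 2)) (.bis 2 5 1 1 140 (.bis 5 8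
  1 2 164 (.leaf 4) (.leaf 2)) (.bis 1 8 1 2 182 (.bis 2 8 1 2 184 (.leaf 4) (.leaf 2)) (.leaf
  2)))) (.bis 5 6 2 1 165 (.leaf 2) (.leaf 2))))) (.bis 0 8 2 1 92 (.bis 7 8 1 1 135 (.bis 3 8 1
  1 188 (.bis 5 6 2 1 165 (.bis 6 8 1 4 166 (.bis 0 8 1 2 176 (.leaf 4) (.leaf 2)) (.leaf 2))
  (.bis 2 5 1 1 140 (.bis 5 8 1 2 164 (.bis 0 8 1 2 176 (.leaf 4) (.leaf 2)) (.leaf 2)) (.bis 0 8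
  1 2 176 (.bis 1 8 1 2 182 (.leaf 4) (.leaf 2)) (.leaf 2)))) (.bis 5 6 2 1 165 (.leaf 2) (.leaf
  2))) (.bis 6 7 1 4 178 (.bis 2 5 1 1 140 (.bis 5 7 1 2 193 (.leaf 2) (.leaf 2)) (.leaf 2))
  (.bis 5 6 2 1 165 (.leaf 2) (.bis 2 5 1 1 140 (.leaf 2) (.leaf 2))))) (.bis 0 5 4 1 85 (.bis 6
  7 1 4 178 (.bis 2 5 1 1 140 (.bis 5 7 1 2 193 (.leaf 2) (.leaf 2)) (.leaf 2)) (.bis 5 6 2 1 165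
  (.leaf 2) (.bis 2 5 1 1 140 (.leaf 2) (.leaf 2)))) (.bis 0 6 8 1 173 (.leaf 2) (.leaf
  11)))))))) (.bis 2 5 2 1 154 (.bis 0 5 2 1 102 (.bis 3 5 1 1 195 (.bis 1 6 4 1 170 (.leaf 16)
  (.leaf 16)) (.bis 1 3 1 1 192 (.bis 3 4 1 1 191 (.leaf 4) (.bis 3 8 1 1 188 (.bis 6 7 1 2 165
  (.bis 7 8 1 2 164 (.leaf 4) (.leaf 2)) (.bis 6 8 1 4 166 (.leaf 4) (.leaf 2))) (.leaf 2)))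
  (.bis 1 6 4 1 170 (.leaf 4) (.leaf 4)))) (.bis 0 1 2 1 95 (.bis 1 3 1 1 192 (.bis 3 4 1 1 191
  (.bis 6 7 1 2 165 (.leaf 4) (.bis 4 6 4 1 169 (.bis 6 8 1 4 166 (.leaf 4) (.leaf 2)) (.leaf
  4))) (.bis 3 8 1 1 188 (.bis 6 7 1 2 165 (.bis 7 8 1 2 164 (.leaf 4) (.leaf 2)) (.bis 6 8 1 4
  166 (.bis 0 8 1 2 182 (.leaf 4) (.leaf 2)) (.leaf 2))) (.leaf 2))) (.leaf 4)) (.bis 0 4 2 1 93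
  (.bis 3 4 1 1 191 (.bis 6 7 1 2 165 (.bis 1 4 1 2 97 (.leaf 4) (.bis 7 8 1 2 164 (.leaf 4)
  (.leaf 2))) (.bis 4 6 4 1 169 (.bis 6 8 1 4 166 (.leaf 4) (.leaf 2)) (.leaf 4))) (.bis 3 8 1 1
  188 (.bis 6 7 1 2 165 (.bis 7 8 1 2 164 (.bis 1 8 1 2 182 (.leaf 4) (.leaf 2)) (.leaf 2)) (.bis
  6 8 1 4 166 (.bis 1 8 1 2 182 (.leaf 4) (.leaf 2)) (.leaf 2))) (.bis 6 7 1 2 165 (.leaf 2)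
  (.leaf 2)))) (.bis 0 8 2 1 92 (.bis 3 8 1 1 188 (.bis 6 7 1 2 165 (.bis 7 8 1 2 164 (.bis 0 8 1
  2 176 (.leaf 4) (.leaf 2)) (.leaf 2)) (.bis 6 8 1 4 166 (.bis 0 8 1 2 176 (.leaf 4) (.leaf 2))
  (.leaf 2))) (.bis 6 7 1 2 165 (.leaf 2) (.leaf 2))) (.bis 0 7 4 1 85 (.bis 6 7 1 2 165 (.leaf
  2) (.leaf 2)) (.bis 0 6 8 1 173 (.leaf 2) (.bis 0 2 4 1 157 (.leaf 2) (.leaf 11)))))))) (.bis 1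
  2 1 2 138 (.bis 2 4 2 1 139 (.bis 0 4 2 1 93 (.bis 3 4 1 1 191 (.bis 6 7 1 2 165 (.bis 1 7 1 1
  140 (.leaf 4) (.bis 1 4 1 2 194 (.leaf 4) (.bis 1 8 1 2 184 (.leaf 4) (.leaf 2)))) (.bis 4 6 4
  1 169 (.bis 6 8 1 4 166 (.bis 1 8 1 2 184 (.leaf 4) (.leaf 2)) (.leaf 2)) (.leaf 4))) (.bis 3 8
  1 1 188 (.bis 6 7 1 2 165 (.bis 1 7 1 1 140 (.bis 2 7 1 1 141 (.bis 7 8 1 2 164 (.leaf 4)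
  (.leaf 2)) (.bis 0 8 1 2 181 (.bis 2 8 1 2 183 (.leaf 4) (.leaf 2)) (.leaf 2))) (.bis 1 8 1 2
  184 (.bis 0 8 1 2 181 (.leaf 4) (.leaf 2)) (.leaf 2))) (.bis 6 8 1 4 166 (.bis 1 8 1 2 184
  (.leaf 4) (.leaf 2)) (.leaf 2))) (.bis 6 7 1 2 165 (.bis 1 7 1 1 140 (.leaf 2) (.leaf 2))
  (.leaf 2)))) (.bis 0 8 2 1 92 (.bis 3 8 1 1 188 (.bis 6 7 1 2 165 (.bis 1 7 1 1 140 (.bis 2 7 1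
  1 141 (.bis 7 8 1 2 164 (.bis 0 8 1 2 176 (.leaf 4) (.leaf 2)) (.leaf 2)) (.bis 0 8 1 2 176
  (.bis 4 8 1 2 181 (.leaf 4) (.leaf 2)) (.leaf 2))) (.bis 0 8 1 2 176 (.bis 1 8 1 2 184 (.leaf
  4) (.leaf 2)) (.leaf 2))) (.bis 6 8 1 4 166 (.bis 0 8 1 2 176 (.bis 1 8 1 2 184 (.leaf 4)
  (.leaf 2)) (.leaf 2)) (.leaf 2))) (.bis 6 7 1 2 165 (.bis 1 7 1 1 140 (.leaf 2) (.leaf 2))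
  (.leaf 2))) (.bis 0 7 4 1 85 (.bis 6 7 1 2 165 (.bis 1 7 1 1 140 (.leaf 2) (.leaf 2)) (.leaf
  2)) (.bis 0 6 8 1 173 (.leaf 2) (.bis 0 5 4 1 157 (.leaf 2) (.bis 0 1 4 1 144 (.leaf 2) (.leaf
  11))))))) (.bis 2 8 2 1 145 (.bis 0 8 2 1 92 (.bis 3 8 1 1 188 (.bis 6 7 1 2 165 (.bis 2 7 1 1
  146 (.bis 1 7 1 1 140 (.bis 4 7 1 1 141 (.bis 7 8 1 2 164 (.bis 0 8 1 2 176 (.leaf 4) (.leaf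
  2)) (.leaf 2)) (.bis 0 8 1 2 176 (.bis 4 8 1 2 183 (.leaf 4) (.leaf 2)) (.leaf 2))) (.bis 0 8 1
  2 176 (.bis 1 8 1 2 184 (.leaf 4) (.leaf 2)) (.leaf 2))) (.bis 2 8 1 2 185 (.bis 0 8 1 2 176
  (.leaf 4) (.leaf 2)) (.leaf 2))) (.bis 6 8 1 4 166 (.bis 2 8 1 2 185 (.bis 0 8 1 2 176 (.leaf
  4) (.leaf 2)) (.leaf 2)) (.leaf 2))) (.bis 6 7 1 2 165 (.bis 2 7 1 1 146 (.bis 1 7 1 1 140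
  (.leaf 2) (.leaf 2)) (.leaf 2)) (.leaf 2))) (.bis 0 7 4 1 85 (.bis 6 7 1 2 165 (.bis 2 7 1 1
  146 (.bis 1 7 1 1 140 (.leaf 2) (.leaf 2)) (.leaf 2)) (.leaf 2)) (.bis 0 6 8 1 173 (.leaf 2)
  (.bis 0 5 4 1 157 (.leaf 2) (.bis 0 1 4 1 144 (.leaf 2) (.leaf 11)))))) (.bis 2 7 4 1 151 (.bis
  0 7 4 1 85 (.bis 6 7 1 2 165 (.bis 7 8 1 1 146 (.leaf 2) (.bis 1 7 1 1 140 (.leaf 2) (.leaf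
  2))) (.leaf 2)) (.bis 0 6 8 1 173 (.leaf 2) (.bis 0 5 4 1 157 (.leaf 2) (.bis 0 1 4 1 144
  (.leaf 2) (.leaf 11))))) (.bis 0 6 8 1 173 (.bis 2 6 8 1 186 (.leaf 2) (.leaf 6)) (.bis 0 5 4 1
  157 (.leaf 6) (.bis 0 1 4 1 144 (.leaf 6) (.bis 0 4 4 1 152 (.leaf 6) (.leaf 11)))))))) (.bis 0
  1 2 1 95 (.bis 1 3 1 1 192 (.bis 3 4 1 1 191 (.bis 6 7 1 2 165 (.bis 2 7 1 1 140 (.leaf 4)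
  (.bis 2 4 1 2 194 (.leaf 4) (.bis 0 8 1 2 182 (.leaf 4) (.leaf 2)))) (.bis 4 6 4 1 169 (.bis 6
  8 1 4 166 (.leaf 4) (.leaf 2)) (.leaf 4))) (.bis 3 8 1 1 188 (.bis 6 7 1 2 165 (.bis 2 7 1 1
  140 (.bis 7 8 1 2 164 (.leaf 4) (.leaf 2)) (.bis 0 8 1 2 182 (.bis 2 8 1 2 184 (.leaf 4) (.leaf
  2)) (.leaf 2))) (.bis 6 8 1 4 166 (.bis 0 8 1 2 182 (.leaf 4) (.leaf 2)) (.leaf 2))) (.bis 6 7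
  1 2 165 (.leaf 2) (.leaf 2)))) (.bis 1 6 4 1 170 (.bis 6 7 1 2 165 (.leaf 4) (.bis 4 6 4 1 169
  (.bis 6 8 1 4 166 (.leaf 4) (.leaf 2)) (.leaf 4))) (.bis 1 7 2 1 39 (.leaf 4) (.leaf 4))))
  (.bis 0 4 2 1 93 (.bis 3 4 1 1 191 (.bis 6 7 1 2 165 (.bis 2 7 1 1 140 (.leaf 4) (.bis 2 4 1 2
  194 (.leaf 4) (.bis 1 8 1 2 182 (.leaf 4) (.leaf 2)))) (.bis 4 6 4 1 169 (.bis 6 8 1 4 166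
  (.leaf 4) (.leaf 2)) (.leaf 4))) (.bis 3 8 1 1 188 (.bis 6 7 1 2 165 (.bis 2 7 1 1 140 (.bis 7
  8 1 2 164 (.leaf 4) (.leaf 2)) (.bis 1 8 1 2 182 (.bis 2 8 1 2 184 (.leaf 4) (.leaf 2)) (.leaf
  2))) (.bis 6 8 1 4 166 (.bis 1 8 1 2 182 (.leaf 4) (.leaf 2)) (.leaf 2))) (.bis 6 7 1 2 165
  (.leaf 2) (.leaf 2)))) (.bis 0 8 2 1 92 (.bis 3 8 1 1 188 (.bis 6 7 1 2 165 (.bis 2 7 1 1 140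
  (.bis 7 8 1 2 164 (.bis 0 8 1 2 176 (.leaf 4) (.leaf 2)) (.leaf 2)) (.bis 0 8 1 2 176 (.bis 1 8
  1 2 182 (.leaf 4) (.leaf 2)) (.leaf 2))) (.bis 6 8 1 4 166 (.bis 0 8 1 2 176 (.leaf 4) (.leaf
  2)) (.leaf 2))) (.bis 6 7 1 2 165 (.bis 2 7 1 1 140 (.leaf 2) (.leaf 2)) (.leaf 2))) (.bis 0 7
  4 1 85 (.bis 6 7 1 2 165 (.bis 2 7 1 1 140 (.leaf 2) (.leaf 2)) (.leaf 2)) (.bis 0 6 8 1 173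
  (.leaf 2) (.bis 0 5 4 1 157 (.leaf 2) (.leaf 11))))))))))

def lc5 : List Vr := [⟨[24,0,0,0,0,0,0,0,0], 6912, 0⟩, ⟨[0,28,0,0,0,0,0,0,84], 25872, 0⟩, ⟨[0,0,
  17,0,0,0,0,0,0], 6936, 0⟩, ⟨[0,0,0,13,0,0,0,42,0], 31288, 0⟩, ⟨[0,0,0,0,19,0,0,0,85], 26961, 0⟩,
   ⟨[0,0,0,0,0,30,0,0,94], 29760, 0⟩, ⟨[0,0,0,52,0,0,85,0,155], 385445, 0⟩, ⟨[0,0,0,0,0,0,0,42,0],
   7056, 0⟩, ⟨[0,0,0,13,0,0,0,0,75], 22360, 0⟩]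

theorem lk5 : chkTr lowT (leafLow 2 lowB) lt5 lc5 = true := by decide +kernel

def lt6 : Tr ℕ := (.bis 3 5 2 1 196 (.bis 2 5 2 1 154 (.bis 0 5 2 1 102 (.bis 5 7 1 1 195 (.bis 1
  7 1 1 192 (.bis 4 7 1 1 191 (.bis 7 8 1 1 188 (.bis 6 8 1 4 166 (.bis 0 8 1 2 197 (.leaf 4)
  (.leaf 2)) (.leaf 2)) (.leaf 2)) (.bis 4 6 4 1 169 (.bis 6 8 1 4 166 (.leaf 4) (.leaf 2))
  (.leaf 4))) (.bis 1 6 4 1 170 (.bis 4 6 4 1 169 (.bis 6 8 1 4 166 (.leaf 4) (.leaf 2)) (.leaf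
  4)) (.leaf 4))) (.bis 1 6 4 1 170 (.bis 5 6 4 1 168 (.leaf 4) (.leaf 16)) (.leaf 16))) (.bis 0
  1 2 1 95 (.bis 1 7 1 1 192 (.bis 4 7 1 1 191 (.bis 7 8 1 1 188 (.bis 6 8 1 4 166 (.bis 0 8 1 2
  182 (.leaf 4) (.leaf 2)) (.leaf 2)) (.leaf 2)) (.bis 4 6 4 1 169 (.bis 6 8 1 4 166 (.leaf 4)
  (.leaf 2)) (.leaf 4))) (.bis 1 6 4 1 170 (.bis 4 6 4 1 169 (.bis 6 8 1 4 166 (.leaf 4) (.leaf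
  2)) (.leaf 4)) (.leaf 4))) (.bis 0 4 2 1 93 (.bis 4 7 1 1 191 (.bis 7 8 1 1 188 (.bis 6 8 1 4
  166 (.bis 1 8 1 2 182 (.leaf 4) (.leaf 2)) (.leaf 2)) (.leaf 2)) (.bis 4 6 4 1 169 (.bis 6 8 1
  4 166 (.bis 1 8 1 2 182 (.leaf 4) (.leaf 2)) (.leaf 2)) (.leaf 4))) (.bis 0 8 2 1 92 (.bis 7 8
  1 1 188 (.bis 6 8 1 4 166 (.bis 0 8 1 2 176 (.bis 1 8 1 2 182 (.leaf 4) (.leaf 2)) (.leaf 2))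
  (.leaf 2)) (.leaf 2)) (.bis 0 6 8 1 173 (.bis 6 7 1 4 198 (.leaf 2) (.leaf 2)) (.bis 0 3 4 1
  199 (.leaf 2) (.bis 0 2 4 1 157 (.leaf 2) (.leaf 11)))))))) (.bis 1 2 1 2 138 (.bis 2 4 2 1 139
  (.bis 0 4 2 1 93 (.bis 4 7 1 1 191 (.bis 7 8 1 1 188 (.bis 6 8 1 4 166 (.bis 1 8 1 2 184 (.bis
  0 8 1 2 181 (.leaf 4) (.leaf 2)) (.leaf 2)) (.leaf 2)) (.leaf 2)) (.bis 4 6 4 1 169 (.bis 6 8 1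
  4 166 (.bis 1 8 1 2 184 (.leaf 4) (.leaf 2)) (.leaf 2)) (.bis 1 4 1 2 194 (.leaf 4) (.bis 1 8 1
  2 184 (.leaf 4) (.leaf 2))))) (.bis 0 8 2 1 92 (.bis 7 8 1 1 188 (.bis 6 8 1 4 166 (.bis 0 8 1
  2 176 (.bis 1 8 1 2 184 (.leaf 4) (.leaf 2)) (.leaf 2)) (.leaf 2)) (.leaf 2)) (.bis 0 6 8 1 173
  (.bis 6 7 1 4 198 (.leaf 2) (.leaf 2)) (.bis 0 3 4 1 199 (.leaf 2) (.bis 0 5 4 1 157 (.leaf 2)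
  (.bis 0 1 4 1 144 (.leaf 2) (.leaf 11))))))) (.bis 2 8 2 1 145 (.bis 0 8 2 1 92 (.bis 7 8 1 1
  188 (.bis 6 8 1 4 166 (.bis 2 8 1 2 185 (.bis 0 8 1 2 176 (.leaf 4) (.leaf 2)) (.leaf 2))
  (.leaf 2)) (.bis 6 7 1 4 198 (.leaf 2) (.leaf 2))) (.bis 0 6 8 1 173 (.bis 6 7 1 4 198 (.leaf
  2) (.leaf 2)) (.bis 0 3 4 1 199 (.leaf 2) (.bis 0 5 4 1 157 (.leaf 2) (.bis 0 1 4 1 144 (.leaf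
  2) (.leaf 11)))))) (.bis 0 6 8 1 173 (.bis 2 6 8 1 186 (.bis 6 7 1 4 198 (.leaf 2) (.leaf 2))
  (.bis 2 3 4 1 200 (.bis 3 7 1 2 201 (.leaf 2) (.leaf 2)) (.leaf 6))) (.bis 0 3 4 1 199 (.bis 2
  3 4 1 200 (.leaf 2) (.leaf 6)) (.bis 0 5 4 1 157 (.leaf 6) (.bis 0 1 4 1 144 (.leaf 6) (.leaf
  11))))))) (.bis 0 1 2 1 95 (.bis 1 7 1 1 192 (.bis 4 7 1 1 191 (.bis 7 8 1 1 188 (.bis 6 8 1 4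
  166 (.bis 0 8 1 2 182 (.leaf 4) (.leaf 2)) (.leaf 2)) (.leaf 2)) (.bis 4 6 4 1 169 (.bis 6 8 1
  4 166 (.leaf 4) (.leaf 2)) (.bis 2 4 1 2 194 (.leaf 4) (.leaf 4)))) (.bis 1 6 4 1 170 (.bis 4 6
  4 1 169 (.bis 6 8 1 4 166 (.leaf 4) (.leaf 2)) (.leaf 4)) (.leaf 4))) (.bis 0 4 2 1 93 (.bis 4
  7 1 1 191 (.bis 7 8 1 1 188 (.bis 6 8 1 4 166 (.bis 1 8 1 2 182 (.leaf 4) (.leaf 2)) (.leaf 2))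
  (.leaf 2)) (.bis 4 6 4 1 169 (.bis 6 8 1 4 166 (.bis 1 8 1 2 182 (.leaf 4) (.leaf 2)) (.leaf
  2)) (.bis 2 4 1 2 194 (.leaf 4) (.bis 1 8 1 2 182 (.leaf 4) (.leaf 2))))) (.bis 0 8 2 1 92
  (.bis 7 8 1 1 188 (.bis 6 8 1 4 166 (.bis 0 8 1 2 176 (.bis 1 8 1 2 182 (.leaf 4) (.leaf 2))
  (.leaf 2)) (.leaf 2)) (.leaf 2)) (.bis 0 6 8 1 173 (.bis 6 7 1 4 198 (.leaf 2) (.leaf 2)) (.bis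
  0 3 4 1 199 (.leaf 2) (.bis 0 5 4 1 157 (.leaf 2) (.leaf 11))))))))) (.bis 1 3 1 2 202 (.bis 3
  4 2 1 203 (.bis 2 4 2 1 139 (.bis 0 4 2 1 93 (.bis 4 7 1 1 191 (.bis 7 8 1 1 188 (.bis 6 8 1 4
  166 (.bis 1 8 1 2 204 (.bis 0 8 1 2 181 (.leaf 4) (.leaf 2)) (.leaf 2)) (.leaf 2)) (.leaf 2))
  (.bis 4 6 4 1 169 (.bis 6 8 1 4 166 (.bis 1 8 1 2 204 (.leaf 4) (.leaf 2)) (.leaf 2)) (.bis 1 4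
  1 2 205 (.leaf 4) (.bis 1 8 1 2 204 (.leaf 4) (.leaf 2))))) (.bis 0 8 2 1 92 (.bis 7 8 1 1 188
  (.bis 6 8 1 4 166 (.bis 0 8 1 2 176 (.bis 1 8 1 2 204 (.leaf 4) (.leaf 2)) (.leaf 2)) (.leaf
  2)) (.leaf 2)) (.bis 0 6 8 1 173 (.bis 6 7 1 4 198 (.leaf 2) (.leaf 2)) (.bis 0 5 4 1 199
  (.leaf 2) (.bis 0 1 4 1 206 (.leaf 2) (.bis 0 3 4 1 207 (.leaf 2) (.leaf 11))))))) (.bis 2 8 2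
  1 145 (.bis 0 8 2 1 92 (.bis 7 8 1 1 188 (.bis 6 8 1 4 166 (.bis 2 8 1 2 185 (.bis 0 8 1 2 176
  (.leaf 4) (.leaf 2)) (.leaf 2)) (.leaf 2)) (.bis 6 7 1 4 198 (.leaf 2) (.leaf 2))) (.bis 0 6 8
  1 173 (.bis 6 7 1 4 198 (.leaf 2) (.leaf 2)) (.bis 0 5 4 1 199 (.leaf 2) (.bis 0 1 4 1 206
  (.leaf 2) (.bis 0 3 4 1 207 (.leaf 2) (.leaf 11)))))) (.bis 0 6 8 1 173 (.bis 2 6 8 1 186 (.bis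
  6 7 1 4 198 (.leaf 2) (.leaf 2)) (.bis 2 5 4 1 200 (.bis 5 7 1 2 201 (.leaf 2) (.leaf 2))
  (.leaf 6))) (.bis 0 5 4 1 199 (.bis 2 5 4 1 200 (.leaf 2) (.leaf 6)) (.bis 0 1 4 1 206 (.leaf
  6) (.bis 0 3 4 1 207 (.leaf 6) (.leaf 11))))))) (.bis 3 8 2 1 208 (.bis 2 8 2 1 145 (.bis 0 8 2
  1 92 (.bis 7 8 1 1 188 (.bis 6 8 1 4 166 (.bis 2 8 1 2 185 (.bis 3 8 1 2 209 (.leaf 4) (.leaf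
  2)) (.leaf 2)) (.leaf 2)) (.bis 6 7 1 4 198 (.leaf 2) (.leaf 2))) (.bis 0 6 8 1 173 (.bis 6 7 1
  4 198 (.leaf 2) (.leaf 2)) (.bis 0 5 4 1 199 (.leaf 2) (.bis 0 1 4 1 206 (.leaf 2) (.bis 0 4 4
  1 207 (.leaf 2) (.bis 0 3 4 1 210 (.leaf 2) (.leaf 11))))))) (.bis 0 6 8 1 173 (.bis 2 6 8 1
  186 (.bis 6 7 1 4 198 (.leaf 2) (.leaf 2)) (.bis 2 5 4 1 200 (.bis 5 7 1 2 201 (.leaf 2) (.leaf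
  2)) (.leaf 6))) (.bis 0 5 4 1 199 (.bis 2 5 4 1 200 (.leaf 2) (.leaf 6)) (.bis 0 1 4 1 206
  (.bis 1 2 1 4 211 (.leaf 6) (.leaf 2)) (.bis 0 4 4 1 207 (.leaf 6) (.bis 0 3 4 1 210 (.leaf 6)
  (.leaf 11))))))) (.bis 0 6 8 1 173 (.bis 2 6 8 1 186 (.bis 3 7 2 1 212 (.leaf 5) (.leaf 6))
  (.leaf 6)) (.bis 0 5 4 1 199 (.bis 2 5 4 1 200 (.leaf 6) (.leaf 6)) (.bis 0 3 1 1 213 (.leaf 6)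
  (.bis 0 1 4 1 206 (.leaf 6) (.bis 0 4 4 1 207 (.leaf 6) (.leaf 11)))))))) (.bis 1 2 1 2 138
  (.bis 2 4 2 1 139 (.bis 0 4 2 1 93 (.bis 4 7 1 1 191 (.bis 7 8 1 1 188 (.bis 6 8 1 4 166 (.bis
  1 8 1 2 184 (.bis 3 8 1 2 204 (.leaf 4) (.leaf 2)) (.leaf 2)) (.leaf 2)) (.leaf 2)) (.bis 4 6 4
  1 169 (.bis 6 8 1 4 166 (.bis 1 8 1 2 184 (.leaf 4) (.leaf 2)) (.leaf 2)) (.bis 3 4 1 2 205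
  (.leaf 4) (.bis 1 8 1 2 184 (.leaf 4) (.leaf 2))))) (.bis 0 8 2 1 92 (.bis 7 8 1 1 188 (.bis 6
  8 1 4 166 (.bis 0 8 1 2 176 (.bis 1 8 1 2 184 (.leaf 4) (.leaf 2)) (.leaf 2)) (.leaf 2)) (.leaf
  2)) (.bis 0 6 8 1 173 (.bis 6 7 1 4 198 (.leaf 2) (.leaf 2)) (.bis 0 5 4 1 199 (.leaf 2) (.bis
  0 3 4 1 206 (.leaf 2) (.bis 0 1 4 1 144 (.leaf 2) (.leaf 11))))))) (.bis 2 8 2 1 145 (.bis 0 8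
  2 1 92 (.bis 7 8 1 1 188 (.bis 6 8 1 4 166 (.bis 2 8 1 2 185 (.bis 0 8 1 2 176 (.leaf 4) (.leaf
  2)) (.leaf 2)) (.leaf 2)) (.leaf 2)) (.bis 0 6 8 1 173 (.bis 6 7 1 4 198 (.leaf 2) (.leaf 2))
  (.bis 0 5 4 1 199 (.leaf 2) (.bis 0 3 4 1 206 (.leaf 2) (.bis 0 1 4 1 144 (.leaf 2) (.leaf
  11)))))) (.bis 0 6 8 1 173 (.bis 2 6 8 1 186 (.bis 6 7 1 4 198 (.leaf 2) (.leaf 2)) (.leaf 6))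
  (.bis 0 5 4 1 199 (.bis 2 5 4 1 200 (.leaf 2) (.leaf 6)) (.bis 0 3 4 1 206 (.leaf 6) (.bis 0 1
  4 1 144 (.leaf 6) (.leaf 11))))))) (.bis 0 1 2 1 95 (.bis 1 7 1 1 192 (.bis 4 7 1 1 191 (.bis 7
  8 1 1 188 (.bis 6 8 1 4 166 (.bis 0 8 1 2 182 (.leaf 4) (.leaf 2)) (.leaf 2)) (.leaf 2)) (.bis
  4 6 4 1 169 (.bis 6 8 1 4 166 (.leaf 4) (.leaf 2)) (.bis 3 4 1 2 205 (.leaf 4) (.leaf 4))))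
  (.bis 1 6 4 1 170 (.bis 4 6 4 1 169 (.bis 6 8 1 4 166 (.leaf 4) (.leaf 2)) (.bis 3 4 1 2 205
  (.leaf 4) (.leaf 4))) (.leaf 4))) (.bis 0 4 2 1 93 (.bis 4 7 1 1 191 (.bis 7 8 1 1 188 (.bis 6
  8 1 4 166 (.bis 1 8 1 2 182 (.leaf 4) (.leaf 2)) (.leaf 2)) (.leaf 2)) (.bis 4 6 4 1 169 (.bis
  6 8 1 4 166 (.bis 1 8 1 2 182 (.leaf 4) (.leaf 2)) (.leaf 2)) (.bis 3 4 1 2 205 (.leaf 4) (.bis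
  1 8 1 2 182 (.leaf 4) (.leaf 2))))) (.bis 0 8 2 1 92 (.bis 7 8 1 1 188 (.bis 6 8 1 4 166 (.bis
  0 8 1 2 176 (.bis 1 8 1 2 182 (.leaf 4) (.leaf 2)) (.leaf 2)) (.leaf 2)) (.leaf 2)) (.bis 0 6 8
  1 173 (.leaf 2) (.bis 0 5 4 1 199 (.leaf 2) (.bis 0 3 4 1 206 (.leaf 2) (.leaf 11))))))))))

def lc6 : List Vr := [⟨[24,0,0,0,0,0,0,0,0], 6912, 0⟩, ⟨[0,28,0,0,0,0,0,0,84], 25872, 0⟩, ⟨[0,0,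
  17,0,0,0,0,0,0], 6936, 0⟩, ⟨[0,0,0,13,0,0,0,0,0], 6760, 0⟩, ⟨[0,0,0,0,19,0,0,0,85], 26961, 0⟩,
  ⟨[0,0,0,0,0,30,0,0,94], 29760, 0⟩, ⟨[0,0,0,52,0,0,85,0,155], 385445, 0⟩, ⟨[0,0,0,13,0,0,0,42,0],
   31288, 0⟩, ⟨[0,0,0,13,0,0,0,0,75], 22360, 0⟩]

theorem lk6 : chkTr lowT (leafLow 2 lowB) lt6 lc6 = true := by decide +kernel

def lt7 : Tr ℕ := (.bis 0 6 4 1 50 (.bis 6 7 1 4 18 (.bis 5 7 1 2 19 (.bis 1 7 1 2 20 (.bis 4 7 1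
  4 215 (.bis 7 8 2 1 21 (.bis 1 3 2 1 160 (.bis 3 6 1 1 162 (.bis 6 8 1 4 38 (.bis 0 8 1 4 58
  (.bis 2 7 1 2 114 (.bis 4 8 1 4 216 (.leaf 4) (.leaf 4)) (.bis 2 8 1 4 117 (.leaf 4) (.leaf
  4))) (.leaf 4)) (.leaf 23)) (.bis 3 7 1 2 163 (.bis 0 8 1 4 58 (.bis 2 7 1 2 114 (.bis 4 8 1 4
  216 (.leaf 4) (.leaf 2)) (.bis 2 8 1 4 117 (.bis 4 8 1 4 216 (.leaf 4) (.leaf 2)) (.leaf 2)))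
  (.leaf 2)) (.bis 3 5 1 2 165 (.bis 0 8 1 4 58 (.bis 2 8 1 4 117 (.bis 4 8 1 4 216 (.leaf 4)
  (.leaf 2)) (.leaf 2)) (.leaf 2)) (.bis 0 8 1 4 58 (.bis 2 8 1 4 117 (.bis 3 8 1 4 169 (.leaf 4)
  (.leaf 2)) (.leaf 2)) (.leaf 2))))) (.bis 6 8 1 4 38 (.bis 1 2 2 1 111 (.bis 0 8 1 4 58 (.bis 2
  7 1 2 114 (.bis 4 8 1 4 216 (.leaf 4) (.leaf 4)) (.bis 2 8 1 4 117 (.leaf 4) (.leaf 4))) (.leaf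
  4)) (.bis 0 8 1 4 58 (.bis 1 8 1 2 96 (.leaf 4) (.leaf 4)) (.leaf 4))) (.bis 1 2 2 1 111 (.leaf
  23) (.leaf 12)))) (.bis 3 7 1 8 167 (.bis 2 7 1 8 116 (.bis 0 7 1 8 54 (.bis 4 7 1 8 217 (.bis
  5 7 1 4 26 (.bis 6 7 1 8 27 (.leaf 32) (.leaf 14)) (.leaf 14)) (.leaf 14)) (.bis 0 1 1 2 53
  (.leaf 14) (.leaf 14))) (.bis 1 2 2 1 111 (.bis 2 8 1 2 114 (.leaf 12) (.leaf 26)) (.bis 0 1 1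
  2 53 (.leaf 12) (.leaf 12)))) (.bis 1 3 2 1 160 (.leaf 26) (.bis 1 2 2 1 111 (.leaf 26) (.leaf
  12))))) (.bis 1 4 1 1 218 (.bis 3 6 1 1 162 (.bis 6 8 1 4 38 (.bis 4 5 1 1 219 (.bis 0 8 1 4 58
  (.leaf 4) (.leaf 4)) (.bis 0 8 1 4 58 (.bis 2 8 1 4 117 (.leaf 4) (.leaf 4)) (.leaf 4))) (.leaf
  38)) (.bis 3 5 1 2 165 (.bis 4 5 1 1 219 (.bis 0 8 1 4 58 (.bis 2 8 1 4 117 (.leaf 4) (.leaf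
  2)) (.leaf 2)) (.bis 0 8 1 4 58 (.bis 2 8 1 4 117 (.leaf 4) (.leaf 4)) (.leaf 4))) (.bis 0 8 1
  4 58 (.bis 2 8 1 4 117 (.bis 3 8 1 4 169 (.leaf 4) (.leaf 4)) (.leaf 4)) (.leaf 4)))) (.bis 1 3
  2 1 160 (.bis 3 6 1 1 162 (.bis 6 8 1 4 38 (.bis 0 8 1 4 58 (.bis 2 8 1 4 117 (.leaf 4) (.leaf
  4)) (.leaf 4)) (.leaf 23)) (.bis 3 5 1 2 165 (.bis 0 8 1 4 58 (.bis 2 8 1 4 117 (.leaf 4)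
  (.leaf 2)) (.leaf 2)) (.bis 0 8 1 4 58 (.bis 2 8 1 4 117 (.bis 3 8 1 4 169 (.leaf 4) (.leaf 2))
  (.leaf 2)) (.leaf 2)))) (.bis 6 8 1 4 38 (.bis 1 2 2 1 111 (.bis 0 8 1 4 58 (.bis 2 8 1 4 117
  (.leaf 4) (.leaf 4)) (.leaf 4)) (.bis 0 8 1 4 58 (.leaf 4) (.leaf 4))) (.leaf 23))))) (.bis 4 7
  1 1 218 (.bis 1 6 4 1 31 (.bis 3 7 1 2 160 (.bis 6 8 1 4 38 (.leaf 4) (.leaf 23)) (.bis 3 6 1 1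
  162 (.bis 6 8 1 4 38 (.bis 0 8 1 4 58 (.leaf 4) (.leaf 4)) (.leaf 23)) (.bis 3 5 1 2 165 (.bis
  0 8 1 4 58 (.leaf 4) (.leaf 4)) (.bis 0 8 1 4 58 (.bis 2 8 1 4 117 (.leaf 4) (.leaf 4)) (.leaf
  4))))) (.bis 3 7 1 2 160 (.bis 0 1 1 4 59 (.bis 1 2 4 1 119 (.leaf 4) (.leaf 4)) (.bis 2 7 1 2
  111 (.bis 0 8 1 4 58 (.leaf 4) (.leaf 4)) (.bis 0 8 1 4 58 (.leaf 4) (.leaf 4)))) (.bis 0 1 1 4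
  59 (.leaf 4) (.bis 3 5 1 2 165 (.bis 0 8 1 4 58 (.leaf 4) (.leaf 4)) (.bis 0 8 1 4 58 (.leaf 4)
  (.leaf 4)))))) (.bis 1 6 4 1 31 (.bis 3 6 1 1 162 (.bis 6 8 1 4 38 (.leaf 4) (.leaf 38)) (.bis
  3 5 1 2 165 (.bis 4 5 1 1 219 (.bis 0 8 1 4 58 (.leaf 4) (.leaf 4)) (.bis 0 8 1 4 58 (.leaf 4)
  (.leaf 4))) (.bis 0 8 1 4 58 (.bis 2 8 1 4 117 (.leaf 4) (.leaf 4)) (.leaf 4)))) (.bis 0 1 1 4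
  59 (.bis 1 2 4 1 119 (.bis 3 5 1 2 165 (.leaf 4) (.leaf 4)) (.leaf 4)) (.bis 3 5 1 2 165 (.leaf
  4) (.bis 0 8 1 4 58 (.leaf 4) (.leaf 4))))))) (.bis 1 6 4 1 31 (.bis 5 6 4 1 40 (.bis 3 6 1 1
  162 (.bis 6 8 1 4 38 (.leaf 4) (.leaf 38)) (.bis 3 7 1 2 165 (.bis 4 7 1 1 219 (.bis 0 8 1 4 58
  (.leaf 4) (.leaf 4)) (.bis 0 8 1 4 58 (.leaf 4) (.leaf 4))) (.bis 0 8 1 4 58 (.leaf 4) (.leaf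
  4)))) (.leaf 16)) (.bis 0 1 1 4 59 (.bis 1 2 4 1 119 (.bis 2 5 1 4 121 (.bis 3 5 1 4 168 (.leaf
  16) (.bis 3 7 1 2 165 (.leaf 4) (.leaf 4))) (.bis 3 7 1 2 165 (.leaf 4) (.leaf 4))) (.bis 1 3 4
  1 170 (.bis 3 5 1 4 168 (.bis 4 7 1 1 219 (.leaf 16) (.leaf 16)) (.bis 3 7 1 2 165 (.leaf 4)
  (.leaf 4))) (.bis 1 4 2 1 220 (.bis 4 7 1 1 219 (.leaf 16) (.leaf 16)) (.bis 1 7 2 1 39 (.leaf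
  16) (.leaf 16))))) (.bis 0 5 1 4 61 (.bis 2 5 1 4 121 (.bis 3 5 1 4 168 (.leaf 16) (.bis 3 7 1
  2 165 (.leaf 4) (.leaf 4))) (.bis 3 7 1 2 165 (.leaf 4) (.leaf 4))) (.bis 3 7 1 2 165 (.leaf 4)
  (.bis 0 8 1 4 58 (.leaf 4) (.leaf 4))))))) (.bis 3 6 1 2 171 (.bis 2 6 1 2 122 (.bis 1 6 2 1 47
  (.bis 0 6 1 2 66 (.bis 6 7 2 1 48 (.bis 5 7 4 1 40 (.bis 7 8 1 4 38 (.leaf 4) (.bis 4 7 1 1 221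
  (.leaf 23) (.leaf 4))) (.leaf 16)) (.leaf 54)) (.bis 5 7 4 1 40 (.bis 7 8 1 4 38 (.leaf 4)
  (.bis 4 7 1 1 221 (.leaf 23) (.leaf 4))) (.bis 0 5 1 4 61 (.leaf 16) (.leaf 4)))) (.bis 1 7 4 1
  31 (.bis 5 7 4 1 40 (.bis 7 8 1 4 38 (.leaf 4) (.leaf 64)) (.bis 0 5 1 4 61 (.leaf 16) (.leaf
  4))) (.bis 0 1 1 4 59 (.leaf 16) (.bis 0 5 1 4 61 (.leaf 16) (.leaf 4))))) (.bis 1 7 4 1 31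
  (.bis 5 7 4 1 40 (.bis 7 8 1 4 38 (.leaf 4) (.leaf 38)) (.leaf 16)) (.bis 0 1 1 4 59 (.leaf 16)
  (.leaf 16)))) (.bis 1 7 4 1 31 (.bis 5 7 4 1 40 (.bis 3 7 1 1 162 (.bis 7 8 1 4 38 (.leaf 4)
  (.leaf 38)) (.bis 0 8 1 4 58 (.leaf 4) (.leaf 4))) (.leaf 16)) (.bis 0 1 1 4 59 (.leaf 16)
  (.bis 0 5 1 4 61 (.leaf 16) (.bis 0 8 1 4 58 (.leaf 4) (.leaf 4))))))) (.bis 5 7 1 2 19 (.bis 1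
  7 1 2 20 (.bis 4 7 1 4 215 (.bis 7 8 2 1 21 (.bis 0 8 2 1 93 (.bis 1 3 2 1 160 (.bis 3 7 1 2
  163 (.bis 6 8 1 4 58 (.bis 2 7 1 2 114 (.bis 4 8 1 4 216 (.leaf 4) (.leaf 2)) (.bis 2 8 1 4 117
  (.bis 4 8 1 4 216 (.leaf 4) (.leaf 2)) (.leaf 2))) (.leaf 2)) (.bis 3 5 1 2 165 (.bis 6 8 1 4
  58 (.bis 2 8 1 4 117 (.bis 4 8 1 4 216 (.leaf 4) (.leaf 2)) (.leaf 2)) (.leaf 2)) (.bis 6 8 1 4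
  58 (.bis 2 8 1 4 117 (.bis 3 8 1 4 169 (.leaf 4) (.leaf 2)) (.leaf 2)) (.leaf 2)))) (.bis 1 2 2
  1 111 (.bis 6 8 1 4 58 (.bis 2 7 1 2 114 (.bis 4 8 1 4 216 (.leaf 4) (.leaf 2)) (.bis 2 8 1 4
  117 (.bis 4 8 1 4 216 (.leaf 4) (.leaf 2)) (.leaf 2))) (.leaf 2)) (.bis 6 8 1 4 58 (.bis 1 8 1
  2 96 (.bis 4 8 1 4 216 (.leaf 4) (.leaf 2)) (.leaf 2)) (.leaf 2)))) (.bis 0 5 4 1 85 (.leaf 2)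
  (.bis 0 1 4 1 86 (.leaf 2) (.bis 0 7 4 1 87 (.leaf 2) (.bis 0 3 8 1 173 (.leaf 2) (.bis 0 4 8 1
  222 (.leaf 2) (.leaf 21))))))) (.bis 3 7 1 8 167 (.bis 2 7 1 8 116 (.bis 0 7 1 1 68 (.bis 6 7 1
  8 54 (.bis 4 7 1 8 217 (.bis 5 7 1 4 26 (.bis 1 7 1 4 74 (.leaf 32) (.leaf 14)) (.leaf 14))
  (.leaf 14)) (.bis 0 6 4 1 73 (.leaf 2) (.leaf 14))) (.bis 0 5 4 1 85 (.leaf 14) (.bis 0 1 4 1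
  86 (.leaf 14) (.bis 0 8 4 1 87 (.leaf 14) (.bis 0 4 8 1 222 (.leaf 14) (.bis 0 3 16 1 174
  (.leaf 14) (.leaf 21))))))) (.bis 0 5 4 1 85 (.bis 1 2 2 1 111 (.leaf 2) (.leaf 2)) (.bis 0 1 4
  1 86 (.bis 1 2 2 1 111 (.leaf 2) (.leaf 2)) (.bis 0 8 4 1 87 (.bis 2 8 1 2 114 (.leaf 2) (.leaf
  2)) (.bis 0 4 8 1 222 (.leaf 2) (.bis 0 2 8 1 125 (.leaf 2) (.bis 0 3 16 1 174 (.leaf 2) (.leaf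
  21)))))))) (.bis 0 5 4 1 85 (.bis 1 3 2 1 160 (.leaf 2) (.bis 1 2 2 1 111 (.leaf 2) (.leaf 2)))
  (.bis 0 1 4 1 86 (.bis 1 3 2 1 160 (.leaf 2) (.leaf 2)) (.bis 0 8 4 1 87 (.bis 3 8 1 2 163
  (.leaf 2) (.leaf 2)) (.bis 0 3 8 1 173 (.leaf 2) (.bis 0 4 8 1 222 (.leaf 2) (.bis 0 2 8 1 125
  (.leaf 2) (.leaf 21))))))))) (.bis 0 8 2 1 93 (.bis 1 4 1 1 218 (.bis 3 5 1 2 165 (.bis 4 5 1 1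
  219 (.bis 6 8 1 4 58 (.bis 2 8 1 4 117 (.leaf 4) (.leaf 2)) (.leaf 2)) (.bis 6 8 1 4 58 (.bis 2
  8 1 4 117 (.leaf 4) (.leaf 4)) (.leaf 4))) (.bis 6 8 1 4 58 (.bis 2 8 1 4 117 (.bis 3 8 1 4 169
  (.leaf 4) (.leaf 4)) (.leaf 4)) (.leaf 4))) (.bis 1 3 2 1 160 (.bis 3 5 1 2 165 (.bis 6 8 1 4
  58 (.bis 2 8 1 4 117 (.leaf 4) (.leaf 2)) (.leaf 2)) (.bis 6 8 1 4 58 (.bis 2 8 1 4 117 (.bis 3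
  8 1 4 169 (.leaf 4) (.leaf 2)) (.leaf 2)) (.leaf 2))) (.bis 1 2 2 1 111 (.bis 6 8 1 4 58 (.bis
  2 8 1 4 117 (.leaf 4) (.leaf 2)) (.leaf 2)) (.bis 6 8 1 4 58 (.bis 1 8 1 2 96 (.leaf 4) (.leaf
  2)) (.leaf 2))))) (.bis 0 4 4 1 223 (.bis 1 4 1 1 218 (.bis 3 5 1 2 165 (.bis 4 5 1 1 219
  (.leaf 2) (.leaf 4)) (.leaf 4)) (.bis 1 3 2 1 160 (.bis 3 5 1 2 165 (.leaf 2) (.leaf 2)) (.leaf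
  2))) (.bis 0 5 4 1 85 (.bis 1 3 2 1 160 (.bis 3 5 1 2 165 (.leaf 2) (.leaf 2)) (.leaf 2)) (.bis
  0 1 4 1 86 (.bis 1 3 2 1 160 (.leaf 2) (.bis 1 2 2 1 111 (.leaf 2) (.leaf 2))) (.bis 0 3 8 1
  173 (.leaf 2) (.bis 0 7 8 1 222 (.leaf 2) (.bis 0 2 8 1 125 (.leaf 2) (.leaf 21))))))))) (.bis
  0 1 2 1 95 (.bis 4 7 1 1 218 (.bis 3 7 1 2 160 (.bis 1 6 4 1 59 (.bis 2 7 1 2 111 (.bis 6 8 1 4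
  58 (.leaf 4) (.leaf 2)) (.bis 6 8 1 4 58 (.bis 2 8 1 4 117 (.leaf 4) (.leaf 2)) (.leaf 2)))
  (.leaf 4)) (.bis 1 6 4 1 59 (.bis 3 5 1 2 165 (.bis 6 8 1 4 58 (.bis 2 8 1 4 117 (.leaf 4)
  (.leaf 2)) (.leaf 2)) (.bis 6 8 1 4 58 (.bis 2 8 1 4 117 (.leaf 4) (.leaf 2)) (.leaf 2))) (.bis
  1 2 4 1 119 (.bis 3 5 1 2 165 (.bis 2 8 1 4 117 (.leaf 4) (.leaf 2)) (.bis 2 8 1 4 117 (.leaf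
  4) (.leaf 2))) (.leaf 4)))) (.bis 1 6 4 1 59 (.bis 3 5 1 2 165 (.bis 4 5 1 1 219 (.bis 6 8 1 4
  58 (.leaf 4) (.leaf 2)) (.bis 6 8 1 4 58 (.leaf 4) (.leaf 4))) (.bis 6 8 1 4 58 (.bis 2 8 1 4
  117 (.leaf 4) (.leaf 4)) (.leaf 4))) (.bis 1 2 4 1 119 (.bis 3 5 1 2 165 (.leaf 4) (.bis 2 8 1
  4 117 (.leaf 4) (.leaf 4))) (.bis 1 3 4 1 170 (.bis 3 5 1 2 165 (.leaf 4) (.leaf 4)) (.bis 1 4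
  2 1 220 (.bis 4 5 1 1 219 (.leaf 4) (.leaf 4)) (.bis 1 5 2 1 39 (.leaf 4) (.leaf 4))))))) (.bis
  0 8 2 1 93 (.bis 4 7 1 1 218 (.bis 3 7 1 2 160 (.bis 2 7 1 2 111 (.bis 6 8 1 4 58 (.bis 7 8 1 2
  96 (.leaf 4) (.leaf 2)) (.leaf 2)) (.bis 6 8 1 4 58 (.bis 2 8 1 4 117 (.leaf 4) (.leaf 2))
  (.leaf 2))) (.bis 3 5 1 2 165 (.bis 6 8 1 4 58 (.bis 2 8 1 4 117 (.leaf 4) (.leaf 2)) (.leaf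
  2)) (.bis 6 8 1 4 58 (.bis 2 8 1 4 117 (.bis 3 8 1 4 169 (.leaf 4) (.leaf 2)) (.leaf 2)) (.leaf
  2)))) (.bis 3 5 1 2 165 (.bis 4 5 1 1 219 (.bis 6 8 1 4 58 (.bis 2 8 1 4 117 (.leaf 4) (.leaf
  2)) (.leaf 2)) (.bis 6 8 1 4 58 (.bis 2 8 1 4 117 (.leaf 4) (.leaf 4)) (.leaf 4))) (.bis 6 8 1
  4 58 (.bis 2 8 1 4 117 (.bis 3 8 1 4 169 (.leaf 4) (.leaf 4)) (.leaf 4)) (.leaf 4)))) (.bis 0 4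
  4 1 223 (.bis 4 7 1 1 218 (.bis 3 7 1 2 160 (.leaf 2) (.bis 3 5 1 2 165 (.bis 2 5 1 2 115
  (.leaf 2) (.leaf 2)) (.leaf 2))) (.bis 3 5 1 2 165 (.bis 4 5 1 1 219 (.bis 2 5 1 2 115 (.leaf
  2) (.leaf 2)) (.leaf 4)) (.leaf 4))) (.bis 0 5 4 1 85 (.bis 3 7 1 2 160 (.leaf 2) (.bis 3 5 1 2
  165 (.bis 2 5 1 2 115 (.leaf 2) (.leaf 2)) (.leaf 2))) (.bis 0 7 4 1 86 (.bis 3 7 1 2 160 (.bis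
  2 7 1 2 111 (.leaf 2) (.leaf 2)) (.leaf 2)) (.bis 0 3 8 1 173 (.leaf 2) (.bis 0 2 8 1 125
  (.leaf 2) (.leaf 21))))))))) (.bis 0 5 2 1 102 (.bis 1 6 4 1 59 (.bis 5 6 4 1 61 (.bis 3 7 1 2
  165 (.bis 4 7 1 1 219 (.bis 6 8 1 4 58 (.leaf 4) (.leaf 4)) (.bis 6 8 1 4 58 (.leaf 4) (.leaf
  4))) (.bis 6 8 1 4 58 (.bis 2 8 1 4 117 (.leaf 4) (.leaf 4)) (.leaf 4))) (.bis 2 5 1 4 121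
  (.bis 3 5 1 4 168 (.bis 4 7 1 1 219 (.leaf 16) (.leaf 16)) (.bis 3 7 1 2 165 (.leaf 4) (.leaf
  4))) (.bis 3 7 1 2 165 (.leaf 4) (.bis 2 8 1 4 117 (.leaf 4) (.leaf 4))))) (.bis 1 2 4 1 119
  (.bis 2 5 1 4 121 (.bis 3 5 1 4 168 (.bis 4 7 1 1 219 (.leaf 16) (.leaf 16)) (.bis 3 7 1 2 165
  (.leaf 4) (.leaf 4))) (.bis 3 7 1 2 165 (.bis 4 7 1 1 219 (.leaf 4) (.leaf 4)) (.bis 2 8 1 4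
  117 (.leaf 4) (.leaf 4)))) (.bis 1 3 4 1 170 (.bis 3 5 1 4 168 (.bis 4 7 1 1 219 (.leaf 16)
  (.leaf 16)) (.bis 3 7 1 2 165 (.leaf 4) (.leaf 4))) (.bis 1 4 2 1 220 (.bis 4 7 1 1 219 (.leaf
  16) (.leaf 16)) (.bis 1 7 2 1 39 (.leaf 16) (.leaf 16)))))) (.bis 0 1 2 1 95 (.bis 1 6 4 1 59
  (.bis 3 7 1 2 165 (.bis 4 7 1 1 219 (.bis 6 8 1 4 58 (.bis 2 8 1 4 117 (.leaf 4) (.leaf 2))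
  (.leaf 2)) (.bis 6 8 1 4 58 (.bis 2 8 1 4 117 (.leaf 4) (.leaf 4)) (.leaf 4))) (.bis 6 8 1 4 58
  (.bis 2 8 1 4 117 (.leaf 4) (.leaf 4)) (.leaf 4))) (.bis 1 2 4 1 119 (.bis 3 7 1 2 165 (.bis 4
  7 1 1 219 (.bis 2 8 1 4 117 (.leaf 4) (.leaf 2)) (.bis 2 8 1 4 117 (.leaf 4) (.leaf 4))) (.bis
  2 8 1 4 117 (.bis 3 8 1 4 169 (.leaf 4) (.leaf 4)) (.leaf 4))) (.bis 1 3 4 1 170 (.bis 3 7 1 2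
  165 (.leaf 4) (.bis 3 8 1 4 169 (.leaf 4) (.leaf 4))) (.bis 1 4 2 1 220 (.bis 4 7 1 1 219
  (.leaf 4) (.leaf 4)) (.bis 1 7 2 1 39 (.leaf 4) (.leaf 4)))))) (.bis 0 8 2 1 93 (.bis 3 7 1 2
  165 (.bis 4 7 1 1 219 (.bis 6 8 1 4 58 (.bis 2 8 1 4 117 (.leaf 4) (.leaf 2)) (.leaf 2)) (.bis
  6 8 1 4 58 (.bis 2 8 1 4 117 (.leaf 4) (.leaf 4)) (.leaf 4))) (.bis 6 8 1 4 58 (.bis 2 8 1 4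
  117 (.bis 3 8 1 4 169 (.leaf 4) (.leaf 4)) (.leaf 4)) (.leaf 4))) (.bis 0 4 4 1 223 (.bis 3 7 1
  2 165 (.bis 4 7 1 1 219 (.bis 2 7 1 2 115 (.leaf 2) (.leaf 2)) (.leaf 4)) (.leaf 4)) (.bis 0 7
  4 1 85 (.bis 3 7 1 2 165 (.bis 2 7 1 2 115 (.leaf 2) (.leaf 2)) (.leaf 2)) (.bis 0 3 8 1 173
  (.leaf 2) (.bis 0 2 8 1 125 (.leaf 2) (.leaf 21))))))))))

def lc7 : List Vr := [⟨[24,0,0,0,0,0,0,0,0], 6912, 0⟩, ⟨[0,28,0,0,0,0,0,0,84], 25872, 0⟩, ⟨[0,0,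
  68,0,0,0,85,0,155], 389861, 0⟩, ⟨[0,0,0,52,0,0,85,0,155], 385445, 0⟩, ⟨[0,0,0,0,38,0,85,0,155],
  206149, 0⟩, ⟨[0,0,0,0,0,30,0,0,94], 29760, 0⟩, ⟨[0,0,0,0,0,0,85,0,155], 59925, 0⟩, ⟨[0,0,0,0,0,
  0,0,42,0], 7056, 0⟩, ⟨[0,0,0,0,19,0,0,0,85], 26961, 0⟩]

theorem lk7 : chkTr lowT (leafLow 2 lowB) lt7 lc7 = true := by decide +kernel

end Pool.Agent.Helper10.Fam.E7
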